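import Pool.Agent.H80.HM.Def4

set_option autoImplicit false

/-!
# Row Fau: automorphisms of the field of complex numbers

exists_aut: z and z' have the same polynomial relations over Q. Let K = Q(z) (IntermediateField.adjoin Q {z}, countable). Case z algebraic: z' is a root of minpoly Q z, there is a field homomorphism
phi : K -> C with phi(z) = z'. Case z transcendental: then z' is transcendental; phi : K = Q(z) -> C, z -> z' (fraction field of Q[X], both isomorphic to RatFunc Q / FractionRing Q[X]).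
Now C is a K-algebra in two ways: by inclusion and by phi. Both are algebraically closed extensions; take transcendence bases B, B' over K; #B = #C = #B' since K is countable and C uncountable
(IsAlgClosed.cardinal_eq_cardinal_transcendence_basis_of_aleph0_lt, Cardinal), so IsAlgClosed.equivOfTranscendenceBasis gives a K-algebra isomorphism between the two structures, i.e. a ring
automorphism s of C with s(a) = phi(a) for a in K. s z = z'. (Use a type synonym or explicit Algebra instances for the second structure.)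
(Alternatively work over the base ring R = Q[X] acting through z and z' in the transcendental case, with transcendence bases extending z, z', and in the algebraic case use
 transcendence basis over Q: C is algebraic over Q(B), etc.)
alg_of_bd: if z is transcendental then so is 2 z, z and 2 z have the same (no) relations: s z = 2 z gives |2 z| = 1, and s = id gives |z| = 1, contradiction. If z is algebraic and every
polynomial vanishing at z vanishes at z' then the minimal polynomials agree (irreducible), so the relations are the same, and s z = z' for some s.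
-/

namespace H80HM

open Polynomial

open Cardinal in
private theorem Fau_ext {R K L : Type} [CommRing R] [Nontrivial R] [Countable R] [Field K]
    [Field L] [IsAlgClosed K] [IsAlgClosed L] [Algebra R K] [Algebra R L]
    (hK : Function.Injective (algebraMap R K)) (hL : Function.Injective (algebraMap R L))
    (hc : ℵ₀ < #K) (e0 : #K = #L) :
    ∃ s : K ≃+* L, ∀ r, s (algebraMap R K r) = algebraMap R L r := by
  have := (faithfulSMul_iff_algebraMap_injective R K).2 hK
  have := (faithfulSMul_iff_algebraMap_injective R L).2 hL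
  obtain ⟨s, hs⟩ := exists_isTranscendenceBasis R K
  obtain ⟨t, ht⟩ := exists_isTranscendenceBasis R L
  have h1 := IsAlgClosed.cardinal_eq_cardinal_transcendence_basis_of_aleph0_lt' _ hs
    Cardinal.mk_le_aleph0 hc
  have h2 := IsAlgClosed.cardinal_eq_cardinal_transcendence_basis_of_aleph0_lt' _ ht
    Cardinal.mk_le_aleph0 (by rwa [← e0])
  obtain ⟨e⟩ := Cardinal.eq.1 (h1.symm.trans (e0.trans h2))
  let _ := IsAlgClosed.isAlgClosure_of_transcendence_basis _ hs
  let _ := IsAlgClosed.isAlgClosure_of_transcendence_basis _ ht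
  let e' := (hs.1.aevalEquiv.symm.trans (MvPolynomial.renameEquiv R e)).trans ht.1.aevalEquiv
  refine ⟨IsAlgClosure.equivOfEquiv K L e'.toRingEquiv, fun r => ?_⟩
  have h3 := IsAlgClosure.equivOfEquiv_algebraMap K L e'.toRingEquiv (algebraMap R _ r)
  have h4 : e'.toRingEquiv (algebraMap R _ r) = algebraMap R _ r := e'.commutes r
  rw [h4] at h3
  exact h3

theorem exists_aut {z z' : ℂ} (h : ∀ p : ℚ[X], aeval z p = 0 ↔ aeval z' p = 0) :
    ∃ s : ℂ ≃+* ℂ, s z = z' := by
  obtain ⟨I, hI⟩ : ∃ I : Ideal ℚ[X], I = RingHom.ker (aeval z : ℚ[X] →ₐ[ℚ] ℂ) := ⟨_, rfl⟩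
  have hmem : ∀ p, p ∈ I ↔ aeval z p = 0 := by
    intro p
    rw [hI, RingHom.mem_ker]
  have hIt : I ≠ ⊤ := by
    rw [Ne, Ideal.eq_top_iff_one, hmem, map_one]
    exact one_ne_zero
  have hnt : Nontrivial (ℚ[X] ⧸ I) := Ideal.Quotient.nontrivial_iff.2 hIt
  have hcount : Countable ℚ[X] := Cardinal.mk_le_aleph0_iff.1
    (Polynomial.cardinalMk_le_max.trans (by simp))
  have hcount' : Countable (ℚ[X] ⧸ I) := Quotient.countable
  obtain ⟨φ, hφ⟩ : ∃ φ : (ℚ[X] ⧸ I) →+* ℂ, ∀ p, φ (Ideal.Quotient.mk I p) = aeval z p :=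
    ⟨Ideal.Quotient.lift I (aeval z : ℚ[X] →ₐ[ℚ] ℂ).toRingHom (fun p hp => (hmem p).1 hp),
      fun p => rfl⟩
  obtain ⟨ψ, hψ⟩ : ∃ ψ : (ℚ[X] ⧸ I) →+* ℂ, ∀ p, ψ (Ideal.Quotient.mk I p) = aeval z' p :=
    ⟨Ideal.Quotient.lift I (aeval z' : ℚ[X] →ₐ[ℚ] ℂ).toRingHom
      (fun p hp => (h p).1 ((hmem p).1 hp)), fun p => rfl⟩
  have hφi : Function.Injective φ := by
    rw [injective_iff_map_eq_zero]
    intro a ha
    obtain ⟨p, rfl⟩ := Ideal.Quotient.mk_surjective a
    rw [hφ] at ha
    exact Ideal.Quotient.eq_zero_iff_mem.2 ((hmem p).2 ha)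
  have hψi : Function.Injective ψ := by
    rw [injective_iff_map_eq_zero]
    intro a ha
    obtain ⟨p, rfl⟩ := Ideal.Quotient.mk_surjective a
    rw [hψ] at ha
    exact Ideal.Quotient.eq_zero_iff_mem.2 ((hmem p).2 ((h p).2 ha))
  obtain ⟨s, hs⟩ := @Fau_ext (ℚ[X] ⧸ I) ℂ ℂ _ hnt hcount' _ _ _ _ φ.toAlgebra ψ.toAlgebra
    hφi hψi (by rw [Cardinal.mk_complex]; exact Cardinal.aleph0_lt_continuum) rfl
  refine ⟨s, ?_⟩
  have h1 := hs (Ideal.Quotient.mk I X)
  have h2 : s (φ (Ideal.Quotient.mk I X)) = ψ (Ideal.Quotient.mk I X) := h1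
  rwa [hφ, hψ, aeval_X, aeval_X] at h2

theorem alg_of_bd {z : ℂ} (h : ∀ s : ℂ ≃+* ℂ, ‖s z‖ = 1) :
    IsAlgebraic ℚ z ∧ ∀ z' : ℂ, (∀ p : ℚ[X], aeval z p = 0 → aeval z' p = 0) → ‖z'‖ = 1 := by
  have h1 : ‖z‖ = 1 := by simpa using h (RingEquiv.refl ℂ)
  have halg : IsAlgebraic ℚ z := by
    by_contra htr
    have ht : Transcendental ℚ z := htr
    have ht2 : Transcendental ℚ (2 * z) := by
      intro h2
      apply htr
      have h3 : IsAlgebraic ℚ ((2 : ℂ)⁻¹) := by
        have := isAlgebraic_algebraMap (R := ℚ) (A := ℂ) ((2 : ℚ)⁻¹)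
        simpa using this
      have h4 := h3.mul h2
      have h5 : (2 : ℂ)⁻¹ * (2 * z) = z := by
        rw [← mul_assoc, inv_mul_cancel₀ two_ne_zero, one_mul]
      rwa [h5] at h4
    obtain ⟨s, hs⟩ := exists_aut (z := z) (z' := 2 * z) (fun p => by
      constructor
      · intro hp
        rw [transcendental_iff.1 ht p hp, map_zero]
      · intro hp
        rw [transcendental_iff.1 ht2 p hp, map_zero])
    have h6 := h s
    rw [hs, norm_mul, h1] at h6
    norm_num at h6
  refine ⟨halg, fun z' hz' => ?_⟩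
  obtain ⟨s, hs⟩ := exists_aut (z := z) (z' := z') (fun p => by
    refine ⟨hz' p, fun hp => ?_⟩
    have hi : IsIntegral ℚ z := halg.isIntegral
    have hm : minpoly ℚ z = minpoly ℚ z' :=
      minpoly.eq_of_irreducible_of_monic (minpoly.irreducible hi) (hz' _ (minpoly.aeval ℚ z))
        (minpoly.monic hi)
    have hd := minpoly.dvd ℚ z' hp
    rw [← hm] at hd
    obtain ⟨q, hq⟩ := hd
    rw [hq, map_mul, minpoly.aeval, zero_mul])
  rw [← hs]
  exact h s

end H80HM
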