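import Pool.Agent.H80.HM.Def4

set_option autoImplicit false

/-!
# Row Tin: integral traces imply integral eigenvalues

Fix w; u_1, .., u_s the distinct eigenvalues of rho(w) with multiplicities m_a >= 1; they are algebraic. p_j := tr rho(w)^j = tr rho(w^j) = sum m_a u_a^j is integral for all j >= 0.
Fix a and let Q(X) = prod_{b <> a} (X - u_b) = sum q_c X^c. Then sum_c q_c p_{j+c} = m_a u_a^j Q(u_a), Q(u_a) <> 0. The q_c are algebraic; there is an integer D >= 1 with D q_c integral for all c
(exists_integral_multiples or IsAlgebraic.exists_integral_multiple), so delta u_a^j is integral for all j with delta := D m_a Q(u_a) <> 0 algebraic. There is an integer N >= 1 that is a multiple of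
delta by an algebraic integer (delta integral, nonzero: the constant coefficient of its minimal polynomial), so N u_a^j is integral for all j.
Then u_a is integral: in the number field L = Q(u_a), all N u_a^j lie in the integral closure O of Z in L, a finitely generated (Noetherian) Z-module; so the Z-submodule generated by the N u_a^j is
finitely generated; it is nonzero and stable under multiplication by u_a: isIntegral_of_smul_mem_submodule (or: finitely many N u_a^j, j <= J, generate, so N u_a^{J+1} is an integral combination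
of the N u_a^j, j <= J; divide by N: monic equation).
-/

namespace H80HM

open Matrix

open Polynomial in
theorem Tin_int {z κ : ℂ} (hz : IsAlgebraic ℚ z) (hκ : κ ≠ 0)
    (h : ∀ j : ℕ, IsIntegral ℤ (κ * z ^ j)) : IsIntegral ℤ z := by
  have hκi : IsIntegral ℤ κ := by
    have := h 0
    rwa [pow_zero, mul_one] at this
  have hκq : IsIntegral ℚ κ := hκi.tower_top
  let S : Set ℂ := {z, κ}
  have hfd : FiniteDimensional ℚ (IntermediateField.adjoin ℚ S) := by
    apply IntermediateField.finiteDimensional_adjoin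
    intro x hx
    rcases hx with rfl | hx
    · exact hz.isIntegral
    · rw [Set.mem_singleton_iff] at hx
      rw [hx]
      exact hκq
  let L := IntermediateField.adjoin ℚ S
  have : NumberField L := { to_charZero := inferInstance, to_finiteDimensional := hfd }
  let z' : L := ⟨z, IntermediateField.subset_adjoin ℚ S (Or.inl rfl)⟩
  let κ' : L := ⟨κ, IntermediateField.subset_adjoin ℚ S (Or.inr rfl)⟩
  have hinj : Function.Injective (algebraMap L ℂ) := (algebraMap L ℂ).injective
  have hint : ∀ j : ℕ, IsIntegral ℤ (κ' * z' ^ j) := by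
    intro j
    rw [← isIntegral_algebraMap_iff (B := ℂ) hinj]
    exact h j
  have hκ0 : κ' ≠ 0 := fun h0 => hκ (congrArg Subtype.val h0)
  have hκi' : IsIntegral ℤ κ' := by
    have := hint 0
    rwa [pow_zero, mul_one] at this
  have hal : IsAlmostIntegral (NumberField.RingOfIntegers L) z' := by
    refine ⟨⟨κ', hκi'⟩, ?_, fun n => ?_⟩
    · rw [mem_nonZeroDivisors_iff_ne_zero]
      intro h0
      apply hκ0
      exact congrArg (algebraMap (NumberField.RingOfIntegers L) L) h0
    · exact ⟨⟨κ' * z' ^ n, hint n⟩, rfl⟩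
  have h1 : IsIntegral (NumberField.RingOfIntegers L) z' := hal.isIntegral
  have h2 : IsIntegral ℤ z' := isIntegral_trans z' h1
  have h3 := (isIntegral_algebraMap_iff (B := ℂ) hinj).2 h2
  exact h3

open Polynomial in
theorem Tin_nil {d : ℕ} (A : Mt d) (q : ℂ[X]) (hq : ∀ u ∈ A.charpoly.roots, q.eval u = 0) :
    trace (aeval A q) = 0 := by
  have h1 : A.charpoly ∣ q ^ (Multiset.card A.charpoly.roots) := by
    have hs : A.charpoly = (A.charpoly.roots.map fun u => X - C u).prod :=
      (IsAlgClosed.splits A.charpoly).eq_prod_roots_of_monic (Matrix.charpoly_monic A)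
    have h2 : (A.charpoly.roots.map fun u => X - C u).prod ∣
        (A.charpoly.roots.map fun _ => q).prod :=
      Multiset.prod_dvd_prod_of_dvd _ _ fun u hu => dvd_iff_isRoot.2 (hq u hu)
    rw [Multiset.map_const', Multiset.prod_replicate, ← hs] at h2
    exact h2
  have h2 : IsNilpotent (aeval A q) := by
    refine ⟨Multiset.card A.charpoly.roots, ?_⟩
    rw [← map_pow]
    obtain ⟨r, hr⟩ := h1
    rw [hr, map_mul, Matrix.aeval_self_charpoly, zero_mul]
  exact (Matrix.isNilpotent_trace_of_isNilpotent h2).eq_zero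

open Polynomial in
theorem Tin_proj {d : ℕ} (A : Mt d) {z : ℂ} (hz : z ∈ A.charpoly.roots) :
    ∃ q : ℂ[X], q.eval z = 1 ∧ (∀ u ∈ A.charpoly.roots, u ≠ z → q.eval u = 0) ∧
      trace (aeval A q) ≠ 0 := by
  have hχ0 : A.charpoly ≠ 0 := (Matrix.charpoly_monic A).ne_zero
  obtain ⟨Q, hQ, hQ0⟩ := exists_eq_pow_rootMultiplicity_mul_and_not_dvd A.charpoly hχ0 z
  have hm : 0 < rootMultiplicity z A.charpoly :=
    (rootMultiplicity_pos hχ0).2 ((mem_roots hχ0).1 hz)
  generalize rootMultiplicity z A.charpoly = m at hQ hm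
  have hcop : IsCoprime ((X - C z) ^ m) Q :=
    (((irreducible_X_sub_C z).coprime_iff_not_dvd).2 hQ0).pow_left
  obtain ⟨a, b, hab⟩ := hcop
  have hq1 : (b * Q).eval z = 1 := by
    have := congrArg (eval z) hab
    rw [eval_add, eval_mul, eval_pow, eval_sub, eval_X, eval_C, sub_self, zero_pow hm.ne',
      mul_zero, zero_add, eval_one] at this
    exact this
  refine ⟨b * Q, hq1, ?_, ?_⟩
  · intro u hu huz
    have h1 := (mem_roots hχ0).1 hu
    rw [hQ, IsRoot.def, eval_mul, eval_pow, eval_sub, eval_X, eval_C] at h1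
    rcases mul_eq_zero.1 h1 with h2 | h2
    · exact absurd h2 (pow_ne_zero m (sub_ne_zero.2 huz))
    · rw [eval_mul, h2, mul_zero]
  · intro htr
    have hid : aeval A (b * Q) * aeval A (b * Q) = aeval A (b * Q) := by
      have e : b * Q * (b * Q) - b * Q = -(a * b) * A.charpoly := by
        rw [hQ]
        linear_combination (b * Q) * hab
      have e2 := congrArg (aeval A) e
      rw [map_sub, map_mul (aeval A) (b * Q) (b * Q), map_mul (aeval A) (-(a * b)),
        Matrix.aeval_self_charpoly, mul_zero] at e2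
      exact sub_eq_zero.1 e2
    have hid2 : IsIdempotentElem (Matrix.toLin' (aeval A (b * Q))) := by
      unfold IsIdempotentElem
      rw [Module.End.mul_eq_comp, ← Matrix.toLin'_mul, hid]
    have htr2 : LinearMap.trace ℂ (Fin d → ℂ) (Matrix.toLin' (aeval A (b * Q))) = 0 := by
      rw [LinearMap.trace_eq_matrix_trace ℂ (Pi.basisFun ℂ (Fin d)),
        LinearMap.toMatrix_eq_toMatrix', LinearMap.toMatrix'_toLin', htr]
    have h0 := (LinearMap.IsIdempotentElem.trace_eq_zero_iff hid2).1 htr2
    have h0' : aeval A (b * Q) = 0 := by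
      have := congrArg LinearMap.toMatrix' h0
      rwa [LinearMap.toMatrix'_toLin', map_zero] at this
    have hsp : z ∈ spectrum ℂ A :=
      Matrix.mem_spectrum_iff_isRoot_charpoly.2 ((mem_roots hχ0).1 hz)
    have h3 := spectrum.subset_polynomial_aeval A (b * Q) ⟨z, hsp, rfl⟩
    change (b * Q).eval z ∈ _ at h3
    rw [hq1, h0', spectrum.mem_iff, map_one, sub_zero] at h3
    exact h3 isUnit_one

open Polynomial in
theorem Tin_main {d : ℕ} (A : Mt d) (halg : ∀ u ∈ A.charpoly.roots, IsAlgebraic ℚ u)
    (htr : ∀ j : ℕ, IsIntegral ℤ (trace (A ^ j))) : ∀ z ∈ A.charpoly.roots, IsIntegral ℤ z := by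
  classical
  intro z hz
  have hn : ∀ u : ℂ, ∃ y : ℤ, y ≠ 0 ∧ (u ∈ A.charpoly.roots → IsIntegral ℤ ((y : ℂ) * u)) := by
    intro u
    by_cases hu : u ∈ A.charpoly.roots
    · have h1 : IsAlgebraic ℤ u := (IsFractionRing.isAlgebraic_iff ℤ ℚ ℂ).2 (halg u hu)
      obtain ⟨y, hy, hy2⟩ := h1.exists_integral_multiple
      refine ⟨y, hy, fun _ => ?_⟩
      rwa [zsmul_eq_mul] at hy2
    · exact ⟨1, one_ne_zero, fun h => absurd h hu⟩
  choose n hn0 hnu using hn
  set R : ℂ[X] := ∏ u ∈ A.charpoly.roots.toFinset.erase z,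
    (C (n u : ℂ) * X - C ((n u : ℂ) * u)) with hR
  have hcoef : ∀ i, IsIntegral ℤ (R.coeff i) := by
    rw [hR]
    refine Finset.prod_induction _ (fun q : ℂ[X] => ∀ i, IsIntegral ℤ (q.coeff i)) ?_ ?_ ?_
    · intro p q hp hq i
      rw [coeff_mul]
      exact IsIntegral.sum _ fun x _ => (hp _).mul (hq _)
    · intro i
      rw [coeff_one]
      split_ifs
      · exact isIntegral_one
      · exact isIntegral_zero
    · intro u hu i
      rw [Finset.mem_erase, Multiset.mem_toFinset] at hu
      rw [coeff_sub, coeff_C_mul, coeff_X, coeff_C]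
      refine IsIntegral.sub (IsIntegral.mul ?_ ?_) ?_
      · exact isIntegral_algebraMap (R := ℤ) (x := n u)
      · split_ifs
        · exact isIntegral_one
        · exact isIntegral_zero
      · split_ifs
        · exact hnu u hu.2
        · exact isIntegral_zero
  have hRz : R.eval z ≠ 0 := by
    rw [hR, eval_prod]
    refine Finset.prod_ne_zero_iff.2 fun u hu => ?_
    rw [Finset.mem_erase] at hu
    rw [eval_sub, eval_mul, eval_C, eval_X, eval_C, ← mul_sub]
    exact mul_ne_zero (by exact_mod_cast hn0 u) (sub_ne_zero.2 (Ne.symm hu.1))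
  have hRu : ∀ u ∈ A.charpoly.roots, u ≠ z → R.eval u = 0 := by
    intro u hu huz
    rw [hR, eval_prod]
    apply Finset.prod_eq_zero (i := u)
    · rw [Finset.mem_erase, Multiset.mem_toFinset]
      exact ⟨huz, hu⟩
    · rw [eval_sub, eval_mul, eval_C, eval_X, eval_C, sub_self]
  obtain ⟨π, hπz, hπu, hπt⟩ := Tin_proj A hz
  have hκ : trace (aeval A R) = R.eval z * trace (aeval A π) := by
    have h1 := Tin_nil A (R - C (R.eval z) * π) (fun u hu => by
      by_cases huz : u = z
      · rw [huz, eval_sub, eval_mul, eval_C, hπz, mul_one, sub_self]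
      · rw [eval_sub, eval_mul, hRu u hu huz, hπu u hu huz, mul_zero, sub_zero])
    rw [map_sub, map_mul, aeval_C, Matrix.trace_sub, ← Algebra.smul_def, Matrix.trace_smul,
      smul_eq_mul] at h1
    exact sub_eq_zero.1 h1
  have hj : ∀ j : ℕ, trace (aeval A (X ^ j * R)) = trace (aeval A R) * z ^ j := by
    intro j
    have h1 := Tin_nil A (X ^ j * R - C (z ^ j) * R) (fun u hu => by
      by_cases huz : u = z
      · rw [huz, eval_sub, eval_mul, eval_mul, eval_C, eval_pow, eval_X, sub_self]
      · rw [eval_sub, eval_mul, eval_mul, hRu u hu huz, mul_zero, mul_zero, sub_zero])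
    rw [map_sub, map_mul (aeval A) (C (z ^ j)), aeval_C, Matrix.trace_sub, ← Algebra.smul_def,
      Matrix.trace_smul, smul_eq_mul] at h1
    rw [mul_comm (trace _)]
    exact sub_eq_zero.1 h1
  have htrq : ∀ q : ℂ[X], (∀ i, IsIntegral ℤ (q.coeff i)) → IsIntegral ℤ (trace (aeval A q)) := by
    intro q hq
    rw [aeval_eq_sum_range, Matrix.trace_sum]
    refine IsIntegral.sum _ fun i _ => ?_
    rw [Matrix.trace_smul, smul_eq_mul]
    exact (hq i).mul (htr i)
  refine Tin_int (halg z hz) (κ := trace (aeval A R)) ?_ fun j => ?_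
  · rw [hκ]
    exact mul_ne_zero hRz hπt
  · rw [← hj]
    apply htrq
    intro i
    rw [coeff_X_pow_mul']
    split_ifs
    · exact hcoef _
    · exact isIntegral_zero

theorem int_of_tr {G : Type} [Group G] {d : ℕ} (rho : G →* (Mt d)ˣ)
    (halg : ∀ w, ∀ z ∈ ((rho w : (Mt d)ˣ) : Mt d).charpoly.roots, IsAlgebraic ℚ z)
    (htr : ∀ w, IsIntegral ℤ (trace ((rho w : (Mt d)ˣ) : Mt d))) :
    ∀ w, ∀ z ∈ ((rho w : (Mt d)ˣ) : Mt d).charpoly.roots, IsIntegral ℤ z := by
  intro w
  refine Tin_main _ (halg w) fun j => ?_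
  have := htr (w ^ j)
  rwa [map_pow, Units.val_pow_eq_pow_val] at this

end H80HM
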