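import Pool.Agent.H80.HM.Def4

set_option autoImplicit false

/-!
# Row Jhd: irreducible constituents of a representation

V = C^D with G acting through pi (a module over the group algebra MonoidAlgebra C G, finite dimensional, hence of finite length). Take a composition series 0 = V_0 < V_1 < ... < V_N = V of
invariant subspaces (maximal chain; induction on the dimension), r_i := the action on V_{i+1}/V_i in a basis (dimension k_i > 0), a simple module. Irg: Burnside's theorem: a simple
finite dimensional module over an algebraically closed field: the image of the group algebra is everything (Mathlib: IsSimpleModule + Jacobson density /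
Module.Finite.. `LinearMap..`, `Algebra.. surjective of isSimpleModule` (Burnside), or proved directly: the image S of the group algebra acts irreducibly; commutant = scalars by Schur and
algebraic closedness; density theorem). Charpoly: in a basis adapted to the flag all pi(g) are block upper triangular with diagonal blocks r_i(g)
(Matrix.charpoly_fromBlocks_zero21 etc., induction).
Twist: let a : G = G be an automorphism with pi(a g) = T pi(g) T^{-1}. Invariant subspaces for g -> pi(a g) are the same as for pi. T V_i is again a composition series (of the same lattice of invariant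
subspaces: pi(a g) T V_i = T pi(g) V_i = T V_i, and a is surjective). By Jordan-Hoelder (Mathlib: CompositionSeries.jordan_holder for Submodule, JordanHolderModule) there is a
bijection i -> i' with T V_{i+1}/T V_i isomorphic to V_{i'+1}/V_{i'} as G-modules via pi. T induces V_{i+1}/V_i -> T V_{i+1}/T V_i which intertwines pi(g) with pi(a g) =: so
r_i(g) ~ r_{i'}(a g) for all g, i.e. r_{i'} o a isomorphic to r_i. This is the claim (j := i, i := i').
(Alternative without Jordan-Hoelder: induction on the dimension proving: every simple subquotient W2/W1 of V is isomorphic to some r_i.)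
-/

namespace H80HM

open Matrix

section gen

variable {R : Type} [Ring R] [Algebra ℂ R]

/-- Burnside's theorem -/
private lemma Jhd_burnside {V : Type} [AddCommGroup V] [Module ℂ V] [FiniteDimensional ℂ V]
    [Nontrivial V] (f : R →ₐ[ℂ] Module.End ℂ V)
    (h : ∀ W : Submodule ℂ V, (∀ x, W ≤ W.comap (f x)) → W = ⊥ ∨ W = ⊤) :
    Function.Surjective f := by
  let _ : Module R V := Module.compHom V f.toRingHom
  have hsm : ∀ (x : R) (v : V), x • v = f x v := fun _ _ => rfl
  have : IsScalarTower ℂ R V := ⟨fun c x v => by rw [hsm, hsm, map_smul]; rfl⟩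
  have : IsSimpleModule R V := by
    refine (isSimpleModule_iff R V).2 ⟨fun M => ?_⟩
    have h1 := h (M.restrictScalars ℂ) (fun x v hv => M.smul_mem x hv)
    rcases h1 with h2 | h2
    · left
      exact (Submodule.restrictScalars_eq_bot_iff ℂ R V).1 h2
    · right
      exact (Submodule.restrictScalars_eq_top_iff ℂ R V).1 h2
  intro g
  have hend : ∀ e : Module.End R V, ∃ c : ℂ, ∀ v, e v = c • v := by
    intro e
    obtain ⟨c, hc⟩ :=
      (IsSimpleModule.algebraMap_end_bijective_of_isAlgClosed (A := R) (V := V) ℂ).2 e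
    exact ⟨c, fun v => by rw [← hc]; rfl⟩
  let g' : Module.End (Module.End R V) V :=
    { toFun := g
      map_add' := map_add g
      map_smul' := fun e v => by
        obtain ⟨c, hc⟩ := hend e
        change g (e v) = e (g v)
        rw [hc, hc, map_smul] }
  obtain ⟨s, hs⟩ := Module.finite_def.1 (inferInstance : Module.Finite ℂ V)
  obtain ⟨x, hx⟩ := jacobson_density g' s
  refine ⟨x, LinearMap.ext_on hs fun v hv => (hx v hv).symm⟩

private lemma Jhd_charpoly {V : Type} [AddCommGroup V] [Module ℂ V] [FiniteDimensional ℂ V]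
    (W : Submodule ℂ V) (e : V →ₗ[ℂ] V) (he : W ≤ W.comap e) :
    e.charpoly = (e.restrict he).charpoly * (W.mapQ W e he).charpoly := by
  classical
  let m := Module.Free.ChooseBasisIndex ℂ W
  let bW : Module.Basis m ℂ W := Module.Free.chooseBasis ℂ W
  let n := Module.Free.ChooseBasisIndex ℂ (V ⧸ W)
  let bQ : Module.Basis n ℂ (V ⧸ W) := Module.Free.chooseBasis ℂ (V ⧸ W)
  let b := Module.Basis.sumQuot bW bQ
  let A : Matrix m m ℂ := LinearMap.toMatrix bW bW (e.restrict he)
  let B : Matrix m n ℂ := Matrix.of fun i l ↦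
    ((Module.Basis.sumQuot bW bQ).repr (e ((Module.Basis.sumQuot bW bQ) (Sum.inr l)))) (Sum.inl i)
  let D : Matrix n n ℂ := LinearMap.toMatrix bQ bQ (W.mapQ W e he)
  have key : LinearMap.toMatrix b b e = Matrix.fromBlocks A B 0 D := by
    ext u v
    cases u with
    | inl i =>
      cases v with
      | inl k =>
        simp only [b, Module.Basis.sumQuot_inl, Matrix.fromBlocks_apply₁₁, A,
          LinearMap.toMatrix_apply]
        apply Module.Basis.sumQuot_repr_inl_of_mem
      | inr l => simp [b, LinearMap.toMatrix_apply, Matrix.fromBlocks_apply₁₂, B]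
    | inr j =>
      cases v with
      | inl k =>
        suffices W.mkQ (e (bW k)) = 0 by simp [LinearMap.toMatrix_apply, b, this]
        rw [← LinearMap.mem_ker, Submodule.ker_mkQ]
        exact he (Submodule.coe_mem (bW k))
      | inr l =>
        simp only [LinearMap.toMatrix_apply, Module.Basis.sumQuot_repr_inr,
          Matrix.fromBlocks_apply₂₂, b, D]
        rw [← Module.Basis.sumQuot_inr bW bQ l, W.mapQ_apply]
        simp
  rw [← LinearMap.charpoly_toMatrix e b, key, Matrix.charpoly_fromBlocks_zero₂₁,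
    LinearMap.charpoly_toMatrix, LinearMap.charpoly_toMatrix]

private lemma Jhd_prime {k : ℕ} {A B : Mt k} (hA : A ≠ 0) (hB : B ≠ 0) :
    ∃ C : Mt k, A * C * B ≠ 0 := by
  obtain ⟨i, j, hij⟩ : ∃ i j, A i j ≠ 0 := by
    by_contra h
    push Not at h
    exact hA (by ext i j; exact h i j)
  obtain ⟨p, q, hpq⟩ : ∃ p q, B p q ≠ 0 := by
    by_contra h
    push Not at h
    exact hB (by ext i j; exact h i j)
  refine ⟨Matrix.of fun a b => if a = j ∧ b = p then 1 else 0, fun h => ?_⟩
  have h1 := congrFun (congrFun h i) q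
  have h2 : (A * (Matrix.of fun a b => if a = j ∧ b = p then (1 : ℂ) else 0) * B) i q =
      A i j * B p q := by
    rw [Matrix.mul_apply, Finset.sum_eq_single p]
    · rw [Matrix.mul_apply, Finset.sum_eq_single j]
      · simp
      · intro b _ hb
        simp [hb]
      · intro h; exact absurd (Finset.mem_univ _) h
    · intro b _ hb
      rw [Matrix.mul_apply, Finset.sum_eq_zero, zero_mul]
      intro c _
      simp [hb]
    · intro h; exact absurd (Finset.mem_univ _) h
  rw [h2] at h1
  exact mul_ne_zero hij hpq h1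

/-- restriction to an invariant subspace -/
private noncomputable def Jhd_res {V : Type} [AddCommGroup V] [Module ℂ V]
    (f : R →ₐ[ℂ] Module.End ℂ V) (W : Submodule ℂ V) (hW : ∀ x, W ≤ W.comap (f x)) :
    R →ₐ[ℂ] Module.End ℂ W where
  toFun x := (f x).restrict (hW x)
  map_one' := by ext v; simp
  map_mul' x y := by ext v; simp
  map_zero' := by ext v; simp
  map_add' x y := by ext v; simp
  commutes' c := by ext v; simp

/-- the quotient by an invariant subspace -/
private noncomputable def Jhd_quo {V : Type} [AddCommGroup V] [Module ℂ V]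
    (f : R →ₐ[ℂ] Module.End ℂ V) (W : Submodule ℂ V) (hW : ∀ x, W ≤ W.comap (f x)) :
    R →ₐ[ℂ] Module.End ℂ (V ⧸ W) where
  toFun x := W.mapQ W (f x) (hW x)
  map_one' := by ext v; simp
  map_mul' x y := by ext v; simp
  map_zero' := by ext v; simp
  map_add' x y := by ext v; simp
  commutes' c := by ext v; simp

private theorem Jhd_main (n : ℕ) : ∀ (V : Type) [AddCommGroup V] [Module ℂ V]
    [FiniteDimensional ℂ V] (f : R →ₐ[ℂ] Module.End ℂ V), Module.finrank ℂ V ≤ n →
    ∃ L : List (Σ k : ℕ, R →ₐ[ℂ] Mt k),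
      (∀ s ∈ L, 0 < s.1 ∧ Function.Surjective s.2 ∧ ∀ x, f x = 0 → s.2 x = 0) ∧
      (∀ x, (f x).charpoly = (L.map fun s => (s.2 x).charpoly).prod) ∧
      ∀ (k : ℕ) (p : R →ₐ[ℂ] Mt k), 0 < k → Function.Surjective p →
        (∀ x, f x = 0 → p x = 0) → ∃ s ∈ L, ∀ x, s.2 x = 0 → p x = 0 := by
  induction n with
  | zero =>
    intro V _ _ _ f hn
    have hs : Subsingleton V := Module.finrank_zero_iff.1 (Nat.le_zero.1 hn)
    refine ⟨[], fun s hs => absurd hs (List.not_mem_nil), fun x => ?_, fun k p hk _ hp => ?_⟩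
    · have h1 := (f x).charpoly_natDegree
      rw [Nat.le_zero.1 hn] at h1
      rw [List.map_nil, List.prod_nil]
      exact (f x).charpoly_monic.natDegree_eq_zero.1 h1
    · exfalso
      have h1 : p 1 = 0 := hp 1 (Subsingleton.elim _ _)
      rw [map_one] at h1
      have : Nonempty (Fin k) := ⟨⟨0, hk⟩⟩
      exact one_ne_zero h1
  | succ n ih =>
    intro V _ _ _ f hn
    rcases Nat.lt_or_ge n (Module.finrank ℂ V) with hlt | hge
    swap
    · exact ih V f hge
    have hfr : 0 < Module.finrank ℂ V := by omega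
    have : Nontrivial V := Module.nontrivial_of_finrank_pos hfr
    by_cases h : ∀ W : Submodule ℂ V, (∀ x, W ≤ W.comap (f x)) → W = ⊥ ∨ W = ⊤
    · have hsur := Jhd_burnside f h
      let b := Module.finBasis ℂ V
      let e := LinearMap.toMatrixAlgEquiv b
      refine ⟨[⟨Module.finrank ℂ V, e.toAlgHom.comp f⟩], ?_, ?_, ?_⟩
      · intro s hs
        rw [List.mem_singleton] at hs
        subst hs
        refine ⟨hfr, ?_, ?_⟩
        · exact e.surjective.comp hsur
        · intro x hx
          change e (f x) = 0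
          rw [hx, map_zero]
      · intro x
        rw [List.map_singleton, List.prod_singleton]
        exact (LinearMap.charpoly_toMatrix (f x) b).symm
      · intro k p _ _ hp
        refine ⟨_, List.mem_singleton_self _, fun x hx => hp x ?_⟩
        exact e.injective (by rw [map_zero]; exact hx)
    · push Not at h
      obtain ⟨W, hW, hb, ht⟩ := h
      have h1 : Module.finrank ℂ W < Module.finrank ℂ V := Submodule.finrank_lt ht
      have h2 : Module.finrank ℂ (V ⧸ W) + Module.finrank ℂ W = Module.finrank ℂ V :=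
        Submodule.finrank_quotient_add_finrank W
      have h3 : 0 < Module.finrank ℂ W := by
        rw [Nat.pos_iff_ne_zero]
        intro h0
        exact hb (Submodule.finrank_eq_zero.1 h0)
      obtain ⟨L1, a1, b1, c1⟩ := ih W (Jhd_res f W hW) (by omega)
      obtain ⟨L2, a2, b2, c2⟩ := ih (V ⧸ W) (Jhd_quo f W hW) (by omega)
      refine ⟨L1 ++ L2, ?_, ?_, ?_⟩
      · intro s hs
        rcases List.mem_append.1 hs with hs | hs
        · obtain ⟨d1, d2, d3⟩ := a1 s hs
          refine ⟨d1, d2, fun x hx => d3 x ?_⟩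
          ext v
          change ((f x) v : V) = 0
          rw [hx]
          rfl
        · obtain ⟨d1, d2, d3⟩ := a2 s hs
          refine ⟨d1, d2, fun x hx => d3 x ?_⟩
          refine LinearMap.ext fun v => ?_
          obtain ⟨v, rfl⟩ := W.mkQ_surjective v
          change W.mapQ W (f x) (hW x) (W.mkQ v) = 0
          rw [Submodule.mkQ_apply, Submodule.mapQ_apply, hx, LinearMap.zero_apply,
            Submodule.Quotient.mk_zero]
      · intro x
        rw [List.map_append, List.prod_append, ← b1 x, ← b2 x]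
        exact Jhd_charpoly W (f x) (hW x)
      · intro k p hk hp hker
        by_cases e1 : ∀ x, Jhd_res f W hW x = 0 → p x = 0
        · obtain ⟨s, hs, hs2⟩ := c1 k p hk hp e1
          exact ⟨s, List.mem_append_left _ hs, hs2⟩
        · by_cases e2 : ∀ x, Jhd_quo f W hW x = 0 → p x = 0
          · obtain ⟨s, hs, hs2⟩ := c2 k p hk hp e2
            exact ⟨s, List.mem_append_right _ hs, hs2⟩
          · exfalso
            push Not at e1 e2
            obtain ⟨x, hx1, hx2⟩ := e1
            obtain ⟨y, hy1, hy2⟩ := e2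
            obtain ⟨C, hC⟩ := Jhd_prime hx2 hy2
            obtain ⟨z, rfl⟩ := hp C
            apply hC
            rw [← map_mul, ← map_mul]
            refine hker _ (LinearMap.ext fun v => ?_)
            have hyv : f y v ∈ W := by
              have h4 : Jhd_quo f W hW y (W.mkQ v) = 0 := by rw [hy1]; rfl
              change W.mapQ W (f y) (hW y) (W.mkQ v) = 0 at h4
              rw [Submodule.mkQ_apply, Submodule.mapQ_apply] at h4
              exact (Submodule.Quotient.mk_eq_zero W).1 h4
            have hzv : f z (f y v) ∈ W := hW z hyv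
            have hxv : f x (f z (f y v)) = 0 := by
              have h5 : Jhd_res f W hW x ⟨f z (f y v), hzv⟩ = 0 := by rw [hx1]; rfl
              exact congrArg (fun w : W => (w : V)) h5
            rw [map_mul, map_mul]
            exact hxv

/-- surjective homomorphisms onto matrix algebras with comparable kernels are conjugate -/
private lemma Jhd_sn {k1 k2 : ℕ} (hk1 : 0 < k1) (hk2 : 0 < k2) (p1 : R →ₐ[ℂ] Mt k1)
    (p2 : R →ₐ[ℂ] Mt k2) (h1 : Function.Surjective p1) (h2 : Function.Surjective p2)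
    (hk : ∀ x, p1 x = 0 → p2 x = 0) :
    ∃ (T : Matrix (Fin k1) (Fin k2) ℂ) (T' : Matrix (Fin k2) (Fin k1) ℂ), T * T' = 1 ∧
      T' * T = 1 ∧ ∀ x, p1 x * T = T * p2 x := by
  classical
  have : Nonempty (Fin k1) := ⟨⟨0, hk1⟩⟩
  have : Nonempty (Fin k2) := ⟨⟨0, hk2⟩⟩
  have hsec := Function.surjInv_eq h1
  set sg := Function.surjInv h1 with hsg
  have hw : ∀ x y, p1 x = p1 y → p2 x = p2 y := by
    intro x y hxy
    have := hk (x - y) (by rw [map_sub, hxy, sub_self])
    rw [map_sub] at this
    exact sub_eq_zero.1 this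
  let ps : Mt k1 →ₐ[ℂ] Mt k2 :=
    { toFun := fun M => p2 (sg M)
      map_one' := by
        rw [hw (sg 1) 1 (by rw [hsec, map_one]), map_one]
      map_mul' := fun M N => by
        rw [hw (sg (M * N)) (sg M * sg N) (by rw [hsec, map_mul, hsec, hsec]), map_mul]
      map_zero' := by
        rw [hw (sg 0) 0 (by rw [hsec, map_zero]), map_zero]
      map_add' := fun M N => by
        rw [hw (sg (M + N)) (sg M + sg N) (by rw [hsec, map_add, hsec, hsec]), map_add]
      commutes' := fun c => by
        rw [hw (sg _) (algebraMap ℂ R c) (by rw [hsec, AlgHom.commutes]), AlgHom.commutes] }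
  have hps : ∀ x, ps (p1 x) = p2 x := fun x => hw _ _ (hsec _)
  have hinj : Function.Injective ps := RingHom.injective ps.toRingHom
  have hsur : Function.Surjective ps := fun M => by
    obtain ⟨x, rfl⟩ := h2 M
    exact ⟨p1 x, hps x⟩
  let e : Mt k1 ≃ₐ[ℂ] Mt k2 := AlgEquiv.ofBijective ps ⟨hinj, hsur⟩
  let E : Module.End ℂ (Fin k1 → ℂ) ≃ₐ[ℂ] Module.End ℂ (Fin k2 → ℂ) :=
    (Matrix.toLinAlgEquiv'.symm.trans e).trans Matrix.toLinAlgEquiv'
  obtain ⟨T, hT⟩ := E.eq_linearEquivConjAlgEquiv
  have hE : ∀ x, Matrix.toLin' (p2 x) =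
      T.toLinearMap ∘ₗ Matrix.toLin' (p1 x) ∘ₗ T.symm.toLinearMap := by
    intro x
    have h3 := congrArg (fun F : Module.End ℂ (Fin k1 → ℂ) ≃ₐ[ℂ] Module.End ℂ (Fin k2 → ℂ) =>
      F (Matrix.toLinAlgEquiv' (p1 x))) hT
    have h4 : E (Matrix.toLinAlgEquiv' (p1 x)) = Matrix.toLinAlgEquiv' (p2 x) := by
      change Matrix.toLinAlgEquiv' (ps (Matrix.toLinAlgEquiv'.symm
        (Matrix.toLinAlgEquiv' (p1 x)))) = _
      rw [AlgEquiv.symm_apply_apply, hps]
    rw [h4] at h3
    exact h3
  refine ⟨LinearMap.toMatrix' T.symm.toLinearMap, LinearMap.toMatrix' T.toLinearMap, ?_, ?_, ?_⟩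
  · rw [← LinearMap.toMatrix'_comp]
    have : T.symm.toLinearMap ∘ₗ T.toLinearMap = LinearMap.id := by ext; simp
    rw [this, LinearMap.toMatrix'_id]
  · rw [← LinearMap.toMatrix'_comp]
    have : T.toLinearMap ∘ₗ T.symm.toLinearMap = LinearMap.id := by ext; simp
    rw [this, LinearMap.toMatrix'_id]
  · intro x
    have h5 : Matrix.toLin' (p1 x) ∘ₗ T.symm.toLinearMap =
        T.symm.toLinearMap ∘ₗ Matrix.toLin' (p2 x) := by
      rw [hE]
      refine LinearMap.ext fun v => ?_
      simp
    have h6 := congrArg LinearMap.toMatrix' h5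
    rw [LinearMap.toMatrix'_comp, LinearMap.toMatrix'_comp, LinearMap.toMatrix'_toLin',
      LinearMap.toMatrix'_toLin'] at h6
    exact h6

end gen

theorem jh {G : Type} [Group G] {Dm : ℕ} (pi : G →* (Mt Dm)ˣ) :
    ∃ (N : ℕ) (k : Fin N → ℕ) (r : ∀ i, G →* (Mt (k i))ˣ),
      (∀ i, 0 < k i) ∧ (∀ i, Irg (r i)) ∧
      (∀ g, ((pi g : (Mt Dm)ˣ) : Mt Dm).charpoly =
        ∏ i, ((r i g : (Mt (k i))ˣ) : Mt (k i)).charpoly) ∧
      ∀ a : G ≃* G, (∃ T : (Mt Dm)ˣ, ∀ g, pi (a g) = T * pi g * T⁻¹) →
        ∀ j, ∃ i, Rsm ((r i).comp a.toMonoidHom) (r j) := by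
  classical
  let R := MonoidAlgebra ℂ G
  let ph : R →ₐ[ℂ] Mt Dm := MonoidAlgebra.lift ℂ (Mt Dm) G ((Units.coeHom (Mt Dm)).comp pi)
  have hph : ∀ g, ph (MonoidAlgebra.of ℂ G g) = ((pi g : (Mt Dm)ˣ) : Mt Dm) := fun g =>
    MonoidAlgebra.lift_of _ _
  let f : R →ₐ[ℂ] Module.End ℂ (Fin Dm → ℂ) :=
    (Matrix.toLinAlgEquiv' (R := ℂ) (n := Fin Dm)).toAlgHom.comp ph
  have hf : ∀ x, f x = 0 ↔ ph x = 0 := by
    intro x
    constructor
    · intro h
      exact (Matrix.toLinAlgEquiv' (R := ℂ) (n := Fin Dm)).injective (by rw [map_zero]; exact h)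
    · intro h
      change Matrix.toLinAlgEquiv' (ph x) = 0
      rw [h, map_zero]
  obtain ⟨L, hL1, hL2, hL3⟩ := Jhd_main (R := R) (Module.finrank ℂ (Fin Dm → ℂ)) (Fin Dm → ℂ) f
    le_rfl
  let r : ∀ i : Fin L.length, G →* (Mt (L.get i).1)ˣ := fun i =>
    (((L.get i).2 : R →* Mt (L.get i).1).comp (MonoidAlgebra.of ℂ G)).toHomUnits
  have hr : ∀ i g, ((r i g : (Mt (L.get i).1)ˣ) : Mt (L.get i).1) =
      (L.get i).2 (MonoidAlgebra.of ℂ G g) := fun i g => rfl
  have hgen : Algebra.adjoin ℂ (Set.range (MonoidAlgebra.of ℂ G)) = (⊤ : Subalgebra ℂ R) := by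
    refine top_unique fun x _ => ?_
    exact Algebra.adjoin_mono (Set.image_subset_range _ _) (MonoidAlgebra.mem_adjoin_support x)
  refine ⟨L.length, fun i => (L.get i).1, r, fun i => (hL1 _ (L.get_mem i)).1, fun i => ?_,
    fun g => ?_, ?_⟩
  · have hs := (hL1 _ (L.get_mem i)).2.1
    unfold Irg
    have h1 : (Set.range fun g => ((r i g : (Mt (L.get i).1)ˣ) : Mt (L.get i).1)) =
        (L.get i).2 '' Set.range (MonoidAlgebra.of ℂ G) := by
      rw [← Set.range_comp]
      rfl
    rw [h1, ← AlgHom.map_adjoin, hgen, Algebra.map_top]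
    exact (AlgHom.range_eq_top _).2 hs
  · rw [← hph, ← Matrix.charpoly_mulVecLin]
    have h1 := hL2 (MonoidAlgebra.of ℂ G g)
    have h2 : f (MonoidAlgebra.of ℂ G g) = (ph (MonoidAlgebra.of ℂ G g)).mulVecLin := rfl
    rw [← h2, h1]
    have h3 : (fun i : Fin L.length => ((r i g : (Mt (L.get i).1)ˣ) : Mt (L.get i).1).charpoly) =
      fun i => (fun s : (Σ k : ℕ, R →ₐ[ℂ] Mt k) =>
        (s.2 (MonoidAlgebra.of ℂ G g)).charpoly) (L.get i) := rfl
    rw [h3]
    exact (Fin.prod_univ_fun_getElem L fun s : (Σ k : ℕ, R →ₐ[ℂ] Mt k) =>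
      (s.2 (MonoidAlgebra.of ℂ G g)).charpoly).symm
  · rintro a ⟨T, hT⟩ j
    let al : R →ₐ[ℂ] R := MonoidAlgebra.mapDomainAlgHom ℂ ℂ (a : G →* G)
    let be : R →ₐ[ℂ] R := MonoidAlgebra.mapDomainAlgHom ℂ ℂ (a.symm : G →* G)
    have hal : ∀ g, al (MonoidAlgebra.of ℂ G g) = MonoidAlgebra.of ℂ G (a g) := by
      intro g
      exact MonoidAlgebra.mapDomain_single
    have hbe : ∀ g, be (MonoidAlgebra.of ℂ G g) = MonoidAlgebra.of ℂ G (a.symm g) := by
      intro g
      exact MonoidAlgebra.mapDomain_single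
    have hab : ∀ x, al (be x) = x := by
      intro x
      have h1 : al.comp be = AlgHom.id ℂ R := by
        refine AlgHom.ext_of_adjoin_eq_top hgen ?_
        rintro _ ⟨g, rfl⟩
        change al (be (MonoidAlgebra.of ℂ G g)) = MonoidAlgebra.of ℂ G g
        rw [hbe, hal, MulEquiv.apply_symm_apply]
      exact congrArg (fun F : R →ₐ[ℂ] R => F x) h1
    have hba : ∀ x, be (al x) = x := by
      intro x
      have h1 : be.comp al = AlgHom.id ℂ R := by
        refine AlgHom.ext_of_adjoin_eq_top hgen ?_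
        rintro _ ⟨g, rfl⟩
        change be (al (MonoidAlgebra.of ℂ G g)) = MonoidAlgebra.of ℂ G g
        rw [hal, hbe, MulEquiv.symm_apply_apply]
      exact congrArg (fun F : R →ₐ[ℂ] R => F x) h1
    have hconj : ∀ x, ph (al x) = (T : Mt Dm) * ph x * ((T⁻¹ : (Mt Dm)ˣ) : Mt Dm) := by
      intro x
      have hx : x ∈ Algebra.adjoin ℂ (Set.range (MonoidAlgebra.of ℂ G)) := by
        rw [hgen]; trivial
      induction hx using Algebra.adjoin_induction with
      | mem y hy =>
        obtain ⟨g, rfl⟩ := hy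
        rw [hal, hph, hph, hT]
        push_cast
        rfl
      | algebraMap c =>
        rw [AlgHom.commutes, AlgHom.commutes, Algebra.algebraMap_eq_smul_one, Matrix.mul_smul,
          Matrix.smul_mul, Matrix.mul_one, Units.mul_inv]
      | add y z _ _ hy hz =>
        rw [map_add, map_add, hy, hz, map_add, Matrix.mul_add, Matrix.add_mul]
      | mul y z _ _ hy hz =>
        rw [map_mul, map_mul, hy, hz, map_mul]
        calc (T : Mt Dm) * ph y * ((T⁻¹ : (Mt Dm)ˣ) : Mt Dm) *
              ((T : Mt Dm) * ph z * ((T⁻¹ : (Mt Dm)ˣ) : Mt Dm))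
            = (T : Mt Dm) * ph y * (((T⁻¹ : (Mt Dm)ˣ) : Mt Dm) * (T : Mt Dm)) * ph z *
                ((T⁻¹ : (Mt Dm)ˣ) : Mt Dm) := by simp only [Matrix.mul_assoc]
          _ = (T : Mt Dm) * (ph y * ph z) * ((T⁻¹ : (Mt Dm)ˣ) : Mt Dm) := by
              rw [Units.inv_mul, Matrix.mul_one]; simp only [Matrix.mul_assoc]
    have hz : ∀ x, ph (al x) = 0 → ph x = 0 := by
      intro x hx
      have h1 : ph x = ((T⁻¹ : (Mt Dm)ˣ) : Mt Dm) * ph (al x) * (T : Mt Dm) := by
        rw [hconj]
        calc ph x = (((T⁻¹ : (Mt Dm)ˣ) : Mt Dm) * (T : Mt Dm)) * ph x *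
              (((T⁻¹ : (Mt Dm)ˣ) : Mt Dm) * (T : Mt Dm)) := by
              rw [Units.inv_mul, Matrix.one_mul, Matrix.mul_one]
          _ = _ := by simp only [Matrix.mul_assoc]
      rw [h1, hx, Matrix.mul_zero, Matrix.zero_mul]
    obtain ⟨d1, d2, d3⟩ := hL1 _ (L.get_mem j)
    have hpsur : Function.Surjective ((L.get j).2.comp be) := by
      intro M
      obtain ⟨x, hx⟩ := d2 M
      exact ⟨al x, by change (L.get j).2 (be (al x)) = M; rw [hba, hx]⟩
    obtain ⟨s, hs, hs2⟩ := hL3 _ ((L.get j).2.comp be) d1 hpsur (fun x hx => by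
      refine d3 _ ((hf _).2 (hz _ ?_))
      have h1 : al (be x) = x := hab x
      exact (congrArg ph h1).trans ((hf x).1 hx))
    obtain ⟨i, rfl⟩ := List.get_of_mem hs
    obtain ⟨e1, e2, e3⟩ := hL1 _ (L.get_mem i)
    obtain ⟨Q, Q', q1, q2, q3⟩ := Jhd_sn (R := R) e1 d1 ((L.get i).2.comp al) (L.get j).2
      (by
        intro M
        obtain ⟨x, hx⟩ := e2 M
        exact ⟨be x, by change (L.get i).2 (al (be x)) = M; rw [hab, hx]⟩) d2
      (fun x hx => by
        have h1 := hs2 (al x) hx
        change (L.get j).2 (be (al x)) = 0 at h1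
        rw [hba] at h1
        exact h1)
    refine ⟨i, Q, Q', q1, q2, fun g => ?_⟩
    have h1 := q3 (MonoidAlgebra.of ℂ G g)
    change (L.get i).2 (al (MonoidAlgebra.of ℂ G g)) * Q = _ at h1
    rw [hal] at h1
    exact h1

end H80HM
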