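import Pool.Agent.H80.HM.Sta

set_option autoImplicit false

/-!
# Row Stb: step A for a homomorphism f : Cˣ -> R, with a symmetry T
-/

namespace H80HM

open Matrix Module Polynomial

theorem Stb_one (f : ℂ → ℝ) (hf : ∀ a b : ℂ, a ≠ 0 → b ≠ 0 → f (a * b) = f a + f b) :
    f 1 = 0 := by
  have := hf 1 1 one_ne_zero one_ne_zero
  rw [mul_one] at this
  linarith

theorem Stb_ms (f : ℂ → ℝ) (hf : ∀ a b : ℂ, a ≠ 0 → b ≠ 0 → f (a * b) = f a + f b)
    (m : Multiset ℂ) (hm : ∀ z ∈ m, z ≠ 0) (q : ℂ) (hq : q ≠ 0) :
    ((m.map (fun z => q * z)).map (fun z => f z ^ 2)).sum = (Multiset.card m : ℝ) * f q ^ 2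
      + 2 * f q * f m.prod + (m.map (fun z => f z ^ 2)).sum := by
  induction m using Multiset.induction with
  | empty => simp [Stb_one f hf]
  | cons a s ih =>
    have ha : a ≠ 0 := hm a (Multiset.mem_cons_self a s)
    have hs : ∀ z ∈ s, z ≠ 0 := fun z hz => hm z (Multiset.mem_cons_of_mem hz)
    have hp : s.prod ≠ 0 := by
      intro h0
      rw [Multiset.prod_eq_zero_iff] at h0
      exact hs 0 h0 rfl
    simp only [Multiset.map_cons, Multiset.sum_cons, Multiset.prod_cons, Multiset.card_cons]
    rw [ih hs, hf q a hq ha, hf a s.prod ha hp]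
    push_cast
    ring

theorem Stb_det {V : Type} [AddCommGroup V] [Module ℂ V] [Module.Finite ℂ V] (W : End ℂ V)
    (h : ∀ z ∈ (LinearMap.charpoly W).roots, z ≠ 0) : LinearMap.det W ≠ 0 := by
  rw [Sta_det]
  intro h0
  rw [Multiset.prod_eq_zero_iff] at h0
  exact h 0 h0 rfl

theorem Stb_A (f : ℂ → ℝ) (hf : ∀ a b : ℂ, a ≠ 0 → b ≠ 0 → f (a * b) = f a + f b)
    (S : Set ℂ) (a : ℝ) (hS : ∀ q ∈ S, q ≠ 0 ∧ f q = a) (n : ℕ) :
    ∀ (V : Type) [AddCommGroup V] [Module ℂ V] [Module.Finite ℂ V], finrank ℂ V = n →
    ∀ (g W : End ℂ V), (∀ z ∈ (LinearMap.charpoly W).roots, z ≠ 0) → g * W = W * g →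
    Submodule.span ℂ {v : V | ∃ q ∈ S, g v = q • v} = ⊤ →
    ((LinearMap.charpoly (W * g)).roots.map (fun z => f z ^ 2)).sum
      = (n : ℝ) * a ^ 2 + 2 * a * f (LinearMap.det W)
        + ((LinearMap.charpoly W).roots.map (fun z => f z ^ 2)).sum := by
  induction n using Nat.strong_induction_on with
  | _ n ih =>
    intro V _ _ _ hn g W hW hc hspan
    by_cases hV : Nontrivial V
    · obtain ⟨v, q, hqS, hv, hv0⟩ : ∃ v : V, ∃ q ∈ S, g v = q • v ∧ v ≠ 0 := by
        by_contra hcon
        have : Submodule.span ℂ {v : V | ∃ q ∈ S, g v = q • v} = ⊥ := by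
          rw [Submodule.span_eq_bot]
          rintro x ⟨q, hq, hx⟩
          by_contra hx0
          exact hcon ⟨x, q, hq, hx, hx0⟩
        rw [hspan] at this
        exact top_ne_bot this
      obtain ⟨hq0, hfq⟩ := hS q hqS
      set U : Submodule ℂ V := Module.End.eigenspace g q with hUdef
      have hUg : U ≤ U.comap g := by
        intro x hx
        rw [hUdef, Module.End.mem_eigenspace_iff] at hx
        rw [Submodule.mem_comap, hx]
        apply U.smul_mem
        rw [hUdef, Module.End.mem_eigenspace_iff]
        exact hx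
      have hUW : U ≤ U.comap W := by
        intro x hx
        rw [hUdef, Module.End.mem_eigenspace_iff] at hx
        rw [Submodule.mem_comap, hUdef, Module.End.mem_eigenspace_iff]
        have := congrArg (fun f : End ℂ V => f x) hc
        simp only [Module.End.mul_apply] at this
        rw [this, hx, map_smul]
      have hUWg : U ≤ U.comap (W * g) := by
        intro x hx
        exact hUW (hUg hx)
      have hvU : v ∈ U := by
        rw [hUdef, Module.End.mem_eigenspace_iff]
        exact hv
      have hUb : 0 < finrank ℂ U := by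
        rw [Module.finrank_pos_iff]
        rw [Submodule.nontrivial_iff_ne_bot]
        intro h
        rw [h, Submodule.mem_bot] at hvU
        exact hv0 hvU
      have hsum := Submodule.finrank_quotient_add_finrank U
      have hdim : finrank ℂ (V ⧸ U) < n := by
        omega
      have hQ := ih (finrank ℂ (V ⧸ U)) hdim (V ⧸ U) rfl (U.mapQ U g hUg) (U.mapQ U W hUW)
        (by
          intro z hz
          apply hW z
          rw [Sta_roots _ U hUW]
          exact Multiset.mem_add.2 (Or.inr hz))
        (by
          ext x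
          have := congrArg (fun f : End ℂ V => f x) hc
          simp only [Module.End.mul_apply] at this
          simp [this])
        (by
          rw [eq_top_iff]
          have h1 : (⊤ : Submodule ℂ (V ⧸ U)) = Submodule.map U.mkQ ⊤ := by
            rw [Submodule.map_top, Submodule.range_mkQ]
          rw [h1, ← hspan, Submodule.map_span]
          apply Submodule.span_mono
          rintro _ ⟨x, ⟨q', hq', hx⟩, rfl⟩
          exact ⟨q', hq', by simp [hx]⟩)
      have hQ2 : U.mapQ U (W * g) hUWg = U.mapQ U W hUW * U.mapQ U g hUg := by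
        ext x
        simp
      have hR2 : Sta_r (W * g) U hUWg = q • Sta_r W U hUW := by
        ext x
        have hx : g (x : V) = q • (x : V) := Module.End.mem_eigenspace_iff.1 x.2
        simp only [Sta_r_apply, Module.End.mul_apply, LinearMap.smul_apply,
          Submodule.coe_smul]
        rw [hx, map_smul]
      have hnz : ∀ z ∈ (LinearMap.charpoly (Sta_r W U hUW)).roots, z ≠ 0 := by
        intro z hz
        apply hW z
        rw [Sta_roots _ U hUW]
        exact Multiset.mem_add.2 (Or.inl hz)
      have hnz2 : ∀ z ∈ (LinearMap.charpoly (U.mapQ U W hUW)).roots, z ≠ 0 := by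
        intro z hz
        apply hW z
        rw [Sta_roots _ U hUW]
        exact Multiset.mem_add.2 (Or.inr hz)
      have hdet : f (LinearMap.det W) = f (LinearMap.det (Sta_r W U hUW))
          + f (LinearMap.det (U.mapQ U W hUW)) := by
        rw [← hf _ _ (Stb_det _ hnz) (Stb_det _ hnz2)]
        congr 1
        exact LinearMap.det_eq_det_mul_det U _ hUW
      rw [Sta_roots (W * g) U hUWg, Sta_roots W U hUW, hQ2, hR2, Sta_smul _ hq0]
      simp only [Multiset.map_add, Multiset.sum_add]
      rw [hQ, Stb_ms f hf _ hnz q hq0, ← Sta_det, Sta_card, hdet, hfq, ← hn, ← hsum]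
      push_cast
      ring
    · rw [not_nontrivial_iff_subsingleton] at hV
      have h0 : ∀ f : End ℂ V, (LinearMap.charpoly f).roots = 0 := by
        intro f
        rw [← Multiset.card_eq_zero, Sta_card]
        exact Module.finrank_zero_of_subsingleton
      have hn0 : n = 0 := by
        rw [← hn]
        exact Module.finrank_zero_of_subsingleton
      rw [Sta_det, h0, h0, hn0]
      simp [Stb_one f hf]

theorem Stb_main (f : ℂ → ℝ) (hf : ∀ a b : ℂ, a ≠ 0 → b ≠ 0 → f (a * b) = f a + f b)
    (c : ℂ) (hc0 : c ≠ 0) (hfc : f c = 0) (n : ℕ) :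
    ∀ (V : Type) [AddCommGroup V] [Module ℂ V] [Module.Finite ℂ V], finrank ℂ V = n →
    ∀ (g W X T : End ℂ V), (∀ z ∈ (LinearMap.charpoly g).roots, z ≠ 0) →
    (∀ z ∈ (LinearMap.charpoly W).roots, z ≠ 0) →
    (∀ z ∈ (LinearMap.charpoly X).roots, z ≠ 0) →
    (∀ z ∈ (LinearMap.charpoly T).roots, z ≠ 0) →
    g * W = W * g → g * X = X * g → T * g = c • (g * T) → T * X = X * W * T →
    ((LinearMap.charpoly (W * g)).roots.map (fun z => f z ^ 2)).sum
      = ((LinearMap.charpoly g).roots.map (fun z => f z ^ 2)).sum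
        + ((LinearMap.charpoly W).roots.map (fun z => f z ^ 2)).sum := by
  induction n using Nat.strong_induction_on with
  | _ n ih =>
    intro V _ _ _ hn g W X T hg hW hX hT hgW hgX hTg hTX
    by_cases hV : Nontrivial V
    · obtain ⟨q, hq⟩ := Module.End.exists_eigenvalue g
      have hqr : q ∈ (LinearMap.charpoly g).roots := by
        rw [mem_roots (LinearMap.charpoly_monic g).ne_zero]
        exact (Module.End.hasEigenvalue_iff_isRoot_charpoly g q).1 hq
      have hq0 : q ≠ 0 := hg q hqr
      obtain ⟨v, hv⟩ := hq.exists_hasEigenvector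
      have hv1 : g v = q • v := hv.apply_eq_smul
      have hv0 : v ≠ 0 := hv.2
      have hfci : f c⁻¹ = 0 := by
        have h1 := hf c c⁻¹ hc0 (inv_ne_zero hc0)
        rw [mul_inv_cancel₀ hc0, Stb_one f hf, hfc] at h1
        linarith
      set S : Set ℂ := {z | z ≠ 0 ∧ f z = f q} with hSdef
      have hS : ∀ z ∈ S, z ≠ 0 ∧ f z = f q := fun z hz => hz
      set s : Set V := {v : V | ∃ q ∈ S, g v = q • v} with hsdef
      set U : Submodule ℂ V := Submodule.span ℂ s with hUdef
      have hinv : ∀ A : End ℂ V, (∀ x ∈ s, A x ∈ U) → U ≤ U.comap A := by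
        intro A hA
        rw [hUdef, Submodule.span_le]
        intro x hx
        exact hA x hx
      have hUg : U ≤ U.comap g := by
        apply hinv
        intro x hx
        obtain ⟨q', hq', hx'⟩ := hx
        rw [hx']
        exact U.smul_mem _ (Submodule.subset_span ⟨q', hq', hx'⟩)
      have hcomm : ∀ A : End ℂ V, g * A = A * g → U ≤ U.comap A := by
        intro A hA
        apply hinv
        intro x hx
        obtain ⟨q', hq', hx'⟩ := hx
        apply Submodule.subset_span
        refine ⟨q', hq', ?_⟩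
        have := congrArg (fun f : End ℂ V => f x) hA
        simp only [Module.End.mul_apply] at this
        rw [this, hx', map_smul]
      have hUW : U ≤ U.comap W := hcomm W hgW
      have hUX : U ≤ U.comap X := hcomm X hgX
      have hUT : U ≤ U.comap T := by
        apply hinv
        intro x hx
        obtain ⟨q', hq', hx'⟩ := hx
        apply Submodule.subset_span
        refine ⟨c⁻¹ * q', ⟨mul_ne_zero (inv_ne_zero hc0) hq'.1, ?_⟩, ?_⟩
        · rw [hf _ _ (inv_ne_zero hc0) hq'.1, hfci, zero_add, hq'.2]
        · have := congrArg (fun f : End ℂ V => f x) hTg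
          simp only [Module.End.mul_apply, LinearMap.smul_apply] at this
          rw [hx', map_smul] at this
          rw [mul_smul, this, smul_smul, inv_mul_cancel₀ hc0, one_smul]
      have hUWg : U ≤ U.comap (W * g) := by
        intro x hx
        exact hUW (hUg hx)
      have hvU : v ∈ U := Submodule.subset_span ⟨q, ⟨hq0, rfl⟩, hv1⟩
      have hUb : 0 < finrank ℂ U := by
        rw [Module.finrank_pos_iff]
        rw [Submodule.nontrivial_iff_ne_bot]
        intro h
        rw [h, Submodule.mem_bot] at hvU
        exact hv0 hvU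
      have hsum := Submodule.finrank_quotient_add_finrank U
      have hdim : finrank ℂ (V ⧸ U) < n := by
        omega
      have hnzr : ∀ (A : End ℂ V) (hA : U ≤ U.comap A),
          (∀ z ∈ (LinearMap.charpoly A).roots, z ≠ 0) →
          ∀ z ∈ (LinearMap.charpoly (Sta_r A U hA)).roots, z ≠ 0 := by
        intro A hA h z hz
        apply h z
        rw [Sta_roots _ U hA]
        exact Multiset.mem_add.2 (Or.inl hz)
      have hnzq : ∀ (A : End ℂ V) (hA : U ≤ U.comap A),
          (∀ z ∈ (LinearMap.charpoly A).roots, z ≠ 0) →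
          ∀ z ∈ (LinearMap.charpoly (U.mapQ U A hA)).roots, z ≠ 0 := by
        intro A hA h z hz
        apply h z
        rw [Sta_roots _ U hA]
        exact Multiset.mem_add.2 (Or.inr hz)
      have hQ := ih (finrank ℂ (V ⧸ U)) hdim (V ⧸ U) rfl (U.mapQ U g hUg) (U.mapQ U W hUW)
        (U.mapQ U X hUX) (U.mapQ U T hUT) (hnzq g hUg hg) (hnzq W hUW hW) (hnzq X hUX hX)
        (hnzq T hUT hT)
        (by
          ext x
          have := congrArg (fun f : End ℂ V => f x) hgW
          simp only [Module.End.mul_apply] at this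
          simp [this])
        (by
          ext x
          have := congrArg (fun f : End ℂ V => f x) hgX
          simp only [Module.End.mul_apply] at this
          simp [this])
        (by
          ext x
          have := congrArg (fun f : End ℂ V => f x) hTg
          simp only [Module.End.mul_apply, LinearMap.smul_apply] at this
          simp [this])
        (by
          ext x
          have := congrArg (fun f : End ℂ V => f x) hTX
          simp only [Module.End.mul_apply] at this
          simp [this])
      have hQ2 : U.mapQ U (W * g) hUWg = U.mapQ U W hUW * U.mapQ U g hUg := by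
        ext x
        simp
      have hR2 : Sta_r (W * g) U hUWg = Sta_r W U hUW * Sta_r g U hUg := by
        ext x
        simp only [Sta_r_apply, Module.End.mul_apply]
      have hdW : LinearMap.det (Sta_r W U hUW) = 1 := by
        have h1 : Sta_r T U hUT * Sta_r X U hUX
            = Sta_r X U hUX * Sta_r W U hUW * Sta_r T U hUT := by
          ext x
          have := congrArg (fun f : End ℂ V => f x) hTX
          simp only [Module.End.mul_apply] at this
          simp only [Sta_r_apply, Module.End.mul_apply]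
          exact this
        have h2 := congrArg LinearMap.det h1
        rw [map_mul, map_mul, map_mul] at h2
        have h3 := Stb_det _ (hnzr X hUX hX)
        have h4 := Stb_det _ (hnzr T hUT hT)
        have h5 : LinearMap.det (Sta_r X U hUX) * LinearMap.det (Sta_r T U hUT)
            * (LinearMap.det (Sta_r W U hUW) - 1) = 0 := by
          linear_combination -h2
        rcases mul_eq_zero.1 h5 with h6 | h6
        · exact absurd h6 (mul_ne_zero h3 h4)
        · exact sub_eq_zero.1 h6
      have hspan : Submodule.span ℂ {x : U | ∃ q' ∈ S, Sta_r g U hUg x = q' • x} = ⊤ := by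
        have h1 : {x : U | ∃ q' ∈ S, Sta_r g U hUg x = q' • x} = ((↑) ⁻¹' s : Set U) := by
          ext x
          simp only [Set.mem_setOf_eq, Set.mem_preimage, hsdef]
          constructor
          · rintro ⟨q', hq', hx⟩
            refine ⟨q', hq', ?_⟩
            have := congrArg Subtype.val hx
            exact this
          · rintro ⟨q', hq', hx⟩
            refine ⟨q', hq', ?_⟩
            apply Subtype.ext
            exact hx
        rw [h1]
        exact Submodule.span_span_coe_preimage
      have hA1 := Stb_A f hf S (f q) hS (finrank ℂ U) U rfl (Sta_r g U hUg) (Sta_r W U hUW)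
        (hnzr W hUW hW)
        (by
          ext x
          have := congrArg (fun f : End ℂ V => f x) hgW
          simp only [Module.End.mul_apply] at this
          simp only [Sta_r_apply, Module.End.mul_apply]
          exact this) hspan
      have hnz1 : ∀ z ∈ (LinearMap.charpoly (1 : End ℂ U)).roots, z ≠ 0 := by
        intro z hz
        rw [Sta_one] at hz
        rw [Multiset.eq_of_mem_replicate hz]
        exact one_ne_zero
      have hA2 := Stb_A f hf S (f q) hS (finrank ℂ U) U rfl (Sta_r g U hUg) 1 hnz1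
        (by rw [mul_one, one_mul]) hspan
      rw [hdW, Stb_one f hf] at hA1
      rw [one_mul, map_one, Stb_one f hf, Sta_one] at hA2
      rw [Multiset.map_replicate, Multiset.sum_replicate, Stb_one f hf] at hA2
      rw [Sta_roots (W * g) U hUWg, Sta_roots g U hUg, Sta_roots W U hUW, hQ2, hR2]
      simp only [Multiset.map_add, Multiset.sum_add]
      rw [hQ, hA1, hA2]
      simp
      ring
    · rw [not_nontrivial_iff_subsingleton] at hV
      have h0 : ∀ f : End ℂ V, (LinearMap.charpoly f).roots = 0 := by
        intro f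
        rw [← Multiset.card_eq_zero, Sta_card]
        exact Module.finrank_zero_of_subsingleton
      rw [h0, h0, h0]
      simp

theorem Stb_nz {m : ℕ} (M : (Mt m)ˣ) :
    ∀ z ∈ (LinearMap.charpoly (Matrix.toLin' ((M : (Mt m)ˣ) : Mt m))).roots, z ≠ 0 := by
  apply Sta_nz (f' := Matrix.toLin' ((M⁻¹ : (Mt m)ˣ) : Mt m))
  rw [Module.End.mul_eq_comp, ← Matrix.toLin'_mul, ← Units.val_mul, mul_inv_cancel,
    Units.val_one, Matrix.toLin'_one]
  rfl

theorem stepB {D' : ℕ} (f : ℂ → ℝ) (hf : ∀ a b : ℂ, a ≠ 0 → b ≠ 0 → f (a * b) = f a + f b)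
    (z g W X T : (Mt D')ˣ) (hW : g * W = W * g) (hX : g * X = X * g)
    (hz : z⁻¹ * g * z = W * g) {c : ℂ} (hc : c ≠ 0) (hfc : f c = 0)
    (hT : ((T * g * T⁻¹ : (Mt D')ˣ) : Mt D') = c • ((g : (Mt D')ˣ) : Mt D'))
    (hTX : T * X * T⁻¹ = X * W) :
    ∀ om ∈ ((W : (Mt D')ˣ) : Mt D').charpoly.roots, f om = 0 := by
  have hTg : ((T : (Mt D')ˣ) : Mt D') * ((g : (Mt D')ˣ) : Mt D')
      = c • (((g : (Mt D')ˣ) : Mt D') * ((T : (Mt D')ˣ) : Mt D')) := by
    have h1 := congrArg (fun A : Mt D' => A * ((T : (Mt D')ˣ) : Mt D')) hT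
    simp only [Units.val_mul] at h1
    rw [mul_assoc, ← Units.val_mul T⁻¹ T, inv_mul_cancel, Units.val_one, mul_one] at h1
    rw [h1, smul_mul_assoc]
  have hTX' : T * X = X * W * T := by
    rw [← hTX]
    group
  have hm : ∀ A B : (Mt D')ˣ, Matrix.toLin' ((A : (Mt D')ˣ) : Mt D')
      * Matrix.toLin' ((B : (Mt D')ˣ) : Mt D') = Matrix.toLin' (((A * B : (Mt D')ˣ)) : Mt D') := by
    intro A B
    rw [Module.End.mul_eq_comp, ← Matrix.toLin'_mul, ← Units.val_mul]
  have key := Stb_main f hf c hc hfc D' (Fin D' → ℂ) (by simp)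
    (Matrix.toLin' ((g : (Mt D')ˣ) : Mt D')) (Matrix.toLin' ((W : (Mt D')ˣ) : Mt D'))
    (Matrix.toLin' ((X : (Mt D')ˣ) : Mt D')) (Matrix.toLin' ((T : (Mt D')ˣ) : Mt D'))
    (Stb_nz g) (Stb_nz W) (Stb_nz X) (Stb_nz T)
    (by rw [hm, hm, hW]) (by rw [hm, hm, hX])
    (by
      rw [Module.End.mul_eq_comp, Module.End.mul_eq_comp, ← Matrix.toLin'_mul,
        ← Matrix.toLin'_mul, hTg, map_smul])
    (by rw [hm, hm, hm, hTX'])
  rw [hm, Sta_toLin, Sta_toLin, Sta_toLin, ← hz] at key
  have hcp : (((z⁻¹ * g * z : (Mt D')ˣ)) : Mt D').charpoly = ((g : (Mt D')ˣ) : Mt D').charpoly := by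
    rw [mul_assoc, Units.val_mul, Matrix.charpoly_mul_comm, ← Units.val_mul, mul_assoc,
      mul_inv_cancel, mul_one]
  rw [hcp] at key
  have hsum : (((W : (Mt D')ˣ) : Mt D').charpoly.roots.map (fun z => f z ^ 2)).sum = 0 := by
    linarith
  intro y hy
  have hle : ∀ x ∈ ((W : (Mt D')ˣ) : Mt D').charpoly.roots.map (fun z => f z ^ 2), 0 ≤ x := by
    intro x hx
    obtain ⟨a, _, rfl⟩ := Multiset.mem_map.1 hx
    exact sq_nonneg _
  have h1 := Multiset.single_le_sum hle (f y ^ 2)
    (Multiset.mem_map_of_mem (fun z => f z ^ 2) hy)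
  rw [hsum] at h1
  have h2 : f y ^ 2 = 0 := le_antisymm h1 (sq_nonneg _)
  exact pow_eq_zero_iff (two_ne_zero) |>.1 h2

end H80HM
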