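import Mathlib

set_option autoImplicit false

/-!
# Row Tor: numbers killed by all homomorphisms to the reals are roots of unity

Contrapositive: om <> 0 not a root of unity: Z -> Additive Cˣ, 1 -> om, is injective. Q is a divisible, hence injective Z-module (Mathlib: AddCommGrp.injective_of_divisible, or Module.Baer.. ;
AddMonoidHom extension), so the inclusion Z -> Q extends to a homomorphism Additive Cˣ -> Q with om -> 1. f(z) := its value at the unit z for z <> 0, f(0) := 0.
-/

namespace H80HM

theorem tor_of_hom {om : ℂ} (h0 : om ≠ 0)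
    (h : ∀ f : ℂ → ℝ, (∀ a b : ℂ, a ≠ 0 → b ≠ 0 → f (a * b) = f a + f b) → f om = 0) :
    ∃ N : ℕ, 1 ≤ N ∧ om ^ N = 1 := by
  by_contra hcon
  push Not at hcon
  have hB : Module.Baer ℤ ℝ := Module.Baer.of_divisible ℝ
  have hord : ¬ IsOfFinOrder (Units.mk0 om h0) := by
    intro hf
    obtain ⟨n, hn, hn1⟩ := isOfFinOrder_iff_pow_eq_one.1 hf
    apply hcon n hn
    have := congrArg (fun u : ℂˣ => (u : ℂ)) hn1
    simpa using this
  have hinj : Function.Injective
      (zmultiplesHom (Additive ℂˣ) (Additive.ofMul (Units.mk0 om h0))) := by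
    intro a b hab
    rw [zmultiplesHom_apply, zmultiplesHom_apply] at hab
    have h2 : (Units.mk0 om h0) ^ a = (Units.mk0 om h0) ^ b := by
      have h3 := congrArg Additive.toMul hab
      simpa using h3
    exact injective_zpow_iff_not_isOfFinOrder.2 hord h2
  obtain ⟨g, hg⟩ := Module.Baer.extension_property_addMonoidHom hB
    (zmultiplesHom (Additive ℂˣ) (Additive.ofMul (Units.mk0 om h0))) hinj
    (Int.castAddHom ℝ)
  have hg1 : g (Additive.ofMul (Units.mk0 om h0)) = 1 := by
    have := DFunLike.congr_fun hg 1
    simpa using this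
  have hf := h (fun z => if hz : z = 0 then 0 else g (Additive.ofMul (Units.mk0 z hz))) (by
    intro a b ha hb
    have hab : a * b ≠ 0 := mul_ne_zero ha hb
    simp only [dif_neg ha, dif_neg hb, dif_neg hab]
    rw [← map_add, ← ofMul_mul]
    congr 2
    ext
    simp)
  simp only [dif_neg h0] at hf
  rw [hg1] at hf
  exact one_ne_zero hf

end H80HM
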