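import Pool.Agent.H80.HM.Per
import Pool.Agent.H80.HM.Tor
import Pool.Agent.H80.HM.Stb
import Pool.Agent.H80.HM.Jhd

set_option autoImplicit false

/-!
# Row Typ: the type of a characteristic representation is virtually unipotent

x0, x1, x2 = of 0, of 1, of 2 (n >= 3). (N, k, r) from jh rho. R := automorphism of 2 -> of 2 * of 0, all other generators fixed; al := automorphism of 1 -> of 1 * of 0, others fixed.
Chr and jh give the hypothesis of per for R and for al: M1, M2; M := M1 M2 >= 1 (Rsm (r o a^M) r for multiples of M1: iterate). R^M x2 = x2 x0^M, al^M x1 = x1 x0^M, R^M and al^M commute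
(check on generators) and fix x0; R^M fixes x1, al^M fixes x2. Fix i, r = r_i, dimension k > 0: there are g, T in GL_k with r(R^M u) = g r(u) g^{-1}, r(al^M u) = T r(u) T^{-1} for all u.
g T and T g both conjugate r(u) to r(R^M al^M u): (g T)^{-1} (T g) commutes with all r(u), so it is a scalar c (Irg; the centre of Mt k): T g = c g T, T g T^{-1} = c g; taking determinants c^k = 1,
c <> 0. For f as in stepB: k f(c) = f(1) = 0, f(c) = 0. W := r(x0)^M = r(x0^M), X := r(x1), z := r(x2): g commutes with W and X; g z g^{-1} = r(x2 x0^M) = z W, so z^{-1} g z = W g;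
T X T^{-1} = X W. stepB and tor_of_hom: all eigenvalues of W are roots of unity (they are nonzero). charpoly (rho(x0)^M) = charpoly (rho(x0^M)) = product of the charpoly (r_i(x0^M)): all
eigenvalues of rho(x0)^M are roots of unity, so with a common exponent L all eigenvalues of rho(x0)^(M L) are 1: charpoly = (X - 1)^d, rho(x0)^(ML) - 1 is nilpotent (Cayley-Hamilton).
For of i: the automorphism swapping of 0 and of i (FreeGroup.freeGroupCongr (Equiv.swap ..)) and Chr: rho(of i) is conjugate to rho(of 0).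
-/

namespace H80HM

open Matrix

private theorem Typ_tv {n : ℕ} (i b : Fin n) (h : i ≠ b) :
    ∃ a : FreeGroup (Fin n) ≃* FreeGroup (Fin n),
      a (FreeGroup.of i) = FreeGroup.of i * FreeGroup.of b ∧
      ∀ j, j ≠ i → a (FreeGroup.of j) = FreeGroup.of j := by
  obtain ⟨f, hf⟩ : ∃ f : FreeGroup (Fin n) →* FreeGroup (Fin n), f =
    FreeGroup.lift (fun j => if j = i then FreeGroup.of i * FreeGroup.of b else FreeGroup.of j) :=
    ⟨_, rfl⟩
  obtain ⟨g, hg⟩ : ∃ g : FreeGroup (Fin n) →* FreeGroup (Fin n), g =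
    FreeGroup.lift (fun j => if j = i then FreeGroup.of i * (FreeGroup.of b)⁻¹
      else FreeGroup.of j) := ⟨_, rfl⟩
  have f1 : f (FreeGroup.of i) = FreeGroup.of i * FreeGroup.of b := by
    rw [hf, FreeGroup.lift_apply_of, if_pos rfl]
  have f2 : ∀ j, j ≠ i → f (FreeGroup.of j) = FreeGroup.of j := by
    intro j hj
    rw [hf, FreeGroup.lift_apply_of, if_neg hj]
  have g1 : g (FreeGroup.of i) = FreeGroup.of i * (FreeGroup.of b)⁻¹ := by
    rw [hg, FreeGroup.lift_apply_of, if_pos rfl]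
  have g2 : ∀ j, j ≠ i → g (FreeGroup.of j) = FreeGroup.of j := by
    intro j hj
    rw [hg, FreeGroup.lift_apply_of, if_neg hj]
  refine ⟨MonoidHom.toMulEquiv f g ?_ ?_, f1, f2⟩
  · refine FreeGroup.ext_hom _ _ fun j => ?_
    rw [MonoidHom.comp_apply, MonoidHom.id_apply]
    by_cases hj : j = i
    · rw [hj, f1, map_mul, g1, g2 b h.symm, inv_mul_cancel_right]
    · rw [f2 j hj, g2 j hj]
  · refine FreeGroup.ext_hom _ _ fun j => ?_
    rw [MonoidHom.comp_apply, MonoidHom.id_apply]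
    by_cases hj : j = i
    · rw [hj, g1, map_mul, map_inv, f1, f2 b h.symm, mul_inv_cancel_right]
    · rw [g2 j hj, f2 j hj]

private theorem Typ_pow {n : ℕ} {i b : Fin n} (h : i ≠ b)
    {a : FreeGroup (Fin n) ≃* FreeGroup (Fin n)}
    (h1 : a (FreeGroup.of i) = FreeGroup.of i * FreeGroup.of b)
    (h2 : ∀ j, j ≠ i → a (FreeGroup.of j) = FreeGroup.of j) (m : ℕ) :
    (a ^ m) (FreeGroup.of i) = FreeGroup.of i * (FreeGroup.of b) ^ m ∧
      ∀ j, j ≠ i → (a ^ m) (FreeGroup.of j) = FreeGroup.of j := by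
  induction m with
  | zero =>
    refine ⟨?_, fun j _ => rfl⟩
    rw [pow_zero (FreeGroup.of b), mul_one]
    rfl
  | succ m ih =>
    have hs : ∀ x, (a ^ (m + 1)) x = (a ^ m) (a x) := by
      intro x
      rw [pow_succ]
      rfl
    refine ⟨?_, fun j hj => ?_⟩
    · rw [hs, h1, map_mul, ih.1, ih.2 b h.symm, pow_succ, mul_assoc]
    · rw [hs, h2 j hj, ih.2 j hj]

private theorem Typ_unit {G : Type} [Group G] {k : ℕ} {r r' : G →* (Mt k)ˣ} (h : Rsm r r') :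
    ∃ g : (Mt k)ˣ, ∀ u, r u = g * r' u * g⁻¹ := by
  obtain ⟨T, T', h1, h2, h3⟩ := h
  refine ⟨⟨T, T', h1, h2⟩, fun u => ?_⟩
  rw [eq_mul_inv_iff_mul_eq]
  ext1
  exact h3 u

private theorem Typ_iter {G : Type} [Group G] {k : ℕ} {r : G →* (Mt k)ˣ} {a : G ≃* G}
    {g : (Mt k)ˣ} (h : ∀ u, r (a u) = g * r u * g⁻¹) (m : ℕ) :
    ∀ u, r ((a ^ m) u) = g ^ m * r u * (g ^ m)⁻¹ := by
  induction m with
  | zero =>
    intro u
    rw [pow_zero g, one_mul, inv_one, mul_one]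
    rfl
  | succ m ih =>
    intro u
    have hs : (a ^ (m + 1)) u = (a ^ m) (a u) := by
      rw [pow_succ]
      rfl
    rw [hs, ih, h, pow_succ g m, _root_.mul_inv_rev]
    simp only [mul_assoc]

private theorem Typ_f_one {f : ℂ → ℝ} (hf : ∀ a b : ℂ, a ≠ 0 → b ≠ 0 → f (a * b) = f a + f b) :
    f 1 = 0 := by
  have := hf 1 1 one_ne_zero one_ne_zero
  rw [one_mul] at this
  linarith

private theorem Typ_f_pow {f : ℂ → ℝ} (hf : ∀ a b : ℂ, a ≠ 0 → b ≠ 0 → f (a * b) = f a + f b)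
    {c : ℂ} (hc : c ≠ 0) (k : ℕ) : f (c ^ k) = k * f c := by
  induction k with
  | zero => rw [pow_zero, Typ_f_one hf]; simp
  | succ k ih =>
    rw [pow_succ, hf _ _ (pow_ne_zero k hc) hc, ih]
    push_cast
    ring

private theorem Typ_scalar {G : Type} [Group G] {k : ℕ} {r : G →* (Mt k)ˣ} (h : Irg r)
    (Q : (Mt k)ˣ) (hQ : ∀ u, Q * r u = r u * Q) :
    ∃ c : ℂ, ((Q : (Mt k)ˣ) : Mt k) = c • (1 : Mt k) := by
  have h1 : Algebra.adjoin ℂ (Set.range fun g => ((r g : (Mt k)ˣ) : Mt k)) ≤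
      Subalgebra.centralizer ℂ {((Q : (Mt k)ˣ) : Mt k)} := by
    refine Algebra.adjoin_le ?_
    rintro _ ⟨u, rfl⟩
    rw [SetLike.mem_coe, Subalgebra.mem_centralizer_iff]
    intro x hx
    rw [Set.mem_singleton_iff.1 hx]
    exact congrArg Units.val (hQ u)
  rw [h, top_le_iff] at h1
  have h2 : ∀ N : Mt k, ((Q : (Mt k)ˣ) : Mt k) * N = N * Q := by
    intro N
    have h3 : N ∈ Subalgebra.centralizer ℂ {((Q : (Mt k)ˣ) : Mt k)} := by
      rw [h1]
      exact Algebra.mem_top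
    rw [Subalgebra.mem_centralizer_iff] at h3
    exact h3 _ rfl
  have h4 : ((Q : (Mt k)ˣ) : Mt k) ∈ Set.range (Matrix.scalar (Fin k)) := by
    rw [Matrix.mem_range_scalar_iff_commute_single']
    intro i j
    exact (h2 _).symm
  obtain ⟨c, hc⟩ := h4
  refine ⟨c, ?_⟩
  rw [← hc, Matrix.scalar_apply, Matrix.smul_one_eq_diagonal]

/-- one irreducible constituent -/
private theorem Typ_cst {n k : ℕ} (hk : 0 < k) {r : FreeGroup (Fin n) →* (Mt k)ˣ} (hr : Irg r)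
    {i0 i1 i2 : Fin n} (h01 : i0 ≠ i1) (h02 : i0 ≠ i2) (h12 : i1 ≠ i2)
    {A B : FreeGroup (Fin n) ≃* FreeGroup (Fin n)} {M : ℕ}
    (hA1 : A (FreeGroup.of i2) = FreeGroup.of i2 * (FreeGroup.of i0) ^ M)
    (hA2 : ∀ j, j ≠ i2 → A (FreeGroup.of j) = FreeGroup.of j)
    (hB1 : B (FreeGroup.of i1) = FreeGroup.of i1 * (FreeGroup.of i0) ^ M)
    (hB2 : ∀ j, j ≠ i1 → B (FreeGroup.of j) = FreeGroup.of j)
    {g T : (Mt k)ˣ} (hg : ∀ u, r (A u) = g * r u * g⁻¹) (hT : ∀ u, r (B u) = T * r u * T⁻¹) :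
    ∀ om ∈ ((r (FreeGroup.of i0 ^ M) : (Mt k)ˣ) : Mt k).charpoly.roots,
      ∃ N : ℕ, 1 ≤ N ∧ om ^ N = 1 := by
  have hcomm : ∀ u, A (B u) = B (A u) := by
    have h1 : A.toMonoidHom.comp B.toMonoidHom = B.toMonoidHom.comp A.toMonoidHom := by
      refine FreeGroup.ext_hom _ _ fun j => ?_
      change A (B (FreeGroup.of j)) = B (A (FreeGroup.of j))
      by_cases hj1 : j = i1
      · rw [hj1, hB1, map_mul, map_pow, hA2 i1 h12, hA2 i0 h02, hB1]
      · by_cases hj2 : j = i2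
        · rw [hj2, hB2 i2 h12.symm, hA1, map_mul, map_pow, hB2 i2 h12.symm, hB2 i0 h01]
        · rw [hB2 j hj1, hA2 j hj2, hB2 j hj1]
    intro u
    exact congrArg (fun F : FreeGroup (Fin n) →* FreeGroup (Fin n) => F u) h1
  obtain ⟨Q, hQ⟩ : ∃ Q : (Mt k)ˣ, Q = (g * T)⁻¹ * (T * g) := ⟨_, rfl⟩
  have hQc : ∀ u, Q * r u = r u * Q := by
    intro u
    have h1 : g * T * r u * (g * T)⁻¹ = T * g * r u * (T * g)⁻¹ := by
      calc g * T * r u * (g * T)⁻¹ = g * (T * r u * T⁻¹) * g⁻¹ := by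
            rw [_root_.mul_inv_rev]; simp only [mul_assoc]
        _ = r (A (B u)) := by rw [hg, hT]
        _ = r (B (A u)) := by rw [hcomm]
        _ = T * (g * r u * g⁻¹) * T⁻¹ := by rw [hT, hg]
        _ = _ := by rw [_root_.mul_inv_rev]; simp only [mul_assoc]
    have h2 : T * g * r u = g * T * r u * (g * T)⁻¹ * (T * g) := by
      rw [h1, inv_mul_cancel_right]
    calc Q * r u = (g * T)⁻¹ * (T * g * r u) := by rw [hQ, mul_assoc]
      _ = (g * T)⁻¹ * (g * T * r u * (g * T)⁻¹ * (T * g)) := by rw [← h2]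
      _ = r u * Q := by rw [hQ]; group
  obtain ⟨c, hc⟩ := Typ_scalar hr Q hQc
  have hTg : ((T * g * T⁻¹ : (Mt k)ˣ) : Mt k) = c • ((g : (Mt k)ˣ) : Mt k) := by
    have h1 : T * g * T⁻¹ = g * T * Q * T⁻¹ := by
      rw [hQ]; group
    rw [h1, Units.val_mul, Units.val_mul, hc, Matrix.mul_smul, Matrix.mul_one, Matrix.smul_mul,
      ← Units.val_mul, mul_inv_cancel_right]
  have hdet : c ^ k = 1 := by
    have h1 := congrArg Matrix.det hTg
    rw [Matrix.det_smul, Fintype.card_fin, Units.val_mul, Units.val_mul, Matrix.det_mul,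
      Matrix.det_mul] at h1
    have h2 : ((g : (Mt k)ˣ) : Mt k).det ≠ 0 := by
      have := (Matrix.isUnit_iff_isUnit_det _).1 g.isUnit
      exact this.ne_zero
    have h3 : ((T : (Mt k)ˣ) : Mt k).det * ((T⁻¹ : (Mt k)ˣ) : Mt k).det = 1 := by
      rw [← Matrix.det_mul, Units.mul_inv, Matrix.det_one]
    have h4 : ((g : (Mt k)ˣ) : Mt k).det = c ^ k * ((g : (Mt k)ˣ) : Mt k).det := by
      rw [← h1]
      calc ((g : (Mt k)ˣ) : Mt k).det =
            (((T : (Mt k)ˣ) : Mt k).det * ((T⁻¹ : (Mt k)ˣ) : Mt k).det) *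
              ((g : (Mt k)ˣ) : Mt k).det := by rw [h3, one_mul]
        _ = _ := by ring
    exact mul_right_cancel₀ h2 (by rw [one_mul]; exact h4.symm)
  have hc0 : c ≠ 0 := by
    rintro rfl
    rw [zero_pow hk.ne'] at hdet
    exact zero_ne_one hdet
  obtain ⟨W, hW⟩ : ∃ W : (Mt k)ˣ, W = r (FreeGroup.of i0 ^ M) := ⟨_, rfl⟩
  obtain ⟨X, hX⟩ : ∃ X : (Mt k)ˣ, X = r (FreeGroup.of i1) := ⟨_, rfl⟩
  obtain ⟨z, hz⟩ : ∃ z : (Mt k)ˣ, z = r (FreeGroup.of i2) := ⟨_, rfl⟩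
  have e1 : g * W = W * g := by
    have := hg (FreeGroup.of i0 ^ M)
    rw [map_pow A, hA2 i0 h02, ← hW] at this
    rw [← mul_inv_eq_iff_eq_mul]
    exact this.symm
  have e2 : g * X = X * g := by
    have := hg (FreeGroup.of i1)
    rw [hA2 i1 h12, ← hX] at this
    rw [← mul_inv_eq_iff_eq_mul]
    exact this.symm
  have e3 : z⁻¹ * g * z = W * g := by
    have := hg (FreeGroup.of i2)
    rw [hA1, map_mul, ← hW, ← hz] at this
    have h5 : g * z = z * W * g := by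
      rw [this, inv_mul_cancel_right]
    rw [mul_assoc, h5]
    group
  have e4 : T * X * T⁻¹ = X * W := by
    have := hT (FreeGroup.of i1)
    rw [hB1, map_mul, ← hW, ← hX] at this
    exact this.symm
  intro om hom
  rw [← hW] at hom
  have hom0 : om ≠ 0 := by
    rintro rfl
    have h1 := (Polynomial.mem_roots'.1 hom).2
    rw [Polynomial.IsRoot.def, Matrix.eval_charpoly, map_zero, zero_sub, Matrix.det_neg] at h1
    have h2 : ((W : (Mt k)ˣ) : Mt k).det ≠ 0 := by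
      have := (Matrix.isUnit_iff_isUnit_det _).1 W.isUnit
      exact this.ne_zero
    exact (mul_ne_zero (pow_ne_zero _ (neg_ne_zero.2 one_ne_zero)) h2) h1
  refine tor_of_hom hom0 fun f hf => ?_
  have hfc : f c = 0 := by
    have h1 := Typ_f_pow hf hc0 k
    rw [hdet, Typ_f_one hf] at h1
    have hk' : (k : ℝ) ≠ 0 := by exact_mod_cast hk.ne'
    rcases mul_eq_zero.1 h1.symm with h2 | h2
    · exact absurd h2 hk'
    · exact h2
  exact stepB f hf z g W X T e1 e2 e3 hc0 hfc hTg e4 om hom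

private theorem Typ_common (s : Multiset ℂ) (h : ∀ a ∈ s, ∃ N : ℕ, 1 ≤ N ∧ a ^ N = 1) :
    ∃ L : ℕ, 1 ≤ L ∧ ∀ a ∈ s, a ^ L = 1 := by
  induction s using Multiset.induction_on with
  | empty => exact ⟨1, le_rfl, fun a ha => absurd ha (Multiset.notMem_zero a)⟩
  | cons b s ih =>
    obtain ⟨L, hL, hL2⟩ := ih fun a ha => h a (Multiset.mem_cons_of_mem ha)
    obtain ⟨N, hN, hN2⟩ := h b (Multiset.mem_cons_self b s)
    refine ⟨N * L, Nat.mul_pos hN hL, fun a ha => ?_⟩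
    rcases Multiset.mem_cons.1 ha with rfl | ha
    · rw [pow_mul, hN2, one_pow]
    · rw [mul_comm, pow_mul, hL2 a ha, one_pow]

open Polynomial in
private theorem Typ_dvd {L : ℕ} (s : Multiset ℂ) (h : ∀ a ∈ s, a ^ L = 1) :
    (s.map fun a => X - C a).prod ∣ (X ^ L - 1 : ℂ[X]) ^ s.card := by
  induction s using Multiset.induction_on with
  | empty => simp
  | cons b s ih =>
    rw [Multiset.map_cons, Multiset.prod_cons, Multiset.card_cons, pow_succ']
    refine mul_dvd_mul ?_ (ih fun a ha => h a (Multiset.mem_cons_of_mem ha))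
    rw [dvd_iff_isRoot, IsRoot.def]
    simp [h b (Multiset.mem_cons_self b s)]

private theorem Typ_nil {d : ℕ} (A : Mt d) (h : ∀ a ∈ A.charpoly.roots, ∃ N : ℕ, 1 ≤ N ∧ a ^ N = 1) :
    ∃ L : ℕ, 1 ≤ L ∧ IsNilpotent (A ^ L - 1) := by
  obtain ⟨L, hL, hL2⟩ := Typ_common _ h
  refine ⟨L, hL, A.charpoly.roots.card, ?_⟩
  have h1 := Typ_dvd _ hL2
  rw [← (IsAlgClosed.splits A.charpoly).eq_prod_roots_of_monic A.charpoly_monic] at h1
  obtain ⟨q, hq⟩ := h1
  have h2 := congrArg (Polynomial.aeval A) hq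
  rw [map_mul, Matrix.aeval_self_charpoly, zero_mul] at h2
  simpa using h2

theorem typ {n d : ℕ} (hn : 3 ≤ n) (rho : FreeGroup (Fin n) →* (Mt d)ˣ) (hchr : Chr rho) :
    ∀ i, ∃ M : ℕ, 1 ≤ M ∧
      IsNilpotent (((rho (FreeGroup.of i) : (Mt d)ˣ) : Mt d) ^ M - 1) := by
  obtain ⟨i0, hi0⟩ : ∃ i0 : Fin n, i0 = ⟨0, by omega⟩ := ⟨_, rfl⟩
  obtain ⟨i1, hi1⟩ : ∃ i1 : Fin n, i1 = ⟨1, by omega⟩ := ⟨_, rfl⟩
  obtain ⟨i2, hi2⟩ : ∃ i2 : Fin n, i2 = ⟨2, by omega⟩ := ⟨_, rfl⟩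
  have h01 : i0 ≠ i1 := by rw [hi0, hi1]; simp
  have h02 : i0 ≠ i2 := by rw [hi0, hi2]; simp
  have h12 : i1 ≠ i2 := by rw [hi1, hi2]; simp
  obtain ⟨N, k, r, hk, hir, hcp, htw⟩ := jh rho
  obtain ⟨a, ha1, ha2⟩ := Typ_tv i2 i0 h02.symm
  obtain ⟨b, hb1, hb2⟩ := Typ_tv i1 i0 h01.symm
  obtain ⟨M1, hM1, hp1⟩ := per r a (htw a (hchr a))
  obtain ⟨M2, hM2, hp2⟩ := per r b (htw b (hchr b))
  have hroot : ∀ om ∈ ((rho (FreeGroup.of i0 ^ (M1 * M2)) : (Mt d)ˣ) : Mt d).charpoly.roots,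
      ∃ N : ℕ, 1 ≤ N ∧ om ^ N = 1 := by
    intro om hom
    have h1 := (Polynomial.mem_roots'.1 hom).2
    rw [hcp, Polynomial.IsRoot.def, Polynomial.eval_prod, Finset.prod_eq_zero_iff] at h1
    obtain ⟨i, -, hi⟩ := h1
    obtain ⟨g, hg⟩ := Typ_unit (hp1 i)
    obtain ⟨T, hT⟩ := Typ_unit (hp2 i)
    have hg' : ∀ u, r i ((a ^ (M1 * M2)) u) = g ^ M2 * r i u * (g ^ M2)⁻¹ := by
      intro u
      rw [pow_mul a]
      exact Typ_iter (a := a ^ M1) (fun u => hg u) M2 u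
    have hT' : ∀ u, r i ((b ^ (M1 * M2)) u) = T ^ M1 * r i u * (T ^ M1)⁻¹ := by
      intro u
      rw [mul_comm M1 M2, pow_mul b]
      exact Typ_iter (a := b ^ M2) (fun u => hT u) M1 u
    refine Typ_cst (hk i) (hir i) h01 h02 h12 (A := a ^ (M1 * M2)) (B := b ^ (M1 * M2))
      (Typ_pow h02.symm ha1 ha2 _).1 (Typ_pow h02.symm ha1 ha2 _).2
      (Typ_pow h01.symm hb1 hb2 _).1 (Typ_pow h01.symm hb1 hb2 _).2 hg' hT' om ?_
    exact Polynomial.mem_roots'.2 ⟨(Matrix.charpoly_monic _).ne_zero, hi⟩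
  obtain ⟨L, hL, hnil⟩ := Typ_nil _ hroot
  intro i
  refine ⟨M1 * M2 * L, Nat.mul_pos (Nat.mul_pos hM1 hM2) hL, ?_⟩
  obtain ⟨g, hg⟩ := hchr (FreeGroup.freeGroupCongr (Equiv.swap i0 i))
  have hgi := hg (FreeGroup.of i0)
  have hsw : FreeGroup.freeGroupCongr (Equiv.swap i0 i) (FreeGroup.of i0) = FreeGroup.of i := by
    simp
  rw [hsw] at hgi
  rw [map_pow, Units.val_pow_eq_pow_val, ← pow_mul] at hnil
  have h5 : (((rho (FreeGroup.of i) : (Mt d)ˣ) : Mt d) ^ (M1 * M2 * L) - 1) =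
      (g : Mt d) * (((rho (FreeGroup.of i0) : (Mt d)ˣ) : Mt d) ^ (M1 * M2 * L) - 1) *
        ((g⁻¹ : (Mt d)ˣ) : Mt d) := by
    have h6 : (rho (FreeGroup.of i)) ^ (M1 * M2 * L) =
        g * (rho (FreeGroup.of i0)) ^ (M1 * M2 * L) * g⁻¹ := by
      rw [hgi, conj_pow]
    have h7 := congrArg Units.val h6
    rw [Units.val_pow_eq_pow_val, Units.val_mul, Units.val_mul, Units.val_pow_eq_pow_val] at h7
    rw [h7, Matrix.mul_sub, Matrix.sub_mul, Matrix.mul_one, Units.mul_inv]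
  rw [h5]
  obtain ⟨e, he⟩ := hnil
  refine ⟨e, ?_⟩
  have h8 : ∀ (Y : Mt d) (m : ℕ), ((g : Mt d) * Y * ((g⁻¹ : (Mt d)ˣ) : Mt d)) ^ m =
      (g : Mt d) * Y ^ m * ((g⁻¹ : (Mt d)ˣ) : Mt d) := by
    intro Y m
    induction m with
    | zero => rw [pow_zero, pow_zero, Matrix.mul_one, Units.mul_inv]
    | succ m ih =>
      rw [pow_succ, ih, pow_succ]
      calc (g : Mt d) * Y ^ m * ((g⁻¹ : (Mt d)ˣ) : Mt d) *
            ((g : Mt d) * Y * ((g⁻¹ : (Mt d)ˣ) : Mt d)) =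
            (g : Mt d) * Y ^ m * (((g⁻¹ : (Mt d)ˣ) : Mt d) * (g : Mt d)) * Y *
              ((g⁻¹ : (Mt d)ˣ) : Mt d) := by simp only [Matrix.mul_assoc]
        _ = _ := by
            rw [Units.inv_mul, Matrix.mul_one]
            simp only [Matrix.mul_assoc]
  rw [h8, he, Matrix.mul_zero, Matrix.zero_mul]

end H80HM
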