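import Pool.Agent.H80.HM.Mth

set_option autoImplicit false

/-!
# Row Vau: Galois conjugates of characteristic representations of virtually unipotent type

rho' := (Units.map of the ring homomorphism M -> s applied to the entries (RingEquiv.mapMatrix s)) o rho. Chr rho': the conjugating matrices are the images of those of rho. Nilpotency of
rho(of i)^k - 1 is preserved: mo_vu gives Mo (rho' (of i)). char_mo: Mo (rho' w). charpoly (rho' w) = (charpoly (rho w)).map s (Matrix.charpoly_map), whose roots are the s z, z root of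
charpoly (rho w) (Polynomial.roots_map or: eval of the mapped polynomial at s z is s of the value; the polynomial is nonzero).
-/

namespace H80HM

open Matrix

theorem vu_all {n d : ℕ} (hn : 3 ≤ n) (rho : FreeGroup (Fin n) →* (Mt d)ˣ) (hchr : Chr rho)
    (hvu : ∀ i, ∃ k : ℕ, 1 ≤ k ∧
      IsNilpotent (((rho (FreeGroup.of i) : (Mt d)ˣ) : Mt d) ^ k - 1))
    (w : FreeGroup (Fin n)) (s : ℂ ≃+* ℂ) :
    ∀ z ∈ ((rho w : (Mt d)ˣ) : Mt d).charpoly.roots, ‖s z‖ = 1 := by
  let f : Mt d →+* Mt d := (s : ℂ →+* ℂ).mapMatrix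
  let F : (Mt d)ˣ →* (Mt d)ˣ := Units.map (f : Mt d →* Mt d)
  have hF : ∀ u : (Mt d)ˣ, ((F u : (Mt d)ˣ) : Mt d) = f (u : Mt d) := fun u => rfl
  have hchr' : Chr (F.comp rho) := by
    intro σ
    obtain ⟨g, hg⟩ := hchr σ
    refine ⟨F g, fun x => ?_⟩
    rw [MonoidHom.comp_apply, MonoidHom.comp_apply, hg x, map_mul, map_mul, map_inv]
  have hmo : ∀ i, Mo (((F.comp rho) (FreeGroup.of i) : (Mt d)ˣ) : Mt d) := by
    intro i
    obtain ⟨k, hk, hnil⟩ := hvu i
    apply mo_vu hk
    have h1 : (((F.comp rho) (FreeGroup.of i) : (Mt d)ˣ) : Mt d) ^ k - 1 =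
        f ((((rho (FreeGroup.of i)) : (Mt d)ˣ) : Mt d) ^ k - 1) := by
      rw [map_sub, map_pow, map_one, MonoidHom.comp_apply, hF]
    rw [h1]
    exact hnil.map f
  intro z hz
  have h2 := char_mo hn (F.comp rho) hchr' hmo w
  apply h2 (s z)
  have h3 : (((F.comp rho) w : (Mt d)ˣ) : Mt d).charpoly =
      ((rho w : (Mt d)ˣ) : Mt d).charpoly.map (s : ℂ →+* ℂ) := by
    rw [MonoidHom.comp_apply, hF]
    exact Matrix.charpoly_map _ _
  have h4 : (((rho w : (Mt d)ˣ) : Mt d).charpoly.map (s : ℂ →+* ℂ)).Monic :=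
    (Matrix.charpoly_monic _).map _
  rw [h3, Polynomial.mem_roots h4.ne_zero, Polynomial.IsRoot.def, Polynomial.eval_map]
  have h5 := (Polynomial.mem_roots (Matrix.charpoly_monic _).ne_zero).1 hz
  rw [Polynomial.IsRoot.def] at h5
  have h6 := Polynomial.eval₂_at_apply (p := ((rho w : (Mt d)ˣ) : Mt d).charpoly) (s : ℂ →+* ℂ) z
  rw [h5, map_zero] at h6
  exact h6

end H80HM
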