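import Pool.Agent.H80.HM.Vso
import Pool.Agent.H80.HM.Vau
import Pool.Agent.H80.HM.Typ
import Pool.Agent.H80.HM.Tin

set_option autoImplicit false

/-!
# Transfer to special linear groups
-/

namespace H80HM

open Matrix

/-- the homomorphism from the special linear group to the units -/
def toU (d : ℕ) : Matrix.SpecialLinearGroup (Fin d) ℂ →* (Mt d)ˣ :=
  Matrix.SpecialLinearGroup.toGL

theorem toU_val {d : ℕ} (g : Matrix.SpecialLinearGroup (Fin d) ℂ) :
    ((toU d g : (Mt d)ˣ) : Mt d) = (g : Matrix (Fin d) (Fin d) ℂ) := rfl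

theorem toU_inj {d : ℕ} : Function.Injective (toU d) := by
  intro a b h
  have h1 := congrArg (fun x : (Mt d)ˣ => (x : Mt d)) h
  exact Subtype.ext h1

variable {n d : ℕ} (ρ : FreeGroup (Fin n) →* Matrix.SpecialLinearGroup (Fin d) ℂ)

theorem toU_chr
    (hρ : ∀ σ : FreeGroup (Fin n) ≃* FreeGroup (Fin n),
      ∃ g : Matrix.SpecialLinearGroup (Fin d) ℂ,
        ∀ x : FreeGroup (Fin n), ρ (σ x) = g * ρ x * g⁻¹) : Chr ((toU d).comp ρ) := by
  intro σ
  obtain ⟨g, hg⟩ := hρ σ
  refine ⟨toU d g, fun x => ?_⟩
  rw [MonoidHom.comp_apply, MonoidHom.comp_apply, hg, map_mul, map_mul, map_inv]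

theorem toU_solv (h : ∃ K : Subgroup ((toU d).comp ρ).range, K.FiniteIndex ∧ IsSolvable K) :
    ∃ K : Subgroup ρ.range, K.FiniteIndex ∧ IsSolvable K := by
  obtain ⟨K, h1, h2⟩ := h
  let f : ρ.range →* ((toU d).comp ρ).range :=
    { toFun := fun x => ⟨toU d x.1, by
        obtain ⟨y, w, hw⟩ := x
        exact ⟨w, by rw [MonoidHom.comp_apply, hw]⟩⟩
      map_one' := by
        apply Subtype.ext
        simp
      map_mul' := fun x y => by
        apply Subtype.ext
        simp }
  have hf : Function.Injective f := by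
    intro x y hxy
    have h3 := congrArg Subtype.val hxy
    exact Subtype.ext (toU_inj h3)
  refine ⟨K.comap f, ?_, ?_⟩
  · refine ⟨fun h0 => ?_⟩
    have h4 := Subgroup.index_comap K f
    rw [h0] at h4
    have h5 : K.relIndex f.range ∣ K.index ∨ K.relIndex f.range ≠ 0 := by
      right
      have h6 : K.relIndex (⊤ : Subgroup ((toU d).comp ρ).range) ≠ 0 := by
        rw [Subgroup.relIndex_top_right]
        exact h1.index_ne_zero
      exact fun h7 => h6 (Subgroup.relIndex_eq_zero_of_le_right le_top h7)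
    rcases h5 with h5 | h5
    · rw [← h4, zero_dvd_iff] at h5
      exact h1.index_ne_zero h5
    · exact h5 h4.symm
  · let e : (K.comap f) →* K :=
      { toFun := fun x => ⟨f x.1, x.2⟩
        map_one' := by
          apply Subtype.ext
          simp
        map_mul' := fun x y => by
          apply Subtype.ext
          simp }
    have he : Function.Injective e := by
      intro x y hxy
      have h3 := congrArg Subtype.val hxy
      exact Subtype.ext (hf h3)
    have h6 : Group.IsSolvable K := h2
    exact Group.isSolvable_of_isSolvable_injective he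

/-- finite constituents: a unipotent (hence solvable) subgroup of finite index -/
theorem fin_unip {G : Type} [Group G] {N : ℕ} (r0 : G →* Matrix.SpecialLinearGroup (Fin d) ℂ)
    {k : Fin N → ℕ} (r : ∀ i, G →* (Mt (k i))ˣ) (hfin : ∀ i, (Set.range (r i)).Finite)
    (hu : ∀ g, (∀ i, r i g = 1) →
      IsNilpotent ((r0 g : Matrix (Fin d) (Fin d) ℂ) - 1)) :
    ∃ K : Subgroup r0.range, K.FiniteIndex ∧ IsSolvable K ∧ ∀ g ∈ K,
      IsNilpotent ((((g : r0.range) : Matrix.SpecialLinearGroup (Fin d) ℂ) :
        Matrix (Fin d) (Fin d) ℂ) - 1) := by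
  have h0 : (⨅ i, (r i).ker).FiniteIndex := by
    refine Subgroup.finiteIndex_iInf fun i => ?_
    have : Finite (r i).range := (hfin i).to_subtype
    infer_instance
  refine ⟨(⨅ i, (r i).ker).map r0.rangeRestrict, ?_, ?_, ?_⟩
  · have h1 := Subgroup.index_map_dvd (⨅ i, (r i).ker) r0.rangeRestrict_surjective
    refine ⟨fun h2 => ?_⟩
    rw [h2, zero_dvd_iff] at h1
    exact h0.index_ne_zero h1
  · have h1 : IsSolvable ((⨅ i, (r i).ker).map ((toU d).comp r0)) := by
      refine kolchin _ ?_
      rintro _ ⟨g, hg, rfl⟩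
      exact hu g fun i => (Subgroup.mem_iInf.1 hg i)
    let f : ((⨅ i, (r i).ker).map r0.rangeRestrict) →*
        ((⨅ i, (r i).ker).map ((toU d).comp r0)) :=
      { toFun := fun x => ⟨toU d ((x : r0.range) : Matrix.SpecialLinearGroup (Fin d) ℂ), by
          obtain ⟨⟨y, hy⟩, ⟨g, hg, hgy⟩⟩ := x
          refine ⟨g, hg, ?_⟩
          have h5 := congrArg Subtype.val hgy
          rw [MonoidHom.comp_apply]
          exact congrArg (toU d) h5⟩
        map_one' := by
          apply Subtype.ext
          simp
        map_mul' := fun x y => by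
          apply Subtype.ext
          simp }
    have hf : Function.Injective f := by
      intro x y hxy
      have h2 := congrArg Subtype.val hxy
      exact Subtype.ext (Subtype.ext (toU_inj h2))
    have h3 : Group.IsSolvable ((⨅ i, (r i).ker).map ((toU d).comp r0)) := h1
    exact Group.isSolvable_of_isSolvable_injective hf
  · rintro _ ⟨g, hg, rfl⟩
    exact hu g fun i => (Subgroup.mem_iInf.1 hg i)

/-- every characteristic representation has all eigenvalues algebraic with conjugates of modulus
one -/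
theorem eig_all (hn : 3 ≤ n) (hρ : Chr ((toU d).comp ρ)) (w : FreeGroup (Fin n)) (s : ℂ ≃+* ℂ)
    (z : ℂ) (hz : z ∈ (ρ w : Matrix (Fin d) (Fin d) ℂ).charpoly.roots) : ‖s z‖ = 1 :=
  vu_all hn ((toU d).comp ρ) hρ (typ hn _ hρ) w s z hz

end H80HM
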