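import Pool.Agent.H80.HM.Def4

set_option autoImplicit false

/-!
# Row Six: six automorphisms commuting with the shift

General: let (a,b) and (a',b') be pairs, f and f' the homomorphisms from ex. If f'(a) = X, f'(b) = Y, f(a') = X, f(b') = Y then f' o f and f o f' are the identity (un, compared with the
identity), so f is an automorphism commuting with sg, fixing t.
T1: (Y X^{-1}, Y), inverse (X^{-1} Y, Y).           T2: (X, X Y^{-1}), inverse (X, Y^{-1} X).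
T3: (X, X (sg Y)^{-1}), inverse (X, sg^{-1}(Y^{-1} X)): f'(X (sg Y)^{-1}) = X sg(f' Y)^{-1} = X (Y^{-1}X)^{-1} = Y; f(sg^{-1}(Y^{-1}X)) = sg^{-1}(f(Y)^{-1} X) = sg^{-1}(sg Y X^{-1} X) = Y.
S1: (Y^{-1} X, Y^{-1} X Y), inverse (X^{-1} Y X, X^{-1} Y).
S2: (X^{-1} Y X, X^{-1} Y), inverse (Y^{-1} X, Y^{-1} X Y).
S3: (X^{-1} Y, X^{-1} Y sg X), inverse: sg X' = X^{-1}Y in the new letters: (a',b') = (sg^{-1}(X^{-1} Y), sg^{-1}(X^{-1} Y) X): check f(a') = sg^{-1}((X^{-1}Y)^{-1} X^{-1}Y sg X) = X, f(b') = X X^{-1}Y = Y;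
 f'(X^{-1}Y) = a'^{-1} b' = X, f'(X^{-1} Y sg X) = X sg(a') = X X^{-1} Y = Y.
-/

namespace H80HM

private theorem Six_gen {F : Type} [Group F] {k : ℕ} {sg : F ≃* F} {X Y t : F}
    (h : Shs k sg X Y t) (a b a' b' : F)
    (H : ∀ f : F →* F, f X = a → f Y = b → (∀ u, f (sg u) = sg (f u)) →
      (∀ u, f (sg.symm u) = sg.symm (f u)) → f a' = X ∧ f b' = Y)
    (H' : ∀ f : F →* F, f X = a' → f Y = b' → (∀ u, f (sg u) = sg (f u)) →
      (∀ u, f (sg.symm u) = sg.symm (f u)) → f a = X ∧ f b = Y) :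
    ∃ s : F ≃* F, (∀ u, s (sg u) = sg (s u)) ∧ s t = t ∧ s X = a ∧ s Y = b := by
  obtain ⟨f, f1, f2, f3, f4⟩ := h.ex a b
  obtain ⟨g, g1, g2, g3, g4⟩ := h.ex a' b'
  have inv : ∀ f : F →* F, (∀ u, f (sg u) = sg (f u)) → ∀ u, f (sg.symm u) = sg.symm (f u) := by
    intro f hf u
    have h1 := hf (sg.symm u)
    rw [MulEquiv.apply_symm_apply] at h1
    rw [h1, MulEquiv.symm_apply_apply]
  obtain ⟨p1, p2⟩ := H f f1 f2 f4 (inv f f4)
  obtain ⟨q1, q2⟩ := H' g g1 g2 g4 (inv g g4)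
  have e1 : g.comp f = MonoidHom.id F := by
    refine h.un _ _ ?_ ?_ ?_ ?_ ?_ ?_
    · simp only [MonoidHom.comp_apply, MonoidHom.id_apply, f1, q1]
    · simp only [MonoidHom.comp_apply, MonoidHom.id_apply, f2, q2]
    · simp only [MonoidHom.comp_apply, f3, g3]
    · rfl
    · intro u
      simp only [MonoidHom.comp_apply, f4, g4]
    · intro u
      rfl
  have e2 : f.comp g = MonoidHom.id F := by
    refine h.un _ _ ?_ ?_ ?_ ?_ ?_ ?_
    · simp only [MonoidHom.comp_apply, MonoidHom.id_apply, g1, p1]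
    · simp only [MonoidHom.comp_apply, MonoidHom.id_apply, g2, p2]
    · simp only [MonoidHom.comp_apply, f3, g3]
    · rfl
    · intro u
      simp only [MonoidHom.comp_apply, f4, g4]
    · intro u
      rfl
  exact ⟨MonoidHom.toMulEquiv f g e1 e2, f4, f3, f1, f2⟩

theorem six {F : Type} [Group F] {k : ℕ} {sg : F ≃* F} {X Y t : F} (h : Shs k sg X Y t) :
    (∃ a : F ≃* F, (∀ u, a (sg u) = sg (a u)) ∧ a t = t ∧ a X = Y * X⁻¹ ∧ a Y = Y) ∧
    (∃ a : F ≃* F, (∀ u, a (sg u) = sg (a u)) ∧ a t = t ∧ a X = X ∧ a Y = X * Y⁻¹) ∧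
    (∃ a : F ≃* F, (∀ u, a (sg u) = sg (a u)) ∧ a t = t ∧ a X = X ∧
      a Y = X * (sg Y)⁻¹) ∧
    (∃ a : F ≃* F, (∀ u, a (sg u) = sg (a u)) ∧ a t = t ∧ a X = Y⁻¹ * X ∧
      a Y = Y⁻¹ * X * Y) ∧
    (∃ a : F ≃* F, (∀ u, a (sg u) = sg (a u)) ∧ a t = t ∧ a X = X⁻¹ * Y * X ∧
      a Y = X⁻¹ * Y) ∧
    (∃ a : F ≃* F, (∀ u, a (sg u) = sg (a u)) ∧ a t = t ∧ a X = X⁻¹ * Y ∧
      a Y = X⁻¹ * Y * sg X) := by
  refine ⟨?_, ?_, ?_, ?_, ?_, ?_⟩
  · refine Six_gen h _ _ (X⁻¹ * Y) Y ?_ ?_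
    · intro f f1 f2 f3 f4
      simp only [map_mul, map_inv, f1, f2]
      exact ⟨by group, trivial⟩
    · intro f f1 f2 f3 f4
      simp only [map_mul, map_inv, f1, f2]
      exact ⟨by group, trivial⟩
  · refine Six_gen h _ _ X (Y⁻¹ * X) ?_ ?_
    · intro f f1 f2 f3 f4
      simp only [map_mul, map_inv, f1, f2]
      exact ⟨trivial, by group⟩
    · intro f f1 f2 f3 f4
      simp only [map_mul, map_inv, f1, f2]
      exact ⟨trivial, by group⟩
  · refine Six_gen h _ _ X (sg.symm (Y⁻¹ * X)) ?_ ?_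
    · intro f f1 f2 f3 f4
      rw [f4]
      simp only [map_mul, map_inv, f1, f2]
      refine ⟨trivial, ?_⟩
      rw [MulEquiv.symm_apply_apply]
      group
    · intro f f1 f2 f3 f4
      rw [map_mul, map_inv, f3, f1, f2, MulEquiv.apply_symm_apply]
      exact ⟨rfl, by group⟩
  · refine Six_gen h _ _ (X⁻¹ * Y * X) (X⁻¹ * Y) ?_ ?_
    · intro f f1 f2 f3 f4
      simp only [map_mul, map_inv, f1, f2]
      exact ⟨by group, by group⟩
    · intro f f1 f2 f3 f4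
      simp only [map_mul, map_inv, f1, f2]
      exact ⟨by group, by group⟩
  · refine Six_gen h _ _ (Y⁻¹ * X) (Y⁻¹ * X * Y) ?_ ?_
    · intro f f1 f2 f3 f4
      simp only [map_mul, map_inv, f1, f2]
      exact ⟨by group, by group⟩
    · intro f f1 f2 f3 f4
      simp only [map_mul, map_inv, f1, f2]
      exact ⟨by group, by group⟩
  · refine Six_gen h _ _ (sg.symm (X⁻¹ * Y)) (sg.symm (X⁻¹ * Y) * X) ?_ ?_
    · intro f f1 f2 f3 f4
      have e : f (sg.symm (X⁻¹ * Y)) = X := by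
        rw [f4, map_mul, map_inv, f1, f2]
        have e2 : (X⁻¹ * Y)⁻¹ * (X⁻¹ * Y * sg X) = sg X := by group
        rw [e2, MulEquiv.symm_apply_apply]
      refine ⟨e, ?_⟩
      rw [map_mul, e, f1]
      group
    · intro f f1 f2 f3 f4
      have e : f (X⁻¹ * Y) = X := by
        rw [map_mul, map_inv, f1, f2]
        group
      refine ⟨e, ?_⟩
      rw [map_mul, e, f3, f1, MulEquiv.apply_symm_apply]
      group

end H80HM
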