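import Pool.Agent.H80.HM.Def5
import Pool.Agent.H80.HM.Six

set_option autoImplicit false

/-!
# Row Au3: the six twists

Write x = BD X, y = BD Y, p = SH, pi = pi3 x y p. For each of the six cases there is an automorphism a' of the free group on xx, yy, pp with a' xx = v, a' yy = w, a' pp = pp (inverses below)
and an automorphism a of F from six h with pi(v) = BD(a X), pi(w) = BD(a Y) (because BD(sg u) = p^{-1} BD(u) p), a t = t, a commuting with sg. Take T from h3 a: T BD(u) T^{-1} = BD(a u),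
T p = p T. Then g -> pi(a' g) and g -> T pi(g) T^{-1} agree on xx, yy, pp: equal homomorphisms (FreeGroup.ext_hom).
Inverses of a' (pp fixed):
 1. x -> y x^{-1}, y -> y:                 inverse x -> x^{-1} y, y -> y.
 2. x -> x, y -> x y^{-1}:                 inverse y -> y^{-1} x.
 3. x -> x, y -> x p^{-1} y^{-1} p:        inverse y -> p y^{-1} x p^{-1}.           pi(w) = BD(X) p^{-1} BD(Y)^{-1} p = BD(X (sg Y)^{-1}).
 4. x -> y^{-1} x, y -> y^{-1} x y:        inverse x -> x^{-1} y x, y -> x^{-1} y.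
 5. x -> x^{-1} y x, y -> x^{-1} y:        inverse x -> y^{-1} x, y -> y^{-1} x y.
 6. x -> x^{-1} y, y -> x^{-1} y p^{-1} x p: inverse x -> p x^{-1} y p^{-1}, y -> p x^{-1} y p^{-1} x.   pi(w) = BD(X^{-1} Y (sg X)).
-/

namespace H80HM

open Matrix

private lemma Au3_ext {G : Type*} [Group G] (f g : FreeGroup (Fin 3) →* G) (h1 : f xx = g xx)
    (h2 : f yy = g yy) (h3 : f pp = g pp) : f = g := by
  refine FreeGroup.ext_hom (f := f) (g := g) (fun i => ?_)
  fin_cases i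
  · exact h1
  · exact h2
  · exact h3

private lemma Au3_gen {F : Type} [Group F] {D' : ℕ} {X Y : F} (BD : F →* (Mt D')ˣ)
    (SH : (Mt D')ˣ) (v w v' w' : FreeGroup (Fin 3)) (a : F ≃* F) (T : (Mt D')ˣ)
    (hT1 : ∀ u, T * BD u * T⁻¹ = BD (a u)) (hT2 : T * SH = SH * T)
    (H : ∀ f : FreeGroup (Fin 3) →* FreeGroup (Fin 3), f xx = v → f yy = w → f pp = pp →
      f v' = xx ∧ f w' = yy)
    (H' : ∀ f : FreeGroup (Fin 3) →* FreeGroup (Fin 3), f xx = v' → f yy = w' → f pp = pp →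
      f v = xx ∧ f w = yy)
    (P : ∀ f : FreeGroup (Fin 3) →* (Mt D')ˣ, f xx = BD X → f yy = BD Y → f pp = SH →
      f v = BD (a X) ∧ f w = BD (a Y)) :
    Tw (pi3 (BD X) (BD Y) SH) v w := by
  have f1 : FreeGroup.lift ![v, w, pp] xx = v := FreeGroup.lift_apply_of
  have f2 : FreeGroup.lift ![v, w, pp] yy = w := FreeGroup.lift_apply_of
  have f3 : FreeGroup.lift ![v, w, pp] pp = pp := FreeGroup.lift_apply_of
  have g1 : FreeGroup.lift ![v', w', pp] xx = v' := FreeGroup.lift_apply_of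
  have g2 : FreeGroup.lift ![v', w', pp] yy = w' := FreeGroup.lift_apply_of
  have g3 : FreeGroup.lift ![v', w', pp] pp = pp := FreeGroup.lift_apply_of
  have q1 : pi3 (BD X) (BD Y) SH xx = BD X := FreeGroup.lift_apply_of
  have q2 : pi3 (BD X) (BD Y) SH yy = BD Y := FreeGroup.lift_apply_of
  have q3 : pi3 (BD X) (BD Y) SH pp = SH := FreeGroup.lift_apply_of
  generalize hf : FreeGroup.lift ![v, w, pp] = f at f1 f2 f3
  generalize hg : FreeGroup.lift ![v', w', pp] = g at g1 g2 g3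
  generalize hq : pi3 (BD X) (BD Y) SH = q at q1 q2 q3
  obtain ⟨a1, a2⟩ := H f f1 f2 f3
  obtain ⟨b1, b2⟩ := H' g g1 g2 g3
  obtain ⟨p1, p2⟩ := P q q1 q2 q3
  have e1 : g.comp f = MonoidHom.id _ := by
    refine Au3_ext _ _ ?_ ?_ ?_
    · rw [MonoidHom.comp_apply, f1, b1, MonoidHom.id_apply]
    · rw [MonoidHom.comp_apply, f2, b2, MonoidHom.id_apply]
    · rw [MonoidHom.comp_apply, f3, g3, MonoidHom.id_apply]
  have e2 : f.comp g = MonoidHom.id _ := by
    refine Au3_ext _ _ ?_ ?_ ?_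
    · rw [MonoidHom.comp_apply, g1, a1, MonoidHom.id_apply]
    · rw [MonoidHom.comp_apply, g2, a2, MonoidHom.id_apply]
    · rw [MonoidHom.comp_apply, g3, f3, MonoidHom.id_apply]
  have e3 : q.comp f = (MulAut.conj T).toMonoidHom.comp q := by
    refine Au3_ext _ _ ?_ ?_ ?_
    · change q (f xx) = T * q xx * T⁻¹
      rw [f1, p1, q1, hT1]
    · change q (f yy) = T * q yy * T⁻¹
      rw [f2, p2, q2, hT1]
    · change q (f pp) = T * q pp * T⁻¹
      rw [f3, q3, hT2, mul_inv_cancel_right]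
  refine ⟨MonoidHom.toMulEquiv f g e1 e2, f1, f2, f3, T, fun z => ?_⟩
  exact DFunLike.congr_fun e3 z

theorem au3 {F : Type} [Group F] {k D' : ℕ} {sg : F ≃* F} {X Y t : F} (h : Shs k sg X Y t)
    (BD : F →* (Mt D')ˣ) (SH : (Mt D')ˣ) (h1 : ∀ u, SH⁻¹ * BD u * SH = BD (sg u))
    (h3 : ∀ a : F ≃* F, (∀ u, a (sg u) = sg (a u)) → a t = t →
      ∃ T : (Mt D')ˣ, (∀ u, T * BD u * T⁻¹ = BD (a u)) ∧ T * SH = SH * T) :
    Tw6 (pi3 (BD X) (BD Y) SH) := by
  obtain ⟨⟨a1, c1, t1, x1, y1⟩, ⟨a2, c2, t2, x2, y2⟩, ⟨a3, c3, t3, x3, y3⟩,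
    ⟨a4, c4, t4, x4, y4⟩, ⟨a5, c5, t5, x5, y5⟩, ⟨a6, c6, t6, x6, y6⟩⟩ := six h
  have hs : ∀ u, BD (sg u) = SH⁻¹ * BD u * SH := fun u => (h1 u).symm
  refine ⟨?_, ?_, ?_, ?_, ?_, ?_⟩
  · obtain ⟨T, T1, T2⟩ := h3 a1 c1 t1
    refine Au3_gen BD SH _ _ (xx⁻¹ * yy) yy a1 T T1 T2 ?_ ?_ ?_
    · intro f f1 f2 f3
      simp only [map_mul, map_inv, f1, f2]
      exact ⟨by group, trivial⟩
    · intro f f1 f2 f3
      simp only [map_mul, map_inv, f1, f2]
      exact ⟨by group, trivial⟩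
    · intro f f1 f2 f3
      rw [x1, y1]
      simp only [map_mul, map_inv, f1, f2]
      exact ⟨trivial, trivial⟩
  · obtain ⟨T, T1, T2⟩ := h3 a2 c2 t2
    refine Au3_gen BD SH _ _ xx (yy⁻¹ * xx) a2 T T1 T2 ?_ ?_ ?_
    · intro f f1 f2 f3
      simp only [map_mul, map_inv, f1, f2]
      exact ⟨trivial, by group⟩
    · intro f f1 f2 f3
      simp only [map_mul, map_inv, f1, f2]
      exact ⟨trivial, by group⟩
    · intro f f1 f2 f3
      rw [x2, y2]
      simp only [map_mul, map_inv, f1, f2]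
      exact ⟨trivial, trivial⟩
  · obtain ⟨T, T1, T2⟩ := h3 a3 c3 t3
    refine Au3_gen BD SH _ _ xx (pp * yy⁻¹ * xx * pp⁻¹) a3 T T1 T2 ?_ ?_ ?_
    · intro f f1 f2 f3
      simp only [map_mul, map_inv, f1, f2, f3]
      exact ⟨trivial, by group⟩
    · intro f f1 f2 f3
      simp only [map_mul, map_inv, f1, f2, f3]
      exact ⟨trivial, by group⟩
    · intro f f1 f2 f3
      rw [x3, y3]
      simp only [map_mul, map_inv, f1, f2, f3, hs]
      exact ⟨trivial, by group⟩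
  · obtain ⟨T, T1, T2⟩ := h3 a4 c4 t4
    refine Au3_gen BD SH _ _ (xx⁻¹ * yy * xx) (xx⁻¹ * yy) a4 T T1 T2 ?_ ?_ ?_
    · intro f f1 f2 f3
      simp only [map_mul, map_inv, f1, f2]
      exact ⟨by group, by group⟩
    · intro f f1 f2 f3
      simp only [map_mul, map_inv, f1, f2]
      exact ⟨by group, by group⟩
    · intro f f1 f2 f3
      rw [x4, y4]
      simp only [map_mul, map_inv, f1, f2]
      exact ⟨trivial, trivial⟩
  · obtain ⟨T, T1, T2⟩ := h3 a5 c5 t5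
    refine Au3_gen BD SH _ _ (yy⁻¹ * xx) (yy⁻¹ * xx * yy) a5 T T1 T2 ?_ ?_ ?_
    · intro f f1 f2 f3
      simp only [map_mul, map_inv, f1, f2]
      exact ⟨by group, by group⟩
    · intro f f1 f2 f3
      simp only [map_mul, map_inv, f1, f2]
      exact ⟨by group, by group⟩
    · intro f f1 f2 f3
      rw [x5, y5]
      simp only [map_mul, map_inv, f1, f2]
      exact ⟨trivial, trivial⟩
  · obtain ⟨T, T1, T2⟩ := h3 a6 c6 t6
    refine Au3_gen BD SH _ _ (pp * xx⁻¹ * yy * pp⁻¹) (pp * xx⁻¹ * yy * pp⁻¹ * xx) a6 T T1 T2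
      ?_ ?_ ?_
    · intro f f1 f2 f3
      simp only [map_mul, map_inv, f1, f2, f3]
      exact ⟨by group, by group⟩
    · intro f f1 f2 f3
      simp only [map_mul, map_inv, f1, f2, f3]
      exact ⟨by group, by group⟩
    · intro f f1 f2 f3
      rw [x6, y6]
      simp only [map_mul, map_inv, f1, f2, f3, hs]
      exact ⟨trivial, by group⟩

end H80HM
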