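import Pool.Agent.H80.HM.Def4

set_option autoImplicit false

/-!
# Row Shf: the shift automorphism of the free group on X_j, Y_j (0 <= j < k) and t

FG k e with e <= 1; tt = of(inr 0) if e = 1, tt = 1 if e = 0. sg := lift: X_j -> X_{j+1} (j+1 < k), X_{k-1} -> t^{-1} X_0 t, same for Y, of(inr i) -> of(inr i); inverse: X_j -> X_{j-1} (j >= 1),
X_0 -> t X_{k-1} t^{-1}. sg t = t. (sg^j) X_0 = X_j for j < k, (sg^k) X_0 = t^{-1} X_0 t, so (sg^k) X_j = sg^j (t^{-1} X_0 t) = t^{-1} X_j t; the same for Y, t; hence sg^k u = t^{-1} u t for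
all u (two homomorphisms that agree on generators).
ex: given a, b let f := lift: X_j -> sg^j a, Y_j -> sg^j b, of(inr i) -> of(inr i) (so f t = t). f(sg X_j) = sg f(X_j): for j+1<k clear; j = k-1: f(t^{-1}X_0t) = t^{-1} a t = sg^k a. Same for Y;
t: clear. Two homomorphisms f o sg and sg o f agree on the generators. f X_0 = a.
un: f, g commute with sg and agree on X_0, Y_0, and fix t: then f X_j = f(sg^j X_0) = sg^j f(X_0) = g X_j etc.; generator of(inr 0) = t if e = 1.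
-/

namespace H80HM

theorem Shf_gen {k e : ℕ} (he : e ≤ 1) (i : Fin e) :
    (FreeGroup.of (Sum.inr i : Ix k e) : FG k e) = tt k e := by
  have h1 : e = 1 := by have := i.2; omega
  subst h1
  have h2 : i = 0 := Subsingleton.elim _ _
  subst h2
  simp [tt]

theorem Shf_fix {k e : ℕ} (he : e ≤ 1) (h : FG k e →* FG k e)
    (hh : ∀ i : Fin e, h (FreeGroup.of (Sum.inr i : Ix k e)) = FreeGroup.of (Sum.inr i : Ix k e)) :
    h (tt k e) = tt k e := by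
  rcases Nat.eq_zero_or_pos e with h0 | h0
  · subst h0
    simp [tt]
  · rw [← Shf_gen he ⟨0, h0⟩]
    exact hh _

/-- the cyclic shift of a family -/
def Shf_sc {k e : ℕ} (hk : 0 < k) (Q : Fin k → FG k e) (j : Fin k) : FG k e :=
  if h : (j : ℕ) + 1 < k then Q ⟨(j : ℕ) + 1, h⟩ else (tt k e)⁻¹ * Q ⟨0, hk⟩ * tt k e

/-- the inverse cyclic shift of a family -/
def Shf_pc {k e : ℕ} (hk : 0 < k) (Q : Fin k → FG k e) (j : Fin k) : FG k e :=
  if 0 < (j : ℕ) then Q ⟨(j : ℕ) - 1, by have := j.2; omega⟩ else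
    tt k e * Q ⟨k - 1, by omega⟩ * (tt k e)⁻¹

/-- homomorphism with prescribed values on the X, Y, fixing the last generator -/
def Shf_hm {k e : ℕ} (P Q : Fin k → FG k e) : FG k e →* FG k e :=
  FreeGroup.lift (Sum.elim (Sum.elim P Q) (fun i => FreeGroup.of (Sum.inr i : Ix k e)))

theorem Shf_hm_X {k e : ℕ} (P Q : Fin k → FG k e) (j : Fin k) : Shf_hm P Q (Xb j) = P j := by
  simp [Shf_hm, Xb]

theorem Shf_hm_Y {k e : ℕ} (P Q : Fin k → FG k e) (j : Fin k) : Shf_hm P Q (Yb j) = Q j := by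
  simp [Shf_hm, Yb]

theorem Shf_hm_t {k e : ℕ} (he : e ≤ 1) (P Q : Fin k → FG k e) :
    Shf_hm P Q (tt k e) = tt k e := by
  refine Shf_fix he _ fun i => ?_
  simp [Shf_hm]

theorem Shf_ext {k e : ℕ} (he : e ≤ 1) {G : Type} [Group G] (f g : FG k e →* G)
    (hX : ∀ j, f (Xb j) = g (Xb j)) (hY : ∀ j, f (Yb j) = g (Yb j))
    (ht : f (tt k e) = g (tt k e)) : f = g := by
  refine FreeGroup.ext_hom _ _ fun z => ?_
  rcases z with (j | j) | i
  · exact hX j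
  · exact hY j
  · rw [Shf_gen he i]; exact ht

theorem Shf_sp {k e : ℕ} (hk : 0 < k) (he : e ≤ 1) :
    (Shf_hm (Shf_sc hk Xb) (Shf_sc hk Yb) : FG k e →* FG k e).comp
      (Shf_hm (Shf_pc hk Xb) (Shf_pc hk Yb)) = MonoidHom.id _ := by
  have key : ∀ (Q : Fin k → FG k e), (∀ j, Shf_hm (Shf_sc hk Xb) (Shf_sc hk Yb) (Q j) =
      Shf_sc hk Q j) → ∀ j, Shf_hm (Shf_sc hk Xb) (Shf_sc hk Yb) (Shf_pc hk Q j) = Q j := by
    intro Q hQ j
    rw [Shf_pc]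
    by_cases h : 0 < (j : ℕ)
    · rw [if_pos h, hQ, Shf_sc]
      have h1 : (j : ℕ) - 1 + 1 < k := by have := j.2; omega
      rw [dif_pos h1]
      congr 1
      ext
      simp only
      omega
    · rw [if_neg h, map_mul, map_mul, map_inv, Shf_hm_t he, hQ, Shf_sc]
      have h1 : ¬ (k - 1 + 1 < k) := by omega
      rw [dif_neg h1]
      have h2 : (⟨0, hk⟩ : Fin k) = j := by ext; simp only; omega
      rw [h2]
      group
  refine Shf_ext he _ _ (fun j => ?_) (fun j => ?_) ?_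
  · rw [MonoidHom.comp_apply, Shf_hm_X]
    exact key Xb (fun j => Shf_hm_X _ _ j) j
  · rw [MonoidHom.comp_apply, Shf_hm_Y]
    exact key Yb (fun j => Shf_hm_Y _ _ j) j
  · rw [MonoidHom.comp_apply, Shf_hm_t he, Shf_hm_t he]; rfl

theorem Shf_ps {k e : ℕ} (hk : 0 < k) (he : e ≤ 1) :
    (Shf_hm (Shf_pc hk Xb) (Shf_pc hk Yb) : FG k e →* FG k e).comp
      (Shf_hm (Shf_sc hk Xb) (Shf_sc hk Yb)) = MonoidHom.id _ := by
  have key : ∀ (Q : Fin k → FG k e), (∀ j, Shf_hm (Shf_pc hk Xb) (Shf_pc hk Yb) (Q j) =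
      Shf_pc hk Q j) → ∀ j, Shf_hm (Shf_pc hk Xb) (Shf_pc hk Yb) (Shf_sc hk Q j) = Q j := by
    intro Q hQ j
    rw [Shf_sc]
    by_cases h : (j : ℕ) + 1 < k
    · rw [dif_pos h, hQ, Shf_pc]
      have h1 : 0 < (j : ℕ) + 1 := by omega
      rw [if_pos h1]
      congr 1
    · rw [dif_neg h, map_mul, map_mul, map_inv, Shf_hm_t he, hQ, Shf_pc]
      rw [if_neg (by simp)]
      have h2 : (⟨k - 1, by omega⟩ : Fin k) = j := by
        ext; simp only; have := j.2; omega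
      rw [h2]
      group
  refine Shf_ext he _ _ (fun j => ?_) (fun j => ?_) ?_
  · rw [MonoidHom.comp_apply, Shf_hm_X]
    exact key Xb (fun j => Shf_hm_X _ _ j) j
  · rw [MonoidHom.comp_apply, Shf_hm_Y]
    exact key Yb (fun j => Shf_hm_Y _ _ j) j
  · rw [MonoidHom.comp_apply, Shf_hm_t he, Shf_hm_t he]; rfl

/-- the shift -/
def Shf_sg {k e : ℕ} (hk : 0 < k) (he : e ≤ 1) : FG k e ≃* FG k e :=
  MonoidHom.toMulEquiv _ _ (Shf_ps hk he) (Shf_sp hk he)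

theorem Shf_sg_X {k e : ℕ} (hk : 0 < k) (he : e ≤ 1) (j : Fin k) :
    Shf_sg hk he (Xb j) = Shf_sc hk Xb j := Shf_hm_X _ _ j

theorem Shf_sg_Y {k e : ℕ} (hk : 0 < k) (he : e ≤ 1) (j : Fin k) :
    Shf_sg hk he (Yb j) = Shf_sc hk Yb j := Shf_hm_Y _ _ j

theorem Shf_sg_t {k e : ℕ} (hk : 0 < k) (he : e ≤ 1) :
    Shf_sg hk he (tt k e) = tt k e := Shf_hm_t he _ _

theorem Shf_ps1 {F : Type} [Group F] (sg : F ≃* F) (n : ℕ) (u : F) :
    (sg ^ (n + 1)) u = sg ((sg ^ n) u) := by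
  rw [pow_succ']; rfl

theorem Shf_pt {F : Type} [Group F] (sg : F ≃* F) (t : F) (h : sg t = t) (n : ℕ) :
    (sg ^ n) t = t := by
  induction n with
  | zero => rfl
  | succ n ih => rw [Shf_ps1, ih, h]

theorem Shf_pc0 {F : Type} [Group F] (sg : F ≃* F) (n n' : ℕ) (u : F) :
    (sg ^ n) ((sg ^ n') u) = (sg ^ n') ((sg ^ n) u) := by
  have h1 : (sg ^ n * sg ^ n') u = (sg ^ n' * sg ^ n) u := by rw [← pow_add, ← pow_add, add_comm]
  exact h1

theorem Shf_pow {k e : ℕ} (hk : 0 < k) (sg : FG k e ≃* FG k e) (Q : Fin k → FG k e)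
    (hQ : ∀ j, sg (Q j) = Shf_sc hk Q j) : ∀ (n : ℕ) (h : n < k), (sg ^ n) (Q ⟨0, hk⟩) = Q ⟨n, h⟩ := by
  intro n
  induction n with
  | zero => intro h; rfl
  | succ n ih =>
    intro h
    rw [Shf_ps1, ih (by omega), hQ, Shf_sc, dif_pos h]

theorem Shf_powk {k e : ℕ} (hk : 0 < k) (sg : FG k e ≃* FG k e) (Q : Fin k → FG k e)
    (hQ : ∀ j, sg (Q j) = Shf_sc hk Q j) :
    (sg ^ k) (Q ⟨0, hk⟩) = (tt k e)⁻¹ * Q ⟨0, hk⟩ * tt k e := by
  obtain ⟨n, rfl⟩ : ∃ n, k = n + 1 := ⟨k - 1, by omega⟩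
  rw [Shf_ps1, Shf_pow hk sg Q hQ n (by omega), hQ, Shf_sc, dif_neg (by simp)]

theorem Shf_sk {k e : ℕ} (hk : 0 < k) (he : e ≤ 1) (u : FG k e) :
    ((Shf_sg hk he) ^ k) u = (tt k e)⁻¹ * u * tt k e := by
  have key : ∀ (Q : Fin k → FG k e), (∀ j, Shf_sg hk he (Q j) = Shf_sc hk Q j) →
      ∀ j, ((Shf_sg hk he) ^ k) (Q j) = (tt k e)⁻¹ * Q j * tt k e := by
    intro Q hQ j
    rw [← Shf_pow hk _ Q hQ j j.2, Shf_pc0, Shf_powk hk _ Q hQ, map_mul, map_mul, map_inv,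
      Shf_pt _ _ (Shf_sg_t hk he)]
  have h : (((Shf_sg hk he) ^ k : FG k e ≃* FG k e) : FG k e →* FG k e) =
      ((MulAut.conj (tt k e)⁻¹ : FG k e ≃* FG k e) : FG k e →* FG k e) := by
    refine Shf_ext he _ _ (fun j => ?_) (fun j => ?_) ?_
    · have h1 := key Xb (Shf_sg_X hk he) j
      simpa [MulAut.conj_apply] using h1
    · have h1 := key Yb (Shf_sg_Y hk he) j
      simpa [MulAut.conj_apply] using h1
    · have h1 := Shf_pt _ _ (Shf_sg_t hk he) k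
      simpa [MulAut.conj_apply] using h1
  have h2 := DFunLike.congr_fun h u
  simpa [MulAut.conj_apply] using h2

theorem Shf_com {F : Type} [Group F] (sg : F ≃* F) (f : F →* F)
    (h : ∀ u, f (sg u) = sg (f u)) (n : ℕ) (u : F) : f ((sg ^ n) u) = (sg ^ n) (f u) := by
  induction n with
  | zero => rfl
  | succ n ih => rw [Shf_ps1, h, ih, Shf_ps1]

theorem shift_ex {k e : ℕ} (hk : 0 < k) (he : e ≤ 1) : ∃ sg : FG k e ≃* FG k e,
    Shs k sg (Xb ⟨0, hk⟩) (Yb ⟨0, hk⟩) (tt k e) ∧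
    (∀ j : Fin k, (sg ^ (j : ℕ)) (Xb ⟨0, hk⟩) = Xb j) ∧
    (∀ j : Fin k, (sg ^ (j : ℕ)) (Yb ⟨0, hk⟩) = Yb j) := by
  have hX : ∀ j : Fin k, ((Shf_sg hk he) ^ (j : ℕ)) (Xb ⟨0, hk⟩) = Xb j := fun j =>
    Shf_pow hk _ Xb (Shf_sg_X hk he) j j.2
  have hY : ∀ j : Fin k, ((Shf_sg hk he) ^ (j : ℕ)) (Yb ⟨0, hk⟩) = Yb j := fun j =>
    Shf_pow hk _ Yb (Shf_sg_Y hk he) j j.2
  refine ⟨Shf_sg hk he, ⟨Shf_sg_t hk he, Shf_sk hk he, ?_, ?_⟩, hX, hY⟩
  · intro a b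
    set f : FG k e →* FG k e := Shf_hm (fun j => ((Shf_sg hk he) ^ (j : ℕ)) a)
      (fun j => ((Shf_sg hk he) ^ (j : ℕ)) b) with hf
    have hft : f (tt k e) = tt k e := Shf_hm_t he _ _
    have key : ∀ (Q : Fin k → FG k e) (c : FG k e), (∀ j, Shf_sg hk he (Q j) = Shf_sc hk Q j) →
        (∀ j, f (Q j) = ((Shf_sg hk he) ^ (j : ℕ)) c) →
        ∀ j, f (Shf_sg hk he (Q j)) = Shf_sg hk he (f (Q j)) := by
      intro Q c h1 h2 j
      rw [h1, h2, ← Shf_ps1, Shf_sc]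
      by_cases h : (j : ℕ) + 1 < k
      · rw [dif_pos h, h2]
      · rw [dif_neg h, map_mul, map_mul, map_inv, hft, h2]
        have h3 : (j : ℕ) + 1 = k := by have := j.2; omega
        rw [h3, Shf_sk]
        rfl
    refine ⟨f, ?_, ?_, hft, ?_⟩
    · rw [hf, Shf_hm_X]; rfl
    · rw [hf, Shf_hm_Y]; rfl
    · have h : f.comp ((Shf_sg hk he : FG k e ≃* FG k e) : FG k e →* FG k e) =
          ((Shf_sg hk he : FG k e ≃* FG k e) : FG k e →* FG k e).comp f := by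
        refine Shf_ext he _ _ (fun j => ?_) (fun j => ?_) ?_
        · exact key Xb a (Shf_sg_X hk he) (fun j => Shf_hm_X _ _ j) j
        · exact key Yb b (Shf_sg_Y hk he) (fun j => Shf_hm_Y _ _ j) j
        · change f (Shf_sg hk he (tt k e)) = Shf_sg hk he (f (tt k e))
          rw [Shf_sg_t, hft, Shf_sg_t]
      intro u
      exact DFunLike.congr_fun h u
  · intro f g h1 h2 h3 h4 h5 h6
    refine Shf_ext he _ _ (fun j => ?_) (fun j => ?_) (h3.trans h4.symm)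
    · rw [← hX j, Shf_com _ f h5, Shf_com _ g h6, h1]
    · rw [← hY j, Shf_com _ f h5, Shf_com _ g h6, h2]

end H80HM
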