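import Pool.Agent.H80.HM.Def5

set_option autoImplicit false

/-!
# Row Sub: five subgroups contained in proper free factors

FG k e is the free group on X_j, Y_j (j < k) and, if e = 1, on t = of(inr 0); t = tt = 1 if e = 0. P_j = X_0 ... X_{j-1} = Pj k e j (P_{j+1} = P_j X_j for j < k).
It is enough to check th l' = l on generators: if th is an automorphism and every generator of L is in the image th(S) of the subgroup S = closure(of '' {i | i <> i0}) then L <= th(S).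
L1 (generators t, Y_j): th = id, i0 = X_0 (= inl (inl 0)). t = 1 or t = of(inr 0) is in S; Y_j in S.
L2 (t, X_j): th = id, i0 = Y_0.
L3 (X_0, Y_0): th = id; i0 = X_1 if k >= 2; i0 = inr 0 if e = 1.
L4 (generators E' = P_k t^{-1} and d_j = P_j Y_j P_j^{-1}): i0 = X_0.
  e = 1: th: X_j -> X_j, Y_j -> P_j Y_j P_j^{-1}, t -> P_k t^{-1}; inverse: X_j -> X_j, Y_j -> P_j^{-1} Y_j P_j, t -> t^{-1} P_k (both fix all P_j; check on generators). E' = th(t), d_j = th(Y_j).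
  e = 0 (so k >= 2, t = 1): th: X_j -> X_j for j < k-1, X_{k-1} -> P_{k-1} X_{k-1} (= P_k), Y_j -> P_j Y_j P_j^{-1}; inverse: X_{k-1} -> P_{k-1}^{-1} X_{k-1}, Y_j -> P_j^{-1} Y_j P_j;
  for j <= k-1 the element P_j involves only X_i with i < k-1, so it is fixed by both. E' = P_k = th(X_{k-1}), X_{k-1} <> X_0; d_j = th(Y_j).
L5 (generators E', P_j Y_j X_j^{-1} P_j^{-1}): let al be the automorphism Y_j -> Y_j X_j^{-1}, all other generators fixed (inverse Y_j -> Y_j X_j). al(E') = E', al(P_j) = P_j, so al maps the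
  generators of L4 to the generators of L5: L5 = al(L4) and L5 is contained in al(th(S)), th from L4. So th' = th followed by al, the same i0.
Automorphisms of a free group: MonoidHom.toMulEquiv of two FreeGroup.lift homomorphisms whose composites are the identity on generators (FreeGroup.ext_hom).
-/

namespace H80HM

lemma Sub_pf {I : Type} (gens : Set (FreeGroup I)) (i0 : I) (th : FreeGroup I ≃* FreeGroup I)
    (h : ∀ g ∈ gens, ∃ l' ∈ Subgroup.closure (FreeGroup.of '' {i : I | i ≠ i0}), th l' = g) :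
    Pf (Subgroup.closure gens) := by
  refine ⟨i0, th, ?_⟩
  have h1 : Subgroup.closure gens ≤
      (Subgroup.closure (FreeGroup.of '' {i : I | i ≠ i0})).map th.toMonoidHom := by
    rw [Subgroup.closure_le]
    intro g hg
    obtain ⟨l', hl', e⟩ := h g hg
    exact ⟨l', hl', e⟩
  intro l hl
  obtain ⟨l', hl', e⟩ := h1 hl
  exact ⟨l', hl', e⟩

lemma Sub_mem {I : Type} {i0 i : I} (h : i ≠ i0) :
    FreeGroup.of i ∈ Subgroup.closure (FreeGroup.of '' {i : I | i ≠ i0}) :=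
  Subgroup.subset_closure ⟨i, h, rfl⟩

lemma Sub_tt_mem {k e : ℕ} {i0 : Ix k e} (h : ∀ i : Fin e, (Sum.inr i : Ix k e) ≠ i0) :
    tt k e ∈ Subgroup.closure (FreeGroup.of '' {i : Ix k e | i ≠ i0}) := by
  unfold tt
  refine Subgroup.list_prod_mem _ ?_
  intro x hx
  obtain ⟨i, rfl⟩ := (List.mem_ofFn' _ _).1 hx
  exact Sub_mem (h i)

lemma Sub_P_zero (k e : ℕ) : Pj k e 0 = 1 := by simp [Pj]

lemma Sub_P_succ {k e j : ℕ} (hj : j < k) : Pj k e (j + 1) = Pj k e j * Xb ⟨j, hj⟩ := by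
  unfold Pj
  rw [List.prod_take_succ _ _ (by simpa using hj)]
  simp

lemma Sub_fixP {k e : ℕ} (f : FG k e →* FG k e) (j : ℕ) (hjk : j ≤ k)
    (h : ∀ i : Fin k, i.val < j → f (Xb i) = Xb i) : f (Pj k e j) = Pj k e j := by
  induction j with
  | zero => rw [Sub_P_zero, map_one]
  | succ j ih =>
    rw [Sub_P_succ (by omega), map_mul, ih (by omega) (fun i hi => h i (by omega)),
      h _ (by simp)]

lemma Sub_tt_one (k : ℕ) : tt k 1 = FreeGroup.of (Sum.inr 0) := by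
  simp [tt]

lemma Sub_tt_zero (k : ℕ) : tt k 0 = 1 := by
  simp [tt]

/-- The homomorphism with given values on the generators. -/
def Sub_h {k e : ℕ} (a b : Fin k → FG k e) (c : Fin e → FG k e) : FG k e →* FG k e :=
  FreeGroup.lift (Sum.elim (Sum.elim a b) c)

lemma Sub_hX {k e : ℕ} (a b : Fin k → FG k e) (c : Fin e → FG k e) (j : Fin k) :
    Sub_h a b c (Xb j) = a j := by
  simp [Sub_h, Xb]

lemma Sub_hY {k e : ℕ} (a b : Fin k → FG k e) (c : Fin e → FG k e) (j : Fin k) :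
    Sub_h a b c (Yb j) = b j := by
  simp [Sub_h, Yb]

lemma Sub_ht {k e : ℕ} (a b : Fin k → FG k e) (c : Fin e → FG k e) (j : Fin e) :
    Sub_h a b c (FreeGroup.of (Sum.inr j)) = c j := by
  simp [Sub_h]

lemma Sub_ext {k e : ℕ} (f g : FG k e →* FG k e) (hX : ∀ j, g (f (Xb j)) = Xb j)
    (hY : ∀ j, g (f (Yb j)) = Yb j)
    (ht : ∀ j : Fin e, g (f (FreeGroup.of (Sum.inr j))) = FreeGroup.of (Sum.inr j)) :
    g.comp f = MonoidHom.id (FG k e) := by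
  refine FreeGroup.ext_hom (M := FG k e) _ _ ?_
  rintro ((j | j) | j)
  · exact hX j
  · exact hY j
  · exact ht j

lemma Sub_L4_one {k : ℕ} (hk : 0 < k) : Pf (L4 k 1) := by
  obtain ⟨f, hf⟩ : ∃ f : FG k 1 →* FG k 1, f = Sub_h Xb
    (fun j => Pj k 1 j * Yb j * (Pj k 1 j)⁻¹) (fun _ => Pj k 1 k * (tt k 1)⁻¹) := ⟨_, rfl⟩
  obtain ⟨g, hg⟩ : ∃ g : FG k 1 →* FG k 1, g = Sub_h Xb
    (fun j => (Pj k 1 j)⁻¹ * Yb j * Pj k 1 j) (fun _ => (tt k 1)⁻¹ * Pj k 1 k) := ⟨_, rfl⟩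
  have fX : ∀ j, f (Xb j) = Xb j := fun j => by rw [hf, Sub_hX]
  have gX : ∀ j, g (Xb j) = Xb j := fun j => by rw [hg, Sub_hX]
  have fY : ∀ j : Fin k, f (Yb j) = Pj k 1 j * Yb j * (Pj k 1 j)⁻¹ := fun j => by
    rw [hf, Sub_hY]
  have gY : ∀ j : Fin k, g (Yb j) = (Pj k 1 j)⁻¹ * Yb j * Pj k 1 j := fun j => by
    rw [hg, Sub_hY]
  have ft : f (tt k 1) = Pj k 1 k * (tt k 1)⁻¹ := by
    rw [hf]; nth_rewrite 2 [Sub_tt_one]; rw [Sub_ht]
  have gt : g (tt k 1) = (tt k 1)⁻¹ * Pj k 1 k := by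
    rw [hg]; nth_rewrite 2 [Sub_tt_one]; rw [Sub_ht]
  have fP : ∀ j, j ≤ k → f (Pj k 1 j) = Pj k 1 j := fun j hj => Sub_fixP f j hj fun i _ => fX i
  have gP : ∀ j, j ≤ k → g (Pj k 1 j) = Pj k 1 j := fun j hj => Sub_fixP g j hj fun i _ => gX i
  have h1 : g.comp f = MonoidHom.id (FG _ _) := by
    refine Sub_ext f g (fun j => by rw [fX, gX]) (fun j => ?_) (fun j => ?_)
    · rw [fY, map_mul, map_mul, map_inv, gP _ j.2.le, gY]; group
    · have : (FreeGroup.of (Sum.inr j) : FG k 1) = tt k 1 := by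
        rw [Sub_tt_one, Subsingleton.elim j 0]
      rw [this, ft, map_mul, map_inv, gP _ le_rfl, gt]; group
  have h2 : f.comp g = MonoidHom.id (FG _ _) := by
    refine Sub_ext g f (fun j => by rw [gX, fX]) (fun j => ?_) (fun j => ?_)
    · rw [gY, map_mul, map_mul, map_inv, fP _ j.2.le, fY]; group
    · have : (FreeGroup.of (Sum.inr j) : FG k 1) = tt k 1 := by
        rw [Sub_tt_one, Subsingleton.elim j 0]
      rw [this, gt, map_mul, map_inv, fP _ le_rfl, ft]; group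
  refine Sub_pf _ (Sum.inl (Sum.inl ⟨0, hk⟩)) (MonoidHom.toMulEquiv f g h1 h2) ?_
  rintro x (rfl | ⟨j, rfl⟩)
  · refine ⟨tt k 1, Sub_tt_mem (fun i => by simp), ?_⟩
    exact ft
  · refine ⟨Yb j, Sub_mem (by simp), ?_⟩
    exact fY j

lemma Sub_L4_zero {k : ℕ} (hk : 2 ≤ k) : Pf (L4 k 0) := by
  obtain ⟨m, rfl⟩ : ∃ m, k = m + 1 := ⟨k - 1, by omega⟩
  obtain ⟨f, hf⟩ : ∃ f : FG (m + 1) 0 →* FG (m + 1) 0, f = Sub_h
    (fun j => if j.val = m then Pj (m + 1) 0 m * Xb j else Xb j)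
    (fun j => Pj (m + 1) 0 j * Yb j * (Pj (m + 1) 0 j)⁻¹) (fun _ => 1) := ⟨_, rfl⟩
  obtain ⟨g, hg⟩ : ∃ g : FG (m + 1) 0 →* FG (m + 1) 0, g = Sub_h
    (fun j => if j.val = m then (Pj (m + 1) 0 m)⁻¹ * Xb j else Xb j)
    (fun j => (Pj (m + 1) 0 j)⁻¹ * Yb j * Pj (m + 1) 0 j) (fun _ => 1) := ⟨_, rfl⟩
  have fX : ∀ j : Fin (m + 1), j.val < m → f (Xb j) = Xb j := fun j hj => by
    rw [hf, Sub_hX, if_neg (by omega)]
  have gX : ∀ j : Fin (m + 1), j.val < m → g (Xb j) = Xb j := fun j hj => by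
    rw [hg, Sub_hX, if_neg (by omega)]
  have fX' : ∀ j : Fin (m + 1), j.val = m → f (Xb j) = Pj (m + 1) 0 m * Xb j := fun j hj => by
    rw [hf, Sub_hX, if_pos hj]
  have gX' : ∀ j : Fin (m + 1), j.val = m → g (Xb j) = (Pj (m + 1) 0 m)⁻¹ * Xb j :=
    fun j hj => by rw [hg, Sub_hX, if_pos hj]
  have fY : ∀ j : Fin (m + 1), f (Yb j) = Pj (m + 1) 0 j * Yb j * (Pj (m + 1) 0 j)⁻¹ :=
    fun j => by rw [hf, Sub_hY]
  have gY : ∀ j : Fin (m + 1), g (Yb j) = (Pj (m + 1) 0 j)⁻¹ * Yb j * Pj (m + 1) 0 j :=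
    fun j => by rw [hg, Sub_hY]
  have fP : ∀ j, j ≤ m → f (Pj (m + 1) 0 j) = Pj (m + 1) 0 j := fun j hj =>
    Sub_fixP f j (by omega) fun i hi => fX i (by omega)
  have gP : ∀ j, j ≤ m → g (Pj (m + 1) 0 j) = Pj (m + 1) 0 j := fun j hj =>
    Sub_fixP g j (by omega) fun i hi => gX i (by omega)
  have hlt : ∀ j : Fin (m + 1), j.val ≠ m → j.val < m := fun j h => by have := j.2; omega
  have hle : ∀ j : Fin (m + 1), j.val ≤ m := fun j => by have := j.2; omega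
  have h1 : g.comp f = MonoidHom.id (FG _ _) := by
    refine Sub_ext f g (fun j => ?_) (fun j => ?_) (fun j => j.elim0)
    · by_cases hj : j.val = m
      · rw [fX' j hj, map_mul, gP _ le_rfl, gX' j hj]; group
      · rw [fX j (hlt j hj), gX j (hlt j hj)]
    · rw [fY, map_mul, map_mul, map_inv, gP _ (hle j), gY]; group
  have h2 : f.comp g = MonoidHom.id (FG _ _) := by
    refine Sub_ext g f (fun j => ?_) (fun j => ?_) (fun j => j.elim0)
    · by_cases hj : j.val = m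
      · rw [gX' j hj, map_mul, map_inv, fP _ le_rfl, fX' j hj]; group
      · rw [gX j (hlt j hj), fX j (hlt j hj)]
    · rw [gY, map_mul, map_mul, map_inv, fP _ (hle j), fY]; group
  refine Sub_pf _ (Sum.inl (Sum.inl ⟨0, by omega⟩)) (MonoidHom.toMulEquiv f g h1 h2) ?_
  rintro x (rfl | ⟨j, rfl⟩)
  · refine ⟨Xb ⟨m, by omega⟩, Sub_mem (by simp; omega), ?_⟩
    rw [Sub_tt_zero, inv_one, mul_one, Sub_P_succ (by omega)]
    exact fX' ⟨m, by omega⟩ rfl
  · refine ⟨Yb j, Sub_mem (by simp), ?_⟩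
    exact fY j

lemma Sub_L5 {k e : ℕ} (h : Pf (L4 k e)) : Pf (L5 k e) := by
  obtain ⟨f, hf⟩ : ∃ f : FG k e →* FG k e, f = Sub_h Xb
    (fun j => Yb j * (Xb j)⁻¹) (fun j => FreeGroup.of (Sum.inr j)) := ⟨_, rfl⟩
  obtain ⟨g, hg⟩ : ∃ g : FG k e →* FG k e, g = Sub_h Xb
    (fun j => Yb j * Xb j) (fun j => FreeGroup.of (Sum.inr j)) := ⟨_, rfl⟩
  have fX : ∀ j, f (Xb j) = Xb j := fun j => by rw [hf, Sub_hX]
  have gX : ∀ j, g (Xb j) = Xb j := fun j => by rw [hg, Sub_hX]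
  have fY : ∀ j : Fin k, f (Yb j) = Yb j * (Xb j)⁻¹ := fun j => by rw [hf, Sub_hY]
  have gY : ∀ j : Fin k, g (Yb j) = Yb j * Xb j := fun j => by rw [hg, Sub_hY]
  have ft : ∀ j : Fin e, f (FreeGroup.of (Sum.inr j)) = FreeGroup.of (Sum.inr j) := fun j => by
    rw [hf, Sub_ht]
  have gt : ∀ j : Fin e, g (FreeGroup.of (Sum.inr j)) = FreeGroup.of (Sum.inr j) := fun j => by
    rw [hg, Sub_ht]
  have fP : ∀ j, j ≤ k → f (Pj k e j) = Pj k e j := fun j hj => Sub_fixP f j hj fun i _ => fX i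
  have ftt : f (tt k e) = tt k e := by
    unfold tt
    rw [map_list_prod, List.map_ofFn]
    congr 2
    funext j
    exact ft j
  have h1 : g.comp f = MonoidHom.id (FG _ _) := by
    refine Sub_ext f g (fun j => by rw [fX, gX]) (fun j => ?_) (fun j => by rw [ft, gt])
    rw [fY, map_mul, map_inv, gX, gY]; group
  have h2 : f.comp g = MonoidHom.id (FG _ _) := by
    refine Sub_ext g f (fun j => by rw [gX, fX]) (fun j => ?_) (fun j => by rw [gt, ft])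
    rw [gY, map_mul, fX, fY]; group
  obtain ⟨i0, th, hth⟩ := h
  have hmap : L5 k e ≤ (L4 k e).map f := by
    unfold L5 L4
    rw [Subgroup.closure_le]
    rintro x (rfl | ⟨j, rfl⟩)
    · refine ⟨Pj k e k * (tt k e)⁻¹, Subgroup.subset_closure (Or.inl rfl), ?_⟩
      rw [map_mul, map_inv, fP _ le_rfl, ftt]
    · refine ⟨Pj k e j * Yb j * (Pj k e j)⁻¹, Subgroup.subset_closure (Or.inr ⟨j, rfl⟩), ?_⟩
      simp only [map_mul, map_inv, fP _ j.2.le, fY]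
  refine ⟨i0, th.trans (MonoidHom.toMulEquiv f g h1 h2), fun l hl => ?_⟩
  obtain ⟨l4, hl4, e4⟩ := hmap hl
  obtain ⟨l', hl', e'⟩ := hth l4 hl4
  refine ⟨l', hl', ?_⟩
  rw [MulEquiv.trans_apply, e']
  exact e4

theorem sub5 {k e : ℕ} (hk : 0 < k) (he : e ≤ 1) (hke : 2 ≤ k ∨ e = 1) :
    Pf (L1 k e) ∧ Pf (L2 k e) ∧ Pf (L3 e hk) ∧ Pf (L4 k e) ∧ Pf (L5 k e) := by
  have h4 : Pf (L4 k e) := by
    obtain rfl | rfl : e = 0 ∨ e = 1 := by omega
    · exact Sub_L4_zero (by omega)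
    · exact Sub_L4_one hk
  refine ⟨?_, ?_, ?_, h4, Sub_L5 h4⟩
  · refine Sub_pf _ (Sum.inl (Sum.inl ⟨0, hk⟩)) (MulEquiv.refl _) ?_
    rintro x (rfl | ⟨j, rfl⟩)
    · exact ⟨_, Sub_tt_mem (fun i => by simp), rfl⟩
    · exact ⟨_, Sub_mem (i := Sum.inl (Sum.inr j)) (by simp), rfl⟩
  · refine Sub_pf _ (Sum.inl (Sum.inr ⟨0, hk⟩)) (MulEquiv.refl _) ?_
    rintro x (rfl | ⟨j, rfl⟩)
    · exact ⟨_, Sub_tt_mem (fun i => by simp), rfl⟩
    · exact ⟨_, Sub_mem (i := Sum.inl (Sum.inl j)) (by simp), rfl⟩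
  · rcases hke with h | rfl
    · refine Sub_pf _ (Sum.inl (Sum.inl ⟨1, by omega⟩)) (MulEquiv.refl _) ?_
      rintro x (rfl | rfl)
      · exact ⟨_, Sub_mem (i := Sum.inl (Sum.inl ⟨0, hk⟩)) (by simp), rfl⟩
      · exact ⟨_, Sub_mem (i := Sum.inl (Sum.inr ⟨0, hk⟩)) (by simp), rfl⟩
    · refine Sub_pf _ (Sum.inr 0) (MulEquiv.refl _) ?_
      rintro x (rfl | rfl)
      · exact ⟨_, Sub_mem (i := Sum.inl (Sum.inl ⟨0, hk⟩)) (by simp), rfl⟩
      · exact ⟨_, Sub_mem (i := Sum.inl (Sum.inr ⟨0, hk⟩)) (by simp), rfl⟩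

end H80HM
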