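import Pool.Agent.H80.HM.Mox

set_option autoImplicit false

/-!
# Row Iin: the block shift representation

F a group, rho characteristic, sg an automorphism with sg t = t, sg^k = conjugation u -> t^{-1} u t, k > 0. Index set Fin d x Fin k = Fin (d*k) (finProdFinEquiv); a vector is a function
f : Fin k -> C^d.   (BD u f)(j) = rho(sg^j u) f(j) (block diagonal; homomorphism);   (SH f)(j) = f(j-1) for j >= 1, (SH f)(0) = rho(t) f(k-1) (invertible).
(1) SH^{-1} BD(u) SH = BD(sg u): equivalently BD(u) SH = SH BD(sg u): at j >= 1: rho(sg^j u) f(j-1) = rho(sg^{j-1} sg u) f(j-1); at 0: rho(u) rho(t) f(k-1) = rho(t) rho(sg^{k-1} sg u) f(k-1)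
 because sg^k u = t^{-1} u t.
(2) SH^k = BD t: after k steps every coordinate passes the corner exactly once: (SH^k f)(j) = rho(t) f(j); rho(sg^j t) = rho(t).
(3) a automorphism with a sg = sg a, a t = t: Chr gives h with rho(a u) = h rho(u) h^{-1}; T := block diagonal with all blocks h. T BD(u) T^{-1} at j: h rho(sg^j u) h^{-1} = rho(a sg^j u) =
 rho(sg^j a u). T SH = SH T: h rho(t) = rho(t) h since rho(t) = rho(a t) = h rho(t) h^{-1}.
(4) charpoly of BD u = product over j of charpoly rho(sg^j u), and rho(sg^j u) is conjugate to rho(u) (Chr for the automorphism sg^j), so charpoly BD u = (charpoly rho u)^k, k > 0: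
 same roots.
-/

namespace H80HM

open Matrix

theorem Iin_mo {m : ℕ} (M : Mt m) : Mo M ↔ ∀ z ∈ spectrum ℂ M, ‖z‖ = 1 := by
  unfold Mo
  refine forall_congr' fun z => ?_
  rw [Polynomial.mem_roots (Matrix.charpoly_monic M).ne_zero,
    Matrix.mem_spectrum_iff_isRoot_charpoly]

section ring
variable {R : Type} [Ring R] {k : ℕ}

/-- the block shift -/
def Iin_S (k : ℕ) (c : R) : Matrix (Fin k) (Fin k) R :=
  Matrix.of fun j j' => if (j' : ℕ) + 1 = j then 1
    else if (j : ℕ) = 0 ∧ (j' : ℕ) + 1 = k then c else 0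

theorem Iin_S_apply (c : R) (j j' : Fin k) : Iin_S k c j j' = if (j' : ℕ) + 1 = j then 1
    else if (j : ℕ) = 0 ∧ (j' : ℕ) + 1 = k then c else 0 := rfl

theorem Iin_diag_S {a b : Fin k → R} {c : R} (h1 : ∀ j j' : Fin k, (j' : ℕ) + 1 = j → a j = b j')
    (h2 : ∀ j j' : Fin k, (j : ℕ) = 0 → (j' : ℕ) + 1 = k → a j * c = c * b j') :
    diagonal a * Iin_S k c = Iin_S k c * diagonal b := by
  ext j j'
  rw [diagonal_mul, mul_diagonal, Iin_S_apply]
  split_ifs with e1 e2
  · rw [mul_one, one_mul, h1 j j' e1]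
  · exact h2 j j' e2.1 e2.2
  · rw [mul_zero, zero_mul]

theorem Iin_S_mul (c : R) (M : Matrix (Fin k) (Fin k) R) (j l j' : Fin k)
    (hl : (l : ℕ) + 1 = j) : (Iin_S k c * M) j j' = M l j' := by
  rw [Matrix.mul_apply, Finset.sum_eq_single l]
  · rw [Iin_S_apply, if_pos hl, one_mul]
  · intro i _ hi
    rw [Iin_S_apply, if_neg, if_neg, zero_mul]
    · rintro ⟨h1, -⟩
      omega
    · intro h1
      apply hi
      ext
      omega
  · intro h
    exact absurd (Finset.mem_univ _) h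

theorem Iin_S_mul0 (c : R) (M : Matrix (Fin k) (Fin k) R) (j l j' : Fin k)
    (hj : (j : ℕ) = 0) (hl : (l : ℕ) + 1 = k) : (Iin_S k c * M) j j' = c * M l j' := by
  rw [Matrix.mul_apply, Finset.sum_eq_single l]
  · rw [Iin_S_apply, if_neg (by omega), if_pos ⟨hj, hl⟩]
  · intro i _ hi
    rw [Iin_S_apply, if_neg, if_neg, zero_mul]
    · rintro ⟨-, h1⟩
      apply hi
      ext
      omega
    · omega
  · intro h
    exact absurd (Finset.mem_univ _) h

theorem Iin_S_pow (c : R) (n : ℕ) (hn : n ≤ k) (j j' : Fin k) : (Iin_S k c ^ n) j j' =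
    if (j' : ℕ) + n = j then 1 else if (j' : ℕ) + n = j + k then c else 0 := by
  induction n generalizing j with
  | zero =>
    rw [pow_zero, Matrix.one_apply]
    by_cases h : j = j'
    · rw [if_pos h, if_pos (by rw [h]; rfl)]
    · rw [if_neg h, if_neg, if_neg]
      · omega
      · intro h1
        apply h
        ext
        omega
  | succ n ih =>
    rw [pow_succ']
    by_cases hj : (j : ℕ) = 0
    · rw [Iin_S_mul0 c _ j ⟨k - 1, by omega⟩ j' hj (by simp; omega), ih (by omega)]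
      simp only
      rw [if_neg (show ¬ (j' : ℕ) + (n + 1) = j by omega)]
      by_cases h1 : (j' : ℕ) + n = k - 1
      · rw [if_pos h1, if_pos (by omega), mul_one]
      · rw [if_neg h1, if_neg (by omega), if_neg (by omega), mul_zero]
    · rw [Iin_S_mul c _ j ⟨j - 1, by omega⟩ j' (by simp; omega), ih (by omega)]
      simp only
      by_cases h1 : (j' : ℕ) + n = (j : ℕ) - 1
      · rw [if_pos h1, if_pos (by omega)]
      · rw [if_neg h1, if_neg (show ¬ (j' : ℕ) + (n + 1) = j by omega)]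
        by_cases h2 : (j' : ℕ) + n = (j : ℕ) - 1 + k
        · rw [if_pos h2, if_pos (by omega)]
        · rw [if_neg h2, if_neg (by omega)]

theorem Iin_S_powk (c : R) : Iin_S k c ^ k = diagonal fun _ => c := by
  ext j j'
  rw [Iin_S_pow c k le_rfl, diagonal_apply, if_neg (by omega)]
  by_cases h : j = j'
  · rw [if_pos h, if_pos (by rw [h])]
  · rw [if_neg h, if_neg]
    intro h1
    apply h
    ext
    omega

theorem Iin_unit_diag {v : Fin k → R} : IsUnit (diagonal v) ↔ ∀ j, IsUnit (v j) := by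
  constructor
  · rintro ⟨N, hN⟩ j
    have h1 : (diagonal v * ((N⁻¹ : (Matrix (Fin k) (Fin k) R)ˣ) : Matrix (Fin k) (Fin k) R)) j j =
        1 := by
      rw [← hN, Units.mul_inv, Matrix.one_apply_eq]
    have h2 : (((N⁻¹ : (Matrix (Fin k) (Fin k) R)ˣ) : Matrix (Fin k) (Fin k) R) * diagonal v) j j =
        1 := by
      rw [← hN, Units.inv_mul, Matrix.one_apply_eq]
    rw [diagonal_mul] at h1
    rw [mul_diagonal] at h2
    exact ⟨⟨v j, _, h1, h2⟩, rfl⟩
  · intro h
    choose u hu using h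
    refine ⟨⟨diagonal v, diagonal fun j => ((u j)⁻¹ : Rˣ), ?_, ?_⟩, rfl⟩
    · rw [diagonal_mul_diagonal, ← diagonal_one]
      congr 1
      funext j
      rw [← hu, Units.mul_inv]
    · rw [diagonal_mul_diagonal, ← diagonal_one]
      congr 1
      funext j
      rw [← hu, Units.inv_mul]

end ring

theorem Iin_spec {R : Type} [Ring R] [Algebra ℂ R] {k : ℕ} (v : Fin k → R) (z : ℂ) :
    z ∈ spectrum ℂ (diagonal v) ↔ ∃ j, z ∈ spectrum ℂ (v j) := by
  rw [spectrum.mem_iff]
  have e : algebraMap ℂ (Matrix (Fin k) (Fin k) R) z - diagonal v =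
      diagonal fun j => algebraMap ℂ R z - v j := by
    rw [Matrix.algebraMap_eq_diagonal, diagonal_sub]
    rfl
  rw [e, Iin_unit_diag, not_forall]
  exact Iff.rfl

/-- the block matrices as matrices -/
noncomputable def Iin_Psi (d k : ℕ) : Matrix (Fin k) (Fin k) (Mt d) ≃ₐ[ℂ] Mt (d * k) :=
  (Matrix.compAlgEquiv (Fin k) (Fin d) ℂ ℂ).trans
    (Matrix.reindexAlgEquiv ℂ ℂ ((Equiv.prodComm (Fin k) (Fin d)).trans finProdFinEquiv))

theorem induced {F : Type} [Group F] {d k : ℕ} (hk : 0 < k) (rho : F →* (Mt d)ˣ)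
    (hchr : Chr rho) (sg : F ≃* F) (t : F) (hst : sg t = t)
    (hsk : ∀ u, (sg ^ k) u = t⁻¹ * u * t) :
    ∃ (BD : F →* (Mt (d * k))ˣ) (SH : (Mt (d * k))ˣ),
      (∀ u, SH⁻¹ * BD u * SH = BD (sg u)) ∧ SH ^ k = BD t ∧
      (∀ a : F ≃* F, (∀ u, a (sg u) = sg (a u)) → a t = t →
        ∃ T : (Mt (d * k))ˣ, (∀ u, T * BD u * T⁻¹ = BD (a u)) ∧ T * SH = SH * T) ∧
      ∀ u, Mo ((BD u : (Mt (d * k))ˣ) : Mt (d * k)) ↔ Mo ((rho u : (Mt d)ˣ) : Mt d) := by
  have hsgt : ∀ j : ℕ, (sg ^ j) t = t := by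
    intro j
    induction j with
    | zero => rfl
    | succ j ih => rw [pow_succ, MulAut.mul_apply, hst, ih]
  -- the block diagonal homomorphism
  let B0 : F →* Matrix (Fin k) (Fin k) (Mt d) :=
    { toFun := fun u => diagonal fun j : Fin k => ((rho ((sg ^ (j : ℕ)) u) : (Mt d)ˣ) : Mt d)
      map_one' := by
        simp only [map_one, Units.val_one]
        exact diagonal_one
      map_mul' := fun u v => by
        rw [diagonal_mul_diagonal]
        simp only [map_mul, Units.val_mul] }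
  have hB0 : ∀ u, B0 u = diagonal fun j : Fin k =>
      ((rho ((sg ^ (j : ℕ)) u) : (Mt d)ˣ) : Mt d) := fun u => rfl
  let Ψ := Iin_Psi d k
  let Φ : (Matrix (Fin k) (Fin k) (Mt d))ˣ →* (Mt (d * k))ˣ := Units.map (Ψ : _ →* _)
  let B1 : F →* (Matrix (Fin k) (Fin k) (Mt d))ˣ := B0.toHomUnits
  have hB1 : ∀ u, ((B1 u : (Matrix (Fin k) (Fin k) (Mt d))ˣ) : Matrix (Fin k) (Fin k) (Mt d)) =
      B0 u := fun u => MonoidHom.coe_toHomUnits B0 u
  -- the shift
  have hpow : Iin_S k ((rho t : (Mt d)ˣ) : Mt d) ^ k = B0 t := by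
    rw [Iin_S_powk, hB0]
    congr 1
    funext j
    rw [hsgt]
  have hSu : IsUnit (Iin_S k ((rho t : (Mt d)ˣ) : Mt d)) := by
    rw [← isUnit_pow_iff hk.ne', hpow, ← hB1]
    exact Units.isUnit _
  obtain ⟨S1, hS1⟩ := hSu
  have key1 : ∀ u, B1 u * S1 = S1 * B1 (sg u) := by
    intro u
    ext1
    rw [Units.val_mul, Units.val_mul, hB1, hB1, hS1, hB0, hB0]
    apply Iin_diag_S
    · intro j j' hj
      rw [← hj, pow_succ, MulAut.mul_apply]
    · intro j j' hj hj'
      rw [hj, pow_zero, MulAut.one_apply]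
      have h1 : (sg ^ (j' : ℕ)) (sg u) = t⁻¹ * u * t := by
        rw [← MulAut.mul_apply, ← pow_succ, hj', hsk]
      rw [h1, ← Units.val_mul, ← Units.val_mul, ← map_mul, ← map_mul]
      congr 2
      group
  have key2 : S1 ^ k = B1 t := by
    ext1
    rw [Units.val_pow_eq_pow_val, hS1, hpow, hB1]
  refine ⟨Φ.comp B1, Φ S1, ?_, ?_, ?_, ?_⟩
  · intro u
    rw [MonoidHom.comp_apply, MonoidHom.comp_apply, ← map_inv, ← map_mul, ← map_mul, mul_assoc,
      key1, inv_mul_cancel_left]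
  · rw [MonoidHom.comp_apply, ← map_pow, key2]
  · intro a ha hat
    obtain ⟨h, hh⟩ := hchr a
    let T1 : (Matrix (Fin k) (Fin k) (Mt d))ˣ :=
      Units.map (Matrix.scalar (Fin k) : Mt d →+* _).toMonoidHom h
    have hT1 : (T1 : Matrix (Fin k) (Fin k) (Mt d)) = diagonal fun _ => (h : Mt d) := rfl
    have hac : ∀ (j : ℕ) (u : F), (sg ^ j) (a u) = a ((sg ^ j) u) := by
      intro j
      induction j with
      | zero => intro u; rfl
      | succ j ih =>
        intro u
        rw [pow_succ, MulAut.mul_apply, MulAut.mul_apply, ← ha, ih]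
    have hh' : ∀ x, (h : Mt d) * ((rho x : (Mt d)ˣ) : Mt d) =
        ((rho (a x) : (Mt d)ˣ) : Mt d) * (h : Mt d) := by
      intro x
      rw [hh x, Units.val_mul, Units.val_mul, mul_assoc, mul_assoc, Units.inv_mul, mul_one]
    have k1 : ∀ u, T1 * B1 u = B1 (a u) * T1 := by
      intro u
      ext1
      rw [Units.val_mul, Units.val_mul, hB1, hB1, hT1, hB0, hB0, diagonal_mul_diagonal,
        diagonal_mul_diagonal]
      congr 1
      funext j
      rw [hac, hh']
    have k2 : T1 * S1 = S1 * T1 := by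
      ext1
      rw [Units.val_mul, Units.val_mul, hS1, hT1]
      apply Iin_diag_S
      · intro j j' _
        rfl
      · intro j j' _ _
        rw [hh', hat]
    refine ⟨Φ T1, ?_, ?_⟩
    · intro u
      rw [MonoidHom.comp_apply, MonoidHom.comp_apply, ← map_inv, ← map_mul, ← map_mul, k1,
        mul_inv_cancel_right]
    · rw [← map_mul, k2, map_mul]
  · intro u
    have e1 : (((Φ.comp B1) u : (Mt (d * k))ˣ) : Mt (d * k)) = Ψ (B0 u) := by
      rw [← hB1]
      rfl
    rw [e1, Iin_mo, Iin_mo, AlgEquiv.spectrum_eq Ψ, hB0]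
    have hsp : ∀ j : ℕ, spectrum ℂ ((rho ((sg ^ j) u) : (Mt d)ˣ) : Mt d) =
        spectrum ℂ ((rho u : (Mt d)ˣ) : Mt d) := by
      intro j
      obtain ⟨g, hg⟩ := hchr (sg ^ j)
      rw [hg u, Units.val_mul, Units.val_mul, spectrum.units_conjugate]
    constructor
    · intro H z hz
      exact H z ((Iin_spec _ z).2 ⟨⟨0, hk⟩, by rw [hsp]; exact hz⟩)
    · intro H z hz
      obtain ⟨j, hj⟩ := (Iin_spec _ z).1 hz
      rw [hsp] at hj
      exact H z hj

end H80HM
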