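import Pool.Agent.H80.HM.Sim

set_option autoImplicit false

/-!
# Row Sib: further algebra of the functional calculus

All statements follow from exists_fr and fcal_eq (row Sim) by computing in the frame H = Q Q*, G = Q E Q*, E = diag(exp lam):
1. kf_id: Q diag(exp lam) Q^{-1} Q Q* = G.   2. kf_zero: diag(exp 0) = 1.
3. kf_pos: Q diag(exp psi) Q^{-1} Q Q* = Q diag(exp psi) Q* is positive definite.
4. fcal_sa: Q diag(phi) Q^{-1} Q Q* = Q diag(phi) Q* = Q Q* (Q^{-1})* diag(phi) Q* (phi real).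
5. sum_lam: det G = |det Q|^2 prod exp(lam_i) = det H exp(sum lam), det H is not 0, so exp(sum lam) = 1.
6. n2_eq: H = QQ*: tr(Y Q Q* Y* Q^{-*} Q^{-1}) = tr(Q^{-1} Y Q (Q^{-1} Y Q)*) = sum of |entries|^2.
7. n2_fcal: from 6 (Q^{-1} fcal Q is diagonal with real entries phi(lam_i)).
8. tr_fcal_sq: tr(fcal phi * fcal phi) = sum phi(lam_i)^2.
9. fcal_add: Q diag(phi+psi) Q^{-1} = sum of the two.   10. fcal_loc: if phi = psi at all eigenvalues lam_i then the values agree.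
11. n2_cmp: if (1/R) H' <= H <= R H' in the sense Cmp then n2 H Y <= R^2 n2 H' Y. Proof: use the frame H' = Q Q*, H = Q diag(exp lam) Q*
   (exists_fr for the pair (H', H)); Cmp gives exp lam_i <= R and exp(-lam_i) <= R (test with x = (Q*)^{-1} e_i). With Z = Q^{-1} Y Q:
   n2 H Y = tr(Z E Z* E^{-1}) = sum |Z_ij|^2 exp(lam_j - lam_i) <= R^2 sum |Z_ij|^2 = R^2 n2 H' Y.
-/

namespace H80HM

open Matrix MeasureTheory Set
open scoped ComplexOrder

theorem Sib_inv {m : ℕ} {Q : Mt m} (hQ : IsUnit Q.det) :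
    Q⁻¹ * Q = 1 ∧ Q * Q⁻¹ = 1 ∧ Qᴴ * (Q⁻¹)ᴴ = 1 ∧ (Q⁻¹)ᴴ * Qᴴ = 1 := by
  have h1 : Q⁻¹ * Q = 1 := nonsing_inv_mul _ hQ
  have h2 : Q * Q⁻¹ = 1 := mul_nonsing_inv _ hQ
  refine ⟨h1, h2, ?_, ?_⟩
  · rw [← conjTranspose_mul, h1, conjTranspose_one]
  · rw [← conjTranspose_mul, h2, conjTranspose_one]

theorem Sib_H {m : ℕ} {H G Q : Mt m} {lam : Fin m → ℝ} (h : FrL H G Q lam) (phi : ℝ → ℝ) :
    fcal phi H G * H = Q * diagonal (fun i => ((phi (lam i) : ℝ) : ℂ)) * Qᴴ := by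
  obtain ⟨h1, -, -, -⟩ := Sib_inv h.1
  rw [fcal_eq h phi]
  conv_lhs => rw [h.2.1]
  rw [Matrix.mul_assoc, ← Matrix.mul_assoc Q⁻¹ Q, h1, Matrix.one_mul]

theorem kf_id {m : ℕ} {H G : Mt m} (hH : H.PosDef) (hG : G.PosDef) :
    fcal (fun t => Real.exp (id t)) H G * H = G := by
  obtain ⟨Q, lam, h⟩ := exists_fr hH hG
  rw [Sib_H h]
  exact h.2.2.symm

theorem kf_zero {m : ℕ} {H G : Mt m} (hH : H.PosDef) (hG : G.PosDef) :
    fcal (fun _ => Real.exp 0) H G * H = H := by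
  obtain ⟨Q, lam, h⟩ := exists_fr hH hG
  rw [Sib_H h]
  have : diagonal (fun _ : Fin m => ((Real.exp 0 : ℝ) : ℂ)) = (1 : Mt m) := by
    rw [Real.exp_zero, Complex.ofReal_one]
    exact diagonal_one
  rw [this, Matrix.mul_one]
  exact h.2.1.symm

theorem kf_pos {m : ℕ} {H G : Mt m} (hH : H.PosDef) (hG : G.PosDef) (psi : ℝ → ℝ) :
    (fcal (fun t => Real.exp (psi t)) H G * H).PosDef := by
  obtain ⟨Q, lam, h⟩ := exists_fr hH hG
  rw [Sib_H h]
  have : FrL H (Q * diagonal (fun i => ((Real.exp (psi (lam i)) : ℝ) : ℂ)) * Qᴴ) Q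
      (fun i => psi (lam i)) := ⟨h.1, h.2.1, rfl⟩
  exact (fr_pos this).2

theorem fcal_sa {m : ℕ} {H G : Mt m} (hH : H.PosDef) (hG : G.PosDef) (phi : ℝ → ℝ) :
    fcal phi H G * H = H * (fcal phi H G)ᴴ := by
  obtain ⟨Q, lam, h⟩ := exists_fr hH hG
  obtain ⟨-, -, h3, -⟩ := Sib_inv h.1
  rw [Sib_H h, fcal_eq h phi]
  conv_rhs => rw [h.2.1]
  have hd : (diagonal (fun i => ((phi (lam i) : ℝ) : ℂ)))ᴴ
      = diagonal (fun i => ((phi (lam i) : ℝ) : ℂ)) := by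
    rw [diagonal_conjTranspose]
    congr 1
    funext i
    simp
  rw [conjTranspose_mul, conjTranspose_mul, hd, Matrix.mul_assoc Q Qᴴ, ← Matrix.mul_assoc Qᴴ, h3,
    Matrix.one_mul, Matrix.mul_assoc]

theorem sum_lam {m : ℕ} {H G Q : Mt m} {lam : Fin m → ℝ} (h : FrL H G Q lam)
    (hd : H.det = G.det) : ∑ i, lam i = 0 := by
  have hQ : Q.det ≠ 0 := h.1.ne_zero
  have hQ2 : Qᴴ.det ≠ 0 := by
    rw [det_conjTranspose]
    exact star_ne_zero.mpr hQ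
  have h1 : H.det = Q.det * Qᴴ.det := by rw [h.2.1, det_mul]
  have h2 : G.det = Q.det * (∏ i, ((Real.exp (lam i) : ℝ) : ℂ)) * Qᴴ.det := by
    rw [h.2.2, det_mul, det_mul, det_diagonal]
  have h3 : (∏ i, ((Real.exp (lam i) : ℝ) : ℂ)) = 1 := by
    have h4 : Q.det * Qᴴ.det * (∏ i, ((Real.exp (lam i) : ℝ) : ℂ)) = Q.det * Qᴴ.det * 1 := by
      rw [mul_one]
      calc Q.det * Qᴴ.det * (∏ i, ((Real.exp (lam i) : ℝ) : ℂ))
          = Q.det * (∏ i, ((Real.exp (lam i) : ℝ) : ℂ)) * Qᴴ.det := by ring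
        _ = Q.det * Qᴴ.det := by rw [← h2, ← hd, h1]
    exact mul_left_cancel₀ (mul_ne_zero hQ hQ2) h4
  have h5 : Real.exp (∑ i, lam i) = 1 := by
    rw [Real.exp_sum]
    have : ((∏ i, Real.exp (lam i) : ℝ) : ℂ) = 1 := by
      rw [Complex.ofReal_prod]
      exact h3
    exact_mod_cast this
  exact Real.exp_eq_one_iff _ |>.1 h5

theorem Sib_tr {m : ℕ} (Z : Mt m) : (trace (Z * Zᴴ)).re = ∑ i, ∑ j, ‖Z i j‖ ^ 2 := by
  simp only [trace, diag_apply, mul_apply, conjTranspose_apply, Complex.re_sum]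
  refine Finset.sum_congr rfl fun i _ => Finset.sum_congr rfl fun j _ => ?_
  have : Z i j * star (Z i j) = ((‖Z i j‖ ^ 2 : ℝ) : ℂ) := by
    have := Complex.mul_conj (Z i j)
    rw [Complex.normSq_eq_norm_sq] at this
    exact this
  rw [this, Complex.ofReal_re]

theorem n2_eq {m : ℕ} {H Q : Mt m} (hQ : IsUnit Q.det) (hH : H = Q * Qᴴ) (Y : Mt m) :
    n2 H Y = ∑ i, ∑ j, ‖(Q⁻¹ * Y * Q) i j‖ ^ 2 := by
  rw [← Sib_tr, n2]
  have hinv : H⁻¹ = (Q⁻¹)ᴴ * Q⁻¹ := by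
    rw [hH, Matrix.mul_inv_rev, conjTranspose_nonsing_inv]
  congr 1
  rw [hinv, hH]
  have e1 : Y * (Q * Qᴴ) * Yᴴ * ((Q⁻¹)ᴴ * Q⁻¹) = (Y * (Q * Qᴴ) * Yᴴ * (Q⁻¹)ᴴ) * Q⁻¹ := by
    simp only [Matrix.mul_assoc]
  rw [e1, trace_mul_comm]
  congr 1
  simp only [conjTranspose_mul, Matrix.mul_assoc]

theorem Sib_conj {m : ℕ} {Q : Mt m} (hQ : IsUnit Q.det) (D : Mt m) :
    Q⁻¹ * (Q * D * Q⁻¹) * Q = D := by
  obtain ⟨h1, -, -, -⟩ := Sib_inv hQ
  have : Q⁻¹ * (Q * D * Q⁻¹) * Q = (Q⁻¹ * Q) * D * (Q⁻¹ * Q) := by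
    simp only [Matrix.mul_assoc]
  rw [this, h1, Matrix.one_mul, Matrix.mul_one]

theorem n2_fcal {m : ℕ} {H G Q : Mt m} {lam : Fin m → ℝ} (h : FrL H G Q lam) (phi : ℝ → ℝ) :
    n2 H (fcal phi H G) = ∑ i, phi (lam i) ^ 2 := by
  rw [n2_eq h.1 h.2.1, fcal_eq h phi, Sib_conj h.1]
  refine Finset.sum_congr rfl fun i _ => ?_
  rw [Finset.sum_eq_single i]
  · rw [diagonal_apply_eq, Complex.norm_real, Real.norm_eq_abs, sq_abs]
  · intro j _ hj
    rw [diagonal_apply_ne _ (Ne.symm hj)]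
    simp
  · intro hi
    exact absurd (Finset.mem_univ i) hi

theorem tr_fcal_sq {m : ℕ} {H G Q : Mt m} {lam : Fin m → ℝ} (h : FrL H G Q lam)
    (phi : ℝ → ℝ) :
    (trace (fcal phi H G * fcal phi H G)).re = ∑ i, phi (lam i) ^ 2 := by
  rw [fcal_eq h phi]
  obtain ⟨h1, -, -, -⟩ := Sib_inv h.1
  set D : Mt m := diagonal (fun i => ((phi (lam i) : ℝ) : ℂ)) with hD
  have e1 : Q * D * Q⁻¹ * (Q * D * Q⁻¹) = (Q * (D * ((Q⁻¹ * Q) * D))) * Q⁻¹ := by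
    simp only [Matrix.mul_assoc]
  rw [e1, trace_mul_comm, ← Matrix.mul_assoc, h1, Matrix.one_mul, Matrix.one_mul, hD,
    diagonal_mul_diagonal, trace_diagonal, Complex.re_sum]
  refine Finset.sum_congr rfl fun i _ => ?_
  rw [← Complex.ofReal_mul, Complex.ofReal_re, sq]

theorem fcal_add {m : ℕ} {H G : Mt m} (hH : H.PosDef) (hG : G.PosDef) (phi psi : ℝ → ℝ) :
    fcal (fun t => phi t + psi t) H G = fcal phi H G + fcal psi H G := by
  obtain ⟨Q, lam, h⟩ := exists_fr hH hG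
  rw [fcal_eq h, fcal_eq h, fcal_eq h, ← Matrix.add_mul, ← Matrix.mul_add, diagonal_add]
  congr 3
  funext i
  push_cast
  rfl

theorem fcal_loc {m : ℕ} {H G Q : Mt m} {lam : Fin m → ℝ} (h : FrL H G Q lam)
    (phi psi : ℝ → ℝ) (he : ∀ i, phi (lam i) = psi (lam i)) : fcal phi H G = fcal psi H G := by
  rw [fcal_eq h, fcal_eq h]
  congr 3
  funext i
  rw [he i]

theorem Sib_test {m : ℕ} {Q : Mt m} (hQ : IsUnit Q.det) (d : Fin m → ℝ) (i : Fin m) :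
    (star ((Q⁻¹)ᴴ *ᵥ Pi.single i 1) ⬝ᵥ
      ((Q * diagonal (fun i => ((d i : ℝ) : ℂ)) * Qᴴ) *ᵥ ((Q⁻¹)ᴴ *ᵥ Pi.single i 1))).re = d i := by
  obtain ⟨h1, h2, h3, h4⟩ := Sib_inv hQ
  rw [mulVec_mulVec, Matrix.mul_assoc, h3, Matrix.mul_one, star_mulVec, conjTranspose_conjTranspose,
    ← dotProduct_mulVec, mulVec_mulVec, ← Matrix.mul_assoc, h1, Matrix.one_mul]
  have : star (Pi.single i 1 : Fin m → ℂ) = Pi.single i 1 := by
    funext j
    by_cases hj : j = i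
    · subst hj; simp
    · simp [hj]
  rw [this, single_dotProduct, one_mul]
  simp

theorem n2_cmp {m : ℕ} {H H' : Mt m} (hH : H.PosDef) (hH' : H'.PosDef) (R : ℝ)
    (h1 : Cmp R H H') (h2 : Cmp R H' H) (Y : Mt m) : n2 H Y ≤ R ^ 2 * n2 H' Y := by
  obtain ⟨Q, lam, h⟩ := exists_fr hH' hH
  have hone : H' = Q * Matrix.diagonal (fun _ : Fin m => (((1 : ℝ)) : ℂ)) * Qᴴ := by
    rw [Complex.ofReal_one, diagonal_one, Matrix.mul_one]
    exact h.2.1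
  have ha : ∀ i, Real.exp (lam i) ≤ R := by
    intro i
    have := h1 ((Q⁻¹)ᴴ *ᵥ Pi.single i 1)
    rw [h.2.2, hone, Sib_test h.1, Sib_test h.1] at this
    linarith
  have hb : ∀ i, 1 ≤ R * Real.exp (lam i) := by
    intro i
    have := h2 ((Q⁻¹)ᴴ *ᵥ Pi.single i 1)
    rw [h.2.2, hone, Sib_test h.1, Sib_test h.1] at this
    linarith
  have hc : ∀ i, Real.exp (- lam i) ≤ R := by
    intro i
    have := hb i
    rw [Real.exp_neg, inv_le_iff_one_le_mul₀ (Real.exp_pos _)]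
    exact this
  -- the second frame
  set E : Mt m := diagonal (fun i => ((Real.exp (lam i / 2) : ℝ) : ℂ)) with hE
  set E' : Mt m := diagonal (fun i => ((Real.exp (- (lam i / 2)) : ℝ) : ℂ)) with hE'
  have hEE : E' * E = 1 := by
    rw [hE, hE', diagonal_mul_diagonal, ← diagonal_one]
    congr 1
    funext i
    rw [← Complex.ofReal_mul, ← Real.exp_add, neg_add_cancel, Real.exp_zero, Complex.ofReal_one]
  have hEh : Eᴴ = E := by
    rw [hE, diagonal_conjTranspose]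
    congr 1
    funext i
    exact Complex.conj_ofReal _
  have hEsq : E * E = diagonal (fun i => ((Real.exp (lam i) : ℝ) : ℂ)) := by
    rw [hE, diagonal_mul_diagonal]
    congr 1
    funext i
    rw [← Complex.ofReal_mul, ← Real.exp_add, add_halves]
  have hdE : IsUnit E.det := by
    have : (E' * E).det = 1 := by rw [hEE, det_one]
    rw [det_mul] at this
    exact IsUnit.of_mul_eq_one_right _ this
  have hQ' : IsUnit (Q * E).det := by
    rw [det_mul]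
    exact h.1.mul hdE
  have hHQ : H = (Q * E) * (Q * E)ᴴ := by
    rw [conjTranspose_mul, hEh, Matrix.mul_assoc, ← Matrix.mul_assoc E E, hEsq, ← Matrix.mul_assoc]
    exact h.2.2
  have hinv : (Q * E)⁻¹ = E' * Q⁻¹ := by
    obtain ⟨g1, g2, g3, g4⟩ := Sib_inv h.1
    apply inv_eq_left_inv
    have : E' * Q⁻¹ * (Q * E) = E' * ((Q⁻¹ * Q) * E) := by simp only [Matrix.mul_assoc]
    rw [this, g1, Matrix.one_mul, hEE]
  rw [n2_eq hQ' hHQ, n2_eq h.1 h.2.1, Finset.mul_sum]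
  refine Finset.sum_le_sum fun i _ => ?_
  rw [Finset.mul_sum]
  refine Finset.sum_le_sum fun j _ => ?_
  have hz : ((Q * E)⁻¹ * Y * (Q * E)) i j
      = ((Real.exp (- (lam i / 2)) : ℝ) : ℂ) * (Q⁻¹ * Y * Q) i j
        * ((Real.exp (lam j / 2) : ℝ) : ℂ) := by
    have : (Q * E)⁻¹ * Y * (Q * E) = E' * (Q⁻¹ * Y * Q) * E := by
      rw [hinv]
      simp only [Matrix.mul_assoc]
    rw [this, hE, mul_diagonal, hE', diagonal_mul]
  rw [hz, norm_mul, norm_mul, Complex.norm_real, Complex.norm_real, Real.norm_eq_abs,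
    Real.norm_eq_abs, Real.abs_exp, Real.abs_exp]
  have e1 : (Real.exp (-(lam i / 2)) * ‖(Q⁻¹ * Y * Q) i j‖ * Real.exp (lam j / 2)) ^ 2
      = (Real.exp (- lam i) * Real.exp (lam j)) * ‖(Q⁻¹ * Y * Q) i j‖ ^ 2 := by
    have e2 : Real.exp (- lam i) = Real.exp (-(lam i / 2)) ^ 2 := by
      rw [← Real.exp_nat_mul]
      congr 1
      push_cast
      ring
    have e3 : Real.exp (lam j) = Real.exp (lam j / 2) ^ 2 := by
      rw [← Real.exp_nat_mul]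
      congr 1
      push_cast
      ring
    rw [e2, e3]
    ring
  rw [e1]
  refine mul_le_mul_of_nonneg_right ?_ (sq_nonneg _)
  rw [sq]
  exact mul_le_mul (hc i) (ha j) (Real.exp_pos _).le ((Real.exp_pos _).le.trans (ha i))

theorem n2_nonneg {m : ℕ} {H : Mt m} (hH : H.PosDef) (Y : Mt m) : 0 ≤ n2 H Y := by
  obtain ⟨Q, lam, h⟩ := exists_fr hH hH
  rw [n2_eq h.1 h.2.1]
  exact Finset.sum_nonneg fun i _ => Finset.sum_nonneg fun j _ => sq_nonneg _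

end H80HM
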