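import Pool.Agent.H80.HM.Sgl
import Pool.Agent.H80.HM.Sib

set_option autoImplicit false

/-!
# Row Alg: pointwise calculus (product rules, Hilbert-Schmidt norm relative to H)

da_*: entries of products, sums, stars, inverses (det unit), adj are differentiable. pd_*: the corresponding rules, entrywise from fderiv rules
 (pd_star: fderiv of star o f = star o fderiv f always; pd_inv: differentiate X X^{-1} = 1, or the entrywise formula; for da_inv use that the entries of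
 the inverse are (det)^{-1} times polynomials, Matrix.inv_def, adjugate).
pd_adj: adj = H V* H^{-1}: derivative (pd H) V* H^{-1} + H (pd V)* H^{-1} - H V* H^{-1} (pd H) H^{-1}, and pd H = 2 aa H.
n2 with H = Q Q*, n2 H Y = |Q^{-1} Y Q|^2 (n2_eq of row Sib): n2_tri, n2_smul, n2_mul (submultiplicative Frobenius norm), n2_adj (Q^{-1} adj Q = (Q^{-1}YQ)*),
 n2_comm: n2(YZ - ZY) <= 4 n2 Y n2 Z.
tr_cs: |tr (Y Z)| <= sqrt(n2 H Y) sqrt(n2 H Z) (Cauchy-Schwarz after conjugation by Q).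
ln_abs: special case with Y = aa t H x: n2 H (aa t H x) = q t t H x because aa is H-selfadjoint (q_n2).
-/

namespace H80HM

open Matrix MeasureTheory Set Filter Topology
open scoped ComplexOrder

variable {m : ℕ}

theorem da_add {X Y : ℝ × ℝ → Mt m} {x : ℝ × ℝ}
    (dX : ∀ i j, DifferentiableAt ℝ (fun y => X y i j) x)
    (dY : ∀ i j, DifferentiableAt ℝ (fun y => Y y i j) x) (c c' : ℂ) (i j : Fin m) :
    DifferentiableAt ℝ (fun y => (c • X y + c' • Y y) i j) x :=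
  ((dX i j).const_mul c).fun_add ((dY i j).const_mul c')

theorem da_mul {X Y : ℝ × ℝ → Mt m} {x : ℝ × ℝ}
    (dX : ∀ i j, DifferentiableAt ℝ (fun y => X y i j) x)
    (dY : ∀ i j, DifferentiableAt ℝ (fun y => Y y i j) x) (i j : Fin m) :
    DifferentiableAt ℝ (fun y => (X y * Y y) i j) x := by
  simp only [Matrix.mul_apply]
  exact DifferentiableAt.fun_sum fun k _ => (dX i k).fun_mul (dY k j)

theorem da_star {X : ℝ × ℝ → Mt m} {x : ℝ × ℝ}
    (dX : ∀ i j, DifferentiableAt ℝ (fun y => X y i j) x) (i j : Fin m) :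
    DifferentiableAt ℝ (fun y => (X y)ᴴ i j) x :=
  (dX j i).star

private lemma Alg_prod {ι : Type} (s : Finset ι) {f : ι → ℝ × ℝ → ℂ} {x : ℝ × ℝ}
    (h : ∀ i ∈ s, DifferentiableAt ℝ (f i) x) : DifferentiableAt ℝ (fun y => ∏ i ∈ s, f i y) x := by
  classical
  induction s using Finset.induction_on with
  | empty =>
    simp only [Finset.prod_empty]
    exact differentiableAt_const _
  | insert a s ha ih =>
    simp only [Finset.prod_insert ha]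
    exact (h a (Finset.mem_insert_self a s)).fun_mul
      (ih fun i hi => h i (Finset.mem_insert_of_mem hi))

private lemma Alg_det {X : ℝ × ℝ → Mt m} {x : ℝ × ℝ}
    (dX : ∀ i j, DifferentiableAt ℝ (fun y => X y i j) x) :
    DifferentiableAt ℝ (fun y => (X y).det) x := by
  simp only [Matrix.det_apply]
  refine DifferentiableAt.fun_sum fun σ _ => ?_
  have h := Alg_prod (Finset.univ : Finset (Fin m)) (f := fun i y => X y (σ i) i) (x := x)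
    (fun i _ => dX (σ i) i)
  exact h.const_smul ((Equiv.Perm.sign σ : ℤˣ) : ℤ)

theorem da_inv {X : ℝ × ℝ → Mt m} {x : ℝ × ℝ}
    (dX : ∀ i j, DifferentiableAt ℝ (fun y => X y i j) x) (hu : IsUnit (X x).det)
    (i j : Fin m) : DifferentiableAt ℝ (fun y => (X y)⁻¹ i j) x := by
  have h1 : DifferentiableAt ℝ (fun y => ((X y).det)⁻¹) x := (Alg_det dX).fun_inv hu.ne_zero
  have h2 : DifferentiableAt ℝ (fun y => (X y).adjugate i j) x := by
    simp only [Matrix.adjugate_apply]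
    refine Alg_det fun k l => ?_
    by_cases hk : k = j
    · subst hk
      simp only [Matrix.updateRow_self]
      exact differentiableAt_const _
    · simp only [Matrix.updateRow_ne hk]
      exact dX k l
  have h3 : (fun y => (X y)⁻¹ i j) = fun y => ((X y).det)⁻¹ * (X y).adjugate i j := by
    funext y
    rw [Matrix.inv_def, Matrix.smul_apply, Ring.inverse_eq_inv', smul_eq_mul]
  rw [h3]
  exact h1.fun_mul h2

theorem pd_add {X Y : ℝ × ℝ → Mt m} {x : ℝ × ℝ}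
    (dX : ∀ i j, DifferentiableAt ℝ (fun y => X y i j) x)
    (dY : ∀ i j, DifferentiableAt ℝ (fun y => Y y i j) x) (c c' : ℂ) (t : ℝ × ℝ) :
    pd t (fun y => c • X y + c' • Y y) x = c • pd t X x + c' • pd t Y x := by
  ext i j
  have h := (((dX i j).hasFDerivAt.const_mul c).fun_add ((dY i j).hasFDerivAt.const_mul c')).fderiv
  have h2 := congrArg (fun L : (ℝ × ℝ) →L[ℝ] ℂ => L t) h
  exact h2

theorem pd_mul {X Y : ℝ × ℝ → Mt m} {x : ℝ × ℝ}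
    (dX : ∀ i j, DifferentiableAt ℝ (fun y => X y i j) x)
    (dY : ∀ i j, DifferentiableAt ℝ (fun y => Y y i j) x) (t : ℝ × ℝ) :
    pd t (fun y => X y * Y y) x = pd t X x * Y x + X x * pd t Y x := by
  ext i j
  have h := (HasFDerivAt.fun_sum (u := (Finset.univ : Finset (Fin m)))
    (A := fun k y => X y i k * Y y k j)
    fun k _ => (dX i k).hasFDerivAt.fun_mul (dY k j).hasFDerivAt).fderiv
  have h2 := congrArg (fun L : (ℝ × ℝ) →L[ℝ] ℂ => L t) h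
  change fderiv ℝ (fun y => (X y * Y y) i j) x t = _
  simp only [Matrix.mul_apply]
  rw [h2]
  simp only [ContinuousLinearMap.sum_apply, ContinuousLinearMap.add_apply,
    ContinuousLinearMap.smul_apply, smul_eq_mul, Matrix.add_apply, Matrix.mul_apply, pd,
    Matrix.of_apply]
  rw [← Finset.sum_add_distrib]
  exact Finset.sum_congr rfl fun k _ => by ring

theorem pd_star (X : ℝ × ℝ → Mt m) (x t : ℝ × ℝ) :
    pd t (fun y => (X y)ᴴ) x = (pd t X x)ᴴ := by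
  ext i j
  have h := fderiv_star (𝕜 := ℝ) (f := fun y => X y j i) (x := x)
  have h2 := congrArg (fun L : (ℝ × ℝ) →L[ℝ] ℂ => L t) h
  exact h2

theorem pd_inv {X : ℝ × ℝ → Mt m} {x : ℝ × ℝ}
    (dX : ∀ i j, DifferentiableAt ℝ (fun y => X y i j) x) (hu : IsUnit (X x).det)
    (t : ℝ × ℝ) : pd t (fun y => (X y)⁻¹) x = -((X x)⁻¹ * pd t X x * (X x)⁻¹) := by
  have h1 := pd_mul dX (da_inv dX hu) t
  have h2 : ∀ᶠ y in 𝓝 x, X y * (X y)⁻¹ = 1 := by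
    have h3 : ∀ᶠ y in 𝓝 x, (X y).det ≠ 0 := (Alg_det dX).continuousAt.eventually_ne hu.ne_zero
    exact h3.mono fun y hy => Matrix.mul_nonsing_inv _ (isUnit_iff_ne_zero.2 hy)
  have h4 : pd t (fun y => X y * (X y)⁻¹) x = 0 := by
    ext i j
    have h5 : (fun y => (X y * (X y)⁻¹) i j) =ᶠ[𝓝 x] fun _ => (1 : Mt m) i j :=
      h2.mono fun y hy => by
        change (X y * (X y)⁻¹) i j = (1 : Mt m) i j
        rw [hy]
    change fderiv ℝ (fun y => (X y * (X y)⁻¹) i j) x t = 0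
    rw [h5.fderiv_eq, fderiv_fun_const]
    rfl
  rw [h4] at h1
  have h6 : X x * pd t (fun y => (X y)⁻¹) x = -(pd t X x * (X x)⁻¹) := by
    rw [eq_neg_iff_add_eq_zero, add_comm]
    exact h1.symm
  have h7 := congrArg (fun M => (X x)⁻¹ * M) h6
  simp only [← Matrix.mul_assoc, Matrix.nonsing_inv_mul _ hu, Matrix.one_mul, Matrix.mul_neg] at h7
  exact h7

theorem pd_adj {H V : ℝ × ℝ → Mt m} {x : ℝ × ℝ}
    (dH : ∀ i j, DifferentiableAt ℝ (fun y => H y i j) x) (hp : (H x).PosDef)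
    (dV : ∀ i j, DifferentiableAt ℝ (fun y => V y i j) x) (t : ℝ × ℝ) :
    pd t (fun y => adj (H y) (V y)) x = adj (H x) (pd t V x) +
      (2 : ℂ) • (aa t H x * adj (H x) (V x) - adj (H x) (V x) * aa t H x) := by
  have hu : IsUnit (H x).det := (Matrix.isUnit_iff_isUnit_det _).1 hp.isUnit
  unfold adj
  rw [pd_mul (da_mul dH (da_star dV)) (da_inv dH hu) t, pd_mul dH (da_star dV) t, pd_star,
    pd_inv dH hu t]
  unfold aa
  have e : (H x)⁻¹ * H x = 1 := Matrix.nonsing_inv_mul _ hu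
  have e1 : (1 / 2 : ℂ) • (pd t H x * (H x)⁻¹) * (H x * (V x)ᴴ * (H x)⁻¹) =
      (1 / 2 : ℂ) • (pd t H x * (V x)ᴴ * (H x)⁻¹) := by
    rw [Matrix.smul_mul]
    congr 1
    calc pd t H x * (H x)⁻¹ * (H x * (V x)ᴴ * (H x)⁻¹)
        = pd t H x * ((H x)⁻¹ * H x) * (V x)ᴴ * (H x)⁻¹ := by simp only [Matrix.mul_assoc]
      _ = pd t H x * (V x)ᴴ * (H x)⁻¹ := by rw [e, Matrix.mul_one]
  rw [e1, Matrix.mul_smul, smul_sub, smul_smul, smul_smul]
  norm_num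
  simp only [Matrix.add_mul, Matrix.mul_assoc]
  abel

private lemma Alg_fr {H : Mt m} (hH : H.PosDef) : ∃ Q : Mt m, IsUnit Q.det ∧ H = Q * Qᴴ := by
  obtain ⟨Q, lam, h⟩ := exists_fr hH hH
  exact ⟨Q, h.1, h.2.1⟩

theorem n2_tri {H : Mt m} (hH : H.PosDef) (Y Z : Mt m) :
    n2 H (Y + Z) ≤ 2 * (n2 H Y + n2 H Z) := by
  obtain ⟨Q, hQ, h⟩ := Alg_fr hH
  rw [n2_eq hQ h, n2_eq hQ h, n2_eq hQ h]
  simp only [← Finset.sum_add_distrib, Finset.mul_sum]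
  refine Finset.sum_le_sum fun i _ => Finset.sum_le_sum fun j _ => ?_
  rw [Matrix.mul_add, Matrix.add_mul, Matrix.add_apply]
  have h1 := norm_add_le ((Q⁻¹ * Y * Q) i j) ((Q⁻¹ * Z * Q) i j)
  have h2 := norm_nonneg ((Q⁻¹ * Y * Q) i j + (Q⁻¹ * Z * Q) i j)
  nlinarith [sq_nonneg (‖(Q⁻¹ * Y * Q) i j‖ - ‖(Q⁻¹ * Z * Q) i j‖)]

theorem n2_smul (H Y : Mt m) (c : ℂ) : n2 H (c • Y) = ‖c‖ ^ 2 * n2 H Y := by
  unfold n2
  rw [Matrix.conjTranspose_smul, Matrix.smul_mul, Matrix.mul_smul, Matrix.smul_mul, Matrix.smul_mul,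
    Matrix.smul_mul, smul_smul, Matrix.trace_smul, smul_eq_mul]
  have h : star c * c = ((‖c‖ ^ 2 : ℝ) : ℂ) := by
    rw [← Complex.normSq_eq_norm_sq]
    exact Complex.normSq_eq_conj_mul_self.symm
  rw [h, Complex.re_ofReal_mul]

private lemma Alg_frob (A B : Mt m) :
    ∑ i, ∑ j, ‖(A * B) i j‖ ^ 2 ≤ (∑ i, ∑ j, ‖A i j‖ ^ 2) * (∑ i, ∑ j, ‖B i j‖ ^ 2) := by
  have h1 : ∀ i j, ‖(A * B) i j‖ ^ 2 ≤ (∑ k, ‖A i k‖ ^ 2) * (∑ k, ‖B k j‖ ^ 2) := by
    intro i j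
    have h2 : ‖(A * B) i j‖ ≤ ∑ k, ‖A i k‖ * ‖B k j‖ := by
      rw [Matrix.mul_apply]
      refine (norm_sum_le _ _).trans (Finset.sum_le_sum fun k _ => ?_)
      rw [norm_mul]
    calc ‖(A * B) i j‖ ^ 2 ≤ (∑ k, ‖A i k‖ * ‖B k j‖) ^ 2 :=
          pow_le_pow_left₀ (norm_nonneg _) h2 2
      _ ≤ _ := Finset.sum_mul_sq_le_sq_mul_sq _ _ _
  calc ∑ i, ∑ j, ‖(A * B) i j‖ ^ 2
      ≤ ∑ i, ∑ j, (∑ k, ‖A i k‖ ^ 2) * (∑ k, ‖B k j‖ ^ 2) :=
        Finset.sum_le_sum fun i _ => Finset.sum_le_sum fun j _ => h1 i j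
    _ = (∑ i, ∑ j, ‖A i j‖ ^ 2) * (∑ i, ∑ j, ‖B i j‖ ^ 2) := by
        rw [Finset.sum_comm (s := Finset.univ) (t := Finset.univ) (f := fun i j => ‖B i j‖ ^ 2),
          Finset.sum_mul]
        refine Finset.sum_congr rfl fun i _ => ?_
        rw [Finset.mul_sum]

private lemma Alg_conj {Q : Mt m} (hQ : IsUnit Q.det) (Y Z : Mt m) :
    Q⁻¹ * (Y * Z) * Q = (Q⁻¹ * Y * Q) * (Q⁻¹ * Z * Q) := by
  have e : Q * Q⁻¹ = 1 := Matrix.mul_nonsing_inv _ hQ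
  calc Q⁻¹ * (Y * Z) * Q = Q⁻¹ * Y * 1 * Z * Q := by simp only [Matrix.mul_one, Matrix.mul_assoc]
    _ = (Q⁻¹ * Y * Q) * (Q⁻¹ * Z * Q) := by rw [← e]; simp only [Matrix.mul_assoc]

theorem n2_mul {H : Mt m} (hH : H.PosDef) (Y Z : Mt m) : n2 H (Y * Z) ≤ n2 H Y * n2 H Z := by
  obtain ⟨Q, hQ, h⟩ := Alg_fr hH
  rw [n2_eq hQ h, n2_eq hQ h, n2_eq hQ h, Alg_conj hQ]
  exact Alg_frob _ _

theorem n2_adj {H : Mt m} (hH : H.PosDef) (Y : Mt m) : n2 H (adj H Y) = n2 H Y := by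
  obtain ⟨Q, hQ, h⟩ := Alg_fr hH
  rw [n2_eq hQ h, n2_eq hQ h]
  have e1 : Q⁻¹ * Q = 1 := Matrix.nonsing_inv_mul _ hQ
  have e2 : Q⁻¹ * adj H Y * Q = (Q⁻¹ * Y * Q)ᴴ := by
    unfold adj
    rw [h, Matrix.mul_inv_rev, Matrix.conjTranspose_mul, Matrix.conjTranspose_mul]
    have e3 : (Qᴴ)⁻¹ = (Q⁻¹)ᴴ := (Matrix.conjTranspose_nonsing_inv Q).symm
    rw [e3]
    calc Q⁻¹ * (Q * Qᴴ * Yᴴ * ((Q⁻¹)ᴴ * Q⁻¹)) * Q
        = (Q⁻¹ * Q) * Qᴴ * Yᴴ * (Q⁻¹)ᴴ * (Q⁻¹ * Q) := by simp only [Matrix.mul_assoc]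
      _ = Qᴴ * (Yᴴ * (Q⁻¹)ᴴ) := by
          rw [e1, Matrix.one_mul, Matrix.mul_one, Matrix.mul_assoc]
  rw [e2, Finset.sum_comm]
  refine Finset.sum_congr rfl fun i _ => Finset.sum_congr rfl fun j _ => ?_
  rw [Matrix.conjTranspose_apply, norm_star]

theorem n2_comm {H : Mt m} (hH : H.PosDef) (Y Z : Mt m) :
    n2 H (Y * Z - Z * Y) ≤ 4 * (n2 H Y * n2 H Z) := by
  have h1 := n2_tri hH (Y * Z) ((-1 : ℂ) • (Z * Y))
  rw [n2_smul, norm_neg, norm_one, one_pow, one_mul, neg_one_smul, ← sub_eq_add_neg] at h1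
  have h2 := n2_mul hH Y Z
  have h3 := n2_mul hH Z Y
  nlinarith

theorem tr_cs {H : Mt m} (hH : H.PosDef) (Y Z : Mt m) :
    ‖trace (Y * Z)‖ ≤ Real.sqrt (n2 H Y) * Real.sqrt (n2 H Z) := by
  obtain ⟨Q, hQ, h⟩ := Alg_fr hH
  rw [n2_eq hQ h, n2_eq hQ h]
  have e : Q * Q⁻¹ = 1 := Matrix.mul_nonsing_inv _ hQ
  have h1 : trace (Y * Z) = trace ((Q⁻¹ * Y * Q) * (Q⁻¹ * Z * Q)) := by
    rw [← Alg_conj hQ, Matrix.trace_mul_comm (Q⁻¹ * (Y * Z)) Q, ← Matrix.mul_assoc Q, e,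
      Matrix.one_mul]
  rw [h1]
  generalize Q⁻¹ * Y * Q = A
  generalize Q⁻¹ * Z * Q = B
  rw [Finset.sum_comm (f := fun i j => ‖B i j‖ ^ 2)]
  simp only [← Fintype.sum_prod_type']
  have h2 := Real.sum_mul_le_sqrt_mul_sqrt (Finset.univ : Finset (Fin m × Fin m))
    (fun i => ‖A i.1 i.2‖) (fun i => ‖B i.2 i.1‖)
  refine le_trans ?_ h2
  have h3 : trace (A * B) = ∑ i : Fin m × Fin m, A i.1 i.2 * B i.2 i.1 := by
    rw [Fintype.sum_prod_type]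
    simp only [Matrix.trace, Matrix.diag_apply, Matrix.mul_apply]
  rw [h3]
  refine (norm_sum_le _ _).trans (Finset.sum_le_sum fun i _ => ?_)
  rw [norm_mul]

theorem q_n2 {H : ℝ × ℝ → Mt m} {x : ℝ × ℝ} (h : ∀ᶠ y in 𝓝 x, (H y).PosDef)
    (t : ℝ × ℝ) : q t t H x = n2 (H x) (aa t H x) := by
  have hp : (H x).PosDef := h.self_of_nhds
  have hu : IsUnit (H x).det := (Matrix.isUnit_iff_isUnit_det _).1 hp.isUnit
  unfold q n2
  congr 2
  rw [Matrix.mul_assoc (aa t H x) (H x), ← aa_sa h t, Matrix.mul_assoc, Matrix.mul_assoc,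
    Matrix.mul_nonsing_inv _ hu, Matrix.mul_one]

theorem ln_abs {H : ℝ × ℝ → Mt m} {x : ℝ × ℝ} (h : ∀ᶠ y in 𝓝 x, (H y).PosDef)
    (X : ℝ × ℝ → Mt m) (t t' : ℝ × ℝ) :
    |ln t t' H X x| ≤ Real.sqrt (q t t H x) * Real.sqrt (dn t' H X x) := by
  rw [q_n2 h]
  unfold ln dn
  exact (Complex.abs_re_le_norm _).trans (tr_cs h.self_of_nhds _ _)

end H80HM
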