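import Pool.Agent.H80.HM.Defs

set_option autoImplicit false

/-!
# Definitions, second part
-/

namespace H80HM

open Matrix MeasureTheory Set
open scoped ComplexOrder

noncomputable section

/-- subharmonicity in the sense of four point comparison at hyperbolic distance s -/
def VS (F : ℝ → ℝ → ℝ) : Prop :=
  ∀ x y : ℝ, 0 < y → ∀ ep : ℝ, 0 < ep → ∃ s0 : ℝ, 0 < s0 ∧ ∀ s : ℝ, 0 < s → s < s0 →
    4 * F x y - ep * s ^ 2 ≤
      F x (y * Real.exp s) + F x (y * Real.exp (-s)) +
      F (x - y * Real.tanh s) (y / Real.cosh s) + F (x + y * Real.tanh s) (y / Real.cosh s)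

/-- the four directions -/
def pk : Fin 4 → ℝ := ![1, 0, -1, 0]
def rk : Fin 4 → ℝ := ![0, 1, 0, -1]

variable {m : ℕ}

/-- block diagonal part with respect to the weights w -/
def bdg (w : Fin m → ℕ) (M : Mt m) : Mt m := Matrix.of fun i j => if w i = w j then M i j else 0

/-- block upper triangular with unitary block diagonal part -/
def BU (w : Fin m → ℕ) (M : Mt m) : Prop :=
  (∀ i j, w j < w i → M i j = 0) ∧ bdg w M * (bdg w M)ᴴ = 1

/-- block unitriangular -/
def Uni (w : Fin m → ℕ) (M : Mt m) : Prop := (∀ i j, w j < w i → M i j = 0) ∧ bdg w M = 1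

/-- the pair X, Y is contractible: simultaneously block upper triangular with unitary blocks -/
def Ctr (X Y : Mt m) : Prop :=
  ∃ (Q : Mt m) (w : Fin m → ℕ), IsUnit Q.det ∧ BU w (Q⁻¹ * X * Q) ∧ BU w (Q⁻¹ * Y * Q)

/-- the diagonal matrix with entries exp(-S w_i) -/
def lamS (w : Fin m → ℕ) (S : ℝ) : Mt m := diagonal fun i => ((Real.exp (-S * w i) : ℝ) : ℂ)

end

end H80HM
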