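import Pool.Agent.H80.HM.Mea
import Pool.Agent.H80.HM.Def2
import Pool.Agent.H80.HM.Alg

set_option autoImplicit false

/-!
# Row Frm: change of frame

f1 = (sqrt y0, 0), f2 = (-x0/sqrt y0, 1/sqrt y0), y0 > 0. f1.1 f2.2 - f1.2 f2.1 = 1 (f_det).
frame_qc: q is bilinear (q_lin, q_comm): q f1 f1 = y0 q11, q f1 f2 = q12 - x0 q11, q f2 f2 = (q22 - 2x0 q12 + x0^2 q11)/y0, with q11 = q (1,0)(1,0) etc.
 ct x y in this frame: ((x^2+y^2)/y) y0 q11 - (2x/y)(q12 - x0 q11) + (1/(y y0))(q22 - 2x0q12 + x0^2q11)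
  = [ ((x0+y0x)^2 + (y0y)^2) q11 - 2(x0+y0x) q12 + q22 ]/(y0 y) = density of ct (x0+y0 x) (y0 y) in the standard frame. Pointwise identity.
frame_en: integrate.
ck_ct: ck s 1 0 = ct 0 (e^s); ck s (-1) 0 = ct 0 (e^{-s}); ck s 0 1 = ct (-tanh s) (1/cosh s); ck s 0 (-1) = ct (tanh s) (1/cosh s); (1,0,1) = ct 0 1.
std_q, std_dn: (1,0) = f1/sqrt y0, (0,1) = sqrt y0 f2 + (x0/sqrt y0) f1, and q t t (a u + b v) <= 2a^2 q u u + 2 b^2 q v v (q_lin, q_abs), for dn: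
 n2 (aY+bZ) <= 2|a|^2 n2 Y + 2|b|^2 n2 Z (n2 is the square of a norm; pd_lin); one constant C depending on x0, y0. And conversely (std_q', std_dn').
-/

namespace H80HM

open Matrix MeasureTheory Set Filter Topology
open scoped ComplexOrder

variable {m : ℕ}

theorem f_det (x0 : ℝ) {y0 : ℝ} (hy : 0 < y0) :
    (f1 x0 y0).1 * (f2 x0 y0).2 - (f1 x0 y0).2 * (f2 x0 y0).1 = 1 := by
  have h1 : Real.sqrt y0 ≠ 0 := (Real.sqrt_pos.mpr hy).ne'
  change Real.sqrt y0 * (1 / Real.sqrt y0) - 0 * (-x0 / Real.sqrt y0) = 1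
  rw [zero_mul, sub_zero, mul_one_div_cancel h1]

theorem Frm_vec (a b : ℝ) : ((a, b) : ℝ × ℝ) = a • ((1, 0) : ℝ × ℝ) + b • ((0, 1) : ℝ × ℝ) := by
  ext <;> simp

theorem Frm_q (H : ℝ × ℝ → Mt m) (z : ℝ × ℝ) (a b c d : ℝ) :
    q (a, b) (c, d) H z = a * c * q (1, 0) (1, 0) H z +
      (a * d + b * c) * q (1, 0) (0, 1) H z + b * d * q (0, 1) (0, 1) H z := by
  have h1 : ∀ s, q (a, b) s H z = a * q (1, 0) s H z + b * q (0, 1) s H z := by
    intro s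
    rw [Frm_vec a b]
    exact q_lin H z _ _ _ _ _
  have h2 : ∀ s, q (c, d) s H z = c * q (1, 0) s H z + d * q (0, 1) s H z := by
    intro s
    rw [Frm_vec c d]
    exact q_lin H z _ _ _ _ _
  rw [h1, q_comm H z (1, 0) (c, d), q_comm H z (0, 1) (c, d), h2, h2,
    q_comm H z (0, 1) (1, 0)]
  ring

theorem frame_qc (H : ℝ × ℝ → Mt m) (z : ℝ × ℝ) (x0 : ℝ) {y0 : ℝ} (hy0 : 0 < y0) (x : ℝ)
    {y : ℝ} (hy : 0 < y) : qc (f1 x0 y0) (f2 x0 y0) (ct x y) H z =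
      qc (1, 0) (0, 1) (ct (x0 + y0 * x) (y0 * y)) H z := by
  obtain ⟨r, hr⟩ : ∃ r, r = Real.sqrt y0 := ⟨_, rfl⟩
  have hr0 : 0 < r := by
    rw [hr]
    exact Real.sqrt_pos.mpr hy0
  have hy0r : y0 = r ^ 2 := by
    rw [hr, Real.sq_sqrt hy0.le]
  have e1 : f1 x0 y0 = (r, 0) := by
    rw [f1, ← hr]
  have e2 : f2 x0 y0 = (-x0 / r, 1 / r) := by
    rw [f2, ← hr]
  unfold qc
  rw [e1, e2, Frm_q H z r 0 r 0, Frm_q H z r 0 (-x0 / r) (1 / r),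
    Frm_q H z (-x0 / r) (1 / r) (-x0 / r) (1 / r)]
  simp only [ct]
  rw [hy0r]
  have hrn := hr0.ne'
  have hyn := hy.ne'
  field_simp
  ring

theorem frame_en (H : ℝ × ℝ → Mt m) (x0 : ℝ) {y0 : ℝ} (hy0 : 0 < y0) (x : ℝ) {y : ℝ}
    (hy : 0 < y) : En (f1 x0 y0) (f2 x0 y0) (ct x y) H = Et (x0 + y0 * x) (y0 * y) H := by
  unfold Et En
  have h1 : qc (f1 x0 y0) (f2 x0 y0) (ct x y) H =
      qc (1, 0) (0, 1) (ct (x0 + y0 * x) (y0 * y)) H := by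
    funext z
    exact frame_qc H z x0 hy0 x hy
  rw [h1]

theorem ck_ct (s : ℝ) : ck s 1 0 = ct 0 (Real.exp s) ∧ ck s (-1) 0 = ct 0 (Real.exp (-s)) ∧
    ck s 0 1 = ct (-Real.tanh s) (1 / Real.cosh s) ∧
    ck s 0 (-1) = ct (Real.tanh s) (1 / Real.cosh s) ∧ ((1, 0, 1) : ℝ × ℝ × ℝ) = ct 0 1 := by
  have hc : Real.cosh s ≠ 0 := (Real.cosh_pos s).ne'
  have he : Real.exp s ≠ 0 := (Real.exp_pos s).ne'
  have he' : Real.exp (-s) ≠ 0 := (Real.exp_pos (-s)).ne'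
  have hm : Real.exp s * Real.exp (-s) = 1 := by
    rw [← Real.exp_add, add_neg_cancel, Real.exp_zero]
  have h1 : Real.cosh s + Real.sinh s = Real.exp s := Real.cosh_add_sinh s
  have h2 : Real.cosh s - Real.sinh s = Real.exp (-s) := Real.cosh_sub_sinh s
  have h3 : Real.cosh s ^ 2 = Real.sinh s ^ 2 + 1 := Real.cosh_sq s
  have h4 : Real.tanh s = Real.sinh s / Real.cosh s := Real.tanh_eq_sinh_div_cosh s
  have h5 : (Real.sinh s / Real.cosh s) ^ 2 + (1 / Real.cosh s) ^ 2 = 1 := by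
    rw [div_pow, div_pow, one_pow, ← add_div, ← h3, div_self (pow_ne_zero 2 hc)]
  refine ⟨?_, ?_, ?_, ?_, ?_⟩
  · unfold ck ct
    refine Prod.ext ?_ (Prod.ext ?_ ?_)
    · change Real.cosh s + Real.sinh s * 1 = (0 ^ 2 + Real.exp s ^ 2) / Real.exp s
      rw [mul_one, h1]
      field_simp
      ring
    · change Real.sinh s * 0 = -0 / Real.exp s
      rw [mul_zero, neg_zero, zero_div]
    · change Real.cosh s - Real.sinh s * 1 = 1 / Real.exp s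
      rw [mul_one, h2, eq_div_iff he, mul_comm, hm]
  · unfold ck ct
    refine Prod.ext ?_ (Prod.ext ?_ ?_)
    · change Real.cosh s + Real.sinh s * (-1) = (0 ^ 2 + Real.exp (-s) ^ 2) / Real.exp (-s)
      rw [mul_neg_one, ← sub_eq_add_neg, h2]
      field_simp
      ring
    · change Real.sinh s * 0 = -0 / Real.exp (-s)
      rw [mul_zero, neg_zero, zero_div]
    · change Real.cosh s - Real.sinh s * (-1) = 1 / Real.exp (-s)
      rw [mul_neg_one, sub_neg_eq_add, h1, eq_div_iff he', hm]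
  · unfold ck ct
    rw [h4]
    refine Prod.ext ?_ (Prod.ext ?_ ?_)
    · change Real.cosh s + Real.sinh s * 0 =
        ((-(Real.sinh s / Real.cosh s)) ^ 2 + (1 / Real.cosh s) ^ 2) / (1 / Real.cosh s)
      rw [neg_sq, h5, mul_zero, add_zero, one_div_one_div]
    · change Real.sinh s * 1 = - -(Real.sinh s / Real.cosh s) / (1 / Real.cosh s)
      field_simp
    · change Real.cosh s - Real.sinh s * 0 = 1 / (1 / Real.cosh s)
      rw [mul_zero, sub_zero, one_div_one_div]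
  · unfold ck ct
    rw [h4]
    refine Prod.ext ?_ (Prod.ext ?_ ?_)
    · change Real.cosh s + Real.sinh s * 0 =
        ((Real.sinh s / Real.cosh s) ^ 2 + (1 / Real.cosh s) ^ 2) / (1 / Real.cosh s)
      rw [h5, mul_zero, add_zero, one_div_one_div]
    · change Real.sinh s * (-1) = -(Real.sinh s / Real.cosh s) / (1 / Real.cosh s)
      field_simp
    · change Real.cosh s - Real.sinh s * 0 = 1 / (1 / Real.cosh s)
      rw [mul_zero, sub_zero, one_div_one_div]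
  · unfold ct
    refine Prod.ext ?_ (Prod.ext ?_ ?_)
    · change (1 : ℝ) = (0 ^ 2 + 1 ^ 2) / 1
      norm_num
    · change (0 : ℝ) = -0 / 1
      norm_num
    · change (1 : ℝ) = 1 / 1
      norm_num

theorem Frm_qle {m : ℕ} {H : ℝ × ℝ → Mt m} {z : ℝ × ℝ} (h : ∀ᶠ y in 𝓝 z, (H y).PosDef)
    (a b : ℝ) (u v : ℝ × ℝ) : q (a • u + b • v) (a • u + b • v) H z ≤
      2 * a ^ 2 * q u u H z + 2 * b ^ 2 * q v v H z := by
  have e : ∀ a b : ℝ, q (a • u + b • v) (a • u + b • v) H z =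
      a ^ 2 * q u u H z + 2 * (a * b) * q u v H z + b ^ 2 * q v v H z := by
    intro a b
    rw [q_lin, q_comm H z u, q_comm H z v, q_lin, q_lin, q_comm H z v u]
    ring
  have h1 := q_nonneg h (a • u + (-b) • v)
  rw [e] at h1
  rw [e]
  nlinarith

theorem std_q (x0 : ℝ) {y0 : ℝ} (hy : 0 < y0) : ∃ K : ℝ, 0 < K ∧
    ∀ (m : ℕ) (H : ℝ × ℝ → Mt m) (z : ℝ × ℝ), (∀ᶠ y in 𝓝 z, (H y).PosDef) →
      q (1, 0) (1, 0) H z + q (0, 1) (0, 1) H z ≤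
        K * qc (f1 x0 y0) (f2 x0 y0) (1, 0, 1) H z := by
  obtain ⟨r, hr⟩ : ∃ r, r = Real.sqrt y0 := ⟨_, rfl⟩
  have hr0 : 0 < r := by
    rw [hr]
    exact Real.sqrt_pos.mpr hy
  have hrn := hr0.ne'
  have e1 : f1 x0 y0 = (r, 0) := by
    rw [f1, ← hr]
  have e2 : f2 x0 y0 = (-x0 / r, 1 / r) := by
    rw [f2, ← hr]
  have hK1 : 0 ≤ 2 * (1 / r) ^ 2 := by positivity
  have hK2 : 0 ≤ 2 * (x0 / r) ^ 2 := by positivity
  have hK3 : 0 ≤ 2 * r ^ 2 := by positivity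
  refine ⟨1 + 2 * (1 / r) ^ 2 + 2 * (x0 / r) ^ 2 + 2 * r ^ 2, by positivity, ?_⟩
  intro m H z h
  have v1 : ((1, 0) : ℝ × ℝ) = (1 / r) • f1 x0 y0 + (0 : ℝ) • f2 x0 y0 := by
    rw [e1, e2]
    ext
    · change (1 : ℝ) = 1 / r * r + 0 * (-x0 / r)
      field_simp
      ring
    · change (0 : ℝ) = 1 / r * 0 + 0 * (1 / r)
      ring
  have v2 : ((0, 1) : ℝ × ℝ) = (x0 / r) • f1 x0 y0 + r • f2 x0 y0 := by
    rw [e1, e2]
    ext
    · change (0 : ℝ) = x0 / r * r + r * (-x0 / r)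
      field_simp
      ring
    · change (1 : ℝ) = x0 / r * 0 + r * (1 / r)
      field_simp
      ring
  have q1 := Frm_qle h (1 / r) 0 (f1 x0 y0) (f2 x0 y0)
  have q2 := Frm_qle h (x0 / r) r (f1 x0 y0) (f2 x0 y0)
  rw [← v1] at q1
  rw [← v2] at q2
  have n1 := q_nonneg h (f1 x0 y0)
  have n2 := q_nonneg h (f2 x0 y0)
  have e3 : qc (f1 x0 y0) (f2 x0 y0) (1, 0, 1) H z =
      q (f1 x0 y0) (f1 x0 y0) H z + q (f2 x0 y0) (f2 x0 y0) H z := by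
    unfold qc
    ring
  rw [e3]
  have m1 := mul_nonneg hK1 n1
  have m2 := mul_nonneg hK1 n2
  have m3 := mul_nonneg hK2 n1
  have m4 := mul_nonneg hK2 n2
  have m5 := mul_nonneg hK3 n1
  have m6 := mul_nonneg hK3 n2
  nlinarith

theorem Frm_dnle {m : ℕ} {H X : ℝ × ℝ → Mt m} {z : ℝ × ℝ} (h : (H z).PosDef)
    (a b : ℝ) (u v : ℝ × ℝ) : dn (a • u + b • v) H X z ≤
      2 * a ^ 2 * dn u H X z + 2 * b ^ 2 * dn v H X z := by
  unfold dn
  rw [pd_lin]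
  refine (n2_tri h _ _).trans ?_
  rw [n2_smul, n2_smul, Complex.norm_real, Complex.norm_real, Real.norm_eq_abs, Real.norm_eq_abs,
    sq_abs, sq_abs]
  linarith

theorem std_dn (x0 : ℝ) {y0 : ℝ} (hy : 0 < y0) : ∃ K : ℝ, 0 < K ∧
    ∀ (m : ℕ) (H X : ℝ × ℝ → Mt m) (z : ℝ × ℝ), (H z).PosDef →
      dn (1, 0) H X z + dn (0, 1) H X z ≤
        K * (dn (f1 x0 y0) H X z + dn (f2 x0 y0) H X z) := by
  obtain ⟨r, hr⟩ : ∃ r, r = Real.sqrt y0 := ⟨_, rfl⟩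
  have hr0 : 0 < r := by
    rw [hr]
    exact Real.sqrt_pos.mpr hy
  have hrn := hr0.ne'
  have e1 : f1 x0 y0 = (r, 0) := by
    rw [f1, ← hr]
  have e2 : f2 x0 y0 = (-x0 / r, 1 / r) := by
    rw [f2, ← hr]
  have hK1 : 0 ≤ 2 * (1 / r) ^ 2 := by positivity
  have hK2 : 0 ≤ 2 * (x0 / r) ^ 2 := by positivity
  have hK3 : 0 ≤ 2 * r ^ 2 := by positivity
  refine ⟨1 + 2 * (1 / r) ^ 2 + 2 * (x0 / r) ^ 2 + 2 * r ^ 2, by positivity, ?_⟩
  intro m H X z h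
  have v1 : ((1, 0) : ℝ × ℝ) = (1 / r) • f1 x0 y0 + (0 : ℝ) • f2 x0 y0 := by
    rw [e1, e2]
    ext
    · change (1 : ℝ) = 1 / r * r + 0 * (-x0 / r)
      field_simp
      ring
    · change (0 : ℝ) = 1 / r * 0 + 0 * (1 / r)
      ring
  have v2 : ((0, 1) : ℝ × ℝ) = (x0 / r) • f1 x0 y0 + r • f2 x0 y0 := by
    rw [e1, e2]
    ext
    · change (0 : ℝ) = x0 / r * r + r * (-x0 / r)
      field_simp
      ring
    · change (1 : ℝ) = x0 / r * 0 + r * (1 / r)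
      field_simp
      ring
  have q1 := Frm_dnle (X := X) h (1 / r) 0 (f1 x0 y0) (f2 x0 y0)
  have q2 := Frm_dnle (X := X) h (x0 / r) r (f1 x0 y0) (f2 x0 y0)
  rw [← v1] at q1
  rw [← v2] at q2
  have n1 : 0 ≤ dn (f1 x0 y0) H X z := n2_nonneg h _
  have n2 : 0 ≤ dn (f2 x0 y0) H X z := n2_nonneg h _
  have m1 := mul_nonneg hK1 n1
  have m2 := mul_nonneg hK1 n2
  have m3 := mul_nonneg hK2 n1
  have m4 := mul_nonneg hK2 n2
  have m5 := mul_nonneg hK3 n1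
  have m6 := mul_nonneg hK3 n2
  nlinarith

end H80HM
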