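import Pool.Agent.H80.HM.Nrm
import Pool.Agent.H80.HM.Frm

set_option autoImplicit false

/-!
# Row Nme: existence of near-minimisers of determinant 1; continuity of the infimum

ct x y (y > 0) is positive semidefinite: (x^2+y^2)/y >= 0, 1/y >= 0, (x/y)^2 <= (x^2+y^2)/y^2 (ct_psd). So Et x y H >= 0 (en_nonneg), the infimum EE is over a
set bounded below by 0, nonempty by hypothesis: ee_le, ee_nonneg, ee_near.
nm_ee: take H with Et <= EE + ep (exists_lt_of_csInf_lt), normalise (nrm); En in the frame f1, f2 with ct x y equals Et (x0+y0x)(y0y) (frame_en).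
ee_cont: for a point z0 = (x0,y0) and k > 1 the forms k ct(z0) - ct(z) and k ct(z) - ct(z0) are positive semidefinite for z near z0 (at z = z0 they are
 (k-1)ct(z0) with positive determinant (k-1)^2 and positive trace; continuity of ct). By en_mono EE(z) <= k EE(z0) and EE(z0) <= k EE(z) (for every H in the
 class, then infimum; En is linear in c, en_lin). So |EE(z) - EE(z0)| <= (k-1) k EE(z0): continuity.
-/

namespace H80HM

open Matrix MeasureTheory Set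
open scoped ComplexOrder

variable {m : ℕ} {A B C : Mt m}

theorem ct_psd (x : ℝ) {y : ℝ} (hy : 0 < y) : Psd (ct x y) := by
  refine ⟨?_, ?_, ?_⟩
  · show 0 ≤ (x ^ 2 + y ^ 2) / y
    positivity
  · show 0 ≤ 1 / y
    positivity
  · show (-x / y) ^ 2 ≤ (x ^ 2 + y ^ 2) / y * (1 / y)
    have h1 : (x ^ 2 + y ^ 2) / y * (1 / y) = (-x / y) ^ 2 + 1 := by
      field_simp
    rw [h1]
    linarith

private lemma Nme_bdd (A B C : Mt m) (x : ℝ) {y : ℝ} (hy : 0 < y) :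
    ∀ r ∈ {r | ∃ H, Cl A B C H ∧ r = Et x y H}, (0 : ℝ) ≤ r := by
  rintro r ⟨H, hH, rfl⟩
  exact en_nonneg hH _ _ (ct_psd x hy)

theorem ee_le {H : ℝ × ℝ → Mt m} (hH : Cl A B C H) (x : ℝ) {y : ℝ} (hy : 0 < y) :
    EE A B C x y ≤ Et x y H := by
  exact csInf_le ⟨0, fun r hr => Nme_bdd A B C x hy r hr⟩ ⟨H, hH, rfl⟩

theorem ee_nonneg (A B C : Mt m) (x : ℝ) {y : ℝ} (hy : 0 < y) : 0 ≤ EE A B C x y := by
  exact Real.sInf_nonneg (Nme_bdd A B C x hy)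

theorem ee_near (hne : ∃ H, Cl A B C H) (x : ℝ) {y : ℝ} (hy : 0 < y) {ep : ℝ}
    (hep : 0 < ep) : ∃ H, Cl A B C H ∧ Et x y H ≤ EE A B C x y + ep := by
  obtain ⟨H0, hH0⟩ := hne
  have hn : {r | ∃ H, Cl A B C H ∧ r = Et x y H}.Nonempty := ⟨_, H0, hH0, rfl⟩
  have h1 : sInf {r | ∃ H, Cl A B C H ∧ r = Et x y H} < EE A B C x y + ep := by
    show EE A B C x y < EE A B C x y + ep
    linarith
  obtain ⟨r, ⟨H, hH, rfl⟩, h2⟩ := exists_lt_of_csInf_lt hn h1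
  exact ⟨H, hH, h2.le⟩

theorem nm_ee (hm : 0 < m) (hA : ‖A.det‖ = 1) (hB : ‖B.det‖ = 1) (hC : ‖C.det‖ = 1)
    (hne : ∃ H, Cl A B C H) (x0 : ℝ) {y0 : ℝ} (hy0 : 0 < y0) (x : ℝ) {y : ℝ} (hy : 0 < y)
    {ep : ℝ} (hep : 0 < ep) :
    ∃ H, NM (f1 x0 y0) (f2 x0 y0) (ct x y) A B C ep H ∧ (∀ z ∈ D \ P, (H z).det = 1) ∧
      En (f1 x0 y0) (f2 x0 y0) (ct x y) H ≤ EE A B C (x0 + y0 * x) (y0 * y) + ep := by
  have hyy : 0 < y0 * y := mul_pos hy0 hy
  obtain ⟨H, hH, hE⟩ := ee_near hne (x0 + y0 * x) hyy hep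
  obtain ⟨H', hH', hd, hle⟩ := nrm hm hA hB hC hH
  have h1 : En (f1 x0 y0) (f2 x0 y0) (ct x y) H' ≤ EE A B C (x0 + y0 * x) (y0 * y) + ep := by
    rw [frame_en H' x0 hy0 x hy]
    exact (hle (1, 0) (0, 1) (ct (x0 + y0 * x) (y0 * y)) (ct_psd _ hyy)).trans hE
  refine ⟨H', ⟨hH', fun G hG => ?_⟩, hd, h1⟩
  have h2 := ee_le hG (x0 + y0 * x) hyy
  rw [frame_en G x0 hy0 x hy]
  linarith

private lemma Nme_scale {k : ℝ} (hk : 0 < k) (hne : ∃ H, Cl A B C H) {x y x' y' : ℝ}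
    (hy : 0 < y) (hy' : 0 < y')
    (hp : Psd (k * (ct x y).1 - (ct x' y').1, k * (ct x y).2.1 - (ct x' y').2.1,
      k * (ct x y).2.2 - (ct x' y').2.2)) : EE A B C x' y' ≤ k * EE A B C x y := by
  refine le_of_forall_pos_le_add fun ep hep => ?_
  obtain ⟨H, hH, hE⟩ := ee_near hne x hy (div_pos hep hk)
  have h1 : Et x' y' H ≤ k * Et x y H := by
    have h2 := en_mono (c := ct x' y') (c' := (k * (ct x y).1, k * (ct x y).2.1, k * (ct x y).2.2))
      hH (1, 0) (0, 1) hp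
    have h3 : En (1, 0) (0, 1) (k * (ct x y).1, k * (ct x y).2.1, k * (ct x y).2.2) H =
        k * Et x y H := by
      unfold Et
      rw [en_lin hH (1, 0) (0, 1) (ct x y), en_lin hH (1, 0) (0, 1)
        (k * (ct x y).1, k * (ct x y).2.1, k * (ct x y).2.2)]
      ring
    rw [h3] at h2
    exact h2
  have h4 := ee_le hH x' hy'
  have h5 : k * Et x y H ≤ k * EE A B C x y + ep := by
    have h6 := mul_le_mul_of_nonneg_left hE hk.le
    have h7 : k * (EE A B C x y + ep / k) = k * EE A B C x y + ep := by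
      field_simp
    rw [h7] at h6
    exact h6
  linarith

private lemma Nme_psd_of_lt {c : ℝ × ℝ × ℝ} (h : 0 < c.1 ∧ 0 < c.2.2 ∧ c.2.1 ^ 2 < c.1 * c.2.2) :
    Psd c := ⟨h.1.le, h.2.1.le, h.2.2.le⟩

private lemma Nme_ev {a b c : ℝ × ℝ → ℝ} {z0 : ℝ × ℝ} (ha : ContinuousAt a z0)
    (hb : ContinuousAt b z0) (hc : ContinuousAt c z0) (h1 : 0 < a z0) (h2 : 0 < c z0)
    (h3 : b z0 ^ 2 < a z0 * c z0) : ∀ᶠ z in nhds z0, Psd (a z, b z, c z) := by
  have e1 : ∀ᶠ z in nhds z0, 0 < a z := ha.eventually (lt_mem_nhds h1)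
  have e2 : ∀ᶠ z in nhds z0, 0 < c z := hc.eventually (lt_mem_nhds h2)
  have h4 : 0 < a z0 * c z0 - b z0 ^ 2 := by linarith
  have hd : ContinuousAt (fun z => a z * c z - b z ^ 2) z0 := (ha.mul hc).sub (hb.pow 2)
  have e3 : ∀ᶠ z in nhds z0, 0 < a z * c z - b z ^ 2 := hd.eventually (lt_mem_nhds h4)
  filter_upwards [e1, e2, e3] with z g1 g2 g3
  exact Nme_psd_of_lt ⟨g1, g2, by show b z ^ 2 < a z * c z; linarith⟩

theorem ee_cont (hne : ∃ H, Cl A B C H) :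
    ContinuousOn (fun z : ℝ × ℝ => EE A B C z.1 z.2) {z : ℝ × ℝ | 0 < z.2} := by
  intro z0 hz0
  have hy0 : 0 < z0.2 := hz0
  apply ContinuousAt.continuousWithinAt
  -- continuity of the entries of ct
  have c1 : ContinuousAt (fun z : ℝ × ℝ => (ct z.1 z.2).1) z0 := by
    have : (fun z : ℝ × ℝ => (ct z.1 z.2).1) = fun z => (z.1 ^ 2 + z.2 ^ 2) / z.2 := rfl
    rw [this]
    exact ((continuous_fst.pow 2).add (continuous_snd.pow 2)).continuousAt.div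
      continuous_snd.continuousAt hy0.ne'
  have c2 : ContinuousAt (fun z : ℝ × ℝ => (ct z.1 z.2).2.1) z0 := by
    have : (fun z : ℝ × ℝ => (ct z.1 z.2).2.1) = fun z => -z.1 / z.2 := rfl
    rw [this]
    exact continuous_fst.neg.continuousAt.div continuous_snd.continuousAt hy0.ne'
  have c3 : ContinuousAt (fun z : ℝ × ℝ => (ct z.1 z.2).2.2) z0 := by
    have : (fun z : ℝ × ℝ => (ct z.1 z.2).2.2) = fun z => 1 / z.2 := rfl
    rw [this]
    exact continuousAt_const.div continuous_snd.continuousAt hy0.ne'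
  -- values at the point
  have v1 : 0 < (ct z0.1 z0.2).1 := by
    show 0 < (z0.1 ^ 2 + z0.2 ^ 2) / z0.2
    positivity
  have v3 : 0 < (ct z0.1 z0.2).2.2 := by
    show 0 < 1 / z0.2
    positivity
  have v2 : (ct z0.1 z0.2).2.1 ^ 2 < (ct z0.1 z0.2).1 * (ct z0.1 z0.2).2.2 := by
    show (-z0.1 / z0.2) ^ 2 < (z0.1 ^ 2 + z0.2 ^ 2) / z0.2 * (1 / z0.2)
    have h1 : (z0.1 ^ 2 + z0.2 ^ 2) / z0.2 * (1 / z0.2) = (-z0.1 / z0.2) ^ 2 + 1 := by
      field_simp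
    rw [h1]
    linarith
  rw [Metric.continuousAt_iff']
  intro ep hep
  set E0 := EE A B C z0.1 z0.2 with hE0
  have hE0n : 0 ≤ E0 := ee_nonneg A B C z0.1 hy0
  set dl := min 1 (ep / (4 * (E0 + 1))) with hdl
  have hdl0 : 0 < dl := lt_min one_pos (by positivity)
  have hdl1 : dl ≤ 1 := min_le_left _ _
  have hdl2 : dl ≤ ep / (4 * (E0 + 1)) := min_le_right _ _
  have hdl3 : dl * (4 * (E0 + 1)) ≤ ep := by
    rwa [le_div_iff₀ (by positivity)] at hdl2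
  have hk : 0 < 1 + dl := by linarith
  have q2 : (dl * (ct z0.1 z0.2).2.1) ^ 2 <
      (dl * (ct z0.1 z0.2).1) * (dl * (ct z0.1 z0.2).2.2) := by
    have := mul_lt_mul_of_pos_left v2 (pow_pos hdl0 2)
    nlinarith [this]
  have ev1 : ∀ᶠ z in nhds z0, Psd ((1 + dl) * (ct z0.1 z0.2).1 - (ct z.1 z.2).1,
      (1 + dl) * (ct z0.1 z0.2).2.1 - (ct z.1 z.2).2.1,
      (1 + dl) * (ct z0.1 z0.2).2.2 - (ct z.1 z.2).2.2) := by
    refine Nme_ev (a := fun z => (1 + dl) * (ct z0.1 z0.2).1 - (ct z.1 z.2).1)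
      (b := fun z => (1 + dl) * (ct z0.1 z0.2).2.1 - (ct z.1 z.2).2.1)
      (c := fun z => (1 + dl) * (ct z0.1 z0.2).2.2 - (ct z.1 z.2).2.2)
      (continuousAt_const.sub c1) (continuousAt_const.sub c2) (continuousAt_const.sub c3) ?_ ?_ ?_
    · have := mul_pos hdl0 v1
      show 0 < (1 + dl) * (ct z0.1 z0.2).1 - (ct z0.1 z0.2).1
      linarith
    · have := mul_pos hdl0 v3
      show 0 < (1 + dl) * (ct z0.1 z0.2).2.2 - (ct z0.1 z0.2).2.2
      linarith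
    · show ((1 + dl) * (ct z0.1 z0.2).2.1 - (ct z0.1 z0.2).2.1) ^ 2 <
        ((1 + dl) * (ct z0.1 z0.2).1 - (ct z0.1 z0.2).1) *
          ((1 + dl) * (ct z0.1 z0.2).2.2 - (ct z0.1 z0.2).2.2)
      linarith [q2]
  have ev2 : ∀ᶠ z in nhds z0, Psd ((1 + dl) * (ct z.1 z.2).1 - (ct z0.1 z0.2).1,
      (1 + dl) * (ct z.1 z.2).2.1 - (ct z0.1 z0.2).2.1,
      (1 + dl) * (ct z.1 z.2).2.2 - (ct z0.1 z0.2).2.2) := by
    refine Nme_ev (a := fun z => (1 + dl) * (ct z.1 z.2).1 - (ct z0.1 z0.2).1)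
      (b := fun z => (1 + dl) * (ct z.1 z.2).2.1 - (ct z0.1 z0.2).2.1)
      (c := fun z => (1 + dl) * (ct z.1 z.2).2.2 - (ct z0.1 z0.2).2.2)
      ((continuousAt_const.mul c1).sub continuousAt_const)
      ((continuousAt_const.mul c2).sub continuousAt_const)
      ((continuousAt_const.mul c3).sub continuousAt_const) ?_ ?_ ?_
    · have := mul_pos hdl0 v1
      show 0 < (1 + dl) * (ct z0.1 z0.2).1 - (ct z0.1 z0.2).1
      linarith
    · have := mul_pos hdl0 v3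
      show 0 < (1 + dl) * (ct z0.1 z0.2).2.2 - (ct z0.1 z0.2).2.2
      linarith
    · show ((1 + dl) * (ct z0.1 z0.2).2.1 - (ct z0.1 z0.2).2.1) ^ 2 <
        ((1 + dl) * (ct z0.1 z0.2).1 - (ct z0.1 z0.2).1) *
          ((1 + dl) * (ct z0.1 z0.2).2.2 - (ct z0.1 z0.2).2.2)
      linarith [q2]
  have ev3 : ∀ᶠ z : ℝ × ℝ in nhds z0, 0 < z.2 :=
    continuous_snd.continuousAt.eventually (lt_mem_nhds hy0)
  filter_upwards [ev1, ev2, ev3] with z g1 g2 g3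
  have b1 : EE A B C z.1 z.2 ≤ (1 + dl) * E0 := Nme_scale hk hne hy0 g3 g1
  have b2 : E0 ≤ (1 + dl) * EE A B C z.1 z.2 := Nme_scale hk hne g3 hy0 g2
  have b0 : 0 ≤ EE A B C z.1 z.2 := ee_nonneg A B C z.1 g3
  set E1 := EE A B C z.1 z.2 with hE1
  have hE1b : E1 ≤ 2 * E0 := by nlinarith
  have hdE : dl * E0 < ep / 2 := by nlinarith
  rw [Real.dist_eq, abs_sub_lt_iff]
  constructor
  · have : E1 - E0 ≤ dl * E0 := by linarith
    linarith
  · have h1 : E0 - E1 ≤ dl * E1 := by linarith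
    have h2 : dl * E1 ≤ dl * (2 * E0) := mul_le_mul_of_nonneg_left hE1b hdl0.le
    linarith

end H80HM
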