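import Pool.Agent.H80.HM.Cmd
import Pool.Agent.H80.HM.Nme

set_option autoImplicit false

/-!
# Row Csp: the infimum tends to 0 at the cusp

For y >= 2 take R = y^2 (>= 2), S0 = 2 log y (>= 0) in mid_metric: R exp(-2S0) = y^2 y^{-4} = y^{-2}, so the bound is K (y (2/y^2) + y^{-3} + (2 log y + 1)^2/y) -> 0 as y -> infinity
(log y <= 4 y^{1/4}, so (2 log y + 1)^2/y <= 81 y^{-1/2}). ee_le (row Nme) gives EE <= Et.
-/

namespace H80HM

open Matrix MeasureTheory Set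
open scoped ComplexOrder

theorem cusp_ne {m : ℕ} {A B C : Mt m} (hAC : Ctr A C) (hBC : Ctr B C) :
    ∃ H : ℝ × ℝ → Mt m, Cl A B C H := by
  obtain ⟨K, _, h⟩ := mid_metric hAC hBC
  obtain ⟨H, hH, _⟩ := h 2 0 le_rfl le_rfl
  exact ⟨H, hH⟩

theorem cusp {m : ℕ} {A B C : Mt m} (hAC : Ctr A C) (hBC : Ctr B C) :
    ∀ ep : ℝ, 0 < ep → ∃ Y : ℝ, ∀ x y : ℝ, |x| ≤ 1 / 2 → Y ≤ y → EE A B C x y ≤ ep := by
  intro ep hep
  obtain ⟨K, hK, h⟩ := mid_metric hAC hBC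
  have ht : Filter.Tendsto (fun y : ℝ => K * (2 * y⁻¹ + (y ^ 3)⁻¹ + (4 * (Real.log y ^ 2 / (1 * y + 0)) +
      4 * (Real.log y ^ 1 / (1 * y + 0)) + y⁻¹))) Filter.atTop (nhds (K * (2 * 0 + 0 + (4 * 0 + 4 * 0 + 0)))) := by
    have t1 : Filter.Tendsto (fun y : ℝ => y⁻¹) Filter.atTop (nhds 0) := tendsto_inv_atTop_zero
    have t3 : Filter.Tendsto (fun y : ℝ => (y ^ 3)⁻¹) Filter.atTop (nhds 0) :=
      tendsto_inv_atTop_zero.comp (Filter.tendsto_pow_atTop (by norm_num))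
    have l2 := Real.tendsto_pow_log_div_mul_add_atTop 1 0 2 one_ne_zero
    have l1 := Real.tendsto_pow_log_div_mul_add_atTop 1 0 1 one_ne_zero
    exact (((t1.const_mul 2).add t3).add (((l2.const_mul 4).add (l1.const_mul 4)).add t1)).const_mul K
  have h0 : K * (2 * 0 + 0 + (4 * 0 + 4 * 0 + 0)) < ep := by simpa using hep
  obtain ⟨Y, hY⟩ := Filter.eventually_atTop.1 (ht.eventually (gt_mem_nhds h0))
  refine ⟨max Y 2, fun x y hx hy => ?_⟩
  have hy2 : 2 ≤ y := (le_max_right _ _).trans hy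
  have hyY : Y ≤ y := (le_max_left _ _).trans hy
  have hy0 : 0 < y := by linarith
  have hlog : 0 ≤ Real.log y := Real.log_nonneg (by linarith)
  obtain ⟨H, hH, hE⟩ := h (y ^ 2) (2 * Real.log y) (by nlinarith) (by linarith)
  have h1 := hE x y hx (by linarith)
  have h2 := hY y hyY
  have h3 : Real.exp (-2 * (2 * Real.log y)) = (y ^ 4)⁻¹ := by
    have e1 : -2 * (2 * Real.log y) = -(Real.log (y ^ 4)) := by
      rw [Real.log_pow]
      push_cast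
      ring
    rw [e1, Real.exp_neg, Real.exp_log (by positivity)]
  rw [h3] at h1
  have h4 : K * (y * (y ^ 2 * (y ^ 4)⁻¹ + 1 / y ^ 2) + y * (y ^ 4)⁻¹ + (2 * Real.log y + 1) ^ 2 / y) =
      K * (2 * y⁻¹ + (y ^ 3)⁻¹ + (4 * (Real.log y ^ 2 / (1 * y + 0)) + 4 * (Real.log y ^ 1 / (1 * y + 0)) + y⁻¹)) := by
    field_simp
    ring
  rw [h4] at h1
  exact ((ee_le hH x hy0).trans h1).trans h2.le

end H80HM
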