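import Pool.Agent.H80.HM.Bdu
import Pool.Agent.H80.HM.Jhd

/-!
# Row Ctu: a pair generating a group with eigenvalues of modulus one is contractible

Let Gm = Subgroup.closure {X, Y} in the units of Mt m. Induction on m (strong) for the statement: for every pair of units X, Y with Mo g for all g in closure {X,Y}: Ctr X Y.
m = 0: trivial. If C^m has no invariant subspace under X, Y other than 0 and everything: the inclusion of Gm (restricted representation) is irreducible: Irg (Burnside, as in row Jhd: apply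
jh to the representation Gm -> units; N = 1 because a simple module has length 1, or prove Burnside directly), bd_unit gives h, h = S S* (S invertible), S^{-1} X S and S^{-1} Y S are
unitary; Q = S, w = 0 constant: BU.
Otherwise let V be an invariant subspace of dimension m1, 0 < m1 < m; in a basis of C^m extending a basis of V: X ~ [[X1,*],[0,X2]], Y ~ [[Y1,*],[0,Y2]]. For g in closure {X1,Y1} resp.
{X2,Y2} there is an element of closure {X,Y} whose block is g (word in the generators), and its characteristic polynomial is the product of those of the blocks, so Mo holds for g. By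
induction Ctr X1 Y1 (Q1, w1), Ctr X2 Y2 (Q2, w2). Put Q = basis change * diag(Q1, Q2), w = w1 on the first block and w2 + 1 + max w1 on the second: block upper triangular, and the block
diagonal part is block diagonal with the two unitary parts.
(Alternative: use the flag of row Jhd directly, in its proof.)
(Reindexing: Fin m = Fin m1 + Fin m2; finSumFinEquiv.)
-/

set_option autoImplicit false

namespace H80HM

open Matrix

/-- Burnside's theorem -/
theorem Ctu_burnside {m : ℕ} [NeZero m] (A : Subalgebra ℂ (Module.End ℂ (Fin m → ℂ)))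
    (h : ∀ V : Submodule ℂ (Fin m → ℂ), (∀ a ∈ A, ∀ v ∈ V, a v ∈ V) → V = ⊥ ∨ V = ⊤) :
    A = ⊤ := by
  have : Nontrivial (Fin m → ℂ) := inferInstance
  have hsimp : IsSimpleModule A (Fin m → ℂ) := by
    rw [isSimpleModule_iff]
    refine { exists_pair_ne := ⟨⊥, ⊤, bot_ne_top⟩, eq_bot_or_eq_top := ?_ }
    intro N
    rcases h (N.restrictScalars ℂ) (by
      intro a ha v hv
      exact N.smul_mem (⟨a, ha⟩ : A) hv) with h1 | h1
    · left
      exact (Submodule.restrictScalars_eq_bot_iff ℂ A _).1 h1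
    · right
      exact (Submodule.restrictScalars_eq_top_iff ℂ A _).1 h1
  rw [eq_top_iff]
  intro f0 _
  have hbij := IsSimpleModule.algebraMap_end_bijective_of_isAlgClosed (A := A)
    (V := Fin m → ℂ) ℂ
  let f : Module.End (Module.End A (Fin m → ℂ)) (Fin m → ℂ) :=
    { toFun := f0
      map_add' := f0.map_add
      map_smul' := by
        intro c v
        obtain ⟨t, rfl⟩ := hbij.2 c
        exact f0.map_smul t v }
  obtain ⟨a, ha⟩ := jacobson_density (R := A) f
    (Finset.univ.image fun i : Fin m => (Pi.single i 1 : Fin m → ℂ))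
  have e : f0 = (a : Module.End ℂ (Fin m → ℂ)) := by
    refine (Pi.basisFun ℂ (Fin m)).ext fun i => ?_
    rw [Pi.basisFun_apply]
    exact ha _ (Finset.mem_image_of_mem _ (Finset.mem_univ i))
  rw [e]
  exact a.2

theorem Ctu_irr {G : Type} [Group G] {m : ℕ} [NeZero m] (r : G →* (Mt m)ˣ)
    (h : ∀ V : Submodule ℂ (Fin m → ℂ),
      (∀ g, ∀ v ∈ V, ((r g : (Mt m)ˣ) : Mt m) *ᵥ v ∈ V) → V = ⊥ ∨ V = ⊤) : Irg r := by
  unfold Irg
  set S := Algebra.adjoin ℂ (Set.range fun g => ((r g : (Mt m)ˣ) : Mt m)) with hS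
  have hA : S.map (Matrix.toLinAlgEquiv' (R := ℂ) (n := Fin m)).toAlgHom = ⊤ := by
    apply Ctu_burnside
    intro V hV
    apply h
    intro g v hv
    exact hV _ ⟨(r g : Mt m), Algebra.subset_adjoin ⟨g, rfl⟩, rfl⟩ v hv
  rw [eq_top_iff]
  intro M _
  have h1 : (Matrix.toLinAlgEquiv' (R := ℂ) (n := Fin m)) M ∈
      S.map (Matrix.toLinAlgEquiv' (R := ℂ) (n := Fin m)).toAlgHom := by
    rw [hA]
    exact Algebra.mem_top
  obtain ⟨N, hN, hNM⟩ := h1
  have h2 : N = M := (Matrix.toLinAlgEquiv' (R := ℂ) (n := Fin m)).injective hNM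
  rw [← h2]
  exact hN

/-- a basis adapted to an invariant subspace -/
theorem Ctu_basis {m : ℕ} (V : Submodule ℂ (Fin m → ℂ)) (h0 : V ≠ ⊥) (h1 : V ≠ ⊤) :
    ∃ (m1 m2 : ℕ) (e : Fin m1 ⊕ Fin m2 ≃ Fin m) (P : (Mt m)ˣ), m1 < m ∧ m2 < m ∧
      ∀ M : Mt m, (∀ v ∈ V, M *ᵥ v ∈ V) → ∀ (i : Fin m2) (j : Fin m1),
        (((P⁻¹ : (Mt m)ˣ) : Mt m) * M * (P : Mt m)) (e (Sum.inr i)) (e (Sum.inl j)) = 0 := by
  obtain ⟨W, hVW⟩ := Submodule.exists_isCompl V
  set bV := Module.finBasis ℂ V with hbV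
  set bW := Module.finBasis ℂ W with hbW
  set b := (bV.prod bW).map (Submodule.prodEquivOfIsCompl V W hVW) with hb
  set e := b.indexEquiv (Pi.basisFun ℂ (Fin m)) with he
  set b' := b.reindex e with hb'
  set P : Mt m := (Pi.basisFun ℂ (Fin m)).toMatrix b' with hP
  set P' : Mt m := b'.toMatrix (Pi.basisFun ℂ (Fin m)) with hP'
  have e1 : P * P' = 1 := Module.Basis.toMatrix_mul_toMatrix_flip _ _
  have e2 : P' * P = 1 := Module.Basis.toMatrix_mul_toMatrix_flip _ _
  refine ⟨_, _, e, ⟨P, P', e1, e2⟩, ?_, ?_, ?_⟩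
  · have h2 := Submodule.finrank_lt h1
    rwa [Module.finrank_fin_fun] at h2
  · have h2 : W ≠ ⊤ := by
      intro h3
      apply h0
      have h4 := hVW.inf_eq_bot
      rwa [h3, inf_top_eq] at h4
    have h3 := Submodule.finrank_lt h2
    rwa [Module.finrank_fin_fun] at h3
  · intro M hM i j
    have h2 : P' * M * P = LinearMap.toMatrix b' b' (Matrix.toLin' M) := by
      rw [← basis_toMatrix_mul_linearMap_toMatrix_mul_basis_toMatrix b' (Pi.basisFun ℂ (Fin m))
        b' (Pi.basisFun ℂ (Fin m)) (Matrix.toLin' M), LinearMap.toMatrix_eq_toMatrix',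
        LinearMap.toMatrix'_toLin']
    change (P' * M * P) _ _ = 0
    rw [h2, LinearMap.toMatrix_apply, Matrix.toLin'_apply]
    have h3 : b' (e (Sum.inl j)) = (bV j : Fin m → ℂ) := by
      rw [hb', Module.Basis.reindex_apply, Equiv.symm_apply_apply, hb, Module.Basis.map_apply]
      simp
    have h4 := hM _ (bV j).2
    rw [h3, hb', Module.Basis.repr_reindex_apply, Equiv.symm_apply_apply, hb]
    have h5 : (Submodule.prodEquivOfIsCompl V W hVW).symm (M *ᵥ (bV j : Fin m → ℂ)) =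
        (⟨_, h4⟩, 0) := by
      exact Submodule.prodEquivOfIsCompl_symm_apply_left V W hVW ⟨_, h4⟩
    rw [Module.Basis.map_repr, LinearEquiv.trans_apply, h5]
    simp

/-- a homomorphism into the units from a compatible family of blocks -/
theorem Ctu_red {G : Type} [Group G] {m m1 m2 : ℕ} (e : Fin m1 ⊕ Fin m2 ≃ Fin m)
    (r : G →* (Mt m)ˣ) (P : (Mt m)ˣ)
    (hP : ∀ (g : G) (i : Fin m2) (j : Fin m1),
      (((P⁻¹ : (Mt m)ˣ) : Mt m) * (r g : Mt m) * (P : Mt m)) (e (Sum.inr i)) (e (Sum.inl j)) = 0) :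
    ∃ (r1 : G →* (Mt m1)ˣ) (r2 : G →* (Mt m2)ˣ) (B : G → Matrix (Fin m1) (Fin m2) ℂ),
      ∀ g, (((P⁻¹ : (Mt m)ˣ) : Mt m) * (r g : Mt m) * (P : Mt m)).submatrix e e =
        fromBlocks (r1 g : Mt m1) (B g) 0 (r2 g : Mt m2) := by
  set ρ : G → Matrix (Fin m1 ⊕ Fin m2) (Fin m1 ⊕ Fin m2) ℂ := fun g =>
    (((P⁻¹ : (Mt m)ˣ) : Mt m) * (r g : Mt m) * (P : Mt m)).submatrix e e with hρ
  have h21 : ∀ g, (ρ g).toBlocks₂₁ = 0 := by
    intro g
    ext i j
    exact hP g i j
  have hone : ρ 1 = 1 := by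
    simp only [hρ]
    rw [map_one, Units.val_one, mul_one, ← Units.val_mul, inv_mul_cancel, Units.val_one,
      submatrix_one_equiv]
  have hmul : ∀ g g', ρ (g * g') = ρ g * ρ g' := by
    intro g g'
    simp only [hρ]
    rw [submatrix_mul_equiv]
    congr 1
    rw [map_mul, Units.val_mul]
    have h1 : (P : Mt m) * ((P⁻¹ : (Mt m)ˣ) : Mt m) = 1 := by
      rw [← Units.val_mul, mul_inv_cancel, Units.val_one]
    calc _ = ((P⁻¹ : (Mt m)ˣ) : Mt m) * (r g : Mt m) * 1 * (r g' : Mt m) * (P : Mt m) := by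
          simp only [mul_assoc, one_mul]
      _ = _ := by
          rw [← h1]
          simp only [mul_assoc]
  have hblk : ∀ g g', fromBlocks (ρ (g * g')).toBlocks₁₁ (ρ (g * g')).toBlocks₁₂
      (ρ (g * g')).toBlocks₂₁ (ρ (g * g')).toBlocks₂₂ =
      fromBlocks ((ρ g).toBlocks₁₁ * (ρ g').toBlocks₁₁ + (ρ g).toBlocks₁₂ * (ρ g').toBlocks₂₁)
        ((ρ g).toBlocks₁₁ * (ρ g').toBlocks₁₂ + (ρ g).toBlocks₁₂ * (ρ g').toBlocks₂₂)
        ((ρ g).toBlocks₂₁ * (ρ g').toBlocks₁₁ + (ρ g).toBlocks₂₂ * (ρ g').toBlocks₂₁)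
        ((ρ g).toBlocks₂₁ * (ρ g').toBlocks₁₂ + (ρ g).toBlocks₂₂ * (ρ g').toBlocks₂₂) := by
    intro g g'
    rw [← fromBlocks_multiply, fromBlocks_toBlocks, fromBlocks_toBlocks, fromBlocks_toBlocks, hmul]
  have hone' : fromBlocks (ρ 1).toBlocks₁₁ (ρ 1).toBlocks₁₂ (ρ 1).toBlocks₂₁ (ρ 1).toBlocks₂₂ =
      fromBlocks (1 : Mt m1) 0 0 (1 : Mt m2) := by
    rw [fromBlocks_toBlocks, hone, fromBlocks_one]
  have o1 := fromBlocks_inj.1 hone'
  let f1 : G →* Mt m1 :=
    { toFun := fun g => (ρ g).toBlocks₁₁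
      map_one' := o1.1
      map_mul' := by
        intro g g'
        have h1 := (fromBlocks_inj.1 (hblk g g')).1
        rw [h21 g', Matrix.mul_zero, add_zero] at h1
        exact h1 }
  let f2 : G →* Mt m2 :=
    { toFun := fun g => (ρ g).toBlocks₂₂
      map_one' := o1.2.2.2
      map_mul' := by
        intro g g'
        have h1 := (fromBlocks_inj.1 (hblk g g')).2.2.2
        rw [h21 g, Matrix.zero_mul, zero_add] at h1
        exact h1 }
  refine ⟨f1.toHomUnits, f2.toHomUnits, fun g => (ρ g).toBlocks₁₂, fun g => ?_⟩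
  change ρ g = _
  conv_lhs => rw [← fromBlocks_toBlocks (ρ g), h21 g]
  rfl

theorem Ctu_mo {m m1 m2 : ℕ} (e : Fin m1 ⊕ Fin m2 ≃ Fin m) (M : Mt m) (P : (Mt m)ˣ) (A : Mt m1)
    (B : Matrix (Fin m1) (Fin m2) ℂ) (D : Mt m2) (hM : Mo M)
    (h : (((P⁻¹ : (Mt m)ˣ) : Mt m) * M * (P : Mt m)).submatrix e e = fromBlocks A B 0 D) :
    Mo A ∧ Mo D := by
  have h1 : M.charpoly = A.charpoly * D.charpoly := by
    rw [← charpoly_fromBlocks_zero₂₁, ← h]
    have h2 := charpoly_reindex e.symm (((P⁻¹ : (Mt m)ˣ) : Mt m) * M * (P : Mt m))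
    rw [reindex_apply, Equiv.symm_symm] at h2
    rw [h2, coe_units_inv, charpoly_units_conj']
  exact ⟨mo_dvd (h1 ▸ dvd_mul_right _ _) hM, mo_dvd (h1 ▸ dvd_mul_left _ _) hM⟩

theorem Ctu_main {G : Type} [Group G] : ∀ (m : ℕ) (r : G →* (Mt m)ˣ),
    (∀ g, Mo ((r g : (Mt m)ˣ) : Mt m)) → ∃ (Q : Mt m) (w : Fin m → ℕ), IsUnit Q.det ∧
      ∀ g, BU w (Q⁻¹ * ((r g : (Mt m)ˣ) : Mt m) * Q) := by
  intro m
  induction m using Nat.strong_induction_on with
  | _ m ih =>
  intro r hr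
  rcases Nat.eq_zero_or_pos m with hm | hm
  · subst hm
    refine ⟨1, fun _ => 0, by simp, fun g => ⟨fun i => i.elim0, ?_⟩⟩
    ext i
    exact i.elim0
  have : NeZero m := ⟨hm.ne'⟩
  by_cases hirr : ∀ V : Submodule ℂ (Fin m → ℂ),
      (∀ g, ∀ v ∈ V, ((r g : (Mt m)ˣ) : Mt m) *ᵥ v ∈ V) → V = ⊥ ∨ V = ⊤
  · have h1 := Ctu_irr r hirr
    obtain ⟨h, hpos, hh⟩ := bd_unit r h1 hr
    obtain ⟨Q, lam, hQ, hQQ, -⟩ := exists_fr hpos hpos
    refine ⟨Q, fun _ => 0, hQ, fun g => ⟨fun i j hij => absurd hij (lt_irrefl _), ?_⟩⟩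
    have hb : ∀ M : Mt m, bdg (fun _ => 0) M = M := by
      intro M
      ext i j
      simp [bdg]
    rw [hb, conjTranspose_mul, conjTranspose_mul]
    have h2 := hh g
    have h3 : Q⁻¹ * Q = 1 := nonsing_inv_mul Q hQ
    have h4 : Qᴴ * (Q⁻¹)ᴴ = 1 := by
      rw [← conjTranspose_mul, h3, conjTranspose_one]
    calc Q⁻¹ * (r g : Mt m) * Q * (Qᴴ * ((r g : Mt m)ᴴ * (Q⁻¹)ᴴ)) =
        Q⁻¹ * ((r g : Mt m) * (Q * Qᴴ) * (r g : Mt m)ᴴ) * (Q⁻¹)ᴴ := by
          simp only [mul_assoc]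
      _ = Q⁻¹ * (Q * Qᴴ) * (Q⁻¹)ᴴ := by rw [← hQQ, h2]
      _ = (Q⁻¹ * Q) * (Qᴴ * (Q⁻¹)ᴴ) := by simp only [mul_assoc]
      _ = 1 := by rw [h3, h4, mul_one]
  · push Not at hirr
    obtain ⟨V, hV, hV0, hV1⟩ := hirr
    obtain ⟨m1, m2, e, P, hm1, hm2, hP⟩ := Ctu_basis V hV0 hV1
    obtain ⟨r1, r2, B, hB⟩ := Ctu_red e r P fun g => hP _ (hV g)
    have hmo := fun g => Ctu_mo e (r g : Mt m) P _ _ _ (hr g) (hB g)
    obtain ⟨Q1, w1, hQ1, hb1⟩ := ih m1 hm1 r1 fun g => (hmo g).1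
    obtain ⟨Q2, w2, hQ2, hb2⟩ := ih m2 hm2 r2 fun g => (hmo g).2
    set Qb : Mt m := (fromBlocks Q1 0 0 Q2).submatrix e.symm e.symm with hQb
    set wb : Fin m1 ⊕ Fin m2 → ℕ := Sum.elim w1 (fun j => w2 j + 1 + Finset.univ.sup w1) with hwb
    have hPdet : IsUnit (P : Mt m).det := by
      rw [← isUnit_iff_isUnit_det]
      exact P.isUnit
    have hQbdet : IsUnit Qb.det := by
      rw [hQb, det_submatrix_equiv_self, det_fromBlocks_zero₂₁]
      exact hQ1.mul hQ2
    refine ⟨(P : Mt m) * Qb, fun i => wb (e.symm i), ?_, fun g => ?_⟩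
    · rw [det_mul]
      exact hPdet.mul hQbdet
    set N : Mt m := (fromBlocks (Q1⁻¹ * (r1 g : Mt m1) * Q1) (Q1⁻¹ * B g * Q2) 0
      (Q2⁻¹ * (r2 g : Mt m2) * Q2)).submatrix e.symm e.symm with hN
    have hPP : (P : Mt m) * ((P⁻¹ : (Mt m)ˣ) : Mt m) = 1 := by
      rw [← Units.val_mul, mul_inv_cancel, Units.val_one]
    have hρ : ((P⁻¹ : (Mt m)ˣ) : Mt m) * (r g : Mt m) * (P : Mt m) =
        (fromBlocks (r1 g : Mt m1) (B g) 0 (r2 g : Mt m2)).submatrix e.symm e.symm := by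
      rw [← hB g, submatrix_submatrix]
      simp
    have hN1 : Qb * N = ((P⁻¹ : (Mt m)ˣ) : Mt m) * (r g : Mt m) * (P : Mt m) * Qb := by
      rw [hρ, hQb, hN, submatrix_mul_equiv, submatrix_mul_equiv, fromBlocks_multiply,
        fromBlocks_multiply]
      congr 2
      · rw [Matrix.zero_mul, Matrix.mul_zero, ← mul_assoc, ← mul_assoc, mul_nonsing_inv _ hQ1,
          one_mul]
      · rw [Matrix.zero_mul, Matrix.mul_zero, add_zero, zero_add, ← Matrix.mul_assoc,
          ← Matrix.mul_assoc, mul_nonsing_inv _ hQ1, Matrix.one_mul]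
      · rw [Matrix.zero_mul, Matrix.mul_zero, Matrix.zero_mul, Matrix.mul_zero]
      · rw [Matrix.zero_mul, Matrix.zero_mul, ← mul_assoc, ← mul_assoc, mul_nonsing_inv _ hQ2,
          one_mul]
    have hN2 : ((P : Mt m) * Qb)⁻¹ * (r g : Mt m) * ((P : Mt m) * Qb) = N := by
      have hdet : IsUnit ((P : Mt m) * Qb).det := by
        rw [det_mul]
        exact hPdet.mul hQbdet
      have h1 : (r g : Mt m) * ((P : Mt m) * Qb) = (P : Mt m) * Qb * N := by
        calc (r g : Mt m) * ((P : Mt m) * Qb) = 1 * (r g : Mt m) * ((P : Mt m) * Qb) := by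
              rw [one_mul]
          _ = (P : Mt m) * (((P⁻¹ : (Mt m)ˣ) : Mt m) * (r g : Mt m) * (P : Mt m) * Qb) := by
              rw [← hPP]
              simp only [mul_assoc]
          _ = (P : Mt m) * Qb * N := by rw [← hN1, mul_assoc]
      rw [mul_assoc, h1, ← mul_assoc, nonsing_inv_mul _ hdet, one_mul]
    rw [hN2]
    constructor
    · intro i j hij
      obtain ⟨i, rfl⟩ := e.surjective i
      obtain ⟨j, rfl⟩ := e.surjective j
      simp only [Equiv.symm_apply_apply] at hij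
      rw [hN, submatrix_apply, Equiv.symm_apply_apply, Equiv.symm_apply_apply]
      rcases i with i | i <;> rcases j with j | j
      · exact (hb1 g).1 i j hij
      · exfalso
        have h1 : w1 i ≤ Finset.univ.sup w1 := Finset.le_sup (Finset.mem_univ i)
        simp only [hwb, Sum.elim_inl, Sum.elim_inr] at hij
        omega
      · rfl
      · refine (hb2 g).1 i j ?_
        simp only [hwb, Sum.elim_inr] at hij
        omega
    · have hbd : bdg (fun i => wb (e.symm i)) N =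
          (fromBlocks (bdg w1 (Q1⁻¹ * (r1 g : Mt m1) * Q1)) 0 0
            (bdg w2 (Q2⁻¹ * (r2 g : Mt m2) * Q2))).submatrix e.symm e.symm := by
        ext i j
        obtain ⟨i, rfl⟩ := e.surjective i
        obtain ⟨j, rfl⟩ := e.surjective j
        rw [submatrix_apply]
        simp only [bdg, of_apply, Equiv.symm_apply_apply, hN, submatrix_apply]
        rcases i with i | i <;> rcases j with j | j
        · simp [hwb]
        · have h1 : w1 i ≤ Finset.univ.sup w1 := Finset.le_sup (Finset.mem_univ i)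
          rw [if_neg]
          · rfl
          · simp only [hwb, Sum.elim_inl, Sum.elim_inr]
            omega
        · simp
        · simp [hwb]
      rw [hbd, conjTranspose_submatrix, submatrix_mul_equiv, fromBlocks_conjTranspose,
        fromBlocks_multiply, (hb1 g).2, (hb2 g).2]
      simp

theorem ctr_of_mo {m : ℕ} (X Y : (Mt m)ˣ)
    (h : ∀ g ∈ Subgroup.closure ({X, Y} : Set (Mt m)ˣ), Mo ((g : (Mt m)ˣ) : Mt m)) :
    Ctr (X : Mt m) (Y : Mt m) := by
  obtain ⟨Q, w, hQ, hb⟩ := Ctu_main m (Subgroup.closure ({X, Y} : Set (Mt m)ˣ)).subtype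
    fun g => h g.1 g.2
  exact ⟨Q, w, hQ, hb ⟨X, Subgroup.subset_closure (by simp)⟩,
    hb ⟨Y, Subgroup.subset_closure (by simp)⟩⟩

end H80HM
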