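import Pool.Agent.H80.HM.Def2

set_option autoImplicit false

/-!
# Definitions for the algebraic part
-/

namespace H80HM

open Matrix

noncomputable section

/-- all eigenvalues have modulus one -/
def Mo {m : ℕ} (M : Mt m) : Prop := ∀ z ∈ M.charpoly.roots, ‖z‖ = 1

/-- irreducible representation (the image spans the full matrix algebra) -/
def Irg {G : Type} [Group G] {k : ℕ} (r : G →* (Mt k)ˣ) : Prop :=
  Algebra.adjoin ℂ (Set.range fun g => ((r g : (Mt k)ˣ) : Mt k)) = ⊤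

/-- isomorphic representations -/
def Rsm {G : Type} [Group G] {k k' : ℕ} (r : G →* (Mt k)ˣ) (r' : G →* (Mt k')ˣ) : Prop :=
  ∃ (T : Matrix (Fin k) (Fin k') ℂ) (T' : Matrix (Fin k') (Fin k) ℂ), T * T' = 1 ∧ T' * T = 1 ∧
    ∀ g, ((r g : (Mt k)ˣ) : Mt k) * T = T * ((r' g : (Mt k')ˣ) : Mt k')

/-- characteristic representation -/
def Chr {F : Type} [Group F] {d : ℕ} (rho : F →* (Mt d)ˣ) : Prop :=
  ∀ s : F ≃* F, ∃ g : (Mt d)ˣ, ∀ x, rho (s x) = g * rho x * g⁻¹

/-- index set of the free basis X_j, Y_j (j < k) and t (if e = 1) -/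
abbrev Ix (k e : ℕ) : Type := (Fin k ⊕ Fin k) ⊕ Fin e

abbrev FG (k e : ℕ) : Type := FreeGroup (Ix k e)

/-- t (equal to 1 if e = 0) -/
def tt (k e : ℕ) : FG k e := (List.ofFn fun i : Fin e => FreeGroup.of (Sum.inr i : Ix k e)).prod

/-- basis elements -/
def Xb {k e : ℕ} (j : Fin k) : FG k e := FreeGroup.of (Sum.inl (Sum.inl j))
def Yb {k e : ℕ} (j : Fin k) : FG k e := FreeGroup.of (Sum.inl (Sum.inr j))

/-- the shift structure: sg is the automorphism X_j -> X_{j+1}, X_{k-1} -> t^{-1} X_0 t, .. -/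
structure Shs {F : Type} [Group F] (k : ℕ) (sg : F ≃* F) (X Y t : F) : Prop where
  st : sg t = t
  sk : ∀ u, (sg ^ k) u = t⁻¹ * u * t
  ex : ∀ a b : F, ∃ f : F →* F, f X = a ∧ f Y = b ∧ f t = t ∧ ∀ u, f (sg u) = sg (f u)
  un : ∀ f g : F →* F, f X = g X → f Y = g Y → f t = t → g t = t →
    (∀ u, f (sg u) = sg (f u)) → (∀ u, g (sg u) = sg (g u)) → f = g

end

end H80HM
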