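import Pool.Agent.H80.HM.Eei
import Pool.Agent.H80.HM.Def4

set_option autoImplicit false

/-!
# Row Eis: the infimum of the energy is invariant under isomorphism of triples; generation of the matrix algebra

ee_iso: T T' = 1, T' T = 1 with T of size m x m' forces m = m' (Matrix.. rank / card argument, e.g. trace: m = tr(T T') = tr(T' T) = m' in characteristic 0); substitute m' = m;
then A = T A' T', ... with T invertible, T' = T^{-1}: ee_conj (row Eei).
adj_gen: r : G -> GL_k irreducible (Irg), a, b, c in G with Subgroup.closure {a,b,c} = top. Then Algebra.adjoin {r a, r b, r c} = top: the subalgebra S generated by r a, r b, r c contains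
 the inverses (Cayley-Hamilton: the inverse of an invertible matrix M is a polynomial in M), so {g : r g in S and r g^{-1} in S} is a subgroup containing a, b, c, hence everything; so S
 contains the range of r and S = top.
-/

namespace H80HM

open Matrix

theorem Eis_inv {k : ℕ} (S : Subalgebra ℂ (Mt k)) (u : (Mt k)ˣ) (hu : (u : Mt k) ∈ S) :
    ((u⁻¹ : (Mt k)ˣ) : Mt k) ∈ S := by
  obtain ⟨f, hf⟩ : ∃ f : S →ₗ[ℂ] S, f = LinearMap.mulLeft ℂ (⟨(u : Mt k), hu⟩ : S) := ⟨_, rfl⟩
  have hinj : Function.Injective f := by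
    rw [injective_iff_map_eq_zero]
    intro s hs
    rw [hf, LinearMap.mulLeft_apply] at hs
    have h1 : (u : Mt k) * (s : Mt k) = 0 := by
      have h2 := congrArg (Subtype.val) hs
      exact h2
    have h3 : (s : Mt k) = 0 := by
      have h4 : ((u⁻¹ : (Mt k)ˣ) : Mt k) * ((u : Mt k) * (s : Mt k)) = (s : Mt k) := by
        rw [← mul_assoc, Units.inv_mul, one_mul]
      rw [← h4, h1, mul_zero]
    exact Subtype.ext h3
  have hsurj : Function.Surjective f := LinearMap.injective_iff_surjective.1 hinj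
  obtain ⟨s, hs⟩ := hsurj 1
  rw [hf, LinearMap.mulLeft_apply] at hs
  have h1 : (u : Mt k) * (s : Mt k) = 1 := by
    have h2 := congrArg (Subtype.val) hs
    exact h2
  have h3 : ((u⁻¹ : (Mt k)ˣ) : Mt k) = (s : Mt k) := by
    calc ((u⁻¹ : (Mt k)ˣ) : Mt k) = ((u⁻¹ : (Mt k)ˣ) : Mt k) * ((u : Mt k) * (s : Mt k)) := by
          rw [h1, mul_one]
      _ = (s : Mt k) := by rw [← mul_assoc, Units.inv_mul, one_mul]
  rw [h3]
  exact s.2

theorem Eis_conj {m : ℕ} {A A' T T' : Mt m} (h1 : T * T' = 1) (hA : A * T = T * A') :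
    A = T * A' * T⁻¹ := by
  rw [Matrix.inv_eq_right_inv h1, ← hA, Matrix.mul_assoc, h1, Matrix.mul_one]

theorem ee_iso {m m' : ℕ} {A B C : Mt m} {A' B' C' : Mt m'} {T : Matrix (Fin m) (Fin m') ℂ}
    {T' : Matrix (Fin m') (Fin m) ℂ} (h1 : T * T' = 1) (h2 : T' * T = 1) (hA : A * T = T * A')
    (hB : B * T = T * B') (hC : C * T = T * C') (x : ℝ) {y : ℝ} (hy : 0 < y) :
    EE A B C x y = EE A' B' C' x y := by
  have hm : m = m' := by
    have h3 : Matrix.trace (T * T') = Matrix.trace (T' * T) := Matrix.trace_mul_comm T T'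
    rw [h1, h2, Matrix.trace_one, Matrix.trace_one, Fintype.card_fin, Fintype.card_fin] at h3
    exact_mod_cast h3
  subst hm
  have hg : IsUnit T.det := Matrix.isUnit_det_of_right_inverse h1
  rw [Eis_conj h1 hA, Eis_conj h1 hB, Eis_conj h1 hC]
  exact ee_conj hg x hy

theorem adj_gen {G : Type} [Group G] {k : ℕ} {r : G →* (Mt k)ˣ} (hr : Irg r) {a b c : G}
    (h : Subgroup.closure ({a, b, c} : Set G) = ⊤) :
    Algebra.adjoin ℂ ({((r a : (Mt k)ˣ) : Mt k), ((r b : (Mt k)ˣ) : Mt k),
      ((r c : (Mt k)ˣ) : Mt k)} : Set (Mt k)) = ⊤ := by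
  obtain ⟨S, hS⟩ : ∃ S : Subalgebra ℂ (Mt k), S = Algebra.adjoin ℂ
    ({((r a : (Mt k)ˣ) : Mt k), ((r b : (Mt k)ˣ) : Mt k), ((r c : (Mt k)ˣ) : Mt k)} :
      Set (Mt k)) := ⟨_, rfl⟩
  rw [← hS]
  have key : ∀ g ∈ Subgroup.closure ({a, b, c} : Set G), ((r g : (Mt k)ˣ) : Mt k) ∈ S := by
    intro g hg
    induction hg using Subgroup.closure_induction with
    | mem x hx =>
      rw [hS]
      apply Algebra.subset_adjoin
      rcases hx with rfl | rfl | hx
      · exact Or.inl rfl
      · exact Or.inr (Or.inl rfl)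
      · have hx' : x = c := hx
        rw [hx']
        exact Or.inr (Or.inr rfl)
    | one =>
      rw [map_one]
      exact S.one_mem
    | mul x y _ _ hx hy =>
      rw [map_mul, Units.val_mul]
      exact S.mul_mem hx hy
    | inv x _ hx =>
      rw [map_inv]
      exact Eis_inv S _ hx
  rw [eq_top_iff, ← hr]
  apply Algebra.adjoin_le
  rintro _ ⟨g, rfl⟩
  exact key g (by rw [h]; exact Subgroup.mem_top g)

end H80HM
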