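import Pool.Agent.H80.HM.Mxp

set_option autoImplicit false

/-!
# Row Mxf: maximum principle for a finite family permuted by the generators

f(x,y) := max_i F i x y (Finset.sup' univ). It is continuous, >= 0, tends to 0 at the cusp (finite maximum of the Y), VS: at (x,y), for given ep take s0
minimal over i; choose i with f(x,y) = F i x y; the four values of f are at least those of F i.
hT gives f(x,y) <= f(x-1,y): f(x,y) = F j (x,y) <= F i (x-1) y <= f(x-1,y). Likewise f(z) <= f(Sz), S(x,y) = (-x/(x^2+y^2), y/(x^2+y^2)), S S = id, so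
f(Sz) = f(z). With T'(x,y) = (x-1,y): f(w) <= f(T'w). The relation S T' S T' S (x,y) = (x+1,y) (Moebius: z -> -1/z -> -1/z - 1 = -(z+1)/z -> z/(z+1)
-> z/(z+1) - 1 = -1/(z+1) -> z+1) gives f(x,y) = f(Sz) <= f(T'Sz) = f(ST'Sz) <= f(T'ST'Sz) = f(ST'ST'Sz) = f(x+1,y). With f(x+1,y) <= f(x,y) (hT) we get
invariance; apply max_princ: f = 0 and 0 <= F i <= f.
-/

namespace H80HM

private theorem Mxf_S_S {x y : ℝ} (hy : 0 < y) :
    -(-x / (x ^ 2 + y ^ 2)) / ((-x / (x ^ 2 + y ^ 2)) ^ 2 + (y / (x ^ 2 + y ^ 2)) ^ 2) = x ∧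
    (y / (x ^ 2 + y ^ 2)) / ((-x / (x ^ 2 + y ^ 2)) ^ 2 + (y / (x ^ 2 + y ^ 2)) ^ 2) = y := by
  have hr : 0 < x ^ 2 + y ^ 2 := by positivity
  have h1 : (-x / (x ^ 2 + y ^ 2)) ^ 2 + (y / (x ^ 2 + y ^ 2)) ^ 2 = 1 / (x ^ 2 + y ^ 2) := by
    field_simp
  rw [h1]
  constructor <;> field_simp

private theorem Mxf_rel {x y : ℝ} (hy : 0 < y) :
    -(-x / (x ^ 2 + y ^ 2) - 1) / ((-x / (x ^ 2 + y ^ 2) - 1) ^ 2 + (y / (x ^ 2 + y ^ 2)) ^ 2) - 1 =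
      -(x + 1) / ((x + 1) ^ 2 + y ^ 2) ∧
    (y / (x ^ 2 + y ^ 2)) / ((-x / (x ^ 2 + y ^ 2) - 1) ^ 2 + (y / (x ^ 2 + y ^ 2)) ^ 2) =
      y / ((x + 1) ^ 2 + y ^ 2) := by
  have hr : 0 < x ^ 2 + y ^ 2 := by positivity
  have hq : 0 < (x + 1) ^ 2 + y ^ 2 := by positivity
  have h1 : (-x / (x ^ 2 + y ^ 2) - 1) ^ 2 + (y / (x ^ 2 + y ^ 2)) ^ 2 =
      ((x + 1) ^ 2 + y ^ 2) / (x ^ 2 + y ^ 2) := by
    field_simp
    ring
  rw [h1]
  constructor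
  · field_simp
    ring
  · field_simp

theorem max_family {ι : Type} [Fintype ι] {F : ι → ℝ → ℝ → ℝ}
    (hc : ∀ i, ContinuousOn (fun z : ℝ × ℝ => F i z.1 z.2) {z : ℝ × ℝ | 0 < z.2})
    (h0 : ∀ i, ∀ x y : ℝ, 0 < y → 0 ≤ F i x y)
    (hcusp : ∀ i, ∀ ep : ℝ, 0 < ep → ∃ Y : ℝ, ∀ x y : ℝ, |x| ≤ 1 / 2 → Y ≤ y → F i x y ≤ ep)
    (hv : ∀ i, VS (F i))
    (hT : ∀ j, ∃ i, ∀ x y : ℝ, 0 < y → F j x y ≤ F i (x - 1) y)
    (hS : ∀ j, ∃ i, ∀ x y : ℝ, 0 < y →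
      F j x y ≤ F i (-x / (x ^ 2 + y ^ 2)) (y / (x ^ 2 + y ^ 2))) :
    ∀ i, ∀ x y : ℝ, 0 < y → F i x y = 0 := by
  intro i₀
  have hne : (Finset.univ : Finset ι).Nonempty := ⟨i₀, Finset.mem_univ _⟩
  let f : ℝ → ℝ → ℝ := fun x y => Finset.univ.sup' hne fun j => F j x y
  have hle : ∀ j x y, F j x y ≤ f x y := fun j x y =>
    Finset.le_sup' (fun j => F j x y) (Finset.mem_univ j)
  have hex : ∀ x y, ∃ j, f x y = F j x y := by
    intro x y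
    obtain ⟨j, _, hj⟩ := Finset.exists_mem_eq_sup' hne fun j => F j x y
    exact ⟨j, hj⟩
  have hfT : ∀ x y : ℝ, 0 < y → f x y ≤ f (x - 1) y := by
    intro x y hy
    obtain ⟨j, hj⟩ := hex x y
    obtain ⟨i, hi⟩ := hT j
    rw [hj]
    exact (hi x y hy).trans (hle i _ _)
  have hfS1 : ∀ x y : ℝ, 0 < y → f x y ≤ f (-x / (x ^ 2 + y ^ 2)) (y / (x ^ 2 + y ^ 2)) := by
    intro x y hy
    obtain ⟨j, hj⟩ := hex x y
    obtain ⟨i, hi⟩ := hS j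
    rw [hj]
    exact (hi x y hy).trans (hle i _ _)
  have hpos : ∀ x y : ℝ, 0 < y → 0 < y / (x ^ 2 + y ^ 2) := by
    intro x y hy
    positivity
  have hfS : ∀ x y : ℝ, 0 < y → f (-x / (x ^ 2 + y ^ 2)) (y / (x ^ 2 + y ^ 2)) = f x y := by
    intro x y hy
    apply le_antisymm _ (hfS1 x y hy)
    have h := hfS1 (-x / (x ^ 2 + y ^ 2)) (y / (x ^ 2 + y ^ 2)) (hpos x y hy)
    rwa [(Mxf_S_S hy).1, (Mxf_S_S hy).2] at h
  have hfT' : ∀ x y : ℝ, 0 < y → f (x + 1) y = f x y := by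
    intro x y hy
    apply le_antisymm
    · have h := hfT (x + 1) y hy
      rwa [add_sub_cancel_right] at h
    · have hb := hpos x y hy
      have h1 := hfT (-x / (x ^ 2 + y ^ 2)) (y / (x ^ 2 + y ^ 2)) hb
      rw [hfS x y hy, ← hfS (-x / (x ^ 2 + y ^ 2) - 1) (y / (x ^ 2 + y ^ 2)) hb] at h1
      have h2 := hfT (-(-x / (x ^ 2 + y ^ 2) - 1) /
        ((-x / (x ^ 2 + y ^ 2) - 1) ^ 2 + (y / (x ^ 2 + y ^ 2)) ^ 2))
        ((y / (x ^ 2 + y ^ 2)) /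
        ((-x / (x ^ 2 + y ^ 2) - 1) ^ 2 + (y / (x ^ 2 + y ^ 2)) ^ 2))
        (hpos _ _ hb)
      rw [(Mxf_rel hy).1, (Mxf_rel hy).2, hfS (x + 1) y hy] at h2
      rw [(Mxf_rel hy).2] at h1
      exact h1.trans h2
  have hfc : ContinuousOn (fun z : ℝ × ℝ => f z.1 z.2) {z : ℝ × ℝ | 0 < z.2} :=
    ContinuousOn.finset_sup'_apply hne fun j _ => hc j
  have hf0 : ∀ x y : ℝ, 0 < y → 0 ≤ f x y := fun x y hy => (h0 i₀ x y hy).trans (hle i₀ x y)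
  have hfcusp : ∀ ep : ℝ, 0 < ep → ∃ Y : ℝ, ∀ x y : ℝ, |x| ≤ 1 / 2 → Y ≤ y → f x y ≤ ep := by
    intro ep hep
    choose Y hY using fun i => hcusp i ep hep
    refine ⟨Finset.univ.sup' hne Y, fun x y hx hy => ?_⟩
    obtain ⟨j, hj⟩ := hex x y
    rw [hj]
    exact hY j x y hx ((Finset.le_sup' Y (Finset.mem_univ j)).trans hy)
  have hfv : VS f := by
    intro x y hy ep hep
    obtain ⟨j, hj⟩ := hex x y
    obtain ⟨s0, hs0, h⟩ := hv j x y hy ep hep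
    refine ⟨s0, hs0, fun s hs hss => ?_⟩
    rw [hj]
    have h1 := h s hs hss
    have a1 := hle j x (y * Real.exp s)
    have a2 := hle j x (y * Real.exp (-s))
    have a3 := hle j (x - y * Real.tanh s) (y / Real.cosh s)
    have a4 := hle j (x + y * Real.tanh s) (y / Real.cosh s)
    linarith
  intro x y hy
  have h := max_princ hfc hfT' hfS hf0 hfcusp hfv x y hy
  exact le_antisymm ((hle i₀ x y).trans h.le) (h0 i₀ x y hy)

end H80HM
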