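import Pool.Agent.H80.HM.Prp
import Pool.Agent.H80.HM.Nme

set_option autoImplicit false

/-!
# Row Ups: vanishing energy gives an invariant positive definite form

EE A B C x y = 0, y > 0: for every n there is H_n in Cl with Et x y H_n <= 1/(n+1), and by nrm also with det 1. ct x y is positive definite: q11 + q22 <= K qc (1,0)(0,1)(ct x y)
 (K = trace of ct x y: for a positive definite c of determinant 1, c - (1/K) 1 is positive semidefinite with K = c11 + c22; qc_mono at points of U), so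
 I_n := int (q11+q22)(H_n) <= K/(n+1). disp (row Dsp) with K_n := sqrt I_n-like, say K_n := 1/sqrt(n+1): measure of the bad set <= 3 K sqrt(n+1)/(n+1) < 1/2 = volume U for large
 n, so there is a good point x_n in U; h_n := H_n x_n, det 1, Cm2 L_n h_n (g h_n g*) for g = A, B, C with L_n = exp(8 sqrt K_n) -> 1, in particular L_n <= e^8 (Cmp is monotone in
 L since the forms are nonnegative). proper (row Prp) with L = e^8: Cm2 R h_n 1 for all large n. The entries of h_n are bounded (|h_ij| <= R by positivity and h <= R), so a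
 subsequence converges entrywise to h, Hermitian, x* h x >= |x|^2/R, so positive definite; in the limit Cm2 1 h (g h g*): x* h x = x* g h g* x for all x, so g h g* = h (Hermitian
 matrices with equal forms are equal).
-/

namespace H80HM

open Matrix MeasureTheory Set
open scoped ComplexOrder

/-- the quadratic form of h -/
private def Ups_f {m : ℕ} (h : Mt m) (x : Fin m → ℂ) : ℝ := (star x ⬝ᵥ (h *ᵥ x)).re

private theorem Ups_exp {m : ℕ} {M : Mt m} (hM : M.IsHermitian) (i j : Fin m) (c : ℂ) :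
    Ups_f M (Pi.single i c + Pi.single j 1) =
      ‖c‖ ^ 2 * (M i i).re + (M j j).re + 2 * (star c * M i j).re := by
  have hji : M j i = star (M i j) := by
    have h1 := congrFun (congrFun hM j) i
    rw [conjTranspose_apply] at h1
    exact h1.symm
  have h1 : star (Pi.single i c + Pi.single j 1 : Fin m → ℂ) ⬝ᵥ
      (M *ᵥ (Pi.single i c + Pi.single j 1)) =
      star c * c * M i i + M j j + (star c * M i j + star (M i j) * c) := by
    rw [← hji]
    have e1 : ∀ (k : Fin m) (z : ℂ), star (Pi.single k z : Fin m → ℂ) = Pi.single k (star z) := by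
      intro k z
      funext l
      by_cases h : l = k
      · subst h
        simp
      · simp [h]
    rw [star_add, e1, e1, mulVec_add, add_dotProduct, dotProduct_add, dotProduct_add,
      single_dotProduct, single_dotProduct, single_dotProduct, single_dotProduct,
      mulVec_single, mulVec_single]
    simp
    ring
  unfold Ups_f
  rw [h1]
  have h2 : star c * c = ((‖c‖ ^ 2 : ℝ) : ℂ) := by
    have := Complex.mul_conj c
    rw [Complex.normSq_eq_norm_sq] at this
    rw [mul_comm]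
    exact this
  have h3 : (star (M i j) * c).re = (star c * M i j).re := by
    have : star (M i j) * c = star (star c * M i j) := by
      rw [star_mul, star_star]
    rw [this]
    exact Complex.conj_re _
  rw [h2, Complex.add_re, Complex.add_re, Complex.re_ofReal_mul, Complex.add_re, h3]
  ring

private theorem Ups_zero {m : ℕ} {M : Mt m} (hM : M.IsHermitian) (h : ∀ x, Ups_f M x = 0) :
    M = 0 := by
  ext i j
  have h0 : ∀ k, (M k k).re = 0 := by
    intro k
    have h1 := Ups_exp hM k k 0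
    rw [h] at h1
    simp at h1
    exact h1.symm
  have h1 := Ups_exp hM i j (M i j)
  rw [h, h0, h0, mul_zero, zero_add, zero_add] at h1
  have h2 : star (M i j) * M i j = ((‖M i j‖ ^ 2 : ℝ) : ℂ) := by
    have := Complex.mul_conj (M i j)
    rw [Complex.normSq_eq_norm_sq] at this
    rw [mul_comm]
    exact this
  rw [h2, Complex.ofReal_re] at h1
  have h3 : ‖M i j‖ ^ 2 = 0 := by linarith
  have h4 : ‖M i j‖ = 0 := by
    exact pow_eq_zero_iff (two_ne_zero) |>.1 h3
  exact norm_eq_zero.1 h4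

private theorem Ups_entry {m : ℕ} {M : Mt m} (hM : M.IsHermitian) {R : ℝ}
    (h0 : ∀ x, 0 ≤ Ups_f M x) (hR : ∀ k, (M k k).re ≤ R) (i j : Fin m) : ‖M i j‖ ≤ R := by
  by_cases hz : M i j = 0
  · rw [hz, norm_zero]
    have h1 := Ups_exp hM i i 0
    simp at h1
    have h2 := h0 (Pi.single i 1)
    rw [h1] at h2
    exact h2.trans (hR i)
  · have hn : (‖M i j‖ : ℂ) ≠ 0 := by
      exact_mod_cast norm_ne_zero_iff.2 hz
    have h1 := Ups_exp hM i j (-(M i j) / (‖M i j‖ : ℂ))
    have h2 := h0 (Pi.single i (-(M i j) / (‖M i j‖ : ℂ)) + Pi.single j 1)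
    have h3 : ‖-(M i j) / (‖M i j‖ : ℂ)‖ = 1 := by
      rw [norm_div, norm_neg, Complex.norm_real, norm_norm]
      exact div_self (norm_ne_zero_iff.2 hz)
    have h4 : (star (-(M i j) / (‖M i j‖ : ℂ)) * M i j).re = -‖M i j‖ := by
      have h5 : star (-(M i j) / (‖M i j‖ : ℂ)) * M i j = ((-‖M i j‖ : ℝ) : ℂ) := by
        have h6 : star (M i j) * M i j = ((‖M i j‖ ^ 2 : ℝ) : ℂ) := by
          have := Complex.mul_conj (M i j)
          rw [Complex.normSq_eq_norm_sq] at this
          rw [mul_comm]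
          exact this
        have h7 : star ((‖M i j‖ : ℝ) : ℂ) = ((‖M i j‖ : ℝ) : ℂ) := Complex.conj_ofReal _
        rw [star_div₀, star_neg, h7, div_mul_eq_mul_div, neg_mul, h6, div_eq_iff hn]
        push_cast
        ring
      rw [h5, Complex.ofReal_re]
    rw [h1, h3, h4] at h2
    have h5 := hR i
    have h6 := hR j
    linarith

private theorem Ups_cont {m : ℕ} (x : Fin m → ℂ) : Continuous fun M : Mt m => Ups_f M x := by
  unfold Ups_f
  refine Complex.continuous_re.comp ?_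
  exact Continuous.dotProduct continuous_const (Continuous.matrix_mulVec continuous_id
    continuous_const)

private theorem Ups_psd {x y : ℝ} (hy : 0 < y) :
    Psd ((((x ^ 2 + y ^ 2) / y + 1 / y) * (ct x y).1) - 1,
      (((x ^ 2 + y ^ 2) / y + 1 / y) * (ct x y).2.1) - 0,
      (((x ^ 2 + y ^ 2) / y + 1 / y) * (ct x y).2.2) - 1) := by
  have hy0 : y ≠ 0 := hy.ne'
  have e1 : ((x ^ 2 + y ^ 2) / y + 1 / y) * ((x ^ 2 + y ^ 2) / y) - 1 =
      ((x ^ 2 + y ^ 2) ^ 2 + x ^ 2) / y ^ 2 := by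
    field_simp
    ring
  have e2 : ((x ^ 2 + y ^ 2) / y + 1 / y) * (1 / y) - 1 = (x ^ 2 + 1) / y ^ 2 := by
    field_simp
    ring
  refine ⟨?_, ?_, ?_⟩
  · show 0 ≤ ((x ^ 2 + y ^ 2) / y + 1 / y) * ((x ^ 2 + y ^ 2) / y) - 1
    rw [e1]
    positivity
  · show 0 ≤ ((x ^ 2 + y ^ 2) / y + 1 / y) * (1 / y) - 1
    rw [e2]
    positivity
  · show (((x ^ 2 + y ^ 2) / y + 1 / y) * (-x / y) - 0) ^ 2 ≤
      (((x ^ 2 + y ^ 2) / y + 1 / y) * ((x ^ 2 + y ^ 2) / y) - 1) *
      (((x ^ 2 + y ^ 2) / y + 1 / y) * (1 / y) - 1)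
    rw [e1, e2]
    have e3 : ((x ^ 2 + y ^ 2) ^ 2 + x ^ 2) / y ^ 2 * ((x ^ 2 + 1) / y ^ 2) -
        (((x ^ 2 + y ^ 2) / y + 1 / y) * (-x / y) - 0) ^ 2 = 1 := by
      field_simp
      ring
    linarith

private theorem Ups_I {m : ℕ} {A B C : Mt m} {H : ℝ × ℝ → Mt m} (hH : Cl A B C H) (x : ℝ)
    {y : ℝ} (hy : 0 < y) : ∫ z in U, (q (1, 0) (1, 0) H z + q (0, 1) (0, 1) H z) ≤
      ((x ^ 2 + y ^ 2) / y + 1 / y) * Et x y H := by
  set T : ℝ := (x ^ 2 + y ^ 2) / y + 1 / y with hT
  have h1 := en_mono hH (1, 0) (0, 1) (c := (1, 0, 1))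
    (c' := (T * (ct x y).1, T * (ct x y).2.1, T * (ct x y).2.2)) (Ups_psd hy)
  rw [en_lin hH, en_lin hH] at h1
  rw [integral_add (q_int hH _ _) (q_int hH _ _), Et, en_lin hH]
  simp only at h1
  linarith

private theorem Ups_pt {m : ℕ} {A B C : Mt m} (hm : 0 < m) (hA : ‖A.det‖ = 1)
    (hB : ‖B.det‖ = 1) (hC : ‖C.det‖ = 1) (hne : ∃ H, Cl A B C H)
    {x y : ℝ} (hy : 0 < y) (h0 : EE A B C x y = 0) {κ : ℝ} (hκ : 0 < κ) :
    ∃ h : Mt m, h.PosDef ∧ h.det = 1 ∧
      Cm2 (Real.exp (8 * Real.sqrt κ)) h (A * h * Aᴴ) ∧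
      Cm2 (Real.exp (8 * Real.sqrt κ)) h (B * h * Bᴴ) ∧
      Cm2 (Real.exp (8 * Real.sqrt κ)) h (C * h * Cᴴ) := by
  set T : ℝ := (x ^ 2 + y ^ 2) / y + 1 / y with hT
  have hT0 : 0 < T := by positivity
  obtain ⟨H, hH, hHE⟩ := ee_near hne x hy (ep := κ / (12 * T)) (by positivity)
  rw [h0, zero_add] at hHE
  obtain ⟨H', hH', hdet, hle⟩ := nrm hm hA hB hC hH
  have h1 : Et x y H' ≤ κ / (12 * T) := (hle _ _ _ (ct_psd x hy)).trans hHE
  have h2 : ∫ z in U, (q (1, 0) (1, 0) H' z + q (0, 1) (0, 1) H' z) ≤ κ / 12 := by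
    refine (Ups_I hH' x hy).trans ?_
    calc T * Et x y H' ≤ T * (κ / (12 * T)) := mul_le_mul_of_nonneg_left h1 hT0.le
      _ = κ / 12 := by field_simp
  obtain ⟨S, -, -, hS, hgood⟩ := disp hH' h2 hκ
  have h3 : 3 * (κ / 12) / κ = 1 / 4 := by
    field_simp
    norm_num
  rw [h3] at hS
  have hvol : volume U = ENNReal.ofReal (1 / 2) := by
    unfold U
    rw [Measure.volume_eq_prod, Measure.prod_prod, Real.volume_Ioo, Real.volume_Ioo]
    norm_num
  obtain ⟨z, hz⟩ : (U \ S).Nonempty := by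
    by_contra hcon
    rw [Set.not_nonempty_iff_eq_empty, Set.diff_eq_empty] at hcon
    have h4 := (measure_mono hcon).trans hS
    rw [hvol, ENNReal.ofReal_le_ofReal_iff (by norm_num)] at h4
    norm_num at h4
  have hzD := u_sub hz.1
  obtain ⟨-, g1, g2, g3, -⟩ := hgood z hz
  exact ⟨H' z, hH'.pos z hzD, hdet z hzD, g1, g2, g3⟩

private theorem Ups_mono {m : ℕ} {L L' : ℝ} (hL : L ≤ L') {h G : Mt m} (hG : G.PosSemidef)
    (h1 : Cmp L h G) : Cmp L' h G := by
  intro x
  refine (h1 x).trans (mul_le_mul_of_nonneg_right hL ?_)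
  have h2 := hG.dotProduct_mulVec_nonneg x
  exact (Complex.le_def.1 h2).1

private theorem Ups_conj {m : ℕ} {h : Mt m} (hh : h.PosDef) (M : Mt m) :
    (M * h * Mᴴ).PosSemidef := hh.posSemidef.mul_mul_conjTranspose_same M

theorem unitarizable {m : ℕ} {A B C : Mt m} (hm : 0 < m) (hA : ‖A.det‖ = 1)
    (hB : ‖B.det‖ = 1) (hC : ‖C.det‖ = 1)
    (hirr : Algebra.adjoin ℂ ({A, B, C} : Set (Mt m)) = ⊤) (hne : ∃ H, Cl A B C H)
    {x y : ℝ} (hy : 0 < y) (h0 : EE A B C x y = 0) :
    ∃ h : Mt m, h.PosDef ∧ A * h * Aᴴ = h ∧ B * h * Bᴴ = h ∧ C * h * Cᴴ = h := by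
  have key : ∀ n : ℕ, ∃ h : Mt m, h.PosDef ∧ h.det = 1 ∧
      Cm2 (Real.exp (8 * Real.sqrt (1 / ((n : ℝ) + 1)))) h (A * h * Aᴴ) ∧
      Cm2 (Real.exp (8 * Real.sqrt (1 / ((n : ℝ) + 1)))) h (B * h * Bᴴ) ∧
      Cm2 (Real.exp (8 * Real.sqrt (1 / ((n : ℝ) + 1)))) h (C * h * Cᴴ) := fun n =>
    Ups_pt hm hA hB hC hne hy h0 (by positivity)
  choose h hpos hdet gA gB gC using key
  obtain ⟨R, hR0, hR⟩ := proper hm hirr (Real.exp (8 * 1))
  have hL : ∀ n : ℕ, Real.exp (8 * Real.sqrt (1 / ((n : ℝ) + 1))) ≤ Real.exp (8 * 1) := by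
    intro n
    refine Real.exp_le_exp.2 (mul_le_mul_of_nonneg_left ?_ (by norm_num))
    refine Real.sqrt_le_iff.2 ⟨zero_le_one, ?_⟩
    rw [one_pow, div_le_one (by positivity)]
    have : (0 : ℝ) ≤ n := by positivity
    linarith
  have hCm : ∀ n, Cm2 R (h n) 1 := by
    intro n
    have aux : ∀ M : Mt m, Cm2 (Real.exp (8 * Real.sqrt (1 / ((n : ℝ) + 1)))) (h n)
        (M * h n * Mᴴ) → Cm2 (Real.exp (8 * 1)) (h n) (M * h n * Mᴴ) := fun M hM =>
      ⟨Ups_mono (hL n) (Ups_conj (hpos n) M) hM.1, Ups_mono (hL n) (hpos n).posSemidef hM.2⟩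
    exact hR (h n) (hpos n) (hdet n) (aux A (gA n)) (aux B (gB n)) (aux C (gC n))
  -- entries are bounded
  have hent : ∀ n i j, ‖h n i j‖ ≤ R := by
    intro n i j
    refine Ups_entry (hpos n).isHermitian (fun x => ?_) (fun k => ?_) i j
    · have h2 := (hpos n).posSemidef.dotProduct_mulVec_nonneg x
      exact (Complex.le_def.1 h2).1
    · have h1 := (hCm n).1 (Pi.single k 1)
      have h2 := Ups_exp (hpos n).isHermitian k k 0
      have h3 := Ups_exp (m := m) (M := 1) Matrix.isHermitian_one k k 0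
      simp only [Pi.single_zero, zero_add, norm_zero, ne_eq, OfNat.ofNat_ne_zero,
        not_false_eq_true, zero_pow, zero_mul, star_zero, Complex.zero_re, mul_zero,
        add_zero, Matrix.one_apply_eq, Complex.one_re] at h2 h3
      unfold Ups_f at h2 h3
      rw [h2, h3, mul_one] at h1
      exact h1
  -- a convergent subsequence
  let u : ℕ → (Fin m → Fin m → ℂ) := fun n => h n
  obtain ⟨g0, -, φ, hφ, hlim⟩ := tendsto_subseq_of_bounded
    (s := Metric.closedBall (0 : Fin m → Fin m → ℂ) R) Metric.isBounded_closedBall (x := u)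
    (fun n => by
      rw [mem_closedBall_zero_iff, pi_norm_le_iff_of_nonneg hR0.le]
      intro i
      rw [pi_norm_le_iff_of_nonneg hR0.le]
      intro j
      exact hent n i j)
  obtain ⟨g, hg⟩ : ∃ g : Mt m, g = g0 := ⟨g0, rfl⟩
  have hlim' : Filter.Tendsto (fun n => h (φ n)) Filter.atTop (nhds g) := by
    rw [hg]
    exact hlim
  have hf : ∀ x, Filter.Tendsto (fun n => Ups_f (h (φ n)) x) Filter.atTop (nhds (Ups_f g x)) :=
    fun x => ((Ups_cont x).tendsto g).comp hlim'
  have hherm : g.IsHermitian := by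
    have h1 : Filter.Tendsto (fun n => (h (φ n))ᴴ) Filter.atTop (nhds gᴴ) :=
      (Continuous.matrix_conjTranspose continuous_id).tendsto g |>.comp hlim'
    have h2 : (fun n => (h (φ n))ᴴ) = fun n => h (φ n) := by
      funext n
      exact (hpos (φ n)).isHermitian
    rw [h2] at h1
    exact tendsto_nhds_unique h1 hlim'
  have hlow : ∀ x, Ups_f 1 x ≤ R * Ups_f g x := by
    intro x
    refine le_of_tendsto_of_tendsto' (tendsto_const_nhds) ((hf x).const_mul R) fun n => ?_
    exact (hCm (φ n)).2 x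
  have hgpos : g.PosDef := by
    refine Matrix.PosDef.of_dotProduct_mulVec_pos hherm fun x hx => ?_
    have h1 := hlow x
    have h2 : 0 < Ups_f (1 : Mt m) x := by
      have h3 := (Matrix.PosDef.one (n := Fin m) (R := ℂ)).dotProduct_mulVec_pos hx
      exact (Complex.lt_def.1 h3).1
    have h3 : 0 < Ups_f g x := by
      by_contra hcon
      push Not at hcon
      nlinarith
    rw [Complex.lt_def]
    refine ⟨h3, ?_⟩
    have h4 := hherm.im_star_dotProduct_mulVec_self x
    exact h4.symm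
  -- the constants tend to one
  have hLlim : Filter.Tendsto (fun n : ℕ => Real.exp (8 * Real.sqrt (1 / ((φ n : ℝ) + 1))))
      Filter.atTop (nhds 1) := by
    have h1 : Filter.Tendsto (fun n : ℕ => 1 / ((n : ℝ) + 1)) Filter.atTop (nhds 0) :=
      tendsto_one_div_add_atTop_nhds_zero_nat
    have h2 : Continuous fun t : ℝ => Real.exp (8 * Real.sqrt t) := by fun_prop
    have h3 : Filter.Tendsto (fun n : ℕ => Real.exp (8 * Real.sqrt (1 / ((φ n : ℝ) + 1))))
        Filter.atTop (nhds (Real.exp (8 * Real.sqrt 0))) :=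
      (h2.tendsto 0).comp (h1.comp hφ.tendsto_atTop)
    rw [Real.sqrt_zero, mul_zero, Real.exp_zero] at h3
    exact h3
  have hinv : ∀ M : Mt m, (∀ n : ℕ, Cm2 (Real.exp (8 * Real.sqrt (1 / ((n : ℝ) + 1)))) (h n)
      (M * h n * Mᴴ)) → M * g * Mᴴ = g := by
    intro M hM
    have hc : Continuous fun X : Mt m => M * X * Mᴴ :=
      (Continuous.matrix_mul (Continuous.matrix_mul continuous_const continuous_id)
        continuous_const)
    have hf2 : ∀ x, Filter.Tendsto (fun n => Ups_f (M * h (φ n) * Mᴴ) x) Filter.atTop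
        (nhds (Ups_f (M * g * Mᴴ) x)) := fun x =>
      (((Ups_cont x).comp hc).tendsto g).comp hlim'
    have h1 : ∀ x, Ups_f g x ≤ Ups_f (M * g * Mᴴ) x := by
      intro x
      have h2 := hLlim.mul (hf2 x)
      rw [one_mul] at h2
      exact le_of_tendsto_of_tendsto' (hf x) h2 fun n => (hM (φ n)).1 x
    have h2 : ∀ x, Ups_f (M * g * Mᴴ) x ≤ Ups_f g x := by
      intro x
      have h2 := hLlim.mul (hf x)
      rw [one_mul] at h2
      exact le_of_tendsto_of_tendsto' (hf2 x) h2 fun n => (hM (φ n)).2 x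
    have h3 : (M * g * Mᴴ - g).IsHermitian :=
      (Matrix.isHermitian_mul_mul_conjTranspose M hherm).sub hherm
    have h4 := Ups_zero h3 fun x => by
      have h5 : Ups_f (M * g * Mᴴ - g) x = Ups_f (M * g * Mᴴ) x - Ups_f g x := by
        unfold Ups_f
        rw [sub_mulVec, dotProduct_sub, Complex.sub_re]
      rw [h5, sub_eq_zero]
      exact le_antisymm (h2 x) (h1 x)
    exact sub_eq_zero.1 h4
  exact ⟨g, hgpos, hinv A gA, hinv B gB, hinv C gC⟩

end H80HM
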