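import Pool.Agent.H80.HM.Defs

set_option autoImplicit false

/-!
# Row Tru: existence of the truncation function

For M > 0 let th(t) := max 0 (min 1 (2 - 2|t|/M)) (continuous, even, values in [0,1], 1 for |t| <= M/2, 0 for |t| >= M) and phi(t) := int_0^t th. Then phi is C^1 with
phi' = th (fundamental theorem of calculus; contDiff_one_iff_deriv), odd (th even), phi = id on [-M/2,M/2], |phi(t)| <= int_0^M th = M/2 + M/4 <= M.
-/

namespace H80HM

/-- the derivative of the truncation function -/
noncomputable def Tru_th (M t : ℝ) : ℝ := max 0 (min 1 (2 - 2 * |t| / M))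

lemma Tru_cont (M : ℝ) : Continuous (Tru_th M) := by
  unfold Tru_th
  fun_prop

lemma Tru_nonneg (M t : ℝ) : 0 ≤ Tru_th M t := le_max_left _ _

lemma Tru_le_one (M t : ℝ) : Tru_th M t ≤ 1 := max_le zero_le_one (min_le_left _ _)

lemma Tru_neg (M t : ℝ) : Tru_th M (-t) = Tru_th M t := by
  unfold Tru_th
  rw [abs_neg]

lemma Tru_one {M t : ℝ} (hM : 0 < M) (h : |t| ≤ M / 2) : Tru_th M t = 1 := by
  unfold Tru_th
  have h1 : 2 * |t| / M ≤ 1 := by
    rw [div_le_one hM]
    linarith
  rw [min_eq_left (by linarith), max_eq_right zero_le_one]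

lemma Tru_zero {M t : ℝ} (hM : 0 < M) (h : M ≤ |t|) : Tru_th M t = 0 := by
  unfold Tru_th
  have h1 : 2 ≤ 2 * |t| / M := by
    rw [le_div_iff₀ hM]
    linarith
  exact max_eq_left ((min_le_right _ _).trans (by linarith))

/-- the truncation function -/
noncomputable def Tru_phi (M t : ℝ) : ℝ := ∫ s in (0:ℝ)..t, Tru_th M s

lemma Tru_hasDeriv (M t : ℝ) : HasDerivAt (Tru_phi M) (Tru_th M t) t :=
  ((Tru_cont M).integral_hasStrictDerivAt 0 t).hasDerivAt

lemma Tru_odd (M t : ℝ) : Tru_phi M (-t) = - Tru_phi M t := by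
  unfold Tru_phi
  have h1 := intervalIntegral.integral_comp_neg (a := 0) (b := -t) (Tru_th M)
  simp only [Tru_neg, neg_neg, neg_zero] at h1
  rw [h1, intervalIntegral.integral_symm]

lemma Tru_bd_nonneg {M t : ℝ} (hM : 0 < M) (ht : 0 ≤ t) : |Tru_phi M t| ≤ M := by
  have key : ∀ u, 0 ≤ u → u ≤ M → |Tru_phi M u| ≤ M := by
    intro u hu huM
    have h1 := intervalIntegral.norm_integral_le_of_norm_le_const (a := 0) (b := u) (C := 1)
      (f := Tru_th M) (fun x _ => by
        rw [Real.norm_eq_abs, abs_of_nonneg (Tru_nonneg M x)]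
        exact Tru_le_one M x)
    rw [Real.norm_eq_abs, sub_zero, one_mul, abs_of_nonneg hu] at h1
    exact h1.trans huM
  rcases le_total t M with h | h
  · exact key t ht h
  · have h2 : Tru_phi M t = Tru_phi M M := by
      unfold Tru_phi
      rw [← intervalIntegral.integral_add_adjacent_intervals
        ((Tru_cont M).intervalIntegrable 0 M) ((Tru_cont M).intervalIntegrable M t)]
      have h3 : ∫ s in M..t, Tru_th M s = ∫ s in M..t, (0 : ℝ) := by
        refine intervalIntegral.integral_congr fun x hx => ?_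
        rw [Set.uIcc_of_le h] at hx
        exact Tru_zero hM (hx.1.trans (le_abs_self x))
      rw [h3, intervalIntegral.integral_zero, add_zero]
    rw [h2]
    exact key M hM.le le_rfl

theorem exists_tr {M : ℝ} (hM : 0 < M) : ∃ phi : ℝ → ℝ, Tr M phi := by
  have hd : deriv (Tru_phi M) = Tru_th M := funext fun t => (Tru_hasDeriv M t).deriv
  refine ⟨Tru_phi M, ?_, Tru_odd M, ?_, ?_, ?_, ?_⟩
  · rw [contDiff_one_iff_deriv]
    exact ⟨fun t => (Tru_hasDeriv M t).differentiableAt, by rw [hd]; exact Tru_cont M⟩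
  · intro t
    rw [hd]
    exact Tru_nonneg M t
  · intro t
    rw [hd]
    exact Tru_le_one M t
  · intro t ht
    unfold Tru_phi
    have h3 : ∫ s in (0:ℝ)..t, Tru_th M s = ∫ s in (0:ℝ)..t, (1 : ℝ) := by
      refine intervalIntegral.integral_congr fun x hx => ?_
      refine Tru_one hM (le_trans ?_ ht)
      rcases le_total 0 t with h | h
      · rw [Set.uIcc_of_le h] at hx
        rw [abs_of_nonneg hx.1, abs_of_nonneg h]
        exact hx.2
      · rw [Set.uIcc_of_ge h] at hx
        rw [abs_of_nonpos hx.2, abs_of_nonpos h]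
        linarith [hx.1]
    rw [h3]
    simp
  · intro t
    rcases le_total 0 t with h | h
    · exact Tru_bd_nonneg hM h
    · have h1 := Tru_bd_nonneg hM (t := -t) (by linarith)
      rwa [Tru_odd, abs_neg] at h1

end H80HM
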