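import Pool.Agent.H80.HM.Mea
import Pool.Agent.H80.HM.Alg

set_option autoImplicit false

/-!
# Row Nf1: near-minimisers are nearly critical

H an ep-near-minimiser of the form (1,0,1) in the frame e, f; Z a field with the conjugation gluing, H-selfadjoint, n2 H Z <= Mz^2.
For |t| <= 1/(2(Mz+1)) the matrix g = 1 + tZ is invertible (with H = QQ*, z = Q^{-1}ZQ Hermitian, |z| <= Mz, |tz| <= 1/2), G := g H g* is positive
definite, Lz (lz_mul, lz_add, lz_star), and has the metric gluing: g(1,v) = 1 + tCZ(0,v)C^{-1} = C g(0,v) C^{-1}, so G(1,v) = C g H g* C*.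
Density: at a.e. x: d_i G = (dg)Hg* + g(d_iH)g* + gH(dg)*, so g^{-1} (aa_i G) g = a_i + (Y + Y^+)/2, Y = g^{-1} d_i g = t g^{-1} d_i Z, ^+ = adj (H x).
 Hence q_ii(G) = Re tr((a + (Y+Y^+)/2)^2) = q_ii(H) + 2 Re tr(a Y) + tr(((Y+Y^+)/2)^2) <= q_ii(H) + 2Re tr(aY) + n2 Y   (tr(aY^+) = conj tr(aY)).
 Re tr(aY) = t Re tr(a dZ) + t Re tr(a (g^{-1}-1) dZ), g^{-1} - 1 = -t g^{-1} Z, operator norm of Q^{-1}g^{-1}Q at most 2:
 |Re tr(a(g^{-1}-1)dZ)| <= 2|t| Mz sqrt(q_ii) sqrt(dn_i), n2 Y <= 4t^2 dn_i.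
 So q_ii(G) <= q_ii(H) + 2t ln_ii + 4t^2 (Mz sqrt(q_ii dn_i) + dn_i). All terms are integrable (ln_abs for ln), so G is in Cl (fin) and
 (Cauchy-Schwarz: int sum_i sqrt(q_ii dn_i) <= sqrt(E L)) En G <= E + 2t I + 4t^2 (Mz sqrt(E L) + L), I = int (ln e e + ln f f), E = En H.
Near-minimality: En G >= E - ep, so 2t I >= -ep - 4t^2(..) for t of both signs: 2|t||I| <= ep + 4t^2(..), |I| <= ep/(2t) + 2t(..) for t > 0.
(For fin of G in the standard frame: the inequality for q_ii(G) holds for every direction, in particular for (1,0) and (0,1); if dn is integrable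
 in the directions e, f with e.1 f.2 - e.2 f.1 = 1 then it is in the directions (1,0), (0,1), which are combinations of e and f; n2_tri, pd_lin.)
-/

namespace H80HM

open Matrix MeasureTheory Set
open scoped ComplexOrder

private theorem Nf1_isUnit {m : ℕ} {H : Mt m} (hH : H.PosDef) : IsUnit H.det :=
  (Matrix.isUnit_iff_isUnit_det _).1 hH.isUnit

private theorem Nf1_zero {m : ℕ} {H V : Mt m} (hH : H.PosDef) (h : n2 H V ≤ 0) : V = 0 := by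
  obtain ⟨Q, lam, hf⟩ := exists_fr hH hH
  obtain ⟨h1, h2, -, -⟩ := Sib_inv hf.1
  rw [n2_eq hf.1 hf.2.1] at h
  have h3 : ∀ i j, ‖(Q⁻¹ * V * Q) i j‖ ^ 2 = 0 := by
    have h4 : ∑ i, ∑ j, ‖(Q⁻¹ * V * Q) i j‖ ^ 2 = 0 :=
      le_antisymm h (Finset.sum_nonneg fun i _ => Finset.sum_nonneg fun j _ => sq_nonneg _)
    intro i j
    have h5 := (Finset.sum_eq_zero_iff_of_nonneg
      (fun i _ => Finset.sum_nonneg fun j _ => sq_nonneg _)).1 h4 i (Finset.mem_univ _)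
    exact (Finset.sum_eq_zero_iff_of_nonneg (fun j _ => sq_nonneg _)).1 h5 j (Finset.mem_univ _)
  have h6 : Q⁻¹ * V * Q = 0 := by
    ext i j
    simpa using h3 i j
  calc V = (Q * Q⁻¹) * V * (Q * Q⁻¹) := by rw [h2, Matrix.one_mul, Matrix.mul_one]
    _ = Q * (Q⁻¹ * V * Q) * Q⁻¹ := by simp only [Matrix.mul_assoc]
    _ = 0 := by rw [h6, Matrix.mul_zero, Matrix.zero_mul]

private theorem Nf1_op {m : ℕ} {H Z : Mt m} (hH : H.PosDef) {Mz τ : ℝ} (hMz : 0 ≤ Mz)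
    (hZ : n2 H Z ≤ Mz ^ 2) (hτ : |τ| * Mz ≤ 1 / 2) (V : Mt m) :
    n2 H V ≤ 4 * n2 H (((1 : ℂ) • (1 : Mt m) + (τ : ℂ) • Z) * V) := by
  set W := ((1 : ℂ) • (1 : Mt m) + (τ : ℂ) • Z) * V with hW
  have h1 : W + (-(τ : ℂ)) • (Z * V) = V := by
    rw [hW, one_smul, Matrix.add_mul, Matrix.one_mul, Matrix.smul_mul, neg_smul,
      add_neg_cancel_right]
  have h2 := n2_tri hH W ((-(τ : ℂ)) • (Z * V))
  rw [h1, n2_smul] at h2
  have h3 := n2_mul hH Z V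
  have h4 : ‖-(τ : ℂ)‖ ^ 2 = τ ^ 2 := by
    rw [norm_neg, Complex.norm_real, Real.norm_eq_abs, sq_abs]
  rw [h4] at h2
  have hV := n2_nonneg hH V
  have h5 : τ ^ 2 * n2 H (Z * V) ≤ 1 / 4 * n2 H V := by
    have h6 : τ ^ 2 * Mz ^ 2 ≤ 1 / 4 := by
      have h7 : (|τ| * Mz) ^ 2 ≤ (1 / 2) ^ 2 :=
        pow_le_pow_left₀ (mul_nonneg (abs_nonneg _) hMz) hτ 2
      rw [mul_pow, sq_abs] at h7
      linarith
    calc τ ^ 2 * n2 H (Z * V) ≤ τ ^ 2 * (n2 H Z * n2 H V) :=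
          mul_le_mul_of_nonneg_left h3 (sq_nonneg _)
      _ ≤ τ ^ 2 * (Mz ^ 2 * n2 H V) :=
          mul_le_mul_of_nonneg_left (mul_le_mul_of_nonneg_right hZ hV) (sq_nonneg _)
      _ = (τ ^ 2 * Mz ^ 2) * n2 H V := by ring
      _ ≤ 1 / 4 * n2 H V := mul_le_mul_of_nonneg_right h6 hV
  linarith

private theorem Nf1_det {m : ℕ} {H Z : Mt m} (hH : H.PosDef) {Mz τ : ℝ} (hMz : 0 ≤ Mz)
    (hZ : n2 H Z ≤ Mz ^ 2) (hτ : |τ| * Mz ≤ 1 / 2) :
    IsUnit ((1 : ℂ) • (1 : Mt m) + (τ : ℂ) • Z).det := by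
  rw [isUnit_iff_ne_zero]
  intro h0
  obtain ⟨v, hv, hv0⟩ := Matrix.exists_mulVec_eq_zero_iff.2 h0
  have h1 : ((1 : ℂ) • (1 : Mt m) + (τ : ℂ) • Z) * (Matrix.of fun i (_ : Fin m) => v i) = 0 := by
    ext i j
    have h := congrFun hv0 i
    rw [Matrix.mul_apply]
    exact h
  have h2 := Nf1_op hH hMz hZ hτ (Matrix.of fun i (_ : Fin m) => v i)
  rw [h1] at h2
  have h3 : n2 H (0 : Mt m) = 0 := by simp [n2]
  rw [h3, mul_zero] at h2
  have h4 := Nf1_zero hH h2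
  apply hv
  funext i
  exact congrFun (congrFun h4 i) i

private theorem Nf1_sa {m : ℕ} {H S : Mt m} (hu : IsUnit H.det) (h : S * H = H * Sᴴ) :
    (trace (S * S)).re = n2 H S := by
  have h1 : H * Sᴴ * H⁻¹ = S := by rw [← h, Matrix.mul_nonsing_inv_cancel_right _ _ hu]
  have h2 : S * H * Sᴴ * H⁻¹ = S * (H * Sᴴ * H⁻¹) := by simp only [Matrix.mul_assoc]
  unfold n2
  rw [h2, h1]

private theorem Nf1_adj_sa {m : ℕ} {H : Mt m} (hH : H.PosDef) (Y : Mt m) (c : ℝ) :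
    ((c : ℂ) • (Y + adj H Y)) * H = H * ((c : ℂ) • (Y + adj H Y))ᴴ := by
  have hu := Nf1_isUnit hH
  have h1 : adj H Y * H = H * Yᴴ := by
    unfold adj
    rw [Matrix.nonsing_inv_mul_cancel_right _ _ hu]
  have h2 : H * (adj H Y)ᴴ = Y * H := by
    unfold adj
    rw [conjTranspose_mul, conjTranspose_mul, conjTranspose_conjTranspose,
      conjTranspose_nonsing_inv, hH.isHermitian.eq, Matrix.mul_nonsing_inv_cancel_left _ _ hu]
  rw [Matrix.smul_mul, Matrix.add_mul, h1, conjTranspose_smul, Matrix.mul_smul,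
    conjTranspose_add, Matrix.mul_add, h2, add_comm]
  simp

private theorem Nf1_tr_adj {m : ℕ} {H a : Mt m} (hu : IsUnit H.det) (ha : a * H = H * aᴴ)
    (Y : Mt m) : (trace (a * adj H Y)).re = (trace (a * Y)).re := by
  have h1 : a * adj H Y = H * (aᴴ * Yᴴ) * H⁻¹ := by
    unfold adj
    rw [← Matrix.mul_assoc, ← Matrix.mul_assoc, ha]
    simp only [Matrix.mul_assoc]
  rw [h1, Matrix.trace_mul_comm, ← Matrix.mul_assoc, Matrix.nonsing_inv_mul _ hu, Matrix.one_mul,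
    ← conjTranspose_mul, trace_conjTranspose, trace_mul_comm]
  simp

private theorem Nf1_alg {m : ℕ} {H a : Mt m} (hH : H.PosDef) (ha : a * H = H * aᴴ) (Y : Mt m) :
    (trace ((a + ((1 / 2 : ℝ) : ℂ) • (Y + adj H Y)) *
      (a + ((1 / 2 : ℝ) : ℂ) • (Y + adj H Y)))).re ≤
      (trace (a * a)).re + 2 * (trace (a * Y)).re + n2 H Y := by
  have hu := Nf1_isUnit hH
  have h1 : (trace ((((1 / 2 : ℝ) : ℂ) • (Y + adj H Y)) *
      (((1 / 2 : ℝ) : ℂ) • (Y + adj H Y)))).re ≤ n2 H Y := by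
    rw [Nf1_sa hu (Nf1_adj_sa hH Y (1 / 2)), n2_smul]
    have h := n2_tri hH Y (adj H Y)
    rw [n2_adj hH] at h
    have h0 : ‖((1 / 2 : ℝ) : ℂ)‖ ^ 2 = 1 / 4 := by
      rw [Complex.norm_real, Real.norm_eq_abs, sq_abs]
      norm_num
    rw [h0]
    linarith
  have h2 : (trace (a * (((1 / 2 : ℝ) : ℂ) • (Y + adj H Y)))).re = (trace (a * Y)).re := by
    rw [Matrix.mul_smul, trace_smul, Matrix.mul_add, trace_add, smul_eq_mul,
      Complex.re_ofReal_mul, Complex.add_re, Nf1_tr_adj hu ha]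
    ring
  set S := ((1 / 2 : ℝ) : ℂ) • (Y + adj H Y)
  have h3 : (trace (S * a)).re = (trace (a * S)).re := by rw [trace_mul_comm]
  rw [Matrix.add_mul, Matrix.mul_add, Matrix.mul_add, trace_add, trace_add, trace_add,
    Complex.add_re, Complex.add_re, Complex.add_re]
  linarith

private theorem Nf1_pt {m : ℕ} {H a Z W : Mt m} (hH : H.PosDef) {Mz τ : ℝ} (hMz : 0 ≤ Mz)
    (hZ : n2 H Z ≤ Mz ^ 2) (hτ : |τ| * Mz ≤ 1 / 2) :
    2 * (trace (a * (((1 : ℂ) • (1 : Mt m) + (τ : ℂ) • Z)⁻¹ * ((τ : ℂ) • W)))).re +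
      n2 H (((1 : ℂ) • (1 : Mt m) + (τ : ℂ) • Z)⁻¹ * ((τ : ℂ) • W)) ≤
     2 * τ * (trace (a * W)).re +
      4 * τ ^ 2 * (Mz * (Real.sqrt (n2 H a) * Real.sqrt (n2 H W)) + n2 H W) := by
  have hu := Nf1_det hH hMz hZ hτ
  have hop := Nf1_op hH hMz hZ hτ
  have hgW : ((1 : ℂ) • (1 : Mt m) + (τ : ℂ) • Z) * W = W + (τ : ℂ) • (Z * W) := by
    rw [one_smul, Matrix.add_mul, Matrix.one_mul, Matrix.smul_mul]
  set g := (1 : ℂ) • (1 : Mt m) + (τ : ℂ) • Z with hg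
  have hinv : ∀ X, n2 H (g⁻¹ * X) ≤ 4 * n2 H X := by
    intro X
    have h := hop (g⁻¹ * X)
    rwa [Matrix.mul_nonsing_inv_cancel_left _ _ hu] at h
  have hW := n2_nonneg hH W
  have h1 : g⁻¹ * ((τ : ℂ) • W) = (τ : ℂ) • W + (((-(τ ^ 2) : ℝ)) : ℂ) • (g⁻¹ * (Z * W)) := by
    have h2 : g⁻¹ * W = W - (τ : ℂ) • (g⁻¹ * (Z * W)) := by
      have h3 : g⁻¹ * (g * W) = W := Matrix.nonsing_inv_mul_cancel_left _ _ hu
      rw [hgW, Matrix.mul_add, Matrix.mul_smul] at h3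
      rw [eq_sub_iff_add_eq]
      exact h3
    rw [Matrix.mul_smul, h2, smul_sub, smul_smul, sub_eq_add_neg, ← neg_smul]
    congr 2
    push_cast
    ring
  have h2 : |(trace (a * (g⁻¹ * (Z * W)))).re| ≤
      2 * (Mz * (Real.sqrt (n2 H a) * Real.sqrt (n2 H W))) := by
    have h3 := (Complex.abs_re_le_norm _).trans (tr_cs hH a (g⁻¹ * (Z * W)))
    have h4 : Real.sqrt (n2 H (g⁻¹ * (Z * W))) ≤ 2 * Mz * Real.sqrt (n2 H W) := by
      have h5 : n2 H (g⁻¹ * (Z * W)) ≤ (2 * Mz) ^ 2 * n2 H W := by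
        calc n2 H (g⁻¹ * (Z * W)) ≤ 4 * n2 H (Z * W) := hinv _
          _ ≤ 4 * (n2 H Z * n2 H W) := by linarith [n2_mul hH Z W]
          _ ≤ 4 * (Mz ^ 2 * n2 H W) := by
            have := mul_le_mul_of_nonneg_right hZ hW
            linarith
          _ = _ := by ring
      calc Real.sqrt (n2 H (g⁻¹ * (Z * W))) ≤ Real.sqrt ((2 * Mz) ^ 2 * n2 H W) :=
            Real.sqrt_le_sqrt h5
        _ = 2 * Mz * Real.sqrt (n2 H W) := by
          rw [Real.sqrt_mul (sq_nonneg _), Real.sqrt_sq (by linarith)]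
    refine h3.trans ?_
    calc Real.sqrt (n2 H a) * Real.sqrt (n2 H (g⁻¹ * (Z * W)))
        ≤ Real.sqrt (n2 H a) * (2 * Mz * Real.sqrt (n2 H W)) :=
          mul_le_mul_of_nonneg_left h4 (Real.sqrt_nonneg _)
      _ = _ := by ring
  have h3 : n2 H (g⁻¹ * ((τ : ℂ) • W)) ≤ 4 * τ ^ 2 * n2 H W := by
    refine (hinv _).trans (le_of_eq ?_)
    rw [n2_smul, Complex.norm_real, Real.norm_eq_abs, sq_abs]
    ring
  have h4 : (trace (a * (g⁻¹ * ((τ : ℂ) • W)))).re = τ * (trace (a * W)).re +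
      -(τ ^ 2) * (trace (a * (g⁻¹ * (Z * W)))).re := by
    rw [h1, Matrix.mul_add, Matrix.mul_smul, Matrix.mul_smul, trace_add, trace_smul, trace_smul,
      Complex.add_re, smul_eq_mul, smul_eq_mul, Complex.re_ofReal_mul, Complex.re_ofReal_mul]
  rw [h4]
  have h5 := (abs_le.1 h2).1
  nlinarith [mul_le_mul_of_nonneg_left h5 (sq_nonneg τ)]

private theorem Nf1_conj {m : ℕ} {g H : Mt m} (hg : IsUnit g.det) (hH : IsUnit H.det)
    (dg dH : Mt m) :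
    (1 / 2 : ℂ) • (((dg * H + g * dH) * gᴴ + g * H * dgᴴ) * (g * H * gᴴ)⁻¹) =
      g * ((1 / 2 : ℂ) • (dH * H⁻¹) +
        ((1 / 2 : ℝ) : ℂ) • (g⁻¹ * dg + adj H (g⁻¹ * dg))) * g⁻¹ := by
  obtain ⟨h1, h2, h3, h4⟩ := Sib_inv hg
  have e1 : (g * H * gᴴ)⁻¹ = (g⁻¹)ᴴ * (H⁻¹ * g⁻¹) := by
    rw [Matrix.mul_inv_rev, Matrix.mul_inv_rev, conjTranspose_nonsing_inv]
  have e2 : ∀ X : Mt m, gᴴ * ((g⁻¹)ᴴ * X) = X := by
    intro X
    rw [← Matrix.mul_assoc, h3, Matrix.one_mul]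
  have e3 : ∀ X : Mt m, H * (H⁻¹ * X) = X := fun X =>
    Matrix.mul_nonsing_inv_cancel_left _ _ hH
  have e4 : ∀ X : Mt m, g * (g⁻¹ * X) = X := fun X =>
    Matrix.mul_nonsing_inv_cancel_left _ _ hg
  have e5 : ((1 / 2 : ℝ) : ℂ) = (1 / 2 : ℂ) := by push_cast; rfl
  rw [e1, e5]
  unfold adj
  simp only [Matrix.mul_assoc, Matrix.add_mul, Matrix.mul_add, Matrix.mul_smul, Matrix.smul_mul,
    conjTranspose_mul, smul_add, e2, e3, e4]
  abel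

private theorem Nf1_trconj {m : ℕ} {g : Mt m} (hg : IsUnit g.det) (M : Mt m) :
    trace (g * M * g⁻¹ * (g * M * g⁻¹)) = trace (M * M) := by
  have h1 : g * M * g⁻¹ * (g * M * g⁻¹) = g * (M * (g⁻¹ * (g * (M * g⁻¹)))) := by
    simp only [Matrix.mul_assoc]
  rw [h1, Matrix.nonsing_inv_mul_cancel_left _ _ hg, trace_mul_comm]
  have h2 : M * (M * g⁻¹) * g = M * M * (g⁻¹ * g) := by simp only [Matrix.mul_assoc]
  rw [h2, Matrix.nonsing_inv_mul _ hg, Matrix.mul_one]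

/-- the gauge transformation -/
private noncomputable def Nf1_g {m : ℕ} (τ : ℝ) (Z : ℝ × ℝ → Mt m) (y : ℝ × ℝ) : Mt m :=
  (1 : ℂ) • (1 : Mt m) + (τ : ℂ) • Z y

/-- the transformed metric -/
private noncomputable def Nf1_G {m : ℕ} (τ : ℝ) (H Z : ℝ × ℝ → Mt m) (y : ℝ × ℝ) : Mt m :=
  Nf1_g τ Z y * H y * (Nf1_g τ Z y)ᴴ

private theorem Nf1_g_da {m : ℕ} {τ : ℝ} {Z : ℝ × ℝ → Mt m} {x : ℝ × ℝ}
    (dZ : ∀ i j, DifferentiableAt ℝ (fun y => Z y i j) x) (i j : Fin m) :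
    DifferentiableAt ℝ (fun y => Nf1_g τ Z y i j) x :=
  da_add (X := fun _ => (1 : Mt m)) (fun _ _ => differentiableAt_const _) dZ 1 (τ : ℂ) i j

private theorem Nf1_g_pd {m : ℕ} {τ : ℝ} {Z : ℝ × ℝ → Mt m} {x : ℝ × ℝ}
    (dZ : ∀ i j, DifferentiableAt ℝ (fun y => Z y i j) x) (s : ℝ × ℝ) :
    pd s (Nf1_g τ Z) x = (τ : ℂ) • pd s Z x := by
  have h := pd_add (X := fun _ => (1 : Mt m)) (fun _ _ => differentiableAt_const _) dZ 1 (τ : ℂ) s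
  have h0 : pd s (fun _ : ℝ × ℝ => (1 : Mt m)) x = 0 := by
    ext i j
    simp [pd]
  rw [h0, smul_zero, zero_add] at h
  exact h

private theorem Nf1_dens {m : ℕ} {H Z : ℝ × ℝ → Mt m} {x : ℝ × ℝ}
    (hp : ∀ᶠ y in nhds x, (H y).PosDef)
    (dH : ∀ i j, DifferentiableAt ℝ (fun y => H y i j) x)
    (dZ : ∀ i j, DifferentiableAt ℝ (fun y => Z y i j) x) {Mz τ : ℝ} (hMz : 0 ≤ Mz)
    (hZ : n2 (H x) (Z x) ≤ Mz ^ 2) (hτ : |τ| * Mz ≤ 1 / 2) (s : ℝ × ℝ) :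
    q s s (Nf1_G τ H Z) x ≤ q s s H x + 2 * τ * ln s s H Z x +
      4 * τ ^ 2 * (Mz * (Real.sqrt (q s s H x) * Real.sqrt (dn s H Z x)) + dn s H Z x) := by
  have hH : (H x).PosDef := hp.self_of_nhds
  have hu := Nf1_isUnit hH
  have hg : IsUnit (Nf1_g τ Z x).det := Nf1_det hH hMz hZ hτ
  have h1 : aa s (Nf1_G τ H Z) x = Nf1_g τ Z x * (aa s H x + ((1 / 2 : ℝ) : ℂ) •
      ((Nf1_g τ Z x)⁻¹ * ((τ : ℂ) • pd s Z x) +
        adj (H x) ((Nf1_g τ Z x)⁻¹ * ((τ : ℂ) • pd s Z x)))) * (Nf1_g τ Z x)⁻¹ := by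
    have h2 : pd s (Nf1_G τ H Z) x = ((τ : ℂ) • pd s Z x * H x + Nf1_g τ Z x * pd s H x) *
        (Nf1_g τ Z x)ᴴ + Nf1_g τ Z x * H x * ((τ : ℂ) • pd s Z x)ᴴ := by
      have h3 := pd_mul (X := fun y => Nf1_g τ Z y * H y) (Y := fun y => (Nf1_g τ Z y)ᴴ)
        (da_mul (Nf1_g_da dZ) dH) (da_star (Nf1_g_da dZ)) s
      have h4 := pd_mul (Nf1_g_da (τ := τ) dZ) dH s
      rw [pd_star, h4, Nf1_g_pd dZ] at h3
      exact h3
    have h5 := Nf1_conj hg hu ((τ : ℂ) • pd s Z x) (pd s H x)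
    unfold aa
    rw [h2]
    exact h5
  have h2 : q s s (Nf1_G τ H Z) x = (trace ((aa s H x + ((1 / 2 : ℝ) : ℂ) •
      ((Nf1_g τ Z x)⁻¹ * ((τ : ℂ) • pd s Z x) +
        adj (H x) ((Nf1_g τ Z x)⁻¹ * ((τ : ℂ) • pd s Z x)))) *
      (aa s H x + ((1 / 2 : ℝ) : ℂ) •
      ((Nf1_g τ Z x)⁻¹ * ((τ : ℂ) • pd s Z x) +
        adj (H x) ((Nf1_g τ Z x)⁻¹ * ((τ : ℂ) • pd s Z x)))))).re := by
    unfold q
    rw [h1, Nf1_trconj hg]
  have h3 := Nf1_alg hH (aa_sa hp s) ((Nf1_g τ Z x)⁻¹ * ((τ : ℂ) • pd s Z x))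
  have h4 := Nf1_pt (a := aa s H x) (W := pd s Z x) hH hMz hZ hτ
  have h5 := q_n2 hp s
  rw [h2, h5]
  have h6 : (trace (aa s H x * aa s H x)).re = n2 (H x) (aa s H x) := h5
  rw [h6] at h3
  unfold ln dn
  unfold Nf1_g at h3 ⊢
  linarith

private theorem Nf1_cs {α : Type*} [MeasurableSpace α] {μ : Measure α} {u v w : α → ℝ}
    {Eu Lv : ℝ} (hu : Integrable u μ) (hv : Integrable v μ) (hw : Integrable w μ)
    (hu0 : ∀ᵐ x ∂μ, 0 ≤ u x) (hv0 : ∀ᵐ x ∂μ, 0 ≤ v x) (hw0 : ∀ᵐ x ∂μ, 0 ≤ w x)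
    (h : ∀ᵐ x ∂μ, w x ^ 2 ≤ u x * v x) (hE : ∫ x, u x ∂μ = Eu) (hL : ∫ x, v x ∂μ ≤ Lv) :
    ∫ x, w x ∂μ ≤ Real.sqrt (Eu * Lv) := by
  have hE0 : 0 ≤ ∫ x, u x ∂μ := integral_nonneg_of_ae hu0
  have hL0 : 0 ≤ ∫ x, v x ∂μ := integral_nonneg_of_ae hv0
  have hX0 : 0 ≤ ∫ x, w x ∂μ := integral_nonneg_of_ae hw0
  have h1 : ∀ c : ℝ, 0 ≤ (∫ x, u x ∂μ) * (c * c) + (-(2 * ∫ x, w x ∂μ)) * c + ∫ x, v x ∂μ := by
    intro c
    have h2 : 0 ≤ ∫ x, (u x * (c * c) + (-(2 * w x)) * c + v x) ∂μ := by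
      refine integral_nonneg_of_ae ?_
      filter_upwards [hu0, hv0, hw0, h] with x h1 h2 h3 h4
      show 0 ≤ u x * (c * c) + (-(2 * w x)) * c + v x
      by_contra hc
      rw [not_le] at hc
      by_cases hu1 : u x = 0
      · have h5 : w x = 0 := by
          rw [hu1, zero_mul] at h4
          nlinarith [sq_nonneg (w x)]
        rw [hu1, h5] at hc
        linarith
      · have h6 : 0 < u x := lt_of_le_of_ne h1 (Ne.symm hu1)
        nlinarith [sq_nonneg (u x * c - w x), mul_neg_of_pos_of_neg h6 hc]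
    have h3 : ∫ x, (u x * (c * c) + (-(2 * w x)) * c + v x) ∂μ =
        (∫ x, u x ∂μ) * (c * c) + (-(2 * ∫ x, w x ∂μ)) * c + ∫ x, v x ∂μ := by
      have i1 : Integrable (fun x => u x * (c * c)) μ := hu.mul_const _
      have i2 : Integrable (fun x => (-(2 * w x)) * c) μ := ((hw.const_mul 2).neg).mul_const _
      have i3 : Integrable (fun x => u x * (c * c) + (-(2 * w x)) * c) μ := i1.add i2
      rw [integral_add i3 hv, integral_add i1 i2, integral_mul_const, integral_mul_const,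
        integral_neg, integral_const_mul]
    rw [← h3]
    exact h2
  have h4 := discrim_le_zero h1
  unfold discrim at h4
  have h5 : (∫ x, w x ∂μ) ^ 2 ≤ (∫ x, u x ∂μ) * ∫ x, v x ∂μ := by nlinarith
  refine Real.le_sqrt_of_sq_le (h5.trans ?_)
  rw [← hE]
  exact mul_le_mul_of_nonneg_left hL hE0

private theorem Nf1_glue {m : ℕ} {Ai g0 g1 H0 H1 : Mt m} (hg : g1 * Ai = Ai * g0)
    (hH : H1 = Ai * H0 * Aiᴴ) : g1 * H1 * g1ᴴ = Ai * (g0 * H0 * g0ᴴ) * Aiᴴ := by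
  have h1 : g1 * (Ai * H0 * Aiᴴ) * g1ᴴ = (g1 * Ai) * H0 * (g1 * Ai)ᴴ := by
    rw [conjTranspose_mul]
    simp only [Matrix.mul_assoc]
  rw [hH, h1, hg, conjTranspose_mul]
  simp only [Matrix.mul_assoc]

private theorem Nf1_g_glue {m : ℕ} {τ : ℝ} {Ai Z0 Z1 : Mt m} (h : Z1 * Ai = Ai * Z0) :
    ((1 : ℂ) • (1 : Mt m) + (τ : ℂ) • Z1) * Ai = Ai * ((1 : ℂ) • (1 : Mt m) + (τ : ℂ) • Z0) := by
  rw [Matrix.add_mul, Matrix.mul_add, Matrix.smul_mul, Matrix.smul_mul, Matrix.mul_smul,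
    Matrix.mul_smul, h, Matrix.one_mul, Matrix.mul_one]

private theorem Nf1_pos {m : ℕ} {H Z : ℝ × ℝ → Mt m} {Mz τ : ℝ} (hMz : 0 ≤ Mz)
    (hH : ∀ x ∈ D \ P, (H x).PosDef)
    (bZ : ∀ x ∈ D \ P, n2 (H x) (Z x) ≤ Mz ^ 2) (hτ : |τ| * Mz ≤ 1 / 2) :
    ∀ x ∈ D \ P, (Nf1_G τ H Z x).PosDef := by
  intro x hx
  have h1 : IsUnit (Nf1_g τ Z x).det := Nf1_det (hH x hx) hMz (bZ x hx) hτ
  exact (hH x hx).mul_mul_conjTranspose_same
    (Matrix.vecMul_injective_of_isUnit ((Matrix.isUnit_iff_isUnit_det _).2 h1))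

private theorem Nf1_lz_g {m : ℕ} {τ : ℝ} {Z : ℝ × ℝ → Mt m} (hZ : Lz Z) : Lz (Nf1_g τ Z) :=
  lz_add (lz_const (1 : Mt m)) hZ 1 (τ : ℂ)

private theorem Nf1_lz {m : ℕ} {τ : ℝ} {H Z : ℝ × ℝ → Mt m} (hH : Lz H) (hZ : Lz Z) :
    Lz (Nf1_G τ H Z) :=
  lz_mul (lz_mul (Nf1_lz_g hZ) hH) (lz_star (Nf1_lz_g hZ))

private theorem Nf1_ae {m : ℕ} {A B C : Mt m} {H Z : ℝ × ℝ → Mt m} {Mz τ : ℝ} (hMz : 0 ≤ Mz)
    (hH : Cl A B C H) (hZ : Lz Z)
    (bZ : ∀ x ∈ D \ P, n2 (H x) (Z x) ≤ Mz ^ 2) (hτ : |τ| * Mz ≤ 1 / 2) :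
    ∀ᵐ x ∂(volume.restrict U), ∀ s : ℝ × ℝ, q s s (Nf1_G τ H Z) x ≤
      q s s H x + 2 * τ * ln s s H Z x +
      4 * τ ^ 2 * (Mz * (Real.sqrt (q s s H x) * Real.sqrt (dn s H Z x)) + dn s H Z x) := by
  filter_upwards [lz_ae hH.lip, lz_ae hZ, ae_restrict_mem Mea_isOpen.measurableSet]
    with x h1 h2 h3 s
  exact Nf1_dens (pos_near hH.pos h3) h1 h2 hMz (bZ x (u_sub h3)) hτ s

private theorem Nf1_sq {a b : ℝ} (ha : 0 ≤ a) (hb : 0 ≤ b) :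
    Real.sqrt a * Real.sqrt b ≤ (a + b) / 2 := by
  nlinarith [Real.sq_sqrt ha, Real.sq_sqrt hb, sq_nonneg (Real.sqrt a - Real.sqrt b)]

private theorem Nf1_dn_nonneg {m : ℕ} {A B C : Mt m} {H Z : ℝ × ℝ → Mt m}
    (hH : Cl A B C H) {x : ℝ × ℝ} (hx : x ∈ U) (s : ℝ × ℝ) : 0 ≤ dn s H Z x :=
  n2_nonneg (hH.pos x (u_sub hx)) _

private theorem Nf1_ln_int {m : ℕ} {A B C : Mt m} {H Z : ℝ × ℝ → Mt m}
    (hH : Cl A B C H) (hZ : Lz Z) {s : ℝ × ℝ} (hd : IntegrableOn (dn s H Z) U) :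
    IntegrableOn (ln s s H Z) U := by
  have h1 : IntegrableOn (fun x => (q s s H x + dn s H Z x) / 2) U :=
    ((q_int hH s s).add hd).div_const 2
  refine h1.mono' (ln_meas hH.lip hH.pos hZ s s) ?_
  filter_upwards [ae_restrict_mem Mea_isOpen.measurableSet] with x hx
  have h2 := ln_abs (pos_near hH.pos hx) Z s s
  rw [Real.norm_eq_abs]
  exact h2.trans (Nf1_sq (q_nonneg (pos_near hH.pos hx) s) (Nf1_dn_nonneg hH hx s))

private theorem Nf1_w_int {m : ℕ} {A B C : Mt m} {H Z : ℝ × ℝ → Mt m}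
    (hH : Cl A B C H) (hZ : Lz Z) {s : ℝ × ℝ} (hd : IntegrableOn (dn s H Z) U) :
    IntegrableOn (fun x => Real.sqrt (q s s H x) * Real.sqrt (dn s H Z x)) U := by
  have h1 : IntegrableOn (fun x => (q s s H x + dn s H Z x) / 2) U :=
    ((q_int hH s s).add hd).div_const 2
  refine h1.mono' ((Real.continuous_sqrt.comp_aestronglyMeasurable
    (q_meas hH.lip hH.pos s s)).mul (Real.continuous_sqrt.comp_aestronglyMeasurable
    (dn_meas hH.lip hH.pos hZ s))) ?_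
  filter_upwards [ae_restrict_mem Mea_isOpen.measurableSet] with x hx
  rw [Real.norm_eq_abs, abs_of_nonneg (mul_nonneg (Real.sqrt_nonneg _) (Real.sqrt_nonneg _))]
  exact Nf1_sq (q_nonneg (pos_near hH.pos hx) s) (Nf1_dn_nonneg hH hx s)

private theorem Nf1_dn_int {m : ℕ} {A B C : Mt m} {H Z : ℝ × ℝ → Mt m} {e f : ℝ × ℝ}
    (hH : Cl A B C H) (hZ : Lz Z) (he : IntegrableOn (dn e H Z) U)
    (hf : IntegrableOn (dn f H Z) U) (a b : ℝ) : IntegrableOn (dn (a • e + b • f) H Z) U := by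
  have h1 : IntegrableOn (fun x => 2 * (a ^ 2 * dn e H Z x + b ^ 2 * dn f H Z x)) U :=
    ((he.const_mul (a ^ 2)).add (hf.const_mul (b ^ 2))).const_mul 2
  refine h1.mono' (dn_meas hH.lip hH.pos hZ _) ?_
  filter_upwards [ae_restrict_mem Mea_isOpen.measurableSet] with x hx
  rw [Real.norm_eq_abs, abs_of_nonneg (Nf1_dn_nonneg hH hx _)]
  have h2 := n2_tri (hH.pos x (u_sub hx)) ((a : ℂ) • pd e Z x) ((b : ℂ) • pd f Z x)
  rw [n2_smul, n2_smul, Complex.norm_real, Complex.norm_real, Real.norm_eq_abs, Real.norm_eq_abs,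
    sq_abs, sq_abs] at h2
  unfold dn
  rw [pd_lin]
  exact h2

private theorem Nf1_q_int {m : ℕ} {A B C : Mt m} {H Z : ℝ × ℝ → Mt m} {Mz τ : ℝ} (hMz : 0 ≤ Mz)
    (hH : Cl A B C H) (hZ : Lz Z)
    (bZ : ∀ x ∈ D \ P, n2 (H x) (Z x) ≤ Mz ^ 2) (hτ : |τ| * Mz ≤ 1 / 2) {s : ℝ × ℝ}
    (hd : IntegrableOn (dn s H Z) U) : IntegrableOn (q s s (Nf1_G τ H Z)) U := by
  have h1 : IntegrableOn (fun x => (q s s H x + 2 * τ * ln s s H Z x +
      4 * τ ^ 2 * (Mz * (Real.sqrt (q s s H x) * Real.sqrt (dn s H Z x)) + dn s H Z x))) U :=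
    ((q_int hH s s).add ((Nf1_ln_int hH hZ hd).const_mul (2 * τ))).add
      ((((Nf1_w_int hH hZ hd).const_mul Mz).add hd).const_mul (4 * τ ^ 2))
  have hp := Nf1_pos hMz hH.pos bZ hτ
  refine h1.mono' (q_meas (Nf1_lz hH.lip hZ) hp s s) ?_
  filter_upwards [ae_restrict_mem Mea_isOpen.measurableSet, Nf1_ae hMz hH hZ bZ hτ] with x hx h2
  rw [Real.norm_eq_abs, abs_of_nonneg (q_nonneg (pos_near hp hx) s)]
  exact h2 s

private theorem Nf1_cl {m : ℕ} {A B C : Mt m} {H Z : ℝ × ℝ → Mt m} {Mz τ : ℝ} (hMz : 0 ≤ Mz)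
    {e f : ℝ × ℝ} (hef : e.1 * f.2 - e.2 * f.1 = 1)
    (hH : Cl A B C H) (hZ : Fd A B C Z)
    (bZ : ∀ x ∈ D \ P, n2 (H x) (Z x) ≤ Mz ^ 2) (hτ : |τ| * Mz ≤ 1 / 2)
    (he : IntegrableOn (dn e H Z) U) (hf : IntegrableOn (dn f H Z) U) :
    Cl A B C (Nf1_G τ H Z) := by
  refine ⟨Nf1_pos hMz hH.pos bZ hτ, Nf1_lz hH.lip hZ.lip, ?_, ?_, ?_, ?_⟩
  · intro v hv
    exact Nf1_glue (Nf1_g_glue (hZ.glC v hv)) (hH.glC v hv)
  · intro u hu
    exact Nf1_glue (Nf1_g_glue (hZ.glA u hu)) (hH.glA u hu)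
  · intro u hu
    exact Nf1_glue (Nf1_g_glue (hZ.glB u hu)) (hH.glB u hu)
  · have e1 : ((1 : ℝ), (0 : ℝ)) = f.2 • e + (-e.2) • f := by
      ext
      · simp only [Prod.fst_add, Prod.smul_fst, smul_eq_mul]
        linarith
      · simp only [Prod.snd_add, Prod.smul_snd, smul_eq_mul]
        ring
    have e2 : ((0 : ℝ), (1 : ℝ)) = (-f.1) • e + e.1 • f := by
      ext
      · simp only [Prod.fst_add, Prod.smul_fst, smul_eq_mul]
        ring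
      · simp only [Prod.snd_add, Prod.smul_snd, smul_eq_mul]
        linarith
    have h1 : IntegrableOn (dn (1, 0) H Z) U := by
      rw [e1]
      exact Nf1_dn_int hH hZ.lip he hf _ _
    have h2 : IntegrableOn (dn (0, 1) H Z) U := by
      rw [e2]
      exact Nf1_dn_int hH hZ.lip he hf _ _
    exact (Nf1_q_int hMz hH hZ.lip bZ hτ h1).add (Nf1_q_int hMz hH hZ.lip bZ hτ h2)

private theorem Nf1_En {m : ℕ} {A B C : Mt m} {H : ℝ × ℝ → Mt m} (hH : Cl A B C H)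
    (e f : ℝ × ℝ) : En e f (1, 0, 1) H = ∫ x in U, (q e e H x + q f f H x) := by
  rw [en_lin hH, integral_add (q_int hH e e) (q_int hH f f)]
  ring

private theorem Nf1_w {m : ℕ} {A B C : Mt m} {H Z : ℝ × ℝ → Mt m} {e f : ℝ × ℝ} {L : ℝ}
    (hH : Cl A B C H) (hZ : Lz Z)
    (he : IntegrableOn (dn e H Z) U) (hf : IntegrableOn (dn f H Z) U)
    (hL : ∫ x in U, (dn e H Z x + dn f H Z x) ≤ L) :
    ∫ x in U, (Real.sqrt (q e e H x) * Real.sqrt (dn e H Z x) +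
      Real.sqrt (q f f H x) * Real.sqrt (dn f H Z x)) ≤
      Real.sqrt (En e f (1, 0, 1) H * L) := by
  refine Nf1_cs (u := fun x => q e e H x + q f f H x) (v := fun x => dn e H Z x + dn f H Z x)
    ((q_int hH e e).add (q_int hH f f)) (he.add hf)
    ((Nf1_w_int hH hZ he).add (Nf1_w_int hH hZ hf)) ?_ ?_ ?_ ?_ (Nf1_En hH e f).symm hL
  · filter_upwards [ae_restrict_mem Mea_isOpen.measurableSet] with x hx
    exact add_nonneg (q_nonneg (pos_near hH.pos hx) e) (q_nonneg (pos_near hH.pos hx) f)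
  · filter_upwards [ae_restrict_mem Mea_isOpen.measurableSet] with x hx
    exact add_nonneg (Nf1_dn_nonneg hH hx e) (Nf1_dn_nonneg hH hx f)
  · filter_upwards with x
    positivity
  · filter_upwards [ae_restrict_mem Mea_isOpen.measurableSet] with x hx
    have h1 := Real.sq_sqrt (q_nonneg (pos_near hH.pos hx) e)
    have h2 := Real.sq_sqrt (q_nonneg (pos_near hH.pos hx) f)
    have h3 := Real.sq_sqrt (Nf1_dn_nonneg (Z := Z) hH hx e)
    have h4 := Real.sq_sqrt (Nf1_dn_nonneg (Z := Z) hH hx f)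
    set a := Real.sqrt (q e e H x)
    set b := Real.sqrt (q f f H x)
    set c := Real.sqrt (dn e H Z x)
    set d := Real.sqrt (dn f H Z x)
    rw [← h1, ← h2, ← h3, ← h4]
    nlinarith [sq_nonneg (a * d - b * c)]

private theorem Nf1_energy {m : ℕ} {A B C : Mt m} {H Z : ℝ × ℝ → Mt m} {Mz τ L : ℝ}
    (hMz : 0 ≤ Mz) {e f : ℝ × ℝ} (hef : e.1 * f.2 - e.2 * f.1 = 1)
    (hH : Cl A B C H) (hZ : Fd A B C Z)
    (bZ : ∀ x ∈ D \ P, n2 (H x) (Z x) ≤ Mz ^ 2) (hτ : |τ| * Mz ≤ 1 / 2)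
    (he : IntegrableOn (dn e H Z) U) (hf : IntegrableOn (dn f H Z) U)
    (hL : ∫ x in U, (dn e H Z x + dn f H Z x) ≤ L) :
    En e f (1, 0, 1) (Nf1_G τ H Z) ≤ En e f (1, 0, 1) H +
      2 * τ * (∫ x in U, (ln e e H Z x + ln f f H Z x)) +
      4 * τ ^ 2 * (Mz * Real.sqrt (En e f (1, 0, 1) H * L) + L) := by
  have hG := Nf1_cl hMz hef hH hZ bZ hτ he hf
  have hw := Nf1_w hH hZ.lip he hf hL
  rw [Nf1_En hG]
  have i1 : IntegrableOn (fun x => q e e H x + q f f H x) U :=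
    (q_int hH e e).add (q_int hH f f)
  have i2 : IntegrableOn (fun x => 2 * τ * (ln e e H Z x + ln f f H Z x)) U :=
    ((Nf1_ln_int hH hZ.lip he).add (Nf1_ln_int hH hZ.lip hf)).const_mul _
  have i3 : IntegrableOn (fun x => Mz * (Real.sqrt (q e e H x) * Real.sqrt (dn e H Z x) +
      Real.sqrt (q f f H x) * Real.sqrt (dn f H Z x))) U :=
    ((Nf1_w_int hH hZ.lip he).add (Nf1_w_int hH hZ.lip hf)).const_mul _
  have i4 : IntegrableOn (fun x => dn e H Z x + dn f H Z x) U := he.add hf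
  have i5 : IntegrableOn (fun x => 4 * τ ^ 2 * (Mz * (Real.sqrt (q e e H x) *
      Real.sqrt (dn e H Z x) + Real.sqrt (q f f H x) * Real.sqrt (dn f H Z x)) +
      (dn e H Z x + dn f H Z x))) U := (i3.add i4).const_mul _
  have i6 : IntegrableOn (fun x => (q e e H x + q f f H x) +
      2 * τ * (ln e e H Z x + ln f f H Z x)) U := i1.add i2
  have h1 : ∫ x in U, (q e e (Nf1_G τ H Z) x + q f f (Nf1_G τ H Z) x) ≤
      ∫ x in U, (((q e e H x + q f f H x) + 2 * τ * (ln e e H Z x + ln f f H Z x)) +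
        4 * τ ^ 2 * (Mz * (Real.sqrt (q e e H x) *
      Real.sqrt (dn e H Z x) + Real.sqrt (q f f H x) * Real.sqrt (dn f H Z x)) +
      (dn e H Z x + dn f H Z x))) := by
    refine integral_mono_ae ((q_int hG e e).add (q_int hG f f)) (i6.add i5) ?_
    filter_upwards [Nf1_ae hMz hH hZ.lip bZ hτ] with x hx
    have h2 := hx e
    have h3 := hx f
    show q e e (Nf1_G τ H Z) x + q f f (Nf1_G τ H Z) x ≤ _
    linarith
  refine h1.trans ?_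
  rw [integral_add i6 i5, integral_add i1 i2, integral_const_mul, integral_const_mul,
    integral_add i3 i4, integral_const_mul, ← Nf1_En hH]
  have h2 : Mz * (∫ x in U, (Real.sqrt (q e e H x) * Real.sqrt (dn e H Z x) +
      Real.sqrt (q f f H x) * Real.sqrt (dn f H Z x))) + ∫ x in U, (dn e H Z x + dn f H Z x) ≤
      Mz * Real.sqrt (En e f (1, 0, 1) H * L) + L :=
    add_le_add (mul_le_mul_of_nonneg_left hw hMz) hL
  have h3 := mul_le_mul_of_nonneg_left h2 (show (0 : ℝ) ≤ 4 * τ ^ 2 by positivity)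
  linarith

variable {m : ℕ} {A B C : Mt m} {H Z : ℝ × ℝ → Mt m}

theorem near_crit (hA : IsUnit A.det) (hB : IsUnit B.det) (hC : IsUnit C.det) {e f : ℝ × ℝ}
    (hef : e.1 * f.2 - e.2 * f.1 = 1) {ep Mz L : ℝ} (hMz : 0 ≤ Mz)
    (hH : NM e f (1, 0, 1) A B C ep H) (hZ : Fd A B C Z)
    (sZ : ∀ x ∈ D \ P, Z x * H x = H x * (Z x)ᴴ)
    (bZ : ∀ x ∈ D \ P, n2 (H x) (Z x) ≤ Mz ^ 2)
    (he : IntegrableOn (dn e H Z) U) (hf : IntegrableOn (dn f H Z) U)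
    (hL : ∫ x in U, (dn e H Z x + dn f H Z x) ≤ L)
    {t : ℝ} (ht : 0 < t) (ht' : t ≤ 1 / (2 * (Mz + 1))) :
    |∫ x in U, (ln e e H Z x + ln f f H Z x)| ≤
      ep / t + 4 * t * (Mz * Real.sqrt (En e f (1, 0, 1) H * L) + L) := by
  have hts : ∀ τ : ℝ, |τ| = t → |τ| * Mz ≤ 1 / 2 := by
    intro τ hτ
    rw [hτ]
    have h1 : 0 < 2 * (Mz + 1) := by linarith
    rw [le_div_iff₀ h1] at ht'
    nlinarith
  have hK : ∀ τ : ℝ, |τ| = t → -ep ≤ 2 * τ * (∫ x in U, (ln e e H Z x + ln f f H Z x)) +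
      4 * t ^ 2 * (Mz * Real.sqrt (En e f (1, 0, 1) H * L) + L) := by
    intro τ hτ
    have h1 := hH.2 _ (Nf1_cl hMz hef hH.1 hZ bZ (hts τ hτ) he hf)
    have h2 := Nf1_energy hMz hef hH.1 hZ bZ (hts τ hτ) he hf hL
    have h3 : τ ^ 2 = t ^ 2 := by rw [← hτ, sq_abs]
    rw [h3] at h2
    linarith
  have hep : 0 ≤ ep := by
    have h1 := hH.2 H hH.1
    linarith
  have hL0 : 0 ≤ L := by
    refine le_trans ?_ hL
    exact setIntegral_nonneg Mea_isOpen.measurableSet fun x hx =>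
      add_nonneg (Nf1_dn_nonneg hH.1 hx e) (Nf1_dn_nonneg hH.1 hx f)
  set I := ∫ x in U, (ln e e H Z x + ln f f H Z x) with hI
  set K := Mz * Real.sqrt (En e f (1, 0, 1) H * L) + L with hKd
  have hK0 : 0 ≤ K := add_nonneg (mul_nonneg hMz (Real.sqrt_nonneg _)) hL0
  have h1 := hK t (abs_of_pos ht)
  have h2 := hK (-t) (by rw [abs_neg, abs_of_pos ht])
  have h3 : ep / t + 4 * t * K = (ep + 4 * t ^ 2 * K) / t := by
    field_simp
  rw [h3, le_div_iff₀ ht]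
  have h4 : |I| * t = |I * t| := by rw [abs_mul, abs_of_pos ht]
  have h5 : 0 ≤ 4 * t ^ 2 * K := by positivity
  rw [h4, abs_le]
  constructor <;> linarith

end H80HM
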