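import Pool.Agent.H80.HM.Defs

set_option autoImplicit false

/-!
# Row Pi3: lower bound for the energy density of exp(X) H, X = phi(log(G H^{-1})), |phi| <= M

Notation of PtD; phi_p = phi(lam p), X := Xf phi H G, Z_t(p,r) = dd phi s_t(p,r) + a_t(p,r)(phi_r - phi_p), so pd t X = Q Z_t Q^{-1}, aa t H = Q a_t Q^{-1}.
(i) dn t H X = sum_pr |Z_t(p,r)|^2 = sum_pr (dd^2 |s_t|^2 + (phi_p-phi_r)^2 |a_t|^2): the cross terms 2 dd (phi_r-phi_p) Re(s_t star a_t) at (p,r) and (r,p)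
    cancel (dd, Re(s star a) symmetric, phi_r - phi_p antisymmetric; a, s Hermitian).
(ii) ln t t' H X = Re tr(a_t Z_t') = sum_pr Re(a_t(p,r) Z_t'(r,p)) and, symmetrised,  ln t t' + ln t' t = sum_pr dd (Re(a_t star s_t') + Re(a_t' star s_t)):
    the part Re sum a_t(p,r) a_t'(r,p)(phi_p - phi_r) vanishes: exchanging (p,r) gives the negative of the complex conjugate, so the sum is
    purely imaginary. In particular (this holds for each pair separately) ln t t' H X = sum_pr dd Re(a_t(p,r) star s_t'(p,r)).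
(iii) component (p,r), c the form, Qc, Bc as usual (Bc real polarisation in the two directions e, f), al = (Qc(a)+Qc(sg))/2, ga = Bc(a,sg), |ga| <= al.
   CASE lam p is not lam r, sg = s/(lam p - lam r), y = (phi_p-phi_r)/2, |y| <= M, dd s = 2 y sg:
   Qc(cosh y a + sinh y sg) - Qc(a) = al(cosh 2y - 1) + ga sinh 2y >= 2 ga y + al (cosh 2y - 1 - |sinh 2y - 2y|)
     = 2 ga y + al (e^{-2|y|} - 1 + 2|y|) >= 2 ga y + 2 al y^2 e^{-2|y|}          (e^{-t} - 1 + t >= t^2 e^{-t}/2 for t >= 0)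
     >= [linear term dd Bc(a,s)] + mu e^{-2M} y^2 (|a|^2 + |sg|^2)   (al >= mu (|a|^2+|sg|^2)/2 where |.|^2 sums both directions, since c - mu is psd)
     = linear + (mu e^{-2M}/4) (dd^2|s|^2 + (phi_p-phi_r)^2|a|^2).
   (linear: c11 Re(a_e star s_e) dd + c12 (Re(a_e star s_f)+Re(a_f star s_e)) dd + c22 Re(a_f star s_f) dd = dd Bc(a,s) = 2y ga.)
   CASE lam p = lam r: z = a + (phi'/2)s, dd = phi': Qc(z) - Qc(a) = phi' Bc(a,s) + (phi'^2/4) Qc(s) >= linear + (mu/4) phi'^2|s|^2, e^{-2M} <= 1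
   (M >= 0 because |phi| <= M).
Sum over p, r.
-/

namespace H80HM

open Matrix MeasureTheory Set
open scoped ComplexOrder


theorem Pi3_conj {m : ℕ} {Q : Mt m} (hQ : IsUnit Q.det) (Z : Mt m) :
    trace (Q * Z * Q⁻¹) = trace Z := by
  rw [Matrix.trace_mul_comm, ← Matrix.mul_assoc, Matrix.nonsing_inv_mul Q hQ, Matrix.one_mul]

theorem Pi3_dn {m : ℕ} {Q : Mt m} (hQ : IsUnit Q.det) (Z : Mt m) :
    n2 (Q * Qᴴ) (Q * Z * Q⁻¹) = ∑ p, ∑ r, (Z p r * star (Z p r)).re := by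
  have hQh : IsUnit (Qᴴ).det := by
    rw [Matrix.det_conjTranspose]
    exact hQ.star
  have h1 : Q⁻¹ * Q = 1 := Matrix.nonsing_inv_mul Q hQ
  have h2 : Qᴴ * (Q⁻¹)ᴴ = 1 := by
    rw [← Matrix.conjTranspose_mul, h1, Matrix.conjTranspose_one]
  have h3 : Qᴴ * (Qᴴ)⁻¹ = 1 := Matrix.mul_nonsing_inv _ hQh
  have h4 : (Q * Z * Q⁻¹) * (Q * Qᴴ) * (Q * Z * Q⁻¹)ᴴ * (Q * Qᴴ)⁻¹ = Q * (Z * Zᴴ) * Q⁻¹ := by
    rw [Matrix.conjTranspose_mul, Matrix.conjTranspose_mul, Matrix.mul_inv_rev]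
    calc (Q * Z * Q⁻¹) * (Q * Qᴴ) * ((Q⁻¹)ᴴ * (Zᴴ * Qᴴ)) * ((Qᴴ)⁻¹ * Q⁻¹)
        = Q * Z * (Q⁻¹ * Q) * (Qᴴ * (Q⁻¹)ᴴ) * Zᴴ * (Qᴴ * (Qᴴ)⁻¹) * Q⁻¹ := by
          simp only [Matrix.mul_assoc]
      _ = Q * (Z * Zᴴ) * Q⁻¹ := by
          rw [h1, h2, h3]
          simp only [Matrix.mul_assoc, Matrix.one_mul]
  unfold n2
  rw [h4, Pi3_conj hQ]
  simp only [Matrix.trace, Matrix.diag_apply, Matrix.mul_apply, Matrix.conjTranspose_apply,
    Complex.re_sum]

theorem Pi3_ln {m : ℕ} {Q : Mt m} (hQ : IsUnit Q.det) (a Z : Mt m) :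
    (trace ((Q * a * Q⁻¹) * (Q * Z * Q⁻¹))).re = ∑ p, ∑ r, (a p r * Z r p).re := by
  have h1 : Q⁻¹ * Q = 1 := Matrix.nonsing_inv_mul Q hQ
  have h4 : (Q * a * Q⁻¹) * (Q * Z * Q⁻¹) = Q * (a * Z) * Q⁻¹ := by
    calc (Q * a * Q⁻¹) * (Q * Z * Q⁻¹) = Q * a * (Q⁻¹ * Q) * Z * Q⁻¹ := by
          simp only [Matrix.mul_assoc]
      _ = Q * (a * Z) * Q⁻¹ := by
          rw [h1]
          simp only [Matrix.mul_assoc, Matrix.one_mul]
  rw [h4, Pi3_conj hQ]
  simp only [Matrix.trace, Matrix.diag_apply, Matrix.mul_apply, Complex.re_sum]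

/-- antisymmetric sums vanish -/
theorem Pi3_anti {m : ℕ} (f : Fin m → Fin m → ℝ) (hf : ∀ p r, f r p = - f p r) :
    ∑ p, ∑ r, f p r = 0 := by
  have h1 : ∑ p, ∑ r, f p r = ∑ p, ∑ r, f r p := Finset.sum_comm
  have h2 : ∑ p, ∑ r, f r p = - ∑ p, ∑ r, f p r := by
    rw [← Finset.sum_neg_distrib]
    refine Finset.sum_congr rfl fun p _ => ?_
    rw [← Finset.sum_neg_distrib]
    exact Finset.sum_congr rfl fun r _ => hf p r
  linarith

theorem Pi3_dd (phi : ℝ → ℝ) (p r : ℝ) : dd phi r p = dd phi p r := by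
  unfold dd
  by_cases h : p = r
  · rw [if_pos h, if_pos h.symm, h]
  · rw [if_neg h, if_neg (fun h' => h h'.symm), ← neg_sub (phi p) (phi r), ← neg_sub p r,
      neg_div_neg_eq]

theorem Pi3_exp (t : ℝ) (ht : 0 ≤ t) : t ^ 2 * Real.exp (-t) / 2 ≤ Real.exp (-t) - 1 + t := by
  have hd : ∀ t : ℝ, HasDerivAt (fun t : ℝ => Real.exp t * (t - 1) + 1 - t ^ 2 / 2)
      (t * (Real.exp t - 1)) t := by
    intro t
    have h1 := ((Real.hasDerivAt_exp t).mul ((hasDerivAt_id t).sub_const 1))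
    have h2 := (h1.add_const 1).sub ((hasDerivAt_pow 2 t).div_const 2)
    refine h2.congr_deriv ?_
    simp only [id]
    push_cast
    ring
  have hm : MonotoneOn (fun t : ℝ => Real.exp t * (t - 1) + 1 - t ^ 2 / 2) (Set.Ici 0) := by
    apply monotoneOn_of_deriv_nonneg (convex_Ici 0)
    · exact fun t _ => (hd t).continuousAt.continuousWithinAt
    · exact fun t _ => (hd t).differentiableAt.differentiableWithinAt
    · intro t ht
      rw [interior_Ici] at ht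
      rw [(hd t).deriv]
      have h0 : (0:ℝ) < t := ht
      have h1 := Real.add_one_le_exp t
      exact mul_nonneg h0.le (by linarith)
  have h0 := hm (Set.mem_Ici.2 le_rfl) (Set.mem_Ici.2 ht) ht
  simp only [Real.exp_zero] at h0
  have h1 : Real.exp (-t) * Real.exp t = 1 := by
    rw [← Real.exp_add]; simp
  have h2 := Real.exp_pos (-t)
  have h3 := mul_le_mul_of_nonneg_left h0 h2.le
  have h4 : Real.exp (-t) * (Real.exp t * (t - 1) + 1 - t ^ 2 / 2) =
      (Real.exp (-t) * Real.exp t) * (t - 1) + Real.exp (-t) - t ^ 2 * Real.exp (-t) / 2 := by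
    ring
  rw [h4, h1] at h3
  have h5 : Real.exp (-t) * (1 * (0 - 1) + 1 - 0 ^ 2 / 2) = 0 := by ring
  rw [h5] at h3
  linarith

/-- the scalar inequality -/
theorem Pi3_scal (al ga y : ℝ) (h1 : |ga| ≤ al) :
    2 * ga * y + 2 * al * y ^ 2 * Real.exp (-(2 * |y|)) ≤
      2 * al * Real.sinh y ^ 2 + 2 * ga * (Real.sinh y * Real.cosh y) := by
  have hal : 0 ≤ al := (abs_nonneg _).trans h1
  have key : ∀ t : ℝ, 0 ≤ t → ∀ g : ℝ, |g| ≤ al →
      2 * g * t + 2 * al * t ^ 2 * Real.exp (-(2 * t)) ≤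
        2 * al * Real.sinh t ^ 2 + 2 * g * (Real.sinh t * Real.cosh t) := by
    intro t ht g hg
    have e1 := Pi3_exp (2 * t) (by linarith)
    have e2 : Real.sinh (2 * t) = 2 * Real.sinh t * Real.cosh t := Real.sinh_two_mul t
    have e3 : Real.cosh (2 * t) = 1 + 2 * Real.sinh t ^ 2 := by
      rw [Real.cosh_two_mul, Real.cosh_sq]; ring
    have e4 : Real.exp (-(2 * t)) = Real.cosh (2 * t) - Real.sinh (2 * t) := by
      rw [Real.cosh_sub_sinh]
    have e5 : 2 * t ≤ Real.sinh (2 * t) := by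
      have := Real.self_le_sinh_iff.2 (show (0:ℝ) ≤ 2 * t by linarith)
      exact this
    have e6 : -al ≤ g := (abs_le.1 hg).1
    have e7 : 0 ≤ (al + g) * (Real.sinh (2 * t) - 2 * t) :=
      mul_nonneg (by linarith) (by linarith)
    have e8 := mul_le_mul_of_nonneg_left e1 hal
    have e9 : al * (Real.exp (-(2 * t)) - 1 + 2 * t) =
        al * (2 * Real.sinh t ^ 2) - al * (Real.sinh (2 * t) - 2 * t) := by
      rw [e4, e3]; ring
    have e10 : al * ((2 * t) ^ 2 * Real.exp (-(2 * t)) / 2) =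
        2 * al * t ^ 2 * Real.exp (-(2 * t)) := by ring
    rw [e9, e10] at e8
    have e11 : 2 * g * (Real.sinh t * Real.cosh t) = g * Real.sinh (2 * t) := by
      rw [e2]; ring
    rw [e11]
    nlinarith [e7, e8]
  rcases le_total 0 y with hy | hy
  · rw [abs_of_nonneg hy]
    exact key y hy ga h1
  · rw [abs_of_nonpos hy]
    have := key (-y) (by linarith) (-ga) (by rw [abs_neg]; exact h1)
    rw [Real.sinh_neg, Real.cosh_neg] at this
    have e1 : (-y) ^ 2 = y ^ 2 := by ring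
    have e2 : (-Real.sinh y) ^ 2 = Real.sinh y ^ 2 := by ring
    rw [e1, e2] at this
    nlinarith [this]

theorem Pi3_psd {c1 c2 c3 : ℝ} (h1 : 0 ≤ c1) (h3 : 0 ≤ c3) (h2 : c2 ^ 2 ≤ c1 * c3) (u v : ℝ) :
    0 ≤ c1 * u ^ 2 + 2 * c2 * (u * v) + c3 * v ^ 2 := by
  rcases h1.eq_or_lt with h | h
  · have hc : c2 = 0 := by
      rw [← h, zero_mul] at h2
      exact pow_eq_zero_iff (two_ne_zero) |>.1 (le_antisymm h2 (sq_nonneg _))
    rw [← h, hc]
    have := mul_nonneg h3 (sq_nonneg v)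
    linarith
  · have e : c1 * (c1 * u ^ 2 + 2 * c2 * (u * v) + c3 * v ^ 2) =
        (c1 * u + c2 * v) ^ 2 + (c1 * c3 - c2 ^ 2) * v ^ 2 := by ring
    have h4 : 0 ≤ c1 * (c1 * u ^ 2 + 2 * c2 * (u * v) + c3 * v ^ 2) := by
      rw [e]
      exact add_nonneg (sq_nonneg _) (mul_nonneg (by linarith) (sq_nonneg _))
    exact nonneg_of_mul_nonneg_right h4 h

/-- the form on pairs of complex numbers -/
noncomputable def Pi3_Q (c : ℝ × ℝ × ℝ) (u v : ℂ) : ℝ :=
  c.1 * (u * star u).re + 2 * c.2.1 * (u * star v).re + c.2.2 * (v * star v).re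

noncomputable def Pi3_B (c : ℝ × ℝ × ℝ) (u v u' v' : ℂ) : ℝ :=
  c.1 * (u * star u').re + c.2.1 * ((u * star v').re + (v * star u').re) +
    c.2.2 * (v * star v').re

theorem Pi3_Qlow {c : ℝ × ℝ × ℝ} {mu : ℝ} (hpsd : Psd (c.1 - mu, c.2.1, c.2.2 - mu)) (u v : ℂ) :
    mu * ((u * star u).re + (v * star v).re) ≤ Pi3_Q c u v := by
  obtain ⟨h1, h2, h3⟩ := hpsd
  simp only at h1 h2 h3
  have e1 := Pi3_psd h1 h2 h3 u.re v.re
  have e2 := Pi3_psd h1 h2 h3 u.im v.im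
  unfold Pi3_Q
  simp only [Complex.mul_re, Complex.star_def, Complex.conj_re, Complex.conj_im]
  nlinarith [e1, e2]

theorem Pi3_lin (c : ℝ × ℝ × ℝ) (k l : ℝ) (u v u' v' : ℂ) :
    Pi3_Q c ((k : ℂ) * u + (l : ℂ) * u') ((k : ℂ) * v + (l : ℂ) * v') =
      k ^ 2 * Pi3_Q c u v + 2 * (k * l) * Pi3_B c u v u' v' + l ^ 2 * Pi3_Q c u' v' := by
  unfold Pi3_Q Pi3_B
  simp only [Complex.mul_re, Complex.star_def, Complex.conj_re, Complex.conj_im, Complex.add_re,
    Complex.add_im, Complex.mul_im, Complex.ofReal_re, Complex.ofReal_im]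
  ring

theorem Pi3_nn (u : ℂ) : 0 ≤ (u * star u).re := by
  simp only [Complex.mul_re, Complex.star_def, Complex.conj_re, Complex.conj_im]
  nlinarith [sq_nonneg u.re, sq_nonneg u.im]

theorem Pi3_sc (k : ℝ) (u : ℂ) : (((k : ℂ) * u) * star ((k : ℂ) * u)).re =
    k ^ 2 * (u * star u).re := by
  simp only [Complex.mul_re, Complex.star_def, Complex.conj_re, Complex.conj_im,
    Complex.mul_im, Complex.ofReal_re, Complex.ofReal_im]
  ring

/-- the component inequality -/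
theorem Pi3_comp {c : ℝ × ℝ × ℝ} {mu : ℝ} (hmu : 0 ≤ mu)
    (hpsd : Psd (c.1 - mu, c.2.1, c.2.2 - mu)) {phi : ℝ → ℝ} {M : ℝ} (hb : ∀ t, |phi t| ≤ M)
    (p r : ℝ) (ae af se sf : ℂ) :
    Pi3_Q c ae af + dd phi p r * Pi3_B c ae af se sf +
      Real.exp (-2 * M) / 4 * mu *
        ((dd phi p r ^ 2 * (se * star se).re + (phi p - phi r) ^ 2 * (ae * star ae).re) +
          (dd phi p r ^ 2 * (sf * star sf).re + (phi p - phi r) ^ 2 * (af * star af).re)) ≤
    Pi3_Q c (zz phi p r ae se) (zz phi p r af sf) := by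
  have hM : 0 ≤ M := (abs_nonneg _).trans (hb 0)
  unfold zz
  by_cases hpr : p = r
  · subst hpr
    have e0 : sh phi p p = deriv phi p / 2 := by unfold sh; rw [if_pos rfl]
    have e1 : dd phi p p = deriv phi p := by unfold dd; rw [if_pos rfl]
    have e2 : Real.cosh ((phi p - phi p) / 2) = 1 := by simp
    rw [e0, e1, e2, Pi3_lin]
    have h1 := Pi3_Qlow hpsd se sf
    have h2 : Real.exp (-2 * M) ≤ 1 := by
      rw [Real.exp_le_one_iff]; linarith
    have h3 := Pi3_nn se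
    have h4 := Pi3_nn sf
    set d := deriv phi p
    have h5 : Real.exp (-2 * M) / 4 * mu * (d ^ 2 * ((se * star se).re + (sf * star sf).re)) ≤
        1 / 4 * (mu * (d ^ 2 * ((se * star se).re + (sf * star sf).re))) := by
      have h6 : 0 ≤ mu * (d ^ 2 * ((se * star se).re + (sf * star sf).re)) :=
        mul_nonneg hmu (mul_nonneg (sq_nonneg _) (by linarith))
      have h7 : Real.exp (-2 * M) / 4 * mu * (d ^ 2 * ((se * star se).re + (sf * star sf).re)) =
        Real.exp (-2 * M) / 4 * (mu * (d ^ 2 * ((se * star se).re + (sf * star sf).re))) := by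
        ring
      rw [h7]
      exact mul_le_mul_of_nonneg_right (by linarith) h6
    have h8 := mul_le_mul_of_nonneg_left h1 (sq_nonneg d)
    nlinarith [h5, h8]
  · have hne : p - r ≠ 0 := sub_ne_zero.2 hpr
    set y := (phi p - phi r) / 2 with hy
    have e0 : sh phi p r = Real.sinh y * (p - r)⁻¹ := by
      unfold sh; rw [if_neg hpr, div_eq_mul_inv]
    have e1 : dd phi p r = 2 * y * (p - r)⁻¹ := by
      unfold dd; rw [if_neg hpr, hy, div_eq_mul_inv]; ring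
    have hyM : |y| ≤ M := by
      rw [hy, abs_div, abs_two]
      have h1 := abs_sub (phi p) (phi r)
      have h2 := hb p
      have h3 := hb r
      rw [div_le_iff₀ (by norm_num)]
      linarith
    set k : ℝ := (p - r)⁻¹ with hk
    set ge : ℂ := (k : ℂ) * se with hge
    set gf : ℂ := (k : ℂ) * sf with hgf
    have e2 : ((sh phi p r : ℝ) : ℂ) * se = ((Real.sinh y : ℝ) : ℂ) * ge := by
      rw [e0, hge]; push_cast; ring
    have e3 : ((sh phi p r : ℝ) : ℂ) * sf = ((Real.sinh y : ℝ) : ℂ) * gf := by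
      rw [e0, hgf]; push_cast; ring
    rw [e2, e3, Pi3_lin]
    have e4 : dd phi p r * Pi3_B c ae af se sf = 2 * y * Pi3_B c ae af ge gf := by
      rw [e1, hge, hgf]
      unfold Pi3_B
      simp only [Complex.mul_re, Complex.star_def, Complex.conj_re, Complex.conj_im,
        Complex.mul_im, Complex.ofReal_re, Complex.ofReal_im]
      ring
    have e5 : dd phi p r ^ 2 * (se * star se).re = (2 * y) ^ 2 * (ge * star ge).re := by
      rw [hge, Pi3_sc, e1]; ring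
    have e6 : dd phi p r ^ 2 * (sf * star sf).re = (2 * y) ^ 2 * (gf * star gf).re := by
      rw [hgf, Pi3_sc, e1]; ring
    have e7 : phi p - phi r = 2 * y := by rw [hy]; ring
    rw [e4, e5, e6, e7]
    have q1 := Pi3_Qlow hpsd ae af
    have q2 := Pi3_Qlow hpsd ge gf
    have n1 := Pi3_nn ae
    have n2 := Pi3_nn af
    have n3 := Pi3_nn ge
    have n4 := Pi3_nn gf
    have s1 : 0 ≤ Pi3_Q c (((1:ℝ) : ℂ) * ae + ((1:ℝ) : ℂ) * ge)
        (((1:ℝ) : ℂ) * af + ((1:ℝ) : ℂ) * gf) :=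
      le_trans (mul_nonneg hmu (add_nonneg (Pi3_nn _) (Pi3_nn _))) (Pi3_Qlow hpsd _ _)
    have s2 : 0 ≤ Pi3_Q c (((1:ℝ) : ℂ) * ae + ((-1:ℝ) : ℂ) * ge)
        (((1:ℝ) : ℂ) * af + ((-1:ℝ) : ℂ) * gf) :=
      le_trans (mul_nonneg hmu (add_nonneg (Pi3_nn _) (Pi3_nn _))) (Pi3_Qlow hpsd _ _)
    rw [Pi3_lin] at s1 s2
    set qa := Pi3_Q c ae af
    set qg := Pi3_Q c ge gf
    set ga := Pi3_B c ae af ge gf
    have hga : |ga| ≤ (qa + qg) / 2 := by
      rw [abs_le]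
      constructor <;> nlinarith [s1, s2]
    have hs := Pi3_scal ((qa + qg) / 2) ga y hga
    have hexp : Real.exp (-2 * M) ≤ Real.exp (-(2 * |y|)) := by
      apply Real.exp_le_exp.2
      linarith
    have hcosh : Real.cosh y ^ 2 = Real.sinh y ^ 2 + 1 := Real.cosh_sq y
    rw [hcosh]
    set N := (ae * star ae).re + (af * star af).re + (ge * star ge).re + (gf * star gf).re
      with hN
    have hN0 : 0 ≤ N := by rw [hN]; linarith
    have hqN : mu * N ≤ qa + qg := by rw [hN]; nlinarith [q1, q2]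
    have k1 : y ^ 2 * Real.exp (-2 * M) * (mu * N) ≤
        y ^ 2 * Real.exp (-(2 * |y|)) * (qa + qg) := by
      apply mul_le_mul
      · exact mul_le_mul_of_nonneg_left hexp (sq_nonneg _)
      · exact hqN
      · exact mul_nonneg hmu hN0
      · exact mul_nonneg (sq_nonneg _) (Real.exp_pos _).le
    have k2 : Real.exp (-2 * M) / 4 * mu *
        ((2 * y) ^ 2 * (ge * star ge).re + (2 * y) ^ 2 * (ae * star ae).re +
          ((2 * y) ^ 2 * (gf * star gf).re + (2 * y) ^ 2 * (af * star af).re)) =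
        y ^ 2 * Real.exp (-2 * M) * (mu * N) := by
      rw [hN]; ring
    rw [k2]
    nlinarith [hs, k1]

theorem Pi3_sum {m : ℕ} (A1 A2 A3 B1 B2 B3 B4 D1 D2 Z1 Z2 Z3 : Fin m → Fin m → ℝ)
    (c1 c2 c3 K : ℝ)
    (h : ∀ p r, c1 * A1 p r + 2 * c2 * A2 p r + c3 * A3 p r +
      (c1 * B1 p r + c2 * (B2 p r + B3 p r) + c3 * B4 p r) + K * (D1 p r + D2 p r) ≤
      c1 * Z1 p r + 2 * c2 * Z2 p r + c3 * Z3 p r) :
    c1 * (∑ p, ∑ r, A1 p r) + 2 * c2 * (∑ p, ∑ r, A2 p r) + c3 * (∑ p, ∑ r, A3 p r) +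
      (c1 * (∑ p, ∑ r, B1 p r) + c2 * ((∑ p, ∑ r, B2 p r) + (∑ p, ∑ r, B3 p r)) +
        c3 * (∑ p, ∑ r, B4 p r)) + K * ((∑ p, ∑ r, D1 p r) + (∑ p, ∑ r, D2 p r)) ≤
      c1 * (∑ p, ∑ r, Z1 p r) + 2 * c2 * (∑ p, ∑ r, Z2 p r) + c3 * (∑ p, ∑ r, Z3 p r) := by
  have h1 := Finset.sum_le_sum (s := Finset.univ) fun p (_ : p ∈ Finset.univ) =>
    Finset.sum_le_sum (s := Finset.univ) fun r (_ : r ∈ Finset.univ) => h p r
  simp only [Finset.sum_add_distrib, ← Finset.mul_sum] at h1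
  exact h1

theorem Pi3_cross {m : ℕ} (phi : ℝ → ℝ) (lam : Fin m → ℝ) (a s : Mt m) (ha : a.IsHermitian)
    (hs : s.IsHermitian) (Z : Mt m)
    (hZ : ∀ p r, Z p r = ((dd phi (lam p) (lam r) : ℝ) : ℂ) * s p r +
        a p r * ((phi (lam r) - phi (lam p) : ℝ) : ℂ)) :
    ∑ p, ∑ r, (Z p r * star (Z p r)).re =
      ∑ p, ∑ r, (dd phi (lam p) (lam r) ^ 2 * (s p r * star (s p r)).re +
        (phi (lam p) - phi (lam r)) ^ 2 * (a p r * star (a p r)).re) := by
  have h0 := Pi3_anti (fun p r => 2 * dd phi (lam p) (lam r) * (phi (lam r) - phi (lam p)) *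
      (s p r * star (a p r)).re) (by
    intro p r
    have e1 : s r p = star (s p r) := (hs.apply r p).symm
    have e2 : a r p = star (a p r) := (ha.apply r p).symm
    simp only [e1, e2, Pi3_dd phi (lam p) (lam r)]
    simp only [Complex.mul_re, Complex.star_def, Complex.conj_re, Complex.conj_im]
    ring)
  have h1 : ∀ p r, (Z p r * star (Z p r)).re =
      (dd phi (lam p) (lam r) ^ 2 * (s p r * star (s p r)).re +
        (phi (lam p) - phi (lam r)) ^ 2 * (a p r * star (a p r)).re) +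
      2 * dd phi (lam p) (lam r) * (phi (lam r) - phi (lam p)) * (s p r * star (a p r)).re := by
    intro p r
    rw [hZ]
    simp only [Complex.mul_re, Complex.star_def, Complex.conj_re, Complex.conj_im,
      Complex.add_re, Complex.add_im, Complex.mul_im, Complex.ofReal_re, Complex.ofReal_im]
    ring
  simp only [h1]
  rw [← add_zero (∑ p, ∑ r, (dd phi (lam p) (lam r) ^ 2 * (s p r * star (s p r)).re +
        (phi (lam p) - phi (lam r)) ^ 2 * (a p r * star (a p r)).re)), ← h0]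
  simp only [Finset.sum_add_distrib]

theorem Pi3_lnsum {m : ℕ} (phi : ℝ → ℝ) (lam : Fin m → ℝ) (b a s : Mt m) (hb : b.IsHermitian)
    (ha : a.IsHermitian) (hs : s.IsHermitian) (Z : Mt m)
    (hZ : ∀ p r, Z p r = ((dd phi (lam p) (lam r) : ℝ) : ℂ) * s p r +
        a p r * ((phi (lam r) - phi (lam p) : ℝ) : ℂ)) :
    ∑ p, ∑ r, (b p r * Z r p).re =
      ∑ p, ∑ r, dd phi (lam p) (lam r) * (b p r * star (s p r)).re := by
  have h0 := Pi3_anti (fun p r => (phi (lam p) - phi (lam r)) *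
      (b p r * star (a p r)).re) (by
    intro p r
    have e1 : b r p = star (b p r) := (hb.apply r p).symm
    have e2 : a r p = star (a p r) := (ha.apply r p).symm
    simp only [e1, e2]
    simp only [Complex.mul_re, Complex.star_def, Complex.conj_re, Complex.conj_im]
    ring)
  have h1 : ∀ p r, (b p r * Z r p).re =
      dd phi (lam p) (lam r) * (b p r * star (s p r)).re +
      (phi (lam p) - phi (lam r)) * (b p r * star (a p r)).re := by
    intro p r
    have e1 : s r p = star (s p r) := (hs.apply r p).symm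
    have e2 : a r p = star (a p r) := (ha.apply r p).symm
    rw [hZ, e1, e2, Pi3_dd phi (lam p) (lam r)]
    simp only [Complex.mul_re, Complex.star_def, Complex.conj_re, Complex.conj_im,
      Complex.add_re, Complex.add_im, Complex.mul_im, Complex.ofReal_re, Complex.ofReal_im]
    ring
  simp only [h1]
  rw [← add_zero (∑ p, ∑ r, dd phi (lam p) (lam r) * (b p r * star (s p r)).re), ← h0]
  simp only [Finset.sum_add_distrib]

theorem kf_lower {m : ℕ} {H G : ℝ × ℝ → Mt m} {x : ℝ × ℝ} (h : PtD H G x) {phi : ℝ → ℝ}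
    (hc : ContDiff ℝ 1 phi) {M : ℝ} (hb : ∀ t, |phi t| ≤ M) (e f : ℝ × ℝ)
    {c : ℝ × ℝ × ℝ} {mu : ℝ} (hmu : 0 ≤ mu) (hpsd : Psd (c.1 - mu, c.2.1, c.2.2 - mu)) :
    qc e f c H x +
      (c.1 * ln e e H (Xf phi H G) x +
        c.2.1 * (ln e f H (Xf phi H G) x + ln f e H (Xf phi H G) x) +
        c.2.2 * ln f f H (Xf phi H G) x) +
      Real.exp (-2 * M) / 4 * mu * (dn e H (Xf phi H G) x + dn f H (Xf phi H G) x) ≤
    qc e f c (Kf phi H G) x := by
  obtain ⟨Q, lam, a, s, ⟨hQ, hH, hG⟩, ha, hs, -, -, haa, hqH, -, hqK, hpd⟩ := h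
  have hpdt := hpd phi hc
  have hdn : ∀ t, dn t H (Xf phi H G) x =
      ∑ p, ∑ r, (dd phi (lam p) (lam r) ^ 2 * (s t p r * star (s t p r)).re +
        (phi (lam p) - phi (lam r)) ^ 2 * (a t p r * star (a t p r)).re) := by
    intro t
    unfold dn
    rw [hpdt t, hH, Pi3_dn hQ]
    exact Pi3_cross phi lam (a t) (s t) (ha t) (hs t) _ (fun p r => rfl)
  have hln : ∀ t t', ln t t' H (Xf phi H G) x =
      ∑ p, ∑ r, dd phi (lam p) (lam r) * (a t p r * star (s t' p r)).re := by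
    intro t t'
    unfold ln
    rw [haa t, hpdt t', Pi3_ln hQ]
    exact Pi3_lnsum phi lam (a t) (a t') (s t') (ha t) (ha t') (hs t') _ (fun p r => rfl)
  unfold qc
  rw [hdn, hdn, hln e e, hln e f, hln f e, hln f f, hqH, hqH, hqH, hqK phi hc, hqK phi hc,
    hqK phi hc]
  refine Pi3_sum _ _ _ _ _ _ _ _ _ _ _ _ c.1 c.2.1 c.2.2 (Real.exp (-2 * M) / 4 * mu) ?_
  intro p r
  have hcmp := Pi3_comp hmu hpsd hb (lam p) (lam r) (a e p r) (a f p r) (s e p r) (s f p r)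
  unfold Pi3_Q Pi3_B at hcmp
  refine le_trans (le_of_eq ?_) hcmp
  ring

end H80HM
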