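import Pool.Agent.H80.HM.Nc1
import Pool.Agent.H80.HM.Pi3
import Pool.Agent.H80.HM.Alg

set_option autoImplicit false

/-!
# Row Nl1: integrated lower bound

Integrate kf_lower (row Pi3) with c = ck s p r, mu = exp(-s): c - mu has trace 2 sinh s >= 0, entries cosh s - e^{-s} +- S p = S(1 +- p) >= 0
(|p| <= 1, S = sinh s) and determinant S^2(1-p^2) - S^2 r^2 = 0. ln is integrable: |ln t t'| <= (q t t + dn t')/2 (ln_abs, row Alg), measurable
(ln_meas). exp(-2M)/4 * exp(-s) = exp(-2M-s)/4. The linear part: c11 = cosh s + S p, c12 = S r, c22 = cosh s - S p: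
 c11 ln ee + c12(ln ef + ln fe) + c22 ln ff = cosh s (ln ee + ln ff) + S (p (ln ee - ln ff) + r (ln ef + ln fe)).
Qc H part: En e f (ck s p r) H.
-/

namespace H80HM

open Matrix MeasureTheory Set
open scoped ComplexOrder

variable {m : ℕ} {A B C : Mt m} {H G X : ℝ × ℝ → Mt m}

theorem ln_int (hH : Cl A B C H) (hX : Lz X) {t t' : ℝ × ℝ}
    (hd : IntegrableOn (dn t' H X) U) : IntegrableOn (ln t t' H X) U := by
  have hq := q_int hH t t
  have hK : IntegrableOn (fun x => (q t t H x + dn t' H X x) / 2) U := (hq.add hd).div_const 2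
  refine hK.mono' (ln_meas hH.lip hH.pos hX t t') ?_
  filter_upwards [ae_restrict_mem Mea_isOpen.measurableSet] with x hx
  have hn := pos_near hH.pos hx
  have h1 := ln_abs hn X t t'
  have h2 := q_nonneg hn t
  have h3 : 0 ≤ dn t' H X x := n2_nonneg (hH.pos x (u_sub hx)) _
  have h4 := Real.sq_sqrt h2
  have h5 := Real.sq_sqrt h3
  rw [Real.norm_eq_abs]
  nlinarith [sq_nonneg (Real.sqrt (q t t H x) - Real.sqrt (dn t' H X x))]

theorem kf_lower_int (hA : IsUnit A.det) (hB : IsUnit B.det) (hC : IsUnit C.det)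
    {e f : ℝ × ℝ} {s p r M : ℝ} (hpr : p ^ 2 + r ^ 2 = 1) (hs : 0 ≤ s) (hM1 : M ≤ 1)
    {phi : ℝ → ℝ} (htr : Tr M phi) (hH : Cl A B C H) (hG : Cl A B C G) :
    En e f (ck s p r) H +
      Real.cosh s * (∫ x in U, (ln e e H (Xf phi H G) x + ln f f H (Xf phi H G) x)) +
      Real.sinh s * (∫ x in U, (p * (ln e e H (Xf phi H G) x - ln f f H (Xf phi H G) x) +
        r * (ln e f H (Xf phi H G) x + ln f e H (Xf phi H G) x))) +
      Real.exp (-2 * M - s) / 4 *
        (∫ x in U, (dn e H (Xf phi H G) x + dn f H (Xf phi H G) x)) ≤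
    En e f (ck s p r) (Kf phi H G) := by
  have hb1 : ∀ t, |phi t| ≤ 1 := fun t => (htr.bd t).trans hM1
  have hK : Cl A B C (Kf phi H G) := kf_cl hA hB hC hH hG htr.cd htr.d0 htr.d1
  have hX : Fd A B C (Xf phi H G) := xf_fd hA hB hC hH hG htr.cd
  have hde : IntegrableOn (dn e H (Xf phi H G)) U :=
    xf_dn_int hA hB hC hH hG htr.cd htr.d0 htr.d1 hb1 e
  have hdf : IntegrableOn (dn f H (Xf phi H G)) U :=
    xf_dn_int hA hB hC hH hG htr.cd htr.d0 htr.d1 hb1 f
  have hee : IntegrableOn (ln e e H (Xf phi H G)) U := ln_int hH hX.lip hde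
  have hfe : IntegrableOn (ln f e H (Xf phi H G)) U := ln_int hH hX.lip hde
  have hef : IntegrableOn (ln e f H (Xf phi H G)) U := ln_int hH hX.lip hdf
  have hff : IntegrableOn (ln f f H (Xf phi H G)) U := ln_int hH hX.lip hdf
  have hqH : IntegrableOn (qc e f (ck s p r) H) U := qc_int hH e f _
  have hqK : IntegrableOn (qc e f (ck s p r) (Kf phi H G)) U := qc_int hK e f _
  have i1 : IntegrableOn (fun x => ln e e H (Xf phi H G) x + ln f f H (Xf phi H G) x) U :=
    hee.add hff
  have i2 : IntegrableOn (fun x => p * (ln e e H (Xf phi H G) x - ln f f H (Xf phi H G) x) +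
        r * (ln e f H (Xf phi H G) x + ln f e H (Xf phi H G) x)) U :=
    ((hee.sub hff).const_mul p).add ((hef.add hfe).const_mul r)
  have i3 : IntegrableOn (fun x => dn e H (Xf phi H G) x + dn f H (Xf phi H G) x) U :=
    hde.add hdf
  set mu := Real.exp (-s) with hmu
  have hS : 0 ≤ Real.sinh s := Real.sinh_nonneg_iff.2 hs
  have hcm : Real.cosh s - mu = Real.sinh s := by
    rw [hmu, Real.cosh_eq, Real.sinh_eq]; ring
  have hp1 : p ≤ 1 := by nlinarith [sq_nonneg r, sq_nonneg (p - 1)]
  have hp2 : -1 ≤ p := by nlinarith [sq_nonneg r, sq_nonneg (p + 1)]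
  have hpsd : Psd ((ck s p r).1 - mu, (ck s p r).2.1, (ck s p r).2.2 - mu) := by
    refine ⟨?_, ?_, ?_⟩
    · show 0 ≤ Real.cosh s + Real.sinh s * p - mu
      nlinarith
    · show 0 ≤ Real.cosh s - Real.sinh s * p - mu
      nlinarith
    · show (Real.sinh s * r) ^ 2 ≤
        (Real.cosh s + Real.sinh s * p - mu) * (Real.cosh s - Real.sinh s * p - mu)
      have h1 : Real.cosh s + Real.sinh s * p - mu = Real.sinh s * (1 + p) := by
        rw [← hcm]; ring
      have h2 : Real.cosh s - Real.sinh s * p - mu = Real.sinh s * (1 - p) := by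
        rw [← hcm]; ring
      rw [h1, h2]
      have h3 : r ^ 2 = 1 - p ^ 2 := by linarith
      rw [mul_pow, h3]
      apply le_of_eq
      ring
  have hkey : ∀ᵐ x ∂(volume.restrict U),
      qc e f (ck s p r) H x +
        Real.cosh s * (ln e e H (Xf phi H G) x + ln f f H (Xf phi H G) x) +
        Real.sinh s * (p * (ln e e H (Xf phi H G) x - ln f f H (Xf phi H G) x) +
          r * (ln e f H (Xf phi H G) x + ln f e H (Xf phi H G) x)) +
        Real.exp (-2 * M - s) / 4 * (dn e H (Xf phi H G) x + dn f H (Xf phi H G) x) ≤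
      qc e f (ck s p r) (Kf phi H G) x := by
    filter_upwards [ptd_ae hH hG] with x hx
    have h := kf_lower hx htr.cd htr.bd e f (c := ck s p r) (mu := mu) (Real.exp_pos _).le hpsd
    have he : Real.exp (-2 * M - s) = Real.exp (-2 * M) * mu := by
      rw [hmu, ← Real.exp_add]; ring_nf
    rw [he]
    refine le_trans (le_of_eq ?_) h
    simp only [ck]
    ring
  have j1 : IntegrableOn (fun x => qc e f (ck s p r) H x +
        Real.cosh s * (ln e e H (Xf phi H G) x + ln f f H (Xf phi H G) x)) U :=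
    hqH.add (i1.const_mul _)
  have j2 : IntegrableOn (fun x => qc e f (ck s p r) H x +
        Real.cosh s * (ln e e H (Xf phi H G) x + ln f f H (Xf phi H G) x) +
        Real.sinh s * (p * (ln e e H (Xf phi H G) x - ln f f H (Xf phi H G) x) +
          r * (ln e f H (Xf phi H G) x + ln f e H (Xf phi H G) x))) U :=
    j1.add (i2.const_mul _)
  have j3 := j2.add (i3.const_mul (Real.exp (-2 * M - s) / 4))
  have hI := integral_mono_ae (μ := volume.restrict U) j3 hqK hkey
  refine le_trans (le_of_eq ?_) hI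
  unfold En
  simp only [Pi.add_apply]
  rw [integral_add j2 (i3.const_mul _), integral_add j1 (i2.const_mul _),
    integral_add hqH (i1.const_mul _), integral_const_mul, integral_const_mul,
    integral_const_mul]

end H80HM
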