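import Pool.Agent.H80.HM.Alg

set_option autoImplicit false

/-!
# Row Wz: pointwise Weitzenboeck identity, linear term, real and imaginary parts

Write a_t = aa t H x (H-selfadjoint, aa_sa), Y^+ = adj (H x) Y = H Y* H^{-1} (antilinear involution, (YZ)^+ = Z^+ Y^+, tr(Y^+) = conj tr Y,
n2 H Y = tr(Y Y^+), in particular tr(YY^+) is real), [.,.] commutator, P_t = nab t H V x = pd t V x - [a_t, V], A_t = [a_t, V], so pd t V x = P_t + A_t.
By pd_adj: pd t N x = (pd t V x)^+ + 2[a_t, N], N = V^+; and A_t^+ = [a_t,V]^+ = [N,a_t] = -[a_t,N]. So pd t N x = P_t^+ + A_t^+ - 2A_t^+ = P_t^+ - A_t^+.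
(1) weitz: n2(pd t V) = |P_t|^2 + |A_t|^2 + 2Re tr(P_t A_t^+).
  ln t t H Z = Re tr(a_t pd t Z), pd t Z = [pd t V, N] + [V, pd t N] (pd_mul, pd_add) and
  tr(a[pd V,N]) = tr(pd V [N,a]) = tr((P+A) A^+), tr(a[V,pd N]) = tr(pd N [a,V]) = tr((P^+ - A^+) A): sum = tr(PA^+) + tr(P^+A) + tr(AA^+) - tr(A^+A)
  = 2Re tr(PA^+). So dn e + dn f = sum_t (|P_t|^2+|A_t|^2) + ln e e Z + ln f f Z.
  n2(P_e - i P_f) = |P_e|^2+|P_f|^2 - 2Im tr(P_e P_f^+);  n2(A_e + i A_f) = |A_e|^2+|A_f|^2 + 2Im tr(A_e A_f^+).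
  J = tr(pd e V pd f N - pd f V pd e N) = tr((P_e+A_e)(P_f^+-A_f^+)) - tr((P_f+A_f)(P_e^+-A_e^+)); imaginary part: the pure terms give
  2Im tr(P_eP_f^+) - 2Im tr(A_eA_f^+) (tr(P_fP_e^+) = conj tr(P_eP_f^+)); mixed terms: -tr(P_eA_f^+) - tr(A_fP_e^+) = -2Re(..) real, tr(A_eP_f^+)+tr(P_fA_e^+)
  real. So n2(P_e-iP_f) + n2(A_e+iA_f) + Im J = sum_t(|P_t|^2+|A_t|^2). (Note A_e + i A_f = [a_e + i a_f, V].)
(2) linear_term: V = X + iX', X, X' H-selfadjoint near x. nab_t V = pd t V - [a_t,V]. tr((a_e - i a_f)(pd e V - i pd f V)) =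
  tr((a_e-ia_f)(P_e - iP_f)) because tr((a_e-ia_f)[a_e-ia_f,V]) = 0. Real part of the left side: expand; it is
  Re tr(a_e pd e X) - Re tr(a_f pd f X) + Re tr(a_e pd f X') + Re tr(a_f pd e X') - Im tr(a_e pd e X') + Im tr(a_e pd f X) + Im tr(a_f pd e X)
  + Im tr(a_f pd f X'). With pd t X = S + [a_t,X], S selfadjoint (from X^+ = X near x and pd_adj: pd t X = (pd t X)^+ + 2[a_t,X], so
  pd t X - [a_t,X] is selfadjoint): Im tr(a_e pd e X') = Im tr(a_e[a_e,X']) = 0, Im tr(a_f pd f X') = 0, and Im tr(a_e pd f X) + Im tr(a_f pd e X) =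
  Im tr(a_e[a_f,X] + a_f[a_e,X]) = 0. So the real part is ln e e X - ln f f X + ln e f X' + ln f e X'.  By tr_cs its modulus is at most
  sqrt(n2(a_e - i a_f)) sqrt(n2(P_e - iP_f)), n2(a_e-ia_f) = |a_e|^2+|a_f|^2 - 2Im tr(a_e a_f^+)= q e e + q f f (tr(a_e a_f) is real: both selfadjoint).
(3) re_im: V = X+iX': dn t V = n2(dX + i dX') = |dX|^2+|dX'|^2+2Re tr(dX (i dX')^+) = .. + 2 Im tr(dX (dX')^+), dX = S+[a,X], (dX')^+ = S'-[a,X'];
  Im tr(dX(dX')^+) = -i(-tr(S[a,X'])+tr([a,X]S')) (the terms tr(SS'), tr([a,X][a,X']) are real, the others imaginary); and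
  tr(a pd Z') with Z' = i[X,X']: i tr(a[dX,X']+a[X,dX']) = i(tr(dX[X',a])+tr(dX'[a,X])) = i(-tr(S[a,X'])+tr(S'[a,X])) (the terms
  -tr([a,X][a,X']) + tr([a,X'][a,X]) cancel) which is real = ln t t Z'. Hence Im tr(dX(dX')^+) = -ln t t Z'.
-/

namespace H80HM

open Matrix MeasureTheory Set Filter Topology
open scoped ComplexOrder

variable {m : ℕ}

private theorem Wz_add (H Y Z : Mt m) : adj H (Y + Z) = adj H Y + adj H Z := by
  unfold adj
  rw [conjTranspose_add, Matrix.mul_add, Matrix.add_mul]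

private theorem Wz_sub (H Y Z : Mt m) : adj H (Y - Z) = adj H Y - adj H Z := by
  unfold adj
  rw [conjTranspose_sub, Matrix.mul_sub, Matrix.sub_mul]

private theorem Wz_smul (H Y : Mt m) (c : ℂ) : adj H (c • Y) = (star c) • adj H Y := by
  unfold adj
  rw [conjTranspose_smul, Matrix.mul_smul, Matrix.smul_mul]

private theorem Wz_mul {H : Mt m} (hH : H.PosDef) (Y Z : Mt m) :
    adj H (Y * Z) = adj H Z * adj H Y := by
  unfold adj
  have hu : IsUnit H.det := (Matrix.isUnit_iff_isUnit_det _).1 hH.isUnit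
  rw [conjTranspose_mul]
  simp only [Matrix.mul_assoc]
  rw [← Matrix.mul_assoc H⁻¹ H, Matrix.nonsing_inv_mul _ hu, Matrix.one_mul]

private theorem Wz_invol {H : Mt m} (hH : H.PosDef) (Y : Mt m) : adj H (adj H Y) = Y := by
  unfold adj
  have hu : IsUnit H.det := (Matrix.isUnit_iff_isUnit_det _).1 hH.isUnit
  have hh : Hᴴ = H := hH.isHermitian
  rw [conjTranspose_mul, conjTranspose_mul, conjTranspose_conjTranspose,
    Matrix.conjTranspose_nonsing_inv, hh]
  simp only [Matrix.mul_assoc]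
  rw [Matrix.mul_nonsing_inv _ hu, Matrix.mul_one, ← Matrix.mul_assoc H H⁻¹,
    Matrix.mul_nonsing_inv _ hu, Matrix.one_mul]

private theorem Wz_tr {H : Mt m} (hH : H.PosDef) (Y : Mt m) :
    trace (adj H Y) = star (trace Y) := by
  unfold adj
  have hu : IsUnit H.det := (Matrix.isUnit_iff_isUnit_det _).1 hH.isUnit
  rw [Matrix.mul_assoc, Matrix.trace_mul_comm, Matrix.mul_assoc, Matrix.nonsing_inv_mul _ hu,
    Matrix.mul_one, Matrix.trace_conjTranspose]

private theorem Wz_n2 (H Y : Mt m) : n2 H Y = (trace (Y * adj H Y)).re := by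
  unfold n2 adj
  simp only [Matrix.mul_assoc]

private theorem Wz_of {H Y : Mt m} (hH : H.PosDef) (h : Y * H = H * Yᴴ) : adj H Y = Y := by
  unfold adj
  have hu : IsUnit H.det := (Matrix.isUnit_iff_isUnit_det _).1 hH.isUnit
  rw [← h, Matrix.mul_assoc, Matrix.mul_nonsing_inv _ hu, Matrix.mul_one]

/-- symmetry of the inner product -/
private theorem Wz_conj {H : Mt m} (hH : H.PosDef) (Y Z : Mt m) :
    trace (Z * adj H Y) = star (trace (Y * adj H Z)) := by
  rw [← Wz_tr hH, Wz_mul hH, Wz_invol hH]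

private theorem Wz_congr {X Y : ℝ × ℝ → Mt m} {x : ℝ × ℝ} (h : ∀ᶠ y in 𝓝 x, X y = Y y)
    (t : ℝ × ℝ) : pd t X x = pd t Y x := by
  ext i j
  simp only [pd, Matrix.of_apply]
  have h1 : (fun y => X y i j) =ᶠ[𝓝 x] (fun y => Y y i j) := by
    filter_upwards [h] with y hy
    rw [hy]
  rw [h1.fderiv_eq]

/-- the covariant derivative of a selfadjoint field is selfadjoint -/
private theorem Wz_sa {H X : ℝ × ℝ → Mt m} {x : ℝ × ℝ} (h : ∀ᶠ y in 𝓝 x, (H y).PosDef)
    (dH : ∀ i j, DifferentiableAt ℝ (fun y => H y i j) x)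
    (dX : ∀ i j, DifferentiableAt ℝ (fun y => X y i j) x)
    (sX : ∀ᶠ y in 𝓝 x, X y * H y = H y * (X y)ᴴ) (t : ℝ × ℝ) :
    adj (H x) (pd t X x - (aa t H x * X x - X x * aa t H x)) =
      pd t X x - (aa t H x * X x - X x * aa t H x) := by
  have hp : (H x).PosDef := h.self_of_nhds
  have e1 : adj (H x) (X x) = X x := Wz_of hp sX.self_of_nhds
  have e2 : adj (H x) (aa t H x) = aa t H x := Wz_of hp (aa_sa h t)
  have e3 : pd t (fun y => adj (H y) (X y)) x = pd t X x := by
    apply Wz_congr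
    filter_upwards [h, sX] with y hy hy'
    exact Wz_of hy hy'
  have e4 := pd_adj dH hp dX t
  rw [e3, e1] at e4
  have e5 : adj (H x) (pd t X x) = pd t X x - (2 : ℂ) • (aa t H x * X x - X x * aa t H x) := by
    rw [eq_sub_iff_add_eq]
    exact e4.symm
  rw [Wz_sub, e5, Wz_sub, Wz_mul hp, Wz_mul hp, e1, e2, two_smul]
  abel

private theorem Wz_alg {H : Mt m} (hH : H.PosDef) (P A R B a b V : Mt m)
    (ha : adj H a = a) (hb : adj H b = b) (hA : A = a * V - V * a) (hB : B = b * V - V * b) :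
    n2 H (P + A) + n2 H (R + B) =
      n2 H (P - Complex.I • R) + n2 H (A + Complex.I • B) +
      ((trace (a * ((P + A) * adj H V + V * (adj H P - adj H A) -
          ((adj H P - adj H A) * V + adj H V * (P + A))))).re +
        (trace (b * ((R + B) * adj H V + V * (adj H R - adj H B) -
          ((adj H R - adj H B) * V + adj H V * (R + B))))).re) +
      (trace ((P + A) * (adj H R - adj H B) - (R + B) * (adj H P - adj H A))).im := by
  have key : ∀ (P A a : Mt m), adj H a = a → A = a * V - V * a →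
      (trace (a * ((P + A) * adj H V + V * (adj H P - adj H A) -
          ((adj H P - adj H A) * V + adj H V * (P + A))))).re = 2 * (trace (P * adj H A)).re := by
    intro P A a ha hA
    have hA' : adj H A = adj H V * a - a * adj H V := by
      rw [hA, Wz_sub, Wz_mul hH, Wz_mul hH, ha]
    have e1 : trace (a * ((P + A) * adj H V + V * (adj H P - adj H A) -
          ((adj H P - adj H A) * V + adj H V * (P + A)))) =
        trace ((P + A) * adj H A) + trace (A * (adj H P - adj H A)) := by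
      have f1 : trace (a * ((P + A) * adj H V)) = trace ((P + A) * (adj H V * a)) := by
        rw [← Matrix.mul_assoc (P + A), Matrix.trace_mul_comm]
      have f2 : trace (a * (adj H V * (P + A))) = trace ((P + A) * (a * adj H V)) := by
        rw [← Matrix.mul_assoc, Matrix.trace_mul_comm]
      have f3 : trace (a * ((adj H P - adj H A) * V)) = trace ((V * a) * (adj H P - adj H A)) := by
        rw [← Matrix.mul_assoc, Matrix.trace_mul_comm, ← Matrix.mul_assoc]
      have f4 : trace (a * (V * (adj H P - adj H A))) = trace ((a * V) * (adj H P - adj H A)) := by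
        rw [Matrix.mul_assoc]
      rw [Matrix.mul_sub, Matrix.mul_add, Matrix.mul_add, Matrix.trace_sub, Matrix.trace_add,
        Matrix.trace_add, f1, f2, f3, f4]
      conv_rhs => rw [hA', Matrix.mul_sub, Matrix.trace_sub]
      have f5 : trace (A * (adj H P - (adj H V * a - a * adj H V))) =
          trace ((a * V) * (adj H P - adj H A)) - trace ((V * a) * (adj H P - adj H A)) := by
        rw [← hA', ← Matrix.trace_sub, ← Matrix.sub_mul, ← hA]
      rw [f5]
      ring
    rw [e1, Matrix.add_mul, Matrix.mul_sub, Matrix.trace_add, Matrix.trace_sub,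
      Wz_conj hH P A]
    simp only [Complex.add_re, Complex.sub_re, Complex.star_def, Complex.conj_re]
    ring
  rw [key P A a ha hA, key R B b hb hB]
  simp only [Wz_n2, Wz_add, Wz_sub, Wz_smul, Matrix.add_mul, Matrix.mul_add, Matrix.sub_mul,
    Matrix.mul_sub, Matrix.trace_add, Matrix.trace_sub, Matrix.smul_mul, Matrix.mul_smul,
    Matrix.trace_smul, smul_eq_mul]
  rw [Wz_conj hH P A, Wz_conj hH R B, Wz_conj hH P R, Wz_conj hH A B, Wz_conj hH P B,
    Wz_conj hH R A]
  simp only [Complex.add_re, Complex.sub_re, Complex.add_im, Complex.sub_im, Complex.star_def,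
    Complex.conj_re, Complex.conj_im, Complex.mul_re, Complex.mul_im, Complex.I_re, Complex.I_im]
  ring

theorem weitz {H V : ℝ × ℝ → Mt m} {x : ℝ × ℝ} (h : ∀ᶠ y in 𝓝 x, (H y).PosDef)
    (dH : ∀ i j, DifferentiableAt ℝ (fun y => H y i j) x)
    (dV : ∀ i j, DifferentiableAt ℝ (fun y => V y i j) x) (e f : ℝ × ℝ) :
    dn e H V x + dn f H V x =
      n2 (H x) (nab e H V x - Complex.I • nab f H V x) +
      n2 (H x) ((aa e H x + Complex.I • aa f H x) * V x -
        V x * (aa e H x + Complex.I • aa f H x)) +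
      (ln e e H (fun y => V y * adj (H y) (V y) - adj (H y) (V y) * V y) x +
        ln f f H (fun y => V y * adj (H y) (V y) - adj (H y) (V y) * V y) x) +
      (trace (pd e V x * pd f (fun y => adj (H y) (V y)) x -
        pd f V x * pd e (fun y => adj (H y) (V y)) x)).im := by
  have hp : (H x).PosDef := h.self_of_nhds
  have hu : IsUnit (H x).det := (Matrix.isUnit_iff_isUnit_det _).1 hp.isUnit
  have dN : ∀ i j, DifferentiableAt ℝ (fun y => (adj (H y) (V y)) i j) x := by
    intro i j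
    exact da_mul (X := fun y => H y * (V y)ᴴ) (Y := fun y => (H y)⁻¹)
      (da_mul dH (da_star dV)) (da_inv dH hu) i j
  have hN : ∀ t, pd t (fun y => adj (H y) (V y)) x = adj (H x) (nab t H V x) -
      adj (H x) (aa t H x * V x - V x * aa t H x) := by
    intro t
    have e2 : adj (H x) (aa t H x) = aa t H x := Wz_of hp (aa_sa h t)
    rw [pd_adj dH hp dV t, nab, Wz_sub, Wz_sub, Wz_mul hp, Wz_mul hp, e2, two_smul]
    abel
  have hV : ∀ t, pd t V x = nab t H V x + (aa t H x * V x - V x * aa t H x) := by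
    intro t
    rw [nab]
    abel
  have hZ : ∀ t, pd t (fun y => V y * adj (H y) (V y) - adj (H y) (V y) * V y) x =
      pd t V x * adj (H x) (V x) + V x * pd t (fun y => adj (H y) (V y)) x -
        (pd t (fun y => adj (H y) (V y)) x * V x + adj (H x) (V x) * pd t V x) := by
    intro t
    have e1 : (fun y => V y * adj (H y) (V y) - adj (H y) (V y) * V y) =
        (fun y => (1 : ℂ) • (V y * adj (H y) (V y)) + (-1 : ℂ) • (adj (H y) (V y) * V y)) := by
      funext y
      rw [one_smul, neg_one_smul]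
      abel
    rw [e1, pd_add (X := fun y => V y * adj (H y) (V y)) (Y := fun y => adj (H y) (V y) * V y)
      (da_mul dV dN) (da_mul dN dV), pd_mul dV dN, pd_mul (X := fun y => adj (H y) (V y)) dN dV,
      one_smul, neg_one_smul]
    abel
  have hAB : (aa e H x + Complex.I • aa f H x) * V x -
        V x * (aa e H x + Complex.I • aa f H x) =
      (aa e H x * V x - V x * aa e H x) + Complex.I • (aa f H x * V x - V x * aa f H x) := by
    rw [Matrix.add_mul, Matrix.mul_add, Matrix.smul_mul, Matrix.mul_smul, smul_sub]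
    abel
  unfold dn ln
  rw [hZ, hZ, hN, hN, hV, hV, hAB]
  exact Wz_alg hp _ _ _ _ _ _ _ (Wz_of hp (aa_sa h e)) (Wz_of hp (aa_sa h f)) rfl rfl

private theorem Wz_real {H : Mt m} (hH : H.PosDef) {Y Z : Mt m} (hY : adj H Y = Y)
    (hZ : adj H Z = Z) : (trace (Y * Z)).im = 0 := by
  have e1 := Wz_conj hH Y Z
  rw [hY, hZ, Matrix.trace_mul_comm] at e1
  have e2 := congrArg Complex.im e1
  rw [Complex.star_def, Complex.conj_im] at e2
  linarith

private theorem Wz_pdV {X X' : ℝ × ℝ → Mt m} {x : ℝ × ℝ}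
    (dX : ∀ i j, DifferentiableAt ℝ (fun y => X y i j) x)
    (dX' : ∀ i j, DifferentiableAt ℝ (fun y => X' y i j) x) (t : ℝ × ℝ) :
    pd t (fun y => X y + Complex.I • X' y) x = pd t X x + Complex.I • pd t X' x := by
  have e1 : (fun y => X y + Complex.I • X' y) = (fun y => (1 : ℂ) • X y + Complex.I • X' y) := by
    funext y
    rw [one_smul]
  rw [e1, pd_add dX dX', one_smul]

theorem linear_term {H X X' : ℝ × ℝ → Mt m} {x : ℝ × ℝ} (h : ∀ᶠ y in 𝓝 x, (H y).PosDef)
    (dH : ∀ i j, DifferentiableAt ℝ (fun y => H y i j) x)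
    (dX : ∀ i j, DifferentiableAt ℝ (fun y => X y i j) x)
    (dX' : ∀ i j, DifferentiableAt ℝ (fun y => X' y i j) x)
    (sX : ∀ᶠ y in 𝓝 x, X y * H y = H y * (X y)ᴴ)
    (sX' : ∀ᶠ y in 𝓝 x, X' y * H y = H y * (X' y)ᴴ) (e f : ℝ × ℝ) :
    |ln e e H X x - ln f f H X x + (ln e f H X' x + ln f e H X' x)| ≤
      Real.sqrt (qc e f (1, 0, 1) H x) *
        Real.sqrt (n2 (H x) (nab e H (fun y => X y + Complex.I • X' y) x -
          Complex.I • nab f H (fun y => X y + Complex.I • X' y) x)) := by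
  have hp : (H x).PosDef := h.self_of_nhds
  have ha : adj (H x) (aa e H x) = aa e H x := Wz_of hp (aa_sa h e)
  have hb : adj (H x) (aa f H x) = aa f H x := Wz_of hp (aa_sa h f)
  have hS := Wz_sa h dH dX sX e
  have hS' := Wz_sa h dH dX' sX' e
  have hT := Wz_sa h dH dX sX f
  have hT' := Wz_sa h dH dX' sX' f
  have dS : pd e X x = (pd e X x - (aa e H x * X x - X x * aa e H x)) +
      (aa e H x * X x - X x * aa e H x) := by abel
  have dS' : pd e X' x = (pd e X' x - (aa e H x * X' x - X' x * aa e H x)) +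
      (aa e H x * X' x - X' x * aa e H x) := by abel
  have dT : pd f X x = (pd f X x - (aa f H x * X x - X x * aa f H x)) +
      (aa f H x * X x - X x * aa f H x) := by abel
  have dT' : pd f X' x = (pd f X' x - (aa f H x * X' x - X' x * aa f H x)) +
      (aa f H x * X' x - X' x * aa f H x) := by abel
  have hP : nab e H (fun y => X y + Complex.I • X' y) x -
          Complex.I • nab f H (fun y => X y + Complex.I • X' y) x =
      ((pd e X x - (aa e H x * X x - X x * aa e H x)) +
        (pd f X' x - (aa f H x * X' x - X' x * aa f H x))) +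
      Complex.I • ((pd e X' x - (aa e H x * X' x - X' x * aa e H x)) -
        (pd f X x - (aa f H x * X x - X x * aa f H x))) := by
    unfold nab
    rw [Wz_pdV dX dX', Wz_pdV dX dX']
    simp only [Matrix.mul_add, Matrix.add_mul, Matrix.mul_smul, Matrix.smul_mul, smul_add,
      smul_sub, smul_smul, Complex.I_mul_I, neg_one_smul]
    abel
  rw [hP]
  unfold ln qc
  set a := aa e H x with ha0
  set b := aa f H x with hb0
  set S := pd e X x - (a * X x - X x * a) with hS0
  set S' := pd e X' x - (a * X' x - X' x * a) with hS0'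
  set T := pd f X x - (b * X x - X x * b) with hT0
  set T' := pd f X' x - (b * X' x - X' x * b) with hT0'
  rw [dS, dS', dT, dT']
  have hw : n2 (H x) (a - Complex.I • b) = 1 * q e e H x + 2 * 0 * q e f H x + 1 * q f f H x := by
    rw [Wz_n2, Wz_sub, Wz_smul, ha, hb]
    unfold q
    rw [← ha0, ← hb0]
    have := Wz_real hp ha hb
    have e2 : trace (b * a) = trace (a * b) := Matrix.trace_mul_comm _ _
    simp only [Matrix.sub_mul, Matrix.mul_sub, Matrix.smul_mul, Matrix.mul_smul,
      Matrix.trace_sub, Matrix.trace_smul, smul_eq_mul, e2, Complex.sub_re, Complex.mul_re,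
      Complex.mul_im, Complex.star_def, Complex.conj_re, Complex.conj_im, Complex.I_re,
      Complex.I_im, Complex.sub_im]
    ring
  have hcs := tr_cs hp (a - Complex.I • b) ((S + T') + Complex.I • (S' - T))
  rw [hw] at hcs
  refine le_trans ?_ hcs
  refine le_trans (le_of_eq ?_) (Complex.abs_re_le_norm _)
  congr 1
  have r1 := Wz_real hp ha hS'
  have r2 := Wz_real hp ha hT
  have r3 := Wz_real hp hb hS
  have r4 := Wz_real hp hb hT'
  have t1 : ∀ c Y : Mt m, trace (c * (c * Y - Y * c)) = 0 := by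
    intro c Y
    rw [Matrix.mul_sub, Matrix.trace_sub, ← Matrix.mul_assoc c Y c,
      Matrix.trace_mul_comm (c * Y) c, sub_self]
  have t2 : trace (a * (b * X' x - X' x * b)) = - trace (b * (a * X' x - X' x * a)) := by
    rw [Matrix.mul_sub, Matrix.mul_sub, Matrix.trace_sub, Matrix.trace_sub,
      ← Matrix.mul_assoc a (X' x) b, Matrix.trace_mul_comm (a * X' x) b,
      ← Matrix.mul_assoc b (X' x) a, Matrix.trace_mul_comm (b * X' x) a]
    ring
  simp only [Matrix.mul_add, Matrix.trace_add]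
  rw [t1, t1, t2]
  simp only [Matrix.mul_sub, Matrix.trace_sub, Matrix.sub_mul, Matrix.smul_mul,
    Matrix.mul_smul, Matrix.trace_smul, smul_eq_mul, Complex.add_re, Complex.sub_re,
    Complex.mul_re, Complex.I_re, Complex.I_im, Complex.neg_re, Complex.zero_re, Complex.mul_im,
    Complex.sub_im] at r1 r2 r3 r4 ⊢
  linarith

theorem re_im {H X X' : ℝ × ℝ → Mt m} {x : ℝ × ℝ} (h : ∀ᶠ y in 𝓝 x, (H y).PosDef)
    (dH : ∀ i j, DifferentiableAt ℝ (fun y => H y i j) x)
    (dX : ∀ i j, DifferentiableAt ℝ (fun y => X y i j) x)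
    (dX' : ∀ i j, DifferentiableAt ℝ (fun y => X' y i j) x)
    (sX : ∀ᶠ y in 𝓝 x, X y * H y = H y * (X y)ᴴ)
    (sX' : ∀ᶠ y in 𝓝 x, X' y * H y = H y * (X' y)ᴴ) (t : ℝ × ℝ) :
    dn t H (fun y => X y + Complex.I • X' y) x =
      dn t H X x + dn t H X' x -
        2 * ln t t H (fun y => Complex.I • (X y * X' y - X' y * X y)) x := by
  have hp : (H x).PosDef := h.self_of_nhds
  have ha : adj (H x) (aa t H x) = aa t H x := Wz_of hp (aa_sa h t)
  have hX : adj (H x) (X x) = X x := Wz_of hp sX.self_of_nhds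
  have hX' : adj (H x) (X' x) = X' x := Wz_of hp sX'.self_of_nhds
  have hS := Wz_sa h dH dX sX t
  have hS' := Wz_sa h dH dX' sX' t
  have hZ : pd t (fun y => Complex.I • (X y * X' y - X' y * X y)) x =
      Complex.I • (pd t X x * X' x + X x * pd t X' x) +
        (-Complex.I) • (pd t X' x * X x + X' x * pd t X x) := by
    have e1 : (fun y => Complex.I • (X y * X' y - X' y * X y)) =
        (fun y => Complex.I • (X y * X' y) + (-Complex.I) • (X' y * X y)) := by
      funext y
      rw [smul_sub, neg_smul]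
      abel
    rw [e1, pd_add (X := fun y => X y * X' y) (Y := fun y => X' y * X y)
      (da_mul dX dX') (da_mul dX' dX), pd_mul dX dX', pd_mul dX' dX]
  unfold dn ln
  rw [hZ, Wz_pdV dX dX']
  set a := aa t H x with ha0
  set A := a * X x - X x * a with hA0
  set A' := a * X' x - X' x * a with hA0'
  have hA : adj (H x) A = -A := by
    rw [hA0, Wz_sub, Wz_mul hp, Wz_mul hp, ha, hX]
    abel
  have hA' : adj (H x) A' = -A' := by
    rw [hA0', Wz_sub, Wz_mul hp, Wz_mul hp, ha, hX']
    abel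
  have dS : pd t X x = (pd t X x - A) + A := by abel
  have dS' : pd t X' x = (pd t X' x - A') + A' := by abel
  have c1 : trace (a * (Complex.I • (pd t X x * X' x + X x * pd t X' x) +
        (-Complex.I) • (pd t X' x * X x + X' x * pd t X x))) =
      Complex.I * (trace (pd t X' x * A) - trace (pd t X x * A')) := by
    rw [hA0, hA0']
    generalize pd t X x = Y
    generalize pd t X' x = Y'
    have f1 : trace (a * (Y * X' x)) = trace (Y * (X' x * a)) := by
      rw [← Matrix.mul_assoc Y, Matrix.trace_mul_comm]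
    have f2 : trace (a * (X' x * Y)) = trace (Y * (a * X' x)) := by
      rw [← Matrix.mul_assoc, Matrix.trace_mul_comm]
    have f3 : trace (a * (Y' * X x)) = trace (Y' * (X x * a)) := by
      rw [← Matrix.mul_assoc Y', Matrix.trace_mul_comm]
    have f4 : trace (a * (X x * Y')) = trace (Y' * (a * X x)) := by
      rw [← Matrix.mul_assoc, Matrix.trace_mul_comm]
    simp only [Matrix.mul_add, Matrix.mul_smul, Matrix.trace_add, Matrix.trace_smul,
      smul_eq_mul, f1, f2, f3, f4, Matrix.mul_sub, Matrix.trace_sub]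
    ring
  rw [c1]
  set S := pd t X x - A with hS0
  set S' := pd t X' x - A' with hS0'
  rw [dS, dS']
  have r1 := Wz_real hp hS hS'
  have r2 : (trace (A * A')).im = 0 := by
    have e1 := Wz_conj hp A A'
    rw [hA, hA', Matrix.mul_neg, Matrix.mul_neg, Matrix.trace_neg, Matrix.trace_neg,
      Matrix.trace_mul_comm A' A] at e1
    have e2 := congrArg Complex.im e1
    rw [Complex.star_def, Complex.conj_im, Complex.neg_im] at e2
    linarith
  simp only [Wz_n2, Wz_add, Wz_smul, hS, hS', hA, hA', Matrix.add_mul, Matrix.mul_add,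
    Matrix.smul_mul, Matrix.mul_smul, Matrix.mul_neg, Matrix.trace_add, Matrix.trace_smul,
    Matrix.trace_neg, smul_eq_mul]
  rw [Matrix.trace_mul_comm A' A, Matrix.trace_mul_comm S' S, Matrix.trace_mul_comm A S,
    Matrix.trace_mul_comm A' S', Matrix.trace_mul_comm A' S, Matrix.trace_mul_comm A S']
  simp only [Complex.add_re, Complex.sub_re, Complex.add_im, Complex.sub_im, Complex.star_def,
    Complex.conj_re, Complex.conj_im, Complex.mul_re, Complex.mul_im, Complex.I_re, Complex.I_im,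
    Complex.neg_re, Complex.neg_im, r1, r2]
  ring

end H80HM
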