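import Pool.Agent.H80.HM.Etw
import Pool.Agent.H80.HM.Wz
import Pool.Agent.H80.HM.Nl1

set_option autoImplicit false

/-!
# Row Wzi: integrated Weitzenboeck inequality and linear term

X, X' fields (Fd), H-selfadjoint, n2 H X, n2 H X' <= M^2, all four dn integrable in the directions (1,0), (0,1). V := X + i X'. Then V is in Fd, N := adj H V
equals X - i X' on D minus P (selfadjointness: adj (H x)(X x) = X x), n2 H V <= 4M^2 = (2M)^2 (n2_tri, n2_smul), dn t H V <= 2(dn t H X + dn t H X') a.e. (pd_add,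
n2_tri), the same for N (write it as the field X - iX', whose pd agrees with that of adj H V near points of U).
weitz_int. At a.e. x in U (lz_ae for H, X, X'; everything near x): weitz for V, with Z = V N - N V; near x, V N - N V = (X+iX')(X-iX') - (X-iX')(X+iX') =
 -2i(XX' - X'X) = -2 Z', Z' := i(XX' - X'X); so ln t t H Z = -2 ln t t H Z' (pd_add or linearity of fderiv under constant multiples) and re_im:
 dn t H V = dn t H X + dn t H X' - 2 ln t t H Z' for t = e, f. Adding: the ln terms cancel and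
 dn e X + dn f X + dn e X' + dn f X' = n2(nab e V - i nab f V) + n2([aa e + i aa f, V]) + Im tr(pd e V pd f N - pd f V pd e N).
 Integrate: the last term is integrable with integral 0 (e2_frame), the second is >= 0 (n2_nonneg), the first is >= 0, measurable (nab_meas), and
 dominated by the sum of the integrable left side and |Im tr ..|, hence integrable: int n2(nab..) <= int left side.
 (dn in the directions e, f are integrable: combinations of (1,0), (0,1), n2_tri, pd_lin; dn_meas.)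
lin_int. linear_term a.e., then Cauchy-Schwarz for integrals: |int(..)| <= int sqrt(qc H) sqrt(n2(nab..)) <= sqrt(En) sqrt(int n2(nab ..)); all ln terms
 are integrable by ln_int.
-/

namespace H80HM

open Matrix MeasureTheory Set
open scoped ComplexOrder

variable {m : ℕ} {A B C : Mt m} {H X X' : ℝ × ℝ → Mt m}

theorem dn_frame_int (hH : Cl A B C H) (hX : Fd A B C X)
    (d1 : IntegrableOn (dn (1, 0) H X) U) (d2 : IntegrableOn (dn (0, 1) H X) U)
    (t : ℝ × ℝ) : IntegrableOn (dn t H X) U := by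
  have hK : IntegrableOn (fun x => 2 * (t.1 ^ 2 * dn (1, 0) H X x + t.2 ^ 2 * dn (0, 1) H X x)) U :=
    ((d1.const_mul _).add (d2.const_mul _)).const_mul 2
  refine hK.mono' (dn_meas hH.lip hH.pos hX.lip t) ?_
  filter_upwards [ae_restrict_mem Mea_isOpen.measurableSet] with x hx
  have hp := hH.pos x (u_sub hx)
  have h0 : 0 ≤ dn t H X x := n2_nonneg hp _
  rw [Real.norm_eq_abs, abs_of_nonneg h0]
  have e1 : t = t.1 • ((1:ℝ), (0:ℝ)) + t.2 • ((0:ℝ), (1:ℝ)) := by
    ext <;> simp
  have e2 : pd t X x = (t.1 : ℂ) • pd (1, 0) X x + (t.2 : ℂ) • pd (0, 1) X x := by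
    conv_lhs => rw [e1]
    exact pd_lin X x _ _ _ _
  have h1 := n2_tri hp ((t.1 : ℂ) • pd (1, 0) X x) ((t.2 : ℂ) • pd (0, 1) X x)
  rw [n2_smul, n2_smul, Complex.norm_real, Complex.norm_real, Real.norm_eq_abs,
    Real.norm_eq_abs, sq_abs, sq_abs, ← e2] at h1
  exact h1

private theorem Wzi_one (X X' : ℝ × ℝ → Mt m) (c : ℂ) :
    (fun y => X y + c • X' y) = (fun y => (1 : ℂ) • X y + c • X' y) := by
  funext y
  rw [one_smul]

private theorem Wzi_glue {g X0 X1 X0' X1' : Mt m} (h : X1 * g = g * X0) (h' : X1' * g = g * X0')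
    (c : ℂ) : (X1 + c • X1') * g = g * (X0 + c • X0') := by
  rw [Matrix.add_mul, Matrix.mul_add, Matrix.smul_mul, Matrix.mul_smul, h, h']

private theorem Wzi_fd (hX : Fd A B C X) (hX' : Fd A B C X') (c : ℂ) :
    Fd A B C (fun y => X y + c • X' y) where
  lip := by
    rw [Wzi_one]
    exact lz_add hX.lip hX'.lip 1 c
  glC := fun v hv => Wzi_glue (hX.glC v hv) (hX'.glC v hv) c
  glA := fun u hu => Wzi_glue (hX.glA u hu) (hX'.glA u hu) c
  glB := fun u hu => Wzi_glue (hX.glB u hu) (hX'.glB u hu) c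

private theorem Wzi_sadj {H0 X0 : Mt m} (hp : H0.PosDef) (s : X0 * H0 = H0 * X0ᴴ) :
    adj H0 X0 = X0 := by
  have hu : IsUnit H0.det := (Matrix.isUnit_iff_isUnit_det _).1 hp.isUnit
  unfold adj
  rw [← s, Matrix.mul_assoc, Matrix.mul_nonsing_inv _ hu, Matrix.mul_one]

private theorem Wzi_adjV {H0 X0 X0' : Mt m} (hp : H0.PosDef) (s : X0 * H0 = H0 * X0ᴴ)
    (s' : X0' * H0 = H0 * X0'ᴴ) :
    adj H0 (X0 + Complex.I • X0') = X0 + (-Complex.I) • X0' := by
  have h1 := Wzi_sadj hp s
  have h2 := Wzi_sadj hp s'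
  unfold adj at h1 h2 ⊢
  rw [Matrix.conjTranspose_add, Matrix.conjTranspose_smul, Complex.star_def, Complex.conj_I,
    Matrix.mul_add, Matrix.add_mul, Matrix.mul_smul, Matrix.smul_mul, h1, h2]

private theorem Wzi_near {H X : ℝ × ℝ → Mt m} (s : ∀ x ∈ D \ P, X x * H x = H x * (X x)ᴴ)
    {x : ℝ × ℝ} (hx : x ∈ U) : ∀ᶠ y in nhds x, X y * H y = H y * (X y)ᴴ := by
  filter_upwards [Mea_isOpen.mem_nhds hx] with y hy
  exact s y (u_sub hy)

private theorem Wzi_pdeq {F G : ℝ × ℝ → Mt m} {x : ℝ × ℝ} (h : ∀ᶠ y in nhds x, F y = G y)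
    (t : ℝ × ℝ) : pd t F x = pd t G x := by
  unfold pd
  ext i j
  rw [Matrix.of_apply, Matrix.of_apply]
  have e : (fun y => F y i j) =ᶠ[nhds x] (fun y => G y i j) := by
    filter_upwards [h] with y hy
    rw [hy]
  rw [e.fderiv_eq]

private theorem Wzi_pdc {X X' : ℝ × ℝ → Mt m} {x : ℝ × ℝ}
    (dX : ∀ i j, DifferentiableAt ℝ (fun y => X y i j) x)
    (dX' : ∀ i j, DifferentiableAt ℝ (fun y => X' y i j) x) (c : ℂ) (t : ℝ × ℝ) :
    pd t (fun y => X y + c • X' y) x = pd t X x + c • pd t X' x := by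
  rw [Wzi_one, pd_add dX dX', one_smul]

private theorem Wzi_dnle {H X X' : ℝ × ℝ → Mt m} {x : ℝ × ℝ} (hp : (H x).PosDef)
    (dX : ∀ i j, DifferentiableAt ℝ (fun y => X y i j) x)
    (dX' : ∀ i j, DifferentiableAt ℝ (fun y => X' y i j) x) (c : ℂ) (hc : ‖c‖ = 1) (t : ℝ × ℝ) :
    dn t H (fun y => X y + c • X' y) x ≤ 2 * (dn t H X x + dn t H X' x) := by
  unfold dn
  rw [Wzi_pdc dX dX']
  refine (n2_tri hp _ _).trans ?_
  rw [n2_smul, hc]
  linarith

private theorem Wzi_dnint (hH : Cl A B C H) (hX : Fd A B C X) (hX' : Fd A B C X') (c : ℂ)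
    (hc : ‖c‖ = 1) {t : ℝ × ℝ} (d : IntegrableOn (dn t H X) U)
    (d' : IntegrableOn (dn t H X') U) : IntegrableOn (dn t H (fun y => X y + c • X' y)) U := by
  refine ((d.add d').const_mul 2).mono' (dn_meas hH.lip hH.pos (Wzi_fd hX hX' c).lip t) ?_
  filter_upwards [ae_restrict_mem Mea_isOpen.measurableSet, lz_ae hX.lip, lz_ae hX'.lip]
    with x hx dX dX'
  have hp := hH.pos x (u_sub hx)
  have h0 : 0 ≤ dn t H (fun y => X y + c • X' y) x := n2_nonneg hp _
  rw [Real.norm_eq_abs, abs_of_nonneg h0]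
  exact Wzi_dnle hp dX dX' c hc t

private theorem Wzi_bd (hH : Cl A B C H) {M : ℝ}
    (bX : ∀ x ∈ D \ P, n2 (H x) (X x) ≤ M ^ 2)
    (bX' : ∀ x ∈ D \ P, n2 (H x) (X' x) ≤ M ^ 2) :
    ∀ x ∈ D \ P, n2 (H x) (X x + Complex.I • X' x) ≤ (2 * M) ^ 2 := by
  intro x hx
  refine (n2_tri (hH.pos x hx) _ _).trans ?_
  rw [n2_smul, Complex.norm_I]
  nlinarith [bX x hx, bX' x hx]

/-- the pointwise identity as an inequality -/
private theorem Wzi_pt (hH : Cl A B C H) 
    (sX : ∀ x ∈ D \ P, X x * H x = H x * (X x)ᴴ)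
    (sX' : ∀ x ∈ D \ P, X' x * H x = H x * (X' x)ᴴ) (e f : ℝ × ℝ) {x : ℝ × ℝ} (hx : x ∈ U)
    (dH : ∀ i j, DifferentiableAt ℝ (fun y => H y i j) x)
    (dX : ∀ i j, DifferentiableAt ℝ (fun y => X y i j) x)
    (dX' : ∀ i j, DifferentiableAt ℝ (fun y => X' y i j) x) :
    n2 (H x) (nab e H (fun y => X y + Complex.I • X' y) x -
      Complex.I • nab f H (fun y => X y + Complex.I • X' y) x) ≤
      (dn e H X x + dn f H X x) + (dn e H X' x + dn f H X' x) -
      (trace (pd e (fun y => X y + Complex.I • X' y) x *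
          pd f (fun y => adj (H y) (X y + Complex.I • X' y)) x -
        pd f (fun y => X y + Complex.I • X' y) x *
          pd e (fun y => adj (H y) (X y + Complex.I • X' y)) x)).im := by
  have hn := pos_near hH.pos hx
  have hp := hH.pos x (u_sub hx)
  have nX := Wzi_near sX hx
  have nX' := Wzi_near sX' hx
  have dV : ∀ i j, DifferentiableAt ℝ (fun y => (X y + Complex.I • X' y) i j) x := by
    have e1 := da_add dX dX' 1 Complex.I
    intro i j
    have e2 := e1 i j
    simpa only [one_smul] using e2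
  have hw := weitz hn dH dV e f
  have he := re_im hn dH dX dX' nX nX' e
  have hf := re_im hn dH dX dX' nX nX' f
  have hc := n2_nonneg hp ((aa e H x + Complex.I • aa f H x) * (X x + Complex.I • X' x) -
        (X x + Complex.I • X' x) * (aa e H x + Complex.I • aa f H x))
  have hZ : ∀ t, ln t t H (fun y => (X y + Complex.I • X' y) *
        adj (H y) (X y + Complex.I • X' y) -
        adj (H y) (X y + Complex.I • X' y) * (X y + Complex.I • X' y)) x =
      -2 * ln t t H (fun y => Complex.I • (X y * X' y - X' y * X y)) x := by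
    intro t
    have e1 : pd t (fun y => (X y + Complex.I • X' y) *
        adj (H y) (X y + Complex.I • X' y) -
        adj (H y) (X y + Complex.I • X' y) * (X y + Complex.I • X' y)) x =
        pd t (fun y => (-2 : ℂ) • (Complex.I • (X y * X' y - X' y * X y)) +
          (0 : ℂ) • (Complex.I • (X y * X' y - X' y * X y))) x := by
      apply Wzi_pdeq
      filter_upwards [nX, nX', hn] with y h1 h2 h3
      rw [Wzi_adjV h3 h1 h2, zero_smul, add_zero]
      simp only [Matrix.mul_add, Matrix.add_mul, Matrix.mul_smul, Matrix.smul_mul, smul_sub,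
        smul_add, smul_smul, neg_smul, smul_neg,
        Complex.I_mul_I, neg_neg, one_smul, neg_mul, mul_neg]
      module
    have dZ : ∀ i j, DifferentiableAt ℝ
        (fun y => (Complex.I • (X y * X' y - X' y * X y)) i j) x := by
      have e2 := da_add (da_mul dX dX') (da_mul dX' dX) Complex.I (-Complex.I)
      intro i j
      have e3 := e2 i j
      have e4 : (fun y => (Complex.I • (X y * X' y - X' y * X y)) i j) =
          (fun y => (Complex.I • (X y * X' y) + (-Complex.I) • (X' y * X y)) i j) := by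
        funext y
        rw [smul_sub, neg_smul, sub_eq_add_neg]
      rw [e4]
      exact e3
    unfold ln
    rw [e1, pd_add dZ dZ, zero_smul, add_zero, Matrix.mul_smul, Matrix.trace_smul, smul_eq_mul]
    simp
  rw [he, hf] at hw
  rw [hZ e, hZ f] at hw
  linarith

private theorem Wzi_J (hA : IsUnit A.det) (hB : IsUnit B.det) (hC : IsUnit C.det)
    (hH : Cl A B C H) (hX : Fd A B C X) (hX' : Fd A B C X')
    (sX : ∀ x ∈ D \ P, X x * H x = H x * (X x)ᴴ)
    (sX' : ∀ x ∈ D \ P, X' x * H x = H x * (X' x)ᴴ) {M : ℝ}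
    (bX : ∀ x ∈ D \ P, n2 (H x) (X x) ≤ M ^ 2)
    (bX' : ∀ x ∈ D \ P, n2 (H x) (X' x) ≤ M ^ 2)
    (d1 : IntegrableOn (dn (1, 0) H X) U) (d2 : IntegrableOn (dn (0, 1) H X) U)
    (d1' : IntegrableOn (dn (1, 0) H X') U) (d2' : IntegrableOn (dn (0, 1) H X') U)
    (e f : ℝ × ℝ) :
    IntegrableOn (fun x => trace (pd e (fun y => X y + Complex.I • X' y) x *
          pd f (fun y => adj (H y) (X y + Complex.I • X' y)) x -
        pd f (fun y => X y + Complex.I • X' y) x *
          pd e (fun y => adj (H y) (X y + Complex.I • X' y)) x)) U ∧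
    ∫ x in U, trace (pd e (fun y => X y + Complex.I • X' y) x *
          pd f (fun y => adj (H y) (X y + Complex.I • X' y)) x -
        pd f (fun y => X y + Complex.I • X' y) x *
          pd e (fun y => adj (H y) (X y + Complex.I • X' y)) x) = 0 := by
  have hV := Wzi_fd hX hX' Complex.I
  have hN := adj_fd hA hB hC hH hV
  have hc : ‖(-Complex.I)‖ = 1 := by rw [norm_neg, Complex.norm_I]
  have hdn : ∀ t, IntegrableOn (dn t H X) U → IntegrableOn (dn t H X') U →
      IntegrableOn (dn t H (fun y => adj (H y) (X y + Complex.I • X' y))) U := by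
    intro t h1 h2
    have h3 := Wzi_dnint hH hX hX' (-Complex.I) hc h1 h2
    refine h3.congr_fun (fun x hx => ?_) Mea_isOpen.measurableSet
    show dn t H _ x = dn t H _ x
    unfold dn
    congr 1
    apply Wzi_pdeq
    filter_upwards [Wzi_near sX hx, Wzi_near sX' hx, pos_near hH.pos hx] with y q1 q2 q3
    rw [Wzi_adjV q3 q1 q2]
  exact e2_frame hA hB hC hH hV hN (Wzi_bd hH bX bX')
    (Wzi_dnint hH hX hX' _ Complex.norm_I d1 d1') (Wzi_dnint hH hX hX' _ Complex.norm_I d2 d2')
    (hdn _ d1 d1') (hdn _ d2 d2') e f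

theorem weitz_int (hA : IsUnit A.det) (hB : IsUnit B.det) (hC : IsUnit C.det)
    (hH : Cl A B C H) (hX : Fd A B C X) (hX' : Fd A B C X')
    (sX : ∀ x ∈ D \ P, X x * H x = H x * (X x)ᴴ)
    (sX' : ∀ x ∈ D \ P, X' x * H x = H x * (X' x)ᴴ) {M : ℝ}
    (bX : ∀ x ∈ D \ P, n2 (H x) (X x) ≤ M ^ 2)
    (bX' : ∀ x ∈ D \ P, n2 (H x) (X' x) ≤ M ^ 2)
    (d1 : IntegrableOn (dn (1, 0) H X) U) (d2 : IntegrableOn (dn (0, 1) H X) U)
    (d1' : IntegrableOn (dn (1, 0) H X') U) (d2' : IntegrableOn (dn (0, 1) H X') U)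
    (e f : ℝ × ℝ) :
    IntegrableOn (fun x => n2 (H x) (nab e H (fun y => X y + Complex.I • X' y) x -
      Complex.I • nab f H (fun y => X y + Complex.I • X' y) x)) U ∧
    ∫ x in U, n2 (H x) (nab e H (fun y => X y + Complex.I • X' y) x -
      Complex.I • nab f H (fun y => X y + Complex.I • X' y) x) ≤
      (∫ x in U, (dn e H X x + dn f H X x)) + ∫ x in U, (dn e H X' x + dn f H X' x) := by
  have hV := Wzi_fd hX hX' Complex.I
  obtain ⟨j1, j2⟩ := Wzi_J hA hB hC hH hX hX' sX sX' bX bX' d1 d2 d1' d2' e f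
  set J : ℝ × ℝ → ℂ := fun x => trace (pd e (fun y => X y + Complex.I • X' y) x *
          pd f (fun y => adj (H y) (X y + Complex.I • X' y)) x -
        pd f (fun y => X y + Complex.I • X' y) x *
          pd e (fun y => adj (H y) (X y + Complex.I • X' y)) x) with hJ
  have a1 : IntegrableOn (fun x => dn e H X x + dn f H X x) U :=
    (dn_frame_int hH hX d1 d2 e).add (dn_frame_int hH hX d1 d2 f)
  have a2 : IntegrableOn (fun x => dn e H X' x + dn f H X' x) U :=
    (dn_frame_int hH hX' d1' d2' e).add (dn_frame_int hH hX' d1' d2' f)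
  have a3 : IntegrableOn (fun x => (J x).im) U := j1.im
  have a4 : ∫ x in U, (J x).im = 0 := by
    have h1 := Complex.imCLM.integral_comp_comm j1
    rw [j2] at h1
    simpa using h1
  have a5 : IntegrableOn (fun x => (dn e H X x + dn f H X x) + (dn e H X' x + dn f H X' x) -
      (J x).im) U := (a1.add a2).sub a3
  have hae : ∀ᵐ x ∂(volume.restrict U),
      n2 (H x) (nab e H (fun y => X y + Complex.I • X' y) x -
        Complex.I • nab f H (fun y => X y + Complex.I • X' y) x) ≤
      (dn e H X x + dn f H X x) + (dn e H X' x + dn f H X' x) - (J x).im := by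
    filter_upwards [ae_restrict_mem Mea_isOpen.measurableSet, lz_ae hX.lip, lz_ae hX'.lip,
      lz_ae hH.lip] with x hx dX dX' dH
    exact Wzi_pt hH sX sX' e f hx dH dX dX'
  have hi : IntegrableOn (fun x => n2 (H x) (nab e H (fun y => X y + Complex.I • X' y) x -
      Complex.I • nab f H (fun y => X y + Complex.I • X' y) x)) U := by
    refine a5.mono' (nab_meas hH.lip hH.pos hV.lip e f) ?_
    filter_upwards [ae_restrict_mem Mea_isOpen.measurableSet, hae] with x hx h
    rw [Real.norm_eq_abs, abs_of_nonneg (n2_nonneg (hH.pos x (u_sub hx)) _)]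
    exact h
  refine ⟨hi, ?_⟩
  refine (integral_mono_ae hi a5 hae).trans (le_of_eq ?_)
  have b1 : ∫ x in U, ((dn e H X x + dn f H X x) + (dn e H X' x + dn f H X' x) - (J x).im) =
      (∫ x in U, ((dn e H X x + dn f H X x) + (dn e H X' x + dn f H X' x))) -
        ∫ x in U, (J x).im := integral_sub (a1.add a2) a3
  rw [b1, a4, sub_zero]
  exact integral_add a1 a2

theorem lin_int (hA : IsUnit A.det) (hB : IsUnit B.det) (hC : IsUnit C.det)
    (hH : Cl A B C H) (hX : Fd A B C X) (hX' : Fd A B C X')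
    (sX : ∀ x ∈ D \ P, X x * H x = H x * (X x)ᴴ)
    (sX' : ∀ x ∈ D \ P, X' x * H x = H x * (X' x)ᴴ) {M : ℝ}
    (bX : ∀ x ∈ D \ P, n2 (H x) (X x) ≤ M ^ 2)
    (bX' : ∀ x ∈ D \ P, n2 (H x) (X' x) ≤ M ^ 2)
    (d1 : IntegrableOn (dn (1, 0) H X) U) (d2 : IntegrableOn (dn (0, 1) H X) U)
    (d1' : IntegrableOn (dn (1, 0) H X') U) (d2' : IntegrableOn (dn (0, 1) H X') U)
    (e f : ℝ × ℝ) :
    |∫ x in U, (ln e e H X x - ln f f H X x + (ln e f H X' x + ln f e H X' x))| ≤
      Real.sqrt (En e f (1, 0, 1) H) *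
        Real.sqrt ((∫ x in U, (dn e H X x + dn f H X x)) +
          ∫ x in U, (dn e H X' x + dn f H X' x)) := by
  obtain ⟨hi, hle⟩ := weitz_int hA hB hC hH hX hX' sX sX' bX bX' d1 d2 d1' d2' e f
  set W : ℝ × ℝ → ℝ := fun x => n2 (H x) (nab e H (fun y => X y + Complex.I • X' y) x -
      Complex.I • nab f H (fun y => X y + Complex.I • X' y) x) with hW
  set T : ℝ × ℝ → ℝ := fun x => ln e e H X x - ln f f H X x + (ln e f H X' x + ln f e H X' x)
    with hT
  have hTi : IntegrableOn T U := by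
    have e1 := ln_int (t := e) (t' := e) hH hX.lip (dn_frame_int hH hX d1 d2 e)
    have e2 := ln_int (t := f) (t' := f) hH hX.lip (dn_frame_int hH hX d1 d2 f)
    have e3 := ln_int (t := e) (t' := f) hH hX'.lip (dn_frame_int hH hX' d1' d2' f)
    have e4 := ln_int (t := f) (t' := e) hH hX'.lip (dn_frame_int hH hX' d1' d2' e)
    exact (e1.sub e2).add (e3.add e4)
  have hq : IntegrableOn (qc e f (1, 0, 1) H) U := qc_int hH e f _
  have hq0 : 0 ≤ En e f (1, 0, 1) H := en_nonneg hH e f Nc1_psd1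
  have hW0 : 0 ≤ ∫ x in U, W x := by
    refine setIntegral_nonneg Mea_isOpen.measurableSet (fun x hx => ?_)
    exact n2_nonneg (hH.pos x (u_sub hx)) _
  have hI0 : 0 ≤ ∫ x in U, |T x| := integral_nonneg fun x => abs_nonneg _
  have hpt : ∀ᵐ x ∂(volume.restrict U), |T x| ≤
      Real.sqrt (qc e f (1, 0, 1) H x) * Real.sqrt (W x) := by
    filter_upwards [ae_restrict_mem Mea_isOpen.measurableSet, lz_ae hX.lip, lz_ae hX'.lip,
      lz_ae hH.lip] with x hx dX dX' dH
    exact linear_term (pos_near hH.pos hx) dH dX dX' (Wzi_near sX hx) (Wzi_near sX' hx) e f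
  have hqn : ∀ᵐ x ∂(volume.restrict U), 0 ≤ qc e f (1, 0, 1) H x := by
    filter_upwards [ae_restrict_mem Mea_isOpen.measurableSet] with x hx
    have hn := pos_near hH.pos hx
    have h1 := q_nonneg hn e
    have h2 := q_nonneg hn f
    unfold qc
    simp only
    linarith
  have key : ∀ l : ℝ, 0 ≤ En e f (1, 0, 1) H * (l * l) + (-2 * ∫ x in U, |T x|) * l +
      ∫ x in U, W x := by
    intro l
    rcases le_or_gt 0 l with hl | hl
    · have h1 : ∫ x in U, 2 * l * |T x| ≤
          ∫ x in U, (l ^ 2 * qc e f (1, 0, 1) H x + W x) := by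
        refine integral_mono_ae (hTi.abs.const_mul _) ((hq.const_mul _).add hi) ?_
        filter_upwards [ae_restrict_mem Mea_isOpen.measurableSet, hpt, hqn] with x hx h2 h3
        have h4 : 0 ≤ W x := n2_nonneg (hH.pos x (u_sub hx)) _
        have h5 := Real.sq_sqrt h3
        have h6 := Real.sq_sqrt h4
        show 2 * l * |T x| ≤ l ^ 2 * qc e f (1, 0, 1) H x + W x
        nlinarith [sq_nonneg (l * Real.sqrt (qc e f (1, 0, 1) H x) - Real.sqrt (W x)),
          mul_le_mul_of_nonneg_left h2 hl]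
      rw [integral_const_mul, integral_add (hq.const_mul _) hi, integral_const_mul] at h1
      unfold En
      nlinarith
    · have h1 : 0 ≤ (∫ x in U, |T x|) * (-l) := mul_nonneg hI0 (by linarith)
      have h2 : 0 ≤ En e f (1, 0, 1) H * (l * l) := mul_nonneg hq0 (mul_self_nonneg l)
      nlinarith
  have hd := discrim_le_zero key
  unfold discrim at hd
  have h7 : (∫ x in U, |T x|) ^ 2 ≤ En e f (1, 0, 1) H * ∫ x in U, W x := by nlinarith
  have h8 : |∫ x in U, T x| ≤ ∫ x in U, |T x| := abs_integral_le_integral_abs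
  have h9 := Real.abs_le_sqrt h7
  rw [abs_of_nonneg hI0, Real.sqrt_mul hq0] at h9
  refine (h8.trans h9).trans ?_
  exact mul_le_mul_of_nonneg_left (Real.sqrt_le_sqrt hle) (Real.sqrt_nonneg _)

end H80HM
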