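import Pool.Agent.H80.HM.Dsm
import Pool.Agent.H80.HM.Nf1
import Pool.Agent.H80.HM.Nme
import Pool.Agent.H80.HM.Wzi

set_option autoImplicit false

/-!
# Row Vi1: the error terms are o(s^2)

Fix x0, y0 > 0, e = f1 x0 y0, f = f2 x0 y0 (determinant 1, f_det), M in (0,1], phi with Tr M phi, E1 := EE A B C x0 y0 + 1, del > 0. For s > 0 small let ep = s^6, H an
ep-near-minimiser for (1,0,1) with det 1 and En H <= EE x0 y0 + ep <= E1, G an ep-near-minimiser for ck s p r (p^2+r^2 = 1) with det 1.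
(1) gap_near: int gap <= 10 s^6 + 16 sinh^2 s E1 <= C1 s^2 for s <= s1 (sinh s <= 2s, sinh s <= 1/8). dn_near: int (dn e + dn f)(Xf phi H G) <= 80 C1 s^2 =: L.
(2) std_dn: int (dn (1,0) + dn (0,1)) <= K 80 C1 s^2 (xf_dn_int for integrability), std_q: int (q11+q22)(H) <= K' E1 =: E0 (a.e. inequality on U, pos_near).
(3) reference: R an eta-near-minimiser for (1,0,1) (nm_ee with x = 0, y = 1: ct 0 1 = (1,0,1), ck_ct), eta := del/40 say. int over S of qc R is small when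
 volume S is small (qc R is integrable on U: absolute continuity of the integral, e.g. MeasureTheory.Integrable.. / tendsto_setIntegral_zero ..): there is
 eta' > 0: volume S <= ofReal eta', S subset of U measurable => int_S qc R <= del/40. small_meas with eta' gives d0; for s small K 80 C1 s^2 <= d0, so
 volume (Bs M X) <= ofReal eta', and e_unif: int_Bs qc H <= 2 del/40 + 4(s^6 + del/40) <= del/4 for small s. Then
 4 sinh^2 s int_Bs qc H <= 4 (2s)^2.. : use sinh s <= 2 s: 16 s^2 del/4 = 4 del s^2. So replace del by del/16 at the start; constants are irrelevant: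
 choose eta, eta' so that 4 sinh^2 s int_Bs qc H <= (del/3) s^2.
(4) near_crit with Z = X := Xf phi H G (xf_fd, xf_sa, xf_n2: n2 <= m M^2 =: Mz^2, Mz = sqrt m * M), t = s^3 (<= 1/(2(Mz+1)) for small s):
 |int (ln ee + ln ff)| <= s^6/s^3 + 4 s^3 (Mz sqrt(E1 L) + L) <= C s^3. So cosh s times it is <= (del/3) s^2 for small s.
(5) 16 ep = 16 s^6 <= (del/3) s^2.
-/

namespace H80HM

open Matrix MeasureTheory Set
open scoped ComplexOrder

variable {m : ℕ} {A B C : Mt m}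

theorem Vi1_sinh {s : ℝ} (h0 : 0 ≤ s) (h1 : s ≤ 1) : Real.sinh s ≤ 2 * s := by
  have h2 := Real.abs_exp_sub_one_sub_id_le (x := s) (by rw [abs_of_nonneg h0]; exact h1)
  have h3 := (abs_le.1 h2).2
  have h4 := Real.add_one_le_exp (-s)
  rw [Real.sinh_eq]
  nlinarith

/-- absolute continuity of the integral -/
theorem Vi1_ac {F : ℝ × ℝ → ℝ} (hF : IntegrableOn F U) {d : ℝ} (hd : 0 < d) :
    ∃ eta : ℝ, 0 < eta ∧ ∀ S : Set (ℝ × ℝ), MeasurableSet S → S ⊆ U →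
      volume S ≤ ENNReal.ofReal eta → ∫ x in S, F x ≤ d := by
  have h1 : Filter.Tendsto (fun S : Set (ℝ × ℝ) => ∫ x in S, F x ∂(volume.restrict U))
      (Filter.comap (fun S : Set (ℝ × ℝ) => (volume.restrict U) S) (nhds 0)) (nhds 0) := by
    refine MeasureTheory.Integrable.tendsto_setIntegral_nhds_zero hF ?_
    exact Filter.tendsto_comap
  have h2 := h1.eventually (gt_mem_nhds hd)
  rw [Filter.eventually_comap] at h2
  obtain ⟨ε, hε, h3⟩ := (ENNReal.nhds_zero_basis_Iic.eventually_iff).1 h2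
  have h4 : ∃ eta : ℝ, 0 < eta ∧ ENNReal.ofReal eta ≤ ε := by
    by_cases ht : ε = ⊤
    · exact ⟨1, one_pos, by rw [ht]; exact le_top⟩
    · exact ⟨ε.toReal, ENNReal.toReal_pos hε.ne' ht, by rw [ENNReal.ofReal_toReal ht]⟩
  obtain ⟨eta, h5, h6⟩ := h4
  refine ⟨eta, h5, fun S hS hSU hv => ?_⟩
  have h7 : (volume.restrict U) S = volume S := by
    rw [Measure.restrict_apply hS, inter_eq_left.2 hSU]
  have h8 := h3 (show (volume.restrict U) S ∈ Iic ε by rw [h7]; exact hv.trans h6) S rfl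
  rw [Measure.restrict_restrict hS, inter_eq_left.2 hSU] at h8
  exact h8.le

theorem Vi1_unit {A : Mt m} (hA : ‖A.det‖ = 1) : IsUnit A.det := by
  rw [isUnit_iff_ne_zero]
  intro h
  rw [h, norm_zero] at hA
  exact zero_ne_one hA

theorem Vi1_sqrt {x y a b : ℝ} (hx : 0 ≤ x) (hy : 0 ≤ y) (hxa : x ≤ a) (hyb : y ≤ b) :
    Real.sqrt (x * y) ≤ a + b := by
  have h1 : x * y ≤ (a + b) ^ 2 := by
    have ha : 0 ≤ a := hx.trans hxa
    have hb : 0 ≤ b := hy.trans hyb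
    have h2 : x * y ≤ a * b := mul_le_mul hxa hyb hy ha
    nlinarith
  calc Real.sqrt (x * y) ≤ Real.sqrt ((a + b) ^ 2) := Real.sqrt_le_sqrt h1
    _ = a + b := Real.sqrt_sq (by linarith)

/-- powers of a small number -/
theorem Vi1_pow {s : ℝ} (h0 : 0 ≤ s) (h1 : s ≤ 1) :
    s ^ 6 ≤ s ∧ s ^ 6 ≤ s ^ 2 ∧ s ^ 3 ≤ s ∧ s ^ 2 ≤ s ∧ s ^ 6 ≤ s ^ 3 ∧ s ^ 6 ≤ s * s ^ 2 := by
  refine ⟨?_, pow_le_pow_of_le_one h0 h1 (by norm_num), ?_, ?_,
    pow_le_pow_of_le_one h0 h1 (by norm_num), ?_⟩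
  · exact pow_le_of_le_one h0 h1 (by norm_num)
  · exact pow_le_of_le_one h0 h1 (by norm_num)
  · exact pow_le_of_le_one h0 h1 (by norm_num)
  · have h2 : s * s ^ 2 = s ^ 3 := by ring
    rw [h2]
    exact pow_le_pow_of_le_one h0 h1 (by norm_num)

/-- the standard energy is controlled -/
theorem Vi1_q {H : ℝ × ℝ → Mt m} (hH : Cl A B C H) {e f : ℝ × ℝ} {K : ℝ}
    (h : ∀ (z : ℝ × ℝ), (∀ᶠ y in nhds z, (H y).PosDef) →
      q (1, 0) (1, 0) H z + q (0, 1) (0, 1) H z ≤ K * qc e f (1, 0, 1) H z) :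
    ∫ x in U, (q (1, 0) (1, 0) H x + q (0, 1) (0, 1) H x) ≤ K * En e f (1, 0, 1) H := by
  unfold En
  rw [← integral_const_mul]
  refine setIntegral_mono_on hH.fin ((qc_int hH e f _).const_mul K) Mea_isOpen.measurableSet
    fun x hx => ?_
  exact h x (pos_near hH.pos hx)

theorem Vi1_dn {H X : ℝ × ℝ → Mt m} (hH : Cl A B C H) {e f : ℝ × ℝ} {K L : ℝ} (hK : 0 < K)
    (h : ∀ (z : ℝ × ℝ), (H z).PosDef →
      dn (1, 0) H X z + dn (0, 1) H X z ≤ K * (dn e H X z + dn f H X z))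
    (hi : ∀ t, IntegrableOn (dn t H X) U)
    (hL : ∫ x in U, (dn e H X x + dn f H X x) ≤ L) :
    ∫ x in U, (dn (1, 0) H X x + dn (0, 1) H X x) ≤ K * L := by
  refine le_trans ?_ (mul_le_mul_of_nonneg_left hL hK.le)
  rw [← integral_const_mul]
  refine setIntegral_mono_on ((hi _).add (hi _)) (((hi _).add (hi _)).const_mul K)
    Mea_isOpen.measurableSet fun x hx => ?_
  exact h x (hH.pos x (u_sub hx))

/-- the near-critical error term -/
theorem Vi1_crit {s t Mz E L E1 C1 I : ℝ} (hs0 : 0 < s) (hs1 : s ≤ 1) (ht : t = s ^ 3)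
    (hMz : 0 ≤ Mz) (hE : 0 ≤ E) (hEE : E ≤ E1) (hC1 : 0 ≤ C1) (hL : L = 80 * (C1 * s ^ 2))
    (hI : I ≤ s ^ 6 / t + 4 * t * (Mz * Real.sqrt (E * L) + L)) :
    I ≤ (1 + 4 * (Mz * (E1 + 80 * C1) + 80 * C1)) * s ^ 3 := by
  have hL0 : 0 ≤ L := by rw [hL]; positivity
  have hp := Vi1_pow hs0.le hs1
  have h2 : s ^ 2 ≤ 1 := hp.2.2.2.1.trans hs1
  have hL1 : L ≤ 80 * C1 := by
    rw [hL]
    nlinarith
  have h3 := Vi1_sqrt hE hL0 hEE hL1
  have h4 : Mz * Real.sqrt (E * L) ≤ Mz * (E1 + 80 * C1) := mul_le_mul_of_nonneg_left h3 hMz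
  have h5 : s ^ 6 / t = s ^ 3 := by
    rw [ht]
    field_simp
  have h6 : 0 < s ^ 3 := by positivity
  rw [h5, ht] at hI
  have h7 : 4 * s ^ 3 * (Mz * Real.sqrt (E * L) + L) ≤
      4 * s ^ 3 * (Mz * (E1 + 80 * C1) + 80 * C1) :=
    mul_le_mul_of_nonneg_left (by linarith) (by positivity)
  calc I ≤ s ^ 3 + 4 * s ^ 3 * (Mz * (E1 + 80 * C1) + 80 * C1) := by linarith
    _ = (1 + 4 * (Mz * (E1 + 80 * C1) + 80 * C1)) * s ^ 3 := by ring

theorem err_small (hm : 0 < m) (hA : ‖A.det‖ = 1) (hB : ‖B.det‖ = 1) (hC : ‖C.det‖ = 1)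
    (hirr : Algebra.adjoin ℂ ({A, B, C} : Set (Mt m)) = ⊤) (hne : ∃ H, Cl A B C H)
    (x0 : ℝ) {y0 : ℝ} (hy0 : 0 < y0) {M : ℝ} (hM : 0 < M) (hM1 : M ≤ 1) {phi : ℝ → ℝ}
    (htr : Tr M phi) {del : ℝ} (hdel : 0 < del) :
    ∃ s0 : ℝ, 0 < s0 ∧ ∀ s : ℝ, 0 < s → s < s0 → Real.sinh s ≤ 1 / 8 ∧
      ∀ (p r : ℝ), p ^ 2 + r ^ 2 = 1 → ∀ H G : ℝ × ℝ → Mt m,
      NM (f1 x0 y0) (f2 x0 y0) (1, 0, 1) A B C (s ^ 6) H → (∀ z ∈ D \ P, (H z).det = 1) →
      NM (f1 x0 y0) (f2 x0 y0) (ck s p r) A B C (s ^ 6) G → (∀ z ∈ D \ P, (G z).det = 1) →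
      16 * s ^ 6 +
        4 * Real.sinh s ^ 2 * (∫ x in Bs M (Xf phi H G), qc (f1 x0 y0) (f2 x0 y0) (1, 0, 1) H x) +
        Real.cosh s * |∫ x in U, (ln (f1 x0 y0) (f1 x0 y0) H (Xf phi H G) x +
          ln (f2 x0 y0) (f2 x0 y0) H (Xf phi H G) x)| ≤ del * s ^ 2 := by
  have uA := Vi1_unit hA
  have uB := Vi1_unit hB
  have uC := Vi1_unit hC
  set d1 : ℝ := del / 480 with hd1
  have hd1p : 0 < d1 := by positivity
  obtain ⟨R, hR, -, -⟩ := nm_ee hm hA hB hC hne x0 hy0 0 one_pos hd1p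
  rw [← (ck_ct 0).2.2.2.2] at hR
  have hRc : Cl A B C R := hR.1
  have hER : 0 ≤ En (f1 x0 y0) (f2 x0 y0) (1, 0, 1) R := en_nonneg hRc _ _ Nc1_psd1
  set E1 : ℝ := En (f1 x0 y0) (f2 x0 y0) (1, 0, 1) R + 1 with hE1
  have hE1p : 0 < E1 := by linarith
  obtain ⟨K1, hK1, hq⟩ := std_q x0 hy0
  obtain ⟨K2, hK2, hdn⟩ := std_dn x0 hy0
  obtain ⟨eta, heta, hac⟩ := Vi1_ac (qc_int hRc (f1 x0 y0) (f2 x0 y0) (1, 0, 1)) hd1p
  obtain ⟨d0, hd0, hsm⟩ := small_meas hm uA uB uC hirr (E0 := K1 * E1) (by positivity) hM hM1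
    heta htr
  set C1 : ℝ := 10 + 64 * E1 with hC1
  have hC1p : 0 < C1 := by positivity
  set Mz : ℝ := Real.sqrt m * M with hMz
  have hMz0 : 0 ≤ Mz := by positivity
  set C2 : ℝ := 1 + 4 * (Mz * (E1 + 80 * C1) + 80 * C1) with hC2
  have hC2p : 0 < C2 := by positivity
  refine ⟨min (min (1 / 16) d1) (min (min (d0 / (K2 * (80 * C1))) (1 / (2 * (Mz + 1))))
    (min (del / (6 * C2)) (del / 48))), by positivity, fun s hs hss => ?_⟩
  rw [lt_min_iff, lt_min_iff, lt_min_iff, lt_min_iff, lt_min_iff] at hss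
  obtain ⟨⟨a1, a2⟩, ⟨a3, a4⟩, a5, a6⟩ := hss
  have hs1 : s ≤ 1 := by linarith
  obtain ⟨p1, p2, p3, p4, -, p6⟩ := Vi1_pow hs.le hs1
  have hsh := Vi1_sinh hs.le hs1
  have hsh0 : 0 ≤ Real.sinh s := Real.sinh_nonneg_iff.2 hs.le
  have hsh8 : Real.sinh s ≤ 1 / 8 := by linarith
  refine ⟨hsh8, fun p r hpr H G hH hHd hG hGd => ?_⟩
  have hHc : Cl A B C H := hH.1
  have hGc : Cl A B C G := hG.1
  have hs6 : 0 ≤ s ^ 6 := by positivity
  have hEH0 : 0 ≤ En (f1 x0 y0) (f2 x0 y0) (1, 0, 1) H := en_nonneg hHc _ _ Nc1_psd1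
  have hEH : En (f1 x0 y0) (f2 x0 y0) (1, 0, 1) H ≤ E1 := by
    have := hH.2 R hRc
    linarith
  have hsh2 : Real.sinh s ^ 2 ≤ 4 * s ^ 2 := by
    have : Real.sinh s ^ 2 ≤ (2 * s) ^ 2 := pow_le_pow_left₀ hsh0 hsh 2
    nlinarith
  -- the gap
  have hgap : ∫ x in U, gap (f1 x0 y0) (f2 x0 y0) H G x ≤ C1 * s ^ 2 := by
    have h1 := gap_near uA uB uC hpr hs.le hsh8 hs6 hH hG
    have h2 : 16 * Real.sinh s ^ 2 * En (f1 x0 y0) (f2 x0 y0) (1, 0, 1) H ≤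
        16 * (4 * s ^ 2) * E1 :=
      mul_le_mul (by linarith) hEH hEH0 (by positivity)
    have h3 : 16 * (4 * s ^ 2) * E1 = 64 * E1 * s ^ 2 := by ring
    have h4 : C1 * s ^ 2 = 10 * s ^ 2 + 64 * E1 * s ^ 2 := by rw [hC1]; ring
    linarith
  have hb1 : ∀ t, |phi t| ≤ 1 := fun t => (htr.bd t).trans hM1
  have hdi : ∀ t, IntegrableOn (dn t H (Xf phi H G)) U := fun t =>
    xf_dn_int uA uB uC hHc hGc htr.cd htr.d0 htr.d1 hb1 t
  set L : ℝ := 80 * (C1 * s ^ 2) with hL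
  have hdnL : ∫ x in U, (dn (f1 x0 y0) H (Xf phi H G) x + dn (f2 x0 y0) H (Xf phi H G) x) ≤ L :=
    (dn_near uA uB uC hHc hGc htr.cd htr.d0 htr.d1 hb1 _ _).trans
      (mul_le_mul_of_nonneg_left hgap (by norm_num))
  have hq' := Vi1_q hHc (fun z hz => hq m H z hz)
  have hq2 : ∫ x in U, (q (1, 0) (1, 0) H x + q (0, 1) (0, 1) H x) ≤ K1 * E1 :=
    hq'.trans (mul_le_mul_of_nonneg_left hEH hK1.le)
  have hdn2 := Vi1_dn hHc hK2 (fun z hz => hdn m H (Xf phi H G) z hz) hdi hdnL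
  have hdn3 : ∫ x in U, (dn (1, 0) H (Xf phi H G) x + dn (0, 1) H (Xf phi H G) x) ≤ d0 := by
    refine hdn2.trans ?_
    rw [lt_div_iff₀ (by positivity)] at a3
    have h1 : K2 * L = K2 * (80 * C1) * s ^ 2 := by rw [hL]; ring
    rw [h1]
    have h2 : K2 * (80 * C1) * s ^ 2 ≤ K2 * (80 * C1) * s :=
      mul_le_mul_of_nonneg_left p4 (by positivity)
    linarith
  have hvol := hsm H G hHc hGc hHd hGd hq2 hdn3
  have hBm : MeasurableSet (Bs M (Xf phi H G)) := bs_meas uA uB uC hHc hGc htr.cd M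
  have hBU : Bs M (Xf phi H G) ⊆ U := fun _ h => h.1
  have hBR := hac _ hBm hBU hvol
  have hBH := e_unif uA uB uC hH hR hBm hBU
  have hBH2 : ∫ x in Bs M (Xf phi H G), qc (f1 x0 y0) (f2 x0 y0) (1, 0, 1) H x ≤ 10 * d1 := by
    linarith
  -- critical term
  have hcr := near_crit uA uB uC (f_det x0 hy0) (ep := s ^ 6) (Mz := Mz) (L := L) hMz0 hH
    (xf_fd uA uB uC hHc hGc htr.cd) (fun x hx => xf_sa hHc hGc phi hx)
    (fun x hx => by
      have h1 := xf_n2 hHc hGc htr.bd hx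
      have h2 : Mz ^ 2 = m * M ^ 2 := by
        rw [hMz, mul_pow, Real.sq_sqrt (Nat.cast_nonneg m)]
      rw [h2]
      exact h1) (hdi _) (hdi _) hdnL (t := s ^ 3) (by positivity) (by linarith)
  have hcr2 := Vi1_crit hs hs1 rfl hMz0 hEH0 hEH hC1p.le hL hcr
  rw [← hC2] at hcr2
  have hch := (Nb1_cosh hs.le (by linarith : Real.sinh s ≤ 1 / 4)).2
  have hch0 : 0 ≤ Real.cosh s := (Real.cosh_pos s).le
  have hs2 : 0 < s ^ 2 := by positivity
  have t1 : 16 * s ^ 6 ≤ del / 3 * s ^ 2 := by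
    have h1 : 16 * s ^ 6 ≤ 16 * (s * s ^ 2) := by linarith
    have h2 : 16 * (s * s ^ 2) = (16 * s) * s ^ 2 := by ring
    rw [h2] at h1
    have h3 : (16 * s) * s ^ 2 ≤ del / 3 * s ^ 2 :=
      mul_le_mul_of_nonneg_right (by linarith) hs2.le
    linarith
  have t2 : 4 * Real.sinh s ^ 2 *
      (∫ x in Bs M (Xf phi H G), qc (f1 x0 y0) (f2 x0 y0) (1, 0, 1) H x) ≤ del / 3 * s ^ 2 := by
    have h0 : 0 ≤ 4 * Real.sinh s ^ 2 := by positivity
    have h1 : 4 * Real.sinh s ^ 2 *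
        (∫ x in Bs M (Xf phi H G), qc (f1 x0 y0) (f2 x0 y0) (1, 0, 1) H x) ≤
        4 * Real.sinh s ^ 2 * (10 * d1) := mul_le_mul_of_nonneg_left hBH2 h0
    have h2 : 4 * Real.sinh s ^ 2 * (10 * d1) ≤ 4 * (4 * s ^ 2) * (10 * d1) :=
      mul_le_mul_of_nonneg_right (by linarith) (by positivity)
    have h3 : 4 * (4 * s ^ 2) * (10 * d1) = del / 3 * s ^ 2 := by rw [hd1]; ring
    linarith
  have t3 : Real.cosh s * |∫ x in U, (ln (f1 x0 y0) (f1 x0 y0) H (Xf phi H G) x +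
      ln (f2 x0 y0) (f2 x0 y0) H (Xf phi H G) x)| ≤ del / 3 * s ^ 2 := by
    have h1 : Real.cosh s * |∫ x in U, (ln (f1 x0 y0) (f1 x0 y0) H (Xf phi H G) x +
        ln (f2 x0 y0) (f2 x0 y0) H (Xf phi H G) x)| ≤ 2 * (C2 * s ^ 3) :=
      mul_le_mul hch hcr2 (abs_nonneg _) (by norm_num)
    rw [lt_div_iff₀ (by positivity)] at a5
    have h2 : 2 * (C2 * s ^ 3) = (2 * (s * C2)) * s ^ 2 := by ring
    rw [h2] at h1
    have h3 : (2 * (s * C2)) * s ^ 2 ≤ del / 3 * s ^ 2 :=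
      mul_le_mul_of_nonneg_right (by linarith) hs2.le
    linarith
  have t4 : del * s ^ 2 = del / 3 * s ^ 2 + del / 3 * s ^ 2 + del / 3 * s ^ 2 := by ring
  linarith

end H80HM
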