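import Pool.Agent.H80.HM.Asm
import Pool.Agent.H80.HM.Vi1
import Pool.Agent.H80.HM.Tru

set_option autoImplicit false

/-!
# Row Vis: the infimum of the energy is subharmonic (VS)

Given x, y > 0, ep > 0. E1 := EE A B C x y + 1. Choose M in (0,1] with 2(exp(2M) - 1) E1 <= ep/8, phi from exists_tr, del := ep/32, s0 from err_small (decrease it
further below). For 0 < s < s0 let H be an s^6-near-minimiser for (1,0,1) in the frame f1 x y, f2 x y (nm_ee with x0 = x, y0 = y, parameters (0,1); ct 0 1 = (1,0,1) and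
x + y*0 = x, y*1 = y), det 1, En H <= EE x y + s^6 <= E1, and for k = 0..3 let G_k be an s^6-near-minimiser for ck s (pk k)(rk k) = ct x_k y_k (ck_ct), (x_k,y_k) =
(0,e^s), (-tanh s, 1/cosh s), (0,e^{-s}), (tanh s, 1/cosh s), det 1, with En G_k <= EE A B C (x + y x_k)(y y_k) + s^6: these are the four values in VS.
asm: 4cosh s E - 2 sinh^2 s exp(2M+s) E <= sum En G_k + [16 s^6 + 4 sinh^2 s sum beta_k + cosh s sum |..|] and the bracket is at most 4 del s^2 = ep s^2/8 (sum over k of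
err_small, each contains 16 s^6). E := En H satisfies EE x y <= E <= E1 (ee_le, frame_en).
4 cosh s E - 2 sinh^2 s exp(2M+s) E >= 4E + 2s^2E - 2 sinh^2 s exp(2M+s)E = 4E - 2s^2 (exp(2M)-1) E - 2(sinh^2 s exp(s) - s^2) exp(2M) E; the last bracket is
o(s^2): for small s (sinh^2 s exp s - s^2) exp(2) E1 2 <= ep s^2/8. So sum EE(..) >= sum En G_k - 4s^6 >= 4 EE x y - ep s^2 (1/8+1/8+1/8) - 4 s^6 >= 4EE - ep s^2.
(IsUnit det from norm 1.)
-/

namespace H80HM

open Matrix MeasureTheory Set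
open scoped ComplexOrder

private theorem Vis_cosh (s : ℝ) : 1 + s ^ 2 / 2 ≤ Real.cosh s := by
  have h1 : Real.cosh s = 1 + 2 * Real.sinh (s / 2) ^ 2 := by
    have h2 := Real.cosh_two_mul (s / 2)
    have h3 := Real.cosh_sq (s / 2)
    rw [show 2 * (s / 2) = s by ring] at h2
    linarith
  have h4 : (s / 2) ^ 2 ≤ Real.sinh (s / 2) ^ 2 := by
    rcases le_total 0 s with h | h
    · have h5 : s / 2 ≤ Real.sinh (s / 2) := Real.self_le_sinh_iff.2 (by linarith)
      exact pow_le_pow_left₀ (by linarith) h5 2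
    · have h5 : Real.sinh (s / 2) ≤ s / 2 := Real.sinh_le_self_iff.2 (by linarith)
      nlinarith
  rw [h1]
  nlinarith

private theorem Vis_exp {u : ℝ} (h0 : 0 ≤ u) (h1 : u ≤ 1) : Real.exp u ≤ 1 + 2 * u := by
  have h2 := Real.abs_exp_sub_one_sub_id_le (x := u) (by rw [abs_of_nonneg h0]; exact h1)
  have h3 := (abs_le.1 h2).2
  nlinarith

private theorem Vis_sinh {s : ℝ} : Real.sinh s ≤ s * Real.exp s := by
  have h1 : Real.sinh s = (Real.exp s - Real.exp (-s)) / 2 := Real.sinh_eq s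
  have h2 : 1 - 2 * s ≤ Real.exp (-(2 * s)) := by
    have := Real.add_one_le_exp (-(2 * s))
    linarith
  have h3 : Real.exp (-s) = Real.exp s * Real.exp (-(2 * s)) := by
    rw [← Real.exp_add]
    congr 1
    ring
  rw [h1, h3]
  have h4 := Real.exp_pos s
  nlinarith

theorem vis {m : ℕ} {A B C : Mt m} (hm : 0 < m) (hA : ‖A.det‖ = 1) (hB : ‖B.det‖ = 1)
    (hC : ‖C.det‖ = 1) (hirr : Algebra.adjoin ℂ ({A, B, C} : Set (Mt m)) = ⊤)
    (hne : ∃ H, Cl A B C H) : VS (EE A B C) := by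
  have uA : IsUnit A.det := isUnit_iff_ne_zero.2 (by intro h; rw [h, norm_zero] at hA; norm_num at hA)
  have uB : IsUnit B.det := isUnit_iff_ne_zero.2 (by intro h; rw [h, norm_zero] at hB; norm_num at hB)
  have uC : IsUnit C.det := isUnit_iff_ne_zero.2 (by intro h; rw [h, norm_zero] at hC; norm_num at hC)
  intro x y hy ep hep
  set E0 := EE A B C x y with hE0
  have hE00 : 0 ≤ E0 := ee_nonneg A B C x hy
  set M : ℝ := min (1 / 2) (ep / (64 * (E0 + 1))) with hMdef
  have hM : 0 < M := lt_min (by norm_num) (by positivity)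
  have hM1 : M ≤ 1 / 2 := min_le_left _ _
  have hM2 : M * (64 * (E0 + 1)) ≤ ep := by
    have h1 : M ≤ ep / (64 * (E0 + 1)) := min_le_right _ _
    rwa [le_div_iff₀ (by positivity)] at h1
  obtain ⟨phi, htr⟩ := exists_tr hM
  obtain ⟨s0, hs0, herr⟩ := err_small hm hA hB hC hirr hne x hy hM (by linarith) htr
    (del := ep / 32) (by positivity)
  refine ⟨min s0 (min (1 / 3) (min (ep / (288 * (E0 + 1))) (ep / 8))), by positivity, ?_⟩
  intro s hs hs'
  have hs1 : s < s0 := lt_of_lt_of_le hs' (min_le_left _ _)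
  have hs2 : s < 1 / 3 := lt_of_lt_of_le hs' ((min_le_right _ _).trans (min_le_left _ _))
  have hs3 : s * (288 * (E0 + 1)) < ep := by
    have h1 : s < ep / (288 * (E0 + 1)) := lt_of_lt_of_le hs'
      ((min_le_right _ _).trans ((min_le_right _ _).trans (min_le_left _ _)))
    rwa [lt_div_iff₀ (by positivity)] at h1
  have hs4 : s < ep / 8 := lt_of_lt_of_le hs'
    ((min_le_right _ _).trans ((min_le_right _ _).trans (min_le_right _ _)))
  obtain ⟨hsinh, herr⟩ := herr s hs hs1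
  have hs6 : 0 < s ^ 6 := by positivity
  have hcosh : 0 < Real.cosh s := Real.cosh_pos s
  obtain ⟨c0, c2, c1, c3, cI⟩ := ck_ct s
  -- the near-minimisers
  obtain ⟨H, hHN, hHd, hHE⟩ := nm_ee hm hA hB hC hne x hy 0 (y := 1) one_pos hs6
  rw [mul_zero, add_zero, mul_one] at hHE
  have hEle : E0 ≤ En (f1 x y) (f2 x y) (ct 0 1) H := by
    have h1 := frame_en H x hy 0 (y := 1) one_pos
    rw [mul_zero, add_zero, mul_one] at h1
    rw [h1]
    exact ee_le hHN.1 x hy
  rw [← cI] at hHN hHE hEle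
  obtain ⟨G0, hG0N, hG0d, hG0E⟩ := nm_ee hm hA hB hC hne x hy 0 (y := Real.exp s)
    (Real.exp_pos s) hs6
  obtain ⟨G1, hG1N, hG1d, hG1E⟩ := nm_ee hm hA hB hC hne x hy (-Real.tanh s)
    (y := 1 / Real.cosh s) (by positivity) hs6
  obtain ⟨G2, hG2N, hG2d, hG2E⟩ := nm_ee hm hA hB hC hne x hy 0 (y := Real.exp (-s))
    (Real.exp_pos (-s)) hs6
  obtain ⟨G3, hG3N, hG3d, hG3E⟩ := nm_ee hm hA hB hC hne x hy (Real.tanh s)
    (y := 1 / Real.cosh s) (by positivity) hs6
  rw [← c0] at hG0N hG0E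
  rw [← c1] at hG1N hG1E
  rw [← c2] at hG2N hG2E
  rw [← c3] at hG3N hG3E
  have e0 := herr 1 0 (by norm_num) H G0 hHN hHd hG0N hG0d
  have e1 := herr 0 1 (by norm_num) H G1 hHN hHd hG1N hG1d
  have e2 := herr (-1) 0 (by norm_num) H G2 hHN hHd hG2N hG2d
  have e3 := herr 0 (-1) (by norm_num) H G3 hHN hHd hG3N hG3d
  have hasm := asm uA uB uC hs6.le hs.le hsinh hM (by linarith) htr hHN ![G0, G1, G2, G3] (by
    intro k
    fin_cases k
    · exact hG0N.1
    · exact hG1N.1
    · exact hG2N.1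
    · exact hG3N.1)
  rw [Fin.sum_univ_four, Fin.sum_univ_four, Fin.sum_univ_four] at hasm
  simp only [pk, rk, Matrix.cons_val_zero, Matrix.cons_val_one, Matrix.cons_val] at hasm
  rw [mul_zero, add_zero] at hG0E hG2E
  rw [show x + y * -Real.tanh s = x - y * Real.tanh s by ring,
    show y * (1 / Real.cosh s) = y / Real.cosh s by ring] at hG1E
  rw [show y * (1 / Real.cosh s) = y / Real.cosh s by ring] at hG3E
  set E := En (f1 x y) (f2 x y) (1, 0, 1) H with hE
  have hs61 : s ^ 6 ≤ 1 := pow_le_one₀ hs.le (by linarith)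
  have hEE1 : E ≤ E0 + 1 := by linarith
  have hEpos : 0 ≤ E := hE00.trans hEle
  -- the main term
  have k1 : 4 * (1 + s ^ 2 / 2) * E ≤ 4 * Real.cosh s * E := by
    have := mul_le_mul_of_nonneg_right (Vis_cosh s) hEpos
    linarith
  have k2 : Real.sinh s ^ 2 * Real.exp s ≤ s ^ 2 * (1 + 6 * s) := by
    have h1 : Real.sinh s ^ 2 ≤ (s * Real.exp s) ^ 2 :=
      pow_le_pow_left₀ (Real.sinh_nonneg_iff.2 hs.le) Vis_sinh 2
    have h2 : Real.exp (3 * s) ≤ 1 + 2 * (3 * s) := Vis_exp (by linarith) (by linarith)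
    have h3 : Real.exp (3 * s) = Real.exp s ^ 2 * Real.exp s := by
      rw [← Real.exp_nat_mul, ← Real.exp_add]
      congr 1
      push_cast
      ring
    calc Real.sinh s ^ 2 * Real.exp s ≤ (s * Real.exp s) ^ 2 * Real.exp s :=
          mul_le_mul_of_nonneg_right h1 (Real.exp_pos s).le
      _ = s ^ 2 * Real.exp (3 * s) := by rw [h3]; ring
      _ ≤ s ^ 2 * (1 + 6 * s) := mul_le_mul_of_nonneg_left (by linarith) (sq_nonneg s)
  have k3 : Real.exp (2 * M) ≤ 1 + 4 * M := by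
    have := Vis_exp (u := 2 * M) (by linarith) (by linarith)
    linarith
  have k4 : Real.exp (2 * M) ≤ 3 := by linarith
  have k5 : 2 * Real.sinh s ^ 2 * Real.exp (2 * M + s) * E ≤
      2 * s ^ 2 * E + ep * s ^ 2 / 4 := by
    have h1 : 2 * Real.sinh s ^ 2 * Real.exp (2 * M + s) * E =
        2 * (Real.sinh s ^ 2 * Real.exp s) * Real.exp (2 * M) * E := by
      rw [Real.exp_add]
      ring
    rw [h1]
    have h2 : 2 * (Real.sinh s ^ 2 * Real.exp s) * Real.exp (2 * M) * E ≤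
        2 * (s ^ 2 * (1 + 6 * s)) * Real.exp (2 * M) * E := by
      have := mul_le_mul_of_nonneg_right k2 (mul_nonneg (Real.exp_pos (2 * M)).le hEpos)
      nlinarith
    have h3 : 2 * (s ^ 2 * (1 + 6 * s)) * Real.exp (2 * M) * E =
        s ^ 2 * (2 * Real.exp (2 * M) * E) + s ^ 2 * (12 * s * (Real.exp (2 * M) * E)) := by
      ring
    have h4 : 2 * Real.exp (2 * M) * E ≤ 2 * E + ep / 8 := by
      have a1 : Real.exp (2 * M) * E ≤ (1 + 4 * M) * E := mul_le_mul_of_nonneg_right k3 hEpos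
      have a2 : M * E ≤ M * (E0 + 1) := mul_le_mul_of_nonneg_left hEE1 hM.le
      linarith
    have h5 : 12 * s * (Real.exp (2 * M) * E) ≤ ep / 8 := by
      have a1 : Real.exp (2 * M) * E ≤ 3 * (E0 + 1) :=
        mul_le_mul k4 hEE1 hEpos (by norm_num)
      have a2 := mul_le_mul_of_nonneg_left a1 hs.le
      linarith
    have h6 := mul_le_mul_of_nonneg_left h4 (sq_nonneg s)
    have h7 := mul_le_mul_of_nonneg_left h5 (sq_nonneg s)
    linarith
  have k6 : 4 * s ^ 6 ≤ ep * s ^ 2 / 2 := by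
    have h1 : s ^ 4 ≤ s := by
      have : s ^ 4 = s * s ^ 3 := by ring
      rw [this]
      exact mul_le_of_le_one_right hs.le (pow_le_one₀ hs.le (by linarith))
    have h2 : s ^ 6 = s ^ 2 * s ^ 4 := by ring
    rw [h2]
    have h3 := mul_le_mul_of_nonneg_left (h1.trans hs4.le) (sq_nonneg s)
    linarith
  linarith

end H80HM
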