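import Pool.Agent.H80.HM.Def5
import Pool.Agent.H80.HM.Ctu
import Pool.Agent.H80.HM.Eis
import Pool.Agent.H80.HM.Csp
import Pool.Agent.H80.HM.Vis
import Pool.Agent.H80.HM.Mxf
import Pool.Agent.H80.HM.Ups

set_option autoImplicit false

/-!
# Row Thn: the theorem for the free group on three letters

x, y, p = xx, yy, pp. Three configurations (A, B, C) of elements of the free group: c0 = (y p, x, y), c1 = (x, y p^{-1}, x p^{-1}), c2 = (x, y, x p^{-1}). Each generates the free group.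
Let (N, k, r) be from jh pi. By the charpoly formula and mo_dvd (Finset.dvd_prod_of_mem), Mo (pi g) implies Mo (r_i g) for all i.
The pairs (A, C) and (B, C) of the three configurations generate subgroups of closures of the five pairs of Mp5: c0: {yp, y} in closure {y, p}, {x, y}; c1: {x, x p^{-1}} in closure {x, p},
{y p^{-1}, x p^{-1}}; c2: {x, x p^{-1}} in closure {x, p}, {y, x p^{-1}}. So for u, v one of these pairs and every i all elements r_i(g), g in closure {u, v}, are Mo, and closure {r_i u, r_i v}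
is the image of closure {u, v}: ctr_of_mo gives Ctr (r_i u) (r_i v). cusp_ne gives a metric, |det r_i(A)| = |det r_i(B)| = |det r_i(C)| = 1 (mo_det), adj_gen gives the generation hypothesis.
Family: index Fin 3 x Fin N (a Fintype), F (c, i) x y := EE (r_i A) (r_i B) (r_i C) x y for the configuration c = (A, B, C). max_family: hc: ee_cont; h0: ee_nonneg; hcusp: cusp; hv: vis.
hT: ee_T applied to (c', i): EE(A, C B^{-1}, C)(x, y) <= EE(A, B, C)(x - 1, y). In the free group T(c') = (A, C B^{-1}, C) is: T(c0) = (yp, y x^{-1}, y) = a1(c0), a1: x -> y x^{-1}, y -> y;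
  T(c1) = (x, x y^{-1}, x p^{-1}) = a2(c2), a2: y -> x y^{-1}; T(c2) = (x, x p^{-1} y^{-1}, x p^{-1}) = a3(c1), a3: y -> x p^{-1} y^{-1} p. By the twist statement of jh for a1 (a2, a3) and j there is
  i with (r_i o a1) isomorphic to r_j: EE(r_i(T c0)) = EE((r_i o a1)(c0)) = EE(r_j c0) by ee_iso. So for (c0, j) take (c0, i); for (c2, j) take (c1, i) with a2; for (c1, j) take (c2, i) with a3.
hS: ee_S: EE(B C^{-1}, B, B A^{-1})(z) <= EE(A, B, C)(S z). S(c0) = (x y^{-1}, x, x p^{-1} y^{-1}) = y a4(c2) y^{-1}, a4: x -> y^{-1} x, y -> y^{-1} x y;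
  S(c2) = (y p x^{-1}, y, y x^{-1}) = x a5(c0) x^{-1}, a5: x -> x^{-1} y x, y -> x^{-1} y;
  S(c1) = (y x^{-1}, y p^{-1}, y p^{-1} x^{-1}) = x a6(c1) x^{-1}, a6: x -> x^{-1} y, y -> x^{-1} y p^{-1} x p. Use ee_conj (g = r_i(y), r_i(x)) and ee_iso: for (c2, j) take (c0, i) with a4; for
  (c0, j) take (c2, i) with a5; for (c1, j) take (c1, i) with a6.
Conclusion EE = 0 for all (c, i). For c0 and each i: unitarizable (at the point (0, 1)) gives h with A h A* = h etc.; the set of g with r_i(g) h r_i(g)* = h is a subgroup containing A, B, C, so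
everything; mo_of_unitary: Mo (r_i g) for all g. charpoly (pi g) is the product of the charpolys of the r_i(g), so its roots have modulus 1: Mo (pi g).
-/

namespace H80HM

open Matrix

theorem Thn_T {G : Type} [Group G] {k k' : ℕ} (r : G →* (Mt k)ˣ) (r' : G →* (Mt k')ˣ)
    (a : G ≃* G) (h : Rsm (r.comp a.toMonoidHom) r') {A B C A' B' C' : G} (hA : a A' = A)
    (hB : a B' = C * B⁻¹) (hC : a C' = C)
    (hne : ∃ H, Cl ((r A : (Mt k)ˣ) : Mt k) ((r B : (Mt k)ˣ) : Mt k) ((r C : (Mt k)ˣ) : Mt k) H)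
    (x : ℝ) {y : ℝ} (hy : 0 < y) :
    EE ((r' A' : (Mt k')ˣ) : Mt k') ((r' B' : (Mt k')ˣ) : Mt k') ((r' C' : (Mt k')ˣ) : Mt k') x y ≤
      EE ((r A : (Mt k)ˣ) : Mt k) ((r B : (Mt k)ˣ) : Mt k) ((r C : (Mt k)ˣ) : Mt k) (x - 1) y := by
  obtain ⟨T, T', h1, h2, h3⟩ := h
  have e := ee_iso h1 h2 (h3 A') (h3 B') (h3 C') x hy
  rw [← e]
  change EE ((r (a A') : (Mt k)ˣ) : Mt k) ((r (a B') : (Mt k)ˣ) : Mt k)
    ((r (a C') : (Mt k)ˣ) : Mt k) x y ≤ _
  rw [hA, hB, hC, map_mul, map_inv, Units.val_mul, Matrix.coe_units_inv]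
  exact ee_T ((Matrix.isUnit_iff_isUnit_det _).1 (r A).isUnit)
    ((Matrix.isUnit_iff_isUnit_det _).1 (r B).isUnit)
    ((Matrix.isUnit_iff_isUnit_det _).1 (r C).isUnit) hne x hy

theorem Thn_S {G : Type} [Group G] {k k' : ℕ} (r : G →* (Mt k)ˣ) (r' : G →* (Mt k')ˣ)
    (a : G ≃* G) (h : Rsm (r.comp a.toMonoidHom) r') {A B C A' B' C' : G} (g : G)
    (hA : g * a A' * g⁻¹ = B * C⁻¹) (hB : g * a B' * g⁻¹ = B) (hC : g * a C' * g⁻¹ = B * A⁻¹)
    (hne : ∃ H, Cl ((r A : (Mt k)ˣ) : Mt k) ((r B : (Mt k)ˣ) : Mt k) ((r C : (Mt k)ˣ) : Mt k) H)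
    (x : ℝ) {y : ℝ} (hy : 0 < y) :
    EE ((r' A' : (Mt k')ˣ) : Mt k') ((r' B' : (Mt k')ˣ) : Mt k') ((r' C' : (Mt k')ˣ) : Mt k') x y ≤
      EE ((r A : (Mt k)ˣ) : Mt k) ((r B : (Mt k)ˣ) : Mt k) ((r C : (Mt k)ˣ) : Mt k)
        (-x / (x ^ 2 + y ^ 2)) (y / (x ^ 2 + y ^ 2)) := by
  obtain ⟨T, T', h1, h2, h3⟩ := h
  have e := ee_iso h1 h2 (h3 A') (h3 B') (h3 C') x hy
  rw [← e]
  change EE ((r (a A') : (Mt k)ˣ) : Mt k) ((r (a B') : (Mt k)ˣ) : Mt k)
    ((r (a C') : (Mt k)ˣ) : Mt k) x y ≤ _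
  have hg : IsUnit ((r g : (Mt k)ˣ) : Mt k).det := (Matrix.isUnit_iff_isUnit_det _).1 (r g).isUnit
  have hc : ∀ u : G, ((r g : (Mt k)ˣ) : Mt k) * ((r u : (Mt k)ˣ) : Mt k) *
      (((r g : (Mt k)ˣ) : Mt k))⁻¹ = ((r (g * u * g⁻¹) : (Mt k)ˣ) : Mt k) := by
    intro u
    rw [map_mul, map_mul, map_inv, Units.val_mul, Units.val_mul, Matrix.coe_units_inv]
  rw [← ee_conj hg x hy, hc, hc, hc, hA, hB, hC, map_mul, map_mul, map_inv, map_inv,
    Units.val_mul, Units.val_mul, Matrix.coe_units_inv, Matrix.coe_units_inv]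
  exact ee_S ((Matrix.isUnit_iff_isUnit_det _).1 (r A).isUnit)
    ((Matrix.isUnit_iff_isUnit_det _).1 (r B).isUnit)
    ((Matrix.isUnit_iff_isUnit_det _).1 (r C).isUnit) hne x hy

theorem Thn_ctr {G : Type} [Group G] {k : ℕ} (r : G →* (Mt k)ˣ) (u v : G)
    (h : ∀ g ∈ Subgroup.closure ({u, v} : Set G), Mo ((r g : (Mt k)ˣ) : Mt k)) :
    Ctr ((r u : (Mt k)ˣ) : Mt k) ((r v : (Mt k)ˣ) : Mt k) := by
  apply ctr_of_mo
  intro g hg
  have h1 : Subgroup.closure ({r u, r v} : Set (Mt k)ˣ) =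
      (Subgroup.closure ({u, v} : Set G)).map r := by
    rw [MonoidHom.map_closure, Set.image_pair]
  rw [h1] at hg
  obtain ⟨g', hg', rfl⟩ := hg
  exact h g' hg'

/-- the three configurations -/
def Thn_c (c : Fin 3) : Fin 3 → FreeGroup (Fin 3) :=
  (![![yy * pp, xx, yy], ![xx, yy * pp⁻¹, xx * pp⁻¹], ![xx, yy, xx * pp⁻¹]] :
    Fin 3 → Fin 3 → FreeGroup (Fin 3)) c

theorem Thn_gen (c : Fin 3) :
    Subgroup.closure ({Thn_c c 0, Thn_c c 1, Thn_c c 2} : Set (FreeGroup (Fin 3))) = ⊤ := by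
  set K := Subgroup.closure ({Thn_c c 0, Thn_c c 1, Thn_c c 2} : Set (FreeGroup (Fin 3))) with hK
  have h0 : Thn_c c 0 ∈ K := Subgroup.subset_closure (by simp)
  have h1 : Thn_c c 1 ∈ K := Subgroup.subset_closure (by simp)
  have h2 : Thn_c c 2 ∈ K := Subgroup.subset_closure (by simp)
  have key : xx ∈ K ∧ yy ∈ K ∧ pp ∈ K := by
    fin_cases c
    · change yy * pp ∈ K at h0
      change xx ∈ K at h1
      change yy ∈ K at h2
      refine ⟨h1, h2, ?_⟩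
      have := K.mul_mem (K.inv_mem h2) h0
      rwa [inv_mul_cancel_left] at this
    · change xx ∈ K at h0
      change yy * pp⁻¹ ∈ K at h1
      change xx * pp⁻¹ ∈ K at h2
      have h3 := K.mul_mem (K.inv_mem h0) h2
      rw [inv_mul_cancel_left] at h3
      have h4 : pp ∈ K := (Subgroup.inv_mem_iff K).1 h3
      have h5 := K.mul_mem h1 h4
      rw [inv_mul_cancel_right] at h5
      exact ⟨h0, h5, h4⟩
    · change xx ∈ K at h0
      change yy ∈ K at h1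
      change xx * pp⁻¹ ∈ K at h2
      have h3 := K.mul_mem (K.inv_mem h0) h2
      rw [inv_mul_cancel_left] at h3
      exact ⟨h0, h1, (Subgroup.inv_mem_iff K).1 h3⟩
  rw [eq_top_iff, ← FreeGroup.closure_range_of, Subgroup.closure_le]
  rintro _ ⟨i, rfl⟩
  fin_cases i
  · exact key.1
  · exact key.2.1
  · exact key.2.2

theorem Thn_pair {D' : ℕ} (pi : FreeGroup (Fin 3) →* (Mt D')ˣ) (h5 : Mp5 pi) (c : Fin 3) :
    Mpr pi (Thn_c c 0) (Thn_c c 2) ∧ Mpr pi (Thn_c c 1) (Thn_c c 2) := by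
  obtain ⟨m1, m2, m3, m4, m5⟩ := h5
  have mono : ∀ u v u' v' : FreeGroup (Fin 3), u' ∈ Subgroup.closure ({u, v} : Set _) →
      v' ∈ Subgroup.closure ({u, v} : Set _) → Mpr pi u v → Mpr pi u' v' := by
    intro u v u' v' hu hv h g hg
    apply h g
    refine (Subgroup.closure_le _).2 ?_ hg
    intro w hw
    rcases hw with rfl | hw
    · exact hu
    · rw [Set.mem_singleton_iff.1 hw]
      exact hv
  have a1 : ∀ u v : FreeGroup (Fin 3), u ∈ Subgroup.closure ({u, v} : Set _) := fun u v =>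
    Subgroup.subset_closure (by simp)
  have a2 : ∀ u v : FreeGroup (Fin 3), v ∈ Subgroup.closure ({u, v} : Set _) := fun u v =>
    Subgroup.subset_closure (by simp)
  have a3 : ∀ u v : FreeGroup (Fin 3), u * v ∈ Subgroup.closure ({u, v} : Set _) := fun u v =>
    Subgroup.mul_mem _ (a1 u v) (a2 u v)
  have a4 : ∀ u v : FreeGroup (Fin 3), u * v⁻¹ ∈ Subgroup.closure ({u, v} : Set _) := fun u v =>
    Subgroup.mul_mem _ (a1 u v) (Subgroup.inv_mem _ (a2 u v))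
  fin_cases c
  · exact ⟨mono yy pp (yy * pp) yy (a3 _ _) (a1 _ _) m1, m2⟩
  · exact ⟨mono xx pp xx (xx * pp⁻¹) (a1 _ _) (a4 _ _) m3, m4⟩
  · exact ⟨mono xx pp xx (xx * pp⁻¹) (a1 _ _) (a4 _ _) m3, m5⟩

theorem Thn_tw {D' : ℕ} {pi : FreeGroup (Fin 3) →* (Mt D')ˣ} {v w : FreeGroup (Fin 3)}
    (h : Tw pi v w) {N : ℕ} {k : Fin N → ℕ} {r : ∀ i, FreeGroup (Fin 3) →* (Mt (k i))ˣ}
    (hjh : ∀ a : FreeGroup (Fin 3) ≃* FreeGroup (Fin 3),
      (∃ T : (Mt D')ˣ, ∀ g, pi (a g) = T * pi g * T⁻¹) →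
        ∀ j, ∃ i, Rsm ((r i).comp a.toMonoidHom) (r j)) (j : Fin N) :
    ∃ (a : FreeGroup (Fin 3) ≃* FreeGroup (Fin 3)) (i : Fin N), a xx = v ∧ a yy = w ∧ a pp = pp ∧
      Rsm ((r i).comp a.toMonoidHom) (r j) := by
  obtain ⟨a, h1, h2, h3, hT⟩ := h
  obtain ⟨i, hi⟩ := hjh a hT j
  exact ⟨a, i, h1, h2, h3, hi⟩

theorem thn {D' : ℕ} (pi : FreeGroup (Fin 3) →* (Mt D')ˣ) (h6 : Tw6 pi) (h5 : Mp5 pi) :
    ∀ g, Mo ((pi g : (Mt D')ˣ) : Mt D') := by
  obtain ⟨N, k, r, hk, hirr, hch, hjh⟩ := jh pi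
  have hmo : ∀ i g, Mo ((pi g : (Mt D')ˣ) : Mt D') → Mo ((r i g : (Mt (k i))ˣ) : Mt (k i)) := by
    intro i g hg
    refine mo_dvd ?_ hg
    rw [hch g]
    exact Finset.dvd_prod_of_mem (fun i => ((r i g : (Mt (k i))ˣ) : Mt (k i)).charpoly)
      (Finset.mem_univ i)
  have hAC : ∀ c i, Ctr ((r i (Thn_c c 0) : (Mt (k i))ˣ) : Mt (k i))
      ((r i (Thn_c c 2) : (Mt (k i))ˣ) : Mt (k i)) := fun c i =>
    Thn_ctr (r i) _ _ fun g hg => hmo i g ((Thn_pair pi h5 c).1 g hg)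
  have hBC : ∀ c i, Ctr ((r i (Thn_c c 1) : (Mt (k i))ˣ) : Mt (k i))
      ((r i (Thn_c c 2) : (Mt (k i))ˣ) : Mt (k i)) := fun c i =>
    Thn_ctr (r i) _ _ fun g hg => hmo i g ((Thn_pair pi h5 c).2 g hg)
  have hne : ∀ c i, ∃ H, Cl ((r i (Thn_c c 0) : (Mt (k i))ˣ) : Mt (k i))
      ((r i (Thn_c c 1) : (Mt (k i))ˣ) : Mt (k i))
      ((r i (Thn_c c 2) : (Mt (k i))ˣ) : Mt (k i)) H := fun c i => cusp_ne (hAC c i) (hBC c i)
  have hd0 : ∀ c i, ‖((r i (Thn_c c 0) : (Mt (k i))ˣ) : Mt (k i)).det‖ = 1 := fun c i =>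
    mo_det (hmo i _ ((Thn_pair pi h5 c).1 _ (Subgroup.subset_closure (by simp))))
  have hd1 : ∀ c i, ‖((r i (Thn_c c 1) : (Mt (k i))ˣ) : Mt (k i)).det‖ = 1 := fun c i =>
    mo_det (hmo i _ ((Thn_pair pi h5 c).2 _ (Subgroup.subset_closure (by simp))))
  have hd2 : ∀ c i, ‖((r i (Thn_c c 2) : (Mt (k i))ˣ) : Mt (k i)).det‖ = 1 := fun c i =>
    mo_det (hmo i _ ((Thn_pair pi h5 c).1 _ (Subgroup.subset_closure (by simp))))
  have hadj : ∀ c i, Algebra.adjoin ℂ ({((r i (Thn_c c 0) : (Mt (k i))ˣ) : Mt (k i)),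
      ((r i (Thn_c c 1) : (Mt (k i))ˣ) : Mt (k i)),
      ((r i (Thn_c c 2) : (Mt (k i))ˣ) : Mt (k i))} : Set (Mt (k i))) = ⊤ := fun c i =>
    adj_gen (hirr i) (Thn_gen c)
  obtain ⟨w1, w2, w3, w4, w5, w6⟩ := h6
  have hzero := max_family (ι := Fin 3 × Fin N)
    (F := fun ci x y => EE ((r ci.2 (Thn_c ci.1 0) : (Mt (k ci.2))ˣ) : Mt (k ci.2))
      ((r ci.2 (Thn_c ci.1 1) : (Mt (k ci.2))ˣ) : Mt (k ci.2))
      ((r ci.2 (Thn_c ci.1 2) : (Mt (k ci.2))ˣ) : Mt (k ci.2)) x y)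
    (fun ci => ee_cont (hne ci.1 ci.2))
    (fun ci x y hy => ee_nonneg _ _ _ x hy)
    (fun ci => cusp (hAC ci.1 ci.2) (hBC ci.1 ci.2))
    (fun ci => vis (hk ci.2) (hd0 _ _) (hd1 _ _) (hd2 _ _) (hadj _ _) (hne _ _))
    (by
      rintro ⟨c, j⟩
      fin_cases c
      · obtain ⟨a, i, hx, hyy, hp, hr⟩ := Thn_tw w1 hjh j
        refine ⟨(0, i), fun x y hy => Thn_T (r i) (r j) a hr ?_ ?_ ?_ (hne 0 i) x hy⟩
        · change a (yy * pp) = yy * pp
          rw [map_mul, hyy, hp]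
        · change a xx = yy * xx⁻¹
          exact hx
        · exact hyy
      · obtain ⟨a, i, hx, hyy, hp, hr⟩ := Thn_tw w3 hjh j
        refine ⟨(2, i), fun x y hy => Thn_T (r i) (r j) a hr ?_ ?_ ?_ (hne 2 i) x hy⟩
        · exact hx
        · change a (yy * pp⁻¹) = xx * pp⁻¹ * yy⁻¹
          rw [map_mul, map_inv, hyy, hp]
          group
        · change a (xx * pp⁻¹) = xx * pp⁻¹
          rw [map_mul, map_inv, hx, hp]
      · obtain ⟨a, i, hx, hyy, hp, hr⟩ := Thn_tw w2 hjh j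
        refine ⟨(1, i), fun x y hy => Thn_T (r i) (r j) a hr ?_ ?_ ?_ (hne 1 i) x hy⟩
        · exact hx
        · change a yy = xx * pp⁻¹ * (yy * pp⁻¹)⁻¹
          rw [hyy]
          group
        · change a (xx * pp⁻¹) = xx * pp⁻¹
          rw [map_mul, map_inv, hx, hp])
    (by
      rintro ⟨c, j⟩
      fin_cases c
      · obtain ⟨a, i, hx, hyy, hp, hr⟩ := Thn_tw w5 hjh j
        refine ⟨(2, i), fun x y hy => Thn_S (r i) (r j) a hr xx ?_ ?_ ?_ (hne 2 i) x hy⟩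
        · change xx * a (yy * pp) * xx⁻¹ = yy * (xx * pp⁻¹)⁻¹
          rw [map_mul, hyy, hp]
          group
        · change xx * a xx * xx⁻¹ = yy
          rw [hx]
          group
        · change xx * a yy * xx⁻¹ = yy * xx⁻¹
          rw [hyy]
          group
      · obtain ⟨a, i, hx, hyy, hp, hr⟩ := Thn_tw w6 hjh j
        refine ⟨(1, i), fun x y hy => Thn_S (r i) (r j) a hr xx ?_ ?_ ?_ (hne 1 i) x hy⟩
        · change xx * a xx * xx⁻¹ = yy * pp⁻¹ * (xx * pp⁻¹)⁻¹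
          rw [hx]
          group
        · change xx * a (yy * pp⁻¹) * xx⁻¹ = yy * pp⁻¹
          rw [map_mul, map_inv, hyy, hp]
          group
        · change xx * a (xx * pp⁻¹) * xx⁻¹ = yy * pp⁻¹ * xx⁻¹
          rw [map_mul, map_inv, hx, hp]
          group
      · obtain ⟨a, i, hx, hyy, hp, hr⟩ := Thn_tw w4 hjh j
        refine ⟨(0, i), fun x y hy => Thn_S (r i) (r j) a hr yy ?_ ?_ ?_ (hne 0 i) x hy⟩
        · change yy * a xx * yy⁻¹ = xx * yy⁻¹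
          rw [hx]
          group
        · change yy * a yy * yy⁻¹ = xx
          rw [hyy]
          group
        · change yy * a (xx * pp⁻¹) * yy⁻¹ = xx * (yy * pp)⁻¹
          rw [map_mul, map_inv, hx, hp]
          group)
  have hall : ∀ i g, Mo ((r i g : (Mt (k i))ˣ) : Mt (k i)) := by
    intro i
    have h0 := hzero (0, i) 0 1 one_pos
    obtain ⟨h, hh, e0, e1, e2⟩ := unitarizable (hk i) (hd0 0 i) (hd1 0 i) (hd2 0 i) (hadj 0 i)
      (hne 0 i) one_pos h0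
    have hmul : ∀ g g' : FreeGroup (Fin 3),
        ((r i g : (Mt (k i))ˣ) : Mt (k i)) * h * (((r i g : (Mt (k i))ˣ) : Mt (k i)))ᴴ = h →
        ((r i g' : (Mt (k i))ˣ) : Mt (k i)) * h * (((r i g' : (Mt (k i))ˣ) : Mt (k i)))ᴴ = h →
        ((r i (g * g') : (Mt (k i))ˣ) : Mt (k i)) * h *
          (((r i (g * g') : (Mt (k i))ˣ) : Mt (k i)))ᴴ = h := by
      intro g g' hg hg'
      rw [map_mul, Units.val_mul, conjTranspose_mul]
      calc ((r i g : (Mt (k i))ˣ) : Mt (k i)) * ((r i g' : (Mt (k i))ˣ) : Mt (k i)) * h *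
          ((((r i g' : (Mt (k i))ˣ) : Mt (k i)))ᴴ * (((r i g : (Mt (k i))ˣ) : Mt (k i)))ᴴ)
          = ((r i g : (Mt (k i))ˣ) : Mt (k i)) * (((r i g' : (Mt (k i))ˣ) : Mt (k i)) * h *
            (((r i g' : (Mt (k i))ˣ) : Mt (k i)))ᴴ) * (((r i g : (Mt (k i))ˣ) : Mt (k i)))ᴴ := by
            simp only [Matrix.mul_assoc]
        _ = h := by rw [hg', hg]
    have hinv : ∀ g : FreeGroup (Fin 3),
        ((r i g : (Mt (k i))ˣ) : Mt (k i)) * h * (((r i g : (Mt (k i))ˣ) : Mt (k i)))ᴴ = h →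
        ((r i g⁻¹ : (Mt (k i))ˣ) : Mt (k i)) * h *
          (((r i g⁻¹ : (Mt (k i))ˣ) : Mt (k i)))ᴴ = h := by
      intro g hg
      have h1 : ((r i g⁻¹ : (Mt (k i))ˣ) : Mt (k i)) * ((r i g : (Mt (k i))ˣ) : Mt (k i)) = 1 := by
        rw [← Units.val_mul, ← map_mul, inv_mul_cancel, map_one, Units.val_one]
      have h2 : (((r i g : (Mt (k i))ˣ) : Mt (k i)))ᴴ *
          (((r i g⁻¹ : (Mt (k i))ˣ) : Mt (k i)))ᴴ = 1 := by
        rw [← conjTranspose_mul, h1, conjTranspose_one]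
      calc ((r i g⁻¹ : (Mt (k i))ˣ) : Mt (k i)) * h * (((r i g⁻¹ : (Mt (k i))ˣ) : Mt (k i)))ᴴ
          = ((r i g⁻¹ : (Mt (k i))ˣ) : Mt (k i)) * (((r i g : (Mt (k i))ˣ) : Mt (k i)) * h *
            (((r i g : (Mt (k i))ˣ) : Mt (k i)))ᴴ) *
              (((r i g⁻¹ : (Mt (k i))ˣ) : Mt (k i)))ᴴ := by rw [hg]
        _ = (((r i g⁻¹ : (Mt (k i))ˣ) : Mt (k i)) * ((r i g : (Mt (k i))ˣ) : Mt (k i))) * h *
            ((((r i g : (Mt (k i))ˣ) : Mt (k i)))ᴴ *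
              (((r i g⁻¹ : (Mt (k i))ˣ) : Mt (k i)))ᴴ) := by
            simp only [Matrix.mul_assoc]
        _ = h := by rw [h1, h2, Matrix.one_mul, Matrix.mul_one]
    intro g
    have hg : g ∈ Subgroup.closure ({Thn_c 0 0, Thn_c 0 1, Thn_c 0 2} : Set (FreeGroup (Fin 3))) := by
      rw [Thn_gen]
      exact Subgroup.mem_top g
    refine mo_of_unitary hh ?_
    induction hg using Subgroup.closure_induction with
    | mem u hu =>
      rcases hu with rfl | rfl | hu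
      · exact e0
      · exact e1
      · rw [Set.mem_singleton_iff.1 hu]
        exact e2
    | one =>
      rw [map_one, Units.val_one, conjTranspose_one, Matrix.one_mul, Matrix.mul_one]
    | mul u v _ _ hu hv => exact hmul u v hu hv
    | inv u _ hu => exact hinv u hu
  intro g z hz
  have hz1 : (((pi g : (Mt D')ˣ) : Mt D').charpoly).eval z = 0 :=
    (Polynomial.mem_roots'.1 hz).2
  rw [hch g, Polynomial.eval_prod, Finset.prod_eq_zero_iff] at hz1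
  obtain ⟨i, -, hi⟩ := hz1
  refine hall i g z ?_
  rw [Polynomial.mem_roots (Matrix.charpoly_monic _).ne_zero]
  exact hi

end H80HM
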