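import Pool.Agent.H80.HM.Mox

set_option autoImplicit false

/-!
# Row Sta: step A

Setting: L a group of matrices (image of tau), generated by elements with eigenvalues of modulus 1; g commutes with all tau h; W = tau w; z^{-1} g z = W g. CLAIM Mo W.
Generalized eigenspaces V_q of g (q eigenvalue): direct sum C^D = sum V_q, each V_q is invariant under everything commuting with g, in particular under all tau h (Mathlib:
Module.End.maxGenEigenspace, iSup = top, independence, mapsTo_maxGenEigenspace_of_comm).
(1) h -> |det(tau h | V_q)| is a homomorphism to the positive reals; for a generator h the eigenvalues of tau h | V_q are eigenvalues of tau h, so it is 1; hence it is 1 for all h.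
(2) joint generalized eigenspaces V_{q,om} of (g, W) (g and W commute), n(q,om) = dim V_{q,om}: sum_om n(q,om) = dim V_q; det(W|V_q) = prod_om om^{n(q,om)}, so sum_om n(q,om) log|om| = 0.
(3) W g has on V_{q,om} the only eigenvalue q om, so dim V_{q'}(Wg) = sum_{q om = q'} n(q,om). z^{-1} g z = W g gives dim V_{q'}(Wg) = dim V_{q'}(g) = sum_om n(q',om).
(4) sum over (q,om) of n (log|q om|)^2 = sum_{q'} dim V_{q'}(Wg) (log|q'|)^2 = sum_{(q,om)} n (log|q|)^2. Expand the left side: (log|q|)^2 + 2 log|q| log|om| + (log|om|)^2; the mixed terms vanish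
 by (2) for each q. So sum n(q,om) (log|om|)^2 = 0 and |om| = 1 for every eigenvalue om of W.
(Alternative organisation: p(M) := sum over roots z of charpoly M of (log|z|)^2. In a basis adapted to the decomposition into the V_q and triangularising W on each V_q simultaneously
 with g (commuting matrices on V_q), the roots of charpoly(Wg) are the products.)
-/

namespace H80HM

open Matrix Module Polynomial

section Aux

variable {V : Type} [AddCommGroup V] [Module ℂ V] [Module.Finite ℂ V]

theorem Sta_cp (f : V →ₗ[ℂ] V) (U : Submodule ℂ V) (hU : U ≤ U.comap f) :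
    f.charpoly = (f.restrict hU).charpoly * (U.mapQ U f hU).charpoly := by
  apply Polynomial.funext
  intro c
  rw [Polynomial.eval_mul, LinearMap.eval_charpoly, LinearMap.eval_charpoly,
    LinearMap.eval_charpoly]
  have he : U ≤ U.comap (algebraMap ℂ (End ℂ V) c - f) := by
    intro x hx
    rw [Submodule.mem_comap, LinearMap.sub_apply, Module.algebraMap_end_apply]
    exact U.sub_mem (U.smul_mem c hx) (hU hx)
  have h1 : LinearMap.restrict (algebraMap ℂ (End ℂ V) c - f) he
      = algebraMap ℂ (End ℂ U) c - f.restrict hU := by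
    ext x
    simp [LinearMap.restrict_apply]
  have h2 : U.mapQ U (algebraMap ℂ (End ℂ V) c - f) he
      = algebraMap ℂ (End ℂ (V ⧸ U)) c - U.mapQ U f hU := by
    ext x
    simp
  rw [LinearMap.det_eq_det_mul_det U _ he, h1, h2]

/-- restriction to an invariant subspace -/
noncomputable def Sta_r (f : End ℂ V) (U : Submodule ℂ V) (hU : U ≤ U.comap f) : End ℂ U :=
  f.restrict hU

omit [Module.Finite ℂ V] in
theorem Sta_r_apply (f : End ℂ V) (U : Submodule ℂ V) (hU : U ≤ U.comap f) (x : U) :
    ((Sta_r f U hU x : U) : V) = f x := rfl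

theorem Sta_roots (f : V →ₗ[ℂ] V) (U : Submodule ℂ V) (hU : U ≤ U.comap f) :
    f.charpoly.roots = (LinearMap.charpoly (Sta_r f U hU)).roots
      + (U.mapQ U f hU).charpoly.roots := by
  rw [Sta_cp f U hU, roots_mul, Sta_r]
  exact mul_ne_zero (LinearMap.charpoly_monic _).ne_zero (LinearMap.charpoly_monic _).ne_zero

theorem Sta_spl (f : V →ₗ[ℂ] V) :
    f.charpoly = (f.charpoly.roots.map fun a => X - C a).prod := by
  have h := (IsAlgClosed.splits f.charpoly).eq_prod_roots
  rw [(LinearMap.charpoly_monic f).leadingCoeff, C_1, one_mul] at h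
  exact h

theorem Sta_card (f : V →ₗ[ℂ] V) : Multiset.card f.charpoly.roots = finrank ℂ V := by
  rw [← LinearMap.charpoly_natDegree f]
  exact (IsAlgClosed.splits f.charpoly).natDegree_eq_card_roots.symm

theorem Sta_smul (f : V →ₗ[ℂ] V) {q : ℂ} (hq : q ≠ 0) :
    (q • f).charpoly.roots = f.charpoly.roots.map (fun z => q * z) := by
  have key : (q • f).charpoly = ((f.charpoly.roots.map (fun z => q * z)).map fun a => X - C a).prod := by
    apply Polynomial.funext
    intro c
    rw [LinearMap.eval_charpoly, Polynomial.eval_multiset_prod, Multiset.map_map,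
      Multiset.map_map]
    have h1 : algebraMap ℂ (End ℂ V) c - q • f = q • (algebraMap ℂ (End ℂ V) (c / q) - f) := by
      ext x
      simp only [LinearMap.sub_apply, LinearMap.smul_apply, Module.algebraMap_end_apply,
        smul_sub, smul_smul]
      rw [mul_div_cancel₀ _ hq]
    rw [h1, LinearMap.det_smul, ← LinearMap.eval_charpoly]
    conv_lhs => rw [Sta_spl f]
    rw [Polynomial.eval_multiset_prod, Multiset.map_map, ← Sta_card f]
    generalize f.charpoly.roots = m
    induction m using Multiset.induction with
    | empty => simp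
    | cons a s ih =>
      simp only [Multiset.card_cons, Multiset.map_cons, Multiset.prod_cons, Function.comp]
      rw [← show (Multiset.map (fun x => eval c (X - C (q * x))) s).prod
        = (Multiset.map ((eval c ∘ fun a => X - C a) ∘ fun z => q * z) s).prod from rfl] at ih
      rw [← ih]
      simp only [Function.comp, eval_sub, eval_X, eval_C]
      field_simp
      ring
  rw [key, roots_multiset_prod_X_sub_C]

theorem Sta_one : (1 : V →ₗ[ℂ] V).charpoly.roots = Multiset.replicate (finrank ℂ V) 1 := by
  rw [LinearMap.charpoly_one, Polynomial.roots_pow, ← C_1, roots_X_sub_C,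
    Multiset.nsmul_singleton]

theorem Sta_det (f : V →ₗ[ℂ] V) : f.det = f.charpoly.roots.prod :=
  Module.End.det_eq_prod_roots_charpoly_of_splits (IsAlgClosed.splits _)

theorem Sta_nz {f f' : V →ₗ[ℂ] V} (h : f * f' = 1) : ∀ z ∈ f.charpoly.roots, z ≠ 0 := by
  intro z hz h0
  have h1 : f.det = 0 := by
    rw [Sta_det, Multiset.prod_eq_zero]
    rw [← h0]
    exact hz
  have h2 : f.det * f'.det = 1 := by
    rw [← LinearMap.det_comp]
    have : f ∘ₗ f' = LinearMap.id := h
    rw [this, LinearMap.det_id]
  rw [h1, zero_mul] at h2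
  exact zero_ne_one h2

end Aux

/-- the square of the logarithm of the modulus -/
noncomputable def Sta_P (z : ℂ) : ℝ := (Real.log ‖z‖) ^ 2

theorem Sta_ms (m : Multiset ℂ) (hm : ∀ z ∈ m, z ≠ 0) (q : ℂ) (hq : q ≠ 0) :
    ((m.map (fun z => q * z)).map Sta_P).sum = (Multiset.card m : ℝ) * Sta_P q
      + 2 * Real.log ‖q‖ * Real.log ‖m.prod‖ + (m.map Sta_P).sum := by
  induction m using Multiset.induction with
  | empty => simp
  | cons a s ih =>
    have ha : a ≠ 0 := hm a (Multiset.mem_cons_self a s)
    have hs : ∀ z ∈ s, z ≠ 0 := fun z hz => hm z (Multiset.mem_cons_of_mem hz)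
    have hp : s.prod ≠ 0 := by
      intro h0
      rw [Multiset.prod_eq_zero_iff] at h0
      exact hs 0 h0 rfl
    simp only [Multiset.map_cons, Multiset.sum_cons, Multiset.prod_cons, Multiset.card_cons]
    rw [ih hs]
    have h1 : Real.log ‖q * a‖ = Real.log ‖q‖ + Real.log ‖a‖ := by
      rw [norm_mul, Real.log_mul (norm_ne_zero_iff.2 hq) (norm_ne_zero_iff.2 ha)]
    have h2 : Real.log ‖a * s.prod‖ = Real.log ‖a‖ + Real.log ‖s.prod‖ := by
      rw [norm_mul, Real.log_mul (norm_ne_zero_iff.2 ha) (norm_ne_zero_iff.2 hp)]
    have h3 : Sta_P (q * a) = (Real.log ‖q‖ + Real.log ‖a‖) ^ 2 := by rw [Sta_P, h1]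
    rw [h3, h2]
    simp only [Sta_P]
    push_cast
    ring

theorem Sta_main {k : ℕ} (n : ℕ) : ∀ (V : Type) [AddCommGroup V] [Module ℂ V]
    [Module.Finite ℂ V], finrank ℂ V = n →
    ∀ (T : FreeGroup (Fin k) → End ℂ V) (g : End ℂ V), T 1 = 1 →
    (∀ a b, T (a * b) = T a * T b) →
    (∀ i, ∀ z ∈ LinearMap.charpoly (T (FreeGroup.of i)) |>.roots, ‖z‖ = 1) →
    (∀ z ∈ (LinearMap.charpoly g).roots, z ≠ 0) → (∀ h, g * T h = T h * g) → ∀ w,
    ((LinearMap.charpoly (T w * g)).roots.map Sta_P).sum
      = ((LinearMap.charpoly g).roots.map Sta_P).sum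
        + ((LinearMap.charpoly (T w)).roots.map Sta_P).sum := by
  induction n using Nat.strong_induction_on with
  | _ n ih =>
    intro V _ _ _ hn T g hT1 hTm hTg hg hc w
    by_cases hV : Nontrivial V
    · obtain ⟨q, hq⟩ := Module.End.exists_eigenvalue g
      have hqr : q ∈ (LinearMap.charpoly g).roots := by
        rw [mem_roots (LinearMap.charpoly_monic g).ne_zero]
        exact (Module.End.hasEigenvalue_iff_isRoot_charpoly g q).1 hq
      have hq0 : q ≠ 0 := hg q hqr
      set U : Submodule ℂ V := Module.End.eigenspace g q with hUdef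
      have hUg : U ≤ U.comap g := by
        intro x hx
        rw [hUdef, Module.End.mem_eigenspace_iff] at hx
        rw [Submodule.mem_comap, hx]
        apply U.smul_mem
        rw [hUdef, Module.End.mem_eigenspace_iff]
        exact hx
      have hUT : ∀ h, U ≤ U.comap (T h) := by
        intro h x hx
        rw [hUdef, Module.End.mem_eigenspace_iff] at hx
        rw [Submodule.mem_comap, hUdef, Module.End.mem_eigenspace_iff]
        have := congrArg (fun f : End ℂ V => f x) (hc h)
        simp only [Module.End.mul_apply] at this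
        rw [this, hx, map_smul]
      have hUTg : U ≤ U.comap (T w * g) := by
        intro x hx
        exact hUT w (hUg hx)
      have hUb : 0 < finrank ℂ U := by
        rw [Module.finrank_pos_iff]
        rw [Submodule.nontrivial_iff_ne_bot]
        exact hq
      have hdim : finrank ℂ (V ⧸ U) < n := by
        have := Submodule.finrank_quotient_add_finrank U
        omega
      -- the restricted family
      have hR1 : Sta_r (T 1) U (hUT 1) = 1 := by
        ext x
        simp [Sta_r_apply, hT1]
      have hRm : ∀ a b, Sta_r (T (a * b)) U (hUT (a * b))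
          = Sta_r (T a) U (hUT a) * Sta_r (T b) U (hUT b) := by
        intro a b
        ext x
        simp [Sta_r_apply, hTm]
      have hdet : ∀ h, ‖LinearMap.det (Sta_r (T h) U (hUT h))‖ = 1 := by
        have hmul : ∀ a b, LinearMap.det (Sta_r (T (a * b)) U (hUT (a * b)))
            = LinearMap.det (Sta_r (T a) U (hUT a)) * LinearMap.det (Sta_r (T b) U (hUT b)) := by
          intro a b
          rw [hRm, ← LinearMap.det_comp]
          rfl
        have hgen : ∀ i, ‖LinearMap.det (Sta_r (T (FreeGroup.of i)) U (hUT (FreeGroup.of i)))‖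
            = 1 := by
          intro i
          have hall : ∀ z ∈ (LinearMap.charpoly
              (Sta_r (T (FreeGroup.of i)) U (hUT (FreeGroup.of i)))).roots, ‖z‖ = 1 := by
            intro z hz
            apply hTg i z
            rw [Sta_roots _ U (hUT _)]
            exact Multiset.mem_add.2 (Or.inl hz)
          rw [Sta_det]
          generalize (LinearMap.charpoly
              (Sta_r (T (FreeGroup.of i)) U (hUT (FreeGroup.of i)))).roots = m at hall
          induction m using Multiset.induction with
          | empty => simp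
          | cons a s ih2 =>
            rw [Multiset.prod_cons, norm_mul, hall a (Multiset.mem_cons_self a s), one_mul]
            exact ih2 (fun z hz => hall z (Multiset.mem_cons_of_mem hz))
        have h1 : ‖LinearMap.det (Sta_r (T 1) U (hUT 1))‖ = 1 := by
          rw [hR1]
          simp
        intro h
        induction h using FreeGroup.induction_on with
        | C1 => exact h1
        | of i => exact hgen i
        | inv_of i _ =>
          have h2 := hmul (FreeGroup.of i)⁻¹ (FreeGroup.of i)
          have h3 : ‖LinearMap.det (Sta_r (T ((FreeGroup.of i)⁻¹ * FreeGroup.of i)) U (hUT _))‖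
              = 1 := by
            have : ∀ u, u = 1 → ‖LinearMap.det (Sta_r (T u) U (hUT u))‖ = 1 := by
              rintro u rfl
              exact h1
            exact this _ (inv_mul_cancel _)
          rw [h2, norm_mul, hgen i, mul_one] at h3
          exact h3
        | mul x y hx hy => rw [hmul, norm_mul, hx, hy, one_mul]
      -- the quotient
      have hQ := ih (finrank ℂ (V ⧸ U)) hdim (V ⧸ U) rfl
        (fun h => U.mapQ U (T h) (hUT h)) (U.mapQ U g hUg)
        (by
          ext x
          simp [hT1])
        (by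
          intro a b
          ext x
          simp [hTm])
        (by
          intro i z hz
          apply hTg i z
          rw [Sta_roots _ U (hUT _)]
          exact Multiset.mem_add.2 (Or.inr hz))
        (by
          intro z hz
          apply hg z
          rw [Sta_roots _ U hUg]
          exact Multiset.mem_add.2 (Or.inr hz))
        (by
          intro h
          ext x
          have := congrArg (fun f : End ℂ V => f x) (hc h)
          simp only [Module.End.mul_apply] at this
          simp [this])
        w
      have hQ2 : U.mapQ U (T w * g) hUTg = U.mapQ U (T w) (hUT w) * U.mapQ U g hUg := by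
        ext x
        simp
      -- the restriction
      have hR2 : Sta_r (T w * g) U hUTg = q • Sta_r (T w) U (hUT w) := by
        ext x
        have hx : g (x : V) = q • (x : V) := Module.End.mem_eigenspace_iff.1 x.2
        simp only [Sta_r_apply, Module.End.mul_apply, LinearMap.smul_apply,
          Submodule.coe_smul]
        rw [hx, map_smul]
      have hR3 : Sta_r g U hUg = q • (1 : End ℂ U) := by
        ext x
        have hx : g (x : V) = q • (x : V) := Module.End.mem_eigenspace_iff.1 x.2
        simp only [Sta_r_apply, LinearMap.smul_apply,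
          Submodule.coe_smul, Module.End.one_apply]
        exact hx
      have hnz : ∀ z ∈ (LinearMap.charpoly (Sta_r (T w) U (hUT w))).roots, z ≠ 0 := by
        apply Sta_nz (f' := Sta_r (T w⁻¹) U (hUT w⁻¹))
        rw [← hRm]
        have : ∀ u, u = 1 → (Sta_r (T u) U (hUT u)) = 1 := by
          rintro u rfl
          exact hR1
        exact this _ (mul_inv_cancel _)
      rw [Sta_roots (T w * g) U hUTg, Sta_roots g U hUg, Sta_roots (T w) U (hUT w), hQ2, hR2, hR3,
        Sta_smul _ hq0, Sta_smul _ hq0, Sta_one]
      simp only [Multiset.map_add, Multiset.sum_add]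
      rw [hQ, Sta_ms _ hnz q hq0, ← Sta_det, hdet w, Sta_card]
      simp
      ring
    · rw [not_nontrivial_iff_subsingleton] at hV
      have h0 : ∀ f : End ℂ V, (LinearMap.charpoly f).roots = 0 := by
        intro f
        rw [← Multiset.card_eq_zero, Sta_card]
        exact Module.finrank_zero_of_subsingleton
      rw [h0, h0, h0]
      simp

theorem Sta_toLin {m : ℕ} (M : Mt m) : LinearMap.charpoly (Matrix.toLin' M) = M.charpoly := by
  rw [← LinearMap.charpoly_toMatrix (Matrix.toLin' M) (Pi.basisFun ℂ (Fin m))]
  congr 1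
  exact LinearMap.toMatrix'_toLin' M

theorem stepA {k D' : ℕ} (tau : FreeGroup (Fin k) →* (Mt D')ˣ)
    (hgen : ∀ i, Mo ((tau (FreeGroup.of i) : (Mt D')ˣ) : Mt D')) (z g : (Mt D')ˣ)
    (w : FreeGroup (Fin k)) (hc : ∀ h, g * tau h = tau h * g) (hz : z⁻¹ * g * z = tau w * g) :
    Mo ((tau w : (Mt D')ˣ) : Mt D') := by
  have key := Sta_main (k := k) D' (Fin D' → ℂ) (by simp)
    (fun h => Matrix.toLin' ((tau h : (Mt D')ˣ) : Mt D')) (Matrix.toLin' ((g : (Mt D')ˣ) : Mt D'))
    (by
      rw [map_one, Units.val_one, Matrix.toLin'_one]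
      rfl)
    (by
      intro a b
      rw [map_mul, Units.val_mul, Matrix.toLin'_mul]
      rfl)
    (by
      intro i y hy
      rw [Sta_toLin] at hy
      exact hgen i y hy)
    (by
      apply Sta_nz (f' := Matrix.toLin' ((g⁻¹ : (Mt D')ˣ) : Mt D'))
      rw [Module.End.mul_eq_comp, ← Matrix.toLin'_mul, ← Units.val_mul, mul_inv_cancel,
        Units.val_one, Matrix.toLin'_one]
      rfl)
    (by
      intro h
      rw [Module.End.mul_eq_comp, Module.End.mul_eq_comp, ← Matrix.toLin'_mul,
        ← Matrix.toLin'_mul, ← Units.val_mul, ← Units.val_mul, hc])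
    w
  rw [Module.End.mul_eq_comp, ← Matrix.toLin'_mul, Sta_toLin, Sta_toLin, Sta_toLin,
    ← Units.val_mul, ← hz] at key
  have hcp : (((z⁻¹ * g * z : (Mt D')ˣ)) : Mt D').charpoly = ((g : (Mt D')ˣ) : Mt D').charpoly := by
    rw [mul_assoc, Units.val_mul, Matrix.charpoly_mul_comm, ← Units.val_mul, mul_assoc,
      mul_inv_cancel, mul_one]
  rw [hcp] at key
  have hsum : (((tau w : (Mt D')ˣ) : Mt D').charpoly.roots.map Sta_P).sum = 0 := by linarith
  intro y hy
  have hnz : y ≠ 0 := by
    have := Sta_nz (f := Matrix.toLin' ((tau w : (Mt D')ˣ) : Mt D'))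
      (f' := Matrix.toLin' (((tau w)⁻¹ : (Mt D')ˣ) : Mt D')) (by
        rw [Module.End.mul_eq_comp, ← Matrix.toLin'_mul, ← Units.val_mul, mul_inv_cancel,
          Units.val_one, Matrix.toLin'_one]
        rfl)
    rw [Sta_toLin] at this
    exact this y hy
  have h0 : Sta_P y = 0 := by
    have hle : ∀ x ∈ ((tau w : (Mt D')ˣ) : Mt D').charpoly.roots.map Sta_P, 0 ≤ x := by
      intro x hx
      obtain ⟨a, _, rfl⟩ := Multiset.mem_map.1 hx
      exact sq_nonneg _
    have h1 := Multiset.single_le_sum hle (Sta_P y) (Multiset.mem_map_of_mem _ hy)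
    rw [hsum] at h1
    exact le_antisymm h1 (sq_nonneg _)
  have h2 : Real.log ‖y‖ = 0 := pow_eq_zero_iff (two_ne_zero) |>.1 h0
  have hpos : 0 < ‖y‖ := norm_pos_iff.2 hnz
  exact Real.eq_one_of_pos_of_log_eq_zero hpos h2

end H80HM
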