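import Pool.Agent.H80.HM.Defs

set_option autoImplicit false

/-!
# Row Gln: good lines

Fubini: for a.e. u in (0,1) the function v -> F(u,v) is integrable and non-negative a.e. on (0,1/2), phi1(u) := int_0^{1/2} F(u,v) dv is integrable on (0,1) with
integral int_U F <= I; similarly phi2(v) := int_0^1 F(u,v) du on (0,1/2). Chebyshev: the set N1 of u with phi1(u) > K (or exceptional) has measure <= I/K, the
set N2 of v with phi2(v) > K (or exceptional) has measure <= I/K. Let S := {(u,v) in U : u in N1 or 1-u in N1 or v in N2} (N1, N2 enlarged to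
measurable sets of the same measure; toMeasurable). Its measure is at most (1/2)(I/K) + (1/2)(I/K) + 1*(I/K) = 2I/K <= 3I/K.
line_ae: the same Fubini argument for a property that holds a.e. on U: for a.e. (u,v) in U it holds a.e. on the three lines through (u,v), (1-u,v).
-/

namespace H80HM

open Matrix MeasureTheory Set


open scoped ENNReal

/-- reflection preserves the uniform measure -/
theorem Gln_refl : MeasurePreserving (fun u : ℝ => 1 - u)
    (volume.restrict (Ioo (0:ℝ) 1)) (volume.restrict (Ioo (0:ℝ) 1)) := by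
  have h := ((volume : Measure ℝ).measurePreserving_sub_left (1:ℝ)).restrict_preimage
    (s := Ioo (0:ℝ) 1) measurableSet_Ioo
  have e : (fun u : ℝ => 1 - u) ⁻¹' Ioo (0:ℝ) 1 = Ioo (0:ℝ) 1 := by
    ext u
    simp only [mem_preimage, mem_Ioo]
    constructor <;> rintro ⟨h1, h2⟩ <;> constructor <;> linarith
  rwa [e] at h

theorem Gln_U : (volume.restrict U : Measure (ℝ × ℝ)) =
    (volume.restrict (Ioo (0:ℝ) 1)).prod (volume.restrict (Ioo (0:ℝ) (1/2))) := by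
  rw [Measure.prod_restrict]
  rfl

/-- removing lines -/
theorem Gln_core (B1 B2 : Set ℝ) (c : ℝ≥0∞) (h1 : (volume.restrict (Ioo (0:ℝ) 1)) B1 ≤ c)
    (h2 : (volume.restrict (Ioo (0:ℝ) (1/2))) B2 ≤ c) :
    ∃ S : Set (ℝ × ℝ), S ⊆ U ∧ MeasurableSet S ∧ volume S ≤ 3 * c ∧
      ∀ x ∈ U \ S, x.1 ∉ B1 ∧ 1 - x.1 ∉ B1 ∧ x.2 ∉ B2 := by
  set m1 : Measure ℝ := volume.restrict (Ioo (0:ℝ) 1) with hm1
  set m2 : Measure ℝ := volume.restrict (Ioo (0:ℝ) (1/2)) with hm2
  set N1 := toMeasurable m1 B1 with hN1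
  set N2 := toMeasurable m2 B2 with hN2
  have k1 : MeasurableSet N1 := measurableSet_toMeasurable _ _
  have k2 : MeasurableSet N2 := measurableSet_toMeasurable _ _
  have e1 : m1 N1 ≤ c := by rw [hN1, measure_toMeasurable]; exact h1
  have e2 : m2 N2 ≤ c := by rw [hN2, measure_toMeasurable]; exact h2
  have hU : MeasurableSet U := measurableSet_Ioo.prod measurableSet_Ioo
  have t1 : m1 univ = 1 := by
    rw [hm1, Measure.restrict_apply_univ, Real.volume_Ioo]; norm_num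
  have t2 : m2 univ ≤ 1 := by
    rw [hm2, Measure.restrict_apply_univ, Real.volume_Ioo]
    rw [← ENNReal.ofReal_one]
    exact ENNReal.ofReal_le_ofReal (by norm_num)
  let A1 : Set (ℝ × ℝ) := N1 ×ˢ univ
  let A2 : Set (ℝ × ℝ) := ((fun u : ℝ => 1 - u) ⁻¹' N1) ×ˢ univ
  let A3 : Set (ℝ × ℝ) := univ ×ˢ N2
  have kr : MeasurableSet ((fun u : ℝ => 1 - u) ⁻¹' N1) := Gln_refl.measurable k1
  have q1 : MeasurableSet A1 := k1.prod MeasurableSet.univ
  have q2 : MeasurableSet A2 := kr.prod MeasurableSet.univ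
  have q3 : MeasurableSet A3 := MeasurableSet.univ.prod k2
  refine ⟨(A1 ∪ A2 ∪ A3) ∩ U, inter_subset_right, ((q1.union q2).union q3).inter hU, ?_, ?_⟩
  · rw [← Measure.restrict_apply ((q1.union q2).union q3), Gln_U]
    refine (measure_union_le _ _).trans ?_
    have s1 : (m1.prod m2) A1 ≤ c := by
      rw [Measure.prod_prod]
      calc m1 N1 * m2 univ ≤ c * 1 := mul_le_mul' e1 t2
        _ = c := mul_one c
    have s2 : (m1.prod m2) A2 ≤ c := by
      rw [Measure.prod_prod, Gln_refl.measure_preimage k1.nullMeasurableSet]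
      calc m1 N1 * m2 univ ≤ c * 1 := mul_le_mul' e1 t2
        _ = c := mul_one c
    have s3 : (m1.prod m2) A3 ≤ c := by
      rw [Measure.prod_prod, t1, one_mul]
      exact e2
    calc (m1.prod m2) (A1 ∪ A2) + (m1.prod m2) A3
        ≤ ((m1.prod m2) A1 + (m1.prod m2) A2) + (m1.prod m2) A3 :=
          add_le_add (measure_union_le _ _) le_rfl
      _ ≤ (c + c) + c := add_le_add (add_le_add s1 s2) s3
      _ = 3 * c := by ring
  · rintro x ⟨hxU, hxS⟩
    refine ⟨fun h => hxS ⟨Or.inl (Or.inl ⟨subset_toMeasurable _ _ h, mem_univ _⟩), hxU⟩,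
      fun h => hxS ⟨Or.inl (Or.inr ⟨subset_toMeasurable m1 B1 h, mem_univ _⟩), hxU⟩,
      fun h => hxS ⟨Or.inr ⟨mem_univ _, subset_toMeasurable _ _ h⟩, hxU⟩⟩

/-- Chebyshev on one factor -/
theorem Gln_cheb {m : Measure ℝ} {F : ℝ → ℝ} {b : ℝ → Prop} (hF : Integrable F m)
    (h0 : ∀ᵐ u ∂m, 0 ≤ F u) {I K : ℝ} (hI : ∫ u, F u ∂m ≤ I) (hK : 0 < K)
    (hb : ∀ᵐ u ∂m, F u < K → b u) [IsFiniteMeasure m] :
    m {u | ¬ b u} ≤ ENNReal.ofReal (I / K) := by
  have h1 := mul_meas_ge_le_integral_of_nonneg h0 hF K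
  have h2 : m {u | ¬ b u} ≤ m {u | K ≤ F u} := by
    apply measure_mono_ae
    filter_upwards [hb] with u hu hnb
    by_contra hc
    exact hnb (hu (not_le.mp hc))
  refine h2.trans ?_
  rw [ENNReal.le_ofReal_iff_toReal_le (measure_ne_top _ _) ?_]
  · rw [le_div_iff₀ hK, mul_comm]
    exact h1.trans hI
  · apply div_nonneg _ hK.le
    exact (integral_nonneg_of_ae h0).trans hI

theorem good_lines {F : ℝ × ℝ → ℝ} (hF : IntegrableOn F U)
    (hn : ∀ᵐ x ∂(volume.restrict U), 0 ≤ F x) {I K : ℝ} (hI : ∫ x in U, F x ≤ I)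
    (hK : 0 < K) : ∃ S : Set (ℝ × ℝ), S ⊆ U ∧ MeasurableSet S ∧
      volume S ≤ ENNReal.ofReal (3 * I / K) ∧ ∀ x ∈ U \ S,
        (IntervalIntegrable (fun v => F (x.1, v)) volume 0 (1/2) ∧
          ∫ v in (0:ℝ)..(1/2), F (x.1, v) ≤ K) ∧
        (IntervalIntegrable (fun v => F (1 - x.1, v)) volume 0 (1/2) ∧
          ∫ v in (0:ℝ)..(1/2), F (1 - x.1, v) ≤ K) ∧
        (IntervalIntegrable (fun u => F (u, x.2)) volume 0 1 ∧
          ∫ u in (0:ℝ)..1, F (u, x.2) ≤ K) := by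
  set m1 : Measure ℝ := volume.restrict (Ioo (0:ℝ) 1) with hm1
  set m2 : Measure ℝ := volume.restrict (Ioo (0:ℝ) (1/2)) with hm2
  have hU : (volume.restrict U : Measure (ℝ × ℝ)) = m1.prod m2 := Gln_U
  have hF' : Integrable F (m1.prod m2) := by rw [← hU]; exact hF
  rw [hU] at hn hI
  have hsw : Integrable (fun z : ℝ × ℝ => F z.swap) (m2.prod m1) := hF'.swap
  have hnsw : ∀ᵐ z ∂(m2.prod m1), 0 ≤ F z.swap :=
    Measure.measurePreserving_swap.quasiMeasurePreserving.ae hn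
  have i1 : ∀ (a : ℝ) (ha : 0 ≤ a) (G : ℝ → ℝ), Integrable G (volume.restrict (Ioo 0 a)) →
      IntervalIntegrable G volume 0 a ∧
        ∫ v in (0:ℝ)..a, G v = ∫ v, G v ∂(volume.restrict (Ioo 0 a)) := by
    intro a ha G hG
    have hG' : IntegrableOn G (Ioo 0 a) := hG
    refine ⟨?_, ?_⟩
    · rw [intervalIntegrable_iff, uIoc_of_le ha]
      exact hG'.congr_set_ae Ioo_ae_eq_Ioc.symm
    · rw [intervalIntegral.integral_of_le ha]
      exact integral_Ioc_eq_integral_Ioo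
  have hI0 : 0 ≤ I := (integral_nonneg_of_ae hn).trans hI
  -- vertical lines
  have B1 : m1 {u | ¬ (IntervalIntegrable (fun v => F (u, v)) volume 0 (1/2) ∧
      ∫ v in (0:ℝ)..(1/2), F (u, v) ≤ K)} ≤ ENNReal.ofReal (I / K) := by
    refine Gln_cheb (F := fun u => ∫ v, F (u, v) ∂m2) hF'.integral_prod_left ?_ ?_ hK ?_
    · filter_upwards [Measure.ae_ae_of_ae_prod hn] with u hu
      exact integral_nonneg_of_ae hu
    · rw [← integral_prod _ hF']
      exact hI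
    · filter_upwards [hF'.prod_right_ae] with u hu hlt
      obtain ⟨j1, j2⟩ := i1 (1/2) (by norm_num) (fun v => F (u, v)) hu
      exact ⟨j1, by rw [j2]; exact hlt.le⟩
  have B2 : m2 {v | ¬ (IntervalIntegrable (fun u => F (u, v)) volume 0 1 ∧
      ∫ u in (0:ℝ)..1, F (u, v) ≤ K)} ≤ ENNReal.ofReal (I / K) := by
    refine Gln_cheb (F := fun v => ∫ u, F (u, v) ∂m1) hsw.integral_prod_left ?_ ?_ hK ?_
    · filter_upwards [Measure.ae_ae_of_ae_prod hnsw] with v hv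
      exact integral_nonneg_of_ae hv
    · have e : ∫ v, ∫ u, F (u, v) ∂m1 ∂m2 = ∫ z, F z ∂(m1.prod m2) := by
        rw [integral_prod_symm _ hF']
      rw [e]
      exact hI
    · filter_upwards [hsw.prod_right_ae] with v hv hlt
      obtain ⟨j1, j2⟩ := i1 1 (by norm_num) (fun u => F (u, v)) hv
      exact ⟨j1, by rw [j2]; exact hlt.le⟩
  obtain ⟨S, hS1, hS2, hS3, hS4⟩ := Gln_core _ _ _ B1 B2
  refine ⟨S, hS1, hS2, hS3.trans (le_of_eq ?_), ?_⟩
  · have : (3 : ℝ≥0∞) = ENNReal.ofReal 3 := by norm_num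
    rw [this, ← ENNReal.ofReal_mul (by norm_num)]
    congr 1
    ring
  · intro x hx
    obtain ⟨a1, a2, a3⟩ := hS4 x hx
    simp only [mem_ofPred_eq, not_not] at a1 a2 a3
    exact ⟨a1, a2, a3⟩

theorem line_ae {p : ℝ × ℝ → Prop} (h : ∀ᵐ x ∂(volume.restrict U), p x) :
    ∃ S : Set (ℝ × ℝ), S ⊆ U ∧ MeasurableSet S ∧ volume S = 0 ∧ ∀ x ∈ U \ S,
      (∀ᵐ v ∂(volume.restrict (Ioo (0:ℝ) (1/2))), p (x.1, v)) ∧
      (∀ᵐ v ∂(volume.restrict (Ioo (0:ℝ) (1/2))), p (1 - x.1, v)) ∧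
      (∀ᵐ u ∂(volume.restrict (Ioo (0:ℝ) 1)), p (u, x.2)) := by
  rw [Gln_U] at h
  have h' : ∀ᵐ z ∂((volume.restrict (Ioo (0:ℝ) (1/2))).prod (volume.restrict (Ioo (0:ℝ) 1))),
      p z.swap := Measure.measurePreserving_swap.quasiMeasurePreserving.ae h
  have B1 : (volume.restrict (Ioo (0:ℝ) 1))
      {u | ¬ ∀ᵐ v ∂(volume.restrict (Ioo (0:ℝ) (1/2))), p (u, v)} ≤ 0 :=
    le_of_eq (Measure.ae_ae_of_ae_prod h)
  have B2 : (volume.restrict (Ioo (0:ℝ) (1/2)))
      {v | ¬ ∀ᵐ u ∂(volume.restrict (Ioo (0:ℝ) 1)), p (u, v)} ≤ 0 :=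
    le_of_eq (Measure.ae_ae_of_ae_prod h')
  obtain ⟨S, hS1, hS2, hS3, hS4⟩ := Gln_core _ _ _ B1 B2
  refine ⟨S, hS1, hS2, le_antisymm (by simpa using hS3) bot_le, ?_⟩
  intro x hx
  obtain ⟨a1, a2, a3⟩ := hS4 x hx
  simp only [mem_ofPred_eq, not_not] at a1 a2 a3
  exact ⟨a1, a2, a3⟩

end H80HM
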