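import Pool.Agent.H80.HM.Mea

set_option autoImplicit false

/-!
# Row Mvt: the move T

G(u,v) := H(u+v, v) if u+v <= 1, C H(u+v-1, v) C* if u+v > 1.
Class of (A, C B^{-1}, C):
* side: G(1,v) = C H(v,v) C* = C G(0,v) C* (0<v<1/2).
* bottom: G(u,0) = H(u,0) for u <= 1: G(1-u,0) = A G(u,0) A*.
* top, 0<u<1/2: G(u,1/2) = H(u+1/2, 1/2); G(1-u,1/2) = C H(1/2-u,1/2) C*; H(1/2+u,1/2) = B H(1/2-u,1/2) B*, so
  G(1-u,1/2) = C B^{-1} G(u,1/2) B^{-*} C*.
* positivity: (u,v) in D minus P; then (u+v,v) (or (u+v-1,v)) is in D minus P: v=0 gives the same point; v=1/2: u+1/2 or u-1/2, not a puncture; 0<v<1/2 never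
  a puncture.
* Lipschitz on Dd d: the map (u,v) -> (u+v,v) is 2-Lipschitz; the images of Dd d lie in Dd d' for some d' > 0 (compactness: Dd d is compact and misses the
  preimages of the punctures; note that (1,v) and (0,v) are both limits at u+v=1 and H(1,v) = C H(0,v) C* for 0<v<1/2 glues the two pieces, at v=0 resp.
  v=1/2 the seam point is (1,0) resp. (1/2,1/2), punctures). For two points x, y of Dd d in different pieces, the segment between them may leave Dd d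
  near a puncture; use: (a) if dist x y >= d/4: entries are bounded on Dd d, so |G x - G y| <= 2R <= (8R/d) dist x y; (b) if dist x y < d/4: the segment
  stays in Dd (d/2), it crosses the seam at a point z, |G x - G y| <= |G x - G z| + |G z - G y| with both values of G at z equal.
* energy: for a.e. (u,v) with u+v<1: pd (1,0) G = pd (1,0) H at (u+v,v), pd (0,1) G = pd (1,0) H + pd (0,1) H at (u+v,v) (chain rule at points where H is Frechet
  differentiable; a.e. by lz_ae, the map is measure preserving); for u+v>1 the same with C . C*, which does not change q: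
  aa t (C H C*) = C aa t H C^{-1}. So q11 G = q11 H, q12 G = q11 H + q12 H, q22 G = q11+2q12+q22 (at the shifted point), and
  (x^2+y^2) q11 G - 2x q12 G + q22 G = ((x-1)^2+y^2) q11 H - 2(x-1) q12 H + q22 H. Integrate: U is, up to null sets, the union of {u+v<1} and {u+v>1}; the
  map (u,v) -> (u+v,v) resp. (u+v-1,v) maps them onto {u > v} resp. {u < v} inside U, measure preserving. fin: the same computation.
-/

namespace H80HM

open Matrix MeasureTheory Set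
open scoped ComplexOrder

/-- the shear -/
def Mvt_S (z : ℝ × ℝ) : ℝ × ℝ := (z.1 + z.2, z.2)

/-- the shear followed by a translation -/
def Mvt_T (z : ℝ × ℝ) : ℝ × ℝ := (z.1 + z.2 - 1, z.2)

theorem Mvt_dist {x p : ℝ × ℝ} {e : ℝ} :
    dist x p < e ↔ |x.1 - p.1| < e ∧ |x.2 - p.2| < e := by
  rw [Prod.dist_eq, max_lt_iff, Real.dist_eq, Real.dist_eq]

theorem Mvt_dist_le {x p : ℝ × ℝ} {e : ℝ} :
    dist x p ≤ e ↔ |x.1 - p.1| ≤ e ∧ |x.2 - p.2| ≤ e := by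
  rw [Prod.dist_eq, max_le_iff, Real.dist_eq, Real.dist_eq]

theorem Mvt_P {a b : ℝ} (ha : a = 0 ∨ a = 1 / 2 ∨ a = 1) (hb : b = 0 ∨ b = 1 / 2) :
    ((a, b) : ℝ × ℝ) ∈ P := ⟨ha, hb⟩

theorem Mvt_Smem {d : ℝ} {x : ℝ × ℝ} (hx : x ∈ Dd d) (h1 : x.1 + x.2 ≤ 1) :
    Mvt_S x ∈ Dd (min (d / 2) (1 / 4)) := by
  obtain ⟨hD, hP⟩ := hx
  simp only [D, mem_prod, mem_Icc] at hD
  obtain ⟨⟨a1, a2⟩, a3, a4⟩ := hD
  refine ⟨?_, ?_⟩
  · simp only [D, Mvt_S, mem_prod, mem_Icc]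
    refine ⟨⟨by linarith, by linarith⟩, a3, a4⟩
  · intro p hp
    by_contra hcon
    rw [not_le, Mvt_dist] at hcon
    obtain ⟨b1, b2⟩ := hcon
    have c1 := b1.trans_le (min_le_left _ _)
    have c2 := b1.trans_le (min_le_right _ _)
    have c3 := b2.trans_le (min_le_left _ _)
    have c4 := b2.trans_le (min_le_right _ _)
    simp only [Mvt_S, abs_lt] at c1 c2 c3 c4
    have hp' := hp
    simp only [P, mem_prod, mem_insert_iff, mem_singleton_iff] at hp'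
    obtain ⟨hp1, hp2⟩ := hp'
    rcases hp2 with hp2 | hp2
    · have h5 := hP (p.1, 0) (Mvt_P (hp1) (Or.inl rfl))
      have h6 : dist x (p.1, 0) < d := by
        rw [Mvt_dist]
        simp only [abs_lt]
        refine ⟨⟨by linarith, by linarith⟩, by linarith, by linarith⟩
      linarith
    · rcases hp1 with hp1 | hp1 | hp1
      · linarith
      · have h5 := hP (0, 1/2) (Mvt_P (Or.inl rfl) (Or.inr rfl))
        have h6 : dist x (0, 1/2) < d := by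
          rw [Mvt_dist]
          simp only [abs_lt]
          refine ⟨⟨by linarith, by linarith⟩, by linarith, by linarith⟩
        linarith
      · have h5 := hP (1/2, 1/2) (Mvt_P (Or.inr (Or.inl rfl)) (Or.inr rfl))
        have h6 : dist x (1/2, 1/2) < d := by
          rw [Mvt_dist]
          simp only [abs_lt]
          refine ⟨⟨by linarith, by linarith⟩, by linarith, by linarith⟩
        linarith

theorem Mvt_Tmem {d : ℝ} {x : ℝ × ℝ} (hx : x ∈ Dd d) (h1 : 1 ≤ x.1 + x.2) :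
    Mvt_T x ∈ Dd (min (d / 2) (1 / 4)) := by
  obtain ⟨hD, hP⟩ := hx
  simp only [D, mem_prod, mem_Icc] at hD
  obtain ⟨⟨a1, a2⟩, a3, a4⟩ := hD
  refine ⟨?_, ?_⟩
  · simp only [D, Mvt_T, mem_prod, mem_Icc]
    refine ⟨⟨by linarith, by linarith⟩, a3, a4⟩
  · intro p hp
    by_contra hcon
    rw [not_le, Mvt_dist] at hcon
    obtain ⟨b1, b2⟩ := hcon
    have c1 := b1.trans_le (min_le_left _ _)
    have c2 := b1.trans_le (min_le_right _ _)
    have c3 := b2.trans_le (min_le_left _ _)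
    have c4 := b2.trans_le (min_le_right _ _)
    simp only [Mvt_T, abs_lt] at c1 c2 c3 c4
    have hp' := hp
    simp only [P, mem_prod, mem_insert_iff, mem_singleton_iff] at hp'
    obtain ⟨hp1, hp2⟩ := hp'
    rcases hp2 with hp2 | hp2
    · rcases hp1 with hp1 | hp1 | hp1
      · have h5 := hP (1, 0) (Mvt_P (Or.inr (Or.inr rfl)) (Or.inl rfl))
        have h6 : dist x (1, 0) < d := by
          rw [Mvt_dist]
          simp only [abs_lt]
          refine ⟨⟨by linarith, by linarith⟩, by linarith, by linarith⟩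
        linarith
      · linarith
      · linarith
    · rcases hp1 with hp1 | hp1 | hp1
      · have h5 := hP (1/2, 1/2) (Mvt_P (Or.inr (Or.inl rfl)) (Or.inr rfl))
        have h6 : dist x (1/2, 1/2) < d := by
          rw [Mvt_dist]
          simp only [abs_lt]
          refine ⟨⟨by linarith, by linarith⟩, by linarith, by linarith⟩
        linarith
      · have h5 := hP (1, 1/2) (Mvt_P (Or.inr (Or.inr rfl)) (Or.inr rfl))
        have h6 : dist x (1, 1/2) < d := by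
          rw [Mvt_dist]
          simp only [abs_lt]
          refine ⟨⟨by linarith, by linarith⟩, by linarith, by linarith⟩
        linarith
      · linarith

theorem Mvt_Sd (x y : ℝ × ℝ) : dist (Mvt_S x) (Mvt_S y) ≤ 2 * dist x y := by
  have h := (Mvt_dist_le (x := x) (p := y)).1 le_rfl
  rw [Mvt_dist_le]
  simp only [Mvt_S, abs_le] at h ⊢
  obtain ⟨⟨h1, h2⟩, h3, h4⟩ := h
  have h5 := dist_nonneg (x := x) (y := y)
  refine ⟨⟨by linarith, by linarith⟩, by linarith, by linarith⟩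

theorem Mvt_Td (x y : ℝ × ℝ) : dist (Mvt_T x) (Mvt_T y) ≤ 2 * dist x y := by
  have h := (Mvt_dist_le (x := x) (p := y)).1 le_rfl
  rw [Mvt_dist_le]
  simp only [Mvt_T, abs_le] at h ⊢
  obtain ⟨⟨h1, h2⟩, h3, h4⟩ := h
  have h5 := dist_nonneg (x := x) (y := y)
  refine ⟨⟨by linarith, by linarith⟩, by linarith, by linarith⟩

/-- the seam point -/
theorem Mvt_seam {d : ℝ} (hd : 0 < d) {x y : ℝ × ℝ} (hx : x ∈ Dd d) (hy : y ∈ Dd d)
    (h1 : x.1 + x.2 ≤ 1) (h2 : 1 < y.1 + y.2) (h3 : dist x y < d / 4) :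
    ∃ v : ℝ, v ∈ Ioo (0:ℝ) (1/2) ∧ (1 - v, v) ∈ Dd (d / 2) ∧ dist x (1 - v, v) ≤ dist x y ∧
      dist (1 - v, v) y ≤ dist x y := by
  obtain ⟨hxD, hxP⟩ := hx
  obtain ⟨hyD, hyP⟩ := hy
  simp only [D, mem_prod, mem_Icc] at hxD hyD
  obtain ⟨⟨a1, a2⟩, a3, a4⟩ := hxD
  obtain ⟨⟨b1, b2⟩, b3, b4⟩ := hyD
  have hs : 0 < (y.1 + y.2) - (x.1 + x.2) := by linarith
  obtain ⟨t, ht⟩ : ∃ t, t = (1 - (x.1 + x.2)) / ((y.1 + y.2) - (x.1 + x.2)) := ⟨_, rfl⟩
  have ht0 : 0 ≤ t := by rw [ht]; exact div_nonneg (by linarith) hs.le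
  have ht1 : t ≤ 1 := by rw [ht, div_le_one hs]; linarith
  have hts : t * ((y.1 + y.2) - (x.1 + x.2)) = 1 - (x.1 + x.2) := by
    rw [ht]; exact div_mul_cancel₀ _ hs.ne'
  obtain ⟨v, hv⟩ : ∃ v, v = x.2 + t * (y.2 - x.2) := ⟨_, rfl⟩
  have hv1 : 1 - v = x.1 + t * (y.1 - x.1) := by rw [hv]; linarith
  have hxy := (Mvt_dist_le (x := x) (p := y)).1 le_rfl
  have hz1 : dist x (1 - v, v) ≤ dist x y := by
    rw [Mvt_dist_le]
    simp only
    refine ⟨?_, ?_⟩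
    · have e : x.1 - (1 - v) = t * (x.1 - y.1) := by rw [hv1]; ring
      rw [e, abs_mul, abs_of_nonneg ht0]
      calc t * |x.1 - y.1| ≤ 1 * |x.1 - y.1| := mul_le_mul_of_nonneg_right ht1 (abs_nonneg _)
        _ ≤ _ := by rw [one_mul]; exact hxy.1
    · have e : x.2 - v = t * (x.2 - y.2) := by rw [hv]; ring
      rw [e, abs_mul, abs_of_nonneg ht0]
      calc t * |x.2 - y.2| ≤ 1 * |x.2 - y.2| := mul_le_mul_of_nonneg_right ht1 (abs_nonneg _)
        _ ≤ _ := by rw [one_mul]; exact hxy.2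
  have hz2 : dist (1 - v, v) y ≤ dist x y := by
    rw [Mvt_dist_le]
    simp only
    have ht2 : 0 ≤ 1 - t := by linarith
    refine ⟨?_, ?_⟩
    · have e : (1 - v) - y.1 = (1 - t) * (x.1 - y.1) := by rw [hv1]; ring
      rw [e, abs_mul, abs_of_nonneg ht2]
      calc (1 - t) * |x.1 - y.1| ≤ 1 * |x.1 - y.1| :=
            mul_le_mul_of_nonneg_right (by linarith) (abs_nonneg _)
        _ ≤ _ := by rw [one_mul]; exact hxy.1
    · have e : v - y.2 = (1 - t) * (x.2 - y.2) := by rw [hv]; ring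
      rw [e, abs_mul, abs_of_nonneg ht2]
      calc (1 - t) * |x.2 - y.2| ≤ 1 * |x.2 - y.2| :=
            mul_le_mul_of_nonneg_right (by linarith) (abs_nonneg _)
        _ ≤ _ := by rw [one_mul]; exact hxy.2
  have hzP : ∀ p ∈ P, d / 2 ≤ dist ((1 - v, v) : ℝ × ℝ) p := by
    intro p hp
    have h4 := hxP p hp
    have h5 := dist_triangle x (1 - v, v) p
    linarith
  have hv0 : 0 ≤ v := by
    rw [hv]
    have : v = (1 - t) * x.2 + t * y.2 := by rw [hv]; ring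
    rw [← hv, this]
    have ht2 : 0 ≤ 1 - t := by linarith
    positivity
  have hvh : v ≤ 1 / 2 := by
    have : v = (1 - t) * x.2 + t * y.2 := by rw [hv]; ring
    rw [this]
    have ht2 : 0 ≤ 1 - t := by linarith
    nlinarith
  refine ⟨v, ⟨?_, ?_⟩, ⟨?_, hzP⟩, hz1, hz2⟩
  · rcases hv0.lt_or_eq with h | h
    · exact h
    · exfalso
      have h6 := hzP (1, 0) (Mvt_P (Or.inr (Or.inr rfl)) (Or.inl rfl))
      rw [← h] at h6
      simp at h6
      linarith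
  · rcases hvh.lt_or_eq with h | h
    · exact h
    · exfalso
      have h6 := hzP (1/2, 1/2) (Mvt_P (Or.inr (Or.inl rfl)) (Or.inr rfl))
      rw [h] at h6
      have h7 : ((1 - 1/2, 1/2) : ℝ × ℝ) = (1/2, 1/2) := by norm_num
      rw [h7, dist_self] at h6
      linarith
  · simp only [D, mem_prod, mem_Icc]
    refine ⟨⟨by linarith, by linarith⟩, hv0, hvh⟩

open Classical in
/-- the new metric -/
noncomputable def Mvt_G {m : ℕ} (C : Mt m) (H : ℝ × ℝ → Mt m) (z : ℝ × ℝ) : Mt m :=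
  if z.1 + z.2 ≤ 1 then H (Mvt_S z) else C * H (Mvt_T z) * Cᴴ

theorem Mvt_dd_mono {d d' : ℝ} (h : d ≤ d') {x : ℝ × ℝ} (hx : x ∈ Dd d') : x ∈ Dd d :=
  ⟨hx.1, fun p hp => h.trans (hx.2 p hp)⟩

theorem Mvt_lz {m : ℕ} {C : Mt m} {H : ℝ × ℝ → Mt m} (hH : Lz H)
    (glC : ∀ v ∈ Ioo (0:ℝ) (1/2), H (1, v) = C * H (0, v) * Cᴴ) : Lz (Mvt_G C H) := by
  have hF : Lz (fun x => C * H x * Cᴴ) := lz_mul (lz_mul (lz_const C) hH) (lz_const Cᴴ)
  intro d hd
  obtain ⟨δ, hδ⟩ : ∃ δ, δ = min (d / 2 / 2) (1 / 4) := ⟨_, rfl⟩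
  have hδ0 : 0 < δ := by rw [hδ]; exact lt_min (by linarith) (by norm_num)
  obtain ⟨K1, hK1⟩ := hH δ hδ0
  obtain ⟨K2, hK2⟩ := hF δ hδ0
  obtain ⟨R1, hR10, hR1⟩ := lz_bd hH hδ0
  obtain ⟨R2, hR20, hR2⟩ := lz_bd hF hδ0
  have mS : ∀ x ∈ Dd (d / 2), x.1 + x.2 ≤ 1 → Mvt_S x ∈ Dd δ := fun x hx h => by
    rw [hδ]; exact Mvt_Smem hx h
  have mT : ∀ x ∈ Dd (d / 2), 1 ≤ x.1 + x.2 → Mvt_T x ∈ Dd δ := fun x hx h => by
    rw [hδ]; exact Mvt_Tmem hx h
  have mono : ∀ x ∈ Dd d, x ∈ Dd (d / 2) := fun x hx => Mvt_dd_mono (by linarith) hx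
  have lS : ∀ x ∈ Dd (d / 2), ∀ y ∈ Dd (d / 2), x.1 + x.2 ≤ 1 → y.1 + y.2 ≤ 1 → ∀ i j,
      ‖H (Mvt_S x) i j - H (Mvt_S y) i j‖ ≤ 2 * |K1| * dist x y := by
    intro x hx y hy h1 h2 i j
    refine (hK1 _ (mS x hx h1) _ (mS y hy h2) i j).trans ?_
    calc K1 * dist (Mvt_S x) (Mvt_S y) ≤ |K1| * dist (Mvt_S x) (Mvt_S y) :=
          mul_le_mul_of_nonneg_right (le_abs_self _) dist_nonneg
      _ ≤ |K1| * (2 * dist x y) := mul_le_mul_of_nonneg_left (Mvt_Sd x y) (abs_nonneg _)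
      _ = _ := by ring
  have lT : ∀ x ∈ Dd (d / 2), ∀ y ∈ Dd (d / 2), 1 ≤ x.1 + x.2 → 1 ≤ y.1 + y.2 → ∀ i j,
      ‖(C * H (Mvt_T x) * Cᴴ) i j - (C * H (Mvt_T y) * Cᴴ) i j‖ ≤ 2 * |K2| * dist x y := by
    intro x hx y hy h1 h2 i j
    refine (hK2 _ (mT x hx h1) _ (mT y hy h2) i j).trans ?_
    calc K2 * dist (Mvt_T x) (Mvt_T y) ≤ |K2| * dist (Mvt_T x) (Mvt_T y) :=
          mul_le_mul_of_nonneg_right (le_abs_self _) dist_nonneg
      _ ≤ |K2| * (2 * dist x y) := mul_le_mul_of_nonneg_left (Mvt_Td x y) (abs_nonneg _)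
      _ = _ := by ring
  obtain ⟨K, hK⟩ : ∃ K, K = 2 * |K1| + 2 * |K2| + 4 / d * (R1 + R2) := ⟨_, rfl⟩
  have hq : 0 ≤ 4 / d * (R1 + R2) := by positivity
  have hK0 : 0 ≤ K := by rw [hK]; positivity
  have hK1' : 2 * |K1| ≤ K := by rw [hK]; linarith [abs_nonneg K2]
  have hK2' : 2 * |K2| ≤ K := by rw [hK]; linarith [abs_nonneg K1]
  have hK3' : 2 * |K1| + 2 * |K2| ≤ K := by rw [hK]; linarith
  have hK4' : 4 / d * (R1 + R2) ≤ K := by rw [hK]; linarith [abs_nonneg K1, abs_nonneg K2]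
  have key : ∀ x ∈ Dd d, ∀ y ∈ Dd d, x.1 + x.2 ≤ 1 → 1 < y.1 + y.2 → ∀ i j,
      ‖H (Mvt_S x) i j - (C * H (Mvt_T y) * Cᴴ) i j‖ ≤ K * dist x y := by
    intro x hx y hy h1 h2 i j
    rcases lt_or_ge (dist x y) (d / 4) with h3 | h3
    · obtain ⟨v, hv, hz, e1, e2⟩ := Mvt_seam hd hx hy h1 h2 h3
      have g : H (Mvt_S (1 - v, v)) = C * H (Mvt_T (1 - v, v)) * Cᴴ := by
        have g1 : Mvt_S (1 - v, v) = (1, v) := by simp [Mvt_S]
        have g2 : Mvt_T (1 - v, v) = (0, v) := by simp [Mvt_T]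
        rw [g1, g2]
        exact glC v hv
      have f1 := lS x (mono x hx) (1 - v, v) hz h1 (by simp) i j
      have f2 := lT (1 - v, v) hz y (mono y hy) (by simp) h2.le i j
      rw [← g] at f2
      have f3 : H (Mvt_S x) i j - (C * H (Mvt_T y) * Cᴴ) i j =
          (H (Mvt_S x) i j - H (Mvt_S (1 - v, v)) i j) +
          (H (Mvt_S (1 - v, v)) i j - (C * H (Mvt_T y) * Cᴴ) i j) := by ring
      rw [f3]
      refine (norm_add_le _ _).trans ?_
      have f4 : 2 * |K1| * dist x (1 - v, v) ≤ 2 * |K1| * dist x y :=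
        mul_le_mul_of_nonneg_left e1 (by positivity)
      have f5 : 2 * |K2| * dist (1 - v, v) y ≤ 2 * |K2| * dist x y :=
        mul_le_mul_of_nonneg_left e2 (by positivity)
      have f6 : (2 * |K1| + 2 * |K2|) * dist x y ≤ K * dist x y :=
        mul_le_mul_of_nonneg_right hK3' dist_nonneg
      linarith
    · have f1 := hR1 _ (mS x (mono x hx) h1) i j
      have f2 := hR2 _ (mT y (mono y hy) h2.le) i j
      refine (norm_sub_le _ _).trans ((add_le_add f1 f2).trans ?_)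
      calc R1 + R2 = 4 / d * (R1 + R2) * (d / 4) := by field_simp
        _ ≤ 4 / d * (R1 + R2) * dist x y := mul_le_mul_of_nonneg_left h3 hq
        _ ≤ _ := mul_le_mul_of_nonneg_right hK4' dist_nonneg
  refine ⟨K, fun x hx y hy i j => ?_⟩
  unfold Mvt_G
  rcases le_or_gt (x.1 + x.2) 1 with h1 | h1 <;> rcases le_or_gt (y.1 + y.2) 1 with h2 | h2
  · rw [if_pos h1, if_pos h2]
    exact (lS x (mono x hx) y (mono y hy) h1 h2 i j).trans
      (mul_le_mul_of_nonneg_right hK1' dist_nonneg)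
  · rw [if_pos h1, if_neg (not_le.2 h2)]
    exact key x hx y hy h1 h2 i j
  · rw [if_neg (not_le.2 h1), if_pos h2, norm_sub_rev, dist_comm]
    exact key y hy x hx h2 h1 i j
  · rw [if_neg (not_le.2 h1), if_neg (not_le.2 h2)]
    exact (lT x (mono x hx) y (mono y hy) h1.le h2.le i j).trans
      (mul_le_mul_of_nonneg_right hK2' dist_nonneg)

/-- the shear as a continuous linear equivalence -/
noncomputable def Mvt_E : (ℝ × ℝ) ≃L[ℝ] (ℝ × ℝ) :=
  ContinuousLinearEquiv.equivOfInverse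
    ((ContinuousLinearMap.fst ℝ ℝ ℝ + ContinuousLinearMap.snd ℝ ℝ ℝ).prod
      (ContinuousLinearMap.snd ℝ ℝ ℝ))
    ((ContinuousLinearMap.fst ℝ ℝ ℝ - ContinuousLinearMap.snd ℝ ℝ ℝ).prod
      (ContinuousLinearMap.snd ℝ ℝ ℝ))
    (fun z => by ext <;> simp) (fun z => by ext <;> simp)

theorem Mvt_E_apply (z : ℝ × ℝ) : Mvt_E z = Mvt_S z := rfl

theorem Mvt_pdS {m : ℕ} (F : ℝ × ℝ → Mt m) (z t : ℝ × ℝ) :
    pd t (fun y => F (Mvt_S y)) z = pd (Mvt_S t) F (Mvt_S z) := by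
  ext i j
  simp only [pd, Matrix.of_apply]
  have h1 := Mvt_E.comp_right_fderiv (f := fun y => F y i j) (x := z)
  have h2 : (fun y => F (Mvt_S y) i j) = (fun y => F y i j) ∘ Mvt_E := rfl
  rw [h2, h1]
  rfl

theorem Mvt_T_eq (z : ℝ × ℝ) : Mvt_T z = Mvt_S z - (1, 0) := by
  ext <;> simp [Mvt_T, Mvt_S]

theorem Mvt_pdT {m : ℕ} (F : ℝ × ℝ → Mt m) (z t : ℝ × ℝ) :
    pd t (fun y => F (Mvt_T y)) z = pd (Mvt_S t) F (Mvt_T z) := by
  have h0 : (fun y => F (Mvt_T y)) = fun y => (fun w => F (w - (1, 0))) (Mvt_S y) := by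
    funext y
    simp only [Mvt_T_eq]
  rw [h0, Mvt_pdS (fun w => F (w - (1, 0))) z t]
  ext i j
  simp only [pd, Matrix.of_apply]
  rw [fderiv_comp_sub (f := fun w => F w i j), Mvt_T_eq]

theorem Mvt_pd_congr {m : ℕ} {F G : ℝ × ℝ → Mt m} {z : ℝ × ℝ} {V : Set (ℝ × ℝ)}
    (hV : IsOpen V) (hz : z ∈ V) (h : ∀ y ∈ V, F y = G y) (t : ℝ × ℝ) :
    pd t F z = pd t G z := by
  ext i j
  simp only [pd, Matrix.of_apply]
  have h1 : (fun y => F y i j) =ᶠ[nhds z] (fun y => G y i j) := by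
    filter_upwards [hV.mem_nhds hz] with y hy
    rw [h y hy]
  rw [h1.fderiv_eq]

theorem Mvt_pd_conj {m : ℕ} (A B : Mt m) {F : ℝ × ℝ → Mt m} {z : ℝ × ℝ}
    (hF : ∀ i j, DifferentiableAt ℝ (fun y => F y i j) z) (t : ℝ × ℝ) :
    pd t (fun y => A * F y * B) z = A * pd t F z * B := by
  have h1 : ∀ i j, (fun y => (A * F y * B) i j) =
      fun y => ∑ k, (∑ l, A i l * F y l k) * B k j := by
    intro i j
    funext y
    simp only [Matrix.mul_apply]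
  ext i j
  simp only [pd, Matrix.of_apply]
  rw [h1, fderiv_fun_sum (fun k _ => (DifferentiableAt.fun_sum
    (fun l _ => (hF l k).const_mul (A i l))).mul_const (B k j)), _root_.sum_apply]
  simp only [Matrix.mul_apply, Matrix.of_apply]
  refine Finset.sum_congr rfl fun k _ => ?_
  rw [fderiv_mul_const (DifferentiableAt.fun_sum (fun l _ => (hF l k).const_mul (A i l))),
    fderiv_fun_sum (fun l _ => (hF l k).const_mul (A i l))]
  simp only [_root_.smul_apply, _root_.sum_apply, smul_eq_mul]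
  rw [mul_comm]
  congr 1
  refine Finset.sum_congr rfl fun l _ => ?_
  rw [fderiv_const_mul (hF l k)]
  rfl

theorem Mvt_q_conj {m : ℕ} {C : Mt m} (hC : IsUnit C.det) {F : ℝ × ℝ → Mt m} {z : ℝ × ℝ}
    (hF : ∀ i j, DifferentiableAt ℝ (fun y => F y i j) z) (t t' : ℝ × ℝ) :
    q t t' (fun y => C * F y * Cᴴ) z = q t t' F z := by
  have hc : C⁻¹ * C = 1 := Matrix.nonsing_inv_mul _ hC
  have hs : IsUnit (Cᴴ).det := by
    rw [Matrix.det_conjTranspose]; exact hC.star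
  have hcs : Cᴴ * (Cᴴ)⁻¹ = 1 := Matrix.mul_nonsing_inv _ hs
  have h1 : ∀ s, aa s (fun y => C * F y * Cᴴ) z = C * aa s F z * C⁻¹ := by
    intro s
    unfold aa
    rw [Mvt_pd_conj C Cᴴ hF, Matrix.mul_inv_rev, Matrix.mul_inv_rev, Matrix.mul_smul,
      Matrix.smul_mul]
    congr 1
    calc C * pd s F z * Cᴴ * ((Cᴴ)⁻¹ * ((F z)⁻¹ * C⁻¹))
        = C * pd s F z * (Cᴴ * (Cᴴ)⁻¹) * ((F z)⁻¹ * C⁻¹) := by simp only [mul_assoc]
      _ = _ := by rw [hcs, mul_one]; simp only [mul_assoc]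
  unfold q
  rw [h1, h1]
  have h2 : C * aa t F z * C⁻¹ * (C * aa t' F z * C⁻¹) =
      C * (aa t F z * aa t' F z) * C⁻¹ := by
    calc C * aa t F z * C⁻¹ * (C * aa t' F z * C⁻¹)
        = C * aa t F z * (C⁻¹ * C) * aa t' F z * C⁻¹ := by simp only [mul_assoc]
      _ = _ := by rw [hc, mul_one]; simp only [mul_assoc]
  rw [h2, Matrix.trace_mul_comm, ← mul_assoc, hc, one_mul]

theorem Mvt_aaS {m : ℕ} (F : ℝ × ℝ → Mt m) (z t t' : ℝ × ℝ) :
    q t t' (fun y => F (Mvt_S y)) z = q (Mvt_S t) (Mvt_S t') F (Mvt_S z) := by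
  simp only [q, aa, Mvt_pdS]

theorem Mvt_aaT {m : ℕ} (F : ℝ × ℝ → Mt m) (z t t' : ℝ × ℝ) :
    q t t' (fun y => F (Mvt_T y)) z = q (Mvt_S t) (Mvt_S t') F (Mvt_T z) := by
  simp only [q, aa, Mvt_pdT]

theorem Mvt_q_congr {m : ℕ} {F G : ℝ × ℝ → Mt m} {z : ℝ × ℝ} {V : Set (ℝ × ℝ)}
    (hV : IsOpen V) (hz : z ∈ V) (h : ∀ y ∈ V, F y = G y) (t t' : ℝ × ℝ) :
    q t t' F z = q t t' G z := by
  simp only [q, aa, Mvt_pd_congr hV hz h, h z hz]

/-- lower piece -/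
def Mvt_U1 : Set (ℝ × ℝ) := U ∩ {z | z.1 + z.2 < 1}

/-- upper piece -/
def Mvt_U2 : Set (ℝ × ℝ) := U ∩ {z | 1 < z.1 + z.2}

/-- lower image -/
def Mvt_V1 : Set (ℝ × ℝ) := U ∩ {z | z.2 < z.1}

/-- upper image -/
def Mvt_V2 : Set (ℝ × ℝ) := U ∩ {z | z.1 < z.2}

theorem Mvt_U1_open : IsOpen Mvt_U1 :=
  Mea_isOpen.inter (isOpen_lt (by fun_prop) (by fun_prop))

theorem Mvt_U2_open : IsOpen Mvt_U2 :=
  Mea_isOpen.inter (isOpen_lt (by fun_prop) (by fun_prop))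

theorem Mvt_V1_open : IsOpen Mvt_V1 :=
  Mea_isOpen.inter (isOpen_lt (by fun_prop) (by fun_prop))

theorem Mvt_V2_open : IsOpen Mvt_V2 :=
  Mea_isOpen.inter (isOpen_lt (by fun_prop) (by fun_prop))

theorem Mvt_pre1 : Mvt_S ⁻¹' Mvt_V1 = Mvt_U1 := by
  ext z
  simp only [Mvt_V1, Mvt_U1, Mvt_S, U, mem_preimage, mem_inter_iff, mem_prod, mem_Ioo,
    mem_ofPred_eq]
  constructor
  · rintro ⟨⟨⟨h1, h2⟩, h3, h4⟩, h5⟩
    refine ⟨⟨⟨by linarith, by linarith⟩, h3, h4⟩, h2⟩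
  · rintro ⟨⟨⟨h1, h2⟩, h3, h4⟩, h5⟩
    refine ⟨⟨⟨by linarith, by linarith⟩, h3, h4⟩, by linarith⟩

theorem Mvt_pre2 : Mvt_T ⁻¹' Mvt_V2 = Mvt_U2 := by
  ext z
  simp only [Mvt_V2, Mvt_U2, Mvt_T, U, mem_preimage, mem_inter_iff, mem_prod, mem_Ioo,
    mem_ofPred_eq]
  constructor
  · rintro ⟨⟨⟨h1, h2⟩, h3, h4⟩, h5⟩
    refine ⟨⟨⟨by linarith, by linarith⟩, h3, h4⟩, by linarith⟩
  · rintro ⟨⟨⟨h1, h2⟩, h3, h4⟩, h5⟩
    refine ⟨⟨⟨by linarith, by linarith⟩, h3, h4⟩, by linarith⟩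

theorem Mvt_mpS : MeasurePreserving Mvt_S := by
  have h := measurePreserving_add_prod (volume : Measure ℝ) (volume : Measure ℝ)
  exact h

theorem Mvt_mpT : MeasurePreserving Mvt_T := by
  have h : MeasurePreserving (fun z : ℝ × ℝ => z - (1, 0)) :=
    measurePreserving_sub_right volume _
  have h2 := h.comp Mvt_mpS
  have h3 : (fun z : ℝ × ℝ => z - (1, 0)) ∘ Mvt_S = Mvt_T := by
    funext z
    exact (Mvt_T_eq z).symm
  rwa [h3] at h2

theorem Mvt_meS : MeasurableEmbedding Mvt_S :=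
  Mvt_E.toHomeomorph.measurableEmbedding

theorem Mvt_meT : MeasurableEmbedding Mvt_T := by
  have h := (Homeomorph.subRight ((1, 0) : ℝ × ℝ)).measurableEmbedding.comp Mvt_meS
  have h3 : (Homeomorph.subRight ((1, 0) : ℝ × ℝ)) ∘ Mvt_S = Mvt_T := by
    funext z
    exact (Mvt_T_eq z).symm
  rwa [h3] at h

theorem Mvt_null1 : volume {z : ℝ × ℝ | z.1 + z.2 = 1} = 0 := by
  have h1 : {z : ℝ × ℝ | z.1 + z.2 = 1} = Mvt_S ⁻¹' (({1} : Set ℝ) ×ˢ univ) := by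
    ext z
    simp [Mvt_S]
  rw [h1, Mvt_mpS.measure_preimage_emb Mvt_meS]
  rw [Measure.volume_eq_prod, Measure.prod_prod]
  simp

theorem Mvt_null2 : volume {z : ℝ × ℝ | z.1 = z.2} = 0 := by
  have h1 : Mvt_S ⁻¹' {z : ℝ × ℝ | z.1 = z.2} = ({0} : Set ℝ) ×ˢ univ := by
    ext z
    simp [Mvt_S]
  rw [← Mvt_mpS.measure_preimage_emb Mvt_meS, h1]
  rw [Measure.volume_eq_prod, Measure.prod_prod]
  simp

theorem Mvt_aeU : (Mvt_U1 ∪ Mvt_U2 : Set (ℝ × ℝ)) =ᵐ[volume] U := by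
  have h : ∀ᵐ z : ℝ × ℝ, z.1 + z.2 ≠ 1 := by
    rw [ae_iff]
    simpa using Mvt_null1
  filter_upwards [h] with z hz
  have : (z ∈ (Mvt_U1 ∪ Mvt_U2 : Set (ℝ × ℝ))) ↔ z ∈ U := by
    constructor
    · rintro (h1 | h1)
      · exact h1.1
      · exact h1.1
    · intro h1
      rcases lt_or_gt_of_ne hz with h2 | h2
      · exact Or.inl ⟨h1, h2⟩
      · exact Or.inr ⟨h1, h2⟩
  exact propext this

theorem Mvt_aeV : (Mvt_V1 ∪ Mvt_V2 : Set (ℝ × ℝ)) =ᵐ[volume] U := by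
  have h : ∀ᵐ z : ℝ × ℝ, z.1 ≠ z.2 := by
    rw [ae_iff]
    simpa using Mvt_null2
  filter_upwards [h] with z hz
  have : (z ∈ (Mvt_V1 ∪ Mvt_V2 : Set (ℝ × ℝ))) ↔ z ∈ U := by
    constructor
    · rintro (h1 | h1)
      · exact h1.1
      · exact h1.1
    · intro h1
      rcases lt_or_gt_of_ne hz with h2 | h2
      · exact Or.inr ⟨h1, h2⟩
      · exact Or.inl ⟨h1, h2⟩
  exact propext this

theorem Mvt_disjU : Disjoint Mvt_U1 Mvt_U2 := by
  rw [Set.disjoint_left]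
  rintro z ⟨_, h1⟩ ⟨_, h2⟩
  simp only [mem_ofPred_eq] at h1 h2
  linarith

theorem Mvt_disjV : Disjoint Mvt_V1 Mvt_V2 := by
  rw [Set.disjoint_left]
  rintro z ⟨_, h1⟩ ⟨_, h2⟩
  simp only [mem_ofPred_eq] at h1 h2
  linarith

/-- change of variables for a function which is the pull back on both pieces -/
theorem Mvt_cov {f g : ℝ × ℝ → ℝ} (hg : IntegrableOn g U)
    (h1 : ∀ z ∈ Mvt_U1, f z = g (Mvt_S z))
    (h2 : ∀ᵐ z ∂(volume.restrict Mvt_U2), f z = g (Mvt_T z)) :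
    IntegrableOn f U ∧ ∫ z in U, f z = ∫ z in U, g z := by
  have g1 : IntegrableOn g Mvt_V1 := hg.mono_set inter_subset_left
  have g2 : IntegrableOn g Mvt_V2 := hg.mono_set inter_subset_left
  have k1 : IntegrableOn (g ∘ Mvt_S) Mvt_U1 := by
    rw [← Mvt_pre1]
    exact (Mvt_mpS.integrableOn_comp_preimage Mvt_meS).2 g1
  have k2 : IntegrableOn (g ∘ Mvt_T) Mvt_U2 := by
    rw [← Mvt_pre2]
    exact (Mvt_mpT.integrableOn_comp_preimage Mvt_meT).2 g2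
  have e1 : (g ∘ Mvt_S) =ᵐ[volume.restrict Mvt_U1] f := by
    filter_upwards [ae_restrict_mem Mvt_U1_open.measurableSet] with z hz
    exact (h1 z hz).symm
  have e2 : (g ∘ Mvt_T) =ᵐ[volume.restrict Mvt_U2] f := by
    filter_upwards [h2] with z hz
    exact hz.symm
  have f1 : IntegrableOn f Mvt_U1 := k1.congr e1
  have f2 : IntegrableOn f Mvt_U2 := k2.congr e2
  refine ⟨(integrableOn_congr_set_ae Mvt_aeU).1 (f1.union f2), ?_⟩
  rw [← setIntegral_congr_set Mvt_aeU, ← setIntegral_congr_set Mvt_aeV,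
    setIntegral_union Mvt_disjU Mvt_U2_open.measurableSet f1 f2,
    setIntegral_union Mvt_disjV Mvt_V2_open.measurableSet g1 g2,
    ← integral_congr_ae e1, ← integral_congr_ae e2]
  congr 1
  · rw [← Mvt_pre1]
    exact Mvt_mpS.setIntegral_preimage_emb Mvt_meS g Mvt_V1
  · rw [← Mvt_pre2]
    exact Mvt_mpT.setIntegral_preimage_emb Mvt_meT g Mvt_V2

theorem Mvt_qc {m : ℕ} {F H : ℝ × ℝ → Mt m} {z w : ℝ × ℝ}
    (h : ∀ t t', q t t' F z = q (Mvt_S t) (Mvt_S t') H w) (c : ℝ × ℝ × ℝ) :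
    qc (1, 0) (0, 1) c F z =
      qc (1, 0) (0, 1) (c.1 + 2 * c.2.1 + c.2.2, c.2.1 + c.2.2, c.2.2) H w := by
  have s1 : Mvt_S (1, 0) = (1, 0) := by simp [Mvt_S]
  have s2 : Mvt_S (0, 1) = (1:ℝ) • ((1, 0) : ℝ × ℝ) + (1:ℝ) • ((0, 1) : ℝ × ℝ) := by
    simp [Mvt_S]
  have r2 : ∀ s, q (Mvt_S (0, 1)) s H w = q (1, 0) s H w + q (0, 1) s H w := by
    intro s
    rw [s2, q_lin H w 1 1 (1, 0) (0, 1)]
    ring
  have r3 : q (1, 0) (Mvt_S (0, 1)) H w = q (1, 0) (1, 0) H w + q (1, 0) (0, 1) H w := by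
    rw [q_comm H w, r2, q_comm H w (0, 1)]
  have r4 : q (Mvt_S (0, 1)) (Mvt_S (0, 1)) H w =
      q (1, 0) (1, 0) H w + 2 * q (1, 0) (0, 1) H w + q (0, 1) (0, 1) H w := by
    rw [r2, r3, q_comm H w (0, 1), r2, q_comm H w (0, 1) (0, 1)]
    ring
  unfold qc
  rw [h, h, h, s1, r3, r4]
  ring

theorem moveT {m : ℕ} {A B C : Mt m} (hA : IsUnit A.det) (hB : IsUnit B.det)
    (hC : IsUnit C.det) {H : ℝ × ℝ → Mt m} (hH : Cl A B C H) :
    ∃ G : ℝ × ℝ → Mt m, Cl A (C * B⁻¹) C G ∧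
      ∀ x y : ℝ, 0 < y → Et x y G = Et (x - 1) y H := by
  have a1 : ∀ z ∈ Mvt_U1, ∀ t t', q t t' (Mvt_G C H) z = q (Mvt_S t) (Mvt_S t') H (Mvt_S z) := by
    intro z hz t t'
    have hV : IsOpen {y : ℝ × ℝ | y.1 + y.2 < 1} := isOpen_lt (by fun_prop) (by fun_prop)
    have h0 : ∀ y ∈ {y : ℝ × ℝ | y.1 + y.2 < 1}, Mvt_G C H y = H (Mvt_S y) := fun y hy =>
      if_pos (le_of_lt hy)
    rw [Mvt_q_congr hV hz.2 h0, Mvt_aaS]
  have a2 : ∀ᵐ z ∂(volume.restrict Mvt_U2), ∀ t t', q t t' (Mvt_G C H) z =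
      q (Mvt_S t) (Mvt_S t') H (Mvt_T z) := by
    have b1 : ∀ᵐ w ∂(volume.restrict Mvt_V2), ∀ i j, DifferentiableAt ℝ (fun y => H y i j) w :=
      ae_restrict_of_ae_restrict_of_subset inter_subset_left (lz_ae hH.lip)
    have b2 := (Mvt_mpT.restrict_preimage_emb Mvt_meT Mvt_V2).quasiMeasurePreserving.ae b1
    rw [Mvt_pre2] at b2
    filter_upwards [b2, ae_restrict_mem Mvt_U2_open.measurableSet] with z hz hzU t t'
    have hV : IsOpen {y : ℝ × ℝ | 1 < y.1 + y.2} := isOpen_lt (by fun_prop) (by fun_prop)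
    have hd : ∀ i j, DifferentiableAt ℝ (fun y => H (Mvt_T y) i j) z := by
      intro i j
      have e1 : DifferentiableAt ℝ Mvt_T z := by
        unfold Mvt_T
        fun_prop
      exact (hz i j).comp z e1
    have h0 : ∀ y ∈ {y : ℝ × ℝ | 1 < y.1 + y.2}, Mvt_G C H y = C * H (Mvt_T y) * Cᴴ :=
      fun y hy => if_neg (not_le.2 hy)
    rw [Mvt_q_congr hV hzU.2 h0, Mvt_q_conj hC hd, Mvt_aaT]
  have cov : ∀ c : ℝ × ℝ × ℝ, IntegrableOn (qc (1, 0) (0, 1) c (Mvt_G C H)) U ∧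
      ∫ z in U, qc (1, 0) (0, 1) c (Mvt_G C H) z =
      ∫ z in U, qc (1, 0) (0, 1) (c.1 + 2 * c.2.1 + c.2.2, c.2.1 + c.2.2, c.2.2) H z := by
    intro c
    refine Mvt_cov (qc_int hH _ _ _) (fun z hz => Mvt_qc (a1 z hz) c) ?_
    filter_upwards [a2] with z hz
    exact Mvt_qc hz c
  refine ⟨Mvt_G C H, ?_, ?_⟩
  · refine ⟨?_, Mvt_lz hH.lip hH.glC, ?_, ?_, ?_, ?_⟩
    · intro z hz
      obtain ⟨d, hd, hzd⟩ := mem_dd hz
      unfold Mvt_G
      have hδ : 0 < min (d / 2) (1 / 4) := lt_min (by linarith) (by norm_num)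
      split_ifs with h1
      · exact hH.pos _ (dd_sub hδ (Mvt_Smem hzd h1))
      · have h2 := hH.pos _ (dd_sub hδ (Mvt_Tmem hzd (not_le.1 h1).le))
        exact h2.mul_mul_conjTranspose_same
          (Matrix.vecMul_injective_of_isUnit ((Matrix.isUnit_iff_isUnit_det _).2 hC))
    · intro v hv
      have h1 : ¬ ((1:ℝ) + v ≤ 1) := by linarith [hv.1]
      have h2 : (0:ℝ) + v ≤ 1 := by linarith [hv.2]
      simp only [Mvt_G, Mvt_T, Mvt_S, if_neg h1, if_pos h2]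
      congr 3 <;> simp
    · intro u hu
      have h1 : (1 - u) ≤ 1 := by linarith [hu.1]
      have h2 : u ≤ 1 := by linarith [hu.2]
      simp only [Mvt_G, Mvt_S, add_zero, if_pos h1, if_pos h2]
      exact hH.glA u hu
    · intro u hu
      have h1 : ¬ ((1 - u) + 1 / 2 ≤ 1) := by linarith [hu.2]
      have h2 : u + 1 / 2 ≤ 1 := by linarith [hu.2]
      simp only [Mvt_G, Mvt_T, Mvt_S, if_neg h1, if_pos h2]
      have h3 := hH.glB (1 / 2 - u) ⟨by linarith [hu.2], by linarith [hu.1]⟩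
      have h4 : (1 - (1 / 2 - u), (1 / 2 : ℝ)) = (u + 1 / 2, 1 / 2) := by
        ext <;> simp; ring
      have h5 : ((1 - u + 1 / 2 - 1 : ℝ), (1 / 2 : ℝ)) = (1 / 2 - u, 1 / 2) := by
        ext <;> simp; ring
      rw [h4] at h3
      rw [h5, h3, Matrix.conjTranspose_mul, Matrix.conjTranspose_nonsing_inv]
      have hs : IsUnit (Bᴴ).det := by
        rw [Matrix.det_conjTranspose]; exact hB.star
      have hb : B⁻¹ * B = 1 := Matrix.nonsing_inv_mul _ hB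
      have hb2 : Bᴴ * (Bᴴ)⁻¹ = 1 := Matrix.mul_nonsing_inv _ hs
      calc C * H (1 / 2 - u, 1 / 2) * Cᴴ
          = C * (B⁻¹ * B) * H (1 / 2 - u, 1 / 2) * (Bᴴ * (Bᴴ)⁻¹) * Cᴴ := by
            rw [hb, hb2, mul_one, mul_one]
        _ = _ := by simp only [mul_assoc]
    · have h1 := (cov (1, 0, 1)).1
      refine h1.congr_fun (fun z _ => ?_) Mea_isOpen.measurableSet
      simp only [qc]
      ring
  · intro x y hy
    have h1 := (cov (ct x y)).2
    have h2 : ((ct x y).1 + 2 * (ct x y).2.1 + (ct x y).2.2, (ct x y).2.1 + (ct x y).2.2,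
        (ct x y).2.2) = ct (x - 1) y := by
      simp only [ct]
      refine Prod.ext ?_ (Prod.ext ?_ rfl)
      · simp only
        field_simp
        ring
      · simp only
        field_simp
        ring
    rw [h2] at h1
    exact h1


end H80HM
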