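import Mathlib

set_option autoImplicit false

/-!
# MP_b319aa_HM: common definitions

Rectangle D = [0,1] x [0,1/2] with six punctures (corners and midpoints of the horizontal sides);
positive definite Hermitian matrix valued functions H on D minus punctures with gluing conditions
H(1,v) = C H(0,v) C*, H(1-u,0) = A H(u,0) A*, H(1-u,1/2) = B H(u,1/2) B*.
Energy density: q t t' H = Re tr(a_t a_t'), a_t = (1/2) (d_t H) H^{-1}, d_t = derivative in direction t.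
Functional calculus: if H = Q Q*, G = Q diag(exp lam) Q*, then fcal phi H G = Q diag(phi(lam)) Q^{-1}
(= phi(log(G H^{-1}))), and the interpolated metric is kf psi H G = fcal (exp o psi) H G * H.
-/

namespace H80HM

open Matrix MeasureTheory Set
open scoped ComplexOrder

noncomputable section

/-- complex square matrices -/
abbrev Mt (m : ℕ) := Matrix (Fin m) (Fin m) ℂ

/-- closed rectangle -/
def D : Set (ℝ × ℝ) := Icc (0:ℝ) 1 ×ˢ Icc (0:ℝ) (1/2)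

/-- open rectangle -/
def U : Set (ℝ × ℝ) := Ioo (0:ℝ) 1 ×ˢ Ioo (0:ℝ) (1/2)

/-- punctures -/
def P : Set (ℝ × ℝ) := ({0, 1/2, 1} : Set ℝ) ×ˢ ({0, 1/2} : Set ℝ)

/-- points of D at distance (sup metric) at least d from the punctures -/
def Dd (d : ℝ) : Set (ℝ × ℝ) := {x | x ∈ D ∧ ∀ p ∈ P, d ≤ dist x p}

variable {m : ℕ}

/-- Lipschitz away from the punctures (entrywise) -/
def Lz (F : ℝ × ℝ → Mt m) : Prop :=
  ∀ d : ℝ, 0 < d → ∃ K : ℝ, ∀ x ∈ Dd d, ∀ y ∈ Dd d, ∀ i j, ‖F x i j - F y i j‖ ≤ K * dist x y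

/-- derivative in direction t, entrywise -/
def pd (t : ℝ × ℝ) (F : ℝ × ℝ → Mt m) (x : ℝ × ℝ) : Mt m :=
  Matrix.of fun i j => fderiv ℝ (fun y => F y i j) x t

/-- a_t = (1/2) (d_t H) H^{-1} -/
def aa (t : ℝ × ℝ) (H : ℝ × ℝ → Mt m) (x : ℝ × ℝ) : Mt m :=
  (1/2 : ℂ) • (pd t H x * (H x)⁻¹)

/-- energy density Re tr (a_t a_t') -/
def q (t t' : ℝ × ℝ) (H : ℝ × ℝ → Mt m) (x : ℝ × ℝ) : ℝ :=
  (trace (aa t H x * aa t' H x)).re

/-- density for the quadratic form with matrix ((c.1, c.2.1),(c.2.1, c.2.2)) in the frame e, f -/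
def qc (e f : ℝ × ℝ) (c : ℝ × ℝ × ℝ) (H : ℝ × ℝ → Mt m) (x : ℝ × ℝ) : ℝ :=
  c.1 * q e e H x + 2 * c.2.1 * q e f H x + c.2.2 * q f f H x

/-- energy -/
def En (e f : ℝ × ℝ) (c : ℝ × ℝ × ℝ) (H : ℝ × ℝ → Mt m) : ℝ := ∫ x in U, qc e f c H x

/-- positive semidefinite quadratic form -/
def Psd (c : ℝ × ℝ × ℝ) : Prop := 0 ≤ c.1 ∧ 0 ≤ c.2.2 ∧ c.2.1 ^ 2 ≤ c.1 * c.2.2

/-- the quadratic form of the point x + i y of the upper half plane -/
def ct (x y : ℝ) : ℝ × ℝ × ℝ := ((x ^ 2 + y ^ 2) / y, -x / y, 1 / y)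

/-- energy at the point x + i y -/
def Et (x y : ℝ) (H : ℝ × ℝ → Mt m) : ℝ := En (1, 0) (0, 1) (ct x y) H

/-- the class of metrics -/
structure Cl (A B C : Mt m) (H : ℝ × ℝ → Mt m) : Prop where
  pos : ∀ x ∈ D \ P, (H x).PosDef
  lip : Lz H
  glC : ∀ v ∈ Ioo (0:ℝ) (1/2), H (1, v) = C * H (0, v) * Cᴴ
  glA : ∀ u ∈ Ioo (0:ℝ) (1/2), H (1 - u, 0) = A * H (u, 0) * Aᴴ
  glB : ∀ u ∈ Ioo (0:ℝ) (1/2), H (1 - u, 1/2) = B * H (u, 1/2) * Bᴴ
  fin : IntegrableOn (fun x => q (1, 0) (1, 0) H x + q (0, 1) (0, 1) H x) U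

/-- infimum of the energy at x + i y -/
def EE (A B C : Mt m) (x y : ℝ) : ℝ := sInf {r | ∃ H, Cl A B C H ∧ r = Et x y H}

/-- fields of endomorphisms with the conjugation gluing -/
structure Fd (A B C : Mt m) (X : ℝ × ℝ → Mt m) : Prop where
  lip : Lz X
  glC : ∀ v ∈ Ioo (0:ℝ) (1/2), X (1, v) * C = C * X (0, v)
  glA : ∀ u ∈ Ioo (0:ℝ) (1/2), X (1 - u, 0) * A = A * X (u, 0)
  glB : ∀ u ∈ Ioo (0:ℝ) (1/2), X (1 - u, 1/2) * B = B * X (u, 1/2)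

/-- squared Hilbert-Schmidt norm of Y with respect to H -/
def n2 (H Y : Mt m) : ℝ := (trace (Y * H * Yᴴ * H⁻¹)).re

/-- adjoint of Y with respect to H -/
def adj (H Y : Mt m) : Mt m := H * Yᴴ * H⁻¹

/-- squared norm of the derivative of the field X in direction t -/
def dn (t : ℝ × ℝ) (H X : ℝ × ℝ → Mt m) (x : ℝ × ℝ) : ℝ := n2 (H x) (pd t X x)

/-- Re tr (a_t d_t' X) -/
def ln (t t' : ℝ × ℝ) (H X : ℝ × ℝ → Mt m) (x : ℝ × ℝ) : ℝ :=
  (trace (aa t H x * pd t' X x)).re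

/-- simultaneous diagonalisation -/
def FrL (H G Q : Mt m) (lam : Fin m → ℝ) : Prop :=
  IsUnit Q.det ∧ H = Q * Qᴴ ∧ G = Q * diagonal (fun i => ((Real.exp (lam i) : ℝ) : ℂ)) * Qᴴ

open Classical in
/-- functional calculus phi(log(G H^{-1})) -/
def fcal (phi : ℝ → ℝ) (H G : Mt m) : Mt m :=
  if h : ∃ z : Mt m × (Fin m → ℝ), FrL H G z.1 z.2 then
    h.choose.1 * diagonal (fun i => ((phi (h.choose.2 i) : ℝ) : ℂ)) * (h.choose.1)⁻¹
  else 0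

/-- the field phi(log(G H^{-1})) -/
def Xf (phi : ℝ → ℝ) (H G : ℝ × ℝ → Mt m) (x : ℝ × ℝ) : Mt m := fcal phi (H x) (G x)

/-- the interpolated metric exp(psi(log(G H^{-1}))) H -/
def Kf (psi : ℝ → ℝ) (H G : ℝ × ℝ → Mt m) (x : ℝ × ℝ) : Mt m :=
  fcal (fun t => Real.exp (psi t)) (H x) (G x) * H x

/-- divided difference -/
def dd (phi : ℝ → ℝ) (p r : ℝ) : ℝ := if p = r then deriv phi p else (phi p - phi r) / (p - r)

/-- hyperbolic divided difference -/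
def sh (psi : ℝ → ℝ) (p r : ℝ) : ℝ :=
  if p = r then deriv psi p / 2 else Real.sinh ((psi p - psi r) / 2) / (p - r)

/-- the component z = cosh(y) a + sinh(y) s/(p-r) -/
def zz (psi : ℝ → ℝ) (p r : ℝ) (a s : ℂ) : ℂ :=
  ((Real.cosh ((psi p - psi r) / 2) : ℝ) : ℂ) * a + ((sh psi p r : ℝ) : ℂ) * s

/-- pointwise description at x of the pair of metrics H, G and of their first derivatives -/
def PtD (H G : ℝ × ℝ → Mt m) (x : ℝ × ℝ) : Prop :=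
  ∃ (Q : Mt m) (lam : Fin m → ℝ) (a s : ℝ × ℝ → Mt m),
    FrL (H x) (G x) Q lam ∧
    (∀ t, (a t).IsHermitian) ∧ (∀ t, (s t).IsHermitian) ∧
    (∀ (c c' : ℝ) (t t' : ℝ × ℝ), a (c • t + c' • t') = (c : ℂ) • a t + (c' : ℂ) • a t') ∧
    (∀ (c c' : ℝ) (t t' : ℝ × ℝ), s (c • t + c' • t') = (c : ℂ) • s t + (c' : ℂ) • s t') ∧
    (∀ t, aa t H x = Q * a t * Q⁻¹) ∧
    (∀ t t', q t t' H x = ∑ p, ∑ r, (a t p r * star (a t' p r)).re) ∧
    (∀ t t', q t t' G x =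
      ∑ p, ∑ r, (zz id (lam p) (lam r) (a t p r) (s t p r) *
        star (zz id (lam p) (lam r) (a t' p r) (s t' p r))).re) ∧
    (∀ psi : ℝ → ℝ, ContDiff ℝ 1 psi → ∀ t t', q t t' (Kf psi H G) x =
      ∑ p, ∑ r, (zz psi (lam p) (lam r) (a t p r) (s t p r) *
        star (zz psi (lam p) (lam r) (a t' p r) (s t' p r))).re) ∧
    (∀ phi : ℝ → ℝ, ContDiff ℝ 1 phi → ∀ t, pd t (Xf phi H G) x =
      Q * (Matrix.of fun p r => ((dd phi (lam p) (lam r) : ℝ) : ℂ) * s t p r +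
        a t p r * ((phi (lam r) - phi (lam p) : ℝ) : ℂ)) * Q⁻¹)

/-- half of the identity -/
def hf (t : ℝ) : ℝ := t / 2

/-- convexity gap at the midpoint, in the orthonormal frame e, f -/
def gap (e f : ℝ × ℝ) (H G : ℝ × ℝ → Mt m) (x : ℝ × ℝ) : ℝ :=
  qc e f (1, 0, 1) H x + qc e f (1, 0, 1) G x - 2 * qc e f (1, 0, 1) (Kf hf H G) x

/-- near-minimiser -/
def NM (e f : ℝ × ℝ) (c : ℝ × ℝ × ℝ) (A B C : Mt m) (ep : ℝ) (H : ℝ × ℝ → Mt m) : Prop :=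
  Cl A B C H ∧ ∀ G, Cl A B C G → En e f c H ≤ En e f c G + ep

/-- the truncation function: phi C^1, odd, 0 <= phi' <= 1, identity on [-M/2, M/2], bounded by M -/
structure Tr (M : ℝ) (phi : ℝ → ℝ) : Prop where
  cd : ContDiff ℝ 1 phi
  odd : ∀ t, phi (-t) = - phi t
  d0 : ∀ t, 0 ≤ deriv phi t
  d1 : ∀ t, deriv phi t ≤ 1
  idn : ∀ t, |t| ≤ M / 2 → phi t = t
  bd : ∀ t, |phi t| ≤ M

/-- rotated forms cosh s + sinh s ((p, r),(r, -p)) -/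
def ck (s p r : ℝ) : ℝ × ℝ × ℝ :=
  (Real.cosh s + Real.sinh s * p, Real.sinh s * r, Real.cosh s - Real.sinh s * p)

/-- displacement comparison: re(x* H x) <= K re(x* G x) for all vectors -/
def Cmp (K : ℝ) (H G : Mt m) : Prop :=
  ∀ x : Fin m → ℂ, (star x ⬝ᵥ (H *ᵥ x)).re ≤ K * (star x ⬝ᵥ (G *ᵥ x)).re

/-- the orthonormal frame of the point x0 + i y0 -/
def f1 (_x0 y0 : ℝ) : ℝ × ℝ := (Real.sqrt y0, 0)
def f2 (x0 y0 : ℝ) : ℝ × ℝ := (-x0 / Real.sqrt y0, 1 / Real.sqrt y0)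

/-- the complexified covariant derivative nabla_e V - i nabla_f V, nabla_t V = d_t V - [a_t, V] -/
def nab (t : ℝ × ℝ) (H V : ℝ × ℝ → Mt m) (x : ℝ × ℝ) : Mt m :=
  pd t V x - (aa t H x * V x - V x * aa t H x)

end

end H80HM
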