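import Pool.Agent.H80.HM.Defs

set_option autoImplicit false

/-!
# Row Aed: functions that are Lipschitz away from the punctures

1. uDd: every x in U lies in the interior of some Dd d, more precisely: for x in U there are d > 0 and a neighbourhood of x contained in U and Dd d
   (U is open; the punctures are on the boundary of D, so dist(x,P) > 0; P is finite). Also U is contained in D minus P.
2. lz_cont: F in Lz is continuous (entrywise) on D minus P, relative to D minus P (the sets {x in D, dist(x,P) > d} are relatively open in D and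
   contained in Dd d).
3. lz_ae: Rademacher (Mathlib: LipschitzOnWith.ae_differentiableWithinAt): U is the countable union of the open sets
   U_n = {x in U : dist(x,p) > 1/n for all p in P} contained in Dd (1/n), on each of them the entries of F are Lipschitz; a.e. point of U_n is a
   point of differentiability (U_n open: within = at). So a.e. x in U all entries of F are differentiable at x.
4. lz_add, lz_mul: sums and products of Lz functions are Lz. For products use that entries are bounded on Dd d: |F x| <= |F x0| + K dist x x0 and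
   Dd d is bounded (diameter at most 1) (if Dd d is empty there is nothing to prove).
5. lz_inv: if F in Lz and F x is invertible (det unit) on D minus P then x -> (F x)^{-1} is Lz: Dd d is compact and contained in D minus P
   (d > 0), det F is continuous and non-zero there so |det F| >= c > 0 on Dd d, and the entries of F^{-1} are det^{-1} times polynomials in the
   entries of F (adjugate).
6. lz_star: conjugate transpose.   7. lz_bdm: a positive definite Lz metric satisfies Bdm R on Dd d for some R (compactness).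
-/

namespace H80HM

open Matrix MeasureTheory Set Filter Topology
open scoped ComplexOrder

theorem u_sub : U ⊆ D \ P := by
  rintro ⟨a, b⟩ h
  simp only [U, mem_prod, mem_Ioo] at h
  refine ⟨?_, ?_⟩
  · simp only [D, mem_prod, mem_Icc]
    exact ⟨⟨h.1.1.le, h.1.2.le⟩, ⟨h.2.1.le, h.2.2.le⟩⟩
  · intro hp
    simp only [P, mem_prod, mem_insert_iff, mem_singleton_iff] at hp
    rcases hp.2 with h0 | h0
    · linarith [h.2.1]
    · linarith [h.2.2]

theorem Aed_U_open : IsOpen U := isOpen_Ioo.prod isOpen_Ioo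

theorem Aed_P_finite : P.Finite := by
  unfold P
  exact Set.Finite.prod (by simp) (by simp)

theorem uDd {x : ℝ × ℝ} (hx : x ∈ U) : ∃ d : ℝ, 0 < d ∧ U ∩ Dd d ∈ 𝓝 x := by
  have hx' := hx
  simp only [U, mem_prod, mem_Ioo] at hx'
  obtain ⟨e, he⟩ : ∃ e, e = min x.2 (1 / 2 - x.2) := ⟨_, rfl⟩
  have he0 : 0 < e := by
    rw [he]; exact lt_min hx'.2.1 (by linarith [hx'.2.2])
  have he1 : e ≤ x.2 := by rw [he]; exact min_le_left _ _
  have he2 : e ≤ 1 / 2 - x.2 := by rw [he]; exact min_le_right _ _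
  refine ⟨e / 2, by linarith, ?_⟩
  have h1 : U ∈ 𝓝 x := Aed_U_open.mem_nhds hx
  have h2 : Metric.ball x (e / 2) ∈ 𝓝 x := Metric.ball_mem_nhds _ (by linarith)
  refine Filter.mem_of_superset (Filter.inter_mem h1 h2) ?_
  rintro y ⟨hy1, hy2⟩
  refine ⟨hy1, (u_sub hy1).1, ?_⟩
  intro p hp
  rw [Metric.mem_ball, Prod.dist_eq] at hy2
  have h3 : dist y.2 x.2 < e / 2 := lt_of_le_of_lt (le_max_right _ _) hy2
  rw [Real.dist_eq, abs_lt] at h3
  have h4 : dist y.2 p.2 ≤ dist y p := by rw [Prod.dist_eq]; exact le_max_right _ _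
  refine le_trans ?_ h4
  rw [Real.dist_eq]
  have hp2 : p.2 = 0 ∨ p.2 = 1 / 2 := by
    have := hp
    simp only [P, mem_prod, mem_insert_iff, mem_singleton_iff] at this
    exact this.2
  rcases hp2 with h5 | h5
  · rw [h5]
    refine le_trans ?_ (le_abs_self _)
    linarith [h3.1]
  · rw [h5]
    refine le_trans ?_ (neg_le_abs _)
    linarith [h3.2]

theorem dd_sub {d : ℝ} (hd : 0 < d) : Dd d ⊆ D \ P := by
  intro x hx
  refine ⟨hx.1, fun hp => ?_⟩
  have := hx.2 x hp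
  rw [dist_self] at this
  linarith

theorem dd_compact (d : ℝ) : IsCompact (Dd d) := by
  have h1 : IsCompact D := isCompact_Icc.prod isCompact_Icc
  have h2 : Dd d = D ∩ ⋂ p ∈ P, {x | d ≤ dist x p} := by
    ext x
    simp [Dd]
  rw [h2]
  refine h1.inter_right ?_
  refine isClosed_biInter ?_
  intro p _
  exact isClosed_le continuous_const (continuous_id.dist continuous_const)

theorem mem_dd {x : ℝ × ℝ} (hx : x ∈ D \ P) : ∃ d : ℝ, 0 < d ∧ x ∈ Dd d := by
  have hne : P.Nonempty := ⟨(0, 0), by simp [P]⟩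
  have hcl : IsClosed P := Aed_P_finite.isClosed
  refine ⟨Metric.infDist x P, (hcl.notMem_iff_infDist_pos hne).1 hx.2, hx.1, ?_⟩
  intro p hp
  exact Metric.infDist_le_dist_of_mem hp

/-- scalar version -/
def Aed_Sz (f : ℝ × ℝ → ℂ) : Prop :=
  ∀ d : ℝ, 0 < d → ∃ K : ℝ, 0 ≤ K ∧ ∀ x ∈ Dd d, ∀ y ∈ Dd d, ‖f x - f y‖ ≤ K * dist x y

theorem Aed_lz_iff {m : ℕ} {F : ℝ × ℝ → Mt m} : Lz F ↔ ∀ i j, Aed_Sz (fun x => F x i j) := by
  constructor
  · intro h i j d hd
    obtain ⟨K, hK⟩ := h d hd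
    refine ⟨|K|, abs_nonneg _, fun x hx y hy => (hK x hx y hy i j).trans ?_⟩
    exact mul_le_mul_of_nonneg_right (le_abs_self _) dist_nonneg
  · intro h d hd
    choose K hK0 hK using fun i j => h i j d hd
    refine ⟨∑ i, ∑ j, K i j, fun x hx y hy i j => (hK i j x hx y hy).trans ?_⟩
    refine mul_le_mul_of_nonneg_right ?_ dist_nonneg
    calc K i j ≤ ∑ j, K i j :=
          Finset.single_le_sum (f := fun j => K i j) (fun j _ => hK0 i j) (Finset.mem_univ j)
      _ ≤ ∑ i, ∑ j, K i j :=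
          Finset.single_le_sum (f := fun i => ∑ j, K i j)
            (fun i _ => Finset.sum_nonneg fun j _ => hK0 i j) (Finset.mem_univ i)

theorem Aed_dist_le {d : ℝ} {x y : ℝ × ℝ} (hx : x ∈ Dd d) (hy : y ∈ Dd d) : dist x y ≤ 1 := by
  have h1 := hx.1
  have h2 := hy.1
  simp only [D, mem_prod, mem_Icc] at h1 h2
  rw [Prod.dist_eq]
  refine max_le ?_ ?_
  · rw [Real.dist_eq, abs_le]
    constructor <;> linarith [h1.1.1, h1.1.2, h2.1.1, h2.1.2]
  · rw [Real.dist_eq, abs_le]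
    constructor <;> linarith [h1.2.1, h1.2.2, h2.2.1, h2.2.2]

theorem Aed_Sz_bd {f : ℝ × ℝ → ℂ} (hf : Aed_Sz f) {d : ℝ} (hd : 0 < d) :
    ∃ R : ℝ, 0 ≤ R ∧ ∀ x ∈ Dd d, ‖f x‖ ≤ R := by
  obtain ⟨K, hK0, hK⟩ := hf d hd
  by_cases hne : (Dd d).Nonempty
  · obtain ⟨x0, hx0⟩ := hne
    refine ⟨‖f x0‖ + K, add_nonneg (norm_nonneg _) hK0, fun x hx => ?_⟩
    have h1 := hK x hx x0 hx0
    have h2 : K * dist x x0 ≤ K := mul_le_of_le_one_right hK0 (Aed_dist_le hx hx0)
    have h3 : ‖f x‖ ≤ ‖f x0‖ + ‖f x - f x0‖ := by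
      have := norm_add_le (f x0) (f x - f x0)
      simpa using this
    linarith
  · refine ⟨0, le_refl _, fun x hx => ?_⟩
    exact absurd ⟨x, hx⟩ hne

theorem Aed_Sz_const (c : ℂ) : Aed_Sz (fun _ => c) := by
  intro d _
  refine ⟨0, le_refl _, fun x _ y _ => ?_⟩
  simp

theorem Aed_Sz_add {f g : ℝ × ℝ → ℂ} (hf : Aed_Sz f) (hg : Aed_Sz g) :
    Aed_Sz (fun x => f x + g x) := by
  intro d hd
  obtain ⟨K, hK0, hK⟩ := hf d hd
  obtain ⟨L, hL0, hL⟩ := hg d hd
  refine ⟨K + L, add_nonneg hK0 hL0, fun x hx y hy => ?_⟩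
  have h1 := hK x hx y hy
  have h2 := hL x hx y hy
  calc ‖f x + g x - (f y + g y)‖ = ‖(f x - f y) + (g x - g y)‖ := by ring_nf
    _ ≤ ‖f x - f y‖ + ‖g x - g y‖ := norm_add_le _ _
    _ ≤ (K + L) * dist x y := by rw [add_mul]; exact add_le_add h1 h2

theorem Aed_Sz_mul {f g : ℝ × ℝ → ℂ} (hf : Aed_Sz f) (hg : Aed_Sz g) :
    Aed_Sz (fun x => f x * g x) := by
  intro d hd
  obtain ⟨K, hK0, hK⟩ := hf d hd
  obtain ⟨L, hL0, hL⟩ := hg d hd
  obtain ⟨R, hR0, hR⟩ := Aed_Sz_bd hf hd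
  obtain ⟨S, hS0, hS⟩ := Aed_Sz_bd hg hd
  refine ⟨K * S + R * L, by positivity, fun x hx y hy => ?_⟩
  have h1 := hK x hx y hy
  have h2 := hL x hx y hy
  have e : f x * g x - f y * g y = (f x - f y) * g x + f y * (g x - g y) := by ring
  rw [e]
  calc ‖(f x - f y) * g x + f y * (g x - g y)‖
      ≤ ‖(f x - f y) * g x‖ + ‖f y * (g x - g y)‖ := norm_add_le _ _
    _ = ‖f x - f y‖ * ‖g x‖ + ‖f y‖ * ‖g x - g y‖ := by rw [norm_mul, norm_mul]
    _ ≤ (K * dist x y) * S + R * (L * dist x y) := by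
        refine add_le_add ?_ ?_
        · exact mul_le_mul h1 (hS x hx) (norm_nonneg _) (by positivity)
        · exact mul_le_mul (hR y hy) h2 (norm_nonneg _) hR0
    _ = (K * S + R * L) * dist x y := by ring

theorem Aed_Sz_sum {ι : Type*} (s : Finset ι) (f : ι → ℝ × ℝ → ℂ) (hf : ∀ i ∈ s, Aed_Sz (f i)) :
    Aed_Sz (fun x => ∑ i ∈ s, f i x) := by
  classical
  induction s using Finset.induction_on with
  | empty => simpa using Aed_Sz_const 0
  | insert a s ha ih =>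
    have h1 : Aed_Sz (fun x => f a x + ∑ i ∈ s, f i x) :=
      Aed_Sz_add (hf a (Finset.mem_insert_self a s)) (ih fun i hi => hf i (Finset.mem_insert_of_mem hi))
    have e : (fun x => ∑ i ∈ insert a s, f i x) = fun x => f a x + ∑ i ∈ s, f i x := by
      funext x
      rw [Finset.sum_insert ha]
    rw [e]
    exact h1

theorem Aed_Sz_prod {ι : Type*} (s : Finset ι) (f : ι → ℝ × ℝ → ℂ) (hf : ∀ i ∈ s, Aed_Sz (f i)) :
    Aed_Sz (fun x => ∏ i ∈ s, f i x) := by
  classical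
  induction s using Finset.induction_on with
  | empty => simpa using Aed_Sz_const 1
  | insert a s ha ih =>
    have h1 : Aed_Sz (fun x => f a x * ∏ i ∈ s, f i x) :=
      Aed_Sz_mul (hf a (Finset.mem_insert_self a s)) (ih fun i hi => hf i (Finset.mem_insert_of_mem hi))
    have e : (fun x => ∏ i ∈ insert a s, f i x) = fun x => f a x * ∏ i ∈ s, f i x := by
      funext x
      rw [Finset.prod_insert ha]
    rw [e]
    exact h1

theorem Aed_nhds {x : ℝ × ℝ} (hx : x ∈ D \ P) : ∃ d : ℝ, 0 < d ∧ x ∈ Dd d ∧ Dd d ∈ 𝓝[D \ P] x := by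
  obtain ⟨d, hd, hxd⟩ := mem_dd hx
  refine ⟨d / 2, by linarith, ⟨hxd.1, fun p hp => by linarith [hxd.2 p hp]⟩, ?_⟩
  have h2 : Metric.ball x (d / 2) ∈ 𝓝 x := Metric.ball_mem_nhds _ (by linarith)
  refine Filter.mem_of_superset (inter_mem_nhdsWithin (D \ P) h2) ?_
  rintro y ⟨hy1, hy2⟩
  refine ⟨hy1.1, fun p hp => ?_⟩
  have h3 := hxd.2 p hp
  rw [Metric.mem_ball] at hy2
  have h4 : dist x p ≤ dist x y + dist y p := dist_triangle _ _ _
  rw [dist_comm x y] at h4
  linarith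

theorem Aed_Sz_cont {f : ℝ × ℝ → ℂ} (hf : Aed_Sz f) : ContinuousOn f (D \ P) := by
  intro x hx
  obtain ⟨d, hd, hxd, hnh⟩ := Aed_nhds hx
  obtain ⟨K, hK0, hK⟩ := hf d hd
  have h1 : LipschitzOnWith (Real.toNNReal K) f (Dd d) := by
    refine LipschitzOnWith.of_dist_le_mul ?_
    intro y hy z hz
    rw [dist_eq_norm, Real.coe_toNNReal K hK0]
    exact hK y hy z hz
  exact (h1.continuousOn x hxd).mono_of_mem_nhdsWithin hnh

theorem Aed_Sz_inv {f : ℝ × ℝ → ℂ} (hf : Aed_Sz f) (h0 : ∀ x ∈ D \ P, f x ≠ 0) :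
    Aed_Sz (fun x => (f x)⁻¹) := by
  intro d hd
  by_cases hne : (Dd d).Nonempty
  · obtain ⟨K, hK0, hK⟩ := hf d hd
    have hc : ContinuousOn (fun x => ‖f x‖) (Dd d) :=
      (((Aed_Sz_cont hf).mono (dd_sub hd))).norm
    obtain ⟨x0, hx0, hmin⟩ := (dd_compact d).exists_isMinOn hne hc
    have hpos : 0 < ‖f x0‖ := norm_pos_iff.2 (h0 x0 (dd_sub hd hx0))
    have hlow : ∀ x ∈ Dd d, ‖f x0‖ ≤ ‖f x‖ := fun x hx => hmin hx
    refine ⟨K / (‖f x0‖ * ‖f x0‖), by positivity, fun x hx y hy => ?_⟩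
    have hx1 : f x ≠ 0 := h0 x (dd_sub hd hx)
    have hy1 : f y ≠ 0 := h0 y (dd_sub hd hy)
    have e : (f x)⁻¹ - (f y)⁻¹ = (f y - f x) / (f x * f y) := by
      field_simp
    rw [e, norm_div, norm_mul, norm_sub_rev]
    have h1 := hK x hx y hy
    have h2 : ‖f x0‖ * ‖f x0‖ ≤ ‖f x‖ * ‖f y‖ :=
      mul_le_mul (hlow x hx) (hlow y hy) hpos.le (norm_nonneg _)
    calc ‖f x - f y‖ / (‖f x‖ * ‖f y‖) ≤ (K * dist x y) / (‖f x0‖ * ‖f x0‖) :=
          div_le_div₀ (by positivity) h1 (by positivity) h2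
      _ = K / (‖f x0‖ * ‖f x0‖) * dist x y := by ring
  · refine ⟨0, le_refl _, fun x hx => ?_⟩
    exact absurd ⟨x, hx⟩ hne

theorem Aed_Sz_star {f : ℝ × ℝ → ℂ} (hf : Aed_Sz f) : Aed_Sz (fun x => star (f x)) := by
  intro d hd
  obtain ⟨K, hK0, hK⟩ := hf d hd
  refine ⟨K, hK0, fun x hx y hy => ?_⟩
  rw [← star_sub, norm_star]
  exact hK x hx y hy

theorem Aed_Sz_det {m : ℕ} {F : ℝ × ℝ → Mt m} (hF : ∀ i j, Aed_Sz (fun x => F x i j)) :
    Aed_Sz (fun x => (F x).det) := by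
  have e : (fun x => (F x).det) =
      fun x => ∑ σ : Equiv.Perm (Fin m), ((Equiv.Perm.sign σ : ℤ) : ℂ) * ∏ i, F x (σ i) i := by
    funext x
    rw [Matrix.det_apply']
  rw [e]
  refine Aed_Sz_sum _ (fun (σ : Equiv.Perm (Fin m)) (x : ℝ × ℝ) =>
    ((Equiv.Perm.sign σ : ℤ) : ℂ) * ∏ i, F x (σ i) i) ?_
  intro σ _
  refine Aed_Sz_mul (Aed_Sz_const _) ?_
  exact Aed_Sz_prod _ (fun i x => F x (σ i) i) (fun i _ => hF (σ i) i)

theorem lz_cont {m : ℕ} {F : ℝ × ℝ → Mt m} (h : Lz F) (i j : Fin m) :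
    ContinuousOn (fun x => F x i j) (D \ P) :=
  Aed_Sz_cont (Aed_lz_iff.1 h i j)

theorem Aed_Sz_ae {f : ℝ × ℝ → ℂ} (hf : Aed_Sz f) :
    ∀ᵐ x ∂(volume.restrict U), DifferentiableAt ℝ f x := by
  obtain ⟨V, hV⟩ : ∃ V : ℕ → Set (ℝ × ℝ),
      V = fun (n : ℕ) => U ∩ ⋂ p ∈ P, {x | 1 / ((n : ℝ) + 1) < dist x p} := ⟨_, rfl⟩
  have hVo : ∀ n, IsOpen (V n) := by
    intro n
    rw [hV]
    refine Aed_U_open.inter ?_
    refine Aed_P_finite.isOpen_biInter ?_
    intro p _
    exact isOpen_lt continuous_const (continuous_id.dist continuous_const)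
  have hVU : U = ⋃ n, V n := by
    ext x
    rw [mem_iUnion]
    constructor
    · intro hx
      obtain ⟨d, hd, hxd⟩ := mem_dd (u_sub hx)
      obtain ⟨n, hn⟩ := exists_nat_one_div_lt hd
      refine ⟨n, ?_⟩
      rw [hV]
      refine ⟨hx, ?_⟩
      simp only [mem_iInter]
      intro p hp
      exact lt_of_lt_of_le hn (hxd.2 p hp)
    · rintro ⟨n, hn⟩
      rw [hV] at hn
      exact hn.1
  have key : ∀ n, ∀ᵐ x ∂(volume.restrict (V n)), DifferentiableAt ℝ f x := by
    intro n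
    have hn0 : (0:ℝ) < 1 / ((n : ℝ) + 1) := by positivity
    obtain ⟨K, hK0, hK⟩ := hf _ hn0
    have hsub : V n ⊆ Dd (1 / ((n : ℝ) + 1)) := by
      intro x hx
      rw [hV] at hx
      refine ⟨(u_sub hx.1).1, fun p hp => ?_⟩
      have := hx.2
      simp only [mem_iInter] at this
      exact (this p hp).le
    have h1 : LipschitzOnWith (Real.toNNReal K) f (V n) := by
      refine LipschitzOnWith.of_dist_le_mul ?_
      intro y hy z hz
      rw [dist_eq_norm, Real.coe_toNNReal K hK0]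
      exact hK y (hsub hy) z (hsub hz)
    have h2 := h1.ae_differentiableWithinAt (μ := volume) (hVo n).measurableSet
    filter_upwards [h2, ae_restrict_mem (hVo n).measurableSet] with x hx hxV
    exact hx.differentiableAt ((hVo n).mem_nhds hxV)
  rw [hVU, ae_restrict_iUnion_iff]
  exact key

theorem lz_ae {m : ℕ} {F : ℝ × ℝ → Mt m} (h : Lz F) :
    ∀ᵐ x ∂(volume.restrict U), ∀ i j, DifferentiableAt ℝ (fun y => F y i j) x := by
  rw [ae_all_iff]
  intro i
  rw [ae_all_iff]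
  intro j
  exact Aed_Sz_ae (Aed_lz_iff.1 h i j)

theorem lz_const {m : ℕ} (A : Mt m) : Lz (fun _ => A) :=
  Aed_lz_iff.2 fun i j => Aed_Sz_const (A i j)

theorem lz_add {m : ℕ} {F G : ℝ × ℝ → Mt m} (hF : Lz F) (hG : Lz G) (c c' : ℂ) :
    Lz (fun x => c • F x + c' • G x) := by
  rw [Aed_lz_iff] at hF hG ⊢
  intro i j
  have h := Aed_Sz_add (Aed_Sz_mul (Aed_Sz_const c) (hF i j)) (Aed_Sz_mul (Aed_Sz_const c') (hG i j))
  have e : (fun x => (c • F x + c' • G x) i j) = fun x => c * F x i j + c' * G x i j := by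
    funext x
    simp [Matrix.add_apply, Matrix.smul_apply]
  rw [e]
  exact h

theorem lz_mul {m : ℕ} {F G : ℝ × ℝ → Mt m} (hF : Lz F) (hG : Lz G) :
    Lz (fun x => F x * G x) := by
  rw [Aed_lz_iff] at hF hG ⊢
  intro i j
  have e : (fun x => (F x * G x) i j) = fun x => ∑ k, F x i k * G x k j := by
    funext x
    rw [Matrix.mul_apply]
  rw [e]
  exact Aed_Sz_sum _ (fun k x => F x i k * G x k j) (fun k _ => Aed_Sz_mul (hF i k) (hG k j))

theorem lz_inv {m : ℕ} {F : ℝ × ℝ → Mt m} (hF : Lz F) (hu : ∀ x ∈ D \ P, IsUnit (F x).det) :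
    Lz (fun x => (F x)⁻¹) := by
  rw [Aed_lz_iff] at hF ⊢
  intro i j
  have e : (fun x => (F x)⁻¹ i j) = fun x => ((F x).det)⁻¹ * (F x).adjugate i j := by
    funext x
    rw [Matrix.inv_def, Matrix.smul_apply, Ring.inverse_eq_inv', smul_eq_mul]
  rw [e]
  refine Aed_Sz_mul (Aed_Sz_inv (Aed_Sz_det hF) fun x hx => (hu x hx).ne_zero) ?_
  have e2 : (fun x => (F x).adjugate i j) =
      fun x => ((F x).updateRow j (Pi.single i 1)).det := by
    funext x
    rw [Matrix.adjugate_apply]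
  rw [e2]
  refine Aed_Sz_det (F := fun x => (F x).updateRow j (Pi.single i 1)) ?_
  intro a b
  by_cases hab : a = j
  · have e3 : (fun x => (F x).updateRow j (Pi.single i 1) a b) =
        fun _ => (Pi.single i 1 : Fin m → ℂ) b := by
      funext x
      rw [hab, Matrix.updateRow_self]
    rw [e3]
    exact Aed_Sz_const _
  · have e3 : (fun x => (F x).updateRow j (Pi.single i 1) a b) = fun x => F x a b := by
      funext x
      rw [Matrix.updateRow_ne hab]
    rw [e3]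
    exact hF a b

theorem lz_star {m : ℕ} {F : ℝ × ℝ → Mt m} (hF : Lz F) : Lz (fun x => (F x)ᴴ) := by
  rw [Aed_lz_iff] at hF ⊢
  intro i j
  exact Aed_Sz_star (hF j i)

theorem lz_bd {m : ℕ} {F : ℝ × ℝ → Mt m} (hF : Lz F) {d : ℝ} (hd : 0 < d) :
    ∃ R : ℝ, 0 ≤ R ∧ ∀ x ∈ Dd d, ∀ i j, ‖F x i j‖ ≤ R := by
  rw [Aed_lz_iff] at hF
  choose R hR0 hR using fun i j => Aed_Sz_bd (hF i j) hd
  refine ⟨∑ i, ∑ j, R i j, Finset.sum_nonneg fun i _ => Finset.sum_nonneg fun j _ => hR0 i j,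
    fun x hx i j => (hR i j x hx).trans ?_⟩
  calc R i j ≤ ∑ j, R i j :=
        Finset.single_le_sum (f := fun j => R i j) (fun j _ => hR0 i j) (Finset.mem_univ j)
    _ ≤ ∑ i, ∑ j, R i j :=
        Finset.single_le_sum (f := fun i => ∑ j, R i j)
          (fun i _ => Finset.sum_nonneg fun j _ => hR0 i j) (Finset.mem_univ i)

end H80HM
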