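import Pool.Agent.H80.HM.Nc1

set_option autoImplicit false

/-!
# Row Nb1: truncation and uniform integrability

trunc_int. Let phi be a truncation (Tr M phi), K := Kf (fun t => t - phi t) H G in Cl (kf_cl: derivative 1 - phi' in [0,1]),
 Kp := Kf phi H G in Cl, Bs := {x in U : M^2/4 <= Re tr(X^2)}, X = Xf phi H G. E0 = form (1,0,1), Ek = form ck s p r.
 (a) by trunc (row Pi2) a.e. and integration: Ek Kp + Ek K <= Ek H + Ek G.
 (b) claim Ek K - Ek H >= -4ep - 4 S^2 int_Bs e(H), S = sinh s <= 1/4, e = qc e f (1,0,1).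
   mid := Kf hf H K in Cl; g := gap e f H K >= 0, int g = E0 H + E0 K - 2E0 mid and E0 mid >= E0 H - ep, so E0 K - E0 H >= int g - 2ep.
   Ek = cosh s E0 + S Q', Q' = int qc e f (p,r,-p). OUTSIDE Bs: U minus Bs is open (Re tr X^2 is continuous on U), and there
   sum phi(lam_i)^2 < M^2/4 (tr_fcal_sq, exists_fr), so |phi(lam_i)| < M/2 hence |lam_i| < M/2 (phi is odd, monotone, phi(M/2) = M/2) and
   phi(lam_i) = lam_i, so K = fcal (exp(0)) .. H = H (fcal_loc, kf_zero) on the open set U minus Bs, so all densities of K and H agree there.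
   Therefore |Q' K - Q' H| <= int_Bs (2 sqrt(2g) sqrt(e(H)) + 2g) (q_ck) and 2 sqrt2 S sqrt(g) sqrt(e) <= g/2 + 4 S^2 e:
   Ek K - Ek H >= cosh s (int g - 2ep) - int g/2 - 4S^2 int_Bs e - 2S int g >= -2 cosh s ep - 4S^2 int_Bs e (S <= 1/4, cosh s >= 1),
   cosh s <= 2.
 Sum: Ek Kp <= Ek H + Ek G - Ek K <= Ek G + 4ep + 4S^2 int_Bs e(H).
e_unif: e_compare (row Pi1) a.e. with G = R: e(H) <= 2e(R) + 4gap(H,R); integrate over the measurable set Bs contained in U, gap >= 0, gap_ref.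
-/

namespace H80HM

open Matrix MeasureTheory Set
open scoped ComplexOrder

variable {m : ℕ} {A B C : Mt m} {H G : ℝ × ℝ → Mt m}

/-- the set where the truncated difference is not small -/
def Bs (M : ℝ) (X : ℝ × ℝ → Mt m) : Set (ℝ × ℝ) :=
  {x | x ∈ U ∧ M ^ 2 / 4 ≤ (trace (X x * X x)).re}

theorem Nb1_tr_cont {X : ℝ × ℝ → Mt m} (hX : Lz X) :
    ContinuousOn (fun x => (trace (X x * X x)).re) U := by
  have h1 : ∀ i j, ContinuousOn (fun x => X x i j) U := fun i j => (lz_cont hX i j).mono u_sub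
  have h2 : ContinuousOn (fun x => trace (X x * X x)) U := by
    have h3 : (fun x => trace (X x * X x)) = fun x => ∑ i, ∑ k, X x i k * X x k i := by
      funext x
      simp only [trace, diag, Matrix.mul_apply]
    rw [h3]
    exact continuousOn_finsetSum _ fun i _ => continuousOn_finsetSum _ fun k _ =>
      (h1 i k).mul (h1 k i)
  exact Complex.continuous_re.comp_continuousOn h2

theorem Nb1_open {X : ℝ × ℝ → Mt m} (hX : Lz X) (M : ℝ) : IsOpen (U \ Bs M X) := by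
  have h1 : U \ Bs M X = U ∩ (fun x => (trace (X x * X x)).re) ⁻¹' (Iio (M ^ 2 / 4)) := by
    ext x
    simp only [Bs, mem_sdiff, mem_ofPred_eq, mem_inter_iff, mem_preimage, mem_Iio, not_and, not_le]
    constructor
    · rintro ⟨h2, h3⟩
      exact ⟨h2, h3 h2⟩
    · rintro ⟨h2, h3⟩
      exact ⟨h2, fun _ => h3⟩
  rw [h1]
  exact (Nb1_tr_cont hX).isOpen_inter_preimage Mea_isOpen isOpen_Iio

theorem Nb1_bs_sub (M : ℝ) (X : ℝ × ℝ → Mt m) : Bs M X ⊆ U := fun _ h => h.1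

theorem bs_meas (hA : IsUnit A.det) (hB : IsUnit B.det) (hC : IsUnit C.det)
    (hH : Cl A B C H) (hG : Cl A B C G) {phi : ℝ → ℝ} (hc : ContDiff ℝ 1 phi) (M : ℝ) :
    MeasurableSet (Bs M (Xf phi H G)) := by
  have h1 := Nb1_open (xf_fd hA hB hC hH hG hc).lip M
  have h2 : Bs M (Xf phi H G) = U \ (U \ Bs M (Xf phi H G)) := by
    rw [sdiff_sdiff_cancel_left (Nb1_bs_sub _ _)]
  rw [h2]
  exact Mea_isOpen.measurableSet.diff h1.measurableSet

theorem Nb1_qc_congr {K H : ℝ × ℝ → Mt m} {x : ℝ × ℝ} (h : ∀ᶠ y in nhds x, K y = H y)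
    (e f : ℝ × ℝ) (c : ℝ × ℝ × ℝ) : qc e f c K x = qc e f c H x := by
  have h0 : K x = H x := h.self_of_nhds
  have h1 : ∀ t, pd t K x = pd t H x := by
    intro t
    ext i j
    show fderiv ℝ (fun y => K y i j) x t = fderiv ℝ (fun y => H y i j) x t
    have h2 : (fun y => K y i j) =ᶠ[nhds x] (fun y => H y i j) := by
      filter_upwards [h] with y hy
      rw [hy]
    rw [h2.fderiv_eq]
  have h2 : ∀ t, aa t K x = aa t H x := by
    intro t
    unfold aa
    rw [h1, h0]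
  have h3 : ∀ t t', q t t' K x = q t t' H x := by
    intro t t'
    unfold q
    rw [h2, h2]
  unfold qc
  rw [h3, h3, h3]

theorem Nb1_eq {H G : ℝ × ℝ → Mt m} {M : ℝ} (hM : 0 < M) {phi : ℝ → ℝ} (htr : Tr M phi)
    (hH : Cl A B C H) (hG : Cl A B C G) {x : ℝ × ℝ} (hx : x ∈ U \ Bs M (Xf phi H G)) :
    Kf (fun t => t - phi t) H G x = H x := by
  have hxD := u_sub hx.1
  have pH := hH.pos x hxD
  have pG := hG.pos x hxD
  obtain ⟨Q, lam, hQ⟩ := exists_fr pH pG
  have h1 : (trace (Xf phi H G x * Xf phi H G x)).re = ∑ i, phi (lam i) ^ 2 := tr_fcal_sq hQ phi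
  have h2 : ∑ i, phi (lam i) ^ 2 < M ^ 2 / 4 := by
    rw [← h1]
    by_contra h3
    exact hx.2 ⟨hx.1, not_lt.1 h3⟩
  have hmono := (Pi2_mono htr.cd htr.d0 htr.d1).1
  have h3 : ∀ i, phi (lam i) = lam i := by
    intro i
    have h4 : phi (lam i) ^ 2 < (M / 2) ^ 2 := by
      have h5 : phi (lam i) ^ 2 ≤ ∑ j, phi (lam j) ^ 2 :=
        Finset.single_le_sum (f := fun j => phi (lam j) ^ 2) (fun j _ => sq_nonneg _)
          (Finset.mem_univ i)
      have h6 : (M / 2) ^ 2 = M ^ 2 / 4 := by ring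
      rw [h6]
      exact h5.trans_lt h2
    have h7 := abs_lt_of_sq_lt_sq' h4 (by positivity)
    apply htr.idn
    rw [abs_le]
    constructor
    · by_contra h8
      have h9 : phi (lam i) ≤ phi (-(M / 2)) := hmono (not_le.1 h8).le
      rw [htr.idn (-(M / 2)) (by rw [abs_neg, abs_of_pos (by positivity)])] at h9
      linarith [h7.1]
    · by_contra h8
      have h9 : phi (M / 2) ≤ phi (lam i) := hmono (not_le.1 h8).le
      rw [htr.idn (M / 2) (by rw [abs_of_pos (by positivity)])] at h9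
      linarith [h7.2]
  show fcal (fun t => Real.exp (t - phi t)) (H x) (G x) * H x = H x
  have h4 : fcal (fun t => Real.exp (t - phi t)) (H x) (G x) =
      fcal (fun _ => Real.exp 0) (H x) (G x) := by
    apply fcal_loc hQ
    intro i
    show Real.exp (lam i - phi (lam i)) = Real.exp 0
    rw [h3 i, sub_self]
  rw [h4]
  exact kf_zero pH pG

theorem Nb1_psd {s p r : ℝ} (hpr : p ^ 2 + r ^ 2 = 1) (hs : 0 ≤ s) : Psd (ck s p r) := by
  have hS : 0 ≤ Real.sinh s := Real.sinh_nonneg_iff.2 hs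
  have hc : Real.sinh s < Real.cosh s := Real.sinh_lt_cosh s
  have hp : |p| ≤ 1 := by
    rw [abs_le]
    constructor <;> nlinarith [sq_nonneg r, sq_nonneg (p - 1), sq_nonneg (p + 1)]
  obtain ⟨hp1, hp2⟩ := abs_le.1 hp
  refine ⟨?_, ?_, ?_⟩
  · show 0 ≤ Real.cosh s + Real.sinh s * p
    nlinarith
  · show 0 ≤ Real.cosh s - Real.sinh s * p
    nlinarith
  · show (Real.sinh s * r) ^ 2 ≤ (Real.cosh s + Real.sinh s * p) * (Real.cosh s - Real.sinh s * p)
    have h1 := Real.cosh_sq s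
    have h2 : (Real.cosh s + Real.sinh s * p) * (Real.cosh s - Real.sinh s * p) -
        (Real.sinh s * r) ^ 2 = Real.cosh s ^ 2 - Real.sinh s ^ 2 * (p ^ 2 + r ^ 2) := by ring
    rw [hpr, h1] at h2
    linarith

theorem Nb1_cosh {s : ℝ} (hs : 0 ≤ s) (hs' : Real.sinh s ≤ 1 / 4) :
    1 ≤ Real.cosh s ∧ Real.cosh s ≤ 2 := by
  have hS : 0 ≤ Real.sinh s := Real.sinh_nonneg_iff.2 hs
  have h1 := Real.cosh_sq s
  have h2 := Real.one_le_cosh s
  refine ⟨h2, ?_⟩
  nlinarith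

theorem Nb1_qck (e f : ℝ × ℝ) (s p r : ℝ) (F : ℝ × ℝ → Mt m) (x : ℝ × ℝ) :
    qc e f (ck s p r) F x = Real.cosh s * qc e f (1, 0, 1) F x +
      Real.sinh s * qc e f (p, r, -p) F x := by
  unfold qc ck
  ring

theorem Nb1_amgm {S g E : ℝ} (hS : 0 ≤ S) (hS' : S ≤ 1 / 4) (hg : 0 ≤ g) (hE : 0 ≤ E) :
    S * (2 * Real.sqrt (2 * g) * Real.sqrt E + 2 * g) ≤ g + 4 * S ^ 2 * E := by
  have h1 : Real.sqrt (2 * g) ^ 2 = 2 * g := Real.sq_sqrt (by positivity)
  have h2 : Real.sqrt E ^ 2 = E := Real.sq_sqrt hE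
  have h3 : 0 ≤ (Real.sqrt (2 * g) / 2 - 2 * S * Real.sqrt E) ^ 2 := sq_nonneg _
  have h4 : (Real.sqrt (2 * g) / 2 - 2 * S * Real.sqrt E) ^ 2 =
      Real.sqrt (2 * g) ^ 2 / 4 - 2 * S * (Real.sqrt (2 * g) * Real.sqrt E) +
        4 * S ^ 2 * Real.sqrt E ^ 2 := by ring
  rw [h4, h1, h2] at h3
  have h5 : S * (2 * g) ≤ g / 2 := by nlinarith
  have h6 : S * (2 * Real.sqrt (2 * g) * Real.sqrt E + 2 * g) =
      2 * S * (Real.sqrt (2 * g) * Real.sqrt E) + S * (2 * g) := by ring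
  rw [h6]
  linarith

theorem Nb1_pt {e f : ℝ × ℝ} {s p r : ℝ} (hpr : p ^ 2 + r ^ 2 = 1) (hs : 0 ≤ s)
    (hs' : Real.sinh s ≤ 1 / 4) {H K : ℝ × ℝ → Mt m} {x : ℝ × ℝ} (h : PtD H K x)
    (hE : 0 ≤ qc e f (1, 0, 1) H x) :
    Real.cosh s * (qc e f (1, 0, 1) K x - qc e f (1, 0, 1) H x) - gap e f H K x -
        4 * Real.sinh s ^ 2 * qc e f (1, 0, 1) H x ≤
      qc e f (ck s p r) K x - qc e f (ck s p r) H x := by
  have hS : 0 ≤ Real.sinh s := Real.sinh_nonneg_iff.2 hs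
  have h1 := q_ck h e f hpr
  have h2 := Nb1_amgm hS hs' (gap_nonneg h e f) hE
  have h3 := neg_abs_le (qc e f (p, r, -p) K x - qc e f (p, r, -p) H x)
  have h4 : Real.sinh s * |qc e f (p, r, -p) K x - qc e f (p, r, -p) H x| ≤
      gap e f H K x + 4 * Real.sinh s ^ 2 * qc e f (1, 0, 1) H x :=
    (mul_le_mul_of_nonneg_left h1 hS).trans h2
  have h5 : -(Real.sinh s * |qc e f (p, r, -p) K x - qc e f (p, r, -p) H x|) ≤
      Real.sinh s * (qc e f (p, r, -p) K x - qc e f (p, r, -p) H x) := by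
    rw [← mul_neg]
    exact mul_le_mul_of_nonneg_left h3 hS
  rw [Nb1_qck, Nb1_qck]
  linarith

theorem Nb1_pt2 {e f : ℝ × ℝ} {s p r : ℝ} {H K : ℝ × ℝ → Mt m} {x : ℝ × ℝ} (h : PtD H K x)
    (hq : ∀ c, qc e f c K x = qc e f c H x) :
    Real.cosh s * (qc e f (1, 0, 1) K x - qc e f (1, 0, 1) H x) - gap e f H K x ≤
      qc e f (ck s p r) K x - qc e f (ck s p r) H x := by
  have h1 := gap_nonneg h e f
  rw [hq, hq, sub_self, sub_self, mul_zero]
  linarith

theorem trunc_int (hA : IsUnit A.det) (hB : IsUnit B.det) (hC : IsUnit C.det) {e f : ℝ × ℝ}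
    {ep s p r M : ℝ} (hpr : p ^ 2 + r ^ 2 = 1) (hs : 0 ≤ s) (hs' : Real.sinh s ≤ 1 / 4)
    (hep : 0 ≤ ep) (hM : 0 < M) {phi : ℝ → ℝ} (htr : Tr M phi)
    (hH : NM e f (1, 0, 1) A B C ep H) (hG : Cl A B C G) :
    En e f (ck s p r) (Kf phi H G) ≤ En e f (ck s p r) G + 4 * ep +
      4 * Real.sinh s ^ 2 * ∫ x in Bs M (Xf phi H G), qc e f (1, 0, 1) H x := by
  obtain ⟨hHc, hHm⟩ := hH
  have hpm := Pi2_mono htr.cd htr.d0 htr.d1
  set psi : ℝ → ℝ := fun t => t - phi t with hpsi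
  have hpsic : ContDiff ℝ 1 psi := contDiff_id.sub htr.cd
  have hpsi0 : ∀ t, 0 ≤ deriv psi t := fun t => by
    rw [hpm.2.2 t]
    linarith [htr.d1 t]
  have hpsi1 : ∀ t, deriv psi t ≤ 1 := fun t => by
    rw [hpm.2.2 t]
    linarith [htr.d0 t]
  have hKp : Cl A B C (Kf phi H G) := kf_cl hA hB hC hHc hG htr.cd htr.d0 htr.d1
  have hK : Cl A B C (Kf psi H G) := kf_cl hA hB hC hHc hG hpsic hpsi0 hpsi1
  have hmid : Cl A B C (Kf hf H (Kf psi H G)) := kf_cl hA hB hC hHc hK Pi2_hf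
    (fun t => by rw [Pi2_hf_deriv]; norm_num) (fun t => by rw [Pi2_hf_deriv]; norm_num)
  have hUm : MeasurableSet (U : Set (ℝ × ℝ)) := Mea_isOpen.measurableSet
  have hBm : MeasurableSet (Bs M (Xf phi H G)) := bs_meas hA hB hC hHc hG htr.cd M
  have hpsd : Psd (ck s p r) := Nb1_psd hpr hs
  -- part (a)
  have ha : En e f (ck s p r) (Kf phi H G) + En e f (ck s p r) (Kf psi H G) ≤
      En e f (ck s p r) H + En e f (ck s p r) G := by
    unfold En
    rw [← integral_add (qc_int hKp e f _) (qc_int hK e f _),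
      ← integral_add (qc_int hHc e f _) (qc_int hG e f _)]
    refine integral_mono_ae ((qc_int hKp e f _).add (qc_int hK e f _))
      ((qc_int hHc e f _).add (qc_int hG e f _)) ?_
    filter_upwards [ptd_ae hHc hG] with x hx
    exact trunc hx htr.cd htr.d0 htr.d1 e f hpsd
  -- part (b)
  have hgi := gap_int hA hB hC hHc hK e f
  have hgap := int_gap hA hB hC hHc hK e f
  have hg0 : 0 ≤ ∫ x in U, gap e f H (Kf psi H G) x := by
    refine integral_nonneg_of_ae ?_
    filter_upwards [ptd_ae hHc hK] with x hx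
    exact gap_nonneg hx e f
  have hEI := (qc_int hHc e f (1, 0, 1)).indicator hBm
  have hb : Real.cosh s * (En e f (1, 0, 1) (Kf psi H G) - En e f (1, 0, 1) H) -
      (∫ x in U, gap e f H (Kf psi H G) x) -
      4 * Real.sinh s ^ 2 * (∫ x in Bs M (Xf phi H G), qc e f (1, 0, 1) H x) ≤
      En e f (ck s p r) (Kf psi H G) - En e f (ck s p r) H := by
    have e1 : ∫ x in Bs M (Xf phi H G), qc e f (1, 0, 1) H x =
        ∫ x in U, (Bs M (Xf phi H G)).indicator (qc e f (1, 0, 1) H) x := by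
      rw [setIntegral_indicator hBm, inter_eq_right.2 (Nb1_bs_sub _ _)]
    have i1 := (qc_int hK e f (1, 0, 1)).sub (qc_int hHc e f (1, 0, 1))
    have i2 : Integrable (fun x => Real.cosh s *
        (qc e f (1, 0, 1) (Kf psi H G) x - qc e f (1, 0, 1) H x)) (volume.restrict U) :=
      i1.const_mul (Real.cosh s)
    have i4 : Integrable (fun x => Real.cosh s *
        (qc e f (1, 0, 1) (Kf psi H G) x - qc e f (1, 0, 1) H x) -
          gap e f H (Kf psi H G) x) (volume.restrict U) := i2.sub hgi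
    have i3 := hEI.const_mul (4 * Real.sinh s ^ 2)
    have e2 : Real.cosh s * (En e f (1, 0, 1) (Kf psi H G) - En e f (1, 0, 1) H) -
        (∫ x in U, gap e f H (Kf psi H G) x) -
        4 * Real.sinh s ^ 2 * (∫ x in Bs M (Xf phi H G), qc e f (1, 0, 1) H x) =
        ∫ x in U, (Real.cosh s * (qc e f (1, 0, 1) (Kf psi H G) x - qc e f (1, 0, 1) H x) -
          gap e f H (Kf psi H G) x -
          4 * Real.sinh s ^ 2 * (Bs M (Xf phi H G)).indicator (qc e f (1, 0, 1) H) x) := by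
      unfold En
      rw [e1, ← integral_sub (qc_int hK e f _) (qc_int hHc e f _), ← integral_const_mul,
        ← integral_const_mul, ← integral_sub i2 hgi, ← integral_sub i4 i3]
    have e3 : En e f (ck s p r) (Kf psi H G) - En e f (ck s p r) H =
        ∫ x in U, (qc e f (ck s p r) (Kf psi H G) x - qc e f (ck s p r) H x) := by
      unfold En
      rw [← integral_sub (qc_int hK e f _) (qc_int hHc e f _)]
    rw [e2, e3]
    refine integral_mono_ae (i4.sub i3)
      ((qc_int hK e f _).sub (qc_int hHc e f _)) ?_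
    filter_upwards [ptd_ae hHc hK, ae_restrict_mem hUm] with x hx hxU
    show Real.cosh s * (qc e f (1, 0, 1) (Kf psi H G) x - qc e f (1, 0, 1) H x) -
          gap e f H (Kf psi H G) x -
          4 * Real.sinh s ^ 2 * (Bs M (Xf phi H G)).indicator (qc e f (1, 0, 1) H) x ≤
      qc e f (ck s p r) (Kf psi H G) x - qc e f (ck s p r) H x
    by_cases hxB : x ∈ Bs M (Xf phi H G)
    · rw [indicator_of_mem hxB]
      refine Nb1_pt hpr hs hs' hx ?_
      exact qc_nonneg (pos_near hHc.pos hxU) e f ⟨zero_le_one, zero_le_one, by norm_num⟩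
    · rw [indicator_of_notMem hxB, mul_zero, sub_zero]
      refine Nb1_pt2 hx fun c => ?_
      apply Nb1_qc_congr
      filter_upwards [(Nb1_open (xf_fd hA hB hC hHc hG htr.cd).lip M).mem_nhds ⟨hxU, hxB⟩]
        with y hy
      exact Nb1_eq hM htr hHc hG hy
  have hm := hHm _ hmid
  obtain ⟨hc1, hc2⟩ := Nb1_cosh hs hs'
  have h5 : (∫ x in U, gap e f H (Kf psi H G) x) - 2 * ep ≤
      En e f (1, 0, 1) (Kf psi H G) - En e f (1, 0, 1) H := by
    rw [hgap]
    linarith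
  have h6 : Real.cosh s * ((∫ x in U, gap e f H (Kf psi H G) x) - 2 * ep) ≤
      Real.cosh s * (En e f (1, 0, 1) (Kf psi H G) - En e f (1, 0, 1) H) :=
    mul_le_mul_of_nonneg_left h5 (by linarith)
  have h7 : (∫ x in U, gap e f H (Kf psi H G) x) ≤
      Real.cosh s * (∫ x in U, gap e f H (Kf psi H G) x) := by
    nlinarith
  have h8 : Real.cosh s * (2 * ep) ≤ 4 * ep := by nlinarith
  have h9 : Real.cosh s * ((∫ x in U, gap e f H (Kf psi H G) x) - 2 * ep) =
      Real.cosh s * (∫ x in U, gap e f H (Kf psi H G) x) - Real.cosh s * (2 * ep) := by ring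
  rw [h9] at h6
  linarith

theorem e_unif (hA : IsUnit A.det) (hB : IsUnit B.det) (hC : IsUnit C.det) {e f : ℝ × ℝ}
    {ep eta : ℝ} {R : ℝ × ℝ → Mt m} (hH : NM e f (1, 0, 1) A B C ep H)
    (hR : NM e f (1, 0, 1) A B C eta R) {S : Set (ℝ × ℝ)} (hS : MeasurableSet S)
    (hSU : S ⊆ U) :
    ∫ x in S, qc e f (1, 0, 1) H x ≤
      2 * (∫ x in S, qc e f (1, 0, 1) R x) + 4 * (ep + eta) := by
  have hgi := gap_int hA hB hC hH.1 hR.1 e f
  have hgr := gap_ref hA hB hC hH hR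
  have hp : ∀ᵐ x ∂(volume.restrict U), PtD H R x := ptd_ae hH.1 hR.1
  have hpS : ∀ᵐ x ∂(volume.restrict S), PtD H R x := ae_restrict_of_ae_restrict_of_subset hSU hp
  have h1 : ∫ x in S, gap e f H R x ≤ ∫ x in U, gap e f H R x := by
    refine setIntegral_mono_set hgi ?_ (HasSubset.Subset.eventuallyLE hSU)
    filter_upwards [hp] with x hx
    exact gap_nonneg hx e f
  have iH := (qc_int hH.1 e f (1, 0, 1)).mono_set hSU
  have iR := ((qc_int hR.1 e f (1, 0, 1)).mono_set hSU).const_mul 2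
  have ig := (hgi.mono_set hSU).const_mul 4
  have h2 : ∫ x in S, qc e f (1, 0, 1) H x ≤
      ∫ x in S, (2 * qc e f (1, 0, 1) R x + 4 * gap e f H R x) := by
    refine integral_mono_ae iH (iR.add ig) ?_
    filter_upwards [hpS] with x hx
    exact e_compare hx e f
  rw [integral_add iR ig, integral_const_mul, integral_const_mul] at h2
  linarith

end H80HM
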