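import Pool.Agent.H80.HM.Wzi
import Pool.Agent.H80.HM.Nb1
import Pool.Agent.H80.HM.Def2

set_option autoImplicit false

/-!
# Row Asm: assembly of the four point inequality

Notation: p = pk k, r = rk k (p^2+r^2 = 1 for every k), S = sinh s, E = En e f (1,0,1) H, X_k = Xf phi H (G k), beta_k = int over Bs M X_k of qc e f (1,0,1) H,
dE(X) = int (ln e e H X + ln f f H X), ||dX||^2 = int (dn e H X + dn f H X).
(1) trunc_int (row Nb1) + kf_lower_int (row Nl1):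
 En e f (ck s p r)(G k) >= En e f (ck s p r) H + cosh s dE(X_k) + S l_k + (exp(-2M-s)/4)||dX_k||^2 - 4ep - 4S^2 beta_k,
 l_k = int (p (ln ee - ln ff)(X_k) + r (ln ef + ln fe)(X_k)).
(2) sum_k En e f (ck s p r) H = 4 cosh s E (en_lin; sum of the forms is (4cosh s, 0, 4 cosh s)).
(3) X := (1/2)(X_0 - X_2), X' := (1/2)(X_1 - X_3): fields in Fd, selfadjoint, n2 <= m M^2 + .. <= (some M')^2 (n2_tri), dn integrable (xf_dn_int, pd_add, n2_tri; |phi| <= M <= 1).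
 sum_k l_k = int [(ln ee - ln ff)(X_0) - (ln ee - ln ff)(X_2) + (ln ef + ln fe)(X_1) - (ln ef + ln fe)(X_3)] = 2 int [(ln ee - ln ff)(X) + (ln ef + ln fe)(X')]
 (ln is linear in the field at points of differentiability, pd_add, a.e.), so |sum l_k| <= 2 sqrt(E) sqrt(Nn) with Nn := ||dX||^2 + ||dX'||^2 (lin_int).
(4) ||dX||^2 <= (1/4) 2 (||dX_0||^2 + ||dX_2||^2), so sum_k ||dX_k||^2 >= 2 Nn.
(5) with c = exp(-2M-s): sum >= 4cosh s E - cosh s sum|dE(X_k)| - 2S sqrt(E Nn) + (c/2) Nn - 16ep - 4S^2 sum beta_k and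
 (c/2)Nn - 2S sqrt(E)sqrt(Nn) >= -2S^2E/c = -2S^2 exp(2M+s) E (complete the square).
-/

namespace H80HM

open Matrix MeasureTheory Set
open scoped ComplexOrder

variable {m : ℕ} {A B C : Mt m} {H : ℝ × ℝ → Mt m}

/-- half difference of two fields -/
noncomputable def Asm_Y {m : ℕ} (X Z : ℝ × ℝ → Mt m) (x : ℝ × ℝ) : Mt m :=
  (1 / 2 : ℂ) • X x + (-(1 / 2) : ℂ) • Z x

theorem Asm_fd {X Z : ℝ × ℝ → Mt m} (h : Fd A B C X) (h' : Fd A B C Z) :
    Fd A B C (Asm_Y X Z) where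
  lip := lz_add h.lip h'.lip _ _
  glC := fun v hv => by
    unfold Asm_Y
    rw [Matrix.add_mul, Matrix.mul_add, Matrix.smul_mul, Matrix.mul_smul, Matrix.smul_mul,
      Matrix.mul_smul, h.glC v hv, h'.glC v hv]
  glA := fun v hv => by
    unfold Asm_Y
    rw [Matrix.add_mul, Matrix.mul_add, Matrix.smul_mul, Matrix.mul_smul, Matrix.smul_mul,
      Matrix.mul_smul, h.glA v hv, h'.glA v hv]
  glB := fun v hv => by
    unfold Asm_Y
    rw [Matrix.add_mul, Matrix.mul_add, Matrix.smul_mul, Matrix.mul_smul, Matrix.smul_mul,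
      Matrix.mul_smul, h.glB v hv, h'.glB v hv]

theorem Asm_sa {H X Z : ℝ × ℝ → Mt m} {x : ℝ × ℝ} (h : X x * H x = H x * (X x)ᴴ)
    (h' : Z x * H x = H x * (Z x)ᴴ) : Asm_Y X Z x * H x = H x * (Asm_Y X Z x)ᴴ := by
  unfold Asm_Y
  have e1 : star (1 / 2 : ℂ) = 1 / 2 := by
    rw [Complex.star_def, map_div₀, map_one, Complex.conj_ofNat]
  have e2 : star (-(1 / 2) : ℂ) = -(1 / 2) := by rw [star_neg, e1]
  rw [Matrix.conjTranspose_add, Matrix.conjTranspose_smul, Matrix.conjTranspose_smul, e1, e2,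
    Matrix.add_mul, Matrix.mul_add, Matrix.smul_mul, Matrix.mul_smul, Matrix.smul_mul,
    Matrix.mul_smul, h, h']

theorem Asm_half {H : Mt m} (hH : H.PosDef) (Y Z : Mt m) :
    n2 H ((1 / 2 : ℂ) • Y + (-(1 / 2) : ℂ) • Z) ≤ (1 / 2) * (n2 H Y + n2 H Z) := by
  refine (n2_tri hH _ _).trans (le_of_eq ?_)
  rw [n2_smul, n2_smul, norm_neg]
  have e1 : ‖(1 / 2 : ℂ)‖ = 1 / 2 := by simp
  rw [e1]
  ring

theorem Asm_dn {H X Z : ℝ × ℝ → Mt m} {x : ℝ × ℝ} (hp : (H x).PosDef)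
    (dX : ∀ i j, DifferentiableAt ℝ (fun y => X y i j) x)
    (dZ : ∀ i j, DifferentiableAt ℝ (fun y => Z y i j) x) (t : ℝ × ℝ) :
    dn t H (Asm_Y X Z) x ≤ (1 / 2) * (dn t H X x + dn t H Z x) := by
  unfold dn
  have e1 : pd t (Asm_Y X Z) x = (1 / 2 : ℂ) • pd t X x + (-(1 / 2) : ℂ) • pd t Z x :=
    pd_add dX dZ _ _ t
  rw [e1]
  exact Asm_half hp _ _

theorem Asm_ln {H X Z : ℝ × ℝ → Mt m} {x : ℝ × ℝ}
    (dX : ∀ i j, DifferentiableAt ℝ (fun y => X y i j) x)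
    (dZ : ∀ i j, DifferentiableAt ℝ (fun y => Z y i j) x) (t t' : ℝ × ℝ) :
    ln t t' H (Asm_Y X Z) x = (1 / 2) * (ln t t' H X x - ln t t' H Z x) := by
  unfold ln
  have e1 : pd t' (Asm_Y X Z) x = (1 / 2 : ℂ) • pd t' X x + (-(1 / 2) : ℂ) • pd t' Z x :=
    pd_add dX dZ _ _ t'
  rw [e1, Matrix.mul_add, Matrix.mul_smul, Matrix.mul_smul, Matrix.trace_add, Matrix.trace_smul,
    Matrix.trace_smul, smul_eq_mul, smul_eq_mul]
  have e2 : (1 / 2 : ℂ) = ((1 / 2 : ℝ) : ℂ) := by norm_num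
  rw [e2, ← Complex.ofReal_neg, Complex.add_re, Complex.re_ofReal_mul, Complex.re_ofReal_mul]
  ring

theorem Asm_dnint (hH : Cl A B C H) {X Z : ℝ × ℝ → Mt m} (h : Fd A B C X) (h' : Fd A B C Z)
    {t : ℝ × ℝ} (d : IntegrableOn (dn t H X) U) (d' : IntegrableOn (dn t H Z) U) :
    IntegrableOn (dn t H (Asm_Y X Z)) U := by
  refine ((d.add d').const_mul (1 / 2)).mono' (dn_meas hH.lip hH.pos (Asm_fd h h').lip t) ?_
  filter_upwards [ae_restrict_mem Mea_isOpen.measurableSet, lz_ae h.lip, lz_ae h'.lip]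
    with x hx dX dX'
  have hp := hH.pos x (u_sub hx)
  have h0 : 0 ≤ dn t H (Asm_Y X Z) x := n2_nonneg hp _
  rw [Real.norm_eq_abs, abs_of_nonneg h0]
  exact Asm_dn hp dX dX' t

theorem Asm_dnle (hH : Cl A B C H) {X Z : ℝ × ℝ → Mt m} (h : Fd A B C X) (h' : Fd A B C Z)
    (e f : ℝ × ℝ) (d : ∀ t, IntegrableOn (dn t H X) U) (d' : ∀ t, IntegrableOn (dn t H Z) U) :
    ∫ x in U, (dn e H (Asm_Y X Z) x + dn f H (Asm_Y X Z) x) ≤
      (1 / 2) * ((∫ x in U, (dn e H X x + dn f H X x)) + ∫ x in U, (dn e H Z x + dn f H Z x)) := by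
  have i1 : IntegrableOn (fun x => dn e H X x + dn f H X x) U := (d e).add (d f)
  have i2 : IntegrableOn (fun x => dn e H Z x + dn f H Z x) U := (d' e).add (d' f)
  have i3 : IntegrableOn (fun x => dn e H (Asm_Y X Z) x + dn f H (Asm_Y X Z) x) U :=
    (Asm_dnint hH h h' (d e) (d' e)).add (Asm_dnint hH h h' (d f) (d' f))
  have i4 : IntegrableOn (fun x => (1 / 2) * ((dn e H X x + dn f H X x) +
      (dn e H Z x + dn f H Z x))) U := (i1.add i2).const_mul _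
  have h1 : ∫ x in U, (dn e H (Asm_Y X Z) x + dn f H (Asm_Y X Z) x) ≤
      ∫ x in U, (1 / 2) * ((dn e H X x + dn f H X x) + (dn e H Z x + dn f H Z x)) := by
    refine integral_mono_ae i3 i4 ?_
    filter_upwards [ae_restrict_mem Mea_isOpen.measurableSet, lz_ae h.lip, lz_ae h'.lip]
      with x hx dX dX'
    have hp := hH.pos x (u_sub hx)
    have e1 := Asm_dn hp dX dX' e
    have e2 := Asm_dn hp dX dX' f
    linarith
  refine h1.trans (le_of_eq ?_)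
  rw [integral_const_mul]
  congr 1
  exact integral_add i1 i2

theorem Asm_lnsum (hH : Cl A B C H) {X Z X' Z' : ℝ × ℝ → Mt m} (h : Fd A B C X) (h' : Fd A B C Z)
    (k : Fd A B C X') (k' : Fd A B C Z') (e f : ℝ × ℝ)
    (d : ∀ t, IntegrableOn (dn t H X) U) (d' : ∀ t, IntegrableOn (dn t H Z) U)
    (g : ∀ t, IntegrableOn (dn t H X') U) (g' : ∀ t, IntegrableOn (dn t H Z') U) :
    2 * (∫ x in U, (ln e e H (Asm_Y X Z) x - ln f f H (Asm_Y X Z) x +
      (ln e f H (Asm_Y X' Z') x + ln f e H (Asm_Y X' Z') x))) =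
    ((∫ x in U, (ln e e H X x - ln f f H X x)) - ∫ x in U, (ln e e H Z x - ln f f H Z x)) +
    ((∫ x in U, (ln e f H X' x + ln f e H X' x)) -
      ∫ x in U, (ln e f H Z' x + ln f e H Z' x)) := by
  have i1 : IntegrableOn (fun x => ln e e H X x - ln f f H X x) U :=
    (ln_int hH h.lip (d e)).sub (ln_int hH h.lip (d f))
  have i2 : IntegrableOn (fun x => ln e e H Z x - ln f f H Z x) U :=
    (ln_int hH h'.lip (d' e)).sub (ln_int hH h'.lip (d' f))
  have i3 : IntegrableOn (fun x => ln e f H X' x + ln f e H X' x) U :=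
    (ln_int hH k.lip (g f)).add (ln_int hH k.lip (g e))
  have i4 : IntegrableOn (fun x => ln e f H Z' x + ln f e H Z' x) U :=
    (ln_int hH k'.lip (g' f)).add (ln_int hH k'.lip (g' e))
  have h1 : ∫ x in U, (ln e e H (Asm_Y X Z) x - ln f f H (Asm_Y X Z) x +
      (ln e f H (Asm_Y X' Z') x + ln f e H (Asm_Y X' Z') x)) =
      ∫ x in U, (1 / 2) * (((ln e e H X x - ln f f H X x) - (ln e e H Z x - ln f f H Z x)) +
        ((ln e f H X' x + ln f e H X' x) - (ln e f H Z' x + ln f e H Z' x))) := by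
    refine integral_congr_ae ?_
    filter_upwards [lz_ae h.lip, lz_ae h'.lip, lz_ae k.lip, lz_ae k'.lip] with x a b c d
    rw [Asm_ln a b, Asm_ln a b, Asm_ln c d, Asm_ln c d]
    ring
  rw [h1, integral_const_mul]
  have h2 : ∫ x in U, (((ln e e H X x - ln f f H X x) - (ln e e H Z x - ln f f H Z x)) +
        ((ln e f H X' x + ln f e H X' x) - (ln e f H Z' x + ln f e H Z' x))) =
      (∫ x in U, ((ln e e H X x - ln f f H X x) - (ln e e H Z x - ln f f H Z x))) +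
        ∫ x in U, ((ln e f H X' x + ln f e H X' x) - (ln e f H Z' x + ln f e H Z' x)) :=
    integral_add (i1.sub i2) (i3.sub i4)
  rw [h2, integral_sub i1 i2, integral_sub i3 i4]
  ring

theorem Asm_sq {S h g c c' N E : ℝ} (hcc : c * c' = 1) (hc : 0 < c) (hg : g * g = N)
    (hh : h * h = E) : -(2 * S ^ 2 * c' * E) ≤ c / 2 * N - 2 * S * h * g := by
  have h1 : 0 ≤ c / 2 * (g - 2 * S * c' * h) ^ 2 := by positivity
  have h2 : c / 2 * (g - 2 * S * c' * h) ^ 2 = c / 2 * (g * g) - 2 * S * (c * c') * h * g +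
      2 * S ^ 2 * (c * c') * c' * (h * h) := by ring
  rw [h2, hcc, hg, hh] at h1
  linarith

theorem asm (hA : IsUnit A.det) (hB : IsUnit B.det) (hC : IsUnit C.det) {e f : ℝ × ℝ}
    {ep s M : ℝ} (hep : 0 ≤ ep) (hs : 0 ≤ s) (hs' : Real.sinh s ≤ 1 / 8)
    (hM : 0 < M) (hM1 : M ≤ 1) {phi : ℝ → ℝ} (htr : Tr M phi) {H : ℝ × ℝ → Mt m}
    (hH : NM e f (1, 0, 1) A B C ep H) (G : Fin 4 → ℝ × ℝ → Mt m)
    (hG : ∀ k, Cl A B C (G k)) :
    4 * Real.cosh s * En e f (1, 0, 1) H -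
      2 * Real.sinh s ^ 2 * Real.exp (2 * M + s) * En e f (1, 0, 1) H ≤
    (∑ k, En e f (ck s (pk k) (rk k)) (G k)) + 16 * ep +
      4 * Real.sinh s ^ 2 * (∑ k, ∫ x in Bs M (Xf phi H (G k)), qc e f (1, 0, 1) H x) +
      Real.cosh s * ∑ k, |∫ x in U, (ln e e H (Xf phi H (G k)) x +
        ln f f H (Xf phi H (G k)) x)| := by
  have hHc : Cl A B C H := hH.1
  have p0 : pk 0 = 1 := rfl
  have p1 : pk 1 = 0 := rfl
  have p2 : pk 2 = -1 := rfl
  have p3 : pk 3 = 0 := rfl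
  have r0 : rk 0 = 0 := rfl
  have r1 : rk 1 = 1 := rfl
  have r2 : rk 2 = 0 := rfl
  have r3 : rk 3 = -1 := rfl
  have hpr : ∀ k, pk k ^ 2 + rk k ^ 2 = 1 := by
    intro k
    fin_cases k <;> simp [pk, rk]
  have hb1 : ∀ t, |phi t| ≤ 1 := fun t => (htr.bd t).trans hM1
  have hX : ∀ k, Fd A B C (Xf phi H (G k)) := fun k => xf_fd hA hB hC hHc (hG k) htr.cd
  have hsa : ∀ k, ∀ x ∈ D \ P, Xf phi H (G k) x * H x = H x * (Xf phi H (G k) x)ᴴ :=
    fun k x hx => xf_sa hHc (hG k) phi hx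
  have hn2 : ∀ k, ∀ x ∈ D \ P, n2 (H x) (Xf phi H (G k) x) ≤ m * M ^ 2 :=
    fun k x hx => xf_n2 hHc (hG k) htr.bd hx
  have hdn : ∀ k t, IntegrableOn (dn t H (Xf phi H (G k))) U :=
    fun k t => xf_dn_int hA hB hC hHc (hG k) htr.cd htr.d0 htr.d1 hb1 t
  set X : Fin 4 → ℝ × ℝ → Mt m := fun k => Xf phi H (G k) with hXdef
  set E := En e f (1, 0, 1) H with hE
  have hE0 : 0 ≤ E := en_nonneg hHc e f Nc1_psd1
  -- one direction
  have key : ∀ k, En e f (ck s (pk k) (rk k)) H +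
      Real.cosh s * (∫ x in U, (ln e e H (X k) x + ln f f H (X k) x)) +
      Real.sinh s * (pk k * (∫ x in U, (ln e e H (X k) x - ln f f H (X k) x)) +
        rk k * (∫ x in U, (ln e f H (X k) x + ln f e H (X k) x))) +
      Real.exp (-2 * M - s) / 4 * (∫ x in U, (dn e H (X k) x + dn f H (X k) x)) ≤
      En e f (ck s (pk k) (rk k)) (G k) + 4 * ep +
        4 * Real.sinh s ^ 2 * ∫ x in Bs M (X k), qc e f (1, 0, 1) H x := by
    intro k
    have t1 := trunc_int hA hB hC (hpr k) hs (by linarith) hep hM htr hH (hG k)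
    have t2 := kf_lower_int (e := e) (f := f) hA hB hC (hpr k) hs hM1 htr hHc (hG k)
    have i1 : IntegrableOn (fun x => ln e e H (X k) x - ln f f H (X k) x) U :=
      (ln_int hHc (hX k).lip (hdn k e)).sub (ln_int hHc (hX k).lip (hdn k f))
    have i2 : IntegrableOn (fun x => ln e f H (X k) x + ln f e H (X k) x) U :=
      (ln_int hHc (hX k).lip (hdn k f)).add (ln_int hHc (hX k).lip (hdn k e))
    have t3 : ∫ x in U, (pk k * (ln e e H (X k) x - ln f f H (X k) x) +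
        rk k * (ln e f H (X k) x + ln f e H (X k) x)) =
        pk k * (∫ x in U, (ln e e H (X k) x - ln f f H (X k) x)) +
        rk k * (∫ x in U, (ln e f H (X k) x + ln f e H (X k) x)) := by
      rw [integral_add (i1.const_mul _) (i2.const_mul _), integral_const_mul, integral_const_mul]
    rw [← t3]
    exact t2.trans t1
  have hsum : ∑ k, En e f (ck s (pk k) (rk k)) H = 4 * Real.cosh s * E := by
    have h1 : ∀ k, En e f (ck s (pk k) (rk k)) H = Real.cosh s * E +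
        Real.sinh s * (pk k * (∫ x in U, q e e H x) + 2 * rk k * (∫ x in U, q e f H x) +
          -pk k * (∫ x in U, q f f H x)) := by
      intro k
      rw [Nc1_ck hHc, en_lin hHc e f (pk k, rk k, -pk k)]
    rw [Fin.sum_univ_four, h1 0, h1 1, h1 2, h1 3, p0, p1, p2, p3, r0, r1, r2, r3]
    ring
  have hD0 : ∀ (Z : ℝ × ℝ → Mt m), 0 ≤ ∫ x in U, (dn e H Z x + dn f H Z x) := by
    intro Z
    refine setIntegral_nonneg Mea_isOpen.measurableSet fun x hx => ?_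
    exact add_nonneg (n2_nonneg (hHc.pos x (u_sub hx)) _) (n2_nonneg (hHc.pos x (u_sub hx)) _)
  have hY := Asm_fd (hX 0) (hX 2)
  have hY' := Asm_fd (hX 1) (hX 3)
  have hbd : ∀ a b : Fin 4, ∀ x ∈ D \ P, n2 (H x) (Asm_Y (X a) (X b) x) ≤
      (Real.sqrt m * M) ^ 2 := by
    intro a b x hx
    refine (Asm_half (hHc.pos x hx) _ _).trans ?_
    rw [mul_pow, Real.sq_sqrt (Nat.cast_nonneg m)]
    linarith [hn2 a x hx, hn2 b x hx]
  have hlin := lin_int hA hB hC hHc hY hY' (fun x hx => Asm_sa (hsa 0 x hx) (hsa 2 x hx))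
    (fun x hx => Asm_sa (hsa 1 x hx) (hsa 3 x hx)) (hbd 0 2) (hbd 1 3)
    (Asm_dnint hHc (hX 0) (hX 2) (hdn 0 _) (hdn 2 _))
    (Asm_dnint hHc (hX 0) (hX 2) (hdn 0 _) (hdn 2 _))
    (Asm_dnint hHc (hX 1) (hX 3) (hdn 1 _) (hdn 3 _))
    (Asm_dnint hHc (hX 1) (hX 3) (hdn 1 _) (hdn 3 _)) e f
  have hls := Asm_lnsum hHc (hX 0) (hX 2) (hX 1) (hX 3) e f (hdn 0) (hdn 2) (hdn 1) (hdn 3)
  have hd1 := Asm_dnle hHc (hX 0) (hX 2) e f (hdn 0) (hdn 2)
  have hd2 := Asm_dnle hHc (hX 1) (hX 3) e f (hdn 1) (hdn 3)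
  have hq1 := hD0 (Asm_Y (X 0) (X 2))
  have hq2 := hD0 (Asm_Y (X 1) (X 3))
  obtain ⟨I, hI⟩ : ∃ I, I = ∫ x in U, (ln e e H (Asm_Y (X 0) (X 2)) x -
      ln f f H (Asm_Y (X 0) (X 2)) x + (ln e f H (Asm_Y (X 1) (X 3)) x +
      ln f e H (Asm_Y (X 1) (X 3)) x)) := ⟨_, rfl⟩
  obtain ⟨N1, hN1⟩ : ∃ N, N = ∫ x in U, (dn e H (Asm_Y (X 0) (X 2)) x +
      dn f H (Asm_Y (X 0) (X 2)) x) := ⟨_, rfl⟩
  obtain ⟨N2, hN2⟩ : ∃ N, N = ∫ x in U, (dn e H (Asm_Y (X 1) (X 3)) x +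
      dn f H (Asm_Y (X 1) (X 3)) x) := ⟨_, rfl⟩
  rw [← hI] at hlin hls
  rw [← hN1] at hlin hd1 hq1
  rw [← hN2] at hlin hd2 hq2
  have hcc : Real.exp (-2 * M - s) * Real.exp (2 * M + s) = 1 := by
    rw [← Real.exp_add]
    have : -2 * M - s + (2 * M + s) = 0 := by ring
    rw [this, Real.exp_zero]
  have hsq := Asm_sq (S := Real.sinh s) (h := Real.sqrt E) (g := Real.sqrt (N1 + N2)) hcc
    (Real.exp_pos _) (Real.mul_self_sqrt (add_nonneg hq1 hq2)) (Real.mul_self_sqrt hE0)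
  have hS0 : 0 ≤ Real.sinh s := Real.sinh_nonneg_iff.2 hs
  have hch : 0 < Real.cosh s := Real.cosh_pos s
  have hIl : -(Real.sqrt E * Real.sqrt (N1 + N2)) ≤ I := (abs_le.1 hlin).1
  have hSI : -(2 * Real.sinh s * Real.sqrt E * Real.sqrt (N1 + N2)) ≤
      Real.sinh s * (2 * I) := by nlinarith
  have habs : ∀ k, -(Real.cosh s * |∫ x in U, (ln e e H (X k) x + ln f f H (X k) x)|) ≤
      Real.cosh s * (∫ x in U, (ln e e H (X k) x + ln f f H (X k) x)) := by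
    intro k
    have h1 := neg_abs_le (∫ x in U, (ln e e H (X k) x + ln f f H (X k) x))
    nlinarith
  have hcp : 0 < Real.exp (-2 * M - s) := Real.exp_pos _
  have k0 := key 0
  have k1 := key 1
  have k2 := key 2
  have k3 := key 3
  have a0 := habs 0
  have a1 := habs 1
  have a2 := habs 2
  have a3 := habs 3
  have hdd : Real.exp (-2 * M - s) / 2 * (N1 + N2) ≤ Real.exp (-2 * M - s) / 4 *
      (((∫ x in U, (dn e H (X 0) x + dn f H (X 0) x)) +
        (∫ x in U, (dn e H (X 2) x + dn f H (X 2) x))) +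
      ((∫ x in U, (dn e H (X 1) x + dn f H (X 1) x)) +
        (∫ x in U, (dn e H (X 3) x + dn f H (X 3) x)))) := by
    have h1 := mul_le_mul_of_nonneg_left (add_le_add hd1 hd2) hcp.le
    linarith
  simp only [Fin.sum_univ_four] at hsum ⊢
  rw [hls] at hSI
  simp only [p0, p1, p2, p3, r0, r1, r2, r3, one_mul, zero_mul, add_zero, zero_add,
    neg_mul] at k0 k1 k2 k3 hsum hSI ⊢
  simp only [neg_mul] at hsq hdd
  linarith

end H80HM
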