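import Pool.Agent.H80.HM.Defs

set_option autoImplicit false

/-!
# Row Sim: simultaneous diagonalisation and the functional calculus fcal

Proofs.
1. exists_fr: H positive definite: H = S S* with S invertible (Mathlib: Matrix.PosDef / PosSemidef sqrt, or LDL, or the spectral
   theorem). The matrix S^{-1} G S^{-*} is positive definite, spectral theorem: = V diag(g) V*, V unitary, g_i > 0. Put Q = S V,
   lam_i = log g_i: Q Q* = S V V* S* = H and Q diag(exp lam) Q* = S (V diag g V*) S* = G.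
2. fr_pos: H = Q Q* = Q 1 Q*, G = Q diag(exp lam) Q* with Q invertible.
3. fcal_eq: let (Q', lam') be the chosen pair. R := Q^{-1} Q' satisfies R R* = 1 (from Q Q* = Q' Q'*) so R is unitary, and
   Q diag(e^lam) Q* = Q' diag(e^lam') Q'* gives diag(e^lam) R = R diag(e^lam') (multiply by Q^{-1} on the left and Q*^{-1} on the right, use
   R* = R^{-1}). Entrywise: (e^{lam_i} - e^{lam'_j}) R_ij = 0, so lam_i = lam'_j whenever R_ij is not 0, hence
   phi(lam_i) R_ij = R_ij phi(lam'_j) for all i, j, i.e. diag(phi lam) R = R diag(phi lam'), i.e.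
   Q' diag(phi lam') Q'^{-1} = Q R diag(phi lam') R^{-1} Q^{-1} = Q diag(phi lam) Q^{-1}.
4. fcal_conj: if FrL H G Q lam then FrL (gHg*) (gGg*) (gQ) lam; use fcal_eq twice: fcal(gHg*, gGg*) = g Q diag Q^{-1} g^{-1}.
-/


namespace H80HM

open Matrix MeasureTheory Set
open scoped ComplexOrder

theorem Sim_spec {m : ℕ} {A : Mt m} (hA : A.PosDef) :
    ∃ (V : Mt m) (h : Fin m → ℝ), V * Vᴴ = 1 ∧ Vᴴ * V = 1 ∧ (∀ i, 0 < h i) ∧
      A = V * diagonal (fun i => ((h i : ℝ) : ℂ)) * Vᴴ := by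
  refine ⟨(hA.isHermitian.eigenvectorUnitary : Mt m), hA.isHermitian.eigenvalues, ?_, ?_, ?_, ?_⟩
  · exact (Unitary.mul_star_self_of_mem hA.isHermitian.eigenvectorUnitary.2)
  · exact (Unitary.star_mul_self_of_mem hA.isHermitian.eigenvectorUnitary.2)
  · exact fun i => hA.eigenvalues_pos i
  · have h := hA.isHermitian.spectral_theorem
    rw [Unitary.conjStarAlgAut_apply] at h
    exact h

theorem Sim_unit {m : ℕ} {V W : Mt m} (h : V * W = 1) : IsUnit V.det := by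
  have := congrArg Matrix.det h
  rw [Matrix.det_mul, Matrix.det_one] at this
  exact IsUnit.of_mul_eq_one _ this

theorem exists_fr {m : ℕ} {H G : Mt m} (hH : H.PosDef) (hG : G.PosDef) :
    ∃ (Q : Mt m) (lam : Fin m → ℝ), FrL H G Q lam := by
  obtain ⟨V, h, hV1, hV2, hh, hHV⟩ := Sim_spec hH
  set Dg : Mt m := diagonal (fun i => ((Real.sqrt (h i) : ℝ) : ℂ)) with hDg
  have hDgH : Dgᴴ = Dg := by
    rw [hDg, Matrix.diagonal_conjTranspose]
    congr 1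
    funext i
    simp
  have hDD : Dg * Dg = diagonal (fun i => ((h i : ℝ) : ℂ)) := by
    rw [hDg, Matrix.diagonal_mul_diagonal]
    congr 1
    funext i
    rw [← Complex.ofReal_mul, Real.mul_self_sqrt (hh i).le]
  set S : Mt m := V * Dg with hS
  have hSS : S * Sᴴ = H := by
    rw [hS, Matrix.conjTranspose_mul, hDgH, hHV, ← hDD]
    simp only [Matrix.mul_assoc]
  have hSu : IsUnit S.det := by
    rw [hS, Matrix.det_mul]
    refine (Sim_unit hV1).mul ?_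
    rw [hDg, Matrix.det_diagonal, isUnit_iff_ne_zero, Finset.prod_ne_zero_iff]
    intro i _
    exact_mod_cast (Real.sqrt_pos.2 (hh i)).ne'
  have hSu' : IsUnit S := (Matrix.isUnit_iff_isUnit_det _).2 hSu
  have hSi : IsUnit (S⁻¹ : Mt m) := by
    rw [Matrix.isUnit_nonsing_inv_iff]
    exact hSu'
  have hG' : (S⁻¹ * G * (S⁻¹)ᴴ).PosDef := by
    have := (Matrix.IsUnit.posDef_star_right_conjugate_iff (x := G) hSi).2 hG
    exact this
  obtain ⟨W, g, hW1, hW2, hg, hGW⟩ := Sim_spec hG'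
  refine ⟨S * W, fun i => Real.log (g i), ?_, ?_, ?_⟩
  · rw [Matrix.det_mul]
    exact hSu.mul (Sim_unit hW1)
  · rw [Matrix.conjTranspose_mul, Matrix.mul_assoc, ← Matrix.mul_assoc W, hW1, Matrix.one_mul,
      hSS]
  · have h1 : (fun i => ((Real.exp (Real.log (g i)) : ℝ) : ℂ)) = fun i => ((g i : ℝ) : ℂ) := by
      funext i
      rw [Real.exp_log (hg i)]
    rw [h1, Matrix.conjTranspose_mul]
    have h2 : S * W * diagonal (fun i => ((g i : ℝ) : ℂ)) * (Wᴴ * Sᴴ)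
        = S * (W * diagonal (fun i => ((g i : ℝ) : ℂ)) * Wᴴ) * Sᴴ := by
      simp only [Matrix.mul_assoc]
    rw [h2, ← hGW]
    have h3 : S * (S⁻¹ * G * (S⁻¹)ᴴ) * Sᴴ = (S * S⁻¹) * G * ((S⁻¹)ᴴ * Sᴴ) := by
      simp only [Matrix.mul_assoc]
    have h4 : (S⁻¹)ᴴ * Sᴴ = 1 := by
      rw [← Matrix.conjTranspose_mul, Matrix.mul_nonsing_inv _ hSu, Matrix.conjTranspose_one]
    rw [h3, h4, Matrix.mul_nonsing_inv _ hSu]
    simp

theorem fr_pos {m : ℕ} {H G Q : Mt m} {lam : Fin m → ℝ} (h : FrL H G Q lam) :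
    H.PosDef ∧ G.PosDef := by
  obtain ⟨hQ, hH, hG⟩ := h
  have hQ' : IsUnit Q := (Matrix.isUnit_iff_isUnit_det _).2 hQ
  constructor
  · have := (Matrix.IsUnit.posDef_star_right_conjugate_iff (x := (1 : Mt m)) hQ').2
      Matrix.PosDef.one
    rw [Matrix.mul_one] at this
    rw [hH]
    exact this
  · have h1 : (diagonal (fun i => ((Real.exp (lam i) : ℝ) : ℂ)) : Mt m).PosDef := by
      refine Matrix.PosDef.diagonal ?_
      intro i
      exact_mod_cast Real.exp_pos _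
    have := (Matrix.IsUnit.posDef_star_right_conjugate_iff hQ').2 h1
    rw [hG]
    exact this

theorem Sim_key {m : ℕ} {H G Q Q' : Mt m} {lam lam' : Fin m → ℝ} (h : FrL H G Q lam)
    (h' : FrL H G Q' lam') (phi : ℝ → ℝ) :
    Q' * diagonal (fun i => ((phi (lam' i) : ℝ) : ℂ)) * Q'⁻¹
      = Q * diagonal (fun i => ((phi (lam i) : ℝ) : ℂ)) * Q⁻¹ := by
  obtain ⟨hQ, hH, hG⟩ := h
  obtain ⟨hQ', hH', hG'⟩ := h'
  have q1 : Q * Q⁻¹ = 1 := Matrix.mul_nonsing_inv _ hQ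
  have q2 : Q⁻¹ * Q = 1 := Matrix.nonsing_inv_mul _ hQ
  have q1' : Q' * Q'⁻¹ = 1 := Matrix.mul_nonsing_inv _ hQ'
  have q2' : Q'⁻¹ * Q' = 1 := Matrix.nonsing_inv_mul _ hQ'
  have qs1 : Qᴴ * (Q⁻¹)ᴴ = 1 := by
    rw [← Matrix.conjTranspose_mul, q2, Matrix.conjTranspose_one]
  set R : Mt m := Q⁻¹ * Q' with hR
  have hQR : Q * R = Q' := by
    rw [hR, ← Matrix.mul_assoc, q1, Matrix.one_mul]
  have hRR : R * Rᴴ = 1 := by
    have e1 : Q' * Q'ᴴ = Q * Qᴴ := by rw [← hH', ← hH]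
    rw [hR, Matrix.conjTranspose_mul]
    calc Q⁻¹ * Q' * (Q'ᴴ * (Q⁻¹)ᴴ) = Q⁻¹ * (Q' * Q'ᴴ) * (Q⁻¹)ᴴ := by
          simp only [Matrix.mul_assoc]
      _ = Q⁻¹ * (Q * Qᴴ) * (Q⁻¹)ᴴ := by rw [e1]
      _ = (Q⁻¹ * Q) * (Qᴴ * (Q⁻¹)ᴴ) := by simp only [Matrix.mul_assoc]
      _ = 1 := by rw [q2, qs1, Matrix.one_mul]
  have hRR' : Rᴴ * R = 1 := mul_eq_one_comm.1 hRR
  have hcomm : diagonal (fun i => ((Real.exp (lam i) : ℝ) : ℂ)) * R
      = R * diagonal (fun i => ((Real.exp (lam' i) : ℝ) : ℂ)) := by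
    set E : Mt m := diagonal (fun i => ((Real.exp (lam i) : ℝ) : ℂ)) with hE
    set E' : Mt m := diagonal (fun i => ((Real.exp (lam' i) : ℝ) : ℂ)) with hE'
    have e2 : Q * E * Qᴴ = Q * (R * E' * Rᴴ) * Qᴴ := by
      rw [← hG, hG', ← hQR, Matrix.conjTranspose_mul]
      simp only [Matrix.mul_assoc]
    have e3 : E = R * E' * Rᴴ := by
      have h3 : Q⁻¹ * (Q * E * Qᴴ) * (Q⁻¹)ᴴ = Q⁻¹ * (Q * (R * E' * Rᴴ) * Qᴴ) * (Q⁻¹)ᴴ := by
        rw [e2]
      have h4 : ∀ X : Mt m, Q⁻¹ * (Q * X * Qᴴ) * (Q⁻¹)ᴴ = X := by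
        intro X
        calc Q⁻¹ * (Q * X * Qᴴ) * (Q⁻¹)ᴴ = (Q⁻¹ * Q) * X * (Qᴴ * (Q⁻¹)ᴴ) := by
              simp only [Matrix.mul_assoc]
          _ = X := by rw [q2, qs1, Matrix.one_mul, Matrix.mul_one]
      rw [h4, h4] at h3
      exact h3
    calc E * R = R * E' * Rᴴ * R := by rw [← e3]
      _ = R * E' * (Rᴴ * R) := by simp only [Matrix.mul_assoc]
      _ = R * E' := by rw [hRR', Matrix.mul_one]
  have hcommp : diagonal (fun i => ((phi (lam i) : ℝ) : ℂ)) * R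
      = R * diagonal (fun i => ((phi (lam' i) : ℝ) : ℂ)) := by
    ext i j
    have hij := congrFun (congrFun hcomm i) j
    rw [Matrix.diagonal_mul, Matrix.mul_diagonal] at hij ⊢
    by_cases hz : R i j = 0
    · rw [hz]
      simp
    · have h5 : ((Real.exp (lam i) : ℝ) : ℂ) = ((Real.exp (lam' j) : ℝ) : ℂ) := by
        apply mul_right_cancel₀ hz
        rw [hij, mul_comm]
      have h6 : lam i = lam' j := Real.exp_injective (by exact_mod_cast h5)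
      rw [h6, mul_comm]
  have hRi : Q'⁻¹ = Rᴴ * Q⁻¹ := by
    apply Matrix.inv_eq_right_inv
    calc Q' * (Rᴴ * Q⁻¹) = Q * (R * Rᴴ) * Q⁻¹ := by
          rw [← hQR]
          simp only [Matrix.mul_assoc]
      _ = 1 := by rw [hRR, Matrix.mul_one, q1]
  rw [hRi]
  calc Q' * diagonal (fun i => ((phi (lam' i) : ℝ) : ℂ)) * (Rᴴ * Q⁻¹)
      = Q * (R * diagonal (fun i => ((phi (lam' i) : ℝ) : ℂ))) * Rᴴ * Q⁻¹ := by
        rw [← hQR]
        simp only [Matrix.mul_assoc]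
    _ = Q * (diagonal (fun i => ((phi (lam i) : ℝ) : ℂ)) * R) * Rᴴ * Q⁻¹ := by rw [hcommp]
    _ = Q * diagonal (fun i => ((phi (lam i) : ℝ) : ℂ)) * (R * Rᴴ) * Q⁻¹ := by
        simp only [Matrix.mul_assoc]
    _ = Q * diagonal (fun i => ((phi (lam i) : ℝ) : ℂ)) * Q⁻¹ := by
        rw [hRR, Matrix.mul_one]

theorem fcal_eq {m : ℕ} {H G Q : Mt m} {lam : Fin m → ℝ} (h : FrL H G Q lam) (phi : ℝ → ℝ) :
    fcal phi H G = Q * diagonal (fun i => ((phi (lam i) : ℝ) : ℂ)) * Q⁻¹ := by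
  have hex : ∃ z : Mt m × (Fin m → ℝ), FrL H G z.1 z.2 := ⟨(Q, lam), h⟩
  unfold fcal
  rw [dif_pos hex]
  exact Sim_key h hex.choose_spec phi

theorem fcal_conj {m : ℕ} {H G g : Mt m} (hg : IsUnit g.det) (hH : H.PosDef) (hG : G.PosDef)
    (phi : ℝ → ℝ) : fcal phi (g * H * gᴴ) (g * G * gᴴ) * g = g * fcal phi H G := by
  obtain ⟨Q, lam, h⟩ := exists_fr hH hG
  have h' : FrL (g * H * gᴴ) (g * G * gᴴ) (g * Q) lam := by
    obtain ⟨hQ, h1, h2⟩ := h
    refine ⟨?_, ?_, ?_⟩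
    · rw [Matrix.det_mul]
      exact hg.mul hQ
    · rw [h1, Matrix.conjTranspose_mul]
      simp only [Matrix.mul_assoc]
    · rw [Matrix.conjTranspose_mul]
      conv_lhs => rw [h2]
      simp only [Matrix.mul_assoc]
  rw [fcal_eq h phi, fcal_eq h' phi, Matrix.mul_inv_rev]
  calc g * Q * diagonal (fun i => ((phi (lam i) : ℝ) : ℂ)) * (Q⁻¹ * g⁻¹) * g
      = g * (Q * diagonal (fun i => ((phi (lam i) : ℝ) : ℂ)) * Q⁻¹) * (g⁻¹ * g) := by
        simp only [Matrix.mul_assoc]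
    _ = g * (Q * diagonal (fun i => ((phi (lam i) : ℝ) : ℂ)) * Q⁻¹) := by
        rw [Matrix.nonsing_inv_mul _ hg, Matrix.mul_one]

end H80HM
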