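import Pool.Agent.H80.HM.Mox
import Pool.Agent.H80.HM.Sim

set_option autoImplicit false

/-!
# Row Bdu: irreducible groups of matrices with eigenvalues of modulus one are unitarizable

(1) bounded: by Irg there are g_1..g_N with r(g_i) spanning Mt k (adjoin of a group image = its linear span; finite dimension). The linear map X -> (tr(X r(g_i)))_i is injective
 (trace form is nondegenerate), hence |X| <= c max_i |tr(X r(g_i))| for all X. For X = r(g): |tr r(g g_i)| <= k (mo_trace). So all entries of r(g) are bounded by a constant c.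
(2) |det r(g)| = 1 (mo_det).
(3) let K be the closed convex hull of {r(g) r(g)* : g in G}: compact convex set of Hermitian matrices, all >= c' > 0: x* r(g) r(g)* x = |r(g)* x|^2 >= |x|^2/|r(g)^{-1}|^2, bounded below;
 the closed convex condition passes to the hull. K is invariant under X -> r(g) X r(g)* (linear, maps the generating set onto itself). det is continuous on K, positive; let h in K be a
 maximum point. det(r(g) h r(g)*) = |det r(g)|^2 det h = det h, so r(g) h r(g)* is also a maximum point.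
(4) uniqueness: if A, B positive definite with det A = det B = d and A different from B then det((A+B)/2) > d: exists_fr: A = QQ*, B = Q diag(e^lam) Q*, sum lam = 0, det((A+B)/2) =
 |det Q|^2 prod (1+e^{lam_i})/2 = d prod cosh(lam_i/2) > d unless all lam_i = 0. K is convex, so the maximum point is unique and r(g) h r(g)* = h for all g.
-/

namespace H80HM

open Matrix
open scoped ComplexOrder

theorem Bdu_span {G : Type} [Group G] {k : ℕ} (r : G →* (Mt k)ˣ) (hirr : Irg r) :
    Submodule.span ℂ (Set.range fun g => ((r g : (Mt k)ˣ) : Mt k)) = ⊤ := by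
  have h1 := Algebra.adjoin_eq_span ℂ (Set.range fun g => ((r g : (Mt k)ˣ) : Mt k))
  have h2 : ((Submonoid.closure (Set.range fun g => ((r g : (Mt k)ˣ) : Mt k)) :
      Submonoid (Mt k)) : Set (Mt k)) = Set.range fun g => ((r g : (Mt k)ˣ) : Mt k) := by
    have h3 : (Set.range fun g => ((r g : (Mt k)ˣ) : Mt k)) =
        ((MonoidHom.mrange ((Units.coeHom (Mt k)).comp r) : Submonoid (Mt k)) : Set (Mt k)) := by
      rw [MonoidHom.coe_mrange]
      rfl
    rw [h3, Submonoid.closure_eq]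
  rw [h2] at h1
  rw [← h1]
  unfold Irg at hirr
  rw [hirr]
  rfl

theorem Bdu_tr {G : Type} [Group G] {k : ℕ} (r : G →* (Mt k)ˣ) (hirr : Irg r)
    (hmo : ∀ g, Mo ((r g : (Mt k)ˣ) : Mt k)) (Y : Mt k) :
    ∃ C : ℝ, ∀ g, ‖(((r g : (Mt k)ˣ) : Mt k) * Y).trace‖ ≤ C := by
  have hY : Y ∈ Submodule.span ℂ (Set.range fun g => ((r g : (Mt k)ˣ) : Mt k)) := by
    rw [Bdu_span r hirr]
    exact Submodule.mem_top
  induction hY using Submodule.span_induction with
  | mem y hy =>
    obtain ⟨g', rfl⟩ := hy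
    refine ⟨k, fun g => ?_⟩
    have h1 := mo_trace (hmo (g * g'))
    rw [map_mul, Units.val_mul] at h1
    exact h1
  | zero =>
    refine ⟨0, fun g => ?_⟩
    simp
  | add x y _ _ hx hy =>
    obtain ⟨C1, h1⟩ := hx
    obtain ⟨C2, h2⟩ := hy
    refine ⟨C1 + C2, fun g => ?_⟩
    rw [Matrix.mul_add, Matrix.trace_add]
    exact (norm_add_le _ _).trans (add_le_add (h1 g) (h2 g))
  | smul a x _ hx =>
    obtain ⟨C1, h1⟩ := hx
    refine ⟨‖a‖ * C1, fun g => ?_⟩
    rw [Matrix.mul_smul, Matrix.trace_smul, smul_eq_mul, norm_mul]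
    exact mul_le_mul_of_nonneg_left (h1 g) (norm_nonneg _)

theorem Bdu_entry {G : Type} [Group G] {k : ℕ} (r : G →* (Mt k)ˣ) (hirr : Irg r)
    (hmo : ∀ g, Mo ((r g : (Mt k)ˣ) : Mt k)) :
    ∃ C : ℝ, ∀ g i j, ‖((r g : (Mt k)ˣ) : Mt k) i j‖ ≤ C := by
  have h1 : ∀ x : Fin k × Fin k, ∃ C : ℝ, ∀ g, ‖((r g : (Mt k)ˣ) : Mt k) x.1 x.2‖ ≤ C := by
    intro x
    obtain ⟨C, hC⟩ := Bdu_tr r hirr hmo (Matrix.single x.2 x.1 (1 : ℂ))
    refine ⟨C, fun g => ?_⟩
    have h2 := hC g
    rw [Matrix.trace_mul_comm, Matrix.trace_single_mul, one_smul] at h2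
    exact h2
  choose C hC using h1
  refine ⟨∑ x, |C x|, fun g i j => ?_⟩
  refine (hC (i, j) g).trans ((le_abs_self _).trans ?_)
  exact Finset.single_le_sum (f := fun x => |C x|) (fun x _ => abs_nonneg _)
    (Finset.mem_univ (i, j))

theorem Bdu_conj_det {k : ℕ} (Q X : Mt k) :
    (Q * X * Qᴴ).det = ((‖Q.det‖ ^ 2 : ℝ) : ℂ) * X.det := by
  rw [Matrix.det_mul, Matrix.det_mul, Matrix.det_conjTranspose]
  have h1 : Q.det * star Q.det = ((‖Q.det‖ ^ 2 : ℝ) : ℂ) := by
    have h2 : star Q.det = (starRingEnd ℂ) Q.det := rfl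
    rw [h2, Complex.mul_conj, Complex.normSq_eq_norm_sq]
  rw [← h1]
  ring

/-- Uniqueness of the maximum. -/
theorem Bdu_uniq {k : ℕ} {A B : Mt k} (hA : A.PosDef) (hB : B.PosDef)
    (h1 : A.det.re = B.det.re) (h2 : (((1 / 2 : ℝ) • (A + B) : Mt k)).det.re ≤ A.det.re) :
    A = B := by
  obtain ⟨Q, lam, hQ, hAQ, hBQ⟩ := exists_fr hA hB
  have hq : 0 < ‖Q.det‖ ^ 2 := by
    have : Q.det ≠ 0 := hQ.ne_zero
    positivity
  have dA : A.det = ((‖Q.det‖ ^ 2 : ℝ) : ℂ) := by
    have h3 : Q * Qᴴ = Q * 1 * Qᴴ := by rw [Matrix.mul_one]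
    rw [hAQ, h3, Bdu_conj_det, Matrix.det_one, mul_one]
  have dB : B.det = ((‖Q.det‖ ^ 2 * ∏ i, Real.exp (lam i) : ℝ) : ℂ) := by
    rw [hBQ, Bdu_conj_det, Matrix.det_diagonal]
    push_cast
    rfl
  have dC : ((1 / 2 : ℝ) • (A + B) : Mt k) =
      Q * diagonal (fun i => (((1 + Real.exp (lam i)) / 2 : ℝ) : ℂ)) * Qᴴ := by
    have h4 : (diagonal (fun i => (((1 + Real.exp (lam i)) / 2 : ℝ) : ℂ)) : Mt k) =
        (1 / 2 : ℝ) • (1 + diagonal (fun i => ((Real.exp (lam i) : ℝ) : ℂ))) := by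
      ext i j
      by_cases hij : i = j
      · subst hij
        simp only [Matrix.diagonal_apply_eq, Matrix.smul_apply, Matrix.add_apply,
          Matrix.one_apply_eq]
        rw [Complex.real_smul]
        push_cast
        ring
      · simp only [Matrix.diagonal_apply_ne _ hij, Matrix.smul_apply, Matrix.add_apply,
          Matrix.one_apply_ne hij, add_zero, smul_zero]
    rw [h4, Matrix.mul_smul, Matrix.smul_mul, Matrix.mul_add, Matrix.add_mul, Matrix.mul_one,
      ← hAQ, ← hBQ]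
  rw [dC, Bdu_conj_det, Matrix.det_diagonal, dA] at h2
  rw [dA, dB] at h1
  have h3 : (((‖Q.det‖ ^ 2 : ℝ) : ℂ) * ∏ i, (((1 + Real.exp (lam i)) / 2 : ℝ) : ℂ)).re =
      ‖Q.det‖ ^ 2 * ∏ i, ((1 + Real.exp (lam i)) / 2) := by
    rw [← Complex.ofReal_prod, ← Complex.ofReal_mul, Complex.ofReal_re]
  rw [h3, Complex.ofReal_re] at h2
  rw [Complex.ofReal_re, Complex.ofReal_re] at h1
  have h4 : ∏ i, Real.exp (lam i) = 1 := by
    have h5 : ‖Q.det‖ ^ 2 * (∏ i, Real.exp (lam i)) = ‖Q.det‖ ^ 2 * 1 := by linarith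
    exact mul_left_cancel₀ hq.ne' h5
  have h6 : ∏ i, ((1 + Real.exp (lam i)) / 2) ≤ 1 := by
    by_contra hcon
    push Not at hcon
    nlinarith
  have h7 : ∀ i, (1 + Real.exp (lam i)) / 2 = Real.exp (lam i / 2) * Real.cosh (lam i / 2) := by
    intro i
    rw [Real.cosh_eq]
    have e1 : Real.exp (lam i) = Real.exp (lam i / 2) * Real.exp (lam i / 2) := by
      rw [← Real.exp_add]
      congr 1
      ring
    have e2 : Real.exp (lam i / 2) * Real.exp (-(lam i / 2)) = 1 := by
      rw [← Real.exp_add, add_neg_cancel, Real.exp_zero]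
    rw [e1]
    linear_combination (-(1 / 2 : ℝ)) * e2
  have h8 : ∏ i, Real.exp (lam i / 2) = 1 := by
    rw [← Real.exp_sum] at h4 ⊢
    have h9 : ∑ i, lam i = 0 := by
      have := congrArg Real.log h4
      rwa [Real.log_exp, Real.log_one] at this
    rw [← Finset.sum_div, h9, zero_div, Real.exp_zero]
  have h10 : ∏ i, Real.cosh (lam i / 2) ≤ 1 := by
    have h11 : ∏ i, ((1 + Real.exp (lam i)) / 2) = ∏ i, Real.cosh (lam i / 2) := by
      rw [Finset.prod_congr rfl (fun i _ => h7 i), Finset.prod_mul_distrib, h8, one_mul]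
    rw [← h11]
    exact h6
  have h12 : ∀ i, lam i = 0 := by
    intro i
    by_contra hne
    have h13 : (∏ _i : Fin k, (1 : ℝ)) < ∏ i, Real.cosh (lam i / 2) := by
      refine Finset.prod_lt_prod (fun _ _ => one_pos) (fun j _ => Real.one_le_cosh _)
        ⟨i, Finset.mem_univ _, ?_⟩
      rw [Real.one_lt_cosh]
      intro h14
      apply hne
      linarith
    rw [Finset.prod_const_one] at h13
    linarith
  rw [hAQ, hBQ]
  have h15 : (diagonal (fun i => ((Real.exp (lam i) : ℝ) : ℂ)) : Mt k) = 1 := by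
    rw [← Matrix.diagonal_one]
    congr 1
    funext i
    rw [h12 i, Real.exp_zero, Complex.ofReal_one]
  rw [h15, Matrix.mul_one]

theorem bd_unit {G : Type} [Group G] {k : ℕ} (r : G →* (Mt k)ˣ) (hirr : Irg r)
    (hmo : ∀ g, Mo ((r g : (Mt k)ˣ) : Mt k)) :
    ∃ h : Mt k, h.PosDef ∧
      ∀ g, ((r g : (Mt k)ˣ) : Mt k) * h * (((r g : (Mt k)ˣ) : Mt k))ᴴ = h := by
  classical
  obtain ⟨R, hR⟩ : ∃ R : G → Mt k, ∀ g, R g = ((r g : (Mt k)ˣ) : Mt k) := ⟨_, fun _ => rfl⟩
  have hRm : ∀ g g', R (g * g') = R g * R g' := by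
    intro g g'
    rw [hR, hR, hR, map_mul, Units.val_mul]
  have hR1 : R 1 = 1 := by rw [hR, map_one, Units.val_one]
  obtain ⟨C, hC⟩ := Bdu_entry r hirr hmo
  have hdet : ∀ g, ‖(R g).det‖ = 1 := by
    intro g
    rw [hR]
    exact mo_det (hmo g)
  obtain ⟨S, hS⟩ : ∃ S : Set (Mt k), S = Set.range fun g => R g * (R g)ᴴ := ⟨_, rfl⟩
  obtain ⟨K, hK⟩ : ∃ K : Set (Mt k), K = closure (convexHull ℝ S) := ⟨_, rfl⟩
  have hmin : ∀ W : Set (Mt k), IsClosed W → Convex ℝ W → S ⊆ W → K ⊆ W := by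
    intro W h1 h2 h3
    rw [hK]
    exact closure_minimal (convexHull_min h3 h2) h1
  have hSK : S ⊆ K := by
    rw [hK]
    exact (subset_convexHull ℝ S).trans subset_closure
  have hKconv : Convex ℝ K := by
    rw [hK]
    exact (convex_convexHull ℝ S).closure
  have hKclosed : IsClosed K := by
    rw [hK]
    exact isClosed_closure
  have h1K : (1 : Mt k) ∈ K := by
    apply hSK
    rw [hS]
    refine ⟨1, ?_⟩
    simp [hR1]
  -- compactness
  obtain ⟨W, hW⟩ : ∃ W : Set (Mt k), W = {X : Mt k | ∀ i j, ‖X i j‖ ≤ k * (C * C)} := ⟨_, rfl⟩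
  have hWc : IsCompact W := by
    have h1 : W = Set.pi Set.univ (fun _ : Fin k => Set.pi Set.univ
        (fun _ : Fin k => Metric.closedBall (0 : ℂ) (k * (C * C)))) := by
      ext X
      rw [hW]
      constructor
      · intro h2 i _ j _
        exact mem_closedBall_zero_iff.2 (h2 i j)
      · intro h2 i j
        exact mem_closedBall_zero_iff.1 (h2 i (Set.mem_univ i) j (Set.mem_univ j))
    rw [h1]
    exact isCompact_univ_pi fun _ => isCompact_univ_pi fun _ => isCompact_closedBall _ _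
  have hWconv : Convex ℝ W := by
    intro X hX Y hY a b ha hb hab
    rw [hW] at hX hY ⊢
    intro i j
    rw [Matrix.add_apply, Matrix.smul_apply, Matrix.smul_apply]
    refine (norm_add_le _ _).trans ?_
    rw [norm_smul, norm_smul, Real.norm_eq_abs, Real.norm_eq_abs, abs_of_nonneg ha,
      abs_of_nonneg hb]
    have h1 := mul_le_mul_of_nonneg_left (hX i j) ha
    have h2 := mul_le_mul_of_nonneg_left (hY i j) hb
    calc a * ‖X i j‖ + b * ‖Y i j‖ ≤ a * (k * (C * C)) + b * (k * (C * C)) := add_le_add h1 h2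
      _ = k * (C * C) := by rw [← add_mul, hab, one_mul]
  have hSW : S ⊆ W := by
    rw [hS, hW]
    rintro X ⟨g, rfl⟩ i j
    simp only [Matrix.mul_apply]
    refine (norm_sum_le _ _).trans ?_
    have h1 : ∀ l ∈ (Finset.univ : Finset (Fin k)), ‖R g i l * (R g)ᴴ l j‖ ≤ C * C := by
      intro l _
      rw [norm_mul, Matrix.conjTranspose_apply, norm_star]
      have h2 := hC g i l
      have h3 := hC g j l
      rw [← hR] at h2 h3
      exact mul_le_mul h2 h3 (norm_nonneg _) ((norm_nonneg _).trans h2)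
    refine (Finset.sum_le_card_nsmul _ _ _ h1).trans ?_
    rw [Finset.card_univ, Fintype.card_fin, nsmul_eq_mul]
  have hKc : IsCompact K := hWc.of_isClosed_subset hKclosed (hmin W hWc.isClosed hWconv hSW)
  -- semidefinite
  obtain ⟨Z, hZ⟩ : ∃ Z : Set (Mt k), Z = {X : Mt k | Xᴴ = X ∧
      ∀ x : Fin k → ℂ, 0 ≤ (star x ⬝ᵥ (X *ᵥ x)).re ∧ (star x ⬝ᵥ (X *ᵥ x)).im = 0} := ⟨_, rfl⟩
  have hZclosed : IsClosed Z := by
    have h1 : Z = {X : Mt k | Xᴴ = X} ∩ ⋂ x : Fin k → ℂ,
        ({X : Mt k | 0 ≤ (star x ⬝ᵥ (X *ᵥ x)).re} ∩ {X : Mt k | (star x ⬝ᵥ (X *ᵥ x)).im = 0}) := by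
      ext X
      rw [hZ]
      simp
    rw [h1]
    have hc : ∀ x : Fin k → ℂ, Continuous fun X : Mt k => star x ⬝ᵥ (X *ᵥ x) := by
      intro x
      unfold dotProduct Matrix.mulVec dotProduct
      refine continuous_finsetSum _ fun i _ => continuous_const.mul ?_
      exact continuous_finsetSum _ fun j _ => (continuous_id.matrix_elem i j).mul continuous_const
    refine (isClosed_eq (continuous_id.matrix_conjTranspose) continuous_id).inter ?_
    refine isClosed_iInter fun x => ?_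
    exact (isClosed_le continuous_const (Complex.continuous_re.comp (hc x))).inter
      (isClosed_eq (Complex.continuous_im.comp (hc x)) continuous_const)
  have hZconv : Convex ℝ Z := by
    intro X hX Y hY a b ha hb hab
    rw [hZ] at hX hY ⊢
    refine ⟨?_, fun x => ?_⟩
    · rw [Matrix.conjTranspose_add, Matrix.conjTranspose_smul, Matrix.conjTranspose_smul, hX.1,
        hY.1]
      simp
    · obtain ⟨h1, h2⟩ := hX.2 x
      obtain ⟨h3, h4⟩ := hY.2 x
      have e1 : star x ⬝ᵥ ((a • X + b • Y) *ᵥ x) =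
          a • (star x ⬝ᵥ (X *ᵥ x)) + b • (star x ⬝ᵥ (Y *ᵥ x)) := by
        rw [Matrix.add_mulVec, dotProduct_add, Matrix.smul_mulVec, Matrix.smul_mulVec,
          dotProduct_smul, dotProduct_smul]
      rw [e1, Complex.real_smul, Complex.real_smul, Complex.add_re, Complex.add_im,
        Complex.re_ofReal_mul, Complex.re_ofReal_mul, Complex.im_ofReal_mul,
        Complex.im_ofReal_mul, h2, h4]
      constructor
      · exact add_nonneg (mul_nonneg ha h1) (mul_nonneg hb h3)
      · ring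
  have hSZ : S ⊆ Z := by
    rw [hS, hZ]
    rintro X ⟨g, rfl⟩
    have h1 := Matrix.posSemidef_self_mul_conjTranspose (R g)
    refine ⟨h1.isHermitian, fun x => ?_⟩
    have h2 := h1.dotProduct_mulVec_nonneg x
    rw [Complex.le_def] at h2
    exact ⟨h2.1, h2.2.symm⟩
  have hKZ : K ⊆ Z := hmin Z hZclosed hZconv hSZ
  have hpsd : ∀ X ∈ K, X.PosSemidef := by
    intro X hX
    have h1 := hKZ hX
    rw [hZ] at h1
    refine Matrix.PosSemidef.of_dotProduct_mulVec_nonneg h1.1 fun x => ?_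
    rw [Complex.le_def]
    exact ⟨(h1.2 x).1, (h1.2 x).2.symm⟩
  -- the maximum
  have hcont : Continuous fun X : Mt k => X.det.re :=
    Complex.continuous_re.comp (continuous_id.matrix_det)
  obtain ⟨h, hhK, hmax⟩ := hKc.exists_isMaxOn ⟨1, h1K⟩ hcont.continuousOn
  have hmax' : ∀ X ∈ K, X.det.re ≤ h.det.re := fun X hX => hmax hX
  have hd1 : 1 ≤ h.det.re := by
    have := hmax' 1 h1K
    rw [Matrix.det_one] at this
    simpa using this
  have hpd : ∀ X ∈ K, X.det.re = h.det.re → X.PosDef := by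
    intro X hX hXd
    refine (hpsd X hX).posDef_iff_isUnit.2 ?_
    rw [Matrix.isUnit_iff_isUnit_det, isUnit_iff_ne_zero]
    intro h0
    rw [h0] at hXd
    simp at hXd
    linarith
  refine ⟨h, hpd h hhK rfl, fun g => ?_⟩
  rw [← hR]
  -- invariance of `K`
  have hinv : K ⊆ {X : Mt k | R g * X * (R g)ᴴ ∈ K} := by
    refine hmin _ ?_ ?_ ?_
    · refine hKclosed.preimage ?_
      exact (continuous_const.matrix_mul continuous_id).matrix_mul continuous_const
    · intro X hX Y hY a b ha hb hab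
      show R g * (a • X + b • Y) * (R g)ᴴ ∈ K
      have e1 : R g * (a • X + b • Y) * (R g)ᴴ =
          a • (R g * X * (R g)ᴴ) + b • (R g * Y * (R g)ᴴ) := by
        rw [Matrix.mul_add, Matrix.add_mul, Matrix.mul_smul, Matrix.mul_smul, Matrix.smul_mul,
          Matrix.smul_mul]
      rw [e1]
      exact hKconv hX hY ha hb hab
    · rw [hS]
      rintro X ⟨g', rfl⟩
      show R g * (R g' * (R g')ᴴ) * (R g)ᴴ ∈ K
      apply hSK
      rw [hS]
      refine ⟨g * g', ?_⟩
      show R (g * g') * (R (g * g'))ᴴ = _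
      rw [hRm, Matrix.conjTranspose_mul]
      simp only [Matrix.mul_assoc]
  have h2K : R g * h * (R g)ᴴ ∈ K := hinv hhK
  have h2d : (R g * h * (R g)ᴴ).det.re = h.det.re := by
    rw [Bdu_conj_det, hdet g]
    simp
  have hmid : ((1 / 2 : ℝ) • (R g * h * (R g)ᴴ + h) : Mt k) ∈ K := by
    rw [smul_add]
    exact hKconv h2K hhK (by norm_num) (by norm_num) (by norm_num)
  exact Bdu_uniq (hpd _ h2K h2d) (hpd h hhK rfl) h2d ((hmax' _ hmid).trans (le_of_eq h2d.symm))

end H80HM
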