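import Pool.Agent.H80.HM.Def3

set_option autoImplicit false

/-!
# Row Cba: algebra of block triangular matrices

w : weights. Upper: M i j = 0 if w j < w i. For upper M, N: MN is upper and bdg w (MN) = bdg w M * bdg w N (for w i = w j only k with w i <= w k <= w j contribute).
det of an upper matrix = det of its block diagonal part (Mathlib: Matrix.BlockTriangular.det; or: an upper matrix with bdg = 1 is 1 + nilpotent). Uni: unipotent, det 1.
bu_unit: M upper with unitary b := bdg w M: b^{-1} = b*, M = (M b^{-1}) b with M b^{-1} upper and bdg (M b^{-1}) = b b^{-1} = 1; so M b^{-1} is Uni and M invertible.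
uni_act: M W b^{-1}: upper, bdg = b * 1 * b^{-1} = 1 (b^{-1} = b* is block diagonal, hence upper with bdg itself).
bdg_lam: lamS is diagonal with entries constant on blocks, so it commutes with block diagonal matrices. lamS is real diagonal: lamS* = lamS, invertible.
act_form: with b unitary commuting with L := lamS: (M W b^{-1}) L L* (M W b^{-1})* = M W b^{-1} L L* b W* M* = M W L L* W* M*.
fw_pos: W L L* W* = (WL)(WL)* with WL invertible.
-/

namespace H80HM

open Matrix MeasureTheory Set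
open scoped ComplexOrder

variable {m : ℕ} {w : Fin m → ℕ}

theorem Cba_up_mul {M N : Mt m} (hM : ∀ i j, w j < w i → M i j = 0)
    (hN : ∀ i j, w j < w i → N i j = 0) : ∀ i j, w j < w i → (M * N) i j = 0 := by
  intro i j hij
  rw [Matrix.mul_apply]
  refine Finset.sum_eq_zero fun k _ => ?_
  by_cases h : w k < w i
  · rw [hM i k h, zero_mul]
  · rw [hN k j (lt_of_lt_of_le hij (not_lt.mp h)), mul_zero]

theorem Cba_bdg_mul {M N : Mt m} (hM : ∀ i j, w j < w i → M i j = 0)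
    (hN : ∀ i j, w j < w i → N i j = 0) : bdg w (M * N) = bdg w M * bdg w N := by
  ext i j
  simp only [bdg, Matrix.mul_apply, Matrix.of_apply]
  by_cases h : w i = w j
  · rw [if_pos h]
    refine Finset.sum_congr rfl fun k _ => ?_
    by_cases hk : w i = w k
    · rw [if_pos hk, if_pos (hk.symm.trans h)]
    · rw [if_neg hk, zero_mul]
      rcases lt_or_gt_of_ne hk with h1 | h1
      · rw [hN k j (by omega), mul_zero]
      · rw [hM i k h1, zero_mul]
  · rw [if_neg h]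
    symm
    refine Finset.sum_eq_zero fun k _ => ?_
    by_cases hk : w i = w k
    · rw [if_neg (fun hc => h (hk.trans hc)), mul_zero]
    · rw [if_neg hk, zero_mul]

theorem Cba_up_bdg (M : Mt m) : ∀ i j, w j < w i → (bdg w M) i j = 0 := by
  intro i j h
  simp only [bdg, Matrix.of_apply]
  rw [if_neg (by omega)]

theorem Cba_up_bdgH (M : Mt m) : ∀ i j, w j < w i → ((bdg w M)ᴴ) i j = 0 := by
  intro i j h
  simp only [bdg, Matrix.conjTranspose_apply, Matrix.of_apply]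
  rw [if_neg (by omega), star_zero]

theorem Cba_bdg_bdg (M : Mt m) : bdg w (bdg w M) = bdg w M := by
  ext i j
  simp only [bdg, Matrix.of_apply]
  split_ifs <;> rfl

theorem Cba_bdg_bdgH (M : Mt m) : bdg w ((bdg w M)ᴴ) = (bdg w M)ᴴ := by
  ext i j
  simp only [bdg, Matrix.of_apply, Matrix.conjTranspose_apply]
  by_cases h : w i = w j
  · simp [h]
  · rw [if_neg h, if_neg (fun hc => h hc.symm), star_zero]

theorem Cba_bdg_one : bdg w (1 : Mt m) = 1 := by
  ext i j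
  simp only [bdg, Matrix.of_apply]
  by_cases h : i = j
  · subst h; simp
  · simp [Matrix.one_apply_ne h]

theorem Cba_det {M : Mt m} (hM : ∀ i j, w j < w i → M i j = 0) : M.det = (bdg w M).det := by
  have h1 : M.BlockTriangular w := fun i j h => hM i j h
  have h2 : (bdg w M).BlockTriangular w := fun i j h => Cba_up_bdg M i j h
  rw [h1.det, h2.det]
  refine Finset.prod_congr rfl fun a _ => ?_
  congr 1
  ext i j
  simp only [Matrix.toSquareBlock_def, Matrix.of_apply, bdg]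
  rw [if_pos (i.2.trans j.2.symm)]

theorem uni_one (w : Fin m → ℕ) : Uni w (1 : Mt m) := by
  refine ⟨fun i j h => ?_, Cba_bdg_one⟩
  exact Matrix.one_apply_ne (fun hc => by subst hc; exact lt_irrefl _ h)

theorem uni_comb {W1 W2 W3 : Mt m} (h1 : Uni w W1) (h2 : Uni w W2) (h3 : Uni w W3)
    (c c' : ℂ) : Uni w (W1 + c • (W2 - W1) + c' • (W3 - W2)) := by
  refine ⟨fun i j h => ?_, ?_⟩
  · simp [h1.1 i j h, h2.1 i j h, h3.1 i j h]
  · have e1 := h1.2
    have e2 := h2.2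
    have e3 := h3.2
    ext i j
    have f1 := congrFun (congrFun e1 i) j
    have f2 := congrFun (congrFun e2 i) j
    have f3 := congrFun (congrFun e3 i) j
    simp only [bdg, Matrix.of_apply] at f1 f2 f3 ⊢
    by_cases h : w i = w j
    · rw [if_pos h] at f1 f2 f3 ⊢
      simp [f1, f2, f3]
    · rw [if_neg h] at f1 ⊢
      exact f1

theorem Cba_uni_det {W : Mt m} (h : Uni w W) : W.det = 1 := by
  rw [Cba_det h.1, h.2, Matrix.det_one]

theorem uni_det {W : Mt m} (h : Uni w W) : IsUnit W.det := by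
  rw [Cba_uni_det h]
  exact isUnit_one

theorem Cba_inv {M : Mt m} (h : BU w M) : (bdg w M)⁻¹ = (bdg w M)ᴴ :=
  Matrix.inv_eq_right_inv h.2

theorem Cba_unit {M : Mt m} (h : BU w M) : IsUnit (bdg w M).det := by
  have h1 := congrArg Matrix.det h.2
  rw [Matrix.det_mul, Matrix.det_one] at h1
  exact IsUnit.of_mul_eq_one _ h1

theorem uni_act {M W : Mt m} (h : BU w M) (hW : Uni w W) :
    Uni w (M * W * (bdg w M)⁻¹) := by
  rw [Cba_inv h]
  have h1 : ∀ i j, w j < w i → (M * W) i j = 0 := Cba_up_mul h.1 hW.1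
  refine ⟨Cba_up_mul h1 (Cba_up_bdgH M), ?_⟩
  rw [Cba_bdg_mul h1 (Cba_up_bdgH M), Cba_bdg_bdgH, Cba_bdg_mul h.1 hW.1, hW.2, mul_one]
  exact h.2

theorem bu_unit {M : Mt m} (h : BU w M) : IsUnit (bdg w M).det ∧ IsUnit M.det ∧
    (bdg w M)⁻¹ = (bdg w M)ᴴ ∧ Uni w (M * (bdg w M)⁻¹) := by
  refine ⟨Cba_unit h, ?_, Cba_inv h, ?_⟩
  · rw [Cba_det h.1]; exact Cba_unit h
  · have h1 := uni_act h (uni_one w)
    rwa [mul_one] at h1

theorem Cba_lam_comm (M : Mt m) (S : ℝ) : bdg w M * lamS w S = lamS w S * bdg w M := by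
  ext i j
  simp only [lamS, Matrix.mul_diagonal, Matrix.diagonal_mul, bdg, Matrix.of_apply]
  by_cases h : w i = w j
  · rw [h, mul_comm]
  · rw [if_neg h, zero_mul, mul_zero]

theorem Cba_lamH (S : ℝ) : (lamS w S)ᴴ = lamS w S := by
  simp only [lamS, Matrix.diagonal_conjTranspose]
  congr 1
  ext i
  rw [Pi.star_apply, Complex.star_def, Complex.conj_ofReal]

theorem Cba_lam_comm2 {M : Mt m} (h : BU w M) (S : ℝ) :
    (bdg w M)⁻¹ * lamS w S = lamS w S * (bdg w M)⁻¹ := by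
  have h1 := Cba_lam_comm (w := w) ((bdg w M)ᴴ) S
  rwa [Cba_bdg_bdgH, ← Cba_inv h] at h1

theorem act_form {M : Mt m} (h : BU w M) (W : Mt m) (S : ℝ) :
    M * (W * lamS w S * (lamS w S)ᴴ * Wᴴ) * Mᴴ =
      (M * W * (bdg w M)⁻¹) * lamS w S * (lamS w S)ᴴ * (M * W * (bdg w M)⁻¹)ᴴ := by
  have hb : (bdg w M)⁻¹ * ((bdg w M)⁻¹)ᴴ = 1 := by
    rw [Cba_inv h, Matrix.conjTranspose_conjTranspose, ← Cba_inv h]
    exact Matrix.nonsing_inv_mul _ (Cba_unit h)
  have hc := Cba_lam_comm2 h S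
  rw [Cba_lamH, Matrix.conjTranspose_mul, Matrix.conjTranspose_mul]
  calc M * (W * lamS w S * lamS w S * Wᴴ) * Mᴴ
      = M * W * lamS w S * lamS w S * ((bdg w M)⁻¹ * ((bdg w M)⁻¹)ᴴ) * Wᴴ * Mᴴ := by
        rw [hb, mul_one]
        simp only [Matrix.mul_assoc]
    _ = M * W * (lamS w S * (lamS w S * (bdg w M)⁻¹)) * ((bdg w M)⁻¹)ᴴ * Wᴴ * Mᴴ := by
        simp only [Matrix.mul_assoc]
    _ = M * W * ((bdg w M)⁻¹ * lamS w S * lamS w S) * ((bdg w M)⁻¹)ᴴ * Wᴴ * Mᴴ := by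
        rw [← hc, ← Matrix.mul_assoc (lamS w S), ← hc]
    _ = _ := by simp only [Matrix.mul_assoc]

theorem Cba_lam_mul (S T : ℝ) : lamS w S * lamS w T = lamS w (S + T) := by
  simp only [lamS, Matrix.diagonal_mul_diagonal]
  congr 1
  ext i
  rw [← Complex.ofReal_mul, ← Real.exp_add]
  congr 2
  ring

theorem Cba_lam_zero : lamS w 0 = (1 : Mt m) := by
  simp [lamS]

theorem Cba_lam_det (S : ℝ) : IsUnit (lamS w S).det := by
  have h : lamS w S * lamS w (-S) = 1 := by rw [Cba_lam_mul, add_neg_cancel, Cba_lam_zero]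
  have h1 := congrArg Matrix.det h
  rw [Matrix.det_mul, Matrix.det_one] at h1
  exact IsUnit.of_mul_eq_one _ h1

theorem fw_pos {W : Mt m} (hW : IsUnit W.det) (w : Fin m → ℕ) (S : ℝ) :
    (W * lamS w S * (lamS w S)ᴴ * Wᴴ).PosDef := by
  have h1 : W * lamS w S * (lamS w S)ᴴ * Wᴴ = (W * lamS w S) * (W * lamS w S)ᴴ := by
    rw [Matrix.conjTranspose_mul, Matrix.mul_assoc]
  rw [h1]
  refine Matrix.PosDef.mul_conjTranspose_self _ ?_
  rw [Matrix.vecMul_injective_iff_isUnit, Matrix.isUnit_iff_isUnit_det, Matrix.det_mul]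
  exact hW.mul (Cba_lam_det S)

theorem Cba_nrm {Y : Mt m} {k : ℝ} (h : ∀ i j, ‖Y i j‖ ≤ k) (z : Fin m → ℂ) :
    ∑ j, ‖(Yᴴ *ᵥ z) j‖ ^ 2 ≤ (m * k) ^ 2 * ∑ j, ‖z j‖ ^ 2 := by
  have h1 : ∀ j, ‖(Yᴴ *ᵥ z) j‖ ≤ k * ∑ i, ‖z i‖ := by
    intro j
    rw [Matrix.mulVec, dotProduct, Finset.mul_sum]
    refine (norm_sum_le _ _).trans (Finset.sum_le_sum fun i _ => ?_)
    rw [norm_mul, Matrix.conjTranspose_apply, norm_star]
    exact mul_le_mul_of_nonneg_right (h i j) (norm_nonneg _)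
  have h2 : (∑ i, ‖z i‖) ^ 2 ≤ m * ∑ i, ‖z i‖ ^ 2 := by
    have := sq_sum_le_card_mul_sum_sq (s := (Finset.univ : Finset (Fin m))) (f := fun i => ‖z i‖)
    simpa using this
  calc ∑ j, ‖(Yᴴ *ᵥ z) j‖ ^ 2 ≤ ∑ _j : Fin m, k ^ 2 * (m * ∑ i, ‖z i‖ ^ 2) := by
        refine Finset.sum_le_sum fun j _ => ?_
        calc ‖(Yᴴ *ᵥ z) j‖ ^ 2 ≤ (k * ∑ i, ‖z i‖) ^ 2 :=
              pow_le_pow_left₀ (norm_nonneg _) (h1 j) 2
          _ = k ^ 2 * (∑ i, ‖z i‖) ^ 2 := by ring
          _ ≤ _ := mul_le_mul_of_nonneg_left h2 (sq_nonneg k)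
    _ = _ := by
        rw [Finset.sum_const, Finset.card_univ, Fintype.card_fin, nsmul_eq_mul]
        ring

theorem Cba_quad (X : Mt m) (z : Fin m → ℂ) :
    (star z ⬝ᵥ ((X * Xᴴ) *ᵥ z)).re = ∑ j, ‖(Xᴴ *ᵥ z) j‖ ^ 2 := by
  have h1 : star z ⬝ᵥ ((X * Xᴴ) *ᵥ z) = star (Xᴴ *ᵥ z) ⬝ᵥ (Xᴴ *ᵥ z) := by
    rw [Matrix.star_mulVec, Matrix.conjTranspose_conjTranspose, ← Matrix.mulVec_mulVec,
      Matrix.dotProduct_mulVec]
  rw [h1, dotProduct, Complex.re_sum]
  refine Finset.sum_congr rfl fun j _ => ?_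
  rw [Pi.star_apply, Complex.star_def, ← Complex.normSq_eq_conj_mul_self, Complex.ofReal_re,
    Complex.normSq_eq_norm_sq]

theorem Cba_quad1 (z : Fin m → ℂ) :
    (star z ⬝ᵥ ((1 : Mt m) *ᵥ z)).re = ∑ j, ‖z j‖ ^ 2 := by
  have h := Cba_quad (1 : Mt m) z
  rw [Matrix.conjTranspose_one, mul_one] at h
  rw [h]
  simp only [Matrix.one_mulVec]

theorem Cba_adj {W : Mt m} {k : ℝ} (h : ∀ i j, ‖W i j‖ ≤ k) (hk : 1 ≤ k) (i j : Fin m) :
    ‖W.adjugate i j‖ ≤ (m.factorial : ℝ) * k ^ m := by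
  rw [Matrix.adjugate_apply]
  have h1 := Matrix.det_le (A := W.updateRow j (Pi.single i 1))
    (abv := NormedField.toAbsoluteValue ℂ) (x := k) (by
      intro a b
      change ‖(W.updateRow j (Pi.single i 1)) a b‖ ≤ k
      by_cases ha : a = j
      · subst ha
        rw [Matrix.updateRow_self]
        by_cases hb : b = i
        · subst hb; simpa using hk
        · rw [Pi.single_eq_of_ne hb, norm_zero]; linarith
      · rw [Matrix.updateRow_ne ha]
        exact h a b)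
  rw [Fintype.card_fin, nsmul_eq_mul] at h1
  exact h1

/-- size of W L L* W* -/
theorem fw_size (w : Fin m → ℕ) (ka : ℝ) : ∃ K : ℝ, 0 < K ∧ ∀ (W : Mt m) (S : ℝ), Uni w W →
    (∀ i j, ‖W i j‖ ≤ ka) → 0 ≤ S →
    Cm2 (Real.exp (K * (S + 1))) (W * lamS w S * (lamS w S)ᴴ * Wᴴ) 1 := by
  -- W and W^{-1} (polynomial in W, det W = 1) have bounded entries; L L* lies between exp(-2 S max w) and 1
  set k : ℝ := max ka 1 with hk
  have hk1 : 1 ≤ k := le_max_right _ _
  have hk0 : 0 ≤ k := by linarith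
  set kb : ℝ := (m.factorial : ℝ) * k ^ m with hkb
  have hkb0 : 0 ≤ kb := by positivity
  set wm : ℝ := ∑ i, (w i : ℝ) with hwm
  have hwm0 : 0 ≤ wm := Finset.sum_nonneg fun i _ => Nat.cast_nonneg _
  have hwi : ∀ i, (w i : ℝ) ≤ wm := fun i =>
    Finset.single_le_sum (f := fun i => (w i : ℝ)) (fun j _ => Nat.cast_nonneg _)
      (Finset.mem_univ i)
  set c : ℝ := 1 + (m * k) ^ 2 + (m * kb) ^ 2 with hc
  have hc1 : 1 ≤ c := by rw [hc]; nlinarith [sq_nonneg ((m : ℝ) * k), sq_nonneg ((m : ℝ) * kb)]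
  have hlc : 0 ≤ Real.log c := Real.log_nonneg hc1
  refine ⟨2 * wm + Real.log c + 1, by linarith, ?_⟩
  intro W S hW hWk hS
  have hWk' : ∀ i j, ‖W i j‖ ≤ k := fun i j => (hWk i j).trans (le_max_left _ _)
  have hexp : c * Real.exp (2 * wm * S) ≤ Real.exp ((2 * wm + Real.log c + 1) * (S + 1)) := by
    calc c * Real.exp (2 * wm * S) = Real.exp (Real.log c + 2 * wm * S) := by
          rw [Real.exp_add, Real.exp_log (by linarith)]
      _ ≤ _ := by
          apply Real.exp_le_exp.mpr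
          nlinarith [mul_nonneg hlc hS, mul_nonneg hwm0 hS]
  have hE1 : 1 ≤ Real.exp (2 * wm * S) := Real.one_le_exp (by positivity)
  have hform : W * lamS w S * (lamS w S)ᴴ * Wᴴ = (W * lamS w S) * (W * lamS w S)ᴴ := by
    rw [Matrix.conjTranspose_mul, Matrix.mul_assoc]
  rw [hform]
  set X : Mt m := W * lamS w S with hX
  have hXe : ∀ i j, ‖X i j‖ ≤ k := by
    intro i j
    rw [hX, lamS, Matrix.mul_diagonal, norm_mul, Complex.norm_real, Real.norm_eq_abs,
      abs_of_pos (Real.exp_pos _)]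
    have h1 : Real.exp (-S * w j) ≤ 1 := by
      apply Real.exp_le_one_iff.mpr
      have : (0:ℝ) ≤ S * w j := mul_nonneg hS (Nat.cast_nonneg _)
      linarith
    calc ‖W i j‖ * Real.exp (-S * w j) ≤ k * 1 :=
          mul_le_mul (hWk' i j) h1 (Real.exp_pos _).le hk0
      _ = k := mul_one k
  set Y : Mt m := lamS w (-S) * W.adjugate with hY
  have hYe : ∀ i j, ‖Y i j‖ ≤ Real.exp (S * wm) * kb := by
    intro i j
    rw [hY, lamS, Matrix.diagonal_mul, norm_mul, Complex.norm_real, Real.norm_eq_abs,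
      abs_of_pos (Real.exp_pos _)]
    refine mul_le_mul ?_ (Cba_adj hWk' hk1 i j) (norm_nonneg _) (Real.exp_pos _).le
    apply Real.exp_le_exp.mpr
    have := mul_le_mul_of_nonneg_left (hwi i) hS
    linarith
  have hXY : X * Y = 1 := by
    rw [hX, hY, Matrix.mul_assoc, ← Matrix.mul_assoc (lamS w S), Cba_lam_mul, add_neg_cancel,
      Cba_lam_zero, Matrix.one_mul, Matrix.mul_adjugate, Cba_uni_det hW, one_smul]
  refine ⟨fun z => ?_, fun z => ?_⟩
  · rw [Cba_quad, Cba_quad1]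
    refine (Cba_nrm hXe z).trans ?_
    refine mul_le_mul_of_nonneg_right ?_ (Finset.sum_nonneg fun _ _ => by positivity)
    refine le_trans ?_ hexp
    have : (m * k) ^ 2 ≤ c := by rw [hc]; nlinarith [sq_nonneg ((m : ℝ) * kb)]
    nlinarith
  · rw [Cba_quad, Cba_quad1]
    have hz : Yᴴ *ᵥ (Xᴴ *ᵥ z) = z := by
      rw [Matrix.mulVec_mulVec, ← Matrix.conjTranspose_mul, hXY, Matrix.conjTranspose_one,
        Matrix.one_mulVec]
    have h1 := Cba_nrm hYe (Xᴴ *ᵥ z)
    rw [hz] at h1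
    refine h1.trans ?_
    refine mul_le_mul_of_nonneg_right ?_ (Finset.sum_nonneg fun _ _ => by positivity)
    refine le_trans ?_ hexp
    have h2 : (m * (Real.exp (S * wm) * kb)) ^ 2 = (m * kb) ^ 2 * Real.exp (2 * wm * S) := by
      have : Real.exp (2 * wm * S) = Real.exp (S * wm) ^ 2 := by
        rw [← Real.exp_nat_mul]
        congr 1
        push_cast
        ring
      rw [this]; ring
    rw [h2]
    refine mul_le_mul_of_nonneg_right ?_ (Real.exp_pos _).le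
    rw [hc]; nlinarith [sq_nonneg ((m : ℝ) * k)]

end H80HM
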