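import Pool.Agent.H80.HM.Cc0

set_option autoImplicit false

/-!
# Row Cc2: gluing, independence and size of the bottom metric

hb_glC: A1 BU w, C1 BU w; al = A1 (bdg A1)^{-1}, ga = C1 (bdg C1)^{-1}; C = Q C1 Q^{-1}. W(0,v) = 1, W(1,v) = ga (th_side for v in [0,1/2]), SS (1,v) = SS (0,v) (ss_side). C Hb(0,v) C* = Q C1 (1 L L* 1) C1* Q* and act_form with W = 1: C1 (1 * L * L* * 1*) C1* = (C1 * 1 * b^{-1}) L L* (C1 * 1 * b^{-1})* = ga L L* ga*,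
 so it equals Q (Fw ..)(1,v) Q* (Fw unfolds to W * lamS * lamS* * W*; Wb al ga (1,v) = 1 + 1 (al - 1) + 1 (ga - al) = ga).  (Q^{-1} Q = 1: Matrix.nonsing_inv_mul with IsUnit det; C* = (Q^{-1})* C1* Q*.)
hb_glA: bottom side: for 0 < u < 1/2: th1 (u,0) = th2 (u,0) = 0, th1 (1-u,0) = 1, th2 (1-u,0) = 0 (th_bottom), so W(u,0) = 1, W(1-u,0) = al; ss_bottom; the same computation with A1.
hb_ind: th_indep (th1 (u,v) = th1 (u,1/6)) and ss_const (SS = S0 on D for v >= 1/6; both (u,v) and (u,1/6) are in D).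
hb_sz: for x in D with x.2 >= 1/6: SS = S0 (ss_const), entries of W bounded by k (prove it here or use th_mem), fw_size w k gives K: Cm2 (exp (K (S0+1))) (W L L* W*) 1. Cm2 L H G := Cmp L H G and Cmp L G H (Dsp/Defs: quadratic forms comparable with factor L). Congruence by Q: z* Q H Q* z = (Q* z)* H (Q* z) is between exp(-K(S0+1)) |Q* z|^2 and exp(K(S0+1)) |Q* z|^2 and
 c^{-1} |z|^2 <= |Q* z|^2 <= c |z|^2 with c >= 1 depending on Q (norm bounds of Q* and its inverse; see Cba_nrm, Cba_quad, Cba_quad1). So Cm2 (c exp(K(S0+1))) (Hb x) 1, and c exp(K(S0+1)) <= exp(ka (S0+1)) with ka := K + log c (S0 + 1 >= 1, log c >= 0); Cmp is monotone in L.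
-/

namespace H80HM

open Matrix MeasureTheory Set
open scoped ComplexOrder

variable {m : ℕ} {w : Fin m → ℕ} {Q A1 C1 : Mt m}

theorem Cc2_conj (hQ : IsUnit Q.det) {M1 : Mt m} (hM : BU w M1) (S : ℝ) :
    Q * ((M1 * (bdg w M1)⁻¹) * lamS w S * (lamS w S)ᴴ * (M1 * (bdg w M1)⁻¹)ᴴ) * Qᴴ =
      (Q * M1 * Q⁻¹) * (Q * (1 * lamS w S * (lamS w S)ᴴ * (1 : Mt m)ᴴ) * Qᴴ) *
        (Q * M1 * Q⁻¹)ᴴ := by
  have h := act_form hM 1 S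
  rw [Matrix.mul_one M1] at h
  have hq : Q⁻¹ * Q = 1 := Matrix.nonsing_inv_mul _ hQ
  have hq' : Qᴴ * (Q⁻¹)ᴴ = 1 := by
    rw [← Matrix.conjTranspose_mul, hq, Matrix.conjTranspose_one]
  rw [← h]
  generalize (1 * lamS w S * (lamS w S)ᴴ * (1 : Mt m)ᴴ) = X
  rw [Matrix.conjTranspose_mul, Matrix.conjTranspose_mul]
  calc Q * (M1 * X * M1ᴴ) * Qᴴ = Q * M1 * (Q⁻¹ * Q) * X * (Qᴴ * (Q⁻¹)ᴴ) * M1ᴴ * Qᴴ := by
        rw [hq, hq', Matrix.mul_one, Matrix.mul_one]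
        simp only [Matrix.mul_assoc]
    _ = _ := by simp only [Matrix.mul_assoc]

theorem Cc2_W0 (al ga : Mt m) {x : ℝ × ℝ} (h1 : th1 x = 0) (h2 : th2 x = 0) :
    Wb al ga x = 1 := by
  rw [Wb, h1, h2]
  simp

theorem Cc2_W1 (al ga : Mt m) {x : ℝ × ℝ} (h1 : th1 x = 1) (h2 : th2 x = 0) :
    Wb al ga x = al := by
  rw [Wb, h1, h2]
  simp

theorem Cc2_W2 (al ga : Mt m) {x : ℝ × ℝ} (h1 : th1 x = 1) (h2 : th2 x = 1) :
    Wb al ga x = ga := by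
  rw [Wb, h1, h2]
  simp

theorem hb_glC (hQ : IsUnit Q.det) (hC : BU w C1) (al : Mt m) (S0 R : ℝ) (v : ℝ)
    (hv : v ∈ Icc (0:ℝ) (1/2)) :
    Hbo Q w al (C1 * (bdg w C1)⁻¹) S0 R (1, v) =
      (Q * C1 * Q⁻¹) * Hbo Q w al (C1 * (bdg w C1)⁻¹) S0 R (0, v) * (Q * C1 * Q⁻¹)ᴴ := by
  obtain ⟨t1, t2, t3, t4⟩ := th_side v hv
  have e1 : Hbo Q w al (C1 * (bdg w C1)⁻¹) S0 R (1, v) =
      Q * ((C1 * (bdg w C1)⁻¹) * lamS w (SS S0 R (0, v)) * (lamS w (SS S0 R (0, v)))ᴴ *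
        (C1 * (bdg w C1)⁻¹)ᴴ) * Qᴴ := by
    rw [Hbo, Fw, Cc2_W2 _ _ t3 t4, ss_side]
  have e2 : Hbo Q w al (C1 * (bdg w C1)⁻¹) S0 R (0, v) =
      Q * (1 * lamS w (SS S0 R (0, v)) * (lamS w (SS S0 R (0, v)))ᴴ * (1 : Mt m)ᴴ) * Qᴴ := by
    rw [Hbo, Fw, Cc2_W0 _ _ t1 t2]
  rw [e1, e2]
  exact Cc2_conj hQ hC _

theorem hb_glA (hQ : IsUnit Q.det) (hA : BU w A1) (ga : Mt m) (S0 R : ℝ) (u : ℝ)
    (hu : u ∈ Ioo (0:ℝ) (1/2)) :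
    Hbo Q w (A1 * (bdg w A1)⁻¹) ga S0 R (1 - u, 0) =
      (Q * A1 * Q⁻¹) * Hbo Q w (A1 * (bdg w A1)⁻¹) ga S0 R (u, 0) * (Q * A1 * Q⁻¹)ᴴ := by
  obtain ⟨t1, t2, t3, t4⟩ := th_bottom hu
  have e1 : Hbo Q w (A1 * (bdg w A1)⁻¹) ga S0 R (1 - u, 0) =
      Q * ((A1 * (bdg w A1)⁻¹) * lamS w (SS S0 R (u, 0)) * (lamS w (SS S0 R (u, 0)))ᴴ *
        (A1 * (bdg w A1)⁻¹)ᴴ) * Qᴴ := by
    rw [Hbo, Fw, Cc2_W1 _ _ t3 t4, ss_bottom _ _ hu]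
  have e2 : Hbo Q w (A1 * (bdg w A1)⁻¹) ga S0 R (u, 0) =
      Q * (1 * lamS w (SS S0 R (u, 0)) * (lamS w (SS S0 R (u, 0)))ᴴ * (1 : Mt m)ᴴ) * Qᴴ := by
    rw [Hbo, Fw, Cc2_W0 _ _ t1 t2]
  rw [e1, e2]
  exact Cc2_conj hQ hA _

theorem hb_ind (Q : Mt m) (w : Fin m → ℕ) (al ga : Mt m) (S0 : ℝ) {R : ℝ} (hR : 2 ≤ R) :
    ∀ u ∈ Icc (0:ℝ) 1, ∀ v ∈ Icc (1/6 : ℝ) (1/2),
      Hbo Q w al ga S0 R (u, v) = Hbo Q w al ga S0 R (u, 1/6) := by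
  intro u hu v hv
  have hD : ∀ v' ∈ Icc (1/6 : ℝ) (1/2), SS S0 R (u, v') = S0 := by
    intro v' hv'
    refine ss_const S0 hR (x := (u, v')) ⟨hu, ?_, hv'.2⟩ hv'.1
    exact le_trans (by norm_num) hv'.1
  have h1 := hD v hv
  have h2 := hD (1/6) ⟨le_refl _, by norm_num⟩
  obtain ⟨a1, a2⟩ := th_indep (u := u) hv.1
  rw [Hbo, Hbo, Fw, Fw, h1, h2, Wb, Wb, a1, a2]

theorem Cc2_cmp {X Y : Mt m} (hXY : X * Y = 1) :
    ∃ c : ℝ, 1 ≤ c ∧ Cm2 c (X * 1 * Xᴴ) 1 := by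
  set k : ℝ := ∑ i, ∑ j, (‖X i j‖ + ‖Y i j‖) with hk
  have h0 : ∀ i j, 0 ≤ ‖X i j‖ + ‖Y i j‖ := fun i j => by positivity
  have hb : ∀ i j, ‖X i j‖ + ‖Y i j‖ ≤ k := by
    intro i j
    refine (Finset.single_le_sum (f := fun j => ‖X i j‖ + ‖Y i j‖) (fun j _ => h0 i j)
      (Finset.mem_univ j)).trans ?_
    exact Finset.single_le_sum (f := fun i => ∑ j, (‖X i j‖ + ‖Y i j‖))
      (fun i _ => Finset.sum_nonneg fun j _ => h0 i j) (Finset.mem_univ i)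
  have hX : ∀ i j, ‖X i j‖ ≤ k := fun i j => by
    have := norm_nonneg (Y i j)
    linarith [hb i j]
  have hY : ∀ i j, ‖Y i j‖ ≤ k := fun i j => by
    have := norm_nonneg (X i j)
    linarith [hb i j]
  have hc : ∀ z : Fin m → ℂ, (m * k) ^ 2 * ∑ j, ‖z j‖ ^ 2 ≤
      (1 + (m * k) ^ 2) * ∑ j, ‖z j‖ ^ 2 := by
    intro z
    have : 0 ≤ ∑ j, ‖z j‖ ^ 2 := Finset.sum_nonneg fun _ _ => by positivity
    nlinarith
  refine ⟨1 + (m * k) ^ 2, by nlinarith [sq_nonneg ((m : ℝ) * k)], fun z => ?_, fun z => ?_⟩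
  · rw [Matrix.mul_one, Cba_quad, Cba_quad1]
    exact (Cba_nrm hX z).trans (hc z)
  · rw [Matrix.mul_one, Cba_quad, Cba_quad1]
    have hz : Yᴴ *ᵥ (Xᴴ *ᵥ z) = z := by
      rw [Matrix.mulVec_mulVec, ← Matrix.conjTranspose_mul, hXY, Matrix.conjTranspose_one,
        Matrix.one_mulVec]
    have h1 := Cba_nrm hY (Xᴴ *ᵥ z)
    rw [hz] at h1
    exact h1.trans (hc _)

theorem Cc2_entry (al ga : Mt m) : ∃ k : ℝ, ∀ x ∈ D, ∀ i j, ‖Wb al ga x i j‖ ≤ k := by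
  refine ⟨1 + ∑ i, ∑ j, (‖(al - 1) i j‖ + ‖(ga - al) i j‖), fun x hx i j => ?_⟩
  obtain ⟨⟨a1, a2⟩, b1, b2⟩ := th_mem hx
  have h0 : ∀ i j, 0 ≤ ‖(al - 1) i j‖ + ‖(ga - al) i j‖ := fun i j => by positivity
  have hb : ‖(al - 1) i j‖ + ‖(ga - al) i j‖ ≤
      ∑ i, ∑ j, (‖(al - 1) i j‖ + ‖(ga - al) i j‖) := by
    refine (Finset.single_le_sum (f := fun j => ‖(al - 1) i j‖ + ‖(ga - al) i j‖)
      (fun j _ => h0 i j) (Finset.mem_univ j)).trans ?_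
    exact Finset.single_le_sum (f := fun i => ∑ j, (‖(al - 1) i j‖ + ‖(ga - al) i j‖))
      (fun i _ => Finset.sum_nonneg fun j _ => h0 i j) (Finset.mem_univ i)
  have e : Wb al ga x i j = (1 : Mt m) i j + ((th1 x : ℝ) : ℂ) * (al - 1) i j +
      ((th2 x : ℝ) : ℂ) * (ga - al) i j := by
    rw [Wb]
    rfl
  have h1 : ‖(1 : Mt m) i j‖ ≤ 1 := by
    by_cases h : i = j
    · subst h; simp
    · rw [Matrix.one_apply_ne h]; simp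
  have h2 : ‖((th1 x : ℝ) : ℂ) * (al - 1) i j‖ ≤ ‖(al - 1) i j‖ := by
    rw [norm_mul, Complex.norm_real, Real.norm_eq_abs, abs_of_nonneg a1]
    exact mul_le_of_le_one_left (norm_nonneg _) a2
  have h3 : ‖((th2 x : ℝ) : ℂ) * (ga - al) i j‖ ≤ ‖(ga - al) i j‖ := by
    rw [norm_mul, Complex.norm_real, Real.norm_eq_abs, abs_of_nonneg b1]
    exact mul_le_of_le_one_left (norm_nonneg _) b2
  rw [e]
  refine (norm_add₃_le).trans ?_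
  linarith

theorem hb_sz (hQ : IsUnit Q.det) {al ga : Mt m} (hal : Uni w al) (hga : Uni w ga) :
    ∃ ka : ℝ, 0 < ka ∧ ∀ R S0 : ℝ, 2 ≤ R → 0 ≤ S0 → ∀ x ∈ D, 1/6 ≤ x.2 →
      Cm2 (Real.exp (ka * (S0 + 1))) (Hbo Q w al ga S0 R x) 1 := by
  obtain ⟨k, hk⟩ := Cc2_entry al ga
  obtain ⟨K, hK0, hK⟩ := fw_size w k
  obtain ⟨c, hc1, hc⟩ := Cc2_cmp (X := Q) (Y := Q⁻¹) (Matrix.mul_nonsing_inv _ hQ)
  have hlc : 0 ≤ Real.log c := Real.log_nonneg hc1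
  have hc0 : 0 < c := by linarith
  refine ⟨K + Real.log c, by linarith, ?_⟩
  intro R S0 hR hS0 x hx hv
  have hW : Uni w (Wb al ga x) := uni_comb (uni_one w) hal hga _ _
  have h1 := hK (Wb al ga x) S0 hW (hk x hx) hS0
  have hS := ss_const S0 hR hx hv
  have hH : Hbo Q w al ga S0 R x =
      Q * (Wb al ga x * lamS w S0 * (lamS w S0)ᴴ * (Wb al ga x)ᴴ) * Qᴴ := by
    rw [Hbo, Fw, hS]
  have h2 := Dsp_congr Q h1.1
  have h3 := Dsp_congr Q h1.2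
  rw [← hH] at h2 h3
  have hE := Real.exp_pos (K * (S0 + 1))
  have h4 := Dsp_trans hE.le h2 hc.1
  have h5 := Dsp_trans hc0.le hc.2 h3
  have hle : c * Real.exp (K * (S0 + 1)) ≤ Real.exp ((K + Real.log c) * (S0 + 1)) := by
    calc c * Real.exp (K * (S0 + 1)) = Real.exp (Real.log c + K * (S0 + 1)) := by
          rw [Real.exp_add, Real.exp_log hc0]
      _ ≤ _ := by
          apply Real.exp_le_exp.mpr
          nlinarith [mul_nonneg hlc hS0]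
  have hnn : ∀ z : Fin m → ℂ, 0 ≤ (star z ⬝ᵥ ((1 : Mt m) *ᵥ z)).re := by
    intro z
    rw [Cba_quad1]
    exact Finset.sum_nonneg fun _ _ => by positivity
  refine ⟨fun z => ?_, fun z => ?_⟩
  · refine (h4 z).trans ?_
    rw [mul_comm (Real.exp _) c]
    exact mul_le_mul_of_nonneg_right hle (hnn z)
  · refine (h5 z).trans ?_
    have h6 := (hnn z).trans (h5 z)
    have h7 : 0 ≤ (star z ⬝ᵥ (Hbo Q w al ga S0 R x *ᵥ z)).re :=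
      nonneg_of_mul_nonneg_right h6 (by positivity)
    exact mul_le_mul_of_nonneg_right hle h7

end H80HM
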