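import Pool.Agent.H80.HM.Defs

set_option autoImplicit false

/-!
# Row Sgl: elementary facts for one metric H near a point x

pd_lin, pd_herm: pd t H x i j = fderiv (H . i j) x t is linear in t (fderiv is a linear map, also if not differentiable); if H y is Hermitian near x,
 then H . j i = star (H . i j) near x and fderiv of star o f is star o fderiv f (star is a continuous linear equivalence over the reals, no
 differentiability needed), so pd t H x is Hermitian.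
aa_sa: aa t H x * H x = (1/2) pd t H x = H x * (aa t H x)^* because pd t H x and H x are Hermitian.
q: write H x = Q Q* (positive definite); a(t) := Q^{-1} aa t H x Q is Hermitian by aa_sa, linear in t; q t t' H x = Re sum a(t)_ij star(a(t')_ij): this
 is a real symmetric bilinear positive semidefinite form in (t,t'): q_lin (linear in the first variable), q_comm (trace of a product is symmetric),
 q_nonneg, and Cauchy-Schwarz / AM-GM: |q t t'| <= (q t t + q t' t')/2 (q_abs). q_lin and q_comm need no hypothesis.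
qc_nonneg: c.1 q(e,e) + 2 c.2.1 q(e,f) + c.2.2 q(f,f) = Re sum over i,j of c11 |z|^2 + 2 c12 Re(z star w) + c22 |w|^2 with z = a(e)_ij, w = a(f)_ij,
 each term >= c11|z|^2 - 2 sqrt(c11 c22)|z||w| + c22|w|^2 >= 0.
qc_mono: if c' - c is positive semidefinite then qc e f c <= qc e f c' (qc is linear in c).
-/

namespace H80HM

open Matrix MeasureTheory Set Filter Topology
open scoped ComplexOrder

theorem pd_lin {m : ℕ} (H : ℝ × ℝ → Mt m) (x : ℝ × ℝ) (c c' : ℝ) (t t' : ℝ × ℝ) :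
    pd (c • t + c' • t') H x = (c : ℂ) • pd t H x + (c' : ℂ) • pd t' H x := by
  ext i j
  simp only [pd, Matrix.of_apply, Matrix.add_apply, Matrix.smul_apply, map_add, map_smul,
    Complex.real_smul, smul_eq_mul]

theorem pd_herm {m : ℕ} {H : ℝ × ℝ → Mt m} {x : ℝ × ℝ} (h : ∀ᶠ y in 𝓝 x, (H y).IsHermitian)
    (t : ℝ × ℝ) : (pd t H x).IsHermitian := by
  ext i j
  rw [Matrix.conjTranspose_apply]
  simp only [pd, Matrix.of_apply]
  have h1 : (fun y => H y i j) =ᶠ[𝓝 x] (fun y => Complex.conjCLE (H y j i)) := by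
    filter_upwards [h] with y hy
    have h2 := congrFun (congrFun hy i) j
    rw [Matrix.conjTranspose_apply] at h2
    rw [← h2]
    rfl
  rw [h1.fderiv_eq]
  have h3 : fderiv ℝ (fun y => Complex.conjCLE (H y j i)) x =
      (Complex.conjCLE : ℂ →L[ℝ] ℂ).comp (fderiv ℝ (fun y => H y j i) x) :=
    Complex.conjCLE.comp_fderiv
  rw [h3]
  rfl

theorem aa_lin {m : ℕ} (H : ℝ × ℝ → Mt m) (x : ℝ × ℝ) (c c' : ℝ) (t t' : ℝ × ℝ) :
    aa (c • t + c' • t') H x = (c : ℂ) • aa t H x + (c' : ℂ) • aa t' H x := by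
  unfold aa
  rw [pd_lin, Matrix.add_mul, Matrix.smul_mul, Matrix.smul_mul, smul_add, smul_comm,
    smul_comm (1 / 2 : ℂ) (c' : ℂ)]

theorem aa_sa {m : ℕ} {H : ℝ × ℝ → Mt m} {x : ℝ × ℝ} (h : ∀ᶠ y in 𝓝 x, (H y).PosDef)
    (t : ℝ × ℝ) : aa t H x * H x = H x * (aa t H x)ᴴ := by
  have h1 : (pd t H x).IsHermitian := pd_herm (h.mono fun y hy => hy.isHermitian) t
  have h2 : (H x).PosDef := h.self_of_nhds
  have h3 : IsUnit (H x).det := (Matrix.isUnit_iff_isUnit_det _).1 h2.isUnit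
  unfold aa
  rw [Matrix.conjTranspose_smul, Matrix.conjTranspose_mul, h1.eq, Matrix.conjTranspose_nonsing_inv,
    h2.isHermitian.eq, Matrix.smul_mul, Matrix.mul_smul, Matrix.mul_assoc, Matrix.nonsing_inv_mul _ h3,
    ← Matrix.mul_assoc (H x), Matrix.mul_nonsing_inv _ h3, Matrix.mul_one, Matrix.one_mul]
  congr 1
  simp

theorem q_comm {m : ℕ} (H : ℝ × ℝ → Mt m) (x : ℝ × ℝ) (t t' : ℝ × ℝ) :
    q t t' H x = q t' t H x := by
  unfold q
  rw [Matrix.trace_mul_comm]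

theorem q_lin {m : ℕ} (H : ℝ × ℝ → Mt m) (x : ℝ × ℝ) (c c' : ℝ) (t t' t'' : ℝ × ℝ) :
    q (c • t + c' • t') t'' H x = c * q t t'' H x + c' * q t' t'' H x := by
  unfold q
  rw [aa_lin, Matrix.add_mul, Matrix.smul_mul, Matrix.smul_mul, Matrix.trace_add,
    Matrix.trace_smul, Matrix.trace_smul, Complex.add_re, smul_eq_mul, smul_eq_mul,
    Complex.re_ofReal_mul, Complex.re_ofReal_mul]

private lemma Sgl_rep {m : ℕ} {H : ℝ × ℝ → Mt m} {x : ℝ × ℝ} (h : ∀ᶠ y in 𝓝 x, (H y).PosDef) :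
    ∃ b : ℝ × ℝ → Mt m, ∀ t t', q t t' H x = ∑ i, ∑ j, (b t i j * star (b t' i j)).re := by
  have h2 : (H x).PosDef := h.self_of_nhds
  have h3 : IsUnit (H x).det := (Matrix.isUnit_iff_isUnit_det _).1 h2.isUnit
  obtain ⟨B, hB⟩ : ∃ B : Mt m, H x = Bᴴ * B := by
    open scoped MatrixOrder in
    exact CStarAlgebra.nonneg_iff_eq_star_mul_self.mp h2.posSemidef.nonneg
  have hBu : IsUnit B.det := by
    rw [hB, Matrix.det_mul] at h3
    exact isUnit_of_mul_isUnit_right h3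
  have hBu' : IsUnit (Bᴴ).det := by
    rw [Matrix.det_conjTranspose]
    exact hBu.star
  refine ⟨fun t => (Bᴴ)⁻¹ * aa t H x * Bᴴ, fun t t' => ?_⟩
  have hherm : ((Bᴴ)⁻¹ * aa t' H x * Bᴴ)ᴴ = (Bᴴ)⁻¹ * aa t' H x * Bᴴ := by
    have e1 : ((Bᴴ)⁻¹ * aa t' H x * Bᴴ)ᴴ = B * (aa t' H x)ᴴ * B⁻¹ := by
      rw [Matrix.conjTranspose_mul, Matrix.conjTranspose_mul, Matrix.conjTranspose_conjTranspose,
        Matrix.conjTranspose_nonsing_inv, Matrix.conjTranspose_conjTranspose, Matrix.mul_assoc]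
    rw [e1]
    have e2 := aa_sa h t'
    rw [hB] at e2
    have e3 : (Bᴴ)⁻¹ * (aa t' H x * (Bᴴ * B)) * B⁻¹ = (Bᴴ)⁻¹ * ((Bᴴ * B) * (aa t' H x)ᴴ) * B⁻¹ := by
      rw [e2]
    have e4 : (Bᴴ)⁻¹ * (aa t' H x * (Bᴴ * B)) * B⁻¹ = (Bᴴ)⁻¹ * aa t' H x * Bᴴ := by
      simp only [Matrix.mul_assoc]
      rw [Matrix.mul_nonsing_inv _ hBu, Matrix.mul_one]
    have e5 : (Bᴴ)⁻¹ * ((Bᴴ * B) * (aa t' H x)ᴴ) * B⁻¹ = B * (aa t' H x)ᴴ * B⁻¹ := by
      simp only [Matrix.mul_assoc]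
      rw [← Matrix.mul_assoc (Bᴴ)⁻¹ Bᴴ, Matrix.nonsing_inv_mul _ hBu', Matrix.one_mul]
    rw [← e5, ← e3, e4]
  have htr : q t t' H x = (trace (((Bᴴ)⁻¹ * aa t H x * Bᴴ) * ((Bᴴ)⁻¹ * aa t' H x * Bᴴ))).re := by
    unfold q
    congr 1
    have e6 : ((Bᴴ)⁻¹ * aa t H x * Bᴴ) * ((Bᴴ)⁻¹ * aa t' H x * Bᴴ) =
        (Bᴴ)⁻¹ * (aa t H x * aa t' H x * Bᴴ) := by
      simp only [Matrix.mul_assoc]
      rw [← Matrix.mul_assoc Bᴴ (Bᴴ)⁻¹, Matrix.mul_nonsing_inv _ hBu', Matrix.one_mul]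
    rw [e6, Matrix.trace_mul_comm (Bᴴ)⁻¹, Matrix.mul_assoc, Matrix.mul_nonsing_inv _ hBu', Matrix.mul_one]
  rw [htr, Matrix.trace, Complex.re_sum]
  refine Finset.sum_congr rfl fun i _ => ?_
  rw [Matrix.diag_apply, Matrix.mul_apply, Complex.re_sum]
  refine Finset.sum_congr rfl fun j _ => ?_
  have e7 := congrFun (congrFun hherm j) i
  rw [Matrix.conjTranspose_apply] at e7
  rw [← e7]

theorem q_nonneg {m : ℕ} {H : ℝ × ℝ → Mt m} {x : ℝ × ℝ} (h : ∀ᶠ y in 𝓝 x, (H y).PosDef)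
    (t : ℝ × ℝ) : 0 ≤ q t t H x := by
  obtain ⟨b, hb⟩ := Sgl_rep h
  rw [hb]
  refine Finset.sum_nonneg fun i _ => Finset.sum_nonneg fun j _ => ?_
  rw [Complex.star_def, Complex.mul_conj, Complex.ofReal_re]
  exact Complex.normSq_nonneg _

private lemma Sgl_re (z w : ℂ) : (z * star w).re = z.re * w.re + z.im * w.im := by
  rw [Complex.star_def, Complex.mul_re, Complex.conj_re, Complex.conj_im]
  ring

theorem q_abs {m : ℕ} {H : ℝ × ℝ → Mt m} {x : ℝ × ℝ} (h : ∀ᶠ y in 𝓝 x, (H y).PosDef)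
    (t t' : ℝ × ℝ) : |q t t' H x| ≤ (q t t H x + q t' t' H x) / 2 := by
  obtain ⟨b, hb⟩ := Sgl_rep h
  rw [hb, hb, hb, ← Finset.sum_add_distrib, Finset.sum_div]
  refine (Finset.abs_sum_le_sum_abs _ _).trans (Finset.sum_le_sum fun i _ => ?_)
  rw [← Finset.sum_add_distrib, Finset.sum_div]
  refine (Finset.abs_sum_le_sum_abs _ _).trans (Finset.sum_le_sum fun j _ => ?_)
  rw [Sgl_re, Sgl_re, Sgl_re, abs_le]
  constructor
  · nlinarith [sq_nonneg ((b t i j).re + (b t' i j).re), sq_nonneg ((b t i j).im + (b t' i j).im)]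
  · nlinarith [sq_nonneg ((b t i j).re - (b t' i j).re), sq_nonneg ((b t i j).im - (b t' i j).im)]

private lemma Sgl_form {c : ℝ × ℝ × ℝ} (hc : Psd c) (u v : ℝ) :
    0 ≤ c.1 * (u * u) + 2 * c.2.1 * (u * v) + c.2.2 * (v * v) := by
  obtain ⟨h1, h2, h3⟩ := hc
  rcases h1.eq_or_lt with h0 | h0
  · rw [← h0, zero_mul] at h3
    have h4 : c.2.1 = 0 := by
      have := sq_nonneg c.2.1
      exact pow_eq_zero_iff (two_ne_zero) |>.1 (le_antisymm h3 this)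
    rw [← h0, h4]
    have := mul_nonneg h2 (mul_self_nonneg v)
    linarith
  · have h5 : 0 ≤ c.1 * (c.1 * (u * u) + 2 * c.2.1 * (u * v) + c.2.2 * (v * v)) := by
      have h6 : c.1 * (c.1 * (u * u) + 2 * c.2.1 * (u * v) + c.2.2 * (v * v)) =
          (c.1 * u + c.2.1 * v) ^ 2 + (c.1 * c.2.2 - c.2.1 ^ 2) * (v * v) := by ring
      rw [h6]
      have := mul_nonneg (sub_nonneg.2 h3) (mul_self_nonneg v)
      positivity
    exact nonneg_of_mul_nonneg_right h5 h0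

theorem qc_nonneg {m : ℕ} {H : ℝ × ℝ → Mt m} {x : ℝ × ℝ} (h : ∀ᶠ y in 𝓝 x, (H y).PosDef)
    (e f : ℝ × ℝ) {c : ℝ × ℝ × ℝ} (hc : Psd c) : 0 ≤ qc e f c H x := by
  obtain ⟨b, hb⟩ := Sgl_rep h
  unfold qc
  rw [hb, hb, hb, Finset.mul_sum, Finset.mul_sum, Finset.mul_sum, ← Finset.sum_add_distrib,
    ← Finset.sum_add_distrib]
  refine Finset.sum_nonneg fun i _ => ?_
  rw [Finset.mul_sum, Finset.mul_sum, Finset.mul_sum, ← Finset.sum_add_distrib,
    ← Finset.sum_add_distrib]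
  refine Finset.sum_nonneg fun j _ => ?_
  rw [Sgl_re, Sgl_re, Sgl_re]
  have h1 := Sgl_form hc (b e i j).re (b f i j).re
  have h2 := Sgl_form hc (b e i j).im (b f i j).im
  nlinarith [h1, h2]

theorem qc_mono {m : ℕ} {H : ℝ × ℝ → Mt m} {x : ℝ × ℝ} (h : ∀ᶠ y in 𝓝 x, (H y).PosDef)
    (e f : ℝ × ℝ) {c c' : ℝ × ℝ × ℝ}
    (hc : Psd (c'.1 - c.1, c'.2.1 - c.2.1, c'.2.2 - c.2.2)) :
    qc e f c H x ≤ qc e f c' H x := by
  have h1 := qc_nonneg h e f hc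
  unfold qc at *
  simp only at h1
  nlinarith [h1]

end H80HM
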