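import Pool.Agent.H80.HM.Aed
import Pool.Agent.H80.HM.Sgl

set_option autoImplicit false

/-!
# Row Mea: measurability and integrability of the densities

* fderiv of an arbitrary function applied to a fixed vector is measurable (Mathlib: measurable_fderiv_apply_const), so every entry of pd t F is
  measurable. Entries of H, H^{-1}, X are continuous on the open set U (lz_cont, lz_inv, u_sub), hence ae strongly measurable for
  volume.restrict U. q, dn, ln are real parts of polynomials in these entries.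
* q_int: near every x in U the metric is positive definite (U open, u_sub), so the pointwise facts of row Sgl hold at every x in U.
  t = t.1 (1,0) + t.2 (0,1): q t t = t.1^2 q11 + 2 t.1 t.2 q12 + t.2^2 q22 <= 2 t.1^2 q11 + 2 t.2^2 q22 <= 2 (t.1^2 + t.2^2)(q11 + q22), and
  |q t t'| <= (q t t + q t' t')/2. Dominated by a multiple of the integrable function of the field fin.
* qc_int, en_lin: linear combinations.
* n2_int: the functions qc of a Kf metric etc. are covered by q_int because Kf is again in Cl (row Kcl).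
-/

namespace H80HM

open Matrix MeasureTheory Set Filter Topology
open scoped ComplexOrder

theorem Mea_isOpen : IsOpen U := isOpen_Ioo.prod isOpen_Ioo

theorem pos_near {m : ℕ} {H : ℝ × ℝ → Mt m} (hp : ∀ x ∈ D \ P, (H x).PosDef)
    {x : ℝ × ℝ} (hx : x ∈ U) : ∀ᶠ y in 𝓝 x, (H y).PosDef := by
  filter_upwards [Mea_isOpen.mem_nhds hx] with y hy
  exact hp y (u_sub hy)

/-- entrywise measurability -/
def Mea_AM {m : ℕ} (F : ℝ × ℝ → Mt m) : Prop :=
  ∀ i j, AEStronglyMeasurable (fun x => F x i j) (volume.restrict U)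

theorem Mea_pd {m : ℕ} (t : ℝ × ℝ) (F : ℝ × ℝ → Mt m) : Mea_AM (pd t F) := by
  intro i j
  exact (measurable_fderiv_apply_const ℝ (fun y => F y i j) t).aestronglyMeasurable

theorem Mea_lz {m : ℕ} {F : ℝ × ℝ → Mt m} (h : Lz F) : Mea_AM F := by
  intro i j
  exact ((lz_cont h i j).mono u_sub).aestronglyMeasurable Mea_isOpen.measurableSet

theorem Mea_inv {m : ℕ} {H : ℝ × ℝ → Mt m} (h : Lz H) (hp : ∀ x ∈ D \ P, (H x).PosDef) :
    Mea_AM (fun x => (H x)⁻¹) := by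
  apply Mea_lz
  apply lz_inv h
  intro x hx
  exact (Matrix.isUnit_iff_isUnit_det _).1 (hp x hx).isUnit

theorem Mea_mul {m : ℕ} {F G : ℝ × ℝ → Mt m} (hF : Mea_AM F) (hG : Mea_AM G) :
    Mea_AM (fun x => F x * G x) := by
  intro i j
  have h1 : (fun x => (F x * G x) i j) = fun x => ∑ k, F x i k * G x k j := by
    funext x
    exact Matrix.mul_apply
  rw [h1]
  exact Finset.aestronglyMeasurable_fun_sum _ fun k _ => (hF i k).mul (hG k j)

theorem Mea_smul {m : ℕ} {F : ℝ × ℝ → Mt m} (c : ℂ) (hF : Mea_AM F) :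
    Mea_AM (fun x => c • F x) := by
  intro i j
  exact (hF i j).const_mul c

theorem Mea_sub {m : ℕ} {F G : ℝ × ℝ → Mt m} (hF : Mea_AM F) (hG : Mea_AM G) :
    Mea_AM (fun x => F x - G x) := by
  intro i j
  exact (hF i j).sub (hG i j)

theorem Mea_star {m : ℕ} {F : ℝ × ℝ → Mt m} (hF : Mea_AM F) :
    Mea_AM (fun x => (F x)ᴴ) := by
  intro i j
  exact Complex.continuous_conj.comp_aestronglyMeasurable (hF j i)

theorem Mea_tr {m : ℕ} {F : ℝ × ℝ → Mt m} (hF : Mea_AM F) :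
    AEStronglyMeasurable (fun x => (trace (F x)).re) (volume.restrict U) := by
  have h1 : AEStronglyMeasurable (fun x => trace (F x)) (volume.restrict U) := by
    have h2 : (fun x => trace (F x)) = fun x => ∑ k, F x k k := by
      funext x
      rfl
    rw [h2]
    exact Finset.aestronglyMeasurable_fun_sum _ fun k _ => hF k k
  exact Complex.continuous_re.comp_aestronglyMeasurable h1

theorem Mea_aa {m : ℕ} {H : ℝ × ℝ → Mt m} (h : Lz H) (hp : ∀ x ∈ D \ P, (H x).PosDef)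
    (t : ℝ × ℝ) : Mea_AM (aa t H) :=
  Mea_smul _ (Mea_mul (Mea_pd t H) (Mea_inv h hp))

theorem q_meas {m : ℕ} {H : ℝ × ℝ → Mt m} (h : Lz H) (hp : ∀ x ∈ D \ P, (H x).PosDef)
    (t t' : ℝ × ℝ) : AEStronglyMeasurable (q t t' H) (volume.restrict U) :=
  Mea_tr (Mea_mul (Mea_aa h hp t) (Mea_aa h hp t'))

theorem Mea_n2 {m : ℕ} {H Y : ℝ × ℝ → Mt m} (h : Lz H) (hp : ∀ x ∈ D \ P, (H x).PosDef)
    (hY : Mea_AM Y) : AEStronglyMeasurable (fun x => n2 (H x) (Y x)) (volume.restrict U) :=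
  Mea_tr (Mea_mul (Mea_mul (Mea_mul hY (Mea_lz h)) (Mea_star hY)) (Mea_inv h hp))

theorem dn_meas {m : ℕ} {H X : ℝ × ℝ → Mt m} (h : Lz H) (hp : ∀ x ∈ D \ P, (H x).PosDef)
    (_hX : Lz X) (t : ℝ × ℝ) : AEStronglyMeasurable (dn t H X) (volume.restrict U) :=
  Mea_n2 h hp (Mea_pd t X)

theorem ln_meas {m : ℕ} {H X : ℝ × ℝ → Mt m} (h : Lz H) (hp : ∀ x ∈ D \ P, (H x).PosDef)
    (_hX : Lz X) (t t' : ℝ × ℝ) : AEStronglyMeasurable (ln t t' H X) (volume.restrict U) :=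
  Mea_tr (Mea_mul (Mea_aa h hp t) (Mea_pd t' X))

theorem Mea_nab {m : ℕ} {H X : ℝ × ℝ → Mt m} (h : Lz H) (hp : ∀ x ∈ D \ P, (H x).PosDef)
    (hX : Lz X) (t : ℝ × ℝ) : Mea_AM (nab t H X) :=
  Mea_sub (Mea_pd t X) (Mea_sub (Mea_mul (Mea_aa h hp t) (Mea_lz hX))
    (Mea_mul (Mea_lz hX) (Mea_aa h hp t)))

theorem nab_meas {m : ℕ} {H X : ℝ × ℝ → Mt m} (h : Lz H) (hp : ∀ x ∈ D \ P, (H x).PosDef)
    (hX : Lz X) (e f : ℝ × ℝ) : AEStronglyMeasurable
      (fun x => n2 (H x) (nab e H X x - Complex.I • nab f H X x)) (volume.restrict U) :=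
  Mea_n2 h hp (Mea_sub (Mea_nab h hp hX e) (Mea_smul _ (Mea_nab h hp hX f)))

theorem Mea_qq {m : ℕ} {H : ℝ × ℝ → Mt m} {x : ℝ × ℝ} (h : ∀ᶠ y in 𝓝 x, (H y).PosDef)
    (t : ℝ × ℝ) : q t t H x ≤ 2 * (t.1 ^ 2 + t.2 ^ 2) *
      (q (1, 0) (1, 0) H x + q (0, 1) (0, 1) H x) := by
  have ht : t = t.1 • ((1, 0) : ℝ × ℝ) + t.2 • ((0, 1) : ℝ × ℝ) := by
    ext <;> simp
  have h1 : ∀ s, q t s H x = t.1 * q (1, 0) s H x + t.2 * q (0, 1) s H x := by
    intro s
    conv_lhs => rw [ht]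
    exact q_lin H x _ _ _ _ _
  have h2 : q t t H x = t.1 * (t.1 * q (1, 0) (1, 0) H x + t.2 * q (0, 1) (1, 0) H x) +
      t.2 * (t.1 * q (1, 0) (0, 1) H x + t.2 * q (0, 1) (0, 1) H x) := by
    rw [h1 t, q_comm H x (1, 0) t, q_comm H x (0, 1) t, h1 (1, 0), h1 (0, 1)]
  have h3 := q_nonneg h (1, 0)
  have h4 := q_nonneg h (0, 1)
  have h5 := q_abs h (1, 0) (0, 1)
  rw [q_comm H x (0, 1) (1, 0)] at h2
  have h6 : t.1 * t.2 * q (1, 0) (0, 1) H x ≤
      (t.1 ^ 2 + t.2 ^ 2) / 2 * ((q (1, 0) (1, 0) H x + q (0, 1) (0, 1) H x) / 2) := by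
    have h7 : |t.1 * t.2| ≤ (t.1 ^ 2 + t.2 ^ 2) / 2 := by
      rw [abs_le]
      constructor <;> nlinarith [sq_nonneg (t.1 + t.2), sq_nonneg (t.1 - t.2)]
    calc t.1 * t.2 * q (1, 0) (0, 1) H x ≤ |t.1 * t.2 * q (1, 0) (0, 1) H x| := le_abs_self _
      _ = |t.1 * t.2| * |q (1, 0) (0, 1) H x| := abs_mul _ _
      _ ≤ _ := mul_le_mul h7 h5 (abs_nonneg _) (by positivity)
  rw [h2]
  nlinarith [mul_nonneg (sq_nonneg t.1) h3, mul_nonneg (sq_nonneg t.2) h3,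
    mul_nonneg (sq_nonneg t.1) h4, mul_nonneg (sq_nonneg t.2) h4]

theorem q_int {m : ℕ} {A B C : Mt m} {H : ℝ × ℝ → Mt m} (h : Cl A B C H) (t t' : ℝ × ℝ) :
    IntegrableOn (q t t' H) U := by
  have hK := h.fin.const_mul ((t.1 ^ 2 + t.2 ^ 2) + (t'.1 ^ 2 + t'.2 ^ 2))
  refine hK.mono' (q_meas h.lip h.pos t t') ?_
  filter_upwards [ae_restrict_mem Mea_isOpen.measurableSet] with x hx
  have hn := pos_near h.pos hx
  have h1 := Mea_qq hn t
  have h2 := Mea_qq hn t'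
  have h3 := q_abs hn t t'
  rw [Real.norm_eq_abs]
  calc |q t t' H x| ≤ (q t t H x + q t' t' H x) / 2 := h3
    _ ≤ (2 * (t.1 ^ 2 + t.2 ^ 2) * (q (1, 0) (1, 0) H x + q (0, 1) (0, 1) H x) +
      2 * (t'.1 ^ 2 + t'.2 ^ 2) * (q (1, 0) (1, 0) H x + q (0, 1) (0, 1) H x)) / 2 := by
        linarith
    _ = _ := by ring

theorem qc_int {m : ℕ} {A B C : Mt m} {H : ℝ × ℝ → Mt m} (h : Cl A B C H) (e f : ℝ × ℝ)
    (c : ℝ × ℝ × ℝ) : IntegrableOn (qc e f c H) U := by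
  have h1 := (q_int h e e).const_mul c.1
  have h2 := (q_int h e f).const_mul (2 * c.2.1)
  have h3 := (q_int h f f).const_mul c.2.2
  exact (h1.add h2).add h3

theorem en_lin {m : ℕ} {A B C : Mt m} {H : ℝ × ℝ → Mt m} (h : Cl A B C H) (e f : ℝ × ℝ)
    (c : ℝ × ℝ × ℝ) : En e f c H =
      c.1 * (∫ x in U, q e e H x) + 2 * c.2.1 * (∫ x in U, q e f H x) +
        c.2.2 * (∫ x in U, q f f H x) := by
  have h1 := (q_int h e e).const_mul c.1
  have h2 := (q_int h e f).const_mul (2 * c.2.1)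
  have h3 := (q_int h f f).const_mul c.2.2
  calc En e f c H = ∫ x in U, ((c.1 * q e e H x + 2 * c.2.1 * q e f H x) +
        c.2.2 * q f f H x) := rfl
    _ = (∫ x in U, (c.1 * q e e H x + 2 * c.2.1 * q e f H x)) +
        ∫ x in U, c.2.2 * q f f H x := integral_add (h1.add h2) h3
    _ = ((∫ x in U, c.1 * q e e H x) + ∫ x in U, 2 * c.2.1 * q e f H x) +
        ∫ x in U, c.2.2 * q f f H x := by rw [integral_add h1 h2]
    _ = _ := by simp only [integral_const_mul]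

theorem en_nonneg {m : ℕ} {A B C : Mt m} {H : ℝ × ℝ → Mt m} (h : Cl A B C H) (e f : ℝ × ℝ)
    {c : ℝ × ℝ × ℝ} (hc : Psd c) : 0 ≤ En e f c H := by
  refine setIntegral_nonneg Mea_isOpen.measurableSet fun x hx => ?_
  exact qc_nonneg (pos_near h.pos hx) e f hc

theorem en_mono {m : ℕ} {A B C : Mt m} {H : ℝ × ℝ → Mt m} (h : Cl A B C H) (e f : ℝ × ℝ)
    {c c' : ℝ × ℝ × ℝ} (hc : Psd (c'.1 - c.1, c'.2.1 - c.2.1, c'.2.2 - c.2.2)) :
    En e f c H ≤ En e f c' H := by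
  refine setIntegral_mono_on (qc_int h e f c) (qc_int h e f c') Mea_isOpen.measurableSet
    fun x hx => ?_
  exact qc_mono (pos_near h.pos hx) e f hc

end H80HM
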