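import Pool.Agent.H80.HM.Cc1
import Pool.Agent.H80.HM.Mea

set_option autoImplicit false

/-!
# Row Cc3: the energy of the bottom metric

k from wb_bd, K from fw_q w k. At almost every x in U (th_ae) th1, th2, SS S0 R are differentiable at x. Then the entries of Wb are differentiable at x, pd t (Wb al ga) x = (D_t th1)(al - 1) + (D_t th2)(ga - al) (entrywise: fderiv of a sum of constants times real functions composed with Complex.ofReal), so for t = (1,0), (0,1):
 sum_ij |pd t W x i j|^2 <= 4 (12/rr x)^2 K0, K0 := sum of |al - 1|^2 + |ga - al|^2 over all entries (th_fd; (a+b)^2 <= 2a^2 + 2b^2).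
 q t t Hbo x = q t t (Fw w (Wb al ga) (SS S0 R)) x (q_congr, with fw_da for the differentiability of the entries) <= K (exp(-2 SS) sum |pd t W|^2 + (D_t SS)^2) (fw_q: Uni at all y by wb_uni, entries bounded at x in D, SS >= S0 >= 0 by ss_ge).
 (D_t SS x)^2 <= g2(x) := if rr x < exp(-R) then 1/(rr x log(1/rr x))^2 else 0, for almost every x: ss_fd covers rr x < exp(-R) and rr x > exp(-R); the set {x in U : rr x = exp(-R)} is a null set: it is contained in the union of the lines x.1 = c, |x.1 - 1/2| = c, 1 - x.1 = c, x.2 = c with c = exp(-R) (finitely many lines; each is a null set: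
   Measure.addHaar_affineSubspace or volume of {a} x R by Measure.prod_prod).
 So for almost every x in U: q11 + q22 <= 2K (4 * 144 K0 exp(-2 SS)/rr^2 + g2 x), which is integrable with integral <= 2K (576 K0 * 16 R exp(-2 S0) + 8/R) (g1_int, g2_int) <= ka (R exp(-2 S0) + 1/R).
 IntegrableOn by domination: measurability q_meas (Mea) needs Lz Hbo and PosDef on D minus P: hb_lip with the fact that P0 is contained in P (points at distance >= d from P are at distance >= d from P0; Lz uses Dd d = points of D with d <= dist to all p in P), hb_pos. q >= 0: q t t H x >= 0 for positive definite H near x (search q_nonneg in the HM files), used for the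
 absolute value in the domination (Integrable.mono').
-/

namespace H80HM

open Matrix MeasureTheory Set
open scoped ComplexOrder

variable {m : ℕ} {w : Fin m → ℕ} {Q al ga : Mt m}

theorem Cc3_pd (al ga : Mt m) {x : ℝ × ℝ} (h1 : DifferentiableAt ℝ th1 x)
    (h2 : DifferentiableAt ℝ th2 x) (i j : Fin m) :
    HasFDerivAt (fun y => Wb al ga y i j)
      ((fderiv ℝ th1 x).smulRight ((al - 1) i j) + (fderiv ℝ th2 x).smulRight ((ga - al) i j)) x := by
  have e : (fun y => Wb al ga y i j) = fun y =>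
      (1 : Mt m) i j + (th1 y • (al - 1) i j + th2 y • (ga - al) i j) := by
    funext y
    rw [Wb, Matrix.add_apply, Matrix.add_apply, Matrix.smul_apply, Matrix.smul_apply,
      Complex.real_smul, Complex.real_smul, smul_eq_mul, smul_eq_mul, add_assoc]
  rw [e]
  exact ((h1.hasFDerivAt.smul_const _).add (h2.hasFDerivAt.smul_const _)).const_add _

/-- the size of the two matrices -/
noncomputable def Cc3_K (al ga : Mt m) : ℝ := ∑ i, ∑ j, (‖(al - 1) i j‖ ^ 2 + ‖(ga - al) i j‖ ^ 2)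

theorem Cc3_K0 (al ga : Mt m) : 0 ≤ Cc3_K al ga :=
  Finset.sum_nonneg fun _ _ => Finset.sum_nonneg fun _ _ => by positivity

theorem Cc3_sum (al ga : Mt m) {x : ℝ × ℝ} (h1 : DifferentiableAt ℝ th1 x)
    (h2 : DifferentiableAt ℝ th2 x) (t : ℝ × ℝ) {c : ℝ} (b1 : |fderiv ℝ th1 x t| ≤ c)
    (b2 : |fderiv ℝ th2 x t| ≤ c) :
    ∑ i, ∑ j, ‖pd t (Wb al ga) x i j‖ ^ 2 ≤ 2 * c ^ 2 * Cc3_K al ga := by
  rw [Cc3_K, Finset.mul_sum]
  refine Finset.sum_le_sum fun i _ => ?_
  rw [Finset.mul_sum]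
  refine Finset.sum_le_sum fun j _ => ?_
  have e : pd t (Wb al ga) x i j =
      (fderiv ℝ th1 x t) • (al - 1) i j + (fderiv ℝ th2 x t) • (ga - al) i j := by
    show fderiv ℝ (fun y => Wb al ga y i j) x t = _
    rw [(Cc3_pd al ga h1 h2 i j).fderiv]
    rfl
  have hn : ‖pd t (Wb al ga) x i j‖ ≤ c * ‖(al - 1) i j‖ + c * ‖(ga - al) i j‖ := by
    rw [e]
    refine (norm_add_le _ _).trans ?_
    rw [norm_smul, norm_smul, Real.norm_eq_abs, Real.norm_eq_abs]
    exact add_le_add (mul_le_mul_of_nonneg_right b1 (norm_nonneg _))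
      (mul_le_mul_of_nonneg_right b2 (norm_nonneg _))
  have hs := pow_le_pow_left₀ (norm_nonneg _) hn 2
  refine hs.trans ?_
  nlinarith [sq_nonneg (c * ‖(al - 1) i j‖ - c * ‖(ga - al) i j‖)]

theorem Cc3_ss (S0 : ℝ) {R : ℝ} (hR : 2 ≤ R) {x : ℝ × ℝ} (hx : x ∈ U) :
    (fderiv ℝ (SS S0 R) x (1, 0)) ^ 2 ≤
      (if rr x < Real.exp (-R) then 1 / (rr x * Real.log (1 / rr x)) ^ 2 else 0) ∧
    (fderiv ℝ (SS S0 R) x (0, 1)) ^ 2 ≤
      (if rr x < Real.exp (-R) then 1 / (rr x * Real.log (1 / rr x)) ^ 2 else 0) := by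
  by_cases h : rr x < Real.exp (-R)
  · obtain ⟨h1, h2⟩ := (ss_fd S0 hR hx).1 h
    rw [if_pos h]
    have e : (1:ℝ) / (rr x * Real.log (1 / rr x)) ^ 2 = (1 / (rr x * Real.log (1 / rr x))) ^ 2 := by
      rw [div_pow, one_pow]
    rw [e]
    exact ⟨sq_le_sq' (by linarith [neg_abs_le (fderiv ℝ (SS S0 R) x (1, 0))])
      ((le_abs_self _).trans h1),
      sq_le_sq' (by linarith [neg_abs_le (fderiv ℝ (SS S0 R) x (0, 1))])
      ((le_abs_self _).trans h2)⟩
  · rw [if_neg h]
    have hxD := (u_sub hx).1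
    have hxP : x ∉ P0 := fun h0 => by
      have h1 : x.2 = 0 := h0.2
      have h2 : 0 < x.2 := hx.2.1
      linarith
    have hS : SS S0 R x = S0 := by
      rw [SS, Cbt_zero hR (rr_pos hxD hxP) (rr_le hxD).1 (not_lt.1 h), add_zero]
    have hm : IsLocalMin (SS S0 R) x := Filter.Eventually.of_forall fun y => by
      rw [hS]
      exact ss_ge S0 R y
    rw [hm.fderiv_eq_zero]
    simp

theorem Cc3_lz (Q : Mt m) (w : Fin m → ℕ) (al ga : Mt m) {R S0 : ℝ} (hR : 2 ≤ R) (hS : 0 ≤ S0) :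
    Lz (Hbo Q w al ga S0 R) := by
  intro d hd
  obtain ⟨K, hK⟩ := hb_lip Q w al ga hR hS d hd
  have hP : P0 ⊆ P := by
    rintro p ⟨h1, h2⟩
    exact ⟨h1, Or.inl h2⟩
  exact ⟨K, fun x hx y hy => hK x hx.1 y hy.1 (fun p hp => hx.2 p (hP hp))
    (fun p hp => hy.2 p (hP hp))⟩

theorem hb_int (hQ : IsUnit Q.det) (hal : Uni w al) (hga : Uni w ga) :
    ∃ ka : ℝ, 0 < ka ∧ ∀ R S0 : ℝ, 2 ≤ R → 0 ≤ S0 →
      IntegrableOn (fun x => q (1, 0) (1, 0) (Hbo Q w al ga S0 R) x +
        q (0, 1) (0, 1) (Hbo Q w al ga S0 R) x) U ∧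
      ∫ x in U, (q (1, 0) (1, 0) (Hbo Q w al ga S0 R) x +
        q (0, 1) (0, 1) (Hbo Q w al ga S0 R) x) ≤ ka * (R * Real.exp (-2 * S0) + 1 / R) := by
  obtain ⟨k, hk1, hk⟩ := wb_bd al ga
  obtain ⟨K, hK0, hK⟩ := fw_q w k
  have hKK := Cc3_K0 al ga
  refine ⟨2 * K * (4608 * Cc3_K al ga + 8) + 1, by positivity, fun R S0 hR hS => ?_⟩
  have hR0 : 0 < R := by linarith
  obtain ⟨g1i, g1b⟩ := g1_int S0 hR
  obtain ⟨g2i, g2b⟩ := g2_int hR
  have hUm : MeasurableSet U := Mea_isOpen.measurableSet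
  have hpos : ∀ x ∈ D \ P, (Hbo Q w al ga S0 R x).PosDef := fun x _ =>
    hb_pos hQ hal hga S0 R x
  have hlz := Cc3_lz Q w al ga hR hS
  have key : ∀ᵐ x ∂(volume.restrict U), q (1, 0) (1, 0) (Hbo Q w al ga S0 R) x +
      q (0, 1) (0, 1) (Hbo Q w al ga S0 R) x ≤
      2 * K * (288 * Cc3_K al ga * (Real.exp (-2 * SS S0 R x) / rr x ^ 2) +
        (if rr x < Real.exp (-R) then 1 / (rr x * Real.log (1 / rr x)) ^ 2 else 0)) := by
    filter_upwards [th_ae S0 hR, ae_restrict_mem hUm] with x hx hxU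
    obtain ⟨d1, d2, d3⟩ := hx
    obtain ⟨b1, b2, b3, b4⟩ := th_fd hxU
    obtain ⟨s1, s2⟩ := Cc3_ss S0 hR hxU
    have dW : ∀ i j, DifferentiableAt ℝ (fun y => Wb al ga y i j) x := fun i j =>
      (Cc3_pd al ga d1 d2 i j).differentiableAt
    have hxD := (u_sub hxU).1
    have hS0 : 0 ≤ SS S0 R x := hS.trans (ss_ge S0 R x)
    have hq : ∀ t, q t t (Hbo Q w al ga S0 R) x = q t t (Fw w (Wb al ga) (SS S0 R)) x := fun t =>
      q_congr hQ (fw_da w dW d3) t t
    have hu : ∀ t, q t t (Fw w (Wb al ga) (SS S0 R)) x ≤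
        K * (Real.exp (-2 * SS S0 R x) * (∑ i, ∑ j, ‖pd t (Wb al ga) x i j‖ ^ 2) +
          (fderiv ℝ (SS S0 R) x t) ^ 2) := fun t =>
      hK (Wb al ga) (SS S0 R) x t (Filter.Eventually.of_forall fun y => wb_uni hal hga y)
        (hk x hxD) dW d3 hS0
    have w1 := Cc3_sum al ga d1 d2 (1, 0) b1 b3
    have w2 := Cc3_sum al ga d1 d2 (0, 1) b2 b4
    have hE : 0 < Real.exp (-2 * SS S0 R x) := Real.exp_pos _
    have e1 : 2 * (12 / rr x) ^ 2 * Cc3_K al ga = 288 * Cc3_K al ga / rr x ^ 2 := by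
      rw [div_pow]
      ring
    rw [e1] at w1 w2
    have v1 := mul_le_mul_of_nonneg_left (add_le_add (mul_le_mul_of_nonneg_left w1 hE.le) s1) hK0
    have v2 := mul_le_mul_of_nonneg_left (add_le_add (mul_le_mul_of_nonneg_left w2 hE.le) s2) hK0
    rw [hq, hq]
    have e2 : Real.exp (-2 * SS S0 R x) * (288 * Cc3_K al ga / rr x ^ 2) =
        288 * Cc3_K al ga * (Real.exp (-2 * SS S0 R x) / rr x ^ 2) := by ring
    rw [e2] at v1 v2
    have u1 := (hu (1, 0)).trans v1
    have u2 := (hu (0, 1)).trans v2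
    linarith
  have hgi : IntegrableOn (fun x => 2 * K * (288 * Cc3_K al ga *
      (Real.exp (-2 * SS S0 R x) / rr x ^ 2) +
        (if rr x < Real.exp (-R) then 1 / (rr x * Real.log (1 / rr x)) ^ 2 else 0))) U :=
    ((g1i.const_mul _).add g2i).const_mul _
  have hint : IntegrableOn (fun x => q (1, 0) (1, 0) (Hbo Q w al ga S0 R) x +
        q (0, 1) (0, 1) (Hbo Q w al ga S0 R) x) U := by
    refine Integrable.mono' hgi ((q_meas hlz hpos _ _).add (q_meas hlz hpos _ _)) ?_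
    filter_upwards [key, ae_restrict_mem hUm] with x hx hxU
    have hn := pos_near hpos hxU
    rw [Real.norm_eq_abs, abs_of_nonneg (add_nonneg (q_nonneg hn _) (q_nonneg hn _))]
    exact hx
  refine ⟨hint, (integral_mono_ae hint hgi key).trans ?_⟩
  rw [integral_const_mul, integral_add (g1i.const_mul _) g2i, integral_const_mul]
  have hRE : 0 ≤ R * Real.exp (-2 * S0) := by positivity
  have h1R : 0 ≤ 1 / R := by positivity
  have i1 := mul_le_mul_of_nonneg_left g1b (by positivity : 0 ≤ 288 * Cc3_K al ga)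
  have i2 : 2 * K * (288 * Cc3_K al ga * (16 * R * Real.exp (-2 * S0)) + 8 / R) ≤
      (2 * K * (4608 * Cc3_K al ga + 8) + 1) * (R * Real.exp (-2 * S0) + 1 / R) := by
    have e3 : 2 * K * (288 * Cc3_K al ga * (16 * R * Real.exp (-2 * S0)) + 8 / R) =
        2 * K * 4608 * Cc3_K al ga * (R * Real.exp (-2 * S0)) + 2 * K * 8 * (1 / R) := by ring
    rw [e3]
    have j1 : 0 ≤ 2 * K * 8 * (R * Real.exp (-2 * S0)) := by positivity
    have j2 : 0 ≤ 2 * K * 4608 * Cc3_K al ga * (1 / R) := by positivity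
    linarith
  refine le_trans ?_ i2
  exact mul_le_mul_of_nonneg_left (add_le_add i1 g2b) (by positivity)

end H80HM
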