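import Pool.Agent.H80.HM.Cc1

set_option autoImplicit false

/-!
# Row Cc4: pointwise bound of q (1,0)(1,0) of the bottom metric above the line v = 1/6

x in U with 1/6 < x.2, entries of Hb := Hbo Q w al ga S0 R differentiable at x. Near x: SS = S0 (ss_const; points of U near x have second coordinate > 1/6). Let u -> G(h) := Hb (x.1 + h, x.2) for small real h, G(0) = Hb x, H' := derivative of G at 0 = pd (1,0) Hb x entrywise.
 P(h) := Q * W(h) * L with W(h) = Wb al ga (x.1 + h, x.2), L = lamS w S0 (invertible: Cba_lam_det, Hermitian: Cba_lamH), so G(h) = P(h) P(h)*. Put Y(h) := P(0)^{-1} P(h) = 1 + L^{-1} W(0)^{-1} (W(h) - W(0)) L. N(h) := W(0)^{-1}(W(h) - W(0)) has N(h) i j = 0 unless w i < w j (W(h), W(0) are Uni, so the inverse of W(0) is Uni (adjugate or: Uni is closed under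
 inverse; a direct argument: W(0)^{-1} W(h) is Uni, because products and inverses of Uni matrices are Uni (Cba_up_mul, Cba_bdg_mul; inverse: from W W^{-1} = 1 with block upper triangular inverse; or Cba_adj for the size of W(0)^{-1}: entries <= m! k^m since det = 1)), and |N(h) i j| <= K1 |h| (th1, th2 are Lipschitz on {rr >= 1/6}: th_lip with c = 1/6; rr_v).
 (L^{-1} N L) i j = exp(S0 w i) N i j exp(-S0 w j) has modulus <= exp(-S0) |N i j| when w i < w j (integers: w j - w i >= 1, S0 >= 0), zero otherwise. So Y(h) = 1 + Z(h), |Z(h) i j| <= K1 exp(-S0)|h|.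
 P(0)^{-1} G(h) P(0)^{-*} = Y Y* = 1 + Z + Z* + Z Z*, so the derivative M := P(0)^{-1} H' P(0)^{-*} = lim (Z + Z* + Z Z*)/h has entries <= 2 K1 exp(-S0) (limit of entries bounded by 2 K1 exp(-S0) + m K1^2 exp(-2 S0)|h|).
 q (1,0)(1,0) Hb x = Re tr((1/2 H' Hb^{-1})^2) = (1/4) Re tr(P M P* (P P*)^{-1} P M P* (P P*)^{-1}) = (1/4) Re tr(M M) <= (1/4) m^2 (2 K1 exp(-S0))^2 = m^2 K1^2 exp(-2 S0) (trace is invariant under conjugation by P). ka := m^2 K1^2 + 1.
 (differentiability of the entries at x gives the derivative along the line: HasFDerivAt.hasLineDerivAt or comp with h -> (x.1 + h, x.2).)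
-/

namespace H80HM

open Matrix MeasureTheory Set Filter Topology
open scoped ComplexOrder

variable {m : ℕ} {w : Fin m → ℕ} {Q al ga : Mt m}

/-- the zero pattern of powers -/
theorem Cc4_pow_zero (w : Fin m → ℕ) {N : Mt m} (hN : ∀ i j, w j ≤ w i → N i j = 0)
    (k : ℕ) : ∀ i j, w j < w i + k → (N ^ k) i j = 0 := by
  induction k with
  | zero =>
    intro i j h
    rw [pow_zero, Matrix.one_apply_ne]
    rintro rfl
    omega
  | succ k ih =>
    intro i j h
    rw [pow_succ, Matrix.mul_apply]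
    refine Finset.sum_eq_zero fun l _ => ?_
    by_cases hl : w l < w i + k
    · rw [ih i l hl, zero_mul]
    · rw [hN l j (by omega), mul_zero]

theorem Cc4_pow_bd {N : Mt m} {c : ℝ} (hN : ∀ i j, ‖N i j‖ ≤ c) (hc : 0 ≤ c)
    (k : ℕ) : ∀ i j, ‖(N ^ k) i j‖ ≤ (m * c) ^ k := by
  induction k with
  | zero =>
    intro i j
    rw [pow_zero, pow_zero]
    by_cases h : i = j
    · subst h
      rw [Matrix.one_apply_eq, norm_one]
    · rw [Matrix.one_apply_ne h, norm_zero]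
      exact zero_le_one
  | succ k ih =>
    intro i j
    rw [pow_succ, Matrix.mul_apply]
    calc ‖∑ l, (N ^ k) i l * N l j‖ ≤ ∑ l, ‖(N ^ k) i l * N l j‖ := norm_sum_le _ _
      _ ≤ ∑ _l : Fin m, (m * c) ^ k * c := by
          refine Finset.sum_le_sum fun l _ => ?_
          rw [norm_mul]
          exact mul_le_mul (ih i l) (hN l j) (norm_nonneg _) (by positivity)
      _ = (m * c) ^ (k + 1) := by
          rw [Finset.sum_const, Finset.card_univ, Fintype.card_fin, nsmul_eq_mul, pow_succ]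
          ring

/-- a bound for the inverse of a block unitriangular matrix, and its zero pattern -/
theorem Cc4_inv (w : Fin m → ℕ) (ka : ℝ) : ∃ B : ℝ, 0 ≤ B ∧ ∀ X : Mt m, Uni w X →
    (∀ i j, ‖X i j‖ ≤ ka) → ∃ V : Mt m, V * X = 1 ∧ (∀ i j, ‖V i j‖ ≤ B) ∧
      ∀ i j, i ≠ j → w j ≤ w i → V i j = 0 := by
  obtain ⟨M, hM⟩ : ∃ M : ℕ, ∀ i, w i ≤ M :=
    ⟨∑ i, w i, fun i => Finset.single_le_sum (f := w) (fun _ _ => Nat.zero_le _)
      (Finset.mem_univ i)⟩
  refine ⟨∑ k ∈ Finset.range (M + 1), (m * (|ka| + 1)) ^ k,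
    Finset.sum_nonneg fun k _ => by positivity, ?_⟩
  intro X hX hb
  have hN : ∀ i j, w j ≤ w i → (1 - X) i j = 0 := by
    intro i j h
    rw [Matrix.sub_apply]
    rcases Nat.lt_or_ge (w j) (w i) with h1 | h1
    · rw [hX.1 i j h1, sub_zero, Matrix.one_apply_ne]
      rintro rfl
      omega
    · have h2 : w i = w j := le_antisymm h1 h
      have h3 := congrFun (congrFun hX.2 i) j
      unfold bdg at h3
      rw [Matrix.of_apply, if_pos h2] at h3
      rw [h3, sub_self]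
  have hNb : ∀ i j, ‖(1 - X) i j‖ ≤ |ka| + 1 := by
    intro i j
    rw [Matrix.sub_apply]
    have h1 : ‖(1 : Mt m) i j‖ ≤ 1 := by
      by_cases h : i = j
      · subst h
        rw [Matrix.one_apply_eq, norm_one]
      · rw [Matrix.one_apply_ne h, norm_zero]
        exact zero_le_one
    have h2 := norm_sub_le ((1 : Mt m) i j) (X i j)
    have h3 := (hb i j).trans (le_abs_self ka)
    linarith
  refine ⟨∑ k ∈ Finset.range (M + 1), (1 - X) ^ k, ?_, ?_, ?_⟩
  · have h1 := geom_sum_mul_neg (1 - X) (M + 1)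
    rw [sub_sub_cancel] at h1
    rw [h1]
    have h2 : (1 - X) ^ (M + 1) = 0 := by
      ext i j
      exact Cc4_pow_zero w hN (M + 1) i j (by have := hM j; omega)
    rw [h2, sub_zero]
  · intro i j
    rw [Matrix.sum_apply]
    exact (norm_sum_le _ _).trans
      (Finset.sum_le_sum fun k _ => Cc4_pow_bd hNb (by positivity) k i j)
  · intro i j hij h
    rw [Matrix.sum_apply]
    refine Finset.sum_eq_zero fun k _ => ?_
    rcases Nat.eq_zero_or_pos k with hk | hk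
    · subst hk
      rw [pow_zero, Matrix.one_apply_ne hij]
    · exact Cc4_pow_zero w hN k i j (by omega)

/-- entries of a block unitriangular matrix on and below the block diagonal -/
theorem Cc4_uni {w : Fin m → ℕ} {X : Mt m} (hX : Uni w X) {i j : Fin m} (h : w j ≤ w i) :
    X i j = (1 : Mt m) i j := by
  rcases Nat.lt_or_ge (w j) (w i) with h1 | h1
  · rw [hX.1 i j h1, Matrix.one_apply_ne]
    rintro rfl
    omega
  · have h2 : w i = w j := le_antisymm h1 h
    have h3 := congrFun (congrFun hX.2 i) j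
    unfold bdg at h3
    rw [Matrix.of_apply, if_pos h2] at h3
    exact h3

theorem Cc4_W (al ga : Mt m) (x y : ℝ × ℝ) : Wb al ga y - Wb al ga x =
    ((th1 y - th1 x : ℝ) : ℂ) • (al - 1) + ((th2 y - th2 x : ℝ) : ℂ) • (ga - al) := by
  unfold Wb
  push_cast
  rw [sub_smul, sub_smul]
  abel

/-- a Hermitian square of 1 + Z -/
theorem Cc4_sq (Z : Mt m) {a : ℝ} (hZ : ∀ i j, ‖Z i j‖ ≤ a) (i j : Fin m) :
    ‖((((1 : Mt m) + Z) * ((1 : Mt m) + Z)ᴴ : Mt m)) i j - (1 : Mt m) i j‖ ≤ 2 * a + m * a ^ 2 := by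
  have h1 : ((((1 : Mt m) + Z) * ((1 : Mt m) + Z)ᴴ : Mt m)) i j - (1 : Mt m) i j =
      Z i j + star (Z j i) + ∑ k, Z i k * star (Z j k) := by
    have h2 : ((1 : Mt m) + Z) * ((1 : Mt m) + Z)ᴴ = 1 + (Z + Zᴴ + Z * Zᴴ) := by
      rw [Matrix.conjTranspose_add, Matrix.conjTranspose_one, Matrix.add_mul, Matrix.mul_add,
        Matrix.one_mul, Matrix.one_mul, Matrix.mul_add, Matrix.mul_one]
      abel
    rw [h2, Matrix.add_apply, add_sub_cancel_left, Matrix.add_apply, Matrix.add_apply,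
      Matrix.conjTranspose_apply, Matrix.mul_apply]
    simp only [Matrix.conjTranspose_apply]
  rw [h1]
  have h3 : ‖∑ k, Z i k * star (Z j k)‖ ≤ m * a ^ 2 := by
    calc ‖∑ k, Z i k * star (Z j k)‖ ≤ ∑ k, ‖Z i k * star (Z j k)‖ := norm_sum_le _ _
      _ ≤ ∑ _k : Fin m, a * a := by
          refine Finset.sum_le_sum fun k _ => ?_
          rw [norm_mul, norm_star]
          exact mul_le_mul (hZ i k) (hZ j k) (norm_nonneg _) ((norm_nonneg _).trans (hZ i k))
      _ = m * a ^ 2 := by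
          rw [Finset.sum_const, Finset.card_univ, Fintype.card_fin, nsmul_eq_mul]
          ring
  have h4 := norm_add_le (Z i j + star (Z j i)) (∑ k, Z i k * star (Z j k))
  have h5 := norm_add_le (Z i j) (star (Z j i))
  rw [norm_star] at h5
  linarith [hZ i j, hZ j i]

/-- the trace of a square -/
theorem Cc4_tr (A : Mt m) {a : ℝ} (hA : ∀ i j, ‖A i j‖ ≤ a) : (trace (A * A)).re ≤ (m : ℝ) ^ 2 * a ^ 2 := by
  refine (Complex.re_le_norm _).trans ?_
  unfold trace
  calc ‖∑ i, (A * A).diag i‖ ≤ ∑ i, ‖(A * A).diag i‖ := norm_sum_le _ _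
    _ ≤ ∑ _i : Fin m, ∑ _k : Fin m, a * a := by
        refine Finset.sum_le_sum fun i _ => ?_
        rw [Matrix.diag_apply, Matrix.mul_apply]
        refine (norm_sum_le _ _).trans (Finset.sum_le_sum fun k _ => ?_)
        rw [norm_mul]
        exact mul_le_mul (hA i k) (hA k i) (norm_nonneg _) ((norm_nonneg _).trans (hA i k))
    _ = (m : ℝ) ^ 2 * a ^ 2 := by
        rw [Finset.sum_const, Finset.sum_const, Finset.card_univ, Fintype.card_fin, nsmul_eq_mul,
          nsmul_eq_mul]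
        ring

/-- conjugation by lamS of a strictly block upper triangular matrix -/
theorem Cc4_conj {w : Fin m → ℕ} {N : Mt m} {S b : ℝ} (hS : 0 ≤ S) (hN0 : ∀ i j, w j ≤ w i → N i j = 0)
    (hb : ∀ i j, ‖N i j‖ ≤ b) (i j : Fin m) :
    ‖((diagonal fun i => ((Real.exp (S * w i) : ℝ) : ℂ)) * N * lamS w S) i j‖ ≤ Real.exp (-S) * b := by
  have hb0 : 0 ≤ b := (norm_nonneg _).trans (hb i j)
  have hent : ((diagonal fun i => ((Real.exp (S * w i) : ℝ) : ℂ)) * N * lamS w S) i j =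
      ((Real.exp (S * w i) * Real.exp (-S * w j) : ℝ) : ℂ) * N i j := by
    unfold lamS
    rw [Matrix.mul_diagonal, Matrix.diagonal_mul]
    push_cast
    ring
  rw [hent]
  by_cases h : w j ≤ w i
  · rw [hN0 i j h, mul_zero, norm_zero]
    positivity
  · rw [norm_mul]
    refine mul_le_mul ?_ (hb i j) (norm_nonneg _) (Real.exp_pos _).le
    rw [Complex.norm_real, Real.norm_eq_abs, ← Real.exp_add, abs_of_pos (Real.exp_pos _)]
    refine Real.exp_le_exp.2 ?_
    have h1 : (w i : ℝ) + 1 ≤ w j := by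
      have : w i + 1 ≤ w j := by omega
      exact_mod_cast this
    nlinarith

theorem hb_ql (hQ : IsUnit Q.det) (hal : Uni w al) (hga : Uni w ga) :
    ∃ ka : ℝ, 0 < ka ∧ ∀ R S0 : ℝ, 2 ≤ R → 0 ≤ S0 → ∀ x ∈ U, 1/6 < x.2 →
      (∀ i j, DifferentiableAt ℝ (fun y => Hbo Q w al ga S0 R y i j) x) →
        q (1, 0) (1, 0) (Hbo Q w al ga S0 R) x ≤ ka * Real.exp (-2 * S0) := by
  obtain ⟨k, hk1, hk⟩ := wb_bd al ga
  obtain ⟨B, hB0, hB⟩ := Cc4_inv w k
  obtain ⟨K, hK⟩ := th_lip (c := 1/6) (by norm_num)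
  obtain ⟨c, hc0, hc⟩ : ∃ c : ℝ, 0 ≤ c ∧ ∀ i j, ‖(al - 1) i j‖ ≤ c ∧ ‖(ga - al) i j‖ ≤ c := by
    refine ⟨∑ i, ∑ j, (‖(al - 1) i j‖ + ‖(ga - al) i j‖), by positivity, fun i j => ?_⟩
    have h1 : ‖(al - 1) i j‖ + ‖(ga - al) i j‖ ≤ ∑ i, ∑ j, (‖(al - 1) i j‖ + ‖(ga - al) i j‖) :=
      (Finset.single_le_sum (f := fun j => ‖(al - 1) i j‖ + ‖(ga - al) i j‖)
        (fun _ _ => by positivity) (Finset.mem_univ j)).trans
      (Finset.single_le_sum (f := fun i => ∑ j, (‖(al - 1) i j‖ + ‖(ga - al) i j‖))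
        (fun _ _ => by positivity) (Finset.mem_univ i))
    constructor <;> linarith [norm_nonneg ((al - 1) i j), norm_nonneg ((ga - al) i j)]
  obtain ⟨K1, hK1⟩ : ∃ K1 : ℝ, K1 = m * (B * (2 * (|K| * c))) := ⟨_, rfl⟩
  have hK10 : 0 ≤ K1 := by rw [hK1]; positivity
  refine ⟨(m : ℝ) ^ 2 * ((2 * K1 + m * K1 ^ 2) / 2) ^ 2 + 1, by positivity, ?_⟩
  intro R S0 hR hS x hx hx2 hd
  have hxD : x ∈ D := Cbt_UD hx
  obtain ⟨V, hV1, hVb, hVz⟩ := hB (Wb al ga x) (wb_uni hal hga x) (hk x hxD)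
  obtain ⟨L, hL⟩ : ∃ L : Mt m, L = lamS w S0 := ⟨_, rfl⟩
  obtain ⟨Li, hLi⟩ : ∃ Li : Mt m, Li = diagonal fun i => ((Real.exp (S0 * w i) : ℝ) : ℂ) := ⟨_, rfl⟩
  have hLL : Li * L = 1 := by
    rw [hL, hLi]
    unfold lamS
    rw [Matrix.diagonal_mul_diagonal, ← Matrix.diagonal_one]
    congr 1
    funext i
    rw [← Complex.ofReal_mul, ← Real.exp_add]
    have : S0 * (w i : ℝ) + -S0 * (w i : ℝ) = 0 := by ring
    rw [this, Real.exp_zero, Complex.ofReal_one]
  have hnb : ∀ᶠ y in 𝓝 x, y ∈ U ∧ 1/6 < y.2 ∧ dist y x ≤ 1 := by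
    have h1 : ∀ᶠ y in 𝓝 x, y ∈ U := Cbt_Uo.mem_nhds hx
    have h2 : ∀ᶠ y : ℝ × ℝ in 𝓝 x, 1/6 < y.2 :=
      (isOpen_lt continuous_const continuous_snd).mem_nhds hx2
    have h3 : ∀ᶠ y in 𝓝 x, dist y x ≤ 1 := Metric.closedBall_mem_nhds x one_pos
    filter_upwards [h1, h2, h3] with y a b c using ⟨a, b, c⟩
  obtain ⟨Pi, hPi⟩ : ∃ Pi : Mt m, Pi = Li * V * Q⁻¹ := ⟨_, rfl⟩
  have hPQ : Pi * Q = Li * V := by
    rw [hPi, Matrix.mul_assoc, Matrix.nonsing_inv_mul _ hQ, Matrix.mul_one]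
  have hPid : IsUnit Pi.det := by
    refine Matrix.isUnit_det_of_right_inverse (B := Q * Wb al ga x * L) ?_
    calc Pi * (Q * Wb al ga x * L) = Pi * Q * Wb al ga x * L := by simp only [Matrix.mul_assoc]
      _ = Li * (V * Wb al ga x) * L := by rw [hPQ]; simp only [Matrix.mul_assoc]
      _ = 1 := by rw [hV1, Matrix.mul_one, hLL]
  rw [← q_congr hPid hd (1, 0) (1, 0)]
  obtain ⟨G, hG⟩ : ∃ G : ℝ × ℝ → Mt m, G = fun y => Pi * Hbo Q w al ga S0 R y * Piᴴ := ⟨_, rfl⟩
  rw [← hG]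
  have hGd : ∀ i j, DifferentiableAt ℝ (fun y => G y i j) x := by
    rw [hG]
    exact da_mul (X := fun y => Pi * Hbo Q w al ga S0 R y) (Y := fun _ => Piᴴ)
      (da_mul (X := fun _ => Pi) (fun i j => differentiableAt_const _) hd)
      (fun i j => differentiableAt_const _)
  have hGf : ∀ y ∈ U, 1/6 < y.2 → G y =
      (1 + Li * (V * (Wb al ga y - Wb al ga x)) * L) *
        (1 + Li * (V * (Wb al ga y - Wb al ga x)) * L)ᴴ := by
    intro y hy hy2
    have e1 : 1 + Li * (V * (Wb al ga y - Wb al ga x)) * L = Li * V * Wb al ga y * L := by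
      rw [Matrix.mul_sub, hV1, Matrix.mul_sub, Matrix.mul_one, Matrix.sub_mul, hLL,
        add_sub_cancel]
      simp only [Matrix.mul_assoc]
    rw [e1, hG]
    change Pi * Hbo Q w al ga S0 R y * Piᴴ = _
    unfold Hbo Fw
    rw [ss_const S0 hR (Cbt_UD hy) hy2.le, ← hL]
    calc Pi * (Q * (Wb al ga y * L * Lᴴ * (Wb al ga y)ᴴ) * Qᴴ) * Piᴴ
        = (Pi * Q) * Wb al ga y * L * ((Pi * Q) * Wb al ga y * L)ᴴ := by
          simp only [Matrix.mul_assoc, Matrix.conjTranspose_mul]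
      _ = _ := by rw [hPQ]
  have hGx : G x = 1 := by
    rw [hGf x hx hx2, sub_self, Matrix.mul_zero, Matrix.mul_zero, Matrix.zero_mul, add_zero,
      Matrix.conjTranspose_one, Matrix.mul_one]
  -- the Lipschitz bound
  have hE1 : Real.exp (-S0) ≤ 1 := Real.exp_le_one_iff.2 (by linarith)
  have hE0 : 0 < Real.exp (-S0) := Real.exp_pos _
  obtain ⟨C, hC⟩ : ∃ C : ℝ, C = (2 * K1 + m * K1 ^ 2) * Real.exp (-S0) := ⟨_, rfl⟩
  have hC0 : 0 ≤ C := by rw [hC]; positivity
  have hlip : ∀ i j, ∀ᶠ y in 𝓝 x, ‖G y i j - G x i j‖ ≤ C * ‖y - x‖ := by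
    intro i j
    filter_upwards [hnb] with y hy
    obtain ⟨hyU, hy2, hyd⟩ := hy
    rw [← dist_eq_norm y x, hGx, hGf y hyU hy2]
    have hd0 : 0 ≤ dist y x := dist_nonneg
    obtain ⟨hk1', hk2'⟩ := hK y (Cbt_UD hyU) x hxD (hy2.le.trans rr_v) (hx2.le.trans rr_v)
    have hKd : K * dist y x ≤ |K| * dist y x := mul_le_mul_of_nonneg_right (le_abs_self K) hd0
    have hWd : ∀ i j, ‖(Wb al ga y - Wb al ga x) i j‖ ≤ 2 * (|K| * c) * dist y x := by
      intro i j
      rw [Cc4_W, Matrix.add_apply, Matrix.smul_apply, Matrix.smul_apply, smul_eq_mul, smul_eq_mul]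
      refine (norm_add_le _ _).trans ?_
      rw [norm_mul, norm_mul, Complex.norm_real, Complex.norm_real, Real.norm_eq_abs, Real.norm_eq_abs]
      have h1 : |th1 y - th1 x| * ‖(al - 1) i j‖ ≤ (|K| * dist y x) * c :=
        mul_le_mul (hk1'.trans hKd) (hc i j).1 (norm_nonneg _) (by positivity)
      have h2 : |th2 y - th2 x| * ‖(ga - al) i j‖ ≤ (|K| * dist y x) * c :=
        mul_le_mul (hk2'.trans hKd) (hc i j).2 (norm_nonneg _) (by positivity)
      linarith
    have hN0 : ∀ i j, w j ≤ w i → (V * (Wb al ga y - Wb al ga x)) i j = 0 := by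
      intro i j h
      rw [Matrix.mul_apply]
      refine Finset.sum_eq_zero fun l _ => ?_
      by_cases h1 : w j ≤ w l
      · rw [Matrix.sub_apply, Cc4_uni (wb_uni hal hga y) h1, Cc4_uni (wb_uni hal hga x) h1, sub_self,
          mul_zero]
      · rw [hVz i l (by rintro rfl; exact h1 h) (by omega), zero_mul]
    have hNb : ∀ i j, ‖(V * (Wb al ga y - Wb al ga x)) i j‖ ≤ K1 * dist y x := by
      intro i j
      rw [Matrix.mul_apply]
      calc ‖∑ l, V i l * (Wb al ga y - Wb al ga x) l j‖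
          ≤ ∑ l, ‖V i l * (Wb al ga y - Wb al ga x) l j‖ := norm_sum_le _ _
        _ ≤ ∑ _l : Fin m, B * (2 * (|K| * c) * dist y x) := by
            refine Finset.sum_le_sum fun l _ => ?_
            rw [norm_mul]
            exact mul_le_mul (hVb i l) (hWd l j) (norm_nonneg _) hB0
        _ = K1 * dist y x := by
            rw [Finset.sum_const, Finset.card_univ, Fintype.card_fin, nsmul_eq_mul, hK1]
            ring
    have hZb : ∀ i j, ‖(Li * (V * (Wb al ga y - Wb al ga x)) * L) i j‖ ≤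
        Real.exp (-S0) * (K1 * dist y x) := by
      intro i j
      rw [hLi, hL]
      exact Cc4_conj hS hN0 hNb i j
    refine (Cc4_sq _ hZb i j).trans ?_
    have h1 : (Real.exp (-S0) * (K1 * dist y x)) ^ 2 ≤ K1 ^ 2 * Real.exp (-S0) * dist y x := by
      have h2 : Real.exp (-S0) ^ 2 ≤ Real.exp (-S0) := by nlinarith
      have h3 : dist y x ^ 2 ≤ dist y x := by nlinarith
      calc (Real.exp (-S0) * (K1 * dist y x)) ^ 2
          = K1 ^ 2 * (Real.exp (-S0) ^ 2 * dist y x ^ 2) := by ring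
        _ ≤ K1 ^ 2 * (Real.exp (-S0) * dist y x) :=
            mul_le_mul_of_nonneg_left (mul_le_mul h2 h3 (sq_nonneg _) hE0.le) (sq_nonneg _)
        _ = _ := by ring
    have h4 : (m : ℝ) * (Real.exp (-S0) * (K1 * dist y x)) ^ 2 ≤
        m * (K1 ^ 2 * Real.exp (-S0) * dist y x) :=
      mul_le_mul_of_nonneg_left h1 (Nat.cast_nonneg m)
    rw [hC]
    nlinarith
  have hfd : ∀ i j, ‖pd (1, 0) G x i j‖ ≤ C := by
    intro i j
    change ‖fderiv ℝ (fun y => G y i j) x (1, 0)‖ ≤ C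
    have h1 : ‖fderiv ℝ (fun y => G y i j) x‖ ≤ C :=
      (hGd i j).hasFDerivAt.le_of_lip' hC0 (hlip i j)
    have h2 := (fderiv ℝ (fun y => G y i j) x).le_opNorm ((1, 0) : ℝ × ℝ)
    have h3 : ‖((1, 0) : ℝ × ℝ)‖ = 1 := by
      rw [Prod.norm_mk, norm_one, norm_zero]
      exact max_eq_left zero_le_one
    rw [h3, mul_one] at h2
    exact h2.trans h1
  have haa : ∀ i j, ‖aa (1, 0) G x i j‖ ≤ C / 2 := by
    intro i j
    unfold aa
    rw [hGx, inv_one, Matrix.mul_one, Matrix.smul_apply, smul_eq_mul, norm_mul]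
    have h1 : ‖(1 / 2 : ℂ)‖ = 1 / 2 := by
      rw [norm_div, norm_one]
      norm_num
    rw [h1]
    linarith [hfd i j]
  unfold q
  refine (Cc4_tr _ haa).trans ?_
  have h5 : (m : ℝ) ^ 2 * (C / 2) ^ 2 = (m : ℝ) ^ 2 * ((2 * K1 + m * K1 ^ 2) / 2) ^ 2 * Real.exp (-2 * S0) := by
    have h6 : Real.exp (-2 * S0) = Real.exp (-S0) ^ 2 := by
      rw [← Real.exp_nat_mul]
      congr 1
      push_cast
      ring
    rw [hC, h6]
    ring
  rw [h5]
  exact mul_le_mul_of_nonneg_right (by linarith) (Real.exp_pos _).le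

end H80HM
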