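import Pool.Agent.H80.HM.Cc1
import Pool.Agent.H80.HM.Cc2
import Pool.Agent.H80.HM.Cc3
import Pool.Agent.H80.HM.Cc4

set_option autoImplicit false

/-!
# Row Cbb: the bottom metric (assembly of Cc1 - Cc4)
-/

namespace H80HM

open Matrix MeasureTheory Set
open scoped ComplexOrder

/-- the properties of the bottom metric -/
structure BM {m : ℕ} (A C : Mt m) (ka R S0 : ℝ) (Hb : ℝ × ℝ → Mt m) : Prop where
  pos : ∀ x ∈ D, x ∉ P0 → (Hb x).PosDef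
  lip : ∀ d : ℝ, 0 < d → ∃ K : ℝ, ∀ x ∈ D, ∀ y ∈ D, (∀ p ∈ P0, d ≤ dist x p) →
    (∀ p ∈ P0, d ≤ dist y p) → ∀ i j, ‖Hb x i j - Hb y i j‖ ≤ K * dist x y
  glC : ∀ v ∈ Ioc (0:ℝ) (1/2), Hb (1, v) = C * Hb (0, v) * Cᴴ
  glA : ∀ u ∈ Ioo (0:ℝ) (1/2), Hb (1 - u, 0) = A * Hb (u, 0) * Aᴴ
  int : IntegrableOn (fun x => q (1, 0) (1, 0) Hb x + q (0, 1) (0, 1) Hb x) U
  le : ∫ x in U, (q (1, 0) (1, 0) Hb x + q (0, 1) (0, 1) Hb x) ≤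
    ka * (R * Real.exp (-2 * S0) + 1 / R)
  ind : ∀ u ∈ Icc (0:ℝ) 1, ∀ v ∈ Icc (1/6 : ℝ) (1/2), Hb (u, v) = Hb (u, 1/6)
  ql : ∀ x ∈ U, 1/6 < x.2 → (∀ i j, DifferentiableAt ℝ (fun y => Hb y i j) x) →
    q (1, 0) (1, 0) Hb x ≤ ka * Real.exp (-2 * S0)
  sz : ∀ x ∈ D, 1/6 ≤ x.2 → Cm2 (Real.exp (ka * (S0 + 1))) (Hb x) 1

theorem Cbb_cmp {m : ℕ} {L L' : ℝ} {H G : Mt m} (h : Cm2 L H G) (hL : L ≤ L') (hH : H.PosDef)
    (hG : G.PosDef) : Cm2 L' H G := by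
  have key : ∀ M : Mt m, M.PosDef → ∀ x : Fin m → ℂ, 0 ≤ (star x ⬝ᵥ (M *ᵥ x)).re := fun M hM x =>
    hM.posSemidef.re_dotProduct_nonneg x
  exact ⟨fun x => (h.1 x).trans (mul_le_mul_of_nonneg_right hL (key G hG x)),
    fun x => (h.2 x).trans (mul_le_mul_of_nonneg_right hL (key H hH x))⟩

theorem bottom {m : ℕ} {A C : Mt m} (hAC : Ctr A C) : ∃ ka : ℝ, 0 < ka ∧
    ∀ R S0 : ℝ, 2 ≤ R → 0 ≤ S0 → ∃ Hb : ℝ × ℝ → Mt m, BM A C ka R S0 Hb := by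
  obtain ⟨Q, w, hQ, hA, hC⟩ := hAC
  set A1 := Q⁻¹ * A * Q with hA1
  set C1 := Q⁻¹ * C * Q with hC1
  have hal : Uni w (A1 * (bdg w A1)⁻¹) := (bu_unit hA).2.2.2
  have hga : Uni w (C1 * (bdg w C1)⁻¹) := (bu_unit hC).2.2.2
  obtain ⟨k3, hk3, h3⟩ := hb_int hQ hal hga
  obtain ⟨k4, hk4, h4⟩ := hb_ql hQ hal hga
  obtain ⟨k2, hk2, h2⟩ := hb_sz hQ hal hga
  have hQQ : Q * Q⁻¹ = 1 := Matrix.mul_nonsing_inv Q hQ
  have eA : Q * A1 * Q⁻¹ = A := by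
    rw [hA1]
    calc Q * (Q⁻¹ * A * Q) * Q⁻¹ = (Q * Q⁻¹) * A * (Q * Q⁻¹) := by simp only [Matrix.mul_assoc]
      _ = A := by rw [hQQ, Matrix.one_mul, Matrix.mul_one]
  have eC : Q * C1 * Q⁻¹ = C := by
    rw [hC1]
    calc Q * (Q⁻¹ * C * Q) * Q⁻¹ = (Q * Q⁻¹) * C * (Q * Q⁻¹) := by simp only [Matrix.mul_assoc]
      _ = C := by rw [hQQ, Matrix.one_mul, Matrix.mul_one]
  refine ⟨max k2 (max k3 k4), lt_max_of_lt_left hk2, fun R S0 hR hS => ?_⟩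
  refine ⟨Hbo Q w (A1 * (bdg w A1)⁻¹) (C1 * (bdg w C1)⁻¹) S0 R, ?_⟩
  refine ⟨fun x _ _ => hb_pos hQ hal hga S0 R x, fun d hd => hb_lip Q w _ _ hR hS d hd, ?_, ?_,
    (h3 R S0 hR hS).1, ?_, hb_ind Q w _ _ S0 hR, ?_, ?_⟩
  · intro v hv
    have := hb_glC hQ hC (A1 * (bdg w A1)⁻¹) S0 R v ⟨hv.1.le, hv.2⟩
    rwa [eC] at this
  · intro u hu
    have := hb_glA hQ hA (C1 * (bdg w C1)⁻¹) S0 R u hu
    rwa [eA] at this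
  · refine (h3 R S0 hR hS).2.trans ?_
    have hR0 : 0 < R := by linarith
    exact mul_le_mul_of_nonneg_right ((le_max_left _ _).trans (le_max_right _ _)) (by positivity)
  · intro x hx hv hd
    exact (h4 R S0 hR hS x hx hv hd).trans
      (mul_le_mul_of_nonneg_right ((le_max_right _ _).trans (le_max_right _ _)) (Real.exp_pos _).le)
  · intro x hx hv
    refine Cbb_cmp (h2 R S0 hR hS x hx hv) ?_ (hb_pos hQ hal hga S0 R x) Matrix.PosDef.one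
    apply Real.exp_le_exp.2
    exact mul_le_mul_of_nonneg_right (le_max_left _ _) (by linarith)

end H80HM
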