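import Pool.Agent.H80.HM.Def3
import Pool.Agent.H80.HM.Alg

set_option autoImplicit false

/-!
# Row Cbq: density of the metric W L L* W*, L = lamS w S

At a point x where W and S are differentiable: H = PP* with P = W L (L = diag(exp(-S w_i)) real). For any P: pd t H = (pd P)P* + P (pd P)*, aa t H = (1/2)(pd P P^{-1} + P^{-*}.. ) and
P^{-1} aa t H P = (1/2)(Y + Y*), Y = P^{-1} pd t P. So q t t H = |(Y+Y*)/2|^2 <= |Y|^2 (Frobenius). Y = L^{-1} (W^{-1} pd t W) L + L^{-1} pd t L.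
 pd t L = diag(-w_i dS exp(-S w_i)), so L^{-1} pd L = diag(-w_i dS), dS = fderiv S x t; its square is at most m (max w)^2 dS^2.
 W Uni near x: pd t W vanishes at entries with w j <= w i (those entries of W are constant: 0, or the entries of the identity), W^{-1} is upper (det W = 1, W = 1 + nilpotent
 upper), so Z := W^{-1} pd t W has Z i j = 0 unless w i < w j; entries of W^{-1} are bounded by a constant depending on m and the bound ka of the entries of W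
 (adjugate / det = 1). (L^{-1} Z L) i j = Z i j exp(S(w i - w j)), modulus <= |Z i j| exp(-S) since w i - w j <= -1, S >= 0.
 Hence q <= 2 exp(-2S) |Z|^2 + 2 m (max w)^2 dS^2 <= K (exp(-2S) sum |pd t W|^2 + dS^2).
q_congr: q is invariant under congruence with a constant invertible matrix (pd t (Q H Q*) = Q (pd t H) Q* at points of differentiability).
-/

namespace H80HM

open Matrix MeasureTheory Set Filter Topology
open scoped ComplexOrder

variable {m : ℕ}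

private lemma Cbq_pd_congr {Q : Mt m} {H : ℝ × ℝ → Mt m} {x : ℝ × ℝ}
    (dH : ∀ i j, DifferentiableAt ℝ (fun y => H y i j) x) (t : ℝ × ℝ) :
    pd t (fun y => Q * H y * Qᴴ) x = Q * pd t H x * Qᴴ := by
  have c1 : ∀ (R : Mt m) (i j : Fin m), DifferentiableAt ℝ (fun _ : ℝ × ℝ => R i j) x :=
    fun R i j => differentiableAt_const _
  have z : ∀ R : Mt m, pd t (fun _ : ℝ × ℝ => R) x = 0 := by
    intro R
    ext i j
    change fderiv ℝ (fun _ : ℝ × ℝ => R i j) x t = 0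
    rw [fderiv_fun_const]
    rfl
  rw [pd_mul (X := fun y => Q * H y) (Y := fun _ => Qᴴ) (da_mul (X := fun _ => Q) (c1 Q) dH)
    (c1 Qᴴ) t, pd_mul (X := fun _ => Q) (c1 Q) dH t, z, z, Matrix.zero_mul, Matrix.mul_zero,
    zero_add, add_zero]

theorem q_congr {Q : Mt m} (hQ : IsUnit Q.det) {H : ℝ × ℝ → Mt m} {x : ℝ × ℝ}
    (dH : ∀ i j, DifferentiableAt ℝ (fun y => H y i j) x) (t t' : ℝ × ℝ) :
    q t t' (fun y => Q * H y * Qᴴ) x = q t t' H x := by
  have e0 : Q⁻¹ * Q = 1 := Matrix.nonsing_inv_mul _ hQ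
  have hQ' : IsUnit (Qᴴ).det := by
    rw [Matrix.det_conjTranspose]
    exact hQ.star
  have e1 : Qᴴ * (Qᴴ)⁻¹ = 1 := Matrix.mul_nonsing_inv _ hQ'
  have ha : ∀ s : ℝ × ℝ, aa s (fun y => Q * H y * Qᴴ) x = Q * aa s H x * Q⁻¹ := by
    intro s
    unfold aa
    rw [Cbq_pd_congr dH s, Matrix.mul_inv_rev, Matrix.mul_inv_rev, Matrix.mul_smul,
      Matrix.smul_mul]
    congr 1
    calc Q * pd s H x * Qᴴ * ((Qᴴ)⁻¹ * ((H x)⁻¹ * Q⁻¹))
        = Q * pd s H x * (Qᴴ * (Qᴴ)⁻¹) * ((H x)⁻¹ * Q⁻¹) := by simp only [Matrix.mul_assoc]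
      _ = Q * (pd s H x * (H x)⁻¹) * Q⁻¹ := by
          rw [e1, Matrix.mul_one]; simp only [Matrix.mul_assoc]
  unfold q
  rw [ha, ha]
  have h2 : Q * aa t H x * Q⁻¹ * (Q * aa t' H x * Q⁻¹) =
      Q * (aa t H x * aa t' H x * Q⁻¹) := by
    calc Q * aa t H x * Q⁻¹ * (Q * aa t' H x * Q⁻¹)
        = Q * aa t H x * (Q⁻¹ * Q) * (aa t' H x * Q⁻¹) := by simp only [Matrix.mul_assoc]
      _ = Q * (aa t H x * aa t' H x * Q⁻¹) := by
          rw [e0, Matrix.mul_one]; simp only [Matrix.mul_assoc]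
  rw [h2, Matrix.trace_mul_comm, Matrix.mul_assoc (aa t H x * aa t' H x), e0, Matrix.mul_one]

private lemma Cbq_lam_has (w : Fin m → ℕ) {S : ℝ × ℝ → ℝ} {x : ℝ × ℝ}
    (dS : DifferentiableAt ℝ S x) (i : Fin m) :
    HasFDerivAt (fun y => ((Real.exp (-S y * w i) : ℝ) : ℂ))
      (Complex.ofRealCLM.comp (Real.exp (-S x * w i) • ((w i : ℝ) • (-(fderiv ℝ S x))))) x := by
  have h1 : HasFDerivAt (fun y => -S y * (w i : ℝ)) ((w i : ℝ) • (-(fderiv ℝ S x))) x :=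
    (dS.hasFDerivAt.fun_neg).mul_const (w i : ℝ)
  exact Complex.ofRealCLM.hasFDerivAt.comp x h1.exp

private lemma Cbq_lam_da (w : Fin m → ℕ) {S : ℝ × ℝ → ℝ} {x : ℝ × ℝ}
    (dS : DifferentiableAt ℝ S x) (i j : Fin m) :
    DifferentiableAt ℝ (fun y => lamS w (S y) i j) x := by
  unfold lamS
  by_cases h : i = j
  · subst h
    simp only [Matrix.diagonal_apply_eq]
    exact (Cbq_lam_has w dS i).differentiableAt
  · simp only [Matrix.diagonal_apply_ne _ h]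
    exact differentiableAt_const _

private lemma Cbq_lam_pd (w : Fin m → ℕ) {S : ℝ × ℝ → ℝ} {x : ℝ × ℝ}
    (dS : DifferentiableAt ℝ S x) (t : ℝ × ℝ) :
    pd t (fun y => lamS w (S y)) x =
      lamS w (S x) * diagonal (fun i => ((-(w i * fderiv ℝ S x t) : ℝ) : ℂ)) := by
  unfold lamS
  rw [Matrix.diagonal_mul_diagonal]
  ext i j
  change fderiv ℝ (fun y => diagonal (fun i => ((Real.exp (-S y * w i) : ℝ) : ℂ)) i j) x t = _
  by_cases h : i = j
  · subst h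
    simp only [Matrix.diagonal_apply_eq]
    rw [(Cbq_lam_has w dS i).fderiv]
    simp only [ContinuousLinearMap.comp_apply, ContinuousLinearMap.smul_apply,
      ContinuousLinearMap.neg_apply, Complex.ofRealCLM_apply, smul_eq_mul]
    push_cast
    ring
  · simp only [Matrix.diagonal_apply_ne _ h]
    rw [fderiv_fun_const]
    rfl

theorem fw_da (w : Fin m → ℕ) {W : ℝ × ℝ → Mt m} {S : ℝ × ℝ → ℝ} {x : ℝ × ℝ}
    (dW : ∀ i j, DifferentiableAt ℝ (fun y => W y i j) x) (dS : DifferentiableAt ℝ S x)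
    (i j : Fin m) : DifferentiableAt ℝ (fun y => Fw w W S y i j) x := by
  unfold Fw
  exact da_mul (X := fun y => W y * lamS w (S y) * (lamS w (S y))ᴴ) (Y := fun y => (W y)ᴴ)
    (da_mul (X := fun y => W y * lamS w (S y)) (Y := fun y => (lamS w (S y))ᴴ)
      (da_mul dW (Cbq_lam_da w dS)) (da_star (Cbq_lam_da w dS))) (da_star dW) i j

/-- the zero pattern of powers -/
private lemma Cbq_pow_zero (w : Fin m → ℕ) {N : Mt m} (hN : ∀ i j, w j ≤ w i → N i j = 0)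
    (k : ℕ) : ∀ i j, w j < w i + k → (N ^ k) i j = 0 := by
  induction k with
  | zero =>
    intro i j h
    rw [pow_zero, Matrix.one_apply_ne]
    rintro rfl
    omega
  | succ k ih =>
    intro i j h
    rw [pow_succ, Matrix.mul_apply]
    refine Finset.sum_eq_zero fun l _ => ?_
    by_cases hl : w l < w i + k
    · rw [ih i l hl, zero_mul]
    · rw [hN l j (by omega), mul_zero]

private lemma Cbq_pow_bd {N : Mt m} {c : ℝ} (hN : ∀ i j, ‖N i j‖ ≤ c) (hc : 0 ≤ c)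
    (k : ℕ) : ∀ i j, ‖(N ^ k) i j‖ ≤ (m * c) ^ k := by
  induction k with
  | zero =>
    intro i j
    rw [pow_zero, pow_zero]
    by_cases h : i = j
    · subst h
      rw [Matrix.one_apply_eq, norm_one]
    · rw [Matrix.one_apply_ne h, norm_zero]
      exact zero_le_one
  | succ k ih =>
    intro i j
    rw [pow_succ, Matrix.mul_apply]
    calc ‖∑ l, (N ^ k) i l * N l j‖ ≤ ∑ l, ‖(N ^ k) i l * N l j‖ := norm_sum_le _ _
      _ ≤ ∑ _l : Fin m, (m * c) ^ k * c := by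
          refine Finset.sum_le_sum fun l _ => ?_
          rw [norm_mul]
          exact mul_le_mul (ih i l) (hN l j) (norm_nonneg _) (by positivity)
      _ = (m * c) ^ (k + 1) := by
          rw [Finset.sum_const, Finset.card_univ, Fintype.card_fin, nsmul_eq_mul, pow_succ]
          ring

/-- a bound for the inverse of a block unitriangular matrix, and its zero pattern -/
private lemma Cbq_inv (w : Fin m → ℕ) (ka : ℝ) : ∃ B : ℝ, 0 ≤ B ∧ ∀ X : Mt m, Uni w X →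
    (∀ i j, ‖X i j‖ ≤ ka) → ∃ V : Mt m, V * X = 1 ∧ (∀ i j, ‖V i j‖ ≤ B) ∧
      ∀ i j, i ≠ j → w j ≤ w i → V i j = 0 := by
  obtain ⟨M, hM⟩ : ∃ M : ℕ, ∀ i, w i ≤ M :=
    ⟨∑ i, w i, fun i => Finset.single_le_sum (f := w) (fun _ _ => Nat.zero_le _)
      (Finset.mem_univ i)⟩
  refine ⟨∑ k ∈ Finset.range (M + 1), (m * (|ka| + 1)) ^ k,
    Finset.sum_nonneg fun k _ => by positivity, ?_⟩
  intro X hX hb
  have hN : ∀ i j, w j ≤ w i → (1 - X) i j = 0 := by
    intro i j h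
    rw [Matrix.sub_apply]
    rcases Nat.lt_or_ge (w j) (w i) with h1 | h1
    · rw [hX.1 i j h1, sub_zero, Matrix.one_apply_ne]
      rintro rfl
      omega
    · have h2 : w i = w j := le_antisymm h1 h
      have h3 := congrFun (congrFun hX.2 i) j
      unfold bdg at h3
      rw [Matrix.of_apply, if_pos h2] at h3
      rw [h3, sub_self]
  have hNb : ∀ i j, ‖(1 - X) i j‖ ≤ |ka| + 1 := by
    intro i j
    rw [Matrix.sub_apply]
    have h1 : ‖(1 : Mt m) i j‖ ≤ 1 := by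
      by_cases h : i = j
      · subst h
        rw [Matrix.one_apply_eq, norm_one]
      · rw [Matrix.one_apply_ne h, norm_zero]
        exact zero_le_one
    have h2 := norm_sub_le ((1 : Mt m) i j) (X i j)
    have h3 := (hb i j).trans (le_abs_self ka)
    linarith
  refine ⟨∑ k ∈ Finset.range (M + 1), (1 - X) ^ k, ?_, ?_, ?_⟩
  · have h1 := geom_sum_mul_neg (1 - X) (M + 1)
    rw [sub_sub_cancel] at h1
    rw [h1]
    have h2 : (1 - X) ^ (M + 1) = 0 := by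
      ext i j
      exact Cbq_pow_zero w hN (M + 1) i j (by have := hM j; omega)
    rw [h2, sub_zero]
  · intro i j
    rw [Matrix.sum_apply]
    exact (norm_sum_le _ _).trans
      (Finset.sum_le_sum fun k _ => Cbq_pow_bd hNb (by positivity) k i j)
  · intro i j hij h
    rw [Matrix.sum_apply]
    refine Finset.sum_eq_zero fun k _ => ?_
    rcases Nat.eq_zero_or_pos k with hk | hk
    · subst hk
      rw [pow_zero, Matrix.one_apply_ne hij]
    · exact Cbq_pow_zero w hN k i j (by omega)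

private lemma Cbq_uni_pd (w : Fin m → ℕ) {W : ℝ × ℝ → Mt m} {x : ℝ × ℝ}
    (hW : ∀ᶠ y in 𝓝 x, Uni w (W y)) (t : ℝ × ℝ) (i j : Fin m) (h : w j ≤ w i) :
    pd t W x i j = 0 := by
  have h1 : (fun y => W y i j) =ᶠ[𝓝 x] fun _ => (1 : Mt m) i j := by
    refine hW.mono fun y hy => ?_
    change W y i j = (1 : Mt m) i j
    rcases Nat.lt_or_ge (w j) (w i) with h1 | h1
    · rw [hy.1 i j h1, Matrix.one_apply_ne]
      rintro rfl
      omega
    · have h2 : w i = w j := le_antisymm h1 h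
      have h3 := congrFun (congrFun hy.2 i) j
      unfold bdg at h3
      rw [Matrix.of_apply, if_pos h2] at h3
      exact h3
  change fderiv ℝ (fun y => W y i j) x t = 0
  rw [h1.fderiv_eq, fderiv_fun_const]
  rfl

/-- density of P P*: at most the squared Frobenius norm of P^{-1} dP -/
private lemma Cbq_PP {Pf : ℝ × ℝ → Mt m} {x : ℝ × ℝ} {V : Mt m}
    (dP : ∀ i j, DifferentiableAt ℝ (fun y => Pf y i j) x) (hV : V * Pf x = 1) (t : ℝ × ℝ) :
    q t t (fun y => Pf y * (Pf y)ᴴ) x ≤ ∑ i, ∑ j, ‖(V * pd t Pf x) i j‖ ^ 2 := by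
  have hV' : Pf x * V = 1 := mul_eq_one_comm.1 hV
  have hVi : (Pf x)⁻¹ = V := Matrix.inv_eq_left_inv hV
  set Y := V * pd t Pf x with hY
  have hsV : (Pf x)ᴴ * Vᴴ = 1 := by
    rw [← Matrix.conjTranspose_mul, hV, Matrix.conjTranspose_one]
  have hHi : (Pf x * (Pf x)ᴴ)⁻¹ = Vᴴ * V := by
    rw [Matrix.mul_inv_rev, hVi, ← Matrix.conjTranspose_nonsing_inv, hVi]
  have ha : aa t (fun y => Pf y * (Pf y)ᴴ) x = Pf x * ((1 / 2 : ℂ) • (Y + Yᴴ)) * V := by
    unfold aa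
    rw [pd_mul dP (da_star dP) t, pd_star, hHi, Matrix.mul_smul, Matrix.smul_mul]
    congr 1
    rw [Matrix.add_mul, Matrix.mul_add, Matrix.add_mul]
    congr 1
    · calc pd t Pf x * (Pf x)ᴴ * (Vᴴ * V) = pd t Pf x * ((Pf x)ᴴ * Vᴴ) * V := by
            simp only [Matrix.mul_assoc]
        _ = (Pf x * V) * pd t Pf x * V := by rw [hsV, hV', Matrix.mul_one, Matrix.one_mul]
        _ = Pf x * Y * V := by rw [hY]; simp only [Matrix.mul_assoc]
    · rw [hY, Matrix.conjTranspose_mul]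
      simp only [Matrix.mul_assoc]
  have e1 : Y + Yᴴ = (Y + Yᴴ)ᴴ := by
    rw [Matrix.conjTranspose_add, Matrix.conjTranspose_conjTranspose, add_comm]
  have h2 : Pf x * ((1 / 2 : ℂ) • (Y + Yᴴ)) * V * (Pf x * ((1 / 2 : ℂ) • (Y + Yᴴ)) * V) =
      Pf x * (((1 / 2 : ℂ) • (Y + Yᴴ)) * ((1 / 2 : ℂ) • (Y + Yᴴ)) * V) := by
    generalize (1 / 2 : ℂ) • (Y + Yᴴ) = R
    calc Pf x * R * V * (Pf x * R * V) = Pf x * R * (V * Pf x) * (R * V) := by
          simp only [Matrix.mul_assoc]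
      _ = Pf x * (R * R * V) := by rw [hV, Matrix.mul_one]; simp only [Matrix.mul_assoc]
  unfold q
  rw [ha, h2, Matrix.trace_mul_comm, Matrix.mul_assoc (_ * _) V (Pf x), hV, Matrix.mul_one]
  have h3 : ((1 / 2 : ℂ) • (Y + Yᴴ)) * ((1 / 2 : ℂ) • (Y + Yᴴ)) =
      (1 / 4 : ℂ) • ((Y + Yᴴ) * (Y + Yᴴ)ᴴ) := by
    rw [← e1, Matrix.mul_smul, Matrix.smul_mul, smul_smul]
    norm_num
  rw [h3, Matrix.trace_smul, smul_eq_mul]
  have h4 : ((1 / 4 : ℂ) * ((Y + Yᴴ) * (Y + Yᴴ)ᴴ).trace).re =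
      (1 / 4 : ℝ) * (((Y + Yᴴ) * (Y + Yᴴ)ᴴ).trace).re := by
    have h5 : (1 / 4 : ℂ) = ((1 / 4 : ℝ) : ℂ) := by push_cast; ring
    rw [h5, Complex.re_ofReal_mul]
  rw [h4, Sib_tr]
  have h6 : ∀ i j, ‖(Y + Yᴴ) i j‖ ^ 2 ≤ 2 * (‖Y i j‖ ^ 2 + ‖Y j i‖ ^ 2) := by
    intro i j
    rw [Matrix.add_apply, Matrix.conjTranspose_apply]
    have h7 := norm_add_le (Y i j) (star (Y j i))
    rw [norm_star] at h7
    have h8 := norm_nonneg (Y i j + star (Y j i))
    nlinarith [sq_nonneg (‖Y i j‖ - ‖Y j i‖)]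
  have h7 : ∑ i, ∑ j, ‖(Y + Yᴴ) i j‖ ^ 2 ≤ 4 * ∑ i, ∑ j, ‖Y i j‖ ^ 2 := by
    calc ∑ i, ∑ j, ‖(Y + Yᴴ) i j‖ ^ 2
        ≤ ∑ i, ∑ j, 2 * (‖Y i j‖ ^ 2 + ‖Y j i‖ ^ 2) :=
          Finset.sum_le_sum fun i _ => Finset.sum_le_sum fun j _ => h6 i j
      _ = 4 * ∑ i, ∑ j, ‖Y i j‖ ^ 2 := by
          have h9 : ∑ i, ∑ j, ‖Y j i‖ ^ 2 = ∑ i, ∑ j, ‖Y i j‖ ^ 2 := Finset.sum_comm
          simp only [← Finset.mul_sum, Finset.sum_add_distrib]
          rw [h9]
          ring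
  linarith

theorem fw_q (w : Fin m → ℕ) (ka : ℝ) : ∃ K : ℝ, 0 ≤ K ∧
    ∀ (W : ℝ × ℝ → Mt m) (S : ℝ × ℝ → ℝ) (x t : ℝ × ℝ), (∀ᶠ y in 𝓝 x, Uni w (W y)) →
      (∀ i j, ‖W x i j‖ ≤ ka) → (∀ i j, DifferentiableAt ℝ (fun y => W y i j) x) →
      DifferentiableAt ℝ S x → 0 ≤ S x →
      q t t (Fw w W S) x ≤
        K * (Real.exp (-2 * S x) * (∑ i, ∑ j, ‖pd t W x i j‖ ^ 2) + (fderiv ℝ S x t) ^ 2) := by
  obtain ⟨B, hB0, hB⟩ := Cbq_inv w ka
  set M2 : ℝ := ∑ i, (w i : ℝ) ^ 2 with hM2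
  have hM0 : 0 ≤ M2 := Finset.sum_nonneg fun i _ => sq_nonneg _
  refine ⟨2 * (B ^ 2 * m * m) + 2 * M2, by positivity, ?_⟩
  intro W S x t hW hWb dW dS hS
  obtain ⟨V, hV1, hVb, hVz⟩ := hB (W x) hW.self_of_nhds hWb
  set L := lamS w (S x) with hL
  set Li : Mt m := diagonal fun i => ((Real.exp (S x * w i) : ℝ) : ℂ) with hLi
  have hLL : Li * L = 1 := by
    rw [hL, hLi]
    unfold lamS
    rw [Matrix.diagonal_mul_diagonal, ← Matrix.diagonal_one]
    congr 1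
    funext i
    rw [← Complex.ofReal_mul, ← Real.exp_add]
    have : S x * (w i : ℝ) + -S x * (w i : ℝ) = 0 := by ring
    rw [this, Real.exp_zero, Complex.ofReal_one]
  have hF : Fw w W S = fun y => (W y * lamS w (S y)) * (W y * lamS w (S y))ᴴ := by
    funext y
    unfold Fw
    rw [Matrix.conjTranspose_mul]
    simp only [Matrix.mul_assoc]
  have dP : ∀ i j, DifferentiableAt ℝ (fun y => (W y * lamS w (S y)) i j) x :=
    da_mul dW (Cbq_lam_da w dS)
  have hVP : (Li * V) * (W x * lamS w (S x)) = 1 := by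
    rw [← hL]
    calc Li * V * (W x * L) = Li * (V * W x) * L := by simp only [Matrix.mul_assoc]
      _ = 1 := by rw [hV1, Matrix.mul_one, hLL]
  rw [hF]
  refine (Cbq_PP dP hVP t).trans ?_
  rw [pd_mul dW (Cbq_lam_da w dS) t, Cbq_lam_pd w dS t, ← hL]
  set Dg : Mt m := diagonal (fun i => ((-(w i * fderiv ℝ S x t) : ℝ) : ℂ)) with hDg
  set Z := V * pd t W x with hZ
  have hY : Li * V * (pd t W x * L + W x * (L * Dg)) = Li * Z * L + Dg := by
    rw [Matrix.mul_add]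
    congr 1
    · rw [hZ]; simp only [Matrix.mul_assoc]
    · calc Li * V * (W x * (L * Dg)) = Li * (V * W x) * L * Dg := by simp only [Matrix.mul_assoc]
        _ = Dg := by rw [hV1, Matrix.mul_one, hLL, Matrix.one_mul]
  rw [hY]
  -- entries of Z
  have hZ0 : ∀ i j, w j ≤ w i → Z i j = 0 := by
    intro i j h
    rw [hZ, Matrix.mul_apply]
    refine Finset.sum_eq_zero fun k _ => ?_
    by_cases h1 : w j ≤ w k
    · rw [Cbq_uni_pd w hW t k j h1, mul_zero]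
    · rw [hVz i k (by rintro rfl; exact h1 h) (by omega), zero_mul]
  have hZb : ∀ i j, ‖Z i j‖ ^ 2 ≤ B ^ 2 * m * ∑ k, ‖pd t W x k j‖ ^ 2 := by
    intro i j
    have h1 : ‖Z i j‖ ≤ B * ∑ k, ‖pd t W x k j‖ := by
      rw [hZ, Matrix.mul_apply, Finset.mul_sum]
      refine (norm_sum_le _ _).trans (Finset.sum_le_sum fun k _ => ?_)
      rw [norm_mul]
      exact mul_le_mul_of_nonneg_right (hVb i k) (norm_nonneg _)
    have h2 : (∑ k, ‖pd t W x k j‖) ^ 2 ≤ m * ∑ k, ‖pd t W x k j‖ ^ 2 := by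
      have h3 := sq_sum_le_card_mul_sum_sq (s := (Finset.univ : Finset (Fin m)))
        (f := fun k => ‖pd t W x k j‖)
      rw [Finset.card_univ, Fintype.card_fin] at h3
      exact h3
    calc ‖Z i j‖ ^ 2 ≤ (B * ∑ k, ‖pd t W x k j‖) ^ 2 := pow_le_pow_left₀ (norm_nonneg _) h1 2
      _ = B ^ 2 * (∑ k, ‖pd t W x k j‖) ^ 2 := by ring
      _ ≤ B ^ 2 * (m * ∑ k, ‖pd t W x k j‖ ^ 2) := mul_le_mul_of_nonneg_left h2 (sq_nonneg _)
      _ = _ := by ring
  have hent : ∀ i j, (Li * Z * L) i j =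
      ((Real.exp (S x * w i) * Real.exp (-S x * w j) : ℝ) : ℂ) * Z i j := by
    intro i j
    rw [hL, hLi]
    unfold lamS
    rw [Matrix.mul_diagonal, Matrix.diagonal_mul]
    push_cast
    ring
  have hent2 : ∀ i j, ‖(Li * Z * L) i j‖ ^ 2 ≤ Real.exp (-2 * S x) * ‖Z i j‖ ^ 2 := by
    intro i j
    rw [hent]
    by_cases h : w j ≤ w i
    · rw [hZ0 i j h, mul_zero, norm_zero]
      simp
    · rw [norm_mul, mul_pow]
      refine mul_le_mul_of_nonneg_right ?_ (sq_nonneg _)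
      rw [Complex.norm_real, Real.norm_eq_abs, sq_abs, ← Real.exp_add, ← Real.exp_nat_mul]
      refine Real.exp_le_exp.2 ?_
      have h1 : (w i : ℝ) + 1 ≤ w j := by
        have : w i + 1 ≤ w j := by omega
        exact_mod_cast this
      push_cast
      nlinarith
  have hfin : ∀ i j, ‖(Li * Z * L + Dg) i j‖ ^ 2 ≤
      2 * (Real.exp (-2 * S x) * (B ^ 2 * m * ∑ k, ‖pd t W x k j‖ ^ 2)) + 2 * ‖Dg i j‖ ^ 2 := by
    intro i j
    rw [Matrix.add_apply]
    have h1 := norm_add_le ((Li * Z * L) i j) (Dg i j)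
    have h2 := norm_nonneg ((Li * Z * L) i j + Dg i j)
    have h3 := (hent2 i j).trans
      (mul_le_mul_of_nonneg_left (hZb i j) (Real.exp_pos (-2 * S x)).le)
    nlinarith [sq_nonneg (‖(Li * Z * L) i j‖ - ‖Dg i j‖)]
  have hD : ∑ i, ∑ j, ‖Dg i j‖ ^ 2 = M2 * (fderiv ℝ S x t) ^ 2 := by
    rw [hM2, Finset.sum_mul]
    refine Finset.sum_congr rfl fun i _ => ?_
    rw [Finset.sum_eq_single i]
    · rw [hDg, Matrix.diagonal_apply_eq, Complex.norm_real, Real.norm_eq_abs, sq_abs]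
      ring
    · intro j _ hj
      rw [hDg, Matrix.diagonal_apply_ne _ hj.symm, norm_zero]
      norm_num
    · intro h
      exact absurd (Finset.mem_univ i) h
  set Sg := ∑ i, ∑ j, ‖pd t W x i j‖ ^ 2 with hSg
  have hSg0 : 0 ≤ Sg := Finset.sum_nonneg fun i _ => Finset.sum_nonneg fun j _ => sq_nonneg _
  have htot : ∑ i, ∑ j, ‖(Li * Z * L + Dg) i j‖ ^ 2 ≤
      2 * (B ^ 2 * m * m) * (Real.exp (-2 * S x) * Sg) + 2 * M2 * (fderiv ℝ S x t) ^ 2 := by
    calc ∑ i, ∑ j, ‖(Li * Z * L + Dg) i j‖ ^ 2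
        ≤ ∑ i, ∑ j, (2 * (Real.exp (-2 * S x) * (B ^ 2 * m * ∑ k, ‖pd t W x k j‖ ^ 2)) +
            2 * ‖Dg i j‖ ^ 2) :=
          Finset.sum_le_sum fun i _ => Finset.sum_le_sum fun j _ => hfin i j
      _ = 2 * (B ^ 2 * m * m) * (Real.exp (-2 * S x) * Sg) +
            2 * ∑ i, ∑ j, ‖Dg i j‖ ^ 2 := by
          simp only [Finset.sum_add_distrib, ← Finset.mul_sum]
          rw [Finset.sum_const, Finset.card_univ, Fintype.card_fin, nsmul_eq_mul, hSg,
            Finset.sum_comm (f := fun i j => ‖pd t W x i j‖ ^ 2)]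
          ring
      _ = _ := by rw [hD]; ring
  refine htot.trans ?_
  have hE0 : 0 ≤ Real.exp (-2 * S x) * Sg := mul_nonneg (Real.exp_pos _).le hSg0
  have hf0 : 0 ≤ (fderiv ℝ S x t) ^ 2 := sq_nonneg _
  have hb0 : 0 ≤ 2 * (B ^ 2 * (m : ℝ) * m) := by positivity
  nlinarith [mul_nonneg hb0 hf0, mul_nonneg hM0 hE0]

end H80HM
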