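import Pool.Agent.H80.HM.Def3
import Pool.Agent.H80.HM.Aed

set_option autoImplicit false

/-!
# Row Cbt: the functions th1, th2, rr, SS

Write a(u) = |u - 1/2|, v' = min v (1/6), rho1 = max a v', rho2 = max (1-u) v'. On D: rho1 >= rr/3 and rho2 >= rr/3: rr = max(min(u,|u-1/2|,1-u), v) <= 1/2; if rr is the first term it is
<= a, <= 1-u; if rr = v: v' >= v/3 (v <= 1/2).
* th1, th2 in [0,1]; boundary values: (0,v): th1: 2(-1/2)/max(1/2,v') = -2 -> 0; th2: 2/1 -> 1 -> 0. (1,v): th1 = 1; th2: numerator 0 -> 1. (u,0): th1: 2(u-1/2)/|u-1/2| = -2 or 2 (0 for u<1/2,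
 1 for u>1/2); th2: 2 -> 1 -> 0 for u<1. They depend on v only through v'.
* Lipschitz: for real numbers s/r and s'/r' with |s| <= r, |s'| <= r', r, r' >= c > 0: |s/r - s'/r'| <= |s-s'|/r + |s'||r'-r|/(r r') <= (|s-s'|+|r-r'|)/c. rho1, rho2 are 1-Lipschitz. So on the set
 {x in D: rr >= c}: |th1 x - th1 y| <= (2/2)(2 dist)/(c/3) <= 6 dist/c, |th2 x - th2 y| <= 12 dist/c.
* derivative bound: at x in U (rr x > 0) the local Lipschitz constant is at most 12/(rr x - small), so |fderiv th x t| <= 12/rr x for t = (1,0), (0,1) (norm 1); (fderiv = 0 if not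
 differentiable). For x.2 > 1/6 th1, th2 do not depend on v and rho >= 1/6: |fderiv| <= 24.
* rr is 1-Lipschitz; rr(1,v) = rr(0,v) = v; rr(1-u,0) = rr(u,0); rr <= 1/2 on D, rr > 0 on D minus P0; dist to P0 >= d on D implies rr >= d (sup metric: rr x = dist(x,P0) for x in D), and
 rr x >= 1/6 if x.2 >= 1/6.
* SS = S0 + max 0 (log(log(1/rr)/R)), 1/rr >= 2 so log(1/rr) > 0: locally Lipschitz on {rr > 0}; constant S0 where log(1/rr) <= R, in particular where x.2 >= 1/6 (log 6 < 2 <= R).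
 derivative of t -> log(log(1/t)/R) is -1/(t log(1/t)); so |fderiv SS x t| <= 1/(rr log(1/rr)) if rr < exp(-R), and 0 if rr > exp(-R) (t = (1,0),(0,1)).
* Lipschitz on {x in D : rr >= c}: t -> max 0 (log(log(1/t)/R)) is Lipschitz on [c,1/2] (bounded derivative 1/(t log(1/t)) <= 1/(c log 2)).
* a.e. differentiability on U by Rademacher (th_ae).
-/

namespace H80HM

open Matrix MeasureTheory Set Filter Topology

theorem Cbt_dist (x y : ℝ × ℝ) : dist x y = max |x.1 - y.1| |x.2 - y.2| := by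
  rw [Prod.dist_eq, Real.dist_eq, Real.dist_eq]

theorem Cbt_d1 (x y : ℝ × ℝ) : |x.1 - y.1| ≤ dist x y := by
  rw [Cbt_dist]
  exact le_max_left _ _

theorem Cbt_d2 (x y : ℝ × ℝ) : |x.2 - y.2| ≤ dist x y := by
  rw [Cbt_dist]
  exact le_max_right _ _

theorem Cbt_UD {x : ℝ × ℝ} (hx : x ∈ U) : x ∈ D :=
  ⟨⟨hx.1.1.le, hx.1.2.le⟩, ⟨hx.2.1.le, hx.2.2.le⟩⟩

theorem Cbt_Uo : IsOpen U := isOpen_Ioo.prod isOpen_Ioo

theorem rr_le {x : ℝ × ℝ} (hx : x ∈ D) : rr x ≤ 1/2 ∧ 0 ≤ rr x := by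
  obtain ⟨⟨h1, h2⟩, h3, h4⟩ := hx
  refine ⟨?_, h3.trans (le_max_right _ _)⟩
  apply max_le _ h4
  rcases le_total x.1 (1/2) with h | h
  · exact ((min_le_left _ _).trans (min_le_left _ _)).trans h
  · exact (min_le_right _ _).trans (by linarith)

theorem rr_pos {x : ℝ × ℝ} (hx : x ∈ D) (hp : x ∉ P0) : 0 < rr x := by
  obtain ⟨⟨h1, h2⟩, h3, h4⟩ := hx
  rcases h3.lt_or_eq with h | h
  · exact h.trans_le (le_max_right _ _)
  · have h0 : x.1 ≠ 0 := by
      intro h0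
      apply hp
      refine ⟨?_, ?_⟩
      · rw [h0]
        simp
      · rw [← h]
        simp
    have h5 : x.1 ≠ 1/2 := by
      intro h0
      apply hp
      refine ⟨?_, ?_⟩
      · rw [h0]
        simp
      · rw [← h]
        simp
    have h6 : x.1 ≠ 1 := by
      intro h0
      apply hp
      refine ⟨?_, ?_⟩
      · rw [h0]
        simp
      · rw [← h]
        simp
    refine lt_of_lt_of_le ?_ (le_max_left _ _)
    apply lt_min
    · apply lt_min
      · exact lt_of_le_of_ne h1 (Ne.symm h0)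
      · exact abs_pos.2 (sub_ne_zero.2 h5)
    · have := lt_of_le_of_ne h2 h6
      linarith

theorem rr_dist {x : ℝ × ℝ} (hx : x ∈ D) {d : ℝ} (h : ∀ p ∈ P0, d ≤ dist x p) : d ≤ rr x := by
  obtain ⟨⟨h1, h2⟩, h3, h4⟩ := hx
  have hP : ∀ a : ℝ, (a = 0 ∨ a = 1/2 ∨ a = 1) → d ≤ max |x.1 - a| x.2 := by
    intro a ha
    have h5 := h (a, 0) ⟨by simpa using ha, by simp⟩
    rw [Cbt_dist] at h5
    simp only [sub_zero, abs_of_nonneg h3] at h5
    exact h5
  have e0 := hP 0 (Or.inl rfl)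
  have e1 := hP (1/2) (Or.inr (Or.inl rfl))
  have e2 := hP 1 (Or.inr (Or.inr rfl))
  rw [sub_zero, abs_of_nonneg h1] at e0
  rw [abs_of_nonpos (by linarith)] at e2
  rcases le_total d x.2 with h5 | h5
  · exact h5.trans (le_max_right _ _)
  · rcases h5.lt_or_eq with h6 | h6
    · refine le_trans ?_ (le_max_left _ _)
      apply le_min
      · apply le_min
        · rcases le_max_iff.1 e0 with h7 | h7
          · exact h7
          · linarith
        · rcases le_max_iff.1 e1 with h7 | h7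
          · exact h7
          · linarith
      · rcases le_max_iff.1 e2 with h7 | h7
        · linarith
        · linarith
    · rw [← h6]
      exact le_max_right _ _

theorem rr_v {x : ℝ × ℝ} : x.2 ≤ rr x := le_max_right _ _

theorem th_mem {x : ℝ × ℝ} (hx : x ∈ D) : th1 x ∈ Icc (0:ℝ) 1 ∧ th2 x ∈ Icc (0:ℝ) 1 := by
  have _ := hx
  refine ⟨⟨?_, ?_⟩, ⟨?_, ?_⟩⟩
  · have h1 : (-1 : ℝ) ≤ max (-1) (min 1 (2 * (x.1 - 1/2) / max |x.1 - 1/2| (min x.2 (1/6)))) :=
      le_max_left _ _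
    rw [th1]
    linarith
  · have h1 : max (-1 : ℝ) (min 1 (2 * (x.1 - 1/2) / max |x.1 - 1/2| (min x.2 (1/6)))) ≤ 1 :=
      max_le (by norm_num) (min_le_left _ _)
    rw [th1]
    linarith
  · have h1 : max (0 : ℝ) (min 1 (2 * (1 - x.1) / max (1 - x.1) (min x.2 (1/6)))) ≤ 1 :=
      max_le (by norm_num) (min_le_left _ _)
    rw [th2]
    linarith
  · have h1 : (0 : ℝ) ≤ max (0 : ℝ) (min 1 (2 * (1 - x.1) / max (1 - x.1) (min x.2 (1/6)))) :=
      le_max_left _ _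
    rw [th2]
    linarith

theorem th_side (v : ℝ) (hv : v ∈ Icc (0:ℝ) (1/2)) :
    th1 (0, v) = 0 ∧ th2 (0, v) = 0 ∧ th1 (1, v) = 1 ∧ th2 (1, v) = 1 := by
  have _ := hv
  have hm : min v (1/6 : ℝ) ≤ 1/6 := min_le_right _ _
  refine ⟨?_, ?_, ?_, ?_⟩
  · have h1 : max |(0:ℝ) - 1/2| (min v (1/6)) = 1/2 := by
      rw [max_eq_left]
      · rw [abs_of_nonpos (by norm_num)]
        norm_num
      · rw [abs_of_nonpos (by norm_num)]
        linarith
    simp only [th1]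
    rw [h1]
    norm_num
  · have h1 : max ((1:ℝ) - 0) (min v (1/6)) = 1 := by
      rw [max_eq_left (by linarith)]
      norm_num
    simp only [th2]
    rw [h1]
    norm_num
  · have h1 : max |(1:ℝ) - 1/2| (min v (1/6)) = 1/2 := by
      rw [max_eq_left]
      · rw [abs_of_nonneg (by norm_num)]
        norm_num
      · rw [abs_of_nonneg (by norm_num)]
        linarith
    simp only [th1]
    rw [h1]
    norm_num
  · simp only [th2]
    norm_num

theorem th_bottom {u : ℝ} (hu : u ∈ Ioo (0:ℝ) (1/2)) :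
    th1 (u, 0) = 0 ∧ th2 (u, 0) = 0 ∧ th1 (1 - u, 0) = 1 ∧ th2 (1 - u, 0) = 0 := by
  obtain ⟨h1, h2⟩ := hu
  have hm : min (0:ℝ) (1/6 : ℝ) = 0 := min_eq_left (by norm_num)
  refine ⟨?_, ?_, ?_, ?_⟩
  · simp only [th1]
    rw [hm, max_eq_left (abs_nonneg (u - 1/2)), abs_of_nonpos (by linarith)]
    have h3 : 2 * (u - 1/2) / -(u - 1/2) = -2 := by
      have h4 : u - 1/2 ≠ 0 := by linarith
      rw [div_neg, mul_div_assoc, div_self h4]
      norm_num
    rw [h3]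
    norm_num
  · simp only [th2]
    rw [hm, max_eq_left (by linarith : (0:ℝ) ≤ 1 - u)]
    have h3 : 2 * (1 - u) / (1 - u) = 2 := by
      have : 1 - u ≠ 0 := by linarith
      field_simp
    rw [h3]
    norm_num
  · simp only [th1]
    rw [hm, max_eq_left (abs_nonneg (1 - u - 1/2)), abs_of_nonneg (by linarith)]
    have h3 : 2 * (1 - u - 1/2) / (1 - u - 1/2) = 2 := by
      have h4 : 1 - u - 1/2 ≠ 0 := by linarith
      rw [mul_div_assoc, div_self h4, mul_one]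
    rw [h3]
    norm_num
  · simp only [th2]
    rw [hm, max_eq_left (by linarith : (0:ℝ) ≤ 1 - (1 - u))]
    have h3 : 2 * (1 - (1 - u)) / (1 - (1 - u)) = 2 := by
      have : 1 - (1 - u) ≠ 0 := by linarith
      field_simp
    rw [h3]
    norm_num

theorem th_indep {u v : ℝ} (hv : 1/6 ≤ v) : th1 (u, v) = th1 (u, 1/6) ∧
    th2 (u, v) = th2 (u, 1/6) := by
  have h1 : min v (1/6) = 1/6 := min_eq_right hv
  have h2 : min (1/6 : ℝ) (1/6) = 1/6 := min_self _
  constructor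
  · simp only [th1]
    rw [h1, h2]
  · simp only [th2]
    rw [h1, h2]

theorem Cbt_quot {s r s0 r0 : ℝ} (hr : 0 < r) (hr0 : 0 < r0) (hs : |s| ≤ 2 * r) :
    |s / r - s0 / r0| ≤ (|s - s0| + 2 * |r - r0|) / r0 := by
  have h1 : s / r - s0 / r0 = (s - s0) / r0 + s / r * ((r0 - r) / r0) := by
    field_simp
    ring
  have h2 : |s / r| ≤ 2 := by
    rw [abs_div, abs_of_pos hr, div_le_iff₀ hr]
    exact hs
  rw [h1]
  calc |(s - s0) / r0 + s / r * ((r0 - r) / r0)| ≤ |(s - s0) / r0| + |s / r * ((r0 - r) / r0)| :=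
        abs_add_le _ _
    _ = |s - s0| / r0 + |s / r| * (|r - r0| / r0) := by
        rw [abs_div, abs_mul, abs_div (r0 - r), abs_of_pos hr0, abs_sub_comm r0 r]
    _ ≤ |s - s0| / r0 + 2 * (|r - r0| / r0) := by
        have : 0 ≤ |r - r0| / r0 := by positivity
        linarith [mul_le_mul_of_nonneg_right h2 this]
    _ = _ := by ring

theorem Cbt_clamp (m a b : ℝ) : |max m (min 1 a) - max m (min 1 b)| ≤ |a - b| := by
  refine (abs_max_sub_max_le_max _ _ _ _).trans ?_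
  rw [sub_self, abs_zero]
  apply max_le (abs_nonneg _)
  refine (abs_min_sub_min_le_max _ _ _ _).trans ?_
  rw [sub_self, abs_zero]
  exact max_le (abs_nonneg _) le_rfl

/-- the two denominators -/
noncomputable def Cbt_r1 (x : ℝ × ℝ) : ℝ := max |x.1 - 1/2| (min x.2 (1/6))
noncomputable def Cbt_r2 (x : ℝ × ℝ) : ℝ := max (1 - x.1) (min x.2 (1/6))

theorem Cbt_minl (x y : ℝ × ℝ) : |min x.2 (1/6) - min y.2 (1/6)| ≤ dist x y := by
  refine (abs_min_sub_min_le_max _ _ _ _).trans ?_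
  rw [sub_self, abs_zero]
  exact max_le (Cbt_d2 x y) dist_nonneg

theorem Cbt_r1l (x y : ℝ × ℝ) : |Cbt_r1 x - Cbt_r1 y| ≤ dist x y := by
  refine (abs_max_sub_max_le_max _ _ _ _).trans (max_le ?_ (Cbt_minl x y))
  refine (abs_abs_sub_abs_le_abs_sub _ _).trans ?_
  have h1 : x.1 - 1/2 - (y.1 - 1/2) = x.1 - y.1 := by ring
  rw [h1]
  exact Cbt_d1 x y

theorem Cbt_r2l (x y : ℝ × ℝ) : |Cbt_r2 x - Cbt_r2 y| ≤ dist x y := by
  refine (abs_max_sub_max_le_max _ _ _ _).trans (max_le ?_ (Cbt_minl x y))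
  have h1 : 1 - x.1 - (1 - y.1) = -(x.1 - y.1) := by ring
  rw [h1, abs_neg]
  exact Cbt_d1 x y

theorem Cbt_r1g {x : ℝ × ℝ} (hx : x ∈ D) : rr x / 3 ≤ Cbt_r1 x := by
  obtain ⟨⟨h1, h2⟩, h3, h4⟩ := hx
  have e1 : x.2 / 3 ≤ min x.2 (1/6) := le_min (by linarith) (by linarith)
  have e2 : min (min x.1 |x.1 - 1/2|) (1 - x.1) ≤ |x.1 - 1/2| :=
    (min_le_left _ _).trans (min_le_right _ _)
  rw [Cbt_r1, rr]
  rcases le_total (min (min x.1 |x.1 - 1/2|) (1 - x.1)) x.2 with h | h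
  · rw [max_eq_right h]
    exact e1.trans (le_max_right _ _)
  · rw [max_eq_left h]
    refine le_trans ?_ (le_max_left _ _)
    have h0 : 0 ≤ min (min x.1 |x.1 - 1/2|) (1 - x.1) := h3.trans h
    linarith

theorem Cbt_r2g {x : ℝ × ℝ} (hx : x ∈ D) : rr x / 3 ≤ Cbt_r2 x := by
  obtain ⟨⟨h1, h2⟩, h3, h4⟩ := hx
  have e1 : x.2 / 3 ≤ min x.2 (1/6) := le_min (by linarith) (by linarith)
  have e2 : min (min x.1 |x.1 - 1/2|) (1 - x.1) ≤ 1 - x.1 := min_le_right _ _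
  rw [Cbt_r2, rr]
  rcases le_total (min (min x.1 |x.1 - 1/2|) (1 - x.1)) x.2 with h | h
  · rw [max_eq_right h]
    exact e1.trans (le_max_right _ _)
  · rw [max_eq_left h]
    refine le_trans ?_ (le_max_left _ _)
    have h0 : 0 ≤ min (min x.1 |x.1 - 1/2|) (1 - x.1) := h3.trans h
    linarith

theorem Cbt_t1 {x y : ℝ × ℝ} (hx : 0 < Cbt_r1 x) (hy : 0 < Cbt_r1 y) :
    |th1 x - th1 y| ≤ 2 / Cbt_r1 y * dist x y := by
  have h1 : th1 x - th1 y = (max (-1) (min 1 (2 * (x.1 - 1/2) / Cbt_r1 x)) -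
      max (-1) (min 1 (2 * (y.1 - 1/2) / Cbt_r1 y))) / 2 := by
    simp only [th1, Cbt_r1]
    ring
  have h2 : |2 * (x.1 - 1/2)| ≤ 2 * Cbt_r1 x := by
    rw [abs_mul, abs_two]
    exact mul_le_mul_of_nonneg_left (le_max_left _ _) (by norm_num)
  have h3 := Cbt_quot hx hy h2 (s0 := 2 * (y.1 - 1/2))
  have h4 : |2 * (x.1 - 1/2) - 2 * (y.1 - 1/2)| ≤ 2 * dist x y := by
    have : 2 * (x.1 - 1/2) - 2 * (y.1 - 1/2) = 2 * (x.1 - y.1) := by ring
    rw [this, abs_mul, abs_two]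
    exact mul_le_mul_of_nonneg_left (Cbt_d1 x y) (by norm_num)
  have h5 := Cbt_r1l x y
  rw [h1, abs_div, abs_two]
  calc |max (-1) (min 1 (2 * (x.1 - 1/2) / Cbt_r1 x)) -
      max (-1) (min 1 (2 * (y.1 - 1/2) / Cbt_r1 y))| / 2 ≤
      ((|2 * (x.1 - 1/2) - 2 * (y.1 - 1/2)| + 2 * |Cbt_r1 x - Cbt_r1 y|) / Cbt_r1 y) / 2 :=
        div_le_div_of_nonneg_right ((Cbt_clamp _ _ _).trans h3) (by norm_num)
    _ ≤ ((2 * dist x y + 2 * dist x y) / Cbt_r1 y) / 2 := by
        apply div_le_div_of_nonneg_right _ (by norm_num)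
        apply div_le_div_of_nonneg_right _ hy.le
        linarith
    _ = _ := by ring

theorem Cbt_t2 {x y : ℝ × ℝ} (hx1 : x.1 ≤ 1) (hx : 0 < Cbt_r2 x) (hy : 0 < Cbt_r2 y) :
    |th2 x - th2 y| ≤ 4 / Cbt_r2 y * dist x y := by
  have h1 : th2 x - th2 y = -(max 0 (min 1 (2 * (1 - x.1) / Cbt_r2 x)) -
      max 0 (min 1 (2 * (1 - y.1) / Cbt_r2 y))) := by
    simp only [th2, Cbt_r2]
    ring
  have h2 : |2 * (1 - x.1)| ≤ 2 * Cbt_r2 x := by
    rw [abs_mul, abs_two, abs_of_nonneg (by linarith)]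
    exact mul_le_mul_of_nonneg_left (le_max_left _ _) (by norm_num)
  have h3 := Cbt_quot hx hy h2 (s0 := 2 * (1 - y.1))
  have h4 : |2 * (1 - x.1) - 2 * (1 - y.1)| ≤ 2 * dist x y := by
    have : 2 * (1 - x.1) - 2 * (1 - y.1) = -(2 * (x.1 - y.1)) := by ring
    rw [this, abs_neg, abs_mul, abs_two]
    exact mul_le_mul_of_nonneg_left (Cbt_d1 x y) (by norm_num)
  have h5 := Cbt_r2l x y
  rw [h1, abs_neg]
  calc |max 0 (min 1 (2 * (1 - x.1) / Cbt_r2 x)) -
      max 0 (min 1 (2 * (1 - y.1) / Cbt_r2 y))| ≤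
      (|2 * (1 - x.1) - 2 * (1 - y.1)| + 2 * |Cbt_r2 x - Cbt_r2 y|) / Cbt_r2 y :=
        (Cbt_clamp _ _ _).trans h3
    _ ≤ (2 * dist x y + 2 * dist x y) / Cbt_r2 y := by
        apply div_le_div_of_nonneg_right _ hy.le
        linarith
    _ = _ := by ring

theorem th_lip {c : ℝ} (hc : 0 < c) : ∃ K : ℝ, ∀ x ∈ D, ∀ y ∈ D, c ≤ rr x → c ≤ rr y →
    |th1 x - th1 y| ≤ K * dist x y ∧ |th2 x - th2 y| ≤ K * dist x y := by
  refine ⟨12 / c, fun x hx y hy hcx hcy => ⟨?_, ?_⟩⟩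
  · have h1 := Cbt_r1g hx
    have h2 := Cbt_r1g hy
    refine (Cbt_t1 (by linarith) (by linarith)).trans ?_
    refine mul_le_mul_of_nonneg_right ?_ dist_nonneg
    rw [div_le_div_iff₀ (by linarith) hc]
    linarith
  · have h1 := Cbt_r2g hx
    have h2 := Cbt_r2g hy
    refine (Cbt_t2 hx.1.2 (by linarith) (by linarith)).trans ?_
    refine mul_le_mul_of_nonneg_right ?_ dist_nonneg
    rw [div_le_div_iff₀ (by linarith) hc]
    linarith

theorem Cbt_fd {f : ℝ × ℝ → ℝ} {x : ℝ × ℝ} {C : ℝ} (hC : 0 ≤ C)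
    (h : ∀ᶠ y in 𝓝 x, |f y - f x| ≤ C * dist y x) :
    |fderiv ℝ f x (1, 0)| ≤ C ∧ |fderiv ℝ f x (0, 1)| ≤ C := by
  have h1 : ‖fderiv ℝ f x‖ ≤ C := by
    apply norm_fderiv_le_of_lip' ℝ hC
    filter_upwards [h] with y hy
    rw [Real.norm_eq_abs, ← dist_eq_norm]
    exact hy
  have e1 : ‖((1, 0) : ℝ × ℝ)‖ = 1 := by simp [Prod.norm_def]
  have e2 : ‖((0, 1) : ℝ × ℝ)‖ = 1 := by simp [Prod.norm_def]
  constructor
  · have h2 := (fderiv ℝ f x).le_opNorm (1, 0)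
    rw [e1, mul_one, Real.norm_eq_abs] at h2
    exact h2.trans h1
  · have h2 := (fderiv ℝ f x).le_opNorm (0, 1)
    rw [e2, mul_one, Real.norm_eq_abs] at h2
    exact h2.trans h1

theorem Cbt_rU {x : ℝ × ℝ} (hx : x ∈ U) : 0 < rr x ∧ 0 < Cbt_r1 x ∧ 0 < Cbt_r2 x := by
  have h1 : 0 < min x.2 (1/6 : ℝ) := lt_min hx.2.1 (by norm_num)
  exact ⟨hx.2.1.trans_le (le_max_right _ _), h1.trans_le (le_max_right _ _),
    h1.trans_le (le_max_right _ _)⟩

theorem th_fd {x : ℝ × ℝ} (hx : x ∈ U) :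
    |fderiv ℝ th1 x (1, 0)| ≤ 12 / rr x ∧ |fderiv ℝ th1 x (0, 1)| ≤ 12 / rr x ∧
    |fderiv ℝ th2 x (1, 0)| ≤ 12 / rr x ∧ |fderiv ℝ th2 x (0, 1)| ≤ 12 / rr x := by
  obtain ⟨h0, h1, h2⟩ := Cbt_rU hx
  have hU := Cbt_Uo.mem_nhds hx
  have g1 := Cbt_r1g (Cbt_UD hx)
  have g2 := Cbt_r2g (Cbt_UD hx)
  have hC : 0 ≤ 12 / rr x := by positivity
  have a1 := Cbt_fd (f := th1) hC (by
    filter_upwards [hU] with y hy
    refine (Cbt_t1 (Cbt_rU hy).2.1 h1).trans (mul_le_mul_of_nonneg_right ?_ dist_nonneg)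
    rw [div_le_div_iff₀ h1 h0]
    linarith)
  have a2 := Cbt_fd (f := th2) hC (by
    filter_upwards [hU] with y hy
    refine (Cbt_t2 hy.1.2.le (Cbt_rU hy).2.2 h2).trans
      (mul_le_mul_of_nonneg_right ?_ dist_nonneg)
    rw [div_le_div_iff₀ h2 h0]
    linarith)
  exact ⟨a1.1, a1.2, a2.1, a2.2⟩

theorem ss_side (S0 R : ℝ) (v : ℝ) : SS S0 R (1, v) = SS S0 R (0, v) := by
  have h1 : rr (1, v) = rr (0, v) := by
    simp only [rr]
    congr 1
    norm_num
  rw [SS, SS, h1]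

theorem ss_bottom (S0 R : ℝ) {u : ℝ} (hu : u ∈ Ioo (0:ℝ) (1/2)) :
    SS S0 R (1 - u, 0) = SS S0 R (u, 0) := by
  obtain ⟨h1, h2⟩ := hu
  have h3 : rr (1 - u, 0) = rr (u, 0) := by
    simp only [rr]
    congr 1
    have e1 : |1 - u - 1/2| = |u - 1/2| := by
      have : 1 - u - 1/2 = -(u - 1/2) := by ring
      rw [this, abs_neg]
    have e2 : 1 - (1 - u) = u := by ring
    rw [e1, e2, min_right_comm, min_comm (1 - u) u]
    exact min_right_comm _ _ _
  rw [SS, SS, h3]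

theorem ss_ge (S0 R : ℝ) (x : ℝ × ℝ) : S0 ≤ SS S0 R x := by
  have := le_max_left 0 (Real.log (Real.log (1 / rr x) / R))
  rw [SS]
  linarith

/-- for radii in `(0, 1/2]` which are at least `exp (-R)` the second term vanishes -/
theorem Cbt_zero {R t : ℝ} (hR : 2 ≤ R) (ht : 0 < t) (ht2 : t ≤ 1/2) (h : Real.exp (-R) ≤ t) :
    max 0 (Real.log (Real.log (1 / t) / R)) = 0 := by
  apply max_eq_left
  have h1 : 1 < 1 / t := by
    rw [lt_div_iff₀ ht]
    linarith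
  have h2 : 0 < Real.log (1 / t) := Real.log_pos h1
  have h3 : Real.log (1 / t) ≤ R := by
    rw [one_div, Real.log_inv]
    have := (Real.le_log_iff_exp_le ht).2 h
    linarith
  apply Real.log_nonpos (by positivity)
  rw [div_le_one (by linarith)]
  exact h3

theorem ss_const (S0 : ℝ) {R : ℝ} (hR : 2 ≤ R) {x : ℝ × ℝ} (hx : x ∈ D) (hv : 1/6 ≤ x.2) :
    SS S0 R x = S0 := by
  have h1 : 1/6 ≤ rr x := hv.trans rr_v
  have h2 : Real.exp (-R) ≤ rr x := by
    refine le_trans ?_ h1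
    have h3 : Real.exp (-R) ≤ Real.exp (-2) := Real.exp_le_exp.2 (by linarith)
    refine h3.trans ?_
    rw [Real.exp_neg, inv_le_comm₀ (Real.exp_pos 2) (by norm_num)]
    have h4 : Real.exp 2 = Real.exp 1 * Real.exp 1 := by
      rw [← Real.exp_add]
      norm_num
    have h5 := Real.exp_one_gt_d9
    rw [h4]
    norm_num
    nlinarith
  rw [SS, Cbt_zero hR (by linarith) (rr_le hx).1 h2, add_zero]

theorem Cbt_rrl (x y : ℝ × ℝ) : |rr x - rr y| ≤ dist x y := by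
  refine (abs_max_sub_max_le_max _ _ _ _).trans (max_le ?_ (Cbt_d2 x y))
  refine (abs_min_sub_min_le_max _ _ _ _).trans (max_le ?_ ?_)
  · refine (abs_min_sub_min_le_max _ _ _ _).trans (max_le (Cbt_d1 x y) ?_)
    refine (abs_abs_sub_abs_le_abs_sub _ _).trans ?_
    have h1 : x.1 - 1/2 - (y.1 - 1/2) = x.1 - y.1 := by ring
    rw [h1]
    exact Cbt_d1 x y
  · have h1 : 1 - x.1 - (1 - y.1) = -(x.1 - y.1) := by ring
    rw [h1, abs_neg]
    exact Cbt_d1 x y

theorem Cbt_log1 {a b m : ℝ} (hm : 0 < m) (ha : m ≤ a) (hb : m ≤ b) :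
    Real.log a - Real.log b ≤ |a - b| / m := by
  have hb0 : 0 < b := by linarith
  have ha0 : 0 < a := by linarith
  rw [← Real.log_div ha0.ne' hb0.ne']
  have h1 := Real.log_le_sub_one_of_pos (div_pos ha0 hb0)
  have h2 : a / b - 1 = (a - b) / b := by
    field_simp
  rw [h2] at h1
  refine h1.trans ?_
  calc (a - b) / b ≤ |a - b| / b := div_le_div_of_nonneg_right (le_abs_self _) hb0.le
    _ ≤ |a - b| / m := div_le_div_of_nonneg_left (abs_nonneg _) hm hb

theorem Cbt_log {a b m : ℝ} (hm : 0 < m) (ha : m ≤ a) (hb : m ≤ b) :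
    |Real.log a - Real.log b| ≤ |a - b| / m := by
  rw [abs_le]
  constructor
  · have := Cbt_log1 hm hb ha
    rw [abs_sub_comm] at this
    linarith
  · exact Cbt_log1 hm ha hb

theorem ss_lip (S0 : ℝ) {R : ℝ} (hR : 2 ≤ R) {c : ℝ} (hc : 0 < c) :
    ∃ K : ℝ, ∀ x ∈ D, ∀ y ∈ D, c ≤ rr x → c ≤ rr y →
      |SS S0 R x - SS S0 R y| ≤ K * dist x y := by
  have hl2 : 0 < Real.log 2 := Real.log_pos (by norm_num)
  refine ⟨1 / (c * Real.log 2), fun x hx y hy hcx hcy => ?_⟩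
  have hL : ∀ z ∈ D, c ≤ rr z → Real.log 2 ≤ Real.log (1 / rr z) := by
    intro z hz hcz
    apply Real.log_le_log (by norm_num)
    rw [le_div_iff₀ (by linarith)]
    linarith [(rr_le hz).1]
  have h1 := hL x hx hcx
  have h2 := hL y hy hcy
  have e1 : SS S0 R x - SS S0 R y = max 0 (Real.log (Real.log (1 / rr x) / R)) -
      max 0 (Real.log (Real.log (1 / rr y) / R)) := by
    rw [SS, SS]
    ring
  have hR0 : R ≠ 0 := by linarith
  rw [e1]
  refine (abs_max_sub_max_le_max _ _ _ _).trans ?_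
  rw [sub_self, abs_zero]
  apply max_le (by positivity)
  rw [Real.log_div (by linarith) hR0, Real.log_div (by linarith) hR0]
  have e2 : Real.log (Real.log (1 / rr x)) - Real.log R -
      (Real.log (Real.log (1 / rr y)) - Real.log R) =
      Real.log (Real.log (1 / rr x)) - Real.log (Real.log (1 / rr y)) := by ring
  rw [e2]
  refine (Cbt_log hl2 h1 h2).trans ?_
  have e3 : |Real.log (1 / rr x) - Real.log (1 / rr y)| ≤ dist x y / c := by
    rw [one_div, one_div, Real.log_inv, Real.log_inv]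
    have e4 : -Real.log (rr x) - -Real.log (rr y) = -(Real.log (rr x) - Real.log (rr y)) := by
      ring
    rw [e4, abs_neg]
    exact (Cbt_log hc hcx hcy).trans (div_le_div_of_nonneg_right (Cbt_rrl x y) hc.le)
  calc |Real.log (1 / rr x) - Real.log (1 / rr y)| / Real.log 2 ≤ (dist x y / c) / Real.log 2 :=
        div_le_div_of_nonneg_right e3 hl2.le
    _ = _ := by
        field_simp

theorem Cbt_rrc : Continuous rr := by
  unfold rr
  fun_prop

theorem ss_fd (S0 : ℝ) {R : ℝ} (hR : 2 ≤ R) {x : ℝ × ℝ} (hx : x ∈ U) :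
    (rr x < Real.exp (-R) →
      |fderiv ℝ (SS S0 R) x (1, 0)| ≤ 1 / (rr x * Real.log (1 / rr x)) ∧
      |fderiv ℝ (SS S0 R) x (0, 1)| ≤ 1 / (rr x * Real.log (1 / rr x))) ∧
    (Real.exp (-R) < rr x →
      fderiv ℝ (SS S0 R) x (1, 0) = 0 ∧ fderiv ℝ (SS S0 R) x (0, 1) = 0) := by
  obtain ⟨h0, -, -⟩ := Cbt_rU hx
  have hle := (rr_le (Cbt_UD hx)).1
  have hl : 0 < Real.log (1 / rr x) := by
    apply Real.log_pos
    rw [lt_div_iff₀ h0]
    linarith
  have hR0 : 0 < R := by linarith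
  constructor
  · intro _
    have hd : HasDerivAt (fun t : ℝ => Real.log (Real.log (1 / t) / R))
        (-(1 / (rr x * Real.log (1 / rr x)))) (rr x) := by
      have d1 : HasDerivAt (fun t : ℝ => 1 / t) (-(1 / rr x ^ 2)) (rr x) := by
        have := hasDerivAt_inv h0.ne'
        simp only [one_div]
        exact this
      have d2 := (d1.log (by positivity)).div_const R
      have d3 := d2.log (by positivity)
      refine d3.congr_deriv ?_
      field_simp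
    have key : ∀ ε : ℝ, 0 < ε →
        |fderiv ℝ (SS S0 R) x (1, 0)| ≤ 1 / (rr x * Real.log (1 / rr x)) + ε ∧
        |fderiv ℝ (SS S0 R) x (0, 1)| ≤ 1 / (rr x * Real.log (1 / rr x)) + ε := by
      intro ε hε
      have hC : 0 ≤ 1 / (rr x * Real.log (1 / rr x)) + ε := by positivity
      apply Cbt_fd hC
      have h1 := (hd.isLittleO).def hε
      have h2 := (Cbt_rrc.tendsto x).eventually h1
      filter_upwards [h2] with y hy
      have e1 : SS S0 R y - SS S0 R x = max 0 (Real.log (Real.log (1 / rr y) / R)) -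
          max 0 (Real.log (Real.log (1 / rr x) / R)) := by
        rw [SS, SS]
        ring
      rw [e1]
      refine (abs_max_sub_max_le_max _ _ _ _).trans ?_
      rw [sub_self, abs_zero]
      apply max_le (by positivity)
      rw [Real.norm_eq_abs, Real.norm_eq_abs, smul_eq_mul] at hy
      have h3 := Cbt_rrl y x
      have h4 : |Real.log (Real.log (1 / rr y) / R) - Real.log (Real.log (1 / rr x) / R)| ≤
          |(rr y - rr x) * -(1 / (rr x * Real.log (1 / rr x)))| + ε * |rr y - rr x| := by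
        have h5 := abs_add_le (Real.log (Real.log (1 / rr y) / R) -
          Real.log (Real.log (1 / rr x) / R) - (rr y - rr x) * -(1 / (rr x * Real.log (1 / rr x))))
          ((rr y - rr x) * -(1 / (rr x * Real.log (1 / rr x))))
        rw [sub_add_cancel] at h5
        linarith
      refine h4.trans ?_
      have h6 : 0 ≤ 1 / (rr x * Real.log (1 / rr x)) := by positivity
      rw [abs_mul, abs_neg, abs_of_nonneg h6]
      calc |rr y - rr x| * (1 / (rr x * Real.log (1 / rr x))) + ε * |rr y - rr x| =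
            (1 / (rr x * Real.log (1 / rr x)) + ε) * |rr y - rr x| := by ring
        _ ≤ _ := mul_le_mul_of_nonneg_left h3 hC
    exact ⟨le_of_forall_pos_le_add fun ε hε => (key ε hε).1,
      le_of_forall_pos_le_add fun ε hε => (key ε hε).2⟩
  · intro hlt
    have h1 : ∀ᶠ y in 𝓝 x, Real.exp (-R) < rr y :=
      (Cbt_rrc.tendsto x).eventually (lt_mem_nhds hlt)
    have h2 : SS S0 R =ᶠ[𝓝 x] fun _ => S0 := by
      filter_upwards [h1, Cbt_Uo.mem_nhds hx] with y hy hyU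
      rw [SS, Cbt_zero hR (Cbt_rU hyU).1 (rr_le (Cbt_UD hyU)).1 hy.le, add_zero]
    rw [h2.fderiv_eq]
    simp

theorem Cbt_ae {f : ℝ × ℝ → ℝ} (h : ∀ c : ℝ, 0 < c → ∃ K : ℝ, ∀ x ∈ D, ∀ y ∈ D, c ≤ rr x →
    c ≤ rr y → |f x - f y| ≤ K * dist x y) :
    ∀ᵐ x ∂(volume.restrict U), DifferentiableAt ℝ f x := by
  have hsz : Aed_Sz (fun x => ((f x : ℝ) : ℂ)) := by
    intro d hd
    obtain ⟨K, hK⟩ := h d hd
    refine ⟨|K|, abs_nonneg _, fun x hx y hy => ?_⟩
    have hsub : P0 ⊆ P := by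
      rintro p ⟨h1, h2⟩
      refine ⟨h1, Or.inl ?_⟩
      exact h2
    have h1 := hK x hx.1 y hy.1 (rr_dist hx.1 fun p hp => hx.2 p (hsub hp))
      (rr_dist hy.1 fun p hp => hy.2 p (hsub hp))
    rw [← Complex.ofReal_sub, Complex.norm_real, Real.norm_eq_abs]
    exact h1.trans (mul_le_mul_of_nonneg_right (le_abs_self _) dist_nonneg)
  filter_upwards [Aed_Sz_ae hsz] with x hx
  have h1 : DifferentiableAt ℝ (fun y => Complex.reCLM ((f y : ℝ) : ℂ)) x :=
    Complex.reCLM.differentiableAt.comp x hx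
  exact h1

theorem th_ae (S0 : ℝ) {R : ℝ} (hR : 2 ≤ R) : ∀ᵐ x ∂(volume.restrict U),
    DifferentiableAt ℝ th1 x ∧ DifferentiableAt ℝ th2 x ∧ DifferentiableAt ℝ (SS S0 R) x := by
  have h1 : ∀ᵐ x ∂(volume.restrict U), DifferentiableAt ℝ th1 x := Cbt_ae fun c hc => by
    obtain ⟨K, hK⟩ := th_lip hc
    exact ⟨K, fun x hx y hy h h' => (hK x hx y hy h h').1⟩
  have h2 : ∀ᵐ x ∂(volume.restrict U), DifferentiableAt ℝ th2 x := Cbt_ae fun c hc => by
    obtain ⟨K, hK⟩ := th_lip hc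
    exact ⟨K, fun x hx y hy h h' => (hK x hx y hy h h').2⟩
  have h3 : ∀ᵐ x ∂(volume.restrict U), DifferentiableAt ℝ (SS S0 R) x :=
    Cbt_ae fun c hc => ss_lip S0 hR hc
  filter_upwards [h1, h2, h3] with x a b c
  exact ⟨a, b, c⟩

end H80HM
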