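import Pool.Agent.H80.HM.Def3

set_option autoImplicit false

/-!
# Row Crd: radial integrals

(1) rad_le: for f >= 0 measurable, int_U f(rr x) dx <= 8 int_0^{1/2} f(r) r dr (with integrability). U is the union of the four strips u in (k/4,(k+1)/4), k = 0..3, up to a null
 set; on each rr(u,v) = max(u',v), u' = distance of u to the nearest of 0, 1/2, 1, in (0,1/4) (u' = u, 1/2-u, u-1/2, 1-u). int_{0<v<1/2} int_{0<u'<1/4} f(max(u',v)) =
 int_v [ min(v,1/4) f(v) + int_{u'>v} f(u') du' ] dv <= int_0^{1/2} v f(v) dv + int_0^{1/4} u' f(u') du' <= 2 int_0^{1/2} f(r) r dr. (Work with lintegral of ENNReal.ofReal.)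
(2) g1 = exp(-2 SS)/rr^2: for rr >= exp(-R): SS >= S0, f(r) = exp(-2S0)/r^2: int_{exp(-R)}^{1/2} r^{-1} dr <= R. For r < exp(-R): SS = S0 + log(log(1/r)/R), exp(-2SS) = exp(-2S0)
 R^2/log(1/r)^2, int_0^{exp(-R)} R^2/(r log(1/r)^2) dr = R^2 [1/log(1/r)]_0^{exp(-R)} = R. Total int_U g1 <= 8 exp(-2S0) 2R = 16 R exp(-2S0).
(3) g2 = 1/(rr log(1/rr))^2 on rr < exp(-R), 0 otherwise: 8 int_0^{exp(-R)} dr/(r log(1/r)^2) = 8/R.
 (1/log(1/r) has derivative 1/(r log(1/r)^2) for 0 < r < 1 and tends to 0 as r -> 0; improper integral: integrableOn_Ioi_deriv.. or monotone convergence.)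
-/

namespace H80HM

open Matrix MeasureTheory Set

/-- the horizontal distance -/
noncomputable def Crd_d (u : ℝ) : ℝ := min (min u |u - 1/2|) (1 - u)

theorem Crd_meas_d : Measurable Crd_d := by
  unfold Crd_d
  fun_prop

theorem Crd_rr (x : ℝ × ℝ) : rr x = max (Crd_d x.1) x.2 := rfl

theorem Crd_meas_rr : Measurable rr := by
  unfold rr
  fun_prop

theorem Crd_set {v : ℝ} :
    (volume.restrict (Ioo (0:ℝ) 1)) {u | Crd_d u ≤ v} ≤ 4 * ENNReal.ofReal v := by
  have hm : MeasurableSet {u | Crd_d u ≤ v} := measurableSet_le Crd_meas_d measurable_const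
  rw [Measure.restrict_apply hm]
  have hsub : {u | Crd_d u ≤ v} ∩ Ioo (0:ℝ) 1 ⊆
      (Icc 0 v ∪ Icc (1/2 - v) (1/2 + v)) ∪ Icc (1 - v) 1 := by
    rintro u ⟨hu, h0, h1⟩
    have hu' : min (min u |u - 1/2|) (1 - u) ≤ v := hu
    rw [min_le_iff, min_le_iff] at hu'
    rcases hu' with (h | h) | h
    · exact Or.inl (Or.inl ⟨h0.le, h⟩)
    · rw [abs_le] at h
      exact Or.inl (Or.inr ⟨by linarith [h.1], by linarith [h.2]⟩)
    · exact Or.inr ⟨by linarith, h1.le⟩
  calc volume ({u | Crd_d u ≤ v} ∩ Ioo (0:ℝ) 1) ≤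
        volume ((Icc 0 v ∪ Icc (1/2 - v) (1/2 + v)) ∪ Icc (1 - v) 1) := measure_mono hsub
    _ ≤ volume (Icc 0 v ∪ Icc (1/2 - v) (1/2 + v)) + volume (Icc (1 - v) 1) := measure_union_le _ _
    _ ≤ (volume (Icc 0 v) + volume (Icc (1/2 - v) (1/2 + v))) + volume (Icc (1 - v) 1) := by
        gcongr
        exact measure_union_le _ _
    _ = 4 * ENNReal.ofReal v := by
        rw [Real.volume_Icc, Real.volume_Icc, Real.volume_Icc]
        have e1 : (1/2 + v - (1/2 - v) : ℝ) = 2 * v := by ring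
        have e2 : (1 - (1 - v) : ℝ) = v := by ring
        rw [e1, e2, sub_zero, ENNReal.ofReal_mul (by norm_num)]
        have e3 : ENNReal.ofReal 2 = 2 := by simp
        rw [e3]
        ring

theorem Crd_h (g : ℝ → ENNReal) (hg0 : g 0 = 0) {u : ℝ} (hu : u ∈ Ioo (0:ℝ) 1) :
    g (Crd_d u) ≤ (Ioo (0:ℝ) (1/2)).indicator g u +
      ((Ioo (0:ℝ) (1/2)).indicator g (u - 1/2) + ((Ioo (0:ℝ) (1/2)).indicator g (1/2 - u) +
        (Ioo (0:ℝ) (1/2)).indicator g (1 - u))) := by
  obtain ⟨h0, h1⟩ := hu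
  unfold Crd_d
  by_cases c1 : u ≤ |u - 1/2| ∧ u ≤ 1 - u
  · have hmem : u ∈ Ioo (0:ℝ) (1/2) := by
      refine ⟨h0, ?_⟩
      rcases lt_or_ge u (1/2) with h | h
      · exact h
      · exfalso
        have := c1.1
        rw [abs_of_nonneg (by linarith)] at this
        linarith
    rw [min_eq_left (by rw [min_eq_left c1.1]; exact c1.2), min_eq_left c1.1,
      indicator_of_mem hmem]
    exact le_self_add
  by_cases c2 : 1 - u ≤ |u - 1/2| ∧ 1 - u ≤ u
  · have hmem : 1 - u ∈ Ioo (0:ℝ) (1/2) := by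
      refine ⟨by linarith, ?_⟩
      rcases lt_or_ge (1/2) u with h | h
      · linarith
      · exfalso
        have := c2.1
        rw [abs_of_nonpos (by linarith)] at this
        linarith
    rw [min_eq_right (le_min c2.2 c2.1), indicator_of_mem hmem]
    exact le_add_self.trans (le_add_self.trans le_add_self)
  have h3 : |u - 1/2| ≤ u ∧ |u - 1/2| ≤ 1 - u := by
    rw [not_and_or, not_le, not_le] at c1 c2
    rcases abs_cases (u - 1/2) with ⟨e, he⟩ | ⟨e, he⟩
    · rw [e] at c1 c2 ⊢
      rcases c2 with c2 | c2 <;> constructor <;> linarith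
    · rw [e] at c1 c2 ⊢
      rcases c1 with c1 | c1 <;> constructor <;> linarith
  rw [min_eq_left (by rw [min_eq_right h3.1]; exact h3.2), min_eq_right h3.1]
  rcases lt_trichotomy u (1/2) with h | h | h
  · have hmem : 1/2 - u ∈ Ioo (0:ℝ) (1/2) := ⟨by linarith, by linarith⟩
    rw [abs_of_neg (by linarith), neg_sub, indicator_of_mem hmem]
    exact (le_self_add).trans (le_add_self.trans le_add_self)
  · rw [h, sub_self, abs_zero, hg0]
    exact zero_le
  · have hmem : u - 1/2 ∈ Ioo (0:ℝ) (1/2) := ⟨by linarith, by linarith⟩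
    rw [abs_of_pos (by linarith), indicator_of_mem hmem]
    exact (le_self_add).trans le_add_self

theorem Crd_rad (f : ℝ → ENNReal) (hf : Measurable f) :
    ∫⁻ x in U, f (rr x) ≤ 8 * ∫⁻ r in Ioo (0:ℝ) (1/2), f r * ENNReal.ofReal r := by
  classical
  obtain ⟨g, hg⟩ : ∃ g : ℝ → ENNReal, g = fun r => f r * ENNReal.ofReal r := ⟨_, rfl⟩
  have hgm : Measurable g := by
    rw [hg]
    exact hf.mul ENNReal.measurable_ofReal
  have hg0 : g 0 = 0 := by rw [hg]; simp
  obtain ⟨I, hI⟩ : ∃ I, I = ∫⁻ r in Ioo (0:ℝ) (1/2), g r := ⟨_, rfl⟩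
  have hIg : ∫⁻ r in Ioo (0:ℝ) (1/2), f r * ENNReal.ofReal r = I := by rw [hI, hg]
  rw [hIg]
  have hIh : ∫⁻ r, (Ioo (0:ℝ) (1/2)).indicator g r = I := by
    rw [hI, lintegral_indicator measurableSet_Ioo]
  have hvol : (volume : Measure (ℝ × ℝ)).restrict U =
      (volume.restrict (Ioo (0:ℝ) 1)).prod (volume.restrict (Ioo (0:ℝ) (1/2))) := by
    rw [Measure.prod_restrict]
    rfl
  rw [hvol]
  have hA : Measurable fun x : ℝ × ℝ => if Crd_d x.1 ≤ x.2 then f x.2 else 0 :=
    Measurable.ite (measurableSet_le (Crd_meas_d.comp measurable_fst) measurable_snd)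
      (hf.comp measurable_snd) measurable_const
  have hB : Measurable fun x : ℝ × ℝ => if x.2 ≤ Crd_d x.1 then f (Crd_d x.1) else 0 :=
    Measurable.ite (measurableSet_le measurable_snd (Crd_meas_d.comp measurable_fst))
      (hf.comp (Crd_meas_d.comp measurable_fst)) measurable_const
  have h1 : ∫⁻ x, f (rr x) ∂((volume.restrict (Ioo (0:ℝ) 1)).prod
        (volume.restrict (Ioo (0:ℝ) (1/2)))) ≤
      ∫⁻ x, ((if Crd_d x.1 ≤ x.2 then f x.2 else 0) +
        (if x.2 ≤ Crd_d x.1 then f (Crd_d x.1) else 0)) ∂((volume.restrict (Ioo (0:ℝ) 1)).prod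
        (volume.restrict (Ioo (0:ℝ) (1/2)))) := by
    refine lintegral_mono fun x => ?_
    rw [Crd_rr]
    rcases le_total (Crd_d x.1) x.2 with h | h
    · rw [max_eq_right h, if_pos h]
      exact le_self_add
    · rw [max_eq_left h, if_pos h]
      exact le_add_self
  refine h1.trans ?_
  rw [lintegral_add_left hA]
  have hAA : ∫⁻ x, (if Crd_d x.1 ≤ x.2 then f x.2 else 0) ∂((volume.restrict (Ioo (0:ℝ) 1)).prod
        (volume.restrict (Ioo (0:ℝ) (1/2)))) ≤ 4 * I := by
    rw [lintegral_prod_symm' _ hA, hI, ← lintegral_const_mul _ hgm]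
    refine setLIntegral_mono (by fun_prop) fun v hv => ?_
    have e1 : ∫⁻ u, (if Crd_d u ≤ v then f v else 0) ∂(volume.restrict (Ioo (0:ℝ) 1)) =
        f v * (volume.restrict (Ioo (0:ℝ) 1)) {u | Crd_d u ≤ v} := by
      have e2 : (fun u => if Crd_d u ≤ v then f v else 0) =
          {u | Crd_d u ≤ v}.indicator (fun _ => f v) := by
        funext u
        simp [indicator]
      rw [e2, lintegral_indicator (measurableSet_le Crd_meas_d measurable_const),
        setLIntegral_const]
    change ∫⁻ u, (if Crd_d u ≤ v then f v else 0) ∂(volume.restrict (Ioo (0:ℝ) 1)) ≤ 4 * g v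
    rw [e1]
    calc f v * (volume.restrict (Ioo (0:ℝ) 1)) {u | Crd_d u ≤ v} ≤
          f v * (4 * ENNReal.ofReal v) := by gcongr; exact Crd_set
      _ = 4 * g v := by rw [hg]; ring
  have hBB : ∫⁻ x, (if x.2 ≤ Crd_d x.1 then f (Crd_d x.1) else 0) ∂((volume.restrict
        (Ioo (0:ℝ) 1)).prod (volume.restrict (Ioo (0:ℝ) (1/2)))) ≤ 4 * I := by
    rw [lintegral_prod _ hB.aemeasurable]
    have e1 : ∀ u : ℝ, ∫⁻ v, (if v ≤ Crd_d u then f (Crd_d u) else 0)
        ∂(volume.restrict (Ioo (0:ℝ) (1/2))) ≤ g (Crd_d u) := by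
      intro u
      have e2 : (fun v => if v ≤ Crd_d u then f (Crd_d u) else 0) =
          {v | v ≤ Crd_d u}.indicator (fun _ => f (Crd_d u)) := by
        funext v
        simp [indicator]
      have hms : MeasurableSet {v : ℝ | v ≤ Crd_d u} := measurableSet_le measurable_id measurable_const
      rw [e2, lintegral_indicator hms, setLIntegral_const, Measure.restrict_apply hms, hg]
      change f (Crd_d u) * _ ≤ f (Crd_d u) * ENNReal.ofReal (Crd_d u)
      gcongr
      calc volume ({v : ℝ | v ≤ Crd_d u} ∩ Ioo (0:ℝ) (1/2)) ≤ volume (Ioc (0:ℝ) (Crd_d u)) := by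
            refine measure_mono ?_
            rintro v ⟨ha, hb⟩
            exact ⟨hb.1, ha⟩
        _ = ENNReal.ofReal (Crd_d u) := by rw [Real.volume_Ioc, sub_zero]
    have hh : Measurable ((Ioo (0:ℝ) (1/2)).indicator g) := hgm.indicator measurableSet_Ioo
    have hh1 : Measurable fun u : ℝ => (Ioo (0:ℝ) (1/2)).indicator g (u - 1/2) :=
      hh.comp (measurable_id.sub_const _)
    have hh2 : Measurable fun u : ℝ => (Ioo (0:ℝ) (1/2)).indicator g (1/2 - u) :=
      hh.comp (measurable_const.sub measurable_id)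
    have hh3 : Measurable fun u : ℝ => (Ioo (0:ℝ) (1/2)).indicator g (1 - u) :=
      hh.comp (measurable_const.sub measurable_id)
    calc ∫⁻ u, ∫⁻ v, (if v ≤ Crd_d u then f (Crd_d u) else 0)
          ∂(volume.restrict (Ioo (0:ℝ) (1/2))) ∂(volume.restrict (Ioo (0:ℝ) 1))
        ≤ ∫⁻ u in Ioo (0:ℝ) 1, ((Ioo (0:ℝ) (1/2)).indicator g u +
            ((Ioo (0:ℝ) (1/2)).indicator g (u - 1/2) + ((Ioo (0:ℝ) (1/2)).indicator g (1/2 - u) +
              (Ioo (0:ℝ) (1/2)).indicator g (1 - u)))) := by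
          refine setLIntegral_mono (hh.add (hh1.add (hh2.add hh3))) fun u hu => ?_
          exact (e1 u).trans (Crd_h g hg0 hu)
      _ ≤ ∫⁻ u, ((Ioo (0:ℝ) (1/2)).indicator g u +
            ((Ioo (0:ℝ) (1/2)).indicator g (u - 1/2) + ((Ioo (0:ℝ) (1/2)).indicator g (1/2 - u) +
              (Ioo (0:ℝ) (1/2)).indicator g (1 - u)))) := setLIntegral_le_lintegral _ _
      _ = 4 * I := by
          rw [lintegral_add_left hh, lintegral_add_left hh1, lintegral_add_left hh2,
            lintegral_sub_right_eq_self (fun u => (Ioo (0:ℝ) (1/2)).indicator g u) (1/2),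
            lintegral_sub_left_eq_self (fun u => (Ioo (0:ℝ) (1/2)).indicator g u) (1/2),
            lintegral_sub_left_eq_self (fun u => (Ioo (0:ℝ) (1/2)).indicator g u) 1, hIh]
          ring
  calc _ ≤ 4 * I + 4 * I := add_le_add hAA hBB
    _ = 8 * I := by ring

theorem Crd_gen (G : ℝ → ℝ) (hG : Measurable G) (hG0 : ∀ r, 0 ≤ G r) {C : ℝ} (hC : 0 ≤ C)
    (h : ∫⁻ r in Ioo (0:ℝ) (1/2), ENNReal.ofReal (G r * r) ≤ ENNReal.ofReal C) :
    IntegrableOn (fun x => G (rr x)) U ∧ ∫ x in U, G (rr x) ≤ 8 * C := by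
  have hm : Measurable fun x : ℝ × ℝ => G (rr x) := hG.comp Crd_meas_rr
  have h1 : ∫⁻ x in U, ENNReal.ofReal (G (rr x)) ≤ ENNReal.ofReal (8 * C) := by
    refine (Crd_rad (fun r => ENNReal.ofReal (G r)) hG.ennreal_ofReal).trans ?_
    rw [ENNReal.ofReal_mul (by norm_num)]
    have e1 : ENNReal.ofReal 8 = 8 := by simp
    rw [e1]
    gcongr
    refine le_trans (le_of_eq ?_) h
    refine lintegral_congr fun r => ?_
    rw [ENNReal.ofReal_mul (hG0 r)]
  have h2 : HasFiniteIntegral (fun x => G (rr x)) (volume.restrict U) := by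
    rw [hasFiniteIntegral_iff_ofReal (Filter.Eventually.of_forall fun x => hG0 _)]
    exact lt_of_le_of_lt h1 ENNReal.ofReal_lt_top
  refine ⟨⟨hm.aestronglyMeasurable, h2⟩, ?_⟩
  rw [integral_eq_lintegral_of_nonneg_ae (Filter.Eventually.of_forall fun x => hG0 _)
    hm.aestronglyMeasurable]
  exact ENNReal.toReal_le_of_le_ofReal (by positivity) h1

theorem Crd_log_int {R : ℝ} (hR : 0 < R) :
    ∫⁻ r in Ioc (0:ℝ) (Real.exp (-R)), ENNReal.ofReal (1 / (r * Real.log r ^ 2)) =
      ENNReal.ofReal (1 / R) := by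
  have he0 : 0 < Real.exp (-R) := Real.exp_pos _
  have he1 : Real.exp (-R) < 1 := by rw [Real.exp_lt_one_iff]; linarith
  have hcont : ContinuousOn (fun r : ℝ => (-Real.log r)⁻¹) (Icc 0 (Real.exp (-R))) := by
    intro r hr
    rcases eq_or_lt_of_le hr.1 with h0 | h0
    · rw [← h0]
      have h1 : Filter.Tendsto (fun r : ℝ => (-Real.log r)⁻¹) (nhdsWithin 0 (Ioi 0)) (nhds 0) := by
        have h2 : Filter.Tendsto (fun r : ℝ => -Real.log r) (nhdsWithin 0 (Ioi 0))
            Filter.atTop := Filter.tendsto_neg_atBot_atTop.comp Real.tendsto_log_nhdsGT_zero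
        exact h2.inv_tendsto_atTop
      have h3 : ContinuousWithinAt (fun r : ℝ => (-Real.log r)⁻¹) (Ioi 0) 0 := by
        unfold ContinuousWithinAt
        simpa using h1
      have h4 : ContinuousWithinAt (fun r : ℝ => (-Real.log r)⁻¹) (insert 0 (Ioi 0)) 0 :=
        continuousWithinAt_insert_self.2 h3
      refine h4.mono ?_
      intro x hx
      rcases eq_or_lt_of_le hx.1 with h5 | h5
      · exact Or.inl h5.symm
      · exact Or.inr h5
    · have hlog : Real.log r < 0 := Real.log_neg h0 (lt_of_le_of_lt hr.2 he1)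
      refine ContinuousAt.continuousWithinAt ?_
      exact ((Real.continuousAt_log h0.ne').neg).inv₀ (neg_ne_zero.2 hlog.ne)
  have hderiv : ∀ r ∈ Ioo 0 (Real.exp (-R)),
      HasDerivAt (fun r : ℝ => (-Real.log r)⁻¹) (1 / (r * Real.log r ^ 2)) r := by
    intro r hr
    have hlog : Real.log r < 0 := Real.log_neg hr.1 (hr.2.trans he1)
    have h1 := ((Real.hasDerivAt_log hr.1.ne').neg).inv (by simpa using hlog.ne)
    refine h1.congr_deriv ?_
    have hr0 : r ≠ 0 := hr.1.ne'
    have hl0 : Real.log r ≠ 0 := hlog.ne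
    simp only [Pi.neg_apply]
    field_simp
  have hnn : ∀ r ∈ Ioo 0 (Real.exp (-R)), 0 ≤ 1 / (r * Real.log r ^ 2) := by
    intro r hr
    have := hr.1
    positivity
  have hint : IntegrableOn (fun r : ℝ => 1 / (r * Real.log r ^ 2)) (Ioc 0 (Real.exp (-R))) :=
    intervalIntegral.integrableOn_deriv_of_nonneg hcont hderiv hnn
  have hval : ∫ r in (0:ℝ)..(Real.exp (-R)), 1 / (r * Real.log r ^ 2) = 1 / R := by
    rw [intervalIntegral.integral_eq_sub_of_hasDerivAt_of_le he0.le hcont hderiv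
      ((intervalIntegrable_iff_integrableOn_Ioc_of_le he0.le).2 hint)]
    simp
  rw [← ofReal_integral_eq_lintegral_ofReal hint]
  · rw [intervalIntegral.integral_of_le he0.le] at hval
    rw [hval]
  · refine (ae_restrict_mem measurableSet_Ioc).mono ?_
    intro r hr
    have := hr.1
    change 0 ≤ 1 / (r * Real.log r ^ 2)
    positivity

theorem Crd_inv_int {R : ℝ} (hR : 2 ≤ R) :
    ∫⁻ r in Ioc (Real.exp (-R)) (1/2), ENNReal.ofReal (1 / r) ≤ ENNReal.ofReal R := by
  have he0 : 0 < Real.exp (-R) := Real.exp_pos _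
  have he1 : Real.exp (-R) ≤ 1/2 := by
    have h1 : Real.exp (-R) ≤ Real.exp (-1) := Real.exp_le_exp.2 (by linarith)
    have h2 : Real.exp (-1) ≤ 1/2 := by
      rw [Real.exp_neg]
      have h3 : (2:ℝ) ≤ Real.exp 1 := by have := Real.add_one_le_exp (1:ℝ); linarith
      rw [one_div]
      exact inv_anti₀ (by norm_num) h3
    exact h1.trans h2
  have hint : IntegrableOn (fun r : ℝ => 1 / r) (Ioc (Real.exp (-R)) (1/2)) := by
    refine (intervalIntegrable_iff_integrableOn_Ioc_of_le he1).1 ?_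
    refine intervalIntegral.intervalIntegrable_one_div ?_ continuousOn_id
    intro r hr
    rw [uIcc_of_le he1] at hr
    exact (lt_of_lt_of_le he0 hr.1).ne'
  rw [← ofReal_integral_eq_lintegral_ofReal hint]
  · apply ENNReal.ofReal_le_ofReal
    rw [← intervalIntegral.integral_of_le he1, integral_one_div_of_pos he0 (by norm_num),
      Real.log_div (by norm_num) he0.ne', Real.log_exp]
    have : Real.log (1/2) ≤ 0 := Real.log_nonpos (by norm_num) (by norm_num)
    linarith
  · refine (ae_restrict_mem measurableSet_Ioc).mono ?_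
    intro r hr
    have : 0 < r := he0.trans hr.1
    change 0 ≤ 1 / r
    positivity

theorem g1_int (S0 : ℝ) {R : ℝ} (hR : 2 ≤ R) :
    IntegrableOn (fun x => Real.exp (-2 * SS S0 R x) / rr x ^ 2) U ∧
    ∫ x in U, Real.exp (-2 * SS S0 R x) / rr x ^ 2 ≤ 16 * R * Real.exp (-2 * S0) := by
  obtain ⟨G, hG⟩ : ∃ G : ℝ → ℝ, G = fun r =>
      Real.exp (-2 * (S0 + max 0 (Real.log (Real.log (1 / r) / R)))) / r ^ 2 := ⟨_, rfl⟩
  have hGm : Measurable G := by
    rw [hG]
    fun_prop
  have hG0 : ∀ r, 0 ≤ G r := by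
    intro r
    rw [hG]
    positivity
  have hE : 0 < Real.exp (-2 * S0) := Real.exp_pos _
  have hR0 : 0 < R := by linarith
  have he0 : 0 < Real.exp (-R) := Real.exp_pos _
  have hbound : ∫⁻ r in Ioo (0:ℝ) (1/2), ENNReal.ofReal (G r * r) ≤
      ENNReal.ofReal (2 * R * Real.exp (-2 * S0)) := by
    have hsub : Ioo (0:ℝ) (1/2) ⊆ Ioc 0 (Real.exp (-R)) ∪ Ioc (Real.exp (-R)) (1/2) := by
      intro r hr
      rcases le_or_gt r (Real.exp (-R)) with h | h
      · exact Or.inl ⟨hr.1, h⟩
      · exact Or.inr ⟨h, hr.2.le⟩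
    have hp1 : ∀ r ∈ Ioc (0:ℝ) (Real.exp (-R)), ENNReal.ofReal (G r * r) ≤
        ENNReal.ofReal (Real.exp (-2 * S0) * R ^ 2) * ENNReal.ofReal (1 / (r * Real.log r ^ 2)) := by
      intro r hr
      rw [← ENNReal.ofReal_mul (by positivity)]
      apply ENNReal.ofReal_le_ofReal
      have hr0 := hr.1
      have hl : R ≤ Real.log (1 / r) := by
        rw [one_div, Real.log_inv]
        have := Real.log_le_log hr0 hr.2
        rw [Real.log_exp] at this
        linarith
      have hl0 : 0 < Real.log (1 / r) := by linarith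
      have hl' : Real.log (1 / r) = -Real.log r := by rw [one_div, Real.log_inv]
      have hle : Real.exp (-2 * (S0 + max 0 (Real.log (Real.log (1 / r) / R)))) ≤
          Real.exp (-2 * S0) * (R ^ 2 / Real.log r ^ 2) := by
        have h1 : Real.exp (-2 * (S0 + max 0 (Real.log (Real.log (1 / r) / R)))) ≤
            Real.exp (-2 * S0 + -2 * Real.log (Real.log (1 / r) / R)) := by
          apply Real.exp_le_exp.2
          have := le_max_right 0 (Real.log (Real.log (1 / r) / R))
          linarith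
        refine h1.trans (le_of_eq ?_)
        rw [Real.exp_add]
        congr 1
        have h2 : -2 * Real.log (Real.log (1 / r) / R) =
            Real.log ((R / Real.log (1 / r)) ^ 2) := by
          rw [Real.log_pow, Real.log_div hl0.ne' hR0.ne', Real.log_div hR0.ne' hl0.ne']
          push_cast
          ring
        rw [h2, Real.exp_log (by positivity), div_pow, hl']
        rw [neg_sq]
      rw [hG]
      change Real.exp (-2 * (S0 + max 0 (Real.log (Real.log (1 / r) / R)))) / r ^ 2 * r ≤ _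
      have hlr : Real.log r ≠ 0 := by
        intro h0
        rw [h0, neg_zero] at hl'
        rw [hl'] at hl0
        exact lt_irrefl _ hl0
      calc Real.exp (-2 * (S0 + max 0 (Real.log (Real.log (1 / r) / R)))) / r ^ 2 * r =
            Real.exp (-2 * (S0 + max 0 (Real.log (Real.log (1 / r) / R)))) * (1 / r) := by
              field_simp
        _ ≤ Real.exp (-2 * S0) * (R ^ 2 / Real.log r ^ 2) * (1 / r) :=
              mul_le_mul_of_nonneg_right hle (by positivity)
        _ = Real.exp (-2 * S0) * R ^ 2 * (1 / (r * Real.log r ^ 2)) := by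
              field_simp
    have hp2 : ∀ r ∈ Ioc (Real.exp (-R)) (1/2), ENNReal.ofReal (G r * r) ≤
        ENNReal.ofReal (Real.exp (-2 * S0)) * ENNReal.ofReal (1 / r) := by
      intro r hr
      rw [← ENNReal.ofReal_mul hE.le]
      apply ENNReal.ofReal_le_ofReal
      have hr0 : 0 < r := he0.trans hr.1
      have hle : Real.exp (-2 * (S0 + max 0 (Real.log (Real.log (1 / r) / R)))) ≤
          Real.exp (-2 * S0) := by
        apply Real.exp_le_exp.2
        have := le_max_left 0 (Real.log (Real.log (1 / r) / R))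
        linarith
      rw [hG]
      change Real.exp (-2 * (S0 + max 0 (Real.log (Real.log (1 / r) / R)))) / r ^ 2 * r ≤ _
      calc Real.exp (-2 * (S0 + max 0 (Real.log (Real.log (1 / r) / R)))) / r ^ 2 * r =
            Real.exp (-2 * (S0 + max 0 (Real.log (Real.log (1 / r) / R)))) * (1 / r) := by
              field_simp
        _ ≤ Real.exp (-2 * S0) * (1 / r) := mul_le_mul_of_nonneg_right hle (by positivity)
    have hm1 : Measurable fun r : ℝ => ENNReal.ofReal (1 / (r * Real.log r ^ 2)) := by fun_prop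
    have hm2 : Measurable fun r : ℝ => ENNReal.ofReal (1 / r) := by fun_prop
    calc ∫⁻ r in Ioo (0:ℝ) (1/2), ENNReal.ofReal (G r * r)
        ≤ ∫⁻ r in Ioc 0 (Real.exp (-R)) ∪ Ioc (Real.exp (-R)) (1/2), ENNReal.ofReal (G r * r) :=
          lintegral_mono_set hsub
      _ ≤ (∫⁻ r in Ioc 0 (Real.exp (-R)), ENNReal.ofReal (G r * r)) +
          ∫⁻ r in Ioc (Real.exp (-R)) (1/2), ENNReal.ofReal (G r * r) := lintegral_union_le _ _ _
      _ ≤ (∫⁻ r in Ioc 0 (Real.exp (-R)), ENNReal.ofReal (Real.exp (-2 * S0) * R ^ 2) *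
            ENNReal.ofReal (1 / (r * Real.log r ^ 2))) +
          ∫⁻ r in Ioc (Real.exp (-R)) (1/2), ENNReal.ofReal (Real.exp (-2 * S0)) *
            ENNReal.ofReal (1 / r) :=
          add_le_add (setLIntegral_mono (hm1.const_mul _) hp1)
            (setLIntegral_mono (hm2.const_mul _) hp2)
      _ = ENNReal.ofReal (Real.exp (-2 * S0) * R ^ 2) * ENNReal.ofReal (1 / R) +
          ENNReal.ofReal (Real.exp (-2 * S0)) *
            ∫⁻ r in Ioc (Real.exp (-R)) (1/2), ENNReal.ofReal (1 / r) := by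
          rw [lintegral_const_mul _ hm1, lintegral_const_mul _ hm2, Crd_log_int hR0]
      _ ≤ ENNReal.ofReal (Real.exp (-2 * S0) * R ^ 2) * ENNReal.ofReal (1 / R) +
          ENNReal.ofReal (Real.exp (-2 * S0)) * ENNReal.ofReal R := by
          gcongr
          exact Crd_inv_int hR
      _ = ENNReal.ofReal (2 * R * Real.exp (-2 * S0)) := by
          rw [← ENNReal.ofReal_mul (by positivity), ← ENNReal.ofReal_mul (by positivity),
            ← ENNReal.ofReal_add (by positivity) (by positivity)]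
          congr 1
          field_simp
          ring
  have h := Crd_gen G hGm hG0 (C := 2 * R * Real.exp (-2 * S0)) (by positivity) hbound
  have e : (fun x => G (rr x)) = fun x => Real.exp (-2 * SS S0 R x) / rr x ^ 2 := by
    rw [hG]
    rfl
  rw [e] at h
  refine ⟨h.1, ?_⟩
  have h2 := h.2
  linarith

theorem g2_int {R : ℝ} (hR : 2 ≤ R) :
    IntegrableOn (fun x => if rr x < Real.exp (-R) then 1 / (rr x * Real.log (1 / rr x)) ^ 2
      else 0) U ∧
    ∫ x in U, (if rr x < Real.exp (-R) then 1 / (rr x * Real.log (1 / rr x)) ^ 2 else 0) ≤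
      8 / R := by
  classical
  have hR0 : 0 < R := by linarith
  obtain ⟨G, hG⟩ : ∃ G : ℝ → ℝ, G = fun r =>
      if r < Real.exp (-R) then 1 / (r * Real.log (1 / r)) ^ 2 else 0 := ⟨_, rfl⟩
  have hGm : Measurable G := by
    rw [hG]
    exact Measurable.ite measurableSet_Iio (by fun_prop) measurable_const
  have hG0 : ∀ r, 0 ≤ G r := by
    intro r
    rw [hG]
    change 0 ≤ if r < Real.exp (-R) then 1 / (r * Real.log (1 / r)) ^ 2 else 0
    split_ifs
    · positivity
    · exact le_refl _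
  have hbound : ∫⁻ r in Ioo (0:ℝ) (1/2), ENNReal.ofReal (G r * r) ≤ ENNReal.ofReal (1 / R) := by
    rw [← Crd_log_int hR0, ← lintegral_indicator measurableSet_Ioo,
      ← lintegral_indicator measurableSet_Ioc]
    refine lintegral_mono fun r => ?_
    by_cases hr : r ∈ Ioo (0:ℝ) (1/2)
    · rw [indicator_of_mem hr]
      by_cases h : r < Real.exp (-R)
      · have hmem : r ∈ Ioc (0:ℝ) (Real.exp (-R)) := ⟨hr.1, h.le⟩
        rw [indicator_of_mem hmem]
        apply ENNReal.ofReal_le_ofReal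
        rw [hG]
        change (if r < Real.exp (-R) then 1 / (r * Real.log (1 / r)) ^ 2 else 0) * r ≤ _
        rw [if_pos h]
        have hr0 : r ≠ 0 := hr.1.ne'
        have hl' : Real.log (1 / r) = -Real.log r := by rw [one_div, Real.log_inv]
        have he1 : Real.exp (-R) < 1 := by rw [Real.exp_lt_one_iff]; linarith
        have hlog : Real.log r ≠ 0 := (Real.log_neg hr.1 (h.trans he1)).ne
        rw [hl']
        apply le_of_eq
        field_simp
      · have : G r = 0 := by
          rw [hG]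
          change (if r < Real.exp (-R) then 1 / (r * Real.log (1 / r)) ^ 2 else 0) = 0
          rw [if_neg h]
        rw [this, zero_mul, ENNReal.ofReal_zero]
        exact zero_le
    · rw [indicator_of_notMem hr]
      exact zero_le
  have h := Crd_gen G hGm hG0 (C := 1 / R) (by positivity) hbound
  have e : (fun x => G (rr x)) = fun x => if rr x < Real.exp (-R) then
      1 / (rr x * Real.log (1 / rr x)) ^ 2 else 0 := by
    rw [hG]
  rw [e] at h
  refine ⟨h.1, ?_⟩
  have h2 := h.2
  calc _ ≤ 8 * (1 / R) := h2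
    _ = 8 / R := by ring

end H80HM
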