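import Pool.Agent.H80.HM.Cba
import Pool.Agent.H80.HM.Cbq
import Pool.Agent.H80.HM.Cbt
import Pool.Agent.H80.HM.Crd

set_option autoImplicit false

/-!
# Definitions for the split of row Cbb
-/

namespace H80HM

open Matrix MeasureTheory Set
open scoped ComplexOrder

noncomputable section

/-- the bottom metric -/
def Hbo {m : ℕ} (Q : Mt m) (w : Fin m → ℕ) (al ga : Mt m) (S0 R : ℝ) (x : ℝ × ℝ) : Mt m :=
  Q * Fw w (Wb al ga) (SS S0 R) x * Qᴴ

end

end H80HM
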