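import Pool.Agent.H80.HM.Cc0

set_option autoImplicit false

/-!
# Row Cc1: positivity, bounds and Lipschitz estimates of the bottom metric

wb_uni: Wb al ga x = 1 + c (al - 1) + c' (ga - al): uni_comb with W1 = 1 (uni_one).
wb_bd: th1, th2 in [0,1] on D (th_mem), so the entries are bounded by k := 1 + 2 * (sum of the moduli of all entries of al and ga) or similar.
hb_pos: fw_pos (uni_det (wb_uni)) gives PosDef of Fw ..; conjugation Q H Q* with Q invertible is PosDef (Matrix.PosDef.conjTranspose_mul_mul_same style lemma, or fw_pos directly: Q W is invertible, Hbo = (Q W) L L* (Q W)*; lamS commutes nothing needed: Q * (W L L* W*) * Q* = (Q W) L L* (Q W)*: use fw_pos with W := Q * Wb (IsUnit det)).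
hb_lip: for d > 0: x, y in D with d <= dist x p for all p in P0: d <= rr x (rr_dist); th1, th2 (th_lip), SS (ss_lip) are Lipschitz on {rr >= d} cap D with constants; SS >= S0 >= 0 (ss_ge) and the function t -> exp(-t w_i) is 1-Lipschitz times w_i and bounded by 1 on [0, oo); every entry of Hbo is a finite sum of products of constants (entries of Q, al, ga,
 conjugates), of th1, th2 and of exp(-SS w_i): bounded Lipschitz functions; sums and products of bounded Lipschitz functions on the set {x in D, rr x >= d} are Lipschitz.  (Convenient: say f : R x R -> C is good if there are K, M with |f x| <= M, |f x - f y| <= K dist x y on the set; good is closed under +, *, finite sums, conjugation; entries of matrix products are sums of products.)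
-/

namespace H80HM

open Matrix MeasureTheory Set
open scoped ComplexOrder

variable {m : ℕ} {w : Fin m → ℕ} {Q al ga : Mt m}

theorem wb_uni (hal : Uni w al) (hga : Uni w ga) (x : ℝ × ℝ) : Uni w (Wb al ga x) :=
  uni_comb (uni_one w) hal hga _ _

theorem wb_bd (al ga : Mt m) : ∃ k : ℝ, 1 ≤ k ∧ ∀ x ∈ D, ∀ i j, ‖Wb al ga x i j‖ ≤ k := by
  have hA : ∀ i j, ‖al i j‖ + ‖ga i j‖ ≤ ∑ i, ∑ j, (‖al i j‖ + ‖ga i j‖) := by
    intro i j
    refine le_trans ?_ (Finset.single_le_sum (f := fun i => ∑ j, (‖al i j‖ + ‖ga i j‖))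
      (fun i _ => Finset.sum_nonneg fun j _ => by positivity) (Finset.mem_univ i))
    exact Finset.single_le_sum (f := fun j => ‖al i j‖ + ‖ga i j‖) (fun j _ => by positivity)
      (Finset.mem_univ j)
  have hA0 : 0 ≤ ∑ i, ∑ j, (‖al i j‖ + ‖ga i j‖) :=
    Finset.sum_nonneg fun i _ => Finset.sum_nonneg fun j _ => by positivity
  refine ⟨2 + 2 * ∑ i, ∑ j, (‖al i j‖ + ‖ga i j‖), by linarith, fun x hx i j => ?_⟩
  obtain ⟨⟨h1, h2⟩, h3, h4⟩ := th_mem hx
  have e1 : ‖((th1 x : ℝ) : ℂ)‖ ≤ 1 := by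
    rw [Complex.norm_real, Real.norm_eq_abs, abs_of_nonneg h1]; exact h2
  have e2 : ‖((th2 x : ℝ) : ℂ)‖ ≤ 1 := by
    rw [Complex.norm_real, Real.norm_eq_abs, abs_of_nonneg h3]; exact h4
  have e3 : ‖(1 : Mt m) i j‖ ≤ 1 := by
    rw [Matrix.one_apply]
    split_ifs <;> simp
  have e4 : Wb al ga x i j = (1 : Mt m) i j + ((th1 x : ℝ) : ℂ) * (al i j - (1 : Mt m) i j) +
      ((th2 x : ℝ) : ℂ) * (ga i j - al i j) := by
    simp [Wb]
  have e5 : ‖((th1 x : ℝ) : ℂ) * (al i j - (1 : Mt m) i j)‖ ≤ ‖al i j‖ + 1 := by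
    rw [norm_mul]
    calc ‖((th1 x : ℝ) : ℂ)‖ * ‖al i j - (1 : Mt m) i j‖ ≤ 1 * ‖al i j - (1 : Mt m) i j‖ :=
          mul_le_mul_of_nonneg_right e1 (norm_nonneg _)
      _ ≤ ‖al i j‖ + 1 := by
          rw [one_mul]
          exact (norm_sub_le _ _).trans (by linarith)
  have e6 : ‖((th2 x : ℝ) : ℂ) * (ga i j - al i j)‖ ≤ ‖ga i j‖ + ‖al i j‖ := by
    rw [norm_mul]
    calc ‖((th2 x : ℝ) : ℂ)‖ * ‖ga i j - al i j‖ ≤ 1 * ‖ga i j - al i j‖ :=
          mul_le_mul_of_nonneg_right e2 (norm_nonneg _)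
      _ ≤ ‖ga i j‖ + ‖al i j‖ := by
          rw [one_mul]
          exact norm_sub_le _ _
  rw [e4]
  refine (norm_add₃_le).trans ?_
  have := hA i j
  linarith [norm_nonneg (al i j), norm_nonneg (ga i j)]

theorem hb_pos (hQ : IsUnit Q.det) (hal : Uni w al) (hga : Uni w ga) (S0 R : ℝ) (x : ℝ × ℝ) :
    (Hbo Q w al ga S0 R x).PosDef := by
  have h1 : IsUnit (Q * Wb al ga x).det := by
    rw [Matrix.det_mul]
    exact hQ.mul (uni_det (wb_uni hal hga x))
  have h2 := fw_pos h1 w (SS S0 R x)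
  have h3 : Hbo Q w al ga S0 R x = Q * Wb al ga x * lamS w (SS S0 R x) *
      (lamS w (SS S0 R x))ᴴ * (Q * Wb al ga x)ᴴ := by
    unfold Hbo Fw
    rw [Matrix.conjTranspose_mul]
    simp only [Matrix.mul_assoc]
  rw [h3]
  exact h2

/-- bounded and Lipschitz on `S` -/
private def Cc1_good (S : Set (ℝ × ℝ)) (f : ℝ × ℝ → ℂ) : Prop :=
  ∃ K M : ℝ, 0 ≤ K ∧ 0 ≤ M ∧ (∀ x ∈ S, ‖f x‖ ≤ M) ∧
    ∀ x ∈ S, ∀ y ∈ S, ‖f x - f y‖ ≤ K * dist x y

private theorem Cc1_const (S : Set (ℝ × ℝ)) (c : ℂ) : Cc1_good S fun _ => c :=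
  ⟨0, ‖c‖, le_rfl, norm_nonneg _, fun _ _ => le_rfl, fun x _ y _ => by simp⟩

private theorem Cc1_add {S : Set (ℝ × ℝ)} {f g : ℝ × ℝ → ℂ} (hf : Cc1_good S f)
    (hg : Cc1_good S g) : Cc1_good S fun x => f x + g x := by
  obtain ⟨K, M, hK, hM, h1, h2⟩ := hf
  obtain ⟨K', M', hK', hM', h1', h2'⟩ := hg
  refine ⟨K + K', M + M', by linarith, by linarith, fun x hx => ?_, fun x hx y hy => ?_⟩
  · exact (norm_add_le _ _).trans (add_le_add (h1 x hx) (h1' x hx))
  · have e : f x + g x - (f y + g y) = (f x - f y) + (g x - g y) := by ring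
    rw [e, add_mul]
    exact (norm_add_le _ _).trans (add_le_add (h2 x hx y hy) (h2' x hx y hy))

private theorem Cc1_mul {S : Set (ℝ × ℝ)} {f g : ℝ × ℝ → ℂ} (hf : Cc1_good S f)
    (hg : Cc1_good S g) : Cc1_good S fun x => f x * g x := by
  obtain ⟨K, M, hK, hM, h1, h2⟩ := hf
  obtain ⟨K', M', hK', hM', h1', h2'⟩ := hg
  refine ⟨M * K' + K * M', M * M', by positivity, by positivity, fun x hx => ?_,
    fun x hx y hy => ?_⟩
  · rw [norm_mul]
    exact mul_le_mul (h1 x hx) (h1' x hx) (norm_nonneg _) hM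
  · have e : f x * g x - f y * g y = f x * (g x - g y) + (f x - f y) * g y := by ring
    rw [e, add_mul]
    refine (norm_add_le _ _).trans (add_le_add ?_ ?_)
    · rw [norm_mul, mul_assoc]
      exact mul_le_mul (h1 x hx) (h2' x hx y hy) (norm_nonneg _) hM
    · rw [norm_mul, mul_right_comm]
      exact mul_le_mul (h2 x hx y hy) (h1' y hy) (norm_nonneg _)
        (mul_nonneg hK dist_nonneg)

private theorem Cc1_star {S : Set (ℝ × ℝ)} {f : ℝ × ℝ → ℂ} (hf : Cc1_good S f) :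
    Cc1_good S fun x => star (f x) := by
  obtain ⟨K, M, hK, hM, h1, h2⟩ := hf
  refine ⟨K, M, hK, hM, fun x hx => ?_, fun x hx y hy => ?_⟩
  · rw [norm_star]
    exact h1 x hx
  · rw [← star_sub, norm_star]
    exact h2 x hx y hy

private theorem Cc1_sum {S : Set (ℝ × ℝ)} {ι : Type} (s : Finset ι) {f : ι → ℝ × ℝ → ℂ}
    (hf : ∀ i, Cc1_good S (f i)) : Cc1_good S fun x => ∑ i ∈ s, f i x := by
  classical
  induction s using Finset.induction_on with
  | empty =>
    simp only [Finset.sum_empty]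
    exact Cc1_const S 0
  | insert a s ha ih =>
    simp only [Finset.sum_insert ha]
    exact Cc1_add (hf a) ih

private theorem Cc1_mmul {S : Set (ℝ × ℝ)} {X Y : ℝ × ℝ → Mt m}
    (hX : ∀ i j, Cc1_good S fun x => X x i j) (hY : ∀ i j, Cc1_good S fun x => Y x i j) :
    ∀ i j, Cc1_good S fun x => (X x * Y x) i j := by
  intro i j
  simp only [Matrix.mul_apply]
  exact Cc1_sum _ fun k => Cc1_mul (hX i k) (hY k j)

private theorem Cc1_mstar {S : Set (ℝ × ℝ)} {X : ℝ × ℝ → Mt m}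
    (hX : ∀ i j, Cc1_good S fun x => X x i j) : ∀ i j, Cc1_good S fun x => (X x)ᴴ i j := by
  intro i j
  simp only [Matrix.conjTranspose_apply]
  exact Cc1_star (hX j i)

private theorem Cc1_exp {a b : ℝ} (ha : a ≤ 0) (hb : b ≤ 0) :
    |Real.exp a - Real.exp b| ≤ |a - b| := by
  wlog h : b ≤ a generalizing a b
  · rw [abs_sub_comm, abs_sub_comm a b]
    exact this hb ha (not_le.1 h).le
  rw [abs_of_nonneg (sub_nonneg.2 (Real.exp_le_exp.2 h)), abs_of_nonneg (sub_nonneg.2 h)]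
  have h1 : Real.exp b = Real.exp a * Real.exp (b - a) := by
    rw [← Real.exp_add]; congr 1; ring
  have h2 := Real.add_one_le_exp (b - a)
  have h3 : Real.exp a ≤ 1 := Real.exp_le_one_iff.2 ha
  have h4 := Real.exp_pos a
  rw [h1]
  nlinarith [sub_nonneg.2 h]

private theorem Cc1_real {S : Set (ℝ × ℝ)} {f : ℝ × ℝ → ℝ} {K M : ℝ}
    (h1 : ∀ x ∈ S, |f x| ≤ M) (h2 : ∀ x ∈ S, ∀ y ∈ S, |f x - f y| ≤ K * dist x y) :
    Cc1_good S fun x => ((f x : ℝ) : ℂ) := by
  refine ⟨|K|, |M|, abs_nonneg _, abs_nonneg _, fun x hx => ?_, fun x hx y hy => ?_⟩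
  · rw [Complex.norm_real, Real.norm_eq_abs]
    exact (h1 x hx).trans (le_abs_self _)
  · rw [← Complex.ofReal_sub, Complex.norm_real, Real.norm_eq_abs]
    exact (h2 x hx y hy).trans (mul_le_mul_of_nonneg_right (le_abs_self _) dist_nonneg)

theorem hb_lip (Q : Mt m) (w : Fin m → ℕ) (al ga : Mt m) {R S0 : ℝ} (hR : 2 ≤ R) (hS : 0 ≤ S0) (d : ℝ)
    (hd : 0 < d) : ∃ K : ℝ, ∀ x ∈ D, ∀ y ∈ D, (∀ p ∈ P0, d ≤ dist x p) →
      (∀ p ∈ P0, d ≤ dist y p) → ∀ i j,
        ‖Hbo Q w al ga S0 R x i j - Hbo Q w al ga S0 R y i j‖ ≤ K * dist x y := by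
  obtain ⟨S, hSdef⟩ : ∃ S : Set (ℝ × ℝ), S = {x | x ∈ D ∧ ∀ p ∈ P0, d ≤ dist x p} := ⟨_, rfl⟩
  have hSD : ∀ x ∈ S, x ∈ D ∧ d ≤ rr x := by
    intro x hx
    rw [hSdef] at hx
    exact ⟨hx.1, rr_dist hx.1 hx.2⟩
  obtain ⟨K1, hK1⟩ := th_lip hd
  obtain ⟨K2, hK2⟩ := ss_lip S0 hR hd
  have g1 : Cc1_good S fun x => ((th1 x : ℝ) : ℂ) := by
    refine Cc1_real (K := K1) (M := 1) (fun x hx => ?_) (fun x hx y hy => ?_)
    · obtain ⟨⟨h1, h2⟩, -⟩ := th_mem (hSD x hx).1
      rw [abs_of_nonneg h1]; exact h2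
    · exact (hK1 x (hSD x hx).1 y (hSD y hy).1 (hSD x hx).2 (hSD y hy).2).1
  have g2 : Cc1_good S fun x => ((th2 x : ℝ) : ℂ) := by
    refine Cc1_real (K := K1) (M := 1) (fun x hx => ?_) (fun x hx y hy => ?_)
    · obtain ⟨-, h1, h2⟩ := th_mem (hSD x hx).1
      rw [abs_of_nonneg h1]; exact h2
    · exact (hK1 x (hSD x hx).1 y (hSD y hy).1 (hSD x hx).2 (hSD y hy).2).2
  have gW : ∀ i j, Cc1_good S fun x => Wb al ga x i j := by
    intro i j
    have e : (fun x => Wb al ga x i j) = fun x => ((1 : Mt m) i j + ((th1 x : ℝ) : ℂ) *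
        (al i j - (1 : Mt m) i j)) + ((th2 x : ℝ) : ℂ) * (ga i j - al i j) := by
      funext x
      simp [Wb]
    rw [e]
    exact Cc1_add (Cc1_add (Cc1_const S _) (Cc1_mul g1 (Cc1_const S _)))
      (Cc1_mul g2 (Cc1_const S _))
  have gE : ∀ i, Cc1_good S fun x => ((Real.exp (-SS S0 R x * w i) : ℝ) : ℂ) := by
    intro i
    have hn : ∀ x, -SS S0 R x * (w i : ℝ) ≤ 0 := by
      intro x
      have h1 := ss_ge S0 R x
      have h2 : (0 : ℝ) ≤ w i := Nat.cast_nonneg _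
      nlinarith
    refine Cc1_real (K := (w i : ℝ) * K2) (M := 1) (fun x hx => ?_) (fun x hx y hy => ?_)
    · rw [abs_of_pos (Real.exp_pos _)]
      exact Real.exp_le_one_iff.2 (hn x)
    · refine (Cc1_exp (hn x) (hn y)).trans ?_
      have h2 : (0 : ℝ) ≤ w i := Nat.cast_nonneg _
      have e : -SS S0 R x * (w i : ℝ) - -SS S0 R y * (w i : ℝ) =
          -((w i : ℝ) * (SS S0 R x - SS S0 R y)) := by ring
      rw [e, abs_neg, abs_mul, abs_of_nonneg h2, mul_assoc]
      exact mul_le_mul_of_nonneg_left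
        (hK2 x (hSD x hx).1 y (hSD y hy).1 (hSD x hx).2 (hSD y hy).2) h2
  have gL : ∀ i j, Cc1_good S fun x => lamS w (SS S0 R x) i j := by
    intro i j
    by_cases h : i = j
    · subst h
      have e : (fun x => lamS w (SS S0 R x) i i) =
          fun x => ((Real.exp (-SS S0 R x * w i) : ℝ) : ℂ) := by
        funext x
        unfold lamS
        rw [Matrix.diagonal_apply_eq]
      rw [e]
      exact gE i
    · have e : (fun x => lamS w (SS S0 R x) i j) = fun _ => (0 : ℂ) := by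
        funext x
        unfold lamS
        rw [Matrix.diagonal_apply_ne _ h]
      rw [e]
      exact Cc1_const S 0
  have gH : ∀ i j, Cc1_good S fun x => Hbo Q w al ga S0 R x i j := by
    unfold Hbo Fw
    exact Cc1_mmul (Cc1_mmul (fun i j => Cc1_const S (Q i j))
      (Cc1_mmul (Cc1_mmul (Cc1_mmul gW gL) (Cc1_mstar gL)) (Cc1_mstar gW)))
      (fun i j => Cc1_const S (Qᴴ i j))
  choose K M hK hM h1 h2 using gH
  refine ⟨∑ i, ∑ j, K i j, fun x hx y hy hpx hpy i j => ?_⟩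
  have hxS : x ∈ S := by rw [hSdef]; exact ⟨hx, hpx⟩
  have hyS : y ∈ S := by rw [hSdef]; exact ⟨hy, hpy⟩
  refine (h2 i j x hxS y hyS).trans (mul_le_mul_of_nonneg_right ?_ dist_nonneg)
  refine le_trans ?_ (Finset.single_le_sum (f := fun i => ∑ j, K i j)
      (fun i _ => Finset.sum_nonneg fun j _ => hK i j) (Finset.mem_univ i))
  exact Finset.single_le_sum (f := fun j => K i j) (fun j _ => hK i j) (Finset.mem_univ j)

end H80HM
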