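import Pool.Agent.H80.HM.Cbb
import Pool.Agent.H80.HM.Mea
import Pool.Agent.H80.HM.Alg

/-!
# Row Cmd: a metric of the class with small energy near the cusp

Hb := bottom metric of (A,C), Hb' := bottom metric of (B,C), Ht(u,v) := Hb'(u, 1/2 - v) (for points of D), same R, S0, constant ka (maximum; all bounds are monotone in ka).
Ht has: positive definite and Lipschitz away from the top punctures, side gluing with C (0 <= v < 1/2), top gluing with B, independent of v for v <= 1/3, etc.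
L := 2 ka (S0+1): for x in D with 1/6 <= x.2 <= 1/3: exp(-L) Ht x <= Hb x and exp(-L) Hb x <= Ht x as forms (sz: both are between exp(-L/2) and exp(L/2)).
Scalars, s = 18(v - 1/6): c1 = 1, c2 = 0 for s <= 0;  c1 = 1, c2 = s exp(-L) for 0<=s<=1;  c1 = exp(-L(s-1)), c2 = exp(-L(2-s)) for 1<=s<=2;  c1 = (3-s) exp(-L), c2 = 1 for
2<=s<=3; c1 = 0, c2 = 1 for s >= 3 (v >= 1/3). Both Lipschitz in v, >= 0, not both 0.
H(u,v) := c1(v) Hb(u,v) + c2(v) Ht(u,v).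
* class: PosDef; Lz (on Dd d: where c1 > 0 the point has v <= 1/3, away from the top punctures; Hb is Lipschitz and bounded away from P0 on D; for Ht: on the part v < 1/6 it is
  multiplied by c2 = 0, on the rest Ht is Lipschitz away from the top punctures; all products are Lipschitz on Dd d); gluings: C at the sides for both; bottom: c2 = 0, A; top: c1 = 0, B.
* densities a.e. in U: v < 1/6: H = Hb near x. v > 1/3: H = Ht near x (q (0,1)(0,1) unchanged by the reflection, q (1,0)(1,0) too).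
  1/6 < v < 1/3: Hb, Ht do not depend on v. Let x be a point of differentiability of H, Hb, Ht and of c1, c2 at v. OPERATOR BOUNDS: for Hermitian K and metric G write |K| <= e G if
  |y*Ky| <= e y*Gy for all y. If aa = (1/2)(pd t G)G^{-1} then q t t G <= b^2 implies |pd t G| <= 2b G, and |pd t G| <= 2b G implies q t t G <= m b^2 (diagonalise G^{-1/2} pd G G^{-1/2}).
  (1,0): |pd Hb| <= 2b Hb, |pd Ht| <= 2b Ht, b^2 = ka exp(-2S0) (ql), hence |pd H| <= 2b H, q (1,0)(1,0) H <= m ka exp(-2S0).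
  (0,1): pd H = c1' Hb + c2' Ht. First phase: 18 exp(-L) Ht <= 18 Hb <= 18 H. Second: |c_i'| = 18 L c_i, |pd H| <= 18 L H. Third: as the first. So q (0,1)(0,1) H <= m (9 (L+1))^2.
* integrability (fin): q_meas and these bounds.
* energy for |x| <= 1/2, y >= 1: (x^2+y^2) q11 - 2x q12 + q22 <= (3/4 + y^2) q11 + (3/2) q22 (|q12| <= (q11+q22)/2), divided by y: <= 2y q11 + 2 q22/y.
  Outer parts: <= 2y * 2 ka (R exp(-2S0) + 1/R). Middle (area 1/6): <= 2y m ka exp(-2S0) + 2 m 81 (2 ka (S0+1) + 1)^2/y. Choose the final constant K.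
-/

set_option autoImplicit false

namespace H80HM

open Matrix MeasureTheory Set Filter Topology
open scoped ComplexOrder

/-- the quadratic form of a matrix -/
private noncomputable def Cmd_fo {m : ℕ} (M : Mt m) (y : Fin m → ℂ) : ℝ := (star y ⬝ᵥ (M *ᵥ y)).re

private theorem Cmd_fo_add {m : ℕ} (M N : Mt m) (y : Fin m → ℂ) :
    Cmd_fo (M + N) y = Cmd_fo M y + Cmd_fo N y := by
  unfold Cmd_fo
  rw [Matrix.add_mulVec, dotProduct_add, Complex.add_re]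

private theorem Cmd_im {m : ℕ} {M : Mt m} (hM : M.IsHermitian) (y : Fin m → ℂ) :
    (star y ⬝ᵥ (M *ᵥ y)).im = 0 := by
  have h : star (star y ⬝ᵥ (M *ᵥ y)) = star y ⬝ᵥ (M *ᵥ y) := by
    rw [← star_dotProduct, star_mulVec, ← dotProduct_mulVec, hM.eq]
  rw [← Complex.conj_eq_iff_im]
  exact h

private theorem Cmd_fo_smul {m : ℕ} {M : Mt m} (hM : M.IsHermitian) (c : ℂ) (y : Fin m → ℂ) :
    Cmd_fo (c • M) y = c.re * Cmd_fo M y := by
  unfold Cmd_fo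
  rw [Matrix.smul_mulVec, dotProduct_smul, smul_eq_mul, Complex.mul_re, Cmd_im hM, mul_zero,
    sub_zero]

private theorem Cmd_fo_smul_le {m : ℕ} {M : Mt m} (hM : M.IsHermitian) (c : ℂ) (y : Fin m → ℂ) :
    |Cmd_fo (c • M) y| ≤ ‖c‖ * |Cmd_fo M y| := by
  rw [Cmd_fo_smul hM, abs_mul]
  exact mul_le_mul_of_nonneg_right (Complex.abs_re_le_norm c) (abs_nonneg _)

private theorem Cmd_fo_nonneg {m : ℕ} {M : Mt m} (hM : M.PosDef) (y : Fin m → ℂ) :
    0 ≤ Cmd_fo M y :=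
  (Complex.nonneg_iff.1 (hM.posSemidef.dotProduct_mulVec_nonneg y)).1

private theorem Cmd_one {m : ℕ} (y : Fin m → ℂ) : (star y ⬝ᵥ y).re = ∑ i, ‖y i‖ ^ 2 := by
  unfold dotProduct
  rw [Complex.re_sum]
  refine Finset.sum_congr rfl fun i _ => ?_
  rw [Pi.star_apply, Complex.star_def, mul_comm, Complex.mul_conj, Complex.ofReal_re,
    Complex.normSq_eq_norm_sq]

/-- entries of a hermitian matrix with bounded form -/
private theorem Cmd_pol {m : ℕ} {K : Mt m} (hK : K.IsHermitian) {e : ℝ}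
    (he : ∀ z : Fin m → ℂ, |(star z ⬝ᵥ (K *ᵥ z)).re| ≤ e * (star z ⬝ᵥ z).re) (he0 : 0 ≤ e)
    (i j : Fin m) : ‖K i j‖ ^ 2 ≤ 18 * e ^ 2 := by
  have hB : ∀ i j : Fin m, star (Pi.single i (1:ℂ) : Fin m → ℂ) ⬝ᵥ (K *ᵥ Pi.single j 1) = K i j := by
    intro i j
    rw [← Pi.single_star, star_one, single_dotProduct, one_mul, mulVec_single_one]
    rfl
  have hN : ∀ i : Fin m, (star (Pi.single i (1:ℂ) : Fin m → ℂ) ⬝ᵥ Pi.single i 1).re = 1 := by
    intro i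
    rw [← Pi.single_star, star_one, single_dotProduct, one_mul, Pi.single_eq_same]
    rfl
  have hd : ∀ i : Fin m, |(K i i).re| ≤ e := by
    intro i
    have h := he (Pi.single i 1)
    rw [hB, hN, mul_one] at h
    exact h
  have hc : ∀ c : ℂ, ‖c‖ = 1 → |(c * K i j).re| ≤ 3 * e := by
    intro c hc
    have h := he (Pi.single i 1 + c • Pi.single j 1)
    have h1 : star (Pi.single i (1:ℂ) + c • Pi.single j 1 : Fin m → ℂ) ⬝ᵥ
        (K *ᵥ (Pi.single i 1 + c • Pi.single j 1)) =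
        K i i + c * K i j + star c * K j i + star c * c * K j j := by
      rw [star_add, star_smul, Matrix.mulVec_add, Matrix.mulVec_smul, add_dotProduct,
        dotProduct_add, dotProduct_add, dotProduct_smul, smul_dotProduct, smul_dotProduct,
        dotProduct_smul, hB, hB, hB, hB]
      simp only [smul_eq_mul]
      ring
    have h2 : (star (Pi.single i (1:ℂ) + c • Pi.single j 1 : Fin m → ℂ) ⬝ᵥ
        (Pi.single i 1 + c • Pi.single j 1)).re ≤ 4 := by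
      rw [Cmd_one]
      have h3 : ∀ k : Fin m, ‖(Pi.single i (1:ℂ) + c • Pi.single j 1 : Fin m → ℂ) k‖ ^ 2 ≤
          2 * (if k = i then 1 else 0) + 2 * (if k = j then 1 else 0) := by
        intro k
        have h4 : ‖(Pi.single i (1:ℂ) + c • Pi.single j 1 : Fin m → ℂ) k‖ ≤
            (if k = i then 1 else 0) + (if k = j then 1 else 0) := by
          rw [Pi.add_apply, Pi.smul_apply, Pi.single_apply, Pi.single_apply]
          refine (norm_add_le _ _).trans (add_le_add ?_ ?_)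
          · split_ifs <;> simp
          · rw [norm_smul, hc, one_mul]
            split_ifs <;> simp
        have h5 := norm_nonneg ((Pi.single i (1:ℂ) + c • Pi.single j 1 : Fin m → ℂ) k)
        split_ifs at h4 ⊢ <;> nlinarith
      refine (Finset.sum_le_sum fun k _ => h3 k).trans ?_
      rw [Finset.sum_add_distrib, ← Finset.mul_sum, ← Finset.mul_sum]
      simp
      norm_num
    rw [h1] at h
    have h6 : K j i = star (K i j) := by
      have := congrFun (congrFun hK j) i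
      rw [Matrix.conjTranspose_apply] at this
      exact this.symm
    have h7 : (K i i + c * K i j + star c * K j i + star c * c * K j j).re =
        (K i i).re + 2 * (c * K i j).re + (K j j).re := by
      have h8 : star c * c = 1 := by
        rw [Complex.star_def, mul_comm, Complex.mul_conj, Complex.normSq_eq_norm_sq, hc]
        simp
      have h9 : star c * K j i = star (c * K i j) := by
        rw [h6, star_mul']
      rw [h8, h9, one_mul, Complex.add_re, Complex.add_re, Complex.add_re, Complex.star_def,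
        Complex.conj_re]
      ring
    rw [h7] at h
    have h10 : |(K i i).re + 2 * (c * K i j).re + (K j j).re| ≤ 4 * e := by
      refine h.trans ?_
      nlinarith
    have h11 := abs_le.1 h10
    have h12 := abs_le.1 (hd i)
    have h13 := abs_le.1 (hd j)
    rw [abs_le]
    constructor <;> linarith [h11.1, h11.2, h12.1, h12.2, h13.1, h13.2]
  have h1 := hc 1 (by simp)
  have h2 := hc Complex.I (by simp)
  rw [one_mul] at h1
  have h3 : (Complex.I * K i j).re = -(K i j).im := by simp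
  rw [h3, abs_neg] at h2
  rw [← Complex.normSq_eq_norm_sq, Complex.normSq_apply]
  have h4 := abs_le.1 h1
  have h5 := abs_le.1 h2
  nlinarith [h4.1, h4.2, h5.1, h5.2]

private theorem Cmd_rep {m : ℕ} {H : ℝ × ℝ → Mt m} {x : ℝ × ℝ} (h : ∀ᶠ y in 𝓝 x, (H y).PosDef)
    (t : ℝ × ℝ) : ∃ Q : Mt m, IsUnit Q.det ∧ H x = Q * Qᴴ ∧
      q t t H x = ∑ i, ∑ j, ‖(Q⁻¹ * pd t H x * (Qᴴ)⁻¹) i j‖ ^ 2 / 4 := by
  have hp : (H x).PosDef := h.self_of_nhds
  obtain ⟨Q, lam, hQ, hH, -⟩ := exists_fr hp hp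
  refine ⟨Q, hQ, hH, ?_⟩
  rw [q_n2 h, n2_eq hQ hH]
  have e : Q⁻¹ * aa t H x * Q = (1 / 2 : ℂ) • (Q⁻¹ * pd t H x * (Qᴴ)⁻¹) := by
    unfold aa
    rw [Matrix.mul_smul, Matrix.smul_mul]
    congr 1
    rw [hH, Matrix.mul_inv_rev]
    have e1 : Q⁻¹ * (pd t H x * ((Qᴴ)⁻¹ * Q⁻¹)) * Q = Q⁻¹ * pd t H x * (Qᴴ)⁻¹ * (Q⁻¹ * Q) := by
      simp only [Matrix.mul_assoc]
    rw [e1, Matrix.nonsing_inv_mul _ hQ, Matrix.mul_one]
  rw [e]
  refine Finset.sum_congr rfl fun i _ => Finset.sum_congr rfl fun j _ => ?_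
  rw [Matrix.smul_apply, norm_smul]
  norm_num
  ring

private theorem Cmd_lo {m : ℕ} {H : ℝ × ℝ → Mt m} {x : ℝ × ℝ} (h : ∀ᶠ y in 𝓝 x, (H y).PosDef)
    (t : ℝ × ℝ) {e : ℝ} (he0 : 0 ≤ e)
    (he : ∀ y, |Cmd_fo (pd t H x) y| ≤ e * Cmd_fo (H x) y) : q t t H x ≤ 5 * m ^ 2 * e ^ 2 := by
  obtain ⟨Q, hQ, hH, hq⟩ := Cmd_rep h t
  have hQ' : IsUnit (Qᴴ).det := by
    rw [Matrix.det_conjTranspose]
    exact hQ.star
  have hK : (Q⁻¹ * pd t H x * (Qᴴ)⁻¹).IsHermitian := by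
    have h1 : (pd t H x).IsHermitian := pd_herm (h.mono fun y hy => hy.isHermitian) t
    unfold Matrix.IsHermitian
    rw [Matrix.conjTranspose_mul, Matrix.conjTranspose_mul, h1.eq, Matrix.conjTranspose_nonsing_inv,
      Matrix.conjTranspose_nonsing_inv, Matrix.conjTranspose_conjTranspose, Matrix.mul_assoc]
  have h2 : ∀ z : Fin m → ℂ, |(star z ⬝ᵥ ((Q⁻¹ * pd t H x * (Qᴴ)⁻¹) *ᵥ z)).re| ≤
      e * (star z ⬝ᵥ z).re := by
    intro z
    have h3 := he ((Qᴴ)⁻¹ *ᵥ z)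
    unfold Cmd_fo at h3
    have h4 : star ((Qᴴ)⁻¹ *ᵥ z) ⬝ᵥ (pd t H x *ᵥ ((Qᴴ)⁻¹ *ᵥ z)) =
        star z ⬝ᵥ ((Q⁻¹ * pd t H x * (Qᴴ)⁻¹) *ᵥ z) := by
      rw [star_mulVec, ← dotProduct_mulVec, Matrix.mulVec_mulVec, Matrix.mulVec_mulVec,
        Matrix.conjTranspose_nonsing_inv, Matrix.conjTranspose_conjTranspose, Matrix.mul_assoc]
    have h5 : star ((Qᴴ)⁻¹ *ᵥ z) ⬝ᵥ (H x *ᵥ ((Qᴴ)⁻¹ *ᵥ z)) = star z ⬝ᵥ z := by
      rw [star_mulVec, ← dotProduct_mulVec, Matrix.mulVec_mulVec, Matrix.mulVec_mulVec,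
        Matrix.conjTranspose_nonsing_inv, Matrix.conjTranspose_conjTranspose, hH]
      have e1 : Q⁻¹ * (Q * Qᴴ) * (Qᴴ)⁻¹ = 1 := by
        rw [← Matrix.mul_assoc Q⁻¹, Matrix.nonsing_inv_mul _ hQ, Matrix.one_mul,
          Matrix.mul_nonsing_inv _ hQ']
      rw [e1, Matrix.one_mulVec]
    rw [h4, h5] at h3
    exact h3
  rw [hq]
  calc ∑ i, ∑ j, ‖(Q⁻¹ * pd t H x * (Qᴴ)⁻¹) i j‖ ^ 2 / 4
      ≤ ∑ _i : Fin m, ∑ _j : Fin m, 5 * e ^ 2 := by
        refine Finset.sum_le_sum fun i _ => Finset.sum_le_sum fun j _ => ?_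
        have := Cmd_pol hK h2 he0 i j
        nlinarith [sq_nonneg e]
    _ = 5 * m ^ 2 * e ^ 2 := by
        simp only [Finset.sum_const, Finset.card_univ, Fintype.card_fin, nsmul_eq_mul]
        ring

private theorem Cmd_up {m : ℕ} {H : ℝ × ℝ → Mt m} {x : ℝ × ℝ} (h : ∀ᶠ y in 𝓝 x, (H y).PosDef)
    (t : ℝ × ℝ) {b : ℝ} (hb0 : 0 ≤ b) (hb : q t t H x ≤ b ^ 2) (y : Fin m → ℂ) :
    |Cmd_fo (pd t H x) y| ≤ 2 * b * Cmd_fo (H x) y := by
  obtain ⟨Q, hQ, hH, hq⟩ := Cmd_rep h t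
  have hQ' : IsUnit (Qᴴ).det := by
    rw [Matrix.det_conjTranspose]
    exact hQ.star
  set K : Mt m := Q⁻¹ * pd t H x * (Qᴴ)⁻¹ with hKdef
  set z : Fin m → ℂ := Qᴴ *ᵥ y with hz
  have h4 : star y ⬝ᵥ (pd t H x *ᵥ y) = star z ⬝ᵥ (K *ᵥ z) := by
    rw [hz, star_mulVec, ← dotProduct_mulVec, Matrix.mulVec_mulVec, Matrix.mulVec_mulVec,
      Matrix.conjTranspose_conjTranspose]
    have e1 : Q * K * Qᴴ = pd t H x := by
      rw [hKdef]
      calc Q * (Q⁻¹ * pd t H x * (Qᴴ)⁻¹) * Qᴴ = (Q * Q⁻¹) * pd t H x * ((Qᴴ)⁻¹ * Qᴴ) := by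
            simp only [Matrix.mul_assoc]
        _ = pd t H x := by
            rw [Matrix.mul_nonsing_inv _ hQ, Matrix.nonsing_inv_mul _ hQ', Matrix.one_mul,
              Matrix.mul_one]
    rw [e1]
  have h5 : star y ⬝ᵥ (H x *ᵥ y) = star z ⬝ᵥ z := by
    rw [hz, star_mulVec, ← dotProduct_mulVec, Matrix.mulVec_mulVec,
      Matrix.conjTranspose_conjTranspose, hH]
  unfold Cmd_fo
  rw [h4, h5, Cmd_one]
  have h6 : |(star z ⬝ᵥ (K *ᵥ z)).re| ≤ ∑ p : Fin m × Fin m, ‖K p.1 p.2‖ * (‖z p.1‖ * ‖z p.2‖) := by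
    refine (Complex.abs_re_le_norm _).trans ?_
    rw [Fintype.sum_prod_type]
    unfold dotProduct mulVec dotProduct
    refine (norm_sum_le _ _).trans (Finset.sum_le_sum fun i _ => ?_)
    rw [norm_mul, Pi.star_apply, norm_star]
    refine (mul_le_mul_of_nonneg_left (norm_sum_le _ _) (norm_nonneg _)).trans ?_
    rw [Finset.mul_sum]
    refine Finset.sum_le_sum fun j _ => ?_
    rw [norm_mul]
    apply le_of_eq
    ring
  have h7 := Finset.sum_mul_sq_le_sq_mul_sq (Finset.univ : Finset (Fin m × Fin m))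
    (fun p => ‖K p.1 p.2‖) (fun p => ‖z p.1‖ * ‖z p.2‖)
  have h8 : ∑ p : Fin m × Fin m, (‖z p.1‖ * ‖z p.2‖) ^ 2 = (∑ i, ‖z i‖ ^ 2) ^ 2 := by
    rw [Fintype.sum_prod_type, sq (∑ i, ‖z i‖ ^ 2), Finset.sum_mul_sum]
    refine Finset.sum_congr rfl fun i _ => Finset.sum_congr rfl fun j _ => ?_
    ring
  have h9 : ∑ p : Fin m × Fin m, ‖K p.1 p.2‖ ^ 2 ≤ 4 * b ^ 2 := by
    rw [Fintype.sum_prod_type]
    have : ∑ i, ∑ j, ‖K i j‖ ^ 2 = 4 * q t t H x := by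
      rw [hq, Finset.mul_sum]
      refine Finset.sum_congr rfl fun i _ => ?_
      rw [Finset.mul_sum]
      refine Finset.sum_congr rfl fun j _ => ?_
      ring
    rw [this]
    linarith
  have hZ : 0 ≤ ∑ i, ‖z i‖ ^ 2 := Finset.sum_nonneg fun i _ => sq_nonneg _
  have h10 : (∑ p : Fin m × Fin m, ‖K p.1 p.2‖ * (‖z p.1‖ * ‖z p.2‖)) ^ 2 ≤
      (2 * b * ∑ i, ‖z i‖ ^ 2) ^ 2 := by
    refine h7.trans ?_
    rw [h8]
    calc _ ≤ 4 * b ^ 2 * (∑ i, ‖z i‖ ^ 2) ^ 2 := mul_le_mul_of_nonneg_right h9 (sq_nonneg _)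
      _ = _ := by ring
  exact h6.trans (abs_le_of_sq_le_sq' h10 (by positivity)).2

/-- interpolating function -/
private noncomputable def Cmd_g (L s : ℝ) : ℝ :=
  (Real.exp (L * max 0 (min s 1)) - 1) / (Real.exp L - 1)

private theorem Cmd_den {L : ℝ} (hL : 0 < L) : 0 < Real.exp L - 1 := by
  have := Real.add_one_lt_exp hL.ne'
  linarith

private theorem Cmd_g_nonneg {L : ℝ} (hL : 0 < L) (s : ℝ) : 0 ≤ Cmd_g L s := by
  refine div_nonneg ?_ (Cmd_den hL).le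
  have : 0 ≤ L * max 0 (min s 1) := mul_nonneg hL.le (le_max_left _ _)
  have := Real.one_le_exp this
  linarith

private theorem Cmd_g_one {L : ℝ} (hL : 0 < L) {s : ℝ} (hs : 1 ≤ s) : Cmd_g L s = 1 := by
  unfold Cmd_g
  rw [min_eq_right hs, max_eq_right zero_le_one, mul_one, div_self (Cmd_den hL).ne']

private theorem Cmd_g_zero {L : ℝ} {s : ℝ} (hs : s ≤ 0) : Cmd_g L s = 0 := by
  unfold Cmd_g
  rw [max_eq_left ((min_le_left _ _).trans hs), mul_zero, Real.exp_zero, sub_self, zero_div]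

private theorem Cmd_g_cont (L : ℝ) : Continuous (Cmd_g L) := by
  unfold Cmd_g
  fun_prop

private theorem Cmd_exp_sub (p r : ℝ) :
    |Real.exp r - Real.exp p| ≤ |r - p| * max (Real.exp p) (Real.exp r) := by
  have key : ∀ p r : ℝ, p ≤ r → |Real.exp r - Real.exp p| ≤ |r - p| * max (Real.exp p) (Real.exp r) := by
    intro p r h
    have h1 : Real.exp p ≤ Real.exp r := Real.exp_le_exp.2 h
    rw [abs_of_nonneg (by linarith), abs_of_nonneg (by linarith), max_eq_right h1]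
    have h2 := Real.add_one_le_exp (p - r)
    have h3 : Real.exp p = Real.exp r * Real.exp (p - r) := by
      rw [← Real.exp_add]
      congr 1
      ring
    rw [h3]
    nlinarith [Real.exp_pos r]
  rcases le_total p r with h | h
  · exact key p r h
  · rw [abs_sub_comm, abs_sub_comm r p, max_comm]
    exact key r p h

private theorem Cmd_clamp (s s' : ℝ) : |max 0 (min s' 1) - max 0 (min s 1)| ≤ |s' - s| := by
  have h1 := abs_max_sub_max_le_abs (min s' 1) (min s 1) 0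
  have h2 := abs_min_sub_min_le_max s' 1 s 1
  rw [sub_self, abs_zero, max_eq_left (abs_nonneg _)] at h2
  rw [max_comm 0, max_comm 0]
  exact h1.trans h2

private theorem Cmd_g_lip {L : ℝ} (hL : 0 < L) (s s' : ℝ) :
    |Cmd_g L s' - Cmd_g L s| ≤
      |s' - s| * (L * max (Cmd_g L s) (Cmd_g L s') + L / (Real.exp L - 1)) := by
  have hD := Cmd_den hL
  have h1 := Cmd_exp_sub (L * max 0 (min s 1)) (L * max 0 (min s' 1))
  have h2 : Cmd_g L s' - Cmd_g L s =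
      (Real.exp (L * max 0 (min s' 1)) - Real.exp (L * max 0 (min s 1))) / (Real.exp L - 1) := by
    unfold Cmd_g
    ring
  rw [h2, abs_div, abs_of_pos hD, div_le_iff₀ hD]
  refine h1.trans ?_
  have h3 : |L * max 0 (min s' 1) - L * max 0 (min s 1)| ≤ L * |s' - s| := by
    rw [← mul_sub, abs_mul, abs_of_pos hL]
    exact mul_le_mul_of_nonneg_left (Cmd_clamp s s') hL.le
  have h4 : max (Real.exp (L * max 0 (min s 1))) (Real.exp (L * max 0 (min s' 1))) =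
      (Real.exp L - 1) * max (Cmd_g L s) (Cmd_g L s') + 1 := by
    unfold Cmd_g
    rw [mul_max_of_nonneg _ _ hD.le, mul_div_cancel₀ _ hD.ne', mul_div_cancel₀ _ hD.ne',
      ← max_add_add_right, sub_add_cancel, sub_add_cancel]
  rw [h4]
  have h5 : 0 ≤ (Real.exp L - 1) * max (Cmd_g L s) (Cmd_g L s') + 1 := by
    have : 0 ≤ max (Cmd_g L s) (Cmd_g L s') := (Cmd_g_nonneg hL s).trans (le_max_left _ _)
    positivity
  calc _ ≤ L * |s' - s| * ((Real.exp L - 1) * max (Cmd_g L s) (Cmd_g L s') + 1) :=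
        mul_le_mul_of_nonneg_right h3 h5
    _ = _ := by
        field_simp

/-- the scalar factors as functions of the point -/
private noncomputable def Cmd_c (L a b : ℝ) (x : ℝ × ℝ) : ℂ := ((Cmd_g L (a + b * x.2) : ℝ) : ℂ)

private theorem Cmd_g_bd {L : ℝ} (hL : 0 < L) (s : ℝ) : Cmd_g L s ≤ 1 := by
  unfold Cmd_g
  rw [div_le_one (Cmd_den hL)]
  have : L * max 0 (min s 1) ≤ L := by
    have h1 : max 0 (min s 1) ≤ 1 := max_le zero_le_one (min_le_right _ _)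
    nlinarith
  have := Real.exp_le_exp.2 this
  linarith

private theorem Cmd_c_diff {L : ℝ} (hL : 0 < L) (a b : ℝ) (x y : ℝ × ℝ) :
    ‖Cmd_c L a b x - Cmd_c L a b y‖ ≤ |b| * (L * max (Cmd_g L (a + b * y.2)) (Cmd_g L (a + b * x.2))
      + L / (Real.exp L - 1)) * ‖x - y‖ := by
  unfold Cmd_c
  rw [← Complex.ofReal_sub, Complex.norm_real, Real.norm_eq_abs]
  refine (Cmd_g_lip hL (a + b * y.2) (a + b * x.2)).trans ?_
  have h1 : |a + b * x.2 - (a + b * y.2)| ≤ |b| * ‖x - y‖ := by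
    have : a + b * x.2 - (a + b * y.2) = b * (x.2 - y.2) := by ring
    rw [this, abs_mul]
    refine mul_le_mul_of_nonneg_left ?_ (abs_nonneg _)
    have := norm_snd_le (x - y)
    exact this
  have h2 : 0 ≤ L * max (Cmd_g L (a + b * y.2)) (Cmd_g L (a + b * x.2)) + L / (Real.exp L - 1) := by
    have : 0 ≤ max (Cmd_g L (a + b * y.2)) (Cmd_g L (a + b * x.2)) :=
      (Cmd_g_nonneg hL _).trans (le_max_left _ _)
    have := Cmd_den hL
    positivity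
  calc _ ≤ |b| * ‖x - y‖ * (L * max (Cmd_g L (a + b * y.2)) (Cmd_g L (a + b * x.2)) +
        L / (Real.exp L - 1)) := mul_le_mul_of_nonneg_right h1 h2
    _ = _ := by ring

private theorem Cmd_c_sz {L : ℝ} (hL : 0 < L) (a b : ℝ) : Aed_Sz (Cmd_c L a b) := by
  intro d _
  have hD := Cmd_den hL
  refine ⟨|b| * (L + L / (Real.exp L - 1)), by positivity, fun x _ y _ => ?_⟩
  refine (Cmd_c_diff hL a b x y).trans ?_
  rw [dist_eq_norm]
  refine mul_le_mul_of_nonneg_right ?_ (norm_nonneg _)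
  refine mul_le_mul_of_nonneg_left ?_ (abs_nonneg _)
  have : max (Cmd_g L (a + b * y.2)) (Cmd_g L (a + b * x.2)) ≤ 1 :=
    max_le (Cmd_g_bd hL _) (Cmd_g_bd hL _)
  nlinarith

private theorem Cmd_c_fd {L : ℝ} (hL : 0 < L) (a b : ℝ) (x : ℝ × ℝ)
    (hd : DifferentiableAt ℝ (Cmd_c L a b) x) :
    ‖fderiv ℝ (Cmd_c L a b) x (0, 1)‖ ≤
      |b| * (L * Cmd_g L (a + b * x.2) + L / (Real.exp L - 1)) := by
  have hD := Cmd_den hL
  have h1 : ‖fderiv ℝ (Cmd_c L a b) x‖ ≤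
      |b| * (L * Cmd_g L (a + b * x.2) + L / (Real.exp L - 1)) := by
    apply le_of_forall_pos_le_add
    intro e he
    have hg := Cmd_g_nonneg hL (a + b * x.2)
    refine hd.hasFDerivAt.le_of_lip' (by positivity) ?_
    have h2 : ContinuousAt (fun y : ℝ × ℝ => |b| * (L * max (Cmd_g L (a + b * x.2))
        (Cmd_g L (a + b * y.2)) + L / (Real.exp L - 1))) x := by
      have := Cmd_g_cont L
      apply Continuous.continuousAt
      fun_prop
    have h3 : ∀ᶠ y in 𝓝 x, |b| * (L * max (Cmd_g L (a + b * x.2))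
        (Cmd_g L (a + b * y.2)) + L / (Real.exp L - 1)) <
        |b| * (L * Cmd_g L (a + b * x.2) + L / (Real.exp L - 1)) + e := by
      apply h2.eventually_lt_const
      simp only [max_self]
      linarith
    filter_upwards [h3] with y hy
    exact (Cmd_c_diff hL a b y x).trans (mul_le_mul_of_nonneg_right hy.le (norm_nonneg _))
  have h2 : ‖((0, 1) : ℝ × ℝ)‖ = 1 := by
    simp [Prod.norm_def]
  calc _ ≤ ‖fderiv ℝ (Cmd_c L a b) x‖ * ‖((0, 1) : ℝ × ℝ)‖ :=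
        ContinuousLinearMap.le_opNorm _ _
    _ ≤ _ := by rw [h2, mul_one]; exact h1

/-- derivative in a direction in which the function is locally constant -/
private theorem Cmd_dir {f : ℝ × ℝ → ℂ} {x t : ℝ × ℝ}
    (h : ∀ᶠ s in 𝓝 (0:ℝ), f (x + s • t) = f x) : fderiv ℝ f x t = 0 := by
  by_cases hd : DifferentiableAt ℝ f x
  · have h1 : HasDerivAt (fun s : ℝ => x + s • t) t 0 := by
      simpa using ((hasDerivAt_id (0:ℝ)).smul_const t).const_add x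
    have h2 : HasFDerivAt f (fderiv ℝ f x) (x + (0:ℝ) • t) := by
      rw [zero_smul, add_zero]
      exact hd.hasFDerivAt
    have h3 := h2.comp_hasDerivAt (0:ℝ) h1
    have h4 : HasDerivAt (fun s : ℝ => f (x + s • t)) 0 0 := by
      refine (hasDerivAt_const (0:ℝ) (f x)).congr_of_eventuallyEq ?_
      exact h
    exact h3.unique h4
  · rw [fderiv_zero_of_not_differentiableAt hd]
    rfl

private theorem Cmd_c_hor (L a b : ℝ) (x : ℝ × ℝ) : fderiv ℝ (Cmd_c L a b) x (1, 0) = 0 := by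
  apply Cmd_dir
  refine Eventually.of_forall fun s => ?_
  unfold Cmd_c
  simp

private theorem Cmd_pd_smul {m : ℕ} {f : ℝ × ℝ → ℂ} {X : ℝ × ℝ → Mt m} {x : ℝ × ℝ}
    (hf : DifferentiableAt ℝ f x) (dX : ∀ i j, DifferentiableAt ℝ (fun y => X y i j) x)
    (t : ℝ × ℝ) : pd t (fun y => f y • X y) x = fderiv ℝ f x t • X x + f x • pd t X x := by
  ext i j
  have h := (hf.hasFDerivAt.fun_mul (dX i j).hasFDerivAt).fderiv
  have h2 := congrArg (fun L : (ℝ × ℝ) →L[ℝ] ℂ => L t) h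
  change fderiv ℝ (fun y => (f y • X y) i j) x t = _
  simp only [Matrix.smul_apply, smul_eq_mul]
  rw [h2]
  simp only [_root_.add_apply, _root_.smul_apply, smul_eq_mul,
    Matrix.add_apply, Matrix.smul_apply, pd, Matrix.of_apply]
  ring

/-- the reflection exchanging top and bottom -/
private noncomputable def Cmd_rho (x : ℝ × ℝ) : ℝ × ℝ := (x.1, 1 / 2 - x.2)

private theorem Cmd_rho_rho (x : ℝ × ℝ) : Cmd_rho (Cmd_rho x) = x := by
  unfold Cmd_rho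
  ext <;> simp

private theorem Cmd_rho_D {x : ℝ × ℝ} (h : x ∈ D) : Cmd_rho x ∈ D := by
  simp only [D, mem_prod, mem_Icc, Cmd_rho] at *
  refine ⟨h.1, ?_, ?_⟩ <;> linarith [h.2.1, h.2.2]

private theorem Cmd_rho_U {x : ℝ × ℝ} (h : x ∈ U) : Cmd_rho x ∈ U := by
  simp only [U, mem_prod, mem_Ioo, Cmd_rho] at *
  refine ⟨h.1, ?_, ?_⟩ <;> linarith [h.2.1, h.2.2]

private theorem Cmd_rho_P {x : ℝ × ℝ} (h : x ∈ P) : Cmd_rho x ∈ P := by
  simp only [P, mem_prod, mem_insert_iff, mem_singleton_iff, Cmd_rho] at *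
  refine ⟨h.1, ?_⟩
  rcases h.2 with h | h
  · right
    rw [h, sub_zero]
  · left
    rw [h, sub_self]

private theorem Cmd_P0 {x : ℝ × ℝ} (h : x ∈ P0) : x ∈ P := by
  simp only [P, P0, mem_prod, mem_insert_iff, mem_singleton_iff] at *
  exact ⟨h.1, Or.inl h.2⟩

private theorem Cmd_rho_dist (x y : ℝ × ℝ) : dist (Cmd_rho x) (Cmd_rho y) = dist x y := by
  unfold Cmd_rho
  rw [Prod.dist_eq, Prod.dist_eq]
  congr 1
  rw [Real.dist_eq, Real.dist_eq, abs_sub_comm]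
  congr 1
  show 1 / 2 - y.2 - (1 / 2 - x.2) = _
  ring

private theorem Cmd_rho_Dd {d : ℝ} {x : ℝ × ℝ} (h : x ∈ Dd d) : Cmd_rho x ∈ Dd d := by
  refine ⟨Cmd_rho_D h.1, fun p hp => ?_⟩
  have h1 := h.2 _ (Cmd_rho_P hp)
  rwa [← Cmd_rho_dist, Cmd_rho_rho] at h1

private theorem Cmd_rho_eq : Cmd_rho = fun x : ℝ × ℝ =>
    ((ContinuousLinearEquiv.refl ℝ ℝ).prodCongr (ContinuousLinearEquiv.neg ℝ)) x + (0, 1 / 2) := by
  funext x
  unfold Cmd_rho
  ext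
  · simp
  · simp
    ring

private theorem Cmd_rho_fderiv (f : ℝ × ℝ → ℂ) (x t : ℝ × ℝ) :
    fderiv ℝ (fun y => f (Cmd_rho y)) x t = fderiv ℝ f (Cmd_rho x) (t.1, -t.2) := by
  set iso : (ℝ × ℝ) ≃L[ℝ] (ℝ × ℝ) :=
    (ContinuousLinearEquiv.refl ℝ ℝ).prodCongr (ContinuousLinearEquiv.neg ℝ) with hiso
  have h1 : (fun y => f (Cmd_rho y)) = (fun z => f (z + (0, 1 / 2))) ∘ iso := by
    funext y
    rw [Cmd_rho_eq]
    rfl
  rw [h1, iso.comp_right_fderiv, fderiv_comp_add_right, Cmd_rho_eq]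
  rfl

private theorem Cmd_rho_pd {m : ℕ} (X : ℝ × ℝ → Mt m) (x t : ℝ × ℝ) :
    pd t (fun y => X (Cmd_rho y)) x = pd (t.1, -t.2) X (Cmd_rho x) := by
  ext i j
  exact Cmd_rho_fderiv (fun y => X y i j) x t

private theorem Cmd_rho_q1 {m : ℕ} (X : ℝ × ℝ → Mt m) (x : ℝ × ℝ) :
    q (1, 0) (1, 0) (fun y => X (Cmd_rho y)) x = q (1, 0) (1, 0) X (Cmd_rho x) := by
  unfold q aa
  rw [Cmd_rho_pd]
  simp only [neg_zero]

private theorem Cmd_rho_q2 {m : ℕ} (X : ℝ × ℝ → Mt m) (x : ℝ × ℝ) :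
    q (0, 1) (0, 1) (fun y => X (Cmd_rho y)) x = q (0, 1) (0, 1) X (Cmd_rho x) := by
  have h1 : q (0, 1) (0, 1) (fun y => X (Cmd_rho y)) x = q (0, -1) (0, -1) X (Cmd_rho x) := by
    unfold q aa
    rw [Cmd_rho_pd]
  have h2 : ((0, -1) : ℝ × ℝ) = (-1 : ℝ) • ((0, 1) : ℝ × ℝ) + (0 : ℝ) • ((0, 1) : ℝ × ℝ) := by
    ext <;> simp
  rw [h1, h2, q_lin, q_comm, q_lin]
  ring

private theorem Cmd_rho_da {m : ℕ} {X : ℝ × ℝ → Mt m} {x : ℝ × ℝ}
    (h : ∀ i j, DifferentiableAt ℝ (fun y => (fun y => X (Cmd_rho y)) y i j) x) (i j : Fin m) :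
    DifferentiableAt ℝ (fun y => X y i j) (Cmd_rho x) := by
  have hr : DifferentiableAt ℝ Cmd_rho (Cmd_rho x) := by
    rw [Cmd_rho_eq]
    fun_prop
  have h1 : DifferentiableAt ℝ (fun y => X (Cmd_rho y) i j) (Cmd_rho (Cmd_rho x)) := by
    rw [Cmd_rho_rho]
    exact h i j
  have h2 := h1.comp (Cmd_rho x) hr
  have h3 : (fun y => X (Cmd_rho y) i j) ∘ Cmd_rho = fun y => X y i j := by
    funext y
    show X (Cmd_rho (Cmd_rho y)) i j = _
    rw [Cmd_rho_rho]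
  rwa [h3] at h2

private theorem Cmd_rho_lz {m : ℕ} {X : ℝ × ℝ → Mt m} (h : Lz X) :
    Lz (fun y => X (Cmd_rho y)) := by
  intro d hd
  obtain ⟨K, hK⟩ := h d hd
  refine ⟨K, fun x hx y hy i j => ?_⟩
  have := hK _ (Cmd_rho_Dd hx) _ (Cmd_rho_Dd hy) i j
  rwa [Cmd_rho_dist] at this

private theorem Cmd_rho_mp : MeasurePreserving Cmd_rho (volume : Measure (ℝ × ℝ)) volume := by
  have h1 : MeasurePreserving (fun x : ℝ => 1 / 2 - x) volume volume :=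
    Measure.measurePreserving_sub_left volume (1 / 2)
  have h2 := (MeasurePreserving.id (volume : Measure ℝ)).prod h1
  exact h2

private theorem Cmd_rho_cont : Continuous Cmd_rho := by
  unfold Cmd_rho
  fun_prop

private theorem Cmd_rho_me : MeasurableEmbedding Cmd_rho :=
  (Homeomorph.mk ⟨Cmd_rho, Cmd_rho, Cmd_rho_rho, Cmd_rho_rho⟩ Cmd_rho_cont
    Cmd_rho_cont).measurableEmbedding

private theorem Cmd_rho_pre : Cmd_rho ⁻¹' U = U := by
  ext x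
  constructor
  · intro h
    have := Cmd_rho_U (x := Cmd_rho x) h
    rwa [Cmd_rho_rho] at this
  · exact fun h => Cmd_rho_U h

private theorem Cmd_rho_integrable {f : ℝ × ℝ → ℝ} (h : IntegrableOn f U) :
    IntegrableOn (fun x => f (Cmd_rho x)) U := by
  have := (Cmd_rho_mp.integrableOn_comp_preimage Cmd_rho_me (f := f) (s := U)).2 h
  rw [Cmd_rho_pre] at this
  exact this

private theorem Cmd_rho_integral (f : ℝ × ℝ → ℝ) :
    ∫ x in U, f (Cmd_rho x) = ∫ x in U, f x := by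
  have := Cmd_rho_mp.setIntegral_preimage_emb Cmd_rho_me f U
  rw [Cmd_rho_pre] at this
  exact this

private theorem Cmd_null (a : ℝ) : ∀ᵐ x : ℝ × ℝ ∂(volume.restrict U), x.2 ≠ a := by
  apply ae_restrict_of_ae
  rw [ae_iff]
  have : {x : ℝ × ℝ | ¬ x.2 ≠ a} = univ ×ˢ {a} := by
    ext x
    simp
  rw [this, Measure.volume_eq_prod, Measure.prod_prod, Real.volume_singleton, mul_zero]

section

variable {m : ℕ} {A B C : Mt m} {ka R S0 : ℝ} {Hb Hb' : ℝ × ℝ → Mt m}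

private theorem Cmd_notP0 {x : ℝ × ℝ} (h : 1 / 6 ≤ x.2) : x ∉ P0 := by
  intro hp
  simp only [P0, mem_prod, mem_insert_iff, mem_singleton_iff] at hp
  linarith [hp.2]

private theorem Cmd_bm_mono (hb : BM A C ka R S0 Hb) {ka' : ℝ} (hk : ka ≤ ka') (hR : 0 ≤ R)
    (hS : 0 ≤ S0) : BM A C ka' R S0 Hb := by
  have hE : Real.exp (ka * (S0 + 1)) ≤ Real.exp (ka' * (S0 + 1)) :=
    Real.exp_le_exp.2 (mul_le_mul_of_nonneg_right hk (by linarith))
  refine ⟨hb.pos, hb.lip, hb.glC, hb.glA, hb.int, ?_, hb.ind, ?_, ?_⟩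
  · exact hb.le.trans (mul_le_mul_of_nonneg_right hk (by positivity))
  · intro x hx hv hd
    exact (hb.ql x hx hv hd).trans (mul_le_mul_of_nonneg_right hk (Real.exp_pos _).le)
  · intro x hx hv
    have hp := hb.pos x hx (Cmd_notP0 hv)
    obtain ⟨h1, h2⟩ := hb.sz x hx hv
    refine ⟨fun y => (h1 y).trans (mul_le_mul_of_nonneg_right hE ?_),
      fun y => (h2 y).trans (mul_le_mul_of_nonneg_right hE ?_)⟩
    · rw [Matrix.one_mulVec, Cmd_one]
      exact Finset.sum_nonneg fun i _ => sq_nonneg _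
    · exact Cmd_fo_nonneg hp y

private theorem Cmd_bm_lz (hb : BM A C ka R S0 Hb) : Lz Hb := by
  intro d hd
  obtain ⟨K, hK⟩ := hb.lip d hd
  exact ⟨K, fun x hx y hy i j => hK x hx.1 y hy.1 (fun p hp => hx.2 p (Cmd_P0 hp))
    (fun p hp => hy.2 p (Cmd_P0 hp)) i j⟩

private theorem Cmd_bm_pos (hb : BM A C ka R S0 Hb) : ∀ x ∈ D \ P, (Hb x).PosDef :=
  fun x hx => hb.pos x hx.1 fun h => hx.2 (Cmd_P0 h)

private theorem Cmd_bt_pos (hb : BM A C ka R S0 Hb) :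
    ∀ x ∈ D \ P, (Hb (Cmd_rho x)).PosDef := by
  intro x hx
  refine Cmd_bm_pos hb _ ⟨Cmd_rho_D hx.1, fun h => hx.2 ?_⟩
  have := Cmd_rho_P h
  rwa [Cmd_rho_rho] at this

private theorem Cmd_vert (hb : BM A C ka R S0 Hb) {x : ℝ × ℝ} (hx : x ∈ U) (hv : 1 / 6 < x.2) :
    pd (0, 1) Hb x = 0 := by
  ext i j
  show fderiv ℝ (fun y => Hb y i j) x (0, 1) = 0
  apply Cmd_dir
  have hx' := hx
  simp only [U, mem_prod, mem_Ioo] at hx'
  have h1 : ∀ᶠ s in 𝓝 (0:ℝ), s ∈ Ioo (1 / 6 - x.2) (1 / 2 - x.2) :=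
    Ioo_mem_nhds (by linarith) (by linarith [hx'.2.2])
  filter_upwards [h1] with s hs
  have e1 : x + s • ((0, 1) : ℝ × ℝ) = (x.1, x.2 + s) := by
    ext <;> simp
  rw [e1, hb.ind x.1 ⟨hx'.1.1.le, hx'.1.2.le⟩ (x.2 + s) ⟨by linarith [hs.1], by linarith [hs.2]⟩]
  have h2 := hb.ind x.1 ⟨hx'.1.1.le, hx'.1.2.le⟩ x.2 ⟨hv.le, hx'.2.2.le⟩
  rw [← h2]

private theorem Cmd_psum {M N : Mt m} (hM : M.PosDef) (hN : N.PosDef) {a b : ℝ} (ha : 0 ≤ a)
    (hb : 0 ≤ b) (h : a = 1 ∨ b = 1) : ((a : ℂ) • M + (b : ℂ) • N).PosDef := by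
  rcases h with h | h
  · rw [h, Complex.ofReal_one, one_smul]
    exact hM.add_posSemidef (hN.posSemidef.smul (Complex.zero_le_real.2 hb))
  · rw [h, Complex.ofReal_one, one_smul]
    exact Matrix.PosDef.posSemidef_add (hM.posSemidef.smul (Complex.zero_le_real.2 ha)) hN

/-- the metric -/
private noncomputable def Cmd_H (L : ℝ) (Hb Hb' : ℝ × ℝ → Mt m) (x : ℝ × ℝ) : Mt m :=
  Cmd_c L 4 (-12) x • Hb x + Cmd_c L (-2) 12 x • Hb' (Cmd_rho x)

private theorem Cmd_c1_one {L : ℝ} (hL : 0 < L) {x : ℝ × ℝ} (h : x.2 ≤ 1 / 4) :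
    Cmd_c L 4 (-12) x = 1 := by
  unfold Cmd_c
  rw [Cmd_g_one hL (by linarith), Complex.ofReal_one]

private theorem Cmd_c1_zero {L : ℝ} {x : ℝ × ℝ} (h : 1 / 3 ≤ x.2) :
    Cmd_c L 4 (-12) x = 0 := by
  unfold Cmd_c
  rw [Cmd_g_zero (by linarith), Complex.ofReal_zero]

private theorem Cmd_c2_one {L : ℝ} (hL : 0 < L) {x : ℝ × ℝ} (h : 1 / 4 ≤ x.2) :
    Cmd_c L (-2) 12 x = 1 := by
  unfold Cmd_c
  rw [Cmd_g_one hL (by linarith), Complex.ofReal_one]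

private theorem Cmd_c2_zero {L : ℝ} {x : ℝ × ℝ} (h : x.2 ≤ 1 / 6) :
    Cmd_c L (-2) 12 x = 0 := by
  unfold Cmd_c
  rw [Cmd_g_zero (by linarith), Complex.ofReal_zero]

private theorem Cmd_H_pos {L : ℝ} (hL : 0 < L) {C' : Mt m} {A' : Mt m}
    (hb : BM A C ka R S0 Hb) (hb' : BM A' C' ka R S0 Hb') :
    ∀ x ∈ D \ P, (Cmd_H L Hb Hb' x).PosDef := by
  intro x hx
  refine Cmd_psum (Cmd_bm_pos hb x hx) (Cmd_bt_pos hb' x hx) (Cmd_g_nonneg hL _)
    (Cmd_g_nonneg hL _) ?_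
  rcases le_total x.2 (1 / 4) with h | h
  · left
    exact Cmd_g_one hL (by linarith)
  · right
    exact Cmd_g_one hL (by linarith)

private theorem Cmd_H_lz {L : ℝ} (hL : 0 < L) {C' : Mt m} {A' : Mt m}
    (hb : BM A C ka R S0 Hb) (hb' : BM A' C' ka R S0 Hb') : Lz (Cmd_H L Hb Hb') := by
  have h1 := Aed_lz_iff.1 (Cmd_bm_lz hb)
  have h2 := Aed_lz_iff.1 (Cmd_rho_lz (Cmd_bm_lz hb'))
  rw [Aed_lz_iff]
  intro i j
  exact Aed_Sz_add (Aed_Sz_mul (Cmd_c_sz hL 4 (-12)) (h1 i j))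
    (Aed_Sz_mul (Cmd_c_sz hL (-2) 12) (h2 i j))

private theorem Cmd_cmp {C' : Mt m} {A' : Mt m} (hb : BM A C ka R S0 Hb)
    (hb' : BM A' C' ka R S0 Hb') {x : ℝ × ℝ} (hx : x ∈ D) (h1 : 1 / 6 ≤ x.2) (h2 : x.2 ≤ 1 / 3)
    (y : Fin m → ℂ) :
    Cmd_fo (Hb x) y ≤ Real.exp (2 * ka * (S0 + 1)) * Cmd_fo (Hb' (Cmd_rho x)) y ∧
    Cmd_fo (Hb' (Cmd_rho x)) y ≤ Real.exp (2 * ka * (S0 + 1)) * Cmd_fo (Hb x) y := by
  obtain ⟨a1, a2⟩ := hb.sz x hx h1
  have h3 : 1 / 6 ≤ (Cmd_rho x).2 := by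
    show 1 / 6 ≤ 1 / 2 - x.2
    linarith
  obtain ⟨b1, b2⟩ := hb'.sz _ (Cmd_rho_D hx) h3
  have hE : Real.exp (2 * ka * (S0 + 1)) = Real.exp (ka * (S0 + 1)) * Real.exp (ka * (S0 + 1)) := by
    rw [← Real.exp_add]
    congr 1
    ring
  have hp := Real.exp_pos (ka * (S0 + 1))
  rw [hE, mul_assoc, mul_assoc]
  exact ⟨(a1 y).trans (mul_le_mul_of_nonneg_left (b2 y) hp.le),
    (b1 y).trans (mul_le_mul_of_nonneg_left (a2 y) hp.le)⟩

private theorem Cmd_num {L : ℝ} (hL : 0 < L) : L * (1 + Real.exp L) ≤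
    2 * (L + 1) * (Real.exp L - 1) := by
  have h := Real.add_one_le_exp L
  nlinarith

/-- the middle region, vertical direction -/
private theorem Cmd_mid2 {C' : Mt m} {A' : Mt m} (hb : BM A C ka R S0 Hb)
    (hb' : BM A' C' ka R S0 Hb') (hk : 0 < ka) (hS : 0 ≤ S0) {L : ℝ}
    (hLd : L = 2 * ka * (S0 + 1)) {x : ℝ × ℝ} (hx : x ∈ U) (h1 : 1 / 6 < x.2) (h2 : x.2 < 1 / 3)
    (d1 : ∀ i j, DifferentiableAt ℝ (fun y => Hb y i j) x)
    (d2 : ∀ i j, DifferentiableAt ℝ (fun y => (fun y => Hb' (Cmd_rho y)) y i j) x)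
    (e1 : DifferentiableAt ℝ (Cmd_c L 4 (-12)) x) (e2 : DifferentiableAt ℝ (Cmd_c L (-2) 12) x) :
    q (0, 1) (0, 1) (Cmd_H L Hb Hb') x ≤ 5 * m ^ 2 * (36 * (L + 1)) ^ 2 := by
  have hL : 0 < L := by rw [hLd]; positivity
  have hxD : x ∈ D := (u_sub hx).1
  have hnear := pos_near (Cmd_H_pos hL hb hb') hx
  have hpb := (Cmd_bm_pos hb) x (u_sub hx)
  have hpt := (Cmd_bt_pos hb') x (u_sub hx)
  have hD := Cmd_den hL
  -- the derivative
  have hpd : pd (0, 1) (Cmd_H L Hb Hb') x = fderiv ℝ (Cmd_c L 4 (-12)) x (0, 1) • Hb x +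
      fderiv ℝ (Cmd_c L (-2) 12) x (0, 1) • Hb' (Cmd_rho x) := by
    have s1 := Cmd_pd_smul e1 d1 (0, 1)
    have s2 := Cmd_pd_smul e2 d2 (0, 1)
    have s3 : pd (0, 1) (fun y => Hb' (Cmd_rho y)) x = 0 := by
      rw [Cmd_rho_pd]
      have s4 : (((0:ℝ), (1:ℝ)).1, -((0:ℝ), (1:ℝ)).2) =
          (-1 : ℝ) • ((0, 1) : ℝ × ℝ) + (0 : ℝ) • ((0, 1) : ℝ × ℝ) := by
        ext <;> simp
      have hv : 1 / 6 < (Cmd_rho x).2 := by
        show 1 / 6 < 1 / 2 - x.2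
        linarith
      rw [s4, pd_lin, Cmd_vert hb' (Cmd_rho_U hx) hv]
      simp
    rw [Cmd_vert hb hx h1, smul_zero, add_zero] at s1
    rw [s3, smul_zero, add_zero] at s2
    have dd1 : ∀ i j, DifferentiableAt ℝ (fun y => (fun y => Cmd_c L 4 (-12) y • Hb y) y i j) x :=
      fun i j => e1.fun_mul (d1 i j)
    have dd2 : ∀ i j, DifferentiableAt ℝ
        (fun y => (fun y => Cmd_c L (-2) 12 y • Hb' (Cmd_rho y)) y i j) x :=
      fun i j => e2.fun_mul (d2 i j)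
    have s5 := pd_add dd1 dd2 1 1 (0, 1)
    simp only [one_smul] at s5
    rw [s1, s2] at s5
    exact s5
  refine Cmd_lo hnear (0, 1) (by positivity) fun y => ?_
  rw [hpd, Cmd_fo_add]
  have f1 := Cmd_c_fd hL 4 (-12) x e1
  have f2 := Cmd_c_fd hL (-2) 12 x e2
  have g1 := Cmd_g_nonneg hL (4 + -12 * x.2)
  have g2 := Cmd_g_nonneg hL (-2 + 12 * x.2)
  set c1 := Cmd_g L (4 + -12 * x.2) with hc1
  set c2 := Cmd_g L (-2 + 12 * x.2) with hc2
  have p1 := Cmd_fo_nonneg hpb y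
  have p2 := Cmd_fo_nonneg hpt y
  have t1 := Cmd_fo_smul_le hpb.isHermitian (fderiv ℝ (Cmd_c L 4 (-12)) x (0, 1)) y
  have t2 := Cmd_fo_smul_le hpt.isHermitian (fderiv ℝ (Cmd_c L (-2) 12) x (0, 1)) y
  rw [abs_of_nonneg p1] at t1
  rw [abs_of_nonneg p2] at t2
  have hH : Cmd_fo (Cmd_H L Hb Hb' x) y = c1 * Cmd_fo (Hb x) y + c2 * Cmd_fo (Hb' (Cmd_rho x)) y := by
    unfold Cmd_H
    rw [Cmd_fo_add, Cmd_fo_smul hpb.isHermitian, Cmd_fo_smul hpt.isHermitian]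
    rfl
  rw [hH]
  have habs1 : |(-12 : ℝ)| = 12 := by norm_num
  have habs2 : |(12 : ℝ)| = 12 := by norm_num
  rw [habs1] at f1
  rw [habs2] at f2
  set X := Cmd_fo (Hb x) y with hX
  set Y := Cmd_fo (Hb' (Cmd_rho x)) y with hY
  obtain ⟨k1, k2⟩ := Cmd_cmp hb hb' hxD h1.le h2.le y
  rw [← hLd] at k1 k2
  -- the key estimate
  have key : L / (Real.exp L - 1) * (X + Y) ≤ 2 * (L + 1) * (c1 * X + c2 * Y) := by
    rw [div_mul_eq_mul_div, div_le_iff₀ hD]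
    have hn := Cmd_num hL
    have hE := Real.exp_pos L
    have aux : ∀ X Y c1 c2 : ℝ, 0 ≤ X → 0 ≤ Y → 0 ≤ c2 → c1 = 1 → Y ≤ Real.exp L * X →
        L * (X + Y) ≤ 2 * (L + 1) * (c1 * X + c2 * Y) * (Real.exp L - 1) := by
      intro X Y c1 c2 hX hY hc2 hc1 hle
      rw [hc1, one_mul]
      have a1 : L * (X + Y) ≤ L * (1 + Real.exp L) * X := by nlinarith
      have a2 : L * (1 + Real.exp L) * X ≤ 2 * (L + 1) * (Real.exp L - 1) * X :=
        mul_le_mul_of_nonneg_right hn hX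
      have a3 : 0 ≤ 2 * (L + 1) * (c2 * Y) * (Real.exp L - 1) := by positivity
      nlinarith
    rcases le_total x.2 (1 / 4) with h | h
    · exact aux X Y c1 c2 p1 p2 g2 (Cmd_g_one hL (by linarith)) k2
    · have := aux Y X c2 c1 p2 p1 g1 (Cmd_g_one hL (by linarith)) k1
      rw [add_comm X Y, add_comm (c1 * X)]
      exact this
  have u1 : ‖fderiv ℝ (Cmd_c L 4 (-12)) x (0, 1)‖ * X ≤
      12 * (L * c1 + L / (Real.exp L - 1)) * X := mul_le_mul_of_nonneg_right f1 p1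
  have u2 : ‖fderiv ℝ (Cmd_c L (-2) 12) x (0, 1)‖ * Y ≤
      12 * (L * c2 + L / (Real.exp L - 1)) * Y := mul_le_mul_of_nonneg_right f2 p2
  have u3 : 0 ≤ c1 * X + c2 * Y := by positivity
  calc |Cmd_fo (fderiv ℝ (Cmd_c L 4 (-12)) x (0, 1) • Hb x) y +
        Cmd_fo (fderiv ℝ (Cmd_c L (-2) 12) x (0, 1) • Hb' (Cmd_rho x)) y|
      ≤ 12 * (L * c1 + L / (Real.exp L - 1)) * X + 12 * (L * c2 + L / (Real.exp L - 1)) * Y :=
        (abs_add_le _ _).trans (add_le_add (t1.trans u1) (t2.trans u2))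
    _ = 12 * (L * (c1 * X + c2 * Y)) + 12 * (L / (Real.exp L - 1) * (X + Y)) := by ring
    _ ≤ 12 * (L * (c1 * X + c2 * Y)) + 12 * (2 * (L + 1) * (c1 * X + c2 * Y)) := by linarith
    _ ≤ 36 * (L + 1) * (c1 * X + c2 * Y) := by nlinarith

/-- the middle region, horizontal direction -/
private theorem Cmd_mid1 {C' : Mt m} {A' : Mt m} (hb : BM A C ka R S0 Hb)
    (hb' : BM A' C' ka R S0 Hb') (hk : 0 < ka) {L : ℝ} (hL : 0 < L)
    {x : ℝ × ℝ} (hx : x ∈ U) (h1 : 1 / 6 < x.2) (h2 : x.2 < 1 / 3)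
    (d1 : ∀ i j, DifferentiableAt ℝ (fun y => Hb y i j) x)
    (d2 : ∀ i j, DifferentiableAt ℝ (fun y => (fun y => Hb' (Cmd_rho y)) y i j) x)
    (e1 : DifferentiableAt ℝ (Cmd_c L 4 (-12)) x) (e2 : DifferentiableAt ℝ (Cmd_c L (-2) 12) x) :
    q (1, 0) (1, 0) (Cmd_H L Hb Hb') x ≤ 20 * m ^ 2 * (ka * Real.exp (-2 * S0)) := by
  have hnear := pos_near (Cmd_H_pos hL hb hb') hx
  have hpb := (Cmd_bm_pos hb) x (u_sub hx)
  have hpt := (Cmd_bt_pos hb') x (u_sub hx)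
  have hE : 0 ≤ ka * Real.exp (-2 * S0) := by positivity
  have hpd : pd (1, 0) (Cmd_H L Hb Hb') x = Cmd_c L 4 (-12) x • pd (1, 0) Hb x +
      Cmd_c L (-2) 12 x • pd (1, 0) (fun y => Hb' (Cmd_rho y)) x := by
    have s1 := Cmd_pd_smul e1 d1 (1, 0)
    have s2 := Cmd_pd_smul e2 d2 (1, 0)
    rw [Cmd_c_hor, zero_smul, zero_add] at s1 s2
    have dd1 : ∀ i j, DifferentiableAt ℝ (fun y => (fun y => Cmd_c L 4 (-12) y • Hb y) y i j) x :=
      fun i j => e1.fun_mul (d1 i j)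
    have dd2 : ∀ i j, DifferentiableAt ℝ
        (fun y => (fun y => Cmd_c L (-2) 12 y • Hb' (Cmd_rho y)) y i j) x :=
      fun i j => e2.fun_mul (d2 i j)
    have s5 := pd_add dd1 dd2 1 1 (1, 0)
    simp only [one_smul] at s5
    rw [s1, s2] at s5
    exact s5
  set b := Real.sqrt (ka * Real.exp (-2 * S0)) with hbd
  have hb0 : 0 ≤ b := Real.sqrt_nonneg _
  have hb2 : b ^ 2 = ka * Real.exp (-2 * S0) := Real.sq_sqrt hE
  have q1 : q (1, 0) (1, 0) Hb x ≤ b ^ 2 := by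
    rw [hb2]
    exact hb.ql x hx h1 d1
  have q2 : q (1, 0) (1, 0) (fun y => Hb' (Cmd_rho y)) x ≤ b ^ 2 := by
    rw [hb2, Cmd_rho_q1]
    refine hb'.ql _ (Cmd_rho_U hx) ?_ (Cmd_rho_da d2)
    show 1 / 6 < 1 / 2 - x.2
    linarith
  have n1 := pos_near (Cmd_bm_pos hb) hx
  have n2 := pos_near (H := fun y => Hb' (Cmd_rho y)) (Cmd_bt_pos hb') hx
  have r : q (1, 0) (1, 0) (Cmd_H L Hb Hb') x ≤ 5 * m ^ 2 * (2 * b) ^ 2 := by
    refine Cmd_lo hnear (1, 0) (by positivity) fun y => ?_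
    rw [hpd, Cmd_fo_add]
    have g1 := Cmd_g_nonneg hL (4 + -12 * x.2)
    have g2 := Cmd_g_nonneg hL (-2 + 12 * x.2)
    have t1 := Cmd_up n1 (1, 0) hb0 q1 y
    have t2 := Cmd_up n2 (1, 0) hb0 q2 y
    have k1 := pd_herm (n1.mono fun y hy => hy.isHermitian) (1, 0)
    have k2 := pd_herm (n2.mono fun y hy => hy.isHermitian) (1, 0)
    have hH : Cmd_fo (Cmd_H L Hb Hb' x) y = Cmd_g L (4 + -12 * x.2) * Cmd_fo (Hb x) y +
        Cmd_g L (-2 + 12 * x.2) * Cmd_fo (Hb' (Cmd_rho x)) y := by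
      unfold Cmd_H
      rw [Cmd_fo_add, Cmd_fo_smul hpb.isHermitian, Cmd_fo_smul hpt.isHermitian]
      rfl
    rw [hH, Cmd_fo_smul k1, Cmd_fo_smul k2]
    show |Cmd_g L (4 + -12 * x.2) * Cmd_fo (pd (1, 0) Hb x) y + Cmd_g L (-2 + 12 * x.2) *
      Cmd_fo (pd (1, 0) (fun y => Hb' (Cmd_rho y)) x) y| ≤ _
    refine (abs_add_le _ _).trans ?_
    rw [abs_mul, abs_mul, abs_of_nonneg g1, abs_of_nonneg g2]
    have v1 := mul_le_mul_of_nonneg_left t1 g1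
    have v2 := mul_le_mul_of_nonneg_left t2 g2
    have e3 : Cmd_fo ((fun y => Hb' (Cmd_rho y)) x) y = Cmd_fo (Hb' (Cmd_rho x)) y := rfl
    rw [e3] at v2
    linarith
  refine r.trans (le_of_eq ?_)
  rw [mul_pow, hb2]
  ring

private theorem Cmd_pd_congr {X Y : ℝ × ℝ → Mt m} {x : ℝ × ℝ} (h : X =ᶠ[𝓝 x] Y) (t : ℝ × ℝ) :
    q t t X x = q t t Y x := by
  have h1 : pd t X x = pd t Y x := by
    ext i j
    show fderiv ℝ (fun y => X y i j) x t = fderiv ℝ (fun y => Y y i j) x t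
    have : (fun y => X y i j) =ᶠ[𝓝 x] fun y => Y y i j := h.mono fun y hy => by
      show X y i j = Y y i j
      rw [hy]
    rw [this.fderiv_eq]
  unfold q aa
  rw [h1, h.self_of_nhds]

/-- densities -/
private theorem Cmd_ae {C' : Mt m} {A' : Mt m} (hb : BM A C ka R S0 Hb)
    (hb' : BM A' C' ka R S0 Hb') (hk : 0 < ka) (hS : 0 ≤ S0) {L : ℝ}
    (hLd : L = 2 * ka * (S0 + 1)) : ∀ᵐ x ∂(volume.restrict U),
      (q (1, 0) (1, 0) (Cmd_H L Hb Hb') x + q (0, 1) (0, 1) (Cmd_H L Hb Hb') x ≤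
        (q (1, 0) (1, 0) Hb x + q (0, 1) (0, 1) Hb x) +
        (q (1, 0) (1, 0) Hb' (Cmd_rho x) + q (0, 1) (0, 1) Hb' (Cmd_rho x))) ∨
      (q (1, 0) (1, 0) (Cmd_H L Hb Hb') x ≤ 20 * m ^ 2 * (ka * Real.exp (-2 * S0)) ∧
        q (0, 1) (0, 1) (Cmd_H L Hb Hb') x ≤ 5 * m ^ 2 * (36 * (L + 1)) ^ 2) := by
  have hL : 0 < L := by rw [hLd]; positivity
  filter_upwards [lz_ae (Cmd_bm_lz hb), lz_ae (Cmd_rho_lz (Cmd_bm_lz hb')),
    Aed_Sz_ae (Cmd_c_sz hL 4 (-12)), Aed_Sz_ae (Cmd_c_sz hL (-2) 12),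
    ae_restrict_mem Mea_isOpen.measurableSet, Cmd_null (1 / 6), Cmd_null (1 / 3)] with
    x d1 d2 e1 e2 hx hn1 hn2
  have n1 := pos_near (Cmd_bm_pos hb) hx
  have n2 := pos_near (Cmd_bm_pos hb') (Cmd_rho_U hx)
  have a1 := q_nonneg n1 (1, 0)
  have a2 := q_nonneg n1 (0, 1)
  have a3 := q_nonneg n2 (1, 0)
  have a4 := q_nonneg n2 (0, 1)
  have cont2 : Continuous (fun y : ℝ × ℝ => y.2) := continuous_snd
  rcases lt_or_gt_of_ne hn1 with h1 | h1
  · left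
    have hE : Cmd_H L Hb Hb' =ᶠ[𝓝 x] Hb := by
      have : ∀ᶠ y : ℝ × ℝ in 𝓝 x, y.2 < 1 / 6 := cont2.continuousAt.eventually_lt_const h1
      filter_upwards [this] with y hy
      unfold Cmd_H
      rw [Cmd_c1_one hL (by linarith), Cmd_c2_zero hy.le, one_smul, zero_smul, add_zero]
    rw [Cmd_pd_congr hE, Cmd_pd_congr hE]
    linarith
  rcases lt_or_gt_of_ne hn2 with h2 | h2
  · right
    exact ⟨Cmd_mid1 hb hb' hk hL hx h1 h2 d1 d2 e1 e2,
      Cmd_mid2 hb hb' hk hS hLd hx h1 h2 d1 d2 e1 e2⟩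
  · left
    have hE : Cmd_H L Hb Hb' =ᶠ[𝓝 x] fun y => Hb' (Cmd_rho y) := by
      have : ∀ᶠ y : ℝ × ℝ in 𝓝 x, 1 / 3 < y.2 := cont2.continuousAt.eventually_const_lt h2
      filter_upwards [this] with y hy
      unfold Cmd_H
      rw [Cmd_c1_zero hy.le, Cmd_c2_one hL (by linarith), one_smul, zero_smul, zero_add]
    rw [Cmd_pd_congr hE, Cmd_pd_congr hE, Cmd_rho_q1, Cmd_rho_q2]
    linarith

private theorem Cmd_vol : (volume : Measure (ℝ × ℝ)).real U = 1 / 2 := by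
  unfold U
  rw [Measure.real, Measure.volume_eq_prod, Measure.prod_prod, Real.volume_Ioo, Real.volume_Ioo]
  simp

private theorem Cmd_vol_ne : (volume : Measure (ℝ × ℝ)) U ≠ ⊤ := by
  unfold U
  rw [Measure.volume_eq_prod, Measure.prod_prod, Real.volume_Ioo, Real.volume_Ioo]
  exact ENNReal.mul_ne_top ENNReal.ofReal_ne_top ENNReal.ofReal_ne_top

private theorem Cmd_cint (c : ℝ) : IntegrableOn (fun _ : ℝ × ℝ => c) U :=
  integrableOn_const Cmd_vol_ne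

private theorem Cmd_int3 {F G : ℝ × ℝ → ℝ} (hF : IntegrableOn F U)
    (hG : IntegrableOn (fun x => G (Cmd_rho x)) U) (a c : ℝ) :
    ∫ z in U, (a * (F z + G (Cmd_rho z)) + c) =
      a * ((∫ z in U, F z) + ∫ z in U, G z) + 1 / 2 * c := by
  have h1 : IntegrableOn (fun z => F z + G (Cmd_rho z)) U := hF.add hG
  rw [integral_add (h1.const_mul a) (Cmd_cint c), integral_const_mul, integral_add hF hG,
    setIntegral_const, Cmd_vol, smul_eq_mul, Cmd_rho_integral]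

private theorem Cmd_cl (hb : BM A C ka R S0 Hb)
    (hb' : BM B C ka R S0 Hb') (hk : 0 < ka) (hS : 0 ≤ S0) {L : ℝ}
    (hLd : L = 2 * ka * (S0 + 1)) : Cl A B C (Cmd_H L Hb Hb') := by
  have hL : 0 < L := by rw [hLd]; positivity
  have hpos := Cmd_H_pos hL hb hb'
  have hlz := Cmd_H_lz hL hb hb'
  refine ⟨hpos, hlz, ?_, ?_, ?_, ?_⟩
  · intro v hv
    unfold Cmd_H
    have h1 := hb.glC v ⟨hv.1, hv.2.le⟩
    have h2 := hb'.glC (1 / 2 - v) ⟨by linarith [hv.2], by linarith [hv.1]⟩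
    have h3 : Cmd_rho (1, v) = (1, 1 / 2 - v) := rfl
    have h4 : Cmd_rho (0, v) = (0, 1 / 2 - v) := rfl
    have h5 : ∀ a b, Cmd_c L a b (1, v) = Cmd_c L a b (0, v) := fun a b => rfl
    rw [h3, h4, h5, h5, h1, h2, Matrix.mul_add, Matrix.add_mul, Matrix.mul_smul, Matrix.mul_smul,
      Matrix.smul_mul, Matrix.smul_mul]
  · intro u hu
    have h1 : ∀ u, Cmd_H L Hb Hb' (u, 0) = Hb (u, 0) := by
      intro u
      unfold Cmd_H
      rw [Cmd_c1_one hL (by norm_num), Cmd_c2_zero (by norm_num), one_smul, zero_smul, add_zero]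
    rw [h1, h1]
    exact hb.glA u hu
  · intro u hu
    have h1 : ∀ u, Cmd_H L Hb Hb' (u, 1 / 2) = Hb' (u, 0) := by
      intro u
      unfold Cmd_H
      rw [Cmd_c1_zero (by norm_num), Cmd_c2_one hL (by norm_num), one_smul, zero_smul, zero_add]
      unfold Cmd_rho
      norm_num
    rw [h1, h1]
    exact hb'.glA u hu
  · have hI : IntegrableOn (fun x => ((q (1, 0) (1, 0) Hb x + q (0, 1) (0, 1) Hb x) +
        (q (1, 0) (1, 0) Hb' (Cmd_rho x) + q (0, 1) (0, 1) Hb' (Cmd_rho x))) +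
        (20 * m ^ 2 * (ka * Real.exp (-2 * S0)) + 5 * m ^ 2 * (36 * (L + 1)) ^ 2)) U :=
      (hb.int.add (Cmd_rho_integrable hb'.int)).add (Cmd_cint _)
    refine hI.mono' ((q_meas hlz hpos _ _).add (q_meas hlz hpos _ _)) ?_
    filter_upwards [Cmd_ae hb hb' hk hS hLd, ae_restrict_mem Mea_isOpen.measurableSet] with x h hx
    have n0 := pos_near hpos hx
    have n1 := pos_near (Cmd_bm_pos hb) hx
    have n2 := pos_near (Cmd_bm_pos hb') (Cmd_rho_U hx)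
    have a1 := q_nonneg n1 (1, 0)
    have a2 := q_nonneg n1 (0, 1)
    have a3 := q_nonneg n2 (1, 0)
    have a4 := q_nonneg n2 (0, 1)
    have a5 := q_nonneg n0 (1, 0)
    have a6 := q_nonneg n0 (0, 1)
    have b1 : 0 ≤ 20 * (m:ℝ) ^ 2 * (ka * Real.exp (-2 * S0)) := by positivity
    have b2 : 0 ≤ 5 * (m:ℝ) ^ 2 * (36 * (L + 1)) ^ 2 := by positivity
    rw [Real.norm_of_nonneg (by linarith)]
    rcases h with h | ⟨h, h'⟩ <;> linarith

end

private theorem Cmd_num2 {x y Q1 Q2 Q3 F M1 M2 : ℝ} (hx : |x| ≤ 1 / 2) (hy : 1 ≤ y)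
    (a5 : 0 ≤ Q1) (a6 : 0 ≤ Q2) (a7 : |Q3| ≤ (Q1 + Q2) / 2) (hF : 0 ≤ F) (b1 : 0 ≤ M1)
    (b2 : 0 ≤ M2) (h : Q1 + Q2 ≤ F ∨ (Q1 ≤ M1 ∧ Q2 ≤ M2)) :
    (x ^ 2 + y ^ 2) / y * Q1 + 2 * (-x / y) * Q3 + 1 / y * Q2 ≤
      2 * y * F + (2 * y * M1 + 2 / y * M2) := by
  have hy0 : 0 < y := by linarith
  have hx2 : x ^ 2 ≤ 1 / 4 := by
    have := abs_le.1 hx
    nlinarith [this.1, this.2]
  have c1 : (x ^ 2 + y ^ 2) / y * Q1 + 2 * (-x / y) * Q3 + 1 / y * Q2 ≤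
      2 * y * Q1 + 2 / y * Q2 := by
    have e1 : (x ^ 2 + y ^ 2) / y * Q1 + 2 * (-x / y) * Q3 + 1 / y * Q2 =
        ((x ^ 2 + y ^ 2) * Q1 - 2 * x * Q3 + Q2) / y := by
      field_simp
      ring
    have e2 : 2 * y * Q1 + 2 / y * Q2 = (2 * y ^ 2 * Q1 + 2 * Q2) / y := by
      field_simp
    rw [e1, e2]
    apply div_le_div_of_nonneg_right _ hy0.le
    have f1 : -(2 * x * Q3) ≤ (Q1 + Q2) / 2 := by
      calc -(2 * x * Q3) ≤ |2 * x * Q3| := neg_le_abs _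
        _ = 2 * |x| * |Q3| := by rw [abs_mul, abs_mul, abs_two]
        _ ≤ 1 * |Q3| := by
            apply mul_le_mul_of_nonneg_right _ (abs_nonneg _)
            linarith
        _ ≤ (Q1 + Q2) / 2 := by rw [one_mul]; exact a7
    have f2 : 1 ≤ y ^ 2 := by nlinarith
    have f3 : x ^ 2 * Q1 ≤ 1 / 4 * Q1 := mul_le_mul_of_nonneg_right hx2 a5
    have f4 : 3 / 4 * Q1 ≤ y ^ 2 * Q1 := mul_le_mul_of_nonneg_right (by linarith) a5
    nlinarith
  refine c1.trans ?_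
  have hyi : 2 / y ≤ 2 * y := by
    rw [div_le_iff₀ hy0]
    nlinarith
  have hyp : 0 < 2 / y := by positivity
  rcases h with h | ⟨h, h'⟩
  · have g1 : 2 * y * Q1 + 2 / y * Q2 ≤ 2 * y * (Q1 + Q2) := by nlinarith
    have g2 : 2 * y * (Q1 + Q2) ≤ 2 * y * F := mul_le_mul_of_nonneg_left h (by positivity)
    have g3 : 0 ≤ 2 * y * M1 + 2 / y * M2 := by positivity
    linarith
  · have g1 : 2 * y * Q1 ≤ 2 * y * M1 := mul_le_mul_of_nonneg_left h (by positivity)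
    have g2 : 2 / y * Q2 ≤ 2 / y * M2 := mul_le_mul_of_nonneg_left h' hyp.le
    have g3 : 0 ≤ 2 * y * F := by positivity
    linarith

set_option maxHeartbeats 4000000 in
theorem mid_metric {m : ℕ} {A B C : Mt m} (hAC : Ctr A C) (hBC : Ctr B C) :
    ∃ K : ℝ, 0 < K ∧ ∀ R S0 : ℝ, 2 ≤ R → 0 ≤ S0 → ∃ H : ℝ × ℝ → Mt m, Cl A B C H ∧
      ∀ x y : ℝ, |x| ≤ 1/2 → 1 ≤ y → Et x y H ≤
        K * (y * (R * Real.exp (-2 * S0) + 1 / R) + y * Real.exp (-2 * S0) +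
          (S0 + 1) ^ 2 / y) := by
  obtain ⟨k1, hk1, hB1⟩ := bottom hAC
  obtain ⟨k2, hk2, hB2⟩ := bottom hBC
  set ka := max k1 k2 with hka
  have hk : 0 < ka := lt_of_lt_of_le hk1 (le_max_left _ _)
  refine ⟨4 * ka + 40 * m ^ 2 * ka + 12960 * m ^ 2 * (2 * ka + 1) ^ 2, by positivity,
    fun R S0 hR hS => ?_⟩
  obtain ⟨Hb, hb0⟩ := hB1 R S0 hR hS
  obtain ⟨Hb', hb0'⟩ := hB2 R S0 hR hS
  have hb : BM A C ka R S0 Hb := Cmd_bm_mono hb0 (le_max_left _ _) (by linarith) hS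
  have hb' : BM B C ka R S0 Hb' := Cmd_bm_mono hb0' (le_max_right _ _) (by linarith) hS
  obtain ⟨L, hLd⟩ : ∃ L, L = 2 * ka * (S0 + 1) := ⟨_, rfl⟩
  have hL : 0 < L := by rw [hLd]; positivity
  have hcl : Cl A B C (Cmd_H L Hb Hb') := Cmd_cl hb hb' hk hS hLd
  refine ⟨Cmd_H L Hb Hb', hcl, fun x y hx hy => ?_⟩
  have hy0 : 0 < y := by linarith
  set M1 : ℝ := 20 * m ^ 2 * (ka * Real.exp (-2 * S0)) with hM1
  set M2 : ℝ := 5 * m ^ 2 * (36 * (L + 1)) ^ 2 with hM2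
  have b1 : 0 ≤ M1 := by positivity
  have b2 : 0 ≤ M2 := by positivity
  have hI1 : IntegrableOn (fun x => (q (1, 0) (1, 0) Hb x + q (0, 1) (0, 1) Hb x) +
        (q (1, 0) (1, 0) Hb' (Cmd_rho x) + q (0, 1) (0, 1) Hb' (Cmd_rho x))) U :=
    hb.int.add (Cmd_rho_integrable hb'.int)
  have hI : IntegrableOn (fun x => 2 * y * ((q (1, 0) (1, 0) Hb x + q (0, 1) (0, 1) Hb x) +
        (q (1, 0) (1, 0) Hb' (Cmd_rho x) + q (0, 1) (0, 1) Hb' (Cmd_rho x))) +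
        (2 * y * M1 + 2 / y * M2)) U :=
    (hI1.const_mul _).add (Cmd_cint _)
  have hle : Et x y (Cmd_H L Hb Hb') ≤
      ∫ z in U, (2 * y * ((q (1, 0) (1, 0) Hb z + q (0, 1) (0, 1) Hb z) +
        (q (1, 0) (1, 0) Hb' (Cmd_rho z) + q (0, 1) (0, 1) Hb' (Cmd_rho z))) +
        (2 * y * M1 + 2 / y * M2)) := by
    unfold Et En
    refine setIntegral_mono_ae_restrict (qc_int hcl _ _ _) hI ?_
    filter_upwards [Cmd_ae hb hb' hk hS hLd, ae_restrict_mem Mea_isOpen.measurableSet] with z h hz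
    have n0 := pos_near hcl.pos hz
    have n1 := pos_near (Cmd_bm_pos hb) hz
    have n2 := pos_near (Cmd_bm_pos hb') (Cmd_rho_U hz)
    have a1 := q_nonneg n1 (1, 0)
    have a2 := q_nonneg n1 (0, 1)
    have a3 := q_nonneg n2 (1, 0)
    have a4 := q_nonneg n2 (0, 1)
    have a5 := q_nonneg n0 (1, 0)
    have a6 := q_nonneg n0 (0, 1)
    have a7 := q_abs n0 (1, 0) (0, 1)
    exact Cmd_num2 hx hy a5 a6 a7 (add_nonneg (add_nonneg a1 a2) (add_nonneg a3 a4)) b1 b2 h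
  refine hle.trans ?_
  have hint : ∫ z in U, (2 * y * ((q (1, 0) (1, 0) Hb z + q (0, 1) (0, 1) Hb z) +
        (q (1, 0) (1, 0) Hb' (Cmd_rho z) + q (0, 1) (0, 1) Hb' (Cmd_rho z))) +
        (2 * y * M1 + 2 / y * M2)) =
      2 * y * ((∫ z in U, (q (1, 0) (1, 0) Hb z + q (0, 1) (0, 1) Hb z)) +
        ∫ z in U, (q (1, 0) (1, 0) Hb' z + q (0, 1) (0, 1) Hb' z)) +
        1 / 2 * (2 * y * M1 + 2 / y * M2) := by
    exact Cmd_int3 (F := fun z => q (1, 0) (1, 0) Hb z + q (0, 1) (0, 1) Hb z)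
      (G := fun z => q (1, 0) (1, 0) Hb' z + q (0, 1) (0, 1) Hb' z) hb.int
      (Cmd_rho_integrable hb'.int) _ _
  rw [hint]
  have l1 := hb.le
  have l2 := hb'.le
  have w1 : 0 ≤ R * Real.exp (-2 * S0) + 1 / R := by positivity
  have w2 : 0 ≤ Real.exp (-2 * S0) := (Real.exp_pos _).le
  have w3 : L + 1 ≤ (2 * ka + 1) * (S0 + 1) := by rw [hLd]; nlinarith
  have w4 : (L + 1) ^ 2 ≤ (2 * ka + 1) ^ 2 * (S0 + 1) ^ 2 := by
    rw [← mul_pow]
    exact pow_le_pow_left₀ (by positivity) w3 2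
  have s1 : 2 * y * ((∫ z in U, (q (1, 0) (1, 0) Hb z + q (0, 1) (0, 1) Hb z)) +
        ∫ z in U, (q (1, 0) (1, 0) Hb' z + q (0, 1) (0, 1) Hb' z)) ≤
      4 * ka * (y * (R * Real.exp (-2 * S0) + 1 / R)) := by
    calc _ ≤ 2 * y * (ka * (R * Real.exp (-2 * S0) + 1 / R) +
          ka * (R * Real.exp (-2 * S0) + 1 / R)) :=
          mul_le_mul_of_nonneg_left (add_le_add l1 l2) (by positivity)
      _ = _ := by ring
  have s2 : 1 / 2 * (2 * y * M1) ≤ 40 * m ^ 2 * ka * (y * Real.exp (-2 * S0)) := by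
    rw [hM1]
    have : 0 ≤ (m:ℝ) ^ 2 * ka * (y * Real.exp (-2 * S0)) := by positivity
    nlinarith
  have s3 : 1 / 2 * (2 / y * M2) ≤ 12960 * m ^ 2 * (2 * ka + 1) ^ 2 * ((S0 + 1) ^ 2 / y) := by
    have e1 : 1 / 2 * (2 / y * M2) = 6480 * m ^ 2 * (L + 1) ^ 2 / y := by
      rw [hM2]
      field_simp
      ring
    have e2 : 12960 * (m:ℝ) ^ 2 * (2 * ka + 1) ^ 2 * ((S0 + 1) ^ 2 / y) =
        12960 * m ^ 2 * ((2 * ka + 1) ^ 2 * (S0 + 1) ^ 2) / y := by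
      field_simp
    rw [e1, e2]
    apply div_le_div_of_nonneg_right _ hy0.le
    have g1 : (m:ℝ) ^ 2 * (L + 1) ^ 2 ≤ m ^ 2 * ((2 * ka + 1) ^ 2 * (S0 + 1) ^ 2) :=
      mul_le_mul_of_nonneg_left w4 (by positivity)
    have g2 : 0 ≤ (m:ℝ) ^ 2 * (L + 1) ^ 2 := by positivity
    nlinarith
  set a1 := y * (R * Real.exp (-2 * S0) + 1 / R) with ha1
  set a2 := y * Real.exp (-2 * S0) with ha2
  set a3 := (S0 + 1) ^ 2 / y with ha3
  have p1 : 0 ≤ a1 := by positivity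
  have p2 : 0 ≤ a2 := by positivity
  have p3 : 0 ≤ a3 := by positivity
  have q1 : 0 ≤ 4 * ka := by positivity
  have q2 : 0 ≤ 40 * (m:ℝ) ^ 2 * ka := by positivity
  have q3 : 0 ≤ 12960 * (m:ℝ) ^ 2 * (2 * ka + 1) ^ 2 := by positivity
  calc _ ≤ 4 * ka * a1 + 40 * m ^ 2 * ka * a2 + 12960 * m ^ 2 * (2 * ka + 1) ^ 2 * a3 := by
        linarith
    _ ≤ (4 * ka + 40 * m ^ 2 * ka + 12960 * m ^ 2 * (2 * ka + 1) ^ 2) * (a1 + a2 + a3) := by
        nlinarith [mul_nonneg q1 p2, mul_nonneg q1 p3, mul_nonneg q2 p1, mul_nonneg q2 p3,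
          mul_nonneg q3 p1, mul_nonneg q3 p2]

end H80HM
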