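import Pool.Agent.H80.HM.Def4

set_option autoImplicit false

/-!
# Row Cub: groups in which the images of all primitive elements have order dividing 2 or 3 are finite

Q a group, f : FreeGroup (Fin n) -> Q, every sigma(of i) (sigma automorphism) has f(sigma(of i))^m = 1, m = 2 or 3. Then the range of f is finite.
m = 2: x_i = f(of i), x_i^2 = 1, and of i * of j (i <> j) is the image of of i under an automorphism, so (x_i x_j)^2 = 1, x_i x_j = x_j x_i: the range is generated by finitely many commuting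
  elements of order 2, finite.
m = 3: claim for j <= n: H_j = subgroup generated by x_i, i < j, is finite and g^3 = 1 for all g in H_j. j = 0 trivial. Step: x = x_j, H = H_j. For h in H, h = f(w), w in the subgroup generated by
  the of i, i < j: of j * w is the image of of j under the automorphism of j -> of j * w, others fixed (inverse of j -> of j * w^{-1}), and w * (of j)... likewise; so (x h)^3 = 1, and
  (h^{-1} x)^3 = 1 from of j -> w^{-1} * of j, whose inverse is (x^{-1} h)^3 = 1. 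
  (a) x commutes with h x h^{-1}: from (x h)^3 = 1 and h^3 = 1: x (h x h^{-1}) (h^2 x h^{-2}) = 1; from (x^{-1} h)^3 = 1: x^{-1} (h x^{-1} h^{-1}) (h^2 x^{-1} h^{-2}) = 1, so inverting:
     (h^2 x h^{-2}) (h x h^{-1}) x = 1. With b = h x h^{-1}, c = h^2 x h^{-2}: x b c = 1 and c b x = 1, so c = (x b)^{-1} = (b x)^{-1}, x b = b x.
  (b) N := subgroup generated by the finite set of all h x h^{-1}, h in H: any two of them commute ((a) and conjugation), each has order dividing 3: N is finite abelian of exponent 3. N is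
     normalised by H and contains x: H_{j+1} = N H, finite (product of two finite subgroups, or: finitely many products).
  (c) exponent 3: for nu in N and h in H: (nu h)^3 = nu (h nu h^{-1}) (h^2 nu h^{-2}) (h^3 = 1). The map nu -> nu (h nu h^{-1}) (h^2 nu h^{-2}) is a homomorphism of the abelian group N; on a
     generator nu = g x g^{-1}: (nu h)^3 = g (x g^{-1} h g)^3 g^{-1} = 1 since g^{-1} h g in H. So it is trivial.
-/

namespace H80HM

private theorem Cub_comm {Q : Type} [Group Q] {S : Set Q} (hc : ∀ x ∈ S, ∀ y ∈ S, x * y = y * x) :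
    ∀ x ∈ Subgroup.closure S, ∀ y ∈ Subgroup.closure S, x * y = y * x := by
  have h := Subgroup.isMulCommutative_closure hc
  intro x hx y hy
  exact congrArg Subtype.val (h.is_comm.comm ⟨x, hx⟩ ⟨y, hy⟩)

private theorem Cub_pow {Q : Type} [Group Q] {S : Set Q} {m : ℕ}
    (hc : ∀ x ∈ S, ∀ y ∈ S, x * y = y * x) (ht : ∀ x ∈ S, x ^ m = 1) :
    ∀ x ∈ Subgroup.closure S, x ^ m = 1 := by
  intro x hx
  induction hx using Subgroup.closure_induction with
  | mem x hx => exact ht x hx
  | one => exact one_pow m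
  | mul x y hx hy h1 h2 =>
    have hcm : Commute x y := Cub_comm hc x hx y hy
    rw [hcm.mul_pow, h1, h2, one_mul]
  | inv x hx h1 => rw [inv_pow, h1, inv_one]

private theorem Cub_fin {Q : Type} [Group Q] {S : Set Q} (hS : S.Finite) {m : ℕ} (hm : 0 < m)
    (hc : ∀ x ∈ S, ∀ y ∈ S, x * y = y * x) (ht : ∀ x ∈ S, x ^ m = 1) :
    ((Subgroup.closure S : Subgroup Q) : Set Q).Finite := by
  let _ : CommGroup (Subgroup.closure S) :=
    { (inferInstance : Group (Subgroup.closure S)) with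
      mul_comm := fun a b => Subtype.ext (Cub_comm hc a.1 a.2 b.1 b.2) }
  have : Finite S := hS
  have : Group.FG (Subgroup.closure S) := Group.closure_finite_fg S
  have hfin : Finite (Subgroup.closure S) := by
    apply CommGroup.finite_of_fg_isMulTorsion
    intro g
    refine isOfFinOrder_iff_pow_eq_one.2 ⟨m, hm, ?_⟩
    exact Subtype.ext (Cub_pow hc ht g.1 g.2)
  exact Set.toFinite _

private theorem Cub_p3 {Q : Type} [Group Q] (a : Q) : a ^ 3 = a * a * a := by
  rw [pow_succ, pow_two]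

private theorem Cub_step2 {Q : Type} [Group Q] (H : Subgroup Q) (hf : (H : Set Q).Finite)
    (hH : ∀ g ∈ H, g ^ 2 = 1) (x : Q) (hx : ∀ h ∈ H, (x * h) ^ 2 = 1) :
    ((Subgroup.zpowers x ⊔ H : Subgroup Q) : Set Q).Finite ∧
      ∀ g ∈ Subgroup.zpowers x ⊔ H, g ^ 2 = 1 := by
  have hx2 : x ^ 2 = 1 := by simpa using hx 1 H.one_mem
  have hcx : ∀ h ∈ H, x * h = h * x := by
    intro h hh
    have e1 := hx h hh
    have e2 := hH h hh
    rw [pow_two] at e1 e2
    have hx2' := hx2
    rw [pow_two] at hx2'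
    have ex : x⁻¹ = x := inv_eq_of_mul_eq_one_left hx2'
    have eh : h⁻¹ = h := inv_eq_of_mul_eq_one_left e2
    have e3 : (x * h)⁻¹ = x * h := inv_eq_of_mul_eq_one_left e1
    rw [mul_inv_rev, ex, eh] at e3
    exact e3.symm
  have hn : H ≤ Subgroup.normalizer (Subgroup.zpowers x : Set Q) := by
    rw [Subgroup.le_normalizer_iff]
    rintro h hh k hk
    obtain ⟨j, rfl⟩ := Subgroup.mem_zpowers_iff.1 hk
    have hcm : Commute h (x ^ j) := ((show Commute h x from (hcx h hh).symm).zpow_right j)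
    rw [hcm.eq, mul_inv_cancel_right]
    exact Subgroup.mem_zpowers_iff.2 ⟨j, rfl⟩
  have hcoe := Subgroup.coe_mul_of_right_le_normalizer_left (Subgroup.zpowers x) H hn
  constructor
  · rw [hcoe]
    refine Set.Finite.mul ?_ hf
    have ho : IsOfFinOrder x := isOfFinOrder_iff_pow_eq_one.2 ⟨2, two_pos, hx2⟩
    have : Finite (Subgroup.zpowers x) := ho.finite_zpowers
    exact Set.toFinite _
  · intro g hg
    have hg' : g ∈ ((Subgroup.zpowers x ⊔ H : Subgroup Q) : Set Q) := hg
    rw [hcoe] at hg'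
    obtain ⟨u, hu, h, hh, rfl⟩ := Set.mem_mul.1 hg'
    obtain ⟨j, rfl⟩ := Subgroup.mem_zpowers_iff.1 hu
    have hcm : Commute (x ^ j) h := ((show Commute x h from hcx h hh).zpow_left j)
    rw [hcm.mul_pow, hH h hh, mul_one, ← zpow_natCast, ← zpow_mul, mul_comm, zpow_mul,
      zpow_natCast, hx2, one_zpow]

private theorem Cub_step3 {Q : Type} [Group Q] (H : Subgroup Q) (hf : (H : Set Q).Finite)
    (hH : ∀ g ∈ H, g ^ 3 = 1) (x : Q) (hx : ∀ h ∈ H, (x * h) ^ 3 = 1) :
    ((Subgroup.zpowers x ⊔ H : Subgroup Q) : Set Q).Finite ∧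
      ∀ g ∈ Subgroup.zpowers x ⊔ H, g ^ 3 = 1 := by
  have hx3 : x ^ 3 = 1 := by simpa using hx 1 H.one_mem
  -- (a)
  have ha : ∀ h ∈ H, x * (h * x * h⁻¹) = (h * x * h⁻¹) * x := by
    intro h hh
    have e3 : h * h * h = 1 := by rw [← Cub_p3]; exact hH h hh
    have e1 : (x * (h * x * h⁻¹)) * (h * h * x * (h * h)⁻¹) = 1 := by
      have h0 := hx h hh
      rw [Cub_p3] at h0
      calc (x * (h * x * h⁻¹)) * (h * h * x * (h * h)⁻¹)
          = ((x * h) * (x * h) * (x * h)) * (h * h * h)⁻¹ := by group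
        _ = 1 := by rw [h0, e3, inv_one, one_mul]
    have e2 : (h * h * x * (h * h)⁻¹) * ((h * x * h⁻¹) * x) = 1 := by
      have h1 := hx (h⁻¹) (H.inv_mem hh)
      rw [Cub_p3] at h1
      calc (h * h * x * (h * h)⁻¹) * ((h * x * h⁻¹) * x)
          = (h * h * h) * (h⁻¹ * ((x * h⁻¹) * (x * h⁻¹) * (x * h⁻¹)) * h) := by group
        _ = 1 := by rw [h1, e3]; group
    have e4 : (x * (h * x * h⁻¹))⁻¹ = h * h * x * (h * h)⁻¹ := inv_eq_of_mul_eq_one_right e1
    have e5 : ((h * x * h⁻¹) * x)⁻¹ = h * h * x * (h * h)⁻¹ := inv_eq_of_mul_eq_one_left e2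
    exact inv_injective (e4.trans e5.symm)
  let S : Set Q := (fun h => h * x * h⁻¹) '' (H : Set Q)
  have hS : S.Finite := hf.image _
  have hxS : x ∈ S := ⟨1, H.one_mem, by simp⟩
  have hc : ∀ a ∈ S, ∀ b ∈ S, a * b = b * a := by
    rintro a ⟨g, hg, rfl⟩ b ⟨k, hk, rfl⟩
    have h0 := ha (g⁻¹ * k) (H.mul_mem (H.inv_mem hg) hk)
    calc (g * x * g⁻¹) * (k * x * k⁻¹)
        = g * (x * (g⁻¹ * k * x * (g⁻¹ * k)⁻¹)) * g⁻¹ := by group
      _ = g * ((g⁻¹ * k * x * (g⁻¹ * k)⁻¹) * x) * g⁻¹ := by rw [h0]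
      _ = (k * x * k⁻¹) * (g * x * g⁻¹) := by group
  have ht : ∀ a ∈ S, a ^ 3 = 1 := by
    rintro a ⟨g, hg, rfl⟩
    rw [Cub_p3] at hx3 ⊢
    calc (g * x * g⁻¹) * (g * x * g⁻¹) * (g * x * g⁻¹) = g * (x * x * x) * g⁻¹ := by group
      _ = 1 := by rw [hx3]; group
  have hNf := Cub_fin hS (by norm_num : 0 < 3) hc ht
  have hNc := Cub_comm hc
  have hn : H ≤ Subgroup.normalizer (Subgroup.closure S : Set Q) := by
    rw [Subgroup.le_normalizer_closure_iff]
    rintro h hh a ⟨g, hg, rfl⟩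
    refine Subgroup.subset_closure ⟨h * g, H.mul_mem hh hg, ?_⟩
    group
  have hn' : ∀ h ∈ H, ∀ a ∈ Subgroup.closure S, h * a * h⁻¹ ∈ Subgroup.closure S :=
    Subgroup.le_normalizer_iff.1 hn
  have hcoe := Subgroup.coe_mul_of_right_le_normalizer_left (Subgroup.closure S) H hn
  have hle : Subgroup.zpowers x ⊔ H ≤ Subgroup.closure S ⊔ H :=
    sup_le_sup_right (Subgroup.zpowers_le.2 (Subgroup.subset_closure hxS)) H
  -- (c)
  have hc3 : ∀ h ∈ H, ∀ u ∈ Subgroup.closure S,
      u * (h * u * h⁻¹) * (h * h * u * (h * h)⁻¹) = 1 := by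
    intro h hh u hu
    induction hu using Subgroup.closure_induction with
    | mem u hu =>
      obtain ⟨g, hg, rfl⟩ := hu
      have h0 := hx (g⁻¹ * h * g) (H.mul_mem (H.mul_mem (H.inv_mem hg) hh) hg)
      have e3 : h * h * h = 1 := by rw [← Cub_p3]; exact hH h hh
      rw [Cub_p3] at h0
      calc (g * x * g⁻¹) * (h * (g * x * g⁻¹) * h⁻¹) * (h * h * (g * x * g⁻¹) * (h * h)⁻¹)
          = g * ((x * (g⁻¹ * h * g)) * (x * (g⁻¹ * h * g)) * (x * (g⁻¹ * h * g))) * g⁻¹
              * (h * h * h)⁻¹ := by group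
        _ = 1 := by rw [h0, e3]; group
    | one => group
    | mul u v hu hv h1 h2 =>
      have hhh : h * h ∈ H := H.mul_mem hh hh
      have c1 : v * (h * u * h⁻¹) = (h * u * h⁻¹) * v := hNc _ hv _ (hn' h hh u hu)
      have c2 : (v * (h * v * h⁻¹)) * (h * h * u * (h * h)⁻¹)
          = (h * h * u * (h * h)⁻¹) * (v * (h * v * h⁻¹)) :=
        hNc _ ((Subgroup.closure S).mul_mem hv (hn' h hh v hv)) _ (hn' _ hhh u hu)
      calc u * v * (h * (u * v) * h⁻¹) * (h * h * (u * v) * (h * h)⁻¹)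
          = u * (v * (h * u * h⁻¹)) * (h * v * h⁻¹) * (h * h * u * (h * h)⁻¹)
              * (h * h * v * (h * h)⁻¹) := by group
        _ = u * ((h * u * h⁻¹) * v) * (h * v * h⁻¹) * (h * h * u * (h * h)⁻¹)
              * (h * h * v * (h * h)⁻¹) := by rw [c1]
        _ = u * (h * u * h⁻¹) * ((v * (h * v * h⁻¹)) * (h * h * u * (h * h)⁻¹))
              * (h * h * v * (h * h)⁻¹) := by group
        _ = u * (h * u * h⁻¹) * ((h * h * u * (h * h)⁻¹) * (v * (h * v * h⁻¹)))
              * (h * h * v * (h * h)⁻¹) := by rw [c2]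
        _ = (u * (h * u * h⁻¹) * (h * h * u * (h * h)⁻¹))
              * (v * (h * v * h⁻¹) * (h * h * v * (h * h)⁻¹)) := by group
        _ = 1 := by rw [h1, h2, one_mul]
    | inv u hu h1 =>
      have hhh : h * h ∈ H := H.mul_mem hh hh
      have c1 : u * (h * u * h⁻¹) = (h * u * h⁻¹) * u := hNc _ hu _ (hn' h hh u hu)
      have c2 : (u * (h * u * h⁻¹)) * (h * h * u * (h * h)⁻¹)
          = (h * h * u * (h * h)⁻¹) * (u * (h * u * h⁻¹)) :=
        hNc _ ((Subgroup.closure S).mul_mem hu (hn' h hh u hu)) _ (hn' _ hhh u hu)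
      rw [c2, c1] at h1
      have h2 := congrArg (fun z => z⁻¹) h1
      simp only [inv_one] at h2
      calc u⁻¹ * (h * u⁻¹ * h⁻¹) * (h * h * u⁻¹ * (h * h)⁻¹)
          = ((h * h * u * (h * h)⁻¹) * ((h * u * h⁻¹) * u))⁻¹ := by group
        _ = 1 := h2
  constructor
  · refine Set.Finite.subset ?_ (show ((Subgroup.zpowers x ⊔ H : Subgroup Q) : Set Q) ⊆
      ((Subgroup.closure S ⊔ H : Subgroup Q) : Set Q) from hle)
    rw [hcoe]
    exact Set.Finite.mul hNf hf
  · intro g hg
    have hg' : g ∈ ((Subgroup.closure S ⊔ H : Subgroup Q) : Set Q) := hle hg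
    rw [hcoe] at hg'
    obtain ⟨u, hu, h, hh, rfl⟩ := Set.mem_mul.1 hg'
    have e3 : h * h * h = 1 := by rw [← Cub_p3]; exact hH h hh
    rw [Cub_p3]
    calc (u * h) * (u * h) * (u * h)
        = (u * (h * u * h⁻¹) * (h * h * u * (h * h)⁻¹)) * (h * h * h) := by group
      _ = 1 := by rw [hc3 h hh u hu, e3, one_mul]

private theorem Cub_aut {n : ℕ} (j : Fin n) (w : FreeGroup (Fin n))
    (hw : w ∈ Subgroup.closure (FreeGroup.of '' {i : Fin n | i < j})) :
    ∃ sigma : FreeGroup (Fin n) ≃* FreeGroup (Fin n),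
      sigma (FreeGroup.of j) = FreeGroup.of j * w := by
  classical
  let s : FreeGroup (Fin n) → (FreeGroup (Fin n) →* FreeGroup (Fin n)) := fun u =>
    FreeGroup.lift fun i => if i = j then FreeGroup.of j * u else FreeGroup.of i
  have hs1 : ∀ u, s u (FreeGroup.of j) = FreeGroup.of j * u := by
    intro u; simp [s]
  have hs2 : ∀ u i, i ≠ j → s u (FreeGroup.of i) = FreeGroup.of i := by
    intro u i hi; simp [s, hi]
  have hs3 : ∀ u, ∀ v ∈ Subgroup.closure (FreeGroup.of '' {i : Fin n | i < j}), s u v = v := by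
    intro u v hv
    induction hv using Subgroup.closure_induction with
    | mem v hv =>
      obtain ⟨i, hi, rfl⟩ := hv
      exact hs2 u i (ne_of_lt hi)
    | one => exact map_one _
    | mul a b _ _ h1 h2 => rw [map_mul, h1, h2]
    | inv a _ h1 => rw [map_inv, h1]
  have hcomp : ∀ u ∈ Subgroup.closure (FreeGroup.of '' {i : Fin n | i < j}),
      (s u).comp (s u⁻¹) = MonoidHom.id _ := by
    intro u hu
    ext i
    by_cases hi : i = j
    · subst hi
      rw [MonoidHom.comp_apply, hs1, map_mul, hs1, map_inv, hs3 u u hu, mul_inv_cancel_right]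
      rfl
    · rw [MonoidHom.comp_apply, hs2 _ _ hi, hs2 _ _ hi]
      rfl
  have hw' := (Subgroup.closure (FreeGroup.of '' {i : Fin n | i < j})).inv_mem hw
  have h1 := hcomp w hw
  have h2 := hcomp w⁻¹ hw'
  rw [inv_inv] at h2
  exact ⟨MonoidHom.toMulEquiv (s w) (s w⁻¹) h2 h1, hs1 w⟩

private theorem Cub_main {n : ℕ} {m : ℕ} {Q : Type} [Group Q] (f : FreeGroup (Fin n) →* Q)
    (hm : m = 2 ∨ m = 3)
    (h : ∀ (sigma : FreeGroup (Fin n) ≃* FreeGroup (Fin n)) (i : Fin n),
      f (sigma (FreeGroup.of i)) ^ m = 1) (k : ℕ) (hk : k ≤ n) :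
    ((Subgroup.closure (f ∘ FreeGroup.of '' {i : Fin n | i.val < k}) : Subgroup Q) : Set Q).Finite ∧
      ∀ g ∈ Subgroup.closure (f ∘ FreeGroup.of '' {i : Fin n | i.val < k}), g ^ m = 1 := by
  induction k with
  | zero =>
    have : (f ∘ FreeGroup.of '' {i : Fin n | i.val < 0}) = (∅ : Set Q) := by simp
    rw [this, Subgroup.closure_empty]
    refine ⟨by simp, ?_⟩
    intro g hg
    rw [Subgroup.mem_bot.1 hg, one_pow]
  | succ k ih =>
    obtain ⟨h1, h2⟩ := ih (by omega)
    let j : Fin n := ⟨k, by omega⟩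
    have hset : (f ∘ FreeGroup.of '' {i : Fin n | i.val < k + 1})
        = {f (FreeGroup.of j)} ∪ (f ∘ FreeGroup.of '' {i : Fin n | i.val < k}) := by
      have : {i : Fin n | i.val < k + 1} = {j} ∪ {i : Fin n | i.val < k} := by
        ext i
        simp only [Set.mem_ofPred_eq, Set.mem_union, Set.mem_singleton_iff, Fin.ext_iff, j]
        omega
      rw [this, Set.image_union, Set.image_singleton]
      rfl
    have hsup : Subgroup.closure (f ∘ FreeGroup.of '' {i : Fin n | i.val < k + 1})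
        = Subgroup.zpowers (f (FreeGroup.of j)) ⊔
          Subgroup.closure (f ∘ FreeGroup.of '' {i : Fin n | i.val < k}) := by
      rw [hset, Subgroup.closure_union, Subgroup.zpowers_eq_closure]
    have hmap : Subgroup.closure (f ∘ FreeGroup.of '' {i : Fin n | i.val < k})
        = (Subgroup.closure (FreeGroup.of '' {i : Fin n | i < j})).map f := by
      rw [MonoidHom.map_closure, Set.image_comp]
      rfl
    have hx : ∀ g ∈ Subgroup.closure (f ∘ FreeGroup.of '' {i : Fin n | i.val < k}),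
        (f (FreeGroup.of j) * g) ^ m = 1 := by
      intro g hg
      rw [hmap] at hg
      obtain ⟨w, hw, rfl⟩ := hg
      obtain ⟨sg, hsg⟩ := Cub_aut j w hw
      rw [← map_mul, ← hsg]
      exact h sg j
    rw [hsup]
    rcases hm with rfl | rfl
    · exact Cub_step2 _ h1 h2 _ hx
    · exact Cub_step3 _ h1 h2 _ hx

theorem cube {n m : ℕ} {Q : Type} [Group Q] (f : FreeGroup (Fin n) →* Q) (hm : m = 2 ∨ m = 3)
    (h : ∀ (sigma : FreeGroup (Fin n) ≃* FreeGroup (Fin n)) (i : Fin n),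
      f (sigma (FreeGroup.of i)) ^ m = 1) : (Set.range f).Finite := by
  obtain ⟨h1, -⟩ := Cub_main f hm h n le_rfl
  refine h1.subset ?_
  rintro _ ⟨u, rfl⟩
  have hu : u ∈ Subgroup.closure (Set.range (FreeGroup.of : Fin n → FreeGroup (Fin n))) := by
    rw [FreeGroup.closure_range_of]; trivial
  have hset : {i : Fin n | i.val < n} = Set.univ := by
    ext i; simp [i.2]
  rw [hset, Set.image_comp, Set.image_univ, ← MonoidHom.map_closure]
  exact ⟨u, hu, rfl⟩

end H80HM
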