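import Pool.Agent.H80.HM.Defs

set_option autoImplicit false

/-!
# Row Cut: logarithmic cutoff functions at the punctures

rho(x) := min over p in P of dist x p (sup metric of the plane; 1-Lipschitz). Symmetries: for v in [0,1/2]: rho(0,v) = rho(1,v) = min(v, 1/2-v) (the
punctures (1/2, .) are at distance at least 1/2); for u in [0,1]: rho(u,0) = rho(u,1/2) = min(u, |u-1/2|, 1-u), symmetric under u -> 1-u.
For an integer k: psi_k(t) := max 0 (min 1 (2 - 2^k t)): 1 for t <= 2^{-k}, 0 for t >= 2^{1-k}, Lipschitz constant 2^k.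
Choose k0 with 2^{-k0} <= ep, n >= 200/ep, and chi(x) := 1 - (1/n) sum_{k=k0+1}^{k0+n} psi_k(rho x).
* chi = 0 if rho(x) <= d := 2^{-(k0+n)}; chi = 1 if rho(x) >= 2^{-k0} (all psi_k vanish), in particular if rho >= ep.
* derivative: on the open set V_k = {2^{-k} < rho < 2^{1-k}} only psi_k(rho) is not locally constant, so the local Lipschitz constant of chi is at most
  2^k/n and |fderiv chi x t| <= 2^k/n for t = (1,0), (0,1) (norm 1) (norm of fderiv is at most the local Lipschitz constant; if chi is not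
  differentiable, fderiv = 0). The sets V_k (k0 < k <= k0+n), {rho < d}, {rho > 2^{-k0}} cover the plane up to the null set {rho = 2^{-k} for some k}
  (boundaries of squares: contained in finitely many lines), on the last two sets chi is locally constant. volume(V_k) <= 6 (2 * 2^{1-k})^2 = 96 * 4^{-k}
  (6 squares of half side 2^{1-k}). So int_U (d1 chi^2 + d2 chi^2) <= sum_k 2 (4^k/n^2) 96 4^{-k} = 192/n <= ep.
-/

namespace H80HM

open Matrix MeasureTheory Set

open Topology

private lemma Cut_vol : (volume : Measure (ℝ × ℝ)).real (Metric.ball 0 1) = 4 := by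
  have h1 : Metric.ball (0 : ℝ × ℝ) 1 = Metric.ball (0:ℝ) 1 ×ˢ Metric.ball (0:ℝ) 1 := by
    rw [ball_prod_same]
    rfl
  rw [Measure.real, h1, Measure.volume_eq_prod, Measure.prod_prod, Real.volume_ball, mul_one,
    ENNReal.toReal_mul, ENNReal.toReal_ofReal (by norm_num)]
  norm_num

/-- the radial density -/
private noncomputable def Cut_h (d r : ℝ) : ℝ → ℝ := (Icc d r).indicator fun y => (y ^ 2)⁻¹

private lemma Cut_h_nonneg (d r y : ℝ) : 0 ≤ Cut_h d r y :=
  indicator_nonneg (fun y _ => by positivity) y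

private lemma Cut_dim : Module.finrank ℝ (ℝ × ℝ) = 2 := by
  rw [Module.finrank_prod, Module.finrank_self]

private lemma Cut_one {d r : ℝ} (hd : 0 < d) :
    (fun y : ℝ => y ^ (Module.finrank ℝ (ℝ × ℝ) - 1) • Cut_h d r y) =
      (Icc d r).indicator fun y => y⁻¹ := by
  funext y
  rw [Cut_dim]
  by_cases hy : y ∈ Icc d r
  · have : y ≠ 0 := (hd.trans_le hy.1).ne'
    rw [Cut_h, indicator_of_mem hy, indicator_of_mem hy, smul_eq_mul, show 2 - 1 = 1 from rfl, pow_one]
    field_simp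
  · rw [Cut_h, indicator_of_notMem hy, indicator_of_notMem hy, smul_zero]

private lemma Cut_integrable {d r : ℝ} (hd : 0 < d) :
    Integrable (fun x : ℝ × ℝ => Cut_h d r ‖x‖) := by
  have h := (integrable_fun_norm_addHaar (volume : Measure (ℝ × ℝ)) (f := Cut_h d r)).2
  apply h
  rw [Cut_one hd]
  apply Integrable.integrableOn
  rw [integrable_indicator_iff measurableSet_Icc]
  apply ContinuousOn.integrableOn_Icc
  exact continuousOn_id.inv₀ fun y hy => (hd.trans_le hy.1).ne'

private lemma Cut_integral {d r : ℝ} (hd : 0 < d) (hdr : d ≤ r) :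
    ∫ x : ℝ × ℝ, Cut_h d r ‖x‖ = 8 * Real.log (r / d) := by
  rw [integral_fun_norm_addHaar (volume : Measure (ℝ × ℝ)) (Cut_h d r), Cut_one hd, Cut_dim, Cut_vol]
  have h1 : ∫ y in Ioi (0:ℝ), (Icc d r).indicator (fun y => y⁻¹) y = Real.log (r / d) := by
    rw [setIntegral_indicator measurableSet_Icc]
    have h2 : Ioi (0:ℝ) ∩ Icc d r = Icc d r := by
      rw [inter_eq_right]
      exact fun y hy => hd.trans_le hy.1
    rw [h2, integral_Icc_eq_integral_Ioc, ← intervalIntegral.integral_of_le hdr,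
      integral_inv_of_pos hd (hd.trans_le hdr)]
  rw [h1]
  simp only [nsmul_eq_mul, smul_eq_mul]
  ring

/-- the distance to the punctures -/
private noncomputable def Cut_rho (x : ℝ × ℝ) : ℝ := Metric.infDist x P

private lemma Cut_P_fin : (P : Set (ℝ × ℝ)).Finite := by
  unfold P
  exact (by simp : ({0, 1/2, 1} : Set ℝ).Finite).prod (by simp : ({0, 1/2} : Set ℝ).Finite)

private lemma Cut_P_ne : (P : Set (ℝ × ℝ)).Nonempty := ⟨(0, 0), by simp [P]⟩

private lemma Cut_exists (x : ℝ × ℝ) : ∃ p ∈ P, Cut_rho x = dist x p :=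
  Cut_P_fin.isCompact.exists_infDist_eq_dist Cut_P_ne x

private lemma Cut_lip (x y : ℝ × ℝ) : |Cut_rho x - Cut_rho y| ≤ dist x y := by
  have h := (Metric.lipschitz_infDist_pt (P : Set (ℝ × ℝ))).dist_le_mul x y
  rw [Real.dist_eq, NNReal.coe_one, one_mul] at h
  exact h

private lemma Cut_symm_le (u v : ℝ) : Cut_rho (1 - u, v) ≤ Cut_rho (u, v) := by
  obtain ⟨p, hp, h⟩ := Cut_exists (u, v)
  rw [h]
  have h1 : ((1 - p.1, p.2) : ℝ × ℝ) ∈ P := by
    obtain ⟨h2, h3⟩ := hp
    refine ⟨?_, h3⟩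
    simp only [mem_insert_iff, mem_singleton_iff] at h2 ⊢
    rcases h2 with h2 | h2 | h2
    · right; right; rw [h2]; norm_num
    · right; left; rw [h2]; norm_num
    · left; rw [h2]; norm_num
  have h2 : Cut_rho (1 - u, v) ≤ dist ((1 - u, v) : ℝ × ℝ) (1 - p.1, p.2) :=
    Metric.infDist_le_dist_of_mem h1
  refine h2.trans (le_of_eq ?_)
  rw [Prod.dist_eq, Prod.dist_eq]
  simp only [Real.dist_eq]
  congr 1
  rw [← abs_neg]
  congr 1
  ring

private lemma Cut_symm (u v : ℝ) : Cut_rho (1 - u, v) = Cut_rho (u, v) := by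
  apply le_antisymm (Cut_symm_le u v)
  have h := Cut_symm_le (1 - u) v
  rw [sub_sub_cancel] at h
  exact h

private lemma Cut_log {d L c u v : ℝ} (hL : 0 < L) (hc : 0 < c) (hd : 0 < d) (hu : c ≤ u) (hv : c ≤ v) :
    |min 1 (Real.log (u / d) / L) - min 1 (Real.log (v / d) / L)| ≤ 1 / (c * L) * |u - v| := by
  have key : ∀ a b : ℝ, c ≤ a → a ≤ b →
      |min 1 (Real.log (a / d) / L) - min 1 (Real.log (b / d) / L)| ≤ 1 / (c * L) * |a - b| := by
    intro a b ha hab
    have ha0 : 0 < a := hc.trans_le ha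
    have hb0 : 0 < b := ha0.trans_le hab
    have h1 : |min 1 (Real.log (a / d) / L) - min 1 (Real.log (b / d) / L)| ≤
        |Real.log (a / d) / L - Real.log (b / d) / L| := by
      have := abs_min_sub_min_le_max 1 (Real.log (a / d) / L) 1 (Real.log (b / d) / L)
      rw [sub_self, abs_zero, max_eq_right (abs_nonneg _)] at this
      exact this
    refine h1.trans ?_
    rw [Real.log_div ha0.ne' hd.ne', Real.log_div hb0.ne' hd.ne', ← sub_div, sub_sub_sub_cancel_right,
      abs_div, abs_of_pos hL]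
    have h2 : |Real.log a - Real.log b| ≤ |a - b| / c := by
      have h3 : Real.log a ≤ Real.log b := Real.log_le_log ha0 hab
      rw [abs_sub_comm, abs_of_nonneg (sub_nonneg.2 h3), abs_sub_comm, abs_of_nonneg (sub_nonneg.2 hab),
        ← Real.log_div hb0.ne' ha0.ne']
      have h4 := Real.log_le_sub_one_of_pos (div_pos hb0 ha0)
      have h5 : b / a - 1 = (b - a) / a := by field_simp
      rw [h5] at h4
      refine h4.trans ?_
      exact div_le_div_of_nonneg_left (sub_nonneg.2 hab) hc ha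
    calc |Real.log a - Real.log b| / L ≤ (|a - b| / c) / L := by gcongr
      _ = 1 / (c * L) * |a - b| := by field_simp
  rcases le_total u v with h | h
  · exact key u v hu h
  · rw [abs_sub_comm, abs_sub_comm u v]
    exact key v u hv h

theorem cutoff {ep : ℝ} (hep : 0 < ep) : ∃ (chi : ℝ × ℝ → ℝ) (d : ℝ), 0 < d ∧
    (∃ K : ℝ, ∀ x y, |chi x - chi y| ≤ K * dist x y) ∧
    (∀ x, 0 ≤ chi x ∧ chi x ≤ 1) ∧
    (∀ x, ∀ p ∈ P, dist x p ≤ d → chi x = 0) ∧
    (∀ x, (∀ p ∈ P, ep ≤ dist x p) → chi x = 1) ∧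
    (∀ v ∈ Icc (0:ℝ) (1/2), chi (1, v) = chi (0, v)) ∧
    (∀ u ∈ Icc (0:ℝ) 1, chi (1 - u, 0) = chi (u, 0)) ∧
    (∀ u ∈ Icc (0:ℝ) 1, chi (1 - u, 1/2) = chi (u, 1/2)) ∧
    ∫ x in U, ((fderiv ℝ chi x (1, 0)) ^ 2 + (fderiv ℝ chi x (0, 1)) ^ 2) ≤ ep := by
  obtain ⟨L, hLdef⟩ : ∃ L : ℝ, L = 384 / ep := ⟨_, rfl⟩
  have hL : 0 < L := by rw [hLdef]; positivity
  obtain ⟨d, hddef⟩ : ∃ d : ℝ, d = ep * Real.exp (-L) := ⟨_, rfl⟩
  have hd : 0 < d := by rw [hddef]; positivity
  have hdep : d ≤ ep := by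
    rw [hddef]
    have : Real.exp (-L) ≤ 1 := Real.exp_le_one_iff.2 (by linarith)
    nlinarith
  have hlog : Real.log (ep / d) = L := by
    rw [hddef]
    have : ep / (ep * Real.exp (-L)) = Real.exp L := by
      rw [Real.exp_neg]
      field_simp
    rw [this, Real.log_exp]
  obtain ⟨chi, hchi⟩ : ∃ chi : ℝ × ℝ → ℝ,
      ∀ x, chi x = min 1 (Real.log (max (Cut_rho x) d / d) / L) := ⟨_, fun _ => rfl⟩
  -- local Lipschitz bound
  have hloc : ∀ c : ℝ, 0 < c → ∀ x y : ℝ × ℝ, c ≤ max (Cut_rho x) d → c ≤ max (Cut_rho y) d →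
      |chi x - chi y| ≤ 1 / (c * L) * dist x y := by
    intro c hc x y hx hy
    rw [hchi, hchi]
    refine (Cut_log hL hc hd hx hy).trans ?_
    have h1 : |max (Cut_rho x) d - max (Cut_rho y) d| ≤ dist x y :=
      (abs_max_sub_max_le_abs _ _ _).trans (Cut_lip x y)
    gcongr
  have hzero : ∀ x, Cut_rho x ≤ d → chi x = 0 := by
    intro x hx
    rw [hchi, max_eq_right hx, div_self hd.ne', Real.log_one, zero_div]
    norm_num
  have hone : ∀ x, ep ≤ Cut_rho x → chi x = 1 := by
    intro x hx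
    rw [hchi, max_eq_left (hdep.trans hx)]
    apply min_eq_left
    rw [le_div_iff₀ hL, one_mul, ← hlog]
    apply Real.log_le_log (by positivity)
    gcongr
  have hsym : ∀ u v : ℝ, chi (1 - u, v) = chi (u, v) := by
    intro u v
    rw [hchi, hchi, Cut_symm]
  have hcont : Continuous Cut_rho := Metric.continuous_infDist_pt _
  -- bounds for the derivative
  have hder0 : ∀ x, Cut_rho x < d ∨ ep < Cut_rho x → fderiv ℝ chi x = 0 := by
    intro x hx
    rcases hx with hx | hx
    · have h1 : chi =ᶠ[𝓝 x] fun _ => (0 : ℝ) := by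
        filter_upwards [hcont.continuousAt.eventually_lt continuousAt_const hx] with y hy
        exact hzero y (le_of_lt hy)
      rw [h1.fderiv_eq]
      exact fderiv_const_apply (0:ℝ)
    · have h1 : chi =ᶠ[𝓝 x] fun _ => (1 : ℝ) := by
        filter_upwards [continuousAt_const.eventually_lt hcont.continuousAt hx] with y hy
        exact hone y (le_of_lt hy)
      rw [h1.fderiv_eq]
      exact fderiv_const_apply (1:ℝ)
  have hder1 : ∀ x, 0 < Cut_rho x → ‖fderiv ℝ chi x‖ ≤ 2 / (Cut_rho x * L) := by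
    intro x hx
    have h0 : 1 / (Cut_rho x / 2 * L) = 2 / (Cut_rho x * L) := by
      field_simp
    rw [← h0]
    apply norm_fderiv_le_of_lip' ℝ (by positivity)
    have h1 : Cut_rho x / 2 < Cut_rho x := by linarith
    filter_upwards [continuousAt_const.eventually_lt hcont.continuousAt h1] with y hy
    have h2 := hloc (Cut_rho x / 2) (by positivity) y x ((le_of_lt hy).trans (le_max_left _ _))
      (h1.le.trans (le_max_left _ _))
    rw [Real.norm_eq_abs, ← dist_eq_norm]
    exact h2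
  obtain ⟨S, hS⟩ : ∃ S : Finset (ℝ × ℝ), S = Cut_P_fin.toFinset := ⟨_, rfl⟩
  have hSmem : ∀ p, p ∈ S ↔ p ∈ P := fun p => by rw [hS, Set.Finite.mem_toFinset]
  have hScard : (S.card : ℝ) ≤ 6 := by
    have h1 : S = ({0, 1/2, 1} : Finset ℝ) ×ˢ ({0, 1/2} : Finset ℝ) := by
      ext p
      rw [hSmem]
      simp [P, Finset.mem_product]
    have h2 : S.card ≤ 6 := by
      rw [h1, Finset.card_product]
      have h3 : ({0, 1/2, 1} : Finset ℝ).card ≤ 3 := Finset.card_le_three
      have h4 : ({0, 1/2} : Finset ℝ).card ≤ 2 := Finset.card_le_two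
      calc ({0, 1/2, 1} : Finset ℝ).card * ({0, 1/2} : Finset ℝ).card ≤ 3 * 2 :=
            Nat.mul_le_mul h3 h4
        _ = 6 := by norm_num
    exact_mod_cast h2
  have hbound : ∀ x, (fderiv ℝ chi x (1, 0)) ^ 2 + (fderiv ℝ chi x (0, 1)) ^ 2 ≤
      8 / L ^ 2 * ∑ p ∈ S, Cut_h d ep ‖x - p‖ := by
    intro x
    have hpos : 0 ≤ 8 / L ^ 2 * ∑ p ∈ S, Cut_h d ep ‖x - p‖ :=
      mul_nonneg (by positivity) (Finset.sum_nonneg fun p _ => Cut_h_nonneg _ _ _)
    by_cases hx : Cut_rho x < d ∨ ep < Cut_rho x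
    · rw [hder0 x hx]
      simpa using hpos
    · push Not at hx
      have hr : 0 < Cut_rho x := hd.trans_le hx.1
      have h1 := hder1 x hr
      have h2 : ∀ t : ℝ × ℝ, ‖t‖ = 1 → (fderiv ℝ chi x t) ^ 2 ≤ (2 / (Cut_rho x * L)) ^ 2 := by
        intro t ht
        rw [sq_le_sq]
        have h3 := (fderiv ℝ chi x).le_opNorm t
        rw [ht, mul_one, Real.norm_eq_abs] at h3
        exact (h3.trans h1).trans (le_abs_self _)
      have e1 := h2 (1, 0) (by simp)
      have e2 := h2 (0, 1) (by simp)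
      obtain ⟨p, hp, hpx⟩ := Cut_exists x
      have h3 : Cut_h d ep ‖x - p‖ ≤ ∑ p ∈ S, Cut_h d ep ‖x - p‖ :=
        Finset.single_le_sum (f := fun p => Cut_h d ep ‖x - p‖) (fun p _ => Cut_h_nonneg _ _ _)
          ((hSmem p).2 hp)
      have h4 : Cut_h d ep ‖x - p‖ = (Cut_rho x ^ 2)⁻¹ := by
        rw [← dist_eq_norm, ← hpx, Cut_h, indicator_of_mem (show Cut_rho x ∈ Icc d ep from hx)]
      rw [h4] at h3
      have h5 : (2 / (Cut_rho x * L)) ^ 2 + (2 / (Cut_rho x * L)) ^ 2 =
          8 / L ^ 2 * (Cut_rho x ^ 2)⁻¹ := by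
        field_simp
        norm_num
      calc (fderiv ℝ chi x (1, 0)) ^ 2 + (fderiv ℝ chi x (0, 1)) ^ 2
          ≤ (2 / (Cut_rho x * L)) ^ 2 + (2 / (Cut_rho x * L)) ^ 2 := add_le_add e1 e2
        _ = 8 / L ^ 2 * (Cut_rho x ^ 2)⁻¹ := h5
        _ ≤ _ := mul_le_mul_of_nonneg_left h3 (by positivity)
  have hGint : Integrable fun x : ℝ × ℝ => 8 / L ^ 2 * ∑ p ∈ S, Cut_h d ep ‖x - p‖ := by
    apply Integrable.const_mul
    apply integrable_finsetSum
    intro p _
    exact (Cut_integrable hd).comp_sub_right p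
  have hGval : ∫ x : ℝ × ℝ, 8 / L ^ 2 * ∑ p ∈ S, Cut_h d ep ‖x - p‖ = 8 / L ^ 2 * (S.card * (8 * L)) := by
    rw [integral_const_mul, integral_finsetSum _ fun p _ => (Cut_integrable hd).comp_sub_right p]
    congr 1
    have h1 : ∀ p ∈ S, ∫ x : ℝ × ℝ, Cut_h d ep ‖x - p‖ = 8 * L := by
      intro p _
      rw [integral_sub_right_eq_self (fun x : ℝ × ℝ => Cut_h d ep ‖x‖) p, Cut_integral hd hdep, hlog]
    rw [Finset.sum_congr rfl h1, Finset.sum_const, nsmul_eq_mul]
  refine ⟨chi, d, hd, ⟨1 / (d * L), fun x y => hloc d hd x y (le_max_right _ _) (le_max_right _ _)⟩,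
    fun x => ⟨?_, ?_⟩, fun x p hp hx => ?_, fun x hx => ?_, fun v _ => ?_, fun u _ => hsym u 0,
    fun u _ => hsym u _, ?_⟩
  · rw [hchi]
    apply le_min zero_le_one
    apply div_nonneg _ hL.le
    apply Real.log_nonneg
    rw [one_le_div hd]
    exact le_max_right _ _
  · rw [hchi]
    exact min_le_left _ _
  · exact hzero x ((Metric.infDist_le_dist_of_mem hp).trans hx)
  · apply hone
    obtain ⟨p, hp, h⟩ := Cut_exists x
    rw [h]
    exact hx p hp
  · have h1 := hsym 0 v
    rw [sub_zero] at h1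
    exact h1
  · calc ∫ x in U, ((fderiv ℝ chi x (1, 0)) ^ 2 + (fderiv ℝ chi x (0, 1)) ^ 2)
        ≤ ∫ x in U, 8 / L ^ 2 * ∑ p ∈ S, Cut_h d ep ‖x - p‖ := by
          apply integral_mono_of_nonneg
          · exact Filter.Eventually.of_forall fun x => by positivity
          · exact hGint.integrableOn
          · exact Filter.Eventually.of_forall hbound
      _ ≤ ∫ x : ℝ × ℝ, 8 / L ^ 2 * ∑ p ∈ S, Cut_h d ep ‖x - p‖ := by
          apply setIntegral_le_integral hGint
          exact Filter.Eventually.of_forall fun x =>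
            mul_nonneg (by positivity) (Finset.sum_nonneg fun p _ => Cut_h_nonneg _ _ _)
      _ = 8 / L ^ 2 * (S.card * (8 * L)) := hGval
      _ ≤ 8 / L ^ 2 * (6 * (8 * L)) := by gcongr
      _ = 384 / L := by
          field_simp
          norm_num
      _ = ep := by
          rw [hLdef]
          field_simp

end H80HM
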