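import Pool.Agent.H80.HM.Sib

set_option autoImplicit false

/-!
# Row Pth: comparison of metrics along a path, and variation of a field along a path

path_cmp. M : [a,b] -> positive definite matrices with Lipschitz entries, g >= 0 integrable with Re tr(((1/2)M'M^{-1})^2) <= g^2 a.e. Fix a vector x, not 0:
 y(t) = Re x* M(t) x > 0 is Lipschitz and bounded below on [a,b] (continuous, positive), so log y is Lipschitz, hence absolutely continuous, with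
 derivative y'/y a.e. With M = QQ*, al := Q^{-1}((1/2)M'M^{-1})Q = (1/2)Q^{-1}M'Q^{-*} Hermitian (M' is Hermitian, limit of Hermitian matrices), Re tr(al^2) = sum |al_ij|^2
 <= g^2, y' = x*M'x = 2 (Q*x)* al (Q*x), |y'| <= 2 g |Q*x|^2 = 2 g y. So |log y(t') - log y(t)| <= 2 int_a^b g for all t, t' in [a,b].
 (Mathlib: AbsolutelyContinuousOnInterval.integral_deriv_eq_sub; LipschitzOnWith.absolutelyContinuousOnInterval.) For x = 0 trivial.
path_fld. X : [a,b] -> matrices with Lipschitz entries, h a fixed metric, g >= 0 integrable, n2 h (X') <= g^2 a.e. Then n2 h (X(t') - X(t)) <= (int_a^b g)^2.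
 With h = QQ*, Z = Q^{-1} X Q: n2 h Y = |Q^{-1}YQ|^2 (n2_eq), |Z(t')-Z(t)| = |int Z'| <= int |Z'| <= int g (Frobenius norm; componentwise FTC; or test against a
 fixed matrix W: Re tr((Z(t')-Z(t))W*) = int Re tr(Z' W*) <= |W| int g, then W = Z(t')-Z(t)).
-/

namespace H80HM

open Matrix MeasureTheory Set
open scoped ComplexOrder

variable {m : ℕ}

theorem Pth_ftc {f : ℝ → ℝ} {a b : ℝ} {K : ℝ}
    (hL : ∀ s ∈ Icc a b, ∀ t ∈ Icc a b, |f s - f t| ≤ K * |s - t|) {G : ℝ → ℝ}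
    (hab : a ≤ b) (hG : IntervalIntegrable G volume a b) (hG0 : ∀ t, 0 ≤ G t)
    (hd : ∀ᵐ t ∂(volume.restrict (Ioo a b)), ∃ f' : ℝ, HasDerivAt f f' t ∧ |f'| ≤ G t) :
    ∀ s ∈ Icc a b, ∀ t ∈ Icc a b, |f s - f t| ≤ ∫ u in a..b, G u := by
  have key : ∀ s ∈ Icc a b, ∀ t ∈ Icc a b, s ≤ t → |f t - f s| ≤ ∫ u in a..b, G u := by
    intro s hs t ht hst
    have hLip : LipschitzOnWith (Real.toNNReal K) f (uIcc s t) := by
      apply LipschitzOnWith.of_dist_le_mul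
      intro x hx y hy
      rw [uIcc_of_le hst] at hx hy
      have hx' : x ∈ Icc a b := ⟨hs.1.trans hx.1, hx.2.trans ht.2⟩
      have hy' : y ∈ Icc a b := ⟨hs.1.trans hy.1, hy.2.trans ht.2⟩
      rw [Real.dist_eq, Real.dist_eq]
      refine (hL x hx' y hy').trans ?_
      exact mul_le_mul_of_nonneg_right (Real.le_coe_toNNReal K) (abs_nonneg _)
    have hAC := hLip.absolutelyContinuousOnInterval
    have hI := hAC.integral_deriv_eq_sub
    rw [← hI, ← Real.norm_eq_abs]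
    have hbd : ∀ᵐ u ∂volume, u ∈ Ioc s t → ‖deriv f u‖ ≤ G u := by
      have h1 : ∀ᵐ u ∂(volume.restrict (Ioc a b)), ∃ f' : ℝ, HasDerivAt f f' u ∧ |f'| ≤ G u := by
        rw [← Measure.restrict_congr_set (Ioo_ae_eq_Ioc (μ := volume) (a := a) (b := b))]
        exact hd
      rw [ae_restrict_iff' measurableSet_Ioc] at h1
      filter_upwards [h1] with u hu hu'
      obtain ⟨f', h2, h3⟩ := hu ⟨lt_of_le_of_lt hs.1 hu'.1, hu'.2.trans ht.2⟩
      rw [h2.deriv, Real.norm_eq_abs]; exact h3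
    have hGi : IntervalIntegrable G volume s t := hG.mono_set (by
      rw [uIcc_of_le hst, uIcc_of_le hab]; exact Icc_subset_Icc hs.1 ht.2)
    refine (intervalIntegral.norm_integral_le_of_norm_le hst hbd hGi).trans ?_
    exact intervalIntegral.integral_mono_interval hs.1 hst ht.2 (Filter.Eventually.of_forall hG0) hG
  intro s hs t ht
  rcases le_total s t with h | h
  · rw [abs_sub_comm]; exact key s hs t ht h
  · exact key t ht s hs h

theorem Pth_lip {X : ℝ → Mt m} {a b : ℝ}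
    (hL : ∃ K : ℝ, ∀ s ∈ Icc a b, ∀ t ∈ Icc a b, ∀ i j, ‖X s i j - X t i j‖ ≤ K * |s - t|)
    (C : Mt m) : ∃ K : ℝ, ∀ s ∈ Icc a b, ∀ t ∈ Icc a b,
      |(trace (X s * C)).re - (trace (X t * C)).re| ≤ K * |s - t| := by
  obtain ⟨K, hK⟩ := hL
  refine ⟨∑ i, ∑ j, K * ‖C j i‖, fun s hs t ht => ?_⟩
  have h1 : (trace (X s * C)).re - (trace (X t * C)).re =
      (∑ i, ∑ j, (X s i j - X t i j) * C j i).re := by
    rw [← Complex.sub_re]
    congr 1
    simp only [Matrix.trace, Matrix.diag_apply, Matrix.mul_apply, sub_mul, Finset.sum_sub_distrib]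
  rw [h1]
  refine (Complex.abs_re_le_norm _).trans ?_
  refine (norm_sum_le _ _).trans ?_
  rw [Finset.sum_mul]
  refine Finset.sum_le_sum fun i _ => (norm_sum_le _ _).trans ?_
  rw [Finset.sum_mul]
  refine Finset.sum_le_sum fun j _ => ?_
  rw [norm_mul]
  have := mul_le_mul_of_nonneg_right (hK s hs t ht i j) (norm_nonneg (C j i))
  linarith

theorem Pth_der {X : ℝ → Mt m} {X' : Mt m} {t : ℝ}
    (h : ∀ i j, HasDerivAt (fun s => X s i j) (X' i j) t) (C : Mt m) :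
    HasDerivAt (fun s => (trace (X s * C)).re) (trace (X' * C)).re t := by
  have h1 : HasDerivAt (fun s => ∑ i, ∑ j, X s i j * C j i) (∑ i, ∑ j, X' i j * C j i) t :=
    HasDerivAt.fun_sum fun i _ => HasDerivAt.fun_sum fun j _ => (h i j).mul_const _
  have h2 := Complex.reCLM.hasFDerivAt.comp_hasDerivAt t h1
  have e1 : (fun s => (trace (X s * C)).re) =
      (Complex.reCLM ∘ fun s => ∑ i, ∑ j, X s i j * C j i) := by
    funext s
    simp only [Matrix.trace, Matrix.diag_apply, Matrix.mul_apply, Function.comp,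
      Complex.reCLM_apply]
  have e2 : (trace (X' * C)).re = Complex.reCLM (∑ i, ∑ j, X' i j * C j i) := by
    simp only [Matrix.trace, Matrix.diag_apply, Matrix.mul_apply, Complex.reCLM_apply]
  rw [e1, e2]
  exact h2

theorem Pth_fin (f g : Fin m → Fin m → ℝ) :
    (∑ i, ∑ j, f i j * g i j) ^ 2 ≤ (∑ i, ∑ j, f i j ^ 2) * (∑ i, ∑ j, g i j ^ 2) := by
  have h := Finset.sum_mul_sq_le_sq_mul_sq (Finset.univ ×ˢ Finset.univ : Finset (Fin m × Fin m))
    (fun x => f x.1 x.2) (fun x => g x.1 x.2)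
  simpa only [Finset.sum_product] using h

theorem Pth_cs (Z : Mt m) (v : Fin m → ℂ) {g : ℝ} (hg : 0 ≤ g)
    (hZ : ∑ i, ∑ j, ‖Z i j‖ ^ 2 ≤ g ^ 2) :
    |(star v ⬝ᵥ (Z *ᵥ v)).re| ≤ g * ∑ i, ‖v i‖ ^ 2 := by
  have h0 : ‖star v ⬝ᵥ (Z *ᵥ v)‖ ≤ ∑ i, ∑ j, ‖Z i j‖ * (‖v i‖ * ‖v j‖) := by
    simp only [dotProduct, mulVec, Pi.star_apply]
    refine (norm_sum_le _ _).trans (Finset.sum_le_sum fun i _ => ?_)
    rw [norm_mul, norm_star]
    refine (mul_le_mul_of_nonneg_left (norm_sum_le _ _) (norm_nonneg _)).trans ?_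
    rw [Finset.mul_sum]
    refine Finset.sum_le_sum fun j _ => ?_
    rw [norm_mul]
    apply le_of_eq
    ring
  have h1 := Pth_fin (fun i j => ‖Z i j‖) (fun i j => ‖v i‖ * ‖v j‖)
  have h2 : ∑ i, ∑ j, (‖v i‖ * ‖v j‖) ^ 2 = (∑ i, ‖v i‖ ^ 2) ^ 2 := by
    rw [sq (∑ i, ‖v i‖ ^ 2), Finset.sum_mul_sum]
    refine Finset.sum_congr rfl fun i _ => Finset.sum_congr rfl fun j _ => ?_
    ring
  rw [h2] at h1
  have h3 : 0 ≤ ∑ i, ‖v i‖ ^ 2 := Finset.sum_nonneg fun i _ => sq_nonneg _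
  refine (Complex.abs_re_le_norm _).trans (h0.trans ?_)
  refine le_of_sq_le_sq ?_ (mul_nonneg hg h3)
  refine h1.trans ?_
  rw [mul_pow]
  exact mul_le_mul_of_nonneg_right hZ (sq_nonneg _)


theorem Pth_herm {M : ℝ → Mt m} {M' : Mt m} {a b t : ℝ} (ht : t ∈ Ioo a b)
    (hp : ∀ t ∈ Icc a b, (M t).PosDef) (hd : ∀ i j, HasDerivAt (fun s => M s i j) (M' i j) t) :
    M'ᴴ = M' := by
  ext i j
  rw [conjTranspose_apply]
  have h1 : HasDerivAt (fun s => star (M s j i)) (star (M' j i)) t := (hd j i).star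
  have h2 : (fun s => M s i j) =ᶠ[nhds t] fun s => star (M s j i) := by
    filter_upwards [Icc_mem_nhds ht.1 ht.2] with s hs
    exact ((hp s hs).isHermitian.apply i j).symm
  exact h1.unique ((hd i j).congr_of_eventuallyEq h2.symm)

theorem Pth_vec (M : Mt m) (x : Fin m → ℂ) :
    (trace (M * vecMulVec x (star x))).re = (star x ⬝ᵥ (M *ᵥ x)).re := by
  congr 1
  rw [mul_vecMulVec, trace_vecMulVec, dotProduct_comm]

/-- the pointwise inequality |y'| <= 2 g y -/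
theorem Pth_pt {M M' : Mt m} (hM : M.PosDef) (hM' : M'ᴴ = M') {g : ℝ} (hg : 0 ≤ g)
    (h : (trace (((1/2 : ℂ) • (M' * M⁻¹)) * ((1/2 : ℂ) • (M' * M⁻¹)))).re ≤ g ^ 2)
    (x : Fin m → ℂ) :
    |(star x ⬝ᵥ (M' *ᵥ x)).re| ≤ 2 * g * (star x ⬝ᵥ (M *ᵥ x)).re := by
  obtain ⟨Q, lam, hF⟩ := exists_fr hM hM
  obtain ⟨h1, h2, h3, h4⟩ := Sib_inv hF.1
  have hMQ : M = Q * Qᴴ := hF.2.1
  set al : Mt m := (1/2 : ℂ) • (Q⁻¹ * M' * (Q⁻¹)ᴴ) with hal
  have hinv : M⁻¹ = (Q⁻¹)ᴴ * Q⁻¹ := by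
    rw [hMQ, Matrix.mul_inv_rev, conjTranspose_nonsing_inv]
  have hs : star (1/2 : ℂ) = 1/2 := by
    rw [Complex.star_def, map_div₀, map_one, map_ofNat]
  have halh : alᴴ = al := by
    rw [hal, conjTranspose_smul, conjTranspose_mul, conjTranspose_mul, conjTranspose_conjTranspose,
      hM', hs, Matrix.mul_assoc]
  have hA : (1/2 : ℂ) • (M' * M⁻¹) = Q * al * Q⁻¹ := by
    rw [hal, hinv, Matrix.mul_smul, Matrix.smul_mul]
    congr 1
    calc M' * ((Q⁻¹)ᴴ * Q⁻¹) = (Q * Q⁻¹) * M' * (Q⁻¹)ᴴ * Q⁻¹ := by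
          rw [h2, Matrix.one_mul]; simp only [Matrix.mul_assoc]
      _ = Q * (Q⁻¹ * M' * (Q⁻¹)ᴴ) * Q⁻¹ := by simp only [Matrix.mul_assoc]
  have htr : (trace (((1/2 : ℂ) • (M' * M⁻¹)) * ((1/2 : ℂ) • (M' * M⁻¹)))).re =
      ∑ i, ∑ j, ‖al i j‖ ^ 2 := by
    rw [hA, ← Sib_tr]
    congr 1
    have e : (Q * al * Q⁻¹) * (Q * al * Q⁻¹) = Q * (al * al) * Q⁻¹ := by
      calc (Q * al * Q⁻¹) * (Q * al * Q⁻¹) = Q * al * (Q⁻¹ * Q) * al * Q⁻¹ := by
            simp only [Matrix.mul_assoc]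
        _ = Q * (al * al) * Q⁻¹ := by rw [h1]; simp only [Matrix.mul_assoc, Matrix.one_mul]
    rw [e, Matrix.trace_mul_comm, ← Matrix.mul_assoc, h1, Matrix.one_mul, halh]
  have hcs := Pth_cs al (Qᴴ *ᵥ x) hg (by rw [← htr]; exact h)
  have hM2 : M' = (2 : ℂ) • (Q * al * Qᴴ) := by
    rw [hal, Matrix.mul_smul, Matrix.smul_mul, smul_smul]
    have e : Q * (Q⁻¹ * M' * (Q⁻¹)ᴴ) * Qᴴ = M' := by
      calc Q * (Q⁻¹ * M' * (Q⁻¹)ᴴ) * Qᴴ = (Q * Q⁻¹) * M' * ((Q⁻¹)ᴴ * Qᴴ) := by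
            simp only [Matrix.mul_assoc]
        _ = M' := by rw [h2, h4, Matrix.one_mul, Matrix.mul_one]
    rw [e]
    norm_num
  have hq : star x ⬝ᵥ (M' *ᵥ x) = 2 * (star (Qᴴ *ᵥ x) ⬝ᵥ (al *ᵥ (Qᴴ *ᵥ x))) := by
    conv_lhs => rw [hM2]
    rw [smul_mulVec, dotProduct_smul, smul_eq_mul]
    congr 1
    rw [star_mulVec, conjTranspose_conjTranspose, ← dotProduct_mulVec, mulVec_mulVec, mulVec_mulVec,
      Matrix.mul_assoc]
  have hy : (star x ⬝ᵥ (M *ᵥ x)).re = ∑ i, ‖(Qᴴ *ᵥ x) i‖ ^ 2 := by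
    have e : star x ⬝ᵥ (M *ᵥ x) = star (Qᴴ *ᵥ x) ⬝ᵥ (Qᴴ *ᵥ x) := by
      rw [star_mulVec, conjTranspose_conjTranspose, ← dotProduct_mulVec, mulVec_mulVec, ← hMQ]
    rw [e]
    simp only [dotProduct, Pi.star_apply, Complex.re_sum]
    refine Finset.sum_congr rfl fun i _ => ?_
    have := Complex.normSq_eq_norm_sq ((Qᴴ *ᵥ x) i)
    rw [← this, Complex.star_def, Complex.mul_re, Complex.conj_re, Complex.conj_im,
      Complex.normSq_apply]
    ring
  rw [hq, hy]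
  have e2 : (2 * (star (Qᴴ *ᵥ x) ⬝ᵥ (al *ᵥ (Qᴴ *ᵥ x)))).re =
      2 * (star (Qᴴ *ᵥ x) ⬝ᵥ (al *ᵥ (Qᴴ *ᵥ x))).re := by
    rw [Complex.mul_re]; norm_num
  rw [e2, abs_mul, abs_two]
  linarith

theorem path_cmp {M : ℝ → Mt m} {a b : ℝ} (hab : a ≤ b)
    (hL : ∃ K : ℝ, ∀ s ∈ Icc a b, ∀ t ∈ Icc a b, ∀ i j, ‖M s i j - M t i j‖ ≤ K * |s - t|)
    (hp : ∀ t ∈ Icc a b, (M t).PosDef) {g : ℝ → ℝ} (hg : IntervalIntegrable g volume a b)
    (hg0 : ∀ t, 0 ≤ g t)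
    (hd : ∀ᵐ t ∂(volume.restrict (Ioo a b)), ∃ M' : Mt m,
      (∀ i j, HasDerivAt (fun s => M s i j) (M' i j) t) ∧
      (trace (((1/2 : ℂ) • (M' * (M t)⁻¹)) * ((1/2 : ℂ) • (M' * (M t)⁻¹)))).re ≤ g t ^ 2) :
    ∀ s ∈ Icc a b, ∀ t ∈ Icc a b, Cmp (Real.exp (2 * ∫ u in a..b, g u)) (M s) (M t) := by
  intro s hs t ht x
  by_cases hx : x = 0
  · subst hx; simp
  set y : ℝ → ℝ := fun u => (trace (M u * vecMulVec x (star x))).re with hy
  have hyv : ∀ u, y u = (star x ⬝ᵥ (M u *ᵥ x)).re := fun u => Pth_vec (M u) x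
  have hpos : ∀ u ∈ Icc a b, 0 < y u := by
    intro u hu
    rw [hyv]
    have := (hp u hu).dotProduct_mulVec_pos hx
    exact (Complex.pos_iff.1 this).1
  obtain ⟨K, hK⟩ := Pth_lip hL (vecMulVec x (star x))
  have hyc : ContinuousOn y (Icc a b) := by
    have hLip : LipschitzOnWith (Real.toNNReal K) y (Icc a b) := by
      apply LipschitzOnWith.of_dist_le_mul
      intro u hu v hv
      rw [Real.dist_eq, Real.dist_eq]
      refine (hK u hu v hv).trans ?_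
      exact mul_le_mul_of_nonneg_right (Real.le_coe_toNNReal K) (abs_nonneg _)
    exact hLip.continuousOn
  obtain ⟨u0, hu0, hmin⟩ := isCompact_Icc.exists_isMinOn (nonempty_Icc.2 hab) hyc
  set c := y u0 with hc
  have hc0 : 0 < c := hpos u0 hu0
  have hcm : ∀ u ∈ Icc a b, c ≤ y u := fun u hu => hmin hu
  have hlog : ∀ u ∈ Icc a b, ∀ v ∈ Icc a b,
      |Real.log (y u) - Real.log (y v)| ≤ (K / c) * |u - v| := by
    have aux : ∀ u ∈ Icc a b, ∀ v ∈ Icc a b,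
        Real.log (y u) - Real.log (y v) ≤ (K / c) * |u - v| := by
      intro u hu v hv
      have pu := hpos u hu
      have pv := hpos v hv
      rw [← Real.log_div pu.ne' pv.ne']
      have e1 := Real.log_le_sub_one_of_pos (div_pos pu pv)
      have e2 : y u / y v - 1 = (y u - y v) / y v := by field_simp
      have e3 := hK u hu v hv
      have e4 := hcm v hv
      have e5 : (y u - y v) / y v ≤ |y u - y v| / c :=
        (div_le_div_of_nonneg_right (le_abs_self _) pv.le).trans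
          (div_le_div_of_nonneg_left (abs_nonneg _) hc0 e4)
      have e6 : |y u - y v| / c ≤ (K * |u - v|) / c := div_le_div_of_nonneg_right e3 hc0.le
      have e7 : K * |u - v| / c = K / c * |u - v| := by ring
      linarith
    intro u hu v hv
    rw [abs_le]
    constructor
    · have := aux v hv u hu
      rw [abs_sub_comm v u] at this
      linarith
    · exact aux u hu v hv
  have hder : ∀ᵐ u ∂(volume.restrict (Ioo a b)), ∃ f' : ℝ,
      HasDerivAt (fun v => Real.log (y v)) f' u ∧ |f'| ≤ 2 * g u := by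
    filter_upwards [hd, ae_restrict_mem measurableSet_Ioo] with u hu hu'
    obtain ⟨M', h1, h2⟩ := hu
    have hui : u ∈ Icc a b := Ioo_subset_Icc_self hu'
    have hh := Pth_herm hu' hp h1
    have hpt := Pth_pt (hp u hui) hh (hg0 u) h2 x
    have hd1 := Pth_der h1 (vecMulVec x (star x))
    have pu := hpos u hui
    refine ⟨_, hd1.log pu.ne', ?_⟩
    rw [abs_div, abs_of_pos pu, div_le_iff₀ pu, Pth_vec, hyv]
    exact hpt
  have hfin := Pth_ftc hlog hab (hg.const_mul 2) (fun u => by have := hg0 u; linarith) hder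
    s hs t ht
  rw [intervalIntegral.integral_const_mul] at hfin
  have h1 := (abs_le.1 hfin).2
  rw [← hyv, ← hyv]
  have ps := hpos s hs
  have pt := hpos t ht
  have h2 : Real.log (y s) ≤ (2 * ∫ u in a..b, g u) + Real.log (y t) := by linarith
  have h3 := Real.exp_le_exp.2 h2
  rw [Real.exp_log ps, Real.exp_add, Real.exp_log pt] at h3
  exact h3

theorem path_fld {X : ℝ → Mt m} {h : Mt m} (hh : h.PosDef) {a b : ℝ} (hab : a ≤ b)
    (hL : ∃ K : ℝ, ∀ s ∈ Icc a b, ∀ t ∈ Icc a b, ∀ i j, ‖X s i j - X t i j‖ ≤ K * |s - t|)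
    {g : ℝ → ℝ} (hg : IntervalIntegrable g volume a b) (hg0 : ∀ t, 0 ≤ g t)
    (hd : ∀ᵐ t ∂(volume.restrict (Ioo a b)), ∃ X' : Mt m,
      (∀ i j, HasDerivAt (fun s => X s i j) (X' i j) t) ∧ n2 h X' ≤ g t ^ 2) :
    ∀ s ∈ Icc a b, ∀ t ∈ Icc a b, n2 h (X s - X t) ≤ (∫ u in a..b, g u) ^ 2 := by
  intro s hs t ht
  obtain ⟨Q, lam, hF⟩ := exists_fr hh hh
  have hhQ : h = Q * Qᴴ := hF.2.1
  set W : Mt m := Q⁻¹ * (X s - X t) * Q with hW
  set w : ℝ := Real.sqrt (∑ i, ∑ j, ‖W i j‖ ^ 2) with hw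
  have hn0 : 0 ≤ ∑ i, ∑ j, ‖W i j‖ ^ 2 :=
    Finset.sum_nonneg fun i _ => Finset.sum_nonneg fun j _ => sq_nonneg _
  have hww : w ^ 2 = ∑ i, ∑ j, ‖W i j‖ ^ 2 := Real.sq_sqrt hn0
  have hw0 : 0 ≤ w := Real.sqrt_nonneg _
  have htw : ∀ Y : Mt m, trace (Y * (Q * Wᴴ * Q⁻¹)) = trace ((Q⁻¹ * Y * Q) * Wᴴ) := by
    intro Y
    have e1 : Y * (Q * Wᴴ * Q⁻¹) = (Y * (Q * Wᴴ)) * Q⁻¹ := by simp only [Matrix.mul_assoc]
    rw [e1, Matrix.trace_mul_comm]
    simp only [Matrix.mul_assoc]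
  obtain ⟨K, hK⟩ := Pth_lip hL (Q * Wᴴ * Q⁻¹)
  have hder : ∀ᵐ u ∂(volume.restrict (Ioo a b)), ∃ f' : ℝ,
      HasDerivAt (fun v => (trace (X v * (Q * Wᴴ * Q⁻¹))).re) f' u ∧ |f'| ≤ w * g u := by
    filter_upwards [hd] with u hu
    obtain ⟨X', h1, h2⟩ := hu
    refine ⟨_, Pth_der h1 _, ?_⟩
    rw [htw]
    rw [n2_eq hF.1 hhQ] at h2
    set Z : Mt m := Q⁻¹ * X' * Q with hZ
    have e0 : ‖trace (Z * Wᴴ)‖ ≤ ∑ i, ∑ j, ‖W i j‖ * ‖Z i j‖ := by
      simp only [Matrix.trace, Matrix.diag_apply, Matrix.mul_apply, conjTranspose_apply]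
      refine (norm_sum_le _ _).trans (Finset.sum_le_sum fun i _ => ?_)
      refine (norm_sum_le _ _).trans (Finset.sum_le_sum fun j _ => ?_)
      rw [norm_mul, norm_star, mul_comm]
    have e1 := Pth_fin (fun i j => ‖W i j‖) (fun i j => ‖Z i j‖)
    rw [← hww] at e1
    refine (Complex.abs_re_le_norm _).trans (e0.trans ?_)
    refine le_of_sq_le_sq ?_ (mul_nonneg hw0 (hg0 u))
    refine e1.trans ?_
    rw [mul_pow]
    exact mul_le_mul_of_nonneg_left h2 (sq_nonneg _)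
  have hfin := Pth_ftc hK hab (hg.const_mul w) (fun u => mul_nonneg hw0 (hg0 u)) hder s hs t ht
  rw [intervalIntegral.integral_const_mul] at hfin
  have h1 := (abs_le.1 hfin).2
  have h2 : (trace (X s * (Q * Wᴴ * Q⁻¹))).re - (trace (X t * (Q * Wᴴ * Q⁻¹))).re = w ^ 2 := by
    rw [← Complex.sub_re, ← Matrix.trace_sub, ← Matrix.sub_mul, htw, ← hW, Sib_tr, hww]
  rw [h2] at h1
  rw [n2_eq hF.1 hhQ, ← hW, ← hww]
  have hI : 0 ≤ ∫ u in a..b, g u := intervalIntegral.integral_nonneg hab fun u _ => hg0 u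
  rcases hw0.eq_or_lt with h3 | h3
  · rw [← h3]
    have : (0:ℝ) ^ 2 = 0 := by norm_num
    rw [this]
    exact sq_nonneg _
  · have h4 : w ≤ ∫ u in a..b, g u := by
      have : w * w ≤ w * ∫ u in a..b, g u := by rw [← sq]; exact h1
      exact le_of_mul_le_mul_left this h3
    exact pow_le_pow_left₀ hw0 h4 2

end H80HM
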