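import Pool.Agent.H80.HM.Gln
import Pool.Agent.H80.HM.Pth
import Pool.Agent.H80.HM.Mea

set_option autoImplicit false

/-!
# Row Dsp: displacement bound at most points

F := q (1,0)(1,0) H + q (0,1)(0,1) H, integrable, >= 0 on U. Good set: complement of S = (set of good_lines for F, K) union (null set of line_ae for the
property: all entries of H are differentiable at x, lz_ae). Let x = (u0,v0) in U minus S, k := sqrt K.
LINES. Horizontal: t -> H(t, v0), t in [0,1]: all points are in Dd d with d = min(v0, 1/2-v0) (sup distance to the punctures), so Lipschitz, positive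
 definite; at a.e. t the derivative is pd (1,0) H (t,v0) (Frechet derivative composed with the line; for t in (0,1)), and
 Re tr(((1/2) H' H^{-1})^2) = q (1,0)(1,0) H <= F. g := sqrt(F) on the line: int_0^1 sqrt F <= sqrt(int F) <= k (Cauchy-Schwarz). path_cmp: all H(t,v0) are
 comparable with constant e^{2k}. Vertical lines u = u0 and u = 1 - u0, v in [0,1/2]: if u0 is not 1/2 all points are in Dd d with
 d = min(u0, |u0-1/2|, 1-u0) > 0; (the vertical line u = 1/2 is a null set: add it to S). int_0^{1/2} sqrt F <= sqrt(K/2) <= k: constant e^{2k}.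
DISPLACEMENTS (write H ~c G for Cmp e^c in both directions; ~ composes additively, and is invariant under congruence H -> gHg*: test vectors g* x):
 C: H(x) ~2k H(0,v0), C H(0,v0) C* = H(1,v0) ~2k H(x), so H(x) ~4k C H(x) C*.
 A: if u0 < 1/2: H(x) ~2k H(u0,0), A H(u0,0) A* = H(1-u0,0) ~2k H(1-u0,v0) ~2k H(x). So A H(x) A* ~6k H(x). If u0 > 1/2 put u1 = 1-u0 < 1/2:
   H(x) ~2k H(1-u1.. = u0, 0) = A H(u1,0) A*, H(u1,0) ~2k H(u1,v0) ~2k H(x): again A H(x) A* ~6k H(x). B: the same at the top.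
 All comparisons hold with e^{8k}.
-/

namespace H80HM

open Matrix MeasureTheory Set
open scoped ComplexOrder

variable {m : ℕ} {A B C : Mt m} {H : ℝ × ℝ → Mt m}

/-- the two metrics are comparable with constant L -/
def Cm2 (L : ℝ) (H G : Mt m) : Prop := Cmp L H G ∧ Cmp L G H

theorem Dsp_nn {G : Mt m} (hG : G.PosDef) (x : Fin m → ℂ) : 0 ≤ (star x ⬝ᵥ (G *ᵥ x)).re := by
  have h := hG.posSemidef.dotProduct_mulVec_nonneg x
  exact (Complex.le_def.1 h).1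

theorem Dsp_mono {L L' : ℝ} {H G : Mt m} (h : L ≤ L') (hG : G.PosDef) (hc : Cmp L H G) :
    Cmp L' H G := fun x =>
  (hc x).trans (mul_le_mul_of_nonneg_right h (Dsp_nn hG x))

theorem Dsp_trans {L L' : ℝ} {H G J : Mt m} (hL : 0 ≤ L) (h1 : Cmp L H G) (h2 : Cmp L' G J) :
    Cmp (L * L') H J := by
  intro x
  refine (h1 x).trans ?_
  rw [mul_assoc]
  exact mul_le_mul_of_nonneg_left (h2 x) hL

theorem Dsp_quad (g H : Mt m) (x : Fin m → ℂ) :
    star x ⬝ᵥ ((g * H * gᴴ) *ᵥ x) = star (gᴴ *ᵥ x) ⬝ᵥ (H *ᵥ (gᴴ *ᵥ x)) := by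
  rw [Matrix.star_mulVec, Matrix.conjTranspose_conjTranspose, ← Matrix.mulVec_mulVec,
    ← Matrix.mulVec_mulVec, Matrix.dotProduct_mulVec]

theorem Dsp_congr {L : ℝ} {H G : Mt m} (g : Mt m) (h : Cmp L H G) :
    Cmp L (g * H * gᴴ) (g * G * gᴴ) := by
  intro x
  rw [Dsp_quad, Dsp_quad]
  exact h _

theorem Dsp_c2trans {a b : ℝ} {H G J : Mt m} (h1 : Cm2 (Real.exp a) H G)
    (h2 : Cm2 (Real.exp b) G J) : Cm2 (Real.exp (a + b)) H J := by
  refine ⟨?_, ?_⟩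
  · rw [Real.exp_add]
    exact Dsp_trans (Real.exp_pos _).le h1.1 h2.1
  · rw [add_comm, Real.exp_add]
    exact Dsp_trans (Real.exp_pos _).le h2.2 h1.2

theorem Dsp_c2symm {L : ℝ} {H G : Mt m} (h : Cm2 L H G) : Cm2 L G H := ⟨h.2, h.1⟩

theorem Dsp_c2congr {L : ℝ} {H G : Mt m} (g : Mt m) (h : Cm2 L H G) :
    Cm2 L (g * H * gᴴ) (g * G * gᴴ) := ⟨Dsp_congr g h.1, Dsp_congr g h.2⟩

/-- along one line -/
theorem Dsp_line (hH : Cl A B C H) {γ : ℝ → ℝ × ℝ} {w : ℝ × ℝ}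
    (hγ : ∀ s t, dist (γ s) (γ t) ≤ |s - t|) (hder : ∀ t, HasDerivAt γ w t) {a b d K : ℝ}
    (hab : a ≤ b) (hb : b - a ≤ 1) (hd : 0 < d) (hK : 0 < K) (hDd : ∀ t ∈ Icc a b, γ t ∈ Dd d)
    (hU : ∀ t ∈ Ioo a b, γ t ∈ U)
    (hae : ∀ᵐ t ∂(volume.restrict (Ioo a b)), ∀ i j, DifferentiableAt ℝ (fun y => H y i j) (γ t))
    {F : ℝ × ℝ → ℝ} (hF : IntervalIntegrable (fun t => F (γ t)) volume a b)
    (hFK : ∫ t in a..b, F (γ t) ≤ K) (hqF : ∀ x ∈ U, q w w H x ≤ F x)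
    (hF0 : ∀ x ∈ U, 0 ≤ F x) :
    ∀ s ∈ Icc a b, ∀ t ∈ Icc a b, Cmp (Real.exp (2 * Real.sqrt K)) (H (γ s)) (H (γ t)) := by
  have hpos : ∀ t ∈ Icc a b, (H (γ t)).PosDef := fun t ht => hH.pos _ (dd_sub hd (hDd t ht))
  have hg : IntervalIntegrable (fun t => Real.sqrt (F (γ t))) volume a b := by
    have h1 : IntervalIntegrable (fun t => 1 + |F (γ t)|) volume a b :=
      (intervalIntegrable_const).add hF.abs
    refine h1.mono_fun ?_ ?_
    · exact Real.continuous_sqrt.comp_aestronglyMeasurable hF.aestronglyMeasurable_restrict_uIoc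
    · refine Filter.Eventually.of_forall fun t => ?_
      show ‖Real.sqrt (F (γ t))‖ ≤ ‖1 + |F (γ t)|‖
      rw [Real.norm_of_nonneg (Real.sqrt_nonneg _), Real.norm_of_nonneg (by positivity)]
      have h2 : Real.sqrt (F (γ t)) ≤ Real.sqrt |F (γ t)| := Real.sqrt_le_sqrt (le_abs_self _)
      have h3 := Real.sq_sqrt (abs_nonneg (F (γ t)))
      nlinarith [sq_nonneg (Real.sqrt |F (γ t)| - 1), Real.sqrt_nonneg |F (γ t)|]
  obtain ⟨K0, hK0⟩ := hH.lip d hd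
  have hcmp := path_cmp (M := fun t => H (γ t)) hab
    (by
      refine ⟨|K0|, fun s hs t ht i j => ?_⟩
      refine (hK0 _ (hDd s hs) _ (hDd t ht) i j).trans ?_
      refine (mul_le_mul_of_nonneg_right (le_abs_self K0) dist_nonneg).trans ?_
      exact mul_le_mul_of_nonneg_left (hγ s t) (abs_nonneg _))
    hpos hg (fun t => Real.sqrt_nonneg _)
    (by
      rw [ae_restrict_iff' measurableSet_Ioo] at hae ⊢
      filter_upwards [hae] with t ht ht'
      refine ⟨pd w H (γ t), fun i j => ?_, ?_⟩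
      · have h1 := (ht ht' i j).hasFDerivAt.comp_hasDerivAt t (hder t)
        exact h1
      · have h2 := hqF _ (hU t ht')
        rw [Real.sq_sqrt (hF0 _ (hU t ht'))]
        exact h2)
  have hI : ∫ t in a..b, Real.sqrt (F (γ t)) ≤ Real.sqrt K := by
    set c := Real.sqrt K with hc
    have hc0 : 0 < c := Real.sqrt_pos.2 hK
    have hcc : c * c = K := Real.mul_self_sqrt hK.le
    have hi2 : IntervalIntegrable (fun t => F (γ t) / (2 * c) + c / 2) volume a b :=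
      (hF.div_const _).add intervalIntegrable_const
    have h1 : ∫ t in a..b, Real.sqrt (F (γ t)) ≤ ∫ t in a..b, (F (γ t) / (2 * c) + c / 2) := by
      refine intervalIntegral.integral_mono_on_of_le_Ioo hab hg hi2 fun t ht => ?_
      have h2 := Real.sq_sqrt (hF0 _ (hU t ht))
      have h3 : F (γ t) / (2 * c) + c / 2 - Real.sqrt (F (γ t)) =
          (Real.sqrt (F (γ t)) - c) ^ 2 / (2 * c) := by
        rw [← h2]
        simp only [Real.sqrt_sq (Real.sqrt_nonneg _)]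
        field_simp
        ring
      have h4 : 0 ≤ (Real.sqrt (F (γ t)) - c) ^ 2 / (2 * c) := by positivity
      linarith
    refine h1.trans ?_
    rw [intervalIntegral.integral_add (hF.div_const _) intervalIntegrable_const,
      intervalIntegral.integral_div, intervalIntegral.integral_const, smul_eq_mul]
    have h3 : (∫ t in a..b, F (γ t)) / (2 * c) ≤ K / (2 * c) :=
      div_le_div_of_nonneg_right hFK (by positivity)
    have h4 : K / (2 * c) = c / 2 := by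
      rw [← hcc]; field_simp
    have h5 : (b - a) * (c / 2) ≤ 1 * (c / 2) := mul_le_mul_of_nonneg_right hb (by positivity)
    linarith
  intro s hs t ht
  refine Dsp_mono ?_ (hpos t ht) (hcmp s hs t ht)
  exact Real.exp_le_exp.2 (by linarith)

theorem disp (hH : Cl A B C H) {I K : ℝ}
    (hI : ∫ x in U, (q (1, 0) (1, 0) H x + q (0, 1) (0, 1) H x) ≤ I) (hK : 0 < K) :
    ∃ S : Set (ℝ × ℝ), S ⊆ U ∧ MeasurableSet S ∧ volume S ≤ ENNReal.ofReal (3 * I / K) ∧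
      ∀ x ∈ U \ S,
        x.1 ≠ 1/2 ∧
        Cm2 (Real.exp (8 * Real.sqrt K)) (H x) (A * H x * Aᴴ) ∧
        Cm2 (Real.exp (8 * Real.sqrt K)) (H x) (B * H x * Bᴴ) ∧
        Cm2 (Real.exp (8 * Real.sqrt K)) (H x) (C * H x * Cᴴ) ∧
        (∀ v ∈ Icc (0:ℝ) (1/2), Cm2 (Real.exp (8 * Real.sqrt K)) (H x) (H (x.1, v))) ∧
        (∀ v ∈ Icc (0:ℝ) (1/2), Cm2 (Real.exp (8 * Real.sqrt K)) (H x) (H (1 - x.1, v))) ∧
        (∀ u ∈ Icc (0:ℝ) 1, Cm2 (Real.exp (8 * Real.sqrt K)) (H x) (H (u, x.2))) := by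
  set F : ℝ × ℝ → ℝ := fun x => q (1, 0) (1, 0) H x + q (0, 1) (0, 1) H x with hFdef
  have hn1 : ∀ x ∈ U, 0 ≤ q (1, 0) (1, 0) H x := fun x hx => q_nonneg (pos_near hH.pos hx) _
  have hn2 : ∀ x ∈ U, 0 ≤ q (0, 1) (0, 1) H x := fun x hx => q_nonneg (pos_near hH.pos hx) _
  have hF0 : ∀ x ∈ U, 0 ≤ F x := fun x hx => add_nonneg (hn1 x hx) (hn2 x hx)
  have hF1 : ∀ x ∈ U, q (1, 0) (1, 0) H x ≤ F x := fun x hx => by
    have := hn2 x hx
    simp only [hFdef]; linarith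
  have hF2 : ∀ x ∈ U, q (0, 1) (0, 1) H x ≤ F x := fun x hx => by
    have := hn1 x hx
    simp only [hFdef]; linarith
  obtain ⟨S1, a1, a2, a3, a4⟩ := good_lines (F := F) hH.fin
    (by
      filter_upwards [ae_restrict_mem Mea_isOpen.measurableSet] with x hx
      exact hF0 x hx) hI hK
  obtain ⟨S2, b1, b2, b3, b4⟩ := line_ae (lz_ae hH.lip)
  let S3 : Set (ℝ × ℝ) := ({(1/2 : ℝ)} : Set ℝ) ×ˢ Ioo (0:ℝ) (1/2)
  have c1 : S3 ⊆ U := by
    rintro ⟨u, v⟩ ⟨h1, h2⟩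
    simp only [mem_singleton_iff] at h1
    refine ⟨?_, h2⟩
    show u ∈ Ioo (0:ℝ) 1
    rw [h1]
    constructor <;> norm_num
  have c2 : MeasurableSet S3 := (measurableSet_singleton _).prod measurableSet_Ioo
  have c3 : volume S3 = 0 := by
    show (volume : Measure (ℝ × ℝ)) _ = 0
    rw [Measure.volume_eq_prod, Measure.prod_prod, Real.volume_singleton, zero_mul]
  refine ⟨S1 ∪ S2 ∪ S3, union_subset (union_subset a1 b1) c1, (a2.union b2).union c2, ?_, ?_⟩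
  · refine (measure_union_le _ _).trans ?_
    rw [c3, add_zero]
    refine (measure_union_le _ _).trans ?_
    rw [b3, add_zero]
    exact a3
  rintro ⟨u0, v0⟩ ⟨hx, hxS⟩
  have hx1 : (u0, v0) ∈ U \ S1 := ⟨hx, fun h => hxS (Or.inl (Or.inl h))⟩
  have hx2 : (u0, v0) ∈ U \ S2 := ⟨hx, fun h => hxS (Or.inl (Or.inr h))⟩
  have hu : u0 ∈ Ioo (0:ℝ) 1 := hx.1
  have hv : v0 ∈ Ioo (0:ℝ) (1/2) := hx.2
  have hne : u0 ≠ 1/2 := by
    intro h
    exact hxS (Or.inr ⟨h, hv⟩)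
  obtain ⟨⟨p1, p2⟩, ⟨p3, p4⟩, ⟨p5, p6⟩⟩ := a4 _ hx1
  obtain ⟨r1, r2, r3⟩ := b4 _ hx2
  simp only at p1 p2 p3 p4 p5 p6 r1 r2 r3
  -- vertical lines
  have hvert : ∀ u ∈ Ioo (0:ℝ) 1, u ≠ 1/2 →
      (∀ᵐ v ∂(volume.restrict (Ioo (0:ℝ) (1/2))), ∀ i j,
        DifferentiableAt ℝ (fun y => H y i j) (u, v)) →
      IntervalIntegrable (fun v => F (u, v)) volume 0 (1/2) →
      ∫ v in (0:ℝ)..(1/2), F (u, v) ≤ K →
      ∀ s ∈ Icc (0:ℝ) (1/2), ∀ t ∈ Icc (0:ℝ) (1/2),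
        Cmp (Real.exp (2 * Real.sqrt K)) (H (u, s)) (H (u, t)) := by
    intro u hu hne hae hFi hFK
    have hd : 0 < min u (min |u - 1/2| (1 - u)) :=
      lt_min hu.1 (lt_min (abs_pos.2 (sub_ne_zero.2 hne)) (by linarith [hu.2]))
    refine Dsp_line hH (γ := fun v => (u, v)) (w := (0, 1)) ?_ ?_ (by norm_num) (by norm_num)
      hd hK ?_ ?_ hae hFi hFK hF2 hF0
    · intro s t
      rw [Prod.dist_eq]
      simp [Real.dist_eq]
    · intro t
      exact (hasDerivAt_const t u).prodMk (hasDerivAt_id t)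
    · intro t ht
      refine ⟨⟨⟨hu.1.le, hu.2.le⟩, ht⟩, fun p hp => ?_⟩
      rw [Prod.dist_eq]
      refine le_max_of_le_left ?_
      show _ ≤ dist u p.1
      rw [Real.dist_eq]
      have h1 := min_le_left u (min |u - 1/2| (1 - u))
      have h2 := (min_le_right u (min |u - 1/2| (1 - u))).trans (min_le_left _ _)
      have h3 := (min_le_right u (min |u - 1/2| (1 - u))).trans (min_le_right _ _)
      rcases hp.1 with h | h | h
      · rw [h, sub_zero]; exact h1.trans (le_abs_self _)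
      · rw [h]; exact h2
      · rw [mem_singleton_iff.1 h, abs_sub_comm u 1]; exact h3.trans (le_abs_self _)
    · intro t ht
      exact ⟨hu, ht⟩
  have hV1 := hvert u0 hu hne r1 p1 p2
  have hV2 := hvert (1 - u0) ⟨by linarith [hu.2], by linarith [hu.1]⟩
    (fun h => hne (by linarith)) r2 p3 p4
  have hHr : ∀ s ∈ Icc (0:ℝ) 1, ∀ t ∈ Icc (0:ℝ) 1,
      Cmp (Real.exp (2 * Real.sqrt K)) (H (s, v0)) (H (t, v0)) := by
    have hd : 0 < min v0 (1/2 - v0) := lt_min hv.1 (by linarith [hv.2])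
    refine Dsp_line hH (γ := fun u => (u, v0)) (w := (1, 0)) ?_ ?_ (by norm_num) (by norm_num)
      hd hK ?_ ?_ r3 p5 p6 hF1 hF0
    · intro s t
      rw [Prod.dist_eq]
      simp [Real.dist_eq]
    · intro t
      exact (hasDerivAt_id t).prodMk (hasDerivAt_const t v0)
    · intro t ht
      refine ⟨⟨ht, ⟨hv.1.le, hv.2.le⟩⟩, fun p hp => ?_⟩
      rw [Prod.dist_eq]
      refine le_max_of_le_right ?_
      show _ ≤ dist v0 p.2
      rw [Real.dist_eq]
      have h1 := min_le_left v0 (1/2 - v0)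
      have h2 := min_le_right v0 (1/2 - v0)
      rcases hp.2 with h | h
      · rw [h, sub_zero]; exact h1.trans (le_abs_self _)
      · rw [mem_singleton_iff.1 h, abs_sub_comm v0 (1/2)]; exact h2.trans (le_abs_self _)
    · intro t ht
      exact ⟨ht, hv⟩
  -- two-sided versions
  have h0 : (0:ℝ) ∈ Icc (0:ℝ) (1/2) := by constructor <;> norm_num
  have hh : (1/2:ℝ) ∈ Icc (0:ℝ) (1/2) := by constructor <;> norm_num
  have hvI : v0 ∈ Icc (0:ℝ) (1/2) := ⟨hv.1.le, hv.2.le⟩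
  have huI : u0 ∈ Icc (0:ℝ) 1 := ⟨hu.1.le, hu.2.le⟩
  have huI' : 1 - u0 ∈ Icc (0:ℝ) 1 := ⟨by linarith [hu.2], by linarith [hu.1]⟩
  have W1 : ∀ s ∈ Icc (0:ℝ) (1/2), ∀ t ∈ Icc (0:ℝ) (1/2),
      Cm2 (Real.exp (2 * Real.sqrt K)) (H (u0, s)) (H (u0, t)) :=
    fun s hs t ht => ⟨hV1 s hs t ht, hV1 t ht s hs⟩
  have W2 : ∀ s ∈ Icc (0:ℝ) (1/2), ∀ t ∈ Icc (0:ℝ) (1/2),
      Cm2 (Real.exp (2 * Real.sqrt K)) (H (1 - u0, s)) (H (1 - u0, t)) :=
    fun s hs t ht => ⟨hV2 s hs t ht, hV2 t ht s hs⟩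
  have W3 : ∀ s ∈ Icc (0:ℝ) 1, ∀ t ∈ Icc (0:ℝ) 1,
      Cm2 (Real.exp (2 * Real.sqrt K)) (H (s, v0)) (H (t, v0)) :=
    fun s hs t ht => ⟨hHr s hs t ht, hHr t ht s hs⟩
  have hk := Real.sqrt_nonneg K
  have hDv : ∀ v ∈ Icc (0:ℝ) (1/2), ∀ u ∈ Ioo (0:ℝ) 1, u ≠ 1/2 → (H (u, v)).PosDef := by
    intro v hv u hu hne
    refine hH.pos _ ⟨⟨⟨hu.1.le, hu.2.le⟩, hv⟩, fun hp => ?_⟩
    rcases hp.1 with h | h | h
    · exact hu.1.ne' h
    · exact hne h
    · exact hu.2.ne (mem_singleton_iff.1 h)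
  have hDu : ∀ u ∈ Icc (0:ℝ) 1, (H (u, v0)).PosDef := by
    intro u hu
    refine hH.pos _ ⟨⟨hu, hvI⟩, fun hp => ?_⟩
    rcases hp.2 with h | h
    · exact hv.1.ne' h
    · exact hv.2.ne (mem_singleton_iff.1 h)
  have hmono : ∀ {c : ℝ} {G J : Mt m}, c ≤ 8 * Real.sqrt K → G.PosDef → J.PosDef →
      Cm2 (Real.exp c) G J → Cm2 (Real.exp (8 * Real.sqrt K)) G J := by
    intro c G J hc hG hJ h
    exact ⟨Dsp_mono (Real.exp_le_exp.2 hc) hJ h.1, Dsp_mono (Real.exp_le_exp.2 hc) hG h.2⟩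
  have hx0 : (H (u0, v0)).PosDef := hDu u0 huI
  -- congruence metrics: semidefiniteness suffices
  have hmono' : ∀ {c : ℝ} {G : Mt m} (g : Mt m), c ≤ 8 * Real.sqrt K → G.PosDef →
      Cm2 (Real.exp c) G (g * G * gᴴ) → Cm2 (Real.exp (8 * Real.sqrt K)) G (g * G * gᴴ) := by
    intro c G g hc hG h
    refine ⟨fun x => (h.1 x).trans ?_, Dsp_mono (Real.exp_le_exp.2 hc) hG h.2⟩
    refine mul_le_mul_of_nonneg_right (Real.exp_le_exp.2 hc) ?_
    rw [Dsp_quad]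
    exact Dsp_nn hG _
  have hside : ∀ (T : Mt m) (e : ℝ), e ∈ Icc (0:ℝ) (1/2) →
      (∀ u ∈ Ioo (0:ℝ) (1/2), H (1 - u, e) = T * H (u, e) * Tᴴ) →
      Cm2 (Real.exp (8 * Real.sqrt K)) (H (u0, v0)) (T * H (u0, v0) * Tᴴ) := by
    intro T e he hgl
    refine hmono' (c := 2 * Real.sqrt K + 2 * Real.sqrt K + 2 * Real.sqrt K) T (by linarith)
      hx0 ?_
    rcases lt_or_gt_of_ne hne with h | h
    · have hg := hgl u0 ⟨hu.1, h⟩
      have s1 := Dsp_c2trans (W3 u0 huI (1 - u0) huI') (W2 v0 hvI e he)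
      rw [hg] at s1
      exact Dsp_c2trans s1 (Dsp_c2congr T (W1 e he v0 hvI))
    · have hg := hgl (1 - u0) ⟨by linarith [hu.2], by linarith⟩
      have e1 : 1 - (1 - u0) = u0 := by ring
      rw [e1] at hg
      have s1 := W1 v0 hvI e he
      rw [hg] at s1
      exact Dsp_c2trans (Dsp_c2trans s1 (Dsp_c2congr T (W2 e he v0 hvI)))
        (Dsp_c2congr T (W3 (1 - u0) huI' u0 huI))
  refine ⟨hne, hside A 0 h0 hH.glA, hside B (1/2) hh hH.glB, ?_, ?_, ?_, ?_⟩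
  · refine hmono' (c := 2 * Real.sqrt K + 2 * Real.sqrt K) C (by linarith) hx0 ?_
    have s1 := W3 u0 huI 1 ⟨by norm_num, le_rfl⟩
    rw [hH.glC v0 hv] at s1
    exact Dsp_c2trans s1 (Dsp_c2congr C (W3 0 ⟨le_rfl, by norm_num⟩ u0 huI))
  · intro v hv'
    exact hmono (by linarith) hx0 (hDv v hv' u0 hu hne) (W1 v0 hvI v hv')
  · intro v hv'
    have hu' : 1 - u0 ∈ Ioo (0:ℝ) 1 := ⟨by linarith [hu.2], by linarith [hu.1]⟩
    exact hmono (c := 2 * Real.sqrt K + 2 * Real.sqrt K) (by linarith) hx0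
      (hDv v hv' (1 - u0) hu' (fun h => hne (by linarith)))
      (Dsp_c2trans (W3 u0 huI (1 - u0) huI') (W2 v0 hvI v hv'))
  · intro u hu'
    exact hmono (by linarith) hx0 (hDu u hu') (W3 u0 huI u hu')

end H80HM
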