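import Pool.Agent.H80.HM.Def2
import Pool.Agent.H80.HM.Dsp

set_option autoImplicit false

/-!
# Definitions for the construction of metrics of small energy near the cusp
-/

namespace H80HM

open Matrix MeasureTheory Set

noncomputable section

/-- the punctures on the bottom side -/
def P0 : Set (ℝ × ℝ) := ({0, 1/2, 1} : Set ℝ) ×ˢ ({0} : Set ℝ)

/-- jumps from 0 to 1 at the puncture (1/2, 0) -/
def th1 (x : ℝ × ℝ) : ℝ :=
  (1 + max (-1) (min 1 (2 * (x.1 - 1/2) / max |x.1 - 1/2| (min x.2 (1/6))))) / 2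

/-- jumps from 0 to 1 at the puncture (1, 0) -/
def th2 (x : ℝ × ℝ) : ℝ :=
  1 - max 0 (min 1 (2 * (1 - x.1) / max (1 - x.1) (min x.2 (1/6))))

/-- distance to the bottom punctures, for points of D -/
def rr (x : ℝ × ℝ) : ℝ := max (min (min x.1 |x.1 - 1/2|) (1 - x.1)) x.2

/-- the size function -/
def SS (S0 R : ℝ) (x : ℝ × ℝ) : ℝ := S0 + max 0 (Real.log (Real.log (1 / rr x) / R))

variable {m : ℕ}

/-- the unitriangular factor -/
def Wb (al ga : Mt m) (x : ℝ × ℝ) : Mt m :=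
  1 + ((th1 x : ℝ) : ℂ) • (al - 1) + ((th2 x : ℝ) : ℂ) • (ga - al)

/-- W lambda lambda* W* -/
def Fw (w : Fin m → ℕ) (W : ℝ × ℝ → Mt m) (S : ℝ × ℝ → ℝ) (x : ℝ × ℝ) : Mt m :=
  W x * lamS w (S x) * (lamS w (S x))ᴴ * (W x)ᴴ

end

end H80HM
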