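import Pool.Agent.H80.HM.Def4

set_option autoImplicit false

/-!
# Definitions for the algebraic part, second list
-/

namespace H80HM

open Matrix

noncomputable section

/-- the representation of the free group on three letters -/
def pi3 {D' : ℕ} (a b c : (Mt D')ˣ) : FreeGroup (Fin 3) →* (Mt D')ˣ := FreeGroup.lift ![a, b, c]

def xx : FreeGroup (Fin 3) := FreeGroup.of 0
def yy : FreeGroup (Fin 3) := FreeGroup.of 1
def pp : FreeGroup (Fin 3) := FreeGroup.of 2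

/-- the twist by the automorphism x -> v, y -> w, p -> p is isomorphic to pi -/
def Tw {D' : ℕ} (pi : FreeGroup (Fin 3) →* (Mt D')ˣ) (v w : FreeGroup (Fin 3)) : Prop :=
  ∃ a : FreeGroup (Fin 3) ≃* FreeGroup (Fin 3), a xx = v ∧ a yy = w ∧ a pp = pp ∧
    ∃ T : (Mt D')ˣ, ∀ g, pi (a g) = T * pi g * T⁻¹

/-- all elements of the group generated by v, w have eigenvalues of modulus one -/
def Mpr {D' : ℕ} (pi : FreeGroup (Fin 3) →* (Mt D')ˣ) (v w : FreeGroup (Fin 3)) : Prop :=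
  ∀ g ∈ Subgroup.closure ({v, w} : Set (FreeGroup (Fin 3))), Mo ((pi g : (Mt D')ˣ) : Mt D')

/-- the six twists -/
def Tw6 {D' : ℕ} (pi : FreeGroup (Fin 3) →* (Mt D')ˣ) : Prop :=
  Tw pi (yy * xx⁻¹) yy ∧ Tw pi xx (xx * yy⁻¹) ∧ Tw pi xx (xx * pp⁻¹ * yy⁻¹ * pp) ∧
    Tw pi (yy⁻¹ * xx) (yy⁻¹ * xx * yy) ∧ Tw pi (xx⁻¹ * yy * xx) (xx⁻¹ * yy) ∧
    Tw pi (xx⁻¹ * yy) (xx⁻¹ * yy * pp⁻¹ * xx * pp)

/-- the five pairs -/
def Mp5 {D' : ℕ} (pi : FreeGroup (Fin 3) →* (Mt D')ˣ) : Prop :=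
  Mpr pi yy pp ∧ Mpr pi xx yy ∧ Mpr pi xx pp ∧ Mpr pi (yy * pp⁻¹) (xx * pp⁻¹) ∧
    Mpr pi yy (xx * pp⁻¹)

/-- L is contained in the image, under an automorphism, of the subgroup generated by a proper
subset of the basis -/
def Pf {I : Type} (L : Subgroup (FreeGroup I)) : Prop :=
  ∃ (i0 : I) (th : FreeGroup I ≃* FreeGroup I), ∀ l ∈ L,
    ∃ l' ∈ Subgroup.closure (FreeGroup.of '' {i : I | i ≠ i0}), th l' = l

/-- X_0 X_1 ... X_{j-1} -/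
def Pj (k e j : ℕ) : FG k e := ((List.ofFn (Xb : Fin k → FG k e)).take j).prod

def L1 (k e : ℕ) : Subgroup (FG k e) := Subgroup.closure ({tt k e} ∪ Set.range Yb)

def L2 (k e : ℕ) : Subgroup (FG k e) := Subgroup.closure ({tt k e} ∪ Set.range Xb)

def L3 {k : ℕ} (e : ℕ) (hk : 0 < k) : Subgroup (FG k e) :=
  Subgroup.closure {Xb ⟨0, hk⟩, Yb ⟨0, hk⟩}

def L4 (k e : ℕ) : Subgroup (FG k e) :=
  Subgroup.closure ({Pj k e k * (tt k e)⁻¹} ∪
    Set.range fun j : Fin k => Pj k e j * Yb j * (Pj k e j)⁻¹)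

def L5 (k e : ℕ) : Subgroup (FG k e) :=
  Subgroup.closure ({Pj k e k * (tt k e)⁻¹} ∪
    Set.range fun j : Fin k => Pj k e j * (Yb j * (Xb j)⁻¹) * (Pj k e j)⁻¹)

end

end H80HM
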