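import Pool.Agent.H80.HM.Lpf
import Pool.Agent.H80.HM.Sib

set_option autoImplicit false

/-!
# Row Dkr: derivative of the functional calculus (Daleckii-Krein) at a point of differentiability

Setting: H, G are positive definite near x and their entries are differentiable at x; frame FrL (H x) (G x) Q lam, E = diag(exp lam),
T = G H^{-1} (differentiable at x, T(x) = Q E Q^{-1}).
Put t(v) := Q^{-1} (d_v T)(x) Q and a(v) := Q^{-1} aa v H x Q = (1/2) Q^{-1} (d_v H) Q^{-*} (Hermitian because d_v H is Hermitian).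
With g(v) := Q^{-1} (d_v G) Q^{-*} (Hermitian) one has t = g - E 2a (derivative of G H^{-1}), so Gam := t - [a,E] = g - E a - a E is Hermitian.
Put s(v)_ij := Gam_ij / edd(lam_i, lam_j), edd(p,r) = (exp p - exp r)/(p - r) or exp p if p = r (real, symmetric, positive). s is Hermitian and linear in v.
CLAIM for phi of class C^1: y -> fcal phi (H y) (G y) is differentiable at x (entrywise) with
   Q^{-1} d_v (fcal phi) Q = dd phi (lam_i, lam_j) s_ij + a_ij (phi(lam_j) - phi(lam_i)).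
Write f = phi o log on (0,oo), so fcal phi H G = f(T), f^{[1]}(e_i,e_j) = dd phi(lam_i,lam_j)/edd(lam_i,lam_j) with e_i = exp lam_i (chain rule if
lam_i = lam_j), and t = Gam + aE - Ea: f^{[1]} o t = dd phi o s + f^{[1]}(e_i,e_j) a_ij (e_j - e_i) = dd phi o s + a_ij (phi(lam_j) - phi(lam_i)). So the
claim says: Q^{-1} d(f(T)) Q = f^{[1]} o (Q^{-1} dT Q).
(i) f polynomial: d(T^k) = sum T^i dT T^{k-1-i}; in the frame: sum_i e_p^i e_r^{k-1-i} t_pr = (e_p^k - e_r^k)/(e_p - e_r) t_pr (k e_p^{k-1} t_pr if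
  e_p = e_r). fcal (fun t => p(exp t)) H G = p(T) for a polynomial p (frame computation).
(ii) general f: fix eps > 0 and a compact interval [c,d] in (0,oo) containing a neighbourhood of all e_i; for y near x the eigenvalues of T(y) are
  in [c,d] (or use the bounds of row Lpf). Weierstrass for f' gives a polynomial p with |f'-p'| <= eps on [c,d] and p(c) = f(c). fcal_lip_unif of row Lpf
  (constant linear in the Lipschitz constant of phi - p o exp on [-L,L]) gives |fcal (phi - p o exp) at y minus at x| <= C eps |y-x| with C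
  independent of eps (near x the matrices H, G and their inverses are bounded: Bdm R for some R). Also |f^{[1]} - p^{[1]}| <= eps on [c,d]^2. Hence |Q^{-1}(f(T(y))-f(T(x)))Q - f^{[1]} o (Q^{-1} dT(y-x) Q)|
  <= C' eps |y-x| + o(|y-x|); eps arbitrary.
(Alternatively a direct proof with frames Q(y), lam(y): Q^{-1}(f(T(y))-f(T(x)))Q(y) has entries f^{[1]}(e_p, e_r(y)) (Q^{-1}(T(y)-T(x))Q(y))_pr.)
-/

namespace H80HM

open Matrix MeasureTheory Set Filter Topology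
open scoped ComplexOrder

/-- entrywise differentiability -/
def Dkr_D {m : ℕ} (F : ℝ × ℝ → Mt m) (x : ℝ × ℝ) : Prop :=
  ∀ i j, DifferentiableAt ℝ (fun y => F y i j) x

theorem Dkr_mul {m : ℕ} {A B : ℝ × ℝ → Mt m} {x : ℝ × ℝ} (hA : Dkr_D A x) (hB : Dkr_D B x) :
    Dkr_D (fun y => A y * B y) x ∧
      ∀ t, pd t (fun y => A y * B y) x = pd t A x * B x + A x * pd t B x := by
  have h1 : ∀ i j, DifferentiableAt ℝ (fun y => ∑ k, A y i k * B y k j) x := fun i j =>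
    DifferentiableAt.fun_sum fun k _ => (hA i k).fun_mul (hB k j)
  refine ⟨fun i j => ?_, fun t => ?_⟩
  · simpa only [Matrix.mul_apply] using h1 i j
  · ext i j
    simp only [pd, Matrix.of_apply, Matrix.add_apply, Matrix.mul_apply]
    rw [fderiv_fun_sum (fun k _ => (hA i k).fun_mul (hB k j))]
    rw [_root_.sum_apply, ← Finset.sum_add_distrib]
    refine Finset.sum_congr rfl fun k _ => ?_
    rw [fderiv_fun_mul (hA i k) (hB k j)]
    simp only [_root_.add_apply, _root_.smul_apply, smul_eq_mul]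
    ring

theorem Dkr_add {m : ℕ} {A B : ℝ × ℝ → Mt m} {x : ℝ × ℝ} (hA : Dkr_D A x) (hB : Dkr_D B x) :
    Dkr_D (fun y => A y + B y) x ∧
      ∀ t, pd t (fun y => A y + B y) x = pd t A x + pd t B x := by
  refine ⟨fun i j => ?_, fun t => ?_⟩
  · simpa only [Matrix.add_apply] using (hA i j).fun_add (hB i j)
  · ext i j
    simp only [pd, Matrix.of_apply, Matrix.add_apply]
    rw [fderiv_fun_add (hA i j) (hB i j)]
    rfl

theorem Dkr_const {m : ℕ} (A : Mt m) (x : ℝ × ℝ) :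
    Dkr_D (fun _ => A) x ∧ ∀ t, pd t (fun _ => A) x = 0 := by
  refine ⟨fun i j => differentiableAt_const _, fun t => ?_⟩
  ext i j
  simp [pd]

theorem Dkr_congr {m : ℕ} {A B : ℝ × ℝ → Mt m} {x : ℝ × ℝ} (h : ∀ᶠ y in 𝓝 x, A y = B y)
    (hA : Dkr_D A x) : Dkr_D B x ∧ ∀ t, pd t B x = pd t A x := by
  have h1 : ∀ i j, (fun y => B y i j) =ᶠ[𝓝 x] (fun y => A y i j) := fun i j => by
    filter_upwards [h] with y hy
    rw [hy]
  refine ⟨fun i j => (hA i j).congr_of_eventuallyEq (h1 i j), fun t => ?_⟩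
  ext i j
  simp only [pd, Matrix.of_apply]
  rw [(h1 i j).fderiv_eq]

theorem Dkr_prod {ι : Type} {x : ℝ × ℝ} (u : Finset ι) (f : ι → ℝ × ℝ → ℂ)
    (h : ∀ i, DifferentiableAt ℝ (f i) x) : DifferentiableAt ℝ (fun y => ∏ i ∈ u, f i y) x := by
  classical
  induction u using Finset.induction_on with
  | empty => simp
  | insert a s ha ih =>
    simp only [Finset.prod_insert ha]
    exact (h a).fun_mul ih

theorem Dkr_det {m : ℕ} {A : ℝ × ℝ → Mt m} {x : ℝ × ℝ} (hA : Dkr_D A x) :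
    DifferentiableAt ℝ (fun y => (A y).det) x := by
  simp only [Matrix.det_apply']
  refine DifferentiableAt.fun_sum fun s _ => ?_
  exact (Dkr_prod Finset.univ (fun i y => A y (s i) i) (fun i => hA _ _)).const_mul _

theorem Dkr_adj {m : ℕ} {A : ℝ × ℝ → Mt m} {x : ℝ × ℝ} (hA : Dkr_D A x) :
    Dkr_D (fun y => (A y).adjugate) x := by
  intro i j
  simp only [Matrix.adjugate_apply]
  refine Dkr_det (A := fun y => (A y).updateRow j (Pi.single i 1)) ?_
  intro k l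
  simp only [Matrix.updateRow_apply]
  split_ifs
  · exact differentiableAt_const _
  · exact hA k l

theorem Dkr_inv {m : ℕ} {H : ℝ × ℝ → Mt m} {x : ℝ × ℝ}
    (hH : ∀ᶠ y in 𝓝 x, IsUnit (H y).det) (dH : Dkr_D H x) :
    Dkr_D (fun y => (H y)⁻¹) x ∧
      ∀ t, pd t (fun y => (H y)⁻¹) x = - ((H x)⁻¹ * pd t H x * (H x)⁻¹) := by
  have hx : IsUnit (H x).det := hH.self_of_nhds
  have h1 : Dkr_D (fun y => (H y)⁻¹) x := by
    intro i j
    simp only [Matrix.inv_def, Matrix.smul_apply, Ring.inverse_eq_inv', smul_eq_mul]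
    exact ((Dkr_det dH).inv hx.ne_zero).mul (Dkr_adj dH i j)
  refine ⟨h1, fun t => ?_⟩
  have h2 := Dkr_congr (A := fun y => H y * (H y)⁻¹) (B := fun _ => (1 : Mt m)) (x := x)
    (by filter_upwards [hH] with y hy using Matrix.mul_nonsing_inv _ hy) (Dkr_mul dH h1).1
  have h3 := h2.2 t
  rw [(Dkr_const 1 x).2 t, (Dkr_mul dH h1).2 t] at h3
  have h4 : (H x)⁻¹ * (pd t H x * (H x)⁻¹ + H x * pd t (fun y => (H y)⁻¹) x) = 0 := by
    rw [← h3, mul_zero]
  rw [mul_add, ← mul_assoc, ← mul_assoc, Matrix.nonsing_inv_mul _ hx, one_mul] at h4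
  exact (eq_neg_of_add_eq_zero_right h4)

theorem Dkr_mm {m : ℕ} {Q : Mt m} (hQ : IsUnit Q.det) (A B : Mt m) :
    (Q * A * Q⁻¹) * (Q * B * Q⁻¹) = Q * (A * B) * Q⁻¹ := by
  have hq' : Q⁻¹ * Q = 1 := Matrix.nonsing_inv_mul _ hQ
  calc (Q * A * Q⁻¹) * (Q * B * Q⁻¹) = Q * A * (Q⁻¹ * Q) * B * Q⁻¹ := by simp only [mul_assoc]
    _ = _ := by rw [hq', mul_one]; simp only [mul_assoc]

theorem Dkr_aeval {m : ℕ} {Q : Mt m} (hQ : IsUnit Q.det) (e : Fin m → ℝ) (p : Polynomial ℝ) :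
    Polynomial.aeval (Q * diagonal (fun i => ((e i : ℝ) : ℂ)) * Q⁻¹) p =
      Q * diagonal (fun i => ((p.eval (e i) : ℝ) : ℂ)) * Q⁻¹ := by
  have hq : Q * Q⁻¹ = 1 := Matrix.mul_nonsing_inv _ hQ
  have hq' : Q⁻¹ * Q = 1 := Matrix.nonsing_inv_mul _ hQ
  induction p using Polynomial.induction_on with
  | C a =>
    rw [Polynomial.aeval_C]
    have h1 : (diagonal (fun i => (((Polynomial.C a).eval (e i) : ℝ) : ℂ)) : Mt m) =
        algebraMap ℝ (Mt m) a := by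
      ext i j
      rw [Matrix.algebraMap_matrix_apply]
      by_cases h : i = j
      · subst h; simp
      · simp [h]
    rw [h1, ← Algebra.commutes, mul_assoc, hq, mul_one]
  | add p q hp hq =>
    rw [map_add, hp, hq, ← add_mul, ← mul_add, Matrix.diagonal_add]
    simp
  | monomial n a h =>
    have h2 : (Polynomial.C a * Polynomial.X ^ (n + 1) : Polynomial ℝ) =
        Polynomial.X * (Polynomial.C a * Polynomial.X ^ n) := by ring
    rw [h2, map_mul, h, Polynomial.aeval_X]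
    have h3 : (diagonal (fun i => (((Polynomial.X * (Polynomial.C a * Polynomial.X ^ n)).eval (e i) : ℝ) : ℂ)) : Mt m) =
        diagonal (fun i => ((e i : ℝ) : ℂ)) *
          diagonal (fun i => (((Polynomial.C a * Polynomial.X ^ n).eval (e i) : ℝ) : ℂ)) := by
      rw [Matrix.diagonal_mul_diagonal]
      refine congrArg _ (funext fun i => ?_)
      rw [Polynomial.eval_mul, Polynomial.eval_X]
      push_cast
      ring
    rw [h3, Dkr_mm hQ]

/-- divided difference of a polynomial -/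
noncomputable def Dkr_P (p : Polynomial ℝ) (a b : ℝ) : ℝ :=
  if a = b then p.derivative.eval a else (p.eval a - p.eval b) / (a - b)

theorem Dkr_P_C (c a b : ℝ) : Dkr_P (Polynomial.C c) a b = 0 := by
  simp [Dkr_P]

theorem Dkr_P_add (p q : Polynomial ℝ) (a b : ℝ) :
    Dkr_P (p + q) a b = Dkr_P p a b + Dkr_P q a b := by
  unfold Dkr_P
  split_ifs with h
  · simp
  · rw [← add_div]
    congr 1
    simp only [Polynomial.eval_add]
    ring

theorem Dkr_P_mul (q : Polynomial ℝ) (a b : ℝ) :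
    Dkr_P (Polynomial.X * q) a b = q.eval b + a * Dkr_P q a b := by
  unfold Dkr_P
  split_ifs with h
  · subst h
    simp
  · have h1 : a - b ≠ 0 := sub_ne_zero.2 h
    rw [← mul_div_assoc, eq_comm, ← sub_eq_zero]
    field_simp
    simp only [Polynomial.eval_mul, Polynomial.eval_X]
    ring

theorem Dkr_poly {m : ℕ} {T : ℝ × ℝ → Mt m} {x : ℝ × ℝ} (hT : Dkr_D T x) {Q : Mt m}
    (hQ : IsUnit Q.det) (e : Fin m → ℝ)
    (hx : T x = Q * diagonal (fun i => ((e i : ℝ) : ℂ)) * Q⁻¹) (p : Polynomial ℝ) :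
    Dkr_D (fun y => Polynomial.aeval (T y) p) x ∧
    ∀ t, pd t (fun y => Polynomial.aeval (T y) p) x =
      Q * (Matrix.of fun i j => ((Dkr_P p (e i) (e j) : ℝ) : ℂ) *
        (Q⁻¹ * pd t T x * Q) i j) * Q⁻¹ := by
  have hq : Q * Q⁻¹ = 1 := Matrix.mul_nonsing_inv _ hQ
  have hq' : Q⁻¹ * Q = 1 := Matrix.nonsing_inv_mul _ hQ
  induction p using Polynomial.induction_on with
  | C a =>
    simp only [Polynomial.aeval_C]
    refine ⟨(Dkr_const _ _).1, fun t => ?_⟩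
    rw [(Dkr_const _ _).2]
    have h1 : (Matrix.of fun i j => ((Dkr_P (Polynomial.C a) (e i) (e j) : ℝ) : ℂ) *
        (Q⁻¹ * pd t T x * Q) i j : Mt m) = 0 := by
      ext i j
      simp [Dkr_P_C]
    rw [h1]
    simp
  | add p q hp hq =>
    simp only [map_add]
    have h1 := Dkr_add hp.1 hq.1
    refine ⟨h1.1, fun t => ?_⟩
    rw [h1.2, hp.2, hq.2, ← add_mul, ← mul_add]
    congr 2
    ext i j
    simp only [Matrix.add_apply, Matrix.of_apply, Dkr_P_add]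
    push_cast
    ring
  | monomial n a h =>
    have h2 : (Polynomial.C a * Polynomial.X ^ (n + 1) : Polynomial ℝ) =
        Polynomial.X * (Polynomial.C a * Polynomial.X ^ n) := by ring
    rw [h2]
    generalize (Polynomial.C a * Polynomial.X ^ n : Polynomial ℝ) = q at h
    simp only [map_mul, Polynomial.aeval_X]
    have h1 := Dkr_mul hT h.1
    refine ⟨h1.1, fun t => ?_⟩
    rw [h1.2, h.2, hx, Dkr_aeval hQ]
    set Y := Q⁻¹ * pd t T x * Q with hY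
    have h3 : pd t T x = Q * Y * Q⁻¹ := by
      rw [hY]
      calc pd t T x = (Q * Q⁻¹) * pd t T x * (Q * Q⁻¹) := by rw [hq, one_mul, mul_one]
        _ = _ := by simp only [mul_assoc]
    rw [h3]
    have h4 : (Matrix.of fun i j => ((Dkr_P (Polynomial.X * q) (e i) (e j) : ℝ) : ℂ) * Y i j : Mt m) =
        Y * diagonal (fun i => ((q.eval (e i) : ℝ) : ℂ)) + diagonal (fun i => ((e i : ℝ) : ℂ)) *
          (Matrix.of fun i j => ((Dkr_P q (e i) (e j) : ℝ) : ℂ) * Y i j) := by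
      ext i j
      rw [Matrix.add_apply, Matrix.mul_diagonal, Matrix.diagonal_mul, Matrix.of_apply,
        Matrix.of_apply, Dkr_P_mul]
      push_cast
      ring
    rw [h4, mul_add, add_mul, Dkr_mm hQ, Dkr_mm hQ]
theorem Dkr_herm (s : Finset ℝ) (V W : ℝ → ℝ) :
    ∃ p : Polynomial ℝ, ∀ z ∈ s, p.eval z = V z ∧ p.derivative.eval z = W z := by
  classical
  have hid : Set.InjOn (id : ℝ → ℝ) s := fun a _ b _ h => h
  let p0 := Lagrange.interpolate s id V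
  let L := Lagrange.nodal s (id : ℝ → ℝ)
  let q := Lagrange.interpolate s id
    (fun z => (W z - p0.derivative.eval z) / L.derivative.eval z)
  refine ⟨p0 + L * q, fun z hz => ?_⟩
  have h1 : p0.eval z = V z := by
    have := Lagrange.eval_interpolate_at_node (r := V) hid hz
    exact this
  have h2 : L.eval z = 0 := by
    have := Lagrange.eval_nodal_at_node (v := (id : ℝ → ℝ)) hz
    exact this
  have h3 : L.derivative.eval z ≠ 0 := by
    have h4 := Lagrange.eval_nodal_derivative_eval_node_eq (v := (id : ℝ → ℝ)) hz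
    have h5 : L.derivative.eval z = (Lagrange.nodal (s.erase z) (id : ℝ → ℝ)).eval z := h4
    rw [h5]
    refine Lagrange.eval_nodal_not_at_node fun i hi => ?_
    exact (Finset.ne_of_mem_erase hi).symm
  have h6 : q.eval z = (W z - p0.derivative.eval z) / L.derivative.eval z := by
    have := Lagrange.eval_interpolate_at_node
      (r := (fun z => (W z - p0.derivative.eval z) / L.derivative.eval z)) hid hz
    exact this
  refine ⟨?_, ?_⟩
  · rw [Polynomial.eval_add, Polynomial.eval_mul, h1, h2]; ring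
  · rw [Polynomial.derivative_add, Polynomial.derivative_mul, Polynomial.eval_add,
      Polynomial.eval_add, Polynomial.eval_mul, Polynomial.eval_mul, h2, h6]
    field_simp
    ring

theorem Dkr_inv_bd {m : ℕ} {H Q : Mt m} (hQ : IsUnit Q.det) (hH : H = Q * Qᴴ) (i j : Fin m) :
    ‖Q i j‖ ^ 2 ≤ ‖H i i‖ ∧ ‖Q⁻¹ i j‖ ^ 2 ≤ ‖H⁻¹ j j‖ := by
  have hq : Q * Q⁻¹ = 1 := Matrix.mul_nonsing_inv _ hQ
  have key : ∀ (S : Mt m) (a b : Fin m), ‖S a b‖ ^ 2 ≤ ‖(S * Sᴴ) a a‖ := by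
    intro S a b
    have h1 : (S * Sᴴ) a a = ((∑ k, ‖S a k‖ ^ 2 : ℝ) : ℂ) := by
      rw [Matrix.mul_apply]
      push_cast
      refine Finset.sum_congr rfl fun k _ => ?_
      rw [Matrix.conjTranspose_apply, Complex.star_def, Complex.mul_conj, Complex.normSq_eq_norm_sq]
      push_cast
      rfl
    rw [h1, Complex.norm_real, Real.norm_of_nonneg (Finset.sum_nonneg fun k _ => sq_nonneg _)]
    exact Finset.single_le_sum (f := fun k => ‖S a k‖ ^ 2) (fun k _ => sq_nonneg _) (Finset.mem_univ b)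
  refine ⟨hH ▸ key Q i j, ?_⟩
  have h2 : H⁻¹ = (Q⁻¹)ᴴ * Q⁻¹ := by
    rw [hH, Matrix.mul_inv_rev, Matrix.conjTranspose_nonsing_inv]
  have h3 := key (Q⁻¹)ᴴ j i
  rw [Matrix.conjTranspose_conjTranspose, ← h2, Matrix.conjTranspose_apply, norm_star] at h3
  exact h3

theorem Dkr_fcal {m : ℕ} {H G Q : Mt m} {lam : Fin m → ℝ} (h : FrL H G Q lam) :
    G * H⁻¹ = Q * diagonal (fun i => ((Real.exp (lam i) : ℝ) : ℂ)) * Q⁻¹ := by
  obtain ⟨hQ, hH, hG⟩ := h
  have hs : IsUnit (Qᴴ).det := by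
    rw [Matrix.det_conjTranspose]; exact hQ.star
  rw [hH, hG, Matrix.mul_inv_rev]
  calc Q * diagonal (fun i => ((Real.exp (lam i) : ℝ) : ℂ)) * Qᴴ * ((Qᴴ)⁻¹ * Q⁻¹)
      = Q * diagonal (fun i => ((Real.exp (lam i) : ℝ) : ℂ)) * (Qᴴ * (Qᴴ)⁻¹) * Q⁻¹ := by
        simp only [mul_assoc]
    _ = _ := by rw [Matrix.mul_nonsing_inv _ hs, mul_one]

theorem Dkr_mul_bd {m : ℕ} (A B : Mt m) (a b : ℝ) (hA : ∀ i j, ‖A i j‖ ≤ a)
    (hB : ∀ i j, ‖B i j‖ ≤ b) (i j : Fin m) : ‖(A * B) i j‖ ≤ m * (a * b) := by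
  have ha : 0 ≤ a := le_trans (norm_nonneg _) (hA i j)
  rw [Matrix.mul_apply]
  refine (norm_sum_le _ _).trans ?_
  have h1 : ∀ k ∈ (Finset.univ : Finset (Fin m)), ‖A i k * B k j‖ ≤ a * b := by
    intro k _
    rw [norm_mul]
    exact mul_le_mul (hA i k) (hB k j) (norm_nonneg _) ha
  refine (Finset.sum_le_sum h1).trans ?_
  simp

theorem Dkr_z {m : ℕ} {Q Q' : Mt m} (hq' : Q⁻¹ * Q = 1) (hp' : Q'⁻¹ * Q' = 1) (E E' : Mt m) :
    Q⁻¹ * (Q' * E' * Q'⁻¹ - Q * E * Q⁻¹) * Q' = Q⁻¹ * Q' * E' - E * (Q⁻¹ * Q') := by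
  have e1 : Q⁻¹ * (Q' * E' * Q'⁻¹) * Q' = Q⁻¹ * Q' * E' := by
    calc Q⁻¹ * (Q' * E' * Q'⁻¹) * Q' = Q⁻¹ * Q' * E' * (Q'⁻¹ * Q') := by simp only [mul_assoc]
      _ = _ := by rw [hp', mul_one]
  have e2 : Q⁻¹ * (Q * E * Q⁻¹) * Q' = E * (Q⁻¹ * Q') := by
    calc Q⁻¹ * (Q * E * Q⁻¹) * Q' = (Q⁻¹ * Q) * (E * (Q⁻¹ * Q')) := by simp only [mul_assoc]
      _ = _ := by rw [hq', one_mul]
  rw [mul_sub, sub_mul, e1, e2]

theorem Dkr_bf {m : ℕ} {Q Q' : Mt m} (hQ : IsUnit Q.det) (hQ' : IsUnit Q'.det)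
    (e e' : Fin m → ℝ) (M K : ℝ) (h1 : ∀ i j, ‖Q i j‖ ≤ M) (h2 : ∀ i j, ‖Q⁻¹ i j‖ ≤ M)
    (h3 : ∀ i j, ‖Q' i j‖ ≤ M) (h4 : ∀ i j, ‖Q'⁻¹ i j‖ ≤ M)
    (hK : ∀ k l, ‖(Q' * diagonal (fun i => ((e' i : ℝ) : ℂ)) * Q'⁻¹ -
      Q * diagonal (fun i => ((e i : ℝ) : ℂ)) * Q⁻¹) k l‖ ≤ K) (r : Fin m) :
    ∃ p, |e' r - e p| ≤ (m : ℝ) ^ 4 * M ^ 4 * K := by
  have hq : Q * Q⁻¹ = 1 := Matrix.mul_nonsing_inv _ hQ
  have hq' : Q⁻¹ * Q = 1 := Matrix.nonsing_inv_mul _ hQ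
  have hp' : Q'⁻¹ * Q' = 1 := Matrix.nonsing_inv_mul _ hQ'
  have hM : 0 ≤ M := le_trans (norm_nonneg _) (h1 r r)
  have hK0 : 0 ≤ K := le_trans (norm_nonneg _) (hK r r)
  have hm : (0:ℝ) < m := by
    have : 0 < m := Fin.pos r
    exact_mod_cast this
  set R0 : Mt m := Q⁻¹ * Q' with hR0
  set S0 : Mt m := Q'⁻¹ * Q with hS0
  have hSR : S0 * R0 = 1 := by
    rw [hS0, hR0]
    calc Q'⁻¹ * Q * (Q⁻¹ * Q') = Q'⁻¹ * (Q * Q⁻¹) * Q' := by simp only [mul_assoc]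
      _ = 1 := by rw [hq, mul_one, hp']
  have hS : ∀ i j, ‖S0 i j‖ ≤ m * (M * M) := Dkr_mul_bd _ _ _ _ h4 h1
  obtain ⟨p, hp⟩ : ∃ p, 1 / (m:ℝ) ≤ ‖S0 r p * R0 p r‖ := by
    by_contra hcon
    push Not at hcon
    have h5 : (1:ℂ) = ∑ p, S0 r p * R0 p r := by
      rw [← Matrix.mul_apply, hSR, Matrix.one_apply_eq]
    have h6 : (1:ℝ) ≤ ∑ p, ‖S0 r p * R0 p r‖ := by
      calc (1:ℝ) = ‖(1:ℂ)‖ := by simp
        _ = ‖∑ p, S0 r p * R0 p r‖ := by rw [← h5]
        _ ≤ _ := norm_sum_le _ _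
    have h7 : ∑ p, ‖S0 r p * R0 p r‖ < ∑ _p : Fin m, 1 / (m:ℝ) :=
      Finset.sum_lt_sum_of_nonempty ⟨r, Finset.mem_univ r⟩ fun p _ => hcon p
    have h8 : ∑ _p : Fin m, 1 / (m:ℝ) = 1 := by
      simp
      field_simp
    linarith
  refine ⟨p, ?_⟩
  set D := Q' * diagonal (fun i => ((e' i : ℝ) : ℂ)) * Q'⁻¹ -
      Q * diagonal (fun i => ((e i : ℝ) : ℂ)) * Q⁻¹ with hD
  have hZ : Q⁻¹ * D * Q' = R0 * diagonal (fun i => ((e' i : ℝ) : ℂ)) -
      diagonal (fun i => ((e i : ℝ) : ℂ)) * R0 := by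
    rw [hD, hR0]
    exact Dkr_z hq' hp' _ _
  have hZ1 : (Q⁻¹ * D * Q') p r = R0 p r * (((e' r - e p : ℝ)) : ℂ) := by
    rw [hZ, Matrix.sub_apply, Matrix.mul_diagonal, Matrix.diagonal_mul]
    push_cast
    ring
  have hZ2 : ‖(Q⁻¹ * D * Q') p r‖ ≤ m * (m * (M * K) * M) :=
    Dkr_mul_bd _ _ _ _ (Dkr_mul_bd _ _ _ _ h2 hK) h3 p r
  rw [hZ1, norm_mul, Complex.norm_real, Real.norm_eq_abs] at hZ2
  rw [norm_mul] at hp
  have h9 : 1 / (m:ℝ) ≤ m * (M * M) * ‖R0 p r‖ :=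
    hp.trans (mul_le_mul_of_nonneg_right (hS r p) (norm_nonneg _))
  have h10 : 1 ≤ m * (m * (M * M) * ‖R0 p r‖) := by
    have := mul_le_mul_of_nonneg_left h9 hm.le
    rwa [mul_one_div_cancel hm.ne'] at this
  calc |e' r - e p| = 1 * |e' r - e p| := (one_mul _).symm
    _ ≤ m * (m * (M * M) * ‖R0 p r‖) * |e' r - e p| :=
        mul_le_mul_of_nonneg_right h10 (abs_nonneg _)
    _ = m * (m * (M * M)) * (‖R0 p r‖ * |e' r - e p|) := by ring
    _ ≤ m * (m * (M * M)) * (m * (m * (M * K) * M)) :=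
        mul_le_mul_of_nonneg_left hZ2 (by positivity)
    _ = _ := by ring

theorem Dkr_ps {psi : ℝ → ℝ} {l : ℝ} (h0 : psi l = 0) (h : HasDerivAt psi 0 l) (ε : ℝ)
    (hε : 0 < ε) : ∃ δ : ℝ, 0 < δ ∧ ∀ t, |Real.exp t - Real.exp l| < δ →
      |psi t| ≤ ε * |Real.exp t - Real.exp l| := by
  have hf : HasDerivAt (fun s => psi (Real.log s)) 0 (Real.exp l) := by
    have h1 : HasDerivAt Real.log (Real.exp l)⁻¹ (Real.exp l) :=
      Real.hasDerivAt_log (Real.exp_pos l).ne'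
    have h2 : HasDerivAt psi 0 (Real.log (Real.exp l)) := by rwa [Real.log_exp]
    have h3 := h2.comp (Real.exp l) h1
    rw [zero_mul] at h3
    exact h3
  have h4 := (hasDerivAt_iff_isLittleO.1 hf)
  have h5 := (Asymptotics.isLittleO_iff.1 h4) hε
  obtain ⟨δ, hδ, h6⟩ := Metric.eventually_nhds_iff.1 h5
  refine ⟨δ, hδ, fun t ht => ?_⟩
  have h7 := h6 (y := Real.exp t) (by rwa [Real.dist_eq])
  simp only [Real.log_exp, h0, smul_zero, sub_zero, Real.norm_eq_abs] at h7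
  exact h7

theorem Dkr_sq {a b : ℝ} (hb : 0 ≤ b) (h : a ^ 2 ≤ b ^ 2) : a ≤ b :=
  le_trans (le_abs_self a) (abs_le_of_sq_le_sq h hb)

theorem Dkr_unit {m : ℕ} {H : Mt m} (h : H.PosDef) : IsUnit H.det :=
  (Matrix.isUnit_iff_isUnit_det _).1 h.isUnit

theorem Dkr_small {m : ℕ} {H G : ℝ × ℝ → Mt m} {x : ℝ × ℝ}
    (hH : ∀ᶠ y in 𝓝 x, (H y).PosDef) (hG : ∀ᶠ y in 𝓝 x, (G y).PosDef)
    (dH : Dkr_D H x) (dG : Dkr_D G x) {Q : Mt m} {lam : Fin m → ℝ}
    (hQ : FrL (H x) (G x) Q lam) (psi : ℝ → ℝ) (h0 : ∀ i, psi (lam i) = 0)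
    (h1 : ∀ i, HasDerivAt psi 0 (lam i)) (i j : Fin m) :
    HasFDerivAt (fun y => Xf psi H G y i j) (0 : ℝ × ℝ →L[ℝ] ℂ) x := by
  have hHu : ∀ᶠ y in 𝓝 x, IsUnit (H y).det := by
    filter_upwards [hH] with y hy using Dkr_unit hy
  have dI := (Dkr_inv hHu dH).1
  have dT := (Dkr_mul dG dI).1
  obtain ⟨K0, hK0, hK⟩ : ∃ K0 : ℝ, 0 ≤ K0 ∧ ∀ᶠ y in 𝓝 x, ∀ k l,
      ‖(G y * (H y)⁻¹ - G x * (H x)⁻¹) k l‖ ≤ K0 * ‖y - x‖ := by
    have h2 : ∀ k l, ∃ c : ℝ, ∀ᶠ y in 𝓝 x,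
        ‖(G y * (H y)⁻¹ - G x * (H x)⁻¹) k l‖ ≤ c * ‖y - x‖ := by
      intro k l
      obtain ⟨c, hc⟩ := (dT k l).isBigO_sub.bound
      exact ⟨c, hc⟩
    choose c hc using h2
    refine ⟨∑ k, ∑ l, |c k l|, Finset.sum_nonneg fun k _ => Finset.sum_nonneg fun l _ =>
      abs_nonneg _, ?_⟩
    refine Filter.eventually_all.2 fun k => Filter.eventually_all.2 fun l => ?_
    filter_upwards [hc k l] with y hy
    refine hy.trans (mul_le_mul_of_nonneg_right ?_ (norm_nonneg _))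
    calc c k l ≤ |c k l| := le_abs_self _
      _ ≤ ∑ l, |c k l| :=
        Finset.single_le_sum (f := fun l => |c k l|) (fun _ _ => abs_nonneg _) (Finset.mem_univ l)
      _ ≤ _ := Finset.single_le_sum (f := fun k => ∑ l, |c k l|)
        (fun _ _ => Finset.sum_nonneg fun _ _ => abs_nonneg _) (Finset.mem_univ k)
  obtain ⟨M, hM1, hM⟩ : ∃ M : ℝ, 1 ≤ M ∧ ∀ᶠ y in 𝓝 x, ∀ k,
      ‖H y k k‖ ≤ M ^ 2 ∧ ‖(H y)⁻¹ k k‖ ≤ M ^ 2 := by
    set A := ∑ k, (‖H x k k‖ + ‖(H x)⁻¹ k k‖) with hA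
    have hA0 : 0 ≤ A := Finset.sum_nonneg fun _ _ => add_nonneg (norm_nonneg _) (norm_nonneg _)
    have hA1 : ∀ k, ‖H x k k‖ + ‖(H x)⁻¹ k k‖ ≤ A := fun k =>
      Finset.single_le_sum (f := fun k => ‖H x k k‖ + ‖(H x)⁻¹ k k‖)
        (fun _ _ => add_nonneg (norm_nonneg _) (norm_nonneg _)) (Finset.mem_univ k)
    refine ⟨A + 1, by linarith, Filter.eventually_all.2 fun k => ?_⟩
    have h3 : ∀ᶠ y in 𝓝 x, ‖H y k k‖ < A + 1 :=
      (dH k k).continuousAt.norm.eventually_lt continuousAt_const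
        (by linarith [hA1 k, norm_nonneg ((H x)⁻¹ k k)])
    have h4 : ∀ᶠ y in 𝓝 x, ‖(H y)⁻¹ k k‖ < A + 1 :=
      (dI k k).continuousAt.norm.eventually_lt continuousAt_const
        (by linarith [hA1 k, norm_nonneg (H x k k)])
    filter_upwards [h3, h4] with y h5 h6
    constructor <;> nlinarith
  have hM0 : 0 ≤ M := by linarith
  set C1 : ℝ := (m : ℝ) ^ 4 * M ^ 4 * K0 with hC1
  have hC10 : 0 ≤ C1 := by positivity
  have hx0 : Xf psi H G x i j = 0 := by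
    show fcal psi (H x) (G x) i j = 0
    rw [fcal_eq hQ]
    simp [h0]
  refine HasFDerivAt.of_isLittleO ?_
  rw [Asymptotics.isLittleO_iff]
  intro ε hε
  set ε' : ℝ := ε / (m * (M * M) * C1 + 1) with hε'
  have hden : 0 < (m:ℝ) * (M * M) * C1 + 1 := by positivity
  have hε0 : 0 < ε' := div_pos hε hden
  have h5 : ∀ p, ∃ δ : ℝ, 0 < δ ∧ ∀ t, |Real.exp t - Real.exp (lam p)| < δ →
      |psi t| ≤ ε' * |Real.exp t - Real.exp (lam p)| := fun p => Dkr_ps (h0 p) (h1 p) ε' hε0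
  choose δ hδ hδ' using h5
  have h6 : ∀ᶠ y in 𝓝 x, ∀ p, C1 * ‖y - x‖ < δ p := by
    refine Filter.eventually_all.2 fun p => ?_
    have h7 : ContinuousAt (fun y : ℝ × ℝ => C1 * ‖y - x‖) x := by fun_prop
    refine h7.eventually_lt continuousAt_const ?_
    simpa using hδ p
  have hMx := hM.self_of_nhds
  filter_upwards [hK, hM, h6, hH, hG] with y hy1 hy2 hy3 hy4 hy5
  obtain ⟨Q', lam', hf⟩ := exists_fr hy4 hy5
  have hb := fun k l => Dkr_inv_bd hf.1 hf.2.1 k l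
  have hb' := fun k l => Dkr_inv_bd hQ.1 hQ.2.1 k l
  have e1 : ∀ k l, ‖Q k l‖ ≤ M := fun k l =>
    Dkr_sq hM0 ((hb' k l).1.trans (hMx k).1)
  have e2 : ∀ k l, ‖Q⁻¹ k l‖ ≤ M := fun k l =>
    Dkr_sq hM0 ((hb' k l).2.trans (hMx l).2)
  have e3 : ∀ k l, ‖Q' k l‖ ≤ M := fun k l =>
    Dkr_sq hM0 ((hb k l).1.trans (hy2 k).1)
  have e4 : ∀ k l, ‖Q'⁻¹ k l‖ ≤ M := fun k l =>
    Dkr_sq hM0 ((hb k l).2.trans (hy2 l).2)
  have h8 : ∀ r, |psi (lam' r)| ≤ ε' * (C1 * ‖y - x‖) := by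
    intro r
    obtain ⟨p, hp⟩ := Dkr_bf hQ.1 hf.1 (fun i => Real.exp (lam i)) (fun i => Real.exp (lam' i))
      M (K0 * ‖y - x‖) e1 e2 e3 e4
      (by
        intro k l
        rw [← Dkr_fcal hf, ← Dkr_fcal hQ]
        exact hy1 k l) r
    have h9 : |Real.exp (lam' r) - Real.exp (lam p)| ≤ C1 * ‖y - x‖ := by
      refine hp.trans (le_of_eq ?_)
      rw [hC1]; ring
    refine (hδ' p _ (lt_of_le_of_lt h9 (hy3 p))).trans ?_
    exact mul_le_mul_of_nonneg_left h9 hε0.le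
  have h10 : ‖Xf psi H G y i j‖ ≤ m * (M * (ε' * (C1 * ‖y - x‖)) * M) := by
    show ‖fcal psi (H y) (G y) i j‖ ≤ _
    rw [fcal_eq hf]
    refine Dkr_mul_bd _ _ _ _ ?_ e4 i j
    intro k l
    rw [Matrix.mul_diagonal, norm_mul, Complex.norm_real, Real.norm_eq_abs]
    exact mul_le_mul (e3 k l) (h8 l) (abs_nonneg _) hM0
  rw [hx0]
  simp only [sub_zero, _root_.zero_apply]
  refine h10.trans ?_
  have h11 : m * (M * (ε' * (C1 * ‖y - x‖)) * M) = (ε' * (m * (M * M) * C1)) * ‖y - x‖ := by ring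
  rw [h11]
  refine mul_le_mul_of_nonneg_right ?_ (norm_nonneg _)
  rw [hε', div_mul_eq_mul_div, div_le_iff₀ hden]
  nlinarith

theorem Dkr_pd_lin {m : ℕ} (F : ℝ × ℝ → Mt m) (x : ℝ × ℝ) (c c' : ℝ) (t t' : ℝ × ℝ) :
    pd (c • t + c' • t') F x = (c : ℂ) • pd t F x + (c' : ℂ) • pd t' F x := by
  ext i j
  simp only [pd, Matrix.of_apply, Matrix.add_apply, Matrix.smul_apply, map_add, map_smul,
    Complex.real_smul, smul_eq_mul]

theorem Dkr_herm_pd {m : ℕ} {F : ℝ × ℝ → Mt m} {x : ℝ × ℝ}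
    (hF : ∀ᶠ y in 𝓝 x, (F y).IsHermitian) (t : ℝ × ℝ) : (pd t F x).IsHermitian := by
  ext i j
  rw [Matrix.conjTranspose_apply]
  simp only [pd, Matrix.of_apply]
  have h1 : (fun y => F y i j) =ᶠ[𝓝 x] (fun y => star (F y j i)) := by
    filter_upwards [hF] with y hy
    exact (hy.apply i j).symm
  rw [h1.fderiv_eq, fderiv_star]
  rfl

/-- divided difference of the exponential -/
noncomputable def Dkr_edd (p r : ℝ) : ℝ :=
  if p = r then Real.exp p else (Real.exp p - Real.exp r) / (p - r)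

theorem Dkr_edd_symm (p r : ℝ) : Dkr_edd p r = Dkr_edd r p := by
  unfold Dkr_edd
  by_cases h : p = r
  · subst h; rfl
  · rw [if_neg h, if_neg (Ne.symm h), ← neg_sub (Real.exp r), ← neg_sub r, neg_div_neg_eq]

theorem fcal_deriv {m : ℕ} {H G : ℝ × ℝ → Mt m} {x : ℝ × ℝ}
    (hH : ∀ᶠ y in 𝓝 x, (H y).PosDef) (hG : ∀ᶠ y in 𝓝 x, (G y).PosDef)
    (dH : ∀ i j, DifferentiableAt ℝ (fun y => H y i j) x)
    (dG : ∀ i j, DifferentiableAt ℝ (fun y => G y i j) x)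
    {Q : Mt m} {lam : Fin m → ℝ} (hQ : FrL (H x) (G x) Q lam) :
    ∃ a s : ℝ × ℝ → Mt m,
      (∀ t, (a t).IsHermitian) ∧ (∀ t, (s t).IsHermitian) ∧
      (∀ (c c' : ℝ) (t t' : ℝ × ℝ), a (c • t + c' • t') = (c : ℂ) • a t + (c' : ℂ) • a t') ∧
      (∀ (c c' : ℝ) (t t' : ℝ × ℝ), s (c • t + c' • t') = (c : ℂ) • s t + (c' : ℂ) • s t') ∧
      (∀ t, aa t H x = Q * a t * Q⁻¹) ∧
      (∀ phi : ℝ → ℝ, ContDiff ℝ 1 phi →
        (∀ i j, DifferentiableAt ℝ (fun y => Xf phi H G y i j) x) ∧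
        ∀ t, pd t (Xf phi H G) x =
          Q * (Matrix.of fun p r => ((dd phi (lam p) (lam r) : ℝ) : ℂ) * s t p r +
            a t p r * ((phi (lam r) - phi (lam p) : ℝ) : ℂ)) * Q⁻¹) := by
  have hHu : ∀ᶠ y in 𝓝 x, IsUnit (H y).det := by
    filter_upwards [hH] with y hy using Dkr_unit hy
  have dI := Dkr_inv hHu dH
  have dT := Dkr_mul dG dI.1
  have hHh : ∀ t, (pd t H x).IsHermitian := fun t =>
    Dkr_herm_pd (by filter_upwards [hH] with y hy using hy.isHermitian) t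
  have hGh : ∀ t, (pd t G x).IsHermitian := fun t =>
    Dkr_herm_pd (by filter_upwards [hG] with y hy using hy.isHermitian) t
  have hq : Q * Q⁻¹ = 1 := Matrix.mul_nonsing_inv _ hQ.1
  have hq' : Q⁻¹ * Q = 1 := Matrix.nonsing_inv_mul _ hQ.1
  have hHi : (H x)⁻¹ = (Q⁻¹)ᴴ * Q⁻¹ := by
    rw [hQ.2.1, Matrix.mul_inv_rev, Matrix.conjTranspose_nonsing_inv]
  let a : ℝ × ℝ → Mt m := fun t => (1/2 : ℂ) • (Q⁻¹ * pd t H x * (Q⁻¹)ᴴ)
  let g : ℝ × ℝ → Mt m := fun t => Q⁻¹ * pd t G x * (Q⁻¹)ᴴ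
  let e : Fin m → ℝ := fun i => Real.exp (lam i)
  let s : ℝ × ℝ → Mt m := fun t => Matrix.of fun p r =>
    (g t p r - (((e p + e r : ℝ)) : ℂ) * a t p r) / ((Dkr_edd (lam p) (lam r) : ℝ) : ℂ)
  have hg : ∀ t, (g t).IsHermitian := fun t =>
    Matrix.isHermitian_mul_mul_conjTranspose _ (hGh t)
  have ha : ∀ t, (a t).IsHermitian := by
    intro t
    have h1 : (Q⁻¹ * pd t H x * (Q⁻¹)ᴴ).IsHermitian :=
      Matrix.isHermitian_mul_mul_conjTranspose _ (hHh t)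
    show ((1/2 : ℂ) • (Q⁻¹ * pd t H x * (Q⁻¹)ᴴ))ᴴ = _
    rw [Matrix.conjTranspose_smul, h1.eq]
    simp [a]
  have hal : ∀ (c c' : ℝ) (t t' : ℝ × ℝ),
      a (c • t + c' • t') = (c : ℂ) • a t + (c' : ℂ) • a t' := by
    intro c c' t t'
    simp only [a, Dkr_pd_lin, mul_add, add_mul, Matrix.mul_smul, Matrix.smul_mul, smul_add]
    rw [smul_comm (1/2 : ℂ) (c : ℂ), smul_comm (1/2 : ℂ) (c' : ℂ)]
  have hgl : ∀ (c c' : ℝ) (t t' : ℝ × ℝ),
      g (c • t + c' • t') = (c : ℂ) • g t + (c' : ℂ) • g t' := by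
    intro c c' t t'
    simp only [g, Dkr_pd_lin, mul_add, add_mul, Matrix.mul_smul, Matrix.smul_mul]
  have hY : ∀ t, Q⁻¹ * pd t (fun y => G y * (H y)⁻¹) x * Q =
      g t - (2 : ℂ) • (diagonal (fun i => ((e i : ℝ) : ℂ)) * a t) := by
    intro t
    rw [dT.2 t, dI.2 t, mul_neg, ← sub_eq_add_neg, mul_sub, sub_mul]
    have e1 : Q⁻¹ * (pd t G x * (H x)⁻¹) * Q = g t := by
      rw [hHi]
      calc Q⁻¹ * (pd t G x * ((Q⁻¹)ᴴ * Q⁻¹)) * Q = Q⁻¹ * pd t G x * (Q⁻¹)ᴴ * (Q⁻¹ * Q) := by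
            simp only [mul_assoc]
        _ = _ := by rw [hq', mul_one]
    have e2 : Q⁻¹ * (G x * ((H x)⁻¹ * pd t H x * (H x)⁻¹)) * Q =
        (2 : ℂ) • (diagonal (fun i => ((e i : ℝ) : ℂ)) * a t) := by
      have e3 : G x * ((H x)⁻¹ * pd t H x * (H x)⁻¹) =
          (Q * diagonal (fun i => ((e i : ℝ) : ℂ)) * Q⁻¹) * (pd t H x * ((Q⁻¹)ᴴ * Q⁻¹)) := by
        rw [← hHi, ← Dkr_fcal hQ]
        simp only [mul_assoc]
      rw [e3, Matrix.mul_smul, smul_smul]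
      norm_num
      calc Q⁻¹ * ((Q * diagonal (fun i => ((e i : ℝ) : ℂ)) * Q⁻¹) *
            (pd t H x * ((Q⁻¹)ᴴ * Q⁻¹))) * Q
          = (Q⁻¹ * Q) * (diagonal (fun i => ((e i : ℝ) : ℂ)) * (Q⁻¹ * pd t H x * (Q⁻¹)ᴴ)) *
            (Q⁻¹ * Q) := by simp only [mul_assoc]
        _ = _ := by rw [hq', mul_one, one_mul]
    rw [e1, e2]
  refine ⟨a, s, ha, ?_, hal, ?_, ?_, ?_⟩
  · intro t
    ext p r
    rw [Matrix.conjTranspose_apply]
    show star ((g t r p - (((e r + e p : ℝ)) : ℂ) * a t r p) /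
      ((Dkr_edd (lam r) (lam p) : ℝ) : ℂ)) = _
    have h1 : star (g t r p) = g t p r := (hg t).apply p r
    have h2 : star (a t r p) = a t p r := (ha t).apply p r
    rw [star_div₀, star_sub, star_mul', h1, h2, Complex.star_def,
      Complex.conj_ofReal, Complex.conj_ofReal, Dkr_edd_symm, add_comm (e r)]
    rfl
  · intro c c' t t'
    ext p r
    show (g (c • t + c' • t') p r - (((e p + e r : ℝ)) : ℂ) * a (c • t + c' • t') p r) /
      ((Dkr_edd (lam p) (lam r) : ℝ) : ℂ) =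
      (c : ℂ) * ((g t p r - (((e p + e r : ℝ)) : ℂ) * a t p r) /
        ((Dkr_edd (lam p) (lam r) : ℝ) : ℂ)) +
      (c' : ℂ) * ((g t' p r - (((e p + e r : ℝ)) : ℂ) * a t' p r) /
        ((Dkr_edd (lam p) (lam r) : ℝ) : ℂ))
    rw [hal, hgl]
    simp only [Matrix.add_apply, Matrix.smul_apply, smul_eq_mul]
    ring
  · intro t
    show (1/2 : ℂ) • (pd t H x * (H x)⁻¹) = Q * ((1/2 : ℂ) • (Q⁻¹ * pd t H x * (Q⁻¹)ᴴ)) * Q⁻¹
    rw [Matrix.mul_smul, Matrix.smul_mul, hHi]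
    congr 1
    calc pd t H x * ((Q⁻¹)ᴴ * Q⁻¹) = (Q * Q⁻¹) * (pd t H x * ((Q⁻¹)ᴴ * Q⁻¹)) := by
          rw [hq, one_mul]
      _ = _ := by simp only [mul_assoc]
  · intro phi hphi
    obtain ⟨P, hP⟩ := Dkr_herm (Finset.univ.image e) (fun z => phi (Real.log z))
      (fun z => deriv phi (Real.log z) / z)
    have hP1 : ∀ i, P.eval (e i) = phi (lam i) := fun i => by
      have := (hP (e i) (Finset.mem_image_of_mem e (Finset.mem_univ i))).1
      simpa [e, Real.log_exp] using this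
    have hP2 : ∀ i, P.derivative.eval (e i) = deriv phi (lam i) / e i := fun i => by
      have := (hP (e i) (Finset.mem_image_of_mem e (Finset.mem_univ i))).2
      simpa [e, Real.log_exp] using this
    let psi : ℝ → ℝ := fun t => phi t - P.eval (Real.exp t)
    have hd : Differentiable ℝ phi := hphi.differentiable one_ne_zero
    have hs0 : ∀ i, psi (lam i) = 0 := fun i => by
      have := hP1 i
      show phi (lam i) - P.eval (Real.exp (lam i)) = 0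
      rw [show Real.exp (lam i) = e i from rfl, this, sub_self]
    have hs1 : ∀ i, HasDerivAt psi 0 (lam i) := fun i => by
      have h1 := (hd (lam i)).hasDerivAt
      have h2 := (P.hasDerivAt (Real.exp (lam i))).comp (lam i) (Real.hasDerivAt_exp (lam i))
      have h3 := h1.sub h2
      rw [show Real.exp (lam i) = e i from rfl, hP2 i,
        div_mul_cancel₀ _ (Real.exp_pos (lam i)).ne', sub_self] at h3
      exact h3
    have hsm := fun i j => Dkr_small hH hG dH dG hQ psi hs0 hs1 i j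
    have hD1 : Dkr_D (Xf psi H G) x := fun i j => (hsm i j).differentiableAt
    have hD1' : ∀ t, pd t (Xf psi H G) x = 0 := by
      intro t
      ext i j
      simp only [pd, Matrix.of_apply]
      rw [(hsm i j).fderiv]
      rfl
    have hPo := Dkr_poly dT.1 hQ.1 e (Dkr_fcal hQ) P
    have hAd := Dkr_add hD1 hPo.1
    have hC := Dkr_congr (A := fun y => Xf psi H G y + Polynomial.aeval (G y * (H y)⁻¹) P)
      (B := Xf phi H G) (x := x) (by
        filter_upwards [hH, hG] with y hy1 hy2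
        obtain ⟨Q', lam', hf⟩ := exists_fr hy1 hy2
        show fcal psi (H y) (G y) + Polynomial.aeval (G y * (H y)⁻¹) P = fcal phi (H y) (G y)
        rw [fcal_eq hf, fcal_eq hf, Dkr_fcal hf, Dkr_aeval hf.1, ← add_mul, ← mul_add,
          Matrix.diagonal_add]
        congr 3
        ext i
        simp only [psi]
        push_cast
        ring) hAd.1
    refine ⟨hC.1, fun t => ?_⟩
    rw [hC.2, hAd.2, hD1', zero_add, hPo.2, hY t]
    congr 2
    ext p r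
    simp only [Matrix.of_apply, Matrix.sub_apply, Matrix.smul_apply, Matrix.diagonal_mul,
      smul_eq_mul, s]
    unfold Dkr_P dd Dkr_edd
    by_cases h : lam p = lam r
    · have he : e p = e r := congrArg Real.exp h
      have hep : (e p : ℂ) ≠ 0 := by
        exact_mod_cast (Real.exp_pos (lam p)).ne'
      rw [if_pos he, if_pos h, if_pos h, hP2 p, ← h, ← he,
        show Real.exp (lam p) = e p from rfl]
      push_cast
      field_simp
      ring
    · have he : e p ≠ e r := fun h1 => h (Real.exp_injective h1)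
      rw [if_neg he, if_neg h, if_neg h, hP1, hP1, show Real.exp (lam p) = e p from rfl,
        show Real.exp (lam r) = e r from rfl]
      have h1 : ((lam p : ℂ) - lam r) ≠ 0 := by
        exact_mod_cast sub_ne_zero.2 h
      have h2 : ((e p : ℂ) - e r) ≠ 0 := by
        exact_mod_cast sub_ne_zero.2 he
      push_cast
      field_simp
      ring

end H80HM
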