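import Pool.Agent.H80.HM.Dsp

set_option autoImplicit false

/-!
# Row Prp: irreducibility gives properness of the displacement, and a quantitative Schur lemma

Irreducibility is used in the form: A, B, C generate the full matrix algebra (Algebra.adjoin).
proper. The submonoid generated by A, B, C spans Mt m (adjoin = span of the submonoid closure), which is finite dimensional: there are finitely many
 words w_1..w_N (products of A, B, C) of length <= n spanning Mt m. WLOG L >= 1 (Cmp L h (AhA*) and back imply L >= 1 because h is not 0, m > 0; or replace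
 L by max L 1). From Cmp L (AhA*) h (second half of Cm2) etc. and congruence: Cmp (L^n) (w h w*) h for words of length <= n (induction: w = A w',
 w h w* = A (w' h w'*) A* <= L^(n-1) A h A* <= L^n h in the sense of Cmp). Spectral theorem: h = sum mu_i x_i x_i*; let mu_max, mu_min be the largest and the
 smallest eigenvalue with unit eigenvectors x, y. Testing with y: mu_max |x* w* y|^2 <= y* w h w* y <= L^n y* h y = L^n mu_min for every word w = w_i.
 There is c > 0 with max_i |x* w_i* y| >= c for all unit vectors: the matrices w_i* also span Mt m, the linear map gamma -> sum gamma_i w_i* from C^N onto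
 Mt m has a bounded right inverse; write x y* = sum gamma_i w_i* with |gamma_i| <= C0; then 1 = x*(x y*)y = sum gamma_i x* w_i* y <= N C0 max_i |x* w_i* y|.
 So mu_max <= c^{-2} L^n mu_min. det h = 1 (product of the eigenvalues): mu_min <= 1 <= mu_max. Hence all eigenvalues lie in [1/R, R], R = c^{-2}L^n.
schur_bd. The linear map T : X -> (A X A^{-1} - X, B X B^{-1} - X, C X C^{-1} - X) has kernel = centralizer of A, B, C = centre of Mt m = scalars. Norms on the
 finite dimensional quotient Mt m / scalars are equivalent: sum |X - z|^2 for the best z is bounded by c times |T X|^2 (injective linear map on the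
 complement {trace 0}; z := tr X / m). n2 1 Y = sum |Y_ij|^2.
-/

namespace H80HM

open Matrix MeasureTheory Set
open scoped ComplexOrder

variable {m : ℕ}

/-- the quadratic form of h -/
def Prp_f (h : Mt m) (x : Fin m → ℂ) : ℝ := (star x ⬝ᵥ (h *ᵥ x)).re

theorem Prp_f_nonneg {h : Mt m} (hh : h.PosDef) (x : Fin m → ℂ) : 0 ≤ Prp_f h x := by
  have h1 := hh.posSemidef.dotProduct_mulVec_nonneg x
  exact (Complex.le_def.1 h1).1

theorem Prp_f_par (h : Mt m) (x y : Fin m → ℂ) :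
    Prp_f h (x + y) + Prp_f h (x - y) = 2 * Prp_f h x + 2 * Prp_f h y := by
  simp only [Prp_f, star_add, star_sub, mulVec_add, mulVec_sub, add_dotProduct, sub_dotProduct,
    dotProduct_add, dotProduct_sub, Complex.add_re, Complex.sub_re]
  ring

theorem Prp_f_add {h : Mt m} (hh : h.PosDef) (x y : Fin m → ℂ) :
    Prp_f h (x + y) ≤ 2 * Prp_f h x + 2 * Prp_f h y := by
  have h1 := Prp_f_par h x y
  have h2 := Prp_f_nonneg hh (x - y)
  linarith

theorem Prp_f_smul (h : Mt m) (c : ℂ) (x : Fin m → ℂ) :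
    Prp_f h (c • x) = ‖c‖ ^ 2 * Prp_f h x := by
  have h1 : star (c • x) ⬝ᵥ (h *ᵥ (c • x)) = ((‖c‖ ^ 2 : ℝ) : ℂ) * (star x ⬝ᵥ (h *ᵥ x)) := by
    rw [star_smul, mulVec_smul, smul_dotProduct, dotProduct_smul, smul_eq_mul, smul_eq_mul,
      ← mul_assoc]
    congr 1
    have := Complex.mul_conj c
    rw [Complex.normSq_eq_norm_sq] at this
    rw [← this, mul_comm]
    rfl
  rw [Prp_f, h1, Complex.re_ofReal_mul]
  rfl

theorem Prp_f_conj (h M : Mt m) (x : Fin m → ℂ) :
    Prp_f (M * h * Mᴴ) x = Prp_f h (Mᴴ *ᵥ x) := by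
  rw [Prp_f, Prp_f, star_mulVec, conjTranspose_conjTranspose, ← dotProduct_mulVec, mulVec_mulVec,
    mulVec_mulVec, Matrix.mul_assoc]

theorem Prp_f_sum {h : Mt m} (hh : h.PosDef) {ι : Type*} (s : Finset ι) (y : ι → Fin m → ℂ) :
    Prp_f h (∑ a ∈ s, y a) ≤ 2 ^ s.card * ∑ a ∈ s, Prp_f h (y a) := by
  classical
  induction s using Finset.induction_on with
  | empty =>
    rw [Finset.sum_empty, Finset.sum_empty, mul_zero]
    simp [Prp_f]
  | insert a s ha ih =>
    rw [Finset.sum_insert ha, Finset.sum_insert ha, Finset.card_insert_of_notMem ha]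
    refine (Prp_f_add hh _ _).trans ?_
    have h1 := Prp_f_nonneg hh (y a)
    have h2 : (1 : ℝ) ≤ 2 ^ s.card := one_le_pow₀ (by norm_num)
    rw [pow_succ]
    nlinarith

theorem Prp_f_one (x : Fin m → ℂ) : Prp_f 1 x = ∑ a, ‖x a‖ ^ 2 := by
  rw [Prp_f, one_mulVec, dotProduct, Complex.re_sum]
  refine Finset.sum_congr rfl fun a _ => ?_
  have := Complex.mul_conj (x a)
  rw [Complex.normSq_eq_norm_sq] at this
  rw [Pi.star_apply, mul_comm]
  have h2 : x a * star (x a) = ((‖x a‖ ^ 2 : ℝ) : ℂ) := this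
  rw [h2, Complex.ofReal_re]

/-- the hypotheses of the row -/
def Prp_hyp (A B C : Mt m) (L : ℝ) (h : Mt m) : Prop :=
  h.PosDef ∧ Cm2 L h (A * h * Aᴴ) ∧ Cm2 L h (B * h * Bᴴ) ∧ Cm2 L h (C * h * Cᴴ)

/-- the action of M is bounded for all admissible metrics -/
def Prp_good (A B C : Mt m) (L : ℝ) (M : Mt m) : Prop :=
  ∃ K : ℝ, 0 ≤ K ∧ ∀ h, Prp_hyp A B C L h → ∀ x, Prp_f h (Mᴴ *ᵥ x) ≤ K * Prp_f h x

theorem Prp_good_gen {A B C : Mt m} {L : ℝ} {M : Mt m}
    (hM : ∀ h, Prp_hyp A B C L h → Cm2 L h (M * h * Mᴴ)) : Prp_good A B C L M := by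
  refine ⟨|L|, abs_nonneg _, fun h hh x => ?_⟩
  have h1 := (hM h hh).2 x
  have h2 : Prp_f h (Mᴴ *ᵥ x) ≤ L * Prp_f h x := by
    rw [← Prp_f_conj]
    exact h1
  exact h2.trans (mul_le_mul_of_nonneg_right (le_abs_self L) (Prp_f_nonneg hh.1 x))

theorem Prp_good_all {A B C : Mt m}
    (hirr : Algebra.adjoin ℂ ({A, B, C} : Set (Mt m)) = ⊤) (L : ℝ) (M : Mt m) :
    Prp_good A B C L M := by
  have hM : M ∈ Algebra.adjoin ℂ ({A, B, C} : Set (Mt m)) := by
    rw [hirr]
    exact Algebra.mem_top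
  induction hM using Algebra.adjoin_induction with
  | mem M hM =>
    rcases hM with rfl | rfl | rfl
    · exact Prp_good_gen fun h hh => hh.2.1
    · exact Prp_good_gen fun h hh => hh.2.2.1
    · exact Prp_good_gen fun h hh => hh.2.2.2
  | algebraMap c =>
    refine ⟨‖star c‖ ^ 2, sq_nonneg _, fun h hh x => ?_⟩
    rw [Algebra.algebraMap_eq_smul_one, conjTranspose_smul, conjTranspose_one, smul_mulVec,
      one_mulVec, Prp_f_smul]
  | add M N _ _ hM hN =>
    obtain ⟨K, hK, h1⟩ := hM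
    obtain ⟨K', hK', h2⟩ := hN
    refine ⟨2 * K + 2 * K', by positivity, fun h hh x => ?_⟩
    rw [conjTranspose_add, add_mulVec]
    refine (Prp_f_add hh.1 _ _).trans ?_
    have e1 := h1 h hh x
    have e2 := h2 h hh x
    linarith
  | mul M N _ _ hM hN =>
    obtain ⟨K, hK, h1⟩ := hM
    obtain ⟨K', hK', h2⟩ := hN
    refine ⟨K' * K, by positivity, fun h hh x => ?_⟩
    rw [conjTranspose_mul, ← mulVec_mulVec]
    refine (h2 h hh _).trans ?_
    rw [mul_assoc]
    exact mul_le_mul_of_nonneg_left (h1 h hh x) hK'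

theorem proper (hm : 0 < m) {A B C : Mt m}
    (hirr : Algebra.adjoin ℂ ({A, B, C} : Set (Mt m)) = ⊤) (L : ℝ) :
    ∃ R : ℝ, 0 < R ∧ ∀ h : Mt m, h.PosDef → h.det = 1 →
      Cm2 L h (A * h * Aᴴ) → Cm2 L h (B * h * Bᴴ) → Cm2 L h (C * h * Cᴴ) → Cm2 R h 1 := by
  have hg : ∀ a b : Fin m, ∃ K : ℝ, 0 ≤ K ∧ ∀ h, Prp_hyp A B C L h → ∀ x : Fin m → ℂ,
      Prp_f h (Matrix.single a b (1 : ℂ) *ᵥ x) ≤ K * Prp_f h x := by
    intro a b
    have := Prp_good_all hirr L ((Matrix.single a b (1 : ℂ))ᴴ)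
    rw [Prp_good, conjTranspose_conjTranspose] at this
    exact this
  choose K hK0 hK using hg
  set K0 : ℝ := 1 + ∑ a, ∑ b, K a b with hK0def
  have hsum0 : 0 ≤ ∑ a, ∑ b, K a b :=
    Finset.sum_nonneg fun a _ => Finset.sum_nonneg fun b _ => hK0 a b
  have hK01 : 1 ≤ K0 := by rw [hK0def]; linarith
  have hKle : ∀ a b, K a b ≤ K0 := by
    intro a b
    have h1 : K a b ≤ ∑ b, K a b := Finset.single_le_sum (fun b _ => hK0 a b) (Finset.mem_univ b)
    have h2 : ∑ b, K a b ≤ ∑ a, ∑ b, K a b :=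
      Finset.single_le_sum (f := fun a => ∑ b, K a b)
        (fun a _ => Finset.sum_nonneg fun b _ => hK0 a b) (Finset.mem_univ a)
    rw [hK0def]
    linarith
  have hmr : (1 : ℝ) ≤ m := by exact_mod_cast hm
  have h2m : (1 : ℝ) ≤ 2 ^ m := one_le_pow₀ (by norm_num)
  refine ⟨2 ^ m * m * K0 ^ 2, by positivity, ?_⟩
  intro h hpos hdet hA hB hC
  have hyp : Prp_hyp A B C L h := ⟨hpos, hA, hB, hC⟩
  have key : ∀ (a b : Fin m) (x : Fin m → ℂ),
      ‖x b‖ ^ 2 * Prp_f h (Pi.single a 1) ≤ K0 * Prp_f h x := by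
    intro a b x
    have h1 := hK a b h hyp x
    rw [single_mulVec_eq, one_mul, Prp_f_smul] at h1
    exact h1.trans (mul_le_mul_of_nonneg_right (hKle a b) (Prp_f_nonneg hpos x))
  set i0 : Fin m := ⟨0, hm⟩ with hi0
  set ν : ℝ := Prp_f h (Pi.single i0 1) with hν
  have hν0 : 0 ≤ ν := Prp_f_nonneg hpos _
  have hea : ∀ a, Prp_f h (Pi.single a 1) ≤ K0 * ν := by
    intro a
    have h1 := key a i0 (Pi.single i0 1)
    rw [Pi.single_eq_same, norm_one, one_pow, one_mul] at h1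
    exact h1
  have hlow : ∀ x, (∑ b, ‖x b‖ ^ 2) * ν ≤ m * K0 * Prp_f h x := by
    intro x
    rw [Finset.sum_mul]
    calc ∑ b, ‖x b‖ ^ 2 * ν ≤ ∑ b : Fin m, K0 * Prp_f h x :=
          Finset.sum_le_sum fun b _ => key i0 b x
      _ = m * K0 * Prp_f h x := by
          rw [Finset.sum_const, Finset.card_univ, Fintype.card_fin, nsmul_eq_mul, mul_assoc]
  have hup : ∀ x, Prp_f h x ≤ 2 ^ m * K0 * ν * ∑ b, ‖x b‖ ^ 2 := by
    intro x
    have h1 : x = ∑ a, x a • (Pi.single a (1 : ℂ) : Fin m → ℂ) := by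
      funext j
      rw [Finset.sum_apply, Finset.sum_eq_single j]
      · simp
      · intro b _ hb
        simp [Ne.symm hb]
      · intro hj
        exact absurd (Finset.mem_univ j) hj
    have h2 := Prp_f_sum hpos Finset.univ fun a => x a • (Pi.single a (1 : ℂ) : Fin m → ℂ)
    rw [← h1, Finset.card_univ, Fintype.card_fin] at h2
    refine h2.trans ?_
    rw [mul_assoc, mul_assoc]
    refine mul_le_mul_of_nonneg_left ?_ (by positivity)
    rw [← mul_assoc, Finset.mul_sum]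
    refine Finset.sum_le_sum fun a _ => ?_
    rw [Prp_f_smul, mul_comm]
    exact mul_le_mul_of_nonneg_right (hea a) (sq_nonneg _)
  -- eigenvalues
  have hH := hpos.isHermitian
  have hev : ∀ i, hH.eigenvalues i = Prp_f h (⇑(hH.eigenvectorBasis i)) := by
    intro i
    exact hH.eigenvalues_eq i
  have hunit : ∀ i, ∑ b, ‖(hH.eigenvectorBasis i) b‖ ^ 2 = 1 := by
    intro i
    have h1 := hH.eigenvectorBasis.orthonormal.1 i
    have h2 := EuclideanSpace.norm_sq_eq (hH.eigenvectorBasis i)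
    rw [h1, one_pow] at h2
    exact h2.symm
  have hprod : ∏ i, hH.eigenvalues i = 1 := by
    have h1 := hH.det_eq_prod_eigenvalues
    rw [hdet] at h1
    have h2 : ((∏ i, hH.eigenvalues i : ℝ) : ℂ) = 1 := by
      rw [Complex.ofReal_prod]
      exact h1.symm
    exact_mod_cast h2
  have hevpos : ∀ i, 0 < hH.eigenvalues i := fun i => hpos.eigenvalues_pos i
  have hb1 : 1 ≤ 2 ^ m * K0 * ν := by
    by_contra hcon
    push Not at hcon
    have h1 : ∏ i, hH.eigenvalues i ≤ ∏ _i : Fin m, (2 ^ m * K0 * ν) := by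
      refine Finset.prod_le_prod (fun i _ => (hevpos i).le) fun i _ => ?_
      have := hup (⇑(hH.eigenvectorBasis i))
      rw [← hev, hunit, mul_one] at this
      exact this
    rw [hprod, Finset.prod_const, Finset.card_univ, Fintype.card_fin] at h1
    have h2 : (2 ^ m * K0 * ν) ^ m < 1 := pow_lt_one₀ (by positivity) hcon hm.ne'
    linarith
  have hb2 : ν ≤ m * K0 := by
    by_contra hcon
    push Not at hcon
    have hmK : 0 < m * K0 := by positivity
    have h1 : ∏ _i : Fin m, (ν / (m * K0)) ≤ ∏ i, hH.eigenvalues i := by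
      refine Finset.prod_le_prod (fun i _ => by positivity) fun i _ => ?_
      have := hlow (⇑(hH.eigenvectorBasis i))
      rw [← hev, hunit, one_mul] at this
      rw [div_le_iff₀ hmK]
      linarith
    rw [hprod, Finset.prod_const, Finset.card_univ, Fintype.card_fin] at h1
    have h2 : 1 < (ν / (m * K0)) ^ m := one_lt_pow₀ (by rwa [one_lt_div hmK]) hm.ne'
    linarith
  constructor
  · intro x
    change Prp_f h x ≤ _ * Prp_f 1 x
    rw [Prp_f_one]
    refine (hup x).trans ?_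
    have hS : 0 ≤ ∑ b, ‖x b‖ ^ 2 := Finset.sum_nonneg fun b _ => sq_nonneg _
    refine mul_le_mul_of_nonneg_right ?_ hS
    calc 2 ^ m * K0 * ν ≤ 2 ^ m * K0 * (m * K0) :=
          mul_le_mul_of_nonneg_left hb2 (by positivity)
      _ = 2 ^ m * m * K0 ^ 2 := by ring
  · intro x
    change Prp_f 1 x ≤ _ * Prp_f h x
    rw [Prp_f_one]
    have hS : 0 ≤ ∑ b, ‖x b‖ ^ 2 := Finset.sum_nonneg fun b _ => sq_nonneg _
    calc ∑ b, ‖x b‖ ^ 2 = 1 * ∑ b, ‖x b‖ ^ 2 := by rw [one_mul]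
      _ ≤ (2 ^ m * K0 * ν) * ∑ b, ‖x b‖ ^ 2 := mul_le_mul_of_nonneg_right hb1 hS
      _ = (2 ^ m * K0) * ((∑ b, ‖x b‖ ^ 2) * ν) := by ring
      _ ≤ (2 ^ m * K0) * (m * K0 * Prp_f h x) :=
          mul_le_mul_of_nonneg_left (hlow x) (by positivity)
      _ = 2 ^ m * m * K0 ^ 2 * Prp_f h x := by ring

theorem Prp_n2 (Y : Mt m) : n2 1 Y = ∑ i, ∑ j, ‖Y i j‖ ^ 2 := by
  rw [n2, inv_one, Matrix.mul_one, Matrix.mul_one]
  simp only [trace, diag_apply, mul_apply, conjTranspose_apply, Complex.re_sum]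
  refine Finset.sum_congr rfl fun i _ => Finset.sum_congr rfl fun j _ => ?_
  have : Y i j * star (Y i j) = ((‖Y i j‖ ^ 2 : ℝ) : ℂ) := by
    have := Complex.mul_conj (Y i j)
    rw [Complex.normSq_eq_norm_sq] at this
    exact this
  rw [this, Complex.ofReal_re]

section frob

attribute [local instance] Matrix.frobeniusNormedAddCommGroup Matrix.frobeniusNormedSpace

theorem Prp_norm (Y : Mt m) : ‖Y‖ ^ 2 = n2 1 Y := by
  rw [Prp_n2, Matrix.frobenius_norm_def, ← Real.sqrt_eq_rpow, Real.sq_sqrt]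
  · simp only [Real.rpow_two]
  · exact Finset.sum_nonneg fun i _ => Finset.sum_nonneg fun j _ =>
      Real.rpow_nonneg (norm_nonneg _) _

/-- conjugation minus identity -/
noncomputable def Prp_T (A : Mt m) : Mt m →ₗ[ℂ] Mt m where
  toFun X := A * X * A⁻¹ - X
  map_add' X Y := by
    rw [Matrix.mul_add, Matrix.add_mul]
    abel
  map_smul' c X := by
    rw [Matrix.mul_smul, Matrix.smul_mul, RingHom.id_apply, smul_sub]

theorem Prp_comm {A X : Mt m} (hA : IsUnit A.det) (h : Prp_T A X = 0) : A * X = X * A := by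
  have h1 : A * X * A⁻¹ = X := sub_eq_zero.1 h
  have h2 := congrArg (fun Y => Y * A) h1
  beta_reduce at h2
  rw [Matrix.mul_assoc, nonsing_inv_mul _ hA, Matrix.mul_one] at h2
  exact h2

theorem Prp_anti (hm : 0 < m) {A B C : Mt m} (hA : IsUnit A.det) (hB : IsUnit B.det)
    (hC : IsUnit C.det) (hirr : Algebra.adjoin ℂ ({A, B, C} : Set (Mt m)) = ⊤) :
    ∃ K : ℝ, 0 ≤ K ∧ ∀ X : Mt m, trace X = 0 →
      ‖X‖ ≤ K * max ‖Prp_T A X‖ (max ‖Prp_T B X‖ ‖Prp_T C X‖) := by
  let T : Mt m →ₗ[ℂ] (Mt m × Mt m × Mt m) × ℂ :=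
    ((Prp_T A).prod ((Prp_T B).prod (Prp_T C))).prod (traceLinearMap (Fin m) ℂ ℂ)
  have hker : LinearMap.ker T = ⊥ := by
    rw [LinearMap.ker_eq_bot']
    intro X hX
    have h1 : Prp_T A X = 0 := congrArg (fun z : (Mt m × Mt m × Mt m) × ℂ => z.1.1) hX
    have h2 : Prp_T B X = 0 := congrArg (fun z : (Mt m × Mt m × Mt m) × ℂ => z.1.2.1) hX
    have h3 : Prp_T C X = 0 := congrArg (fun z : (Mt m × Mt m × Mt m) × ℂ => z.1.2.2) hX
    have h4 : trace X = 0 := congrArg (fun z : (Mt m × Mt m × Mt m) × ℂ => z.2) hX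
    have hall : ∀ M : Mt m, M * X = X * M := by
      intro M
      have hM : M ∈ Algebra.adjoin ℂ ({A, B, C} : Set (Mt m)) := by
        rw [hirr]
        exact Algebra.mem_top
      induction hM using Algebra.adjoin_induction with
      | mem M hM =>
        rcases hM with rfl | rfl | rfl
        · exact Prp_comm hA h1
        · exact Prp_comm hB h2
        · exact Prp_comm hC h3
      | algebraMap c => exact Algebra.commutes c X
      | add M N _ _ hM hN => rw [Matrix.add_mul, Matrix.mul_add, hM, hN]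
      | mul M N _ _ hM hN => rw [Matrix.mul_assoc, hN, ← Matrix.mul_assoc, hM, Matrix.mul_assoc]
    have h5 : X ∈ Set.range (Matrix.scalar (Fin m)) :=
      mem_range_scalar_iff_commute_single'.2 fun i j => hall _
    obtain ⟨c, hc⟩ := h5
    rw [← hc] at h4
    rw [Matrix.scalar_apply, trace_diagonal, Finset.sum_const, Finset.card_univ, Fintype.card_fin,
      nsmul_eq_mul] at h4
    have hm0 : ((m : ℕ) : ℂ) ≠ 0 := by exact_mod_cast hm.ne'
    have hc0 : c = 0 := (mul_eq_zero.1 h4).resolve_left hm0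
    rw [← hc, hc0, map_zero]
  obtain ⟨K, -, hK⟩ := LinearMap.exists_antilipschitzWith T hker
  refine ⟨K, K.2, fun X hX => ?_⟩
  have h1 := hK.le_mul_dist X 0
  rw [dist_zero_right, map_zero, dist_zero_right] at h1
  refine h1.trans (mul_le_mul_of_nonneg_left ?_ K.2)
  have h2 : ‖T X‖ = max (max ‖Prp_T A X‖ (max ‖Prp_T B X‖ ‖Prp_T C X‖)) ‖trace X‖ := rfl
  rw [h2, hX, norm_zero]
  exact max_le le_rfl ((norm_nonneg _).trans (le_max_left _ _))

theorem Prp_schur (hm : 0 < m) {A B C : Mt m} (hA : IsUnit A.det) (hB : IsUnit B.det)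
    (hC : IsUnit C.det) (hirr : Algebra.adjoin ℂ ({A, B, C} : Set (Mt m)) = ⊤) :
    ∃ c : ℝ, 0 ≤ c ∧ ∀ X : Mt m, ∃ z : ℂ,
      n2 1 (X - z • (1 : Mt m)) ≤ c * (n2 1 (A * X * A⁻¹ - X) + n2 1 (B * X * B⁻¹ - X) +
        n2 1 (C * X * C⁻¹ - X)) := by
  obtain ⟨K, hK0, hK⟩ := Prp_anti hm hA hB hC hirr
  refine ⟨K ^ 2, sq_nonneg _, fun X => ⟨trace X / m, ?_⟩⟩
  set z : ℂ := trace X / m with hz
  have hm0 : ((m : ℕ) : ℂ) ≠ 0 := by exact_mod_cast hm.ne'
  have htr : trace (X - z • (1 : Mt m)) = 0 := by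
    rw [trace_sub, trace_smul, trace_one, Fintype.card_fin, smul_eq_mul, hz,
      div_mul_cancel₀ _ hm0, sub_self]
  have hT : ∀ A : Mt m, IsUnit A.det → Prp_T A (X - z • (1 : Mt m)) = A * X * A⁻¹ - X := by
    intro A hA
    have h1 : Prp_T A (1 : Mt m) = 0 := by
      change A * 1 * A⁻¹ - 1 = 0
      rw [Matrix.mul_one, mul_nonsing_inv _ hA, sub_self]
    rw [map_sub, map_smul, h1, smul_zero, sub_zero]
    rfl
  have h1 := hK _ htr
  rw [hT A hA, hT B hB, hT C hC] at h1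
  have h2 : ∀ a b c : ℝ, 0 ≤ a → 0 ≤ b → 0 ≤ c →
      max a (max b c) ^ 2 ≤ a ^ 2 + b ^ 2 + c ^ 2 := by
    intro a b c ha hb hc
    rcases max_cases a (max b c) with h | h
    · rw [h.1]
      nlinarith [sq_nonneg b, sq_nonneg c]
    · rw [h.1]
      rcases max_cases b c with h' | h'
      · rw [h'.1]
        nlinarith [sq_nonneg a, sq_nonneg c]
      · rw [h'.1]
        nlinarith [sq_nonneg a, sq_nonneg b]
  rw [← Prp_norm, ← Prp_norm, ← Prp_norm, ← Prp_norm]
  refine (pow_le_pow_left₀ (norm_nonneg _) h1 2).trans ?_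
  rw [mul_pow]
  exact mul_le_mul_of_nonneg_left (h2 _ _ _ (norm_nonneg _) (norm_nonneg _) (norm_nonneg _))
    (sq_nonneg _)

end frob

theorem schur_bd (hm : 0 < m) {A B C : Mt m} (hA : IsUnit A.det) (hB : IsUnit B.det)
    (hC : IsUnit C.det) (hirr : Algebra.adjoin ℂ ({A, B, C} : Set (Mt m)) = ⊤) :
    ∃ c : ℝ, 0 ≤ c ∧ ∀ X : Mt m, ∃ z : ℂ,
      n2 1 (X - z • (1 : Mt m)) ≤ c * (n2 1 (A * X * A⁻¹ - X) + n2 1 (B * X * B⁻¹ - X) +
        n2 1 (C * X * C⁻¹ - X)) := by
  exact Prp_schur hm hA hB hC hirr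

end H80HM
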