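import Pool.Agent.H80.HM.Trp
import Pool.Agent.H80.HM.Prp
import Pool.Agent.H80.HM.Nb1

set_option autoImplicit false

/-!
# Row Dsm: the truncated difference of two near-minimisers is small except on a set of small measure

Given E0, M, eta > 0. Choose K := 6 (E0+1)/eta, L := exp(8 sqrt K), R from proper (row Prp) for this L (if L < 1.. L >= 1 here), c from schur_bd.
For a good point x (row Trp, transp with I = E0, J = d0, K, K'): h = H x, det h = 1, displacements bounded by L, so Cm2 R h 1 (WLOG R >= 1).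
Put b := 9 exp(32 sqrt K) K'. n2 1 (gXg^{-1} - X) <= R^2 n2 h (gXg^{-1} - X) <= R^2 b for g = A, B, C (n2_cmp; X = Xf phi H G x).
schur_bd: there is z with n2 1 (X - z) <= 3 c R^2 b, so n2 h (X - z) <= R^2 n2 1 (X - z) <= 3cR^4 b =: b'.
Frame h = QQ*, G x = Q diag(exp lam) Q*: X = Q diag(phi lam)Q^{-1}, n2 h (X - z) = sum |phi(lam_i) - z|^2 (n2_eq) and sum lam_i = 0 (sum_lam, det H = det G),
so there are i, j with lam_i <= 0 <= lam_j, phi(lam_i) <= 0 <= phi(lam_j) (phi odd, monotone). For every k: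
 |phi(lam_k)| <= max phi(lam) - min phi(lam) <= 2 sqrt(b'), since each phi(lam_k) is within sqrt(b') of Re z. Hence Re tr X^2 = sum phi(lam_k)^2 <= 4 m b'.
Choose K' > 0 with 4 m b' = 12 m c R^4 9 exp(32 sqrt K) K' < M^2/4, then d0 := eta K'/6. Then Bs M X is contained in S (for x in U minus S the
defining inequality fails) and volume S <= 3E0/K + 3d0/K' <= eta/2 + eta/2.
(phi truncation with M <= 1, so |phi| <= 1 and the dn of X are integrable by xf_dn_int; X in Fd by xf_fd.)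
-/

namespace H80HM

open Matrix MeasureTheory Set
open scoped ComplexOrder

variable {m : ℕ}

theorem Dsm_key {h g Q : Mt m} {lam : Fin m → ℝ} (hQ : FrL h g Q lam) (phi : ℝ → ℝ) (z : ℂ)
    (k : Fin m) : (phi (lam k) - z.re) ^ 2 ≤ n2 h (fcal phi h g - z • (1 : Mt m)) := by
  have h1 : Q⁻¹ * Q = 1 := nonsing_inv_mul _ hQ.1
  rw [n2_eq hQ.1 hQ.2.1]
  have h2 : Q⁻¹ * (fcal phi h g - z • (1 : Mt m)) * Q =
      diagonal (fun i => ((phi (lam i) : ℝ) : ℂ)) - z • (1 : Mt m) := by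
    rw [fcal_eq hQ phi, Matrix.mul_sub, Matrix.sub_mul, Sib_conj hQ.1, Matrix.mul_smul,
      Matrix.mul_one, Matrix.smul_mul, h1]
  rw [h2]
  have h3 : ‖(diagonal (fun i => ((phi (lam i) : ℝ) : ℂ)) - z • (1 : Mt m)) k k‖ ^ 2 ≤
      ∑ i, ∑ j, ‖(diagonal (fun i => ((phi (lam i) : ℝ) : ℂ)) - z • (1 : Mt m)) i j‖ ^ 2 := by
    refine le_trans ?_ (Finset.single_le_sum (f := fun i => ∑ j,
      ‖(diagonal (fun i => ((phi (lam i) : ℝ) : ℂ)) - z • (1 : Mt m)) i j‖ ^ 2)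
      (fun i _ => Finset.sum_nonneg fun j _ => sq_nonneg _) (Finset.mem_univ k))
    exact Finset.single_le_sum (f := fun j =>
      ‖(diagonal (fun i => ((phi (lam i) : ℝ) : ℂ)) - z • (1 : Mt m)) k j‖ ^ 2)
      (fun j _ => sq_nonneg _) (Finset.mem_univ k)
  refine le_trans ?_ h3
  rw [Matrix.sub_apply, diagonal_apply_eq, Matrix.smul_apply, Matrix.one_apply_eq, smul_eq_mul,
    mul_one]
  have h4 : ((((phi (lam k) : ℝ) : ℂ) - z)).re = phi (lam k) - z.re := by
    rw [Complex.sub_re, Complex.ofReal_re]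
  rw [← h4, ← sq_abs]
  exact pow_le_pow_left₀ (abs_nonneg _) (Complex.abs_re_le_norm _) 2

theorem Dsm_sum (hm : 0 < m) {lam : Fin m → ℝ} (hl : ∑ i, lam i = 0) {phi : ℝ → ℝ}
    (hmono : Monotone phi) (hodd : ∀ t, phi (-t) = - phi t) {w b : ℝ}
    (hb : ∀ k, (phi (lam k) - w) ^ 2 ≤ b) : ∑ i, phi (lam i) ^ 2 ≤ 4 * m * b := by
  haveI : Nonempty (Fin m) := ⟨⟨0, hm⟩⟩
  have h0 : phi 0 = 0 := by
    have := hodd 0
    rw [neg_zero] at this
    linarith
  have hi : ∃ i, lam i ≤ 0 := by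
    by_contra hcon
    push Not at hcon
    have := Finset.sum_pos (fun i (_ : i ∈ Finset.univ) => hcon i) Finset.univ_nonempty
    linarith
  have hj : ∃ j, 0 ≤ lam j := by
    by_contra hcon
    push Not at hcon
    have := Finset.sum_neg (fun i (_ : i ∈ Finset.univ) => hcon i) Finset.univ_nonempty
    linarith
  obtain ⟨i, hi⟩ := hi
  obtain ⟨j, hj⟩ := hj
  have hi' : phi (lam i) ≤ 0 := by
    rw [← h0]
    exact hmono hi
  have hj' : 0 ≤ phi (lam j) := by
    rw [← h0]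
    exact hmono hj
  have hw : w ^ 2 ≤ b := by
    rcases le_total 0 w with h | h
    · nlinarith [hb i]
    · nlinarith [hb j]
  have hk : ∀ k, phi (lam k) ^ 2 ≤ 4 * b := by
    intro k
    nlinarith [hb k, sq_nonneg (phi (lam k) - 2 * w)]
  calc ∑ i, phi (lam i) ^ 2 ≤ ∑ _i : Fin m, 4 * b := Finset.sum_le_sum fun k _ => hk k
    _ = 4 * m * b := by
      rw [Finset.sum_const, Finset.card_univ, Fintype.card_fin, nsmul_eq_mul]
      ring

theorem small_meas (hm : 0 < m) {A B C : Mt m} (hA : IsUnit A.det) (hB : IsUnit B.det)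
    (hC : IsUnit C.det) (hirr : Algebra.adjoin ℂ ({A, B, C} : Set (Mt m)) = ⊤)
    {E0 M eta : ℝ} (hE0 : 0 ≤ E0) (hM : 0 < M) (hM1 : M ≤ 1) (heta : 0 < eta)
    {phi : ℝ → ℝ} (htr : Tr M phi) :
    ∃ d0 : ℝ, 0 < d0 ∧ ∀ H G : ℝ × ℝ → Mt m, Cl A B C H → Cl A B C G →
      (∀ x ∈ D \ P, (H x).det = 1) → (∀ x ∈ D \ P, (G x).det = 1) →
      ∫ x in U, (q (1, 0) (1, 0) H x + q (0, 1) (0, 1) H x) ≤ E0 →
      ∫ x in U, (dn (1, 0) H (Xf phi H G) x + dn (0, 1) H (Xf phi H G) x) ≤ d0 →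
      volume (Bs M (Xf phi H G)) ≤ ENNReal.ofReal eta := by
  set K : ℝ := 6 * (E0 + 1) / eta with hKdef
  have hK : 0 < K := by positivity
  obtain ⟨R, hR, hprop⟩ := proper hm hirr (Real.exp (8 * Real.sqrt K))
  obtain ⟨c, hc0, hc⟩ := schur_bd hm hA hB hC hirr
  set Ex : ℝ := Real.exp (32 * Real.sqrt K) with hEx
  have hEx0 : 0 < Ex := Real.exp_pos _
  set T : ℝ := 4 * m * (27 * c * R ^ 4 * Ex) with hT
  have hT0 : 0 ≤ T := by positivity
  set K' : ℝ := M ^ 2 / (4 * (T + 1)) with hK'def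
  have hK' : 0 < K' := by positivity
  refine ⟨eta * K' / 6, by positivity, ?_⟩
  intro H G hH hG dH dG hE hd0
  have hphi1 : ∀ t, |phi t| ≤ 1 := fun t => (htr.bd t).trans hM1
  have hX := xf_fd hA hB hC hH hG htr.cd
  have i1 := xf_dn_int hA hB hC hH hG htr.cd htr.d0 htr.d1 hphi1 (1, 0)
  have i2 := xf_dn_int hA hB hC hH hG htr.cd htr.d0 htr.d1 hphi1 (0, 1)
  obtain ⟨S, hSU, -, hvol, hgood⟩ := transp hA hB hC hH hX hE hK i1 i2 hd0 hK'
  have hmono := (Pi2_mono htr.cd htr.d0 htr.d1).1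
  have hsub : Bs M (Xf phi H G) ⊆ S := by
    intro x hx
    by_contra hxS
    obtain ⟨gA, gB, gC, nA, nB, nC⟩ := hgood x ⟨hx.1, hxS⟩
    have hxD := u_sub hx.1
    have pH := hH.pos x hxD
    have pG := hG.pos x hxD
    obtain ⟨r1, r2⟩ := hprop (H x) pH (dH x hxD) gA gB gC
    obtain ⟨z, hz⟩ := hc (Xf phi H G x)
    have p1 : (1 : Mt m).PosDef := Matrix.PosDef.one
    have e1 : ∀ Y : Mt m, n2 1 Y ≤ R ^ 2 * n2 (H x) Y := n2_cmp p1 pH R r2 r1
    have e2 : ∀ Y : Mt m, n2 (H x) Y ≤ R ^ 2 * n2 1 Y := n2_cmp pH p1 R r1 r2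
    have hR2 : 0 ≤ R ^ 2 := by positivity
    have a1 := (e1 (A * Xf phi H G x * A⁻¹ - Xf phi H G x)).trans
      (mul_le_mul_of_nonneg_left nA hR2)
    have a2 := (e1 (B * Xf phi H G x * B⁻¹ - Xf phi H G x)).trans
      (mul_le_mul_of_nonneg_left nB hR2)
    have a3 := (e1 (C * Xf phi H G x * C⁻¹ - Xf phi H G x)).trans
      (mul_le_mul_of_nonneg_left nC hR2)
    have a4 : n2 (H x) (Xf phi H G x - z • (1 : Mt m)) ≤ 27 * c * R ^ 4 * Ex * K' := by
      calc n2 (H x) (Xf phi H G x - z • (1 : Mt m))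
          ≤ R ^ 2 * n2 1 (Xf phi H G x - z • (1 : Mt m)) := e2 _
        _ ≤ R ^ 2 * (c * (R ^ 2 * (9 * Ex * K') + R ^ 2 * (9 * Ex * K') +
            R ^ 2 * (9 * Ex * K'))) := by
          refine mul_le_mul_of_nonneg_left (hz.trans ?_) hR2
          exact mul_le_mul_of_nonneg_left (by linarith) hc0
        _ = 27 * c * R ^ 4 * Ex * K' := by ring
    obtain ⟨Q, lam, hQ⟩ := exists_fr pH pG
    have hl : ∑ i, lam i = 0 := sum_lam hQ (by rw [dH x hxD, dG x hxD])
    have a5 : ∀ k, (phi (lam k) - z.re) ^ 2 ≤ 27 * c * R ^ 4 * Ex * K' :=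
      fun k => (Dsm_key hQ phi z k).trans a4
    have a6 := Dsm_sum hm hl hmono htr.odd a5
    have a7 : (trace (Xf phi H G x * Xf phi H G x)).re = ∑ i, phi (lam i) ^ 2 :=
      tr_fcal_sq hQ phi
    have a8 := hx.2
    rw [a7] at a8
    have a9 : 4 * (m : ℝ) * (27 * c * R ^ 4 * Ex * K') < M ^ 2 / 4 := by
      have b1 : 4 * (m : ℝ) * (27 * c * R ^ 4 * Ex * K') = T * K' := by
        rw [hT]
        ring
      rw [b1]
      have b2 : (T + 1) * K' = M ^ 2 / 4 := by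
        rw [hK'def]
        field_simp
      nlinarith
    linarith
  calc volume (Bs M (Xf phi H G)) ≤ volume S := measure_mono hsub
    _ ≤ ENNReal.ofReal (3 * E0 / K) + ENNReal.ofReal (3 * (eta * K' / 6) / K') := hvol
    _ = ENNReal.ofReal (3 * E0 / K + 3 * (eta * K' / 6) / K') := by
      rw [ENNReal.ofReal_add (by positivity) (by positivity)]
    _ ≤ ENNReal.ofReal eta := by
      apply ENNReal.ofReal_le_ofReal
      have b1 : 3 * (eta * K' / 6) / K' = eta / 2 := by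
        field_simp
        ring
      have b2 : 3 * E0 / K ≤ eta / 2 := by
        rw [hKdef]
        have b3 : 3 * E0 / (6 * (E0 + 1) / eta) = (E0 / (E0 + 1)) * (eta / 2) := by
          field_simp
          ring
        rw [b3]
        have b4 : E0 / (E0 + 1) ≤ 1 := by
          rw [div_le_one (by linarith)]
          linarith
        nlinarith
      linarith

end H80HM
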