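import Pool.Agent.H80.HM.Mea

set_option autoImplicit false

/-!
# Row Mvs: the move S

G(u,v) := H(1-v, u) if u <= 1/2, B H(v, 1-u) B* if u > 1/2.
Class of (B C^{-1}, B, B A^{-1}):
* seam u = 1/2: H(1-v,1/2) = B H(v,1/2) B* for 0<v<1/2 (glB): the two formulas agree there.
* side (0<v<1/2): G(1,v) = B H(v,0) B*, G(0,v) = H(1-v,0) = A H(v,0) A*, so G(1,v) = B A^{-1} G(0,v) A^{-*} B*.
* bottom (0<u<1/2): G(u,0) = H(1,u) = C H(0,u) C*, G(1-u,0) = B H(0,u) B* = B C^{-1} G(u,0) C^{-*} B*.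
* top (0<u<1/2): G(u,1/2) = H(1/2,u), G(1-u,1/2) = B H(1/2,u) B*.
* positivity: images of points of D minus P are in D minus P.
* Lipschitz on Dd d: as in row Mvt ((u,v) -> (1-v,u) is an isometry of the sup metric; the two pieces agree on the seam; far apart points by boundedness, close
  points by a point of the seam on the segment; the images of Dd d lie in Dd d' because dist to P is preserved by the symmetries; compactness).
* energy: for a.e. (u,v) with u<1/2: pd (1,0) G = pd (0,1) H, pd (0,1) G = - pd (1,0) H at (1-v,u); for u>1/2: pd (1,0) G = - B pd (0,1) H B*,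
  pd (0,1) G = B pd (1,0) H B* at (v,1-u). So q11 G = q22 H, q12 G = -q12 H, q22 G = q11 H, and the density of Et x y G is
  ((x^2+y^2) q22 + 2x q12 + q11)/y, that of Et (x',y') H with x' = -x/(x^2+y^2), y' = y/(x^2+y^2), x'^2+y'^2 = 1/(x^2+y^2), is
  (q11/(x^2+y^2) - 2x' q12 + q22)/y' = (q11 + 2x q12 + (x^2+y^2)q22)/y. Equal. Integrate: (u,v) -> (1-v,u) maps {u<1/2} onto {u>1/2}, (u,v) -> (v,1-u)
  maps {u>1/2} onto {u<1/2} (inside U, measure preserving).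
-/

namespace H80HM

open Matrix MeasureTheory Set
open scoped ComplexOrder

theorem Mvs_inv {m : ℕ} {K F : Mt m} (hK : IsUnit K.det) (X : Mt m) :
    K * X * Kᴴ * (K * F * Kᴴ)⁻¹ = K * (X * F⁻¹) * K⁻¹ := by
  have hK' : IsUnit (Kᴴ).det := by
    rw [Matrix.det_conjTranspose]
    exact hK.star
  rw [Matrix.mul_inv_rev, Matrix.mul_inv_rev]
  calc K * X * Kᴴ * ((Kᴴ)⁻¹ * (F⁻¹ * K⁻¹)) = K * X * (Kᴴ * (Kᴴ)⁻¹) * (F⁻¹ * K⁻¹) := by
        simp only [Matrix.mul_assoc]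
    _ = K * (X * F⁻¹) * K⁻¹ := by
        rw [Matrix.mul_nonsing_inv _ hK', Matrix.mul_one]
        simp only [Matrix.mul_assoc]

theorem Mvs_pd {m : ℕ} {K : Mt m} {H G : ℝ × ℝ → Mt m} {τ : ℝ × ℝ → ℝ × ℝ}
    {M : ℝ × ℝ →L[ℝ] ℝ × ℝ} {x : ℝ × ℝ} (hτ : HasFDerivAt τ M x)
    (hd : ∀ i j, DifferentiableAt ℝ (fun y => H y i j) (τ x))
    (hG : ∀ᶠ y in nhds x, G y = K * H (τ y) * Kᴴ) (t : ℝ × ℝ) :
    pd t G x = K * pd (M t) H (τ x) * Kᴴ := by
  ext i j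
  have h1 : ∀ k l, HasFDerivAt (fun y => H (τ y) k l)
      ((fderiv ℝ (fun y => H y k l) (τ x)).comp M) x := fun k l => (hd k l).hasFDerivAt.comp x hτ
  have h2 : HasFDerivAt (fun y => ∑ l, (∑ k, K i k * H (τ y) k l) * Kᴴ l j)
      (∑ l, Kᴴ l j • ∑ k, K i k • ((fderiv ℝ (fun y => H y k l) (τ x)).comp M)) x :=
    HasFDerivAt.fun_sum fun l _ => (HasFDerivAt.fun_sum fun k _ => (h1 k l).const_mul _).mul_const _
  have h3 : (fun y => G y i j) =ᶠ[nhds x] fun y => ∑ l, (∑ k, K i k * H (τ y) k l) * Kᴴ l j := by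
    filter_upwards [hG] with y hy
    rw [hy, Matrix.mul_apply]
    exact Finset.sum_congr rfl fun l _ => by rw [Matrix.mul_apply]
  have h4 : pd t G x i j = fderiv ℝ (fun y => G y i j) x t := rfl
  rw [h4, h3.fderiv_eq, h2.fderiv, Matrix.mul_apply]
  simp only [ContinuousLinearMap.sum_apply, ContinuousLinearMap.smul_apply, smul_eq_mul,
    ContinuousLinearMap.comp_apply]
  refine Finset.sum_congr rfl fun l _ => ?_
  rw [Matrix.mul_apply, mul_comm]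
  rfl

theorem Mvs_aa {m : ℕ} {K : Mt m} (hK : IsUnit K.det) {H G : ℝ × ℝ → Mt m} {τ : ℝ × ℝ → ℝ × ℝ}
    {M : ℝ × ℝ →L[ℝ] ℝ × ℝ} {x : ℝ × ℝ} (hτ : HasFDerivAt τ M x)
    (hd : ∀ i j, DifferentiableAt ℝ (fun y => H y i j) (τ x))
    (hG : ∀ᶠ y in nhds x, G y = K * H (τ y) * Kᴴ) (t : ℝ × ℝ) :
    aa t G x = K * aa (M t) H (τ x) * K⁻¹ := by
  rw [aa, aa, Mvs_pd hτ hd hG, hG.self_of_nhds, Mvs_inv hK, Matrix.mul_smul, Matrix.smul_mul]

theorem Mvs_q {m : ℕ} {K : Mt m} (hK : IsUnit K.det) {H G : ℝ × ℝ → Mt m} {τ : ℝ × ℝ → ℝ × ℝ}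
    {M : ℝ × ℝ →L[ℝ] ℝ × ℝ} {x : ℝ × ℝ} (hτ : HasFDerivAt τ M x)
    (hd : ∀ i j, DifferentiableAt ℝ (fun y => H y i j) (τ x))
    (hG : ∀ᶠ y in nhds x, G y = K * H (τ y) * Kᴴ) (t t' : ℝ × ℝ) :
    q t t' G x = q (M t) (M t') H (τ x) := by
  rw [q, q, Mvs_aa hK hτ hd hG, Mvs_aa hK hτ hd hG]
  have h1 : K * aa (M t) H (τ x) * K⁻¹ * (K * aa (M t') H (τ x) * K⁻¹) =
      K * (aa (M t) H (τ x) * aa (M t') H (τ x)) * K⁻¹ := by
    calc _ = K * aa (M t) H (τ x) * (K⁻¹ * K) * (aa (M t') H (τ x) * K⁻¹) := by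
          simp only [Matrix.mul_assoc]
      _ = _ := by
          rw [Matrix.nonsing_inv_mul _ hK, Matrix.mul_one]
          simp only [Matrix.mul_assoc]
  rw [h1, Matrix.trace_mul_comm, ← Matrix.mul_assoc, Matrix.nonsing_inv_mul _ hK, Matrix.one_mul]

/-- scaling and signs -/
theorem Mvs_qs {m : ℕ} (H : ℝ × ℝ → Mt m) (x : ℝ × ℝ) (t t' : ℝ × ℝ) (c c' : ℝ) :
    q (c • t) (c' • t') H x = c * c' * q t t' H x := by
  have h1 : ∀ (s s' : ℝ × ℝ) (d : ℝ), q (d • s) s' H x = d * q s s' H x := by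
    intro s s' d
    have h := q_lin H x d 0 s s s'
    rw [zero_smul, add_zero, zero_mul, add_zero] at h
    exact h
  rw [h1, q_comm, h1, q_comm]
  ring

/-- left and right squares -/
def Mvs_L : Set (ℝ × ℝ) := Ioo (0:ℝ) (1/2) ×ˢ Ioo (0:ℝ) (1/2)
def Mvs_R : Set (ℝ × ℝ) := Ioo (1/2:ℝ) 1 ×ˢ Ioo (0:ℝ) (1/2)

def Mvs_rho (x : ℝ × ℝ) : ℝ × ℝ := (1 - x.2, x.1)
def Mvs_sig (x : ℝ × ℝ) : ℝ × ℝ := (x.2, 1 - x.1)

theorem Mvs_mpR : MeasurePreserving Mvs_rho volume volume := by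
  have h1 : MeasurePreserving (Prod.swap : ℝ × ℝ → ℝ × ℝ) volume volume :=
    Measure.measurePreserving_swap
  have h2 : MeasurePreserving (Prod.map (fun a : ℝ => 1 - a) (id : ℝ → ℝ)) volume volume :=
    (Measure.measurePreserving_sub_left (volume : Measure ℝ) 1).prod (MeasurePreserving.id _)
  exact h2.comp h1

theorem Mvs_mpS : MeasurePreserving Mvs_sig volume volume := by
  have h1 : MeasurePreserving (Prod.swap : ℝ × ℝ → ℝ × ℝ) volume volume :=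
    Measure.measurePreserving_swap
  have h2 : MeasurePreserving (Prod.map (id : ℝ → ℝ) (fun a : ℝ => 1 - a)) volume volume :=
    (MeasurePreserving.id _).prod (Measure.measurePreserving_sub_left (volume : Measure ℝ) 1)
  exact h2.comp h1

theorem Mvs_emR : MeasurableEmbedding Mvs_rho := by
  apply Continuous.measurableEmbedding
  · exact (continuous_const.sub continuous_snd).prodMk continuous_fst
  · intro x y h
    have h1 := congrArg Prod.fst h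
    have h2 := congrArg Prod.snd h
    simp only [Mvs_rho] at h1 h2
    exact Prod.ext h2 (by linarith)

theorem Mvs_emS : MeasurableEmbedding Mvs_sig := by
  apply Continuous.measurableEmbedding
  · exact continuous_snd.prodMk (continuous_const.sub continuous_fst)
  · intro x y h
    have h1 := congrArg Prod.fst h
    have h2 := congrArg Prod.snd h
    simp only [Mvs_sig] at h1 h2
    exact Prod.ext (by linarith) h1

theorem Mvs_preR : Mvs_rho ⁻¹' Mvs_R = Mvs_L := by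
  ext x
  simp only [Mvs_rho, Mvs_R, Mvs_L, mem_preimage, mem_prod, mem_Ioo]
  constructor <;> intro h <;> refine ⟨⟨?_, ?_⟩, ⟨?_, ?_⟩⟩ <;> linarith [h.1.1, h.1.2, h.2.1, h.2.2]

theorem Mvs_preS : Mvs_sig ⁻¹' Mvs_L = Mvs_R := by
  ext x
  simp only [Mvs_sig, Mvs_R, Mvs_L, mem_preimage, mem_prod, mem_Ioo]
  constructor <;> intro h <;> refine ⟨⟨?_, ?_⟩, ⟨?_, ?_⟩⟩ <;> linarith [h.1.1, h.1.2, h.2.1, h.2.2]

theorem Mvs_measL : MeasurableSet Mvs_L := measurableSet_Ioo.prod measurableSet_Ioo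
theorem Mvs_measR : MeasurableSet Mvs_R := measurableSet_Ioo.prod measurableSet_Ioo

theorem Mvs_subL : Mvs_L ⊆ U := by
  intro x hx
  exact ⟨⟨hx.1.1, by linarith [hx.1.2]⟩, hx.2⟩

theorem Mvs_subR : Mvs_R ⊆ U := by
  intro x hx
  exact ⟨⟨by linarith [hx.1.1], hx.1.2⟩, hx.2⟩

theorem Mvs_disj : Disjoint Mvs_L Mvs_R := by
  rw [Set.disjoint_left]
  intro x h1 h2
  linarith [h1.1.2, h2.1.1]

theorem Mvs_ae : U =ᵐ[volume] (Mvs_L ∪ Mvs_R : Set (ℝ × ℝ)) := by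
  have h0 : volume (({1/2} : Set ℝ) ×ˢ (univ : Set ℝ)) = 0 := by
    rw [Measure.volume_eq_prod, Measure.prod_prod, Real.volume_singleton, zero_mul]
  have h1 : ∀ᵐ x ∂(volume : Measure (ℝ × ℝ)), x ∉ ({1/2} : Set ℝ) ×ˢ (univ : Set ℝ) :=
    compl_mem_ae_iff.2 h0
  filter_upwards [h1] with x hx
  apply propext
  change x ∈ U ↔ x ∈ Mvs_L ∪ Mvs_R
  have hne : x.1 ≠ 1/2 := fun h => hx ⟨h, mem_univ _⟩
  constructor
  · intro h
    rcases lt_or_gt_of_ne hne with h2 | h2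
    · exact Or.inl ⟨⟨h.1.1, h2⟩, h.2⟩
    · exact Or.inr ⟨⟨h2, h.1.2⟩, h.2⟩
  · rintro (h | h)
    · exact Mvs_subL h
    · exact Mvs_subR h

theorem Mvs_int {f : ℝ × ℝ → ℝ} (hL : IntegrableOn f Mvs_L) (hR : IntegrableOn f Mvs_R) :
    IntegrableOn f U ∧ ∫ x in U, f x = (∫ x in Mvs_L, f x) + ∫ x in Mvs_R, f x := by
  refine ⟨(hL.union hR).congr_set_ae Mvs_ae, ?_⟩
  rw [setIntegral_congr_set Mvs_ae, setIntegral_union Mvs_disj Mvs_measR hL hR]

/-- transfer of the integral of a density -/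
theorem Mvs_tr {f g : ℝ × ℝ → ℝ} (hg : IntegrableOn g U)
    (hL : ∀ᵐ x ∂(volume.restrict Mvs_L), f x = g (Mvs_rho x))
    (hR : ∀ᵐ x ∂(volume.restrict Mvs_R), f x = g (Mvs_sig x)) :
    IntegrableOn f U ∧ ∫ x in U, f x = ∫ x in U, g x := by
  have gL := hg.mono_set Mvs_subL
  have gR := hg.mono_set Mvs_subR
  have iL : IntegrableOn (g ∘ Mvs_rho) Mvs_L := by
    rw [← Mvs_preR]
    exact (Mvs_mpR.integrableOn_comp_preimage Mvs_emR).2 gR
  have iR : IntegrableOn (g ∘ Mvs_sig) Mvs_R := by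
    rw [← Mvs_preS]
    exact (Mvs_mpS.integrableOn_comp_preimage Mvs_emS).2 gL
  have fL : IntegrableOn f Mvs_L := iL.congr (by
    filter_upwards [hL] with x hx
    exact hx.symm)
  have fR : IntegrableOn f Mvs_R := iR.congr (by
    filter_upwards [hR] with x hx
    exact hx.symm)
  have e1 : ∫ x in Mvs_L, f x = ∫ x in Mvs_R, g x := by
    rw [integral_congr_ae hL, ← Mvs_mpR.setIntegral_preimage_emb Mvs_emR g Mvs_R, Mvs_preR]
  have e2 : ∫ x in Mvs_R, f x = ∫ x in Mvs_L, g x := by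
    rw [integral_congr_ae hR, ← Mvs_mpS.setIntegral_preimage_emb Mvs_emS g Mvs_L, Mvs_preS]
  obtain ⟨h1, h2⟩ := Mvs_int fL fR
  obtain ⟨-, h3⟩ := Mvs_int gL gR
  exact ⟨h1, by rw [h2, h3, e1, e2, add_comm]⟩

/-- linear parts -/
noncomputable def Mvs_dR : ℝ × ℝ →L[ℝ] ℝ × ℝ :=
  (-(ContinuousLinearMap.snd ℝ ℝ ℝ)).prod (ContinuousLinearMap.fst ℝ ℝ ℝ)
noncomputable def Mvs_dS : ℝ × ℝ →L[ℝ] ℝ × ℝ :=
  (ContinuousLinearMap.snd ℝ ℝ ℝ).prod (-(ContinuousLinearMap.fst ℝ ℝ ℝ))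

theorem Mvs_fdR (x : ℝ × ℝ) : HasFDerivAt Mvs_rho Mvs_dR x := by
  have h1 : HasFDerivAt (fun y : ℝ × ℝ => 1 - y.2) (-(ContinuousLinearMap.snd ℝ ℝ ℝ)) x :=
    hasFDerivAt_snd.const_sub 1
  exact h1.prodMk hasFDerivAt_fst

theorem Mvs_fdS (x : ℝ × ℝ) : HasFDerivAt Mvs_sig Mvs_dS x := by
  have h1 : HasFDerivAt (fun y : ℝ × ℝ => 1 - y.1) (-(ContinuousLinearMap.fst ℝ ℝ ℝ)) x :=
    hasFDerivAt_fst.const_sub 1
  exact hasFDerivAt_snd.prodMk h1

/-- the new metric -/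
noncomputable def Mvs_G {m : ℕ} (B : Mt m) (H : ℝ × ℝ → Mt m) (x : ℝ × ℝ) : Mt m :=
  if x.1 ≤ 1/2 then H (Mvs_rho x) else B * H (Mvs_sig x) * Bᴴ

theorem Mvs_qL {m : ℕ} (B : Mt m) {H : ℝ × ℝ → Mt m} {x : ℝ × ℝ} (hx : x ∈ Mvs_L)
    (hd : ∀ i j, DifferentiableAt ℝ (fun y => H y i j) (Mvs_rho x)) :
    q (1, 0) (1, 0) (Mvs_G B H) x = q (0, 1) (0, 1) H (Mvs_rho x) ∧
    q (1, 0) (0, 1) (Mvs_G B H) x = - q (1, 0) (0, 1) H (Mvs_rho x) ∧
    q (0, 1) (0, 1) (Mvs_G B H) x = q (1, 0) (1, 0) H (Mvs_rho x) := by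
  have hG : ∀ᶠ y in nhds x, Mvs_G B H y = (1 : Mt m) * H (Mvs_rho y) * (1 : Mt m)ᴴ := by
    have h1 : ∀ᶠ y : ℝ × ℝ in nhds x, y.1 < 1/2 :=
      (isOpen_lt continuous_fst continuous_const).mem_nhds hx.1.2
    filter_upwards [h1] with y hy
    rw [Mvs_G, if_pos hy.le, Matrix.one_mul, Matrix.conjTranspose_one, Matrix.mul_one]
  have h1 : IsUnit (1 : Mt m).det := by
    rw [Matrix.det_one]
    exact isUnit_one
  have hq := Mvs_q h1 (Mvs_fdR x) hd hG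
  have e1 : Mvs_dR (1, 0) = (1 : ℝ) • ((0, 1) : ℝ × ℝ) := by simp [Mvs_dR]
  have e2 : Mvs_dR (0, 1) = (-1 : ℝ) • ((1, 0) : ℝ × ℝ) := by simp [Mvs_dR]
  refine ⟨?_, ?_, ?_⟩
  · rw [hq, e1, Mvs_qs]
    ring
  · rw [hq, e1, e2, Mvs_qs, q_comm]
    ring
  · rw [hq, e2, Mvs_qs]
    ring

theorem Mvs_qR {m : ℕ} {B : Mt m} (hB : IsUnit B.det) {H : ℝ × ℝ → Mt m} {x : ℝ × ℝ}
    (hx : x ∈ Mvs_R) (hd : ∀ i j, DifferentiableAt ℝ (fun y => H y i j) (Mvs_sig x)) :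
    q (1, 0) (1, 0) (Mvs_G B H) x = q (0, 1) (0, 1) H (Mvs_sig x) ∧
    q (1, 0) (0, 1) (Mvs_G B H) x = - q (1, 0) (0, 1) H (Mvs_sig x) ∧
    q (0, 1) (0, 1) (Mvs_G B H) x = q (1, 0) (1, 0) H (Mvs_sig x) := by
  have hG : ∀ᶠ y in nhds x, Mvs_G B H y = B * H (Mvs_sig y) * Bᴴ := by
    have h1 : ∀ᶠ y : ℝ × ℝ in nhds x, 1/2 < y.1 :=
      (isOpen_lt continuous_const continuous_fst).mem_nhds hx.1.1
    filter_upwards [h1] with y hy
    rw [Mvs_G, if_neg (not_le.2 hy)]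
  have hq := Mvs_q hB (Mvs_fdS x) hd hG
  have e1 : Mvs_dS (1, 0) = (-1 : ℝ) • ((0, 1) : ℝ × ℝ) := by simp [Mvs_dS]
  have e2 : Mvs_dS (0, 1) = (1 : ℝ) • ((1, 0) : ℝ × ℝ) := by simp [Mvs_dS]
  refine ⟨?_, ?_, ?_⟩
  · rw [hq, e1, Mvs_qs]
    ring
  · rw [hq, e1, e2, Mvs_qs, q_comm]
    ring
  · rw [hq, e2, Mvs_qs]
    ring

theorem Mvs_aeL {m : ℕ} {H : ℝ × ℝ → Mt m} (h : Lz H) : ∀ᵐ x ∂(volume.restrict Mvs_L),
    ∀ i j, DifferentiableAt ℝ (fun y => H y i j) (Mvs_rho x) := by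
  have h1 : ∀ᵐ x ∂(volume.restrict Mvs_R), ∀ i j, DifferentiableAt ℝ (fun y => H y i j) x :=
    ae_restrict_of_ae_restrict_of_subset Mvs_subR (lz_ae h)
  have h2 := Mvs_mpR.restrict_preimage Mvs_measR
  rw [Mvs_preR] at h2
  exact h2.quasiMeasurePreserving.ae h1

theorem Mvs_aeR {m : ℕ} {H : ℝ × ℝ → Mt m} (h : Lz H) : ∀ᵐ x ∂(volume.restrict Mvs_R),
    ∀ i j, DifferentiableAt ℝ (fun y => H y i j) (Mvs_sig x) := by
  have h1 : ∀ᵐ x ∂(volume.restrict Mvs_L), ∀ i j, DifferentiableAt ℝ (fun y => H y i j) x :=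
    ae_restrict_of_ae_restrict_of_subset Mvs_subL (lz_ae h)
  have h2 := Mvs_mpS.restrict_preimage Mvs_measL
  rw [Mvs_preS] at h2
  exact h2.quasiMeasurePreserving.ae h1

theorem Mvs_dist (x y : ℝ × ℝ) : dist x y = max |x.1 - y.1| |x.2 - y.2| := by
  rw [Prod.dist_eq, Real.dist_eq, Real.dist_eq]

theorem Mvs_distR (x y : ℝ × ℝ) : dist (Mvs_rho x) (Mvs_rho y) = dist x y := by
  rw [Mvs_dist, Mvs_dist, max_comm]
  simp only [Mvs_rho]
  have h1 : (1 - x.2) - (1 - y.2) = -(x.2 - y.2) := by ring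
  rw [h1, abs_neg]

theorem Mvs_distS (x y : ℝ × ℝ) : dist (Mvs_sig x) (Mvs_sig y) = dist x y := by
  rw [Mvs_dist, Mvs_dist, max_comm]
  simp only [Mvs_sig]
  have h1 : (1 - x.1) - (1 - y.1) = -(x.1 - y.1) := by ring
  rw [h1, abs_neg]

theorem Mvs_memP {a b : ℝ} (ha : a = 0 ∨ a = 1/2 ∨ a = 1) (hb : b = 0 ∨ b = 1/2) :
    ((a, b) : ℝ × ℝ) ∈ P := by
  refine ⟨?_, ?_⟩
  · simpa using ha
  · simpa using hb

theorem Mvs_P {p : ℝ × ℝ} (hp : p ∈ P) : (p.1 = 0 ∨ p.1 = 1/2 ∨ p.1 = 1) ∧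
    (p.2 = 0 ∨ p.2 = 1/2) := by
  obtain ⟨h1, h2⟩ := hp
  refine ⟨?_, ?_⟩
  · simpa using h1
  · simpa using h2

/-- `rho` maps the left half into `D`, and preserves the distance to the punctures. -/
theorem Mvs_DdR {d : ℝ} {x : ℝ × ℝ} (hx : x ∈ Dd d) (h : x.1 ≤ 1/2) : Mvs_rho x ∈ Dd d := by
  obtain ⟨⟨⟨h1, h2⟩, ⟨h3, h4⟩⟩, hP⟩ := hx
  refine ⟨⟨⟨?_, ?_⟩, ⟨?_, ?_⟩⟩, ?_⟩
  · change 0 ≤ 1 - x.2
    linarith
  · change 1 - x.2 ≤ 1
    linarith
  · exact h1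
  · exact h
  · intro p hp
    obtain ⟨ha, hb⟩ := Mvs_P hp
    have key : ∀ a : ℝ, (a = 1/2 ∨ a = 1) → d ≤ dist (Mvs_rho x) (a, p.2) := by
      intro a ha
      have h5 : ((p.2, 1 - a) : ℝ × ℝ) ∈ P := Mvs_memP (by tauto)
        (by rcases ha with rfl | rfl <;> norm_num)
      have h6 : ((a, p.2) : ℝ × ℝ) = Mvs_rho (p.2, 1 - a) := by simp [Mvs_rho]
      rw [h6, Mvs_distR]
      exact hP _ h5
    rcases ha with h0 | h0
    · refine (key (1/2) (Or.inl rfl)).trans ?_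
      rw [Mvs_dist, Mvs_dist]
      apply max_le_max _ le_rfl
      simp only [Mvs_rho]
      rw [h0, sub_zero, abs_of_nonneg (by linarith), abs_of_nonneg (by linarith)]
      linarith
    · have h6 := key p.1 h0
      exact h6

theorem Mvs_DdS {d : ℝ} {x : ℝ × ℝ} (hx : x ∈ Dd d) (h : 1/2 ≤ x.1) : Mvs_sig x ∈ Dd d := by
  obtain ⟨⟨⟨h1, h2⟩, ⟨h3, h4⟩⟩, hP⟩ := hx
  refine ⟨⟨⟨?_, ?_⟩, ⟨?_, ?_⟩⟩, ?_⟩
  · exact h3
  · change x.2 ≤ 1
    linarith
  · change 0 ≤ 1 - x.1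
    linarith
  · change 1 - x.1 ≤ 1/2
    linarith
  · intro p hp
    obtain ⟨ha, hb⟩ := Mvs_P hp
    have key : ∀ a : ℝ, (a = 0 ∨ a = 1/2) → d ≤ dist (Mvs_sig x) (a, p.2) := by
      intro a ha
      have h5 : ((1 - p.2, a) : ℝ × ℝ) ∈ P := Mvs_memP
        (by rcases hb with hb | hb <;> rw [hb] <;> norm_num) ha
      have h6 : ((a, p.2) : ℝ × ℝ) = Mvs_sig (1 - p.2, a) := by simp [Mvs_sig]
      rw [h6, Mvs_distS]
      exact hP _ h5
    rcases ha with h0 | h0 | h0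
    · exact key p.1 (Or.inl h0)
    · exact key p.1 (Or.inr h0)
    · refine (key (1/2) (Or.inr rfl)).trans ?_
      rw [Mvs_dist, Mvs_dist]
      apply max_le_max _ le_rfl
      simp only [Mvs_sig]
      rw [h0, abs_of_nonpos (by linarith), abs_of_nonpos (by linarith)]
      linarith

/-- the two formulas agree on the seam -/
theorem Mvs_seam {m : ℕ} {A B C : Mt m} {H : ℝ × ℝ → Mt m} (hH : Cl A B C H) {v : ℝ}
    (hv : v ∈ Ioo (0:ℝ) (1/2)) : Mvs_G B H (1/2, v) = B * H (Mvs_sig (1/2, v)) * Bᴴ := by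
  rw [Mvs_G, if_pos le_rfl]
  have h1 := hH.glB v hv
  simp only [Mvs_rho, Mvs_sig]
  rw [h1]
  norm_num

theorem Mvs_lip {m : ℕ} {A B C : Mt m} {H : ℝ × ℝ → Mt m} (hH : Cl A B C H) :
    Lz (Mvs_G B H) := by
  have hB : Lz (fun z => B * H z * Bᴴ) := lz_mul (lz_mul (lz_const B) hH.lip) (lz_const Bᴴ)
  intro d hd
  obtain ⟨K1, hK1⟩ := hH.lip (d / 2) (by linarith)
  obtain ⟨K2, hK2⟩ := hB (d / 2) (by linarith)
  obtain ⟨R1, hR1, hR1'⟩ := lz_bd hH.lip hd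
  obtain ⟨R2, hR2, hR2'⟩ := lz_bd hB hd
  have hsub : ∀ x ∈ Dd d, x ∈ Dd (d / 2) := fun x hx =>
    ⟨hx.1, fun p hp => (by linarith : d / 2 ≤ d).trans (hx.2 p hp)⟩
  obtain ⟨K, hK⟩ : ∃ K : ℝ, K = |K1| + |K2| + 2 * (R1 + R2) / d := ⟨_, rfl⟩
  have hK1' : |K1| + |K2| ≤ K := by
    rw [hK]
    have : 0 ≤ 2 * (R1 + R2) / d := by positivity
    linarith
  have bL : ∀ x ∈ Dd d, x.1 ≤ 1/2 → ∀ i j, ‖Mvs_G B H x i j‖ ≤ R1 := by
    intro x hx h i j
    rw [Mvs_G, if_pos h]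
    exact hR1' _ (Mvs_DdR hx h) i j
  have bR : ∀ x ∈ Dd d, ¬ x.1 ≤ 1/2 → ∀ i j, ‖Mvs_G B H x i j‖ ≤ R2 := by
    intro x hx h i j
    rw [Mvs_G, if_neg h]
    exact hR2' _ (Mvs_DdS hx (not_le.1 h).le) i j
  have lL : ∀ x ∈ Dd (d / 2), x.1 ≤ 1/2 → ∀ y ∈ Dd (d / 2), y.1 ≤ 1/2 → ∀ i j,
      ‖Mvs_G B H x i j - Mvs_G B H y i j‖ ≤ |K1| * dist x y := by
    intro x hx h y hy h' i j
    rw [Mvs_G, Mvs_G, if_pos h, if_pos h']
    refine (hK1 _ (Mvs_DdR hx h) _ (Mvs_DdR hy h') i j).trans ?_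
    rw [Mvs_distR]
    exact mul_le_mul_of_nonneg_right (le_abs_self _) dist_nonneg
  have lR' : ∀ x ∈ Dd (d / 2), 1/2 ≤ x.1 → ∀ y ∈ Dd (d / 2), 1/2 ≤ y.1 → ∀ i j,
      ‖(B * H (Mvs_sig x) * Bᴴ) i j - (B * H (Mvs_sig y) * Bᴴ) i j‖ ≤ |K2| * dist x y := by
    intro x hx h y hy h' i j
    refine (hK2 _ (Mvs_DdS hx h) _ (Mvs_DdS hy h') i j).trans ?_
    rw [Mvs_distS]
    exact mul_le_mul_of_nonneg_right (le_abs_self _) dist_nonneg
  have mixed : ∀ x ∈ Dd d, x.1 ≤ 1/2 → ∀ y ∈ Dd d, ¬ y.1 ≤ 1/2 → ∀ i j,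
      ‖Mvs_G B H x i j - Mvs_G B H y i j‖ ≤ K * dist x y := by
    intro x hx h y hy h' i j
    have hy2 := not_le.1 h'
    rcases lt_or_ge (dist x y) (d / 2) with hlt | hge
    · have hzd : dist x (1/2, x.2) ≤ dist x y := by
        rw [Mvs_dist, Mvs_dist]
        apply max_le
        · refine le_trans ?_ (le_max_left _ _)
          rw [abs_of_nonpos (by linarith), abs_of_nonpos (by linarith)]
          simp only
          linarith
        · simp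
      have hyd : dist (1/2, x.2) y ≤ dist x y := by
        rw [Mvs_dist, Mvs_dist]
        apply max_le
        · refine le_trans ?_ (le_max_left _ _)
          rw [abs_of_nonpos (by simp only; linarith), abs_of_nonpos (by linarith)]
          simp only
          linarith
        · exact le_max_right _ _
      have hzP : ∀ p ∈ P, d / 2 ≤ dist ((1/2, x.2) : ℝ × ℝ) p := by
        intro p hp
        have h1 := hx.2 p hp
        have h2 := dist_triangle x (1/2, x.2) p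
        linarith
      have hz : ((1/2, x.2) : ℝ × ℝ) ∈ Dd (d / 2) := by
        refine ⟨⟨⟨by norm_num, by norm_num⟩, hx.1.2⟩, hzP⟩
      have hv : x.2 ∈ Ioo (0:ℝ) (1/2) := by
        have h1 := hzP (1/2, 0) (Mvs_memP (by norm_num) (by norm_num))
        have h2 := hzP (1/2, 1/2) (Mvs_memP (by norm_num) (by norm_num))
        rw [Mvs_dist] at h1 h2
        simp only [sub_self, abs_zero, sub_zero] at h1 h2
        have h3 := hx.1.2.1
        have h4 := hx.1.2.2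
        rw [max_eq_right (abs_nonneg _)] at h1 h2
        rw [abs_of_nonneg h3] at h1
        rw [abs_of_nonpos (by linarith)] at h2
        constructor <;> linarith
      have e1 := lL x (hsub x hx) h (1/2, x.2) hz le_rfl i j
      have e2 := lR' (1/2, x.2) hz le_rfl y (hsub y hy) hy2.le i j
      rw [← Mvs_seam hH hv] at e2
      have e3 : Mvs_G B H y = B * H (Mvs_sig y) * Bᴴ := by rw [Mvs_G, if_neg h']
      rw [← e3] at e2
      calc ‖Mvs_G B H x i j - Mvs_G B H y i j‖ =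
            ‖(Mvs_G B H x i j - Mvs_G B H (1/2, x.2) i j) +
              (Mvs_G B H (1/2, x.2) i j - Mvs_G B H y i j)‖ := by
              congr 1
              ring
        _ ≤ |K1| * dist x (1/2, x.2) + |K2| * dist (1/2, x.2) y :=
              (norm_add_le _ _).trans (add_le_add e1 e2)
        _ ≤ |K1| * dist x y + |K2| * dist x y :=
              add_le_add (mul_le_mul_of_nonneg_left hzd (abs_nonneg _))
                (mul_le_mul_of_nonneg_left hyd (abs_nonneg _))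
        _ = (|K1| + |K2|) * dist x y := by ring
        _ ≤ K * dist x y := mul_le_mul_of_nonneg_right hK1' dist_nonneg
    · calc ‖Mvs_G B H x i j - Mvs_G B H y i j‖ ≤ R1 + R2 :=
            (norm_sub_le _ _).trans (add_le_add (bL x hx h i j) (bR y hy h' i j))
        _ = 2 * (R1 + R2) / d * (d / 2) := by field_simp
        _ ≤ 2 * (R1 + R2) / d * dist x y :=
            mul_le_mul_of_nonneg_left hge (by positivity)
        _ ≤ K * dist x y := by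
            refine mul_le_mul_of_nonneg_right ?_ dist_nonneg
            rw [hK]
            linarith [abs_nonneg K1, abs_nonneg K2]
  refine ⟨K, fun x hx y hy i j => ?_⟩
  by_cases h : x.1 ≤ 1/2 <;> by_cases h' : y.1 ≤ 1/2
  · refine (lL x (hsub x hx) h y (hsub y hy) h' i j).trans
      (mul_le_mul_of_nonneg_right ?_ dist_nonneg)
    linarith [abs_nonneg K2]
  · exact mixed x hx h y hy h' i j
  · rw [norm_sub_rev, dist_comm]
    exact mixed y hy h' x hx h i j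
  · rw [Mvs_G, Mvs_G, if_neg h, if_neg h']
    refine (lR' x (hsub x hx) (not_le.1 h).le y (hsub y hy) (not_le.1 h').le i j).trans
      (mul_le_mul_of_nonneg_right ?_ dist_nonneg)
    linarith [abs_nonneg K1]

theorem Mvs_congr {m : ℕ} {K F : Mt m} (hF : IsUnit F.det) (X : Mt m) :
    K * X * Kᴴ = (K * F⁻¹) * (F * X * Fᴴ) * (K * F⁻¹)ᴴ := by
  have hF' : IsUnit (Fᴴ).det := by
    rw [Matrix.det_conjTranspose]
    exact hF.star
  rw [Matrix.conjTranspose_mul, Matrix.conjTranspose_nonsing_inv]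
  calc K * X * Kᴴ = K * (F⁻¹ * F) * X * (Fᴴ * (Fᴴ)⁻¹) * Kᴴ := by
        rw [Matrix.nonsing_inv_mul _ hF, Matrix.mul_nonsing_inv _ hF', Matrix.mul_one,
          Matrix.mul_one]
    _ = _ := by simp only [Matrix.mul_assoc]

theorem Mvs_cl {m : ℕ} {A B C : Mt m} (hA : IsUnit A.det) (hB : IsUnit B.det)
    (hC : IsUnit C.det) {H : ℝ × ℝ → Mt m} (hH : Cl A B C H) :
    Cl (B * C⁻¹) B (B * A⁻¹) (Mvs_G B H) := by
  refine ⟨?_, Mvs_lip hH, ?_, ?_, ?_, ?_⟩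
  · rintro x ⟨hx, hxP⟩
    by_cases h : x.1 ≤ 1/2
    · rw [Mvs_G, if_pos h]
      apply hH.pos
      refine ⟨⟨⟨?_, ?_⟩, ⟨?_, ?_⟩⟩, ?_⟩
      · change 0 ≤ 1 - x.2
        linarith [hx.2.2]
      · change 1 - x.2 ≤ 1
        linarith [hx.2.1]
      · exact hx.1.1
      · exact h
      · intro hp
        apply hxP
        obtain ⟨h1, h2⟩ := Mvs_P hp
        simp only [Mvs_rho] at h1 h2
        have h3 := hx.2.2
        refine Mvs_memP (a := x.1) (b := x.2) ?_ ?_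
        · tauto
        · rcases h1 with h1 | h1 | h1
          · exfalso
            linarith
          · right
            linarith
          · left
            linarith
    · rw [Mvs_G, if_neg h]
      have h' := not_le.1 h
      apply Matrix.PosDef.mul_mul_conjTranspose_same
      · apply hH.pos
        refine ⟨⟨⟨?_, ?_⟩, ⟨?_, ?_⟩⟩, ?_⟩
        · exact hx.2.1
        · change x.2 ≤ 1
          linarith [hx.2.2]
        · change 0 ≤ 1 - x.1
          linarith [hx.1.2]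
        · change 1 - x.1 ≤ 1/2
          linarith
        · intro hp
          apply hxP
          obtain ⟨h1, h2⟩ := Mvs_P hp
          simp only [Mvs_sig] at h1 h2
          have h3 := hx.2.2
          refine Mvs_memP (a := x.1) (b := x.2) ?_ ?_
          · rcases h2 with h2 | h2
            · right; right
              linarith
            · right; left
              linarith
          · rcases h1 with h1 | h1 | h1
            · left
              exact h1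
            · right
              exact h1
            · exfalso
              linarith
      · intro u w huw
        have h1 : Matrix.vecMul (Matrix.vecMul u B) B⁻¹ = Matrix.vecMul (Matrix.vecMul w B) B⁻¹ :=
          congrArg (fun z => Matrix.vecMul z B⁻¹) huw
        rw [Matrix.vecMul_vecMul, Matrix.vecMul_vecMul, Matrix.mul_nonsing_inv _ hB,
          Matrix.vecMul_one, Matrix.vecMul_one] at h1
        exact h1
  · intro v hv
    have e1 : Mvs_G B H (1, v) = B * H (v, 0) * Bᴴ := by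
      rw [Mvs_G, if_neg (by norm_num)]
      simp [Mvs_sig]
    have e2 : Mvs_G B H (0, v) = A * H (v, 0) * Aᴴ := by
      rw [Mvs_G, if_pos (by norm_num), ← hH.glA v hv]
      rfl
    rw [e1, e2]
    exact Mvs_congr hA _
  · intro u hu
    have e1 : Mvs_G B H (1 - u, 0) = B * H (0, u) * Bᴴ := by
      rw [Mvs_G, if_neg (by simp only; linarith [hu.2])]
      simp [Mvs_sig]
    have e2 : Mvs_G B H (u, 0) = C * H (0, u) * Cᴴ := by
      rw [Mvs_G, if_pos hu.2.le, ← hH.glC u hu]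
      simp [Mvs_rho]
    rw [e1, e2]
    exact Mvs_congr hC _
  · intro u hu
    have e1 : Mvs_G B H (1 - u, 1/2) = B * H (1/2, u) * Bᴴ := by
      rw [Mvs_G, if_neg (by simp only; linarith [hu.2])]
      simp [Mvs_sig]
    have e2 : Mvs_G B H (u, 1/2) = H (1/2, u) := by
      rw [Mvs_G, if_pos hu.2.le]
      simp only [Mvs_rho]
      norm_num
    rw [e1, e2]
  · refine (Mvs_tr hH.fin ?_ ?_).1
    · filter_upwards [Mvs_aeL hH.lip, ae_restrict_mem Mvs_measL] with x hd hx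
      obtain ⟨h1, -, h3⟩ := Mvs_qL B hx hd
      rw [h1, h3, add_comm]
    · filter_upwards [Mvs_aeR hH.lip, ae_restrict_mem Mvs_measR] with x hd hx
      obtain ⟨h1, -, h3⟩ := Mvs_qR hB hx hd
      rw [h1, h3, add_comm]

theorem moveS {m : ℕ} {A B C : Mt m} (hA : IsUnit A.det) (hB : IsUnit B.det)
    (hC : IsUnit C.det) {H : ℝ × ℝ → Mt m} (hH : Cl A B C H) :
    ∃ G : ℝ × ℝ → Mt m, Cl (B * C⁻¹) B (B * A⁻¹) G ∧
      ∀ x y : ℝ, 0 < y →
        Et x y G = Et (-x / (x ^ 2 + y ^ 2)) (y / (x ^ 2 + y ^ 2)) H := by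
  refine ⟨Mvs_G B H, Mvs_cl hA hB hC hH, ?_⟩
  intro x y hy
  obtain ⟨s, hs⟩ : ∃ s, s = x ^ 2 + y ^ 2 := ⟨_, rfl⟩
  have hs0 : 0 < s := by
    rw [hs]
    positivity
  have hcoef : ∀ a b c : ℝ,
      (ct x y).1 * c + 2 * (ct x y).2.1 * (-b) + (ct x y).2.2 * a =
      (ct (-x / (x ^ 2 + y ^ 2)) (y / (x ^ 2 + y ^ 2))).1 * a +
        2 * (ct (-x / (x ^ 2 + y ^ 2)) (y / (x ^ 2 + y ^ 2))).2.1 * b +
        (ct (-x / (x ^ 2 + y ^ 2)) (y / (x ^ 2 + y ^ 2))).2.2 * c := by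
    intro a b c
    have h1 : ((-x / (x ^ 2 + y ^ 2)) ^ 2 + (y / (x ^ 2 + y ^ 2)) ^ 2) / (y / (x ^ 2 + y ^ 2)) =
        1 / y := by
      rw [← hs, div_pow, div_pow, ← add_div, neg_sq, ← hs]
      field_simp
    have h2 : -(-x / (x ^ 2 + y ^ 2)) / (y / (x ^ 2 + y ^ 2)) = x / y := by
      rw [← hs]
      field_simp
    have h3 : 1 / (y / (x ^ 2 + y ^ 2)) = (x ^ 2 + y ^ 2) / y := by
      rw [one_div_div]
    simp only [ct]
    rw [h1, h2, h3]
    ring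
  refine (Mvs_tr (qc_int hH _ _ _) ?_ ?_).2
  · filter_upwards [Mvs_aeL hH.lip, ae_restrict_mem Mvs_measL] with z hd hz
    obtain ⟨h1, h2, h3⟩ := Mvs_qL B hz hd
    rw [qc, h1, h2, h3]
    exact hcoef _ _ _
  · filter_upwards [Mvs_aeR hH.lip, ae_restrict_mem Mvs_measR] with z hd hz
    obtain ⟨h1, h2, h3⟩ := Mvs_qR hB hz hd
    rw [qc, h1, h2, h3]
    exact hcoef _ _ _

end H80HM
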