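import Pool.Agent.H80.HM.Mvt
import Pool.Agent.H80.HM.Mvs
import Pool.Agent.H80.HM.Nme

set_option autoImplicit false

/-!
# Row Eei: the infimum under moves and conjugation

cl_conj: G x := g H x g*: pd t G = g (pd t H) g* (linear map applied entrywise: finite sums of constants times entries; needs differentiability of the
 entries, so a.e.; or everywhere on U by lz_ae only a.e.), aa t G = g (aa t H) g^{-1}, q t t' G = q t t' H a.e. on U. Gluing: G(1,v) = g C H(0,v) C* g* =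
 (gCg^{-1}) G(0,v) (gCg^{-1})*. Et is equal.
ee_conj: two inequalities from cl_conj for g and g^{-1} (if no metric exists both sides are sInf of the empty set; then also for the conjugate).
ee_T: for every H in Cl A B C there is G in Cl A (C B^{-1}) C with the energy Et (x-1) y H: infimum over H (needs nonempty class; csInf mono).
ee_S: the same with row Mvs.
ee_cusp: from the statement: for every ep there is Y such that for y >= Y, |x| <= 1/2 some metric has Et <= ep: EE <= ep (ee_le).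
-/

namespace H80HM

open Matrix MeasureTheory Set
open scoped ComplexOrder

variable {m : ℕ} {A B C : Mt m}

theorem Eei_pd (g k : Mt m) {H : ℝ × ℝ → Mt m} {x : ℝ × ℝ}
    (h : ∀ i j, DifferentiableAt ℝ (fun y => H y i j) x) (t : ℝ × ℝ) :
    pd t (fun x => g * H x * k) x = g * pd t H x * k := by
  ext i j
  simp only [pd, Matrix.of_apply]
  have e1 : (fun y => (g * H y * k) i j) = fun y => ∑ b, (∑ a, g i a * H y a b) * k b j := by
    funext y
    rw [Matrix.mul_apply]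
    exact Finset.sum_congr rfl fun b _ => by rw [Matrix.mul_apply]
  have e2 : HasFDerivAt (fun y => ∑ b, (∑ a, g i a * H y a b) * k b j)
      (∑ b, k b j • (∑ a, g i a • fderiv ℝ (fun y => H y a b) x)) x := by
    refine HasFDerivAt.fun_sum fun b _ => ?_
    refine HasFDerivAt.mul_const ?_ (k b j)
    refine HasFDerivAt.fun_sum fun a _ => ?_
    exact (h a b).hasFDerivAt.const_mul (g i a)
  rw [e1, e2.fderiv, Matrix.mul_apply]
  simp only [_root_.sum_apply, _root_.smul_apply, smul_eq_mul,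
    Matrix.mul_apply, Matrix.of_apply]
  refine Finset.sum_congr rfl fun b _ => ?_
  rw [mul_comm]

theorem Eei_aa {g : Mt m} (hg : IsUnit g.det) {H : ℝ × ℝ → Mt m} {x : ℝ × ℝ}
    (h : ∀ i j, DifferentiableAt ℝ (fun y => H y i j) x) (t : ℝ × ℝ) :
    aa t (fun x => g * H x * gᴴ) x = g * aa t H x * g⁻¹ := by
  have hgs : IsUnit (gᴴ).det := by
    rw [Matrix.det_conjTranspose]
    exact hg.star
  unfold aa
  rw [Eei_pd g gᴴ h t, Matrix.mul_inv_rev, Matrix.mul_inv_rev, Matrix.mul_smul, Matrix.smul_mul]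
  congr 1
  calc g * pd t H x * gᴴ * (gᴴ⁻¹ * ((H x)⁻¹ * g⁻¹))
      = g * pd t H x * (gᴴ * gᴴ⁻¹) * ((H x)⁻¹ * g⁻¹) := by
        simp only [Matrix.mul_assoc]
    _ = g * (pd t H x * (H x)⁻¹) * g⁻¹ := by
        rw [Matrix.mul_nonsing_inv _ hgs, Matrix.mul_one]
        simp only [Matrix.mul_assoc]

theorem Eei_q {g : Mt m} (hg : IsUnit g.det) {H : ℝ × ℝ → Mt m} (hH : Lz H) :
    ∀ᵐ x ∂(volume.restrict U), ∀ t t',
      q t t' (fun x => g * H x * gᴴ) x = q t t' H x := by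
  filter_upwards [lz_ae hH] with x hx t t'
  unfold q
  rw [Eei_aa hg hx t, Eei_aa hg hx t']
  have e1 : g * aa t H x * g⁻¹ * (g * aa t' H x * g⁻¹) =
      g * (aa t H x * aa t' H x * g⁻¹) := by
    calc g * aa t H x * g⁻¹ * (g * aa t' H x * g⁻¹)
        = g * aa t H x * (g⁻¹ * g) * (aa t' H x * g⁻¹) := by simp only [Matrix.mul_assoc]
      _ = _ := by
        rw [Matrix.nonsing_inv_mul _ hg, Matrix.mul_one]
        simp only [Matrix.mul_assoc]
  rw [e1, Matrix.trace_mul_comm, Matrix.mul_assoc, Matrix.nonsing_inv_mul _ hg, Matrix.mul_one]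

theorem Eei_gl {g : Mt m} (hg : IsUnit g.det) (C X : Mt m) :
    g * (C * X * Cᴴ) * gᴴ = (g * C * g⁻¹) * (g * X * gᴴ) * (g * C * g⁻¹)ᴴ := by
  have h1 : gᴴ * (g⁻¹)ᴴ = 1 := by
    rw [← Matrix.conjTranspose_mul, Matrix.nonsing_inv_mul _ hg, Matrix.conjTranspose_one]
  rw [Matrix.conjTranspose_mul, Matrix.conjTranspose_mul]
  calc g * (C * X * Cᴴ) * gᴴ = g * C * X * (Cᴴ * gᴴ) := by simp only [Matrix.mul_assoc]
    _ = g * C * (g⁻¹ * g) * X * (gᴴ * (g⁻¹)ᴴ) * (Cᴴ * gᴴ) := by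
        rw [Matrix.nonsing_inv_mul _ hg, h1, Matrix.mul_one, Matrix.mul_one]
    _ = _ := by simp only [Matrix.mul_assoc]

theorem cl_conj {g : Mt m} (hg : IsUnit g.det) {H : ℝ × ℝ → Mt m} (hH : Cl A B C H) :
    Cl (g * A * g⁻¹) (g * B * g⁻¹) (g * C * g⁻¹) (fun x => g * H x * gᴴ) ∧
      ∀ x y : ℝ, Et x y (fun x => g * H x * gᴴ) = Et x y H := by
  have hq := Eei_q hg hH.lip
  refine ⟨⟨?_, ?_, ?_, ?_, ?_, ?_⟩, ?_⟩
  · intro x hx
    refine (hH.pos x hx).mul_mul_conjTranspose_same ?_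
    rw [Matrix.vecMul_injective_iff_isUnit, Matrix.isUnit_iff_isUnit_det]
    exact hg
  · exact lz_mul (lz_mul (lz_const g) hH.lip) (lz_const gᴴ)
  · intro v hv
    rw [hH.glC v hv, Eei_gl hg]
  · intro u hu
    rw [hH.glA u hu, Eei_gl hg]
  · intro u hu
    rw [hH.glB u hu, Eei_gl hg]
  · refine hH.fin.congr ?_
    filter_upwards [hq] with x hx
    rw [hx, hx]
  · intro x y
    unfold Et En
    refine integral_congr_ae ?_
    filter_upwards [hq] with z hz
    unfold qc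
    rw [hz, hz, hz]

theorem ee_conj {g : Mt m} (hg : IsUnit g.det) (x : ℝ) {y : ℝ} (hy : 0 < y) :
    EE (g * A * g⁻¹) (g * B * g⁻¹) (g * C * g⁻¹) x y = EE A B C x y := by
  have hg' : IsUnit (g⁻¹).det := by
    rw [← Matrix.isUnit_iff_isUnit_det, Matrix.isUnit_nonsing_inv_iff,
      Matrix.isUnit_iff_isUnit_det]
    exact hg
  have e : ∀ X : Mt m, g⁻¹ * (g * X * g⁻¹) * g⁻¹⁻¹ = X := by
    intro X
    rw [Matrix.nonsing_inv_nonsing_inv _ hg]
    calc g⁻¹ * (g * X * g⁻¹) * g = (g⁻¹ * g) * X * (g⁻¹ * g) := by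
          simp only [Matrix.mul_assoc]
      _ = X := by rw [Matrix.nonsing_inv_mul _ hg, Matrix.one_mul, Matrix.mul_one]
  unfold EE
  congr 1
  ext r
  constructor
  · rintro ⟨H, hH, hr⟩
    obtain ⟨h1, h2⟩ := cl_conj hg' hH
    rw [e, e, e] at h1
    exact ⟨_, h1, by rw [h2, hr]⟩
  · rintro ⟨H, hH, hr⟩
    obtain ⟨h1, h2⟩ := cl_conj hg hH
    exact ⟨_, h1, by rw [h2, hr]⟩

theorem ee_T (hA : IsUnit A.det) (hB : IsUnit B.det) (hC : IsUnit C.det)
    (hne : ∃ H, Cl A B C H) (x : ℝ) {y : ℝ} (hy : 0 < y) :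
    EE A (C * B⁻¹) C x y ≤ EE A B C (x - 1) y := by
  obtain ⟨H0, hH0⟩ := hne
  refine le_csInf ⟨_, H0, hH0, rfl⟩ ?_
  rintro r ⟨H, hH, rfl⟩
  obtain ⟨G, hG, hE⟩ := moveT hA hB hC hH
  rw [← hE x y hy]
  exact ee_le hG x hy

theorem ee_S (hA : IsUnit A.det) (hB : IsUnit B.det) (hC : IsUnit C.det)
    (hne : ∃ H, Cl A B C H) (x : ℝ) {y : ℝ} (hy : 0 < y) :
    EE (B * C⁻¹) B (B * A⁻¹) x y ≤
      EE A B C (-x / (x ^ 2 + y ^ 2)) (y / (x ^ 2 + y ^ 2)) := by
  obtain ⟨H0, hH0⟩ := hne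
  refine le_csInf ⟨_, H0, hH0, rfl⟩ ?_
  rintro r ⟨H, hH, rfl⟩
  obtain ⟨G, hG, hE⟩ := moveS hA hB hC hH
  rw [← hE x y hy]
  exact ee_le hG x hy

end H80HM
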