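import Pool.Agent.H80.HM.Stk
import Pool.Agent.H80.HM.Cut
import Pool.Agent.H80.HM.Mea
import Pool.Agent.H80.HM.Alg

set_option autoImplicit false

/-!
# Row Etw: the Jacobian integral of two fields vanishes

adj_fd: N = H V* H^{-1}: Lz by lz_mul, lz_star, lz_inv; gluing: H(1,v) = C H0 C*, V(1,v) = C V0 C^{-1}, so N(1,v) = C H0 C* C^{-*} V0* C* C^{-*} H0^{-1} C^{-1}
 = C N0 C^{-1}; the same for A, B.
e2: V, N fields with the conjugation gluing, n2 H V <= M^2, dn V and dn N integrable in the directions (1,0), (0,1).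
 J := tr(d1V d2N - d2V d1N). |J| <= sum sqrt(dn V) sqrt(dn N) (tr_cs), so J is integrable on U.
 Cutoffs (row Cut): chi_n for ep = 1/n with zero radius d_n, and chi'_n := cutoff for ep' = d_n/2, so chi'_n = 1 wherever dist(x,P) >= d_n/2, in
 particular near every point with chi_n not 0. F := chi_n V, G := chi'_n N: all entries are Lipschitz on D (V is Lipschitz and bounded on Dd d for small d,
 chi_n vanishes for dist <= d_n; standard). Stokes (stokes_cx) for the pairs of entries (F_ij, G_ji), summed: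
 int_U tr(d1F d2G - d2F d1G) = boundary terms.  They cancel:
  side u=1 minus side u=0: G(1,v) = C G(0,v) C^{-1} for 0<v<1/2 (chi'_n(1,v) = chi'_n(0,v)), hence the same for d/dv, and tr(F dG)(1,v) = tr(F dG)(0,v);
  bottom: for 0<u<1/2: F(1-u,0) = A F(u,0) A^{-1}, G(1-u,0) = A G(u,0) A^{-1}, d/ds G(s,0) at s = 1-u is -A (d/ds G)(u,0) A^{-1}; so
  int_{1/2}^1 tr(F dG)(s,0) ds = int_0^{1/2} tr(F dG)(1-u,0) du = - int_0^{1/2} tr(F dG)(u,0) du: total 0. Top: the same with B.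
 Interior: near points with chi_n not 0 G = N, so a.e. (product rule; points of differentiability of chi_n, V, N)
 tr(d1F d2G - d2F d1G) = chi_n J + (d1chi_n tr(V d2N) - d2chi_n tr(V d1N)); (where chi_n = 0 both sides vanish a.e.: on the set chi_n = 0 the derivative of
 chi_n is 0 a.e. or at all points since chi_n >= 0 has a minimum there).
 |int (d1chi_n tr(V d2N) - ..)| <= int |d chi_n| M (sqrt(dn1 N) + sqrt(dn2 N)) <= C sqrt(1/n) -> 0 (Cauchy-Schwarz, tr_cs).
 int chi_n J -> int J (dominated convergence, chi_n -> 1 on U). Hence int J = 0.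
e2_frame: for a general frame pd e = e.1 pd(1,0) + e.2 pd(0,1), so tr(d_eV d_fN - d_fV d_eN) = (e.1 f.2 - e.2 f.1) J pointwise (pd_lin).
-/

set_option autoImplicit false

namespace H80HM

open Matrix MeasureTheory Set
open scoped ComplexOrder

variable {m : ℕ} {A B C : Mt m} {H V N : ℝ × ℝ → Mt m}

private lemma Etw_adj {g H0 H1 V0 V1 : Mt m} (hg : IsUnit g.det) (h1 : H1 = g * H0 * gᴴ)
    (h2 : V1 * g = g * V0) : adj H1 V1 * g = g * adj H0 V0 := by
  have hg' : IsUnit (gᴴ).det := by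
    rw [Matrix.det_conjTranspose]
    exact hg.star
  have h3 : gᴴ * V1ᴴ = V0ᴴ * gᴴ := by
    rw [← Matrix.conjTranspose_mul, h2, Matrix.conjTranspose_mul]
  have h4 : V1ᴴ * (gᴴ)⁻¹ = (gᴴ)⁻¹ * V0ᴴ := by
    calc V1ᴴ * (gᴴ)⁻¹ = (gᴴ)⁻¹ * (gᴴ * V1ᴴ) * (gᴴ)⁻¹ := by
          rw [← Matrix.mul_assoc, Matrix.nonsing_inv_mul _ hg', Matrix.one_mul]
      _ = (gᴴ)⁻¹ * V0ᴴ * (gᴴ * (gᴴ)⁻¹) := by
          rw [h3]
          simp only [Matrix.mul_assoc]
      _ = (gᴴ)⁻¹ * V0ᴴ := by rw [Matrix.mul_nonsing_inv _ hg', Matrix.mul_one]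
  unfold adj
  rw [h1, Matrix.mul_inv_rev, Matrix.mul_inv_rev]
  calc g * H0 * gᴴ * V1ᴴ * ((gᴴ)⁻¹ * (H0⁻¹ * g⁻¹)) * g =
        g * H0 * gᴴ * (V1ᴴ * (gᴴ)⁻¹) * H0⁻¹ * (g⁻¹ * g) := by simp only [Matrix.mul_assoc]
    _ = g * H0 * (gᴴ * (gᴴ)⁻¹) * V0ᴴ * H0⁻¹ := by
        rw [h4, Matrix.nonsing_inv_mul _ hg, Matrix.mul_one]
        simp only [Matrix.mul_assoc]
    _ = g * (H0 * V0ᴴ * H0⁻¹) := by
        rw [Matrix.mul_nonsing_inv _ hg', Matrix.mul_one]
        simp only [Matrix.mul_assoc]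

theorem adj_fd (hA : IsUnit A.det) (hB : IsUnit B.det) (hC : IsUnit C.det)
    (hH : Cl A B C H) (hV : Fd A B C V) : Fd A B C (fun x => adj (H x) (V x)) where
  lip := lz_mul (lz_mul hH.lip (lz_star hV.lip)) (lz_inv hH.lip
    (fun x hx => (Matrix.isUnit_iff_isUnit_det _).1 (hH.pos x hx).isUnit))
  glC := fun v hv => Etw_adj hC (hH.glC v hv) (hV.glC v hv)
  glA := fun u hu => Etw_adj hA (hH.glA u hu) (hV.glA u hu)
  glB := fun u hu => Etw_adj hB (hH.glB u hu) (hV.glB u hu)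

/-- Lipschitz on an interval -/
private def Etw_L1 (a b : ℝ) (f : ℝ → ℂ) : Prop :=
  ∃ K : NNReal, LipschitzOnWith K f (Icc a b)

private lemma Etw_ii {f g : ℝ → ℂ} {a b : ℝ} (hab : a ≤ b) (hf : Etw_L1 a b f)
    (hg : Etw_L1 a b g) : IntervalIntegrable (fun v => f v * deriv g v) volume a b := by
  obtain ⟨K, hK⟩ := hf
  obtain ⟨L, hL⟩ := hg
  rw [intervalIntegrable_iff_integrableOn_Ioo_of_le hab]
  have hc : ContinuousOn f (Icc a b) := hK.continuousOn
  obtain ⟨R, hR⟩ := isCompact_Icc.exists_bound_of_continuousOn hc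
  have hm : AEStronglyMeasurable (fun v => f v * deriv g v) (volume.restrict (Ioo a b)) := by
    refine AEStronglyMeasurable.mul ?_ (measurable_deriv g).aestronglyMeasurable
    exact (hc.mono Ioo_subset_Icc_self).aestronglyMeasurable measurableSet_Ioo
  refine Integrable.of_bound hm (R * L) ?_
  filter_upwards [ae_restrict_mem measurableSet_Ioo] with v hv
  rw [norm_mul]
  have h1 := hR v (Ioo_subset_Icc_self hv)
  have h2 : ‖deriv g v‖ ≤ L := norm_deriv_le_of_lipschitzOn (Icc_mem_nhds hv.1 hv.2) hL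
  exact mul_le_mul h1 h2 (norm_nonneg _) ((norm_nonneg _).trans h1)

private lemma Etw_ae {g : ℝ → ℂ} {a b : ℝ} (hg : Etw_L1 a b g) :
    ∀ᵐ v ∂(volume : Measure ℝ), v ∈ Ioo a b → DifferentiableAt ℝ g v := by
  obtain ⟨L, hL⟩ := hg
  have h := (hL.mono Ioo_subset_Icc_self).ae_differentiableWithinAt (μ := volume)
    measurableSet_Ioo
  rw [ae_restrict_iff' measurableSet_Ioo] at h
  filter_upwards [h] with v hv hv'
  exact (hv hv').differentiableAt (Ioo_mem_nhds hv'.1 hv'.2)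

/-- derivative of a matrix path, entrywise -/
private noncomputable def Etw_dp (p : ℝ → Mt m) (v : ℝ) : Mt m :=
  Matrix.of fun i j => deriv (fun s => p s i j) v

private lemma Etw_tr (M M' : Mt m) : trace (M * M') = ∑ i, ∑ j, M i j * M' j i := by
  simp only [Matrix.trace, Matrix.diag_apply, Matrix.mul_apply]

private lemma Etw_ptr {a b : ℝ} (hab : a ≤ b) {f g : ℝ → Mt m}
    (hf : ∀ i j, Etw_L1 a b (fun v => f v i j)) (hg : ∀ i j, Etw_L1 a b (fun v => g v i j)) :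
    IntervalIntegrable (fun v => trace (f v * Etw_dp g v)) volume a b ∧
    ∫ v in a..b, trace (f v * Etw_dp g v) =
      ∑ i, ∑ j, ∫ v in a..b, f v i j * deriv (fun s => g s j i) v := by
  have h1 : (fun v => trace (f v * Etw_dp g v)) =
      fun v => ∑ i, ∑ j, f v i j * deriv (fun s => g s j i) v := by
    funext v
    rw [Etw_tr]
    rfl
  have h2 : ∀ i j, IntervalIntegrable (fun v => f v i j * deriv (fun s => g s j i) v) volume a b :=
    fun i j => Etw_ii hab (hf i j) (hg j i)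
  have h3 : ∀ i, IntervalIntegrable (fun v => ∑ j, f v i j * deriv (fun s => g s j i) v)
      volume a b := by
    intro i
    have := IntervalIntegrable.sum Finset.univ (fun j _ => h2 i j)
    refine this.congr ?_
    intro v _
    simp only [Finset.sum_apply]
  rw [h1]
  constructor
  · have := IntervalIntegrable.sum Finset.univ (fun i _ => h3 i)
    refine this.congr ?_
    intro v _
    simp only [Finset.sum_apply]
  · rw [intervalIntegral.integral_finsetSum (fun i _ => h3 i)]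
    apply Finset.sum_congr rfl
    intro i _
    rw [intervalIntegral.integral_finsetSum (fun j _ => h2 i j)]

private lemma Etw_lipD {f : ℝ × ℝ → ℂ} (hf : LipC f) : ∃ K : NNReal, LipschitzOnWith K f D := by
  obtain ⟨K, hK⟩ := hf
  refine ⟨Real.toNNReal |K|, LipschitzOnWith.of_dist_le_mul ?_⟩
  intro x hx y hy
  rw [dist_eq_norm, Real.coe_toNNReal _ (abs_nonneg K)]
  exact (hK x hx y hy).trans (mul_le_mul_of_nonneg_right (le_abs_self K) dist_nonneg)

private lemma Etw_D {x : ℝ × ℝ} (hx : x ∈ U) : D ∈ nhds x :=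
  Filter.mem_of_superset (Aed_U_open.mem_nhds hx) (fun _ hy => (u_sub hy).1)

private lemma Etw_fd {f : ℝ × ℝ → ℂ} (hf : LipC f) : ∃ K : ℝ, 0 ≤ K ∧
    ∀ x ∈ U, ∀ t : ℝ × ℝ, ‖fderiv ℝ f x t‖ ≤ K * ‖t‖ := by
  obtain ⟨K, hK⟩ := Etw_lipD hf
  refine ⟨K, K.2, fun x hx t => ?_⟩
  exact (ContinuousLinearMap.le_opNorm _ _).trans (mul_le_mul_of_nonneg_right
    (norm_fderiv_le_of_lipschitzOn ℝ (Etw_D hx) hK) (norm_nonneg _))

private lemma Etw_fin : IsFiniteMeasure (volume.restrict U) := by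
  refine ⟨?_⟩
  rw [Measure.restrict_apply_univ]
  have h1 : U ⊆ D := fun x hx => (u_sub hx).1
  have h2 : IsCompact D := isCompact_Icc.prod isCompact_Icc
  exact lt_of_le_of_lt (measure_mono h1) h2.measure_lt_top

private lemma Etw_int2 {f g : ℝ × ℝ → ℂ} (hf : LipC f) (hg : LipC g) (t t' : ℝ × ℝ) :
    Integrable (fun x => fderiv ℝ f x t * fderiv ℝ g x t') (volume.restrict U) := by
  have := Etw_fin
  obtain ⟨K, hK0, hK⟩ := Etw_fd hf
  obtain ⟨L, hL0, hL⟩ := Etw_fd hg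
  refine Integrable.of_bound ?_ ((K * ‖t‖) * (L * ‖t'‖)) ?_
  · exact ((measurable_fderiv_apply_const ℝ f t).mul
      (measurable_fderiv_apply_const ℝ g t')).aestronglyMeasurable
  · filter_upwards [ae_restrict_mem Aed_U_open.measurableSet] with x hx
    rw [norm_mul]
    exact mul_le_mul (hK x hx t) (hL x hx t') (norm_nonneg _) (by positivity)

private lemma Etw_side {f : ℝ × ℝ → ℂ} (hf : LipC f) {a b : ℝ} {c : ℝ → ℝ × ℝ}
    (hc : ∀ s ∈ Icc a b, c s ∈ D) (hd : ∀ s t, dist (c s) (c t) ≤ dist s t) :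
    Etw_L1 a b (fun s => f (c s)) := by
  obtain ⟨K, hK⟩ := Etw_lipD hf
  refine ⟨K, LipschitzOnWith.of_dist_le_mul ?_⟩
  intro s hs t ht
  exact (hK.dist_le_mul _ (hc s hs) _ (hc t ht)).trans
    (mul_le_mul_of_nonneg_left (hd s t) K.2)

private lemma Etw_v {f : ℝ × ℝ → ℂ} (hf : LipC f) {c : ℝ} (hc : c ∈ Icc (0:ℝ) 1) :
    Etw_L1 0 (1/2) (fun s => f (c, s)) := by
  refine Etw_side hf (c := fun s => (c, s)) (fun s hs => ⟨hc, hs⟩) ?_
  intro s t
  rw [Prod.dist_eq]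
  simp

private lemma Etw_h {f : ℝ × ℝ → ℂ} (hf : LipC f) {c : ℝ} (hc : c ∈ Icc (0:ℝ) (1/2)) :
    Etw_L1 0 1 (fun s => f (s, c)) := by
  refine Etw_side hf (c := fun s => (s, c)) (fun s hs => ⟨hs, hc⟩) ?_
  intro s t
  rw [Prod.dist_eq]
  simp

private lemma Etw_stokes {F G : ℝ × ℝ → Mt m} (hF : ∀ i j, LipC (fun x => F x i j))
    (hG : ∀ i j, LipC (fun x => G x i j)) :
    ∫ x in U, trace (pd (1, 0) F x * pd (0, 1) G x - pd (0, 1) F x * pd (1, 0) G x) =
      (∫ v in (0:ℝ)..(1/2), trace (F (1, v) * Etw_dp (fun s => G (1, s)) v)) -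
      (∫ v in (0:ℝ)..(1/2), trace (F (0, v) * Etw_dp (fun s => G (0, s)) v)) -
      (∫ u in (0:ℝ)..1, trace (F (u, 1/2) * Etw_dp (fun s => G (s, 1/2)) u)) +
      (∫ u in (0:ℝ)..1, trace (F (u, 0) * Etw_dp (fun s => G (s, 0)) u)) := by
  have h0 : (0:ℝ) ∈ Icc (0:ℝ) 1 := by constructor <;> norm_num
  have h1 : (1:ℝ) ∈ Icc (0:ℝ) 1 := by constructor <;> norm_num
  have h0' : (0:ℝ) ∈ Icc (0:ℝ) (1/2) := by constructor <;> norm_num
  have h1' : (1/2:ℝ) ∈ Icc (0:ℝ) (1/2) := by constructor <;> norm_num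
  rw [(Etw_ptr (f := fun v => F (1, v)) (g := fun v => G (1, v)) (by norm_num : (0:ℝ) ≤ 1/2)
      (fun i j => Etw_v (hF i j) h1) (fun i j => Etw_v (hG i j) h1)).2,
    (Etw_ptr (f := fun v => F (0, v)) (g := fun v => G (0, v)) (by norm_num : (0:ℝ) ≤ 1/2)
      (fun i j => Etw_v (hF i j) h0) (fun i j => Etw_v (hG i j) h0)).2,
    (Etw_ptr (f := fun v => F (v, 1/2)) (g := fun v => G (v, 1/2)) (by norm_num : (0:ℝ) ≤ 1)
      (fun i j => Etw_h (hF i j) h1') (fun i j => Etw_h (hG i j) h1')).2,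
    (Etw_ptr (f := fun v => F (v, 0)) (g := fun v => G (v, 0)) (by norm_num : (0:ℝ) ≤ 1)
      (fun i j => Etw_h (hF i j) h0') (fun i j => Etw_h (hG i j) h0')).2]
  have e1 : ∀ x, trace (pd (1, 0) F x * pd (0, 1) G x - pd (0, 1) F x * pd (1, 0) G x) =
      ∑ i, ∑ j, (fderiv ℝ (fun y => F y i j) x (1, 0) * fderiv ℝ (fun y => G y j i) x (0, 1) -
        fderiv ℝ (fun y => F y i j) x (0, 1) * fderiv ℝ (fun y => G y j i) x (1, 0)) := by
    intro x
    rw [Matrix.trace_sub, Etw_tr, Etw_tr, ← Finset.sum_sub_distrib]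
    apply Finset.sum_congr rfl
    intro i _
    rw [← Finset.sum_sub_distrib]
    rfl
  have e2 : ∀ i j, Integrable (fun x =>
      fderiv ℝ (fun y => F y i j) x (1, 0) * fderiv ℝ (fun y => G y j i) x (0, 1) -
        fderiv ℝ (fun y => F y i j) x (0, 1) * fderiv ℝ (fun y => G y j i) x (1, 0))
      (volume.restrict U) := fun i j =>
    (Etw_int2 (hF i j) (hG j i) _ _).sub (Etw_int2 (hF i j) (hG j i) _ _)
  simp only [e1]
  rw [integral_finsetSum _ (fun i _ => integrable_finsetSum _ (fun j _ => e2 i j))]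
  rw [← Finset.sum_sub_distrib, ← Finset.sum_sub_distrib, ← Finset.sum_add_distrib]
  apply Finset.sum_congr rfl
  intro i _
  rw [integral_finsetSum _ (fun j _ => e2 i j), ← Finset.sum_sub_distrib,
    ← Finset.sum_sub_distrib, ← Finset.sum_add_distrib]
  apply Finset.sum_congr rfl
  intro j _
  exact stokes_cx (hF i j) (hG j i)


private lemma Etw_dconj {p0 p1 : ℝ → Mt m} {g : Mt m} {v : ℝ}
    (h : ∀ᶠ s in nhds v, p1 s * g = g * p0 s)
    (d1 : ∀ i j, DifferentiableAt ℝ (fun s => p1 s i j) v)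
    (d0 : ∀ i j, DifferentiableAt ℝ (fun s => p0 s i j) v) :
    Etw_dp p1 v * g = g * Etw_dp p0 v := by
  ext i j
  have e1 : (Etw_dp p1 v * g) i j = deriv (fun s => (p1 s * g) i j) v := by
    have e : (fun s => (p1 s * g) i j) = fun s => ∑ k, p1 s i k * g k j := by
      funext s
      rw [Matrix.mul_apply]
    rw [e, deriv_fun_sum (fun k _ => (d1 i k).mul_const (g k j)), Matrix.mul_apply]
    apply Finset.sum_congr rfl
    intro k _
    rw [deriv_mul_const_field]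
    rfl
  have e0 : (g * Etw_dp p0 v) i j = deriv (fun s => (g * p0 s) i j) v := by
    have e : (fun s => (g * p0 s) i j) = fun s => ∑ k, g i k * p0 s k j := by
      funext s
      rw [Matrix.mul_apply]
    rw [e, deriv_fun_sum (fun k _ => (d0 k j).const_mul (g i k)), Matrix.mul_apply]
    apply Finset.sum_congr rfl
    intro k _
    rw [deriv_const_mul_field]
    rfl
  rw [e1, e0]
  apply Filter.EventuallyEq.deriv_eq
  filter_upwards [h] with s hs
  rw [hs]

private lemma Etw_trc {F0 F1 D0 D1 g : Mt m} (hg : IsUnit g.det) (hF : F1 * g = g * F0)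
    (hD : D1 * g = g * D0) : trace (F1 * D1) = trace (F0 * D0) := by
  calc trace (F1 * D1) = trace (F1 * D1 * (g * g⁻¹)) := by
        rw [Matrix.mul_nonsing_inv _ hg, Matrix.mul_one]
    _ = trace (F1 * (D1 * g) * g⁻¹) := by simp only [Matrix.mul_assoc]
    _ = trace ((F1 * g) * D0 * g⁻¹) := by
        rw [hD]
        simp only [Matrix.mul_assoc]
    _ = trace (g * (F0 * D0) * g⁻¹) := by
        rw [hF]
        simp only [Matrix.mul_assoc]
    _ = trace (F0 * D0) := by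
        rw [Matrix.trace_mul_comm, ← Matrix.mul_assoc, Matrix.nonsing_inv_mul _ hg,
          Matrix.one_mul]

private lemma Etw_aem {p : ℝ → Mt m} {a b : ℝ} (h : ∀ i j, Etw_L1 a b (fun v => p v i j)) :
    ∀ᵐ v ∂(volume : Measure ℝ), v ∈ Ioo a b →
      ∀ i j, DifferentiableAt ℝ (fun s => p s i j) v := by
  have h1 : ∀ᵐ v ∂(volume : Measure ℝ), ∀ i j, v ∈ Ioo a b →
      DifferentiableAt ℝ (fun s => p s i j) v := by
    rw [ae_all_iff]
    intro i
    rw [ae_all_iff]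
    intro j
    exact Etw_ae (h i j)
  filter_upwards [h1] with v hv hv' i j
  exact hv i j hv'

/-- two paths related by conjugation have the same integral -/
private lemma Etw_path {f0 f1 p0 p1 : ℝ → Mt m} {g : Mt m} {a b : ℝ} (hab : a ≤ b)
    (hg : IsUnit g.det)
    (hp0 : ∀ i j, Etw_L1 a b (fun v => p0 v i j)) (hp1 : ∀ i j, Etw_L1 a b (fun v => p1 v i j))
    (hf : ∀ v ∈ Ioo a b, f1 v * g = g * f0 v) (hp : ∀ v ∈ Ioo a b, p1 v * g = g * p0 v) :
    ∫ v in a..b, trace (f1 v * Etw_dp p1 v) = ∫ v in a..b, trace (f0 v * Etw_dp p0 v) := by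
  rw [intervalIntegral.integral_of_le hab, intervalIntegral.integral_of_le hab,
    integral_Ioc_eq_integral_Ioo, integral_Ioc_eq_integral_Ioo]
  apply setIntegral_congr_ae measurableSet_Ioo
  filter_upwards [Etw_aem hp0, Etw_aem hp1] with v h0 h1 hv
  refine Etw_trc hg (hf v hv) (Etw_dconj ?_ (h1 hv) (h0 hv))
  filter_upwards [Ioo_mem_nhds hv.1 hv.2] with s hs
  exact hp s hs

private lemma Etw_refl {f p : ℝ → Mt m} {g : Mt m} (hg : IsUnit g.det)
    (hf1 : ∀ i j, Etw_L1 0 1 (fun v => f v i j))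
    (hp1 : ∀ i j, Etw_L1 0 1 (fun v => p v i j))
    (hf : ∀ u ∈ Ioo (0:ℝ) (1/2), f (1 - u) * g = g * f u)
    (hp : ∀ u ∈ Ioo (0:ℝ) (1/2), p (1 - u) * g = g * p u) :
    ∫ u in (0:ℝ)..1, trace (f u * Etw_dp p u) = 0 := by
  have hI := (Etw_ptr (by norm_num : (0:ℝ) ≤ 1) hf1 hp1).1
  have m0 : (0:ℝ) ∈ uIcc (0:ℝ) 1 := by
    rw [uIcc_of_le (by norm_num)]
    constructor <;> norm_num
  have m1 : (1:ℝ) ∈ uIcc (0:ℝ) 1 := by
    rw [uIcc_of_le (by norm_num)]
    constructor <;> norm_num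
  have mh : (1/2:ℝ) ∈ uIcc (0:ℝ) 1 := by
    rw [uIcc_of_le (by norm_num)]
    constructor <;> norm_num
  have hI1 := hI.mono_set (uIcc_subset_uIcc m0 mh)
  have hI2 := hI.mono_set (uIcc_subset_uIcc mh m1)
  rw [← intervalIntegral.integral_add_adjacent_intervals hI1 hI2]
  have hhalf : ∀ q : ℝ → ℂ, Etw_L1 0 1 q → Etw_L1 0 (1/2) q := by
    rintro q ⟨K, hK⟩
    exact ⟨K, hK.mono (Icc_subset_Icc le_rfl (by norm_num))⟩
  have hrefl : ∀ q : ℝ → ℂ, Etw_L1 0 1 q → Etw_L1 0 (1/2) (fun u => q (1 - u)) := by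
    rintro q ⟨K, hK⟩
    refine ⟨K, LipschitzOnWith.of_dist_le_mul ?_⟩
    intro s hs t ht
    have h1 := hK.dist_le_mul (1 - s) ⟨by linarith [hs.2], by linarith [hs.1]⟩ (1 - t)
      ⟨by linarith [ht.2], by linarith [ht.1]⟩
    have h2 : dist (1 - s) (1 - t) = dist s t := by
      rw [Real.dist_eq, Real.dist_eq, abs_sub_comm]
      congr 1
      ring
    rwa [h2] at h1
  have e1 : ∫ u in (1/2:ℝ)..1, trace (f u * Etw_dp p u) =
      ∫ u in (0:ℝ)..(1/2), trace (f (1 - u) * Etw_dp p (1 - u)) := by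
    have e := intervalIntegral.integral_comp_sub_left (a := (0:ℝ)) (b := 1/2)
      (fun u => trace (f u * Etw_dp p u)) 1
    rw [e]
    norm_num
  have e2 : ∀ u, Etw_dp p (1 - u) = - Etw_dp (fun s => p (1 - s)) u := by
    intro u
    ext i j
    have e := deriv_comp_const_sub (fun s => p s i j) 1 u
    change deriv (fun s => p s i j) (1 - u) = - deriv (fun s => p (1 - s) i j) u
    rw [e, neg_neg]
  have e3 : ∫ u in (0:ℝ)..(1/2), trace (f (1 - u) * Etw_dp p (1 - u)) =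
      -∫ u in (0:ℝ)..(1/2), trace (f (1 - u) * Etw_dp (fun s => p (1 - s)) u) := by
    rw [← intervalIntegral.integral_neg]
    apply intervalIntegral.integral_congr
    intro u _
    simp only [e2 u, Matrix.mul_neg, Matrix.trace_neg]
  have e4 : ∫ u in (0:ℝ)..(1/2), trace (f (1 - u) * Etw_dp (fun s => p (1 - s)) u) =
      ∫ u in (0:ℝ)..(1/2), trace (f u * Etw_dp p u) :=
    Etw_path (f1 := fun u => f (1 - u)) (p1 := fun u => p (1 - u)) (by norm_num) hg
      (fun i j => hhalf _ (hp1 i j)) (fun i j => hrefl _ (hp1 i j)) hf hp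
  rw [e1, e3, e4, add_neg_cancel]

/-- Lipschitz fields with the gluing -/
private structure Etw_G (A B C : Mt m) (F : ℝ × ℝ → Mt m) : Prop where
  lip : ∀ i j, LipC (fun x => F x i j)
  glC : ∀ v ∈ Ioo (0:ℝ) (1/2), F (1, v) * C = C * F (0, v)
  glA : ∀ u ∈ Ioo (0:ℝ) (1/2), F (1 - u, 0) * A = A * F (u, 0)
  glB : ∀ u ∈ Ioo (0:ℝ) (1/2), F (1 - u, 1/2) * B = B * F (u, 1/2)

private lemma Etw_zero {F G : ℝ × ℝ → Mt m} (hA : IsUnit A.det) (hB : IsUnit B.det)
    (hC : IsUnit C.det) (hF : Etw_G A B C F) (hG : Etw_G A B C G) :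
    ∫ x in U, trace (pd (1, 0) F x * pd (0, 1) G x - pd (0, 1) F x * pd (1, 0) G x) = 0 := by
  have h0 : (0:ℝ) ∈ Icc (0:ℝ) 1 := by constructor <;> norm_num
  have h1 : (1:ℝ) ∈ Icc (0:ℝ) 1 := by constructor <;> norm_num
  have h0' : (0:ℝ) ∈ Icc (0:ℝ) (1/2) := by constructor <;> norm_num
  have h1' : (1/2:ℝ) ∈ Icc (0:ℝ) (1/2) := by constructor <;> norm_num
  rw [Etw_stokes hF.lip hG.lip]
  have e1 : ∫ v in (0:ℝ)..(1/2), trace (F (1, v) * Etw_dp (fun s => G (1, s)) v) =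
      ∫ v in (0:ℝ)..(1/2), trace (F (0, v) * Etw_dp (fun s => G (0, s)) v) :=
    Etw_path (f1 := fun v => F (1, v)) (f0 := fun v => F (0, v)) (by norm_num) hC
      (fun i j => Etw_v (hG.lip i j) h0) (fun i j => Etw_v (hG.lip i j) h1) hF.glC hG.glC
  have e2 : ∫ u in (0:ℝ)..1, trace (F (u, 1/2) * Etw_dp (fun s => G (s, 1/2)) u) = 0 :=
    Etw_refl (f := fun u => F (u, 1/2)) hB (fun i j => Etw_h (hF.lip i j) h1')
      (fun i j => Etw_h (hG.lip i j) h1') hF.glB hG.glB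
  have e3 : ∫ u in (0:ℝ)..1, trace (F (u, 0) * Etw_dp (fun s => G (s, 0)) u) = 0 :=
    Etw_refl (f := fun u => F (u, 0)) hA (fun i j => Etw_h (hF.lip i j) h0')
      (fun i j => Etw_h (hG.lip i j) h0') hF.glA hG.glA
  rw [e1, e2, e3]
  ring

/-- a cutoff function -/
private structure Etw_Cut (chi : ℝ × ℝ → ℝ) (d : ℝ) : Prop where
  lip : ∃ K : ℝ, ∀ x y, |chi x - chi y| ≤ K * dist x y
  bd : ∀ x, 0 ≤ chi x ∧ chi x ≤ 1
  ze : ∀ x, ∀ p ∈ P, dist x p ≤ d → chi x = 0
  sC : ∀ v ∈ Icc (0:ℝ) (1/2), chi (1, v) = chi (0, v)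
  sA : ∀ u ∈ Icc (0:ℝ) 1, chi (1 - u, 0) = chi (u, 0)
  sB : ∀ u ∈ Icc (0:ℝ) 1, chi (1 - u, 1/2) = chi (u, 1/2)

private lemma Etw_lipw {chi : ℝ × ℝ → ℝ} (h : ∃ K : ℝ, ∀ x y, |chi x - chi y| ≤ K * dist x y) :
    ∃ K : NNReal, LipschitzWith K chi := by
  obtain ⟨K, hK⟩ := h
  refine ⟨Real.toNNReal |K|, LipschitzWith.of_dist_le_mul ?_⟩
  intro x y
  rw [Real.dist_eq, Real.coe_toNNReal _ (abs_nonneg K)]
  exact (hK x y).trans (mul_le_mul_of_nonneg_right (le_abs_self K) dist_nonneg)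

private lemma Etw_lipC {chi : ℝ × ℝ → ℝ} {d : ℝ} (hd : 0 < d) (h : Etw_Cut chi d)
    {f : ℝ × ℝ → ℂ} (hf : Aed_Sz f) : LipC (fun x => (chi x : ℂ) * f x) := by
  obtain ⟨K, hK⟩ := Etw_lipw h.lip
  obtain ⟨L, hL0, hL⟩ := hf d hd
  obtain ⟨R, hR0, hR⟩ := Aed_Sz_bd hf hd
  have h0 : ∀ z ∈ D, z ∉ Dd d → chi z = 0 := by
    intro z hz hz'
    by_contra hne
    apply hz'
    refine ⟨hz, fun p hp => ?_⟩
    by_contra hlt
    exact hne (h.ze z p hp (not_le.1 hlt).le)
  have hchi : ∀ x y, |chi x - chi y| ≤ K * dist x y := by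
    intro x y
    have := hK.dist_le_mul x y
    rwa [Real.dist_eq] at this
  have hone : ∀ x ∈ Dd d, ∀ y, chi y = 0 →
      ‖(chi x : ℂ) * f x‖ ≤ (K * R + L) * dist x y := by
    intro x hx y hy
    have h1 := hchi x y
    rw [hy, sub_zero] at h1
    rw [norm_mul, Complex.norm_real, Real.norm_eq_abs]
    calc |chi x| * ‖f x‖ ≤ (K * dist x y) * R :=
          mul_le_mul h1 (hR x hx) (norm_nonneg _) ((abs_nonneg _).trans h1)
      _ ≤ (K * R + L) * dist x y := by
          have : 0 ≤ L * dist x y := mul_nonneg hL0 dist_nonneg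
          nlinarith
  refine ⟨K * R + L, fun x hx y hy => ?_⟩
  by_cases hx' : x ∈ Dd d
  · by_cases hy' : y ∈ Dd d
    · have e : (chi x : ℂ) * f x - (chi y : ℂ) * f y =
          ((chi x - chi y : ℝ) : ℂ) * f x + (chi y : ℂ) * (f x - f y) := by
        push_cast
        ring
      have h1 := hchi x y
      have h2 : |chi y| ≤ 1 := by
        rw [abs_of_nonneg (h.bd y).1]
        exact (h.bd y).2
      change ‖(chi x : ℂ) * f x - (chi y : ℂ) * f y‖ ≤ _
      rw [e]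
      refine (norm_add_le _ _).trans ?_
      rw [norm_mul, norm_mul, Complex.norm_real, Complex.norm_real, Real.norm_eq_abs,
        Real.norm_eq_abs]
      calc |chi x - chi y| * ‖f x‖ + |chi y| * ‖f x - f y‖ ≤
            (K * dist x y) * R + 1 * (L * dist x y) :=
            add_le_add (mul_le_mul h1 (hR x hx') (norm_nonneg _) ((abs_nonneg _).trans h1))
              (mul_le_mul h2 (hL x hx' y hy') (norm_nonneg _) zero_le_one)
        _ = (K * R + L) * dist x y := by ring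
    · have hy0 := h0 y hy hy'
      change ‖(chi x : ℂ) * f x - (chi y : ℂ) * f y‖ ≤ _
      have e : (chi x : ℂ) * f x - (chi y : ℂ) * f y = (chi x : ℂ) * f x := by
        rw [hy0]
        simp
      rw [e]
      exact hone x hx' y hy0
  · have hx0 := h0 x hx hx'
    change ‖(chi x : ℂ) * f x - (chi y : ℂ) * f y‖ ≤ _
    have e : (chi x : ℂ) * f x - (chi y : ℂ) * f y = -((chi y : ℂ) * f y) := by
      rw [hx0]
      simp
    rw [e, norm_neg, dist_comm]
    by_cases hy' : y ∈ Dd d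
    · exact hone y hy' x hx0
    · rw [h0 y hy hy']
      simp only [Complex.ofReal_zero, zero_mul, norm_zero]
      exact mul_nonneg (add_nonneg (mul_nonneg K.2 hR0) hL0) dist_nonneg

private lemma Etw_cutG {chi : ℝ × ℝ → ℝ} {d : ℝ} (hd : 0 < d) (h : Etw_Cut chi d)
    (hV : Fd A B C V) : Etw_G A B C (fun x => (chi x : ℂ) • V x) where
  lip := fun i j => Etw_lipC hd h (Aed_lz_iff.1 hV.lip i j)
  glC := by
    intro v hv
    rw [h.sC v (Ioo_subset_Icc_self hv), Matrix.smul_mul, Matrix.mul_smul, hV.glC v hv]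
  glA := by
    intro u hu
    rw [h.sA u ⟨hu.1.le, by linarith [hu.2]⟩, Matrix.smul_mul, Matrix.mul_smul, hV.glA u hu]
  glB := by
    intro u hu
    rw [h.sB u ⟨hu.1.le, by linarith [hu.2]⟩, Matrix.smul_mul, Matrix.mul_smul, hV.glB u hu]

private lemma Etw_inner {chi chi' : ℝ × ℝ → ℝ} {d : ℝ} (hd : 0 < d) (h : Etw_Cut chi d)
    (h' : ∀ x, (∀ p ∈ P, d / 2 ≤ dist x p) → chi' x = 1) {x : ℝ × ℝ}
    (dc : DifferentiableAt ℝ chi x)
    (dV : ∀ i j, DifferentiableAt ℝ (fun y => V y i j) x) :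
    trace (pd (1, 0) (fun x => (chi x : ℂ) • V x) x * pd (0, 1) (fun x => (chi' x : ℂ) • N x) x -
      pd (0, 1) (fun x => (chi x : ℂ) • V x) x * pd (1, 0) (fun x => (chi' x : ℂ) • N x) x) =
    (chi x : ℂ) * trace (pd (1, 0) V x * pd (0, 1) N x - pd (0, 1) V x * pd (1, 0) N x) +
      (((fderiv ℝ chi x (1, 0) : ℝ) : ℂ) * trace (V x * pd (0, 1) N x) -
        ((fderiv ℝ chi x (0, 1) : ℝ) : ℂ) * trace (V x * pd (1, 0) N x)) := by
  by_cases hx : ∀ p ∈ P, d / 2 < dist x p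
  · have hev : ∀ᶠ y in nhds x, ∀ p ∈ P, d / 2 < dist y p := by
      rw [Filter.eventually_all_finite Aed_P_finite]
      intro p hp
      exact (isOpen_lt continuous_const (continuous_id.dist continuous_const)).mem_nhds (hx p hp)
    have hG : ∀ t, pd t (fun x => (chi' x : ℂ) • N x) x = pd t N x := by
      intro t
      ext i j
      change fderiv ℝ (fun y => ((chi' y : ℂ) • N y) i j) x t = fderiv ℝ (fun y => N y i j) x t
      have e : (fun y => ((chi' y : ℂ) • N y) i j) =ᶠ[nhds x] fun y => N y i j := by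
        filter_upwards [hev] with y hy
        rw [h' y (fun p hp => (hy p hp).le), Complex.ofReal_one, one_smul]
      rw [e.fderiv_eq]
    have hF : ∀ t, pd t (fun x => (chi x : ℂ) • V x) x =
        ((fderiv ℝ chi x t : ℝ) : ℂ) • V x + (chi x : ℂ) • pd t V x := by
      intro t
      ext i j
      have e1 : HasFDerivAt (fun y => (chi y : ℂ)) (Complex.ofRealCLM.comp (fderiv ℝ chi x)) x :=
        Complex.ofRealCLM.hasFDerivAt.comp x dc.hasFDerivAt
      have e2 := (e1.fun_mul (dV i j).hasFDerivAt).fderiv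
      have e3 := congrArg (fun L : (ℝ × ℝ) →L[ℝ] ℂ => L t) e2
      change fderiv ℝ (fun y => (chi y : ℂ) * V y i j) x t = _
      rw [e3]
      change (chi x : ℂ) * (fderiv ℝ (fun y => V y i j) x t) +
        V x i j * ((fderiv ℝ chi x t : ℝ) : ℂ) =
        ((fderiv ℝ chi x t : ℝ) : ℂ) * V x i j + (chi x : ℂ) * (fderiv ℝ (fun y => V y i j) x t)
      ring
    rw [hG, hG, hF, hF]
    simp only [Matrix.add_mul, Matrix.smul_mul, Matrix.trace_sub, Matrix.trace_add,
      Matrix.trace_smul, smul_eq_mul]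
    ring
  · have hx' : ∃ p ∈ P, dist x p ≤ d / 2 := by
      by_contra hcon
      apply hx
      intro p hp
      by_contra hlt
      exact hcon ⟨p, hp, not_lt.1 hlt⟩
    obtain ⟨p, hp, hxp⟩ := hx'
    have hev : ∀ᶠ y in nhds x, chi y = 0 := by
      have h1 : ∀ᶠ y in nhds x, dist y p < d :=
        (isOpen_lt (continuous_id.dist continuous_const) continuous_const).mem_nhds
          (by change dist x p < d; linarith)
      filter_upwards [h1] with y hy
      exact h.ze y p hp hy.le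
    have e1 : chi x = 0 := hev.self_of_nhds
    have e2 : fderiv ℝ chi x = 0 := by
      have e : chi =ᶠ[nhds x] fun _ => (0 : ℝ) := hev
      rw [e.fderiv_eq, fderiv_fun_const]
      rfl
    have hF : ∀ t, pd t (fun x => (chi x : ℂ) • V x) x = 0 := by
      intro t
      ext i j
      change fderiv ℝ (fun y => ((chi y : ℂ) • V y) i j) x t = 0
      have e : (fun y => ((chi y : ℂ) • V y) i j) =ᶠ[nhds x] fun _ => (0 : ℂ) := by
        filter_upwards [hev] with y hy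
        rw [hy, Complex.ofReal_zero, zero_smul]
        rfl
      rw [e.fderiv_eq, fderiv_fun_const]
      rfl
    rw [hF, hF, e1, e2]
    simp

private lemma Etw_mtr {F G : ℝ × ℝ → Mt m} (hF : Mea_AM F) (hG : Mea_AM G) :
    AEStronglyMeasurable (fun x => trace (F x * G x)) (volume.restrict U) := by
  have h2 : (fun x => trace (F x * G x)) = fun x => ∑ k, (F x * G x) k k := by
    funext x
    rfl
  rw [h2]
  exact Finset.aestronglyMeasurable_fun_sum _ fun k _ => Mea_mul hF hG k k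

private lemma Etw_young {l a b : ℝ} (hl : 0 < l) (hb : 0 ≤ b) :
    a * Real.sqrt b ≤ (l * a ^ 2 + b / l) / 2 := by
  have h1 : b = Real.sqrt b ^ 2 := (Real.sq_sqrt hb).symm
  have h2 : (l * a ^ 2 + b / l) / 2 - a * Real.sqrt b = (l * a - Real.sqrt b) ^ 2 / (2 * l) := by
    nth_rewrite 1 [h1]
    field_simp
    ring
  have h3 : 0 ≤ (l * a - Real.sqrt b) ^ 2 / (2 * l) := by positivity
  linarith

private lemma Etw_dn0 (hH : Cl A B C H) (N : ℝ × ℝ → Mt m) (t : ℝ × ℝ) {x : ℝ × ℝ}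
    (hx : x ∈ U) : 0 ≤ dn t H N x := n2_nonneg (hH.pos x (u_sub hx)) _

private lemma Etw_J (hH : Cl A B C H)
    (dV1 : IntegrableOn (dn (1, 0) H V) U) (dV2 : IntegrableOn (dn (0, 1) H V) U)
    (dN1 : IntegrableOn (dn (1, 0) H N) U) (dN2 : IntegrableOn (dn (0, 1) H N) U) :
    IntegrableOn (fun x => trace (pd (1, 0) V x * pd (0, 1) N x -
      pd (0, 1) V x * pd (1, 0) N x)) U := by
  have hg := (((dV1.add dV2).add dN1).add dN2).div_const 2
  refine Integrable.mono' hg ?_ ?_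
  · have e : (fun x => trace (pd (1, 0) V x * pd (0, 1) N x - pd (0, 1) V x * pd (1, 0) N x)) =
        fun x => trace (pd (1, 0) V x * pd (0, 1) N x) - trace (pd (0, 1) V x * pd (1, 0) N x) := by
      funext x
      rw [Matrix.trace_sub]
    rw [e]
    exact (Etw_mtr (Mea_pd _ _) (Mea_pd _ _)).sub (Etw_mtr (Mea_pd _ _) (Mea_pd _ _))
  · filter_upwards [ae_restrict_mem Aed_U_open.measurableSet] with x hx
    have hp := hH.pos x (u_sub hx)
    rw [Matrix.trace_sub]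
    refine (norm_sub_le _ _).trans ?_
    have h1 := tr_cs hp (pd (1, 0) V x) (pd (0, 1) N x)
    have h2 := tr_cs hp (pd (0, 1) V x) (pd (1, 0) N x)
    have e : ∀ a b : ℝ, 0 ≤ a → 0 ≤ b → Real.sqrt a * Real.sqrt b ≤ (a + b) / 2 := by
      intro a b ha hb
      have h3 := Real.sq_sqrt ha
      have h4 := Real.sq_sqrt hb
      nlinarith [sq_nonneg (Real.sqrt a - Real.sqrt b)]
    have h3 := e _ _ (Etw_dn0 hH V (1, 0) hx) (Etw_dn0 hH N (0, 1) hx)
    have h4 := e _ _ (Etw_dn0 hH V (0, 1) hx) (Etw_dn0 hH N (1, 0) hx)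
    change _ ≤ (((dn (1, 0) H V x + dn (0, 1) H V x) + dn (1, 0) H N x) + dn (0, 1) H N x) / 2
    unfold dn at h3 h4 ⊢
    linarith

private lemma Etw_bound (hA : IsUnit A.det) (hB : IsUnit B.det) (hC : IsUnit C.det)
    (hH : Cl A B C H) (hV : Fd A B C V) (hN : Fd A B C N) {M : ℝ}
    (bV : ∀ x ∈ D \ P, n2 (H x) (V x) ≤ M ^ 2)
    (dV1 : IntegrableOn (dn (1, 0) H V) U) (dV2 : IntegrableOn (dn (0, 1) H V) U)
    (dN1 : IntegrableOn (dn (1, 0) H N) U) (dN2 : IntegrableOn (dn (0, 1) H N) U)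
    {ep : ℝ} (hep : 0 < ep) : ∃ chi : ℝ × ℝ → ℝ, Continuous chi ∧ (∀ x, 0 ≤ chi x ∧ chi x ≤ 1) ∧
      (∀ x, (∀ p ∈ P, ep ≤ dist x p) → chi x = 1) ∧
      ‖∫ x in U, (chi x : ℂ) * trace (pd (1, 0) V x * pd (0, 1) N x -
        pd (0, 1) V x * pd (1, 0) N x)‖ ≤
      |M| / 2 * (1 + ∫ x in U, (dn (1, 0) H N x + dn (0, 1) H N x)) * Real.sqrt ep := by
  have := Etw_fin
  obtain ⟨chi, d, hd, c1, c2, c3, c4, c5, c6, c7, c8⟩ := cutoff hep
  obtain ⟨chi', d', hd', b1, b2, b3, b4, b5, b6, b7, b8⟩ := cutoff (half_pos hd)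
  have hc : Etw_Cut chi d := ⟨c1, c2, c3, c5, c6, c7⟩
  have hc' : Etw_Cut chi' d' := ⟨b1, b2, b3, b5, b6, b7⟩
  obtain ⟨K, hK⟩ := Etw_lipw c1
  refine ⟨chi, hK.continuous, c2, c4, ?_⟩
  have hz := Etw_zero hA hB hC (Etw_cutG hd hc hV) (Etw_cutG hd' hc' hN)
  have hJ := Etw_J hH dV1 dV2 dN1 dN2
  obtain ⟨J, hJd⟩ : ∃ J : ℝ × ℝ → ℂ, J = fun x => trace (pd (1, 0) V x * pd (0, 1) N x -
      pd (0, 1) V x * pd (1, 0) N x) := ⟨_, rfl⟩
  obtain ⟨Rm, hRd⟩ : ∃ Rm : ℝ × ℝ → ℂ, Rm = fun x =>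
      ((fderiv ℝ chi x (1, 0) : ℝ) : ℂ) * trace (V x * pd (0, 1) N x) -
        ((fderiv ℝ chi x (0, 1) : ℝ) : ℂ) * trace (V x * pd (1, 0) N x) := ⟨_, rfl⟩
  rw [← hJd] at hJ
  have hcJ : Integrable (fun x => (chi x : ℂ) * J x) (volume.restrict U) := by
    refine Integrable.bdd_mul (c := 1) hJ ?_ ?_
    · exact (Complex.continuous_ofReal.comp hK.continuous).aestronglyMeasurable
    · filter_upwards with x
      rw [Complex.norm_real, Real.norm_eq_abs, abs_of_nonneg (c2 x).1]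
      exact (c2 x).2
  -- the dominating function
  obtain ⟨l, hl⟩ : ∃ l : ℝ, l = 1 / Real.sqrt ep := ⟨_, rfl⟩
  have hsp : 0 < Real.sqrt ep := Real.sqrt_pos.2 hep
  have hl0 : 0 < l := by
    rw [hl]
    positivity
  have hchi2 : Integrable (fun x => (fderiv ℝ chi x (1, 0)) ^ 2 + (fderiv ℝ chi x (0, 1)) ^ 2)
      (volume.restrict U) := by
    have h1 : ∀ t : ℝ × ℝ, Integrable (fun x => (fderiv ℝ chi x t) ^ 2) (volume.restrict U) := by
      intro t
      refine Integrable.of_bound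
        ((measurable_fderiv_apply_const ℝ chi t).pow_const 2).aestronglyMeasurable
        ((K * ‖t‖) ^ 2) ?_
      filter_upwards with x
      rw [norm_pow]
      apply pow_le_pow_left₀ (norm_nonneg _)
      exact (ContinuousLinearMap.le_opNorm _ _).trans
        (mul_le_mul_of_nonneg_right (norm_fderiv_le_of_lipschitz ℝ hK) (norm_nonneg _))
    exact (h1 _).add (h1 _)
  have hdN : Integrable (fun x => dn (1, 0) H N x + dn (0, 1) H N x) (volume.restrict U) :=
    dN1.add dN2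
  have hg : Integrable (fun x => |M| / 2 * (l * ((fderiv ℝ chi x (1, 0)) ^ 2 +
      (fderiv ℝ chi x (0, 1)) ^ 2) + (dn (1, 0) H N x + dn (0, 1) H N x) / l))
      (volume.restrict U) :=
    ((hchi2.const_mul l).add (hdN.div_const l)).const_mul _
  have hRb : ∀ᵐ x ∂(volume.restrict U), ‖Rm x‖ ≤ |M| / 2 * (l * ((fderiv ℝ chi x (1, 0)) ^ 2 +
      (fderiv ℝ chi x (0, 1)) ^ 2) + (dn (1, 0) H N x + dn (0, 1) H N x) / l) := by
    filter_upwards [ae_restrict_mem Aed_U_open.measurableSet] with x hx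
    have hp := hH.pos x (u_sub hx)
    have hv : Real.sqrt (n2 (H x) (V x)) ≤ |M| := by
      rw [← Real.sqrt_sq_eq_abs]
      exact Real.sqrt_le_sqrt (bV x (u_sub hx))
    have t1 : ‖trace (V x * pd (0, 1) N x)‖ ≤ |M| * Real.sqrt (dn (0, 1) H N x) :=
      (tr_cs hp _ _).trans (mul_le_mul_of_nonneg_right hv (Real.sqrt_nonneg _))
    have t2 : ‖trace (V x * pd (1, 0) N x)‖ ≤ |M| * Real.sqrt (dn (1, 0) H N x) :=
      (tr_cs hp _ _).trans (mul_le_mul_of_nonneg_right hv (Real.sqrt_nonneg _))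
    have y1 := Etw_young (a := |fderiv ℝ chi x (1, 0)|) hl0 (Etw_dn0 hH N (0, 1) hx)
    have y2 := Etw_young (a := |fderiv ℝ chi x (0, 1)|) hl0 (Etw_dn0 hH N (1, 0) hx)
    rw [sq_abs] at y1 y2
    rw [hRd]
    refine (norm_sub_le _ _).trans ?_
    rw [norm_mul, norm_mul, Complex.norm_real, Complex.norm_real, Real.norm_eq_abs,
      Real.norm_eq_abs]
    calc |fderiv ℝ chi x (1, 0)| * ‖trace (V x * pd (0, 1) N x)‖ +
          |fderiv ℝ chi x (0, 1)| * ‖trace (V x * pd (1, 0) N x)‖ ≤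
          |fderiv ℝ chi x (1, 0)| * (|M| * Real.sqrt (dn (0, 1) H N x)) +
          |fderiv ℝ chi x (0, 1)| * (|M| * Real.sqrt (dn (1, 0) H N x)) :=
          add_le_add (mul_le_mul_of_nonneg_left t1 (abs_nonneg _))
            (mul_le_mul_of_nonneg_left t2 (abs_nonneg _))
      _ = |M| * (|fderiv ℝ chi x (1, 0)| * Real.sqrt (dn (0, 1) H N x) +
          |fderiv ℝ chi x (0, 1)| * Real.sqrt (dn (1, 0) H N x)) := by ring
      _ ≤ |M| * ((l * (fderiv ℝ chi x (1, 0)) ^ 2 + dn (0, 1) H N x / l) / 2 +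
          (l * (fderiv ℝ chi x (0, 1)) ^ 2 + dn (1, 0) H N x / l) / 2) :=
          mul_le_mul_of_nonneg_left (add_le_add y1 y2) (abs_nonneg _)
      _ = _ := by ring
  have hRm : AEStronglyMeasurable Rm (volume.restrict U) := by
    rw [hRd]
    refine AEStronglyMeasurable.sub ?_ ?_
    · exact (Complex.continuous_ofReal.comp_aestronglyMeasurable
        (measurable_fderiv_apply_const ℝ chi _).aestronglyMeasurable).mul
        (Etw_mtr (Mea_lz hV.lip) (Mea_pd _ _))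
    · exact (Complex.continuous_ofReal.comp_aestronglyMeasurable
        (measurable_fderiv_apply_const ℝ chi _).aestronglyMeasurable).mul
        (Etw_mtr (Mea_lz hV.lip) (Mea_pd _ _))
  have hRi : Integrable Rm (volume.restrict U) := Integrable.mono' hg hRm hRb
  have hsum : ∫ x in U, ((chi x : ℂ) * J x + Rm x) = 0 := by
    rw [← hz]
    apply integral_congr_ae
    have hdc : ∀ᵐ x ∂(volume.restrict U), DifferentiableAt ℝ chi x :=
      ae_restrict_of_ae hK.ae_differentiableAt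
    filter_upwards [hdc, lz_ae hV.lip] with x h1 h2
    rw [hJd, hRd]
    exact (Etw_inner hd hc b4 h1 h2).symm
  rw [integral_add hcJ hRi] at hsum
  have hfin : ∫ x in U, (chi x : ℂ) * J x = -∫ x in U, Rm x := eq_neg_of_add_eq_zero_left hsum
  have hgoal : ∫ x in U, (chi x : ℂ) * trace (pd (1, 0) V x * pd (0, 1) N x -
        pd (0, 1) V x * pd (1, 0) N x) = -∫ x in U, Rm x := by
    rw [← hfin, hJd]
  rw [hgoal, norm_neg]
  refine (norm_integral_le_of_norm_le hg hRb).trans ?_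
  rw [integral_const_mul, integral_add (hchi2.const_mul l) (hdN.div_const l),
    integral_const_mul, integral_div]
  have hE0 : 0 ≤ |M| / 2 := by positivity
  have e1 : l * ep = Real.sqrt ep := by
    rw [hl]
    have := Real.mul_self_sqrt hep.le
    field_simp
    linarith
  have e2 : ∀ E : ℝ, E / l = E * Real.sqrt ep := by
    intro E
    rw [hl]
    field_simp
  have e3 : l * ∫ x in U, ((fderiv ℝ chi x (1, 0)) ^ 2 + (fderiv ℝ chi x (0, 1)) ^ 2) ≤
      Real.sqrt ep := by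
    rw [← e1]
    exact mul_le_mul_of_nonneg_left c8 hl0.le
  rw [e2]
  calc |M| / 2 * (l * (∫ x in U, ((fderiv ℝ chi x (1, 0)) ^ 2 + (fderiv ℝ chi x (0, 1)) ^ 2)) +
        (∫ x in U, (dn (1, 0) H N x + dn (0, 1) H N x)) * Real.sqrt ep) ≤
        |M| / 2 * (Real.sqrt ep +
        (∫ x in U, (dn (1, 0) H N x + dn (0, 1) H N x)) * Real.sqrt ep) :=
        mul_le_mul_of_nonneg_left (by linarith) hE0
    _ = _ := by ring

theorem e2 (hA : IsUnit A.det) (hB : IsUnit B.det) (hC : IsUnit C.det)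
    (hH : Cl A B C H) (hV : Fd A B C V) (hN : Fd A B C N) {M : ℝ}
    (bV : ∀ x ∈ D \ P, n2 (H x) (V x) ≤ M ^ 2)
    (dV1 : IntegrableOn (dn (1, 0) H V) U) (dV2 : IntegrableOn (dn (0, 1) H V) U)
    (dN1 : IntegrableOn (dn (1, 0) H N) U) (dN2 : IntegrableOn (dn (0, 1) H N) U) :
    ∫ x in U, trace (pd (1, 0) V x * pd (0, 1) N x - pd (0, 1) V x * pd (1, 0) N x) = 0 := by
  have hJ := Etw_J hH dV1 dV2 dN1 dN2
  have hex : ∀ n : ℕ, ∃ chi : ℝ × ℝ → ℝ, Continuous chi ∧ (∀ x, 0 ≤ chi x ∧ chi x ≤ 1) ∧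
      (∀ x, (∀ p ∈ P, 1 / ((n : ℝ) + 1) ≤ dist x p) → chi x = 1) ∧
      ‖∫ x in U, (chi x : ℂ) * trace (pd (1, 0) V x * pd (0, 1) N x -
        pd (0, 1) V x * pd (1, 0) N x)‖ ≤
      |M| / 2 * (1 + ∫ x in U, (dn (1, 0) H N x + dn (0, 1) H N x)) *
        Real.sqrt (1 / ((n : ℝ) + 1)) :=
    fun n => Etw_bound hA hB hC hH hV hN bV dV1 dV2 dN1 dN2 (by positivity)
  choose chi h1 h2 h3 h4 using hex
  have hlim1 : Filter.Tendsto (fun n => ∫ x in U, (chi n x : ℂ) *
      trace (pd (1, 0) V x * pd (0, 1) N x - pd (0, 1) V x * pd (1, 0) N x)) Filter.atTop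
      (nhds (∫ x in U, trace (pd (1, 0) V x * pd (0, 1) N x -
        pd (0, 1) V x * pd (1, 0) N x))) := by
    refine tendsto_integral_of_dominated_convergence (fun x => ‖trace (pd (1, 0) V x *
      pd (0, 1) N x - pd (0, 1) V x * pd (1, 0) N x)‖) ?_ hJ.norm ?_ ?_
    · intro n
      exact (Complex.continuous_ofReal.comp (h1 n)).aestronglyMeasurable.mul hJ.1
    · intro n
      filter_upwards with x
      rw [norm_mul, Complex.norm_real, Real.norm_eq_abs, abs_of_nonneg (h2 n x).1]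
      exact mul_le_of_le_one_left (norm_nonneg _) (h2 n x).2
    · filter_upwards [ae_restrict_mem Aed_U_open.measurableSet] with x hx
      obtain ⟨d, hd, hxd⟩ := mem_dd (u_sub hx)
      obtain ⟨n0, hn0⟩ := exists_nat_one_div_lt hd
      refine tendsto_const_nhds.congr' ?_
      filter_upwards [Filter.eventually_ge_atTop n0] with n hn
      have e : chi n x = 1 := by
        apply h3 n x
        intro p hp
        refine le_trans ?_ (hxd.2 p hp)
        refine le_trans ?_ hn0.le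
        apply one_div_le_one_div_of_le (by positivity)
        have : (n0 : ℝ) ≤ n := by exact_mod_cast hn
        linarith
      rw [e, Complex.ofReal_one, one_mul]
  have hlim2 : Filter.Tendsto (fun n => ∫ x in U, (chi n x : ℂ) *
      trace (pd (1, 0) V x * pd (0, 1) N x - pd (0, 1) V x * pd (1, 0) N x)) Filter.atTop
      (nhds 0) := by
    refine squeeze_zero_norm h4 ?_
    have e1 : Filter.Tendsto (fun n : ℕ => 1 / ((n : ℝ) + 1)) Filter.atTop (nhds 0) :=
      tendsto_one_div_add_atTop_nhds_zero_nat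
    have e2 : Filter.Tendsto (fun n : ℕ => Real.sqrt (1 / ((n : ℝ) + 1))) Filter.atTop
        (nhds 0) := by
      have := (Real.continuous_sqrt.tendsto 0).comp e1
      rwa [Real.sqrt_zero] at this
    have e3 := e2.const_mul (|M| / 2 * (1 + ∫ x in U, (dn (1, 0) H N x + dn (0, 1) H N x)))
    rwa [mul_zero] at e3
  exact tendsto_nhds_unique hlim1 hlim2

theorem e2_frame (hA : IsUnit A.det) (hB : IsUnit B.det) (hC : IsUnit C.det)
    (hH : Cl A B C H) (hV : Fd A B C V) (hN : Fd A B C N) {M : ℝ}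
    (bV : ∀ x ∈ D \ P, n2 (H x) (V x) ≤ M ^ 2)
    (dV1 : IntegrableOn (dn (1, 0) H V) U) (dV2 : IntegrableOn (dn (0, 1) H V) U)
    (dN1 : IntegrableOn (dn (1, 0) H N) U) (dN2 : IntegrableOn (dn (0, 1) H N) U)
    (e f : ℝ × ℝ) :
    IntegrableOn (fun x => trace (pd e V x * pd f N x - pd f V x * pd e N x)) U ∧
    ∫ x in U, trace (pd e V x * pd f N x - pd f V x * pd e N x) = 0 := by
  have hJ := Etw_J hH dV1 dV2 dN1 dN2
  have hlin : ∀ (t : ℝ × ℝ) (X : ℝ × ℝ → Mt m) (x : ℝ × ℝ),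
      pd t X x = (t.1 : ℂ) • pd (1, 0) X x + (t.2 : ℂ) • pd (0, 1) X x := by
    intro t X x
    have ht : t = t.1 • ((1, 0) : ℝ × ℝ) + t.2 • ((0, 1) : ℝ × ℝ) := by
      ext <;> simp
    have h := pd_lin X x t.1 t.2 (1, 0) (0, 1)
    rwa [← ht] at h
  have hfun : (fun x => trace (pd e V x * pd f N x - pd f V x * pd e N x)) =
      fun x => ((e.1 * f.2 - e.2 * f.1 : ℝ) : ℂ) *
        trace (pd (1, 0) V x * pd (0, 1) N x - pd (0, 1) V x * pd (1, 0) N x) := by
    funext x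
    rw [hlin e V x, hlin f V x, hlin e N x, hlin f N x]
    simp only [Matrix.add_mul, Matrix.mul_add, Matrix.smul_mul, Matrix.mul_smul,
      Matrix.trace_sub, Matrix.trace_add, Matrix.trace_smul, smul_eq_mul]
    push_cast
    ring
  rw [hfun]
  refine ⟨hJ.const_mul _, ?_⟩
  rw [integral_const_mul, e2 hA hB hC hH hV hN bV dV1 dV2 dN1 dN2, mul_zero]

end H80HM
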