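import Pool.Agent.H80.HM.Defs

set_option autoImplicit false

/-!
# Row Pi1: pointwise inequalities, first group (midpoint gap)

Everything is computed from PtD (do not unfold more): there are lam, a, s with, for every direction t, q t t' (Kf psi) = Re sum_pr z_t star z_t',
z_t = zz psi (lam p) (lam r) (a t p r) (s t p r); z0 := a (metric H), z1 := zz id (metric G), zh := zz hf (midpoint; hf is ContDiff).
KEY IDENTITY (each p, r, each t, same real factor k = cosh((lam p - lam r)/4) >= 1 for all t):   z0 + z1 = 2 k zh.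
 Proof: if lam p = lam r: z1 = a + s/2, zh = a + s/4 (deriv hf = 1/2), k = 1. Otherwise with w = (lam p - lam r)/2:
 z1 = cosh w a + sinh w s/(2w), zh = cosh(w/2) a + sinh(w/2) s/(2w), cosh w + 1 = 2cosh(w/2)^2, sinh w = 2 sinh(w/2) cosh(w/2).
For a positive semidefinite c write Qc(z) = c11|z_e|^2 + 2c12 Re(z_e star z_f) + c22|z_f|^2 >= 0. Then Qc(z0+z1) = 4k^2 Qc(zh) >= 4 Qc(zh), so
 Qc(z0) + Qc(z1) - 2Qc(zh) >= Qc(z0) + Qc(z1) - Qc(z0+z1)/2 = Qc(z1 - z0)/2 >= 0.        (*)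
1. gapc_nonneg: sum of (*) over p, r.  2. gap_nonneg: c = (1,0,1).
3. q_ck: put B(z,w) = p z_e star w_e + r(z_e star w_f + z_f star w_e) - p z_f star w_f; |B(z,w)| <= |z||w| (the matrix ((p,r),(r,-p)) is orthogonal), and
   B(z1,z1) - B(z0,z0) = 2 Re B(z0,d) + B(d,d), d = z1 - z0; sum over p, r with Cauchy-Schwarz; sum |d|^2 <= 2 gap by (*), sum |z0|^2 = qc H.
4. e_compare: |z0|^2 <= 2|z1|^2 + 2|d|^2, sum |d|^2 <= 2 gap.
5. kf_q_le: per component F(y) = |cosh y a + sinh y sg|^2 with sg = s/(lam p - lam r), y = (psi(lam p)-psi(lam r))/2 lies between 0 and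
   w = (lam p - lam r)/2 because 0 <= psi' <= 1; F(y) = al cosh 2y + be + ga sinh 2y with al = (|a|^2+|sg|^2)/2 >= |ga|, ga = Re(a star sg):
   F = ((al+ga)/2) e^{2y} + ((al-ga)/2) e^{-2y} + be is convex, so F(y) <= max(F(0),F(w)) <= F(0) + F(w). If lam p = lam r:
   |a + psi' s/2|^2 <= max(|a|^2, |a+s/2|^2) (convex in psi' in [0,1]).
-/

namespace H80HM

open Matrix MeasureTheory Set
open scoped ComplexOrder

/-- real quadratic form -/
private def Pi1_P (c : ℝ × ℝ × ℝ) (x y : ℝ) : ℝ :=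
  c.1 * x ^ 2 + 2 * c.2.1 * (x * y) + c.2.2 * y ^ 2

/-- its value on a pair of complex numbers -/
private def Pi1_Q (c : ℝ × ℝ × ℝ) (z w : ℂ) : ℝ := Pi1_P c z.re w.re + Pi1_P c z.im w.im

private lemma Pi1_re (z w : ℂ) : (z * star w).re = z.re * w.re + z.im * w.im := by
  simp [Complex.mul_re]

private lemma Pi1_P_nonneg {c : ℝ × ℝ × ℝ} (hc : Psd c) (x y : ℝ) : 0 ≤ Pi1_P c x y := by
  obtain ⟨h1, h2, h3⟩ := hc
  unfold Pi1_P
  rcases h1.eq_or_lt with h | h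
  · have h4 : c.2.1 = 0 := by
      rw [← h, zero_mul] at h3
      exact pow_eq_zero_iff (two_ne_zero) |>.1 (le_antisymm h3 (sq_nonneg _))
    rw [← h, h4]
    have := mul_nonneg h2 (sq_nonneg y)
    linarith
  · have h5 : c.1 * (c.1 * x ^ 2 + 2 * c.2.1 * (x * y) + c.2.2 * y ^ 2) =
        (c.1 * x + c.2.1 * y) ^ 2 + (c.1 * c.2.2 - c.2.1 ^ 2) * y ^ 2 := by ring
    have h6 : 0 ≤ c.1 * (c.1 * x ^ 2 + 2 * c.2.1 * (x * y) + c.2.2 * y ^ 2) := by
      rw [h5]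
      have h7 : 0 ≤ (c.1 * c.2.2 - c.2.1 ^ 2) * y ^ 2 :=
        mul_nonneg (by linarith) (sq_nonneg y)
      have h8 := sq_nonneg (c.1 * x + c.2.1 * y)
      linarith
    exact nonneg_of_mul_nonneg_right h6 h

private lemma Pi1_Q_nonneg {c : ℝ × ℝ × ℝ} (hc : Psd c) (z w : ℂ) : 0 ≤ Pi1_Q c z w :=
  add_nonneg (Pi1_P_nonneg hc _ _) (Pi1_P_nonneg hc _ _)

private lemma Pi1_star {c : ℝ × ℝ × ℝ} (hc : Psd c) {k x0 y0 x1 y1 xh yh : ℝ} (hk : 1 ≤ k)
    (hx : x0 + x1 = 2 * k * xh) (hy : y0 + y1 = 2 * k * yh) :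
    Pi1_P c (x1 - x0) (y1 - y0) ≤ 2 * (Pi1_P c x0 y0 + Pi1_P c x1 y1 - 2 * Pi1_P c xh yh) := by
  have h1 := Pi1_P_nonneg hc xh yh
  have h2 : Pi1_P c (x0 + x1) (y0 + y1) = 4 * k ^ 2 * Pi1_P c xh yh := by
    rw [hx, hy]
    unfold Pi1_P
    ring
  have h3 : Pi1_P c (x0 + x1) (y0 + y1) + Pi1_P c (x1 - x0) (y1 - y0) =
      2 * Pi1_P c x0 y0 + 2 * Pi1_P c x1 y1 := by
    unfold Pi1_P
    ring
  have h4 : Pi1_P c xh yh ≤ k ^ 2 * Pi1_P c xh yh := by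
    have h5 : 1 ≤ k ^ 2 := by nlinarith
    nlinarith
  linarith

private lemma Pi1_qc {m : ℕ} {F : ℝ × ℝ → Mt m} {x : ℝ × ℝ} {Z : ℝ × ℝ → Mt m}
    (hF : ∀ t t', q t t' F x = ∑ p, ∑ r, (Z t p r * star (Z t' p r)).re) (e f : ℝ × ℝ)
    (c : ℝ × ℝ × ℝ) : qc e f c F x = ∑ p, ∑ r, Pi1_Q c (Z e p r) (Z f p r) := by
  unfold qc
  rw [hF, hF, hF]
  simp only [Finset.mul_sum, ← Finset.sum_add_distrib]
  refine Finset.sum_congr rfl fun p _ => Finset.sum_congr rfl fun r _ => ?_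
  simp only [Pi1_re]
  unfold Pi1_Q Pi1_P
  ring

private lemma Pi1_zz_re (psi : ℝ → ℝ) (p r : ℝ) (a s : ℂ) :
    (zz psi p r a s).re = Real.cosh ((psi p - psi r) / 2) * a.re + sh psi p r * s.re := by
  unfold zz
  simp only [Complex.add_re, Complex.re_ofReal_mul]

private lemma Pi1_zz_im (psi : ℝ → ℝ) (p r : ℝ) (a s : ℂ) :
    (zz psi p r a s).im = Real.cosh ((psi p - psi r) / 2) * a.im + sh psi p r * s.im := by
  unfold zz
  simp only [Complex.add_im, Complex.im_ofReal_mul]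

private lemma Pi1_hf_deriv (t : ℝ) : deriv hf t = 1 / 2 := by
  have h : hf = fun t : ℝ => t / 2 := rfl
  rw [h]
  simp

private lemma Pi1_hf_cd : ContDiff ℝ 1 hf := by
  have h : hf = fun t : ℝ => t / 2 := rfl
  rw [h]
  exact contDiff_id.div_const 2

private lemma Pi1_real_key (p r al sg : ℝ) :
    al + (Real.cosh ((id p - id r) / 2) * al + sh id p r * sg) =
      2 * Real.cosh ((p - r) / 4) * (Real.cosh ((hf p - hf r) / 2) * al + sh hf p r * sg) := by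
  have e1 : (hf p - hf r) / 2 = (p - r) / 4 := by unfold hf; ring
  have e2 : (id p - id r) / 2 = 2 * ((p - r) / 4) := by simp only [id]; ring
  unfold sh
  rw [e1, e2]
  by_cases h : p = r
  · subst h
    simp only [sub_self, zero_div, mul_zero, Real.cosh_zero, if_true, Pi1_hf_deriv]
    have : deriv (id : ℝ → ℝ) p = 1 := by simp
    simp only [this]
    ring
  · rw [if_neg h, if_neg h, Real.cosh_two_mul, Real.sinh_two_mul]
    have h1 : p - r ≠ 0 := sub_ne_zero.2 h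
    have h2 := Real.cosh_sq ((p - r) / 4)
    field_simp
    linear_combination (-(al * (p - r))) * h2

private lemma Pi1_key (p r : ℝ) (a s : ℂ) :
    a + zz id p r a s = ((2 * Real.cosh ((p - r) / 4) : ℝ) : ℂ) * zz hf p r a s := by
  apply Complex.ext
  · rw [Complex.add_re, Complex.re_ofReal_mul, Pi1_zz_re, Pi1_zz_re]
    exact Pi1_real_key p r _ _
  · rw [Complex.add_im, Complex.im_ofReal_mul, Pi1_zz_im, Pi1_zz_im]
    exact Pi1_real_key p r _ _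

private lemma Pi1_data {m : ℕ} {H G : ℝ × ℝ → Mt m} {x : ℝ × ℝ} (h : PtD H G x) :
    ∃ (Z0 Z1 Zh : ℝ × ℝ → Mt m) (k : Fin m → Fin m → ℝ),
      (∀ t t', q t t' H x = ∑ p, ∑ r, (Z0 t p r * star (Z0 t' p r)).re) ∧
      (∀ t t', q t t' G x = ∑ p, ∑ r, (Z1 t p r * star (Z1 t' p r)).re) ∧
      (∀ t t', q t t' (Kf hf H G) x = ∑ p, ∑ r, (Zh t p r * star (Zh t' p r)).re) ∧
      (∀ p r, 1 ≤ k p r) ∧
      (∀ t p r, Z0 t p r + Z1 t p r = ((2 * k p r : ℝ) : ℂ) * Zh t p r) := by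
  obtain ⟨Q, lam, a, s, -, -, -, -, -, -, h1, h2, h3, -⟩ := h
  refine ⟨a, fun t => Matrix.of fun p r => zz id (lam p) (lam r) (a t p r) (s t p r),
    fun t => Matrix.of fun p r => zz hf (lam p) (lam r) (a t p r) (s t p r),
    fun p r => Real.cosh ((lam p - lam r) / 4), h1, h2, h3 hf Pi1_hf_cd,
    fun p r => Real.one_le_cosh _, fun t p r => Pi1_key _ _ _ _⟩

private lemma Pi1_Qstar {c : ℝ × ℝ × ℝ} (hc : Psd c) {k : ℝ} {z0 w0 z1 w1 zh wh : ℂ} (hk : 1 ≤ k)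
    (hx : z0 + z1 = ((2 * k : ℝ) : ℂ) * zh) (hy : w0 + w1 = ((2 * k : ℝ) : ℂ) * wh) :
    Pi1_Q c (z1 - z0) (w1 - w0) ≤ 2 * (Pi1_Q c z0 w0 + Pi1_Q c z1 w1 - 2 * Pi1_Q c zh wh) := by
  have hx1 := congrArg Complex.re hx
  have hx2 := congrArg Complex.im hx
  have hy1 := congrArg Complex.re hy
  have hy2 := congrArg Complex.im hy
  rw [Complex.add_re, Complex.re_ofReal_mul] at hx1 hy1
  rw [Complex.add_im, Complex.im_ofReal_mul] at hx2 hy2
  have e1 := Pi1_star hc hk hx1 hy1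
  have e2 := Pi1_star hc hk hx2 hy2
  unfold Pi1_Q
  rw [Complex.sub_re, Complex.sub_re, Complex.sub_im, Complex.sub_im]
  linarith

private lemma Pi1_sum {m : ℕ} {H G : ℝ × ℝ → Mt m} {x : ℝ × ℝ} {Z0 Z1 Zh : ℝ × ℝ → Mt m}
    {k : Fin m → Fin m → ℝ}
    (h1 : ∀ t t', q t t' H x = ∑ p, ∑ r, (Z0 t p r * star (Z0 t' p r)).re)
    (h2 : ∀ t t', q t t' G x = ∑ p, ∑ r, (Z1 t p r * star (Z1 t' p r)).re)
    (h3 : ∀ t t', q t t' (Kf hf H G) x = ∑ p, ∑ r, (Zh t p r * star (Zh t' p r)).re)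
    (h4 : ∀ p r, 1 ≤ k p r)
    (h5 : ∀ t p r, Z0 t p r + Z1 t p r = ((2 * k p r : ℝ) : ℂ) * Zh t p r) (e f : ℝ × ℝ)
    {c : ℝ × ℝ × ℝ} (hc : Psd c) :
    ∑ p, ∑ r, Pi1_Q c (Z1 e p r - Z0 e p r) (Z1 f p r - Z0 f p r) ≤
      2 * (qc e f c H x + qc e f c G x - 2 * qc e f c (Kf hf H G) x) := by
  rw [Pi1_qc h1, Pi1_qc h2, Pi1_qc h3]
  simp only [Finset.mul_sum, ← Finset.sum_add_distrib, ← Finset.sum_sub_distrib]
  refine Finset.sum_le_sum fun p _ => Finset.sum_le_sum fun r _ => ?_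
  exact Pi1_Qstar hc (h4 p r) (h5 e p r) (h5 f p r)

private lemma Pi1_psd1 : Psd (1, 0, 1) := ⟨zero_le_one, zero_le_one, by norm_num⟩

theorem gapc_nonneg {m : ℕ} {H G : ℝ × ℝ → Mt m} {x : ℝ × ℝ} (h : PtD H G x) (e f : ℝ × ℝ)
    {c : ℝ × ℝ × ℝ} (hc : Psd c) :
    0 ≤ qc e f c H x + qc e f c G x - 2 * qc e f c (Kf hf H G) x := by
  obtain ⟨Z0, Z1, Zh, k, h1, h2, h3, h4, h5⟩ := Pi1_data h
  have h6 := Pi1_sum h1 h2 h3 h4 h5 e f hc
  have h7 : 0 ≤ ∑ p, ∑ r, Pi1_Q c (Z1 e p r - Z0 e p r) (Z1 f p r - Z0 f p r) :=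
    Finset.sum_nonneg fun p _ => Finset.sum_nonneg fun r _ => Pi1_Q_nonneg hc _ _
  linarith

theorem gap_nonneg {m : ℕ} {H G : ℝ × ℝ → Mt m} {x : ℝ × ℝ} (h : PtD H G x)
    (e f : ℝ × ℝ) : 0 ≤ gap e f H G x :=
  gapc_nonneg h e f Pi1_psd1

/-- the polar form of the form `(p, r, -p)` on pairs of reals -/
private lemma Pi1_B (p r x y u v : ℝ) (hpr : p ^ 2 + r ^ 2 = 1) :
    (p * x * u + r * (x * v + y * u) - p * y * v) ^ 2 ≤ (x ^ 2 + y ^ 2) * (u ^ 2 + v ^ 2) := by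
  have h : (x ^ 2 + y ^ 2) * (u ^ 2 + v ^ 2) - (p * x * u + r * (x * v + y * u) - p * y * v) ^ 2 =
      (p * (x * v + y * u) - r * (x * u - y * v)) ^ 2 +
      (1 - (p ^ 2 + r ^ 2)) * ((x * v + y * u) ^ 2 + (x * u - y * v) ^ 2) := by ring
  rw [hpr, sub_self, zero_mul, add_zero] at h
  have := sq_nonneg (p * (x * v + y * u) - r * (x * u - y * v))
  linarith

private lemma Pi1_comp (p r : ℝ) (hpr : p ^ 2 + r ^ 2 = 1) (z0 w0 z1 w1 : ℂ) :
    |Pi1_Q (p, r, -p) z1 w1 - Pi1_Q (p, r, -p) z0 w0| ≤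
      2 * (Real.sqrt (Pi1_Q (1, 0, 1) z0 w0) * Real.sqrt (Pi1_Q (1, 0, 1) (z1 - z0) (w1 - w0))) +
        Pi1_Q (1, 0, 1) (z1 - z0) (w1 - w0) := by
  have gen : ∀ x y u v x' y' u' v' : ℝ,
      |(p * x * u + r * (x * v + y * u) - p * y * v) +
        (p * x' * u' + r * (x' * v' + y' * u') - p * y' * v')| ≤
      Real.sqrt ((x ^ 2 + y ^ 2) + (x' ^ 2 + y' ^ 2)) *
        Real.sqrt ((u ^ 2 + v ^ 2) + (u' ^ 2 + v' ^ 2)) := by
    intro x y u v x' y' u' v'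
    rw [← Real.sqrt_mul (by positivity)]
    apply Real.le_sqrt_of_sq_le
    rw [sq_abs]
    have b1 := Pi1_B p r x y u v hpr
    have b2 := Pi1_B p r x' y' u' v' hpr
    set B := p * x * u + r * (x * v + y * u) - p * y * v with hB
    set B' := p * x' * u' + r * (x' * v' + y' * u') - p * y' * v' with hB'
    have n1 : 0 ≤ x ^ 2 + y ^ 2 := by positivity
    have n2 : 0 ≤ x' ^ 2 + y' ^ 2 := by positivity
    have n3 : 0 ≤ u ^ 2 + v ^ 2 := by positivity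
    have n4 : 0 ≤ u' ^ 2 + v' ^ 2 := by positivity
    generalize x ^ 2 + y ^ 2 = a at *
    generalize x' ^ 2 + y' ^ 2 = a' at *
    generalize u ^ 2 + v ^ 2 = b at *
    generalize u' ^ 2 + v' ^ 2 = b' at *
    have b3 : (2 * B * B') ^ 2 ≤ (a * b' + a' * b) ^ 2 := by
      have : B ^ 2 * B' ^ 2 ≤ (a * b) * (a' * b') :=
        mul_le_mul b1 b2 (sq_nonneg _) (by positivity)
      nlinarith [sq_nonneg (a * b' - a' * b)]
    have b4 : 2 * B * B' ≤ a * b' + a' * b :=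
      le_of_abs_le (by
        have h5 : 0 ≤ a * b' + a' * b := by positivity
        have := sq_le_sq.1 b3
        rwa [abs_of_nonneg h5] at this)
    nlinarith
  have hN : ∀ z w : ℂ, Pi1_Q (1, 0, 1) z w = (z.re ^ 2 + w.re ^ 2) + (z.im ^ 2 + w.im ^ 2) := by
    intro z w
    unfold Pi1_Q Pi1_P
    ring
  have g1 := gen z0.re w0.re (z1 - z0).re (w1 - w0).re z0.im w0.im (z1 - z0).im (w1 - w0).im
  have g2 := gen (z1 - z0).re (w1 - w0).re (z1 - z0).re (w1 - w0).re (z1 - z0).im (w1 - w0).im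
    (z1 - z0).im (w1 - w0).im
  rw [← hN, ← hN] at g1
  rw [← hN, Real.mul_self_sqrt (Pi1_Q_nonneg Pi1_psd1 _ _)] at g2
  have e : Pi1_Q (p, r, -p) z1 w1 - Pi1_Q (p, r, -p) z0 w0 =
      2 * ((p * z0.re * (z1 - z0).re + r * (z0.re * (w1 - w0).re + w0.re * (z1 - z0).re) -
          p * w0.re * (w1 - w0).re) +
        (p * z0.im * (z1 - z0).im + r * (z0.im * (w1 - w0).im + w0.im * (z1 - z0).im) -
          p * w0.im * (w1 - w0).im)) +
      ((p * (z1 - z0).re * (z1 - z0).re + r * ((z1 - z0).re * (w1 - w0).re +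
          (w1 - w0).re * (z1 - z0).re) - p * (w1 - w0).re * (w1 - w0).re) +
        (p * (z1 - z0).im * (z1 - z0).im + r * ((z1 - z0).im * (w1 - w0).im +
          (w1 - w0).im * (z1 - z0).im) - p * (w1 - w0).im * (w1 - w0).im)) := by
    simp only [Complex.sub_re, Complex.sub_im]
    unfold Pi1_Q Pi1_P
    ring
  rw [e]
  refine (abs_add_le _ _).trans (add_le_add ?_ g2)
  rw [abs_mul, abs_two]
  exact mul_le_mul_of_nonneg_left g1 zero_le_two

theorem q_ck {m : ℕ} {H G : ℝ × ℝ → Mt m} {x : ℝ × ℝ} (h : PtD H G x) (e f : ℝ × ℝ)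
    {p r : ℝ} (hpr : p ^ 2 + r ^ 2 = 1) :
    |qc e f (p, r, -p) G x - qc e f (p, r, -p) H x| ≤
      2 * Real.sqrt (2 * gap e f H G x) * Real.sqrt (qc e f (1, 0, 1) H x) +
        2 * gap e f H G x := by
  obtain ⟨Z0, Z1, Zh, k, h1, h2, h3, h4, h5⟩ := Pi1_data h
  have h6 := Pi1_sum h1 h2 h3 h4 h5 e f Pi1_psd1
  have hg : qc e f (1, 0, 1) H x + qc e f (1, 0, 1) G x - 2 * qc e f (1, 0, 1) (Kf hf H G) x =
      gap e f H G x := rfl
  rw [hg] at h6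
  rw [Pi1_qc h1, Pi1_qc h2, Pi1_qc h1]
  simp only [← Fintype.sum_prod_type'] at h6 ⊢
  rw [← Finset.sum_sub_distrib]
  refine (Finset.abs_sum_le_sum_abs _ _).trans ?_
  refine (Finset.sum_le_sum fun i _ => Pi1_comp p r hpr (Z0 e i.1 i.2) (Z0 f i.1 i.2)
    (Z1 e i.1 i.2) (Z1 f i.1 i.2)).trans ?_
  rw [Finset.sum_add_distrib, ← Finset.mul_sum]
  refine add_le_add ?_ h6
  have h7 := Real.sum_mul_le_sqrt_mul_sqrt (Finset.univ : Finset (Fin m × Fin m))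
    (fun i => Real.sqrt (Pi1_Q (1, 0, 1) (Z0 e i.1 i.2) (Z0 f i.1 i.2)))
    (fun i => Real.sqrt (Pi1_Q (1, 0, 1) (Z1 e i.1 i.2 - Z0 e i.1 i.2)
      (Z1 f i.1 i.2 - Z0 f i.1 i.2)))
  simp only [Real.sq_sqrt (Pi1_Q_nonneg Pi1_psd1 _ _)] at h7
  rw [mul_assoc]
  refine mul_le_mul_of_nonneg_left (h7.trans ?_) zero_le_two
  rw [mul_comm]
  exact mul_le_mul_of_nonneg_right (Real.sqrt_le_sqrt h6) (Real.sqrt_nonneg _)

theorem e_compare {m : ℕ} {H G : ℝ × ℝ → Mt m} {x : ℝ × ℝ} (h : PtD H G x)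
    (e f : ℝ × ℝ) : qc e f (1, 0, 1) H x ≤ 2 * qc e f (1, 0, 1) G x + 4 * gap e f H G x := by
  obtain ⟨Z0, Z1, Zh, k, h1, h2, h3, h4, h5⟩ := Pi1_data h
  have h6 := Pi1_sum h1 h2 h3 h4 h5 e f Pi1_psd1
  have hg : qc e f (1, 0, 1) H x + qc e f (1, 0, 1) G x - 2 * qc e f (1, 0, 1) (Kf hf H G) x =
      gap e f H G x := rfl
  rw [hg] at h6
  rw [Pi1_qc h1, Pi1_qc h2]
  have h7 : ∑ p, ∑ r, Pi1_Q (1, 0, 1) (Z0 e p r) (Z0 f p r) ≤
      2 * (∑ p, ∑ r, Pi1_Q (1, 0, 1) (Z1 e p r) (Z1 f p r)) +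
      2 * (∑ p, ∑ r, Pi1_Q (1, 0, 1) (Z1 e p r - Z0 e p r) (Z1 f p r - Z0 f p r)) := by
    simp only [Finset.mul_sum, ← Finset.sum_add_distrib]
    refine Finset.sum_le_sum fun p _ => Finset.sum_le_sum fun r _ => ?_
    have h8 := Pi1_Q_nonneg Pi1_psd1 (2 * Z1 e p r - Z0 e p r) (2 * Z1 f p r - Z0 f p r)
    have h9 : Pi1_Q (1, 0, 1) (2 * Z1 e p r - Z0 e p r) (2 * Z1 f p r - Z0 f p r) =
        2 * Pi1_Q (1, 0, 1) (Z1 e p r) (Z1 f p r) +
        2 * Pi1_Q (1, 0, 1) (Z1 e p r - Z0 e p r) (Z1 f p r - Z0 f p r) -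
        Pi1_Q (1, 0, 1) (Z0 e p r) (Z0 f p r) := by
      unfold Pi1_Q Pi1_P
      simp only [Complex.sub_re, Complex.sub_im, Complex.mul_re, Complex.mul_im, Complex.re_ofNat,
        Complex.im_ofNat]
      ring
    linarith
  linarith

private lemma Pi1_exp (th x : ℝ) (h0 : 0 ≤ th) (h1 : th ≤ 1) :
    Real.exp (th * x) ≤ (1 - th) + th * Real.exp x := by
  have h := convexOn_exp.2 (Set.mem_univ (0 : ℝ)) (Set.mem_univ x) (sub_nonneg.2 h1) h0 (by ring)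
  simp only [smul_eq_mul, mul_zero, zero_add, Real.exp_zero, mul_one] at h
  exact h

private lemma Pi1_F (th w al sg : ℝ) (h0 : 0 ≤ th) (h1 : th ≤ 1) :
    (Real.cosh (th * w) * al + Real.sinh (th * w) * sg) ^ 2 ≤
      (1 - th) * al ^ 2 + th * (Real.cosh w * al + Real.sinh w * sg) ^ 2 := by
  have e : ∀ y : ℝ, (Real.cosh y * al + Real.sinh y * sg) ^ 2 =
      (Real.exp (2 * y) * (al + sg) ^ 2 + Real.exp (-(2 * y)) * (al - sg) ^ 2 +
        2 * (al ^ 2 - sg ^ 2)) / 4 := by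
    intro y
    have e1 : Real.exp (2 * y) = (Real.cosh y + Real.sinh y) ^ 2 := by
      rw [Real.cosh_add_sinh, ← Real.exp_nat_mul]
      norm_num
    have e2 : Real.exp (-(2 * y)) = (Real.cosh y - Real.sinh y) ^ 2 := by
      rw [Real.cosh_sub_sinh, ← Real.exp_nat_mul]
      norm_num
    have e3 := Real.cosh_sq y
    rw [e1, e2]
    nlinarith [e3]
  rw [e, e]
  have a1 := Pi1_exp th (2 * w) h0 h1
  have a2 := Pi1_exp th (-(2 * w)) h0 h1
  have b1 : 2 * (th * w) = th * (2 * w) := by ring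
  have b2 : -(2 * (th * w)) = th * (-(2 * w)) := by ring
  rw [b2, b1]
  have c1 := mul_le_mul_of_nonneg_right a1 (sq_nonneg (al + sg))
  have c2 := mul_le_mul_of_nonneg_right a2 (sq_nonneg (al - sg))
  nlinarith [c1, c2]

private lemma Pi1_conv {psi : ℝ → ℝ} (hc : ContDiff ℝ 1 psi) (h0 : ∀ t, 0 ≤ deriv psi t)
    (h1 : ∀ t, deriv psi t ≤ 1) (p r : ℝ) : ∃ th : ℝ, 0 ≤ th ∧ th ≤ 1 ∧ ∀ al sg : ℝ,
      (Real.cosh ((psi p - psi r) / 2) * al + sh psi p r * sg) ^ 2 ≤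
        (1 - th) * al ^ 2 + th * (Real.cosh ((id p - id r) / 2) * al + sh id p r * sg) ^ 2 := by
  by_cases h : p = r
  · subst h
    refine ⟨deriv psi p, h0 p, h1 p, fun al sg => ?_⟩
    have hid : deriv (id : ℝ → ℝ) p = 1 := by simp
    unfold sh
    simp only [sub_self, zero_div, Real.cosh_zero, if_true, hid]
    have e1 := h0 p
    have e2 := h1 p
    have e3 : (1 - deriv psi p) * al ^ 2 + deriv psi p * (1 * al + 1 / 2 * sg) ^ 2 -
        (1 * al + deriv psi p / 2 * sg) ^ 2 = deriv psi p * (1 - deriv psi p) * (sg / 2) ^ 2 := by ring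
    have e4 : 0 ≤ deriv psi p * (1 - deriv psi p) * (sg / 2) ^ 2 :=
      mul_nonneg (mul_nonneg e1 (by linarith)) (sq_nonneg _)
    linarith
  · have hmv : ∃ th, 0 ≤ th ∧ th ≤ 1 ∧ psi p - psi r = th * (p - r) := by
      have hd : Differentiable ℝ psi := hc.differentiable one_ne_zero
      rcases lt_or_gt_of_ne h with hlt | hlt
      · obtain ⟨c, -, hc2⟩ := exists_deriv_eq_slope psi hlt hd.continuous.continuousOn
          hd.differentiableOn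
        refine ⟨deriv psi c, h0 c, h1 c, ?_⟩
        have : r - p ≠ 0 := (sub_pos.2 hlt).ne'
        rw [hc2]
        field_simp
        ring
      · obtain ⟨c, -, hc2⟩ := exists_deriv_eq_slope psi hlt hd.continuous.continuousOn
          hd.differentiableOn
        refine ⟨deriv psi c, h0 c, h1 c, ?_⟩
        have : p - r ≠ 0 := (sub_pos.2 hlt).ne'
        rw [hc2]
        field_simp
    obtain ⟨th, t0, t1, ht⟩ := hmv
    refine ⟨th, t0, t1, fun al sg => ?_⟩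
    have e1 : (psi p - psi r) / 2 = th * ((p - r) / 2) := by rw [ht]; ring
    have e2 : (id p - id r) / 2 = (p - r) / 2 := rfl
    unfold sh
    rw [if_neg h, if_neg h, e1, e2]
    have := Pi1_F th ((p - r) / 2) al (sg / (p - r)) t0 t1
    have r1 : Real.sinh (th * ((p - r) / 2)) * (sg / (p - r)) =
        Real.sinh (th * ((p - r) / 2)) / (p - r) * sg := by ring
    have r2 : Real.sinh ((p - r) / 2) * (sg / (p - r)) =
        Real.sinh ((p - r) / 2) / (p - r) * sg := by ring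
    rw [r1, r2] at this
    exact this

theorem kf_q_le {m : ℕ} {H G : ℝ × ℝ → Mt m} {x : ℝ × ℝ} (h : PtD H G x) {psi : ℝ → ℝ}
    (hc : ContDiff ℝ 1 psi) (h0 : ∀ t, 0 ≤ deriv psi t) (h1 : ∀ t, deriv psi t ≤ 1)
    (t : ℝ × ℝ) : q t t (Kf psi H G) x ≤ q t t H x + q t t G x := by
  obtain ⟨Q, lam, a, s, -, -, -, -, -, -, e1, e2, e3, -⟩ := h
  rw [e1, e2, e3 psi hc]
  simp only [← Finset.sum_add_distrib]
  refine Finset.sum_le_sum fun p _ => Finset.sum_le_sum fun r _ => ?_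
  obtain ⟨th, t0, t1, ht⟩ := Pi1_conv hc h0 h1 (lam p) (lam r)
  simp only [Pi1_re, Pi1_zz_re, Pi1_zz_im]
  have f1 := ht (a t p r).re (s t p r).re
  have f2 := ht (a t p r).im (s t p r).im
  set X1 := Real.cosh ((id (lam p) - id (lam r)) / 2) * (a t p r).re + sh id (lam p) (lam r) * (s t p r).re
  set X2 := Real.cosh ((id (lam p) - id (lam r)) / 2) * (a t p r).im + sh id (lam p) (lam r) * (s t p r).im
  have g1 : (1 - th) * (a t p r).re ^ 2 ≤ (a t p r).re ^ 2 := by nlinarith [sq_nonneg (a t p r).re]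
  have g2 : (1 - th) * (a t p r).im ^ 2 ≤ (a t p r).im ^ 2 := by nlinarith [sq_nonneg (a t p r).im]
  have g3 : th * X1 ^ 2 ≤ X1 ^ 2 := by nlinarith [sq_nonneg X1]
  have g4 : th * X2 ^ 2 ≤ X2 ^ 2 := by nlinarith [sq_nonneg X2]
  simp only [← pow_two]
  linarith

theorem q_ptd_nonneg {m : ℕ} {H G : ℝ × ℝ → Mt m} {x : ℝ × ℝ} (h : PtD H G x) {psi : ℝ → ℝ}
    (hc : ContDiff ℝ 1 psi) (t : ℝ × ℝ) : 0 ≤ q t t (Kf psi H G) x := by
  obtain ⟨Q, lam, a, s, -, -, -, -, -, -, e1, e2, e3, -⟩ := h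
  rw [e3 psi hc]
  refine Finset.sum_nonneg fun p _ => Finset.sum_nonneg fun r _ => ?_
  rw [Pi1_re]
  exact add_nonneg (mul_self_nonneg _) (mul_self_nonneg _)

end H80HM
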