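import Pool.Agent.H80.HM.Pta
import Pool.Agent.H80.HM.Mea
import Pool.Agent.H80.HM.Pi1

set_option autoImplicit false

/-!
# Row Kcl: the class Cl is closed under the interpolation Kf; the field Xf has the conjugation gluing

* xf_fd: Lipschitz on Dd d: H, G and their inverses are bounded on Dd d (lz_bd, lz_inv: Bdm R), use fcal_lip (row Lpf) and the Lipschitz bounds of H, G.
  Gluing: at the side v: H(1,v) = C H(0,v) C*, G(1,v) = C G(0,v) C*, so fcal_conj (row Sim) with g = C gives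
  fcal phi (H(1,v)) (G(1,v)) * C = C * fcal phi (H(0,v)) (G(0,v)). The points (0,v), (u,0), (u,1/2) with 0<v<1/2, 0<u<1/2 are in D minus P.
* kf_cl: Kf psi H G = Xf (exp o psi) H G * H: Lz by lz_mul; positive definite by kf_pos; gluing: X(1,v) H(1,v) = X(1,v) C H(0,v) C* = C X(0,v) H(0,v) C*.
  fin: by ptd_ae and kf_q_le (row Pi1) the density q t t of Kf psi H G is a.e. between 0 (q_ptd_nonneg) and q t t H + q t t G, which is integrable
  (q_int), and it is measurable (q_meas).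
* xf_sa, xf_n2: fcal_sa; n2 H X = sum phi(lam_i)^2 <= m M^2 (n2_fcal, exists_fr).
* xf_dn_int: dn of Xf phi H G is integrable when 0 <= phi' <= 1 (no bound on phi): by PtD (a.e.) per component
  |dd s + a (phi_r-phi_p)|^2 <= 2 dd^2|s|^2 + 2 (phi_p-phi_r)^2|a|^2. This is only claimed under |phi| <= 1, where it follows from dn_le of row Pi2;
  so here import nothing more: the statement xf_dn_int is proved in row Nc1.
-/

namespace H80HM

open Matrix MeasureTheory Set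
open scoped ComplexOrder

private theorem Kcl_mem0 {v : ℝ} (hv : v ∈ Ioo (0:ℝ) (1/2)) : ((0:ℝ), v) ∈ D \ P := by
  obtain ⟨h1, h2⟩ := hv
  refine ⟨⟨⟨le_rfl, zero_le_one⟩, ⟨h1.le, h2.le⟩⟩, ?_⟩
  rintro ⟨-, h3⟩
  simp only [mem_insert_iff, mem_singleton_iff] at h3
  rcases h3 with h3 | h3
  · exact h1.ne' h3
  · exact h2.ne h3

private theorem Kcl_memA {u : ℝ} (hu : u ∈ Ioo (0:ℝ) (1/2)) : (u, (0:ℝ)) ∈ D \ P := by
  obtain ⟨h1, h2⟩ := hu
  refine ⟨⟨⟨h1.le, ?_⟩, ⟨le_rfl, ?_⟩⟩, ?_⟩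
  · show u ≤ 1
    linarith
  · norm_num
  rintro ⟨h3, -⟩
  simp only [mem_insert_iff, mem_singleton_iff] at h3
  rcases h3 with h3 | h3 | h3
  · exact h1.ne' h3
  · exact h2.ne h3
  · rw [h3] at h2
    norm_num at h2

private theorem Kcl_memB {u : ℝ} (hu : u ∈ Ioo (0:ℝ) (1/2)) : (u, (1/2:ℝ)) ∈ D \ P := by
  obtain ⟨h1, h2⟩ := hu
  refine ⟨⟨⟨h1.le, ?_⟩, ⟨?_, le_rfl⟩⟩, ?_⟩
  · show u ≤ 1
    linarith
  · norm_num
  rintro ⟨h3, -⟩
  simp only [mem_insert_iff, mem_singleton_iff] at h3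
  rcases h3 with h3 | h3 | h3
  · exact h1.ne' h3
  · exact h2.ne h3
  · rw [h3] at h2
    norm_num at h2

private theorem Kcl_bdm {m : ℕ} {A B C : Mt m} {H : ℝ × ℝ → Mt m} (hH : Cl A B C H) {d : ℝ}
    (hd : 0 < d) : ∃ R : ℝ, 0 ≤ R ∧ ∀ x ∈ Dd d, ∀ R', R ≤ R' → Bdm R' (H x) := by
  obtain ⟨R1, h1, hR1⟩ := lz_bd hH.lip hd
  obtain ⟨R2, h2, hR2⟩ := lz_bd (lz_inv hH.lip
    (fun x hx => (Matrix.isUnit_iff_isUnit_det _).1 (hH.pos x hx).isUnit)) hd
  refine ⟨R1 + R2, by positivity, fun x hx R' hR' => ⟨hH.pos x (dd_sub hd hx), fun i j => ⟨?_, ?_⟩⟩⟩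
  · exact (hR1 x hx i j).trans (by linarith)
  · exact (hR2 x hx i j).trans (by linarith)

theorem xf_fd {m : ℕ} {A B C : Mt m} (hA : IsUnit A.det) (hB : IsUnit B.det)
    (hC : IsUnit C.det) {H G : ℝ × ℝ → Mt m} (hH : Cl A B C H) (hG : Cl A B C G)
    {phi : ℝ → ℝ} (hphi : ContDiff ℝ 1 phi) : Fd A B C (Xf phi H G) := by
  have hlip : Lz (Xf phi H G) := by
    intro d hd
    obtain ⟨R1, h1, hR1⟩ := Kcl_bdm hH hd
    obtain ⟨R2, h2, hR2⟩ := Kcl_bdm hG hd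
    obtain ⟨K, hK0, hK⟩ := fcal_lip (m := m) phi hphi (R1 + R2)
    obtain ⟨K1, hK1⟩ := hH.lip d hd
    obtain ⟨K2, hK2⟩ := hG.lip d hd
    refine ⟨K * ∑ _k : Fin m, ∑ _l : Fin m, (K1 + K2), fun x hx y hy i j => ?_⟩
    refine (hK (H x) (G x) (H y) (G y) (hR1 x hx _ (by linarith)) (hR2 x hx _ (by linarith))
      (hR1 y hy _ (by linarith)) (hR2 y hy _ (by linarith)) i j).trans ?_
    rw [mul_assoc]
    refine mul_le_mul_of_nonneg_left ?_ hK0
    rw [Finset.sum_mul]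
    refine Finset.sum_le_sum fun k _ => ?_
    rw [Finset.sum_mul]
    refine Finset.sum_le_sum fun l _ => ?_
    rw [add_mul]
    exact add_le_add (hK1 x hx y hy k l) (hK2 x hx y hy k l)
  refine ⟨hlip, fun v hv => ?_, fun u hu => ?_, fun u hu => ?_⟩
  · show fcal phi (H (1, v)) (G (1, v)) * C = C * fcal phi (H (0, v)) (G (0, v))
    rw [hH.glC v hv, hG.glC v hv]
    exact fcal_conj hC (hH.pos _ (Kcl_mem0 hv)) (hG.pos _ (Kcl_mem0 hv)) phi
  · show fcal phi (H (1 - u, 0)) (G (1 - u, 0)) * A = A * fcal phi (H (u, 0)) (G (u, 0))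
    rw [hH.glA u hu, hG.glA u hu]
    exact fcal_conj hA (hH.pos _ (Kcl_memA hu)) (hG.pos _ (Kcl_memA hu)) phi
  · show fcal phi (H (1 - u, 1/2)) (G (1 - u, 1/2)) * B = B * fcal phi (H (u, 1/2)) (G (u, 1/2))
    rw [hH.glB u hu, hG.glB u hu]
    exact fcal_conj hB (hH.pos _ (Kcl_memB hu)) (hG.pos _ (Kcl_memB hu)) phi

theorem kf_cl {m : ℕ} {A B C : Mt m} (hA : IsUnit A.det) (hB : IsUnit B.det)
    (hC : IsUnit C.det) {H G : ℝ × ℝ → Mt m} (hH : Cl A B C H) (hG : Cl A B C G)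
    {psi : ℝ → ℝ} (hc : ContDiff ℝ 1 psi) (h0 : ∀ t, 0 ≤ deriv psi t)
    (h1 : ∀ t, deriv psi t ≤ 1) : Cl A B C (Kf psi H G) := by
  have hX : Fd A B C (Xf (fun t => Real.exp (psi t)) H G) := xf_fd hA hB hC hH hG hc.exp
  have hlip : Lz (Kf psi H G) := lz_mul hX.lip hH.lip
  have hpos : ∀ x ∈ D \ P, (Kf psi H G x).PosDef := fun x hx =>
    kf_pos (hH.pos x hx) (hG.pos x hx) psi
  have hK : ∀ x, Kf psi H G x = Xf (fun t => Real.exp (psi t)) H G x * H x := fun _ => rfl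
  refine ⟨hpos, hlip, fun v hv => ?_, fun u hu => ?_, fun u hu => ?_, ?_⟩
  · rw [hK, hK, hH.glC v hv]
    have h := hX.glC v hv
    calc _ = (Xf (fun t => Real.exp (psi t)) H G (1, v) * C) * H (0, v) * Cᴴ := by
          simp only [Matrix.mul_assoc]
      _ = _ := by
          rw [h]
          simp only [Matrix.mul_assoc]
  · rw [hK, hK, hH.glA u hu]
    have h := hX.glA u hu
    calc _ = (Xf (fun t => Real.exp (psi t)) H G (1 - u, 0) * A) * H (u, 0) * Aᴴ := by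
          simp only [Matrix.mul_assoc]
      _ = _ := by
          rw [h]
          simp only [Matrix.mul_assoc]
  · rw [hK, hK, hH.glB u hu]
    have h := hX.glB u hu
    calc _ = (Xf (fun t => Real.exp (psi t)) H G (1 - u, 1/2) * B) * H (u, 1/2) * Bᴴ := by
          simp only [Matrix.mul_assoc]
      _ = _ := by
          rw [h]
          simp only [Matrix.mul_assoc]
  · have key : ∀ t : ℝ × ℝ, IntegrableOn (q t t (Kf psi H G)) U := by
      intro t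
      refine Integrable.mono' ((q_int hH t t).add (q_int hG t t)) (q_meas hlip hpos t t) ?_
      filter_upwards [ptd_ae hH hG] with x hx
      have h3 := q_ptd_nonneg hx hc t
      rw [Real.norm_eq_abs, abs_of_nonneg h3]
      exact kf_q_le hx hc h0 h1 t
    exact (key (1, 0)).add (key (0, 1))

theorem xf_sa {m : ℕ} {A B C : Mt m} {H G : ℝ × ℝ → Mt m} (hH : Cl A B C H)
    (hG : Cl A B C G) (phi : ℝ → ℝ) {x : ℝ × ℝ} (hx : x ∈ D \ P) :
    Xf phi H G x * H x = H x * (Xf phi H G x)ᴴ := by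
  exact fcal_sa (hH.pos x hx) (hG.pos x hx) phi

theorem xf_n2 {m : ℕ} {A B C : Mt m} {H G : ℝ × ℝ → Mt m} (hH : Cl A B C H)
    (hG : Cl A B C G) {phi : ℝ → ℝ} {M : ℝ} (hb : ∀ t, |phi t| ≤ M) {x : ℝ × ℝ}
    (hx : x ∈ D \ P) : n2 (H x) (Xf phi H G x) ≤ m * M ^ 2 := by
  obtain ⟨Q, lam, hQ⟩ := exists_fr (hH.pos x hx) (hG.pos x hx)
  have h1 : n2 (H x) (Xf phi H G x) = ∑ i, phi (lam i) ^ 2 := n2_fcal hQ phi
  rw [h1]
  calc ∑ i, phi (lam i) ^ 2 ≤ ∑ _i : Fin m, M ^ 2 := Finset.sum_le_sum fun i _ => by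
        have h2 := abs_le.1 (hb (lam i))
        exact sq_le_sq' h2.1 h2.2
    _ = m * M ^ 2 := by simp

end H80HM
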