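import Pool.Agent.H80.HM.Def4

set_option autoImplicit false

/-!
# Row Kol: groups of unipotent matrices are solvable (Kolchin)

Induction on k for: every group G acting linearly on a complex vector space V of dimension k by unipotent operators (or: a subgroup of the units of Mt k) is solvable.
(1) k > 0: there is v <> 0 fixed by G: take a nonzero G-invariant subspace W of minimal dimension l. G acts irreducibly on W, so the image spans End W (Burnside; see Jhd.lean, whose public lemmas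
  Jhd_.. may be used after importing it, or jh applied to G: N = 1 for an irreducible representation is not needed: it is enough to treat W as r : G -> GL_l with Irg r). All traces are l
  (unipotent), so tr((r g - 1) r h) = tr r(gh) - tr r(h) = 0 for all h, hence tr((r g - 1) M) = 0 for all M and r g = 1. So G fixes W pointwise.
  (Alternative without Burnside: the classical proof for unipotent groups via the vector space spanned by G.)
(2) G acts on V/<v> by unipotent operators; the image G' is solvable by induction. The kernel consists of g with (g - 1) V inside <v>, g v = v: two such elements commute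
  (g = 1 + N, g' = 1 + N', N N' = N' N = 0 because N v = N' v = 0), so it is abelian. G is an extension of G' by an abelian group: solvable (solvable_of_ker_le_range).
In matrices: after conjugation all elements of G are of the form ((1, a), (0, B)), B of size k - 1, Fin k = Fin 1 + Fin (k-1).
-/

namespace H80HM

open Matrix
open scoped commutatorElement

attribute [local instance 100] LieRing.ofAssociativeRing

/-- An endomorphism all of whose powers have trace zero is nilpotent. -/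
private theorem Kol_trace {F V : Type*} [Field F] [CharZero F] [AddCommGroup V] [Module F V]
    [FiniteDimensional F V] (T : Module.End F V)
    (hT : ∀ j : ℕ, 0 < j → LinearMap.trace F V (T ^ j) = 0) : IsNilpotent T := by
  obtain ⟨q, hq, hnd⟩ := Polynomial.exists_eq_pow_rootMultiplicity_mul_and_not_dvd
    T.charpoly T.charpoly_monic.ne_zero (0 : F)
  set n := Polynomial.rootMultiplicity (0 : F) T.charpoly with hn
  rw [Polynomial.C_0, sub_zero] at hq hnd
  have hcop : IsCoprime (Polynomial.X ^ (n + 1) : Polynomial F) q :=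
    (Polynomial.irreducible_X.coprime_iff_not_dvd.mpr hnd).pow_left
  obtain ⟨a, b, hab⟩ := hcop
  obtain ⟨φ, hφ⟩ : ∃ φ : Polynomial F →ₐ[F] Module.End F V, φ = Polynomial.aeval T := ⟨_, rfl⟩
  have hφX : φ Polynomial.X = T := by rw [hφ, Polynomial.aeval_X]
  have hcp : φ (Polynomial.X ^ n * q) = 0 := by
    rw [← hq, hφ]; exact T.aeval_self_charpoly
  obtain ⟨e, he⟩ : ∃ e, e = φ (a * Polynomial.X ^ (n + 1)) := ⟨_, rfl⟩
  have hidem : IsIdempotentElem e := by
    have h1 : e * (1 - e) = 0 := by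
      have h2 : (1 : Module.End F V) - e = φ (b * q) := by
        rw [he, ← map_one φ, ← hab, map_add, add_sub_cancel_left]
      rw [h2, he, ← map_mul]
      have h3 : a * Polynomial.X ^ (n + 1) * (b * q) =
          (a * b * Polynomial.X) * (Polynomial.X ^ n * q) := by ring
      rw [h3, map_mul, hcp, mul_zero]
    have h4 : e * e = e - e * (1 - e) := by rw [mul_sub, mul_one]; abel
    rw [IsIdempotentElem, h4, h1, sub_zero]
  have htr : LinearMap.trace F V e = 0 := by
    have h5 : ∀ p : Polynomial F,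
        LinearMap.trace F V (φ (p * Polynomial.X ^ (n + 1))) = 0 := by
      intro p
      induction p using Polynomial.induction_on' with
      | add p q hp hq => rw [add_mul, map_add, map_add, hp, hq, add_zero]
      | monomial m c =>
        rw [← Polynomial.C_mul_X_pow_eq_monomial, mul_assoc, ← pow_add, ← Polynomial.smul_eq_C_mul,
          map_smul, map_pow, hφX, map_smul, hT _ (by omega), smul_zero]
    rw [he]; exact h5 a
  have he0 : e = 0 := (LinearMap.IsIdempotentElem.trace_eq_zero_iff hidem).mp htr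
  have h6 : φ (b * q) = 1 := by
    have := congrArg φ hab
    rw [map_add, map_one, ← he, he0, zero_add] at this
    exact this
  refine ⟨n, ?_⟩
  have h7 : φ (Polynomial.X ^ n) = T ^ n := by rw [map_pow, hφX]
  have h8 : φ (Polynomial.X ^ n) * φ (b * q) = 0 := by
    rw [← map_mul]
    have h9 : Polynomial.X ^ n * (b * q) = b * (Polynomial.X ^ n * q) := by ring
    rw [h9, map_mul, hcp, mul_zero]
  rw [h6, mul_one, h7] at h8
  exact h8

/-- The span of all `g - 1`, as endomorphisms. -/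
private def Kol_S {k : ℕ} (G : Subgroup (Mt k)ˣ) : Submodule ℂ (Module.End ℂ (Fin k → ℂ)) :=
  Submodule.span ℂ {x | ∃ g ∈ G, x = Matrix.toLin' ((g : (Mt k)ˣ) : Mt k) - 1}

private theorem Kol_mem {k : ℕ} (G : Subgroup (Mt k)ˣ) {g : (Mt k)ˣ} (hg : g ∈ G) :
    Matrix.toLin' ((g : (Mt k)ˣ) : Mt k) - 1 ∈ Kol_S G :=
  Submodule.subset_span ⟨g, hg, rfl⟩

private theorem Kol_mul {k : ℕ} (G : Subgroup (Mt k)ˣ) {x y : Module.End ℂ (Fin k → ℂ)}
    (hx : x ∈ Kol_S G) (hy : y ∈ Kol_S G) : x * y ∈ Kol_S G := by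
  have hx' : x ∈ Submodule.span ℂ {x | ∃ g ∈ G, x = Matrix.toLin' ((g : (Mt k)ˣ) : Mt k) - 1} := hx
  have hy' : y ∈ Submodule.span ℂ {x | ∃ g ∈ G, x = Matrix.toLin' ((g : (Mt k)ˣ) : Mt k) - 1} := hy
  induction hx' using Submodule.span_induction with
  | mem x hx1 =>
    obtain ⟨g, hg, rfl⟩ := hx1
    clear hx
    induction hy' using Submodule.span_induction with
    | mem y hy1 =>
      obtain ⟨g', hg', rfl⟩ := hy1
      have e1 : (Matrix.toLin' ((g : (Mt k)ˣ) : Mt k) - 1) *
          (Matrix.toLin' ((g' : (Mt k)ˣ) : Mt k) - 1) =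
          (Matrix.toLin' ((g * g' : (Mt k)ˣ) : Mt k) - 1) -
          (Matrix.toLin' ((g : (Mt k)ˣ) : Mt k) - 1) -
          (Matrix.toLin' ((g' : (Mt k)ˣ) : Mt k) - 1) := by
        rw [Units.val_mul, Matrix.toLin'_mul, ← Module.End.mul_eq_comp, sub_mul, mul_sub, one_mul,
          mul_one]
        abel
      rw [e1]
      exact Submodule.sub_mem _ (Submodule.sub_mem _ (Kol_mem G (G.mul_mem hg hg'))
        (Kol_mem G hg)) (Kol_mem G hg')
    | zero => rw [mul_zero]; exact Submodule.zero_mem _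
    | add u v _ _ hu hv =>
      rw [mul_add]
      exact Submodule.add_mem _ (hu ‹_›) (hv ‹_›)
    | smul c u _ hu =>
      rw [mul_smul_comm]
      exact Submodule.smul_mem _ _ (hu ‹_›)
  | zero => rw [zero_mul]; exact Submodule.zero_mem _
  | add u v hu1 hv1 hu hv =>
    rw [add_mul]
    exact Submodule.add_mem _ (hu hu1) (hv hv1)
  | smul c u hu1 hu =>
    rw [smul_mul_assoc]
    exact Submodule.smul_mem _ _ (hu hu1)

private theorem Kol_tr {k : ℕ} (G : Subgroup (Mt k)ˣ)
    (h : ∀ g ∈ G, IsNilpotent (((g : (Mt k)ˣ) : Mt k) - 1)) {x : Module.End ℂ (Fin k → ℂ)}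
    (hx : x ∈ Kol_S G) : LinearMap.trace ℂ _ x = 0 := by
  unfold Kol_S at hx
  induction hx using Submodule.span_induction with
  | mem x hx1 =>
    obtain ⟨g, hg, rfl⟩ := hx1
    have h1 := h g hg
    have h2 : IsNilpotent (Matrix.toLin' ((g : (Mt k)ˣ) : Mt k) - 1) := by
      have h3 := h1.map (Matrix.toLinAlgEquiv' : Mt k ≃ₐ[ℂ] _)
      rw [map_sub, map_one] at h3
      exact h3
    exact (LinearMap.isNilpotent_trace_of_isNilpotent h2).eq_zero
  | zero => exact map_zero _
  | add u v _ _ hu hv => rw [map_add, hu, hv, add_zero]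
  | smul c u _ hu => rw [map_smul, hu, smul_zero]

private theorem Kol_nil {k : ℕ} (G : Subgroup (Mt k)ˣ)
    (h : ∀ g ∈ G, IsNilpotent (((g : (Mt k)ˣ) : Mt k) - 1)) {x : Module.End ℂ (Fin k → ℂ)}
    (hx : x ∈ Kol_S G) : IsNilpotent x := by
  apply Kol_trace
  have hp : ∀ j : ℕ, x ^ (j + 1) ∈ Kol_S G := by
    intro j
    induction j with
    | zero => simpa using hx
    | succ j ih => rw [pow_succ]; exact Kol_mul G ih hx
  intro j hj
  obtain ⟨i, rfl⟩ : ∃ i, j = i + 1 := ⟨j - 1, by omega⟩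
  exact Kol_tr G h (hp i)

/-- a flag on which all `g - 1` act nilpotently -/
private theorem Kol_flag {k : ℕ} (G : Subgroup (Mt k)ˣ)
    (h : ∀ g ∈ G, IsNilpotent (((g : (Mt k)ˣ) : Mt k) - 1)) :
    ∃ (N : ℕ) (V : ℕ → Submodule ℂ (Fin k → ℂ)), V 0 = ⊤ ∧ V (N + 1) = ⊥ ∧
      ∀ j, ∀ g ∈ G, ∀ v ∈ V j, ((g : (Mt k)ˣ) : Mt k) *ᵥ v - v ∈ V (j + 1) := by
  let L : LieSubalgebra ℂ (Module.End ℂ (Fin k → ℂ)) :=
    { Kol_S G with
      lie_mem' := by
        intro x y hx hy
        show x * y - y * x ∈ Kol_S G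
        exact Submodule.sub_mem _ (Kol_mul G hx hy) (Kol_mul G hy hx) }
  have hL : ∀ x, x ∈ L ↔ x ∈ Kol_S G := fun x => Iff.rfl
  have hnil : LieModule.IsNilpotent L (Fin k → ℂ) := by
    rw [LieModule.isNilpotent_iff_forall' (R := ℂ)]
    intro x
    have hx : (x : Module.End ℂ (Fin k → ℂ)) ∈ Kol_S G := x.2
    have h1 := Kol_nil G h hx
    exact h1
  rw [LieModule.isNilpotent_iff ℂ] at hnil
  obtain ⟨N, hN⟩ := hnil
  refine ⟨N, fun j => (LieModule.lowerCentralSeries ℂ L (Fin k → ℂ) j).toSubmodule, ?_, ?_, ?_⟩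
  · simp
  · have h2 : LieModule.lowerCentralSeries ℂ L (Fin k → ℂ) (N + 1) = ⊥ := by
      rw [eq_bot_iff, ← hN]
      exact LieModule.antitone_lowerCentralSeries ℂ L (Fin k → ℂ) (Nat.le_succ N)
    show (LieModule.lowerCentralSeries ℂ L (Fin k → ℂ) (N + 1)).toSubmodule = ⊥
    rw [h2]
    simp
  · intro j g hg v hv
    have hx : Matrix.toLin' ((g : (Mt k)ˣ) : Mt k) - 1 ∈ L := Kol_mem G hg
    have h3 : ⁅(⟨_, hx⟩ : L), v⁆ ∈ LieModule.lowerCentralSeries ℂ L (Fin k → ℂ) (j + 1) := by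
      rw [LieModule.lowerCentralSeries_succ]
      exact LieSubmodule.lie_mem_lie (LieSubmodule.mem_top _) hv
    have h4 : ⁅(⟨_, hx⟩ : L), v⁆ = ((g : (Mt k)ˣ) : Mt k) *ᵥ v - v := by
      show (Matrix.toLin' ((g : (Mt k)ˣ) : Mt k) - 1) v = _
      rw [LinearMap.sub_apply, Matrix.toLin'_apply]
      rfl
    rw [h4] at h3
    exact h3

theorem kolchin {k : ℕ} (G : Subgroup (Mt k)ˣ)
    (h : ∀ g ∈ G, IsNilpotent (((g : (Mt k)ˣ) : Mt k) - 1)) : IsSolvable G := by
  obtain ⟨N, V, hV0, hVN, hV⟩ := Kol_flag G h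
  let K : ℕ → Subgroup G := fun j =>
    { carrier := {g | ∀ v, ((g : (Mt k)ˣ) : Mt k) *ᵥ v - v ∈ V j}
      mul_mem' := by
        intro a b ha hb v
        have e1 : (((a * b : G) : (Mt k)ˣ) : Mt k) *ᵥ v - v =
            (((a : (Mt k)ˣ) : Mt k) *ᵥ (((b : (Mt k)ˣ) : Mt k) *ᵥ v) -
              ((b : (Mt k)ˣ) : Mt k) *ᵥ v) + (((b : (Mt k)ˣ) : Mt k) *ᵥ v - v) := by
          rw [Subgroup.coe_mul, Units.val_mul, Matrix.mulVec_mulVec]
          abel
        rw [e1]
        exact Submodule.add_mem _ (ha _) (hb _)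
      one_mem' := by
        intro v
        rw [Subgroup.coe_one, Units.val_one, Matrix.one_mulVec, sub_self]
        exact Submodule.zero_mem _
      inv_mem' := by
        intro a ha v
        have e1 : (((a⁻¹ : G) : (Mt k)ˣ) : Mt k) *ᵥ v - v =
            -(((a : (Mt k)ˣ) : Mt k) *ᵥ ((((a⁻¹ : G) : (Mt k)ˣ) : Mt k) *ᵥ v) -
              (((a⁻¹ : G) : (Mt k)ˣ) : Mt k) *ᵥ v) := by
          have e2 : ((a : (Mt k)ˣ) : Mt k) * (((a⁻¹ : G) : (Mt k)ˣ) : Mt k) = 1 := by
            rw [← Units.val_mul, ← Subgroup.coe_mul, mul_inv_cancel, Subgroup.coe_one,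
              Units.val_one]
          rw [Matrix.mulVec_mulVec, e2, Matrix.one_mulVec]
          abel
        rw [e1]
        exact Submodule.neg_mem _ (ha _) }
  have hK : ∀ j (g : G), g ∈ K j ↔ ∀ v, ((g : (Mt k)ˣ) : Mt k) *ᵥ v - v ∈ V j :=
    fun j g => Iff.rfl
  have hcom : ∀ j, ∀ a ∈ K j, ∀ b ∈ K j, ⁅a, b⁆ ∈ K (j + 1) := by
    intro j a ha b hb
    rw [hK] at ha hb ⊢
    intro v
    obtain ⟨A, hA⟩ : ∃ A : Mt k, A = ((a : (Mt k)ˣ) : Mt k) := ⟨_, rfl⟩
    obtain ⟨B, hB⟩ : ∃ B : Mt k, B = ((b : (Mt k)ˣ) : Mt k) := ⟨_, rfl⟩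
    obtain ⟨w, hw⟩ : ∃ w, w = (((a⁻¹ * b⁻¹ : G) : (Mt k)ˣ) : Mt k) *ᵥ v := ⟨_, rfl⟩
    have hv : v = (B * A) *ᵥ w := by
      have e2 : (B * A) * (((a⁻¹ * b⁻¹ : G) : (Mt k)ˣ) : Mt k) = 1 := by
        rw [hA, hB, ← Units.val_mul, ← Subgroup.coe_mul, ← Units.val_mul, ← Subgroup.coe_mul]
        have : b * a * (a⁻¹ * b⁻¹) = 1 := by group
        rw [this, Subgroup.coe_one, Units.val_one]
      rw [hw, Matrix.mulVec_mulVec, e2, Matrix.one_mulVec]
    have e3 : (((⁅a, b⁆ : G) : (Mt k)ˣ) : Mt k) *ᵥ v = (A * B) *ᵥ w := by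
      have e4 : (((⁅a, b⁆ : G) : (Mt k)ˣ) : Mt k) = (A * B) *
          (((a⁻¹ * b⁻¹ : G) : (Mt k)ˣ) : Mt k) := by
        rw [hA, hB, ← Units.val_mul, ← Subgroup.coe_mul, ← Units.val_mul, ← Subgroup.coe_mul]
        have : ⁅a, b⁆ = a * b * (a⁻¹ * b⁻¹) := by
          rw [commutatorElement_def]
          group
        rw [this]
      rw [e4, hw, ← Matrix.mulVec_mulVec]
    have haG : ∀ u ∈ V j, A *ᵥ u - u ∈ V (j + 1) := fun u hu => by
      rw [hA]; exact hV j _ a.2 u hu
    have hbG : ∀ u ∈ V j, B *ᵥ u - u ∈ V (j + 1) := fun u hu => by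
      rw [hB]; exact hV j _ b.2 u hu
    rw [← hA] at ha
    rw [← hB] at hb
    have e5 : (A * B) *ᵥ w - (B * A) *ᵥ w =
        (A *ᵥ (B *ᵥ w - w) - (B *ᵥ w - w)) - (B *ᵥ (A *ᵥ w - w) - (A *ᵥ w - w)) := by
      rw [Matrix.mulVec_sub, Matrix.mulVec_sub, Matrix.mulVec_mulVec, Matrix.mulVec_mulVec]
      abel
    rw [e3]
    nth_rewrite 1 [hv]
    rw [e5]
    exact Submodule.sub_mem _ (haG _ (hb w)) (hbG _ (ha w))
  have hD : ∀ n, derivedSeries G n ≤ K (n + 1) := by
    intro n
    induction n with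
    | zero =>
      intro g _
      rw [hK]
      intro v
      exact hV 0 _ g.2 v (by rw [hV0]; trivial)
    | succ n ih =>
      rw [derivedSeries_succ, Subgroup.commutator_le]
      intro a ha b hb
      exact hcom (n + 1) a (ih ha) b (ih hb)
  refine (Group.isSolvable_def G).2 ⟨N, ?_⟩
  rw [eq_bot_iff]
  intro g hg
  have h1 := hD N hg
  rw [hK, hVN] at h1
  rw [Subgroup.mem_bot]
  apply Subtype.ext
  apply Units.ext
  rw [Subgroup.coe_one, Units.val_one]
  apply Matrix.ext_of_mulVec_single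
  intro i
  have h2 := h1 (Pi.single i 1)
  rw [Submodule.mem_bot, sub_eq_zero] at h2
  rw [h2, Matrix.one_mulVec]

end H80HM
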