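import Pool.Agent.H80.HM.Sim

set_option autoImplicit false

/-!
# Row Lpf: the functional calculus is Lipschitz on bounded sets of pairs of metrics

(fcal_lip_unif is the main statement: constant linear in the Lipschitz constant K1 of phi on [-L, L]; fcal_lip follows.)

Bdm R H: H positive definite, all entries of H and of H^{-1} have modulus at most R.

Proof of fcal_lip. Let (H,G), (H',G') satisfy the bounds, with frames (Q,lam), (Q',lam') (exists_fr). T = G H^{-1} = Q E Q^{-1}, E = diag(exp lam),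
T' = G' H'^{-1} = Q' E' Q'^{-1}. With R0 := Q^{-1} Q':
 fcal phi H G - fcal phi H' G' = Q (Phi R0 - R0 Phi') Q'^{-1}, Phi = diag(phi(lam)), Phi' = diag(phi(lam')), and
 E R0 - R0 E' = Q^{-1} (T - T') Q'.
All lam_i, lam'_j lie in [-L, L] with L depending only on R and m: exp(lam_i) is an eigenvalue of T (entries bounded by m R^2), exp(-lam_i) is an
eigenvalue of T^{-1} = H G^{-1}. On [-L,L] phi has Lipschitz constant K1 (C^1 on a compact interval) and |exp p - exp r| >= exp(-L) |p - r|, so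
 |(Phi R0 - R0 Phi')_ij| = |phi(lam_i) - phi(lam'_j)| |R0_ij| <= K1 e^L |exp lam_i - exp lam'_j| |R0_ij| = K1 e^L |(Q^{-1}(T-T')Q')_ij|.
Entries of Q: sum_j |Q_ij|^2 = H_ii <= R; entries of Q^{-1}: H^{-1} = Q^{-*} Q^{-1}, so sum_i |(Q^{-1})_ij|^2 = (H^{-1})_jj <= R; same for Q'.
So every entry of Q^{-1}(T-T')Q' is at most m^2 R max|(T-T')_kl|, every entry of the difference fcal - fcal' is at most
 m^2 R K1 e^L m^2 R max|T-T'|, and T - T' = (G-G') H^{-1} + G' (H^{-1} - H'^{-1}) = (G-G')H^{-1} + G' H^{-1}(H'-H) H'^{-1}, entries bounded by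
 const(R,m) * sum (|H-H'| + |G-G'|).
-/

set_option autoImplicit false

namespace H80HM

open Matrix MeasureTheory Set
open scoped ComplexOrder

/-- bounded metric with bounded inverse -/
def Bdm {m : ℕ} (R : ℝ) (H : Mt m) : Prop :=
  H.PosDef ∧ ∀ i j, ‖H i j‖ ≤ R ∧ ‖H⁻¹ i j‖ ≤ R

private lemma Lpf_mul {m : ℕ} {A B : Mt m} {a b : ℝ} (hA : ∀ i j, ‖A i j‖ ≤ a)
    (hB : ∀ i j, ‖B i j‖ ≤ b) (i j : Fin m) : ‖(A * B) i j‖ ≤ m * (a * b) := by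
  rw [Matrix.mul_apply]
  calc ‖∑ k, A i k * B k j‖ ≤ ∑ k, ‖A i k * B k j‖ := norm_sum_le _ _
    _ ≤ ∑ _k : Fin m, a * b := by
        apply Finset.sum_le_sum
        intro k _
        rw [norm_mul]
        exact mul_le_mul (hA i k) (hB k j) (norm_nonneg _) ((norm_nonneg _).trans (hA i k))
    _ = m * (a * b) := by
        rw [Finset.sum_const, Finset.card_univ, Fintype.card_fin, nsmul_eq_mul]

private lemma Lpf_herm {m : ℕ} {A : Mt m} {a : ℝ} (hA : ∀ i j, ‖A i j‖ ≤ a) (i j : Fin m) :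
    ‖Aᴴ i j‖ ≤ a := by
  rw [Matrix.conjTranspose_apply, norm_star]
  exact hA j i

private lemma Lpf_row {m : ℕ} {H Q : Mt m} {R : ℝ} (hH : H = Q * Qᴴ)
    (hR : ∀ i j, ‖H i j‖ ≤ R) (i j : Fin m) : ‖Q i j‖ ≤ Real.sqrt R := by
  have h1 : (H i i).re = ∑ k, ‖Q i k‖ ^ 2 := by
    rw [hH, Matrix.mul_apply, Complex.re_sum]
    apply Finset.sum_congr rfl
    intro k _
    rw [Matrix.conjTranspose_apply, ← Complex.normSq_eq_norm_sq, Complex.star_def,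
      Complex.mul_conj]
    simp
  have h2 : ‖Q i j‖ ^ 2 ≤ R := by
    calc ‖Q i j‖ ^ 2 ≤ ∑ k, ‖Q i k‖ ^ 2 :=
          Finset.single_le_sum (f := fun k => ‖Q i k‖ ^ 2) (fun k _ => sq_nonneg _)
            (Finset.mem_univ j)
      _ = (H i i).re := h1.symm
      _ ≤ ‖H i i‖ := Complex.re_le_norm _
      _ ≤ R := hR i i
  have h3 := Real.abs_le_sqrt h2
  rwa [abs_of_nonneg (norm_nonneg _)] at h3

private lemma Lpf_inv {m : ℕ} {H Q : Mt m} (hH : H = Q * Qᴴ) :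
    H⁻¹ = (Q⁻¹)ᴴ * Q⁻¹ := by
  rw [hH, Matrix.mul_inv_rev, Matrix.conjTranspose_nonsing_inv]

private lemma Lpf_col {m : ℕ} {H Q : Mt m} {R : ℝ} (hH : H = Q * Qᴴ)
    (hR : ∀ i j, ‖H⁻¹ i j‖ ≤ R) (i j : Fin m) : ‖Q⁻¹ i j‖ ≤ Real.sqrt R := by
  have h1 : H⁻¹ = (Q⁻¹)ᴴ * ((Q⁻¹)ᴴ)ᴴ := by
    rw [Lpf_inv hH, Matrix.conjTranspose_conjTranspose]
  have h2 := Lpf_row h1 hR j i
  rwa [Matrix.conjTranspose_apply, norm_star] at h2

private lemma Lpf_E {m : ℕ} {H G Q : Mt m} {lam : Fin m → ℝ} (h : FrL H G Q lam) :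
    Q⁻¹ * G * (Q⁻¹)ᴴ = diagonal (fun i => ((Real.exp (lam i) : ℝ) : ℂ)) := by
  obtain ⟨hQ, _, hG⟩ := h
  have e1 : Qᴴ * (Q⁻¹)ᴴ = 1 := by
    rw [← Matrix.conjTranspose_mul, Matrix.nonsing_inv_mul Q hQ, Matrix.conjTranspose_one]
  calc Q⁻¹ * G * (Q⁻¹)ᴴ =
        (Q⁻¹ * Q) * diagonal (fun i => ((Real.exp (lam i) : ℝ) : ℂ)) * (Qᴴ * (Q⁻¹)ᴴ) := by
        rw [hG]
        simp only [Matrix.mul_assoc]
    _ = diagonal (fun i => ((Real.exp (lam i) : ℝ) : ℂ)) := by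
        rw [e1, Matrix.nonsing_inv_mul Q hQ, Matrix.one_mul, Matrix.mul_one]

private lemma Lpf_diag {m : ℕ} (lam : Fin m → ℝ) :
    diagonal (fun i => ((Real.exp (lam i) : ℝ) : ℂ)) *
      diagonal (fun i => ((Real.exp (-lam i) : ℝ) : ℂ)) = (1 : Mt m) := by
  rw [Matrix.diagonal_mul_diagonal, ← Matrix.diagonal_one]
  congr 1
  funext i
  rw [← Complex.ofReal_mul, ← Real.exp_add, add_neg_cancel, Real.exp_zero]
  simp

private lemma Lpf_Ginv {m : ℕ} {H G Q : Mt m} {lam : Fin m → ℝ} (h : FrL H G Q lam) :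
    Qᴴ * G⁻¹ * Q = diagonal (fun i => ((Real.exp (-lam i) : ℝ) : ℂ)) := by
  obtain ⟨hQ, _, hG⟩ := h
  have hQ' : IsUnit (Qᴴ).det := by
    rw [Matrix.det_conjTranspose]
    exact hQ.star
  have e1 : G⁻¹ = (Qᴴ)⁻¹ * (diagonal (fun i => ((Real.exp (-lam i) : ℝ) : ℂ)) * Q⁻¹) := by
    apply Matrix.inv_eq_right_inv
    rw [hG]
    calc Q * diagonal (fun i => ((Real.exp (lam i) : ℝ) : ℂ)) * Qᴴ *
          ((Qᴴ)⁻¹ * (diagonal (fun i => ((Real.exp (-lam i) : ℝ) : ℂ)) * Q⁻¹)) =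
          Q * (diagonal (fun i => ((Real.exp (lam i) : ℝ) : ℂ)) * ((Qᴴ * (Qᴴ)⁻¹) *
            diagonal (fun i => ((Real.exp (-lam i) : ℝ) : ℂ)))) * Q⁻¹ := by
          simp only [Matrix.mul_assoc]
      _ = 1 := by
          rw [Matrix.mul_nonsing_inv _ hQ', Matrix.one_mul, Lpf_diag, Matrix.mul_one,
            Matrix.mul_nonsing_inv _ hQ]
  rw [e1]
  calc Qᴴ * ((Qᴴ)⁻¹ * (diagonal (fun i => ((Real.exp (-lam i) : ℝ) : ℂ)) * Q⁻¹)) * Q =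
        (Qᴴ * (Qᴴ)⁻¹) * diagonal (fun i => ((Real.exp (-lam i) : ℝ) : ℂ)) * (Q⁻¹ * Q) := by
        simp only [Matrix.mul_assoc]
    _ = diagonal (fun i => ((Real.exp (-lam i) : ℝ) : ℂ)) := by
        rw [Matrix.mul_nonsing_inv _ hQ', Matrix.nonsing_inv_mul _ hQ, Matrix.one_mul,
          Matrix.mul_one]

private lemma Lpf_T {m : ℕ} {H G Q : Mt m} {lam : Fin m → ℝ} (h : FrL H G Q lam) :
    G * H⁻¹ = Q * diagonal (fun i => ((Real.exp (lam i) : ℝ) : ℂ)) * Q⁻¹ := by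
  obtain ⟨hQ, hH, hG⟩ := h
  have e1 : Qᴴ * (Q⁻¹)ᴴ = 1 := by
    rw [← Matrix.conjTranspose_mul, Matrix.nonsing_inv_mul Q hQ, Matrix.conjTranspose_one]
  rw [Lpf_inv hH, hG]
  calc Q * diagonal (fun i => ((Real.exp (lam i) : ℝ) : ℂ)) * Qᴴ * ((Q⁻¹)ᴴ * Q⁻¹) =
        Q * diagonal (fun i => ((Real.exp (lam i) : ℝ) : ℂ)) * (Qᴴ * (Q⁻¹)ᴴ) * Q⁻¹ := by
        simp only [Matrix.mul_assoc]
    _ = Q * diagonal (fun i => ((Real.exp (lam i) : ℝ) : ℂ)) * Q⁻¹ := by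
        rw [e1, Matrix.mul_one]

private lemma Lpf_lam {m : ℕ} {R : ℝ} {H G Q : Mt m} {lam : Fin m → ℝ}
    (hH : Bdm R H) (hG : Bdm R G) (h : FrL H G Q lam) (i : Fin m) :
    |lam i| ≤ m ^ 2 * R ^ 2 := by
  have hR : 0 ≤ R := (norm_nonneg _).trans (hH.2 i i).1
  have hsq : Real.sqrt R * Real.sqrt R = R := Real.mul_self_sqrt hR
  have hq := Lpf_row h.2.1 (fun i j => (hH.2 i j).1)
  have hq' := Lpf_col h.2.1 (fun i j => (hH.2 i j).2)
  have h1 : Real.exp (lam i) ≤ m ^ 2 * R ^ 2 := by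
    have e1 := Lpf_mul (Lpf_mul hq' (fun i j => (hG.2 i j).1)) (Lpf_herm hq') i i
    rw [Lpf_E h, Matrix.diagonal_apply_eq, Complex.norm_real, Real.norm_eq_abs,
      abs_of_pos (Real.exp_pos _)] at e1
    refine e1.trans (le_of_eq ?_)
    calc (m : ℝ) * (m * (Real.sqrt R * R) * Real.sqrt R) =
          m ^ 2 * R * (Real.sqrt R * Real.sqrt R) := by ring
      _ = m ^ 2 * R ^ 2 := by rw [hsq]; ring
  have h2 : Real.exp (-lam i) ≤ m ^ 2 * R ^ 2 := by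
    have e1 := Lpf_mul (Lpf_mul (Lpf_herm hq) (fun i j => (hG.2 i j).2)) hq i i
    rw [Lpf_Ginv h, Matrix.diagonal_apply_eq, Complex.norm_real, Real.norm_eq_abs,
      abs_of_pos (Real.exp_pos _)] at e1
    refine e1.trans (le_of_eq ?_)
    calc (m : ℝ) * (m * (Real.sqrt R * R) * Real.sqrt R) =
          m ^ 2 * R * (Real.sqrt R * Real.sqrt R) := by ring
      _ = m ^ 2 * R ^ 2 := by rw [hsq]; ring
  rw [abs_le]
  have h3 := Real.add_one_le_exp (lam i)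
  have h4 := Real.add_one_le_exp (-lam i)
  constructor
  · linarith
  · linarith

theorem lam_bd (m : ℕ) (R : ℝ) : ∃ L : ℝ, 0 ≤ L ∧ ∀ (H G Q : Mt m) (lam : Fin m → ℝ),
    Bdm R H → Bdm R G → FrL H G Q lam → ∀ i, |lam i| ≤ L :=
  ⟨m ^ 2 * R ^ 2, by positivity, fun _ _ _ _ hH hG h i => Lpf_lam hH hG h i⟩

private lemma Lpf_exp {L p r : ℝ} (hp : |p| ≤ L) (hr : |r| ≤ L) :
    |p - r| ≤ Real.exp L * |Real.exp p - Real.exp r| := by
  have key : ∀ p r : ℝ, |p| ≤ L → |r| ≤ L → r ≤ p →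
      |p - r| ≤ Real.exp L * |Real.exp p - Real.exp r| := by
    intro p r hp hr hrp
    have h1 : Real.exp p - Real.exp r = Real.exp r * (Real.exp (p - r) - 1) := by
      rw [mul_sub, ← Real.exp_add, mul_one]
      congr 2
      ring
    have h2 : p - r ≤ Real.exp (p - r) - 1 := by
      have := Real.add_one_le_exp (p - r)
      linarith
    have h3 : 0 ≤ p - r := sub_nonneg.2 hrp
    have h4 : 1 ≤ Real.exp L * Real.exp r := by
      rw [← Real.exp_add]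
      apply Real.one_le_exp
      have := (abs_le.1 hr).1
      linarith
    rw [abs_of_nonneg h3, h1, abs_of_nonneg (mul_nonneg (Real.exp_pos _).le (h3.trans h2)),
      ← mul_assoc]
    calc p - r ≤ 1 * (Real.exp (p - r) - 1) := by rw [one_mul]; exact h2
      _ ≤ Real.exp L * Real.exp r * (Real.exp (p - r) - 1) :=
          mul_le_mul_of_nonneg_right h4 (h3.trans h2)
  rcases le_total r p with h | h
  · exact key p r hp hr h
  · rw [abs_sub_comm p r, abs_sub_comm (Real.exp p)]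
    exact key r p hr hp h

private lemma Lpf_main {m : ℕ} {R : ℝ} (hR : 0 ≤ R) {phi : ℝ → ℝ} {K1 : ℝ} (hK1 : 0 ≤ K1)
    (hphi : ∀ p r : ℝ, |p| ≤ m ^ 2 * R ^ 2 → |r| ≤ m ^ 2 * R ^ 2 →
      |phi p - phi r| ≤ K1 * |p - r|)
    {H G H' G' : Mt m} (hH : Bdm R H) (hG : Bdm R G) (hH' : Bdm R H') (hG' : Bdm R G')
    (i j : Fin m) : ‖fcal phi H G i j - fcal phi H' G' i j‖ ≤
      K1 * (m ^ 4 * R ^ 2 * Real.exp (m ^ 2 * R ^ 2) * (m * R + m ^ 3 * R ^ 3)) *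
        ∑ k, ∑ l, (‖H k l - H' k l‖ + ‖G k l - G' k l‖) := by
  obtain ⟨L, hL⟩ : ∃ L : ℝ, L = m ^ 2 * R ^ 2 := ⟨_, rfl⟩
  obtain ⟨S, hS⟩ : ∃ S : ℝ, S = ∑ k, ∑ l, (‖H k l - H' k l‖ + ‖G k l - G' k l‖) := ⟨_, rfl⟩
  rw [← hS, ← hL]
  rw [← hL] at hphi
  have hsq : Real.sqrt R * Real.sqrt R = R := Real.mul_self_sqrt hR
  obtain ⟨b, hb⟩ : ∃ b, b = Real.sqrt R := ⟨_, rfl⟩
  rw [← hb] at hsq
  obtain ⟨Q, lam, hf⟩ := exists_fr hH.1 hG.1
  obtain ⟨Q', lam', hf'⟩ := exists_fr hH'.1 hG'.1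
  have hS1 : ∀ k l, ‖H k l - H' k l‖ + ‖G k l - G' k l‖ ≤ S := by
    intro k l
    rw [hS]
    have h0 : ∀ k l, 0 ≤ ‖H k l - H' k l‖ + ‖G k l - G' k l‖ := fun k l =>
      add_nonneg (norm_nonneg _) (norm_nonneg _)
    calc ‖H k l - H' k l‖ + ‖G k l - G' k l‖ ≤
          ∑ l, (‖H k l - H' k l‖ + ‖G k l - G' k l‖) :=
          Finset.single_le_sum (f := fun l => ‖H k l - H' k l‖ + ‖G k l - G' k l‖)
            (fun l _ => h0 k l) (Finset.mem_univ l)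
      _ ≤ ∑ k, ∑ l, (‖H k l - H' k l‖ + ‖G k l - G' k l‖) :=
          Finset.single_le_sum (f := fun k => ∑ l, (‖H k l - H' k l‖ + ‖G k l - G' k l‖))
            (fun k _ => Finset.sum_nonneg (fun l _ => h0 k l)) (Finset.mem_univ k)
  have hHd : ∀ k l, ‖(H' - H) k l‖ ≤ S := by
    intro k l
    rw [Matrix.sub_apply, norm_sub_rev]
    have := hS1 k l
    have h2 := norm_nonneg (G k l - G' k l)
    linarith
  have hGd : ∀ k l, ‖(G - G') k l‖ ≤ S := by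
    intro k l
    rw [Matrix.sub_apply]
    have := hS1 k l
    have h2 := norm_nonneg (H k l - H' k l)
    linarith
  have hQ := Lpf_row hf.2.1 (fun i j => (hH.2 i j).1)
  have hQi := Lpf_col hf.2.1 (fun i j => (hH.2 i j).2)
  have hQ' := Lpf_row hf'.2.1 (fun i j => (hH'.2 i j).1)
  have hQi' := Lpf_col hf'.2.1 (fun i j => (hH'.2 i j).2)
  rw [← hb] at hQ hQi hQ' hQi'
  have hdH : IsUnit H.det := (Matrix.isUnit_iff_isUnit_det _).1 hH.1.isUnit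
  have hdH' : IsUnit H'.det := (Matrix.isUnit_iff_isUnit_det _).1 hH'.1.isUnit
  -- bound for T - T'
  obtain ⟨τ, hτ⟩ : ∃ τ : ℝ, τ = m * (S * R) + m * (R * (m * (m * (R * S) * R))) := ⟨_, rfl⟩
  have hT : ∀ k l, ‖(G * H⁻¹ - G' * H'⁻¹) k l‖ ≤ τ := by
    intro k l
    have e1 : G * H⁻¹ - G' * H'⁻¹ = (G - G') * H⁻¹ + G' * (H⁻¹ * (H' - H) * H'⁻¹) := by
      have e2 : H⁻¹ * (H' - H) * H'⁻¹ = H⁻¹ - H'⁻¹ := by
        rw [Matrix.mul_sub, Matrix.sub_mul, Matrix.nonsing_inv_mul _ hdH, Matrix.one_mul,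
          Matrix.mul_assoc, Matrix.mul_nonsing_inv _ hdH', Matrix.mul_one]
      rw [e2, Matrix.sub_mul, Matrix.mul_sub]
      abel
    rw [e1, Matrix.add_apply, hτ]
    refine (norm_add_le _ _).trans (add_le_add ?_ ?_)
    · exact Lpf_mul hGd (fun i j => (hH.2 i j).2) k l
    · exact Lpf_mul (fun i j => (hG'.2 i j).1)
        (Lpf_mul (Lpf_mul (fun i j => (hH.2 i j).2) hHd) (fun i j => (hH'.2 i j).2)) k l
  -- the intertwiner
  obtain ⟨E, hE⟩ : ∃ E : Mt m, E = diagonal (fun i => ((Real.exp (lam i) : ℝ) : ℂ)) :=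
    ⟨_, rfl⟩
  obtain ⟨E', hE'⟩ : ∃ E : Mt m, E = diagonal (fun i => ((Real.exp (lam' i) : ℝ) : ℂ)) :=
    ⟨_, rfl⟩
  obtain ⟨F, hF⟩ : ∃ F : Mt m, F = diagonal (fun i => ((phi (lam i) : ℝ) : ℂ)) :=
    ⟨_, rfl⟩
  obtain ⟨F', hF'⟩ : ∃ F : Mt m, F = diagonal (fun i => ((phi (lam' i) : ℝ) : ℂ)) :=
    ⟨_, rfl⟩
  have eT := Lpf_T hf
  have eT' := Lpf_T hf'
  rw [← hE] at eT
  rw [← hE'] at eT'
  have hQu := hf.1
  have hQu' := hf'.1
  have k1 : E * (Q⁻¹ * Q') - (Q⁻¹ * Q') * E' = Q⁻¹ * (G * H⁻¹ - G' * H'⁻¹) * Q' := by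
    rw [eT, eT', Matrix.mul_sub, Matrix.sub_mul]
    congr 1
    · calc E * (Q⁻¹ * Q') = (Q⁻¹ * Q) * E * Q⁻¹ * Q' := by
            rw [Matrix.nonsing_inv_mul _ hQu, Matrix.one_mul, Matrix.mul_assoc]
        _ = Q⁻¹ * (Q * E * Q⁻¹) * Q' := by simp only [Matrix.mul_assoc]
    · calc Q⁻¹ * Q' * E' = Q⁻¹ * Q' * E' * (Q'⁻¹ * Q') := by
            rw [Matrix.nonsing_inv_mul _ hQu', Matrix.mul_one]
        _ = Q⁻¹ * (Q' * E' * Q'⁻¹) * Q' := by simp only [Matrix.mul_assoc]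
  have k2 : fcal phi H G - fcal phi H' G' =
      Q * (F * (Q⁻¹ * Q') - (Q⁻¹ * Q') * F') * Q'⁻¹ := by
    rw [fcal_eq hf phi, fcal_eq hf' phi, ← hF, ← hF', Matrix.mul_sub, Matrix.sub_mul]
    congr 1
    · calc Q * F * Q⁻¹ = Q * F * Q⁻¹ * (Q' * Q'⁻¹) := by
            rw [Matrix.mul_nonsing_inv _ hQu', Matrix.mul_one]
        _ = Q * (F * (Q⁻¹ * Q')) * Q'⁻¹ := by simp only [Matrix.mul_assoc]
    · calc Q' * F' * Q'⁻¹ = (Q * Q⁻¹) * (Q' * F' * Q'⁻¹) := by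
            rw [Matrix.mul_nonsing_inv _ hQu, Matrix.one_mul]
        _ = Q * (Q⁻¹ * Q' * F') * Q'⁻¹ := by simp only [Matrix.mul_assoc]
  have k3 : ∀ k l, ‖(F * (Q⁻¹ * Q') - (Q⁻¹ * Q') * F') k l‖ ≤
      K1 * Real.exp L * (m * (m * (b * τ) * b)) := by
    intro k l
    have e1 : (F * (Q⁻¹ * Q') - (Q⁻¹ * Q') * F') k l =
        ((phi (lam k) - phi (lam' l) : ℝ) : ℂ) * (Q⁻¹ * Q') k l := by
      rw [Matrix.sub_apply, hF, hF', Matrix.diagonal_mul, Matrix.mul_diagonal]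
      push_cast
      ring
    have e2 : (E * (Q⁻¹ * Q') - (Q⁻¹ * Q') * E') k l =
        ((Real.exp (lam k) - Real.exp (lam' l) : ℝ) : ℂ) * (Q⁻¹ * Q') k l := by
      rw [Matrix.sub_apply, hE, hE', Matrix.diagonal_mul, Matrix.mul_diagonal]
      push_cast
      ring
    have e3 : ‖(E * (Q⁻¹ * Q') - (Q⁻¹ * Q') * E') k l‖ ≤ m * (m * (b * τ) * b) := by
      rw [k1]
      exact Lpf_mul (Lpf_mul hQi hT) hQ' k l
    rw [e2, norm_mul, Complex.norm_real, Real.norm_eq_abs] at e3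
    rw [e1, norm_mul, Complex.norm_real, Real.norm_eq_abs]
    have h1 : |lam k| ≤ L := hL ▸ Lpf_lam hH hG hf k
    have h2 : |lam' l| ≤ L := hL ▸ Lpf_lam hH' hG' hf' l
    have h3 := hphi _ _ h1 h2
    have h4 := Lpf_exp h1 h2
    calc |phi (lam k) - phi (lam' l)| * ‖(Q⁻¹ * Q') k l‖ ≤
          (K1 * (Real.exp L * |Real.exp (lam k) - Real.exp (lam' l)|)) * ‖(Q⁻¹ * Q') k l‖ := by
          apply mul_le_mul_of_nonneg_right _ (norm_nonneg _)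
          exact h3.trans (mul_le_mul_of_nonneg_left h4 hK1)
      _ = K1 * Real.exp L * (|Real.exp (lam k) - Real.exp (lam' l)| * ‖(Q⁻¹ * Q') k l‖) := by
          ring
      _ ≤ K1 * Real.exp L * (m * (m * (b * τ) * b)) :=
          mul_le_mul_of_nonneg_left e3 (mul_nonneg hK1 (Real.exp_pos _).le)
  have k4 := Lpf_mul (Lpf_mul hQ k3) hQi' i j
  rw [← k2, Matrix.sub_apply] at k4
  refine k4.trans (le_of_eq ?_)
  rw [hτ]
  calc (m : ℝ) * (m * (b * (K1 * Real.exp L * (m * (m * (b * (m * (S * R) +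
        m * (R * (m * (m * (R * S) * R))))) * b)))) * b) =
        K1 * (m ^ 4 * ((b * b) ^ 2) * Real.exp L * (m * R + m ^ 3 * R ^ 3)) * S := by ring
    _ = K1 * (m ^ 4 * R ^ 2 * Real.exp L * (m * R + m ^ 3 * R ^ 3)) * S := by rw [hsq]

theorem fcal_lip_unif (m : ℕ) (R : ℝ) : ∃ C L : ℝ, 0 ≤ C ∧ 0 ≤ L ∧
    ∀ (phi : ℝ → ℝ) (K1 : ℝ), 0 ≤ K1 →
      (∀ p r : ℝ, |p| ≤ L → |r| ≤ L → |phi p - phi r| ≤ K1 * |p - r|) →
      ∀ H G H' G' : Mt m, Bdm R H → Bdm R G → Bdm R H' → Bdm R G' →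
        ∀ i j, ‖fcal phi H G i j - fcal phi H' G' i j‖ ≤
          K1 * C * ∑ k, ∑ l, (‖H k l - H' k l‖ + ‖G k l - G' k l‖) := by
  have hmono : ∀ H : Mt m, Bdm R H → Bdm |R| H := fun H h =>
    ⟨h.1, fun i j => ⟨(h.2 i j).1.trans (le_abs_self R), (h.2 i j).2.trans (le_abs_self R)⟩⟩
  have h0 : 0 ≤ |R| := abs_nonneg R
  refine ⟨m ^ 4 * |R| ^ 2 * Real.exp (m ^ 2 * |R| ^ 2) * (m * |R| + m ^ 3 * |R| ^ 3),
    m ^ 2 * |R| ^ 2, by positivity, by positivity, ?_⟩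
  intro phi K1 hK1 hphi H G H' G' hH hG hH' hG' i j
  exact Lpf_main h0 hK1 hphi (hmono H hH) (hmono G hG) (hmono H' hH') (hmono G' hG') i j

theorem fcal_lip {m : ℕ} (phi : ℝ → ℝ) (hphi : ContDiff ℝ 1 phi) (R : ℝ) :
    ∃ K : ℝ, 0 ≤ K ∧ ∀ H G H' G' : Mt m, Bdm R H → Bdm R G → Bdm R H' → Bdm R G' →
      ∀ i j, ‖fcal phi H G i j - fcal phi H' G' i j‖ ≤
        K * ∑ k, ∑ l, (‖H k l - H' k l‖ + ‖G k l - G' k l‖) := by
  obtain ⟨C, L, hC, hL, h⟩ := fcal_lip_unif m R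
  have hcont : Continuous (deriv phi) := hphi.continuous_deriv le_rfl
  obtain ⟨K1, hK1⟩ := (isCompact_Icc (a := -L) (b := L)).exists_bound_of_continuousOn
    hcont.continuousOn
  have hK0 : 0 ≤ K1 := by
    refine (norm_nonneg _).trans (hK1 0 ?_)
    exact ⟨by linarith, hL⟩
  refine ⟨K1 * C, mul_nonneg hK0 hC, ?_⟩
  intro H G H' G' hH hG hH' hG' i j
  refine h phi K1 hK0 ?_ H G H' G' hH hG hH' hG' i j
  intro p r hp hr
  have h1 := Convex.norm_image_sub_le_of_norm_deriv_le (f := phi) (s := Icc (-L) L) (C := K1)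
    (x := r) (y := p)
    (fun x _ => (hphi.differentiable one_ne_zero).differentiableAt) (fun x hx => hK1 x hx)
    (convex_Icc _ _) (abs_le.1 hr) (abs_le.1 hp)
  rw [Real.norm_eq_abs, Real.norm_eq_abs] at h1
  exact h1

end H80HM
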