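import Pool.Agent.H80.HM.Def4
import Pool.Agent.H80.HM.Sim

set_option autoImplicit false

/-!
# Row Mox: matrices all of whose eigenvalues have modulus 1

1. mo_conj: similar matrices have the same characteristic polynomial.
2. mo_pow: M^k (k >= 1) has eigenvalues mu^k with multiplicity (triangularise, or Matrix.charpoly pow / spectrum mapping: mu root of charpoly M iff eigenvalue; eigenvalues of
   M^k are the k-th powers: aeval spectral mapping spectrum_polynomial_aeval over an algebraically closed field). Mo (M^k) <-> Mo M.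
3. mo_inv, mo_one. 4. mo_dvd: if charpoly M divides charpoly N (as products) and Mo N then Mo M: roots of a divisor.
5. mo_trace: |tr M| <= m if Mo M (trace = sum of the roots of the characteristic polynomial, which splits). 6. mo_det: |det M| = 1.
7. mo_unip: IsNilpotent (M - 1) implies Mo M: only eigenvalue 1.   8. mo_vu: IsNilpotent (M^k - 1), k >= 1, implies Mo M (7 and 2).
9. unip_of_unitary: if M h M* = h with h positive definite and M - 1 nilpotent then M = 1. (M is similar to a unitary matrix U = S^{-1} M S, h = S S*; U - 1 is normal and nilpotent,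
   hence 0: for normal N, |N^k x| .. or: N*N is self adjoint nilpotent; or spectral theorem.)
-/

namespace H80HM

open Matrix
open scoped ComplexOrder

variable {m : ℕ}

private theorem Mox_iff (M : Mt m) : Mo M ↔ ∀ z ∈ spectrum ℂ M, ‖z‖ = 1 := by
  unfold Mo
  refine forall_congr' fun z => ?_
  rw [Polynomial.mem_roots (Matrix.charpoly_monic M).ne_zero,
    Matrix.mem_spectrum_iff_isRoot_charpoly]

theorem mo_conj {M : Mt m} (T : (Mt m)ˣ) :
    Mo ((T : Mt m) * M * ((T⁻¹ : (Mt m)ˣ) : Mt m)) ↔ Mo M := by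
  rw [Mox_iff, Mox_iff, spectrum.units_conjugate]

theorem mo_one : Mo (1 : Mt m) := by
  rw [Mox_iff]
  intro z hz
  by_contra h
  apply hz
  rw [spectrum.mem_resolventSet_iff]
  have hz1 : z - 1 ≠ 0 := by
    intro h1
    apply h
    rw [sub_eq_zero.1 h1, norm_one]
  have e : algebraMap ℂ (Mt m) z - 1 = algebraMap ℂ (Mt m) (z - 1) := by
    rw [map_sub, map_one]
  rw [e]
  exact (IsUnit.mk0 _ hz1).map _

theorem mo_pow {M : Mt m} {k : ℕ} (hk : 0 < k) : Mo (M ^ k) ↔ Mo M := by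
  rw [Mox_iff, Mox_iff, spectrum.map_pow_of_pos M hk]
  constructor
  · intro h z hz
    have h1 := h (z ^ k) ⟨z, hz, rfl⟩
    rw [norm_pow] at h1
    exact (pow_eq_one_iff_of_nonneg (norm_nonneg z) hk.ne').1 h1
  · rintro h _ ⟨z, hz, rfl⟩
    change ‖z ^ k‖ = 1
    rw [norm_pow, h z hz, one_pow]

theorem mo_inv {M : (Mt m)ˣ} (h : Mo (M : Mt m)) : Mo ((M⁻¹ : (Mt m)ˣ) : Mt m) := by
  rw [Mox_iff] at h ⊢
  intro z hz
  have hz0 : z ≠ 0 := spectrum.ne_zero_of_mem_of_unit hz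
  have h1 := (spectrum.inv_mem_iff (R := ℂ) (r := Units.mk0 z hz0) (a := M⁻¹)).1 hz
  rw [inv_inv] at h1
  have h2 := h _ h1
  rw [Units.val_inv_eq_inv_val, Units.val_mk0, norm_inv] at h2
  exact inv_eq_one.1 h2

theorem mo_dvd {m' : ℕ} {M : Mt m} {N : Mt m'} (hd : M.charpoly ∣ N.charpoly) (h : Mo N) :
    Mo M := by
  intro z hz
  exact h z (Multiset.mem_of_le (Polynomial.roots.le_of_dvd
    (Matrix.charpoly_monic N).ne_zero hd) hz)

theorem mo_trace {M : Mt m} (h : Mo M) : ‖M.trace‖ ≤ m := by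
  rw [Matrix.trace_eq_sum_roots_charpoly]
  refine (norm_multiset_sum_le _).trans ?_
  have h1 : M.charpoly.roots.map (fun z => ‖z‖) = M.charpoly.roots.map (fun _ => (1 : ℝ)) :=
    Multiset.map_congr rfl h
  rw [h1, Multiset.map_const', Multiset.sum_replicate, nsmul_eq_mul, mul_one]
  have h2 : Multiset.card M.charpoly.roots ≤ m := by
    have h3 := Polynomial.card_roots' M.charpoly
    rw [Matrix.charpoly_natDegree_eq_dim, Fintype.card_fin] at h3
    exact h3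
  exact_mod_cast h2

theorem mo_det {M : Mt m} (h : Mo M) : ‖M.det‖ = 1 := by
  rw [Matrix.det_eq_prod_roots_charpoly]
  have h0 : ‖M.charpoly.roots.prod‖ = (M.charpoly.roots.map (fun z => ‖z‖)).prod := by
    have := map_multiset_prod (normHom : ℂ →*₀ ℝ) M.charpoly.roots
    exact this
  have h1 : M.charpoly.roots.map (fun z => ‖z‖) = M.charpoly.roots.map (fun _ => (1 : ℝ)) :=
    Multiset.map_congr rfl h
  rw [h0, h1, Multiset.map_const', Multiset.prod_replicate, one_pow]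

theorem mo_unip {M : Mt m} (h : IsNilpotent (M - 1)) : Mo M := by
  rw [Mox_iff]
  obtain ⟨n, hn⟩ := h
  intro z hz
  have h1 : z - 1 ∈ spectrum ℂ (M - 1) := by
    intro h2
    apply hz
    rw [spectrum.mem_resolventSet_iff] at h2 ⊢
    have e : algebraMap ℂ (Mt m) (z - 1) - (M - 1) = algebraMap ℂ (Mt m) z - M := by
      rw [map_sub, map_one]
      abel
    rwa [e] at h2
  have h2 := spectrum.pow_mem_pow (M - 1) n h1
  rw [hn] at h2
  have h3 : (z - 1) ^ n = 0 := by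
    by_contra h4
    apply h2
    rw [spectrum.mem_resolventSet_iff, sub_zero]
    exact (IsUnit.mk0 _ h4).map _
  have h4 : z - 1 = 0 := eq_zero_of_pow_eq_zero h3
  rw [sub_eq_zero.1 h4, norm_one]

theorem mo_vu {M : Mt m} {k : ℕ} (hk : 1 ≤ k) (h : IsNilpotent (M ^ k - 1)) : Mo M := by
  exact (mo_pow hk).1 (mo_unip h)

private theorem Mox_herm {A : Mt m} (hA : Aᴴ = A) (j : ℕ) (h : A ^ 2 ^ j = 0) : A = 0 := by
  induction j with
  | zero => simpa using h
  | succ j ih =>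
    apply ih
    have e : A ^ 2 ^ (j + 1) = (A ^ 2 ^ j)ᴴ * A ^ 2 ^ j := by
      rw [Matrix.conjTranspose_pow, hA, ← pow_add]
      congr 1
      ring
    rw [e] at h
    exact Matrix.conjTranspose_mul_self_eq_zero.1 h

private theorem Mox_normal {N : Mt m} (hN : N * Nᴴ = Nᴴ * N) (h : IsNilpotent N) : N = 0 := by
  obtain ⟨n, hn⟩ := h
  have h1 : (Nᴴ * N)ᴴ = Nᴴ * N := by
    rw [Matrix.conjTranspose_mul, Matrix.conjTranspose_conjTranspose]
  have hc : Commute Nᴴ N := hN.symm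
  have h2 : (Nᴴ * N) ^ 2 ^ n = 0 := by
    rw [hc.mul_pow]
    have h3 : N ^ 2 ^ n = 0 := by
      have h4 : n ≤ 2 ^ n := Nat.lt_two_pow_self.le
      rw [← Nat.add_sub_of_le h4, pow_add, hn, zero_mul]
    rw [h3, mul_zero]
  exact Matrix.conjTranspose_mul_self_eq_zero.1 (Mox_herm h1 n h2)

private theorem Mox_red {M h : Mt m} (hh : h.PosDef) (h1 : M * h * Mᴴ = h) :
    ∃ T : (Mt m)ˣ, ∃ U : Mt m, M = (T : Mt m) * U * ((T⁻¹ : (Mt m)ˣ) : Mt m) ∧ U * Uᴴ = 1 := by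
  obtain ⟨Q, lam, hQ, hq, -⟩ := exists_fr hh hh
  have q1 : Q * Q⁻¹ = 1 := Matrix.mul_nonsing_inv _ hQ
  have q2 : Q⁻¹ * Q = 1 := Matrix.nonsing_inv_mul _ hQ
  have qs1 : Qᴴ * (Q⁻¹)ᴴ = 1 := by
    rw [← Matrix.conjTranspose_mul, q2, Matrix.conjTranspose_one]
  refine ⟨⟨Q, Q⁻¹, q1, q2⟩, Q⁻¹ * M * Q, ?_, ?_⟩
  · change M = Q * (Q⁻¹ * M * Q) * Q⁻¹
    calc M = (Q * Q⁻¹) * M * (Q * Q⁻¹) := by rw [q1, Matrix.one_mul, Matrix.mul_one]
      _ = Q * (Q⁻¹ * M * Q) * Q⁻¹ := by simp only [Matrix.mul_assoc]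
  · rw [Matrix.conjTranspose_mul, Matrix.conjTranspose_mul]
    calc Q⁻¹ * M * Q * (Qᴴ * (Mᴴ * (Q⁻¹)ᴴ)) = Q⁻¹ * (M * (Q * Qᴴ) * Mᴴ) * (Q⁻¹)ᴴ := by
          simp only [Matrix.mul_assoc]
      _ = Q⁻¹ * (Q * Qᴴ) * (Q⁻¹)ᴴ := by rw [← hq, h1]
      _ = (Q⁻¹ * Q) * (Qᴴ * (Q⁻¹)ᴴ) := by simp only [Matrix.mul_assoc]
      _ = 1 := by rw [q2, qs1, Matrix.one_mul]

theorem unip_of_unitary {M h : Mt m} (hh : h.PosDef) (h1 : M * h * Mᴴ = h)
    (h2 : IsNilpotent (M - 1)) : M = 1 := by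
  obtain ⟨T, U, hM, hU⟩ := Mox_red hh h1
  have hU' : Uᴴ * U = 1 := mul_eq_one_comm.1 hU
  have e : U - 1 = ((T⁻¹ : (Mt m)ˣ) : Mt m) * (M - 1) * (T : Mt m) := by
    rw [hM, mul_sub, sub_mul, mul_one, Units.inv_mul]
    congr 1
    calc U = (((T⁻¹ : (Mt m)ˣ) : Mt m) * (T : Mt m)) * U *
          (((T⁻¹ : (Mt m)ˣ) : Mt m) * (T : Mt m)) := by
          rw [Units.inv_mul, one_mul, mul_one]
      _ = _ := by simp only [Matrix.mul_assoc]
  have hnil : IsNilpotent (U - 1) := by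
    obtain ⟨n, hn⟩ := h2
    refine ⟨n, ?_⟩
    have h3 : (((T⁻¹ : (Mt m)ˣ) : Mt m) * (M - 1) * (T : Mt m)) ^ n =
        ((T⁻¹ : (Mt m)ˣ) : Mt m) * (M - 1) ^ n * (T : Mt m) := by
      have := Units.conj_pow T⁻¹ (M - 1) n
      rwa [inv_inv] at this
    rw [e, h3, hn, mul_zero, zero_mul]
  have hnorm : (U - 1) * (U - 1)ᴴ = (U - 1)ᴴ * (U - 1) := by
    rw [Matrix.conjTranspose_sub, Matrix.conjTranspose_one]
    simp only [sub_mul, mul_sub, one_mul, mul_one, hU, hU']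
    abel
  have h4 : U - 1 = 0 := Mox_normal hnorm hnil
  rw [hM, sub_eq_zero.1 h4, mul_one, Units.mul_inv]

theorem mo_of_unitary {M h : Mt m} (hh : h.PosDef) (h1 : M * h * Mᴴ = h) : Mo M := by
  obtain ⟨T, U, hM, hU⟩ := Mox_red hh h1
  have hU' : Uᴴ * U = 1 := mul_eq_one_comm.1 hU
  rw [hM, mo_conj, Mox_iff]
  intro z hz
  have h3 : ¬ IsUnit (algebraMap ℂ (Mt m) z - U) := hz
  rw [Matrix.isUnit_iff_isUnit_det, isUnit_iff_ne_zero, not_not] at h3
  obtain ⟨v, hv, hv0⟩ := Matrix.exists_mulVec_eq_zero_iff.2 h3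
  have h4 : U *ᵥ v = z • v := by
    rw [Matrix.sub_mulVec, sub_eq_zero] at hv0
    rw [← hv0, Algebra.algebraMap_eq_smul_one, Matrix.smul_mulVec, Matrix.one_mulVec]
  have h5 : star (U *ᵥ v) ⬝ᵥ (U *ᵥ v) = star v ⬝ᵥ v := by
    rw [Matrix.star_mulVec, ← Matrix.dotProduct_mulVec, Matrix.mulVec_mulVec, hU',
      Matrix.one_mulVec]
  rw [h4, star_smul, smul_dotProduct, dotProduct_smul, smul_smul, smul_eq_mul] at h5
  have h6 : star v ⬝ᵥ v ≠ 0 := by
    intro h7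
    exact hv (dotProduct_star_self_eq_zero.1 h7)
  have h7 : star z * z = 1 := mul_right_cancel₀ h6 (by rw [h5, one_mul])
  have h8 : ‖z‖ * ‖z‖ = 1 := by
    have := congrArg (fun w : ℂ => ‖w‖) h7
    simpa using this
  nlinarith [norm_nonneg z]

end H80HM
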