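import Pool.Agent.H80.HM.Mox

set_option autoImplicit false

/-!
# Row Prg: powers of elements of the group generated by BD v and ep

ta automorphism of F with ep BD(u) ep^{-1} = BD(ta u), ep^k = BD(E), ta^k = conjugation u -> E u E^{-1}, E in L, ta^j v in L for 0 <= j < k.
(1) ta^j v in L for all integers j: ta^{k} v' = E v' E^{-1}; by division with remainder j = q k + j0, ta^j v = E^q (ta^{j0} v) E^{-q}, E in L.
(2) Let Li := subgroup generated by all ta^j v, j in Z; contained in L, ta-invariant (ta and ta^{-1}). Every g in closure {BD v, ep} has the form BD(l) ep^i, l in Li, i in Z: this set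
 contains the generators and is closed under products: BD(l) ep^i BD(l') ep^{i'} = BD(l ta^i(l')) ep^{i+i'}, and inverses.
(3) (BD(l) ep^i)^k = BD(l ta^i(l) ta^{2i}(l) ... ta^{(k-1)i}(l)) ep^{ik} = BD(l') BD(E)^i, l' in Li: equal to BD(l' E^i), l' E^i in L. So Mo (g^k) and hence Mo g (mo_pow).
-/

namespace H80HM

open Matrix

section Prg

variable {F G : Type*} [Group F] [Group G]

theorem Prg_conj (BD : F →* G) (ep : G) (ta : F ≃* F) (he : ∀ u, ep * BD u * ep⁻¹ = BD (ta u))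
    (i : ℤ) (u : F) : ep ^ i * BD u = BD ((ta ^ i) u) * ep ^ i := by
  have h1 : ∀ u, ep * BD u = BD (ta u) * ep := fun u => by
    rw [← he, inv_mul_cancel_right]
  have h2 : ∀ u, ep⁻¹ * BD u = BD ((ta⁻¹) u) * ep⁻¹ := fun u => by
    have h3 := h1 ((ta⁻¹) u)
    have h4 : ta ((ta⁻¹) u) = u := MulAut.apply_inv_self F ta u
    rw [h4] at h3
    rw [inv_mul_eq_iff_eq_mul, ← mul_assoc, h3, mul_inv_cancel_right]
  induction i using Int.induction_on generalizing u with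
  | zero => simp
  | succ i ih =>
    rw [_root_.zpow_add_one, _root_.zpow_add_one, mul_assoc, h1, ← mul_assoc, ih, mul_assoc, MulAut.mul_apply]
  | pred i ih =>
    rw [_root_.zpow_sub_one, _root_.zpow_sub_one, mul_assoc, h2, ← mul_assoc, ih, mul_assoc, MulAut.mul_apply]

theorem Prg_mem {k : ℕ} (hk : 0 < k) (ta : F ≃* F) (E v : F)
    (htk : ∀ u, (ta ^ k) u = E * u * E⁻¹) (L : Subgroup F)
    (hE : E ∈ L) (hv : ∀ j : ℕ, j < k → (ta ^ j) v ∈ L) (j : ℤ) : (ta ^ j) v ∈ L := by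
  have hc : ta ^ k = MulAut.conj E := MulEquiv.ext fun u => by rw [htk, MulAut.conj_apply]
  have hk' : (0 : ℤ) < k := by exact_mod_cast hk
  obtain ⟨j0, hj0⟩ : ∃ j0 : ℕ, (j0 : ℤ) = j % k := ⟨(j % k).toNat, Int.toNat_of_nonneg (Int.emod_nonneg _ hk'.ne')⟩
  have hlt : j0 < k := by
    have h1 := Int.emod_lt_of_pos j hk'
    rw [← hj0] at h1
    exact_mod_cast h1
  have hj : j = (k : ℤ) * (j / k) + (j0 : ℤ) := by
    rw [hj0]
    exact (Int.mul_ediv_add_emod j k).symm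
  have e : ta ^ j = (MulAut.conj E) ^ (j / (k : ℤ)) * ta ^ j0 := by
    conv_lhs => rw [hj]
    rw [_root_.zpow_add, _root_.zpow_mul, _root_.zpow_natCast, _root_.zpow_natCast, hc]
  rw [e, MulAut.mul_apply, ← map_zpow, MulAut.conj_apply]
  exact L.mul_mem (L.mul_mem (L.zpow_mem hE _) (hv j0 hlt)) (L.inv_mem (L.zpow_mem hE _))

theorem Prg_ta (ta : F ≃* F) (v : F) (i : ℤ) {x : F}
    (hx : x ∈ Subgroup.closure {y : F | ∃ j : ℤ, y = (ta ^ j) v}) :
    (ta ^ i) x ∈ Subgroup.closure {y : F | ∃ j : ℤ, y = (ta ^ j) v} := by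
  induction hx using Subgroup.closure_induction with
  | mem y hy =>
    obtain ⟨j, rfl⟩ := hy
    refine Subgroup.subset_closure ⟨i + j, ?_⟩
    rw [_root_.zpow_add, MulAut.mul_apply]
  | one =>
    rw [map_one]
    exact Subgroup.one_mem _
  | mul y z _ _ hy hz =>
    rw [map_mul]
    exact Subgroup.mul_mem _ hy hz
  | inv y _ hy =>
    rw [map_inv]
    exact Subgroup.inv_mem _ hy

theorem Prg_form (BD : F →* G) (ep : G) (ta : F ≃* F) (he : ∀ u, ep * BD u * ep⁻¹ = BD (ta u))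
    (v : F) {g : G} (hg : g ∈ Subgroup.closure ({BD v, ep} : Set G)) :
    ∃ l ∈ Subgroup.closure {y : F | ∃ j : ℤ, y = (ta ^ j) v}, ∃ i : ℤ, g = BD l * ep ^ i := by
  have hc := Prg_conj BD ep ta he
  induction hg using Subgroup.closure_induction with
  | mem y hy =>
    rcases hy with rfl | rfl
    · refine ⟨v, Subgroup.subset_closure ⟨0, by simp⟩, 0, by simp⟩
    · exact ⟨1, Subgroup.one_mem _, 1, by simp⟩
  | one => exact ⟨1, Subgroup.one_mem _, 0, by simp⟩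
  | mul y z _ _ hy hz =>
    obtain ⟨l, hl, i, rfl⟩ := hy
    obtain ⟨l', hl', i', rfl⟩ := hz
    refine ⟨l * (ta ^ i) l', Subgroup.mul_mem _ hl (Prg_ta ta v i hl'), i + i', ?_⟩
    rw [_root_.zpow_add, map_mul]
    calc BD l * ep ^ i * (BD l' * ep ^ i') = BD l * (ep ^ i * BD l') * ep ^ i' := by group
      _ = BD l * (BD ((ta ^ i) l') * ep ^ i) * ep ^ i' := by rw [hc]
      _ = BD l * BD ((ta ^ i) l') * (ep ^ i * ep ^ i') := by group
  | inv y _ hy =>
    obtain ⟨l, hl, i, rfl⟩ := hy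
    refine ⟨(ta ^ (-i)) l⁻¹, Prg_ta ta v (-i) (Subgroup.inv_mem _ hl), -i, ?_⟩
    rw [← hc, _root_.mul_inv_rev, map_inv, _root_.zpow_neg]

theorem Prg_pow (BD : F →* G) (ep : G) (ta : F ≃* F) (he : ∀ u, ep * BD u * ep⁻¹ = BD (ta u))
    (v : F) {l : F} (hl : l ∈ Subgroup.closure {y : F | ∃ j : ℤ, y = (ta ^ j) v}) (i : ℤ) (n : ℕ) :
    ∃ l' ∈ Subgroup.closure {y : F | ∃ j : ℤ, y = (ta ^ j) v},
      (BD l * ep ^ i) ^ n = BD l' * (ep ^ i) ^ n := by
  have hc := Prg_conj BD ep ta he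
  induction n with
  | zero => exact ⟨1, Subgroup.one_mem _, by simp⟩
  | succ n ih =>
    obtain ⟨l', hl', h⟩ := ih
    refine ⟨l' * (ta ^ (i * n)) l, Subgroup.mul_mem _ hl' (Prg_ta ta v _ hl), ?_⟩
    have e : (ep ^ i) ^ n = ep ^ (i * n) := by rw [_root_.zpow_mul, _root_.zpow_natCast]
    rw [pow_succ, h, pow_succ, e, map_mul]
    calc BD l' * ep ^ (i * (n : ℤ)) * (BD l * ep ^ i) =
        BD l' * (ep ^ (i * (n : ℤ)) * BD l) * ep ^ i := by group
      _ = BD l' * (BD ((ta ^ (i * (n : ℤ))) l) * ep ^ (i * (n : ℤ))) * ep ^ i := by rw [hc]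
      _ = BD l' * BD ((ta ^ (i * (n : ℤ))) l) * (ep ^ (i * (n : ℤ)) * ep ^ i) := by group

end Prg

theorem pair_mo {F : Type} [Group F] {D' k : ℕ} (hk : 0 < k) (BD : F →* (Mt D')ˣ)
    (ep : (Mt D')ˣ) (ta : F ≃* F) (E v : F) (he : ∀ u, ep * BD u * ep⁻¹ = BD (ta u))
    (hek : ep ^ k = BD E) (htk : ∀ u, (ta ^ k) u = E * u * E⁻¹) (L : Subgroup F)
    (hE : E ∈ L) (hv : ∀ j : ℕ, j < k → (ta ^ j) v ∈ L)
    (hMo : ∀ l ∈ L, Mo ((BD l : (Mt D')ˣ) : Mt D')) :
    ∀ g ∈ Subgroup.closure ({BD v, ep} : Set (Mt D')ˣ), Mo ((g : (Mt D')ˣ) : Mt D') := by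
  intro g hg
  obtain ⟨l, hl, i, rfl⟩ := Prg_form BD ep ta he v hg
  obtain ⟨l', hl', h⟩ := Prg_pow BD ep ta he v hl i k
  have hle : Subgroup.closure {y : F | ∃ j : ℤ, y = (ta ^ j) v} ≤ L := by
    rw [Subgroup.closure_le]
    rintro y ⟨j, rfl⟩
    exact Prg_mem hk ta E v htk L hE hv j
  have e : (ep ^ i) ^ k = BD (E ^ i) := by
    rw [← _root_.zpow_natCast, ← _root_.zpow_mul, mul_comm, _root_.zpow_mul, _root_.zpow_natCast, hek, map_zpow]
  rw [e, ← map_mul] at h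
  rw [← mo_pow hk, ← Units.val_pow_eq_pow_val, h]
  exact hMo _ (L.mul_mem (hle hl') (L.zpow_mem hE i))

end H80HM
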