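import Pool.Agent.H80.HM.Thn
import Pool.Agent.H80.HM.Au3
import Pool.Agent.H80.HM.Prs
import Pool.Agent.H80.HM.Sub
import Pool.Agent.H80.HM.Iin
import Pool.Agent.H80.HM.Pfc
import Pool.Agent.H80.HM.Shf

set_option autoImplicit false

/-!
# Row Mth: the main theorem

k = n / 2 >= 1, e = n % 2, 2 k + e = n >= 3, so 2 <= k or e = 1 (k = 1, e = 1 for n = 3). Let c : Ix k e = Fin n be a bijection (card (Ix k e) = 2 k + e) and rho' := rho o (FreeGroup.freeGroupCongr c)
on FG k e. rho' is characteristic (conjugate the automorphism by the isomorphism) and Mo on the generators. factor_mo gives Mo (rho' (th l)) for l in the subgroup generated by the of i, i <> i0;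
with Sub (Pf L): Mo (rho' l) for all l in L1 .. L5. shift_ex gives sg and the shift structure Shs, X = Xb 0, Y = Yb 0, t = tt k e; induced (Iin) gives BD, SH, with Mo (BD u) <-> Mo (rho' u).
prs: Mp5 pi; au3: Tw6 pi, for pi = pi3 (BD X) (BD Y) SH; thn: Mo (pi g) for all g.
BD u is in the range of pi for all u: it is enough for generators: BD X_j = BD (sg^j X) = SH^{-j} BD(X) SH^j; the same for Y_j; BD t = SH^k (e = 1: of (inr 0) = t). So Mo (BD u), hence Mo (rho' u)
for all u, hence Mo (rho w) for all w.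
-/

namespace H80HM

open Matrix

theorem Mth_chr {F F' : Type} [Group F] [Group F'] {d : ℕ} (rho : F →* (Mt d)ˣ) (hchr : Chr rho)
    (phi : F' ≃* F) : Chr (rho.comp (phi : F' →* F)) := by
  intro s
  obtain ⟨g, hg⟩ := hchr (phi.symm.trans (s.trans phi))
  refine ⟨g, fun x => ?_⟩
  have h := hg (phi x)
  simpa using h

theorem Mth_aux {k e d : ℕ} (hk : 0 < k) (he : e ≤ 1) (hke : 2 ≤ k ∨ e = 1)
    (rho : FG k e →* (Mt d)ˣ) (hchr : Chr rho)
    (hmo : ∀ i, Mo ((rho (FreeGroup.of i) : (Mt d)ˣ) : Mt d)) :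
    ∀ u, Mo ((rho u : (Mt d)ˣ) : Mt d) := by
  have hPf : ∀ L : Subgroup (FG k e), Pf L → ∀ l ∈ L, Mo ((rho l : (Mt d)ˣ) : Mt d) := by
    intro L hL l hl
    obtain ⟨i0, th, h⟩ := hL
    obtain ⟨l', hl', rfl⟩ := h l hl
    exact factor_mo rho hchr hmo i0 th l' hl'
  obtain ⟨p1, p2, p3, p4, p5⟩ := sub5 hk he hke
  obtain ⟨sg, hS, hX, hY⟩ := shift_ex hk he
  obtain ⟨BD, SH, h1, h2, h3, h4⟩ := induced hk rho hchr sg (tt k e) hS.st hS.sk
  have h5 := prs hk hS.st hS.sk hX hY BD SH h1 h2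
    (fun l hl => (h4 l).2 (hPf _ p1 l hl)) (fun l hl => (h4 l).2 (hPf _ p2 l hl))
    (fun l hl => (h4 l).2 (hPf _ p3 l hl)) (fun l hl => (h4 l).2 (hPf _ p4 l hl))
    (fun l hl => (h4 l).2 (hPf _ p5 l hl))
  have h6 := au3 hS BD SH h1 h3
  have h7 := thn _ h6 h5
  set pi := pi3 (BD (Xb ⟨0, hk⟩)) (BD (Yb ⟨0, hk⟩)) SH with hpi
  have hpx : pi xx = BD (Xb ⟨0, hk⟩) := by simp [hpi, pi3, xx]
  have hpy : pi yy = BD (Yb ⟨0, hk⟩) := by simp [hpi, pi3, yy]
  have hpp : pi pp = SH := by simp [hpi, pi3, pp]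
  have hSr : SH ∈ pi.range := ⟨pp, hpp⟩
  have hstep : ∀ u, BD u ∈ pi.range → BD (sg u) ∈ pi.range := by
    intro u hu
    rw [← h1 u]
    exact pi.range.mul_mem (pi.range.mul_mem (pi.range.inv_mem hSr) hu) hSr
  have hsteps : ∀ (j : ℕ) (u : FG k e), BD u ∈ pi.range → BD ((sg ^ j) u) ∈ pi.range := by
    intro j
    induction j with
    | zero => intro u hu; exact hu
    | succ j ih =>
      intro u hu
      rw [Shf_ps1]
      exact hstep _ (ih u hu)
  have htop : (⊤ : Subgroup (FG k e)) ≤ pi.range.comap BD := by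
    rw [← FreeGroup.closure_range_of, Subgroup.closure_le]
    rintro y ⟨i, rfl⟩
    show BD (FreeGroup.of i) ∈ pi.range
    rcases i with (j | j) | i
    · have h8 := hsteps (j : ℕ) (Xb ⟨0, hk⟩) ⟨xx, hpx⟩
      rw [hX j] at h8
      exact h8
    · have h8 := hsteps (j : ℕ) (Yb ⟨0, hk⟩) ⟨yy, hpy⟩
      rw [hY j] at h8
      exact h8
    · rw [Shf_gen he i, ← h2]
      exact pi.range.pow_mem hSr k
  intro u
  rw [← h4 u]
  obtain ⟨g, hg⟩ := htop (Subgroup.mem_top u)
  have h9 : BD u = pi g := hg.symm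
  rw [h9]
  exact h7 g

theorem char_mo {n d : ℕ} (hn : 3 ≤ n) (rho : FreeGroup (Fin n) →* (Mt d)ˣ) (hchr : Chr rho)
    (hmo : ∀ i, Mo ((rho (FreeGroup.of i) : (Mt d)ˣ) : Mt d)) :
    ∀ w, Mo ((rho w : (Mt d)ˣ) : Mt d) := by
  have hcard : Fintype.card (Ix (n / 2) (n % 2)) = n := by
    simp only [Ix, Fintype.card_sum, Fintype.card_fin]
    omega
  let c : Ix (n / 2) (n % 2) ≃ Fin n := Fintype.equivFinOfCardEq hcard
  let phi : FG (n / 2) (n % 2) ≃* FreeGroup (Fin n) := FreeGroup.freeGroupCongr c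
  have h := Mth_aux (k := n / 2) (e := n % 2) (by omega) (by omega) (by omega)
    (rho.comp (phi : FG (n / 2) (n % 2) →* FreeGroup (Fin n))) (Mth_chr rho hchr phi) (fun i => by
      have h1 : (rho.comp (phi : FG (n / 2) (n % 2) →* FreeGroup (Fin n))) (FreeGroup.of i) =
          rho (FreeGroup.of (c i)) := by
        simp [phi]
      rw [h1]
      exact hmo _)
  intro w
  have h2 := h (phi.symm w)
  simpa using h2

end H80HM
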