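import Pool.Agent.H80.HM.Def2

set_option autoImplicit false

/-!
# Row Mxp: maximum principle

max_princ. f continuous on the upper half plane, invariant under z -> z+1 and z -> -1/z, f >= 0, f -> 0 at the cusp, VS f. Then f = 0.
(1) every point can be moved by z -> z+-1, z -> -1/z into |x| <= 1/2, x^2+y^2 >= 1 (Mathlib: ModularGroup.exists_smul_mem_fd and generation by S, T; or
 directly: along the orbit the imaginary part y/|cz+d|^2 takes a maximal value; or elementary descent: if x^2+y^2 < 1 (after |x| <= 1/2) then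
 y/(x^2+y^2) > y, and y/(x^2+y^2) >= ... : to get termination use the finite number of (c,d) with |cz+d| <= 1). There y >= sqrt 3/2.
 Hence, with the decay at the cusp and compactness of {|x| <= 1/2, sqrt3/2 <= y <= Y}, if f is not 0 it attains its maximum m > 0 at some z* = (x*,y*).
(2) F(y) := max over x in [0,1] of f(x,y) = max over all x (periodicity); F is continuous on (0,oo) (uniform continuity on compact sets), 0 <= F <= m, F(y*) = m,
 F(y) -> 0 as y -> oo (f(x,y) <= ep for |x| <= 1/2, and then for all x by periodicity).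
(3) choose 0 < y1 < y* < y2 with F(y2) < m and the affine function L with L(y1) = m, L(y2) = (m + F(y2))/2; so L(y*) < m = F(y*), while F(y1)-L(y1) <= 0,
 F(y2)-L(y2) < 0. For small eta > 0 the continuous function F - L + eta y^2 on [y1,y2] has values at y1, y2 smaller than at y*; let y0 be a maximum
 point, y0 in (y1,y2). Let x0 with f(x0,y0) = F(y0).
(4) apply VS at (x0,y0) with ep = eta y0^2: for small s, 4F(y0) - eta y0^2 s^2 <= F(y0e^s)+F(y0e^{-s})+2F(y0/cosh s). For small s all three arguments are in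
 [y1,y2], and F(t) <= L(t) - eta t^2 + (F(y0) - L(y0) + eta y0^2). With k = slope of L:
 sum F <= 4F(y0) + k (sum t_i - 4y0) - eta (sum t_i^2 - 4y0^2), t_i = y0e^s, y0e^{-s}, y0/cosh s (twice).
 sum t_i - 4y0 = y0(2cosh s + 2/cosh s - 4) = 2y0 (cosh s - 1)^2/cosh s <= C s^4 for s <= 1;
 sum t_i^2 - 4y0^2 = y0^2 (2cosh 2s + 2/cosh^2 s - 4) = y0^2(4 sinh^2 s - 2 tanh^2 s) >= 2 y0^2 sinh^2 s >= 2 y0^2 s^2 (cosh 2s = 1 + 2sinh^2 s,
 1/cosh^2 = 1 - tanh^2, tanh^2 <= sinh^2).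
 So -eta y0^2 s^2 <= |k| C s^4 - 2 eta y0^2 s^2, false for small s > 0.
-/

namespace H80HM

open Set Filter Topology

private lemma Mxp_inv {f : ℝ → ℝ → ℝ} (hT : ∀ x y : ℝ, 0 < y → f (x + 1) y = f x y)
    (hS : ∀ x y : ℝ, 0 < y → f (-x / (x ^ 2 + y ^ 2)) (y / (x ^ 2 + y ^ 2)) = f x y)
    (g : Matrix.SpecialLinearGroup (Fin 2) ℤ) :
    ∀ z : UpperHalfPlane, f (g • z).re (g • z).im = f z.re z.im := by
  have hg : g ∈ Subgroup.closure {ModularGroup.S, ModularGroup.T} := by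
    rw [SpecialLinearGroup.SL2Z_generators]
    exact Subgroup.mem_top g
  induction hg using Subgroup.closure_induction with
  | one =>
    intro z
    rw [one_smul]
  | mem g hg =>
    intro z
    rcases hg with rfl | hg
    · rw [UpperHalfPlane.modular_S_smul]
      have h1 : (UpperHalfPlane.mk (-z : ℂ)⁻¹ z.im_inv_neg_coe_pos).re =
          -z.re / (z.re ^ 2 + z.im ^ 2) := by
        change ((-z : ℂ)⁻¹).re = _
        rw [Complex.inv_re, Complex.normSq_neg, Complex.normSq_apply, Complex.neg_re,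
          UpperHalfPlane.coe_re, UpperHalfPlane.coe_im]
        congr 1
        ring
      have h2 : (UpperHalfPlane.mk (-z : ℂ)⁻¹ z.im_inv_neg_coe_pos).im =
          z.im / (z.re ^ 2 + z.im ^ 2) := by
        change ((-z : ℂ)⁻¹).im = _
        rw [Complex.inv_im, Complex.normSq_neg, Complex.normSq_apply, Complex.neg_im, neg_neg,
          UpperHalfPlane.coe_re, UpperHalfPlane.coe_im]
        congr 1
        ring
      rw [h1, h2]
      exact hS _ _ z.im_pos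
    · rw [mem_singleton_iff] at hg
      rw [hg, ModularGroup.re_T_smul, ModularGroup.im_T_smul]
      exact hT _ _ z.im_pos
  | mul g h _ _ ig ih =>
    intro z
    rw [mul_smul, ig, ih]
  | inv g _ ig =>
    intro z
    have h1 := ig (g⁻¹ • z)
    rw [smul_inv_smul] at h1
    exact h1.symm

private lemma Mxp_fd {f : ℝ → ℝ → ℝ} (hT : ∀ x y : ℝ, 0 < y → f (x + 1) y = f x y)
    (hS : ∀ x y : ℝ, 0 < y → f (-x / (x ^ 2 + y ^ 2)) (y / (x ^ 2 + y ^ 2)) = f x y)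
    (x y : ℝ) (hy : 0 < y) : ∃ x' y' : ℝ, |x'| ≤ 1 / 2 ∧ 1 / 2 ≤ y' ∧ f x' y' = f x y := by
  obtain ⟨z, hzr, hzi⟩ : ∃ z : UpperHalfPlane, z.re = x ∧ z.im = y :=
    ⟨UpperHalfPlane.mk ⟨x, y⟩ hy, rfl, rfl⟩
  obtain ⟨g, hg⟩ := ModularGroup.exists_smul_mem_fd z
  refine ⟨(g • z).re, (g • z).im, hg.2, ?_, ?_⟩
  · have h1 := ModularGroup.three_le_four_mul_im_sq_of_mem_fd hg
    have h2 := (g • z).im_pos
    nlinarith
  · rw [Mxp_inv hT hS g z, hzr, hzi]

private lemma Mxp_per {f : ℝ → ℝ → ℝ} (hT : ∀ x y : ℝ, 0 < y → f (x + 1) y = f x y)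
    (x y : ℝ) (hy : 0 < y) : ∃ x' : ℝ, |x'| ≤ 1 / 2 ∧ f x' y = f x y := by
  have hp : Function.Periodic (fun x => f x y) 1 := fun x => hT x y hy
  refine ⟨x - round x, abs_sub_round x, ?_⟩
  have h1 := hp.sub_int_mul_eq (x := x) (round x)
  simp only [mul_one] at h1
  exact h1

private lemma Mxp_hyp {s : ℝ} (hs : 0 < s) :
    2 * s ^ 2 ≤ Real.exp s ^ 2 + Real.exp (-s) ^ 2 + 2 * (1 / Real.cosh s) ^ 2 - 4 ∧
      4 ≤ Real.exp s + Real.exp (-s) + 2 * (1 / Real.cosh s) := by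
  have hc1 : 1 ≤ Real.cosh s := Real.one_le_cosh s
  have hc0 : 0 < Real.cosh s := Real.cosh_pos s
  have hAB : Real.exp s * Real.exp (-s) = 1 := by rw [← Real.exp_add, add_neg_cancel, Real.exp_zero]
  have hc : Real.exp s + Real.exp (-s) = 2 * Real.cosh s := by
    rw [Real.cosh_eq]
    ring
  have hsh : s ≤ Real.sinh s := Real.self_le_sinh_iff.2 hs.le
  have hcs : Real.cosh s ^ 2 = Real.sinh s ^ 2 + 1 := Real.cosh_sq s
  constructor
  · have h1 : Real.exp s ^ 2 + Real.exp (-s) ^ 2 = 4 * Real.cosh s ^ 2 - 2 := by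
      have : (Real.exp s + Real.exp (-s)) ^ 2 = 4 * Real.cosh s ^ 2 := by rw [hc]; ring
      nlinarith
    have h2 : 1 - Real.sinh s ^ 2 ≤ (1 / Real.cosh s) ^ 2 := by
      rw [div_pow, one_pow, le_div_iff₀ (by positivity), hcs]
      nlinarith [sq_nonneg (Real.sinh s ^ 2)]
    have h3 : s ^ 2 ≤ Real.sinh s ^ 2 := by
      apply pow_le_pow_left₀ hs.le hsh
    rw [h1, hcs]
    nlinarith
  · rw [hc]
    have h1 : 2 - Real.cosh s ≤ 1 / Real.cosh s := by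
      rw [le_div_iff₀ hc0]
      nlinarith [sq_nonneg (Real.cosh s - 1)]
    linarith

theorem max_princ {f : ℝ → ℝ → ℝ}
    (hc : ContinuousOn (fun z : ℝ × ℝ => f z.1 z.2) {z : ℝ × ℝ | 0 < z.2})
    (hT : ∀ x y : ℝ, 0 < y → f (x + 1) y = f x y)
    (hS : ∀ x y : ℝ, 0 < y → f (-x / (x ^ 2 + y ^ 2)) (y / (x ^ 2 + y ^ 2)) = f x y)
    (h0 : ∀ x y : ℝ, 0 < y → 0 ≤ f x y)
    (hcusp : ∀ ep : ℝ, 0 < ep → ∃ Y : ℝ, ∀ x y : ℝ, |x| ≤ 1 / 2 → Y ≤ y → f x y ≤ ep)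
    (hv : VS f) : ∀ x y : ℝ, 0 < y → f x y = 0 := by
  intro a b hb
  by_contra hne
  have hm0 : 0 < f a b := lt_of_le_of_ne (h0 a b hb) (Ne.symm hne)
  -- the maximum
  obtain ⟨Y, hY⟩ := hcusp (f a b / 2) (by linarith)
  obtain ⟨a', b', ha', hb', hab⟩ := Mxp_fd hT hS a b hb
  have hb'Y : b' < max Y 1 := by
    by_contra hcon
    have h1 := hY a' b' ha' ((le_max_left _ _).trans (not_lt.1 hcon))
    rw [hab] at h1
    linarith
  have hK : IsCompact (Icc (-(1/2) : ℝ) (1/2) ×ˢ Icc (1/2 : ℝ) (max Y 1)) :=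
    isCompact_Icc.prod isCompact_Icc
  have hKc : ContinuousOn (fun z : ℝ × ℝ => f z.1 z.2)
      (Icc (-(1/2) : ℝ) (1/2) ×ˢ Icc (1/2 : ℝ) (max Y 1)) := by
    apply hc.mono
    intro z hz
    exact lt_of_lt_of_le (by norm_num) hz.2.1
  obtain ⟨⟨xs, ys⟩, hzs, hmax⟩ := hK.exists_isMaxOn
    ⟨(a', b'), ⟨abs_le.1 ha', ⟨hb', hb'Y.le⟩⟩⟩ hKc
  obtain ⟨m, hm⟩ : ∃ m : ℝ, m = f xs ys := ⟨_, rfl⟩
  have hys : 0 < ys := lt_of_lt_of_le (by norm_num) hzs.2.1
  have hmab : f a b ≤ m := by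
    rw [← hab, hm]
    exact hmax (show (a', b') ∈ _ from ⟨abs_le.1 ha', ⟨hb', hb'Y.le⟩⟩)
  have hmpos : 0 < m := hm0.trans_le hmab
  have hle : ∀ x y : ℝ, 0 < y → f x y ≤ m := by
    intro x y hy
    obtain ⟨x', y', hx', hy', hxy⟩ := Mxp_fd hT hS x y hy
    rw [← hxy]
    rcases le_or_gt y' (max Y 1) with h | h
    · rw [hm]
      exact hmax (show (x', y') ∈ _ from ⟨abs_le.1 hx', ⟨hy', h⟩⟩)
    · have h1 := hY x' y' hx' ((le_max_left _ _).trans h.le)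
      linarith
  -- the barrier
  obtain ⟨Y2, hY2⟩ := hcusp (m / 2) (by linarith)
  obtain ⟨y2, hy2a, hy2b⟩ : ∃ y2, Y2 ≤ y2 ∧ ys < y2 :=
    ⟨max Y2 (ys + 1), le_max_left _ _, lt_of_lt_of_le (by linarith) (le_max_right _ _)⟩
  have hy2 : 0 < y2 := hys.trans hy2b
  have hfy2 : ∀ x, f x y2 ≤ m / 2 := by
    intro x
    obtain ⟨x', hx', h⟩ := Mxp_per hT x y2 hy2
    rw [← h]
    exact hY2 x' y2 hx' hy2a
  obtain ⟨y1, hy1, hy1s⟩ : ∃ y1, 0 < y1 ∧ y1 < ys := ⟨ys / 2, by linarith, by linarith⟩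
  have hy12 : 0 < y2 - y1 := by linarith
  obtain ⟨k, hk⟩ : ∃ k : ℝ, k = -(m / 4) / (y2 - y1) := ⟨_, rfl⟩
  have hk0 : k < 0 := by
    rw [hk]
    exact div_neg_of_neg_of_pos (by linarith) hy12
  have hk2 : k * (y2 - y1) = -(m / 4) := by
    rw [hk]
    field_simp
  obtain ⟨δ, hδ⟩ : ∃ δ : ℝ, δ = -(k * (ys - y1)) := ⟨_, rfl⟩
  have hδ0 : 0 < δ := by
    rw [hδ]
    have := mul_neg_of_neg_of_pos hk0 (show 0 < ys - y1 by linarith)
    linarith
  obtain ⟨η, hη⟩ : ∃ η : ℝ, η = δ / (2 * y2 ^ 2) := ⟨_, rfl⟩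
  have hη0 : 0 < η := by rw [hη]; positivity
  have hη2 : η * y2 ^ 2 = δ / 2 := by
    rw [hη]
    field_simp
  obtain ⟨Φ, hΦ⟩ : ∃ Φ : ℝ × ℝ → ℝ,
      ∀ z, Φ z = f z.1 z.2 - (m + k * (z.2 - y1)) + η * z.2 ^ 2 := ⟨_, fun _ => rfl⟩
  have hK2 : IsCompact (Icc (-(1/2) : ℝ) (1/2) ×ˢ Icc y1 y2) := isCompact_Icc.prod isCompact_Icc
  have hΦc : ContinuousOn Φ (Icc (-(1/2) : ℝ) (1/2) ×ˢ Icc y1 y2) := by
    have h1 : Φ = fun z : ℝ × ℝ => f z.1 z.2 - (m + k * (z.2 - y1)) + η * z.2 ^ 2 := funext hΦ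
    rw [h1]
    apply ContinuousOn.add
    · apply ContinuousOn.sub
      · apply hc.mono
        intro z hz
        exact lt_of_lt_of_le hy1 hz.2.1
      · fun_prop
    · fun_prop
  have hxs : |xs| ≤ 1 / 2 := abs_le.2 hzs.1
  have hzK : (xs, ys) ∈ Icc (-(1/2) : ℝ) (1/2) ×ˢ Icc y1 y2 := ⟨hzs.1, hy1s.le, hy2b.le⟩
  obtain ⟨⟨x0, y0⟩, hz0, hmax2⟩ := hK2.exists_isMaxOn ⟨(xs, ys), hzK⟩ hΦc
  have hΦs : δ < Φ (xs, ys) := by
    rw [hΦ]
    simp only
    rw [← hm]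
    have : 0 < η * ys ^ 2 := by positivity
    rw [hδ]
    linarith
  have hΦ0 : δ < Φ (x0, y0) := hΦs.trans_le (hmax2 hzK)
  have hy0pos : 0 < y0 := hy1.trans_le hz0.2.1
  have hy0a : y1 < y0 := by
    rcases hz0.2.1.eq_or_lt with h | h
    · exfalso
      have h' : y0 = y1 := h.symm
      rw [hΦ] at hΦ0
      simp only at hΦ0
      rw [h'] at hΦ0
      have h1 := hle x0 y1 hy1
      have h2 : η * y1 ^ 2 ≤ η * y2 ^ 2 := by
        have : y1 ≤ y2 := by linarith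
        gcongr
      rw [sub_self, mul_zero] at hΦ0
      linarith
    · exact h
  have hy0b : y0 < y2 := by
    rcases hz0.2.2.eq_or_lt with h | h
    · exfalso
      have h' : y0 = y2 := h
      rw [hΦ] at hΦ0
      simp only at hΦ0
      rw [h', hk2] at hΦ0
      have h1 := hfy2 x0
      linarith
    · exact h
  -- comparison
  have hcmp : ∀ x t : ℝ, y1 ≤ t → t ≤ y2 →
      f x t ≤ Φ (x0, y0) + (m + k * (t - y1)) - η * t ^ 2 := by
    intro x t h1 h2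
    obtain ⟨x', hx', h⟩ := Mxp_per hT x t (hy1.trans_le h1)
    have h3 := hmax2 (show (x', t) ∈ _ from ⟨abs_le.1 hx', h1, h2⟩)
    simp only [Set.mem_ofPred_eq] at h3
    rw [hΦ (x', t)] at h3
    simp only at h3
    rw [h] at h3
    linarith
  obtain ⟨s0, hs0, hvs⟩ := hv x0 y0 hy0pos (η * y0 ^ 2) (by positivity)
  have hl1 : 0 < Real.log (y2 / y0) := Real.log_pos (by rw [lt_div_iff₀ hy0pos]; linarith)
  have hl2 : 0 < Real.log (y0 / y1) := Real.log_pos (by rw [lt_div_iff₀ hy1]; linarith)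
  obtain ⟨s, hs, hss0, hsa, hsb⟩ : ∃ s : ℝ, 0 < s ∧ s < s0 ∧ s ≤ Real.log (y2 / y0) ∧
      s ≤ Real.log (y0 / y1) := by
    refine ⟨min (s0 / 2) (min (Real.log (y2 / y0)) (Real.log (y0 / y1))), ?_, ?_, ?_, ?_⟩
    · exact lt_min (by linarith) (lt_min hl1 hl2)
    · exact lt_of_le_of_lt (min_le_left _ _) (by linarith)
    · exact (min_le_right _ _).trans (min_le_left _ _)
    · exact (min_le_right _ _).trans (min_le_right _ _)
  have hA : Real.exp s ≤ y2 / y0 := by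
    rw [← Real.exp_log (show 0 < y2 / y0 by positivity)]
    exact Real.exp_le_exp.2 hsa
  have hB : y1 / y0 ≤ Real.exp (-s) := by
    have h1 : Real.exp s ≤ y0 / y1 := by
      rw [← Real.exp_log (show 0 < y0 / y1 by positivity)]
      exact Real.exp_le_exp.2 hsb
    rw [Real.exp_neg, ← inv_div]
    exact inv_anti₀ (Real.exp_pos s) h1
  have hA' : y0 * Real.exp s ≤ y2 := by
    rw [le_div_iff₀ hy0pos] at hA
    linarith
  have hB' : y1 ≤ y0 * Real.exp (-s) := by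
    rw [div_le_iff₀ hy0pos] at hB
    linarith
  have hAB : Real.exp s * Real.exp (-s) = 1 := by rw [← Real.exp_add, add_neg_cancel, Real.exp_zero]
  have he1 : 1 ≤ Real.exp s := Real.one_le_exp hs.le
  have he2 : Real.exp (-s) ≤ 1 := Real.exp_le_one_iff.2 (by linarith)
  have hcosh1 : 1 ≤ Real.cosh s := Real.one_le_cosh s
  have hcosh2 : Real.cosh s ≤ Real.exp s := by
    rw [Real.cosh_eq]
    linarith
  have hcosh0 : 0 < Real.cosh s := Real.cosh_pos s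
  have hC1 : y0 / Real.cosh s ≤ y0 := div_le_self hy0pos.le hcosh1
  have hC2 : y0 * Real.exp (-s) ≤ y0 / Real.cosh s := by
    rw [le_div_iff₀ hcosh0, mul_assoc]
    have : Real.exp (-s) * Real.cosh s ≤ Real.exp (-s) * Real.exp s := by gcongr
    rw [mul_comm (Real.exp (-s)) (Real.exp s), hAB] at this
    nlinarith
  have q := hvs s hs hss0
  have q1 := hcmp x0 (y0 * Real.exp s) (hz0.2.1.trans (by nlinarith)) hA'
  have q2 := hcmp x0 (y0 * Real.exp (-s)) hB' (by nlinarith)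
  have q3 := hcmp (x0 - y0 * Real.tanh s) (y0 / Real.cosh s) (hB'.trans hC2) (hC1.trans hy0b.le)
  have q4 := hcmp (x0 + y0 * Real.tanh s) (y0 / Real.cosh s) (hB'.trans hC2) (hC1.trans hy0b.le)
  have q5 : f x0 y0 = Φ (x0, y0) + (m + k * (y0 - y1)) - η * y0 ^ 2 := by
    rw [hΦ (x0, y0)]
    ring
  obtain ⟨r1, r2⟩ := Mxp_hyp hs
  have hcs : y0 / Real.cosh s = y0 * (1 / Real.cosh s) := by ring
  rw [hcs] at q q3 q4
  have e1 : k * (y0 * (Real.exp s + Real.exp (-s) + 2 * (1 / Real.cosh s) - 4)) ≤ 0 :=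
    mul_nonpos_of_nonpos_of_nonneg hk0.le (mul_nonneg hy0pos.le (by linarith))
  have e2 : η * y0 ^ 2 * (2 * s ^ 2) ≤ η * y0 ^ 2 *
      (Real.exp s ^ 2 + Real.exp (-s) ^ 2 + 2 * (1 / Real.cosh s) ^ 2 - 4) := by
    gcongr
  have e3 : 0 < η * y0 ^ 2 * s ^ 2 := by positivity
  linarith [q, q1, q2, q3, q4, q5, e1, e2, e3]

end H80HM
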