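import Pool.Agent.H80.HM.Defs

set_option autoImplicit false

/-!
# Row Pi2: pointwise inequalities, second group (derivative of the truncated difference; truncation inequality)

Notation as in PtD: Q, lam, a, s. For the metric Kf psi: z = zz psi. Write w = (lam p - lam r)/2, sg = s/(lam p - lam r) if lam p is not lam r.
1. dn_le. With H = Q Q* (from FrL) dn t H X = n2 (H x)(pd t X x) = sum_pr |(Q^{-1} pd Q)(p,r)|^2 (compute: tr(Y Q Q* Y* Q^{-*} Q^{-1}) with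
   Y = Q Z Q^{-1} is tr(Z Z*)), Z(p,r) = dd phi s_pr + a_pr (phi_r - phi_p), phi_p = phi(lam p).  |Z(p,r)|^2 <= 2 dd^2 |s|^2 + 2 (phi_p-phi_r)^2|a|^2.
   gap = sum over p,r and over the directions e, f of g := |z0|^2 + |z1|^2 - 2|zh|^2 (z0 = a, z1 = zz id, zh = zz hf).
   CASE lam p = lam r: dd = phi', |Z|^2 = phi'^2 |s|^2 <= |s|^2 and g = |a|^2 + |a+s/2|^2 - 2|a+s/4|^2 = |s|^2/8.
   CASE different, y = (phi_p - phi_r)/2: dd s = 2 y sg, so |Z|^2 <= 8 y^2 (|sg|^2 + |a|^2), |y| <= min(|w|, 1) (0 <= phi' <= 1, |phi| <= 1).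
   z1 = cosh w a + sinh w sg, z0 + z1 = 2 cosh(w/2) zh. Put u = z1 - z0, v = z0 + z1, T = tanh(w/2) (not 0). Then
   g = |u|^2/2 + (T^2/2)|v|^2, a = (v-u)/2, sg = (u/T - v T)/2 (because (1-cosh w)/sinh w = -T, (1+cosh w)/sinh w = 1/T).
   |a|^2 <= (|u|^2+|v|^2)/2, |sg|^2 <= (|u|^2/T^2 + T^2|v|^2)/2. Since tanh is concave on [0,oo): T^2 >= tanh(1/2)^2 min(w^2,1) >= (1/5) min(w^2,1)
   (tanh(1/2) = 0.4621.., square 0.2135..), so y^2 <= 5T^2, and y^2 <= 1: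
   y^2(|a|^2+|sg|^2) <= (y^2 + y^2/T^2)|u|^2/2 + (y^2 + y^2T^2)|v|^2/2 <= 3|u|^2 + 5T^2|v|^2 <= 10 g.   So |Z|^2 <= 80 g.
2. trunc. c positive semidefinite, Qc(z) the Hermitian form c11|z_e|^2+2c12Re(z_e star z_f)+c22|z_f|^2, Bc its polarisation (real part).
   CASE different: Qc(cosh y a + sinh y sg) = F(y) = ((al+ga)/2)e^{2y} + ((al-ga)/2)e^{-2y} + be, al = (Qc(a)+Qc(sg))/2 >= |ga|, ga = Bc(a,sg),
   be = (Qc(a)-Qc(sg))/2. Values: H: y=0, G: y=w, Kf phi: y1 = (phi_p-phi_r)/2, Kf(id-phi): w - y1, and y1, w-y1 have the sign of w (or 0).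
   e^{2y1} + e^{2(w-y1)} <= 1 + e^{2w}  <=>  (e^{2y1}-1)(e^{2(w-y1)}-1) >= 0, true; same with -2. So F(y1)+F(w-y1) <= F(0)+F(w).
   CASE equal, th = phi'(lam p) in [0,1], b = s/2: Qc(a+th b)+Qc(a+(1-th)b) = 2Qc(a)+2Bc(a,b)+(th^2+(1-th)^2)Qc(b) <= Qc(a)+Qc(a+b).
-/

namespace H80HM

open Matrix MeasureTheory Set
open scoped ComplexOrder

/-- a real quadratic form -/
def Pi2_R (c : ℝ × ℝ × ℝ) (u v : ℝ) : ℝ := c.1 * u ^ 2 + 2 * c.2.1 * (u * v) + c.2.2 * v ^ 2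

theorem Pi2_R_nonneg {c : ℝ × ℝ × ℝ} (h : Psd c) (u v : ℝ) : 0 ≤ Pi2_R c u v := by
  unfold Pi2_R
  obtain ⟨h1, h2, h3⟩ := h
  rcases h1.eq_or_lt with h0 | h0
  · have h4 : c.2.1 = 0 := by
      have h5 : c.2.1 ^ 2 ≤ 0 := by
        rw [← h0, zero_mul] at h3
        exact h3
      exact (pow_eq_zero_iff two_ne_zero).1 (le_antisymm h5 (sq_nonneg _))
    rw [← h0, h4]
    nlinarith [mul_nonneg h2 (sq_nonneg v)]
  · have h4 : 0 ≤ c.1 * (c.1 * u ^ 2 + 2 * c.2.1 * (u * v) + c.2.2 * v ^ 2) := by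
      have h5 : c.1 * (c.1 * u ^ 2 + 2 * c.2.1 * (u * v) + c.2.2 * v ^ 2) =
          (c.1 * u + c.2.1 * v) ^ 2 + (c.1 * c.2.2 - c.2.1 ^ 2) * v ^ 2 := by ring
      rw [h5]
      exact add_nonneg (sq_nonneg _) (mul_nonneg (by linarith) (sq_nonneg _))
    exact (mul_nonneg_iff_of_pos_left h0).1 h4

theorem Pi2_P {al be : ℝ} (h : 0 ≤ al * be) :
    0 ≤ (Real.exp al ^ 2 - 1) * (Real.exp be ^ 2 - 1) := by
  have hup : ∀ t : ℝ, 0 ≤ t → 0 ≤ Real.exp t ^ 2 - 1 := by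
    intro t ht
    have h1 := Real.one_le_exp ht
    nlinarith
  have hdn : ∀ t : ℝ, t ≤ 0 → Real.exp t ^ 2 - 1 ≤ 0 := by
    intro t ht
    have h1 := Real.exp_le_one_iff.2 ht
    have h2 := Real.exp_pos t
    nlinarith
  rcases mul_nonneg_iff.1 h with ⟨h1, h2⟩ | ⟨h1, h2⟩
  · exact mul_nonneg (hup _ h1) (hup _ h2)
  · exact mul_nonneg_of_nonpos_of_nonpos (hdn _ h1) (hdn _ h2)

theorem Pi2_hyp {c : ℝ × ℝ × ℝ} (h : Psd c) {al be : ℝ} (hab : 0 ≤ al * be) (u v s t : ℝ) :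
    Pi2_R c (Real.cosh al * u + Real.sinh al * s) (Real.cosh al * v + Real.sinh al * t) +
      Pi2_R c (Real.cosh be * u + Real.sinh be * s) (Real.cosh be * v + Real.sinh be * t) ≤
    Pi2_R c u v + Pi2_R c (Real.cosh (al + be) * u + Real.sinh (al + be) * s)
      (Real.cosh (al + be) * v + Real.sinh (al + be) * t) := by
  have hP := Pi2_P hab
  have hN := Pi2_P (al := -al) (be := -be) (by rw [neg_mul_neg]; exact hab)
  have hRp := Pi2_R_nonneg h (u + s) (v + t)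
  have hRm := Pi2_R_nonneg h (u - s) (v - t)
  have hX : Real.exp al * Real.exp (-al) = 1 := by rw [← Real.exp_add, add_neg_cancel, Real.exp_zero]
  have hY : Real.exp be * Real.exp (-be) = 1 := by rw [← Real.exp_add, add_neg_cancel, Real.exp_zero]
  rw [Real.cosh_eq, Real.cosh_eq, Real.cosh_eq, Real.sinh_eq, Real.sinh_eq, Real.sinh_eq, neg_add,
    Real.exp_add, Real.exp_add]
  generalize Real.exp al = X at *
  generalize Real.exp (-al) = X' at *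
  generalize Real.exp be = Y at *
  generalize Real.exp (-be) = Y' at *
  have h1 := mul_nonneg hP hRp
  have h2 := mul_nonneg hN hRm
  rw [← sub_nonneg]
  have h3 : Pi2_R c u v + Pi2_R c ((X * Y + X' * Y') / 2 * u + (X * Y - X' * Y') / 2 * s)
        ((X * Y + X' * Y') / 2 * v + (X * Y - X' * Y') / 2 * t) -
      (Pi2_R c ((X + X') / 2 * u + (X - X') / 2 * s) ((X + X') / 2 * v + (X - X') / 2 * t) +
      Pi2_R c ((Y + Y') / 2 * u + (Y - Y') / 2 * s) ((Y + Y') / 2 * v + (Y - Y') / 2 * t)) =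
      ((X ^ 2 - 1) * (Y ^ 2 - 1) * Pi2_R c (u + s) (v + t) +
        (X' ^ 2 - 1) * (Y' ^ 2 - 1) * Pi2_R c (u - s) (v - t)) / 4 := by
    unfold Pi2_R
    linear_combination ((c.1 * (u + s) * (u - s) + c.2.1 * ((u + s) * (v - t) + (v + t) * (u - s)) +
      c.2.2 * (v + t) * (v - t)) / 2 * (Y * Y' - 1)) * hX
  rw [h3]
  exact div_nonneg (add_nonneg h1 h2) (by norm_num)

theorem Pi2_lin {c : ℝ × ℝ × ℝ} (h : Psd c) {th : ℝ} (h0 : 0 ≤ th) (h1 : th ≤ 1)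
    (u v s t : ℝ) :
    Pi2_R c (u + th * s) (v + th * t) + Pi2_R c (u + (1 - th) * s) (v + (1 - th) * t) ≤
      Pi2_R c u v + Pi2_R c (u + s) (v + t) := by
  have hR := Pi2_R_nonneg h s t
  rw [← sub_nonneg]
  have h3 : Pi2_R c u v + Pi2_R c (u + s) (v + t) -
      (Pi2_R c (u + th * s) (v + th * t) + Pi2_R c (u + (1 - th) * s) (v + (1 - th) * t)) =
      2 * th * (1 - th) * Pi2_R c s t := by
    unfold Pi2_R
    ring
  rw [h3]
  exact mul_nonneg (mul_nonneg (by linarith) (by linarith)) hR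

theorem Pi2_mono {phi : ℝ → ℝ} (hc : ContDiff ℝ 1 phi) (h0 : ∀ t, 0 ≤ deriv phi t)
    (h1 : ∀ t, deriv phi t ≤ 1) :
    Monotone phi ∧ Monotone (fun t => t - phi t) ∧
      ∀ t, deriv (fun t => t - phi t) t = 1 - deriv phi t := by
  have hd : Differentiable ℝ phi := hc.differentiable one_ne_zero
  have h2 : ∀ t, deriv (fun t => t - phi t) t = 1 - deriv phi t := by
    intro t
    have h3 := ((hasDerivAt_id t).sub (hd t).hasDerivAt).deriv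
    exact h3
  refine ⟨monotone_of_deriv_nonneg hd h0, ?_, h2⟩
  refine monotone_of_deriv_nonneg (differentiable_id.sub hd) fun t => ?_
  rw [h2 t]
  linarith [h1 t]

/-- the real version of the component -/
noncomputable def Pi2_z (psi : ℝ → ℝ) (p r u s : ℝ) : ℝ :=
  Real.cosh ((psi p - psi r) / 2) * u + sh psi p r * s

theorem Pi2_zz_re (psi : ℝ → ℝ) (p r : ℝ) (a s : ℂ) :
    (zz psi p r a s).re = Pi2_z psi p r a.re s.re := by
  unfold zz Pi2_z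
  rw [Complex.add_re, Complex.re_ofReal_mul, Complex.re_ofReal_mul]

theorem Pi2_zz_im (psi : ℝ → ℝ) (p r : ℝ) (a s : ℂ) :
    (zz psi p r a s).im = Pi2_z psi p r a.im s.im := by
  unfold zz Pi2_z
  rw [Complex.add_im, Complex.im_ofReal_mul, Complex.im_ofReal_mul]

theorem Pi2_z_eq (psi : ℝ → ℝ) (p u s : ℝ) : Pi2_z psi p p u s = u + deriv psi p * (s / 2) := by
  unfold Pi2_z sh
  rw [if_pos rfl, sub_self, zero_div, Real.cosh_zero]
  ring

theorem Pi2_z_ne (psi : ℝ → ℝ) {p r : ℝ} (hpr : p ≠ r) (u s : ℝ) :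
    Pi2_z psi p r u s = Real.cosh ((psi p - psi r) / 2) * u +
      Real.sinh ((psi p - psi r) / 2) * (s / (p - r)) := by
  unfold Pi2_z sh
  rw [if_neg hpr]
  ring

theorem Pi2_tr {c : ℝ × ℝ × ℝ} (h : Psd c) {phi : ℝ → ℝ} (hc : ContDiff ℝ 1 phi)
    (h0 : ∀ t, 0 ≤ deriv phi t) (h1 : ∀ t, deriv phi t ≤ 1) (p r u v s t : ℝ) :
    Pi2_R c (Pi2_z phi p r u s) (Pi2_z phi p r v t) +
      Pi2_R c (Pi2_z (fun t => t - phi t) p r u s) (Pi2_z (fun t => t - phi t) p r v t) ≤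
    Pi2_R c u v + Pi2_R c (Pi2_z id p r u s) (Pi2_z id p r v t) := by
  obtain ⟨hm1, hm2, hd⟩ := Pi2_mono hc h0 h1
  by_cases hpr : p = r
  · subst hpr
    simp only [Pi2_z_eq, hd, deriv_id, one_mul]
    exact Pi2_lin h (h0 p) (h1 p) u v (s / 2) (t / 2)
  · simp only [Pi2_z_ne _ hpr, id]
    have h2 : (p - r) / 2 = (phi p - phi r) / 2 + ((p - phi p) - (r - phi r)) / 2 := by ring
    rw [h2]
    refine Pi2_hyp h ?_ u v _ _
    rcases le_total p r with h3 | h3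
    · have h4 := hm1 h3
      have h5 : p - phi p ≤ r - phi r := hm2 h3
      exact mul_nonneg_of_nonpos_of_nonpos (by linarith) (by linarith)
    · have h4 := hm1 h3
      have h5 : r - phi r ≤ p - phi p := hm2 h3
      exact mul_nonneg (by linarith) (by linarith)

theorem Pi2_qc {m : ℕ} (e f : ℝ × ℝ) (c : ℝ × ℝ × ℝ) (K : ℝ × ℝ → Mt m) (x : ℝ × ℝ)
    (z : ℝ × ℝ → Fin m → Fin m → ℂ)
    (h : ∀ t t', q t t' K x = ∑ p, ∑ r, (z t p r * star (z t' p r)).re) :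
    qc e f c K x = ∑ p, ∑ r, (Pi2_R c (z e p r).re (z f p r).re +
      Pi2_R c (z e p r).im (z f p r).im) := by
  unfold qc
  rw [h, h, h, Finset.mul_sum, Finset.mul_sum, Finset.mul_sum, ← Finset.sum_add_distrib,
    ← Finset.sum_add_distrib]
  refine Finset.sum_congr rfl fun p _ => ?_
  rw [Finset.mul_sum, Finset.mul_sum, Finset.mul_sum, ← Finset.sum_add_distrib,
    ← Finset.sum_add_distrib]
  refine Finset.sum_congr rfl fun r _ => ?_
  unfold Pi2_R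
  simp only [Complex.mul_re, Complex.star_def, Complex.conj_re, Complex.conj_im]
  ring

theorem Pi2_n2 {m : ℕ} {Q : Mt m} (hQ : IsUnit Q.det) (Z : Mt m) :
    n2 (Q * Qᴴ) (Q * Z * Q⁻¹) = ∑ p, ∑ r, (Z p r * star (Z p r)).re := by
  have h1 : Q⁻¹ * Q = 1 := Matrix.nonsing_inv_mul _ hQ
  have h2 : Qᴴ * (Q⁻¹)ᴴ = 1 := by
    rw [← Matrix.conjTranspose_mul, h1, Matrix.conjTranspose_one]
  have hQ' : IsUnit (Qᴴ).det := by
    rw [Matrix.det_conjTranspose]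
    exact hQ.star
  have h3 : Qᴴ * (Qᴴ)⁻¹ = 1 := Matrix.mul_nonsing_inv _ hQ'
  have h4 : Q * Z * Q⁻¹ * (Q * Qᴴ) * (Q * Z * Q⁻¹)ᴴ * (Q * Qᴴ)⁻¹ = Q * (Z * Zᴴ) * Q⁻¹ := by
    rw [Matrix.mul_inv_rev, Matrix.conjTranspose_mul, Matrix.conjTranspose_mul]
    calc Q * Z * Q⁻¹ * (Q * Qᴴ) * ((Q⁻¹)ᴴ * (Zᴴ * Qᴴ)) * ((Qᴴ)⁻¹ * Q⁻¹)
        = Q * Z * (Q⁻¹ * Q) * (Qᴴ * (Q⁻¹)ᴴ) * Zᴴ * (Qᴴ * (Qᴴ)⁻¹) * Q⁻¹ := by
          simp only [Matrix.mul_assoc]
      _ = Q * (Z * Zᴴ) * Q⁻¹ := by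
          rw [h1, h2, h3]
          simp only [Matrix.mul_one, Matrix.mul_assoc]
  unfold n2
  rw [h4, Matrix.trace_mul_cycle, h1, Matrix.one_mul]
  simp only [Matrix.trace, Matrix.diag_apply, Matrix.mul_apply, Matrix.conjTranspose_apply,
    Complex.re_sum]

theorem Pi2_exp {w y : ℝ} (h1 : y ^ 2 ≤ w ^ 2) (h2 : y ^ 2 ≤ 1) :
    y ^ 2 ≤ 4 * (1 - Real.exp (-w)) ^ 2 := by
  rcases le_total w 0 with hw | hw
  · have h3 := Real.add_one_le_exp (-w)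
    nlinarith
  · have h3 : Real.exp (-w) * (1 + w) ≤ 1 := by
      have h4 := Real.add_one_le_exp w
      have h5 : Real.exp (-w) * Real.exp w = 1 := by
        rw [← Real.exp_add, neg_add_cancel, Real.exp_zero]
      have h6 := Real.exp_pos (-w)
      nlinarith
    have h6 := Real.exp_pos (-w)
    rcases le_total w 1 with hw1 | hw1
    · have h7 : w / 2 ≤ 1 - Real.exp (-w) := by nlinarith
      nlinarith
    · have h7 : 1 / 2 ≤ 1 - Real.exp (-w) := by nlinarith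
      nlinarith

theorem Pi2_gap_ne {w y : ℝ} (h1 : y ^ 2 ≤ w ^ 2) (h2 : y ^ 2 ≤ 1) (a g : ℝ) :
    (2 * y * (g - a)) ^ 2 ≤ 80 * (a ^ 2 + (Real.cosh w * a + Real.sinh w * g) ^ 2 -
      2 * (Real.cosh (w / 2) * a + Real.sinh (w / 2) * g) ^ 2) := by
  have h3 := Pi2_exp h1 h2
  have e1 : Real.exp w = Real.exp (w / 2) ^ 2 := by
    rw [← Real.exp_nat_mul]
    congr 1
    push_cast
    ring
  have e2 : Real.exp (-w) = Real.exp (-(w / 2)) ^ 2 := by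
    rw [← Real.exp_nat_mul]
    congr 1
    push_cast
    ring
  have hX : Real.exp (w / 2) * Real.exp (-(w / 2)) = 1 := by
    rw [← Real.exp_add, add_neg_cancel, Real.exp_zero]
  rw [Real.cosh_eq, Real.cosh_eq, Real.sinh_eq, Real.sinh_eq, e1, e2]
  rw [e2] at h3
  generalize Real.exp (w / 2) = X at *
  generalize Real.exp (-(w / 2)) = Y at *
  have h4 : a ^ 2 + ((X ^ 2 + Y ^ 2) / 2 * a + (X ^ 2 - Y ^ 2) / 2 * g) ^ 2 -
      2 * ((X + Y) / 2 * a + (X - Y) / 2 * g) ^ 2 =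
      ((X ^ 2 - 1) ^ 2 * (a + g) ^ 2 + (1 - Y ^ 2) ^ 2 * (a - g) ^ 2) / 4 := by
    linear_combination ((a + g) * (a - g) / 2 * (X * Y - 1)) * hX
  rw [h4]
  have h5 : y ^ 2 * (a - g) ^ 2 ≤ 4 * (1 - Y ^ 2) ^ 2 * (a - g) ^ 2 :=
    mul_le_mul_of_nonneg_right h3 (sq_nonneg _)
  have h6 : 0 ≤ (X ^ 2 - 1) ^ 2 * (a + g) ^ 2 := by positivity
  have h7 : 0 ≤ (1 - Y ^ 2) ^ 2 * (a - g) ^ 2 := by positivity
  have h8 : (2 * y * (g - a)) ^ 2 = 4 * (y ^ 2 * (a - g) ^ 2) := by ring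
  rw [h8]
  linarith

theorem Pi2_gap_eq {th : ℝ} (h0 : 0 ≤ th) (h1 : th ≤ 1) (a s : ℝ) :
    (th * s) ^ 2 ≤ 80 * (a ^ 2 + (a + 1 * (s / 2)) ^ 2 - 2 * (a + 1 / 2 * (s / 2)) ^ 2) := by
  have h2 : th ^ 2 ≤ 1 := by nlinarith
  have h3 : th ^ 2 * s ^ 2 ≤ 1 * s ^ 2 := mul_le_mul_of_nonneg_right h2 (sq_nonneg _)
  have h4 : 80 * (a ^ 2 + (a + 1 * (s / 2)) ^ 2 - 2 * (a + 1 / 2 * (s / 2)) ^ 2) = 10 * s ^ 2 := by
    ring
  rw [h4, mul_pow]
  nlinarith [sq_nonneg s]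

theorem Pi2_hf : ContDiff ℝ 1 hf := by
  unfold hf
  exact contDiff_id.div_const 2

theorem Pi2_hf_deriv (t : ℝ) : deriv hf t = 1 / 2 := by
  have h := ((hasDerivAt_id t).div_const 2).deriv
  exact h

theorem Pi2_gap {phi : ℝ → ℝ} (hc : ContDiff ℝ 1 phi) (h0 : ∀ t, 0 ≤ deriv phi t)
    (h1 : ∀ t, deriv phi t ≤ 1) (hb : ∀ t, |phi t| ≤ 1) (p r a s : ℝ) :
    (dd phi p r * s + a * (phi r - phi p)) ^ 2 ≤
      80 * (a ^ 2 + (Pi2_z id p r a s) ^ 2 - 2 * (Pi2_z hf p r a s) ^ 2) := by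
  obtain ⟨hm1, hm2, -⟩ := Pi2_mono hc h0 h1
  by_cases hpr : p = r
  · subst hpr
    rw [Pi2_z_eq, Pi2_z_eq, Pi2_hf_deriv, deriv_id, sub_self, mul_zero, add_zero]
    unfold dd
    rw [if_pos rfl]
    exact Pi2_gap_eq (h0 p) (h1 p) a s
  · have hne : p - r ≠ 0 := sub_ne_zero.2 hpr
    rw [Pi2_z_ne _ hpr, Pi2_z_ne _ hpr]
    unfold dd
    rw [if_neg hpr]
    have e1 : (phi p - phi r) / (p - r) * s + a * (phi r - phi p) =
        2 * ((phi p - phi r) / 2) * (s / (p - r) - a) := by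
      ring
    have e2 : (hf p - hf r) / 2 = (p - r) / 2 / 2 := by
      unfold hf
      ring
    rw [e1, e2, id, id]
    refine Pi2_gap_ne ?_ ?_ a (s / (p - r))
    · rcases le_total p r with h3 | h3
      · have h4 := hm1 h3
        have h5 : p - phi p ≤ r - phi r := hm2 h3
        nlinarith
      · have h4 := hm1 h3
        have h5 : r - phi r ≤ p - phi p := hm2 h3
        nlinarith
    · have h6 := abs_le.1 (hb p)
      have h7 := abs_le.1 (hb r)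
      nlinarith

theorem Pi2_sq (z : ℂ) : (z * star z).re = z.re ^ 2 + z.im ^ 2 := by
  simp only [Complex.mul_re, Complex.star_def, Complex.conj_re, Complex.conj_im]
  ring

theorem Pi2_gapC {phi : ℝ → ℝ} (hc : ContDiff ℝ 1 phi) (h0 : ∀ t, 0 ≤ deriv phi t)
    (h1 : ∀ t, deriv phi t ≤ 1) (hb : ∀ t, |phi t| ≤ 1) (p r : ℝ) (a s : ℂ) :
    ((((dd phi p r : ℝ) : ℂ) * s + a * ((phi r - phi p : ℝ) : ℂ)) *
      star (((dd phi p r : ℝ) : ℂ) * s + a * ((phi r - phi p : ℝ) : ℂ))).re ≤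
      80 * ((a * star a).re + (zz id p r a s * star (zz id p r a s)).re -
        2 * (zz hf p r a s * star (zz hf p r a s)).re) := by
  simp only [Pi2_sq, Pi2_zz_re, Pi2_zz_im, Complex.add_re, Complex.add_im, Complex.re_ofReal_mul,
    Complex.im_ofReal_mul, Complex.re_mul_ofReal, Complex.im_mul_ofReal]
  have e1 := Pi2_gap hc h0 h1 hb p r a.re s.re
  have e2 := Pi2_gap hc h0 h1 hb p r a.im s.im
  linarith

theorem dn_le {m : ℕ} {H G : ℝ × ℝ → Mt m} {x : ℝ × ℝ} (h : PtD H G x) {phi : ℝ → ℝ}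
    (hc : ContDiff ℝ 1 phi) (h0 : ∀ t, 0 ≤ deriv phi t) (h1 : ∀ t, deriv phi t ≤ 1)
    (hb : ∀ t, |phi t| ≤ 1) (e f : ℝ × ℝ) :
    dn e H (Xf phi H G) x + dn f H (Xf phi H G) x ≤ 80 * gap e f H G x := by
  obtain ⟨Q, lam, a, s, ⟨hQ, hH, -⟩, -, -, -, -, -, hqH, hqG, hK, hX⟩ := h
  have key : ∀ t, dn t H (Xf phi H G) x ≤
      80 * (q t t H x + q t t G x - 2 * q t t (Kf hf H G) x) := by
    intro t
    unfold dn
    rw [hX phi hc t, hH, Pi2_n2 hQ, hqH, hqG, hK hf Pi2_hf, Finset.mul_sum,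
      ← Finset.sum_add_distrib, ← Finset.sum_sub_distrib, Finset.mul_sum]
    refine Finset.sum_le_sum fun p _ => ?_
    rw [Finset.mul_sum, ← Finset.sum_add_distrib, ← Finset.sum_sub_distrib, Finset.mul_sum]
    refine Finset.sum_le_sum fun r _ => ?_
    exact Pi2_gapC hc h0 h1 hb (lam p) (lam r) (a t p r) (s t p r)
  have h2 := key e
  have h3 := key f
  unfold gap qc
  dsimp only
  linarith

theorem trunc {m : ℕ} {H G : ℝ × ℝ → Mt m} {x : ℝ × ℝ} (h : PtD H G x) {phi : ℝ → ℝ}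
    (hc : ContDiff ℝ 1 phi) (h0 : ∀ t, 0 ≤ deriv phi t) (h1 : ∀ t, deriv phi t ≤ 1)
    (e f : ℝ × ℝ) {c : ℝ × ℝ × ℝ} (hpsd : Psd c) :
    qc e f c (Kf phi H G) x + qc e f c (Kf (fun t => t - phi t) H G) x ≤
      qc e f c H x + qc e f c G x := by
  obtain ⟨Q, lam, a, s, -, -, -, -, -, -, hqH, hqG, hK, -⟩ := h
  rw [Pi2_qc e f c H x (fun t p r => a t p r) hqH,
    Pi2_qc e f c G x (fun t p r => zz id (lam p) (lam r) (a t p r) (s t p r)) hqG,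
    Pi2_qc e f c (Kf phi H G) x (fun t p r => zz phi (lam p) (lam r) (a t p r) (s t p r))
      (hK phi hc),
    Pi2_qc e f c (Kf (fun t => t - phi t) H G) x
      (fun t p r => zz (fun t => t - phi t) (lam p) (lam r) (a t p r) (s t p r))
      (hK _ (contDiff_id.sub hc)), ← Finset.sum_add_distrib, ← Finset.sum_add_distrib]
  refine Finset.sum_le_sum fun p _ => ?_
  rw [← Finset.sum_add_distrib, ← Finset.sum_add_distrib]
  refine Finset.sum_le_sum fun r _ => ?_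
  simp only [Pi2_zz_re, Pi2_zz_im]
  have e1 := Pi2_tr hpsd hc h0 h1 (lam p) (lam r) (a e p r).re (a f p r).re (s e p r).re
    (s f p r).re
  have e2 := Pi2_tr hpsd hc h0 h1 (lam p) (lam r) (a e p r).im (a f p r).im (s e p r).im
    (s f p r).im
  linarith

end H80HM
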