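import Pool.Agent.H80.HM.Kcl
import Pool.Agent.H80.HM.Pi2

set_option autoImplicit false

/-!
# Row Nc1: near-minimisers at two nearby parameters are close

gap_int: gap is a combination of densities of H, G, Kf hf H G in Cl (kf_cl with psi = hf, deriv hf = 1/2), integrable by qc_int.
int_gap: its integral is En H + En G - 2 En (Kf hf H G).
xf_dn_int: dn_le (row Pi2) a.e. (ptd_ae), dn >= 0 (n2_nonneg), measurable (dn_meas, xf_fd), and gap integrable.
gap_ref: H ep-near-minimiser, G eta-near-minimiser of the same form (1,0,1): En(mid) >= En H - ep and En(mid) >= En G - eta, so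
 int gap = (En H - En mid) + (En G - En mid) <= ep + eta.
gap_near: E0 = form (1,0,1), Ek = form ck s p r (positive semidefinite: trace 2cosh s, determinant cosh^2 - sinh^2 (p^2+r^2) = 1). mid = Kf hf H G.
 g0 := int gap = E0 H + E0 G - 2E0 mid <= E0 G - E0 H + 2ep (E0 mid >= E0 H - ep);
 0 <= Ek H + Ek G - 2 Ek mid <= Ek H - Ek G + 2ep (gapc_nonneg integrated; Ek mid >= Ek G - ep). Adding:
 g0 <= (Ek - E0)(H) - (Ek - E0)(G) + 4ep, Ek - E0 = (cosh s - 1)E0 + sinh s Q', Q' = int qc e f (p,r,-p).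
 (cosh s - 1)(E0 H - E0 G) <= (cosh s - 1) ep <= ep (sinh s <= 1/8 gives cosh s <= 1 + 1). By q_ck and Cauchy-Schwarz for integrals
 |Q' H - Q' G| <= 2 sqrt(2 g0) sqrt(E0 H) + 2 g0. With S = sinh s <= 1/8: g0 <= 5ep + S 2 sqrt2 sqrt(g0) sqrt(E0 H) + g0/4,
 and 2 sqrt2 S sqrt(g0 E) <= g0/4 + 8 S^2 E; so g0/2 <= 5ep + 8S^2E, g0 <= 10ep + 16 S^2 E.
dn_near: int (dn e + dn f) <= 80 int gap.
-/

namespace H80HM

open Matrix MeasureTheory Set
open scoped ComplexOrder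

variable {m : ℕ} {A B C : Mt m} {H G : ℝ × ℝ → Mt m}

theorem Nc1_mid (hA : IsUnit A.det) (hB : IsUnit B.det) (hC : IsUnit C.det)
    (hH : Cl A B C H) (hG : Cl A B C G) : Cl A B C (Kf hf H G) :=
  kf_cl hA hB hC hH hG Pi2_hf (fun t => by rw [Pi2_hf_deriv]; norm_num)
    (fun t => by rw [Pi2_hf_deriv]; norm_num)

theorem gap_int (hA : IsUnit A.det) (hB : IsUnit B.det) (hC : IsUnit C.det)
    (hH : Cl A B C H) (hG : Cl A B C G) (e f : ℝ × ℝ) : IntegrableOn (gap e f H G) U := by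
  have h1 := qc_int hH e f (1, 0, 1)
  have h2 := qc_int hG e f (1, 0, 1)
  have h3 := (qc_int (Nc1_mid hA hB hC hH hG) e f (1, 0, 1)).const_mul 2
  exact (h1.add h2).sub h3

theorem int_gap (hA : IsUnit A.det) (hB : IsUnit B.det) (hC : IsUnit C.det)
    (hH : Cl A B C H) (hG : Cl A B C G) (e f : ℝ × ℝ) :
    ∫ x in U, gap e f H G x =
      En e f (1, 0, 1) H + En e f (1, 0, 1) G - 2 * En e f (1, 0, 1) (Kf hf H G) := by
  have h1 := qc_int hH e f (1, 0, 1)
  have h2 := qc_int hG e f (1, 0, 1)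
  have h3 := (qc_int (Nc1_mid hA hB hC hH hG) e f (1, 0, 1)).const_mul 2
  calc ∫ x in U, gap e f H G x = ∫ x in U, ((qc e f (1, 0, 1) H x + qc e f (1, 0, 1) G x) -
        2 * qc e f (1, 0, 1) (Kf hf H G) x) := rfl
    _ = (∫ x in U, (qc e f (1, 0, 1) H x + qc e f (1, 0, 1) G x)) -
        ∫ x in U, 2 * qc e f (1, 0, 1) (Kf hf H G) x := integral_sub (h1.add h2) h3
    _ = _ := by
      rw [integral_add h1 h2, integral_const_mul]
      rfl

theorem Nc1_dn_nonneg (hH : Cl A B C H) (X : ℝ × ℝ → Mt m) (t : ℝ × ℝ) {x : ℝ × ℝ} (hx : x ∈ U) :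
    0 ≤ dn t H X x :=
  n2_nonneg (hH.pos x (u_sub hx)) _

theorem xf_dn_int (hA : IsUnit A.det) (hB : IsUnit B.det) (hC : IsUnit C.det)
    (hH : Cl A B C H) (hG : Cl A B C G) {phi : ℝ → ℝ}
    (hc : ContDiff ℝ 1 phi) (h0 : ∀ t, 0 ≤ deriv phi t) (h1 : ∀ t, deriv phi t ≤ 1)
    (hb : ∀ t, |phi t| ≤ 1) (t : ℝ × ℝ) : IntegrableOn (dn t H (Xf phi H G)) U := by
  refine ((gap_int hA hB hC hH hG t t).const_mul 80).mono'
    (dn_meas hH.lip hH.pos (xf_fd hA hB hC hH hG hc).lip t) ?_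
  filter_upwards [ptd_ae hH hG, ae_restrict_mem Mea_isOpen.measurableSet] with x hx hxU
  have h2 := dn_le hx hc h0 h1 hb t t
  have h3 := Nc1_dn_nonneg hH (Xf phi H G) t hxU
  rw [Real.norm_eq_abs, abs_of_nonneg h3]
  linarith

theorem gap_ref (hA : IsUnit A.det) (hB : IsUnit B.det) (hC : IsUnit C.det) {e f : ℝ × ℝ}
    {ep eta : ℝ} (hH : NM e f (1, 0, 1) A B C ep H) (hG : NM e f (1, 0, 1) A B C eta G) :
    ∫ x in U, gap e f H G x ≤ ep + eta := by
  rw [int_gap hA hB hC hH.1 hG.1]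
  have hm := Nc1_mid hA hB hC hH.1 hG.1
  have h1 := hH.2 _ hm
  have h2 := hG.2 _ hm
  linarith

theorem Nc1_psd1 : Psd ((1, 0, 1) : ℝ × ℝ × ℝ) := by
  refine ⟨?_, ?_, ?_⟩
  · show (0 : ℝ) ≤ 1
    norm_num
  · show (0 : ℝ) ≤ 1
    norm_num
  · show (0 : ℝ) ^ 2 ≤ 1 * 1
    norm_num

theorem Nc1_psdk {s p r : ℝ} (hpr : p ^ 2 + r ^ 2 = 1) (hs : 0 ≤ s) : Psd (ck s p r) := by
  have hS : 0 ≤ Real.sinh s := Real.sinh_nonneg_iff.2 hs
  have hCS : Real.cosh s ^ 2 = Real.sinh s ^ 2 + 1 := Real.cosh_sq s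
  have hC1 : Real.sinh s ≤ Real.cosh s := (Real.sinh_lt_cosh s).le
  have hp : |p| ≤ 1 := by
    rw [abs_le]
    constructor <;> nlinarith [sq_nonneg r, sq_nonneg p, sq_nonneg (p - 1), sq_nonneg (p + 1)]
  have hSp : |Real.sinh s * p| ≤ Real.cosh s := by
    rw [abs_mul, abs_of_nonneg hS]
    calc Real.sinh s * |p| ≤ Real.sinh s * 1 := mul_le_mul_of_nonneg_left hp hS
      _ ≤ _ := by rw [mul_one]; exact hC1
  rw [abs_le] at hSp
  refine ⟨?_, ?_, ?_⟩
  · show 0 ≤ Real.cosh s + Real.sinh s * p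
    linarith [hSp.1]
  · show 0 ≤ Real.cosh s - Real.sinh s * p
    linarith [hSp.2]
  · show (Real.sinh s * r) ^ 2 ≤ (Real.cosh s + Real.sinh s * p) * (Real.cosh s - Real.sinh s * p)
    have h1 : (Real.cosh s + Real.sinh s * p) * (Real.cosh s - Real.sinh s * p) -
        (Real.sinh s * r) ^ 2 = Real.cosh s ^ 2 - Real.sinh s ^ 2 * (p ^ 2 + r ^ 2) := by ring
    rw [hpr, hCS] at h1
    linarith

theorem Nc1_ck (hH : Cl A B C H) (e f : ℝ × ℝ) (s p r : ℝ) :
    En e f (ck s p r) H = Real.cosh s * En e f (1, 0, 1) H + Real.sinh s * En e f (p, r, -p) H := by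
  rw [en_lin hH, en_lin hH, en_lin hH]
  simp only [ck]
  ring

theorem Nc1_q (hA : IsUnit A.det) (hB : IsUnit B.det) (hC : IsUnit C.det)
    (hH : Cl A B C H) (hG : Cl A B C G) (e f : ℝ × ℝ) {p r : ℝ} (hpr : p ^ 2 + r ^ 2 = 1)
    {l : ℝ} (hl : 0 < l) :
    En e f (p, r, -p) H - En e f (p, r, -p) G ≤
      (2 * l + 2) * (∫ x in U, gap e f H G x) + l⁻¹ * En e f (1, 0, 1) H := by
  have i1 := qc_int hH e f (p, r, -p)
  have i2 := qc_int hG e f (p, r, -p)
  have i3 := (gap_int hA hB hC hH hG e f).const_mul (2 * l + 2)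
  have i4 := (qc_int hH e f (1, 0, 1)).const_mul l⁻¹
  have e1 : En e f (p, r, -p) H - En e f (p, r, -p) G =
      ∫ x in U, (qc e f (p, r, -p) H x - qc e f (p, r, -p) G x) := (integral_sub i1 i2).symm
  have e2 : (2 * l + 2) * (∫ x in U, gap e f H G x) + l⁻¹ * En e f (1, 0, 1) H =
      ∫ x in U, ((2 * l + 2) * gap e f H G x + l⁻¹ * qc e f (1, 0, 1) H x) := by
    rw [integral_add i3 i4, integral_const_mul, integral_const_mul]
    rfl
  rw [e1, e2]
  refine integral_mono_ae (i1.sub i2) (i3.add i4) ?_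
  filter_upwards [ptd_ae hH hG, ae_restrict_mem Mea_isOpen.measurableSet] with x hx hxU
  have h1 := q_ck hx e f hpr
  have h2 := gap_nonneg hx e f
  have h3 := qc_nonneg (pos_near hH.pos hxU) e f Nc1_psd1
  have h4 := (abs_le.1 h1).1
  have h5 : 2 * Real.sqrt (2 * gap e f H G x) * Real.sqrt (qc e f (1, 0, 1) H x) ≤
      l * (2 * gap e f H G x) + l⁻¹ * qc e f (1, 0, 1) H x := by
    have h6 := sq_nonneg (l * Real.sqrt (2 * gap e f H G x) - Real.sqrt (qc e f (1, 0, 1) H x))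
    have h7 : Real.sqrt (2 * gap e f H G x) ^ 2 = 2 * gap e f H G x := Real.sq_sqrt (by linarith)
    have h8 : Real.sqrt (qc e f (1, 0, 1) H x) ^ 2 = qc e f (1, 0, 1) H x := Real.sq_sqrt h3
    have h9 : l⁻¹ * (l * Real.sqrt (2 * gap e f H G x) - Real.sqrt (qc e f (1, 0, 1) H x)) ^ 2 =
        l * Real.sqrt (2 * gap e f H G x) ^ 2 -
        2 * Real.sqrt (2 * gap e f H G x) * Real.sqrt (qc e f (1, 0, 1) H x) +
        l⁻¹ * Real.sqrt (qc e f (1, 0, 1) H x) ^ 2 := by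
      field_simp
      ring
    have h10 := mul_nonneg (inv_nonneg.2 hl.le) h6
    rw [h9, h7, h8] at h10
    linarith
  show qc e f (p, r, -p) H x - qc e f (p, r, -p) G x ≤
    (2 * l + 2) * gap e f H G x + l⁻¹ * qc e f (1, 0, 1) H x
  linarith

theorem gap_near (hA : IsUnit A.det) (hB : IsUnit B.det) (hC : IsUnit C.det) {e f : ℝ × ℝ}
    {ep s p r : ℝ} (hpr : p ^ 2 + r ^ 2 = 1) (hs : 0 ≤ s) (hs' : Real.sinh s ≤ 1 / 8)
    (hep : 0 ≤ ep) (hH : NM e f (1, 0, 1) A B C ep H)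
    (hG : NM e f (ck s p r) A B C ep G) :
    ∫ x in U, gap e f H G x ≤ 10 * ep + 16 * Real.sinh s ^ 2 * En e f (1, 0, 1) H := by
  have hS : 0 ≤ Real.sinh s := Real.sinh_nonneg_iff.2 hs
  have hm := Nc1_mid hA hB hC hH.1 hG.1
  have g1 := int_gap hA hB hC hH.1 hG.1 e f
  have hg0 : 0 ≤ ∫ x in U, gap e f H G x := by
    refine integral_nonneg_of_ae ?_
    filter_upwards [ptd_ae hH.1 hG.1] with x hx
    exact gap_nonneg hx e f
  have hE0 := en_nonneg hH.1 e f Nc1_psd1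
  have a1 := hH.2 _ hm
  have a2 := hG.2 _ hm
  have a3 := hH.2 _ hG.1
  -- convexity for the rotated form
  have a4 : 0 ≤ En e f (ck s p r) H + En e f (ck s p r) G -
      2 * En e f (ck s p r) (Kf hf H G) := by
    have i1 := qc_int hH.1 e f (ck s p r)
    have i2 := qc_int hG.1 e f (ck s p r)
    have i3 := (qc_int hm e f (ck s p r)).const_mul 2
    have e1 : (∫ x in U, ((qc e f (ck s p r) H x + qc e f (ck s p r) G x) -
        2 * qc e f (ck s p r) (Kf hf H G) x)) = En e f (ck s p r) H + En e f (ck s p r) G -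
          2 * En e f (ck s p r) (Kf hf H G) := by
      calc _ = (∫ x in U, (qc e f (ck s p r) H x + qc e f (ck s p r) G x)) -
            ∫ x in U, 2 * qc e f (ck s p r) (Kf hf H G) x := integral_sub (i1.add i2) i3
        _ = _ := by
          rw [integral_add i1 i2, integral_const_mul]
          rfl
    rw [← e1]
    refine integral_nonneg_of_ae ?_
    filter_upwards [ptd_ae hH.1 hG.1] with x hx
    exact gapc_nonneg hx e f (Nc1_psdk hpr hs)
  rw [Nc1_ck hH.1, Nc1_ck hG.1, Nc1_ck hm] at a4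
  rw [Nc1_ck hG.1, Nc1_ck hm] at a2
  have hc1 : 1 ≤ Real.cosh s := Real.one_le_cosh s
  have hc2 : Real.cosh s ≤ 2 := by
    have h1 := Real.cosh_sq s
    nlinarith [Real.cosh_pos s]
  have b1 : (Real.cosh s - 1) * (En e f (1, 0, 1) H - En e f (1, 0, 1) G) ≤ ep := by
    have h1 : (Real.cosh s - 1) * (En e f (1, 0, 1) H - En e f (1, 0, 1) G) ≤
        (Real.cosh s - 1) * ep :=
      mul_le_mul_of_nonneg_left (by linarith) (by linarith)
    have h2 : (Real.cosh s - 1) * ep ≤ 1 * ep := mul_le_mul_of_nonneg_right (by linarith) hep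
    linarith
  have b2 : Real.sinh s * (En e f (p, r, -p) H - En e f (p, r, -p) G) ≤
      (∫ x in U, gap e f H G x) / 2 + 8 * Real.sinh s ^ 2 * En e f (1, 0, 1) H := by
    rcases hS.eq_or_lt with h0 | h0
    · rw [← h0]
      linarith
    · have h1 := Nc1_q hA hB hC hH.1 hG.1 e f hpr (l := 1 / (8 * Real.sinh s)) (by positivity)
      have h2 := mul_le_mul_of_nonneg_left h1 hS
      have h3 : Real.sinh s * ((2 * (1 / (8 * Real.sinh s)) + 2) * (∫ x in U, gap e f H G x) +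
          (1 / (8 * Real.sinh s))⁻¹ * En e f (1, 0, 1) H) =
          (1 / 4 + 2 * Real.sinh s) * (∫ x in U, gap e f H G x) +
            8 * Real.sinh s ^ 2 * En e f (1, 0, 1) H := by
        field_simp
        ring
      rw [h3] at h2
      have h4 : (1 / 4 + 2 * Real.sinh s) * (∫ x in U, gap e f H G x) ≤
          (1 / 2) * (∫ x in U, gap e f H G x) :=
        mul_le_mul_of_nonneg_right (by linarith) hg0
      linarith
  nlinarith

theorem dn_near (hA : IsUnit A.det) (hB : IsUnit B.det) (hC : IsUnit C.det)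
    (hH : Cl A B C H) (hG : Cl A B C G) {phi : ℝ → ℝ}
    (hc : ContDiff ℝ 1 phi) (h0 : ∀ t, 0 ≤ deriv phi t) (h1 : ∀ t, deriv phi t ≤ 1)
    (hb : ∀ t, |phi t| ≤ 1) (e f : ℝ × ℝ) :
    ∫ x in U, (dn e H (Xf phi H G) x + dn f H (Xf phi H G) x) ≤
      80 * ∫ x in U, gap e f H G x := by
  rw [← integral_const_mul]
  refine integral_mono_ae ((xf_dn_int hA hB hC hH hG hc h0 h1 hb e).add
    (xf_dn_int hA hB hC hH hG hc h0 h1 hb f)) ((gap_int hA hB hC hH hG e f).const_mul 80) ?_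
  filter_upwards [ptd_ae hH hG] with x hx
  exact dn_le hx hc h0 h1 hb e f

end H80HM
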