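import Pool.Agent.H80.HM.Alg
import Pool.Agent.H80.HM.Mea

set_option autoImplicit false

/-!
# Row Nrm: normalisation of the determinant

H' := (det H)^{-1/m} H (det H is a positive real number for a positive definite H; |det A| = |det B| = |det C| = 1, m > 0).
* det H' = 1, positive definite, Lz (det H is a polynomial in the entries; t -> t^{-1/m} is smooth on (0,oo) and det H has a positive lower bound on
  Dd d), gluing: det H(1,v) = |det C|^2 det H(0,v) = det H(0,v).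
* density: near a point of differentiability log det H is differentiable with d_t log det H = tr((d_tH) H^{-1}) = 2 tr(aa t H) (Jacobi formula; real), so
  aa t H' = aa t H - (tr(aa t H)/m) 1, and q t t' H' = q t t' H - tr(aa t H) tr(aa t' H)/m (both traces are real since aa is H-selfadjoint).
  So for a positive semidefinite form qc e f c H' = qc e f c H - (1/m)(c11 u^2 + 2c12 u v + c22 v^2) <= qc e f c H, u = tr(aa e H), v = tr(aa f H).
* fin: q t t H' <= q t t H, measurable (q_meas), >= 0 (q_nonneg).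
* En e f c H' <= En e f c H by integration.
-/

namespace H80HM

open Matrix MeasureTheory Set
open scoped ComplexOrder

private theorem Nrm_jac {m : ℕ} {H : ℝ × ℝ → Mt m} {x : ℝ × ℝ}
    (dH : ∀ i j, DifferentiableAt ℝ (fun y => H y i j) x) (t : ℝ × ℝ) :
    DifferentiableAt ℝ (fun y => (H y).det) x ∧
      fderiv ℝ (fun y => (H y).det) x t = trace (pd t H x * (H x).adjugate) := by
  have hE : (fun y => (H y).det) = fun y => ∑ σ : Equiv.Perm (Fin m),
      ((Equiv.Perm.sign σ : ℤ) : ℂ) * ∏ i, H y (σ i) i := by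
    funext y
    exact Matrix.det_apply' _
  have hD : ∀ σ : Equiv.Perm (Fin m),
      HasFDerivAt (fun y => ((Equiv.Perm.sign σ : ℤ) : ℂ) * ∏ i, H y (σ i) i)
      (((Equiv.Perm.sign σ : ℤ) : ℂ) • ∑ i, (∏ j ∈ Finset.univ.erase i, H x (σ j) j) •
        fderiv ℝ (fun y => H y (σ i) i) x) x := by
    intro σ
    exact (HasFDerivAt.finsetProd fun i _ => (dH (σ i) i).hasFDerivAt).const_mul _
  have hS := HasFDerivAt.fun_sum (u := Finset.univ) fun σ _ => hD σ
  rw [← hE] at hS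
  refine ⟨hS.differentiableAt, ?_⟩
  rw [hS.fderiv]
  have hL : (∑ σ : Equiv.Perm (Fin m), ((Equiv.Perm.sign σ : ℤ) : ℂ) •
      ∑ i, (∏ j ∈ Finset.univ.erase i, H x (σ j) j) • fderiv ℝ (fun y => H y (σ i) i) x) t =
      ∑ σ : Equiv.Perm (Fin m), ∑ i, ((Equiv.Perm.sign σ : ℤ) : ℂ) *
        ((∏ j ∈ Finset.univ.erase i, H x (σ j) j) * pd t H x (σ i) i) := by
    rw [ContinuousLinearMap.sum_apply]
    refine Finset.sum_congr rfl fun σ _ => ?_
    rw [ContinuousLinearMap.smul_apply, ContinuousLinearMap.sum_apply, smul_eq_mul,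
      Finset.mul_sum]
    refine Finset.sum_congr rfl fun i _ => ?_
    rw [ContinuousLinearMap.smul_apply, smul_eq_mul]
    rfl
  rw [hL, Finset.sum_comm]
  have hR : trace (pd t H x * (H x).adjugate) =
      ∑ j, ((H x).updateCol j (fun i => pd t H x i j)).det := by
    rw [Matrix.trace_mul_comm, Matrix.trace]
    refine Finset.sum_congr rfl fun j _ => ?_
    rw [← Matrix.cramer_apply, Matrix.cramer_eq_adjugate_mulVec, Matrix.diag_apply,
      Matrix.mul_apply]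
    rfl
  rw [hR]
  refine Finset.sum_congr rfl fun j _ => ?_
  rw [Matrix.det_apply']
  refine Finset.sum_congr rfl fun σ _ => ?_
  congr 1
  rw [← Finset.mul_prod_erase Finset.univ _ (Finset.mem_univ j), mul_comm]
  congr 1
  · rw [Matrix.updateCol_self]
  · refine Finset.prod_congr rfl fun i hi => ?_
    rw [Matrix.updateCol_ne (Finset.ne_of_mem_erase hi)]

private theorem Nrm_pos {m : ℕ} {H : Mt m} (hH : H.PosDef) :
    0 < H.det.re ∧ ((H.det.re : ℝ) : ℂ) = H.det := by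
  have h := hH.det_pos
  rw [Complex.lt_def] at h
  refine ⟨h.1, ?_⟩
  apply Complex.ext
  · simp
  · simpa using h.2

/-- the scalar factor -/
private noncomputable def Nrm_s {m : ℕ} (H : ℝ × ℝ → Mt m) (x : ℝ × ℝ) : ℝ :=
  ((H x).det.re) ^ (-(1 / (m : ℝ)))

/-- the normalised metric -/
private noncomputable def Nrm_H {m : ℕ} (H : ℝ × ℝ → Mt m) (x : ℝ × ℝ) : Mt m :=
  ((Nrm_s H x : ℝ) : ℂ) • H x

private theorem Nrm_s_pos {m : ℕ} {H : ℝ × ℝ → Mt m} {x : ℝ × ℝ} (hH : (H x).PosDef) :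
    0 < Nrm_s H x := Real.rpow_pos_of_pos (Nrm_pos hH).1 _

private theorem Nrm_det {m : ℕ} (hm : 0 < m) {H : ℝ × ℝ → Mt m} {x : ℝ × ℝ}
    (hH : (H x).PosDef) : (Nrm_H H x).det = 1 := by
  obtain ⟨h1, h2⟩ := Nrm_pos hH
  unfold Nrm_H
  rw [Matrix.det_smul, Fintype.card_fin, ← h2, ← Complex.ofReal_pow, ← Complex.ofReal_mul]
  have h3 : Nrm_s H x ^ m * (H x).det.re = 1 := by
    unfold Nrm_s
    rw [← Real.rpow_natCast, ← Real.rpow_mul h1.le]
    have h4 : -(1 / (m : ℝ)) * m = -1 := by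
      have : (m : ℝ) ≠ 0 := by exact_mod_cast hm.ne'
      field_simp
    rw [h4, Real.rpow_neg_one, inv_mul_cancel₀ h1.ne']
  rw [h3, Complex.ofReal_one]

private theorem Nrm_posDef {m : ℕ} {H : ℝ × ℝ → Mt m} {x : ℝ × ℝ}
    (hH : (H x).PosDef) : (Nrm_H H x).PosDef := by
  unfold Nrm_H
  apply hH.smul
  exact_mod_cast Nrm_s_pos hH

/-- bounded and Lipschitz on `Dd d` -/
private def Nrm_BL (d : ℝ) (f : ℝ × ℝ → ℂ) : Prop :=
  ∃ R K : ℝ, 0 ≤ R ∧ 0 ≤ K ∧ (∀ x ∈ Dd d, ‖f x‖ ≤ R) ∧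
    ∀ x ∈ Dd d, ∀ y ∈ Dd d, ‖f x - f y‖ ≤ K * dist x y

private theorem Nrm_BL_const (d : ℝ) (c : ℂ) : Nrm_BL d fun _ => c :=
  ⟨‖c‖, 0, norm_nonneg _, le_rfl, fun _ _ => le_rfl, fun x _ y _ => by simp⟩

private theorem Nrm_BL_add {d : ℝ} {f g : ℝ × ℝ → ℂ} (hf : Nrm_BL d f) (hg : Nrm_BL d g) :
    Nrm_BL d fun x => f x + g x := by
  obtain ⟨R, K, hR, hK, h1, h2⟩ := hf
  obtain ⟨R', K', hR', hK', h1', h2'⟩ := hg
  refine ⟨R + R', K + K', add_nonneg hR hR', add_nonneg hK hK', fun x hx => ?_,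
    fun x hx y hy => ?_⟩
  · exact (norm_add_le _ _).trans (add_le_add (h1 x hx) (h1' x hx))
  · have e : f x + g x - (f y + g y) = (f x - f y) + (g x - g y) := by ring
    rw [e, add_mul]
    exact (norm_add_le _ _).trans (add_le_add (h2 x hx y hy) (h2' x hx y hy))

private theorem Nrm_BL_mul {d : ℝ} {f g : ℝ × ℝ → ℂ} (hf : Nrm_BL d f) (hg : Nrm_BL d g) :
    Nrm_BL d fun x => f x * g x := by
  obtain ⟨R, K, hR, hK, h1, h2⟩ := hf
  obtain ⟨R', K', hR', hK', h1', h2'⟩ := hg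
  refine ⟨R * R', R * K' + K * R', by positivity, by positivity, fun x hx => ?_,
    fun x hx y hy => ?_⟩
  · rw [norm_mul]
    exact mul_le_mul (h1 x hx) (h1' x hx) (norm_nonneg _) hR
  · have e : f x * g x - f y * g y = f x * (g x - g y) + (f x - f y) * g y := by ring
    rw [e]
    refine (norm_add_le _ _).trans ?_
    rw [norm_mul, norm_mul]
    have a1 : ‖f x‖ * ‖g x - g y‖ ≤ R * (K' * dist x y) :=
      mul_le_mul (h1 x hx) (h2' x hx y hy) (norm_nonneg _) hR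
    have a2 : ‖f x - f y‖ * ‖g y‖ ≤ (K * dist x y) * R' :=
      mul_le_mul (h2 x hx y hy) (h1' y hy) (norm_nonneg _) (mul_nonneg hK dist_nonneg)
    calc _ ≤ R * (K' * dist x y) + (K * dist x y) * R' := add_le_add a1 a2
      _ = _ := by ring

private theorem Nrm_BL_sum {d : ℝ} {ι : Type*} (s : Finset ι) {f : ι → ℝ × ℝ → ℂ}
    (hf : ∀ i, Nrm_BL d (f i)) : Nrm_BL d fun x => ∑ i ∈ s, f i x := by
  classical
  induction s using Finset.induction_on with
  | empty => simpa using Nrm_BL_const d 0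
  | insert i s hi ih =>
    simp only [Finset.sum_insert hi]
    exact Nrm_BL_add (hf i) ih

private theorem Nrm_BL_prod {d : ℝ} {ι : Type*} (s : Finset ι) {f : ι → ℝ × ℝ → ℂ}
    (hf : ∀ i, Nrm_BL d (f i)) : Nrm_BL d fun x => ∏ i ∈ s, f i x := by
  classical
  induction s using Finset.induction_on with
  | empty => simpa using Nrm_BL_const d 1
  | insert i s hi ih =>
    simp only [Finset.prod_insert hi]
    exact Nrm_BL_mul (hf i) ih

private theorem Nrm_BL_entry {m : ℕ} {F : ℝ × ℝ → Mt m} (hF : Lz F) {d : ℝ} (hd : 0 < d)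
    (i j : Fin m) : Nrm_BL d fun x => F x i j := by
  obtain ⟨R, hR, h1⟩ := lz_bd hF hd
  obtain ⟨K, h2⟩ := hF d hd
  refine ⟨R, |K|, hR, abs_nonneg _, fun x hx => h1 x hx i j, fun x hx y hy => ?_⟩
  exact (h2 x hx y hy i j).trans (mul_le_mul_of_nonneg_right (le_abs_self _) dist_nonneg)

private theorem Nrm_BL_det {m : ℕ} {F : ℝ × ℝ → Mt m} (hF : Lz F) {d : ℝ} (hd : 0 < d) :
    Nrm_BL d fun x => (F x).det := by
  have h : (fun x => (F x).det) = fun x => ∑ σ : Equiv.Perm (Fin m),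
      ((Equiv.Perm.sign σ : ℤ) : ℂ) * ∏ i, F x (σ i) i := by
    funext x
    exact Matrix.det_apply' _
  rw [h]
  exact Nrm_BL_sum _ fun σ => Nrm_BL_mul (Nrm_BL_const d _)
    (Nrm_BL_prod _ fun i => Nrm_BL_entry hF hd _ _)

private theorem Nrm_rpow {c : ℝ} (hc : 0 < c) {a : ℝ} (ha : 0 ≤ a) {s t : ℝ} (hs : c ≤ s)
    (ht : c ≤ t) : |t ^ (-a) - s ^ (-a)| ≤ a * c ^ (-a - 1) * |t - s| := by
  have h := Convex.norm_image_sub_le_of_norm_deriv_le (𝕜 := ℝ) (f := fun t : ℝ => t ^ (-a))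
    (C := a * c ^ (-a - 1)) (s := Ici c) (x := s) (y := t) ?_ ?_ (convex_Ici c) hs ht
  · exact h
  · intro x hx
    exact Real.differentiableAt_rpow_const_of_ne _ (lt_of_lt_of_le hc hx).ne'
  · intro x hx
    have hx0 : 0 < x := lt_of_lt_of_le hc hx
    rw [Real.deriv_rpow_const, norm_mul, Real.norm_eq_abs, Real.norm_eq_abs, abs_neg,
      abs_of_nonneg ha, abs_of_pos (Real.rpow_pos_of_pos hx0 _)]
    exact mul_le_mul_of_nonneg_left
      (Real.rpow_le_rpow_of_nonpos hc hx (by linarith)) ha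

private theorem Nrm_lz_s {m : ℕ} {H : ℝ × ℝ → Mt m} (hH : Lz H)
    (hp : ∀ x ∈ D \ P, (H x).PosDef) : Lz fun x => ((Nrm_s H x : ℝ) : ℂ) • (1 : Mt m) := by
  intro d hd
  obtain ⟨R, K, hR, hK, h1, h2⟩ := Nrm_BL_det hH hd
  have hi : Lz fun x => (H x)⁻¹ := lz_inv hH fun x hx =>
    (Matrix.isUnit_iff_isUnit_det _).1 (hp x hx).isUnit
  obtain ⟨R', K', hR', hK', h1', h2'⟩ := Nrm_BL_det hi hd
  set c : ℝ := 1 / (R' + 1) with hc
  have hc0 : 0 < c := by positivity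
  have hcx : ∀ x ∈ Dd d, c ≤ (H x).det.re := by
    intro x hx
    obtain ⟨g1, g2⟩ := Nrm_pos (hp x (dd_sub hd hx))
    have g3 := h1' x hx
    simp only [Matrix.det_nonsing_inv] at g3
    rw [Ring.inverse_eq_inv', norm_inv, ← g2, Complex.norm_real, Real.norm_eq_abs,
      abs_of_pos g1] at g3
    rw [hc, div_le_iff₀ (by linarith)]
    rw [inv_le_iff_one_le_mul₀ g1] at g3
    nlinarith
  have ha : 0 ≤ 1 / (m : ℝ) := by positivity
  refine ⟨1 / (m : ℝ) * c ^ (-(1 / (m : ℝ)) - 1) * K, fun x hx y hy i j => ?_⟩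
  have h3 : ‖((Nrm_s H x : ℝ) : ℂ) - ((Nrm_s H y : ℝ) : ℂ)‖ ≤
      1 / (m : ℝ) * c ^ (-(1 / (m : ℝ)) - 1) * K * dist x y := by
    rw [← Complex.ofReal_sub, Complex.norm_real, Real.norm_eq_abs]
    unfold Nrm_s
    refine (Nrm_rpow hc0 ha (hcx y hy) (hcx x hx)).trans ?_
    rw [mul_assoc (1 / (m : ℝ) * c ^ (-(1 / (m : ℝ)) - 1)) K]
    refine mul_le_mul_of_nonneg_left ?_ (by positivity)
    refine le_trans ?_ (h2 x hx y hy)
    rw [← Complex.sub_re]
    exact Complex.abs_re_le_norm _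
  by_cases hij : i = j
  · subst hij
    simpa using h3
  · simp only [Matrix.smul_apply, Matrix.one_apply_ne hij, smul_zero, sub_self, norm_zero]
    exact (norm_nonneg _).trans h3

private theorem Nrm_lz {m : ℕ} {H : ℝ × ℝ → Mt m} (hH : Lz H)
    (hp : ∀ x ∈ D \ P, (H x).PosDef) : Lz (Nrm_H H) := by
  have h := lz_mul (Nrm_lz_s hH hp) hH
  have e : Nrm_H H = fun x => ((Nrm_s H x : ℝ) : ℂ) • (1 : Mt m) * H x := by
    funext x
    unfold Nrm_H
    rw [Matrix.smul_mul, Matrix.one_mul]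
  rw [e]
  exact h

private theorem Nrm_glue {m : ℕ} {A : Mt m} (hA : ‖A.det‖ = 1) {H : ℝ × ℝ → Mt m}
    {x y : ℝ × ℝ} (h : H y = A * H x * Aᴴ) : Nrm_H H y = A * Nrm_H H x * Aᴴ := by
  have h1 : (H y).det = (H x).det := by
    have h2 : A.det * (Aᴴ).det = 1 := by
      rw [Matrix.det_conjTranspose, Complex.star_def, Complex.mul_conj, Complex.normSq_eq_norm_sq,
        hA]
      simp
    rw [h, Matrix.det_mul, Matrix.det_mul, mul_right_comm, h2, one_mul]
  have h2 : Nrm_s H y = Nrm_s H x := by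
    unfold Nrm_s
    rw [h1]
  unfold Nrm_H
  rw [h2, h, Matrix.mul_smul, Matrix.smul_mul]

private theorem Nrm_s_deriv {m : ℕ} {H : ℝ × ℝ → Mt m} {x : ℝ × ℝ}
    (dH : ∀ i j, DifferentiableAt ℝ (fun y => H y i j) x) (hp : (H x).PosDef) (t : ℝ × ℝ) :
    DifferentiableAt ℝ (Nrm_s H) x ∧
      fderiv ℝ (Nrm_s H) x t = -(2 / (m : ℝ)) * (trace (aa t H x)).re * Nrm_s H x := by
  obtain ⟨h1, h2⟩ := Nrm_jac dH t
  obtain ⟨h3, h4⟩ := Nrm_pos hp
  have h5 : HasFDerivAt (fun y => (H y).det.re)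
      (Complex.reCLM.comp (fderiv ℝ (fun y => (H y).det) x)) x :=
    Complex.reCLM.hasFDerivAt.comp x h1.hasFDerivAt
  have h6 : HasFDerivAt (Nrm_s H) ((-(1 / (m : ℝ)) * (H x).det.re ^ (-(1 / (m : ℝ)) - 1)) •
      (Complex.reCLM.comp (fderiv ℝ (fun y => (H y).det) x))) x :=
    h5.rpow_const (Or.inl h3.ne')
  refine ⟨h6.differentiableAt, ?_⟩
  rw [h6.fderiv, ContinuousLinearMap.smul_apply, ContinuousLinearMap.comp_apply, h2, smul_eq_mul]
  have hu : IsUnit (H x).det := (Matrix.isUnit_iff_isUnit_det _).1 hp.isUnit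
  have h7 : trace (pd t H x * (H x).adjugate) = (2 * (H x).det) * trace (aa t H x) := by
    have h8 : (H x).adjugate = (H x).det • (H x)⁻¹ := by
      rw [Matrix.inv_def, smul_smul, Ring.mul_inverse_cancel _ hu, one_smul]
    unfold aa
    rw [h8, Matrix.mul_smul, trace_smul, trace_smul, smul_eq_mul, smul_eq_mul]
    ring
  have h9 : (Complex.reCLM (trace (pd t H x * (H x).adjugate)) : ℝ) =
      2 * (H x).det.re * (trace (aa t H x)).re := by
    rw [h7, ← h4]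
    show ((2 * (((H x).det.re : ℝ) : ℂ)) * trace (aa t H x)).re = _
    have e : (2 * (((H x).det.re : ℝ) : ℂ)) = ((2 * (H x).det.re : ℝ) : ℂ) := by push_cast; rfl
    rw [e, Complex.re_ofReal_mul]
    simp
  rw [h9]
  unfold Nrm_s
  rw [Real.rpow_sub h3, Real.rpow_one]
  field_simp

private theorem Nrm_aa {m : ℕ} {H : ℝ × ℝ → Mt m} {x : ℝ × ℝ}
    (dH : ∀ i j, DifferentiableAt ℝ (fun y => H y i j) x) (hp : (H x).PosDef) (t : ℝ × ℝ) :
    aa t (Nrm_H H) x = aa t H x + ((-((trace (aa t H x)).re / m) : ℝ) : ℂ) • (1 : Mt m) := by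
  obtain ⟨h1, h2⟩ := Nrm_s_deriv dH hp t
  have hs := Nrm_s_pos hp
  have hu : IsUnit (H x).det := (Matrix.isUnit_iff_isUnit_det _).1 hp.isUnit
  have h3 : pd t (Nrm_H H) x = ((fderiv ℝ (Nrm_s H) x t : ℝ) : ℂ) • H x +
      ((Nrm_s H x : ℝ) : ℂ) • pd t H x := by
    ext i j
    have h4 : HasFDerivAt (fun y => ((Nrm_s H y : ℝ) : ℂ)) (Complex.ofRealCLM.comp
        (fderiv ℝ (Nrm_s H) x)) x :=
      Complex.ofRealCLM.hasFDerivAt.comp x h1.hasFDerivAt
    have h5 := (h4.mul (dH i j).hasFDerivAt).fderiv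
    have h6 : (fun y => Nrm_H H y i j) = (fun y => ((Nrm_s H y : ℝ) : ℂ) * H y i j) := by
      funext y
      rfl
    show fderiv ℝ (fun y => Nrm_H H y i j) x t = _
    rw [h6]
    have h7 : fderiv ℝ (fun y => ((Nrm_s H y : ℝ) : ℂ) * H y i j) x =
      ((Nrm_s H x : ℝ) : ℂ) • fderiv ℝ (fun y => H y i j) x +
        (H x i j) • (Complex.ofRealCLM.comp (fderiv ℝ (Nrm_s H) x)) := h5
    rw [h7, ContinuousLinearMap.add_apply, ContinuousLinearMap.smul_apply,
      ContinuousLinearMap.smul_apply, ContinuousLinearMap.comp_apply]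
    simp only [Matrix.add_apply, Matrix.smul_apply, smul_eq_mul, Complex.ofRealCLM_apply]
    rw [add_comm, mul_comm (H x i j)]
    rfl
  have h4 : (Nrm_H H x)⁻¹ = ((Nrm_s H x : ℝ) : ℂ)⁻¹ • (H x)⁻¹ := by
    apply Matrix.inv_eq_left_inv
    unfold Nrm_H
    rw [Matrix.smul_mul, Matrix.mul_smul, Matrix.nonsing_inv_mul _ hu, smul_smul,
      inv_mul_cancel₀ (by exact_mod_cast hs.ne'), one_smul]
  unfold aa at h2 ⊢
  rw [h3, h4, Matrix.mul_smul, Matrix.add_mul, Matrix.smul_mul, Matrix.smul_mul,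
    Matrix.mul_nonsing_inv _ hu, smul_add, smul_add, smul_smul, smul_smul, smul_smul, smul_smul,
    add_comm]
  congr 1
  · have hs' : ((Nrm_s H x : ℝ) : ℂ) ≠ 0 := by exact_mod_cast hs.ne'
    congr 1
    field_simp
  · congr 1
    rw [h2]
    have hs' : ((Nrm_s H x : ℝ) : ℂ) ≠ 0 := by exact_mod_cast hs.ne'
    push_cast
    field_simp

private theorem Nrm_q {m : ℕ} (hm : 0 < m) {H : ℝ × ℝ → Mt m} {x : ℝ × ℝ}
    (dH : ∀ i j, DifferentiableAt ℝ (fun y => H y i j) x) (hp : (H x).PosDef) (t t' : ℝ × ℝ) :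
    q t t' (Nrm_H H) x = q t t' H x -
      (trace (aa t H x)).re * (trace (aa t' H x)).re / m := by
  have hm' : (m : ℝ) ≠ 0 := by exact_mod_cast hm.ne'
  unfold q
  rw [Nrm_aa dH hp, Nrm_aa dH hp]
  set a := aa t H x
  set b := aa t' H x
  simp only [Matrix.add_mul, Matrix.mul_add, Matrix.smul_mul, Matrix.mul_smul, Matrix.one_mul,
    Matrix.mul_one, trace_add, trace_smul, trace_one, Fintype.card_fin, smul_eq_mul,
    Complex.add_re, Complex.re_ofReal_mul, Complex.natCast_re]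
  field_simp
  ring

private theorem Nrm_form {c : ℝ × ℝ × ℝ} (hc : Psd c) (u v : ℝ) :
    0 ≤ c.1 * u ^ 2 + 2 * c.2.1 * (u * v) + c.2.2 * v ^ 2 := by
  obtain ⟨h1, h2, h3⟩ := hc
  by_contra hneg
  rw [not_le] at hneg
  rcases eq_or_lt_of_le h1 with h0 | h0
  · rw [← h0, zero_mul] at h3
    have h4 : c.2.1 = 0 := by nlinarith [sq_nonneg c.2.1]
    rw [← h0, h4] at hneg
    nlinarith [mul_nonneg h2 (sq_nonneg v)]
  · nlinarith [sq_nonneg (c.1 * u + c.2.1 * v), mul_nonneg (sub_nonneg.2 h3) (sq_nonneg v),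
      mul_neg_of_pos_of_neg h0 hneg]

theorem nrm {m : ℕ} (hm : 0 < m) {A B C : Mt m} (hA : ‖A.det‖ = 1) (hB : ‖B.det‖ = 1)
    (hC : ‖C.det‖ = 1) {H : ℝ × ℝ → Mt m} (hH : Cl A B C H) :
    ∃ H' : ℝ × ℝ → Mt m, Cl A B C H' ∧ (∀ x ∈ D \ P, (H' x).det = 1) ∧
      ∀ (e f : ℝ × ℝ) (c : ℝ × ℝ × ℝ), Psd c → En e f c H' ≤ En e f c H := by
  have hm' : (0 : ℝ) < m := by exact_mod_cast hm
  have hpos : ∀ x ∈ D \ P, (Nrm_H H x).PosDef := fun x hx => Nrm_posDef (hH.pos x hx)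
  have hlip : Lz (Nrm_H H) := Nrm_lz hH.lip hH.pos
  have hae : ∀ᵐ x ∂(volume.restrict U), ∀ t t' : ℝ × ℝ, q t t' (Nrm_H H) x = q t t' H x -
      (trace (aa t H x)).re * (trace (aa t' H x)).re / m := by
    filter_upwards [lz_ae hH.lip, ae_restrict_mem Mea_isOpen.measurableSet] with x h1 h2 t t'
    exact Nrm_q hm h1 (hH.pos x (u_sub h2)) t t'
  have hqi : ∀ t : ℝ × ℝ, IntegrableOn (q t t (Nrm_H H)) U := by
    intro t
    refine (q_int hH t t).mono' (q_meas hlip hpos t t) ?_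
    filter_upwards [hae, ae_restrict_mem Mea_isOpen.measurableSet] with x h1 h2
    rw [Real.norm_eq_abs, abs_of_nonneg (q_nonneg (pos_near hpos h2) t), h1 t t]
    have h3 : 0 ≤ (trace (aa t H x)).re * (trace (aa t H x)).re / m :=
      div_nonneg (mul_self_nonneg _) hm'.le
    linarith
  have hcl : Cl A B C (Nrm_H H) := by
    refine ⟨hpos, hlip, fun v hv => Nrm_glue hC (hH.glC v hv), fun u hu =>
      Nrm_glue hA (hH.glA u hu), fun u hu => Nrm_glue hB (hH.glB u hu), ?_⟩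
    exact (hqi _).add (hqi _)
  refine ⟨Nrm_H H, hcl, fun x hx => Nrm_det hm (hH.pos x hx), fun e f c hc => ?_⟩
  refine integral_mono_ae (qc_int hcl e f c) (qc_int hH e f c) ?_
  filter_upwards [hae] with x hx
  unfold qc
  rw [hx e e, hx e f, hx f f]
  have h1 := div_nonneg (Nrm_form hc (trace (aa e H x)).re (trace (aa f H x)).re) hm'.le
  have h2 : (c.1 * (trace (aa e H x)).re ^ 2 + 2 * c.2.1 * ((trace (aa e H x)).re *
      (trace (aa f H x)).re) + c.2.2 * (trace (aa f H x)).re ^ 2) / m =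
      c.1 * ((trace (aa e H x)).re * (trace (aa e H x)).re / m) +
      2 * c.2.1 * ((trace (aa e H x)).re * (trace (aa f H x)).re / m) +
      c.2.2 * ((trace (aa f H x)).re * (trace (aa f H x)).re / m) := by ring
  rw [h2] at h1
  linarith

end H80HM
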