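import Pool.Agent.H80.HM.Def4

set_option autoImplicit false

/-!
# Row Per: powers of an automorphism fix the constituents

Rsm is an equivalence relation (refl: T = 1; symm: T' in place of T; trans: product) and Rsm r r' implies Rsm (r o a) (r' o a) for every homomorphism a, and conversely for an automorphism a.
i ~ j :<-> Rsm (r i) (r j), an equivalence relation on Fin N. Choose p : Fin N -> Fin N with Rsm (r (p j) o a) (r j). If p j ~ p j' then r j ~ r (p j) o a ~ r (p j') o a ~ r j', so j ~ j'. If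
j ~ j' then r (p j) o a ~ r j ~ r j' ~ r (p j') o a, and a is surjective, so p j ~ p j'. So p induces an injective map of the finite quotient set, a permutation, of some finite order M >= 1.
By induction r (p^s j) o a^s ~ r j; with s = M: r j o a^M ~ r (p^M j) o a^M ~ r j.
-/

namespace H80HM

theorem Per_refl {G : Type} [Group G] {k : ℕ} (r : G →* (Mt k)ˣ) : Rsm r r :=
  ⟨1, 1, by simp, by simp, fun g => by simp⟩

theorem Per_symm {G : Type} [Group G] {k k' : ℕ} {r : G →* (Mt k)ˣ} {r' : G →* (Mt k')ˣ}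
    (h : Rsm r r') : Rsm r' r := by
  obtain ⟨T, T', h1, h2, h3⟩ := h
  refine ⟨T', T, h2, h1, fun g => ?_⟩
  have e1 := h3 g
  calc ((r' g : (Mt k')ˣ) : Mt k') * T' = (T' * T) * ((r' g : (Mt k')ˣ) : Mt k') * T' := by
        rw [h2, Matrix.one_mul]
    _ = T' * (T * ((r' g : (Mt k')ˣ) : Mt k')) * T' := by rw [Matrix.mul_assoc T' T]
    _ = T' * (((r g : (Mt k)ˣ) : Mt k) * T) * T' := by rw [e1]
    _ = T' * ((r g : (Mt k)ˣ) : Mt k) * (T * T') := by
        simp only [Matrix.mul_assoc]
    _ = T' * ((r g : (Mt k)ˣ) : Mt k) := by rw [h1, Matrix.mul_one]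

theorem Per_trans {G : Type} [Group G] {k k' k'' : ℕ} {r : G →* (Mt k)ˣ} {r' : G →* (Mt k')ˣ}
    {r'' : G →* (Mt k'')ˣ} (h : Rsm r r') (h' : Rsm r' r'') : Rsm r r'' := by
  obtain ⟨T, T', h1, h2, h3⟩ := h
  obtain ⟨S, S', g1, g2, g3⟩ := h'
  refine ⟨T * S, S' * T', ?_, ?_, fun g => ?_⟩
  · calc T * S * (S' * T') = T * (S * S') * T' := by simp only [Matrix.mul_assoc]
      _ = 1 := by rw [g1, Matrix.mul_one, h1]
  · calc S' * T' * (T * S) = S' * (T' * T) * S := by simp only [Matrix.mul_assoc]
      _ = 1 := by rw [h2, Matrix.mul_one, g2]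
  · rw [← Matrix.mul_assoc, h3, Matrix.mul_assoc, g3, ← Matrix.mul_assoc]

theorem Per_comp {G H : Type} [Group G] [Group H] {k k' : ℕ} {r : G →* (Mt k)ˣ}
    {r' : G →* (Mt k')ˣ} (h : Rsm r r') (f : H →* G) : Rsm (r.comp f) (r'.comp f) := by
  obtain ⟨T, T', h1, h2, h3⟩ := h
  exact ⟨T, T', h1, h2, fun g => h3 (f g)⟩

theorem Per_cancel {G : Type} [Group G] {k k' : ℕ} {r : G →* (Mt k)ˣ} {r' : G →* (Mt k')ˣ}
    (a : G ≃* G) (h : Rsm (r.comp a.toMonoidHom) (r'.comp a.toMonoidHom)) : Rsm r r' := by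
  obtain ⟨T, T', h1, h2, h3⟩ := h
  refine ⟨T, T', h1, h2, fun g => ?_⟩
  have h4 := h3 (a.symm g)
  have h5 : a.toMonoidHom (a.symm g) = g := a.apply_symm_apply g
  rw [MonoidHom.comp_apply, MonoidHom.comp_apply, h5] at h4
  exact h4

theorem per {G : Type} [Group G] {N : ℕ} {k : Fin N → ℕ} (r : ∀ i, G →* (Mt (k i))ˣ)
    (a : G ≃* G) (h : ∀ j, ∃ i, Rsm ((r i).comp a.toMonoidHom) (r j)) :
    ∃ M : ℕ, 1 ≤ M ∧ ∀ i, Rsm ((r i).comp (a ^ M).toMonoidHom) (r i) := by
  classical
  choose p hp using h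
  let st : Setoid (Fin N) :=
    { r := fun i j => Rsm (r i) (r j)
      iseqv := ⟨fun i => Per_refl (r i), fun h => Per_symm h, fun h h' => Per_trans h h'⟩ }
  have hwd : ∀ i j, Rsm (r i) (r j) → Rsm (r (p i)) (r (p j)) := fun i j hij =>
    Per_cancel a (Per_trans (Per_trans (hp i) hij) (Per_symm (hp j)))
  have hin : ∀ i j, Rsm (r (p i)) (r (p j)) → Rsm (r i) (r j) := fun i j hij =>
    Per_trans (Per_trans (Per_symm (hp i)) (Per_comp hij a.toMonoidHom)) (hp j)
  let π : Quotient st → Quotient st := Quotient.map p hwd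
  have hπ : ∀ j, π (Quotient.mk st j) = Quotient.mk st (p j) := fun j => rfl
  have hinj : Function.Injective π := by
    intro x y
    refine Quotient.inductionOn₂ x y fun i j hij => ?_
    rw [hπ, hπ] at hij
    exact Quotient.sound (hin i j (Quotient.exact hij))
  have hfin : Finite (Quotient st) := Quotient.finite st
  have hbij : Function.Bijective π := Finite.injective_iff_bijective.1 hinj
  obtain ⟨M, hM0, hM⟩ := (isOfFinOrder_of_finite (Equiv.ofBijective π hbij)).exists_pow_eq_one
  have hiter : ∀ s j, π^[s] (Quotient.mk st j) = Quotient.mk st (p^[s] j) := by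
    intro s
    induction s with
    | zero => intro j; rfl
    | succ s ih =>
      intro j
      rw [Function.iterate_succ_apply, hπ, ih, Function.iterate_succ_apply]
  have hMi : ∀ j, Rsm (r (p^[M] j)) (r j) := by
    intro j
    have h1 : ((Equiv.ofBijective π hbij) ^ M) (Quotient.mk st j) = Quotient.mk st j := by
      rw [hM]
      rfl
    have h2 : ∀ (s : ℕ) (x : Quotient st), ((Equiv.ofBijective π hbij) ^ s) x = π^[s] x := by
      intro s
      induction s with
      | zero => intro x; rfl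
      | succ s ih =>
        intro x
        rw [pow_succ, Equiv.Perm.mul_apply, ih, Function.iterate_succ_apply]
        rfl
    rw [h2, hiter] at h1
    exact Quotient.exact h1
  have hind : ∀ s j, Rsm ((r (p^[s] j)).comp (a ^ s).toMonoidHom) (r j) := by
    intro s
    induction s with
    | zero =>
      intro j
      exact Per_refl (r j)
    | succ s ih =>
      intro j
      have h1 := Per_comp (hp (p^[s] j)) (a ^ s).toMonoidHom
      have h2 := Per_trans h1 (ih j)
      rw [Function.iterate_succ_apply', pow_succ']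
      exact h2
  exact ⟨M, hM0, fun i =>
    Per_trans (Per_comp (Per_symm (hMi i)) (a ^ M).toMonoidHom) (hind M i)⟩

end H80HM
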