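import Pool.Agent.H80.HM.Dkr

set_option autoImplicit false

/-!
# Row Ptd: the pointwise description PtD holds at every point of differentiability

Take Q, lam from exists_fr and a, s from row Dkr. Only the three formulas for q are left.
* q for H: aa t H x = Q a_t Q^{-1}, so tr(aa_t aa_t') = tr(a_t a_t') = sum_pr a_t(p,r) a_t'(r,p), a_t'(r,p) = star a_t'(p,r).
* q for K = Kf psi H G: K = F H near x with F = Xf (exp o psi) H G (definition), F(x) = Q diag(e^psi) Q^{-1}, psi_p := psi(lam p).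
  product rule (F, H differentiable): d_t K = (d_t F) H + F (d_t H), so aa t K = (1/2)((d_t F) H + F d_t H) H^{-1} F^{-1}
  = (1/2)(d_t F + F 2 aa_t) F^{-1}; in the frame (with formula of Dkr for phi = exp o psi):
  Q^{-1} aa t K Q (p,r) = (1/2)(dd(exp o psi)(lam_p,lam_r) s_pr + a_pr (e^{psi_r} - e^{psi_p}) + 2 e^{psi_p} a_pr) e^{-psi_r}
   = (1/2)(dd(exp o psi) s_pr + a_pr(e^{psi_r} + e^{psi_p})) e^{-psi_r} = e^{(psi_p - psi_r)/2} zz psi (lam_p) (lam_r) a_pr s_pr,
  because e^{psi_p} + e^{psi_r} = 2 e^{(psi_p+psi_r)/2} cosh((psi_p-psi_r)/2), and e^{psi_p} - e^{psi_r} = 2 e^{(psi_p+psi_r)/2} sinh((psi_p-psi_r)/2)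
  (if lam_p = lam_r: dd(exp o psi) = e^{psi_p} psi'(lam_p), and sh = psi'/2).
  So q t t' K = Re sum_pr e^{(psi_p-psi_r)/2} z_t(p,r) e^{(psi_r-psi_p)/2} z_t'(r,p) = Re sum z_t(p,r) star z_t'(p,r) (z_t' is Hermitian since
  cosh and sh are symmetric in (p,r)).
* q for G: Kf id H G = G near x (kf_id), so pd and q of Kf id H G and of G agree at x; apply the previous formula with psi = id.
-/

namespace H80HM

open Matrix MeasureTheory Set Filter Topology
open scoped ComplexOrder

private theorem Ptd_q {m : ℕ} {K : ℝ × ℝ → Mt m} {x : ℝ × ℝ} {P : Mt m} (hP : IsUnit P.det)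
    {Z : ℝ × ℝ → Mt m} (hZ : ∀ t, (Z t).IsHermitian) (h : ∀ t, aa t K x = P * Z t * P⁻¹)
    (t t' : ℝ × ℝ) : q t t' K x = ∑ p, ∑ r, (Z t p r * star (Z t' p r)).re := by
  have e1 : P * Z t * P⁻¹ * (P * Z t' * P⁻¹) = P * (Z t * Z t' * P⁻¹) := by
    simp only [Matrix.mul_assoc]
    rw [Matrix.nonsing_inv_mul_cancel_left _ _ hP]
  rw [q, h, h, e1, Matrix.trace_mul_comm, Matrix.mul_assoc, Matrix.nonsing_inv_mul P hP,
    Matrix.mul_one, Matrix.trace, Complex.re_sum]
  refine Finset.sum_congr rfl fun p _ => ?_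
  rw [Matrix.diag_apply, Matrix.mul_apply, Complex.re_sum]
  refine Finset.sum_congr rfl fun r _ => ?_
  rw [(hZ t').apply r p]

private theorem Ptd_mul {m : ℕ} {F H : ℝ × ℝ → Mt m} {x : ℝ × ℝ}
    (dF : ∀ i j, DifferentiableAt ℝ (fun y => F y i j) x)
    (dH : ∀ i j, DifferentiableAt ℝ (fun y => H y i j) x) (t : ℝ × ℝ) :
    pd t (fun y => F y * H y) x = pd t F x * H x + F x * pd t H x := by
  ext i j
  have e1 : (fun y => (F y * H y) i j) = fun y => ∑ k, F y i k * H y k j := by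
    funext y
    rw [Matrix.mul_apply]
  have e2 : HasFDerivAt (fun y => ∑ k, F y i k * H y k j)
      (∑ k, (F x i k • fderiv ℝ (fun y => H y k j) x + H x k j • fderiv ℝ (fun y => F y i k) x)) x :=
    HasFDerivAt.fun_sum fun k _ => (dF i k).hasFDerivAt.mul (dH k j).hasFDerivAt
  have e3 : pd t (fun y => F y * H y) x i j = (∑ k, (F x i k • fderiv ℝ (fun y => H y k j) x +
      H x k j • fderiv ℝ (fun y => F y i k) x)) t := by
    rw [pd, Matrix.of_apply, e1, e2.fderiv]
  rw [e3, Matrix.add_apply, Matrix.mul_apply, Matrix.mul_apply, ContinuousLinearMap.sum_apply,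
    ← Finset.sum_add_distrib]
  refine Finset.sum_congr rfl fun k _ => ?_
  rw [ContinuousLinearMap.add_apply, ContinuousLinearMap.smul_apply,
    ContinuousLinearMap.smul_apply, smul_eq_mul, smul_eq_mul, pd, pd, Matrix.of_apply,
    Matrix.of_apply]
  ring

private theorem Ptd_sh (psi : ℝ → ℝ) (p r : ℝ) : sh psi r p = sh psi p r := by
  unfold sh
  by_cases h : p = r
  · subst h
    rfl
  · rw [if_neg h, if_neg (Ne.symm h), show (psi r - psi p) / 2 = -((psi p - psi r) / 2) by ring,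
      Real.sinh_neg, show r - p = -(p - r) by ring, neg_div_neg_eq]

private theorem Ptd_herm {m : ℕ} (psi : ℝ → ℝ) (lam : Fin m → ℝ) {a s : Mt m}
    (ha : a.IsHermitian) (hs : s.IsHermitian) :
    (Matrix.of fun p r => zz psi (lam p) (lam r) (a p r) (s p r) : Mt m).IsHermitian := by
  ext p r
  rw [Matrix.conjTranspose_apply, Matrix.of_apply, Matrix.of_apply, zz, zz, star_add, star_mul',
    star_mul', ha.apply, hs.apply, Ptd_sh,
    show (psi (lam r) - psi (lam p)) / 2 = -((psi (lam p) - psi (lam r)) / 2) by ring,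
    Real.cosh_neg]
  congr 1
  · congr 1
    exact Complex.conj_ofReal _
  · congr 1
    exact Complex.conj_ofReal _

private theorem Ptd_entry (psi : ℝ → ℝ) (hpsi : ContDiff ℝ 1 psi) (p r : ℝ) (a s : ℂ) :
    (1 / 2 : ℂ) * ((((dd (fun t => Real.exp (psi t)) p r : ℝ) : ℂ) * s +
      a * ((Real.exp (psi r) - Real.exp (psi p) : ℝ) : ℂ)) + 2 * (((Real.exp (psi p) : ℝ) : ℂ) * a)) *
        ((Real.exp (psi r))⁻¹ : ℝ) =
      ((Real.exp (psi p / 2) : ℝ) : ℂ) * zz psi p r a s * ((Real.exp (psi r / 2))⁻¹ : ℝ) := by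
  set u := Real.exp (psi p / 2) with hu
  set v := Real.exp (psi r / 2) with hv
  have hu0 : u ≠ 0 := (Real.exp_pos _).ne'
  have hv0 : v ≠ 0 := (Real.exp_pos _).ne'
  have e1 : Real.exp (psi p) = u * u := by
    rw [hu, ← Real.exp_add]
    congr 1
    ring
  have e2 : Real.exp (psi r) = v * v := by
    rw [hv, ← Real.exp_add]
    congr 1
    ring
  have e3 : Real.exp ((psi p - psi r) / 2) = u / v := by
    rw [hu, hv, ← Real.exp_sub]
    congr 1
    ring
  have e4 : Real.exp (-((psi p - psi r) / 2)) = v / u := by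
    rw [hu, hv, ← Real.exp_sub]
    congr 1
    ring
  have ec : Real.cosh ((psi p - psi r) / 2) = (u / v + v / u) / 2 := by
    rw [Real.cosh_eq, e3, e4]
  have es : sh psi p r * (u * v) = dd (fun t => Real.exp (psi t)) p r / 2 := by
    unfold sh dd
    by_cases h : p = r
    · subst h
      rw [if_pos rfl, if_pos rfl]
      have hd : deriv (fun t => Real.exp (psi t)) p = Real.exp (psi p) * deriv psi p :=
        ((hpsi.differentiable one_ne_zero p).hasDerivAt.exp).deriv
      rw [hd, e1]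
      have : v = u := by rw [hu, hv]
      rw [this]
      ring
    · rw [if_neg h, if_neg h, Real.sinh_eq, e3, e4]
      show (u / v - v / u) / 2 / (p - r) * (u * v) =
        (Real.exp (psi p) - Real.exp (psi r)) / (p - r) / 2
      rw [e1, e2]
      have h' : p - r ≠ 0 := sub_ne_zero.2 h
      field_simp
  have es' : ((dd (fun t => Real.exp (psi t)) p r : ℝ) : ℂ) =
      2 * (((sh psi p r : ℝ) : ℂ) * ((u : ℂ) * (v : ℂ))) := by
    have : dd (fun t => Real.exp (psi t)) p r = 2 * (sh psi p r * (u * v)) := by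
      rw [es]; ring
    rw [this]
    push_cast
    ring
  have hu0' : (u : ℂ) ≠ 0 := by exact_mod_cast hu0
  have hv0' : (v : ℂ) ≠ 0 := by exact_mod_cast hv0
  rw [zz, es', ec, e1, e2]
  push_cast
  field_simp
  ring

theorem ptd_of_diff {m : ℕ} {H G : ℝ × ℝ → Mt m} {x : ℝ × ℝ}
    (hH : ∀ᶠ y in 𝓝 x, (H y).PosDef) (hG : ∀ᶠ y in 𝓝 x, (G y).PosDef)
    (dH : ∀ i j, DifferentiableAt ℝ (fun y => H y i j) x)
    (dG : ∀ i j, DifferentiableAt ℝ (fun y => G y i j) x) : PtD H G x := by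
  have hHx : (H x).PosDef := hH.self_of_nhds
  have hGx : (G x).PosDef := hG.self_of_nhds
  obtain ⟨Q, lam, hQ⟩ := exists_fr hHx hGx
  obtain ⟨a, s, ha, hs, la, ls, haa, hX⟩ := fcal_deriv hH hG dH dG hQ
  have hQd := hQ.1
  have hQh : IsUnit (Qᴴ).det := by
    rw [Matrix.det_conjTranspose]
    exact hQd.star
  have key : ∀ psi : ℝ → ℝ, ContDiff ℝ 1 psi → ∀ t t', q t t' (Kf psi H G) x =
      ∑ p, ∑ r, (zz psi (lam p) (lam r) (a t p r) (s t p r) *
        star (zz psi (lam p) (lam r) (a t' p r) (s t' p r))).re := by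
    intro psi hpsi t t'
    set phi : ℝ → ℝ := fun t => Real.exp (psi t) with hphi
    obtain ⟨dF, hF⟩ := hX phi hpsi.exp
    set Φ : Mt m := diagonal (fun i => ((phi (lam i) : ℝ) : ℂ)) with hΦ
    set Φi : Mt m := diagonal (fun i => (((phi (lam i))⁻¹ : ℝ) : ℂ)) with hΦi
    set E : Mt m := diagonal (fun i => ((Real.exp (psi (lam i) / 2) : ℝ) : ℂ)) with hE
    set Ei : Mt m := diagonal (fun i => (((Real.exp (psi (lam i) / 2))⁻¹ : ℝ) : ℂ)) with hEi
    have hΦΦ : Φ * Φi = 1 := by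
      rw [hΦ, hΦi, Matrix.diagonal_mul_diagonal, ← Matrix.diagonal_one]
      congr 1
      funext i
      rw [← Complex.ofReal_mul, mul_inv_cancel₀ (Real.exp_pos _).ne', Complex.ofReal_one]
    have hEE : E * Ei = 1 := by
      rw [hE, hEi, Matrix.diagonal_mul_diagonal, ← Matrix.diagonal_one]
      congr 1
      funext i
      rw [← Complex.ofReal_mul, mul_inv_cancel₀ (Real.exp_pos _).ne', Complex.ofReal_one]
    have hFx : Xf phi H G x = Q * Φ * Q⁻¹ := fcal_eq hQ phi
    have hKx : Kf psi H G x = Q * Φ * Qᴴ := by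
      show Xf phi H G x * H x = _
      rw [hFx, hQ.2.1, Matrix.mul_assoc, Matrix.nonsing_inv_mul_cancel_left _ _ hQd]
    have hpdH : ∀ t, pd t H x = (2 : ℂ) • (Q * a t * Qᴴ) := by
      intro t
      have h1 := haa t
      rw [aa] at h1
      have h2 : pd t H x * (H x)⁻¹ = (2 : ℂ) • (Q * a t * Q⁻¹) := by
        rw [← h1, smul_smul]
        norm_num
      have h3 : IsUnit (H x).det := (Matrix.isUnit_iff_isUnit_det _).1 hHx.isUnit
      have h4 : pd t H x * (H x)⁻¹ * H x = (2 : ℂ) • (Q * a t * Q⁻¹) * H x := by rw [h2]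
      rw [Matrix.nonsing_inv_mul_cancel_right _ _ h3] at h4
      rw [h4, Matrix.smul_mul, hQ.2.1, Matrix.mul_assoc (Q * a t),
        Matrix.nonsing_inv_mul_cancel_left _ _ hQd]
    have hpdK : ∀ t, aa t (Kf psi H G) x =
        (Q * E) * (Matrix.of fun p r => zz psi (lam p) (lam r) (a t p r) (s t p r)) * (Q * E)⁻¹ := by
      intro t
      have h1 : pd t (Kf psi H G) x = pd t (Xf phi H G) x * H x + Xf phi H G x * pd t H x :=
        Ptd_mul dF dH t
      set M : Mt m := Matrix.of fun p r => ((dd phi (lam p) (lam r) : ℝ) : ℂ) * s t p r +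
            a t p r * ((phi (lam r) - phi (lam p) : ℝ) : ℂ) with hM
      have h2 : pd t (Kf psi H G) x = Q * (M + (2 : ℂ) • (Φ * a t)) * Qᴴ := by
        rw [h1, hF t, hFx, hpdH, hQ.2.1, Matrix.mul_assoc (Q * M),
          Matrix.nonsing_inv_mul_cancel_left _ _ hQd, Matrix.mul_smul, Matrix.mul_assoc Q (a t),
          Matrix.mul_assoc (Q * Φ), Matrix.nonsing_inv_mul_cancel_left _ _ hQd, Matrix.mul_add,
          Matrix.add_mul, Matrix.mul_smul, Matrix.smul_mul]
        simp only [Matrix.mul_assoc]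
      have h3 : (Kf psi H G x)⁻¹ = (Qᴴ)⁻¹ * (Φi * Q⁻¹) := by
        apply Matrix.inv_eq_right_inv
        rw [hKx, Matrix.mul_assoc, Matrix.mul_nonsing_inv_cancel_left _ _ hQh, Matrix.mul_assoc,
          ← Matrix.mul_assoc Φ, hΦΦ, Matrix.one_mul, Matrix.mul_nonsing_inv Q hQd]
      have h4 : (Q * E)⁻¹ = Ei * Q⁻¹ := by
        apply Matrix.inv_eq_right_inv
        rw [Matrix.mul_assoc, ← Matrix.mul_assoc E, hEE, Matrix.one_mul,
          Matrix.mul_nonsing_inv Q hQd]
      have h5 : (1 / 2 : ℂ) • ((M + (2 : ℂ) • (Φ * a t)) * Φi) =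
          E * (Matrix.of fun p r => zz psi (lam p) (lam r) (a t p r) (s t p r)) * Ei := by
        ext p r
        rw [Matrix.smul_apply, hΦi, Matrix.mul_diagonal, Matrix.add_apply, Matrix.smul_apply, hΦ,
          Matrix.diagonal_mul, hM, Matrix.of_apply, hEi, Matrix.mul_diagonal, hE,
          Matrix.diagonal_mul, Matrix.of_apply, smul_eq_mul, smul_eq_mul, ← mul_assoc]
        exact Ptd_entry psi hpsi (lam p) (lam r) (a t p r) (s t p r)
      rw [aa, h2, h3, h4, Matrix.mul_assoc (Q * (M + (2 : ℂ) • (Φ * a t))),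
        Matrix.mul_nonsing_inv_cancel_left _ _ hQh]
      have h6 : (1 / 2 : ℂ) • (Q * (M + (2 : ℂ) • (Φ * a t)) * (Φi * Q⁻¹)) =
          Q * ((1 / 2 : ℂ) • ((M + (2 : ℂ) • (Φ * a t)) * Φi)) * Q⁻¹ := by
        rw [Matrix.mul_smul, Matrix.smul_mul]
        simp only [Matrix.mul_assoc]
      rw [h6, h5]
      simp only [Matrix.mul_assoc]
    have hP : IsUnit (Q * E).det := by
      rw [Matrix.det_mul]
      exact hQd.mul (Matrix.isUnit_det_of_right_inverse hEE)
    have h7 := Ptd_q hP (fun t => Ptd_herm psi lam (ha t) (hs t)) hpdK t t'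
    rw [h7]
    rfl
  refine ⟨Q, lam, a, s, hQ, ha, hs, la, ls, haa, fun t t' => Ptd_q hQd ha haa t t', ?_, key,
    fun phi hphi t => (hX phi hphi).2 t⟩
  intro t t'
  have hev : ∀ᶠ y in 𝓝 x, Kf id H G y = G y := by
    filter_upwards [hH, hG] with y h1 h2
    exact kf_id h1 h2
  have haG : ∀ t, aa t G x = aa t (Kf id H G) x := by
    intro t
    have h1 : pd t G x = pd t (Kf id H G) x := by
      ext i j
      rw [pd, pd, Matrix.of_apply, Matrix.of_apply]
      have h2 : (fun y => G y i j) =ᶠ[𝓝 x] fun y => Kf id H G y i j := by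
        filter_upwards [hev] with y hy
        rw [hy]
      rw [h2.fderiv_eq]
    rw [aa, aa, h1, hev.self_of_nhds]
  have h3 : q t t' G x = q t t' (Kf id H G) x := by
    rw [q, q, haG, haG]
  rw [h3]
  exact key id contDiff_id t t'

end H80HM
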