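import Pool.Agent.H80.HM.Aed
import Pool.Agent.H80.HM.Ptd

set_option autoImplicit false

/-!
# Row Pta: the pointwise description holds almost everywhere

By lz_ae (row Aed) a.e. x in U is a point of differentiability of all entries of H and of G; H and G are positive definite near every x in U
(U open, U contained in D minus P); apply ptd_of_diff (row Ptd).
-/

namespace H80HM

open Matrix MeasureTheory Set Filter Topology
open scoped ComplexOrder

theorem ptd_ae {m : ℕ} {A B C : Mt m} {H G : ℝ × ℝ → Mt m} (hH : Cl A B C H)
    (hG : Cl A B C G) : ∀ᵐ x ∂(volume.restrict U), PtD H G x := by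
  have hUo : IsOpen U := isOpen_Ioo.prod isOpen_Ioo
  filter_upwards [lz_ae hH.lip, lz_ae hG.lip, ae_restrict_mem hUo.measurableSet] with x h1 h2 hx
  have hev : ∀ᶠ y in 𝓝 x, y ∈ U := hUo.mem_nhds hx
  exact ptd_of_diff (hev.mono fun y hy => hH.pos y (u_sub hy)) (hev.mono fun y hy => hG.pos y (u_sub hy)) h1 h2

end H80HM
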