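import Pool.Agent.H80.HM.Defs

set_option autoImplicit false

/-!
# Row Stk: Stokes formula for two Lipschitz functions on the rectangle

LipR / LipC f: Lipschitz on D (values outside D are arbitrary; both sides of the formula only depend on the values in D: derivatives at interior
points of U, and one-dimensional derivatives along the sides at interior points of the sides).
Proof of stokes_real.
(0) Replace f, g by f o r, g o r, r(u,v) = (max 0 (min 1 u), max 0 (min (1/2) v)) the 1-Lipschitz retraction onto D: globally Lipschitz, same values on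
 D, so nothing changes. Let L be a common Lipschitz constant.
(1) g of class C^2 (or C^infinity): Fubini and integration by parts for absolutely continuous functions of one variable (Mathlib:
 AbsolutelyContinuousOnInterval.integral_mul_deriv_eq_deriv_mul, LipschitzOnWith gives absolute continuity; for a.e. v the derivative of u -> f(u,v) is
 fderiv f (u,v) (1,0) for a.e. u by Rademacher and Fubini):
 int_U d1f d2g = int_v [f d2g]_{u=0}^{u=1} dv - int_U f d1d2g,   int_U d2f d1g = int_u [f d1g]_{v=0}^{v=1/2} du - int_U f d2d1g; subtract.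
(2) general g: mollify, g_n = bump_n * g (convolution; smooth, Lipschitz constant L, |g_n - g| <= L/n uniformly, and fderiv g_n -> fderiv g a.e. on U:
 difference quotients, or: fderiv g_n x = int bump_n(y) fderiv g (x-y) dy, Lebesgue points / L^1 convergence). Interior terms converge by dominated
 convergence (|d f|, |d g_n| <= L; along a subsequence if one uses L^1 convergence). Boundary terms: for the side u = 1,
 int_0^{1/2} f(1,v) d_v g_n(1,v) dv = [f(1,v) g_n(1,v)]_0^{1/2} - int f_v(1,v) g_n(1,v) dv -> [f g] - int f_v(1,v) g(1,v) dv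
 = int f(1,v) g_v(1,v) dv, again integration by parts for Lipschitz functions (f_v, g_v = deriv of the restrictions). The other sides in the same way.
(Alternative to (2): Steklov average in u only, g_h(u,v) = (1/h) int_0^h g(u+t,v) dt.)
stokes_cx: both sides are real bilinear in (f,g) and complex bilinear; apply stokes_real to real and imaginary parts (fderiv and deriv of re o f etc.;
a.e. differentiability by Rademacher).
-/

namespace H80HM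

open Matrix MeasureTheory Set

def LipR (f : ℝ × ℝ → ℝ) : Prop := ∃ K : ℝ, ∀ x ∈ D, ∀ y ∈ D, |f x - f y| ≤ K * dist x y

def LipC (f : ℝ × ℝ → ℂ) : Prop := ∃ K : ℝ, ∀ x ∈ D, ∀ y ∈ D, ‖f x - f y‖ ≤ K * dist x y

/-- retraction onto the rectangle -/
noncomputable def Stk_r (x : ℝ × ℝ) : ℝ × ℝ := (max 0 (min 1 x.1), max 0 (min (1/2) x.2))

theorem Stk_r_mem (x : ℝ × ℝ) : Stk_r x ∈ D := by
  simp only [Stk_r, D, mem_prod, mem_Icc]
  refine ⟨⟨le_max_left _ _, max_le (by norm_num) (min_le_left _ _)⟩,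
    ⟨le_max_left _ _, max_le (by norm_num) (min_le_left _ _)⟩⟩

theorem Stk_r_id {x : ℝ × ℝ} (hx : x ∈ D) : Stk_r x = x := by
  simp only [D, mem_prod, mem_Icc] at hx
  obtain ⟨⟨h1, h2⟩, h3, h4⟩ := hx
  simp only [Stk_r]
  rw [min_eq_right h2, max_eq_right h1, min_eq_right h4, max_eq_right h3]

theorem Stk_r_lip : LipschitzWith 1 Stk_r := by
  have h1 : LipschitzWith 1 (fun x : ℝ × ℝ ↦ max 0 (min 1 x.1)) :=
    (LipschitzWith.prod_fst.const_min 1).const_max 0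
  have h2 : LipschitzWith 1 (fun x : ℝ × ℝ ↦ max 0 (min (1/2) x.2)) :=
    (LipschitzWith.prod_snd.const_min (1/2)).const_max 0
  have h3 := h1.prodMk h2
  rw [max_self] at h3
  exact h3

section gen

variable {𝕜 : Type*} [RCLike 𝕜]

theorem Stk_ext {f : ℝ × ℝ → 𝕜} {K : ℝ} (hf : ∀ x ∈ D, ∀ y ∈ D, ‖f x - f y‖ ≤ K * dist x y) :
    LipschitzWith (Real.toNNReal K) (fun x ↦ f (Stk_r x)) := by
  refine LipschitzWith.of_dist_le_mul fun x y ↦ ?_
  rw [dist_eq_norm]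
  refine (hf _ (Stk_r_mem x) _ (Stk_r_mem y)).trans ?_
  have h1 : dist (Stk_r x) (Stk_r y) ≤ dist x y := by
    simpa using Stk_r_lip.dist_le_mul x y
  calc K * dist (Stk_r x) (Stk_r y) ≤ (Real.toNNReal K : ℝ) * dist (Stk_r x) (Stk_r y) :=
        mul_le_mul_of_nonneg_right (Real.le_coe_toNNReal K) dist_nonneg
    _ ≤ _ := mul_le_mul_of_nonneg_left h1 (NNReal.coe_nonneg _)

theorem Stk_inner (q : ℝ → 𝕜) (hq : Continuous q) (a b h : ℝ) (A B : 𝕜)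
    (hB : ∀ u ∈ uIcc b (b + h), q u = B) (hA : ∀ u ∈ uIcc a (a + h), q u = A) :
    ∫ u in a..b, (q (u + h) - q u) = h • (B - A) := by
  have hi : ∀ s t : ℝ, IntervalIntegrable q volume s t := fun s t ↦ hq.intervalIntegrable s t
  rw [intervalIntegral.integral_sub ((by fun_prop : Continuous fun u ↦ q (u + h)).intervalIntegrable _ _)
    (hi _ _), intervalIntegral.integral_comp_add_right]
  have h1 : ∫ u in (a + h)..(b + h), q u = (∫ u in (a + h)..a, q u) + (∫ u in a..b, q u) +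
      ∫ u in b..(b + h), q u := by
    rw [intervalIntegral.integral_add_adjacent_intervals (hi _ _) (hi _ _),
      intervalIntegral.integral_add_adjacent_intervals (hi _ _) (hi _ _)]
  have h2 : ∫ u in b..(b + h), q u = h • B := by
    rw [intervalIntegral.integral_congr hB, intervalIntegral.integral_const]
    congr 1; ring
  have h3 : ∫ u in (a + h)..a, q u = -(h • A) := by
    rw [intervalIntegral.integral_symm, intervalIntegral.integral_congr hA,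
      intervalIntegral.integral_const]
    congr 2; ring
  rw [h1, h2, h3, smul_sub]
  ring

theorem Stk_shift1 (Q : ℝ × ℝ → 𝕜) (hQ : Continuous Q) (h : ℝ) (h0 : 0 ≤ h) (h1 : h ≤ 1)
    (hQ1 : ∀ u v, 1 ≤ u → Q (u, v) = Q (1, v)) (hQ0 : ∀ u v, u ≤ 0 → Q (u, v) = Q (0, v)) :
    ∫ x in Ioc (-1:ℝ) 2 ×ˢ Ioc (-1:ℝ) 1, (Q (x.1 + h, x.2) - Q x) =
      h • ((∫ v in (-1:ℝ)..1, Q (1, v)) - ∫ v in (-1:ℝ)..1, Q (0, v)) := by
  have hc : Continuous fun x : ℝ × ℝ ↦ (Q (x.1 + h, x.2) - Q x) := by fun_prop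
  have hsw : ∫ x in Ioc (-1:ℝ) 2 ×ˢ Ioc (-1:ℝ) 1, (Q (x.1 + h, x.2) - Q x) =
      ∫ v in Ioc (-1:ℝ) 1, ∫ u in Ioc (-1:ℝ) 2, (Q (u + h, v) - Q (u, v)) := by
    rw [Measure.volume_eq_prod, ← setIntegral_prod_swap,
      setIntegral_prod (fun z : ℝ × ℝ ↦ (Q ((z.swap).1 + h, (z.swap).2) - Q z.swap))]
    · rfl
    · exact ((hc.comp continuous_swap).continuousOn.integrableOn_compact
        (isCompact_Icc.prod isCompact_Icc)).mono_set
        (prod_mono Ioc_subset_Icc_self Ioc_subset_Icc_self)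
  rw [hsw, ← intervalIntegral.integral_of_le (by norm_num : (-1:ℝ) ≤ 1)]
  have hin : ∀ v : ℝ, ∫ u in Ioc (-1:ℝ) 2, (Q (u + h, v) - Q (u, v)) = h • (Q (1, v) - Q (0, v)) := by
    intro v
    rw [← intervalIntegral.integral_of_le (by norm_num : (-1:ℝ) ≤ 2)]
    refine Stk_inner (fun u ↦ Q (u, v)) (by fun_prop) (-1) 2 h _ _ ?_ ?_
    · intro u hu
      rw [uIcc_of_le (by linarith)] at hu
      exact hQ1 u v (by linarith [hu.1])
    · intro u hu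
      rw [uIcc_of_le (by linarith)] at hu
      exact hQ0 u v (by linarith [hu.2])
  simp_rw [hin]
  rw [intervalIntegral.integral_smul, intervalIntegral.integral_sub]
  · exact (by fun_prop : Continuous fun v ↦ Q (1, v)).intervalIntegrable _ _
  · exact (by fun_prop : Continuous fun v ↦ Q (0, v)).intervalIntegrable _ _

theorem Stk_shift2 (P : ℝ × ℝ → 𝕜) (hP : Continuous P) (h : ℝ) (h0 : 0 ≤ h) (h1 : h ≤ 1)
    (hP1 : ∀ u v, 1/2 ≤ v → P (u, v) = P (u, 1/2)) (hP0 : ∀ u v, v ≤ 0 → P (u, v) = P (u, 0)) :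
    ∫ x in Ioc (-1:ℝ) 2 ×ˢ Ioc (-1:ℝ) 1, (P (x.1, x.2 + h) - P x) =
      h • ((∫ u in (-1:ℝ)..2, P (u, 1/2)) - ∫ u in (-1:ℝ)..2, P (u, 0)) := by
  have hc : Continuous fun x : ℝ × ℝ ↦ (P (x.1, x.2 + h) - P x) := by fun_prop
  have hint : IntegrableOn (fun x : ℝ × ℝ ↦ (P (x.1, x.2 + h) - P x))
      (Ioc (-1:ℝ) 2 ×ˢ Ioc (-1:ℝ) 1) (volume.prod volume) :=
    (hc.continuousOn.integrableOn_compact (isCompact_Icc.prod isCompact_Icc)).mono_set
      (prod_mono Ioc_subset_Icc_self Ioc_subset_Icc_self)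
  have hsw : ∫ x in Ioc (-1:ℝ) 2 ×ˢ Ioc (-1:ℝ) 1, (P (x.1, x.2 + h) - P x) =
      ∫ u in Ioc (-1:ℝ) 2, ∫ v in Ioc (-1:ℝ) 1, (P (u, v + h) - P (u, v)) := by
    rw [Measure.volume_eq_prod, setIntegral_prod _ hint]
  rw [hsw, ← intervalIntegral.integral_of_le (by norm_num : (-1:ℝ) ≤ 2)]
  have hin : ∀ u : ℝ, ∫ v in Ioc (-1:ℝ) 1, (P (u, v + h) - P (u, v)) = h • (P (u, 1/2) - P (u, 0)) := by
    intro u
    rw [← intervalIntegral.integral_of_le (by norm_num : (-1:ℝ) ≤ 1)]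
    refine Stk_inner (fun v ↦ P (u, v)) (by fun_prop) (-1) 1 h _ _ ?_ ?_
    · intro v hv
      rw [uIcc_of_le (by linarith)] at hv
      exact hP1 u v (by linarith [hv.1])
    · intro v hv
      rw [uIcc_of_le (by linarith)] at hv
      exact hP0 u v (by linarith [hv.2])
  simp_rw [hin]
  rw [intervalIntegral.integral_smul, intervalIntegral.integral_sub]
  · exact (by fun_prop : Continuous fun u ↦ P (u, 1/2)).intervalIntegrable _ _
  · exact (by fun_prop : Continuous fun u ↦ P (u, 0)).intervalIntegrable _ _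

theorem Stk_lim1 {φ ψ : ℝ → 𝕜} {K L : NNReal} (hφ : LipschitzWith K φ) (hψ : LipschitzWith L ψ)
    (a b : ℝ) :
    Filter.Tendsto (fun n : ℕ ↦ ∫ v in a..b, (1/2 : ℝ) • ((φ v + φ (v + ((n:ℝ)+1)⁻¹)) *
      (((n:ℝ)+1) • (ψ (v + ((n:ℝ)+1)⁻¹) - ψ v)))) Filter.atTop
      (nhds (∫ v in a..b, φ v * deriv ψ v)) := by
  have hφc := hφ.continuous
  have hψc := hψ.continuous
  have hc : Filter.Tendsto (fun n : ℕ ↦ ‖((n:ℝ)+1)‖) Filter.atTop Filter.atTop := by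
    refine Filter.Tendsto.congr (fun n ↦ ?_)
      (Filter.tendsto_atTop_add_const_right _ 1 tendsto_natCast_atTop_atTop)
    rw [Real.norm_of_nonneg (by positivity)]
  have hc0 : Filter.Tendsto (fun n : ℕ ↦ (((n:ℝ)+1)⁻¹ : ℝ)) Filter.atTop (nhds 0) := by
    have := tendsto_one_div_add_atTop_nhds_zero_nat (𝕜 := ℝ)
    simpa [one_div] using this
  obtain ⟨B, hB⟩ := (isCompact_uIcc (a := min a b - 1) (b := max a b + 1)).exists_bound_of_continuousOn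
    hφc.continuousOn
  have hBmem : ∀ v ∈ uIoc a b, ∀ n : ℕ, v ∈ uIcc (min a b - 1) (max a b + 1) ∧
      v + ((n:ℝ)+1)⁻¹ ∈ uIcc (min a b - 1) (max a b + 1) := by
    intro v hv n
    have h1 : ((n:ℝ)+1)⁻¹ ≤ 1 := inv_le_one_of_one_le₀ (by linarith [Nat.cast_nonneg (α := ℝ) n])
    have h2 : 0 < ((n:ℝ)+1)⁻¹ := by positivity
    have h3 : min a b ≤ max a b := min_le_max
    rw [uIcc_of_le (by linarith)]
    have h4 : min a b < v ∧ v ≤ max a b := hv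
    exact ⟨⟨by linarith [h4.1], by linarith [h4.2]⟩, ⟨by linarith [h4.1], by linarith [h4.2]⟩⟩
  refine intervalIntegral.tendsto_integral_filter_of_dominated_convergence
    (fun _ ↦ (1/2 : ℝ) * ((B + B) * L)) ?_ ?_ ?_ ?_
  · refine Filter.Eventually.of_forall fun n ↦ ?_
    exact (by fun_prop : Continuous fun v ↦ (1/2 : ℝ) • ((φ v + φ (v + ((n:ℝ)+1)⁻¹)) *
      (((n:ℝ)+1) • (ψ (v + ((n:ℝ)+1)⁻¹) - ψ v)))).aestronglyMeasurable
  · refine Filter.Eventually.of_forall fun n ↦ Filter.Eventually.of_forall fun v hv ↦ ?_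
    have hn : (0:ℝ) < (n:ℝ) + 1 := by positivity
    obtain ⟨h1, h2⟩ := hBmem v hv n
    rw [norm_smul, norm_mul]
    have h3 : ‖((n:ℝ)+1) • (ψ (v + ((n:ℝ)+1)⁻¹) - ψ v)‖ ≤ L := by
      rw [norm_smul, Real.norm_of_nonneg hn.le]
      have h4 := hψ.norm_sub_le (v + ((n:ℝ)+1)⁻¹) v
      rw [add_sub_cancel_left, Real.norm_of_nonneg (by positivity)] at h4
      calc ((n:ℝ)+1) * ‖ψ (v + ((n:ℝ)+1)⁻¹) - ψ v‖ ≤ ((n:ℝ)+1) * (L * ((n:ℝ)+1)⁻¹) :=
            mul_le_mul_of_nonneg_left h4 hn.le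
        _ = L := by field_simp
    have h5 : ‖φ v + φ (v + ((n:ℝ)+1)⁻¹)‖ ≤ B + B := (norm_add_le _ _).trans (add_le_add (hB _ h1) (hB _ h2))
    have h6 : ‖(1/2 : ℝ)‖ = 1/2 := by norm_num
    rw [h6]
    refine mul_le_mul_of_nonneg_left ?_ (by norm_num)
    exact mul_le_mul h5 h3 (norm_nonneg _) ((norm_nonneg _).trans h5)
  · exact intervalIntegrable_const
  · have hae : ∀ᵐ v : ℝ, DifferentiableAt ℝ ψ v := hψ.ae_differentiableAt
    filter_upwards [hae] with v hv _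
    have h1 := (hv.hasFDerivAt).lim 1 hc
    have h2 : Filter.Tendsto (fun n : ℕ ↦ φ (v + ((n:ℝ)+1)⁻¹)) Filter.atTop (nhds (φ v)) := by
      have h3 : Filter.Tendsto (fun n : ℕ ↦ v + ((n:ℝ)+1)⁻¹) Filter.atTop (nhds (v + 0)) :=
        tendsto_const_nhds.add hc0
      rw [add_zero] at h3
      exact (hφc.tendsto v).comp h3
    have h4 : Filter.Tendsto (fun n : ℕ ↦ (1/2 : ℝ) • ((φ v + φ (v + ((n:ℝ)+1)⁻¹)) *
      (((n:ℝ)+1) • (ψ (v + ((n:ℝ)+1)⁻¹ • (1:ℝ)) - ψ v)))) Filter.atTop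
      (nhds ((1/2 : ℝ) • ((φ v + φ v) * (fderiv ℝ ψ v 1)))) :=
      ((tendsto_const_nhds.add h2).mul h1).const_smul _
    have h5 : (1/2 : ℝ) • ((φ v + φ v) * (fderiv ℝ ψ v 1)) = φ v * deriv ψ v := by
      rw [← fderiv_apply_one_eq_deriv, ← two_mul, mul_assoc, RCLike.real_smul_eq_coe_mul]
      push_cast
      ring
    rw [h5] at h4
    simpa using h4

/-- difference quotient -/
noncomputable def Stk_dq (F : ℝ × ℝ → 𝕜) (w : ℝ × ℝ) (n : ℕ) (x : ℝ × ℝ) : 𝕜 :=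
  ((n:ℝ)+1) • (F (x + ((n:ℝ)+1)⁻¹ • w) - F x)

/-- the discrete form -/
noncomputable def Stk_phi (F G : ℝ × ℝ → 𝕜) (n : ℕ) (x : ℝ × ℝ) : 𝕜 :=
  (1/2 : ℝ) • (Stk_dq F (1, 1) n x * (Stk_dq G (0, 1) n x - Stk_dq G (1, 0) n x) +
    (Stk_dq F (1, 0) n x - Stk_dq F (0, 1) n x) * Stk_dq G (1, 1) n x)

theorem Stk_dq_bd {F : ℝ × ℝ → 𝕜} {L : NNReal} (hF : LipschitzWith L F) (w : ℝ × ℝ) (hw : ‖w‖ ≤ 1)
    (n : ℕ) (x : ℝ × ℝ) : ‖Stk_dq F w n x‖ ≤ L := by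
  have hn : (0:ℝ) < (n:ℝ) + 1 := by positivity
  rw [Stk_dq, norm_smul, Real.norm_of_nonneg hn.le]
  have h4 := hF.norm_sub_le (x + ((n:ℝ)+1)⁻¹ • w) x
  rw [add_sub_cancel_left, norm_smul, Real.norm_of_nonneg (by positivity)] at h4
  have h5 : (L : ℝ) * (((n:ℝ)+1)⁻¹ * ‖w‖) ≤ L * ((n:ℝ)+1)⁻¹ := by
    refine mul_le_mul_of_nonneg_left ?_ L.coe_nonneg
    exact mul_le_of_le_one_right (by positivity) hw
  calc ((n:ℝ)+1) * ‖F (x + ((n:ℝ)+1)⁻¹ • w) - F x‖ ≤ ((n:ℝ)+1) * (L * ((n:ℝ)+1)⁻¹) :=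
        mul_le_mul_of_nonneg_left (h4.trans h5) hn.le
    _ = L := by field_simp

theorem Stk_dq_cont {F : ℝ × ℝ → 𝕜} (hF : Continuous F) (w : ℝ × ℝ) (n : ℕ) :
    Continuous (Stk_dq F w n) := by
  unfold Stk_dq
  fun_prop

theorem Stk_dq_lim {F : ℝ × ℝ → 𝕜} {x : ℝ × ℝ} (hF : DifferentiableAt ℝ F x) (w : ℝ × ℝ) :
    Filter.Tendsto (fun n ↦ Stk_dq F w n x) Filter.atTop (nhds (fderiv ℝ F x w)) := by
  have hc : Filter.Tendsto (fun n : ℕ ↦ ‖((n:ℝ)+1)‖) Filter.atTop Filter.atTop := by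
    refine Filter.Tendsto.congr (fun n ↦ ?_)
      (Filter.tendsto_atTop_add_const_right _ 1 tendsto_natCast_atTop_atTop)
    rw [Real.norm_of_nonneg (by positivity)]
  exact (hF.hasFDerivAt).lim w hc

theorem Stk_lim2 {F G : ℝ × ℝ → 𝕜} {K L : NNReal} (hF : LipschitzWith K F) (hG : LipschitzWith L G) :
    Filter.Tendsto (fun n ↦ ∫ x in Ioc (-1:ℝ) 2 ×ˢ Ioc (-1:ℝ) 1, Stk_phi F G n x) Filter.atTop
      (nhds (∫ x in Ioc (-1:ℝ) 2 ×ˢ Ioc (-1:ℝ) 1, (fderiv ℝ F x (1, 0) * fderiv ℝ G x (0, 1) -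
        fderiv ℝ F x (0, 1) * fderiv ℝ G x (1, 0)))) := by
  have n11 : ‖((1:ℝ), (1:ℝ))‖ ≤ 1 := by simp [Prod.norm_def]
  have n10 : ‖((1:ℝ), (0:ℝ))‖ ≤ 1 := by simp [Prod.norm_def]
  have n01 : ‖((0:ℝ), (1:ℝ))‖ ≤ 1 := by simp [Prod.norm_def]
  refine tendsto_integral_of_dominated_convergence
    (fun _ ↦ (1/2 : ℝ) * (K * (L + L) + (K + K) * L)) ?_ ?_ ?_ ?_
  · intro n
    have c1 := Stk_dq_cont hF.continuous (1, 1) n
    have c2 := Stk_dq_cont hF.continuous (1, 0) n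
    have c3 := Stk_dq_cont hF.continuous (0, 1) n
    have c4 := Stk_dq_cont hG.continuous (1, 1) n
    have c5 := Stk_dq_cont hG.continuous (1, 0) n
    have c6 := Stk_dq_cont hG.continuous (0, 1) n
    have : Continuous (Stk_phi F G n) := by
      unfold Stk_phi
      fun_prop
    exact this.aestronglyMeasurable
  · have : IntegrableOn (fun _ : ℝ × ℝ ↦ (1/2 : ℝ) * (K * (L + L) + (K + K) * L))
        (Ioc (-1:ℝ) 2 ×ˢ Ioc (-1:ℝ) 1) volume :=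
      (continuous_const.continuousOn.integrableOn_compact (isCompact_Icc.prod isCompact_Icc)).mono_set
        (prod_mono Ioc_subset_Icc_self Ioc_subset_Icc_self)
    exact this
  · intro n
    refine Filter.Eventually.of_forall fun x ↦ ?_
    rw [Stk_phi, norm_smul]
    have h6 : ‖(1/2 : ℝ)‖ = 1/2 := by norm_num
    rw [h6]
    refine mul_le_mul_of_nonneg_left ?_ (by norm_num)
    refine (norm_add_le _ _).trans (add_le_add ?_ ?_)
    · rw [norm_mul]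
      exact mul_le_mul (Stk_dq_bd hF _ n11 n x) ((norm_sub_le _ _).trans
        (add_le_add (Stk_dq_bd hG _ n01 n x) (Stk_dq_bd hG _ n10 n x))) (norm_nonneg _) K.coe_nonneg
    · rw [norm_mul]
      exact mul_le_mul ((norm_sub_le _ _).trans
        (add_le_add (Stk_dq_bd hF _ n10 n x) (Stk_dq_bd hF _ n01 n x))) (Stk_dq_bd hG _ n11 n x)
        (norm_nonneg _) (by positivity)
  · have hae1 : ∀ᵐ x : ℝ × ℝ, DifferentiableAt ℝ F x := hF.ae_differentiableAt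
    have hae2 : ∀ᵐ x : ℝ × ℝ, DifferentiableAt ℝ G x := hG.ae_differentiableAt
    filter_upwards [ae_restrict_of_ae hae1, ae_restrict_of_ae hae2] with x h1 h2
    have t := (((Stk_dq_lim h1 (1, 1)).mul ((Stk_dq_lim h2 (0, 1)).sub (Stk_dq_lim h2 (1, 0)))).add
      (((Stk_dq_lim h1 (1, 0)).sub (Stk_dq_lim h1 (0, 1))).mul (Stk_dq_lim h2 (1, 1)))).const_smul (1/2 : ℝ)
    have e1 : ∀ T : (ℝ × ℝ) →L[ℝ] 𝕜, T (1, 1) = T (1, 0) + T (0, 1) := by
      intro T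
      rw [← map_add]
      simp
    have e : (1/2 : ℝ) • (fderiv ℝ F x (1, 1) * (fderiv ℝ G x (0, 1) - fderiv ℝ G x (1, 0)) +
        (fderiv ℝ F x (1, 0) - fderiv ℝ F x (0, 1)) * fderiv ℝ G x (1, 1)) =
        fderiv ℝ F x (1, 0) * fderiv ℝ G x (0, 1) - fderiv ℝ F x (0, 1) * fderiv ℝ G x (1, 0) := by
      rw [e1 (fderiv ℝ F x), e1 (fderiv ℝ G x), RCLike.real_smul_eq_coe_mul]
      push_cast
      ring
    rw [e] at t
    exact t

theorem Stk_disc {F G : ℝ × ℝ → 𝕜} (hF : Continuous F) (hG : Continuous G)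
    (hF1 : ∀ u v, 1 ≤ u → F (u, v) = F (1, v)) (hF0 : ∀ u v, u ≤ 0 → F (u, v) = F (0, v))
    (hF3 : ∀ u v, 1/2 ≤ v → F (u, v) = F (u, 1/2)) (hF2 : ∀ u v, v ≤ 0 → F (u, v) = F (u, 0))
    (hG1 : ∀ u v, 1 ≤ u → G (u, v) = G (1, v)) (hG0 : ∀ u v, u ≤ 0 → G (u, v) = G (0, v))
    (hG3 : ∀ u v, 1/2 ≤ v → G (u, v) = G (u, 1/2)) (hG2 : ∀ u v, v ≤ 0 → G (u, v) = G (u, 0)) (n : ℕ) :
    ∫ x in Ioc (-1:ℝ) 2 ×ˢ Ioc (-1:ℝ) 1, Stk_phi F G n x =
      (∫ v in (-1:ℝ)..1, (1/2 : ℝ) • ((F (1, v) + F (1, v + ((n:ℝ)+1)⁻¹)) *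
        (((n:ℝ)+1) • (G (1, v + ((n:ℝ)+1)⁻¹) - G (1, v))))) -
      (∫ v in (-1:ℝ)..1, (1/2 : ℝ) • ((F (0, v) + F (0, v + ((n:ℝ)+1)⁻¹)) *
        (((n:ℝ)+1) • (G (0, v + ((n:ℝ)+1)⁻¹) - G (0, v))))) -
      ((∫ u in (-1:ℝ)..2, (1/2 : ℝ) • ((F (u, 1/2) + F (u + ((n:ℝ)+1)⁻¹, 1/2)) *
        (((n:ℝ)+1) • (G (u + ((n:ℝ)+1)⁻¹, 1/2) - G (u, 1/2))))) -
      (∫ u in (-1:ℝ)..2, (1/2 : ℝ) • ((F (u, 0) + F (u + ((n:ℝ)+1)⁻¹, 0)) *
        (((n:ℝ)+1) • (G (u + ((n:ℝ)+1)⁻¹, 0) - G (u, 0)))))) := by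
  set h : ℝ := ((n:ℝ)+1)⁻¹ with hh
  have hn : (0:ℝ) < (n:ℝ) + 1 := by positivity
  have h0 : 0 ≤ h := by positivity
  have h1 : h ≤ 1 := inv_le_one_of_one_le₀ (by linarith [Nat.cast_nonneg (α := ℝ) n])
  have hch : ((n:ℝ)+1) * h = 1 := by rw [hh]; field_simp
  set c : ℝ := (n:ℝ)+1 with hc
  set Q : ℝ × ℝ → 𝕜 := fun x ↦ (F x + F (x.1, x.2 + h)) * (G (x.1, x.2 + h) - G x) with hQ
  set P : ℝ × ℝ → 𝕜 := fun x ↦ (F x + F (x.1 + h, x.2)) * (G (x.1 + h, x.2) - G x) with hP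
  have hQc : Continuous Q := by rw [hQ]; fun_prop
  have hPc : Continuous P := by rw [hP]; fun_prop
  have hpt : ∀ x : ℝ × ℝ, Stk_phi F G n x =
      (c ^ 2 / 2 : ℝ) • ((Q (x.1 + h, x.2) - Q x) - (P (x.1, x.2 + h) - P x)) := by
    intro x
    have a1 : x + h • ((1:ℝ), (1:ℝ)) = (x.1 + h, x.2 + h) := by ext <;> simp
    have a2 : x + h • ((1:ℝ), (0:ℝ)) = (x.1 + h, x.2) := by ext <;> simp
    have a3 : x + h • ((0:ℝ), (1:ℝ)) = (x.1, x.2 + h) := by ext <;> simp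
    simp only [Stk_phi, Stk_dq, ← hh, ← hc, a1, a2, a3, hQ, hP, RCLike.real_smul_eq_coe_mul]
    push_cast
    ring
  simp_rw [hpt]
  rw [integral_smul, integral_sub]
  rotate_left
  · have : IntegrableOn (fun x : ℝ × ℝ ↦ Q (x.1 + h, x.2) - Q x)
        (Ioc (-1:ℝ) 2 ×ˢ Ioc (-1:ℝ) 1) volume :=
      ((by fun_prop : Continuous fun x : ℝ × ℝ ↦ Q (x.1 + h, x.2) - Q x).continuousOn.integrableOn_compact
        (isCompact_Icc.prod isCompact_Icc)).mono_set (prod_mono Ioc_subset_Icc_self Ioc_subset_Icc_self)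
    exact this
  · have : IntegrableOn (fun x : ℝ × ℝ ↦ P (x.1, x.2 + h) - P x)
        (Ioc (-1:ℝ) 2 ×ˢ Ioc (-1:ℝ) 1) volume :=
      ((by fun_prop : Continuous fun x : ℝ × ℝ ↦ P (x.1, x.2 + h) - P x).continuousOn.integrableOn_compact
        (isCompact_Icc.prod isCompact_Icc)).mono_set (prod_mono Ioc_subset_Icc_self Ioc_subset_Icc_self)
    exact this
  rw [Stk_shift1 Q hQc h h0 h1, Stk_shift2 P hPc h h0 h1]
  rotate_left
  · intro u v hv
    simp only [hP]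
    rw [hF3 u v hv, hF3 (u + h) v hv, hG3 (u + h) v hv, hG3 u v hv]
  · intro u v hv
    simp only [hP]
    rw [hF2 u v hv, hF2 (u + h) v hv, hG2 (u + h) v hv, hG2 u v hv]
  · intro u v hu
    simp only [hQ]
    rw [hF1 u v hu, hF1 u (v + h) hu, hG1 u (v + h) hu, hG1 u v hu]
  · intro u v hu
    simp only [hQ]
    rw [hF0 u v hu, hF0 u (v + h) hu, hG0 u (v + h) hu, hG0 u v hu]
  have e1 : ∀ q1 q2 : ℝ → 𝕜, ∀ a b : ℝ, (∫ v in a..b, (1/2 : ℝ) • (q1 v * (c • q2 v))) =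
      (c ^ 2 / 2 : ℝ) • (h • ∫ v in a..b, q1 v * q2 v) := by
    intro q1 q2 a b
    rw [smul_smul, ← intervalIntegral.integral_smul]
    refine intervalIntegral.integral_congr fun v _ ↦ ?_
    have e2 : c ^ 2 / 2 * h = c / 2 := by
      rw [pow_two, show c * c / 2 * h = c / 2 * (c * h) by ring, hch, mul_one]
    simp only [e2, RCLike.real_smul_eq_coe_mul]
    push_cast
    ring
  rw [e1 (fun v ↦ F (1, v) + F (1, v + h)) (fun v ↦ G (1, v + h) - G (1, v)),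
    e1 (fun v ↦ F (0, v) + F (0, v + h)) (fun v ↦ G (0, v + h) - G (0, v)),
    e1 (fun u ↦ F (u, 1/2) + F (u + h, 1/2)) (fun u ↦ G (u + h, 1/2) - G (u, 1/2)),
    e1 (fun u ↦ F (u, 0) + F (u + h, 0)) (fun u ↦ G (u + h, 0) - G (u, 0))]
  simp only [hQ, hP, smul_sub]

theorem Stk_res {p q : ℝ → 𝕜} {a s t b : ℝ} (h1 : a ≤ s) (h2 : s ≤ t) (h3 : t ≤ b)
    (hl : ∀ v, v < s → p v = 0) (hr : ∀ v, t < v → p v = 0) (hm : ∀ v ∈ Ioo s t, p v = q v) :
    ∫ v in a..b, p v = ∫ v in s..t, q v := by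
  rw [intervalIntegral.integral_of_le (h1.trans (h2.trans h3)), intervalIntegral.integral_of_le h2,
    integral_Ioc_eq_integral_Ioo (x := s)]
  have hs : ∀ᵐ v : ℝ, v ≠ s := compl_mem_ae_iff.mpr (Real.volume_singleton (a := s))
  have ht : ∀ᵐ v : ℝ, v ≠ t := compl_mem_ae_iff.mpr (Real.volume_singleton (a := t))
  rw [setIntegral_eq_of_subset_of_ae_sdiff_eq_zero (s := Ioo s t) measurableSet_Ioc.nullMeasurableSet
    (fun v hv ↦ ⟨h1.trans_lt hv.1, hv.2.le.trans h3⟩)]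
  · exact setIntegral_congr_fun measurableSet_Ioo hm
  · filter_upwards [hs, ht] with v v1 v2 hv
    rcases lt_or_gt_of_ne v1 with h | h
    · exact hl v h
    rcases lt_or_gt_of_ne v2 with h' | h'
    · exact absurd ⟨h, h'⟩ hv.2
    · exact hr v h'

theorem Stk_fd0 {F : ℝ × ℝ → 𝕜} {x w : ℝ × ℝ} (h : ∀ᶠ t in nhds (0:ℝ), F (x + t • w) = F x) :
    fderiv ℝ F x w = 0 := by
  by_cases hd : DifferentiableAt ℝ F x
  · rw [← hd.lineDeriv_eq_fderiv, lineDeriv]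
    have : (fun t : ℝ ↦ F (x + t • w)) =ᶠ[nhds 0] fun _ ↦ F x := h
    rw [this.deriv_eq, deriv_const]
  · rw [fderiv_zero_of_not_differentiableAt hd]
    simp

theorem Stk_null1 (a : ℝ) : ∀ᵐ x : ℝ × ℝ, x.1 ≠ a := by
  have : (volume : Measure (ℝ × ℝ)) {x | x.1 = a} = 0 := by
    have h : {x : ℝ × ℝ | x.1 = a} = {a} ×ˢ univ := by ext x; simp
    rw [h, Measure.volume_eq_prod, Measure.prod_prod]
    simp
  exact compl_mem_ae_iff.mpr this

theorem Stk_null2 (a : ℝ) : ∀ᵐ x : ℝ × ℝ, x.2 ≠ a := by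
  have : (volume : Measure (ℝ × ℝ)) {x | x.2 = a} = 0 := by
    have h : {x : ℝ × ℝ | x.2 = a} = univ ×ˢ {a} := by ext x; simp
    rw [h, Measure.volume_eq_prod, Measure.prod_prod]
    simp
  exact compl_mem_ae_iff.mpr this

omit [RCLike 𝕜] in
theorem Stk_F1 (f : ℝ × ℝ → 𝕜) (u v : ℝ) (h : 1 ≤ u) : f (Stk_r (u, v)) = f (Stk_r (1, v)) := by
  simp only [Stk_r]
  rw [min_eq_left h, min_self]

omit [RCLike 𝕜] in
theorem Stk_F0 (f : ℝ × ℝ → 𝕜) (u v : ℝ) (h : u ≤ 0) : f (Stk_r (u, v)) = f (Stk_r (0, v)) := by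
  simp only [Stk_r]
  rw [min_eq_right (h.trans zero_le_one), max_eq_left h, min_eq_right zero_le_one, max_self]

omit [RCLike 𝕜] in
theorem Stk_F3 (f : ℝ × ℝ → 𝕜) (u v : ℝ) (h : 1/2 ≤ v) : f (Stk_r (u, v)) = f (Stk_r (u, 1/2)) := by
  simp only [Stk_r]
  rw [min_eq_left h, min_self]

omit [RCLike 𝕜] in
theorem Stk_F2 (f : ℝ × ℝ → 𝕜) (u v : ℝ) (h : v ≤ 0) : f (Stk_r (u, v)) = f (Stk_r (u, 0)) := by
  simp only [Stk_r]
  have h1 : min (1/2) v = v := min_eq_right (h.trans (by norm_num))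
  have h2 : min (1/2) (0:ℝ) = 0 := min_eq_right (by norm_num)
  rw [h1, h2, max_eq_left h, max_self]

theorem Stk_bd1 (f g : ℝ × ℝ → 𝕜) (k : ℝ) (hk : k ∈ Icc (0:ℝ) 1) :
    ∫ v in (-1:ℝ)..1, f (Stk_r (k, v)) * deriv (fun s ↦ g (Stk_r (k, s))) v =
      ∫ v in (0:ℝ)..(1/2), f (k, v) * deriv (fun s ↦ g (k, s)) v := by
  refine Stk_res (by norm_num) (by norm_num) (by norm_num) ?_ ?_ ?_
  · intro v hv
    have : (fun s ↦ g (Stk_r (k, s))) =ᶠ[nhds v] fun _ ↦ g (Stk_r (k, 0)) := by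
      filter_upwards [Iio_mem_nhds hv] with s hs
      exact Stk_F2 g k s (le_of_lt hs)
    rw [this.deriv_eq, deriv_const, mul_zero]
  · intro v hv
    have : (fun s ↦ g (Stk_r (k, s))) =ᶠ[nhds v] fun _ ↦ g (Stk_r (k, 1/2)) := by
      filter_upwards [Ioi_mem_nhds hv] with s hs
      exact Stk_F3 g k s (le_of_lt hs)
    rw [this.deriv_eq, deriv_const, mul_zero]
  · intro v hv
    have : (fun s ↦ g (Stk_r (k, s))) =ᶠ[nhds v] fun s ↦ g (k, s) := by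
      filter_upwards [Ioo_mem_nhds hv.1 hv.2] with s hs
      rw [Stk_r_id (x := (k, s)) ⟨hk, hs.1.le, hs.2.le⟩]
    rw [this.deriv_eq, Stk_r_id (x := (k, v)) ⟨hk, hv.1.le, hv.2.le⟩]

theorem Stk_bd2 (f g : ℝ × ℝ → 𝕜) (k : ℝ) (hk : k ∈ Icc (0:ℝ) (1/2)) :
    ∫ u in (-1:ℝ)..2, f (Stk_r (u, k)) * deriv (fun s ↦ g (Stk_r (s, k))) u =
      ∫ u in (0:ℝ)..1, f (u, k) * deriv (fun s ↦ g (s, k)) u := by
  refine Stk_res (by norm_num) (by norm_num) (by norm_num) ?_ ?_ ?_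
  · intro v hv
    have : (fun s ↦ g (Stk_r (s, k))) =ᶠ[nhds v] fun _ ↦ g (Stk_r (0, k)) := by
      filter_upwards [Iio_mem_nhds hv] with s hs
      exact Stk_F0 g s k (le_of_lt hs)
    rw [this.deriv_eq, deriv_const, mul_zero]
  · intro v hv
    have : (fun s ↦ g (Stk_r (s, k))) =ᶠ[nhds v] fun _ ↦ g (Stk_r (1, k)) := by
      filter_upwards [Ioi_mem_nhds hv] with s hs
      exact Stk_F1 g s k (le_of_lt hs)
    rw [this.deriv_eq, deriv_const, mul_zero]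
  · intro v hv
    have : (fun s ↦ g (Stk_r (s, k))) =ᶠ[nhds v] fun s ↦ g (s, k) := by
      filter_upwards [Ioo_mem_nhds hv.1 hv.2] with s hs
      rw [Stk_r_id (x := (s, k)) ⟨⟨hs.1.le, hs.2.le⟩, hk⟩]
    rw [this.deriv_eq, Stk_r_id (x := (v, k)) ⟨⟨hv.1.le, hv.2.le⟩, hk⟩]

theorem Stk_int (f g : ℝ × ℝ → 𝕜) :
    ∫ x in Ioc (-1:ℝ) 2 ×ˢ Ioc (-1:ℝ) 1, (fderiv ℝ (fun y ↦ f (Stk_r y)) x (1, 0) *
        fderiv ℝ (fun y ↦ g (Stk_r y)) x (0, 1) - fderiv ℝ (fun y ↦ f (Stk_r y)) x (0, 1) *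
        fderiv ℝ (fun y ↦ g (Stk_r y)) x (1, 0)) =
      ∫ x in U, (fderiv ℝ f x (1, 0) * fderiv ℝ g x (0, 1) -
        fderiv ℝ f x (0, 1) * fderiv ℝ g x (1, 0)) := by
  have hUo : IsOpen U := isOpen_Ioo.prod isOpen_Ioo
  have hUR : U ⊆ Ioc (-1:ℝ) 2 ×ˢ Ioc (-1:ℝ) 1 := by
    rintro x ⟨h1, h2⟩
    exact ⟨⟨by linarith [h1.1], by linarith [h1.2]⟩, ⟨by linarith [h2.1], by linarith [h2.2]⟩⟩
  rw [setIntegral_eq_of_subset_of_ae_sdiff_eq_zero (s := U)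
    (measurableSet_Ioc.prod measurableSet_Ioc).nullMeasurableSet hUR]
  · refine setIntegral_congr_fun hUo.measurableSet fun x hx ↦ ?_
    have e : ∀ f : ℝ × ℝ → 𝕜, fderiv ℝ (fun y ↦ f (Stk_r y)) x = fderiv ℝ f x := by
      intro f
      refine Filter.EventuallyEq.fderiv_eq ?_
      filter_upwards [hUo.mem_nhds hx] with y hy
      rw [Stk_r_id ⟨⟨hy.1.1.le, hy.1.2.le⟩, ⟨hy.2.1.le, hy.2.2.le⟩⟩]
    simp only [e]
  · have hz : ∀ (f : ℝ × ℝ → 𝕜) (x w : ℝ × ℝ),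
        (∀ᶠ t in nhds (0:ℝ), Stk_r (x + t • w) = Stk_r x) →
        fderiv ℝ (fun y ↦ f (Stk_r y)) x w = 0 := by
      intro f x w h
      refine Stk_fd0 ?_
      filter_upwards [h] with t ht
      rw [ht]
    filter_upwards [Stk_null1 0, Stk_null1 1, Stk_null2 0, Stk_null2 (1/2)] with x x1 x2 x3 x4 hx
    have hc1 : Filter.Tendsto (fun t : ℝ ↦ x.1 + t) (nhds 0) (nhds x.1) := by
      have : Continuous fun t : ℝ ↦ x.1 + t := by fun_prop
      simpa using this.tendsto 0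
    have hc2 : Filter.Tendsto (fun t : ℝ ↦ x.2 + t) (nhds 0) (nhds x.2) := by
      have : Continuous fun t : ℝ ↦ x.2 + t := by fun_prop
      simpa using this.tendsto 0
    rcases lt_or_gt_of_ne x1 with h | h
    · have e : ∀ᶠ t in nhds (0:ℝ), Stk_r (x + t • ((1:ℝ), (0:ℝ))) = Stk_r x := by
        filter_upwards [hc1.eventually (Iio_mem_nhds h)] with t ht
        have ht' : x.1 + t < 0 := ht
        simp only [Stk_r, Prod.fst_add, Prod.snd_add, Prod.smul_fst, Prod.smul_snd, smul_eq_mul,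
          mul_one, mul_zero, add_zero]
        rw [min_eq_right (by linarith : x.1 + t ≤ 1), min_eq_right (by linarith : x.1 ≤ 1),
          max_eq_left ht'.le, max_eq_left h.le]
      rw [hz f x _ e, hz g x _ e, zero_mul, mul_zero, sub_zero]
    rcases lt_or_gt_of_ne x2 with h' | h'
    swap
    · have e : ∀ᶠ t in nhds (0:ℝ), Stk_r (x + t • ((1:ℝ), (0:ℝ))) = Stk_r x := by
        filter_upwards [hc1.eventually (Ioi_mem_nhds h')] with t ht
        have ht' : 1 < x.1 + t := ht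
        simp only [Stk_r, Prod.fst_add, Prod.snd_add, Prod.smul_fst, Prod.smul_snd, smul_eq_mul,
          mul_one, mul_zero, add_zero]
        rw [min_eq_left ht'.le, min_eq_left (le_of_lt h')]
      rw [hz f x _ e, hz g x _ e, zero_mul, mul_zero, sub_zero]
    rcases lt_or_gt_of_ne x3 with h3 | h3
    · have e : ∀ᶠ t in nhds (0:ℝ), Stk_r (x + t • ((0:ℝ), (1:ℝ))) = Stk_r x := by
        filter_upwards [hc2.eventually (Iio_mem_nhds h3)] with t ht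
        have ht' : x.2 + t < 0 := ht
        simp only [Stk_r, Prod.fst_add, Prod.snd_add, Prod.smul_fst, Prod.smul_snd, smul_eq_mul,
          mul_one, mul_zero, add_zero]
        rw [min_eq_right (by linarith : x.2 + t ≤ 1/2), min_eq_right (by linarith : x.2 ≤ 1/2),
          max_eq_left ht'.le, max_eq_left h3.le]
      rw [hz f x _ e, hz g x _ e, zero_mul, mul_zero, sub_zero]
    rcases lt_or_gt_of_ne x4 with h4 | h4
    · exact absurd ⟨⟨h, h'⟩, ⟨h3, h4⟩⟩ hx.2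
    · have e : ∀ᶠ t in nhds (0:ℝ), Stk_r (x + t • ((0:ℝ), (1:ℝ))) = Stk_r x := by
        filter_upwards [hc2.eventually (Ioi_mem_nhds h4)] with t ht
        have ht' : 1/2 < x.2 + t := ht
        simp only [Stk_r, Prod.fst_add, Prod.snd_add, Prod.smul_fst, Prod.smul_snd, smul_eq_mul,
          mul_one, mul_zero, add_zero]
        rw [min_eq_left ht'.le, min_eq_left (le_of_lt h4)]
      rw [hz f x _ e, hz g x _ e, zero_mul, mul_zero, sub_zero]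

theorem Stk_gen {f g : ℝ × ℝ → 𝕜} (hf : ∃ K : ℝ, ∀ x ∈ D, ∀ y ∈ D, ‖f x - f y‖ ≤ K * dist x y)
    (hg : ∃ K : ℝ, ∀ x ∈ D, ∀ y ∈ D, ‖g x - g y‖ ≤ K * dist x y) :
    ∫ x in U, (fderiv ℝ f x (1, 0) * fderiv ℝ g x (0, 1) -
        fderiv ℝ f x (0, 1) * fderiv ℝ g x (1, 0)) =
      (∫ v in (0:ℝ)..(1/2), f (1, v) * deriv (fun s => g (1, s)) v) -
      (∫ v in (0:ℝ)..(1/2), f (0, v) * deriv (fun s => g (0, s)) v) -
      (∫ u in (0:ℝ)..1, f (u, 1/2) * deriv (fun s => g (s, 1/2)) u) +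
      (∫ u in (0:ℝ)..1, f (u, 0) * deriv (fun s => g (s, 0)) u) := by
  obtain ⟨K, hK⟩ := hf
  obtain ⟨L, hL⟩ := hg
  have hF := Stk_ext hK
  have hG := Stk_ext hL
  have hlim := Stk_lim2 hF hG
  simp only [Stk_disc hF.continuous hG.continuous (Stk_F1 f) (Stk_F0 f) (Stk_F3 f) (Stk_F2 f)
    (Stk_F1 g) (Stk_F0 g) (Stk_F3 g) (Stk_F2 g)] at hlim
  have hv : ∀ k : ℝ, LipschitzWith 1 (fun v : ℝ ↦ ((k, v) : ℝ × ℝ)) := fun k ↦ by
    refine LipschitzWith.of_dist_le_mul fun a b ↦ ?_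
    simp [Prod.dist_eq]
  have hu : ∀ k : ℝ, LipschitzWith 1 (fun u : ℝ ↦ ((u, k) : ℝ × ℝ)) := fun k ↦ by
    refine LipschitzWith.of_dist_le_mul fun a b ↦ ?_
    simp [Prod.dist_eq]
  have hlim2 := ((Stk_lim1 (hF.comp (hv 1)) (hG.comp (hv 1)) (-1) 1).sub
    (Stk_lim1 (hF.comp (hv 0)) (hG.comp (hv 0)) (-1) 1)).sub
    ((Stk_lim1 (hF.comp (hu (1/2))) (hG.comp (hu (1/2))) (-1) 2).sub
      (Stk_lim1 (hF.comp (hu 0)) (hG.comp (hu 0)) (-1) 2))
  have key := tendsto_nhds_unique hlim hlim2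
  simp only [Function.comp_def] at key
  rw [Stk_int, Stk_bd1 f g 1 ⟨by norm_num, by norm_num⟩, Stk_bd1 f g 0 ⟨by norm_num, by norm_num⟩,
    Stk_bd2 f g (1/2) ⟨by norm_num, by norm_num⟩, Stk_bd2 f g 0 ⟨by norm_num, by norm_num⟩] at key
  rw [key]
  ring

end gen

theorem stokes_real {f g : ℝ × ℝ → ℝ} (hf : LipR f) (hg : LipR g) :
    ∫ x in U, (fderiv ℝ f x (1, 0) * fderiv ℝ g x (0, 1) -
        fderiv ℝ f x (0, 1) * fderiv ℝ g x (1, 0)) =
      (∫ v in (0:ℝ)..(1/2), f (1, v) * deriv (fun s => g (1, s)) v) -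
      (∫ v in (0:ℝ)..(1/2), f (0, v) * deriv (fun s => g (0, s)) v) -
      (∫ u in (0:ℝ)..1, f (u, 1/2) * deriv (fun s => g (s, 1/2)) u) +
      (∫ u in (0:ℝ)..1, f (u, 0) * deriv (fun s => g (s, 0)) u) :=
  Stk_gen (𝕜 := ℝ) (by simpa [LipR] using hf) (by simpa [LipR] using hg)

theorem stokes_cx {f g : ℝ × ℝ → ℂ} (hf : LipC f) (hg : LipC g) :
    ∫ x in U, (fderiv ℝ f x (1, 0) * fderiv ℝ g x (0, 1) -
        fderiv ℝ f x (0, 1) * fderiv ℝ g x (1, 0)) =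
      (∫ v in (0:ℝ)..(1/2), f (1, v) * deriv (fun s => g (1, s)) v) -
      (∫ v in (0:ℝ)..(1/2), f (0, v) * deriv (fun s => g (0, s)) v) -
      (∫ u in (0:ℝ)..1, f (u, 1/2) * deriv (fun s => g (s, 1/2)) u) +
      (∫ u in (0:ℝ)..1, f (u, 0) * deriv (fun s => g (s, 0)) u) :=
  Stk_gen hf hg

end H80HM
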