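import Pool.Agent.H80.HM.Fau

set_option autoImplicit false

/-!
# Row Trf: irreducible representations with integral traces and bounded conjugates have finite image

r irreducible: the span of the r(g) is everything (adjoin of the image of a group is its linear span), so there are g_1, .., g_N (N = k^2) with r(g_i) a basis of Mt k. The trace form is
nondegenerate: the matrix P = (tr r(g_i g_j)) is invertible.
(1) Let L = IntermediateField.adjoin Q (finite set of the numbers tr r(g_i g_j), tr r(x g_i g_j) with x among the of a, (of a)^{-1}, and x = 1, tr r(g_i)); each is algebraic (integral), so L is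
 a number field. Claim: r(w) = sum c_i r(g_i) with c_i in L for all w, and tr r(w) in L. For w = 1: solve tr(r(g_j)) = sum c_i tr r(g_i g_j), P invertible over L (its inverse has entries in L, because
 the entries of P are in L and det P <> 0). r(x) r(g_i) = sum_l m_{il} r(g_l) with m in L (same argument: tr r(x g_i g_j) in L). So the L-span of the r(g_i) is stable under left multiplication by
 all r(x), x a generator or an inverse, and contains 1: it contains all r(w) (FreeGroup.induction_on). tr r(w) = sum c_i tr r(g_i) in L.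
(2) All traces t = tr r(w) are integral elements of L; for an embedding phi : L -> C, phi(t) is a conjugate of t, so phi(t) = s(t) for an automorphism s of C (exists_aut), |phi(t)| <= k.
 NumberField.Embeddings.finite_of_norm_le: the set of traces is finite.
(3) M -> (tr(M r(g_i)))_i is injective on Mt k; r(w) is sent to the traces of r(w g_i), a finite set of possible values. So the range of r is finite.
-/

namespace H80HM

open Matrix

/-- nondegeneracy of the trace form on a spanning family -/
theorem Trf_nd {k : ℕ} {ι : Type} (b : ι → Mt k) (hb : Submodule.span ℂ (Set.range b) = ⊤)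
    {N : Mt k} (h : ∀ j, trace (N * b j) = 0) : N = 0 := by
  have h1 : ∀ X : Mt k, trace (N * X) = 0 := by
    intro X
    have hX : X ∈ Submodule.span ℂ (Set.range b) := by rw [hb]; exact Submodule.mem_top
    refine Submodule.span_induction (p := fun X _ => trace (N * X) = 0) ?_ ?_ ?_ ?_ hX
    · rintro _ ⟨j, rfl⟩
      exact h j
    · simp
    · intro x y _ _ hx hy
      rw [mul_add, trace_add, hx, hy, add_zero]
    · intro a x _ hx
      rw [mul_smul_comm, trace_smul, hx, smul_zero]
  ext i j
  have h2 := h1 (Matrix.single j i 1)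
  rw [Matrix.trace_mul_comm, Matrix.trace_single_mul] at h2
  simpa using h2

/-- coordinates in a subfield -/
theorem Trf_co {k : ℕ} {ι : Type} [Fintype ι] [DecidableEq ι] (b : ι → Mt k)
    (hb : Submodule.span ℂ (Set.range b) = ⊤) (hli : LinearIndependent ℂ b)
    (L : IntermediateField ℚ ℂ) (hP : ∀ i j, trace (b i * b j) ∈ L) {M : Mt k}
    (hM : ∀ j, trace (M * b j) ∈ L) : ∃ c : ι → ℂ, (∀ i, c i ∈ L) ∧ M = ∑ i, c i • b i := by
  classical
  let P' : Matrix ι ι L := fun i j => ⟨trace (b i * b j), hP i j⟩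
  have hdet : P'.det ≠ 0 := by
    intro h0
    obtain ⟨v, hv, hv0⟩ := Matrix.exists_vecMul_eq_zero_iff.mpr h0
    have h1 : (∑ i, (v i : ℂ) • b i) = 0 := by
      apply Trf_nd b hb
      intro j
      have h2 := congrFun hv0 j
      have h3 : ((∑ i, v i * P' i j : L) : ℂ) = 0 := by
        have h4 : (∑ i, v i * P' i j : L) = 0 := by
          simpa [Matrix.vecMul, dotProduct] using h2
        rw [h4]
        simp
      rw [Finset.sum_mul, trace_sum]
      rw [← h3]
      push_cast
      refine Finset.sum_congr rfl fun i _ => ?_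
      rw [smul_mul_assoc, trace_smul, smul_eq_mul]
    have h5 := Fintype.linearIndependent_iff.mp hli (fun i => (v i : ℂ)) h1
    apply hv
    funext i
    exact Subtype.ext (h5 i)
  have hu : IsUnit P'.det := isUnit_iff_ne_zero.mpr hdet
  let v' : ι → L := fun j => ⟨trace (M * b j), hM j⟩
  let c' : ι → L := v' ᵥ* P'⁻¹
  have hc : c' ᵥ* P' = v' := by
    change (v' ᵥ* P'⁻¹) ᵥ* P' = v'
    rw [Matrix.vecMul_vecMul, Matrix.nonsing_inv_mul _ hu, Matrix.vecMul_one]
  refine ⟨fun i => (c' i : ℂ), fun i => (c' i).2, ?_⟩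
  rw [← sub_eq_zero]
  apply Trf_nd b hb
  intro j
  have h2 := congrFun hc j
  have h3 : ((∑ i, c' i * P' i j : L) : ℂ) = trace (M * b j) := by
    have h4 : (∑ i, c' i * P' i j : L) = v' j := by
      simpa [Matrix.vecMul, dotProduct] using h2
    rw [h4]
  rw [sub_mul, trace_sub, ← h3, Finset.sum_mul, trace_sum, sub_eq_zero]
  push_cast
  refine Finset.sum_congr rfl fun i _ => ?_
  rw [smul_mul_assoc, trace_smul, smul_eq_mul]

/-- a basis of images of group elements -/
theorem Trf_bs {G : Type} [Group G] {k : ℕ} (r : G →* (Mt k)ˣ) (hirr : Irg r) :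
    ∃ (ι : Type) (_ : Fintype ι) (g : ι → G),
      Submodule.span ℂ (Set.range fun i => ((r (g i) : (Mt k)ˣ) : Mt k)) = ⊤ ∧
      LinearIndependent ℂ (fun i => ((r (g i) : (Mt k)ˣ) : Mt k)) := by
  classical
  have h1 : Submodule.span ℂ (Set.range fun g => ((r g : (Mt k)ˣ) : Mt k)) = ⊤ := by
    have h2 : (Set.range fun g => ((r g : (Mt k)ˣ) : Mt k)) =
        ((MonoidHom.mrange ((Units.coeHom (Mt k)).comp r) : Submonoid (Mt k)) : Set (Mt k)) := by
      ext x
      simp
    have h3 := Algebra.adjoin_eq_span ℂ (Set.range fun g => ((r g : (Mt k)ˣ) : Mt k))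
    rw [h2, Submonoid.closure_eq, ← h2] at h3
    rw [← h3]
    unfold Irg at hirr
    rw [hirr, Algebra.top_toSubmodule]
  obtain ⟨B, hB, hBs, hBl⟩ := exists_linearIndependent ℂ (Set.range fun g => ((r g : (Mt k)ˣ) : Mt k))
  have hfin : B.Finite := hBl.setFinite
  let _ : Fintype B := hfin.fintype
  have hg : ∀ x : B, ∃ g : G, ((r g : (Mt k)ˣ) : Mt k) = x.1 := fun x => hB x.2
  choose g hg using hg
  have he : (fun i : B => ((r (g i) : (Mt k)ˣ) : Mt k)) = Subtype.val := funext hg
  refine ⟨B, inferInstance, g, ?_, ?_⟩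
  · rw [he, Subtype.range_coe, hBs, h1]
  · rw [he]
    exact hBl

theorem fin_img {n k : ℕ} (r : FreeGroup (Fin n) →* (Mt k)ˣ) (hirr : Irg r)
    (hint : ∀ g, IsIntegral ℤ (trace ((r g : (Mt k)ˣ) : Mt k)))
    (hbd : ∀ g, ∀ s : ℂ ≃+* ℂ, ‖s (trace ((r g : (Mt k)ˣ) : Mt k))‖ ≤ k) :
    (Set.range r).Finite := by
  classical
  obtain ⟨ι, _, g, hspan, hli⟩ := Trf_bs r hirr
  let R : FreeGroup (Fin n) → Mt k := fun w => ((r w : (Mt k)ˣ) : Mt k)
  have hRmul : ∀ u v, R (u * v) = R u * R v := fun u v => by
    simp only [R, map_mul, Units.val_mul]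
  let S : Set ℂ := (Set.range fun p : ι × ι => trace (R (g p.1 * g p.2))) ∪
    (Set.range fun p : Fin n × ι × ι =>
      trace (R (FreeGroup.of p.1 * (g p.2.1 * g p.2.2)))) ∪
    (Set.range fun p : Fin n × ι × ι =>
      trace (R ((FreeGroup.of p.1)⁻¹ * (g p.2.1 * g p.2.2)))) ∪
    (Set.range fun i : ι => trace (R (g i)))
  have hSfin : S.Finite := by
    refine Set.Finite.union (Set.Finite.union (Set.Finite.union ?_ ?_) ?_) ?_ <;>
      exact Set.finite_range _
  have hSint : ∀ x ∈ S, IsIntegral ℚ x := by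
    rintro x (((⟨p, rfl⟩ | ⟨p, rfl⟩) | ⟨p, rfl⟩) | ⟨p, rfl⟩) <;>
      exact (hint _).tower_top
  let L : IntermediateField ℚ ℂ := IntermediateField.adjoin ℚ S
  have : Finite S := hSfin
  have hLfd : FiniteDimensional ℚ L := IntermediateField.finiteDimensional_adjoin hSint
  have : NumberField L := { to_charZero := inferInstance, to_finiteDimensional := hLfd }
  have hSL : ∀ x ∈ S, x ∈ L := fun x hx => IntermediateField.subset_adjoin ℚ S hx
  have hP : ∀ i j, trace (R (g i) * R (g j)) ∈ L := fun i j => by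
    rw [← hRmul]
    exact hSL _ (Or.inl (Or.inl (Or.inl ⟨(i, j), rfl⟩)))
  have hco := fun {M : Mt k} (hM : ∀ j, trace (M * R (g j)) ∈ L) =>
    Trf_co (fun i => R (g i)) hspan hli L hP hM
  have hbase : ∀ j, trace (R (g j)) ∈ L := fun j => hSL _ (Or.inr ⟨j, rfl⟩)
  have hgen : ∀ (x : FreeGroup (Fin n)), (∀ i j, trace (R x * R (g i) * R (g j)) ∈ L) →
      ∀ M : Mt k, (∀ j, trace (M * R (g j)) ∈ L) → ∀ j, trace (R x * M * R (g j)) ∈ L := by
    intro x hx M hM j
    obtain ⟨c, hc, rfl⟩ := hco hM
    rw [Finset.mul_sum, Finset.sum_mul, trace_sum]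
    refine sum_mem fun i _ => ?_
    rw [mul_smul_comm, smul_mul_assoc, trace_smul, smul_eq_mul]
    exact mul_mem (hc i) (hx i j)
  have hx1 : ∀ a : Fin n, ∀ i j, trace (R (FreeGroup.of a) * R (g i) * R (g j)) ∈ L := by
    intro a i j
    rw [mul_assoc, ← hRmul, ← hRmul]
    exact hSL _ (Or.inl (Or.inl (Or.inr ⟨(a, i, j), rfl⟩)))
  have hx2 : ∀ a : Fin n, ∀ i j, trace (R (FreeGroup.of a)⁻¹ * R (g i) * R (g j)) ∈ L := by
    intro a i j
    rw [mul_assoc, ← hRmul, ← hRmul]
    exact hSL _ (Or.inl (Or.inr ⟨(a, i, j), rfl⟩))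
  have hall : ∀ w : FreeGroup (Fin n), ∀ M : Mt k, (∀ j, trace (M * R (g j)) ∈ L) →
      ∀ j, trace (R w * M * R (g j)) ∈ L := by
    intro w
    induction w using FreeGroup.induction_on with
    | C1 =>
      intro M hM j
      have : R 1 = 1 := by simp only [R, map_one, Units.val_one]
      rw [this, one_mul]
      exact hM j
    | of a => exact hgen _ (hx1 a)
    | inv_of a _ => exact hgen _ (hx2 a)
    | mul u v hu hv =>
      intro M hM j
      rw [hRmul, mul_assoc (R u)]
      exact hu _ (hv M hM) j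
  have htr : ∀ w, trace (R w) ∈ L := by
    intro w
    have h1 : ∀ j, trace ((1 : Mt k) * R (g j)) ∈ L := fun j => by
      rw [one_mul]
      exact hbase j
    have h2 := hall w 1 h1
    rw [mul_one] at h2
    obtain ⟨c, hc, he⟩ := hco h2
    rw [he, trace_sum]
    refine sum_mem fun i _ => ?_
    rw [trace_smul, smul_eq_mul]
    exact mul_mem (hc i) (hbase i)
  -- finitely many traces
  have hT : (Set.range fun w => trace (R w)).Finite := by
    have hfin := NumberField.Embeddings.finite_of_norm_le L ℂ (k : ℝ)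
    refine (hfin.image (fun x : L => (x : ℂ))).subset ?_
    rintro _ ⟨w, rfl⟩
    refine ⟨⟨trace (R w), htr w⟩, ⟨?_, fun φ => ?_⟩, rfl⟩
    · have h1 : IsIntegral ℤ (algebraMap L ℂ ⟨trace (R w), htr w⟩) := hint w
      exact (isIntegral_algebraMap_iff (algebraMap L ℂ).injective).mp h1
    · obtain ⟨s, hs⟩ := exists_aut (z := trace (R w)) (z' := φ ⟨trace (R w), htr w⟩) (by
        intro p
        have e1 : Polynomial.aeval (trace (R w)) p =
            algebraMap L ℂ (Polynomial.aeval (⟨trace (R w), htr w⟩ : L) p) := by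
          rw [← Polynomial.aeval_algebraMap_apply]
          rfl
        have e2 : Polynomial.aeval (φ ⟨trace (R w), htr w⟩) p =
            φ (Polynomial.aeval (⟨trace (R w), htr w⟩ : L) p) := by
          have := Polynomial.aeval_algHom_apply φ.toRatAlgHom (⟨trace (R w), htr w⟩ : L) p
          exact this
        rw [e1, e2]
        rw [map_eq_zero_iff _ (algebraMap L ℂ).injective, map_eq_zero_iff _ φ.injective])
      rw [← hs]
      exact hbd w s
  -- conclusion
  let F : (Mt k)ˣ → (ι → ℂ) := fun u i => trace ((u : Mt k) * R (g i))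
  have hF : Function.Injective F := by
    intro u v huv
    apply Units.ext
    rw [← sub_eq_zero]
    apply Trf_nd _ hspan
    intro j
    have h1 : trace ((u : Mt k) * R (g j)) = trace ((v : Mt k) * R (g j)) := congrFun huv j
    change trace (((u : Mt k) - (v : Mt k)) * R (g j)) = 0
    rw [sub_mul, trace_sub, h1, sub_self]
  have hpi : (Set.pi Set.univ fun _ : ι => Set.range fun w => trace (R w)).Finite :=
    Set.Finite.pi fun _ => hT
  refine (Set.Finite.preimage hF.injOn hpi).subset ?_
  rintro _ ⟨w, rfl⟩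
  intro i _
  refine ⟨w * g i, ?_⟩
  change trace (R (w * g i)) = trace (R w * R (g i))
  rw [hRmul]

end H80HM
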