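import Pool.Agent.H80.HM.Dsp
import Pool.Agent.H80.HM.Sib

set_option autoImplicit false

/-!
# Row Trp: a field with small derivative almost commutes with the generators at most points

F' := dn (1,0) H X + dn (0,1) H X (>= 0, integrable). S := union of the set of disp (for K), the set of good_lines for F' and K', and the null set of
line_ae for differentiability of the entries of X (lz_ae). Let x = (u0,v0) in U minus S, h := H x, L := exp(8 sqrt K), so all metrics H(y) on the three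
lines through x and (1-u0,v0) are comparable to h with constant L (disp) and n2 h Y <= L^2 n2 (H y) Y (n2_cmp). path_fld along the three lines with
g = L sqrt(F'): int g <= L sqrt(K'), so n2 h (X(y)-X(y')) <= L^2 K' for y, y' on the same line (the lines are at positive distance from the
punctures, as in row Dsp; x.1 is not 1/2). Write |Y| = sqrt(n2 h Y) (a norm: conjugate Frobenius norm), so |X(y)-X(y')| <= L sqrt K' =: c.
For g in {A,B,C}: |g Y g^{-1}| <= L |Y|: n2 h (gYg^{-1}) = n2 (g^{-1} h g^{-*}) Y <= L^2 n2 h Y, because g^{-1}hg^{-*} is comparable to h with constant L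
 (from Cm2 L h (g h g*), congruence by g^{-1}). (n2 (g H g*) (g Y g^{-1}) = n2 H Y by the trace formula.)
C: C X(x) C^{-1} - X(x) = C(X(x) - X(0,v0))C^{-1} + (X(1,v0) - X(x)): norm <= Lc + c.
A (u0 < 1/2): A X(x) A^{-1} - X(x) = A(X(x) - X(u0,0))A^{-1} + (X(1-u0,0) - X(1-u0,v0)) + (X(1-u0,v0) - X(x)): norm <= Lc + 2c <= 3Lc.
 (u0 > 1/2, u1 = 1-u0: A X(x)A^{-1} - X(x) = A(X(x) - X(u1,v0))A^{-1} + A(X(u1,v0) - X(u1,0))A^{-1} + (X(u0,0) - X(x)): norm <= 2Lc + c.)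
B: the same at the top. So the square of the norm is at most 9 L^2 c^2 = 9 L^4 K' = 9 exp(32 sqrt K) K'.
-/

namespace H80HM

open Matrix MeasureTheory Set
open scoped ComplexOrder

variable {m : ℕ} {A B C : Mt m} {H X : ℝ × ℝ → Mt m}

theorem Trp_three {h : Mt m} (hh : h.PosDef) (a b c : Mt m) :
    n2 h (a + b + c) ≤ 3 * (n2 h a + n2 h b + n2 h c) := by
  obtain ⟨Q, lam, hQ⟩ := exists_fr hh hh
  rw [n2_eq hQ.1 hQ.2.1, n2_eq hQ.1 hQ.2.1, n2_eq hQ.1 hQ.2.1, n2_eq hQ.1 hQ.2.1]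
  simp only [← Finset.sum_add_distrib, Finset.mul_sum]
  refine Finset.sum_le_sum fun i _ => Finset.sum_le_sum fun j _ => ?_
  have e : (Q⁻¹ * (a + b + c) * Q) i j =
      (Q⁻¹ * a * Q) i j + (Q⁻¹ * b * Q) i j + (Q⁻¹ * c * Q) i j := by
    rw [Matrix.mul_add, Matrix.mul_add, Matrix.add_mul, Matrix.add_mul, Matrix.add_apply,
      Matrix.add_apply]
  rw [e]
  have h1 : ‖(Q⁻¹ * a * Q) i j + (Q⁻¹ * b * Q) i j + (Q⁻¹ * c * Q) i j‖ ≤
      ‖(Q⁻¹ * a * Q) i j‖ + ‖(Q⁻¹ * b * Q) i j‖ + ‖(Q⁻¹ * c * Q) i j‖ := norm_add₃_le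
  have h0 := norm_nonneg ((Q⁻¹ * a * Q) i j + (Q⁻¹ * b * Q) i j + (Q⁻¹ * c * Q) i j)
  generalize ‖(Q⁻¹ * a * Q) i j + (Q⁻¹ * b * Q) i j + (Q⁻¹ * c * Q) i j‖ = N at *
  generalize ‖(Q⁻¹ * a * Q) i j‖ = N1 at *
  generalize ‖(Q⁻¹ * b * Q) i j‖ = N2 at *
  generalize ‖(Q⁻¹ * c * Q) i j‖ = N3 at *
  have h2 : N ^ 2 ≤ (N1 + N2 + N3) ^ 2 := pow_le_pow_left₀ h0 h1 2
  nlinarith [sq_nonneg (N1 - N2), sq_nonneg (N2 - N3), sq_nonneg (N1 - N3)]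

theorem Trp_conj {h g : Mt m} (hh : h.PosDef) (hg : IsUnit g.det) {L : ℝ}
    (hc : Cm2 L h (g * h * gᴴ)) (Y : Mt m) : n2 h (g * Y * g⁻¹) ≤ L ^ 2 * n2 h Y := by
  have hp : (g * h * gᴴ).PosDef := by
    refine hh.mul_mul_conjTranspose_same ?_
    exact Matrix.vecMul_injective_of_isUnit ((Matrix.isUnit_iff_isUnit_det g).2 hg)
  have h1 := n2_cmp hh hp L hc.1 hc.2 (g * Y * g⁻¹)
  have h2 : n2 (g * h * gᴴ) (g * Y * g⁻¹) = n2 h Y := by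
    have hgs : IsUnit (gᴴ).det := by
      rw [Matrix.det_conjTranspose]
      exact hg.star
    have e1 : ∀ M : Mt m, g⁻¹ * (g * M) = M := fun M => Matrix.nonsing_inv_mul_cancel_left _ _ hg
    have e2 : ∀ M : Mt m, gᴴ * ((g⁻¹)ᴴ * M) = M := by
      intro M
      rw [← Matrix.mul_assoc, ← Matrix.conjTranspose_mul, Matrix.nonsing_inv_mul g hg,
        Matrix.conjTranspose_one, Matrix.one_mul]
    have e3 : ∀ M : Mt m, gᴴ * ((gᴴ)⁻¹ * M) = M := fun M =>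
      Matrix.mul_nonsing_inv_cancel_left _ _ hgs
    unfold n2
    rw [Matrix.conjTranspose_mul, Matrix.conjTranspose_mul, Matrix.mul_inv_rev, Matrix.mul_inv_rev]
    simp only [Matrix.mul_assoc, e1, e2, e3]
    rw [Matrix.trace_mul_comm g]
    simp only [Matrix.mul_assoc, Matrix.nonsing_inv_mul g hg, Matrix.mul_one]
  rw [h2] at h1
  exact h1

theorem Trp_sqrt {F : ℝ → ℝ} {b : ℝ} (hb0 : 0 ≤ b) (hb : b ≤ 1)
    (hF : IntervalIntegrable F volume 0 b) (hn : ∀ t ∈ Ioo 0 b, 0 ≤ F t) :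
    IntervalIntegrable (fun t => Real.sqrt (F t)) volume 0 b ∧
      (∫ t in (0:ℝ)..b, Real.sqrt (F t)) ^ 2 ≤ ∫ t in (0:ℝ)..b, F t := by
  have h1 : IntervalIntegrable (fun t => Real.sqrt (F t)) volume 0 b := by
    rw [intervalIntegrable_iff_integrableOn_Ioc_of_le hb0] at hF ⊢
    have h2 : IntegrableOn (fun t => |F t| + 1) (Ioc 0 b) := hF.abs.add (integrable_const 1)
    refine h2.mono' (Real.continuous_sqrt.comp_aestronglyMeasurable hF.aestronglyMeasurable) ?_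
    refine Filter.Eventually.of_forall fun t => ?_
    rw [Real.norm_eq_abs, abs_of_nonneg (Real.sqrt_nonneg _)]
    refine (Real.sqrt_le_sqrt (le_abs_self _)).trans ?_
    rw [Real.sqrt_le_iff]
    constructor
    · positivity
    · nlinarith [abs_nonneg (F t)]
  refine ⟨h1, ?_⟩
  set l := ∫ t in (0:ℝ)..b, Real.sqrt (F t) with hl
  have h2 : ∫ t in (0:ℝ)..b, 2 * l * Real.sqrt (F t) ≤ ∫ t in (0:ℝ)..b, (F t + l ^ 2) := by
    refine intervalIntegral.integral_mono_on_of_le_Ioo hb0 (h1.const_mul _)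
      (hF.add intervalIntegrable_const) ?_
    intro t ht
    have h3 := Real.sq_sqrt (hn t ht)
    nlinarith [sq_nonneg (Real.sqrt (F t) - l)]
  rw [intervalIntegral.integral_const_mul, ← hl,
    intervalIntegral.integral_add hF intervalIntegrable_const, intervalIntegral.integral_const,
    sub_zero, smul_eq_mul] at h2
  nlinarith [sq_nonneg l]

theorem Trp_line {h : Mt m} (hh : h.PosDef) {L K' b : ℝ} (hL : 0 ≤ L) (hb0 : 0 ≤ b) (hb : b ≤ 1)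
    (hH : Cl A B C H) (hX : Lz X) (t : ℝ × ℝ) {F : ℝ × ℝ → ℝ}
    (ht : ∀ y ∈ U, dn t H X y ≤ F y) {p : ℝ → ℝ × ℝ} (hp : ∀ s, HasDerivAt p t s)
    (hd : ∃ d : ℝ, 0 < d ∧ ∀ s ∈ Icc 0 b, p s ∈ Dd d) (hds : ∀ s s', dist (p s) (p s') = |s - s'|)
    (hU : ∀ s ∈ Ioo 0 b, p s ∈ U)
    (hi : IntervalIntegrable (fun s => F (p s)) volume 0 b)
    (hK : ∫ s in (0:ℝ)..b, F (p s) ≤ K')
    (hae : ∀ᵐ s ∂(volume.restrict (Ioo 0 b)), ∀ i j,
      DifferentiableAt ℝ (fun y => X y i j) (p s))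
    (hcm : ∀ s ∈ Icc 0 b, Cm2 L h (H (p s))) :
    ∀ s ∈ Icc 0 b, ∀ s' ∈ Icc 0 b, n2 h (X (p s) - X (p s')) ≤ L ^ 2 * K' := by
  have hF0 : ∀ y ∈ U, 0 ≤ F y := fun y hy =>
    (n2_nonneg (hH.pos y (u_sub hy)) (pd t X y)).trans (ht y hy)
  obtain ⟨h1, h2⟩ := Trp_sqrt hb0 hb hi (fun s hs => hF0 _ (hU s hs))
  obtain ⟨d, hd0, hd⟩ := hd
  have h3 := path_fld (X := fun s => X (p s)) hh hb0 (by
    obtain ⟨K, hK⟩ := hX d hd0
    refine ⟨K, fun s hs s' hs' i j => ?_⟩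
    rw [← hds]
    exact hK _ (hd s hs) _ (hd s' hs') i j) (g := fun s => L * Real.sqrt (F (p s)))
    (h1.const_mul L) (fun s => mul_nonneg hL (Real.sqrt_nonneg _)) (by
    filter_upwards [hae, ae_restrict_mem measurableSet_Ioo] with s hs hsI
    refine ⟨pd t X (p s), fun i j => (hs i j).hasFDerivAt.comp_hasDerivAt s (hp s), ?_⟩
    have hsI' : s ∈ Icc 0 b := ⟨hsI.1.le, hsI.2.le⟩
    have h4 := n2_cmp hh (hH.pos _ (dd_sub hd0 (hd s hsI'))) L (hcm s hsI').1 (hcm s hsI').2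
      (pd t X (p s))
    have h5 := ht _ (hU s hsI)
    rw [mul_pow, Real.sq_sqrt (hF0 _ (hU s hsI))]
    exact h4.trans (mul_le_mul_of_nonneg_left h5 (sq_nonneg L)))
  intro s hs s' hs'
  refine (h3 s hs s' hs').trans ?_
  rw [intervalIntegral.integral_const_mul, mul_pow]
  exact mul_le_mul_of_nonneg_left (h2.trans hK) (sq_nonneg L)

theorem Trp_side {h g : Mt m} (hh : h.PosDef) (hg : IsUnit g.det) {L c w u0 v0 : ℝ} (hL : 1 ≤ L)
    (hc0 : 0 ≤ c) (hu : u0 ∈ Ioo (0:ℝ) 1) (hu' : u0 ≠ 1 / 2) (hv : v0 ∈ Icc (0:ℝ) (1/2))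
    (hw : w ∈ Icc (0:ℝ) (1/2))
    (hgl : ∀ u ∈ Ioo (0:ℝ) (1/2), X (1 - u, w) * g = g * X (u, w))
    (hcj : ∀ Y, n2 h (g * Y * g⁻¹) ≤ L ^ 2 * n2 h Y)
    (h0 : ∀ s ∈ Icc (0:ℝ) (1/2), ∀ s' ∈ Icc (0:ℝ) (1/2), n2 h (X (u0, s) - X (u0, s')) ≤ c)
    (h1 : ∀ s ∈ Icc (0:ℝ) (1/2), ∀ s' ∈ Icc (0:ℝ) (1/2),
      n2 h (X (1 - u0, s) - X (1 - u0, s')) ≤ c)
    (h2 : ∀ s ∈ Icc (0:ℝ) 1, ∀ s' ∈ Icc (0:ℝ) 1, n2 h (X (s, v0) - X (s', v0)) ≤ c) :
    n2 h (g * X (u0, v0) * g⁻¹ - X (u0, v0)) ≤ 9 * (L ^ 2 * c) := by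
  have hL2 : 1 ≤ L ^ 2 := by nlinarith
  have hLc : c ≤ L ^ 2 * c := by nlinarith
  have hu0 : u0 ∈ Icc (0:ℝ) 1 := ⟨hu.1.le, hu.2.le⟩
  have hu1 : 1 - u0 ∈ Icc (0:ℝ) 1 := ⟨by linarith [hu.2], by linarith [hu.1]⟩
  rcases lt_or_gt_of_ne hu' with hlt | hgt
  · have e1 : g * X (u0, w) * g⁻¹ = X (1 - u0, w) := by
      rw [← hgl u0 ⟨hu.1, hlt⟩, Matrix.mul_nonsing_inv_cancel_right _ _ hg]
    have e2 : g * X (u0, v0) * g⁻¹ - X (u0, v0) =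
        g * (X (u0, v0) - X (u0, w)) * g⁻¹ + (X (1 - u0, w) - X (1 - u0, v0)) +
          (X (1 - u0, v0) - X (u0, v0)) := by
      rw [Matrix.mul_sub, Matrix.sub_mul, e1]
      abel
    rw [e2]
    refine (Trp_three hh _ _ _).trans ?_
    have f1 := (hcj (X (u0, v0) - X (u0, w))).trans
      (mul_le_mul_of_nonneg_left (h0 v0 hv w hw) (sq_nonneg L))
    have f2 := h1 w hw v0 hv
    have f3 := h2 (1 - u0) hu1 u0 hu0
    linarith
  · have hI : 1 - u0 ∈ Ioo (0:ℝ) (1/2) := ⟨by linarith [hu.2], by linarith⟩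
    have e1 : g * X (1 - u0, w) * g⁻¹ = X (u0, w) := by
      rw [← hgl (1 - u0) hI, Matrix.mul_nonsing_inv_cancel_right _ _ hg, sub_sub_cancel]
    have e2 : g * X (u0, v0) * g⁻¹ - X (u0, v0) =
        g * (X (u0, v0) - X (1 - u0, v0)) * g⁻¹ + g * (X (1 - u0, v0) - X (1 - u0, w)) * g⁻¹ +
          (X (u0, w) - X (u0, v0)) := by
      rw [Matrix.mul_sub, Matrix.sub_mul, Matrix.mul_sub, Matrix.sub_mul, e1]
      abel
    rw [e2]
    refine (Trp_three hh _ _ _).trans ?_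
    have f1 := (hcj (X (u0, v0) - X (1 - u0, v0))).trans
      (mul_le_mul_of_nonneg_left (h2 u0 hu0 (1 - u0) hu1) (sq_nonneg L))
    have f2 := (hcj (X (1 - u0, v0) - X (1 - u0, w))).trans
      (mul_le_mul_of_nonneg_left (h1 v0 hv w hw) (sq_nonneg L))
    have f3 := h0 w hw v0 hv
    linarith

theorem Trp_vert {u : ℝ} (hu : u ∈ Ioo (0:ℝ) 1) (hu' : u ≠ 1 / 2) :
    ∃ d : ℝ, 0 < d ∧ ∀ s ∈ Icc (0:ℝ) (1/2), (u, s) ∈ Dd d := by
  refine ⟨min u (min |u - 1/2| (1 - u)), lt_min hu.1 (lt_min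
    (abs_pos.2 (sub_ne_zero.2 hu')) (by linarith [hu.2])), ?_⟩
  intro s hs
  refine ⟨⟨⟨hu.1.le, hu.2.le⟩, hs⟩, ?_⟩
  rintro ⟨p1, p2⟩ hp
  have h1 : p1 = 0 ∨ p1 = 1 / 2 ∨ p1 = 1 := by
    have := hp.1
    simpa using this
  refine le_trans ?_ (le_max_left _ _ : dist u p1 ≤ dist (u, s) (p1, p2))
  rw [Real.dist_eq]
  rcases h1 with h1 | h1 | h1
  · rw [h1, sub_zero, abs_of_pos hu.1]
    exact min_le_left _ _
  · rw [h1]
    exact (min_le_right _ _).trans (min_le_left _ _)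
  · rw [h1, show |u - 1| = 1 - u by rw [abs_sub_comm]; exact abs_of_pos (by linarith [hu.2])]
    exact (min_le_right _ _).trans (min_le_right _ _)

theorem Trp_horz {v : ℝ} (hv : v ∈ Ioo (0:ℝ) (1/2)) :
    ∃ d : ℝ, 0 < d ∧ ∀ s ∈ Icc (0:ℝ) 1, (s, v) ∈ Dd d := by
  refine ⟨min v (1/2 - v), lt_min hv.1 (by linarith [hv.2]), ?_⟩
  intro s hs
  refine ⟨⟨hs, ⟨hv.1.le, hv.2.le⟩⟩, ?_⟩
  rintro ⟨p1, p2⟩ hp
  have h1 : p2 = 0 ∨ p2 = 1 / 2 := by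
    have := hp.2
    simpa using this
  refine le_trans ?_ (le_max_right _ _ : dist v p2 ≤ dist (s, v) (p1, p2))
  rw [Real.dist_eq]
  rcases h1 with h1 | h1
  · rw [h1, sub_zero, abs_of_pos hv.1]
    exact min_le_left _ _
  · rw [h1, abs_sub_comm, abs_of_pos (by linarith [hv.2] : 0 < 1/2 - v)]
    exact min_le_right _ _

theorem transp (hA : IsUnit A.det) (hB : IsUnit B.det) (hC : IsUnit C.det)
    (hH : Cl A B C H) (hX : Fd A B C X) {I J K K' : ℝ}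
    (hI : ∫ x in U, (q (1, 0) (1, 0) H x + q (0, 1) (0, 1) H x) ≤ I) (hK : 0 < K)
    (d1 : IntegrableOn (dn (1, 0) H X) U) (d2 : IntegrableOn (dn (0, 1) H X) U)
    (hJ : ∫ x in U, (dn (1, 0) H X x + dn (0, 1) H X x) ≤ J) (hK' : 0 < K') :
    ∃ S : Set (ℝ × ℝ), S ⊆ U ∧ MeasurableSet S ∧
      volume S ≤ ENNReal.ofReal (3 * I / K) + ENNReal.ofReal (3 * J / K') ∧
      ∀ x ∈ U \ S,
        Cm2 (Real.exp (8 * Real.sqrt K)) (H x) (A * H x * Aᴴ) ∧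
        Cm2 (Real.exp (8 * Real.sqrt K)) (H x) (B * H x * Bᴴ) ∧
        Cm2 (Real.exp (8 * Real.sqrt K)) (H x) (C * H x * Cᴴ) ∧
        n2 (H x) (A * X x * A⁻¹ - X x) ≤ 9 * Real.exp (32 * Real.sqrt K) * K' ∧
        n2 (H x) (B * X x * B⁻¹ - X x) ≤ 9 * Real.exp (32 * Real.sqrt K) * K' ∧
        n2 (H x) (C * X x * C⁻¹ - X x) ≤ 9 * Real.exp (32 * Real.sqrt K) * K' := by
  have hnn : ∀ t, ∀ y ∈ U, 0 ≤ dn t H X y := fun t y hy => n2_nonneg (hH.pos y (u_sub hy)) _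
  obtain ⟨S1, s1, m1, v1, H1⟩ := disp hH hI hK
  obtain ⟨S2, s2, m2, v2, H2⟩ := good_lines (F := fun y => dn (1, 0) H X y + dn (0, 1) H X y)
    (d1.add d2) (by
      filter_upwards [ae_restrict_mem Mea_isOpen.measurableSet] with y hy
      exact add_nonneg (hnn _ y hy) (hnn _ y hy)) hJ hK'
  obtain ⟨S3, s3, m3, v3, H3⟩ := line_ae (lz_ae hX.lip)
  refine ⟨S1 ∪ S2 ∪ S3, union_subset (union_subset s1 s2) s3, (m1.union m2).union m3, ?_, ?_⟩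
  · calc volume (S1 ∪ S2 ∪ S3) ≤ volume (S1 ∪ S2) + volume S3 := measure_union_le _ _
      _ ≤ (volume S1 + volume S2) + 0 := add_le_add (measure_union_le _ _) v3.le
      _ ≤ _ := by
        rw [add_zero]
        exact add_le_add v1 v2
  rintro ⟨u0, v0⟩ ⟨hxU, hxS⟩
  have hx1 : (u0, v0) ∈ U \ S1 := ⟨hxU, fun h => hxS (Or.inl (Or.inl h))⟩
  have hx2 : (u0, v0) ∈ U \ S2 := ⟨hxU, fun h => hxS (Or.inl (Or.inr h))⟩
  have hx3 : (u0, v0) ∈ U \ S3 := ⟨hxU, fun h => hxS (Or.inr h)⟩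
  obtain ⟨a0, a1, a2, a3, a4, a5, a6⟩ := H1 _ hx1
  obtain ⟨⟨b1, b2⟩, ⟨b3, b4⟩, b5, b6⟩ := H2 _ hx2
  obtain ⟨c1, c2, c3⟩ := H3 _ hx3
  simp only at a0 a4 a5 a6 b1 b2 b3 b4 b5 b6 c1 c2 c3
  have hu : u0 ∈ Ioo (0:ℝ) 1 := hxU.1
  have hv : v0 ∈ Ioo (0:ℝ) (1/2) := hxU.2
  have hu1 : 1 - u0 ∈ Ioo (0:ℝ) 1 := ⟨by linarith [hu.2], by linarith [hu.1]⟩
  have hu1' : 1 - u0 ≠ 1 / 2 := fun h => a0 (by linarith)
  have hh : (H (u0, v0)).PosDef := hH.pos _ (u_sub hxU)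
  set L := Real.exp (8 * Real.sqrt K) with hLdef
  have hL1 : 1 ≤ L := Real.one_le_exp (by positivity)
  have hL0 : 0 ≤ L := by linarith
  have hvert : ∀ u ∈ Ioo (0:ℝ) 1, ∀ s ∈ Ioo (0:ℝ) (1/2), (u, s) ∈ U := fun u hu s hs => ⟨hu, hs⟩
  have g0 := Trp_line hh hL0 (by norm_num : (0:ℝ) ≤ 1/2) (by norm_num) hH hX.lip (0, 1)
    (F := fun y => dn (1, 0) H X y + dn (0, 1) H X y) (p := fun s => (u0, s))
    (fun y hy => le_add_of_nonneg_left (hnn _ y hy))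
    (fun s => (hasDerivAt_const s u0).prodMk (hasDerivAt_id s)) (Trp_vert hu a0)
    (fun s s' => by rw [Prod.dist_eq, dist_self, Real.dist_eq]; exact max_eq_right (abs_nonneg _))
    (fun s hs => ⟨hu, hs⟩) b1 b2 c1 a4
  have g1 := Trp_line hh hL0 (by norm_num : (0:ℝ) ≤ 1/2) (by norm_num) hH hX.lip (0, 1)
    (F := fun y => dn (1, 0) H X y + dn (0, 1) H X y) (p := fun s => (1 - u0, s))
    (fun y hy => le_add_of_nonneg_left (hnn _ y hy))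
    (fun s => (hasDerivAt_const s (1 - u0)).prodMk (hasDerivAt_id s)) (Trp_vert hu1 hu1')
    (fun s s' => by rw [Prod.dist_eq, dist_self, Real.dist_eq]; exact max_eq_right (abs_nonneg _))
    (fun s hs => ⟨hu1, hs⟩) b3 b4 c2 a5
  have g2 := Trp_line hh hL0 (by norm_num : (0:ℝ) ≤ 1) le_rfl hH hX.lip (1, 0)
    (F := fun y => dn (1, 0) H X y + dn (0, 1) H X y) (p := fun s => (s, v0))
    (fun y hy => le_add_of_nonneg_right (hnn _ y hy))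
    (fun s => (hasDerivAt_id s).prodMk (hasDerivAt_const s v0)) (Trp_horz hv)
    (fun s s' => by rw [Prod.dist_eq, dist_self, Real.dist_eq]; exact max_eq_left (abs_nonneg _))
    (fun s hs => ⟨hs, hv⟩) b5 b6 c3 a6
  have hfin : 9 * (L ^ 2 * (L ^ 2 * K')) = 9 * Real.exp (32 * Real.sqrt K) * K' := by
    have h1 : Real.exp (32 * Real.sqrt K) = L ^ 4 := by
      rw [hLdef, ← Real.exp_nat_mul]
      congr 1
      push_cast
      ring
    rw [h1]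
    ring
  have hc0 : 0 ≤ L ^ 2 * K' := by positivity
  have hvI : v0 ∈ Icc (0:ℝ) (1/2) := ⟨hv.1.le, hv.2.le⟩
  refine ⟨a1, a2, a3, ?_, ?_, ?_⟩
  · rw [← hfin]
    exact Trp_side hh hA hL1 hc0 hu a0 hvI ⟨le_rfl, by norm_num⟩ hX.glA (Trp_conj hh hA a1)
      g0 g1 g2
  · rw [← hfin]
    exact Trp_side hh hB hL1 hc0 hu a0 hvI ⟨by norm_num, le_rfl⟩ hX.glB (Trp_conj hh hB a2)
      g0 g1 g2
  · rw [← hfin]
    have e1 : C * X (0, v0) * C⁻¹ = X (1, v0) := by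
      rw [← hX.glC v0 hv, Matrix.mul_nonsing_inv_cancel_right _ _ hC]
    have e2 : C * X (u0, v0) * C⁻¹ - X (u0, v0) =
        C * (X (u0, v0) - X (0, v0)) * C⁻¹ + (X (1, v0) - X (u0, v0)) + 0 := by
      rw [Matrix.mul_sub, Matrix.sub_mul, e1]
      abel
    have hu0I : u0 ∈ Icc (0:ℝ) 1 := ⟨hu.1.le, hu.2.le⟩
    rw [e2]
    refine (Trp_three hh _ _ _).trans ?_
    have f1 := (Trp_conj hh hC a3 (X (u0, v0) - X (0, v0))).trans
      (mul_le_mul_of_nonneg_left (g2 u0 hu0I 0 ⟨le_rfl, zero_le_one⟩) (sq_nonneg L))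
    have f2 := g2 1 ⟨zero_le_one, le_rfl⟩ u0 hu0I
    have f3 : n2 (H (u0, v0)) 0 = 0 := by
      unfold n2
      simp
    have hL2 : 1 ≤ L ^ 2 := by nlinarith
    have hLc : L ^ 2 * K' ≤ L ^ 2 * (L ^ 2 * K') := by nlinarith
    rw [f3]
    linarith

end H80HM
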