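import Pool.Agent.H80.HM.Bdu
import Pool.Agent.H80.HM.Jhd

set_option autoImplicit false

/-!
# Row Utp: constituents of representations with eigenvalues of modulus one

cst: from jh: (N, k, r) as there; Mo (r_i g) by mo_dvd; bd_unit gives the invariant positive definite h_i. For a set S of elements g with IsNilpotent (rho(g)^m - 1): rho(g)^m = rho(g^m) has
charpoly (X-1)^d (unipotent), charpoly (r_i(g^m)) divides it, so r_i(g^m) - 1 is nilpotent (Cayley-Hamilton), and unip_of_unitary gives r_i(g)^m = 1.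
unip_all: all generators have rho(of j) - 1 nilpotent, so r_i(of j) = 1 for all i, j (m = 1) and r_i = 1: charpoly rho(w) = product of (X-1)^(k_i) = (X-1)^D (a product of powers of X - 1), so
rho(w) - 1 is nilpotent (Cayley-Hamilton).
unip_ker: charpoly (pi g) = product of the charpoly of 1 = a power of X - 1.
-/

namespace H80HM

open Matrix
open scoped ComplexOrder

private theorem Utp_iff {m : ℕ} (M : Mt m) :
    IsNilpotent (M - 1) ↔ ∀ z ∈ M.charpoly.roots, z = 1 := by
  constructor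
  · rintro ⟨n, hn⟩ z hz
    rw [Polynomial.mem_roots (Matrix.charpoly_monic M).ne_zero,
      ← Matrix.mem_spectrum_iff_isRoot_charpoly] at hz
    have h1 : z - 1 ∈ spectrum ℂ (M - 1) := by
      intro h2
      apply hz
      rw [spectrum.mem_resolventSet_iff] at h2 ⊢
      have e : algebraMap ℂ (Mt m) (z - 1) - (M - 1) = algebraMap ℂ (Mt m) z - M := by
        rw [map_sub, map_one]
        abel
      rwa [e] at h2
    have h2 := spectrum.pow_mem_pow (M - 1) n h1
    rw [hn] at h2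
    have h3 : (z - 1) ^ n = 0 := by
      by_contra h4
      apply h2
      rw [spectrum.mem_resolventSet_iff, sub_zero]
      exact (IsUnit.mk0 _ h4).map _
    exact sub_eq_zero.1 (eq_zero_of_pow_eq_zero h3)
  · intro h
    have h1 : M.charpoly = (M.charpoly.roots.map (fun a => Polynomial.X - Polynomial.C a)).prod :=
      (IsAlgClosed.splits M.charpoly).eq_prod_roots_of_monic (Matrix.charpoly_monic M)
    have h2 : M.charpoly.roots.map (fun a => Polynomial.X - Polynomial.C a) =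
        M.charpoly.roots.map (fun _ => (Polynomial.X - Polynomial.C (1 : ℂ))) :=
      Multiset.map_congr rfl (fun z hz => by rw [h z hz])
    rw [h2, Multiset.map_const', Multiset.prod_replicate] at h1
    refine ⟨Multiset.card M.charpoly.roots, ?_⟩
    have h3 := Matrix.aeval_self_charpoly M
    rw [h1, map_pow, map_sub, Polynomial.aeval_X, Polynomial.aeval_C, map_one] at h3
    exact h3

private theorem Utp_dvd {m m' : ℕ} {M : Mt m} {N : Mt m'} (hd : M.charpoly ∣ N.charpoly)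
    (h : IsNilpotent (N - 1)) : IsNilpotent (M - 1) := by
  rw [Utp_iff] at h ⊢
  intro z hz
  exact h z (Multiset.mem_of_le (Polynomial.roots.le_of_dvd
    (Matrix.charpoly_monic N).ne_zero hd) hz)

theorem cst {G : Type} [Group G] {d : ℕ} (rho : G →* (Mt d)ˣ)
    (hmo : ∀ w, Mo ((rho w : (Mt d)ˣ) : Mt d)) :
    ∃ (N : ℕ) (k : Fin N → ℕ) (r : ∀ i, G →* (Mt (k i))ˣ),
      (∀ i, 0 < k i) ∧ (∀ i, Irg (r i)) ∧
      (∀ g, ((rho g : (Mt d)ˣ) : Mt d).charpoly =
        ∏ i, ((r i g : (Mt (k i))ˣ) : Mt (k i)).charpoly) ∧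
      (∀ i, ∃ h : Mt (k i), h.PosDef ∧ ∀ g, ((r i g : (Mt (k i))ˣ) : Mt (k i)) * h *
        (((r i g : (Mt (k i))ˣ) : Mt (k i)))ᴴ = h) ∧
      (∀ (m : ℕ) (g : G), IsNilpotent ((((rho g : (Mt d)ˣ) : Mt d)) ^ m - 1) →
        ∀ i, (r i g) ^ m = 1) ∧
      (∀ g, (∀ i, r i g = 1) → IsNilpotent (((rho g : (Mt d)ˣ) : Mt d) - 1)) := by
  obtain ⟨N, k, r, hk, hirr, hch, -⟩ := jh rho
  have hdv : ∀ i g, ((r i g : (Mt (k i))ˣ) : Mt (k i)).charpoly ∣
      ((rho g : (Mt d)ˣ) : Mt d).charpoly := by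
    intro i g
    rw [hch g]
    exact Finset.dvd_prod_of_mem (fun i => ((r i g : (Mt (k i))ˣ) : Mt (k i)).charpoly)
      (Finset.mem_univ i)
  have hH : ∀ i, ∃ h : Mt (k i), h.PosDef ∧ ∀ g, ((r i g : (Mt (k i))ˣ) : Mt (k i)) * h *
        (((r i g : (Mt (k i))ˣ) : Mt (k i)))ᴴ = h := fun i =>
    bd_unit (r i) (hirr i) (fun g => mo_dvd (hdv i g) (hmo g))
  refine ⟨N, k, r, hk, hirr, hch, hH, ?_, ?_⟩
  · intro m g hn i
    obtain ⟨h, hp, hu⟩ := hH i
    have h1 : IsNilpotent (((rho (g ^ m) : (Mt d)ˣ) : Mt d) - 1) := by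
      rw [map_pow, Units.val_pow_eq_pow_val]
      exact hn
    have h2 := unip_of_unitary hp (hu (g ^ m)) (Utp_dvd (hdv i (g ^ m)) h1)
    rw [← map_pow]
    exact Units.ext h2
  · intro g hg
    rw [Utp_iff]
    intro z hz
    rw [Polynomial.mem_roots (Matrix.charpoly_monic _).ne_zero, hch g, Polynomial.IsRoot.def,
      Polynomial.eval_prod, Finset.prod_eq_zero_iff] at hz
    obtain ⟨i, -, hi⟩ := hz
    have h1 : IsNilpotent (((r i g : (Mt (k i))ˣ) : Mt (k i)) - 1) := by
      rw [hg i, Units.val_one, sub_self]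
      exact IsNilpotent.zero
    exact (Utp_iff _).1 h1 z
      ((Polynomial.mem_roots (Matrix.charpoly_monic _).ne_zero).2 hi)

theorem unip_all {n d : ℕ} (rho : FreeGroup (Fin n) →* (Mt d)ˣ)
    (hmo : ∀ w, Mo ((rho w : (Mt d)ˣ) : Mt d))
    (hu : ∀ i, IsNilpotent (((rho (FreeGroup.of i) : (Mt d)ˣ) : Mt d) - 1)) :
    ∀ w, IsNilpotent (((rho w : (Mt d)ˣ) : Mt d) - 1) := by
  obtain ⟨N, k, r, -, -, -, -, h5, h6⟩ := cst rho hmo
  intro w
  refine h6 w (fun i => ?_)
  have h1 : r i = 1 := by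
    refine FreeGroup.ext_hom (f := r i) (g := 1) (fun j => ?_)
    have h2 := h5 1 (FreeGroup.of j) (by rw [pow_one]; exact hu j) i
    rw [pow_one] at h2
    rw [h2, MonoidHom.one_apply]
  rw [h1, MonoidHom.one_apply]

end H80HM
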