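import Pool.Agent.H80.HM.Kol
import Pool.Agent.H80.HM.Utp
import Pool.Agent.H80.HM.Trf
import Pool.Agent.H80.HM.Cub

set_option autoImplicit false

/-!
# Row Vso: virtual solvability

vs_of_fin: rho : G -> GL_d with constituents (N, k, r) as in cst; if all r_i have finite range then N0 = the intersection of the kernels of the r_i has finite index in G; K := image of N0 in
  rho.range (N0.map rho.rangeRestrict) has finite index; its elements are unipotent (last clause of cst), so K is solvable by kolchin (transported from the image subgroup of (Mt d)ˣ: K is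
  isomorphic to N0.map rho).
vsolv: the roots z of charpoly (rho w) satisfy |s z| = 1 for all automorphisms s of C and are integral. Mo (s = id). For a constituent r_i: trace r_i(w) = sum of the k_i roots of its charpoly, which
  are roots of charpoly (rho w): integral, and |s(trace)| <= k_i. fin_img: finite range. 
vsolv23: rho characteristic, Mo everywhere, IsNilpotent (rho(of i)^m - 1) with m = 2 or 3. For an automorphism sigma: rho(sigma(of i)) is conjugate to rho(of i), so IsNilpotent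
  (rho(sigma(of i))^m - 1), and r_j(sigma(of i))^m = 1 by cst: cube gives finite range.
usolv: all rho(w) - 1 nilpotent: kolchin for the range of rho.
-/

namespace H80HM

open Matrix

theorem Vso_fin {G : Type} [Group G] {d N : ℕ} (rho : G →* (Mt d)ˣ) {k : Fin N → ℕ}
    (r : ∀ i, G →* (Mt (k i))ˣ) (hfin : ∀ i, (Set.range (r i)).Finite)
    (hu : ∀ g, (∀ i, r i g = 1) → IsNilpotent (((rho g : (Mt d)ˣ) : Mt d) - 1)) :
    ∃ K : Subgroup rho.range, K.FiniteIndex ∧ IsSolvable K := by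
  have h0 : (⨅ i, (r i).ker).FiniteIndex := by
    refine Subgroup.finiteIndex_iInf fun i => ?_
    have : Finite (r i).range := (hfin i).to_subtype
    infer_instance
  refine ⟨(⨅ i, (r i).ker).map rho.rangeRestrict, ?_, ?_⟩
  · have h1 := Subgroup.index_map_dvd (⨅ i, (r i).ker) rho.rangeRestrict_surjective
    refine ⟨fun h2 => ?_⟩
    rw [h2, zero_dvd_iff] at h1
    exact h0.index_ne_zero h1
  · have h1 : IsSolvable ((⨅ i, (r i).ker).map rho) := by
      refine kolchin _ ?_
      rintro _ ⟨g, hg, rfl⟩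
      refine hu g fun i => ?_
      exact (Subgroup.mem_iInf.1 hg i)
    let f : ((⨅ i, (r i).ker).map rho.rangeRestrict) →* ((⨅ i, (r i).ker).map rho) :=
      { toFun := fun x => ⟨((x : rho.range) : (Mt d)ˣ), by
          obtain ⟨⟨y, hy⟩, ⟨g, hg, hgy⟩⟩ := x
          exact ⟨g, hg, congrArg Subtype.val hgy⟩⟩
        map_one' := rfl
        map_mul' := fun x y => rfl }
    have hf : Function.Injective f := by
      intro x y hxy
      have h2 := congrArg Subtype.val hxy
      exact Subtype.ext (Subtype.ext h2)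
    have h3 : Group.IsSolvable ((⨅ i, (r i).ker).map rho) := h1
    exact Group.isSolvable_of_isSolvable_injective hf

theorem vsolv {n d : ℕ} (rho : FreeGroup (Fin n) →* (Mt d)ˣ)
    (hall : ∀ w, ∀ s : ℂ ≃+* ℂ, ∀ z ∈ ((rho w : (Mt d)ˣ) : Mt d).charpoly.roots, ‖s z‖ = 1)
    (hint : ∀ w, ∀ z ∈ ((rho w : (Mt d)ˣ) : Mt d).charpoly.roots, IsIntegral ℤ z) :
    ∃ K : Subgroup rho.range, K.FiniteIndex ∧ IsSolvable K := by
  have hmo : ∀ w, Mo ((rho w : (Mt d)ˣ) : Mt d) := fun w z hz => hall w (RingEquiv.refl ℂ) z hz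
  obtain ⟨N, k, r, -, hirr, hch, -, -, hu⟩ := cst rho hmo
  refine Vso_fin rho r (fun i => ?_) hu
  have hroot : ∀ g, ∀ z ∈ ((r i g : (Mt (k i))ˣ) : Mt (k i)).charpoly.roots,
      z ∈ ((rho g : (Mt d)ˣ) : Mt d).charpoly.roots := by
    intro g z hz
    have hne : ((rho g : (Mt d)ˣ) : Mt d).charpoly ≠ 0 := (Matrix.charpoly_monic _).ne_zero
    refine Multiset.mem_of_le (Polynomial.roots.le_of_dvd hne ?_) hz
    rw [hch g]
    exact Finset.dvd_prod_of_mem _ (Finset.mem_univ i)
  refine fin_img (r i) (hirr i) (fun g => ?_) (fun g s => ?_)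
  · rw [Matrix.trace_eq_sum_roots_charpoly]
    exact IsIntegral.multiset_sum fun z hz => hint g z (hroot g z hz)
  · rw [Matrix.trace_eq_sum_roots_charpoly, map_multiset_sum]
    have hcard : (((r i g : (Mt (k i))ˣ) : Mt (k i)).charpoly.roots).card = k i := by
      rw [IsAlgClosed.card_roots_eq_natDegree, Matrix.charpoly_natDegree_eq_dim, Fintype.card_fin]
    have hle : ∀ S : Multiset ℂ, (∀ z ∈ S, ‖s z‖ = 1) → ‖(S.map s).sum‖ ≤ S.card := by
      intro S
      induction S using Multiset.induction_on with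
      | empty => intro _; simp
      | cons a S ih =>
        intro h
        rw [Multiset.map_cons, Multiset.sum_cons, Multiset.card_cons]
        push_cast
        have h1 := h a (Multiset.mem_cons_self a S)
        have h2 := ih fun z hz => h z (Multiset.mem_cons_of_mem hz)
        have h3 := norm_add_le (s a) (S.map s).sum
        linarith
    have h1 := hle _ (fun z hz => hall g s z (hroot g z hz))
    rw [hcard] at h1
    exact h1

theorem vsolv23 {n d m : ℕ} (rho : FreeGroup (Fin n) →* (Mt d)ˣ) (hchr : Chr rho)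
    (hmo : ∀ w, Mo ((rho w : (Mt d)ˣ) : Mt d)) (hm : m = 2 ∨ m = 3)
    (hu : ∀ i, IsNilpotent (((rho (FreeGroup.of i) : (Mt d)ˣ) : Mt d) ^ m - 1)) :
    ∃ K : Subgroup rho.range, K.FiniteIndex ∧ IsSolvable K := by
  obtain ⟨N, k, r, -, -, -, -, hpow, hun⟩ := cst rho hmo
  refine Vso_fin rho r (fun j => ?_) hun
  refine cube (r j) hm (fun sigma i => ?_)
  refine hpow m _ ?_ j
  obtain ⟨g, hg⟩ := hchr sigma
  have h1 : ((rho (sigma (FreeGroup.of i)) : (Mt d)ˣ) : Mt d) ^ m - 1 =
      (g : Mt d) * (((rho (FreeGroup.of i) : (Mt d)ˣ) : Mt d) ^ m - 1) * ((g⁻¹ : (Mt d)ˣ) : Mt d) := by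
    have h2 : (rho (sigma (FreeGroup.of i))) ^ m = g * (rho (FreeGroup.of i)) ^ m * g⁻¹ := by
      rw [hg, conj_pow]
    have h3 : ((rho (sigma (FreeGroup.of i)) : (Mt d)ˣ) : Mt d) ^ m =
        (g : Mt d) * ((rho (FreeGroup.of i) : (Mt d)ˣ) : Mt d) ^ m * ((g⁻¹ : (Mt d)ˣ) : Mt d) := by
      rw [← Units.val_pow_eq_pow_val, h2, Units.val_mul, Units.val_mul, Units.val_pow_eq_pow_val]
    rw [h3, mul_sub, sub_mul, mul_one, Units.mul_inv]
  rw [h1]
  obtain ⟨e, he⟩ := hu i
  refine ⟨e, ?_⟩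
  have h4 : ∀ (M : Mt d) (e : ℕ), ((g : Mt d) * M * ((g⁻¹ : (Mt d)ˣ) : Mt d)) ^ e =
      (g : Mt d) * M ^ e * ((g⁻¹ : (Mt d)ˣ) : Mt d) := by
    intro M e
    induction e with
    | zero => rw [pow_zero, pow_zero, mul_one, Units.mul_inv]
    | succ e ih =>
      rw [pow_succ, ih, pow_succ]
      have h5 : ((g⁻¹ : (Mt d)ˣ) : Mt d) * (g : Mt d) = 1 := Units.inv_mul g
      calc (g : Mt d) * M ^ e * ((g⁻¹ : (Mt d)ˣ) : Mt d) * ((g : Mt d) * M * ((g⁻¹ : (Mt d)ˣ) : Mt d))
          = (g : Mt d) * M ^ e * (((g⁻¹ : (Mt d)ˣ) : Mt d) * (g : Mt d)) * M *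
            ((g⁻¹ : (Mt d)ˣ) : Mt d) := by simp only [mul_assoc]
        _ = (g : Mt d) * (M ^ e * M) * ((g⁻¹ : (Mt d)ˣ) : Mt d) := by
          rw [h5, mul_one]; simp only [mul_assoc]
  rw [h4, he, mul_zero, zero_mul]

theorem usolv {G : Type} [Group G] {d : ℕ} (rho : G →* (Mt d)ˣ)
    (hu : ∀ w, IsNilpotent (((rho w : (Mt d)ˣ) : Mt d) - 1)) : IsSolvable rho.range := by
  refine kolchin _ ?_
  rintro _ ⟨w, rfl⟩
  exact hu w

end H80HM
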